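import Pool.Agent.Lib.MP_4eed4e_an_R.ADefs

/-!
MP_4eed4e_an, project R, module A01: cells and regular sets.
-/

namespace Pool.Agent.MP4eed4eR

open MeasureTheory Set Filter Topology Metric

noncomputable section

namespace BlA

/-- Proof: `U` is contained in the union of the disjoint open sets `D` and `(closure D)ᶜ`, because
`frontier D = closure D \ D` (`IsOpen.frontier_eq`); a preconnected set lies in one of them
(`isPreconnected_iff_subset_of_disjoint` or `IsPreconnected.subset_left_of_subset_union`). -/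
theorem cell_or {D U : Set P} (hD : IsOpen D) (hU : IsPreconnected U)
    (hf : ∀ q ∈ U, q ∉ frontier D) : U ⊆ D ∨ ∀ q ∈ U, q ∉ D := by
  have h1 : U ⊆ D ∪ (closure D)ᶜ := by
    intro q hq
    by_cases hqD : q ∈ D
    · exact Or.inl hqD
    · refine Or.inr fun hc => hf q hq ?_
      rw [hD.frontier_eq]
      exact ⟨hc, hqD⟩
  have h2 : U ∩ (D ∩ (closure D)ᶜ) = ∅ := by
    rw [eq_empty_iff_forall_notMem]
    rintro q ⟨-, h3, h4⟩
    exact h4 (subset_closure h3)
  rcases isPreconnected_iff_subset_of_disjoint.1 hU D (closure D)ᶜ hD isClosed_closure.isOpen_compl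
    h1 h2 with h3 | h3
  · exact Or.inl h3
  · exact Or.inr fun q hq hqD => h3 hq (subset_closure hqD)

private theorem A01_side {D M U : Set P} (hU : IsOpen U) (hD : IsOpen D) (rM : Reg M) (a b : ℝ)
    (h : ∀ q ∈ U, q.1 ≠ a → q.2 ≠ b → q ∈ D → q ∈ M) : ∀ q ∈ U, q ∈ D → q ∈ M := by
  intro q hqU hqD
  have h1 : ∀ᶠ q' : P in 𝓝 q, q'.1 ≠ q.1 → q'.1 ≠ a := by
    by_cases hq : q.1 = a
    · rw [hq]
      exact Eventually.of_forall fun _ h' => h'
    · have h2 : ∀ᶠ q' : P in 𝓝 q, q'.1 ≠ a := continuous_fst.continuousAt.eventually_ne hq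
      exact h2.mono fun _ h' _ => h'
  have h2 : ∀ᶠ q' : P in 𝓝 q, q'.2 ≠ q.2 → q'.2 ≠ b := by
    by_cases hq : q.2 = b
    · rw [hq]
      exact Eventually.of_forall fun _ h' => h'
    · have h2 : ∀ᶠ q' : P in 𝓝 q, q'.2 ≠ b := continuous_snd.continuousAt.eventually_ne hq
      exact h2.mono fun _ h' _ => h'
  have h3 : ∀ᶠ q' : P in 𝓝 q, q'.1 ≠ q.1 → q'.2 ≠ q.2 → q' ∈ M := by
    filter_upwards [h1, h2, hU.mem_nhds hqU, hD.mem_nhds hqD] with q' e1 e2 e3 e4 e5 e6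
    exact h q' e3 (e1 e5) (e2 e6) e4
  exact rM q (Metric.eventually_nhds_iff_ball.1 h3)

/-- Proof: let `q ∈ U`, `q ∈ D`. There is `r > 0` with `ball q r ⊆ D ∩ U`; decrease `r` such that
`r ≤ |q.1 - a|` if `q.1 ≠ a` and `r ≤ |q.2 - b|` if `q.2 ≠ b`. A point `q' ∈ ball q r` with
`q'.1 ≠ q.1`, `q'.2 ≠ q.2` satisfies `q'.1 ≠ a` and `q'.2 ≠ b` (`dist` on the product is the
maximum), so it is in `M`; `Reg M` gives `q ∈ M`. The converse is the same. -/
theorem reg_agree {D M U : Set P} (hU : IsOpen U) (hD : IsOpen D) (hM : IsOpen M) (rD : Reg D)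
    (rM : Reg M) (a b : ℝ) (h : ∀ q ∈ U, q.1 ≠ a → q.2 ≠ b → (q ∈ D ↔ q ∈ M)) :
    ∀ q ∈ U, (q ∈ D ↔ q ∈ M) := fun q hq =>
  ⟨A01_side hU hD rM a b (fun q hq h1 h2 => (h q hq h1 h2).1) q hq,
    A01_side hU hM rD a b (fun q hq h1 h2 => (h q hq h1 h2).2) q hq⟩

private theorem A01_open (w : ℝ × ℝ) : IsOpen {y : ℝ | wIn w y} := by
  by_cases h : w.2 = 0
  · have h1 : {y : ℝ | wIn w y} = univ := eq_univ_of_forall fun y => Or.inl h
    rw [h1]
    exact isOpen_univ
  · have h1 : {y : ℝ | wIn w y} = {y : ℝ | 0 < w.2 * (y - w.1)} := by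
      ext y
      exact ⟨fun h2 => h2.resolve_left h, fun h2 => Or.inr h2⟩
    rw [h1]
    exact isOpen_lt continuous_const (by fun_prop)

/-- Proof: `wIn w y` is `True` for `w.2 = 0` and otherwise an open condition; preimages under
continuous maps. -/
theorem isOpen_prod (w₁ w₂ : ℝ × ℝ) : IsOpen {q : P | wIn w₁ q.1 ∧ wIn w₂ q.2} :=
  ((A01_open w₁).preimage continuous_fst).inter ((A01_open w₂).preimage continuous_snd)

private theorem A01_reg {M : Set P}
    (h : ∀ q, q ∉ M → ∀ r > 0, ∃ q' : P, |q'.1 - q.1| < r ∧ |q'.2 - q.2| < r ∧ q'.1 ≠ q.1 ∧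
      q'.2 ≠ q.2 ∧ q' ∉ M) : Reg M := by
  rintro q ⟨r, hr, hq⟩
  by_contra hqM
  obtain ⟨q', h1, h2, h3, h4, h5⟩ := h q hqM r hr
  refine h5 (hq q' ?_ h3 h4)
  rw [Metric.mem_ball, Prod.dist_eq, max_lt_iff, Real.dist_eq, Real.dist_eq]
  exact ⟨h1, h2⟩

private theorem A01_wall {w : ℝ × ℝ} {y : ℝ} (h : ¬ wIn w y) {r : ℝ} (hr : 0 < r) :
    ∃ y', |y' - y| < r ∧ y' ≠ y ∧ ¬ wIn w y' := by
  unfold wIn at h
  push Not at h
  have h0 : 0 < |w.2| := abs_pos.2 h.1
  have he : 0 < r / (2 * (|w.2| + 1)) := by positivity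
  refine ⟨y - w.2 * (r / (2 * (|w.2| + 1))), ?_, ?_, ?_⟩
  · rw [sub_sub_cancel_left, abs_neg, abs_mul, abs_of_pos he, mul_div_assoc',
      div_lt_iff₀ (by positivity)]
    nlinarith
  · intro h1
    have h2 : w.2 * (r / (2 * (|w.2| + 1))) = 0 := by linarith
    rcases mul_eq_zero.1 h2 with h3 | h3
    · exact h.1 h3
    · exact he.ne' h3
  · rintro (h1 | h1)
    · exact h.1 h1
    · have h2 : w.2 * (y - w.2 * (r / (2 * (|w.2| + 1))) - w.1) =
        w.2 * (y - w.1) - w.2 ^ 2 * (r / (2 * (|w.2| + 1))) := by ring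
      have h3 : 0 ≤ w.2 ^ 2 * (r / (2 * (|w.2| + 1))) := by positivity
      linarith [h.2]

/-- Proof: suppose that `q` is not in the set, for instance `¬ wIn w₁ q.1`, i.e. `w₁.2 ≠ 0` and
`w₁.2 * (q.1 - w₁.1) ≤ 0`. For `r > 0` the point `q' = (q.1 - w₁.2 * ε, q.2 + ε)` with
`ε = r / (2 * (|w₁.2| + 1))` is in `ball q r`, off the cross of `q`, and
`w₁.2 * (q'.1 - w₁.1) ≤ - w₁.2 ^ 2 * ε < 0`, so it is not in the set: contradiction. -/
theorem reg_prod (w₁ w₂ : ℝ × ℝ) : Reg {q : P | wIn w₁ q.1 ∧ wIn w₂ q.2} := by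
  refine A01_reg fun q hq r hr => ?_
  have h1 : |r / 2| < r := by
    rw [abs_of_pos (half_pos hr)]
    exact half_lt_self hr
  have h2 : r / 2 ≠ 0 := (half_pos hr).ne'
  rcases not_and_or.1 hq with h | h
  · obtain ⟨y', e1, e2, e3⟩ := A01_wall h hr
    refine ⟨(y', q.2 + r / 2), e1, ?_, e2, ?_, fun h' => e3 h'.1⟩
    · change |q.2 + r / 2 - q.2| < r
      rwa [add_sub_cancel_left]
    · change q.2 + r / 2 ≠ q.2
      exact fun h' => h2 (by linarith)
  · obtain ⟨y', e1, e2, e3⟩ := A01_wall h hr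
    refine ⟨(q.1 + r / 2, y'), ?_, e1, ?_, e2, fun h' => e3 h'.2⟩
    · change |q.1 + r / 2 - q.1| < r
      rwa [add_sub_cancel_left]
    · change q.1 + r / 2 ≠ q.1
      exact fun h' => h2 (by linarith)

theorem isOpen_union (v : P) (s t : ℝ) :
    IsOpen {q : P | 0 < s * (q.1 - v.1) ∨ 0 < t * (q.2 - v.2)} :=
  (isOpen_lt continuous_const (by fun_prop : Continuous fun q : P => s * (q.1 - v.1))).union
    (isOpen_lt continuous_const (by fun_prop : Continuous fun q : P => t * (q.2 - v.2)))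

private theorem A01_sgn {s : ℝ} (hs : IsS s) {r : ℝ} (hr : 0 < r) (x y : ℝ)
    (h : ¬ 0 < s * (y - x)) :
    |y - s * (r / 2) - y| < r ∧ y - s * (r / 2) ≠ y ∧ ¬ 0 < s * (y - s * (r / 2) - x) := by
  rcases hs with rfl | rfl
  · refine ⟨?_, fun h' => ?_, fun h' => h ?_⟩
    · rw [abs_lt]
      constructor <;> linarith
    · linarith
    · linarith
  · refine ⟨?_, fun h' => ?_, fun h' => h ?_⟩
    · rw [abs_lt]
      constructor <;> linarith
    · linarith
    · linarith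

/-- Proof: if `q` is not in the set then `s * (q.1 - v.1) ≤ 0` and `t * (q.2 - v.2) ≤ 0`; the
points `(q.1 - s * ε, q.2 - t * ε)` with small `ε > 0` are not in the set either. -/
theorem reg_union (v : P) {s t : ℝ} (hs : IsS s) (ht : IsS t) :
    Reg {q : P | 0 < s * (q.1 - v.1) ∨ 0 < t * (q.2 - v.2)} := by
  refine A01_reg fun q hq r hr => ?_
  obtain ⟨h1, h2⟩ := not_or.1 hq
  obtain ⟨a1, a2, a3⟩ := A01_sgn hs hr _ _ h1
  obtain ⟨b1, b2, b3⟩ := A01_sgn ht hr _ _ h2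
  exact ⟨(q.1 - s * (r / 2), q.2 - t * (r / 2)), a1, b1, a2, b2, fun h' => h'.elim a3 b3⟩

private theorem A01_cvx {l : P → ℝ} (hl : ∀ (u v : ℝ) (p q : P), u + v = 1 →
    l (u • p + v • q) = u * l p + v * l q) : Convex ℝ {q : P | 0 < l q} := by
  intro p hp q hq u v hu hv huv
  have hp' : 0 < l p := hp
  have hq' : 0 < l q := hq
  change 0 < l (u • p + v • q)
  rw [hl u v p q huv]
  rcases hu.eq_or_lt with h0 | h0
  · rw [← h0, zero_add] at huv
    rw [← h0, huv]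
    linarith
  · exact add_pos_of_pos_of_nonneg (mul_pos h0 hp') (mul_nonneg hv hq'.le)

private theorem A01_cvx1 (s a : ℝ) : Convex ℝ {q : P | 0 < s * (q.1 - a)} := by
  refine A01_cvx fun u v p q huv => ?_
  have h1 : v = 1 - u := by linarith
  change s * (u * p.1 + v * q.1 - a) = u * (s * (p.1 - a)) + v * (s * (q.1 - a))
  rw [h1]
  ring

private theorem A01_cvx2 (s a : ℝ) : Convex ℝ {q : P | 0 < s * (q.2 - a)} := by
  refine A01_cvx fun u v p q huv => ?_
  have h1 : v = 1 - u := by linarith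
  change s * (u * p.2 + v * q.2 - a) = u * (s * (p.2 - a)) + v * (s * (q.2 - a))
  rw [h1]
  ring

/-- Proof: convexity: the set is an intersection of a ball of the normed space `ℝ × ℝ`
(`convex_ball`) with open half planes (`convex_halfSpace_gt` or directly from the definition of
convexity); `Convex.isPreconnected`. -/
theorem cell_preconnected (x : P) (ρ : ℝ) (a b s t : ℝ) :
    IsPreconnected {q : P | q ∈ ball x ρ ∧ 0 < s * (q.1 - a) ∧ 0 < t * (q.2 - b)} :=
  ((convex_ball x ρ).inter ((A01_cvx1 s a).inter (A01_cvx2 t b))).isPreconnected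

theorem half_preconnected₁ (x : P) (ρ : ℝ) (a s : ℝ) :
    IsPreconnected {q : P | q ∈ ball x ρ ∧ 0 < s * (q.1 - a)} :=
  ((convex_ball x ρ).inter (A01_cvx1 s a)).isPreconnected

theorem half_preconnected₂ (x : P) (ρ : ℝ) (b t : ℝ) :
    IsPreconnected {q : P | q ∈ ball x ρ ∧ 0 < t * (q.2 - b)} :=
  ((convex_ball x ρ).inter (A01_cvx2 t b)).isPreconnected

end BlA

end

end Pool.Agent.MP4eed4eR
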