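import Pool.Agent.Lib.MP_4eed4e_an_R.ADefs

/-!
MP_4eed4e_an, project R, module A02: the local types of the boundary.
-/

namespace Pool.Agent.MP4eed4eR

open MeasureTheory Set Filter Topology Metric

noncomputable section

namespace BlA

variable {D : Set P}

private theorem a02_neg {s : ℝ} (h : IsS s) : IsS (-s) := by
  rcases h with h | h
  · exact Or.inr (by rw [h])
  · exact Or.inl (by rw [h, neg_neg])

private theorem a02_sq {s : ℝ} (h : IsS s) : s * s = 1 := by
  rcases h with h | h <;> rw [h] <;> norm_num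

private theorem a02_abs {s : ℝ} (h : IsS s) : |s| = 1 := by
  rcases h with h | h <;> rw [h] <;> norm_num

private theorem a02_ball {p q : P} {r : ℝ} :
    q ∈ ball p r ↔ |q.1 - p.1| < r ∧ |q.2 - p.2| < r := by
  rw [mem_ball, Prod.dist_eq, max_lt_iff, Real.dist_eq, Real.dist_eq]

private theorem a02_move {s ε : ℝ} (hs : IsS s) (x : ℝ) (hε : 0 ≤ ε) : |x + s * ε - x| = ε := by
  rw [add_sub_cancel_left, abs_mul, a02_abs hs, one_mul, abs_of_nonneg hε]

/-- Near every frontier point some open quadrant lies outside of `D`. Proof: the four cases of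
`RectDomain.loc`. `VertPt` with the sign `s`: take the quadrant `(-s, 1)`: for `0 < -s * (q.1 -
p.1)` we have `q ∉ D`. `HorPt` with the sign `t`: `(1, -t)`. `ConvexPt` with `s, t`: `(-s, t)`.
`ReflexPt` with `s, t`: `(-s, -t)`. -/
theorem frontier_quad (hD : RectDomain D) {p : P} (hp : p ∈ frontier D) :
    ∃ s t : ℝ, IsS s ∧ IsS t ∧ ∃ r > 0, ∀ q ∈ ball p r,
      0 < s * (q.1 - p.1) → 0 < t * (q.2 - p.2) → q ∉ D := by
  rcases hD.loc p hp with h | h | h | h
  · obtain ⟨r, hr, s, hs, h⟩ := h
    refine ⟨-s, 1, a02_neg hs, Or.inl rfl, r, hr, fun q hq h1 _ hqD => ?_⟩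
    have h2 := (h q hq).1 hqD
    linarith
  · obtain ⟨r, hr, t, ht, h⟩ := h
    refine ⟨1, -t, Or.inl rfl, a02_neg ht, r, hr, fun q hq _ h1 hqD => ?_⟩
    have h2 := (h q hq).1 hqD
    linarith
  · obtain ⟨r, hr, s, t, hs, ht, h⟩ := h
    refine ⟨-s, t, a02_neg hs, ht, r, hr, fun q hq h1 _ hqD => ?_⟩
    have h2 := ((h q hq).1 hqD).1
    linarith
  · obtain ⟨r, hr, s, t, hs, ht, h⟩ := h
    refine ⟨-s, -t, a02_neg hs, a02_neg ht, r, hr, fun q hq h1 h3 hqD => ?_⟩
    rcases (h q hq).1 hqD with h2 | h2
    · linarith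
    · linarith

/-- Proof: let all points of `ball q r` off the cross of `q` be in `D`. They accumulate at `q`, so
`q ∈ closure D`. If `q ∉ D` then `q ∈ frontier D` (`IsOpen.frontier_eq`) and `frontier_quad` gives
`s, t, r'`; the point `(q.1 + s * ε, q.2 + t * ε)` with `ε = min r r' / 2` is in `D` and not in
`D`. -/
theorem reg_dom (hD : RectDomain D) : Reg D := by
  rintro q ⟨r, hr, h⟩
  have key : ∀ s t ε : ℝ, IsS s → IsS t → 0 < ε → ε < r → ((q.1 + s * ε, q.2 + t * ε) : P) ∈ D := by
    intro s t ε hs ht hε hεr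
    refine h _ (a02_ball.2 ⟨?_, ?_⟩) ?_ ?_
    · show |q.1 + s * ε - q.1| < r
      rw [a02_move hs _ hε.le]
      exact hεr
    · show |q.2 + t * ε - q.2| < r
      rw [a02_move ht _ hε.le]
      exact hεr
    · show q.1 + s * ε ≠ q.1
      intro h0
      have h1 := a02_move hs q.1 hε.le
      rw [h0, sub_self, abs_zero] at h1
      exact hε.ne h1
    · show q.2 + t * ε ≠ q.2
      intro h0
      have h1 := a02_move ht q.2 hε.le
      rw [h0, sub_self, abs_zero] at h1
      exact hε.ne h1
  by_contra hq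
  have hcl : q ∈ closure D := by
    rw [Metric.mem_closure_iff]
    intro ε hε
    have h1 : 0 < min ε r / 2 := by positivity
    have h2 : min ε r / 2 < r := by linarith [min_le_right ε r]
    have h3 : min ε r / 2 < ε := by linarith [min_le_left ε r]
    refine ⟨_, key 1 1 _ (Or.inl rfl) (Or.inl rfl) h1 h2, ?_⟩
    rw [dist_comm, ← mem_ball, a02_ball]
    constructor
    · show |q.1 + 1 * (min ε r / 2) - q.1| < ε
      rw [a02_move (Or.inl rfl) _ h1.le]
      exact h3
    · show |q.2 + 1 * (min ε r / 2) - q.2| < ε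
      rw [a02_move (Or.inl rfl) _ h1.le]
      exact h3
  have hfr : q ∈ frontier D := by
    rw [hD.isOpen.frontier_eq]
    exact ⟨hcl, hq⟩
  obtain ⟨s, t, hs, ht, r', hr', h'⟩ := frontier_quad hD hfr
  have h1 : 0 < min r r' / 2 := by positivity
  have h2 : min r r' / 2 < r := by linarith [min_le_left r r']
  have h3 : min r r' / 2 < r' := by linarith [min_le_right r r']
  refine h' (q.1 + s * (min r r' / 2), q.2 + t * (min r r' / 2)) (a02_ball.2 ⟨?_, ?_⟩) ?_ ?_
    (key s t _ hs ht h1 h2)
  · show |q.1 + s * (min r r' / 2) - q.1| < r'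
    rw [a02_move hs _ h1.le]
    exact h3
  · show |q.2 + t * (min r r' / 2) - q.2| < r'
    rw [a02_move ht _ h1.le]
    exact h3
  · show 0 < s * (q.1 + s * (min r r' / 2) - q.1)
    rw [add_sub_cancel_left, ← mul_assoc, a02_sq hs, one_mul]
    exact h1
  · show 0 < t * (q.2 + t * (min r r' / 2) - q.2)
    rw [add_sub_cancel_left, ← mul_assoc, a02_sq ht, one_mul]
    exact h1

/-- a point with a neighbourhood on which membership is constant is not in the frontier -/
private theorem a02_front (ho : IsOpen D) {q : P} {r : ℝ} (hr : 0 < r)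
    (h : ∀ q' ∈ ball q r, q' ∈ D → q ∈ D) : q ∉ frontier D := by
  intro hq
  rw [ho.frontier_eq] at hq
  obtain ⟨b, hb, hb'⟩ := Metric.mem_closure_iff.1 hq.1 r hr
  refine hq.2 (h b ?_ hb)
  rw [mem_ball, dist_comm]
  exact hb'

/-- the sign of the coordinate is constant near a point off the line -/
private theorem a02_sign {s a x x' : ℝ} (hs : IsS s) (h : |x' - x| < |x - a|)
    (h1 : 0 < s * (x' - a)) : 0 < s * (x - a) := by
  rw [abs_lt] at h
  rcases hs with rfl | rfl
  · rcases le_total 0 (x - a) with h2 | h2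
    · rw [abs_of_nonneg h2] at h
      rcases h2.eq_or_lt with h3 | h3
      · linarith
      · linarith
    · rw [abs_of_nonpos h2] at h
      linarith
  · rcases le_total 0 (x - a) with h2 | h2
    · rw [abs_of_nonneg h2] at h
      linarith
    · rw [abs_of_nonpos h2] at h
      rcases h2.eq_or_lt with h3 | h3
      · linarith
      · linarith

/-- Proof: the four cases of `RectDomain.loc`, with the radius `r` of the local description. Let
`q ∈ ball p r` with `q.1 ≠ p.1` and `q.2 ≠ p.2`. In a small ball about `q` (contained in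
`ball p r`, radius at most `|q.1 - p.1|` and `|q.2 - p.2|`) the signs of the first and of the
second coordinate minus that of `p` are constant, so membership in `D` is constant there, and `q`
is not in the frontier (it is in the interior of `D` or in the interior of the complement). -/
theorem front_cross (hD : RectDomain D) {p : P} (hp : p ∈ frontier D) :
    ∃ r > 0, ∀ q ∈ ball p r, q ∈ frontier D → q.1 = p.1 ∨ q.2 = p.2 := by
  have key : ∀ (M : P → Prop) (r : ℝ), 0 < r → (∀ q ∈ ball p r, (q ∈ D ↔ M q)) →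
      (∀ q q' : P, |q'.1 - q.1| < |q.1 - p.1| → |q'.2 - q.2| < |q.2 - p.2| → M q' → M q) →
      ∃ r > 0, ∀ q ∈ ball p r, q ∈ frontier D → q.1 = p.1 ∨ q.2 = p.2 := by
    intro M r hr hM hc
    refine ⟨r, hr, fun q hq hqf => ?_⟩
    by_contra hne
    rw [not_or] at hne
    have h1 : 0 < |q.1 - p.1| := abs_pos.2 (sub_ne_zero.2 hne.1)
    have h2 : 0 < |q.2 - p.2| := abs_pos.2 (sub_ne_zero.2 hne.2)
    obtain ⟨r', hr', hb⟩ := Metric.isOpen_iff.1 (isOpen_ball (x := p) (ε := r)) q hq
    refine a02_front hD.isOpen (r := min r' (min |q.1 - p.1| |q.2 - p.2|))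
      (lt_min hr' (lt_min h1 h2)) (fun q' hq' hq'D => ?_) hqf
    have h3 := a02_ball.1 hq'
    have h4 : q' ∈ ball p r := hb (ball_subset_ball (min_le_left _ _) hq')
    refine (hM q hq).2 (hc q q' ?_ ?_ ((hM q' h4).1 hq'D))
    · exact lt_of_lt_of_le h3.1 ((min_le_right _ _).trans (min_le_left _ _))
    · exact lt_of_lt_of_le h3.2 ((min_le_right _ _).trans (min_le_right _ _))
  rcases hD.loc p hp with h | h | h | h
  · obtain ⟨r, hr, s, hs, h⟩ := h
    exact key _ r hr h fun q q' h1 _ h3 => a02_sign hs h1 h3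
  · obtain ⟨r, hr, t, ht, h⟩ := h
    exact key _ r hr h fun q q' _ h2 h3 => a02_sign ht h2 h3
  · obtain ⟨r, hr, s, t, hs, ht, h⟩ := h
    exact key _ r hr h fun q q' h1 h2 h3 => ⟨a02_sign hs h1 h3.1, a02_sign ht h2 h3.2⟩
  · obtain ⟨r, hr, s, t, hs, ht, h⟩ := h
    exact key _ r hr h fun q q' h1 h2 h3 => h3.imp (a02_sign hs h1) (a02_sign ht h2)

/-- A reflex vertex is a frontier point, and the half segments on which `D` is missing on one side
belong to the frontier. Proof: let `r, s, t` be as in `ReflexPt`. For `0 ≤ ε < r` the point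
`(p.1, p.2 - t * ε)` is not in `D` (both products are `≤ 0`), and it is the limit of the points
`(p.1 + s * η, p.2 - t * ε)`, `η → 0+`, which are in `D`; so it is in `closure D \ D = frontier D`.
The same for `(p.1 - s * ε, p.2)` with the points `(p.1 - s * ε, p.2 + t * η)`. -/
theorem reflex_rays (hD : RectDomain D) {p : P} (hp : ReflexPt D p) :
    p ∈ frontier D ∧ ∃ s t : ℝ, IsS s ∧ IsS t ∧ ∃ r > 0, ∀ ε, 0 ≤ ε → ε < r →
      ((p.1, p.2 - t * ε) : P) ∈ frontier D ∧ ((p.1 - s * ε, p.2) : P) ∈ frontier D := by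
  obtain ⟨r, hr, s, t, hs, ht, h⟩ := hp
  have hs' : IsS s := hs
  have ht' : IsS t := ht
  have e1 : ∀ {s : ℝ}, IsS s → ∀ (x ε : ℝ), 0 ≤ ε → |x - s * ε - x| = ε := by
    intro s hs x ε hε
    have h1 := a02_move (a02_neg hs) x hε
    rwa [neg_mul, ← sub_eq_add_neg] at h1
  have key : ∀ ε, 0 ≤ ε → ε < r →
      ((p.1, p.2 - t * ε) : P) ∈ frontier D ∧ ((p.1 - s * ε, p.2) : P) ∈ frontier D := by
    intro ε hε hεr
    rw [hD.isOpen.frontier_eq]
    refine ⟨⟨?_, fun hq => ?_⟩, ⟨?_, fun hq => ?_⟩⟩
    · rw [Metric.mem_closure_iff]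
      intro η hη
      have h1 : 0 < min η r / 2 := by positivity
      have h2 : min η r / 2 < r := by linarith [min_le_right η r]
      have h3 : min η r / 2 < η := by linarith [min_le_left η r]
      refine ⟨(p.1 + s * (min η r / 2), p.2 - t * ε), (h _ (a02_ball.2 ⟨?_, ?_⟩)).2
        (Or.inl ?_), ?_⟩
      · show |p.1 + s * (min η r / 2) - p.1| < r
        rw [a02_move hs' _ h1.le]
        exact h2
      · show |p.2 - t * ε - p.2| < r
        rw [e1 ht' _ _ hε]
        exact hεr
      · show 0 < s * (p.1 + s * (min η r / 2) - p.1)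
        rw [add_sub_cancel_left, ← mul_assoc, a02_sq hs', one_mul]
        exact h1
      · rw [dist_comm, ← mem_ball, a02_ball]
        constructor
        · show |p.1 + s * (min η r / 2) - p.1| < η
          rw [a02_move hs' _ h1.le]
          exact h3
        · show |p.2 - t * ε - (p.2 - t * ε)| < η
          rw [sub_self, abs_zero]
          exact hη
    · have h1 : ((p.1, p.2 - t * ε) : P) ∈ ball p r := by
        refine a02_ball.2 ⟨?_, ?_⟩
        · show |p.1 - p.1| < r
          rw [sub_self, abs_zero]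
          exact hr
        · show |p.2 - t * ε - p.2| < r
          rw [e1 ht' _ _ hε]
          exact hεr
      rcases (h _ h1).1 hq with h2 | h2
      · have h3 : 0 < s * (p.1 - p.1) := h2
        rw [sub_self, mul_zero] at h3
        exact lt_irrefl _ h3
      · have h3 : 0 < t * (p.2 - t * ε - p.2) := h2
        have h4 : t * (p.2 - t * ε - p.2) = -(t * t * ε) := by ring
        rw [h4, a02_sq ht', one_mul] at h3
        linarith
    · rw [Metric.mem_closure_iff]
      intro η hη
      have h1 : 0 < min η r / 2 := by positivity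
      have h2 : min η r / 2 < r := by linarith [min_le_right η r]
      have h3 : min η r / 2 < η := by linarith [min_le_left η r]
      refine ⟨(p.1 - s * ε, p.2 + t * (min η r / 2)), (h _ (a02_ball.2 ⟨?_, ?_⟩)).2
        (Or.inr ?_), ?_⟩
      · show |p.1 - s * ε - p.1| < r
        rw [e1 hs' _ _ hε]
        exact hεr
      · show |p.2 + t * (min η r / 2) - p.2| < r
        rw [a02_move ht' _ h1.le]
        exact h2
      · show 0 < t * (p.2 + t * (min η r / 2) - p.2)
        rw [add_sub_cancel_left, ← mul_assoc, a02_sq ht', one_mul]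
        exact h1
      · rw [dist_comm, ← mem_ball, a02_ball]
        constructor
        · show |p.1 - s * ε - (p.1 - s * ε)| < η
          rw [sub_self, abs_zero]
          exact hη
        · show |p.2 + t * (min η r / 2) - p.2| < η
          rw [a02_move ht' _ h1.le]
          exact h3
    · have h1 : ((p.1 - s * ε, p.2) : P) ∈ ball p r := by
        refine a02_ball.2 ⟨?_, ?_⟩
        · show |p.1 - s * ε - p.1| < r
          rw [e1 hs' _ _ hε]
          exact hεr
        · show |p.2 - p.2| < r
          rw [sub_self, abs_zero]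
          exact hr
      rcases (h _ h1).1 hq with h2 | h2
      · have h3 : 0 < s * (p.1 - s * ε - p.1) := h2
        have h4 : s * (p.1 - s * ε - p.1) = -(s * s * ε) := by ring
        rw [h4, a02_sq hs', one_mul] at h3
        linarith
      · have h3 : 0 < t * (p.2 - p.2) := h2
        rw [sub_self, mul_zero] at h3
        exact lt_irrefl _ h3
  refine ⟨?_, s, t, hs', ht', r, hr, key⟩
  have h0 := (key 0 le_rfl hr).1
  rw [mul_zero, sub_zero] at h0
  exact h0

end BlA

end

end Pool.Agent.MP4eed4eR
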