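import Pool.Agent.Lib.MP_4eed4e_an_R.A02

/-!
MP_4eed4e_an, project R, module A03: finitely many grid lines.
-/

namespace Pool.Agent.MP4eed4eR

open MeasureTheory Set Filter Topology Metric

noncomputable section

namespace BlA

variable {D : Set P}

/-- Proof: `frontier D` is closed and bounded (`isClosed_frontier`, contained in `closure D`,
`Bornology.IsBounded.closure`), hence compact in the proper space `ℝ × ℝ`
(`isCompact_of_isClosed_isBounded`). The balls of `front_cross` about its points cover it;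
`IsCompact.elim_nhds_subcover` gives a finite set `T` of centres; `A = T.image Prod.fst`,
`B = T.image Prod.snd`. -/
theorem exists_lines (hD : RectDomain D) :
    ∃ A B : Finset ℝ, ∀ q ∈ frontier D, q.1 ∈ A ∨ q.2 ∈ B := by
  classical
  have hK : IsCompact (frontier D) :=
    isCompact_of_isClosed_isBounded isClosed_frontier
      (hD.isBounded.closure.subset frontier_subset_closure)
  choose! r hr h using fun (p : P) (hp : p ∈ frontier D) => front_cross hD hp
  obtain ⟨T, hT, hcov⟩ := hK.elim_nhds_subcover (fun p => ball p (r p))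
    fun p hp => ball_mem_nhds p (hr p hp)
  refine ⟨T.image Prod.fst, T.image Prod.snd, fun q hq => ?_⟩
  obtain ⟨p, hp, hqp⟩ := mem_iUnion₂.1 (hcov hq)
  rcases h p (hT p hp) q hqp hq with h1 | h1
  · exact Or.inl (Finset.mem_image.2 ⟨p, hp, h1.symm⟩)
  · exact Or.inr (Finset.mem_image.2 ⟨p, hp, h1.symm⟩)

/-- A finite set misses a point of a nondegenerate segment. -/
private theorem exists_eps (B : Finset ℝ) (x : ℝ) {t r : ℝ} (ht : IsS t) (hr : 0 < r) :
    ∃ ε, 0 ≤ ε ∧ ε < r ∧ x - t * ε ∉ B := by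
  have h1 : (Ico (0 : ℝ) r).Infinite := Ico_infinite hr
  have h2 : InjOn (fun ε : ℝ => x - t * ε) (Ico 0 r) := by
    intro a _ b _ hab
    have ht0 : t ≠ 0 := by
      rcases ht with h | h <;> rw [h] <;> norm_num
    exact mul_left_cancel₀ ht0 (sub_right_injective hab)
  obtain ⟨y, ⟨ε, hε, hy⟩, hyB⟩ := (h1.image h2).exists_notMem_finset B
  exact ⟨ε, hε.1, hε.2, by rw [← hy] at hyB; exact hyB⟩

/-- Proof: `reflex_rays`: the points `(p.1, p.2 - t * ε)`, `0 ≤ ε < r`, are frontier points with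
infinitely many different second coordinates (`t = ±1`), so one of them has `q.2 ∉ B`, hence
`p.1 = q.1 ∈ A`. The same in the other direction. -/
theorem reflex_grid (hD : RectDomain D) {A B : Finset ℝ}
    (hAB : ∀ q ∈ frontier D, q.1 ∈ A ∨ q.2 ∈ B) {p : P} (hp : ReflexPt D p) :
    p.1 ∈ A ∧ p.2 ∈ B := by
  obtain ⟨-, s, t, hs, ht, r, hr, h⟩ := reflex_rays hD hp
  constructor
  · obtain ⟨ε, h0, h1, h2⟩ := exists_eps B p.2 ht hr
    exact (hAB _ (h ε h0 h1).1).resolve_right h2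
  · obtain ⟨ε, h0, h1, h2⟩ := exists_eps A p.1 hs hr
    exact (hAB _ (h ε h0 h1).2).resolve_left h2

private theorem gap1 (A : Finset ℝ) : ∃ r : ℝ, 0 < r ∧ ∀ a ∈ A, ∀ a' ∈ A, a ≠ a' →
    16 * r ≤ |a - a'| := by
  classical
  have h1 : ∀ S : Finset (ℝ × ℝ), (∀ p ∈ S, p.1 ≠ p.2) →
      ∃ r : ℝ, 0 < r ∧ ∀ p ∈ S, 16 * r ≤ |p.1 - p.2| := by
    intro S
    induction S using Finset.induction_on with
    | empty => exact fun _ => ⟨1, one_pos, by simp⟩
    | insert a S _ ih =>
      intro hS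
      obtain ⟨r, hr, h⟩ := ih fun p hp => hS p (Finset.mem_insert_of_mem hp)
      have ha : 0 < |a.1 - a.2| := abs_pos.2 (sub_ne_zero.2 (hS a (Finset.mem_insert_self a S)))
      refine ⟨min r (|a.1 - a.2| / 16), lt_min hr (by positivity), fun p hp => ?_⟩
      have h2 := min_le_left r (|a.1 - a.2| / 16)
      have h3 := min_le_right r (|a.1 - a.2| / 16)
      rcases Finset.mem_insert.1 hp with h4 | h4
      · rw [h4]
        linarith
      · have := h p h4
        linarith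
  obtain ⟨r, hr, h⟩ := h1 ((A ×ˢ A).filter fun p => p.1 ≠ p.2) fun p hp =>
    (Finset.mem_filter.1 hp).2
  exact ⟨r, hr, fun a ha a' ha' hne => h (a, a')
    (Finset.mem_filter.2 ⟨Finset.mem_product.2 ⟨ha, ha'⟩, hne⟩)⟩

/-- Proof: the finitely many numbers `|a - a'| / 16 > 0` for `a ≠ a'` in `A` and in `B`, and `1`,
have a positive lower bound (`Finset.exists_min_image` or induction; e.g. apply
`Finset.exists_le` to the inverses). -/
theorem exists_gap (A B : Finset ℝ) : ∃ r : ℝ, 0 < r ∧ r ≤ 1 ∧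
    (∀ a ∈ A, ∀ a' ∈ A, a ≠ a' → 16 * r ≤ |a - a'|) ∧
    ∀ b ∈ B, ∀ b' ∈ B, b ≠ b' → 16 * r ≤ |b - b'| := by
  obtain ⟨r, hr, h⟩ := gap1 A
  obtain ⟨r', hr', h'⟩ := gap1 B
  refine ⟨min (min r r') 1, lt_min (lt_min hr hr') one_pos, min_le_right _ _, ?_, ?_⟩
  · intro a ha a' ha' hne
    have h1 := h a ha a' ha' hne
    have h2 := (min_le_left (min r r') 1).trans (min_le_left r r')
    linarith
  · intro a ha a' ha' hne
    have h1 := h' a ha a' ha' hne
    have h2 := (min_le_left (min r r') 1).trans (min_le_right r r')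
    linarith

/-- Off the grid lines there are no frontier points in small squares. Proof: `hAB` and the gaps:
a point `a' ∈ A` with `a' ≠ a` has `|a' - a| ≥ 16 * r`, while `|a' - a| < R ≤ 16 * r` if
`q.1 = a'`, `q ∈ ball v R`, `v.1 = a`. -/
theorem cross_free {A B : Finset ℝ} (hAB : ∀ q ∈ frontier D, q.1 ∈ A ∨ q.2 ∈ B) {r : ℝ}
    (hA : ∀ a ∈ A, ∀ a' ∈ A, a ≠ a' → 16 * r ≤ |a - a'|)
    (hB : ∀ b ∈ B, ∀ b' ∈ B, b ≠ b' → 16 * r ≤ |b - b'|) {v : P} (hvA : v.1 ∈ A) (hvB : v.2 ∈ B)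
    {q : P} (hq : q ∈ ball v (16 * r)) (h1 : q.1 ≠ v.1) (h2 : q.2 ≠ v.2) : q ∉ frontier D := by
  intro hqf
  rw [mem_ball, Prod.dist_eq, max_lt_iff, Real.dist_eq, Real.dist_eq] at hq
  rcases hAB q hqf with h3 | h3
  · have := hA q.1 h3 v.1 hvA h1
    linarith [hq.1]
  · have := hB q.2 h3 v.2 hvB h2
    linarith [hq.2]

end BlA

end

end Pool.Agent.MP4eed4eR
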