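import Pool.Agent.Lib.MP_4eed4e_an_R.ADefs

/-!
MP_4eed4e_an, project R, block A: further auxiliary definitions.
-/

namespace Pool.Agent.MP4eed4eR

open MeasureTheory Set Filter Topology Metric

noncomputable section

namespace BlA

/-- The statement of the local model of `D` at `x` at scale `ρ` (the field `model` of `Geo`). -/
def MStat (D : Set P) (A B : Finset ℝ) (ρ : ℝ) (x : P) : Prop :=
  ∃ w1 w2 : ℝ × ℝ, IsSgn w1.2 ∧ IsSgn w2.2 ∧
    (w1.2 ≠ 0 → w1.1 ∈ A ∧ |w1.1 - x.1| < ρ) ∧ (w2.2 ≠ 0 → w2.1 ∈ B ∧ |w2.1 - x.2| < ρ) ∧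
    ∀ q ∈ ball x ρ, (q ∈ D ↔ wIn w1 q.1 ∧ wIn w2 q.2)

/-- The hypotheses on the grid: all frontier points are on the lines, the gaps are at least
`16 r`. -/
structure Grid (D : Set P) (A B : Finset ℝ) (r : ℝ) : Prop where
  pos : 0 < r
  front : ∀ q ∈ frontier D, q.1 ∈ A ∨ q.2 ∈ B
  gapA : ∀ a ∈ A, ∀ a' ∈ A, a ≠ a' → 16 * r ≤ |a - a'|
  gapB : ∀ b ∈ B, ∀ b' ∈ B, b ≠ b' → 16 * r ≤ |b - b'|

/-- The state of the billiard: `γ` is the affine map of the orbit of `(x, ξ)` at the time `s`,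
with the histories of both coordinates. -/
def Tr2 {D : Set P} (G : Geo D) (s : ℝ) (x ξ : P) (γ : P × P) : Prop :=
  ∃ n₁ n₂ : ℕ, Tr1 G.A G.rho0 s x.1 ξ.1 n₁ (γ.1.1, γ.2.1) ∧
    Tr1 G.B G.rho0 s x.2 ξ.2 n₂ (γ.1.2, γ.2.2)

/-- Position and velocity of a particle that moves to the left with the velocity `u < 0` between
the walls `a` and `a + w`, as a function of the free position `Y`, up to the second reflection. -/
def Wave (a w Y u y v : ℝ) : Prop :=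
  (a ≤ Y ∧ y = Y ∧ v = u) ∨ (a - w ≤ Y ∧ Y < a ∧ y = 2 * a - Y ∧ v = -u) ∨
    (Y < a - w ∧ y = Y + 2 * w ∧ v = u)

end BlA

end

end Pool.Agent.MP4eed4eR
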