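import Pool.Agent.Lib.MP_4eed4e_an_R.A01
import Pool.Agent.Lib.MP_4eed4e_an_R.A03
import Pool.Agent.Lib.MP_4eed4e_an_R.ADefs2

/-!
MP_4eed4e_an, project R, module A04: the domain near a reflex vertex, and local models of the
domain near points with at most one grid line.
-/

namespace Pool.Agent.MP4eed4eR

open MeasureTheory Set Filter Topology Metric

noncomputable section

namespace BlA

variable {D : Set P} {A B : Finset ℝ} {r : ℝ}

private theorem A04_ball {x q : P} {ρ : ℝ} :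
    q ∈ ball x ρ ↔ |q.1 - x.1| < ρ ∧ |q.2 - x.2| < ρ := by
  rw [mem_ball, Prod.dist_eq, max_lt_iff, Real.dist_eq, Real.dist_eq]

private theorem A04_sign {x : ℝ} (hx : x ≠ 0) : ∃ σ : ℝ, IsS σ ∧ 0 < σ * x := by
  rcases lt_or_gt_of_ne hx with h | h
  · exact ⟨-1, Or.inr rfl, by linarith⟩
  · exact ⟨1, Or.inl rfl, by linarith⟩

private theorem A04_same {s σ x y : ℝ} (hs : IsS s) (hσ : IsS σ) (hx : 0 < σ * x)
    (hy : 0 < σ * y) : 0 < s * x ↔ 0 < s * y := by
  rcases hs with rfl | rfl <;> rcases hσ with rfl | rfl <;> constructor <;> intro h <;> linarith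

private theorem A04_ne {σ x : ℝ} (h : 0 < σ * x) : x ≠ 0 := by
  rintro rfl
  simp at h

private theorem A04_meet {x : P} (hx : x ∈ closure D) {ρ : ℝ} (hρ : 0 < ρ) :
    ∃ q ∈ ball x ρ, q ∈ D := by
  obtain ⟨q, hq, hd⟩ := Metric.mem_closure_iff.1 hx ρ hρ
  refine ⟨q, ?_, hq⟩
  rw [mem_ball, dist_comm]
  exact hd

/-- Proof: let `s, t, r'` be as in `ReflexPt`; by `reflex_grid`, `v.1 ∈ A` and `v.2 ∈ B`. Apply
`reg_agree` with `U = ball v (16 * r)`, `M` the union set (`isOpen_union`, `reg_union`,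
`reg_dom hD`), `a = v.1`, `b = v.2`. Let `q ∈ U` be off the two lines, `σ, τ = ±1` the signs of
`q.1 - v.1`, `q.2 - v.2`. The cell `{q' ∈ U | 0 < σ * (q'.1 - v.1) ∧ 0 < τ * (q'.2 - v.2)}` is
preconnected (`cell_preconnected`) and contains no frontier point (`cross_free`), so by `cell_or`
it is contained in `D` or disjoint from `D`. It contains `q` and the point
`p = (v.1 + σ * ε, v.2 + τ * ε)`, `ε = min r' (16 * r) / 2`; so `q ∈ D ↔ p ∈ D`, and by `ReflexPt`
`p ∈ D ↔ 0 < s * σ * ε ∨ 0 < t * τ * ε`, which is equivalent to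
`0 < s * (q.1 - v.1) ∨ 0 < t * (q.2 - v.2)` (all four factors are signs). -/
theorem reflex_model (hD : RectDomain D) (hG : Grid D A B r) {v : P} (hv : ReflexPt D v) :
    ∃ s t : ℝ, (s = 1 ∨ s = -1) ∧ (t = 1 ∨ t = -1) ∧
      ∀ q ∈ ball v (16 * r), (q ∈ D ↔ 0 < s * (q.1 - v.1) ∨ 0 < t * (q.2 - v.2)) := by
  obtain ⟨hvA, hvB⟩ := reflex_grid hD hG.front hv
  obtain ⟨r', hr', s, t, hs, ht, hloc⟩ := hv
  refine ⟨s, t, hs, ht, ?_⟩
  refine reg_agree isOpen_ball hD.isOpen (isOpen_union v s t) (reg_dom hD)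
    (reg_union v hs ht) v.1 v.2 fun q hq h1 h2 => ?_
  obtain ⟨σ, hσ, hσq⟩ := A04_sign (sub_ne_zero.2 h1)
  obtain ⟨τ, hτ, hτq⟩ := A04_sign (sub_ne_zero.2 h2)
  have hr := hG.pos
  set ε : ℝ := min r' (16 * r) / 2 with hε
  have hε0 : 0 < ε := by
    rw [hε]
    exact half_pos (lt_min hr' (by positivity))
  have hε1 : ε < r' := by
    have := min_le_left r' (16 * r)
    linarith
  have hε2 : ε < 16 * r := by
    have := min_le_right r' (16 * r)
    linarith
  have habs : ∀ σ : ℝ, IsS σ → |σ * ε| = ε := by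
    rintro σ (rfl | rfl)
    · rw [one_mul, abs_of_pos hε0]
    · rw [abs_mul, abs_neg, abs_one, one_mul, abs_of_pos hε0]
  have hpos : ∀ σ : ℝ, IsS σ → 0 < σ * (σ * ε) := by
    rintro σ (rfl | rfl) <;> linarith
  set p : P := (v.1 + σ * ε, v.2 + τ * ε) with hp
  have hpb : ∀ R : ℝ, ε < R → p ∈ ball v R := by
    intro R hR
    rw [A04_ball]
    constructor
    · show |v.1 + σ * ε - v.1| < R
      rw [add_sub_cancel_left, habs σ hσ]
      exact hR
    · show |v.2 + τ * ε - v.2| < R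
      rw [add_sub_cancel_left, habs τ hτ]
      exact hR
  have hp1 : p.1 - v.1 = σ * ε := add_sub_cancel_left _ _
  have hp2 : p.2 - v.2 = τ * ε := add_sub_cancel_left _ _
  have hcell := cell_or hD.isOpen (cell_preconnected v (16 * r) v.1 v.2 σ τ) (by
    rintro q' ⟨hb, h3, h4⟩
    exact cross_free hG.front hG.gapA hG.gapB hvA hvB hb
      (sub_ne_zero.1 (A04_ne h3)) (sub_ne_zero.1 (A04_ne h4)))
  have hqC : q ∈ {q : P | q ∈ ball v (16 * r) ∧ 0 < σ * (q.1 - v.1) ∧ 0 < τ * (q.2 - v.2)} :=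
    ⟨hq, hσq, hτq⟩
  have hpC : p ∈ {q : P | q ∈ ball v (16 * r) ∧ 0 < σ * (q.1 - v.1) ∧ 0 < τ * (q.2 - v.2)} :=
    ⟨hpb _ hε2, by rw [hp1]; exact hpos σ hσ, by rw [hp2]; exact hpos τ hτ⟩
  have hqp : q ∈ D ↔ p ∈ D := by
    rcases hcell with h | h
    · exact ⟨fun _ => h hpC, fun _ => h hqC⟩
    · exact ⟨fun h' => absurd h' (h q hqC), fun h' => absurd h' (h p hpC)⟩
  rw [hqp, hloc p (hpb _ hε1)]
  show _ ↔ 0 < s * (q.1 - v.1) ∨ 0 < t * (q.2 - v.2)
  rw [hp1, hp2, A04_same hs hσ (hpos σ hσ) hσq, A04_same ht hτ (hpos τ hτ) hτq]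

/-- No grid line near `x`. Proof: `ball x ρ` is convex, hence preconnected, and contains no
frontier point; it meets `D` because `x ∈ closure D`; by `cell_or` it is contained in `D`. Walls
`(0, 0)`, `(0, 0)`. -/
theorem model_zero (hD : RectDomain D) (hG : Grid D A B r) {x : P} (hx : x ∈ closure D) {ρ : ℝ}
    (hρ : 0 < ρ) (hA : ∀ a ∈ A, ρ ≤ |a - x.1|) (hB : ∀ b ∈ B, ρ ≤ |b - x.2|) :
    MStat D A B ρ x := by
  have hcell := cell_or hD.isOpen (convex_ball x ρ).isPreconnected (by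
    intro q hq hf
    rw [A04_ball] at hq
    rcases hG.front q hf with h | h
    · exact absurd (hA _ h) (not_le.2 hq.1)
    · exact absurd (hB _ h) (not_le.2 hq.2))
  obtain ⟨q₀, hq₀, hq₀D⟩ := A04_meet hx hρ
  have hsub : ball x ρ ⊆ D := by
    rcases hcell with h | h
    · exact h
    · exact absurd hq₀D (h q₀ hq₀)
  refine ⟨(0, 0), (0, 0), Or.inl rfl, Or.inl rfl, fun h => absurd rfl h, fun h => absurd rfl h,
    fun q hq => ⟨fun _ => ⟨Or.inl rfl, Or.inl rfl⟩, fun _ => hsub hq⟩⟩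

/-- One vertical line near `x`. Proof: no other line of `A` meets the ball (two of them would
have distance `< 2 * ρ ≤ 16 * r`). The two halves `{q ∈ ball x ρ | 0 < s * (q.1 - a)}`, `s = ±1`,
are preconnected (`half_preconnected₁`) and contain no frontier points, so each is in `D` or
disjoint from `D` (`cell_or`). Not both are disjoint from `D`: the ball meets `D`, `D` is open and
so contains points off the line. If both are in `D`: walls `(0, 0)`, `(0, 0)`; if only the one with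
the sign `s`: walls `(a, s)`, `(0, 0)`. In both cases `D` and the model agree off the line
`q.1 = a`; conclude with `reg_agree` (`reg_dom`, `reg_prod`, `isOpen_prod`), with `b` a number
such as `x.2 + ρ` that is not the second coordinate of a point of the ball. -/
theorem model_one₁ (hD : RectDomain D) (hG : Grid D A B r) {x : P} (hx : x ∈ closure D) {ρ : ℝ}
    (hρ : 0 < ρ) (hρr : ρ ≤ 8 * r) {a : ℝ} (ha : a ∈ A) (hax : |a - x.1| < ρ)
    (hB : ∀ b ∈ B, ρ ≤ |b - x.2|) : MStat D A B ρ x := by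
  have hhalf : ∀ s : ℝ, {q : P | q ∈ ball x ρ ∧ 0 < s * (q.1 - a)} ⊆ D ∨
      ∀ q ∈ {q : P | q ∈ ball x ρ ∧ 0 < s * (q.1 - a)}, q ∉ D := by
    intro s
    refine cell_or hD.isOpen (half_preconnected₁ x ρ a s) ?_
    rintro q ⟨hq, hs⟩ hf
    rw [A04_ball] at hq
    rcases hG.front q hf with h | h
    · have h1 : q.1 ≠ a := sub_ne_zero.1 (A04_ne hs)
      have h2 := hG.gapA _ h _ ha h1
      have h3 : |q.1 - a| ≤ |q.1 - x.1| + |x.1 - a| := abs_sub_le _ _ _
      rw [abs_sub_comm x.1 a] at h3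
      linarith [hq.1]
    · exact absurd (hB _ h) (not_le.2 hq.2)
  -- the four cases
  obtain ⟨q₀, hq₀, hq₀D⟩ := A04_meet hx hρ
  have hmeet : ∃ s : ℝ, IsS s ∧ {q : P | q ∈ ball x ρ ∧ 0 < s * (q.1 - a)} ⊆ D := by
    by_contra hno
    have hno' : ∀ s : ℝ, IsS s →
        ∀ q ∈ {q : P | q ∈ ball x ρ ∧ 0 < s * (q.1 - a)}, q ∉ D := by
      intro s hs
      rcases hhalf s with h | h
      · exact absurd ⟨s, hs, h⟩ hno
      · exact h
    have hoff : ∀ q ∈ ball x ρ, q ∈ D → q.1 = a := by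
      intro q hq hqD
      by_contra hne
      obtain ⟨σ, hσ, hσq⟩ := A04_sign (sub_ne_zero.2 hne)
      exact hno' σ hσ q ⟨hq, hσq⟩ hqD
    obtain ⟨e, he, hball⟩ := Metric.isOpen_iff.1 (isOpen_ball.inter hD.isOpen) q₀ ⟨hq₀, hq₀D⟩
    have h1 := hoff q₀ hq₀ hq₀D
    have h2 : ((q₀.1 + e / 2, q₀.2) : P) ∈ ball q₀ e := by
      rw [A04_ball]
      constructor
      · show |q₀.1 + e / 2 - q₀.1| < e
        rw [add_sub_cancel_left, abs_of_pos (half_pos he)]
        exact half_lt_self he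
      · show |q₀.2 - q₀.2| < e
        rw [sub_self, abs_zero]
        exact he
    have h3 := hball h2
    have h4 := hoff _ h3.1 h3.2
    simp only at h4
    linarith
  obtain ⟨s, hs, hsD⟩ := hmeet
  have hs' : IsS (-s) := by
    rcases hs with rfl | rfl
    · exact Or.inr rfl
    · exact Or.inl (by norm_num)
  have hsplit : ∀ q ∈ ball x ρ, q.1 ≠ a → 0 < s * (q.1 - a) ∨ 0 < -s * (q.1 - a) := by
    intro q _ hne
    have h1 : s * (q.1 - a) ≠ 0 := by
      refine mul_ne_zero ?_ (sub_ne_zero.2 hne)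
      rcases hs with rfl | rfl <;> norm_num
    rcases lt_or_gt_of_ne h1 with h | h
    · exact Or.inr (by linarith)
    · exact Or.inl h
  rcases hhalf (-s) with h | h
  · -- both halves are contained in `D`
    refine ⟨(0, 0), (0, 0), Or.inl rfl, Or.inl rfl, fun h => absurd rfl h,
      fun h => absurd rfl h, ?_⟩
    refine reg_agree isOpen_ball hD.isOpen (isOpen_prod (0, 0) (0, 0)) (reg_dom hD)
      (reg_prod (0, 0) (0, 0)) a (x.2 + ρ) fun q hq hne _ => ?_
    refine ⟨fun _ => ⟨Or.inl rfl, Or.inl rfl⟩, fun _ => ?_⟩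
    rcases hsplit q hq hne with h1 | h1
    · exact hsD ⟨hq, h1⟩
    · exact h ⟨hq, h1⟩
  · -- only one half is contained in `D`
    have hsg : IsSgn s := Or.inr hs
    have hs0 : s ≠ 0 := by
      rcases hs with rfl | rfl <;> norm_num
    refine ⟨(a, s), (0, 0), hsg, Or.inl rfl, fun _ => ⟨ha, hax⟩, fun h => absurd rfl h, ?_⟩
    refine reg_agree isOpen_ball hD.isOpen (isOpen_prod _ _) (reg_dom hD)
      (reg_prod _ _) a (x.2 + ρ) fun q hq hne _ => ?_
    constructor
    · intro hqD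
      refine ⟨?_, Or.inl rfl⟩
      rcases hsplit q hq hne with h1 | h1
      · exact Or.inr h1
      · exact absurd hqD (h q ⟨hq, h1⟩)
    · rintro ⟨h1, -⟩
      rcases h1 with h1 | h1
      · exact absurd h1 hs0
      · exact hsD ⟨hq, h1⟩

/-- One horizontal line near `x`. Proof: as for `model_one₁` with the coordinates exchanged. -/
theorem model_one₂ (hD : RectDomain D) (hG : Grid D A B r) {x : P} (hx : x ∈ closure D) {ρ : ℝ}
    (hρ : 0 < ρ) (hρr : ρ ≤ 8 * r) {b : ℝ} (hb : b ∈ B) (hbx : |b - x.2| < ρ)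
    (hA : ∀ a ∈ A, ρ ≤ |a - x.1|) : MStat D A B ρ x := by
  have hhalf : ∀ s : ℝ, {q : P | q ∈ ball x ρ ∧ 0 < s * (q.2 - b)} ⊆ D ∨
      ∀ q ∈ {q : P | q ∈ ball x ρ ∧ 0 < s * (q.2 - b)}, q ∉ D := by
    intro s
    refine cell_or hD.isOpen (half_preconnected₂ x ρ b s) ?_
    rintro q ⟨hq, hs⟩ hf
    rw [A04_ball] at hq
    rcases hG.front q hf with h | h
    · exact absurd (hA _ h) (not_le.2 hq.1)
    · have h1 : q.2 ≠ b := sub_ne_zero.1 (A04_ne hs)
      have h2 := hG.gapB _ h _ hb h1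
      have h3 : |q.2 - b| ≤ |q.2 - x.2| + |x.2 - b| := abs_sub_le _ _ _
      rw [abs_sub_comm x.2 b] at h3
      linarith [hq.2]
  -- the four cases
  obtain ⟨q₀, hq₀, hq₀D⟩ := A04_meet hx hρ
  have hmeet : ∃ s : ℝ, IsS s ∧ {q : P | q ∈ ball x ρ ∧ 0 < s * (q.2 - b)} ⊆ D := by
    by_contra hno
    have hno' : ∀ s : ℝ, IsS s →
        ∀ q ∈ {q : P | q ∈ ball x ρ ∧ 0 < s * (q.2 - b)}, q ∉ D := by
      intro s hs
      rcases hhalf s with h | h
      · exact absurd ⟨s, hs, h⟩ hno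
      · exact h
    have hoff : ∀ q ∈ ball x ρ, q ∈ D → q.2 = b := by
      intro q hq hqD
      by_contra hne
      obtain ⟨σ, hσ, hσq⟩ := A04_sign (sub_ne_zero.2 hne)
      exact hno' σ hσ q ⟨hq, hσq⟩ hqD
    obtain ⟨e, he, hball⟩ := Metric.isOpen_iff.1 (isOpen_ball.inter hD.isOpen) q₀ ⟨hq₀, hq₀D⟩
    have h1 := hoff q₀ hq₀ hq₀D
    have h2 : ((q₀.1, q₀.2 + e / 2) : P) ∈ ball q₀ e := by
      rw [A04_ball]
      constructor
      · show |q₀.1 - q₀.1| < e
        rw [sub_self, abs_zero]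
        exact he
      · show |q₀.2 + e / 2 - q₀.2| < e
        rw [add_sub_cancel_left, abs_of_pos (half_pos he)]
        exact half_lt_self he
    have h3 := hball h2
    have h4 := hoff _ h3.1 h3.2
    simp only at h4
    linarith
  obtain ⟨s, hs, hsD⟩ := hmeet
  have hs' : IsS (-s) := by
    rcases hs with rfl | rfl
    · exact Or.inr rfl
    · exact Or.inl (by norm_num)
  have hsplit : ∀ q ∈ ball x ρ, q.2 ≠ b → 0 < s * (q.2 - b) ∨ 0 < -s * (q.2 - b) := by
    intro q _ hne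
    have h1 : s * (q.2 - b) ≠ 0 := by
      refine mul_ne_zero ?_ (sub_ne_zero.2 hne)
      rcases hs with rfl | rfl <;> norm_num
    rcases lt_or_gt_of_ne h1 with h | h
    · exact Or.inr (by linarith)
    · exact Or.inl h
  rcases hhalf (-s) with h | h
  · -- both halves are contained in `D`
    refine ⟨(0, 0), (0, 0), Or.inl rfl, Or.inl rfl, fun h => absurd rfl h,
      fun h => absurd rfl h, ?_⟩
    refine reg_agree isOpen_ball hD.isOpen (isOpen_prod (0, 0) (0, 0)) (reg_dom hD)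
      (reg_prod (0, 0) (0, 0)) (x.1 + ρ) b fun q hq _ hne => ?_
    refine ⟨fun _ => ⟨Or.inl rfl, Or.inl rfl⟩, fun _ => ?_⟩
    rcases hsplit q hq hne with h1 | h1
    · exact hsD ⟨hq, h1⟩
    · exact h ⟨hq, h1⟩
  · -- only one half is contained in `D`
    have hsg : IsSgn s := Or.inr hs
    have hs0 : s ≠ 0 := by
      rcases hs with rfl | rfl <;> norm_num
    refine ⟨(0, 0), (b, s), Or.inl rfl, hsg, fun h => absurd rfl h, fun _ => ⟨hb, hbx⟩, ?_⟩
    refine reg_agree isOpen_ball hD.isOpen (isOpen_prod _ _) (reg_dom hD)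
      (reg_prod _ _) (x.1 + ρ) b fun q hq _ hne => ?_
    constructor
    · intro hqD
      refine ⟨Or.inl rfl, ?_⟩
      rcases hsplit q hq hne with h1 | h1
      · exact Or.inr h1
      · exact absurd hqD (h q ⟨hq, h1⟩)
    · rintro ⟨-, h1⟩
      rcases h1 with h1 | h1
      · exact absurd h1 hs0
      · exact hsD ⟨hq, h1⟩

end BlA

end

end Pool.Agent.MP4eed4eR
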