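import Pool.Agent.Lib.MP_4eed4e_an_R.A01
import Pool.Agent.Lib.MP_4eed4e_an_R.A02
import Pool.Agent.Lib.MP_4eed4e_an_R.ADefs2

/-!
MP_4eed4e_an, project R, module A05: the local model near a crossing of two grid lines.
-/

namespace Pool.Agent.MP4eed4eR

open MeasureTheory Set Filter Topology Metric

noncomputable section

namespace BlA

variable {D : Set P} {A B : Finset ℝ} {r : ℝ}

private theorem a05_ball {p q : P} {r : ℝ} :
    q ∈ ball p r ↔ |q.1 - p.1| < r ∧ |q.2 - p.2| < r := by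
  rw [mem_ball, Prod.dist_eq, max_lt_iff, Real.dist_eq, Real.dist_eq]

private theorem a05_sq {s : ℝ} (h : IsS s) : s * s = 1 := by
  rcases h with h | h <;> rw [h] <;> norm_num

private theorem a05_abs {s : ℝ} (h : IsS s) : |s| = 1 := by
  rcases h with h | h <;> rw [h] <;> norm_num

private theorem a05_sgn {s : ℝ} (h : IsS s) : IsSgn s := Or.inr h

private theorem a05_ne {s : ℝ} (h : IsS s) : s ≠ 0 := by
  rcases h with h | h <;> rw [h] <;> norm_num

/-- the sign of a nonzero number -/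
private theorem a05_exists {u : ℝ} (hu : u ≠ 0) : ∃ σ, IsS σ ∧ 0 < σ * u := by
  rcases lt_or_gt_of_ne hu with h | h
  · exact ⟨-1, Or.inr rfl, by linarith⟩
  · exact ⟨1, Or.inl rfl, by linarith⟩

private theorem a05_tri {u v w R : ℝ} (h1 : |u - w| < R) (h2 : |v - w| < R) :
    |u - v| < 2 * R := by
  rw [abs_lt] at *
  constructor <;> linarith [h1.1, h1.2, h2.1, h2.2]

/-- The four cells at a crossing `c` of two grid lines in `ball x ρ`, `ρ ≤ 8 * r`. For signs
`σ, τ` and `q` in the cell `(σ, τ)` of the ball, and every `ε > 0` there is a point `p` of the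
same cell in `ball c ε` with `q ∈ D ↔ p ∈ D`. Proof: other lines of `A`, `B` do not meet the ball
(distance from `c.1` less than `2 * ρ ≤ 16 * r`), so the cell contains no frontier points; it is
preconnected (`cell_preconnected`), so it is in `D` or disjoint from `D` (`cell_or`); take
`p = (c.1 + σ * η, c.2 + τ * η)` with small `η > 0` (the ball is open and contains `c`). -/
theorem cell_corner (hG : Grid D A B r) (hD : IsOpen D) {x c : P} {ρ : ℝ} (hρr : ρ ≤ 8 * r)
    (hcA : c.1 ∈ A) (hcB : c.2 ∈ B) (hc : c ∈ ball x ρ) {σ τ : ℝ} (hσ : IsS σ) (hτ : IsS τ)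
    {q : P} (hq : q ∈ ball x ρ) (h1 : 0 < σ * (q.1 - c.1)) (h2 : 0 < τ * (q.2 - c.2)) {ε : ℝ}
    (hε : 0 < ε) : ∃ p ∈ ball c ε, 0 < σ * (p.1 - c.1) ∧ 0 < τ * (p.2 - c.2) ∧
      (q ∈ D ↔ p ∈ D) := by
  have hc' := a05_ball.1 hc
  have hfree : ∀ q' ∈ {q' : P | q' ∈ ball x ρ ∧ 0 < σ * (q'.1 - c.1) ∧ 0 < τ * (q'.2 - c.2)},
      q' ∉ frontier D := by
    rintro q' ⟨hqb, k1, k2⟩ hqf
    have hq' := a05_ball.1 hqb
    rcases hG.front q' hqf with h | h
    · have hne : q'.1 ≠ c.1 := by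
        intro h0
        rw [h0, sub_self, mul_zero] at k1
        exact lt_irrefl _ k1
      have g1 := hG.gapA _ h _ hcA hne
      have g2 := a05_tri hq'.1 hc'.1
      linarith
    · have hne : q'.2 ≠ c.2 := by
        intro h0
        rw [h0, sub_self, mul_zero] at k2
        exact lt_irrefl _ k2
      have g1 := hG.gapB _ h _ hcB hne
      have g2 := a05_tri hq'.2 hc'.2
      linarith
  have hor := cell_or hD (cell_preconnected x ρ c.1 c.2 σ τ) hfree
  obtain ⟨η, hη0, hη⟩ := exists_between (lt_min hε (lt_min (sub_pos.2 hc'.1) (sub_pos.2 hc'.2)))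
  have e1 : η < ε := hη.trans_le (min_le_left _ _)
  have e2 : η < ρ - |c.1 - x.1| :=
    hη.trans_le ((min_le_right _ _).trans (min_le_left _ _))
  have e3 : η < ρ - |c.2 - x.2| :=
    hη.trans_le ((min_le_right _ _).trans (min_le_right _ _))
  have a1 : |σ * η| = η := by rw [abs_mul, a05_abs hσ, one_mul, abs_of_pos hη0]
  have a2 : |τ * η| = η := by rw [abs_mul, a05_abs hτ, one_mul, abs_of_pos hη0]
  have p1 : 0 < σ * (c.1 + σ * η - c.1) := by
    have : σ * (c.1 + σ * η - c.1) = (σ * σ) * η := by ring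
    rw [this, a05_sq hσ, one_mul]; exact hη0
  have p2 : 0 < τ * (c.2 + τ * η - c.2) := by
    have : τ * (c.2 + τ * η - c.2) = (τ * τ) * η := by ring
    rw [this, a05_sq hτ, one_mul]; exact hη0
  have pb : ((c.1 + σ * η, c.2 + τ * η) : P) ∈ ball x ρ := by
    rw [a05_ball]
    constructor
    · have : c.1 + σ * η - x.1 = (c.1 - x.1) + σ * η := by ring
      change |c.1 + σ * η - x.1| < ρ
      rw [this]
      exact (abs_add_le _ _).trans_lt (by rw [a1]; linarith)
    · have : c.2 + τ * η - x.2 = (c.2 - x.2) + τ * η := by ring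
      change |c.2 + τ * η - x.2| < ρ
      rw [this]
      exact (abs_add_le _ _).trans_lt (by rw [a2]; linarith)
  refine ⟨(c.1 + σ * η, c.2 + τ * η), ?_, p1, p2, ?_⟩
  · rw [a05_ball]
    constructor
    · change |c.1 + σ * η - c.1| < ε
      rw [add_sub_cancel_left, a1]; exact e1
    · change |c.2 + τ * η - c.2| < ε
      rw [add_sub_cancel_left, a2]; exact e1
  · rcases hor with h | h
    · exact ⟨fun _ => h ⟨pb, p1, p2⟩, fun _ => h ⟨hq, h1, h2⟩⟩
    · exact ⟨fun hh => absurd hh (h q ⟨hq, h1, h2⟩), fun hh => absurd hh (h _ ⟨pb, p1, p2⟩)⟩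

/-- membership in a wall condition is constant on the sides of the wall -/
private theorem a05_wIn {w : ℝ × ℝ} {a σ y y' : ℝ} (hw : w.2 ≠ 0 → w.1 = a) (hσ : IsS σ)
    (h : 0 < σ * (y - a)) (h' : 0 < σ * (y' - a)) : wIn w y → wIn w y' := by
  intro hy
  by_cases h0 : w.2 = 0
  · exact Or.inl h0
  · right
    have hy' := hy.resolve_left h0
    rw [hw h0] at hy' ⊢
    have e1 : w.2 * (y - a) = (w.2 * σ) * (σ * (y - a)) := by
      have : (w.2 * σ) * (σ * (y - a)) = w.2 * (σ * σ) * (y - a) := by ring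
      rw [this, a05_sq hσ, mul_one]
    have e2 : w.2 * (y' - a) = (w.2 * σ) * (σ * (y' - a)) := by
      have : (w.2 * σ) * (σ * (y' - a)) = w.2 * (σ * σ) * (y' - a) := by ring
      rw [this, a05_sq hσ, mul_one]
    rw [e1] at hy'
    rw [e2]
    exact mul_pos ((mul_pos_iff_of_pos_right h).1 hy') h'

/-- comparison with a set that is constant on the cells -/
private theorem a05_agree (hD : RectDomain D) (hG : Grid D A B r) {x : P} {ρ : ℝ}
    (hρr : ρ ≤ 8 * r) {a b : ℝ} (ha : a ∈ A) (hax : |a - x.1| < ρ) (hb : b ∈ B)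
    (hbx : |b - x.2| < ρ) {M : Set P} (hMo : IsOpen M) (rM : Reg M)
    (hcell : ∀ σ τ : ℝ, IsS σ → IsS τ → ∀ p q : P, 0 < σ * (p.1 - a) → 0 < τ * (p.2 - b) →
      0 < σ * (q.1 - a) → 0 < τ * (q.2 - b) → p ∈ M → q ∈ M) {ε : ℝ} (hε : 0 < ε)
    (h : ∀ p ∈ ball ((a, b) : P) ε, (p ∈ D ↔ p ∈ M)) : ∀ q ∈ ball x ρ, (q ∈ D ↔ q ∈ M) := by
  refine reg_agree isOpen_ball hD.isOpen hMo (reg_dom hD) rM a b ?_
  intro q hq hqa hqb
  obtain ⟨σ, hσ, h1⟩ := a05_exists (sub_ne_zero.2 hqa)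
  obtain ⟨τ, hτ, h2⟩ := a05_exists (sub_ne_zero.2 hqb)
  obtain ⟨p, hp, p1, p2, hiff⟩ := cell_corner hG hD.isOpen (c := (a, b)) hρr ha hb
    (a05_ball.2 ⟨hax, hbx⟩) hσ hτ hq h1 h2 hε
  rw [hiff, h p hp]
  exact ⟨hcell σ τ hσ hτ p q p1 p2 h1 h2, hcell σ τ hσ hτ q p h1 h2 p1 p2⟩

private theorem a05_walls (hD : RectDomain D) (hG : Grid D A B r) {x : P} {ρ : ℝ}
    (hρr : ρ ≤ 8 * r) {a b : ℝ} (ha : a ∈ A) (hax : |a - x.1| < ρ) (hb : b ∈ B)
    (hbx : |b - x.2| < ρ) {w1 w2 : ℝ × ℝ} (s1 : IsSgn w1.2) (s2 : IsSgn w2.2)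
    (h1 : w1.2 ≠ 0 → w1.1 = a) (h2 : w2.2 ≠ 0 → w2.1 = b) {ε : ℝ} (hε : 0 < ε)
    (h : ∀ p ∈ ball ((a, b) : P) ε, (p ∈ D ↔ wIn w1 p.1 ∧ wIn w2 p.2)) :
    MStat D A B ρ x := by
  refine ⟨w1, w2, s1, s2, ?_, ?_, ?_⟩
  · intro h0
    rw [h1 h0]; exact ⟨ha, hax⟩
  · intro h0
    rw [h2 h0]; exact ⟨hb, hbx⟩
  · exact a05_agree hD hG hρr ha hax hb hbx (M := {q : P | wIn w1 q.1 ∧ wIn w2 q.2})
      (isOpen_prod w1 w2) (reg_prod w1 w2)
      (fun σ τ hσ hτ p q p1 p2 q1 q2 hp => ⟨a05_wIn h1 hσ p1 q1 hp.1, a05_wIn h2 hτ p2 q2 hp.2⟩)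
      hε h

private theorem a05_iff {a s y : ℝ} (hs : IsS s) : wIn (a, s) y ↔ 0 < s * (y - a) :=
  ⟨fun h => h.resolve_left (a05_ne hs), fun h => Or.inr h⟩

private theorem a05_triv (y : ℝ) : wIn (0, 0) y := Or.inl rfl

/-- Proof: let `c = (a, b)`, a point of `ball x ρ`. Let `M` be the model set. By `reg_agree`
(`reg_dom`, `reg_prod`, `isOpen_prod`) it suffices to compare `D` and `M` for `q ∈ ball x ρ` off
the two lines; by `cell_corner` (with `σ, τ` the signs of `q.1 - a`, `q.2 - b` and `ε` the radius of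
the local description at `c`) this can be done for points `p` near `c` in the same cell.
Case `c ∈ D`: near `c` all points are in `D`: walls `(0, 0)`, `(0, 0)`.
Case `c ∉ closure D`: near `c` no point is in `D`, so no point of the ball off the lines is in
`D`; as `D` is open, no point of the ball is in `D` (every open set contains points off the two
lines); this contradicts `x ∈ closure D`.
Case `c ∈ frontier D`: `RectDomain.loc`. `VertPt` with `s`: walls `(a, s)`, `(0, 0)`. `HorPt` with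
`t`: walls `(0, 0)`, `(b, t)`. `ConvexPt` with `s, t`: walls `(a, s)`, `(b, t)`. `ReflexPt`:
excluded by `hV` because `dist x c < ρ`. -/
theorem model_two (hD : RectDomain D) (hG : Grid D A B r) {x : P} (hx : x ∈ closure D) {ρ : ℝ}
    (hρ : 0 < ρ) (hρr : ρ ≤ 8 * r) {a b : ℝ} (ha : a ∈ A) (hax : |a - x.1| < ρ) (hb : b ∈ B)
    (hbx : |b - x.2| < ρ) (hV : ∀ v, ReflexPt D v → ρ ≤ dist x v) : MStat D A B ρ x := by
  have hcb : ((a, b) : P) ∈ ball x ρ := a05_ball.2 ⟨hax, hbx⟩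
  by_cases hcD : ((a, b) : P) ∈ D
  · obtain ⟨ε, hε, hball⟩ := Metric.isOpen_iff.1 hD.isOpen _ hcD
    refine a05_walls hD hG hρr ha hax hb hbx (w1 := (0, 0)) (w2 := (0, 0)) (Or.inl rfl)
      (Or.inl rfl) (fun h => absurd rfl h) (fun h => absurd rfl h) hε ?_
    intro p hp
    exact ⟨fun _ => ⟨a05_triv _, a05_triv _⟩, fun _ => hball hp⟩
  by_cases hcc : ((a, b) : P) ∈ closure D
  · have hcf : ((a, b) : P) ∈ frontier D := by
      rw [hD.isOpen.frontier_eq]
      exact ⟨hcc, hcD⟩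
    rcases hD.loc _ hcf with h | h | h | h
    · obtain ⟨ε, hε, s, hs, h⟩ := h
      have hs' : IsS s := hs
      refine a05_walls hD hG hρr ha hax hb hbx (w1 := (a, s)) (w2 := (0, 0)) (a05_sgn hs')
        (Or.inl rfl) (fun _ => rfl) (fun h => absurd rfl h) hε ?_
      intro p hp
      rw [h p hp, a05_iff hs']
      exact ⟨fun g => ⟨g, a05_triv _⟩, fun g => g.1⟩
    · obtain ⟨ε, hε, t, ht, h⟩ := h
      have ht' : IsS t := ht
      refine a05_walls hD hG hρr ha hax hb hbx (w1 := (0, 0)) (w2 := (b, t)) (Or.inl rfl)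
        (a05_sgn ht') (fun h => absurd rfl h) (fun _ => rfl) hε ?_
      intro p hp
      rw [h p hp, a05_iff ht']
      exact ⟨fun g => ⟨a05_triv _, g⟩, fun g => g.2⟩
    · obtain ⟨ε, hε, s, t, hs, ht, h⟩ := h
      have hs' : IsS s := hs
      have ht' : IsS t := ht
      refine a05_walls hD hG hρr ha hax hb hbx (w1 := (a, s)) (w2 := (b, t)) (a05_sgn hs')
        (a05_sgn ht') (fun _ => rfl) (fun _ => rfl) hε ?_
      intro p hp
      rw [h p hp, a05_iff hs', a05_iff ht']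
    · have h1 := hV _ h
      rw [mem_ball, dist_comm] at hcb
      exact absurd hcb (not_lt.2 h1)
  · exfalso
    have hop : IsOpen (closure D)ᶜ := isClosed_closure.isOpen_compl
    obtain ⟨ε, hε, hball⟩ := Metric.isOpen_iff.1 hop _ hcc
    have rE : Reg (∅ : Set P) := by
      rintro q ⟨r', hr', h⟩
      refine h (q.1 + r' / 2, q.2 + r' / 2) (a05_ball.2 ⟨?_, ?_⟩) ?_ ?_
      · change |q.1 + r' / 2 - q.1| < r'
        rw [add_sub_cancel_left, abs_of_pos (half_pos hr')]
        exact half_lt_self hr'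
      · change |q.2 + r' / 2 - q.2| < r'
        rw [add_sub_cancel_left, abs_of_pos (half_pos hr')]
        exact half_lt_self hr'
      · change q.1 + r' / 2 ≠ q.1
        have := half_pos hr'
        intro h0
        linarith
      · change q.2 + r' / 2 ≠ q.2
        have := half_pos hr'
        intro h0
        linarith
    have key := a05_agree hD hG hρr ha hax hb hbx (M := (∅ : Set P)) isOpen_empty rE
      (fun _ _ _ _ _ _ _ _ _ _ h => h) hε
      (fun p hp => ⟨fun hpD => absurd (subset_closure hpD) (hball hp), fun h => absurd h (by simp)⟩)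
    obtain ⟨q, hqD, hqx⟩ := Metric.mem_closure_iff.1 hx ρ hρ
    have := (key q (by rw [mem_ball, dist_comm]; exact hqx)).1 hqD
    exact this

end BlA

end

end Pool.Agent.MP4eed4eR
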