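import Pool.Agent.Lib.MP_4eed4e_an_R.A04
import Pool.Agent.Lib.MP_4eed4e_an_R.A05

/-!
MP_4eed4e_an, project R, module A06: construction of the geometric data.
-/

namespace Pool.Agent.MP4eed4eR

open MeasureTheory Set Filter Topology Metric

noncomputable section

namespace BlA

variable {D : Set P}

/-- A1, A2: the grid and the local models. Proof: `exists_lines` gives `A`, `B`, `exists_gap`
gives `r = rho0`; these form a `Grid D A B r`. `V` = the points `v` of `A ×ˢ B` with `ReflexPt D v`
(`Finset.filter`, classical). By `reflex_grid` every reflex point is in `V`. The field `reflex` is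
`reflex_model`. The field `model`: by `V` the hypothesis says that all reflex points have distance
at least `ρ` from `x`; distinguish whether there is `a ∈ A` with `|a - x.1| < ρ` and whether there
is `b ∈ B` with `|b - x.2| < ρ`: `model_zero`, `model_one₁`, `model_one₂`, `model_two` (`MStat` is
literally the conclusion of the field). -/
theorem exists_geo (hD : RectDomain D) : ∃ G : Geo D, ∀ p, ReflexPt D p ↔ p ∈ G.V := by
  classical
  obtain ⟨A, B, hAB⟩ := exists_lines hD
  obtain ⟨r, hr, hr1, hA, hB⟩ := exists_gap A B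
  have hG : Grid D A B r := ⟨hr, hAB, hA, hB⟩
  have hV : ∀ p, ReflexPt D p ↔ p ∈ (A ×ˢ B).filter (fun v => ReflexPt D v) := by
    intro p
    rw [Finset.mem_filter, Finset.mem_product]
    exact ⟨fun h => ⟨reflex_grid hD hAB h, h⟩, fun h => h.2⟩
  refine ⟨{ A := A
            B := B
            V := (A ×ˢ B).filter (fun v => ReflexPt D v)
            rho0 := r
            pos := hr
            le_one := hr1
            isOpen := hD.isOpen
            isBounded := hD.isBounded
            nonempty := hD.isConnected.nonempty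
            front := hAB
            gapA := hA
            gapB := hB
            Vgrid := fun v hv => reflex_grid hD hAB ((hV v).2 hv)
            reflex := fun v hv => reflex_model hD hG ((hV v).2 hv)
            model := ?_ }, hV⟩
  intro x hx ρ hρ hρr hfar
  have hV' : ∀ v, ReflexPt D v → ρ ≤ dist x v := fun v hv => hfar v ((hV v).1 hv)
  by_cases h1 : ∃ a ∈ A, |a - x.1| < ρ
  · obtain ⟨a, ha, hax⟩ := h1
    by_cases h2 : ∃ b ∈ B, |b - x.2| < ρ
    · obtain ⟨b, hb, hbx⟩ := h2
      exact model_two hD hG hx hρ hρr ha hax hb hbx hV'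
    · push Not at h2
      exact model_one₁ hD hG hx hρ hρr ha hax h2
  · push Not at h1
    by_cases h2 : ∃ b ∈ B, |b - x.2| < ρ
    · obtain ⟨b, hb, hbx⟩ := h2
      exact model_one₂ hD hG hx hρ hρr hb hbx h1
    · push Not at h2
      exact model_zero hD hG hx hρ h1 h2

private theorem a06_cond (A : Finset ℝ) (ρ : ℝ) (w : ℝ × ℝ) {f : P → ℝ} (hf : Continuous f) :
    MeasurableSet {x : P | w.2 ≠ 0 → w.1 ∈ A ∧ |w.1 - f x| < ρ} := by
  by_cases h1 : w.2 = 0
  · have : {x : P | w.2 ≠ 0 → w.1 ∈ A ∧ |w.1 - f x| < ρ} = univ :=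
      eq_univ_of_forall fun x h => absurd h1 h
    rw [this]
    exact MeasurableSet.univ
  · by_cases h2 : w.1 ∈ A
    · have : {x : P | w.2 ≠ 0 → w.1 ∈ A ∧ |w.1 - f x| < ρ} = {x : P | |w.1 - f x| < ρ} := by
        ext x
        exact ⟨fun h => (h h1).2, fun h _ => ⟨h2, h⟩⟩
      rw [this]
      exact (isOpen_lt (by fun_prop) continuous_const).measurableSet
    · have : {x : P | w.2 ≠ 0 → w.1 ∈ A ∧ |w.1 - f x| < ρ} = ∅ :=
        eq_empty_of_forall_notMem fun x h => h2 (h h1).1
      rw [this]
      exact MeasurableSet.empty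

/-- The set of all `x` at which two given walls are a model is measurable. Proof: it is the
intersection of the closed sets `closure D` and `{x | G.Far ρ x}` (finite intersection of
`{x | ρ ≤ dist x v}`), of the conditions `w.2 ≠ 0 → ...` which are trivial or open, and of the
complement of `{x | ∃ q ∈ S, q ∈ ball x ρ}` with `S` the symmetric difference of `D` and of
`{q | wIn w1 q.1 ∧ wIn w2 q.2}`; the last set is open (union of the balls about the points of
`S`). -/
theorem measurable_model (G : Geo D) (ρ : ℝ) (w1 w2 : ℝ × ℝ) :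
    MeasurableSet {x : P | x ∈ closure D ∧ G.Far ρ x ∧
      (w1.2 ≠ 0 → w1.1 ∈ G.A ∧ |w1.1 - x.1| < ρ) ∧ (w2.2 ≠ 0 → w2.1 ∈ G.B ∧ |w2.1 - x.2| < ρ) ∧
      ∀ q ∈ ball x ρ, (q ∈ D ↔ wIn w1 q.1 ∧ wIn w2 q.2)} := by
  have h1 : MeasurableSet {x : P | x ∈ closure D} := isClosed_closure.measurableSet
  have h2 : MeasurableSet {x : P | G.Far ρ x} := by
    have h : {x : P | G.Far ρ x} = ⋂ v ∈ G.V, {x : P | ρ ≤ dist x v} := by
      ext x
      simp [Geo.Far]
    rw [h]
    refine Finset.measurableSet_biInter _ (fun v _ => ?_)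
    exact (isClosed_le continuous_const (continuous_id.dist continuous_const)).measurableSet
  have h3 := a06_cond G.A ρ w1 (f := fun x : P => x.1) continuous_fst
  have h4 := a06_cond G.B ρ w2 (f := fun x : P => x.2) continuous_snd
  have h5 : MeasurableSet {x : P | ∀ q ∈ ball x ρ, (q ∈ D ↔ wIn w1 q.1 ∧ wIn w2 q.2)} := by
    have h : {x : P | ∀ q ∈ ball x ρ, (q ∈ D ↔ wIn w1 q.1 ∧ wIn w2 q.2)} =
        (⋃ q ∈ {q : P | ¬(q ∈ D ↔ wIn w1 q.1 ∧ wIn w2 q.2)}, ball q ρ)ᶜ := by
      ext x
      simp only [mem_ofPred_eq, mem_compl_iff, mem_iUnion, exists_prop, not_exists, not_and]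
      constructor
      · intro h q hq hx
        exact hq (h q (by rw [mem_ball_comm]; exact hx))
      · intro h q hq
        by_contra hc
        exact h q hc (by rw [mem_ball_comm]; exact hq)
    rw [h]
    exact (isOpen_biUnion fun q _ => isOpen_ball).measurableSet.compl
  exact h1.inter (h2.inter (h3.inter (h4.inter h5)))

/-- Measurable selection from finitely many values. Proof: induction on `T`: for `insert u T` use
`Set.piecewise (M u) (fun _ => u) f` (`Measurable.piecewise`). -/
theorem finite_selection {Z : Type} [MeasurableSpace Z] (T : Finset Z) (M : Z → Set P)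
    (hM : ∀ u ∈ T, MeasurableSet (M u)) (z₀ : Z) :
    ∃ f : P → Z, Measurable f ∧ ∀ x, (f x = z₀ ∧ ∀ u ∈ T, x ∉ M u) ∨ (f x ∈ T ∧ x ∈ M (f x)) := by
  classical
  induction T using Finset.induction_on with
  | empty =>
    exact ⟨fun _ => z₀, measurable_const, fun x => Or.inl ⟨rfl, fun u hu =>
      absurd hu (Finset.notMem_empty u)⟩⟩
  | insert u T _ ih =>
    obtain ⟨f, hf, h⟩ := ih fun v hv => hM v (Finset.mem_insert_of_mem hv)
    refine ⟨(M u).piecewise (fun _ => u) f,
      Measurable.piecewise (hM u (Finset.mem_insert_self u T)) measurable_const hf, fun x => ?_⟩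
    by_cases hx : x ∈ M u
    · rw [piecewise_eq_of_mem _ _ _ hx]
      exact Or.inr ⟨Finset.mem_insert_self u T, hx⟩
    · rw [piecewise_eq_of_notMem _ _ _ hx]
      rcases h x with h1 | h1
      · refine Or.inl ⟨h1.1, fun v hv => ?_⟩
        rcases Finset.mem_insert.1 hv with rfl | hv
        · exact hx
        · exact h1.2 v hv
      · exact Or.inr ⟨Finset.mem_insert_of_mem h1.1, h1.2⟩

open Classical in
/-- the walls on the lines of `A` -/
private def a06T (A : Finset ℝ) : Finset (ℝ × ℝ) := insert (0, 0) (A ×ˢ {1, -1})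

private theorem a06_sgn {A : Finset ℝ} {w : ℝ × ℝ} (h : w ∈ a06T A) : IsSgn w.2 := by
  unfold a06T at h
  rw [Finset.mem_insert, Finset.mem_product, Finset.mem_insert, Finset.mem_singleton] at h
  rcases h with h | h
  · left
    rw [h]
  · exact Or.inr h.2

private theorem a06_repl {A : Finset ℝ} {w : ℝ × ℝ} {y ρ : ℝ} (hs : IsSgn w.2)
    (h : w.2 ≠ 0 → w.1 ∈ A ∧ |w.1 - y| < ρ) :
    ∃ w' ∈ a06T A, (w'.2 ≠ 0 → w'.1 ∈ A ∧ |w'.1 - y| < ρ) ∧ ∀ z, wIn w' z ↔ wIn w z := by
  by_cases h0 : w.2 = 0
  · refine ⟨(0, 0), ?_, fun h1 => absurd rfl h1, fun z => ⟨fun _ => Or.inl h0, fun _ => Or.inl rfl⟩⟩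
    unfold a06T
    exact Finset.mem_insert_self _ _
  · refine ⟨w, ?_, h, fun z => Iff.rfl⟩
    unfold a06T
    rw [Finset.mem_insert, Finset.mem_product, Finset.mem_insert, Finset.mem_singleton]
    exact Or.inr ⟨(h h0).1, hs.resolve_left h0⟩

/-- A3: measurable wall functions. Proof: let `T₁` be the finite set of the pairs `(0, 0)` and
`(a, 1)`, `(a, -1)` with `a ∈ G.A`, and `T₂` the same for `G.B`; `T = T₁ ×ˢ T₂`. Apply
`finite_selection` with `M (w1, w2)` the set of `measurable_model` and `z₀ = ((0, 0), (0, 0))`; the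
two components of the result are the wall functions. For `x` in `closure D` with `G.Far ρ x` the
field `G.model` gives walls; replacing a wall with `w.2 = 0` by `(0, 0)` does not change `wIn`, so
some pair of `T` works and the first alternative is impossible. -/
theorem exists_walls (G : Geo D) {ρ : ℝ} (h0 : 0 < ρ) (h1 : ρ ≤ 8 * G.rho0) :
    Nonempty (Walls G ρ) := by
  obtain ⟨f, hf, h⟩ := finite_selection (Z := (ℝ × ℝ) × (ℝ × ℝ)) (a06T G.A ×ˢ a06T G.B)
    (fun w => {x : P | x ∈ closure D ∧ G.Far ρ x ∧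
      (w.1.2 ≠ 0 → w.1.1 ∈ G.A ∧ |w.1.1 - x.1| < ρ) ∧
      (w.2.2 ≠ 0 → w.2.1 ∈ G.B ∧ |w.2.1 - x.2| < ρ) ∧
      ∀ q ∈ ball x ρ, (q ∈ D ↔ wIn w.1 q.1 ∧ wIn w.2 q.2)})
    (fun w _ => measurable_model G ρ w.1 w.2) ((0, 0), (0, 0))
  refine ⟨{ w1 := fun x => (f x).1
            w2 := fun x => (f x).2
            meas1 := hf.fst
            meas2 := hf.snd
            sgn1 := fun x => ?_
            sgn2 := fun x => ?_
            near1 := fun x hx => ?_
            near2 := fun x hx => ?_
            model := fun x hx hF => ?_ }⟩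
  · rcases h x with h2 | h2
    · left
      rw [h2.1]
    · exact a06_sgn (Finset.mem_product.1 h2.1).1
  · rcases h x with h2 | h2
    · left
      rw [h2.1]
    · exact a06_sgn (Finset.mem_product.1 h2.1).2
  · rcases h x with h2 | h2
    · exact absurd (by rw [h2.1]) hx
    · exact h2.2.2.2.1 hx
  · rcases h x with h2 | h2
    · exact absurd (by rw [h2.1]) hx
    · exact h2.2.2.2.2.1 hx
  · rcases h x with h2 | h2
    · exfalso
      obtain ⟨v1, v2, s1, s2, n1, n2, hm⟩ := G.model x hx ρ h0 h1 hF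
      obtain ⟨w1, m1, k1, e1⟩ := a06_repl s1 n1
      obtain ⟨w2, m2, k2, e2⟩ := a06_repl s2 n2
      refine h2.2 (w1, w2) (Finset.mem_product.2 ⟨m1, m2⟩) ⟨hx, hF, k1, k2, fun q hq => ?_⟩
      rw [hm q hq, e1, e2]
    · exact h2.2.2.2.2.2

end BlA

end

end Pool.Agent.MP4eed4eR
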