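import Pool.Agent.Lib.MP_4eed4e_an_R.ADefs

/-!
MP_4eed4e_an, project R, module A07: walls and folding in one dimension.
-/

namespace Pool.Agent.MP4eed4eR

open MeasureTheory Set Filter Topology Metric

noncomputable section

namespace BlA

theorem cIn_of_wIn {w : ℝ × ℝ} {y : ℝ} (h : wIn w y) : cIn w y := by
  rcases h with h | h
  · exact Or.inl h
  · exact Or.inr h.le

/-- Proof: `w.2 = 0` is trivial; for `w.2 = ±1` and `0 ≤ w.2 * (y - w.1)` we have
`w.2 * |y - w.1| = y - w.1`. -/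
theorem wfold_in {w : ℝ × ℝ} {y : ℝ} (hw : IsSgn w.2) (h : cIn w y) :
    wfold w y = y ∧ wsgn w y = 1 := by
  obtain ⟨a, s⟩ := w
  unfold cIn at h
  unfold wfold wsgn
  simp only [IsSgn] at *
  rcases hw with rfl | rfl | rfl
  · simp
  · have h1 : 0 ≤ y - a := by
      rcases h with h | h
      · norm_num at h
      · linarith
    rw [if_neg one_ne_zero, abs_of_nonneg h1, if_neg (by linarith)]
    exact ⟨by ring, rfl⟩
  · have h1 : y - a ≤ 0 := by
      rcases h with h | h
      · norm_num at h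
      · linarith
    rw [if_neg (by norm_num), abs_of_nonpos h1, if_neg (by linarith)]
    exact ⟨by ring, rfl⟩

/-- Proof: `¬ cIn w y` means `w.2 ≠ 0` and `w.2 * (y - w.1) < 0`. -/
theorem wfold_out {w : ℝ × ℝ} {y : ℝ} (hw : IsSgn w.2) (h : ¬ cIn w y) :
    w.2 ≠ 0 ∧ wfold w y = 2 * w.1 - y ∧ wsgn w y = -1 ∧ cIn w (2 * w.1 - y) := by
  obtain ⟨a, s⟩ := w
  unfold cIn at h
  rw [not_or, not_le] at h
  unfold wfold wsgn cIn
  simp only [IsSgn] at *
  obtain ⟨h0, h1⟩ := h
  refine ⟨h0, ?_⟩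
  rcases hw with h2 | rfl | rfl
  · exact absurd h2 h0
  · rw [if_neg h0, abs_of_neg (by linarith), if_pos h1]
    exact ⟨by ring, rfl, Or.inr (by linarith)⟩
  · rw [if_neg h0, abs_of_pos (by linarith), if_pos h1]
    exact ⟨by ring, rfl, Or.inr (by linarith)⟩

theorem cIn_wfold {w : ℝ × ℝ} (hw : IsSgn w.2) (y : ℝ) : cIn w (wfold w y) := by
  by_cases h : cIn w y
  · rw [(wfold_in hw h).1]
    exact h
  · obtain ⟨-, h1, -, h2⟩ := wfold_out hw h
    rw [h1]
    exact h2

/-- Proof: `wfold w` is 1-Lipschitz and fixes `y₀` (`wfold_in`); or by cases with `wfold_in`,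
`wfold_out`: in the second case `y` and `y₀` are on different sides of `w.1`. -/
theorem wfold_dist {w : ℝ × ℝ} (hw : IsSgn w.2) {y₀ : ℝ} (h₀ : cIn w y₀) (y : ℝ) :
    |wfold w y - y₀| ≤ |y - y₀| := by
  by_cases h : cIn w y
  · rw [(wfold_in hw h).1]
  · obtain ⟨h0, h1, -, -⟩ := wfold_out hw h
    rw [h1]
    unfold cIn at h h₀
    rw [not_or, not_le] at h
    rcases h₀ with h3 | h3
    · exact absurd h3 h0
    · rcases hw with h2 | h2 | h2
      · exact absurd h2 h0
      · rw [h2] at h h3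
        rw [abs_le, abs_of_nonpos (a := y - y₀) (by linarith [h.2])]
        constructor <;> linarith [h.2]
      · rw [h2] at h h3
        rw [abs_le, abs_of_nonneg (a := y - y₀) (by linarith [h.2])]
        constructor <;> linarith [h.2]

/-- Proof: if `w.2 * (y - w.1) < 0` then this holds for all `y'` close to `y`. -/
theorem cIn_limit {w : ℝ × ℝ} {y : ℝ} (h : ∀ ε > 0, ∃ y', |y' - y| < ε ∧ wIn w y') :
    cIn w y := by
  by_contra hc
  unfold cIn at hc
  rw [not_or, not_le] at hc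
  obtain ⟨h0, h1⟩ := hc
  have hne : y - w.1 ≠ 0 := by
    intro h2
    rw [h2, mul_zero] at h1
    exact lt_irrefl _ h1
  obtain ⟨y', h2, h3⟩ := h |y - w.1| (abs_pos.2 hne)
  rcases h3 with h3 | h3
  · exact h0 h3
  · have h4 : w.2 * (y' - w.1) = w.2 * (y' - y) + w.2 * (y - w.1) := by ring
    have h5 : w.2 * (y' - y) ≤ |w.2| * |y' - y| := by
      rw [← abs_mul]
      exact le_abs_self _
    have h6 : w.2 * (y - w.1) = -(|w.2| * |y - w.1|) := by
      rw [← abs_mul, abs_of_neg h1, neg_neg]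
    have h7 : |w.2| * |y' - y| ≤ |w.2| * |y - w.1| :=
      mul_le_mul_of_nonneg_left h2.le (abs_nonneg _)
    linarith

/-- Two walls with the same open side in an interval that contains the first wall are equal.
Proof: on the interval `wIn u` is not constant, so `w.2 ≠ 0`. Evaluate at `u.1`: `wIn u u.1` is
false, so `w.2 * (u.1 - w.1) ≤ 0`. Evaluate at `u.1 + u.2 * η` for small `η > 0`: `wIn u` is true
(`u.2 ^ 2 = 1`), so `0 < w.2 * (u.1 - w.1) + w.2 * u.2 * η`; with `η → 0`,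
`0 ≤ w.2 * (u.1 - w.1)`. Hence `w.1 = u.1` and `0 < w.2 * u.2`, so `w.2 = u.2`. -/
theorem wall_unique {u w : ℝ × ℝ} {c r : ℝ} (hu : IsSgn u.2) (hw : IsSgn w.2)
    (h : ∀ y, |y - c| < r → (wIn u y ↔ wIn w y)) (hne : u.2 ≠ 0) (hin : |u.1 - c| < r) :
    w = u := by
  have h1 : ¬ wIn u u.1 := by
    unfold wIn
    rw [sub_self, mul_zero, not_or]
    exact ⟨hne, lt_irrefl _⟩
  rw [h u.1 hin] at h1
  unfold wIn at h1
  rw [not_or, not_lt] at h1
  obtain ⟨hw0, h2⟩ := h1
  have hu2 : u.2 * u.2 = 1 := by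
    rcases hu with h3 | h3 | h3
    · exact absurd h3 hne
    · rw [h3]; norm_num
    · rw [h3]; norm_num
  have huw : w.2 * u.2 ≤ 1 := by
    rcases hu with h3 | h3 | h3 <;> rcases hw with h4 | h4 | h4 <;> rw [h3, h4] <;> norm_num
  have hua : |u.2| ≤ 1 := by
    rcases hu with h3 | h3 | h3 <;> rw [h3] <;> norm_num
  have key : ∀ η : ℝ, 0 < η → η < r - |u.1 - c| →
      0 < w.2 * (u.1 - w.1) + w.2 * u.2 * η := by
    intro η h3 h4
    have h5 : |u.1 + u.2 * η - c| < r := by
      have h6 : |u.1 + u.2 * η - c| ≤ |u.1 - c| + |u.2 * η| := by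
        have := abs_add_le (u.1 - c) (u.2 * η)
        rwa [show u.1 - c + u.2 * η = u.1 + u.2 * η - c by ring] at this
      have h7 : |u.2 * η| ≤ η := by
        rw [abs_mul, abs_of_pos h3]
        exact mul_le_of_le_one_left h3.le hua
      linarith
    have h8 : wIn u (u.1 + u.2 * η) := by
      right
      have : u.2 * (u.1 + u.2 * η - u.1) = η := by
        rw [add_sub_cancel_left, ← mul_assoc, hu2, one_mul]
      rw [this]
      exact h3
    rw [h _ h5] at h8
    rcases h8 with h8 | h8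
    · exact absurd h8 hw0
    · have : w.2 * (u.1 + u.2 * η - w.1) = w.2 * (u.1 - w.1) + w.2 * u.2 * η := by ring
      linarith
  have hr : 0 < r - |u.1 - c| := by linarith
  have h3 : w.2 * (u.1 - w.1) = 0 := by
    by_contra h4
    have h5 : 0 < -(w.2 * (u.1 - w.1)) := by
      have := lt_of_le_of_ne h2 h4
      linarith
    have h6 := key (min ((r - |u.1 - c|) / 2) (-(w.2 * (u.1 - w.1))))
      (lt_min (by linarith) h5) (lt_of_le_of_lt (min_le_left _ _) (by linarith))
    set η := min ((r - |u.1 - c|) / 2) (-(w.2 * (u.1 - w.1))) with hη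
    have h7 : 0 < η := lt_min (by linarith) h5
    have h8 : η ≤ -(w.2 * (u.1 - w.1)) := min_le_right _ _
    have h9 : w.2 * u.2 * η ≤ 1 * η := mul_le_mul_of_nonneg_right huw h7.le
    linarith
  have h4 : w.1 = u.1 := by
    rcases mul_eq_zero.1 h3 with h5 | h5
    · exact absurd h5 hw0
    · linarith
  have h5 := key ((r - |u.1 - c|) / 2) (by linarith) (by linarith)
  rw [h3, zero_add] at h5
  have h6 : 0 < w.2 * u.2 := by
    by_contra h7
    have := mul_nonpos_of_nonpos_of_nonneg (not_lt.1 h7) (by linarith : 0 ≤ (r - |u.1 - c|) / 2)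
    linarith
  have h7 : w.2 = u.2 := by
    rcases hu with h3 | h3 | h3 <;> rcases hw with h4 | h4 | h4 <;> rw [h3, h4] at h6 <;>
      rw [h3, h4] <;> norm_num at h6
  exact Prod.ext h4 h7

private theorem A07_all {u : ℝ × ℝ} {c r : ℝ} (hu : IsSgn u.2) (huc : cIn u c)
    (h : u.2 ≠ 0 → r ≤ |u.1 - c|) {y : ℝ} (hy : |y - c| < r) : cIn u y := by
  by_cases h0 : u.2 = 0
  · exact Or.inl h0
  · right
    have h1 := h h0
    rcases huc with h2 | h2
    · exact absurd h2 h0
    · rcases hu with h3 | h3 | h3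
      · exact absurd h3 h0
      · rw [h3] at h2 ⊢
        rw [abs_of_nonpos (by linarith : u.1 - c ≤ 0)] at h1
        linarith [(abs_lt.1 hy).1]
      · rw [h3] at h2 ⊢
        rw [abs_of_nonneg (by linarith : 0 ≤ u.1 - c)] at h1
        linarith [(abs_lt.1 hy).2]

/-- Proof: if `u.2 ≠ 0` and `|u.1 - c| < r` then `w = u` (`wall_unique`). If `w.2 ≠ 0` and
`|w.1 - c| < r` the same with the roles exchanged. Otherwise both `u` and `w` have no wall in the
interval; because of `cIn u c`, `cIn w c` the whole interval lies on the open sides of both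
(for `u.2 ≠ 0`: `|u.1 - c| ≥ r`, so `c` is strictly inside with distance `≥ r`), and both folds are
the identity there (`wfold_in`, `cIn_of_wIn`). -/
theorem fold_congr {u w : ℝ × ℝ} {c r : ℝ} (hu : IsSgn u.2) (hw : IsSgn w.2)
    (h : ∀ y, |y - c| < r → (wIn u y ↔ wIn w y)) (huc : cIn u c) (hwc : cIn w c) :
    ∀ y, |y - c| < r → (cIn u y ↔ cIn w y) ∧ wfold u y = wfold w y ∧ wsgn u y = wsgn w y := by
  intro y hy
  by_cases h1 : u.2 ≠ 0 ∧ |u.1 - c| < r
  · rw [wall_unique hu hw h h1.1 h1.2]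
    exact ⟨Iff.rfl, rfl, rfl⟩
  by_cases h2 : w.2 ≠ 0 ∧ |w.1 - c| < r
  · rw [wall_unique hw hu (fun z hz => (h z hz).symm) h2.1 h2.2]
    exact ⟨Iff.rfl, rfl, rfl⟩
  have k1 : cIn u y := A07_all hu huc (fun h3 => not_lt.1 fun h4 => h1 ⟨h3, h4⟩) hy
  have k2 : cIn w y := A07_all hw hwc (fun h3 => not_lt.1 fun h4 => h2 ⟨h3, h4⟩) hy
  obtain ⟨m1, m2⟩ := wfold_in hu k1
  obtain ⟨m3, m4⟩ := wfold_in hw k2
  exact ⟨⟨fun _ => k2, fun _ => k1⟩, m1.trans m3.symm, m2.trans m4.symm⟩

theorem measurable_wfold : Measurable (fun p : (ℝ × ℝ) × ℝ => wfold p.1 p.2) := by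
  unfold wfold
  refine Measurable.ite ?_ (by fun_prop) (by fun_prop)
  exact measurableSet_eq_fun (by fun_prop) (by fun_prop)

theorem measurable_wsgn : Measurable (fun p : (ℝ × ℝ) × ℝ => wsgn p.1 p.2) := by
  unfold wsgn
  refine Measurable.ite ?_ (by fun_prop) (by fun_prop)
  exact measurableSet_lt (by fun_prop) (by fun_prop)

/-! ### Stability in one coordinate -/

/-- Proof: first `cIn B y` from `h`. By `fold_congr` with the centre `y` the fold and the sign of
`w` and of `B` agree at `z = y + t * v` (`|v| = |u|`, so `|z - y| < r`). First alternative: `y = p`,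
`v = u`, `z = p + t * u`; if `cIn B z`: first alternative (`wfold_in`); otherwise the second one
(`wfold_out`). Second alternative: `z = 2 * B.1 - (p + t * u)`; if `cIn B z`: second alternative
again; otherwise the first one. -/
theorem Near1_step {B w : ℝ × ℝ} {p u y v t r : ℝ} (hB : IsSgn B.2) (hw : IsSgn w.2)
    (h : Near1 B p u y v) (hwy : cIn w y) (hag : ∀ z, |z - y| < r → (wIn w z ↔ wIn B z))
    (ht : |t * u| < r) :
    Near1 B (p + t * u) u (wfold w (y + t * v)) (wsgn w (y + t * v) * v) := by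
  have hBy : cIn B y := by
    rcases h with ⟨h1, -, h2⟩ | ⟨-, h1, -, h2⟩
    · rw [h1]; exact h2
    · rw [h1]; exact h2
  have hv : |t * v| < r := by
    rcases h with ⟨-, h1, -⟩ | ⟨-, -, h1, -⟩
    · rw [h1]; exact ht
    · rw [h1, mul_neg, abs_neg]; exact ht
  obtain ⟨-, f1, f2⟩ := fold_congr hw hB hag hwy hBy (y + t * v)
    (by rw [add_sub_cancel_left]; exact hv)
  rw [f1, f2]
  by_cases hc : cIn B (y + t * v)
  · obtain ⟨g1, g2⟩ := wfold_in hB hc
    rw [g1, g2, one_mul]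
    rcases h with ⟨h1, h2, -⟩ | ⟨h0, h1, h2, -⟩
    · left
      rw [h1, h2] at hc ⊢
      exact ⟨rfl, rfl, hc⟩
    · right
      have e : y + t * v = 2 * B.1 - (p + t * u) := by
        rw [h1, h2]; ring
      rw [e] at hc ⊢
      exact ⟨h0, rfl, h2, hc⟩
  · obtain ⟨h0, g1, g2, g3⟩ := wfold_out hB hc
    rw [g1, g2]
    rcases h with ⟨h1, h2, -⟩ | ⟨-, h1, h2, -⟩
    · right
      rw [h1, h2] at g3 ⊢
      exact ⟨h0, rfl, by ring, g3⟩
    · left
      have e : 2 * B.1 - (y + t * v) = p + t * u := by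
        rw [h1, h2]; ring
      rw [e] at g3 ⊢
      exact ⟨rfl, by rw [h2]; ring, g3⟩

/-- Proof: the two alternatives are exchanged. -/
theorem Near1_swap {B : ℝ × ℝ} {p u y v : ℝ} (h : Near1 B p u y v) (hB : B.2 ≠ 0) :
    Near1 B (2 * B.1 - p) (-u) y v := by
  rcases h with ⟨h1, h2, h3⟩ | ⟨-, h1, h2, h3⟩
  · right
    rw [sub_sub_cancel, neg_neg]
    exact ⟨hB, h1, h2, h3⟩
  · left
    exact ⟨h1, h2, h3⟩

/-- Proof: first alternative: `cIn C p` by `fold_congr`. Second alternative: `B.2 * (B.1 - p) ≥ 0`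
and `B.2 * (c - B.1) ≥ 0` (`hBc`, `B.2 ≠ 0`), so `B.1` lies between `p` and `c` and
`|B.1 - c| ≤ |p - c| < r`; `wall_unique` gives `C = B`. -/
theorem Near1_transfer {B C : ℝ × ℝ} {p u y v c r : ℝ} (hB : IsSgn B.2) (hC : IsSgn C.2)
    (h : Near1 B p u y v) (hag : ∀ z, |z - c| < r → (wIn B z ↔ wIn C z)) (hBc : cIn B c)
    (hCc : cIn C c) (hp : |p - c| < r) : Near1 C p u y v := by
  rcases h with ⟨h1, h2, h3⟩ | ⟨h0, h1, h2, h3⟩
  · left
    exact ⟨h1, h2, ((fold_congr hB hC hag hBc hCc p hp).1).1 h3⟩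
  · have h4 : |B.1 - c| < r := by
      refine lt_of_le_of_lt ?_ hp
      rcases h3 with h3 | h3
      · exact absurd h3 h0
      rcases hBc with h5 | h5
      · exact absurd h5 h0
      rcases hB with h6 | h6 | h6
      · exact absurd h6 h0
      · rw [h6] at h3 h5
        rw [abs_of_nonpos (by linarith), abs_of_nonpos (by linarith)]
        linarith
      · rw [h6] at h3 h5
        rw [abs_of_nonneg (by linarith), abs_of_nonneg (by linarith)]
        linarith
    rw [wall_unique hB hC hag h0 h4]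
    right
    exact ⟨h0, h1, h2, h3⟩

/-- Proof: `y = p` or `y = 2 * B.1 - p`, where `B.1` is between `c` and `p` or `y = p`; both `c`
and `y` are on the closed side of `B`. (Or `y = wfold B p` and `wfold_dist`.) -/
theorem Near1_dist {B : ℝ × ℝ} {p u y v c : ℝ} (hB : IsSgn B.2) (h : Near1 B p u y v)
    (hc : cIn B c) : |y - c| ≤ |p - c| ∧ |v| = |u| ∧ cIn B y := by
  rcases h with ⟨h1, h2, h3⟩ | ⟨h0, h1, h2, h3⟩
  · rw [h1, h2]
    exact ⟨le_refl _, rfl, h3⟩
  · rw [h1, h2, abs_neg]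
    refine ⟨?_, rfl, h3⟩
    rcases h3 with h3 | h3
    · exact absurd h3 h0
    rcases hc with h5 | h5
    · exact absurd h5 h0
    rcases hB with h6 | h6 | h6
    · exact absurd h6 h0
    · rw [h6] at h3 h5
      rw [abs_of_nonpos (a := p - c) (by linarith), abs_le]
      constructor <;> linarith
    · rw [h6] at h3 h5
      rw [abs_of_nonneg (a := p - c) (by linarith), abs_le]
      constructor <;> linarith

theorem Near1_none {B : ℝ × ℝ} {p u y v : ℝ} (h : Near1 B p u y v) (hB : B.2 = 0) :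
    y = p ∧ v = u := by
  rcases h with ⟨h1, h2, -⟩ | ⟨h0, -, -, -⟩
  · exact ⟨h1, h2⟩
  · exact absurd hB h0

end BlA

end

end Pool.Agent.MP4eed4eR
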