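import Pool.Agent.Lib.MP_4eed4e_an_R.A07

/-!
MP_4eed4e_an, project R, module A08: the history of one coordinate.
-/

namespace Pool.Agent.MP4eed4eR

open MeasureTheory Set Filter Topology Metric

noncomputable section

namespace BlA

theorem Rf_mono (A : Finset ℝ) {n m : ℕ} (h : n ≤ m) : Rf A n ⊆ Rf A m := by
  induction h with
  | refl => exact Finset.Subset.refl _
  | step _ ih => exact ih.trans Finset.subset_union_left

theorem Rf_refl {A : Finset ℝ} {n : ℕ} {γ : ℝ × ℝ} (h : γ ∈ Rf A n) {a : ℝ} (ha : a ∈ A) :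
    (-γ.1, 2 * a - γ.2) ∈ Rf A (n + 1) := by
  unfold Rf
  rw [Finset.mem_union]
  right
  rw [Finset.mem_image]
  exact ⟨(γ, a), Finset.mem_product.2 ⟨h, ha⟩, rfl⟩

/-- Proof: induction on `n`. -/
theorem Rf_sign {A : Finset ℝ} {n : ℕ} {γ : ℝ × ℝ} (h : γ ∈ Rf A n) : γ.1 = 1 ∨ γ.1 = -1 := by
  induction n generalizing γ with
  | zero =>
    unfold Rf at h
    rw [Finset.mem_singleton] at h
    left
    rw [h]
  | succ n ih =>
    unfold Rf at h
    rw [Finset.mem_union] at h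
    rcases h with h | h
    · exact ih h
    · rw [Finset.mem_image] at h
      obtain ⟨p, hp, rfl⟩ := h
      rcases ih (Finset.mem_product.1 hp).1 with h1 | h1
      · right
        show -p.1.1 = -1
        rw [h1]
      · left
        show -p.1.1 = 1
        rw [h1, neg_neg]

theorem Tr1_zero (A : Finset ℝ) (r y₀ v₀ : ℝ) : Tr1 A r 0 y₀ v₀ 0 (1, 0) := by
  refine ⟨?_, Or.inl ⟨rfl, rfl⟩⟩
  unfold Rf
  exact Finset.mem_singleton_self _

private theorem a08_e {v e a a' r : ℝ} (hv : v ≠ 0) (h1 : v * e ≤ 0) (h2 : 0 ≤ (a - a') * v)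
    (h3 : 16 * r ≤ |a - a'|) : 32 * r ≤ |e - 2 * (a - a')| := by
  have hp : 0 < |v| := abs_pos.2 hv
  have e1 : |a - a'| * |v| = (a - a') * v := by rw [← abs_mul, abs_of_nonneg h2]
  have e2 : |e - 2 * (a - a')| * |v| = |(e - 2 * (a - a')) * v| := (abs_mul _ _).symm
  have e3 := neg_abs_le ((e - 2 * (a - a')) * v)
  have e4 : 16 * r * |v| ≤ |a - a'| * |v| := mul_le_mul_of_nonneg_right h3 hp.le
  have e5 : 32 * r * |v| ≤ |e - 2 * (a - a')| * |v| := by
    rw [e2]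
    nlinarith
  exact le_of_mul_le_mul_right e5 hp

private theorem a08_S {w : ℝ × ℝ} {y z : ℝ} (hw : IsSgn w.2) (h0 : w.2 ≠ 0) (hy : cIn w y)
    (hz : ¬ cIn w z) : ∃ S : ℝ, (S = 1 ∨ S = -1) ∧ 0 ≤ S * (y - w.1) ∧ S * (z - w.1) < 0 := by
  refine ⟨w.2, ?_, ?_, ?_⟩
  · rcases hw with h | h
    · exact absurd h h0
    · exact h
  · rcases hy with h | h
    · exact absurd h h0
    · exact h
  · by_contra h
    exact hz (Or.inr (not_lt.1 h))

/-- the elementary facts at a reflection with `t ≥ 0` -/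
private theorem a08_refl {S y a' t v : ℝ} (hS : S = 1 ∨ S = -1) (h1 : 0 ≤ S * (y - a'))
    (h2 : S * (y + t * v - a') < 0) (ht : 0 ≤ t) :
    0 ≤ (a' - y) * v ∧ 0 < (y + t * v - a') * v ∧
      |a' - (y + t * v)| = t * |v| - |y - a'| := by
  have hS2 : S * S = 1 := by rcases hS with h | h <;> rw [h] <;> norm_num
  have h3 : S * (t * v) < 0 := by nlinarith
  have ht0 : 0 < t := by
    rcases ht.lt_or_eq with h | h
    · exact h
    · rw [← h] at h3
      simp at h3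
  have h4 : S * v < 0 := by
    by_contra h
    have := mul_nonneg ht (not_lt.1 h)
    nlinarith
  have h5 : 0 ≤ (S * (y - a')) * (-(S * v)) := mul_nonneg h1 (by linarith)
  have h6 : 0 < (-(S * (y + t * v - a'))) * (-(S * v)) := mul_pos (by linarith) (by linarith)
  have h7 : (S * (y - a')) * (-(S * v)) = (a' - y) * v * (S * S) := by ring
  have h8 : (-(S * (y + t * v - a'))) * (-(S * v)) = (y + t * v - a') * v * (S * S) := by ring
  rw [h7, hS2, mul_one] at h5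
  rw [h8, hS2, mul_one] at h6
  refine ⟨h5, h6, ?_⟩
  rcases hS with h | h
  · subst h
    rw [abs_of_nonneg (by linarith : (0 : ℝ) ≤ a' - (y + t * v)),
      abs_of_nonneg (by linarith : (0 : ℝ) ≤ y - a'), abs_of_neg (by linarith : v < 0)]
    ring
  · subst h
    rw [abs_of_nonpos (by linarith : a' - (y + t * v) ≤ 0),
      abs_of_nonpos (by linarith : y - a' ≤ 0), abs_of_pos (by linarith : 0 < v)]
    ring

/-- distances when `y - a` and `a' - y` point in the direction of `v` -/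
private theorem a08_dist {y a a' v : ℝ} (h1 : 0 < (y - a) * v) (h2 : 0 ≤ (a' - y) * v) :
    0 < (a' - a) * v ∧ a ≠ a' ∧ |a - a'| = |y - a| + |y - a'| := by
  have h3 : 0 < (a' - a) * v := by nlinarith
  refine ⟨h3, ?_, ?_⟩
  · intro h
    rw [h] at h3
    simp at h3
  · rcases lt_trichotomy v 0 with h | h | h
    · have g1 : y - a < 0 := by
        by_contra h4
        have := mul_nonneg (not_lt.1 h4) (neg_pos.2 h).le
        nlinarith
      have g2 : a' - y ≤ 0 := by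
        by_contra h4
        have := mul_pos (not_le.1 h4) (neg_pos.2 h)
        nlinarith
      rw [abs_of_neg g1, abs_of_nonneg (by linarith : (0 : ℝ) ≤ y - a'),
        abs_of_pos (by linarith : 0 < a - a')]
      ring
    · rw [h] at h1
      simp at h1
    · have g1 : 0 < y - a := by
        by_contra h4
        have := mul_nonneg (neg_nonneg.2 (not_lt.1 h4)) h.le
        nlinarith
      have g2 : 0 ≤ a' - y := by
        by_contra h4
        have := mul_pos (neg_pos.2 (not_le.1 h4)) h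
        nlinarith
      rw [abs_of_pos g1, abs_of_nonpos (by linarith : y - a' ≤ 0),
        abs_of_neg (by linarith : a - a' < 0)]
      ring

private theorem a08_abs {g v : ℝ} (hg : g = 1 ∨ g = -1) : |g * v| = |v| := by
  rcases hg with h | h
  · rw [h, one_mul]
  · rw [h, neg_one_mul, abs_neg]

/-- One step of the billiard with `t ≥ 0`. Put `y = γ.1 * (y₀ + s * v₀) + γ.2`, `v = γ.1 * v₀`,
`z = y + t * v` (so `|v| = |v₀|`, and `z = γ.1 * (y₀ + (s + t) * v₀) + γ.2`).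

Proof. Case `cIn w z`: `wfold w z = z`, `wsgn w z = 1` (`wfold_in`); take `n' = n`, `γ' = γ`. For
`n ≥ 1` keep `a` and `e`: `(z - a) * v = (y - a) * v + t * v ^ 2 > 0`,
`|z - a| ≤ |y - a| + t * |v₀|`.

Case `¬ cIn w z`: `w.2 ≠ 0`, `a' = w.1 ∈ A`, `wfold w z = 2 * a' - z`, `wsgn w z = -1`
(`wfold_out`). Take `n' = n + 1`, `γ' = (-γ.1, 2 * a' - γ.2)` (`Rf_refl`), last wall `a'`. From
`w.2 * (y - a') ≥ 0` (`hin`) and `w.2 * (z - a') < 0` (`w.2 = ±1`) we get: `v ≠ 0`, `t > 0`,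
`(a' - y) * v ≥ 0`, `(z - a') * v > 0` and `t * |v| = |a' - y| + |z - a'|`. Hence the new position
minus `a'`, `a' - z`, times the new velocity `-v` is positive, and
`|(2 * a' - z) - a'| = t * |v₀| - |y - a'|`.
If `n = 0`: `γ' = (-1, 2 * a')`, `e' = 0`; the last inequality reads `|z - a'| ≤ (s + t) * |v₀|`.
If `n ≥ 1` with the last wall `a` and `e`: `(y - a) * v > 0` and `(a' - y) * v ≥ 0` give
`(a' - a) * v > 0`, so `a' ≠ a` and `16 * r ≤ |a' - a| = |y - a| + |y - a'|`; so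
`n * (16 * r) + |z - a'| ≤ (n - 1) * (16 * r) + |y - a| + |y - a'| + t * |v₀| - |y - a'|
≤ (s + t) * |v₀|`. For `γ.1 = 1` take `e' = e` (`e = γ.2 = 2 * a' - γ'.2`). For `γ.1 = -1` take
`e' = e - 2 * (a - a') = γ'.2`; `v = - v₀`, so `(a - a') * v₀ > 0` and both `v₀ * e ≤ 0`,
`v₀ * (-2 * (a - a')) < 0`; so `v₀ * e' ≤ 0` and `|e'| = |e| + 2 * |a - a'| ≥ 32 * r`. -/
theorem Tr1_step {A : Finset ℝ} {r s y₀ v₀ t : ℝ} {n : ℕ} {γ w : ℝ × ℝ} (hr : 0 < r)
    (hA : ∀ a ∈ A, ∀ a' ∈ A, a ≠ a' → 16 * r ≤ |a - a'|) (hs : 0 ≤ s) (ht : 0 ≤ t)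
    (h : Tr1 A r s y₀ v₀ n γ) (hw : IsSgn w.2) (hwA : w.2 ≠ 0 → w.1 ∈ A)
    (hin : cIn w (γ.1 * (y₀ + s * v₀) + γ.2)) :
    ∃ (n' : ℕ) (γ' : ℝ × ℝ), Tr1 A r (s + t) y₀ v₀ n' γ' ∧
      wfold w (γ.1 * (y₀ + s * v₀) + γ.2 + t * (γ.1 * v₀)) =
        γ'.1 * (y₀ + (s + t) * v₀) + γ'.2 ∧
      wsgn w (γ.1 * (y₀ + s * v₀) + γ.2 + t * (γ.1 * v₀)) * (γ.1 * v₀) = γ'.1 * v₀ ∧
      ((cIn w (γ.1 * (y₀ + s * v₀) + γ.2 + t * (γ.1 * v₀)) ∧ γ' = γ) ∨
        (¬ cIn w (γ.1 * (y₀ + s * v₀) + γ.2 + t * (γ.1 * v₀)) ∧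
          γ' = (-γ.1, 2 * w.1 - γ.2))) := by
  have hg := Rf_sign h.1
  have hzz : γ.1 * (y₀ + s * v₀) + γ.2 + t * (γ.1 * v₀) =
      γ.1 * (y₀ + (s + t) * v₀) + γ.2 := by ring
  by_cases hz : cIn w (γ.1 * (y₀ + s * v₀) + γ.2 + t * (γ.1 * v₀))
  · obtain ⟨f1, f2⟩ := wfold_in hw hz
    refine ⟨n, γ, ⟨h.1, ?_⟩, ?_, ?_, Or.inl ⟨hz, rfl⟩⟩
    · rcases h.2 with h1 | ⟨h1, h2, a, ha, e, he1, he2, he3, he4, he5, he6⟩
      · exact Or.inl h1
      · refine Or.inr ⟨h1, h2, a, ha, e, he1, he2, he3, he4, ?_, ?_⟩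
        · rw [← hzz]
          have g1 : (γ.1 * (y₀ + s * v₀) + γ.2 + t * (γ.1 * v₀) - a) * (γ.1 * v₀) =
              (γ.1 * (y₀ + s * v₀) + γ.2 - a) * (γ.1 * v₀) + t * (γ.1 * v₀) ^ 2 := by ring
          rw [g1]
          positivity
        · rw [← hzz]
          have g1 : |γ.1 * (y₀ + s * v₀) + γ.2 + t * (γ.1 * v₀) - a| ≤
              |γ.1 * (y₀ + s * v₀) + γ.2 - a| + t * |v₀| := by
            have g2 : γ.1 * (y₀ + s * v₀) + γ.2 + t * (γ.1 * v₀) - a =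
                (γ.1 * (y₀ + s * v₀) + γ.2 - a) + t * (γ.1 * v₀) := by ring
            rw [g2]
            refine (abs_add_le _ _).trans (le_of_eq ?_)
            rw [abs_mul, abs_of_nonneg ht, a08_abs hg]
          have g3 : (s + t) * |v₀| = s * |v₀| + t * |v₀| := by ring
          rw [g3]
          linarith
    · rw [f1, hzz]
    · rw [f2, one_mul]
  · obtain ⟨f0, f1, f2, _⟩ := wfold_out hw hz
    have ha' := hwA f0
    obtain ⟨S, hS, hS1, hS2⟩ := a08_S hw f0 hin hz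
    obtain ⟨k1, k2, k3⟩ := a08_refl hS hS1 hS2 ht
    rw [a08_abs hg] at k3
    refine ⟨n + 1, (-γ.1, 2 * w.1 - γ.2), ⟨Rf_refl h.1 ha', Or.inr ⟨by omega, ?_, ?_⟩⟩, ?_, ?_,
      Or.inr ⟨hz, rfl⟩⟩
    · show -γ.1 = 1 ∨ -γ.1 = -1
      rcases hg with h1 | h1
      · right; rw [h1]
      · left; rw [h1, neg_neg]
    · have p1 : -γ.1 * (y₀ + (s + t) * v₀) + (2 * w.1 - γ.2) - w.1 =
          w.1 - (γ.1 * (y₀ + s * v₀) + γ.2 + t * (γ.1 * v₀)) := by ring
      have p2 : (w.1 - (γ.1 * (y₀ + s * v₀) + γ.2 + t * (γ.1 * v₀))) * (-γ.1 * v₀) =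
          (γ.1 * (y₀ + s * v₀) + γ.2 + t * (γ.1 * v₀) - w.1) * (γ.1 * v₀) := by ring
      have p3 : (s + t) * |v₀| = s * |v₀| + t * |v₀| := by ring
      rcases h.2 with ⟨hn, hγ⟩ | ⟨h1, h2, a, ha, e, he1, he2, he3, he4, he5, he6⟩
      · refine ⟨w.1, ha', 0, ?_, ?_, by rw [mul_zero], Or.inl rfl, ?_, ?_⟩
        · intro h3
          have h4 : -γ.1 = 1 := h3
          rw [hγ] at h4
          norm_num at h4
        · intro _
          show (0 : ℝ) = 2 * w.1 - (2 * w.1 - γ.2)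
          rw [hγ]
          ring
        · show 0 < (-γ.1 * (y₀ + (s + t) * v₀) + (2 * w.1 - γ.2) - w.1) * (-γ.1 * v₀)
          rw [p1, p2]
          exact k2
        · show (((n + 1 : ℕ) : ℝ) - 1) * (16 * r) +
            |-γ.1 * (y₀ + (s + t) * v₀) + (2 * w.1 - γ.2) - w.1| ≤ (s + t) * |v₀|
          rw [p1, k3, hn, p3]
          have q1 := abs_nonneg (γ.1 * (y₀ + s * v₀) + γ.2 - w.1)
          have q2 : 0 ≤ s * |v₀| := mul_nonneg hs (abs_nonneg _)
          push_cast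
          linarith
      · obtain ⟨d1, d2, d3⟩ := a08_dist he5 k1
        have d4 := hA a ha w.1 ha' d2
        have hlast : (((n + 1 : ℕ) : ℝ) - 1) * (16 * r) +
            |-γ.1 * (y₀ + (s + t) * v₀) + (2 * w.1 - γ.2) - w.1| ≤ (s + t) * |v₀| := by
          rw [p1, k3, p3]
          push_cast
          have q1 : ((n : ℝ) + 1 - 1) * (16 * r) = ((n : ℝ) - 1) * (16 * r) + 16 * r := by ring
          rw [q1]
          linarith
        rcases h2 with h2 | h2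
        · refine ⟨w.1, ha', e, ?_, ?_, he3, he4, ?_, hlast⟩
          · intro h3
            have h4 : -γ.1 = 1 := h3
            rw [h2] at h4
            norm_num at h4
          · intro _
            show e = 2 * w.1 - (2 * w.1 - γ.2)
            rw [he1 h2]
            ring
          · show 0 < (-γ.1 * (y₀ + (s + t) * v₀) + (2 * w.1 - γ.2) - w.1) * (-γ.1 * v₀)
            rw [p1, p2]
            exact k2
        · have hv : v₀ ≠ 0 := by
            intro h3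
            rw [h3] at d1
            simp at d1
          have d5 : 0 ≤ (a - w.1) * v₀ := by
            rw [h2] at d1
            nlinarith
          have q2 := a08_e hv he3 d5 d4
          have q3 : e - 2 * (a - w.1) = 2 * w.1 - γ.2 := by
            rw [he2 h2]
            ring
          rw [q3] at q2
          refine ⟨w.1, ha', 2 * w.1 - γ.2, fun _ => rfl, ?_, ?_, Or.inr q2, ?_, hlast⟩
          · intro h3
            have h4 : -γ.1 = -1 := h3
            rw [h2] at h4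
            norm_num at h4
          · rw [← q3]
            nlinarith
          · show 0 < (-γ.1 * (y₀ + (s + t) * v₀) + (2 * w.1 - γ.2) - w.1) * (-γ.1 * v₀)
            rw [p1, p2]
            exact k2
    · rw [f1]
      show 2 * w.1 - (γ.1 * (y₀ + s * v₀) + γ.2 + t * (γ.1 * v₀)) =
        -γ.1 * (y₀ + (s + t) * v₀) + (2 * w.1 - γ.2)
      ring
    · rw [f2]
      show -1 * (γ.1 * v₀) = -γ.1 * v₀
      ring

private theorem a08_filter {A : Finset ℝ} {r s y₀ v₀ : ℝ} {n : ℕ} {γ : ℝ × ℝ} (hr : 0 < r)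
    (h : Tr1 A r s y₀ v₀ n γ) : γ.1 = 1 → γ.2 ≠ 0 → 16 * r ≤ |γ.2| := by
  intro h1 h2
  rcases h.2 with ⟨_, hγ⟩ | ⟨_, _, a, ha, e, he1, he2, he3, he4, he5, he6⟩
  · rw [hγ] at h2
    exact absurd rfl h2
  · rw [← he1 h1] at h2 ⊢
    rcases he4 with h4 | h4
    · exact absurd h4 h2
    · linarith

/-- a wall close to `y`, with `t < 0` -/
private theorem a08_close {S y a a' t v r : ℝ} (hS : S = 1 ∨ S = -1) (h1 : 0 ≤ S * (y - a'))
    (h2 : S * (y + t * v - a') < 0) (hv : |v| ≤ 2) (ht : 2 * |t| < 16 * r)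
    (h3 : 0 < (y - a) * v) (h4 : a ≠ a' → 16 * r ≤ |a - a'|) : 0 ≤ (a' - a) * v := by
  rcases le_or_gt 0 t with ht0 | ht0
  · obtain ⟨k1, _, _⟩ := a08_refl hS h1 h2 ht0
    exact (a08_dist h3 k1).1.le
  · by_contra h5
    have h5 : (a' - a) * v < 0 := not_le.1 h5
    have h6 : a ≠ a' := by
      intro h
      rw [h] at h5
      simp at h5
    have h7 := h4 h6
    have hd : |y - a'| < 16 * r := by
      have g1 : |y - a'| ≤ |t * v| := by
        rcases hS with h | h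
        · subst h
          rw [abs_of_nonneg (by linarith : (0 : ℝ) ≤ y - a')]
          have := neg_abs_le (t * v)
          linarith
        · subst h
          rw [abs_of_nonpos (by linarith : y - a' ≤ 0)]
          have := le_abs_self (t * v)
          linarith
      rw [abs_mul] at g1
      have g2 : |t| * |v| ≤ |t| * 2 := mul_le_mul_of_nonneg_left hv (abs_nonneg t)
      linarith
    obtain ⟨_, _, d3⟩ := a08_dist (y := a) (a := a') (a' := y) (v := v) (by linarith) h3.le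
    rw [abs_sub_comm a' y, abs_sub_comm a y] at d3
    have := abs_nonneg (y - a)
    linarith

/-- The last step, with a small time `t` of any sign. Notation as in `Tr1_step`.

Proof. Case `cIn w z`: `γ' = γ`; `Rf_mono`; for `γ.1 = 1`: `n = 0` gives `γ.2 = 0`, `n ≥ 1` gives
`e = γ.2`, which is `0` or at least `32 * r` in absolute value.
Case `¬ cIn w z`: `γ' = (-γ.1, 2 * a' - γ.2)`, `a' = w.1`. If `γ.1 = 1` then `γ'.1 = -1` and nothing
is to show. If `γ.1 = -1` then `n ≥ 1`, `v = - v₀`, `e = 2 * a - γ.2` and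
`γ'.2 = e - 2 * (a - a')`. Claim: `(a - a') * v₀ ≥ 0`. For `t > 0` as in `Tr1_step`. For `t < 0`:
`hin` and `¬ cIn w z` give `(a' - y) * (t * v) ≥ 0`, so `(a' - y) * v₀ ≥ 0`, and
`|a' - y| ≤ |t| * |v| ≤ 2 * |t| < 16 * r`; `(y - a) * v > 0` gives `(a - y) * v₀ > 0`. If
`(a - a') * v₀ < 0` then `a ≠ a'` and `a` is between `y` and `a'`, so
`|a' - y| ≥ |a' - a| ≥ 16 * r`: contradiction. From the claim: either `a = a'` and `γ'.2 = e`, or
`|γ'.2| = |e| + 2 * |a - a'| ≥ 32 * r` because `e` and `-2 * (a - a')` have the same sign (or `e`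
is zero). -/
theorem Tr1_last {A : Finset ℝ} {r s y₀ v₀ t : ℝ} {n : ℕ} {γ w : ℝ × ℝ} (hr : 0 < r)
    (hA : ∀ a ∈ A, ∀ a' ∈ A, a ≠ a' → 16 * r ≤ |a - a'|) (hv : |v₀| ≤ 2)
    (ht : 2 * |t| < 16 * r) (h : Tr1 A r s y₀ v₀ n γ) (hw : IsSgn w.2)
    (hwA : w.2 ≠ 0 → w.1 ∈ A) (hin : cIn w (γ.1 * (y₀ + s * v₀) + γ.2)) :
    ∃ γ' ∈ Rf A (n + 1), (γ'.1 = 1 → γ'.2 ≠ 0 → 16 * r ≤ |γ'.2|) ∧
      wfold w (γ.1 * (y₀ + s * v₀) + γ.2 + t * (γ.1 * v₀)) =
        γ'.1 * (y₀ + (s + t) * v₀) + γ'.2 ∧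
      wsgn w (γ.1 * (y₀ + s * v₀) + γ.2 + t * (γ.1 * v₀)) * (γ.1 * v₀) = γ'.1 * v₀ := by
  have hg := Rf_sign h.1
  have hzz : γ.1 * (y₀ + s * v₀) + γ.2 + t * (γ.1 * v₀) =
      γ.1 * (y₀ + (s + t) * v₀) + γ.2 := by ring
  by_cases hz : cIn w (γ.1 * (y₀ + s * v₀) + γ.2 + t * (γ.1 * v₀))
  · obtain ⟨f1, f2⟩ := wfold_in hw hz
    refine ⟨γ, Rf_mono A (Nat.le_succ n) h.1, a08_filter hr h, ?_, ?_⟩
    · rw [f1, hzz]
    · rw [f2, one_mul]
  · obtain ⟨f0, f1, f2, _⟩ := wfold_out hw hz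
    have ha' := hwA f0
    obtain ⟨S, hS, hS1, hS2⟩ := a08_S hw f0 hin hz
    refine ⟨(-γ.1, 2 * w.1 - γ.2), Rf_refl h.1 ha', ?_, ?_, ?_⟩
    · intro h1 h2
      have h1 : -γ.1 = 1 := h1
      have h2 : 2 * w.1 - γ.2 ≠ 0 := h2
      show 16 * r ≤ |2 * w.1 - γ.2|
      have h3 : γ.1 = -1 := by linarith
      rcases h.2 with ⟨_, hγ⟩ | ⟨_, _, a, ha, e, he1, he2, he3, he4, he5, he6⟩
      · rw [hγ] at h3
        norm_num at h3
      · have q3 : e - 2 * (a - w.1) = 2 * w.1 - γ.2 := by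
          rw [he2 h3]
          ring
        have hv' : |γ.1 * v₀| ≤ 2 := by rw [a08_abs hg]; exact hv
        have c1 := a08_close hS hS1 hS2 hv' ht he5 (fun hne => hA a ha w.1 ha' hne)
        have hv0 : v₀ ≠ 0 := by
          intro h4
          rw [h4] at he5
          simp at he5
        rcases eq_or_ne a w.1 with h5 | h5
        · rw [h5, sub_self, mul_zero, sub_zero] at q3
          rw [← q3] at h2 ⊢
          rcases he4 with h6 | h6
          · exact absurd h6 h2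
          · linarith
        · have d4 := hA a ha w.1 ha' h5
          have d5 : 0 ≤ (a - w.1) * v₀ := by
            rw [h3] at c1
            nlinarith
          have q2 := a08_e hv0 he3 d5 d4
          rw [q3] at q2
          linarith
    · rw [f1]
      show 2 * w.1 - (γ.1 * (y₀ + s * v₀) + γ.2 + t * (γ.1 * v₀)) =
        -γ.1 * (y₀ + (s + t) * v₀) + (2 * w.1 - γ.2)
      ring
    · rw [f2]
      show -1 * (γ.1 * v₀) = -γ.1 * v₀
      ring

/-- Proof: `n = 0` is trivial; otherwise `(n - 1) * (16 * r) ≤ s * |v₀| ≤ 2 * T`, so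
`(n : ℝ) ≤ 1 + T / r ≤ 1 + ⌈T / r⌉₊`. -/
theorem Tr1_bound {A : Finset ℝ} {r s y₀ v₀ T : ℝ} {n : ℕ} {γ : ℝ × ℝ} (hr : 0 < r)
    (hs : 0 ≤ s) (hsT : s ≤ T) (hv : |v₀| ≤ 2) (h : Tr1 A r s y₀ v₀ n γ) :
    n + 1 ≤ ⌈T / r⌉₊ + 2 := by
  rcases h.2 with ⟨hn, _⟩ | ⟨h1, _, a, ha, e, he1, he2, he3, he4, he5, he6⟩
  · rw [hn]
    omega
  · have g1 := abs_nonneg (γ.1 * (y₀ + s * v₀) + γ.2 - a)
    have g2 : s * |v₀| ≤ T * 2 := mul_le_mul hsT hv (abs_nonneg _) (hs.trans hsT)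
    have g3 : ((n : ℝ) - 1) * (16 * r) ≤ T * 2 := by linarith
    have g4 : (n : ℝ) - 1 ≤ T / r := by
      rw [le_div_iff₀ hr]
      have g5 : 0 ≤ ((n : ℝ) - 1) * r :=
        mul_nonneg (sub_nonneg.2 (by exact_mod_cast h1)) hr.le
      nlinarith
    have g6 : ((n : ℝ)) ≤ ((⌈T / r⌉₊ + 1 : ℕ) : ℝ) := by
      have := Nat.le_ceil (T / r)
      push_cast
      linarith
    have g7 : n ≤ ⌈T / r⌉₊ + 1 := by exact_mod_cast g6
    omega

/-- Proof: as the first case of `Tr1_last`. -/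
theorem Tr1_filter {A : Finset ℝ} {r s y₀ v₀ : ℝ} {n : ℕ} {γ : ℝ × ℝ} (hr : 0 < r)
    (h : Tr1 A r s y₀ v₀ n γ) : γ.1 = 1 → γ.2 ≠ 0 → 16 * r ≤ |γ.2| :=
  a08_filter hr h

end BlA

end

end Pool.Agent.MP4eed4eR
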