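import Pool.Agent.Lib.MP_4eed4e_an_R.A08
import Pool.Agent.Lib.MP_4eed4e_an_R.ADefs2

/-!
MP_4eed4e_an, project R, module A09: the step map in the plane.
-/

namespace Pool.Agent.MP4eed4eR

open MeasureTheory Set Filter Topology Metric

noncomputable section

namespace BlA

variable {D : Set P}

/-- Points of `closure D` in the square of a local model are on the closed sides of its walls.
Proof: `cIn_limit`: points of `D` close to `y` are in the ball, hence on the open sides. -/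
theorem closure_cIn {x y : P} {ρ : ℝ} {B₁ B₂ : ℝ × ℝ} (hy : y ∈ closure D) (hyx : y ∈ ball x ρ)
    (hm : ∀ q ∈ ball x ρ, (q ∈ D ↔ wIn B₁ q.1 ∧ wIn B₂ q.2)) : cIn B₁ y.1 ∧ cIn B₂ y.2 := by
  have h1 : ∀ ε > 0, ∃ q ∈ D, q ∈ ball x ρ ∧ dist y q < ε := by
    intro ε hε
    have h2 : 0 < min ε (ρ - dist y x) := lt_min hε (sub_pos.2 (mem_ball.1 hyx))
    obtain ⟨q, hq, hq2⟩ := Metric.mem_closure_iff.1 hy _ h2
    refine ⟨q, hq, ?_, hq2.trans_le (min_le_left _ _)⟩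
    rw [mem_ball]
    have h3 := hq2.trans_le (min_le_right _ _)
    have h4 := dist_triangle q y x
    rw [dist_comm q y] at h4
    linarith
  have hd1 : ∀ q : P, |q.1 - y.1| ≤ dist y q := by
    intro q
    rw [dist_comm, Prod.dist_eq, ← Real.dist_eq]
    exact le_max_left _ _
  have hd2 : ∀ q : P, |q.2 - y.2| ≤ dist y q := by
    intro q
    rw [dist_comm, Prod.dist_eq, ← Real.dist_eq]
    exact le_max_right _ _
  constructor
  · refine cIn_limit fun ε hε => ?_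
    obtain ⟨q, hq, hqb, hqd⟩ := h1 ε hε
    exact ⟨q.1, (hd1 q).trans_lt hqd, ((hm q hqb).1 hq).1⟩
  · refine cIn_limit fun ε hε => ?_
    obtain ⟨q, hq, hqb, hqd⟩ := h1 ε hε
    exact ⟨q.2, (hd2 q).trans_lt hqd, ((hm q hqb).1 hq).2⟩

/-- Two local models agree in a common square about a point of `closure D`. Proof: there is
`q₀ ∈ D ∩ ball y r`, so `wIn B₂ q₀.2` and `wIn C₂ q₀.2`. For `|t - y.1| < r` the point
`(t, q₀.2)` is in `ball y r`, hence in both squares, and it is in `D` iff `wIn B₁ t`, iff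
`wIn C₁ t`. The same for the second coordinate. -/
theorem model_agree {x y z : P} {ρ ρ' r : ℝ} {B₁ B₂ C₁ C₂ : ℝ × ℝ} (hy : y ∈ closure D)
    (hr : 0 < r) (h1 : ball y r ⊆ ball x ρ) (h2 : ball y r ⊆ ball z ρ')
    (hB : ∀ q ∈ ball x ρ, (q ∈ D ↔ wIn B₁ q.1 ∧ wIn B₂ q.2))
    (hC : ∀ q ∈ ball z ρ', (q ∈ D ↔ wIn C₁ q.1 ∧ wIn C₂ q.2)) :
    (∀ t, |t - y.1| < r → (wIn B₁ t ↔ wIn C₁ t)) ∧
      ∀ t, |t - y.2| < r → (wIn B₂ t ↔ wIn C₂ t) := by
  obtain ⟨q, hq, hqd⟩ := Metric.mem_closure_iff.1 hy r hr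
  have hqb : q ∈ ball y r := by
    rw [mem_ball, dist_comm]
    exact hqd
  have hq1 : |q.1 - y.1| < r := by
    have h3 := mem_ball.1 hqb
    rw [Prod.dist_eq, max_lt_iff, Real.dist_eq, Real.dist_eq] at h3
    exact h3.1
  have hq2 : |q.2 - y.2| < r := by
    have h3 := mem_ball.1 hqb
    rw [Prod.dist_eq, max_lt_iff, Real.dist_eq, Real.dist_eq] at h3
    exact h3.2
  have hB0 := (hB q (h1 hqb)).1 hq
  have hC0 := (hC q (h2 hqb)).1 hq
  constructor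
  · intro t ht
    have hb : ((t, q.2) : P) ∈ ball y r := by
      rw [mem_ball, Prod.dist_eq, max_lt_iff, Real.dist_eq, Real.dist_eq]
      exact ⟨ht, hq2⟩
    have e1 := hB _ (h1 hb)
    have e2 := hC _ (h2 hb)
    constructor
    · intro h
      exact (e2.1 (e1.2 ⟨h, hB0.2⟩)).1
    · intro h
      exact (e1.1 (e2.2 ⟨h, hC0.2⟩)).1
  · intro t ht
    have hb : ((q.1, t) : P) ∈ ball y r := by
      rw [mem_ball, Prod.dist_eq, max_lt_iff, Real.dist_eq, Real.dist_eq]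
      exact ⟨hq1, ht⟩
    have e1 := hB _ (h1 hb)
    have e2 := hC _ (h2 hb)
    constructor
    · intro h
      exact (e2.1 (e1.2 ⟨hB0.1, h⟩)).2
    · intro h
      exact (e1.1 (e2.2 ⟨hC0.1, h⟩)).2

/-- A4: the step map preserves the closure of `D` and moves points by at most `|t| |ξ|`.
Proof: `W.model x hx hF`; `closure_cIn` gives `cIn` for `x` and both walls; `wfold_dist` gives
the bound for the distance (`dist` on the product is the maximum), and `cIn_wfold`. The new point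
`x'` has `dist x' x < ρ / 2`; for small `ε > 0` the point `(x'.1 + w₁.2 * ε, x'.2 + w₂.2 * ε)` is in
`ball x ρ` and on the open sides of both walls (`w.2 * (x' - w.1) ≥ 0` and `w.2 ^ 2 * ε > 0` for
`w.2 ≠ 0`), so it is in `D`; let `ε → 0`. -/
theorem stp_mem (G : Geo D) {ρ : ℝ} (W : Walls G ρ) {x ξ : P} (hx : x ∈ closure D)
    (hF : G.Far ρ x) {t : ℝ} (ht : 2 * (|t| * max |ξ.1| |ξ.2|) < ρ) :
    (stp W t (x, ξ)).1 ∈ closure D ∧ dist (stp W t (x, ξ)).1 x ≤ |t| * max |ξ.1| |ξ.2| := by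
  have hn : 0 ≤ |t| * max |ξ.1| |ξ.2| :=
    mul_nonneg (abs_nonneg _) ((abs_nonneg _).trans (le_max_left _ _))
  have hρ : 0 < ρ := lt_of_le_of_lt (by positivity) ht
  have hm := W.model x hx hF
  obtain ⟨c1, c2⟩ := closure_cIn hx (mem_ball_self hρ) hm
  have s1 := W.sgn1 x
  have s2 := W.sgn2 x
  have d1 : |wfold (W.w1 x) (x.1 + t * ξ.1) - x.1| ≤ |t| * max |ξ.1| |ξ.2| := by
    refine (wfold_dist s1 c1 _).trans ?_
    rw [add_sub_cancel_left, abs_mul]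
    exact mul_le_mul_of_nonneg_left (le_max_left _ _) (abs_nonneg _)
  have d2 : |wfold (W.w2 x) (x.2 + t * ξ.2) - x.2| ≤ |t| * max |ξ.1| |ξ.2| := by
    refine (wfold_dist s2 c2 _).trans ?_
    rw [add_sub_cancel_left, abs_mul]
    exact mul_le_mul_of_nonneg_left (le_max_right _ _) (abs_nonneg _)
  refine ⟨?_, ?_⟩
  · rw [Metric.mem_closure_iff]
    intro ε hε
    set η : ℝ := min (ε / 2) (ρ / 4) with hη
    have hη0 : 0 < η := lt_min (by positivity) (by positivity)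
    have hη1 : η ≤ ε / 2 := min_le_left _ _
    have hη2 : η ≤ ρ / 4 := min_le_right _ _
    have hin : ∀ (w : ℝ × ℝ) (y : ℝ), cIn w y → wIn w (y + w.2 * η) := by
      intro w y hc
      by_cases hw : w.2 = 0
      · exact Or.inl hw
      · refine Or.inr ?_
        have h1 : 0 ≤ w.2 * (y - w.1) := by
          rcases hc with h | h
          · exact absurd h hw
          · exact h
        have h2 : 0 < w.2 * w.2 * η := mul_pos (mul_self_pos.2 hw) hη0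
        have h3 : w.2 * (y + w.2 * η - w.1) = w.2 * (y - w.1) + w.2 * w.2 * η := by ring
        rw [h3]
        linarith
    have hsg : ∀ s : ℝ, IsSgn s → |s * η| ≤ η := by
      intro s hs
      rcases hs with h | h | h
      · rw [h, zero_mul, abs_zero]
        exact hη0.le
      · rw [h, one_mul, abs_of_pos hη0]
      · rw [h, neg_one_mul, abs_neg, abs_of_pos hη0]
    have e1 := hsg _ s1
    have e2 := hsg _ s2
    refine ⟨(wfold (W.w1 x) (x.1 + t * ξ.1) + (W.w1 x).2 * η,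
      wfold (W.w2 x) (x.2 + t * ξ.2) + (W.w2 x).2 * η), ?_, ?_⟩
    · refine (hm _ ?_).2 ⟨hin _ _ (cIn_wfold s1 _), hin _ _ (cIn_wfold s2 _)⟩
      rw [mem_ball, Prod.dist_eq, max_lt_iff, Real.dist_eq, Real.dist_eq]
      constructor
      · calc |wfold (W.w1 x) (x.1 + t * ξ.1) + (W.w1 x).2 * η - x.1|
            = |(wfold (W.w1 x) (x.1 + t * ξ.1) - x.1) + (W.w1 x).2 * η| := by ring_nf
          _ ≤ |wfold (W.w1 x) (x.1 + t * ξ.1) - x.1| + |(W.w1 x).2 * η| := abs_add_le _ _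
          _ < ρ := by linarith
      · calc |wfold (W.w2 x) (x.2 + t * ξ.2) + (W.w2 x).2 * η - x.2|
            = |(wfold (W.w2 x) (x.2 + t * ξ.2) - x.2) + (W.w2 x).2 * η| := by ring_nf
          _ ≤ |wfold (W.w2 x) (x.2 + t * ξ.2) - x.2| + |(W.w2 x).2 * η| := abs_add_le _ _
          _ < ρ := by linarith
    · show dist (wfold (W.w1 x) (x.1 + t * ξ.1), wfold (W.w2 x) (x.2 + t * ξ.2)) _ < ε
      rw [Prod.dist_eq, max_lt_iff, Real.dist_eq, Real.dist_eq]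
      simp only [sub_add_cancel_left, abs_neg]
      exact ⟨by linarith, by linarith⟩
  · show dist (wfold (W.w1 x) (x.1 + t * ξ.1), wfold (W.w2 x) (x.2 + t * ξ.2)) x ≤ _
    rw [Prod.dist_eq, max_le_iff, Real.dist_eq, Real.dist_eq]
    exact ⟨d1, d2⟩

/-- Proof: `wsgn` is `1` or `-1`. -/
theorem stp_sq {G : Geo D} {ρ : ℝ} (W : Walls G ρ) (t : ℝ) (z : P × P) :
    |(stp W t z).2.1| = |z.2.1| ∧ |(stp W t z).2.2| = |z.2.2| := by
  have h : ∀ (w : ℝ × ℝ) (y u : ℝ), |wsgn w y * u| = |u| := by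
    intro w y u
    unfold wsgn
    split_ifs
    · rw [neg_one_mul, abs_neg]
    · rw [one_mul]
  exact ⟨h _ _ _, h _ _ _⟩

/-- Proof: `W.meas1`, `W.meas2`, `measurable_wfold`, `measurable_wsgn`. -/
theorem measurable_stp {G : Geo D} {ρ : ℝ} (W : Walls G ρ) (t : ℝ) : Measurable (stp W t) := by
  have m1 : Measurable fun z : P × P => (W.w1 z.1, z.1.1 + t * z.2.1) :=
    (W.meas1.comp measurable_fst).prodMk
      ((measurable_fst.comp measurable_fst).add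
        ((measurable_fst.comp measurable_snd).const_mul t))
  have m2 : Measurable fun z : P × P => (W.w2 z.1, z.1.2 + t * z.2.2) :=
    (W.meas2.comp measurable_fst).prodMk
      ((measurable_snd.comp measurable_fst).add
        ((measurable_snd.comp measurable_snd).const_mul t))
  refine Measurable.prodMk ?_ ?_
  · exact (measurable_wfold.comp m1).prodMk (measurable_wfold.comp m2)
  · exact ((measurable_wsgn.comp m1).mul (measurable_fst.comp measurable_snd)).prodMk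
      ((measurable_wsgn.comp m2).mul (measurable_snd.comp measurable_snd))

/-- Proof: `W.near1`, `W.near2`. -/
theorem no_wall {G : Geo D} {ρ : ℝ} (W : Walls G ρ) {y : P} (h1 : ∀ a ∈ G.A, ρ ≤ |a - y.1|)
    (h2 : ∀ b ∈ G.B, ρ ≤ |b - y.2|) : (W.w1 y).2 = 0 ∧ (W.w2 y).2 = 0 := by
  constructor
  · by_contra h
    obtain ⟨h3, h4⟩ := W.near1 y h
    exact absurd h4 (not_lt.2 (h1 _ h3))
  · by_contra h
    obtain ⟨h3, h4⟩ := W.near2 y h
    exact absurd h4 (not_lt.2 (h2 _ h3))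

/-- Proof: `wfold` is the identity and `wsgn = 1` for `w.2 = 0`. -/
theorem free_step {G : Geo D} {ρ : ℝ} (W : Walls G ρ) {y : P} (h1 : (W.w1 y).2 = 0)
    (h2 : (W.w2 y).2 = 0) (t : ℝ) (η : P) : stp W t (y, η) = (y + t • η, η) := by
  unfold stp wfold wsgn
  simp only [h1, h2, if_true, zero_mul, lt_irrefl, if_false, one_mul]
  rfl

theorem Tr2_zero (G : Geo D) (x ξ : P) : Tr2 G 0 x ξ idA := by
  exact ⟨0, 0, Tr1_zero _ _ _ _, Tr1_zero _ _ _ _⟩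

/-- One step of the tracked billiard. Proof: `W.model` at `y = app γ (x + s • ξ)`, `closure_cIn` and
`Tr1_step` in both coordinates (`W.sgn1`, `W.near1`, `G.gapA`, ...). The components of
`stp W t (y, lin γ ξ)` are the left hand sides of the equations of `Tr1_step`. -/
theorem Tr2_step (G : Geo D) {ρ : ℝ} (W : Walls G ρ) (hρ : 0 < ρ) {x ξ : P} {s t : ℝ}
    (hs : 0 ≤ s) (ht : 0 ≤ t) {γ : P × P} (h : Tr2 G s x ξ γ)
    (hc : app γ (x + s • ξ) ∈ closure D) (hF : G.Far ρ (app γ (x + s • ξ))) :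
    ∃ γ' : P × P, Tr2 G (s + t) x ξ γ' ∧
      stp W t (app γ (x + s • ξ), lin γ ξ) = (app γ' (x + (s + t) • ξ), lin γ' ξ) ∧
      ((cIn (W.w1 (app γ (x + s • ξ))) (app γ (x + (s + t) • ξ)).1 ∧
          γ'.1.1 = γ.1.1 ∧ γ'.2.1 = γ.2.1) ∨
        (¬ cIn (W.w1 (app γ (x + s • ξ))) (app γ (x + (s + t) • ξ)).1 ∧
          γ'.1.1 = -γ.1.1 ∧ γ'.2.1 = 2 * (W.w1 (app γ (x + s • ξ))).1 - γ.2.1)) ∧
      ((cIn (W.w2 (app γ (x + s • ξ))) (app γ (x + (s + t) • ξ)).2 ∧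
          γ'.1.2 = γ.1.2 ∧ γ'.2.2 = γ.2.2) ∨
        (¬ cIn (W.w2 (app γ (x + s • ξ))) (app γ (x + (s + t) • ξ)).2 ∧
          γ'.1.2 = -γ.1.2 ∧ γ'.2.2 = 2 * (W.w2 (app γ (x + s • ξ))).1 - γ.2.2)) := by
  obtain ⟨n₁, n₂, t1, t2⟩ := h
  set y := app γ (x + s • ξ) with hy
  obtain ⟨c1, c2⟩ := closure_cIn hc (mem_ball_self hρ) (W.model y hc hF)
  obtain ⟨m₁, g₁, a1, a2, a3, a4⟩ := Tr1_step (w := W.w1 y) G.pos G.gapA hs ht t1 (W.sgn1 y)
    (fun h => (W.near1 y h).1) c1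
  obtain ⟨m₂, g₂, b1, b2, b3, b4⟩ := Tr1_step (w := W.w2 y) G.pos G.gapB hs ht t2 (W.sgn2 y)
    (fun h => (W.near2 y h).1) c2
  have e1 : (app γ (x + (s + t) • ξ)).1 =
      γ.1.1 * (x.1 + s * ξ.1) + γ.2.1 + t * (γ.1.1 * ξ.1) := by
    show γ.1.1 * (x.1 + (s + t) * ξ.1) + γ.2.1 = _
    ring
  have e2 : (app γ (x + (s + t) • ξ)).2 =
      γ.1.2 * (x.2 + s * ξ.2) + γ.2.2 + t * (γ.1.2 * ξ.2) := by
    show γ.1.2 * (x.2 + (s + t) * ξ.2) + γ.2.2 = _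
    ring
  refine ⟨((g₁.1, g₂.1), (g₁.2, g₂.2)), ⟨m₁, m₂, a1, b1⟩, ?_, ?_, ?_⟩
  · exact Prod.ext (Prod.ext a2 b2) (Prod.ext a3 b3)
  · rw [e1]
    rcases a4 with ⟨h1, h2⟩ | ⟨h1, h2⟩
    · exact Or.inl ⟨h1, by rw [h2], by rw [h2]⟩
    · exact Or.inr ⟨h1, by rw [h2], by rw [h2]⟩
  · rw [e2]
    rcases b4 with ⟨h1, h2⟩ | ⟨h1, h2⟩
    · exact Or.inl ⟨h1, by rw [h2], by rw [h2]⟩
    · exact Or.inr ⟨h1, by rw [h2], by rw [h2]⟩

/-- The last step with a small time of any sign. Proof: `Tr1_last` in both coordinates and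
`Tr1_bound`, `Rf_mono`; unfold `Geo.Gam` (`Finset.mem_filter`, `Finset.mem_image`) and `Geo.NT`. -/
theorem Tr2_last (G : Geo D) {ρ : ℝ} (W : Walls G ρ) (hρ : 0 < ρ) {x ξ : P} {s t T : ℝ}
    (hs : 0 ≤ s) (hsT : s ≤ T) (ht : 2 * |t| < 16 * G.rho0) (h1 : |ξ.1| ≤ 2) (h2 : |ξ.2| ≤ 2)
    {γ : P × P} (h : Tr2 G s x ξ γ) (hc : app γ (x + s • ξ) ∈ closure D)
    (hF : G.Far ρ (app γ (x + s • ξ))) :
    ∃ γ' ∈ G.Gam T,
      stp W t (app γ (x + s • ξ), lin γ ξ) = (app γ' (x + (s + t) • ξ), lin γ' ξ) := by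
  obtain ⟨n₁, n₂, t1, t2⟩ := h
  set y := app γ (x + s • ξ) with hy
  obtain ⟨c1, c2⟩ := closure_cIn hc (mem_ball_self hρ) (W.model y hc hF)
  obtain ⟨g₁, a1, a2, a3, a4⟩ := Tr1_last (w := W.w1 y) G.pos G.gapA h1 ht t1 (W.sgn1 y)
    (fun h => (W.near1 y h).1) c1
  obtain ⟨g₂, b1, b2, b3, b4⟩ := Tr1_last (w := W.w2 y) G.pos G.gapB h2 ht t2 (W.sgn2 y)
    (fun h => (W.near2 y h).1) c2
  refine ⟨((g₁.1, g₂.1), (g₁.2, g₂.2)), ?_, ?_⟩
  · classical
    unfold Geo.Gam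
    rw [Finset.mem_filter]
    refine ⟨Finset.mem_image.2 ⟨(g₁, g₂), Finset.mem_product.2 ⟨?_, ?_⟩, rfl⟩, a2, b2⟩
    · exact Rf_mono _ (Tr1_bound G.pos hs hsT h1 t1) a1
    · exact Rf_mono _ (Tr1_bound G.pos hs hsT h2 t2) b1
  · exact Prod.ext (Prod.ext a3 b3) (Prod.ext a4 b4)

/-- Proof: `Tr1_bound`, `Tr1_filter`, `Rf_mono`. -/
theorem Gam_of_Tr2 (G : Geo D) {x ξ : P} {s T : ℝ} (hs : 0 ≤ s) (hsT : s ≤ T) (h1 : |ξ.1| ≤ 2)
    (h2 : |ξ.2| ≤ 2) {γ : P × P} (h : Tr2 G s x ξ γ) : γ ∈ G.Gam T := by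
  obtain ⟨n₁, n₂, t1, t2⟩ := h
  classical
  unfold Geo.Gam
  rw [Finset.mem_filter]
  refine ⟨Finset.mem_image.2 ⟨((γ.1.1, γ.2.1), (γ.1.2, γ.2.2)),
    Finset.mem_product.2 ⟨?_, ?_⟩, rfl⟩, Tr1_filter G.pos t1, Tr1_filter G.pos t2⟩
  · exact Rf_mono _ ((Nat.le_succ _).trans (Tr1_bound G.pos hs hsT h1 t1)) t1.1
  · exact Rf_mono _ ((Nat.le_succ _).trans (Tr1_bound G.pos hs hsT h2 t2)) t2.1

end BlA

end

end Pool.Agent.MP4eed4eR
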