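import Pool.Agent.Lib.MP_4eed4e_an_R.A09

/-!
MP_4eed4e_an, project R, module A10: tracking by finitely many affine maps.
-/

namespace Pool.Agent.MP4eed4eR

open MeasureTheory Set Filter Topology Metric

noncomputable section

namespace BlA

variable {D : Set P}

private theorem a10_sq {G : Geo D} {ρ : ℝ} (W : Walls G ρ) (τ : ℝ) (z : P × P) (k : ℕ) :
    |((stp W τ)^[k] z).2.1| = |z.2.1| ∧ |((stp W τ)^[k] z).2.2| = |z.2.2| := by
  induction k with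
  | zero => exact ⟨rfl, rfl⟩
  | succ k ih =>
    rw [Function.iterate_succ_apply']
    have h := stp_sq W τ ((stp W τ)^[k] z)
    exact ⟨h.1.trans ih.1, h.2.trans ih.2⟩

/-- Proof: induction on `k`, starting with `Tr2_zero`; step: `Tr2_step` with `s = k * τ`, `t = τ`
at the point `x_k` (`Far` there by hypothesis), `stp_mem` for `x_{k+1} ∈ closure D`
(`|lin γ ξ| = |ξ|` because the entries of `γ.1` are `±1`, `Rf_sign`, or by `stp_sq`);
`Function.iterate_succ_apply'`. -/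
theorem orbit_Tr2 (G : Geo D) {ρ τ : ℝ} (W : Walls G ρ) (hρ : 0 < ρ) (hτ : 0 ≤ τ)
    (hτρ : 4 * τ < ρ) {x ξ : P} (hx : x ∈ closure D) (h1 : |ξ.1| ≤ 2) (h2 : |ξ.2| ≤ 2) (k : ℕ)
    (hF : ∀ j < k, G.Far ρ ((stp W τ)^[j] (x, ξ)).1) :
    ((stp W τ)^[k] (x, ξ)).1 ∈ closure D ∧ ∃ γ : P × P, Tr2 G ((k : ℝ) * τ) x ξ γ ∧
      (stp W τ)^[k] (x, ξ) = (app γ (x + ((k : ℝ) * τ) • ξ), lin γ ξ) := by
  induction k with
  | zero =>
    refine ⟨hx, idA, ?_, ?_⟩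
    · rw [Nat.cast_zero, zero_mul]
      exact Tr2_zero G x ξ
    · rw [Nat.cast_zero, zero_mul, zero_smul, add_zero]
      show (x, ξ) = (app idA x, lin idA ξ)
      simp [app, lin, idA]
  | succ k ih =>
    obtain ⟨hc, γ, hT, he⟩ := ih fun j hj => hF j (Nat.lt_succ_of_lt hj)
    have hFk := hF k (Nat.lt_succ_self k)
    have hs : 0 ≤ (k : ℝ) * τ := mul_nonneg (Nat.cast_nonneg k) hτ
    have e1 : ((k + 1 : ℕ) : ℝ) * τ = (k : ℝ) * τ + τ := by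
      push_cast
      ring
    constructor
    · rw [Function.iterate_succ_apply']
      have hq := a10_sq W τ (x, ξ) k
      have h3 : |τ| * max |((stp W τ)^[k] (x, ξ)).2.1| |((stp W τ)^[k] (x, ξ)).2.2| ≤ τ * 2 := by
        rw [hq.1, hq.2, abs_of_nonneg hτ]
        exact mul_le_mul_of_nonneg_left (max_le h1 h2) hτ
      exact (stp_mem G W (x := ((stp W τ)^[k] (x, ξ)).1) (ξ := ((stp W τ)^[k] (x, ξ)).2) hc hFk
        (t := τ) (by linarith)).1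
    · rw [he] at hc hFk
      obtain ⟨γ', hT', he', -, -⟩ := Tr2_step G W hρ hs hτ hT hc hFk
      refine ⟨γ', ?_, ?_⟩
      · rw [e1]
        exact hT'
      · rw [Function.iterate_succ_apply', he, he', e1]

/-- A5: tracking by finitely many affine maps. Proof: for small `δ > 0` we have `0 < th δ`,
`4 * tau δ < th δ / 4`, `2 * tau δ < 16 * G.rho0` (`th δ → 0`). `orbit_Tr2` with `ρ = th δ / 4`
(`Far (th δ / 2)` implies `Far (th δ / 4)`); the first claim by `Gam_of_Tr2` with `s = k * τ ≤ T`,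
the second by `Tr2_last`. -/
theorem tracking (G : Geo D) (T : ℝ) :
    ∀ᶠ δ in 𝓝[>] (0 : ℝ), ∀ W : Walls G (th δ / 4), ∀ x ∈ closure D, ∀ ξ : P,
      |ξ.1| ≤ 2 → |ξ.2| ≤ 2 → ∀ k : ℕ, (k : ℝ) * tau δ ≤ T →
      (∀ j < k, G.Far (th δ / 2) ((stp W (tau δ))^[j] (x, ξ)).1) →
      (∃ γ ∈ G.Gam T, (stp W (tau δ))^[k] (x, ξ) =
        (app γ (x + ((k : ℝ) * tau δ) • ξ), lin γ ξ)) ∧
      (G.Far (th δ / 2) ((stp W (tau δ))^[k] (x, ξ)).1 → ∀ t, |t| ≤ tau δ →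
        (k : ℝ) * tau δ + t ≤ T → ∃ γ ∈ G.Gam T, stp W t ((stp W (tau δ))^[k] (x, ξ)) =
        (app γ (x + ((k : ℝ) * tau δ + t) • ξ), lin γ ξ)) := by
  have hev : ∀ᶠ δ in 𝓝[>] (0 : ℝ), 0 < δ ∧ δ ≤ 1 ∧ δ ≤ G.rho0 := by
    filter_upwards [self_mem_nhdsWithin, mem_nhdsWithin_of_mem_nhds (Iic_mem_nhds one_pos),
      mem_nhdsWithin_of_mem_nhds (Iic_mem_nhds G.pos)] with δ h1 h2 h3
    exact ⟨h1, h2, h3⟩
  filter_upwards [hev] with δ ⟨hδ, hδ1, hδ2⟩ W x hx ξ h1 h2 k hk hF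
  have hth : 0 < th δ := pow_pos hδ _
  have hthδ : th δ ≤ δ := by
    unfold th
    calc δ ^ 38 ≤ δ ^ 1 := pow_le_pow_of_le_one hδ.le hδ1 (by norm_num)
      _ = δ := pow_one δ
  have htau : tau δ = th δ / 1024 := rfl
  have hτ : 0 ≤ tau δ := by
    rw [htau]
    positivity
  have hfar : ∀ y : P, G.Far (th δ / 2) y → G.Far (th δ / 4) y := fun y h v hv => by
    have := h v hv
    linarith
  have hs : 0 ≤ (k : ℝ) * tau δ := mul_nonneg (Nat.cast_nonneg k) hτ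
  obtain ⟨hc, γ, hT, he⟩ := orbit_Tr2 G W (by positivity) hτ (by rw [htau]; linarith) hx h1 h2 k
    fun j hj => hfar _ (hF j hj)
  refine ⟨⟨γ, Gam_of_Tr2 G hs hk h1 h2 hT, he⟩, fun hFk t ht _ => ?_⟩
  rw [he] at hc hFk ⊢
  refine Tr2_last G W (by positivity) hs hk ?_ h1 h2 hT hc (hfar _ hFk)
  rw [htau] at ht
  linarith [G.pos]

end BlA

end

end Pool.Agent.MP4eed4eR
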