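import Pool.Agent.Lib.MP_4eed4e_an_R.A09

/-!
MP_4eed4e_an, project R, module A11: stability of orbits that stay away from the reflex vertices.
-/

namespace Pool.Agent.MP4eed4eR

open MeasureTheory Set Filter Topology Metric

noncomputable section

namespace BlA

variable {D : Set P}

/-- What is known about the orbit of `(x, ξ)` compared with the reference orbit, which has the
affine map `γ` at the time `k * τ` and the local model `B₁`, `B₂` at its position. -/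
def Pert {G : Geo D} {ρ : ℝ} (W : Walls G ρ) (τ : ℝ) (x ξ : P) (k : ℕ) (γ : P × P)
    (B₁ B₂ : ℝ × ℝ) : Prop :=
  ((stp W τ)^[k] (x, ξ)).1 ∈ closure D ∧
    Near1 B₁ (app γ (x + ((k : ℝ) * τ) • ξ)).1 (lin γ ξ).1
      ((stp W τ)^[k] (x, ξ)).1.1 ((stp W τ)^[k] (x, ξ)).2.1 ∧
    Near1 B₂ (app γ (x + ((k : ℝ) * τ) • ξ)).2 (lin γ ξ).2
      ((stp W τ)^[k] (x, ξ)).1.2 ((stp W τ)^[k] (x, ξ)).2.2

/-- One coordinate of the induction step. The reference particle is at `c` with velocity `g₀`, the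
free perturbed particle at `p` with velocity `u`, the perturbed particle at `y` with velocity `v`;
`B` is the wall of the large model at `c`, `w₀` the wall used for the reference particle, `w` the
wall used for the perturbed particle; `q = c + τ * g₀` the free new reference position.

Proof. `Near1_step` gives `Near1 B (p + τ * u) u y' v'`. If `cIn w₀ q` this is the first claim. If
not, then `w₀.2 ≠ 0` and `w₀.1` lies between `c` and `q` (`cIn w₀ c`), so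
`|w₀.1 - c| ≤ |τ * g₀| < ρ` and `wall_unique` gives `B = w₀`; then `Near1_swap`. -/
theorem coord_step {B w₀ w : ℝ × ℝ} {c g₀ p u y v τ ρ : ℝ} (hB : IsSgn B.2) (hw₀ : IsSgn w₀.2)
    (hw : IsSgn w.2) (h : Near1 B p u y v) (hwy : cIn w y) (hw₀c : cIn w₀ c)
    (hag : ∀ z, |z - y| < ρ → (wIn w z ↔ wIn B z))
    (hag₀ : ∀ z, |z - c| < ρ → (wIn w₀ z ↔ wIn B z)) (hτu : |τ * u| < ρ) (hτg : |τ * g₀| < ρ) :
    (cIn w₀ (c + τ * g₀) →
      Near1 B (p + τ * u) u (wfold w (y + τ * v)) (wsgn w (y + τ * v) * v)) ∧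
    (¬ cIn w₀ (c + τ * g₀) →
      Near1 B (2 * w₀.1 - (p + τ * u)) (-u) (wfold w (y + τ * v)) (wsgn w (y + τ * v) * v)) := by
  have key := Near1_step hB hw h hwy hag hτu
  refine ⟨fun _ => key, fun hn => ?_⟩
  unfold cIn at hn hw₀c
  push Not at hn
  obtain ⟨hne, hlt⟩ := hn
  have h0 := hw₀c.resolve_left hne
  have hin : |w₀.1 - c| < ρ := by
    refine lt_of_le_of_lt ?_ hτg
    rcases hw₀ with h1 | h1 | h1
    · exact absurd h1 hne
    · rw [h1] at hlt h0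
      rw [abs_of_nonpos (by linarith), abs_of_nonpos (by linarith)]
      linarith
    · rw [h1] at hlt h0
      rw [abs_of_nonneg (by linarith), abs_of_nonneg (by linarith)]
      linarith
  have hBw : B = w₀ := wall_unique hw₀ hB hag₀ hne hin
  have h2 := Near1_swap key (by rw [hBw]; exact hne)
  rwa [hBw] at h2 ⊢

/-- One coordinate of the complete step, with the change of the large model. -/
private theorem a11_coord {B C w₀ w : ℝ × ℝ} {g c x₀ v₀ v s τ ρ R g' c' y η : ℝ}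
    (hB : IsSgn B.2) (hC : IsSgn C.2) (hw₀ : IsSgn w₀.2) (hw : IsSgn w.2)
    (h : Near1 B (g * (x₀ + s * v) + c) (g * v) y η)
    (hwy : cIn w y) (hw₀c : cIn w₀ (g * (x₀ + s * v₀) + c))
    (hag : ∀ z, |z - y| < ρ → (wIn w z ↔ wIn B z))
    (hag₀ : ∀ z, |z - (g * (x₀ + s * v₀) + c)| < ρ → (wIn w₀ z ↔ wIn B z))
    (hτu : |τ * (g * v)| < ρ) (hτg : |τ * (g * v₀)| < ρ)
    (hD : (cIn w₀ (g * (x₀ + (s + τ) * v₀) + c) ∧ g' = g ∧ c' = c) ∨
      (¬ cIn w₀ (g * (x₀ + (s + τ) * v₀) + c) ∧ g' = -g ∧ c' = 2 * w₀.1 - c))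
    (hag' : ∀ z, |z - (g' * (x₀ + (s + τ) * v₀) + c')| < R → (wIn B z ↔ wIn C z))
    (hBc : cIn B (g' * (x₀ + (s + τ) * v₀) + c')) (hCc : cIn C (g' * (x₀ + (s + τ) * v₀) + c'))
    (hp : |(g' * (x₀ + (s + τ) * v) + c') - (g' * (x₀ + (s + τ) * v₀) + c')| < R) :
    Near1 C (g' * (x₀ + (s + τ) * v) + c') (g' * v) (wfold w (y + τ * η))
      (wsgn w (y + τ * η) * η) := by
  obtain ⟨k1, k2⟩ := coord_step hB hw₀ hw h hwy hw₀c hag hag₀ hτu hτg
  have e1 : g * (x₀ + s * v₀) + c + τ * (g * v₀) = g * (x₀ + (s + τ) * v₀) + c := by ring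
  refine Near1_transfer hB hC ?_ hag' hBc hCc hp
  rw [e1] at k1 k2
  rcases hD with ⟨h1, rfl, rfl⟩ | ⟨h1, rfl, rfl⟩
  · have h2 := k1 h1
    have e2 : g' * (x₀ + s * v) + c' + τ * (g' * v) = g' * (x₀ + (s + τ) * v) + c' := by ring
    rwa [e2] at h2
  · have h2 := k2 h1
    have e2 : 2 * w₀.1 - (g * (x₀ + s * v) + c + τ * (g * v)) =
      -g * (x₀ + (s + τ) * v) + (2 * w₀.1 - c) := by ring
    have e3 : -(g * v) = -g * v := by ring
    rwa [e2, e3] at h2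

private theorem a11_sign {G : Geo D} {s : ℝ} {x ξ : P} {γ : P × P} (h : Tr2 G s x ξ γ) :
    (γ.1.1 = 1 ∨ γ.1.1 = -1) ∧ (γ.1.2 = 1 ∨ γ.1.2 = -1) := by
  obtain ⟨n₁, n₂, h1, h2⟩ := h
  have h3 := Rf_sign h1.1
  have h4 := Rf_sign h2.1
  exact ⟨h3, h4⟩

private theorem a11_abs {g v : ℝ} (h : g = 1 ∨ g = -1) : |g * v| = |v| := by
  rcases h with h | h
  · rw [h, one_mul]
  · rw [h, neg_one_mul, abs_neg]

private theorem a11_diff {g c x₀ v v₀ s S ε : ℝ} (h : g = 1 ∨ g = -1) (hs : 0 ≤ s) (hsS : s ≤ S)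
    (hv : S * |v - v₀| ≤ ε) : |(g * (x₀ + s * v) + c) - (g * (x₀ + s * v₀) + c)| ≤ ε := by
  have e1 : (g * (x₀ + s * v) + c) - (g * (x₀ + s * v₀) + c) = g * (s * (v - v₀)) := by ring
  rw [e1, a11_abs h, abs_mul, abs_of_nonneg hs]
  exact (mul_le_mul_of_nonneg_right hsS (abs_nonneg _)).trans hv

private theorem a11_tau {g v τ ρ : ℝ} (h : g = 1 ∨ g = -1) (hτ : 0 ≤ τ) (hv : |v| ≤ 2)
    (hτρ : 4 * τ < ρ) : |τ * (g * v)| < ρ := by
  rw [abs_mul, a11_abs h, abs_of_nonneg hτ]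
  have h1 := mul_le_mul_of_nonneg_left hv hτ
  linarith

private theorem a11_dist {p q : P} {r : ℝ} (h1 : |p.1 - q.1| ≤ r) (h2 : |p.2 - q.2| ≤ r) :
    dist p q ≤ r := by
  rw [Prod.dist_eq, Real.dist_eq, Real.dist_eq]
  exact max_le h1 h2

/-- A6, stability. The reference orbit is the orbit of `(x, ξ₀)`; its affine maps and local models
do not depend on `ξ`.

Proof. Induction on `k`. Let `x_k` be the reference position. `k = 0`: `γ = idA` (`Tr2_zero`), the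
walls from `G.model` at `x` at scale `R`, `Near1` by its first alternative (`closure_cIn`).
Step from `k` to `k + 1 ≤ N`. Let `γ, B₁, B₂` be given.
(1) `Tr2_step` at `x_k` (`Far ρ` there because `ρ ≤ R`) gives `γ'` and the dichotomies in both
coordinates; `stp_mem` gives `x_{k+1} ∈ closure D`, `dist x_{k+1} x_k ≤ 2 * τ`.
(2) `G.model` at `x_{k+1}` at scale `R` gives `C₁, C₂`.
(3) Let `ξ` be close to `ξ₀`, `(y, η)` the perturbed orbit at the time `k`. The free perturbed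
position `p` satisfies `|p.1 - x_k.1| = k * τ * |ξ.1 - ξ₀.1| ≤ ε` (the entries of `γ.1` are `±1`),
and the same for the second coordinate; `Near1_dist` gives `dist y x_k ≤ ε`, so `y ∈ ball x_k R`,
`G.Far ρ y` (as `ρ + ε ≤ R`), `|η.1| = |ξ.1| ≤ 2`. `stp_mem` gives `y_{k+1} ∈ closure D`.
`model_agree` at `y` (radius `ρ`, `ball y ρ ⊆ ball x_k R`, model `W.model y`) and at `x_k` (radius
`ρ`) give the agreement hypotheses of `coord_step`; `closure_cIn` for `cIn`.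
(4) `coord_step` in both coordinates, with the dichotomy of (1): the result is `Near1 Bᵢ` for the
free perturbed position of `γ'` at the time `(k + 1) * τ` and the velocity `lin γ' ξ`.
(5) `Near1_transfer` from `Bᵢ` to `Cᵢ` with `c = x_{k+1}`, radius `R - 2 * τ`: agreement by
`model_agree` at `x_{k+1}` (`ball x_{k+1} (R - 2 * τ) ⊆ ball x_k R`), `cIn` by `closure_cIn`
(`x_{k+1} ∈ ball x_k R`), and `|p' - c| ≤ ε < R - 2 * τ`. -/
theorem stab_orbit (G : Geo D) {ρ R τ ε : ℝ} (W : Walls G ρ) (hρ : 0 < ρ) (hτ : 0 ≤ τ)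
    (hε : 0 ≤ ε) (hτρ : 4 * τ < ρ) (hR : R ≤ 8 * G.rho0) (hρR : ρ + ε + 2 * τ < R) {x ξ₀ : P}
    (hx : x ∈ closure D) (h1 : |ξ₀.1| ≤ 2) (h2 : |ξ₀.2| ≤ 2) (N : ℕ)
    (hF : ∀ k ≤ N, G.Far R ((stp W τ)^[k] (x, ξ₀)).1) :
    ∀ k ≤ N, ∃ (γ : P × P) (B₁ B₂ : ℝ × ℝ), Tr2 G ((k : ℝ) * τ) x ξ₀ γ ∧
      (stp W τ)^[k] (x, ξ₀) = (app γ (x + ((k : ℝ) * τ) • ξ₀), lin γ ξ₀) ∧
      ((stp W τ)^[k] (x, ξ₀)).1 ∈ closure D ∧
      IsModel G R ((stp W τ)^[k] (x, ξ₀)).1 B₁ B₂ ∧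
      ∀ ξ : P, |ξ.1| ≤ 2 → |ξ.2| ≤ 2 → (N : ℝ) * τ * |ξ.1 - ξ₀.1| ≤ ε →
        (N : ℝ) * τ * |ξ.2 - ξ₀.2| ≤ ε → Pert W τ x ξ k γ B₁ B₂ := by
  have hR0 : 0 < R := by linarith
  have hsub : ∀ (a b : P) (r r' : ℝ), r + dist a b ≤ r' → ball a r ⊆ ball b r' := by
    intro a b r r' h q hq
    rw [mem_ball] at hq ⊢
    linarith [dist_triangle q a b]
  intro k
  induction k with
  | zero =>
    intro _
    have hFx : G.Far R x := hF 0 (Nat.zero_le _)
    obtain ⟨B₁, B₂, s1, s2, n1, n2, hm⟩ := G.model x hx R hR0 hR hFx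
    obtain ⟨c1, c2⟩ := closure_cIn hx (mem_ball_self hR0) hm
    have e0 : ∀ ξ : P, app idA (x + ((0 : ℕ) : ℝ) • ξ) = x := by
      intro ξ
      simp [app, idA]
    refine ⟨idA, B₁, B₂, ?_, ?_, hx, ⟨s1, s2, n1, n2, hm⟩, fun ξ _ _ _ _ => ?_⟩
    · rw [Nat.cast_zero, zero_mul]
      exact Tr2_zero G x ξ₀
    · rw [Nat.cast_zero, zero_mul, zero_smul, add_zero]
      show (x, ξ₀) = (app idA x, lin idA ξ₀)
      simp [app, lin, idA]
    · unfold Pert
      rw [Nat.cast_zero, zero_mul, zero_smul, add_zero]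
      show x ∈ closure D ∧ Near1 B₁ (app idA x).1 (lin idA ξ).1 x.1 ξ.1 ∧
        Near1 B₂ (app idA x).2 (lin idA ξ).2 x.2 ξ.2
      have e1 : app idA x = x := by simp [app, idA]
      have e2 : lin idA ξ = ξ := by simp [lin, idA]
      rw [e1, e2]
      exact ⟨hx, Or.inl ⟨rfl, rfl, c1⟩, Or.inl ⟨rfl, rfl, c2⟩⟩
  | succ k ih =>
    intro hk
    obtain ⟨γ, B₁, B₂, hT, he, hc, hM, hP⟩ := ih (Nat.le_of_succ_le hk)
    have hFk := hF k (Nat.le_of_succ_le hk)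
    have hFk1 := hF (k + 1) hk
    have hs : 0 ≤ (k : ℝ) * τ := mul_nonneg (Nat.cast_nonneg k) hτ
    have e1 : ((k + 1 : ℕ) : ℝ) * τ = (k : ℝ) * τ + τ := by
      push_cast
      ring
    have hsN : (k : ℝ) * τ + τ ≤ (N : ℝ) * τ := by
      rw [← e1]
      exact mul_le_mul_of_nonneg_right (Nat.cast_le.2 hk) hτ
    rw [he] at hc hM hFk
    set s : ℝ := (k : ℝ) * τ with hsdef
    set X : P := app γ (x + s • ξ₀) with hX
    have hFρ : G.Far ρ X := fun v hv => by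
      have := hFk v hv
      linarith
    obtain ⟨γ', hT', he', D1, D2⟩ := Tr2_step G W hρ hs hτ hT hc hFρ
    have hsg := a11_sign hT
    have hsg' := a11_sign hT'
    have hl1 : |(lin γ ξ₀).1| ≤ 2 := (a11_abs hsg.1).trans_le h1
    have hl2 : |(lin γ ξ₀).2| ≤ 2 := (a11_abs hsg.2).trans_le h2
    have hmax : |τ| * max |(lin γ ξ₀).1| |(lin γ ξ₀).2| ≤ 2 * τ := by
      rw [abs_of_nonneg hτ, mul_comm 2 τ]
      exact mul_le_mul_of_nonneg_left (max_le hl1 hl2) hτ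
    have hX' := stp_mem G W (x := X) (ξ := lin γ ξ₀) hc hFρ (t := τ) (by linarith)
    rw [he'] at hX'
    have hiter : (stp W τ)^[k + 1] (x, ξ₀) = (app γ' (x + (s + τ) • ξ₀), lin γ' ξ₀) := by
      rw [Function.iterate_succ_apply', he, ← he']
    set X' : P := app γ' (x + (s + τ) • ξ₀) with hX'def
    obtain ⟨hXc', hXd⟩ := hX'
    replace hXd : dist X' X ≤ 2 * τ := hXd.trans hmax
    replace hXc' : X' ∈ closure D := hXc'
    rw [hiter] at hFk1
    replace hFk1 : G.Far R X' := hFk1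
    obtain ⟨C₁, C₂, s1, s2, n1, n2, hm⟩ := G.model X' hXc' R hR0 hR hFk1
    obtain ⟨b1, b2, -, -, hmB⟩ := hM
    obtain ⟨cX1, cX2⟩ := closure_cIn hc (mem_ball_self hR0) hmB
    obtain ⟨cC1, cC2⟩ := closure_cIn hXc' (mem_ball_self hR0) hm
    have hX'R : X' ∈ ball X R := by
      rw [mem_ball]
      linarith
    obtain ⟨cB1, cB2⟩ := closure_cIn hXc' hX'R hmB
    have hR2 : 0 < R - 2 * τ := by linarith
    obtain ⟨ag1, ag2⟩ := model_agree (r := R - 2 * τ) hXc' hR2 (hsub X' X _ R (by linarith))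
      (hsub X' X' _ R (by rw [dist_self]; linarith)) hmB hm
    obtain ⟨w1, w2⟩ := closure_cIn hc (mem_ball_self hρ) (W.model X hc hFρ)
    obtain ⟨ag3, ag4⟩ := model_agree (r := ρ) hc hρ (subset_refl _)
      (hsub X X _ R (by rw [dist_self]; linarith)) (W.model X hc hFρ) hmB
    refine ⟨γ', C₁, C₂, ?_, ?_, ?_, ?_, fun ξ g1 g2 d1 d2 => ?_⟩
    · rw [e1]
      exact hT'
    · rw [e1]
      exact hiter
    · rw [hiter]
      exact hXc'
    · rw [hiter]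
      exact ⟨s1, s2, n1, n2, hm⟩
    · obtain ⟨hyc, N1, N2⟩ := hP ξ g1 g2 d1 d2
      have p1 : |(app γ (x + s • ξ)).1 - X.1| ≤ ε := a11_diff hsg.1 hs (by linarith) d1
      have p2 : |(app γ (x + s • ξ)).2 - X.2| ≤ ε := a11_diff hsg.2 hs (by linarith) d2
      obtain ⟨y1, v1, -⟩ := Near1_dist b1 N1 cX1
      obtain ⟨y2, v2, -⟩ := Near1_dist b2 N2 cX2
      replace v1 : |((stp W τ)^[k] (x, ξ)).2.1| ≤ 2 := (v1.trans (a11_abs hsg.1)).trans_le g1
      replace v2 : |((stp W τ)^[k] (x, ξ)).2.2| ≤ 2 := (v2.trans (a11_abs hsg.2)).trans_le g2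
      have hd : dist ((stp W τ)^[k] (x, ξ)).1 X ≤ ε := a11_dist (y1.trans p1) (y2.trans p2)
      unfold Pert
      rw [Function.iterate_succ_apply', e1]
      set z : P × P := (stp W τ)^[k] (x, ξ) with hz
      have hFz : G.Far ρ z.1 := fun v hv => by
        have h3 := hFk v hv
        have h4 := dist_triangle X z.1 v
        rw [dist_comm X z.1] at h4
        linarith
      have hmz : |τ| * max |z.2.1| |z.2.2| ≤ 2 * τ := by
        rw [abs_of_nonneg hτ, mul_comm 2 τ]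
        exact mul_le_mul_of_nonneg_left (max_le v1 v2) hτ
      obtain ⟨z1, z2⟩ := closure_cIn hyc (mem_ball_self hρ) (W.model z.1 hyc hFz)
      obtain ⟨ag5, ag6⟩ := model_agree (r := ρ) hyc hρ (subset_refl _)
        (hsub z.1 X _ R (by linarith)) (W.model z.1 hyc hFz) hmB
      refine ⟨(stp_mem G W (x := z.1) (ξ := z.2) hyc hFz (t := τ) (by linarith)).1, ?_, ?_⟩
      · exact a11_coord b1 s1 (W.sgn1 X) (W.sgn1 z.1) N1 z1 w1 ag5 ag3
          (a11_tau hsg.1 hτ g1 hτρ) (a11_tau hsg.1 hτ h1 hτρ) D1 ag1 cB1 cC1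
          ((a11_diff hsg'.1 (by linarith) hsN d1).trans_lt (by linarith))
      · exact a11_coord b2 s2 (W.sgn2 X) (W.sgn2 z.1) N2 z2 w2 ag6 ag4
          (a11_tau hsg.2 hτ g2 hτρ) (a11_tau hsg.2 hτ h2 hτρ) D2 ag2 cB2 cC2
          ((a11_diff hsg'.2 (by linarith) hsN d2).trans_lt (by linarith))

end BlA

end

end Pool.Agent.MP4eed4eR
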