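import Pool.Agent.Lib.MP_4eed4e_an_R.A08

/-!
MP_4eed4e_an, project R, module A12: areas.
-/

namespace Pool.Agent.MP4eed4eR

open MeasureTheory Set Filter Topology Metric
open scoped ENNReal

noncomputable section

namespace BlA

variable {D : Set P}

private theorem a12_bU {ι : Type*} (s : Finset ι) (f : ι → Set P) {c : ℝ}
    (h : ∀ i ∈ s, volume (f i) ≤ ENNReal.ofReal c) :
    volume (⋃ i ∈ s, f i) ≤ ENNReal.ofReal (s.card * c) := by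
  refine (measure_biUnion_finset_le s f).trans ?_
  refine (Finset.sum_le_sum h).trans ?_
  rw [Finset.sum_const, nsmul_eq_mul, ENNReal.ofReal_mul (Nat.cast_nonneg _),
    ENNReal.ofReal_natCast]

private theorem a12_un {s t : Set P} {a b : ℝ} (ha : 0 ≤ a) (hb : 0 ≤ b)
    (h1 : volume s ≤ ENNReal.ofReal a) (h2 : volume t ≤ ENNReal.ofReal b) :
    volume (s ∪ t) ≤ ENNReal.ofReal (a + b) := by
  rw [ENNReal.ofReal_add ha hb]
  exact (measure_union_le s t).trans (add_le_add h1 h2)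

private theorem a12_abs {g x u e v : ℝ} (hg : g = 1 ∨ g = -1) :
    |g * (x + u) + e - v| = |x - (g * (v - e) - u)| := by
  rcases hg with rfl | rfl
  · congr 1
    ring
  · rw [← abs_neg]
    congr 1
    ring

private theorem a12_strips {C₀ : ℝ} (hC : 0 ≤ C₀) (hs : ∀ a ρ : ℝ, 0 ≤ ρ →
    volume {x : P | x ∈ D ∧ |x.1 - a| < ρ} ≤ ENNReal.ofReal (C₀ * ρ) ∧
      volume {x : P | x ∈ D ∧ |x.2 - a| < ρ} ≤ ENNReal.ofReal (C₀ * ρ)) (A B : Finset ℝ)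
    (cA cB : ℝ → ℝ) {ρ : ℝ} (hρ : 0 ≤ ρ) {s : Set P}
    (h : ∀ x ∈ s, x ∈ D ∧ ((∃ a ∈ A, |x.1 - cA a| < ρ) ∨ ∃ b ∈ B, |x.2 - cB b| < ρ)) :
    volume s ≤ ENNReal.ofReal (A.card * (C₀ * ρ) + B.card * (C₀ * ρ)) := by
  have h1 : s ⊆ (⋃ a ∈ A, {x : P | x ∈ D ∧ |x.1 - cA a| < ρ}) ∪
      ⋃ b ∈ B, {x : P | x ∈ D ∧ |x.2 - cB b| < ρ} := by
    intro x hx
    obtain ⟨hD, h2 | h2⟩ := h x hx
    · obtain ⟨a, ha, h3⟩ := h2
      exact Or.inl (mem_biUnion ha ⟨hD, h3⟩)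
    · obtain ⟨a, ha, h3⟩ := h2
      exact Or.inr (mem_biUnion ha ⟨hD, h3⟩)
  refine (measure_mono h1).trans ?_
  refine a12_un (by positivity) (by positivity) ?_ ?_
  · exact a12_bU A _ fun a _ => (hs (cA a) ρ hρ).1
  · exact a12_bU B _ fun a _ => (hs (cB a) ρ hρ).2

/-- Strips in a bounded set. Proof: `D ⊆ ball 0 M`; the strip is contained in
`Ioo (a - ρ) (a + ρ) ×ˢ Ioo (-M) M`, whose volume is `2 * ρ * (2 * M)` (`Measure.volume_eq_prod`,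
`Measure.prod_prod`, `Real.volume_Ioo`). -/
theorem strip_area (hD : Bornology.IsBounded D) : ∃ C : ℝ, 0 ≤ C ∧ ∀ a ρ : ℝ, 0 ≤ ρ →
    volume {x : P | x ∈ D ∧ |x.1 - a| < ρ} ≤ ENNReal.ofReal (C * ρ) ∧
      volume {x : P | x ∈ D ∧ |x.2 - a| < ρ} ≤ ENNReal.ofReal (C * ρ) := by
  obtain ⟨M, hM0, hM⟩ := hD.subset_ball_lt 0 (0 : P)
  have hb : ∀ x ∈ D, |x.1| < M ∧ |x.2| < M := by
    intro x hx
    have h1 := hM hx
    rw [mem_ball_zero_iff] at h1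
    exact ⟨(norm_fst_le x).trans_lt h1, (norm_snd_le x).trans_lt h1⟩
  refine ⟨4 * M, by positivity, fun a ρ hρ => ?_⟩
  have hv : ENNReal.ofReal (4 * M * ρ) = ENNReal.ofReal (a + ρ - (a - ρ)) *
      ENNReal.ofReal (M - -M) := by
    rw [← ENNReal.ofReal_mul (by linarith)]
    congr 1
    ring
  constructor
  · have h1 : {x : P | x ∈ D ∧ |x.1 - a| < ρ} ⊆ Ioo (a - ρ) (a + ρ) ×ˢ Ioo (-M) M := by
      rintro x ⟨hx, h2⟩
      have h3 := abs_lt.1 h2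
      have h4 := abs_lt.1 (hb x hx).2
      exact ⟨⟨by linarith [h3.1], by linarith [h3.2]⟩, h4⟩
    refine (measure_mono h1).trans (le_of_eq ?_)
    rw [Measure.volume_eq_prod, Measure.prod_prod, Real.volume_Ioo, Real.volume_Ioo, hv]
  · have h1 : {x : P | x ∈ D ∧ |x.2 - a| < ρ} ⊆ Ioo (-M) M ×ˢ Ioo (a - ρ) (a + ρ) := by
      rintro x ⟨hx, h2⟩
      have h3 := abs_lt.1 h2
      have h4 := abs_lt.1 (hb x hx).1
      exact ⟨h4, ⟨by linarith [h3.1], by linarith [h3.2]⟩⟩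
    refine (measure_mono h1).trans (le_of_eq ?_)
    rw [Measure.volume_eq_prod, Measure.prod_prod, Real.volume_Ioo, Real.volume_Ioo, hv,
      mul_comm]

/-- The area of the points near a wall is small. Proof: finite union of the strips of
`strip_area`; `measure_biUnion_finset_le`. -/
theorem near_wall_area (G : Geo D) : ∃ C : ℝ, ∀ ρ : ℝ, 0 < ρ → ρ ≤ 1 →
    volume {x : P | x ∈ D ∧ ((∃ a ∈ G.A, |a - x.1| < ρ) ∨ ∃ b ∈ G.B, |b - x.2| < ρ)} ≤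
      ENNReal.ofReal (C * ρ) := by
  obtain ⟨C₀, hC₀, hs⟩ := strip_area G.isBounded
  refine ⟨(G.A.card + G.B.card) * C₀, fun ρ hρ _ => ?_⟩
  have h1 := a12_strips hC₀ hs G.A G.B id id hρ.le
    (s := {x : P | x ∈ D ∧ ((∃ a ∈ G.A, |a - x.1| < ρ) ∨ ∃ b ∈ G.B, |b - x.2| < ρ)}) (by
      rintro x ⟨hx, h2⟩
      refine ⟨hx, ?_⟩
      rcases h2 with ⟨a, ha, h3⟩ | ⟨a, ha, h3⟩
      · exact Or.inl ⟨a, ha, by rwa [abs_sub_comm] at h3⟩
      · exact Or.inr ⟨a, ha, by rwa [abs_sub_comm] at h3⟩)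
  refine h1.trans (le_of_eq ?_)
  congr 1
  ring

/-- The entries of the linear part are `±1`. Proof: unfold `Geo.Gam`, `Rf_sign`. -/
theorem Gam_sign (G : Geo D) {T : ℝ} {γ : P × P} (h : γ ∈ G.Gam T) :
    (γ.1.1 = 1 ∨ γ.1.1 = -1) ∧ (γ.1.2 = 1 ∨ γ.1.2 = -1) := by
  classical
  unfold Geo.Gam at h
  obtain ⟨h1, -⟩ := Finset.mem_filter.1 h
  obtain ⟨p, hp, rfl⟩ := Finset.mem_image.1 h1
  obtain ⟨h2, h3⟩ := Finset.mem_product.1 hp
  exact ⟨Rf_sign (γ := p.1) h2, Rf_sign (γ := p.2) h3⟩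

/-- The points whose free image is near a given point. Proof: with signs `g₁`, `g₂` the set is the
ball of radius `ρ` about `(g₁ * (v.1 - γ.2.1) - u.1, g₂ * (v.2 - γ.2.2) - u.2)`; its volume is
`(2 * ρ) ^ 2` (`ball_prod_same`, `Real.volume_ball`). -/
theorem app_ball_area {γ : P × P} (hg : (γ.1.1 = 1 ∨ γ.1.1 = -1) ∧ (γ.1.2 = 1 ∨ γ.1.2 = -1))
    (u v : P) {ρ : ℝ} (hρ : 0 ≤ ρ) : volume {x : P | dist (app γ (x + u)) v < ρ} ≤
      ENNReal.ofReal (4 * ρ ^ 2) := by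
  set c : P := (γ.1.1 * (v.1 - γ.2.1) - u.1, γ.1.2 * (v.2 - γ.2.2) - u.2) with hc
  have h1 : {x : P | dist (app γ (x + u)) v < ρ} ⊆ ball c.1 ρ ×ˢ ball c.2 ρ := by
    intro x hx
    have h2 : dist (app γ (x + u)) v < ρ := hx
    rw [Prod.dist_eq, max_lt_iff] at h2
    obtain ⟨h3, h4⟩ := h2
    rw [Real.dist_eq] at h3 h4
    have e1 : (app γ (x + u)).1 - v.1 = γ.1.1 * (x.1 + u.1) + γ.2.1 - v.1 := rfl
    have e2 : (app γ (x + u)).2 - v.2 = γ.1.2 * (x.2 + u.2) + γ.2.2 - v.2 := rfl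
    rw [e1, a12_abs hg.1] at h3
    rw [e2, a12_abs hg.2] at h4
    exact ⟨by rw [mem_ball, Real.dist_eq]; exact h3, by rw [mem_ball, Real.dist_eq]; exact h4⟩
  refine (measure_mono h1).trans (le_of_eq ?_)
  rw [Measure.volume_eq_prod, Measure.prod_prod, Real.volume_ball, Real.volume_ball,
    ← ENNReal.ofReal_mul (by positivity)]
  congr 1
  ring

/-- The exceptional set: starting points in `D` such that the free images of the direction `η`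
come within `ρ₂` of a reflex vertex at a time `k * τ ≤ T`, or within `2 * ρ₂` of a grid line at
the time `l`, or which are within `ρ₂` of a grid line. -/
def Exc (G : Geo D) (T l τ ρ₂ : ℝ) (η : P) : Set P :=
  {x : P | x ∈ D ∧
    ((∃ k : ℕ, (k : ℝ) * τ ≤ T ∧ ∃ γ ∈ G.Gam T, ∃ v ∈ G.V,
        dist (app γ (x + ((k : ℝ) * τ) • η)) v < ρ₂) ∨
      (∃ γ ∈ G.Gam T, (∃ a ∈ G.A, |a - (app γ (x + l • η)).1| < 2 * ρ₂) ∨
        ∃ b ∈ G.B, |b - (app γ (x + l • η)).2| < 2 * ρ₂) ∨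
      (∃ a ∈ G.A, |a - x.1| < ρ₂) ∨ ∃ b ∈ G.B, |b - x.2| < ρ₂)}

/-- Proof: the set is open: `app γ` is continuous, all conditions are strict inequalities between
continuous functions, and `D` is open. -/
theorem measurableSet_Exc (G : Geo D) (T l τ ρ₂ : ℝ) (η : P) :
    MeasurableSet (Exc G T l τ ρ₂ η) := by
  have ha : ∀ (γ : P × P) (u : P), Continuous fun x : P => app γ (x + u) := by
    intro γ u
    unfold app
    fun_prop
  have h1 : IsOpen {x : P | ∃ k : ℕ, (k : ℝ) * τ ≤ T ∧ ∃ γ ∈ G.Gam T, ∃ v ∈ G.V,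
      dist (app γ (x + ((k : ℝ) * τ) • η)) v < ρ₂} := by
    simp only [ofPred_exists, ofPred_and]
    refine isOpen_iUnion fun k => isOpen_const.inter (isOpen_iUnion fun γ =>
      isOpen_const.inter (isOpen_iUnion fun v => isOpen_const.inter ?_))
    exact isOpen_lt ((ha γ _).dist continuous_const) continuous_const
  have h2 : IsOpen {x : P | ∃ γ ∈ G.Gam T, (∃ a ∈ G.A, |a - (app γ (x + l • η)).1| < 2 * ρ₂) ∨
      ∃ b ∈ G.B, |b - (app γ (x + l • η)).2| < 2 * ρ₂} := by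
    simp only [ofPred_exists, ofPred_and, ofPred_or]
    refine isOpen_iUnion fun γ => isOpen_const.inter ((isOpen_iUnion fun a =>
      isOpen_const.inter ?_).union (isOpen_iUnion fun b => isOpen_const.inter ?_))
    · exact isOpen_lt (continuous_const.sub (continuous_fst.comp (ha γ _))).abs
        continuous_const
    · exact isOpen_lt (continuous_const.sub (continuous_snd.comp (ha γ _))).abs
        continuous_const
  have h3 : IsOpen {x : P | ∃ a ∈ G.A, |a - x.1| < ρ₂} := by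
    simp only [ofPred_exists, ofPred_and]
    refine isOpen_iUnion fun a => isOpen_const.inter ?_
    exact isOpen_lt (by fun_prop) continuous_const
  have h4 : IsOpen {x : P | ∃ b ∈ G.B, |b - x.2| < ρ₂} := by
    simp only [ofPred_exists, ofPred_and]
    refine isOpen_iUnion fun a => isOpen_const.inter ?_
    exact isOpen_lt (by fun_prop) continuous_const
  exact (G.isOpen.inter (h1.union (h2.union (h3.union h4)))).measurableSet

/-- Proof: union bound. The number of `k` with `k * τ ≤ T` is at most `T / τ + 1` (the set is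
contained in `{k | k < ⌊T / τ⌋₊ + 1}`), so the first part has measure at most
`(T / τ + 1) * #Gam * #V * 4 * ρ₂ ^ 2` (`app_ball_area`, `Gam_sign`) and
`(T / τ + 1) * ρ₂ ^ 2 ≤ (T + 1) * ρ₂ ^ 2 / τ` for `τ ≤ 1`; the conditions of the second part are
of the form `|x.1 - a'| < 2 * ρ₂` with `a' = g₁ * (a - γ.2.1) - l * η.1` (`strip_area`). -/
theorem Exc_area (G : Geo D) {T : ℝ} (hT : 0 ≤ T) : ∃ C : ℝ, 0 ≤ C ∧ ∀ (l τ ρ₂ : ℝ) (η : P),
    0 < τ → τ ≤ 1 → 0 < ρ₂ → volume (Exc G T l τ ρ₂ η) ≤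
      ENNReal.ofReal (C * (ρ₂ ^ 2 / τ + ρ₂)) := by
  obtain ⟨C₀, hC₀, hs⟩ := strip_area G.isBounded
  set N : ℝ := ((G.Gam T).card : ℝ) with hN
  set V : ℝ := (G.V.card : ℝ) with hV
  set nA : ℝ := (G.A.card : ℝ) with hnA
  set nB : ℝ := (G.B.card : ℝ) with hnB
  have N0 : 0 ≤ N := Nat.cast_nonneg _
  have V0 : 0 ≤ V := Nat.cast_nonneg _
  have A0 : 0 ≤ nA := Nat.cast_nonneg _
  have B0 : 0 ≤ nB := Nat.cast_nonneg _
  refine ⟨(T + 1) * (N * (V * 4)) + (N * (nA + nB) * (C₀ * 2) + (nA + nB) * C₀),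
    by positivity, fun l τ ρ₂ η hτ hτ1 hρ => ?_⟩
  set K : ℕ := ⌊T / τ⌋₊ + 1 with hK
  have hK1 : (K : ℝ) ≤ (T + 1) / τ := by
    have h1 := Nat.floor_le (div_nonneg hT hτ.le)
    have h2 : (1 : ℝ) ≤ 1 / τ := by
      rw [le_div_iff₀ hτ]
      linarith
    rw [hK, add_div]
    push_cast
    linarith
  have p1 : volume (⋃ k ∈ Finset.range K, ⋃ γ ∈ G.Gam T, ⋃ v ∈ G.V,
      {x : P | dist (app γ (x + ((k : ℝ) * τ) • η)) v < ρ₂}) ≤
      ENNReal.ofReal (((Finset.range K).card : ℝ) * (N * (V * (4 * ρ₂ ^ 2)))) :=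
    a12_bU _ _ fun k _ => a12_bU _ _ fun γ hγ => a12_bU _ _ fun v _ =>
      app_ball_area (Gam_sign G hγ) _ _ hρ.le
  rw [Finset.card_range] at p1
  have p2 : volume (⋃ γ ∈ G.Gam T, {x : P | x ∈ D ∧
      ((∃ a ∈ G.A, |a - (app γ (x + l • η)).1| < 2 * ρ₂) ∨
        ∃ b ∈ G.B, |b - (app γ (x + l • η)).2| < 2 * ρ₂)}) ≤
      ENNReal.ofReal (N * (nA * (C₀ * (2 * ρ₂)) + nB * (C₀ * (2 * ρ₂)))) := by
    refine a12_bU _ _ fun γ hγ => ?_
    obtain ⟨g1, g2⟩ := Gam_sign G hγ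
    refine a12_strips hC₀ hs G.A G.B (fun a => γ.1.1 * (a - γ.2.1) - (l • η).1)
      (fun b => γ.1.2 * (b - γ.2.2) - (l • η).2) (by positivity) ?_
    rintro x ⟨hx, h2⟩
    refine ⟨hx, ?_⟩
    rcases h2 with ⟨a, ha, h3⟩ | ⟨a, ha, h3⟩
    · refine Or.inl ⟨a, ha, ?_⟩
      rw [abs_sub_comm] at h3
      have e1 : (app γ (x + l • η)).1 - a = γ.1.1 * (x.1 + (l • η).1) + γ.2.1 - a := rfl
      rw [e1, a12_abs g1] at h3
      exact h3
    · refine Or.inr ⟨a, ha, ?_⟩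
      rw [abs_sub_comm] at h3
      have e1 : (app γ (x + l • η)).2 - a = γ.1.2 * (x.2 + (l • η).2) + γ.2.2 - a := rfl
      rw [e1, a12_abs g2] at h3
      exact h3
  have p3 : volume {x : P | x ∈ D ∧ ((∃ a ∈ G.A, |a - x.1| < ρ₂) ∨
      ∃ b ∈ G.B, |b - x.2| < ρ₂)} ≤ ENNReal.ofReal (nA * (C₀ * ρ₂) + nB * (C₀ * ρ₂)) := by
    refine a12_strips hC₀ hs G.A G.B id id hρ.le ?_
    rintro x ⟨hx, h2⟩
    refine ⟨hx, ?_⟩
    rcases h2 with ⟨a, ha, h3⟩ | ⟨a, ha, h3⟩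
    · exact Or.inl ⟨a, ha, by rwa [abs_sub_comm] at h3⟩
    · exact Or.inr ⟨a, ha, by rwa [abs_sub_comm] at h3⟩
  have hsub : Exc G T l τ ρ₂ η ⊆ (⋃ k ∈ Finset.range K, ⋃ γ ∈ G.Gam T, ⋃ v ∈ G.V,
      {x : P | dist (app γ (x + ((k : ℝ) * τ) • η)) v < ρ₂}) ∪
      ((⋃ γ ∈ G.Gam T, {x : P | x ∈ D ∧
        ((∃ a ∈ G.A, |a - (app γ (x + l • η)).1| < 2 * ρ₂) ∨
          ∃ b ∈ G.B, |b - (app γ (x + l • η)).2| < 2 * ρ₂)}) ∪
        {x : P | x ∈ D ∧ ((∃ a ∈ G.A, |a - x.1| < ρ₂) ∨ ∃ b ∈ G.B, |b - x.2| < ρ₂)}) := by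
    rintro x ⟨hx, h | h | h⟩
    · obtain ⟨k, hk, γ, hγ, v, hv, h1⟩ := h
      refine Or.inl (mem_biUnion (x := k) ?_ (mem_biUnion hγ (mem_biUnion hv h1)))
      rw [Finset.mem_coe, Finset.mem_range, hK]
      refine Nat.lt_succ_of_le (Nat.le_floor ?_)
      rw [le_div_iff₀ hτ]
      exact hk
    · obtain ⟨γ, hγ, h1⟩ := h
      exact Or.inr (Or.inl (mem_biUnion hγ ⟨hx, h1⟩))
    · exact Or.inr (Or.inr ⟨hx, h⟩)
  refine (measure_mono hsub).trans ((a12_un (by positivity) (by positivity) p1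
    (a12_un (by positivity) (by positivity) p2 p3)).trans ?_)
  refine ENNReal.ofReal_le_ofReal ?_
  have q1 : (K : ℝ) * (N * (V * (4 * ρ₂ ^ 2))) ≤ (T + 1) / τ * (N * (V * (4 * ρ₂ ^ 2))) :=
    mul_le_mul_of_nonneg_right hK1 (by positivity)
  have q2 : (T + 1) / τ * (N * (V * (4 * ρ₂ ^ 2))) =
      (T + 1) * (N * (V * 4)) * (ρ₂ ^ 2 / τ) := by
    field_simp
  have q3 : 0 ≤ ρ₂ ^ 2 / τ := by positivity
  have q4 : 0 ≤ (T + 1) * (N * (V * 4)) * ρ₂ := by positivity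
  have q5 : 0 ≤ (N * (nA + nB) * (C₀ * 2) + (nA + nB) * C₀) * (ρ₂ ^ 2 / τ) := by positivity
  have q6 : ((T + 1) * (N * (V * 4)) + (N * (nA + nB) * (C₀ * 2) + (nA + nB) * C₀)) *
      (ρ₂ ^ 2 / τ + ρ₂) = (T + 1) * (N * (V * 4)) * (ρ₂ ^ 2 / τ) +
      (T + 1) * (N * (V * 4)) * ρ₂ +
      (N * (nA + nB) * (C₀ * 2) + (nA + nB) * C₀) * (ρ₂ ^ 2 / τ) +
      (N * (nA * (C₀ * (2 * ρ₂)) + nB * (C₀ * (2 * ρ₂))) +
        (nA * (C₀ * ρ₂) + nB * (C₀ * ρ₂))) := by ring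
  rw [q6]
  linarith

end BlA

end

end Pool.Agent.MP4eed4eR
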