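import Pool.Agent.Lib.MP_4eed4e_an_R.A10
import Pool.Agent.Lib.MP_4eed4e_an_R.A12

/-!
MP_4eed4e_an, project R, module A13: preparations for the stability near a fixed direction.
-/

namespace Pool.Agent.MP4eed4eR

open MeasureTheory Set Filter Topology Metric

noncomputable section

namespace BlA

variable {D : Set P}

/-- The inequalities between the scales that are needed in block A, for small `δ`. Proof: all are
of the form `C * δ ^ m ≤ c * δ ^ n` with `m > n` or `C * δ ^ m ≤ c` with `m > 0`, `c > 0`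
(divide by `δ ^ n` and use that `δ ^ (m - n) → 0`). -/
theorem scales {l ρ₀ C : ℝ} (hl : 0 < l) (hρ₀ : 0 < ρ₀) : ∀ᶠ δ in 𝓝[>] (0 : ℝ),
    0 < δ ∧ δ < 1 ∧ 0 < tau δ ∧ tau δ ≤ 1 ∧ 0 < kap δ ∧ 2 * kap δ < tau δ ∧ kap δ < l ∧
      kap δ ≤ 1 / 4 ∧ 0 < th δ ∧ 4 * tau δ < th δ / 4 ∧ 16 * th δ ≤ rho2 δ ∧
      16 * ((l + 1) * thp δ) ≤ rho2 δ ∧ 0 < thp δ ∧ thp δ ≤ 1 / 4 ∧ 0 < rho2 δ ∧
      16 * rho2 δ ≤ ρ₀ ∧ 16 * rho2 δ ≤ l ∧ rho2 δ ≤ 1 ∧
      C * (rho2 δ ^ 2 / tau δ + rho2 δ) ≤ δ ^ 20 := by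
  have hC0 : 0 < |C| + 1 := by positivity
  have hev : ∀ c : ℝ, 0 < c → ∀ᶠ δ in 𝓝[>] (0 : ℝ), δ ≤ c := fun c hc =>
    mem_nhdsWithin_of_mem_nhds (Iic_mem_nhds hc)
  filter_upwards [self_mem_nhdsWithin, hev (1 / 4096) (by norm_num), hev (l / 32) (by positivity),
    hev (1 / (16 * (l + 1))) (by positivity), hev (ρ₀ / 16) (by positivity),
    hev (1 / (1025 * (|C| + 1))) (by positivity)] with δ h0 h1 h2 h3 h4 h5
  replace h0 : 0 < δ := h0
  have hδ1 : δ ≤ 1 := by linarith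
  have hp : ∀ n : ℕ, n ≠ 0 → δ ^ n ≤ δ := fun n hn => pow_le_of_le_one h0.le hδ1 hn
  have hpos : ∀ n : ℕ, 0 < δ ^ n := fun n => pow_pos h0 n
  rw [le_div_iff₀ (by positivity)] at h3 h5
  have e38 := hpos 38
  have e34 := hpos 34
  have b34 := hp 34 (by norm_num)
  have b36 := hp 36 (by norm_num)
  have b38 := hp 38 (by norm_num)
  have b39 := hp 39 (by norm_num)
  have hm : δ ^ 38 * δ ≤ δ ^ 38 * (1 / 4096) := mul_le_mul_of_nonneg_left h1 e38.le
  have e39 : δ ^ 39 = δ ^ 38 * δ := pow_succ δ 38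
  have e38' : δ ^ 38 = δ ^ 34 * δ ^ 4 := by rw [← pow_add]
  have e36' : δ ^ 36 = δ ^ 34 * δ ^ 2 := by rw [← pow_add]
  have hm4 : δ ^ 34 * δ ^ 4 ≤ δ ^ 34 * (1 / 4096) :=
    mul_le_mul_of_nonneg_left ((hp 4 (by norm_num)).trans h1) e34.le
  unfold tau kap th thp rho2
  refine ⟨h0, by linarith, by positivity, by linarith, hpos 39, ?_, by linarith, by linarith, e38,
    by linarith, ?_, ?_, hpos 36, by linarith, e34, by linarith, by linarith, by linarith, ?_⟩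
  · rw [e39]
    linarith
  · rw [e38']
    linarith
  · rw [e36']
    have h6 : 16 * ((l + 1) * (δ ^ 34 * δ ^ 2)) = δ ^ 34 * (16 * (l + 1) * δ ^ 2) := by ring
    rw [h6]
    have h7 : 16 * (l + 1) * δ ^ 2 ≤ 16 * (l + 1) * δ :=
      mul_le_mul_of_nonneg_left (hp 2 (by norm_num)) (by positivity)
    have h8 : 16 * (l + 1) * δ ^ 2 ≤ 1 := by linarith
    calc δ ^ 34 * (16 * (l + 1) * δ ^ 2) ≤ δ ^ 34 * 1 := mul_le_mul_of_nonneg_left h8 e34.le
      _ = δ ^ 34 := mul_one _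
  · have h6 : (δ ^ 34) ^ 2 / (δ ^ 38 / 1024) = 1024 * δ ^ 30 := by
      have h7 : (δ ^ 34) ^ 2 = δ ^ 38 * δ ^ 30 := by
        rw [← pow_mul, ← pow_add]
      rw [h7]
      field_simp
    rw [h6]
    have h7 : δ ^ 34 ≤ δ ^ 30 := pow_le_pow_of_le_one h0.le hδ1 (by norm_num)
    have h8 : δ ^ 30 = δ ^ 20 * δ ^ 10 := by rw [← pow_add]
    have h9 : 1025 * (|C| + 1) * δ ^ 10 ≤ 1 := by
      have := mul_le_mul_of_nonneg_left (hp 10 (by norm_num))
        (by positivity : (0 : ℝ) ≤ 1025 * (|C| + 1))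
      linarith
    calc C * (1024 * δ ^ 30 + δ ^ 34) ≤ (|C| + 1) * (1024 * δ ^ 30 + δ ^ 34) := by
          refine mul_le_mul_of_nonneg_right ?_ (by positivity)
          linarith [le_abs_self C]
      _ ≤ (|C| + 1) * (1025 * δ ^ 30) := by
          refine mul_le_mul_of_nonneg_left ?_ hC0.le
          linarith
      _ = δ ^ 20 * (1025 * (|C| + 1) * δ ^ 10) := by
          rw [h8]
          ring
      _ ≤ δ ^ 20 * 1 := mul_le_mul_of_nonneg_left h9 (hpos 20).le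
      _ = δ ^ 20 := mul_one _

/-- `|c.i| ≤ l`, so the entries of `-c / l` are at most one in absolute value. -/
theorem dir_le {l : ℝ} (hl : 0 < l) {c : P} (hc : sq c = l ^ 2) :
    |(-(1 / l) • c : P).1| ≤ 1 ∧ |(-(1 / l) • c : P).2| ≤ 1 := by
  have key : ∀ y : ℝ, y ^ 2 ≤ l ^ 2 → |-(1 / l) * y| ≤ 1 := by
    intro y hy
    have h1 : |y| ≤ l := abs_le_of_sq_le_sq hy hl.le
    rw [abs_mul, abs_neg, abs_of_pos (by positivity), one_div, inv_mul_le_iff₀ hl, mul_one]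
    exact h1
  unfold sq at hc
  constructor
  · exact key c.1 (by nlinarith [sq_nonneg c.2])
  · exact key c.2 (by nlinarith [sq_nonneg c.1])

/-- Reference orbits off the exceptional set stay away from the reflex vertices.
Proof: strong induction on `k`: if `Far (rho2 δ)` holds for all `j < k` then the hypothesis of
`tracking` (with `T = l + 1`, eventually in `δ`) holds (`th δ / 2 ≤ rho2 δ`), so the position at
the time `k * tau δ` is `app γ (x + (k * tau δ) • η)` with `γ ∈ G.Gam (l + 1)`; its distance from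
every `v ∈ G.V` is at least `rho2 δ` because `x` is not in the exceptional set. -/
theorem ref_far (G : Geo D) {l : ℝ} (hl : 0 < l) {c : P} (hc : sq c = l ^ 2) :
    ∀ᶠ δ in 𝓝[>] (0 : ℝ), ∀ W : Walls G (th δ / 4), ∀ x ∈ D,
      x ∉ Exc G (l + 1) l (tau δ) (rho2 δ) (-(1 / l) • c) →
      ∀ k : ℕ, (k : ℝ) * tau δ ≤ l + 1 →
        G.Far (rho2 δ) ((stp W (tau δ))^[k] (x, -(1 / l) • c)).1 := by
  filter_upwards [scales (C := 0) hl G.pos, tracking G (l + 1)] with δ hsc htr W x hx hxE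
  obtain ⟨-, -, hτ, -, -, -, -, -, hth, -, hth2, -⟩ := hsc
  obtain ⟨hd1, hd2⟩ := dir_le hl hc
  intro k
  induction k using Nat.strong_induction_on with
  | _ k ih =>
    intro hk
    have hfar : ∀ j < k, G.Far (th δ / 2) ((stp W (tau δ))^[j] (x, -(1 / l) • c)).1 := by
      intro j hj v hv
      have h1 : (j : ℝ) * tau δ ≤ l + 1 :=
        (mul_le_mul_of_nonneg_right (Nat.cast_le.2 hj.le) hτ.le).trans hk
      have := ih j hj h1 v hv
      linarith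
    obtain ⟨⟨γ, hγ, he⟩, -⟩ := htr W x (subset_closure hx) (-(1 / l) • c) (by linarith)
      (by linarith) k hk hfar
    intro v hv
    by_contra hlt
    rw [he] at hlt
    push Not at hlt
    exact hxE ⟨hx, Or.inl ⟨k, hk, γ, hγ, v, hv, hlt⟩⟩

private theorem a13_app (γ : P × P) (x ξ : P) (s s' : ℝ) :
    app γ (x + s • ξ) + s' • lin γ ξ = app γ (x + (s + s') • ξ) := by
  refine Prod.ext ?_ ?_
  · show γ.1.1 * (x.1 + s * ξ.1) + γ.2.1 + s' * (γ.1.1 * ξ.1) =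
      γ.1.1 * (x.1 + (s + s') * ξ.1) + γ.2.1
    ring
  · show γ.1.2 * (x.2 + s * ξ.2) + γ.2.2 + s' * (γ.1.2 * ξ.2) =
      γ.1.2 * (x.2 + (s + s') * ξ.2) + γ.2.2
    ring

/-- Proof: put `K₀ = ⌊(l - κ) / τ⌋₊`. For `|t - l| ≤ κ` we have `⌊t / τ⌋₊ = K₀` or `K₀ + 1`
(`(l + κ) / τ - (l - κ) / τ < 1`), and `|K₀ * τ - l| ≤ κ + τ`; in the second case
`|(K₀ + 1) * τ - l| ≤ κ + τ` because `(K₀ + 1) * τ ≤ t`. By `free_step` (the walls at
`app γ (x + s • ξ)` are trivial) each step from the time `s` to the time `s + s'` gives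
`(app γ (x + s • ξ) + s' • lin γ ξ, lin γ ξ) = (app γ (x + (s + s') • ξ), lin γ ξ)`. Unfold
`flow`; `Function.iterate_succ_apply'`. -/
theorem flow_free {G : Geo D} {ρ τ l κ : ℝ} (W : Walls G ρ) (hτ : 0 < τ) (hκ : 0 ≤ κ)
    (hκτ : 2 * κ < τ) (hκl : κ ≤ l) {x ξ : P} {γ : P × P}
    (h0 : (stp W τ)^[⌊(l - κ) / τ⌋₊] (x, ξ) =
      (app γ (x + ((⌊(l - κ) / τ⌋₊ : ℝ) * τ) • ξ), lin γ ξ))
    (hfree : ∀ s, |s - l| ≤ κ + τ →
      (W.w1 (app γ (x + s • ξ))).2 = 0 ∧ (W.w2 (app γ (x + s • ξ))).2 = 0) :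
    ∀ t, |t - l| ≤ κ → flow W τ t (x, ξ) = (app γ (x + t • ξ), lin γ ξ) := by
  intro t ht
  have step : ∀ s s', |s - l| ≤ κ + τ →
      stp W s' (app γ (x + s • ξ), lin γ ξ) = (app γ (x + (s + s') • ξ), lin γ ξ) := by
    intro s s' hs
    obtain ⟨f1, f2⟩ := hfree s hs
    rw [free_step W f1 f2, a13_app]
  obtain ⟨t1, t2⟩ := abs_le.1 ht
  have hq0 : 0 ≤ (l - κ) / τ := div_nonneg (by linarith) hτ.le
  set K : ℕ := ⌊(l - κ) / τ⌋₊ with hK
  have k1 : (K : ℝ) * τ ≤ l - κ := (le_div_iff₀ hτ).1 (Nat.floor_le hq0)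
  have k2 : l - κ < ((K : ℝ) + 1) * τ := (div_lt_iff₀ hτ).1 (Nat.lt_floor_add_one _)
  have m1 : K ≤ ⌊t / τ⌋₊ := Nat.floor_le_floor (div_le_div_of_nonneg_right (by linarith) hτ.le)
  have ht0 : 0 ≤ t / τ := div_nonneg (by linarith) hτ.le
  have m3 : (⌊t / τ⌋₊ : ℝ) * τ ≤ t := (le_div_iff₀ hτ).1 (Nat.floor_le ht0)
  have m2 : ⌊t / τ⌋₊ < K + 2 := by
    rw [Nat.floor_lt ht0, div_lt_iff₀ hτ]
    push_cast
    linarith
  unfold flow
  have hcase : ⌊t / τ⌋₊ = K ∨ ⌊t / τ⌋₊ = K + 1 := by omega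
  rcases hcase with h | h
  · rw [h, h0, step _ _ (by rw [abs_le]; constructor <;> linarith)]
    rw [add_sub_cancel]
  · rw [h] at m3
    push_cast at m3
    rw [h, Function.iterate_succ_apply', h0, step _ _ (by rw [abs_le]; constructor <;> linarith)]
    have e1 : (K : ℝ) * τ + τ = ((K + 1 : ℕ) : ℝ) * τ := by
      push_cast
      ring
    rw [e1, step _ _ (by rw [abs_le]; push_cast; constructor <;> linarith), add_sub_cancel]

end BlA

end

end Pool.Agent.MP4eed4eR
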