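import Pool.Agent.Lib.MP_4eed4e_an_R.A11
import Pool.Agent.Lib.MP_4eed4e_an_R.A13

/-!
MP_4eed4e_an, project R, module A14: stability near a fixed unit direction.
-/

namespace Pool.Agent.MP4eed4eR

open MeasureTheory Set Filter Topology Metric

noncomputable section

namespace BlA

variable {D : Set P}

private theorem A14_abs {g u v a b : ℝ} (hg : g = 1 ∨ g = -1) :
    |(g * (a + u) + b) - (g * (a + v) + b)| = |u - v| := by
  have h1 : (g * (a + u) + b) - (g * (a + v) + b) = g * (u - v) := by ring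
  rw [h1, abs_mul]
  rcases hg with h | h <;> rw [h] <;> norm_num

private theorem A14_app₁ {γ : P × P} (hg : γ.1.1 = 1 ∨ γ.1.1 = -1) (x ξ η : P) (s t : ℝ) :
    |(app γ (x + s • ξ)).1 - (app γ (x + t • η)).1| = |s * ξ.1 - t * η.1| := by
  unfold app
  simp only [Prod.fst_add, Prod.smul_fst, smul_eq_mul]
  exact A14_abs hg

private theorem A14_app₂ {γ : P × P} (hg : γ.1.2 = 1 ∨ γ.1.2 = -1) (x ξ η : P) (s t : ℝ) :
    |(app γ (x + s • ξ)).2 - (app γ (x + t • η)).2| = |s * ξ.2 - t * η.2| := by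
  unfold app
  simp only [Prod.snd_add, Prod.smul_snd, smul_eq_mul]
  exact A14_abs hg

private theorem A14_far {a y z R d : ℝ} (h1 : 2 * R ≤ |a - z|) (h2 : |y - z| ≤ d)
    (h3 : d ≤ R) : R ≤ |a - y| := by
  have h4 : |a - z| ≤ |a - y| + |y - z| := by
    have := abs_add_le (a - y) (y - z)
    rwa [sub_add_sub_cancel] at this
  linarith

private theorem A14_move {s l u v p q : ℝ} (hl : 0 ≤ l) (h1 : |s - l| ≤ p) (h2 : |u| ≤ 2)
    (h3 : |u - v| ≤ q) : |s * u - l * v| ≤ 2 * p + l * q := by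
  have e : s * u - l * v = (s - l) * u + l * (u - v) := by ring
  rw [e]
  refine (abs_add_le _ _).trans ?_
  rw [abs_mul, abs_mul, abs_of_nonneg hl]
  have h4 : |s - l| * |u| ≤ p * 2 :=
    mul_le_mul h1 h2 (abs_nonneg u) ((abs_nonneg _).trans h1)
  have h5 : l * |u - v| ≤ l * q := mul_le_mul_of_nonneg_left h3 hl
  linarith

/-- A6: stability near a fixed unit direction, off a set of small area.

Proof. Write `ρ = th δ / 4`, `R = rho2 δ`, `τ = tau δ`, `κ = kap δ`, `η = -(1 / l) • c`,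
`ε = (l + 1) * thp δ`, and take `E = Exc G (l + 1) l τ R η` (`measurableSet_Exc`; `Exc_area` and
`scales` with its constant `C` give `volume E ≤ δ ^ 20`). Let `δ` be small (`scales`, `ref_far`,
with `ρ₀ = G.rho0`) and `x ∈ D`, `x ∉ E`. As `x` has distance `≥ R ≥ ρ` from the grid lines,
`no_wall` gives the first two claims.
By `ref_far` the reference positions `x_k`, `k * τ ≤ l + 1`, are `Far R`. Let
`N = ⌊(l + 1) / τ⌋₊` (so `k ≤ N ↔ k * τ ≤ l + 1`) and apply `stab_orbit` with `ξ₀ = η` (`dir_le`),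
`ρ, R, τ, ε`: for `|ξ.1 + c.1 / l| ≤ thp δ` etc. we have `N * τ * |ξ.1 - η.1| ≤ ε`,
`|ξ.1| ≤ 2`. Let `K₀ = ⌊(l - κ) / τ⌋₊ ≤ N` and let `γ` be the affine map of `stab_orbit` for
`k = K₀`; `γ ∈ G.Gam (l + 1)` by `Gam_of_Tr2`.
Distances: `|K₀ * τ - l| ≤ κ + τ ≤ R / 4`; as `x ∉ E` the point `app γ (x + l • η)` has distance
`≥ 2 * R` from all grid lines, hence `x_{K₀}` has distance `≥ R` from them, so in the model of
`stab_orbit` at `x_{K₀}` both walls are trivial (`IsModel`), and `Near1_none` gives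
`(stp W τ)^[K₀] (x, ξ) = (app γ (x + (K₀ * τ) • ξ), lin γ ξ)`. For `|s - l| ≤ κ + τ` the point
`app γ (x + s • ξ)` differs in each coordinate from `app γ (x + l • η)` by at most
`|s - l| * |ξ.i| + l * |ξ.i - η.i| ≤ 2 * (κ + τ) + ε ≤ R`, so it has distance `≥ R ≥ ρ` from the
grid lines and no walls (`no_wall`). Now `flow_free` gives the formula for the flow, and `s = t`
the last two claims.
`GoodUpTo`: let `k * τ ≤ l + 1 / 2`, so `k ≤ N`; by `Pert` and `Near1_dist` (with `cIn` from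
`closure_cIn` for `x_k` in its model) the position of the orbit of `(x, ξ)` has distance at most
`ε` from `x_k` (`|app γ (x + s • ξ) - app γ (x + s • η)| ≤ s * |ξ.i - η.i|`), so its distance from
the reflex vertices is at least `R - ε ≥ th δ`. -/
theorem stab (G : Geo D) {l : ℝ} (hl : 0 < l) {c : P} (hc : sq c = l ^ 2) :
    ∀ᶠ δ in 𝓝[>] (0 : ℝ), ∀ W : Walls G (th δ / 4), ∃ E : Set P, MeasurableSet E ∧
      volume E ≤ ENNReal.ofReal (δ ^ 20) ∧ ∀ x ∈ D, x ∉ E →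
      (W.w1 x).2 = 0 ∧ (W.w2 x).2 = 0 ∧ ∃ γ ∈ G.Gam (l + 1), ∀ ξ : P,
      |ξ.1 + c.1 / l| ≤ thp δ → |ξ.2 + c.2 / l| ≤ thp δ → ∀ t, |t - l| ≤ kap δ →
      GoodUpTo W (tau δ) (th δ) (l + 1 / 2) (x, ξ) ∧
      flow W (tau δ) t (x, ξ) = (app γ (x + t • ξ), lin γ ξ) ∧
      (W.w1 (app γ (x + t • ξ))).2 = 0 ∧ (W.w2 (app γ (x + t • ξ))).2 = 0 := by
  obtain ⟨C, -, hC⟩ := Exc_area G (T := l + 1) (by linarith)
  filter_upwards [scales (C := C) hl G.pos, ref_far G hl hc] with δ hsc href W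
  obtain ⟨-, -, hτ0, hτ1, hκ0, hκτ, hκl, hκ4, hth0, hτth, hthR, hεR, hthp0, hthp4, hR0, hRρ, hRl,
    hR1, hCR⟩ := hsc
  set τ := tau δ with hτdef
  set κ := kap δ with hκdef
  set R := rho2 δ with hRdef
  set π := thp δ with hπdef
  set η : P := -(1 / l) • c with hηdef
  set ε : ℝ := (l + 1) * π with hεdef
  have hε0 : 0 ≤ ε := mul_nonneg (by linarith) hthp0.le
  obtain ⟨hη1, hη2⟩ := dir_le hl hc
  rw [← hηdef] at hη1 hη2
  have eη1 : η.1 = -(c.1 / l) := by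
    rw [hηdef]
    simp only [Prod.smul_fst, smul_eq_mul]
    ring
  have eη2 : η.2 = -(c.2 / l) := by
    rw [hηdef]
    simp only [Prod.smul_snd, smul_eq_mul]
    ring
  refine ⟨Exc G (l + 1) l τ R η, measurableSet_Exc G _ _ _ _ _,
    (hC l τ R η hτ0 hτ1 hR0).trans (ENNReal.ofReal_le_ofReal hCR), ?_⟩
  intro x hxD hxE
  have hnot : ¬ ((∃ k : ℕ, (k : ℝ) * τ ≤ l + 1 ∧ ∃ γ ∈ G.Gam (l + 1), ∃ v ∈ G.V,
        dist (app γ (x + ((k : ℝ) * τ) • η)) v < R) ∨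
      (∃ γ ∈ G.Gam (l + 1), (∃ a ∈ G.A, |a - (app γ (x + l • η)).1| < 2 * R) ∨
        ∃ b ∈ G.B, |b - (app γ (x + l • η)).2| < 2 * R) ∨
      (∃ a ∈ G.A, |a - x.1| < R) ∨ ∃ b ∈ G.B, |b - x.2| < R) := fun h => hxE ⟨hxD, h⟩
  rw [not_or, not_or, not_or] at hnot
  obtain ⟨-, hgl, hA0, hB0⟩ := hnot
  push Not at hgl hA0 hB0
  have hρR : th δ / 4 ≤ R := by linarith
  obtain ⟨w1, w2⟩ := no_wall W (y := x) (fun a ha => hρR.trans (hA0 a ha))
    (fun b hb => hρR.trans (hB0 b hb))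
  refine ⟨w1, w2, ?_⟩
  -- the reference orbit
  set N := ⌊(l + 1) / τ⌋₊ with hNdef
  have hkN : ∀ k : ℕ, k ≤ N → (k : ℝ) * τ ≤ l + 1 := by
    intro k hk
    have h1 : (k : ℝ) ≤ (l + 1) / τ := by
      refine le_trans (Nat.cast_le.2 hk) (Nat.floor_le ?_)
      exact div_nonneg (by linarith) hτ0.le
    rwa [le_div_iff₀ hτ0] at h1
  have hNk : ∀ k : ℕ, (k : ℝ) * τ ≤ l + 1 → k ≤ N := by
    intro k hk
    exact Nat.le_floor ((le_div_iff₀ hτ0).2 hk)
  have hst := stab_orbit G (ρ := th δ / 4) (R := R) (τ := τ) (ε := ε) W (by linarith) hτ0.le hε0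
    hτth (by linarith) (by linarith) (subset_closure hxD) (ξ₀ := η) (by linarith) (by linarith) N
    (fun k hk => href W x hxD hxE k (hkN k hk))
  set K₀ := ⌊(l - κ) / τ⌋₊ with hK₀def
  have hK₀N : K₀ ≤ N := by
    refine Nat.floor_mono ?_
    exact div_le_div_of_nonneg_right (by linarith) hτ0.le
  have hKle : (K₀ : ℝ) * τ ≤ l - κ := by
    have h1 : (K₀ : ℝ) ≤ (l - κ) / τ := Nat.floor_le (div_nonneg (by linarith) hτ0.le)
    rwa [le_div_iff₀ hτ0] at h1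
  have hKge : l - κ < (K₀ : ℝ) * τ + τ := by
    have h1 : (l - κ) / τ < (K₀ : ℝ) + 1 := Nat.lt_floor_add_one _
    rw [div_lt_iff₀ hτ0] at h1
    linarith
  have hKl : |(K₀ : ℝ) * τ - l| ≤ κ + τ := by
    rw [abs_le]
    constructor <;> linarith
  obtain ⟨γ, B₁, B₂, hTr, horb, hcl, hmod, hpert⟩ := hst K₀ hK₀N
  have hγ : γ ∈ G.Gam (l + 1) := Gam_of_Tr2 G (mul_nonneg (Nat.cast_nonneg _) hτ0.le)
    (hkN K₀ hK₀N) (by linarith) (by linarith) hTr
  obtain ⟨hγ1, hγ2⟩ := Gam_sign G hγ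
  obtain ⟨hgl1, hgl2⟩ := hgl γ hγ
  refine ⟨γ, hγ, ?_⟩
  intro ξ hξ1 hξ2
  have d1 : |ξ.1 - η.1| ≤ π := by
    rw [eη1, sub_neg_eq_add]
    exact hξ1
  have d2 : |ξ.2 - η.2| ≤ π := by
    rw [eη2, sub_neg_eq_add]
    exact hξ2
  have b1 : |ξ.1| ≤ 2 := by
    have h1 : |ξ.1| ≤ |ξ.1 - η.1| + |η.1| := by
      have := abs_add_le (ξ.1 - η.1) η.1
      rwa [sub_add_cancel] at this
    linarith
  have b2 : |ξ.2| ≤ 2 := by
    have h1 : |ξ.2| ≤ |ξ.2 - η.2| + |η.2| := by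
      have := abs_add_le (ξ.2 - η.2) η.2
      rwa [sub_add_cancel] at this
    linarith
  have hNε : ∀ (k : ℕ) (z : ℝ), k ≤ N → |z| ≤ π → (k : ℝ) * τ * |z| ≤ ε := by
    intro k z hk hz
    rw [hεdef]
    exact mul_le_mul (hkN k hk) hz (abs_nonneg _) (by linarith)
  have hP1 := hpert ξ b1 b2 (hNε N _ le_rfl d1) (hNε N _ le_rfl d2)
  obtain ⟨hs1, hs2, hm1, hm2, hmq⟩ := hmod
  have hB₁ : B₁.2 = 0 := by
    by_contra h0
    obtain ⟨h1, h2⟩ := hm1 h0
    have h3 := A14_far (hgl1 _ h1)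
      ((A14_app₁ hγ1 x η η ((K₀ : ℝ) * τ) l).le.trans
        (A14_move (q := 0) hl.le hKl (by linarith) (by simp)))
      (by linarith)
    rw [horb] at h2
    exact absurd h2 (not_lt.2 h3)
  have hB₂ : B₂.2 = 0 := by
    by_contra h0
    obtain ⟨h1, h2⟩ := hm2 h0
    have h3 := A14_far (hgl2 _ h1)
      ((A14_app₂ hγ2 x η η ((K₀ : ℝ) * τ) l).le.trans
        (A14_move (q := 0) hl.le hKl (by linarith) (by simp)))
      (by linarith)
    rw [horb] at h2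
    exact absurd h2 (not_lt.2 h3)
  have h0 : (stp W τ)^[K₀] (x, ξ) = (app γ (x + ((K₀ : ℝ) * τ) • ξ), lin γ ξ) := by
    obtain ⟨-, n1, n2⟩ := hP1
    obtain ⟨p1, v1⟩ := Near1_none n1 hB₁
    obtain ⟨p2, v2⟩ := Near1_none n2 hB₂
    exact Prod.ext (Prod.ext p1 p2) (Prod.ext v1 v2)
  have hlπ : l * π ≤ ε := by
    rw [hεdef]
    exact mul_le_mul_of_nonneg_right (by linarith) hthp0.le
  have hfree : ∀ s, |s - l| ≤ κ + τ →
      (W.w1 (app γ (x + s • ξ))).2 = 0 ∧ (W.w2 (app γ (x + s • ξ))).2 = 0 := by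
    intro s hs
    refine no_wall W (fun a ha => hρR.trans ?_) (fun b hb => hρR.trans ?_)
    · exact A14_far (hgl1 a ha) ((A14_app₁ hγ1 x ξ η s l).le.trans
        (A14_move hl.le hs b1 d1)) (by linarith)
    · exact A14_far (hgl2 b hb) ((A14_app₂ hγ2 x ξ η s l).le.trans
        (A14_move hl.le hs b2 d2)) (by linarith)
  have hgood : GoodUpTo W τ (th δ) (l + 1 / 2) (x, ξ) := by
    intro k hk v hv
    have hkN' : k ≤ N := hNk k (by linarith)
    obtain ⟨γ', C₁, C₂, hTr', horb', hcl', hmod', hpert'⟩ := hst k hkN'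
    have hγ' : γ' ∈ G.Gam (l + 1) := Gam_of_Tr2 G (mul_nonneg (Nat.cast_nonneg _) hτ0.le)
      (hkN k hkN') (by linarith) (by linarith) hTr'
    obtain ⟨hγ1', hγ2'⟩ := Gam_sign G hγ'
    obtain ⟨-, n1, n2⟩ := hpert' ξ b1 b2 (hNε N _ le_rfl d1) (hNε N _ le_rfl d2)
    obtain ⟨ht1, ht2, -, -, hmq'⟩ := hmod'
    obtain ⟨c1, c2⟩ := closure_cIn hcl' (mem_ball_self hR0) hmq'
    have e1 := (Near1_dist ht1 n1 c1).1
    have e2 := (Near1_dist ht2 n2 c2).1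
    have f1 : |((stp W τ)^[k] (x, ξ)).1.1 - ((stp W τ)^[k] (x, η)).1.1| ≤ ε := by
      refine e1.trans ?_
      rw [horb']
      dsimp only
      rw [A14_app₁ hγ1', ← mul_sub, abs_mul,
        abs_of_nonneg (mul_nonneg (Nat.cast_nonneg k) hτ0.le)]
      have := hNε k (ξ.1 - η.1) hkN' d1
      exact this
    have f2 : |((stp W τ)^[k] (x, ξ)).1.2 - ((stp W τ)^[k] (x, η)).1.2| ≤ ε := by
      refine e2.trans ?_
      rw [horb']
      dsimp only
      rw [A14_app₂ hγ2', ← mul_sub, abs_mul,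
        abs_of_nonneg (mul_nonneg (Nat.cast_nonneg k) hτ0.le)]
      have := hNε k (ξ.2 - η.2) hkN' d2
      exact this
    have f3 : dist ((stp W τ)^[k] (x, ξ)).1 ((stp W τ)^[k] (x, η)).1 ≤ ε := by
      rw [Prod.dist_eq, max_le_iff, Real.dist_eq, Real.dist_eq]
      exact ⟨f1, f2⟩
    have f4 := href W x hxD hxE k (hkN k hkN') v hv
    have f5 := dist_triangle_left ((stp W τ)^[k] (x, η)).1 v ((stp W τ)^[k] (x, ξ)).1
    linarith
  intro t ht
  have ht' : |t - l| ≤ κ + τ := ht.trans (by linarith)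
  exact ⟨hgood, flow_free W hτ0 hκ0.le hκτ hκl.le h0 hfree t ht, hfree t ht'⟩

end BlA

end

end Pool.Agent.MP4eed4eR
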