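import Pool.Agent.Lib.MP_4eed4e_an_R.A07
import Pool.Agent.Lib.MP_4eed4e_an_R.ADefs2

/-!
MP_4eed4e_an, project R, module A15: a particle between two parallel walls.
-/

namespace Pool.Agent.MP4eed4eR

open MeasureTheory Set Filter Topology Metric

noncomputable section

namespace BlA

variable {D : Set P}

/-- points in the interval close to `y` -/
private theorem a15_near {a w y ε : ℝ} (hw : 0 < w) (hy : a ≤ y) (hy' : y ≤ a + w)
    (hε : 0 < ε) : ∃ z, |z - y| < ε ∧ a < z ∧ z < a + w := by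
  rcases lt_or_ge y (a + w) with h | h
  · have h1 : y < min (y + ε) (a + w) := lt_min (by linarith) h
    have h2 := min_le_left (y + ε) (a + w)
    have h3 := min_le_right (y + ε) (a + w)
    refine ⟨(y + min (y + ε) (a + w)) / 2, ?_, by linarith, by linarith⟩
    rw [abs_lt]
    constructor <;> linarith
  · have h1 : max (y - ε) a < y := max_lt (by linarith) (by linarith)
    have h2 := le_max_left (y - ε) a
    have h3 := le_max_right (y - ε) a
    refine ⟨(y + max (y - ε) a) / 2, ?_, by linarith, by linarith⟩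
    rw [abs_lt]
    constructor <;> linarith

private theorem a15_one {a z : ℝ} : (z < a → wfold (a, 1) z = 2 * a - z ∧ wsgn (a, 1) z = -1) ∧
    (a ≤ z → wfold (a, 1) z = z ∧ wsgn (a, 1) z = 1) := by
  have h1 : wfold (a, 1) z = a + 1 * |z - a| := if_neg one_ne_zero
  constructor
  · intro h
    have h2 : wsgn (a, 1) z = -1 := if_pos (by
      show (1 : ℝ) * (z - a) < 0
      linarith)
    refine ⟨?_, h2⟩
    rw [h1, abs_of_neg (by linarith)]
    ring
  · intro h
    have h2 : wsgn (a, 1) z = 1 := if_neg (by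
      show ¬ (1 : ℝ) * (z - a) < 0
      linarith)
    refine ⟨?_, h2⟩
    rw [h1, abs_of_nonneg (by linarith)]
    ring

private theorem a15_neg {a z : ℝ} :
    (a < z → wfold (a, -1) z = 2 * a - z ∧ wsgn (a, -1) z = -1) ∧
    (z ≤ a → wfold (a, -1) z = z ∧ wsgn (a, -1) z = 1) := by
  have h1 : wfold (a, -1) z = a + -1 * |z - a| := if_neg (by
    show ¬ (-1 : ℝ) = 0
    norm_num)
  constructor
  · intro h
    have h2 : wsgn (a, -1) z = -1 := if_pos (by
      show (-1 : ℝ) * (z - a) < 0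
      linarith)
    refine ⟨?_, h2⟩
    rw [h1, abs_of_pos (by linarith)]
    ring
  · intro h
    have h2 : wsgn (a, -1) z = 1 := if_neg (by
      show ¬ (-1 : ℝ) * (z - a) < 0
      linarith)
    refine ⟨?_, h2⟩
    rw [h1, abs_of_nonpos (by linarith)]
    ring

/-- Folding in an interval. Proof: if `|a - y| < ρ` then `a + w - y > ρ`, so for `|z - y| < ρ` the
right side of `h` is `a < z`, i.e. `wIn (a, 1) z`, and `fold_congr` (with `cIn W₁ y` from
`cIn_limit` or as below) shows that `W₁` folds like `(a, 1)`. If `|a + w - y| < ρ` the same with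
`(a + w, -1)`. Otherwise the right side of `h` is true for all `z` in question, and
`wIn W₁ z` gives the identity (`cIn_of_wIn`, `wfold_in`). `cIn W₁ y`: by `h` there are points `z`
arbitrarily close to `y` with `wIn W₁ z` (`0 < w`). -/
theorem wave_fold {W₁ : ℝ × ℝ} (hW : IsSgn W₁.2) {a w y ρ : ℝ} (hρ : 0 < ρ) (hw : 2 * ρ ≤ w)
    (hy : a ≤ y) (hy' : y ≤ a + w)
    (h : ∀ z, |z - y| < ρ → (wIn W₁ z ↔ a < z ∧ z < a + w)) {z : ℝ} (hz : |z - y| < ρ) :
    (z < a → wfold W₁ z = 2 * a - z ∧ wsgn W₁ z = -1) ∧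
      (a ≤ z → z ≤ a + w → wfold W₁ z = z ∧ wsgn W₁ z = 1) ∧
      (a + w < z → wfold W₁ z = 2 * (a + w) - z ∧ wsgn W₁ z = -1) := by
  have hw0 : 0 < w := by linarith
  have hcy : cIn W₁ y := by
    refine cIn_limit fun ε hε => ?_
    obtain ⟨z', h1, h2, h3⟩ := a15_near hw0 hy hy' (lt_min hε hρ)
    exact ⟨z', h1.trans_le (min_le_left _ _),
      (h z' (h1.trans_le (min_le_right _ _))).2 ⟨h2, h3⟩⟩
  have hz' := abs_lt.1 hz
  by_cases hA : y - a < ρ
  · have hk := fold_congr (u := W₁) (w := (a, 1)) (c := y) (r := ρ) hW (Or.inr (Or.inl rfl))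
      (fun z' hz1 => by
        have hz2 := abs_lt.1 hz1
        rw [h z' hz1]
        constructor
        · intro h1
          right
          show (0 : ℝ) < 1 * (z' - a)
          linarith [h1.1]
        · intro h1
          rcases h1 with h1 | h1
          · exact absurd h1 one_ne_zero
          · have h1 : (0 : ℝ) < 1 * (z' - a) := h1
            exact ⟨by linarith, by linarith⟩) hcy (Or.inr (by
        show (0 : ℝ) ≤ 1 * (y - a)
        linarith)) z hz
    rw [hk.2.1, hk.2.2]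
    refine ⟨a15_one.1, fun h1 _ => a15_one.2 h1, fun h1 => ?_⟩
    exfalso
    linarith
  · by_cases hB : a + w - y < ρ
    · have hk := fold_congr (u := W₁) (w := (a + w, -1)) (c := y) (r := ρ) hW
        (Or.inr (Or.inr rfl))
        (fun z' hz1 => by
          have hz2 := abs_lt.1 hz1
          rw [h z' hz1]
          constructor
          · intro h1
            right
            show (0 : ℝ) < -1 * (z' - (a + w))
            linarith [h1.2]
          · intro h1
            rcases h1 with h1 | h1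
            · exfalso
              have h1 : (-1 : ℝ) = 0 := h1
              norm_num at h1
            · have h1 : (0 : ℝ) < -1 * (z' - (a + w)) := h1
              exact ⟨by linarith, by linarith⟩) hcy (Or.inr (by
          show (0 : ℝ) ≤ -1 * (y - (a + w))
          linarith)) z hz
      rw [hk.2.1, hk.2.2]
      refine ⟨fun h1 => ?_, fun _ h1 => a15_neg.2 h1, fun h1 => a15_neg.1 h1⟩
      exfalso
      linarith
    · have h1 : wIn W₁ z := (h z hz).2 ⟨by linarith, by linarith⟩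
      refine ⟨fun h2 => ?_, fun _ _ => wfold_in hW (cIn_of_wIn h1), fun h2 => ?_⟩ <;>
      · exfalso
        linarith

/-- One step. Proof: let `z = y + t * v`; `|z - y| = |t * u| < ρ`; use `wave_fold`.
First alternative (`y = Y`, `v = u`): `z = Y + t * u ≤ Y ≤ a + w`. If `a ≤ z` it stays the first
alternative; if `z < a`: `y' = 2 * a - z`, `v' = -u`, and `z ≥ a - w` because `z > y - ρ ≥ a - w`.
Second alternative: `y = 2 * a - Y`, `v = -u`, `z = 2 * a - (Y + t * u) ≥ y ≥ a`. If `z ≤ a + w`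
it stays the second alternative (`a - w ≤ Y + t * u`, and `Y + t * u ≤ Y < a`); if `z > a + w`:
`y' = 2 * (a + w) - z = Y + t * u + 2 * w`, `v' = u`, third alternative.
Third alternative: `y = Y + 2 * w`, `v = u`, `z = Y + t * u + 2 * w ≥ a` by `hstop`, and
`z ≤ y ≤ a + w`: no reflection. The bounds `a ≤ y' ≤ a + w` follow in each case. -/
theorem wave_step {W₁ : ℝ × ℝ} (hW : IsSgn W₁.2) {a w Y u y v t ρ : ℝ} (hρ : 0 < ρ)
    (hw : 2 * ρ ≤ w) (hu : u < 0) (ht : 0 ≤ t) (htu : |t * u| < ρ) (hy : a ≤ y)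
    (hy' : y ≤ a + w) (hstop : a - 2 * w ≤ Y + t * u)
    (h : ∀ z, |z - y| < ρ → (wIn W₁ z ↔ a < z ∧ z < a + w)) (hwave : Wave a w Y u y v) :
    Wave a w (Y + t * u) u (wfold W₁ (y + t * v)) (wsgn W₁ (y + t * v) * v) ∧
      a ≤ wfold W₁ (y + t * v) ∧ wfold W₁ (y + t * v) ≤ a + w := by
  have htu0 : t * u ≤ 0 := mul_nonpos_of_nonneg_of_nonpos ht hu.le
  have htu' := abs_lt.1 htu
  have hz : |y + t * v - y| < ρ := by
    have h1 : y + t * v - y = t * v := by ring
    rw [h1]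
    rcases hwave with ⟨_, _, h2⟩ | ⟨_, _, _, h2⟩ | ⟨_, _, h2⟩
    · rw [h2]; exact htu
    · rw [h2, mul_neg, abs_neg]; exact htu
    · rw [h2]; exact htu
  obtain ⟨k1, k2, k3⟩ := wave_fold hW hρ hw hy hy' h hz
  rcases hwave with ⟨h1, h2, h3⟩ | ⟨h1, h2, h3, h4⟩ | ⟨h1, h2, h3⟩
  · subst h2 h3
    by_cases h4 : a ≤ y + t * v
    · obtain ⟨k4, k5⟩ := k2 h4 (by linarith)
      rw [k4, k5]
      exact ⟨Or.inl ⟨h4, rfl, one_mul v⟩, h4, by linarith⟩
    · obtain ⟨k4, k5⟩ := k1 (not_le.1 h4)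
      rw [k4, k5]
      have h5 := not_le.1 h4
      refine ⟨Or.inr (Or.inl ⟨by linarith, h5, rfl, by ring⟩), by linarith, by linarith⟩
  · have hv : t * v = -(t * u) := by rw [h4]; ring
    have hyz : y + t * v = 2 * a - (Y + t * u) := by rw [hv, h3]; ring
    by_cases h5 : y + t * v ≤ a + w
    · obtain ⟨k4, k5⟩ := k2 (by linarith) h5
      rw [k4, k5]
      refine ⟨Or.inr (Or.inl ⟨by linarith, by linarith, hyz, by rw [one_mul, h4]⟩),
        by linarith, h5⟩
    · obtain ⟨k4, k5⟩ := k3 (not_le.1 h5)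
      rw [k4, k5]
      have h6 := not_le.1 h5
      refine ⟨Or.inr (Or.inr ⟨by linarith, by linarith, by rw [h4]; ring⟩), by linarith,
        by linarith⟩
  · subst h3
    obtain ⟨k4, k5⟩ := k2 (by linarith) (by linarith)
    rw [k4, k5]
    refine ⟨Or.inr (Or.inr ⟨by linarith, by linarith, by ring⟩), by linarith, by linarith⟩

private theorem a15_conv {w : ℝ × ℝ} {z a z' : ℝ} (h1 : wIn w z) (h2 : wIn w z')
    (hza : z ≤ a) (haz : a ≤ z') : wIn w a := by
  rcases h1 with h1 | h1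
  · exact Or.inl h1
  · rcases h2 with h2 | h2
    · exact Or.inl h2
    · right
      rcases le_total 0 w.2 with h3 | h3
      · have := mul_le_mul_of_nonneg_left (sub_le_sub_right hza w.1) h3
        linarith
      · have := mul_le_mul_of_nonpos_left (sub_le_sub_right haz w.1) h3
        linarith

private theorem a15_core {W₁ : ℝ × ℝ} {S : ℝ → Prop} {a w y ρ : ℝ} (hρ : 0 < ρ)
    (hw : 2 * ρ ≤ w) (hy : a ≤ y) (hy' : y ≤ a + w)
    (h1 : ∀ z, |z - y| < ρ → (S z ↔ wIn W₁ z)) (h2 : ∀ z, a < z → z < a + w → S z)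
    (h3 : ¬ S a) (h4 : ¬ S (a + w)) :
    ∀ z, |z - y| < ρ → (wIn W₁ z ↔ a < z ∧ z < a + w) := by
  intro z hz
  have hz' := abs_lt.1 hz
  refine ⟨fun h5 => ?_, fun h5 => (h1 z hz).1 (h2 z h5.1 h5.2)⟩
  obtain ⟨z', g1, g2, g3⟩ := a15_near (by linarith : 0 < w) hy hy' hρ
  have g4 := (h1 z' g1).1 (h2 z' g2 g3)
  have g1' := abs_lt.1 g1
  by_contra h6
  rcases not_and_or.1 h6 with h7 | h7
  · have h7 := not_lt.1 h7
    have h8 : |a - y| < ρ := by
      rw [abs_lt]
      constructor <;> linarith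
    exact h3 ((h1 a h8).2 (a15_conv h5 g4 h7 g2.le))
  · have h7 := not_lt.1 h7
    have h8 : |a + w - y| < ρ := by
      rw [abs_lt]
      constructor <;> linarith
    exact h4 ((h1 (a + w) h8).2 (a15_conv g4 h5 g3.le h7))

private theorem a15_front (G : Geo D) {q : P} (hq : q ∈ frontier D) : q ∉ D := by
  intro h
  have h1 : q ∈ D ∩ frontier D := ⟨h, hq⟩
  rw [G.isOpen.inter_frontier_eq] at h1
  exact h1

/-- The local structure between two vertical sides. Proof: `(y, x₂)` is in the closure of the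
open rectangle (`closure_prod_eq`, `closure_Ioo`). `G.Far ρ`: `v.2 ∈ G.B` for `v ∈ G.V`
(`G.Vgrid`), so `dist ≥ |x₂ - v.2| ≥ ρ`. `W.near2` gives `(W.w2 _).2 = 0`. Then `W.model` at
`(y, x₂)` says for `|z - y| < ρ`: `(z, x₂) ∈ D ↔ wIn W₁ z` with `W₁ = W.w1 (y, x₂)`. For
`a < z < a + w` the point is in `D` by `hin`; for `z = a` and `z = a + w` it is in the frontier of
the open set `D`, hence not in `D`. Let `z < a`, `|z - y| < ρ`; then `|a - y| < ρ` too. As
`wIn W₁ a` is false, `W₁.2 ≠ 0`; as `wIn W₁` is true for points slightly larger than `a`, the sign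
is `W₁.2 = 1` (for `W₁.2 = -1` the set `wIn` is an interval `(-∞, W₁.1)`, which would contain
`a`), and `W₁.1 = a`; so `wIn W₁ z` is false. The same on the other side. -/
theorem rect_local1 (G : Geo D) {ρ : ℝ} (W : Walls G ρ) (hρ : 0 < ρ) {a w b₁ b₂ : ℝ}
    (hw : 2 * ρ ≤ w) (hin : Ioo a (a + w) ×ˢ Ioo b₁ b₂ ⊆ D)
    (hl : ∀ y ∈ Ioo b₁ b₂, ((a, y) : P) ∈ frontier D)
    (hr : ∀ y ∈ Ioo b₁ b₂, ((a + w, y) : P) ∈ frontier D) {y x₂ : ℝ} (hy : a ≤ y)
    (hy' : y ≤ a + w) (hx₂ : x₂ ∈ Ioo b₁ b₂) (hB : ∀ b ∈ G.B, ρ ≤ |b - x₂|) :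
    ((y, x₂) : P) ∈ closure D ∧ G.Far ρ (y, x₂) ∧ (W.w2 (y, x₂)).2 = 0 ∧
      ∀ z, |z - y| < ρ → (wIn (W.w1 (y, x₂)) z ↔ a < z ∧ z < a + w) := by
  have c1 : ((y, x₂) : P) ∈ closure D := by
    refine closure_mono hin ?_
    rw [closure_prod_eq, closure_Ioo (a := a) (b := a + w) (by intro h; linarith)]
    exact ⟨⟨hy, hy'⟩, subset_closure hx₂⟩
  have c2 : G.Far ρ (y, x₂) := by
    intro v hv
    rw [Prod.dist_eq]
    refine le_trans ?_ (le_max_right _ _)
    show ρ ≤ dist x₂ v.2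
    rw [dist_comm, Real.dist_eq]
    exact hB v.2 (G.Vgrid v hv).2
  have c3 : (W.w2 (y, x₂)).2 = 0 := by
    by_contra h0
    obtain ⟨g1, g2⟩ := W.near2 (y, x₂) h0
    exact absurd (hB _ g1) (not_le.2 g2)
  refine ⟨c1, c2, c3, ?_⟩
  refine a15_core (S := fun z => ((z, x₂) : P) ∈ D) hρ hw hy hy' ?_ ?_ ?_ ?_
  · intro z hz
    have h1 : ((z, x₂) : P) ∈ ball ((y, x₂) : P) ρ := by
      rw [mem_ball, Prod.dist_eq]
      refine max_lt ?_ ?_
      · show dist z y < ρ
        rw [Real.dist_eq]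
        exact hz
      · show dist x₂ x₂ < ρ
        rw [dist_self]
        exact hρ
    have h2 := W.model (y, x₂) c1 c2 (z, x₂) h1
    show ((z, x₂) : P) ∈ D ↔ _
    rw [h2]
    exact ⟨fun h => h.1, fun h => ⟨h, Or.inl c3⟩⟩
  · intro z h1 h2
    exact hin ⟨⟨h1, h2⟩, hx₂⟩
  · exact a15_front G (hl x₂ hx₂)
  · exact a15_front G (hr x₂ hx₂)

/-- The same between two horizontal sides. Proof: as for `rect_local1` with the coordinates
exchanged. -/
theorem rect_local2 (G : Geo D) {ρ : ℝ} (W : Walls G ρ) (hρ : 0 < ρ) {b w a₁ a₂ : ℝ}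
    (hw : 2 * ρ ≤ w) (hin : Ioo a₁ a₂ ×ˢ Ioo b (b + w) ⊆ D)
    (hl : ∀ y ∈ Ioo a₁ a₂, ((y, b) : P) ∈ frontier D)
    (hr : ∀ y ∈ Ioo a₁ a₂, ((y, b + w) : P) ∈ frontier D) {y x₁ : ℝ} (hy : b ≤ y)
    (hy' : y ≤ b + w) (hx₁ : x₁ ∈ Ioo a₁ a₂) (hA : ∀ a ∈ G.A, ρ ≤ |a - x₁|) :
    ((x₁, y) : P) ∈ closure D ∧ G.Far ρ (x₁, y) ∧ (W.w1 (x₁, y)).2 = 0 ∧
      ∀ z, |z - y| < ρ → (wIn (W.w2 (x₁, y)) z ↔ b < z ∧ z < b + w) := by
  have c1 : ((x₁, y) : P) ∈ closure D := by
    refine closure_mono hin ?_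
    rw [closure_prod_eq, closure_Ioo (a := b) (b := b + w) (by intro h; linarith)]
    exact ⟨subset_closure hx₁, ⟨hy, hy'⟩⟩
  have c2 : G.Far ρ (x₁, y) := by
    intro v hv
    rw [Prod.dist_eq]
    refine le_trans ?_ (le_max_left _ _)
    show ρ ≤ dist x₁ v.1
    rw [dist_comm, Real.dist_eq]
    exact hA v.1 (G.Vgrid v hv).1
  have c3 : (W.w1 (x₁, y)).2 = 0 := by
    by_contra h0
    obtain ⟨g1, g2⟩ := W.near1 (x₁, y) h0
    exact absurd (hA _ g1) (not_le.2 g2)
  refine ⟨c1, c2, c3, ?_⟩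
  refine a15_core (S := fun z => ((x₁, z) : P) ∈ D) hρ hw hy hy' ?_ ?_ ?_ ?_
  · intro z hz
    have h1 : ((x₁, z) : P) ∈ ball ((x₁, y) : P) ρ := by
      rw [mem_ball, Prod.dist_eq]
      refine max_lt ?_ ?_
      · show dist x₁ x₁ < ρ
        rw [dist_self]
        exact hρ
      · show dist z y < ρ
        rw [Real.dist_eq]
        exact hz
    have h2 := W.model (x₁, y) c1 c2 (x₁, z) h1
    show ((x₁, z) : P) ∈ D ↔ _
    rw [h2]
    exact ⟨fun h => h.2, fun h => ⟨Or.inl c3, h⟩⟩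
  · intro z h1 h2
    exact hin ⟨hx₁, ⟨h1, h2⟩⟩
  · exact a15_front G (hl x₁ hx₁)
  · exact a15_front G (hr x₁ hx₁)

end BlA

end

end Pool.Agent.MP4eed4eR
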