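import Pool.Agent.Lib.MP_4eed4e_an_R.A13
import Pool.Agent.Lib.MP_4eed4e_an_R.A15

/-!
MP_4eed4e_an, project R, module A16: closed orbits between two parallel sides.
-/

namespace Pool.Agent.MP4eed4eR

open MeasureTheory Set Filter Topology Metric

noncomputable section

namespace BlA

variable {D : Set P}

/-- The state of the orbit at the time `s`. -/
private def a16St (a w : ℝ) (x ξ : P) (s : ℝ) (z : P × P) : Prop :=
  z.1.2 = x.2 + s * ξ.2 ∧ z.2.2 = ξ.2 ∧ a ≤ z.1.1 ∧ z.1.1 ≤ a + w ∧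
    Wave a w (x.1 + s * ξ.1) ξ.1 z.1.1 z.2.1

private theorem a16_step (G : Geo D) {ρ : ℝ} (W : Walls G ρ) (hρ : 0 < ρ) {a w b₁ b₂ : ℝ}
    (hw : 2 * ρ ≤ w) (hin : Ioo a (a + w) ×ˢ Ioo b₁ b₂ ⊆ D)
    (hl : ∀ y ∈ Ioo b₁ b₂, ((a, y) : P) ∈ frontier D)
    (hr : ∀ y ∈ Ioo b₁ b₂, ((a + w, y) : P) ∈ frontier D) {x ξ : P} {s t : ℝ} {z : P × P}
    (hu : ξ.1 < 0) (ht : 0 ≤ t) (htu : |t * ξ.1| < ρ)
    (h2 : x.2 + s * ξ.2 ∈ Ioo b₁ b₂) (hB : ∀ b ∈ G.B, ρ ≤ |b - (x.2 + s * ξ.2)|)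
    (hstop : a - 2 * w ≤ x.1 + s * ξ.1 + t * ξ.1) (h : a16St a w x ξ s z) :
    a16St a w x ξ (s + t) (stp W t z) := by
  obtain ⟨⟨y, y₂⟩, ⟨v, v₂⟩⟩ := z
  obtain ⟨h3, h4, h5, h6, h7⟩ := h
  simp only at h3 h4 h5 h6 h7
  subst h3 h4
  obtain ⟨-, -, l3, l4⟩ := rect_local1 G W hρ hw hin hl hr h5 h6 h2 hB
  obtain ⟨w1, w2, w3⟩ := wave_step (W.sgn1 (y, x.2 + s * ξ.2)) hρ hw hu ht htu h5 h6 hstop l4 h7
  have e1 : wfold (W.w2 (y, x.2 + s * ξ.2)) (x.2 + s * ξ.2 + t * ξ.2) =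
      x.2 + (s + t) * ξ.2 := by
    unfold wfold
    rw [if_pos l3]
    ring
  have e2 : wsgn (W.w2 (y, x.2 + s * ξ.2)) (x.2 + s * ξ.2 + t * ξ.2) = 1 := by
    unfold wsgn
    rw [l3, zero_mul, if_neg (lt_irrefl _)]
  have e3 : x.1 + (s + t) * ξ.1 = x.1 + s * ξ.1 + t * ξ.1 := by ring
  refine ⟨?_, ?_, ?_, ?_, ?_⟩
  · exact e1
  · change wsgn (W.w2 (y, x.2 + s * ξ.2)) (x.2 + s * ξ.2 + t * ξ.2) * ξ.2 = ξ.2
    rw [e2, one_mul]
  · exact w2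
  · exact w3
  · rw [e3]
    exact w1

/-- The rectangles between two vertical sides are swept by closed horizontal orbits.

Proof. Let `δ` be small: `scales` with `l = 2 * w`, `ρ₀ = G.rho0` (`16 * rho2 δ ≤ 2 * w`,
`16 * ((2 * w + 1) * thp δ) ≤ rho2 δ`, ...). Put `ρ = th δ / 4`, `τ = tau δ`, `T = 2 * w + kap δ`.
Let `s ∈ [0, T]`. Second coordinate: `x₂(s) = x.2 + s * ξ.2` differs from `x.2` by at most
`T * thp δ ≤ rho2 δ / 8`, so it is in `Ioo b₁ b₂` and has distance `≥ rho2 δ / 2 ≥ ρ` from `G.B`.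
First coordinate: `Y(s) = x.1 + s * ξ.1`, `-1 - thp δ ≤ ξ.1 ≤ -1 + thp δ < 0`, so
`Y(s) ≥ x.1 - T * (1 + thp δ) ≥ a - 2 * w`.
Claim, by induction on `k` with `k * τ ≤ T`: `(stp W τ)^[k] (x, ξ) = ((y, x₂(k * τ)), (v, ξ.2))`
with `Wave a w (Y(k * τ)) ξ.1 y v` and `a ≤ y ≤ a + w`. `k = 0`: first alternative. Step:
`rect_local1` at `(y, x₂(k * τ))`, `wave_step` with `t = τ` (`|τ * ξ.1| ≤ 2 * τ < ρ`) for the
first coordinate; for the second coordinate the wall is trivial: `wfold` is the identity and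
`wsgn = 1`. The same argument with `t - ⌊t / τ⌋₊ * τ ∈ [0, τ)` instead of `τ` gives
`flow W τ t (x, ξ) = ((y, x.2 + t * ξ.2), (v, ξ.2))` with `Wave a w (Y(t)) ξ.1 y v` for
`0 ≤ t ≤ T`. For `|t - 2 * w| ≤ kap δ`: `Y(t) ≤ x.1 - (2 * w - kap δ) * (1 - thp δ)
≤ a + w - rho2 δ - 2 * w + kap δ + 2 * w * thp δ < a - w`, so only the third alternative is
possible: `y = Y(t) + 2 * w`, `v = ξ.1`. -/
theorem rect_path1 (G : Geo D) {a w b₁ b₂ : ℝ} (hw : 0 < w) (hb : b₁ < b₂)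
    (hin : Ioo a (a + w) ×ˢ Ioo b₁ b₂ ⊆ D)
    (hl : ∀ y ∈ Ioo b₁ b₂, ((a, y) : P) ∈ frontier D)
    (hr : ∀ y ∈ Ioo b₁ b₂, ((a + w, y) : P) ∈ frontier D) :
    ∀ᶠ δ in 𝓝[>] (0 : ℝ), ∀ W : Walls G (th δ / 4), ∀ x : P,
      a + rho2 δ ≤ x.1 → x.1 ≤ a + w - rho2 δ → b₁ + rho2 δ ≤ x.2 → x.2 ≤ b₂ - rho2 δ →
      (∀ b ∈ G.B, rho2 δ ≤ |x.2 - b|) → ∀ ξ : P, |ξ.1 + 1| ≤ thp δ → |ξ.2| ≤ thp δ →
      ∀ t, |t - 2 * w| ≤ kap δ → flow W (tau δ) t (x, ξ) = (x + t • ξ + (2 * w, 0), ξ) := by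
  filter_upwards [scales (l := 2 * w) (C := 0) (by positivity) G.pos] with δ hs W x hx1 hx2 hx3 hx4
    hB ξ hξ1 hξ2 t ht
  obtain ⟨s1, s2, s3, s4, s5, s6, s7, s8, s9, s10, s11, s12, s13, s14, s15, s16, s17, s18, -⟩ := hs
  have hρ : 0 < th δ / 4 := by positivity
  have hw2 : 2 * (th δ / 4) ≤ w := by linarith
  rw [abs_le] at hξ1 hξ2 ht
  have hu : ξ.1 < 0 := by linarith
  have hT1 : (2 * w + kap δ) * thp δ ≤ rho2 δ / 16 := by
    have : (2 * w + kap δ) * thp δ ≤ (2 * w + 1) * thp δ :=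
      mul_le_mul_of_nonneg_right (by linarith) s13.le
    linarith
  have h2 : ∀ s, 0 ≤ s → s ≤ 2 * w + kap δ → |s * ξ.2| ≤ rho2 δ / 16 := by
    intro s h0 hT
    rw [abs_mul, abs_of_nonneg h0]
    exact (mul_le_mul hT (abs_le.2 hξ2) (abs_nonneg _) (by positivity)).trans hT1
  have hI : ∀ s, 0 ≤ s → s ≤ 2 * w + kap δ → x.2 + s * ξ.2 ∈ Ioo b₁ b₂ := by
    intro s h0 hT
    have h3 := abs_le.1 (h2 s h0 hT)
    constructor <;> linarith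
  have hBB : ∀ s, 0 ≤ s → s ≤ 2 * w + kap δ → ∀ b ∈ G.B, th δ / 4 ≤ |b - (x.2 + s * ξ.2)| := by
    intro s h0 hT b hb
    have h3 := h2 s h0 hT
    have h4 := hB b hb
    have h5 : |x.2 - b| ≤ |b - (x.2 + s * ξ.2)| + |s * ξ.2| := by
      have e : x.2 - b = -(b - (x.2 + s * ξ.2)) - s * ξ.2 := by ring
      rw [e]
      refine (abs_sub _ _).trans ?_
      rw [abs_neg]
    linarith
  have hY : ∀ s, 0 ≤ s → s ≤ 2 * w + kap δ → a - 2 * w ≤ x.1 + s * ξ.1 := by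
    intro s h0 hT
    have h3 : -(s * (1 + thp δ)) ≤ s * ξ.1 := by nlinarith
    have h4 : s * (1 + thp δ) ≤ (2 * w + kap δ) * (1 + thp δ) :=
      mul_le_mul_of_nonneg_right hT (by linarith)
    have h5 : (2 * w + kap δ) * (1 + thp δ) = 2 * w + kap δ + (2 * w + kap δ) * thp δ := by ring
    linarith
  have hstep : ∀ s r : ℝ, 0 ≤ s → 0 ≤ r → r ≤ tau δ → s + r ≤ 2 * w + kap δ → ∀ z : P × P,
      a16St a w x ξ s z → a16St a w x ξ (s + r) (stp W r z) := by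
    intro s r h0 hr0 hrτ hT z hz
    refine a16_step G W hρ hw2 hin hl hr hu hr0 ?_ (hI s h0 (by linarith))
      (hBB s h0 (by linarith)) ?_ hz
    · rw [abs_mul, abs_of_nonneg hr0, abs_of_neg hu]
      have h3 : r * -ξ.1 ≤ tau δ * 2 :=
        mul_le_mul hrτ (by linarith) (by linarith) s3.le
      linarith
    · have h3 := hY (s + r) (by linarith) hT
      linarith
  have hiter : ∀ k : ℕ, (k : ℝ) * tau δ ≤ 2 * w + kap δ →
      a16St a w x ξ ((k : ℝ) * tau δ) ((stp W (tau δ))^[k] (x, ξ)) := by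
    intro k
    induction k with
    | zero =>
      intro _
      rw [Nat.cast_zero, zero_mul]
      refine ⟨?_, rfl, ?_, ?_, Or.inl ⟨?_, ?_, rfl⟩⟩
      · simp
      · change a ≤ x.1
        linarith
      · change x.1 ≤ a + w
        linarith
      · linarith
      · simp
    | succ k ih =>
      intro hk
      rw [Nat.cast_succ, add_mul, one_mul] at hk ⊢
      rw [Function.iterate_succ_apply']
      exact hstep _ _ (by positivity) s3.le le_rfl hk _ (ih (by linarith))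
  have ht0 : 0 ≤ t := by linarith
  have hfl : ((⌊t / tau δ⌋₊ : ℕ) : ℝ) * tau δ ≤ t := by
    have h3 := Nat.floor_le (div_nonneg ht0 s3.le)
    rwa [le_div_iff₀ s3] at h3
  have hfl2 : t - ((⌊t / tau δ⌋₊ : ℕ) : ℝ) * tau δ ≤ tau δ := by
    have h3 := (Nat.lt_floor_add_one (t / tau δ)).le
    rw [div_le_iff₀ s3] at h3
    linarith
  have hflow : a16St a w x ξ t (flow W (tau δ) t (x, ξ)) := by
    have h3 := hstep (((⌊t / tau δ⌋₊ : ℕ) : ℝ) * tau δ) (t - ((⌊t / tau δ⌋₊ : ℕ) : ℝ) * tau δ)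
      (by positivity) (by linarith) hfl2 (by linarith) _ (hiter ⌊t / tau δ⌋₊ (by linarith))
    rw [add_sub_cancel] at h3
    exact h3
  obtain ⟨f1, f2, f3, f4, f5⟩ := hflow
  have hlt : x.1 + t * ξ.1 < a - w := by
    have h3 : t * ξ.1 ≤ (2 * w - kap δ) * (-1 + thp δ) := by
      have h4 : t * ξ.1 ≤ t * (-1 + thp δ) := mul_le_mul_of_nonneg_left (by linarith) ht0
      have h5 : t * (-1 + thp δ) ≤ (2 * w - kap δ) * (-1 + thp δ) :=
        mul_le_mul_of_nonpos_right (by linarith) (by linarith)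
      linarith
    have h6 : (2 * w - kap δ) * (-1 + thp δ) = -(2 * w) + kap δ + (2 * w - kap δ) * thp δ := by
      ring
    have h7 : (2 * w - kap δ) * thp δ ≤ (2 * w + kap δ) * thp δ :=
      mul_le_mul_of_nonneg_right (by linarith) s13.le
    linarith
  have f6 : (flow W (tau δ) t (x, ξ)).1.1 = x.1 + t * ξ.1 + 2 * w ∧
      (flow W (tau δ) t (x, ξ)).2.1 = ξ.1 := by
    rcases f5 with ⟨g1, -⟩ | ⟨g1, -⟩ | ⟨-, g2, g3⟩
    · linarith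
    · linarith
    · exact ⟨g2, g3⟩
  refine Prod.ext (Prod.ext ?_ ?_) (Prod.ext f6.2 f2)
  · rw [f6.1]
    simp
  · rw [f1]
    simp

end BlA

end

end Pool.Agent.MP4eed4eR
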