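import Pool.Agent.Lib.MP_4eed4e_an_R.A13
import Pool.Agent.Lib.MP_4eed4e_an_R.A15

/-!
MP_4eed4e_an, project R, module A17: closed orbits between two horizontal sides.
-/

namespace Pool.Agent.MP4eed4eR

open MeasureTheory Set Filter Topology Metric

noncomputable section

namespace BlA

variable {D : Set P}

/-- the state of the particle at the time `s` -/
private def A17St (b w : ℝ) (x ξ : P) (s : ℝ) (z : P × P) : Prop :=
  z.1.1 = x.1 + s * ξ.1 ∧ z.2.1 = ξ.1 ∧ Wave b w (x.2 + s * ξ.2) ξ.2 z.1.2 z.2.2 ∧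
    b ≤ z.1.2 ∧ z.1.2 ≤ b + w

/-- one step -/
private theorem a17_step (G : Geo D) {ρ : ℝ} (W : Walls G ρ) (hρ : 0 < ρ) {b w a₁ a₂ : ℝ}
    (hw : 2 * ρ ≤ w) (hin : Ioo a₁ a₂ ×ˢ Ioo b (b + w) ⊆ D)
    (hl : ∀ y ∈ Ioo a₁ a₂, ((y, b) : P) ∈ frontier D)
    (hr : ∀ y ∈ Ioo a₁ a₂, ((y, b + w) : P) ∈ frontier D) {x ξ : P} (hu : ξ.2 < 0) {s t : ℝ}
    (ht : 0 ≤ t) (htu : |t * ξ.2| < ρ) (hx₁ : x.1 + s * ξ.1 ∈ Ioo a₁ a₂)
    (hA : ∀ a ∈ G.A, ρ ≤ |a - (x.1 + s * ξ.1)|) (hstop : b - 2 * w ≤ x.2 + s * ξ.2 + t * ξ.2)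
    {z : P × P} (hz : A17St b w x ξ s z) : A17St b w x ξ (s + t) (stp W t z) := by
  obtain ⟨h1, h2, h3, h4, h5⟩ := hz
  have hz1 : z.1 = (x.1 + s * ξ.1, z.1.2) := Prod.ext h1 rfl
  obtain ⟨-, -, hw1, hag⟩ := rect_local2 G W hρ hw hin hl hr h4 h5 hx₁ hA
  rw [← hz1] at hw1 hag
  obtain ⟨k1, k2, k3⟩ := wave_step (W.sgn2 z.1) hρ hw hu ht htu h4 h5 hstop hag h3
  refine ⟨?_, ?_, ?_, k2, k3⟩
  · show wfold (W.w1 z.1) (z.1.1 + t * z.2.1) = x.1 + (s + t) * ξ.1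
    rw [wfold, if_pos hw1, h1, h2]
    ring
  · show wsgn (W.w1 z.1) (z.1.1 + t * z.2.1) * z.2.1 = ξ.1
    rw [wsgn, hw1, zero_mul, if_neg (lt_irrefl _), one_mul, h2]
  · have e : x.2 + (s + t) * ξ.2 = x.2 + s * ξ.2 + t * ξ.2 := by ring
    rw [e]
    exact k1

/-- The same for rectangles between two horizontal sides. Proof: that of `rect_path1` (module
A16, see there; it may be finished by the time you start, then copy it) with the coordinates
exchanged: `rect_local2` instead of `rect_local1`. -/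
theorem rect_path2 (G : Geo D) {b w a₁ a₂ : ℝ} (hw : 0 < w) (ha : a₁ < a₂)
    (hin : Ioo a₁ a₂ ×ˢ Ioo b (b + w) ⊆ D)
    (hl : ∀ y ∈ Ioo a₁ a₂, ((y, b) : P) ∈ frontier D)
    (hr : ∀ y ∈ Ioo a₁ a₂, ((y, b + w) : P) ∈ frontier D) :
    ∀ᶠ δ in 𝓝[>] (0 : ℝ), ∀ W : Walls G (th δ / 4), ∀ x : P,
      b + rho2 δ ≤ x.2 → x.2 ≤ b + w - rho2 δ → a₁ + rho2 δ ≤ x.1 → x.1 ≤ a₂ - rho2 δ →
      (∀ a ∈ G.A, rho2 δ ≤ |x.1 - a|) → ∀ ξ : P, |ξ.2 + 1| ≤ thp δ → |ξ.1| ≤ thp δ →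
      ∀ t, |t - 2 * w| ≤ kap δ → flow W (tau δ) t (x, ξ) = (x + t • ξ + (0, 2 * w), ξ) := by
  filter_upwards [scales (l := 2 * w) (C := 0) (by positivity) G.pos] with δ hs
  obtain ⟨-, -, hτ, hτ1, hκ, hκτ, hκl, hκ4, hth, hτth, hthr, hlr, hthp, hthp4, hr0, -, hrl, -,
    -⟩ := hs
  intro W x hx1 hx2 hx3 hx4 hxA ξ hξ2 hξ1 t ht
  have hu := abs_le.1 hξ2
  have hv := abs_le.1 hξ1
  have ht' := abs_le.1 ht
  have hu0 : ξ.2 < 0 := by linarith [hu.2]
  -- small quantities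
  have hwthp : 0 ≤ w * thp δ := by positivity
  have hlr' : 32 * (w * thp δ) + 16 * thp δ ≤ rho2 δ := by linarith
  have hκthp : kap δ * thp δ ≤ 1 / 4 * kap δ := by
    rw [mul_comm]
    exact mul_le_mul_of_nonneg_right hthp4 hκ.le
  have hκthp' : 0 ≤ kap δ * thp δ := by positivity
  -- the drift of the first coordinate
  have hdrift : ∀ s, 0 ≤ s → s ≤ 2 * w + kap δ → |s * ξ.1| ≤ rho2 δ / 8 := by
    intro s hs0 hs1
    rw [abs_mul, abs_of_nonneg hs0]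
    calc s * |ξ.1| ≤ (2 * w + kap δ) * thp δ :=
          mul_le_mul hs1 hξ1 (abs_nonneg _) (by positivity)
      _ = 2 * (w * thp δ) + kap δ * thp δ := by ring
      _ ≤ rho2 δ / 8 := by linarith
  have hmem : ∀ s, 0 ≤ s → s ≤ 2 * w + kap δ → x.1 + s * ξ.1 ∈ Ioo a₁ a₂ := by
    intro s hs0 hs1
    have h := abs_le.1 (hdrift s hs0 hs1)
    constructor <;> linarith [h.1, h.2]
  have hAfar : ∀ s, 0 ≤ s → s ≤ 2 * w + kap δ → ∀ a ∈ G.A,
      th δ / 4 ≤ |a - (x.1 + s * ξ.1)| := by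
    intro s hs0 hs1 a ha'
    have h := hdrift s hs0 hs1
    have h2 := hxA a ha'
    have h3 : |x.1 - a| ≤ |a - (x.1 + s * ξ.1)| + |s * ξ.1| := by
      have e : x.1 - a = -(a - (x.1 + s * ξ.1)) + -(s * ξ.1) := by ring
      rw [e]
      refine (abs_add_le _ _).trans ?_
      rw [abs_neg, abs_neg]
    linarith
  have hstop : ∀ s, 0 ≤ s → s ≤ 2 * w + kap δ → b - 2 * w ≤ x.2 + s * ξ.2 := by
    intro s hs0 hs1
    have h1 : -(s * ξ.2) ≤ (2 * w + kap δ) * (1 + thp δ) := by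
      rw [← mul_neg]
      exact mul_le_mul hs1 (by linarith [hu.1]) (by linarith) (by positivity)
    have e : (2 * w + kap δ) * (1 + thp δ) = 2 * w + kap δ + 2 * (w * thp δ) + kap δ * thp δ := by
      ring
    rw [e] at h1
    linarith
  have hstep : ∀ s r, 0 ≤ s → 0 ≤ r → r ≤ tau δ → s + r ≤ 2 * w + kap δ → ∀ z : P × P,
      A17St b w x ξ s z → A17St b w x ξ (s + r) (stp W r z) := by
    intro s r hs0 hr0' hr1 hsr z hz
    refine a17_step G W (by positivity) (by linarith) hin hl hr hu0 hr0' ?_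
      (hmem s hs0 (by linarith)) (hAfar s hs0 (by linarith)) ?_ hz
    · rw [abs_mul, abs_of_nonneg hr0', abs_of_neg hu0]
      calc r * -ξ.2 ≤ tau δ * 2 := mul_le_mul hr1 (by linarith [hu.1]) (by linarith) hτ.le
        _ < th δ / 4 := by linarith
    · have h := hstop (s + r) (by linarith) hsr
      linarith
  -- the orbit
  have hk : ∀ k : ℕ, (k : ℝ) * tau δ ≤ 2 * w + kap δ →
      A17St b w x ξ ((k : ℝ) * tau δ) ((stp W (tau δ))^[k] (x, ξ)) := by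
    intro k
    induction k with
    | zero =>
      intro _
      rw [Nat.cast_zero, zero_mul]
      refine ⟨by simp, rfl, Or.inl ⟨?_, ?_, rfl⟩, ?_, ?_⟩
      · rw [zero_mul, add_zero]
        linarith
      · rw [zero_mul, add_zero]
        rfl
      · show b ≤ x.2
        linarith
      · show x.2 ≤ b + w
        linarith
    | succ k ih =>
      intro h
      have e1 : ((k + 1 : ℕ) : ℝ) * tau δ = (k : ℝ) * tau δ + tau δ := by
        push_cast
        ring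
      rw [e1] at h ⊢
      rw [Function.iterate_succ_apply']
      exact hstep _ _ (by positivity) hτ.le le_rfl h _ (ih (by linarith))
  have ht0 : 0 ≤ t := by linarith
  have htT : t ≤ 2 * w + kap δ := by linarith
  have hf1 : (⌊t / tau δ⌋₊ : ℝ) * tau δ ≤ t := by
    rw [← le_div_iff₀ hτ]
    exact Nat.floor_le (by positivity)
  have hf2 : t < ((⌊t / tau δ⌋₊ : ℝ) + 1) * tau δ := by
    rw [← div_lt_iff₀ hτ]
    exact Nat.lt_floor_add_one _
  have hfin := hstep ((⌊t / tau δ⌋₊ : ℝ) * tau δ) (t - (⌊t / tau δ⌋₊ : ℝ) * tau δ)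
    (by positivity) (by linarith) (by linarith) (by linarith) _ (hk _ (by linarith))
  rw [add_sub_cancel] at hfin
  have hflow : flow W (tau δ) t (x, ξ) = stp W (t - (⌊t / tau δ⌋₊ : ℝ) * tau δ)
    ((stp W (tau δ))^[⌊t / tau δ⌋₊] (x, ξ)) := rfl
  rw [← hflow] at hfin
  obtain ⟨h1, h2, h3, -, -⟩ := hfin
  have hY : x.2 + t * ξ.2 < b - w := by
    have h4 : (2 * w - kap δ) * (1 - thp δ) ≤ -(t * ξ.2) := by
      rw [← mul_neg]
      exact mul_le_mul (by linarith) (by linarith [hu.2]) (by linarith) ht0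
    have e : (2 * w - kap δ) * (1 - thp δ) = 2 * w - kap δ - 2 * (w * thp δ) + kap δ * thp δ := by
      ring
    rw [e] at h4
    linarith
  rcases h3 with h3 | h3 | h3
  · exact absurd h3.1 (by linarith)
  · exact absurd h3.1 (by linarith)
  · refine Prod.ext (Prod.ext ?_ ?_) (Prod.ext ?_ ?_)
    · rw [h1]
      simp
    · rw [h3.2.1]
      simp
    · exact h2
    · exact h3.2.2

end BlA

end

end Pool.Agent.MP4eed4eR
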