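import Pool.Agent.Lib.MP_4eed4e_an_R.Base

/-!
MP_4eed4e_an, project R, block A: auxiliary definitions (geometry and billiard).
-/

namespace Pool.Agent.MP4eed4eR

open MeasureTheory Set Filter Topology Metric

noncomputable section

namespace BlA

/-- `s` is a sign `1` or `-1`. -/
def IsS (s : ℝ) : Prop := s = 1 ∨ s = -1

/-- A set is regular if it contains every point `q` such that all points near `q` off the
horizontal and the vertical line through `q` belong to the set. -/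
def Reg (M : Set P) : Prop :=
  ∀ q : P, (∃ r > 0, ∀ q' ∈ ball q r, q'.1 ≠ q.1 → q'.2 ≠ q.2 → q' ∈ M) → q ∈ M

/-- The closed side of a wall. -/
def cIn (w : ℝ × ℝ) (y : ℝ) : Prop := w.2 = 0 ∨ 0 ≤ w.2 * (y - w.1)

/-- History of one coordinate of the billiard: `γ = (g, c)` is the affine map after `n`
reflections at the time `s`, starting with the position `y₀` and the velocity `v₀`; the current
position is `y = g (y₀ + s v₀) + c` and the current velocity is `g v₀`. If `n ≠ 0` then `a` is the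
last wall, the particle moves away from it, and `e = c` for `g = 1`, `e = 2 a - c` for `g = -1`. -/
def Tr1 (A : Finset ℝ) (r s y₀ v₀ : ℝ) (n : ℕ) (γ : ℝ × ℝ) : Prop :=
  γ ∈ Rf A n ∧ ((n = 0 ∧ γ = (1, 0)) ∨
    (1 ≤ n ∧ (γ.1 = 1 ∨ γ.1 = -1) ∧ ∃ a ∈ A, ∃ e : ℝ,
      (γ.1 = 1 → e = γ.2) ∧ (γ.1 = -1 → e = 2 * a - γ.2) ∧
      v₀ * e ≤ 0 ∧ (e = 0 ∨ 32 * r ≤ |e|) ∧
      0 < (γ.1 * (y₀ + s * v₀) + γ.2 - a) * (γ.1 * v₀) ∧
      ((n : ℝ) - 1) * (16 * r) + |γ.1 * (y₀ + s * v₀) + γ.2 - a| ≤ s * |v₀|))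

/-- The perturbed coordinate `(y, v)` agrees with `(p, u)` up to the reflection in the wall `B`. -/
def Near1 (B : ℝ × ℝ) (p u y v : ℝ) : Prop :=
  (y = p ∧ v = u ∧ cIn B p) ∨ (B.2 ≠ 0 ∧ y = 2 * B.1 - p ∧ v = -u ∧ cIn B (2 * B.1 - p))

/-- `B₁`, `B₂` are walls of the local model of `D` at `x` at scale `ρ`. -/
def IsModel {D : Set P} (G : Geo D) (ρ : ℝ) (x : P) (B₁ B₂ : ℝ × ℝ) : Prop :=
  IsSgn B₁.2 ∧ IsSgn B₂.2 ∧
    (B₁.2 ≠ 0 → B₁.1 ∈ G.A ∧ |B₁.1 - x.1| < ρ) ∧ (B₂.2 ≠ 0 → B₂.1 ∈ G.B ∧ |B₂.1 - x.2| < ρ) ∧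
    ∀ q ∈ ball x ρ, (q ∈ D ↔ wIn B₁ q.1 ∧ wIn B₂ q.2)

end BlA

end

end Pool.Agent.MP4eed4eR
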