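import Pool.Agent.Lib.MP_4eed4e_an_R.Base

/-!
MP_4eed4e_an, project R, block B, module B01: functions of the form domain and classes.
-/

namespace Pool.Agent.MP4eed4eR

open MeasureTheory Set Filter Topology Metric
open scoped ComplexConjugate ContDiff ENNReal

noncomputable section

variable {D : Set P}

/-- A test function with its partial derivatives: smooth, compactly supported, square integrable,
zero off `D`. -/
theorem B.test_facts {φ : P → ℝ} (h : Test D φ) :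
    (ContDiff ℝ ∞ (d1 φ) ∧ ContDiff ℝ ∞ (d2 φ)) ∧
    (HasCompactSupport (d1 φ) ∧ HasCompactSupport (d2 φ)) ∧
    (MemLp φ 2 volume ∧ MemLp (d1 φ) 2 volume ∧ MemLp (d2 φ) 2 volume) ∧
    ∀ q, q ∉ D → φ q = 0 ∧ d1 φ q = 0 ∧ d2 φ q = 0 := by
  have h1 : ContDiff ℝ ∞ (fderiv ℝ φ) := h.smooth.fderiv_right (by simp)
  have s1 : ContDiff ℝ ∞ (d1 φ) := h1.clm_apply contDiff_const
  have s2 : ContDiff ℝ ∞ (d2 φ) := h1.clm_apply contDiff_const
  have c0 := h.compact.fderiv ℝ
  have c1 : HasCompactSupport (d1 φ) :=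
    c0.comp_left (g := fun L : P →L[ℝ] ℝ => L ((1, 0) : P)) rfl
  have c2 : HasCompactSupport (d2 φ) :=
    c0.comp_left (g := fun L : P →L[ℝ] ℝ => L ((0, 1) : P)) rfl
  refine ⟨⟨s1, s2⟩, ⟨c1, c2⟩, ⟨h.smooth.continuous.memLp_of_hasCompactSupport h.compact,
    s1.continuous.memLp_of_hasCompactSupport c1, s2.continuous.memLp_of_hasCompactSupport c2⟩,
    fun q hq => ?_⟩
  have hq' : q ∉ tsupport φ := fun hh => hq (h.supp hh)
  have h2 : fderiv ℝ φ q = 0 := fderiv_of_notMem_tsupport ℝ hq'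
  refine ⟨image_eq_zero_of_notMem_tsupport hq', ?_, ?_⟩
  · rw [d1, h2]
    rfl
  · rw [d2, h2]
    rfl

private theorem B01_inner {f g : P → ℝ} (hf : MemLp f 2 volume) (hg : MemLp g 2 volume) :
    inner ℝ (hf.toLp f) (hg.toLp g) = ∫ q, f q * g q := by
  rw [L2.inner_def]
  refine integral_congr_ae ?_
  filter_upwards [hf.coeFn_toLp, hg.coeFn_toLp] with q h1 h2
  rw [h1, h2]
  exact mul_comm _ _

private theorem B01_tendsto {φ : ℕ → P → ℝ} {u : P → ℝ} (hφ : ∀ n, MemLp (φ n) 2 volume)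
    (hu : MemLp u 2 volume) (h : Tendsto (fun n => ∫ q, (φ n q - u q) ^ 2) atTop (𝓝 0)) :
    Tendsto (fun n => (hφ n).toLp (φ n)) atTop (𝓝 (hu.toLp u)) := by
  rw [tendsto_iff_norm_sub_tendsto_zero]
  have h1 : ∀ n, ‖(hφ n).toLp (φ n) - hu.toLp u‖ = Real.sqrt (∫ q, (φ n q - u q) ^ 2) := by
    intro n
    have h2 : ‖(hφ n).toLp (φ n) - hu.toLp u‖ ^ 2 = ∫ q, (φ n q - u q) ^ 2 := by
      rw [← real_inner_self_eq_norm_sq, ← MemLp.toLp_sub, B01_inner]
      refine integral_congr_ae (ae_of_all _ fun q => ?_)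
      simp only [Pi.sub_apply]
      ring
    rw [← h2, Real.sqrt_sq (norm_nonneg _)]
  simp only [h1]
  have h3 := (Real.continuous_sqrt.tendsto 0).comp h
  rw [Real.sqrt_zero] at h3
  exact h3

/-- The continuity of the scalar product in `L²`. -/
theorem B.l2_lim {φ : ℕ → P → ℝ} {u g : P → ℝ} (hφ : ∀ n, MemLp (φ n) 2 volume)
    (hu : MemLp u 2 volume) (hg : MemLp g 2 volume)
    (h : Tendsto (fun n => ∫ q, (φ n q - u q) ^ 2) atTop (𝓝 0)) :
    Tendsto (fun n => ∫ q, φ n q * g q) atTop (𝓝 (∫ q, u q * g q)) := by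
  have h1 := (B01_tendsto hφ hu h).inner (tendsto_const_nhds (x := hg.toLp g)) (𝕜 := ℝ)
  simp only [B01_inner] at h1
  exact h1

/-- The continuity of products in `L¹`. -/
theorem B.l2_lim2 {a b : ℕ → P → ℝ} {a' b' : P → ℝ} (ha : ∀ n, MemLp (a n) 2 volume)
    (hb : ∀ n, MemLp (b n) 2 volume) (ha' : MemLp a' 2 volume) (hb' : MemLp b' 2 volume)
    (h1 : Tendsto (fun n => ∫ q, (a n q - a' q) ^ 2) atTop (𝓝 0))
    (h2 : Tendsto (fun n => ∫ q, (b n q - b' q) ^ 2) atTop (𝓝 0)) :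
    Tendsto (fun n => ∫ q, a n q * b n q) atTop (𝓝 (∫ q, a' q * b' q)) := by
  have h3 := (B01_tendsto ha ha' h1).inner (B01_tendsto hb hb' h2) (𝕜 := ℝ)
  simp only [B01_inner] at h3
  exact h3

private theorem B01_off (hD : IsOpen D) {f : ℕ → P → ℝ} {w : P → ℝ}
    (hf : ∀ n, MemLp (f n) 2 volume) (hw : MemLp w 2 volume)
    (h : Tendsto (fun n => ∫ q, (f n q - w q) ^ 2) atTop (𝓝 0))
    (h0 : ∀ n q, q ∉ D → f n q = 0) : ∀ᵐ q ∂volume, q ∉ D → w q = 0 := by
  have hm : MeasurableSet Dᶜ := hD.measurableSet.compl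
  have h1 : ∫ q in Dᶜ, w q ^ 2 = 0 := by
    refine le_antisymm ?_ (integral_nonneg fun q => sq_nonneg _)
    refine ge_of_tendsto' h fun n => ?_
    have h2 : ∫ q in Dᶜ, w q ^ 2 = ∫ q in Dᶜ, (f n q - w q) ^ 2 := by
      refine setIntegral_congr_fun hm fun q hq => ?_
      show w q ^ 2 = (f n q - w q) ^ 2
      rw [h0 n q hq]
      ring
    rw [h2]
    exact setIntegral_le_integral ((hf n).sub hw).integrable_sq (ae_of_all _ fun q => sq_nonneg _)
  rw [setIntegral_eq_zero_iff_of_nonneg_ae (ae_of_all _ fun q => sq_nonneg _)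
    hw.integrable_sq.integrableOn] at h1
  have h2 := (ae_restrict_iff' hm).1 h1
  filter_upwards [h2] with q hq hqD
  exact pow_eq_zero_iff (two_ne_zero) |>.1 (hq hqD)

private theorem B01_cls {f : P → ℂ} (hf : MemLp f 2 (volume.restrict D)) :
    cls D f = hf.toLp f :=
  dif_pos hf

/-- A function of `H¹₀(D)` vanishes off `D` with its gradient. Proof: the test functions `φ n` and
their derivatives vanish off `D` (`tsupport ⊆ D`), so `∫ q in Dᶜ, (u q) ^ 2 ≤ ∫ q, (φ n q - u q) ^ 2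
→ 0`, hence `∫ q in Dᶜ, (u q) ^ 2 = 0` and `u = 0` almost everywhere on `Dᶜ`
(`setIntegral_eq_zero_iff_of_nonneg_ae`); the same for `u₁`, `u₂`. -/
theorem B.h10_zero (hD : IsOpen D) {u u₁ u₂ : P → ℝ} (h : H10 D u u₁ u₂) :
    (∀ᵐ q ∂volume, q ∉ D → u q = 0) ∧ (∀ᵐ q ∂volume, q ∉ D → u₁ q = 0) ∧
      ∀ᵐ q ∂volume, q ∉ D → u₂ q = 0 := by
  obtain ⟨φ, hφ, a0, a1, a2⟩ := h.approx
  exact ⟨B01_off hD (fun n => (B.test_facts (hφ n)).2.2.1.1) h.mem a0
      fun n q hq => ((B.test_facts (hφ n)).2.2.2 q hq).1,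
    B01_off hD (fun n => (B.test_facts (hφ n)).2.2.1.2.1) h.mem₁ a1
      fun n q hq => ((B.test_facts (hφ n)).2.2.2 q hq).2.1,
    B01_off hD (fun n => (B.test_facts (hφ n)).2.2.1.2.2) h.mem₂ a2
      fun n q hq => ((B.test_facts (hφ n)).2.2.2 q hq).2.2⟩

theorem B.cls_coe {f : P → ℂ} (hf : MemLp f 2 (volume.restrict D)) :
    (cls D f : P → ℂ) =ᵐ[volume.restrict D] f := by
  rw [B01_cls hf]
  exact hf.coeFn_toLp

theorem B.cls_of {f : P → ℂ} {g : HD D} (h : f =ᵐ[volume.restrict D] (g : P → ℂ)) :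
    cls D f = g := by
  have hg : MemLp (g : P → ℂ) 2 (volume.restrict D) := Lp.memLp g
  have hf : MemLp f 2 (volume.restrict D) := (memLp_congr_ae h).2 hg
  rw [B01_cls hf]
  apply Lp.ext
  exact hf.coeFn_toLp.trans h

/-- `L2.inner_def` (`MeasureTheory.L2.inner_def`) and `B.cls_coe`. -/
theorem B.inner_cls {f : P → ℂ} (hf : MemLp f 2 (volume.restrict D)) (g : HD D) :
    (inner ℂ (cls D f) g : ℂ) = ∫ q in D, conj (f q) * (g : P → ℂ) q := by
  rw [L2.inner_def]
  refine integral_congr_ae ?_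
  filter_upwards [B.cls_coe hf] with q h1
  rw [h1, RCLike.inner_apply']

theorem B.inner_HD (f g : HD D) :
    (inner ℂ f g : ℂ) = ∫ q in D, conj ((f : P → ℂ) q) * (g : P → ℂ) q := by
  rw [L2.inner_def]
  refine integral_congr_ae (ae_of_all _ fun q => ?_)
  simp only
  rw [RCLike.inner_apply']

theorem B.norm_sq (f : HD D) : Integrable (fun q => ‖(f : P → ℂ) q‖ ^ 2) (volume.restrict D) ∧
    ‖f‖ ^ 2 = ∫ q in D, ‖(f : P → ℂ) q‖ ^ 2 := by
  have hm : MemLp (f : P → ℂ) 2 (volume.restrict D) := Lp.memLp f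
  refine ⟨hm.integrable_norm_pow (two_ne_zero), ?_⟩
  have h1 := B.inner_HD f f
  rw [inner_self_eq_norm_sq_to_K] at h1
  have h2 : ∫ q in D, conj ((f : P → ℂ) q) * (f : P → ℂ) q =
      ((∫ q in D, ‖(f : P → ℂ) q‖ ^ 2 : ℝ) : ℂ) := by
    rw [← integral_complex_ofReal]
    refine integral_congr_ae (ae_of_all _ fun q => ?_)
    simp only
    rw [RCLike.conj_mul]
    norm_cast
  rw [h2] at h1
  have h3 := congrArg Complex.re h1
  rw [Complex.ofReal_re] at h3
  rw [← h3]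
  norm_cast

theorem B.cls_add {f g : P → ℂ} (hf : MemLp f 2 (volume.restrict D))
    (hg : MemLp g 2 (volume.restrict D)) :
    cls D (fun q => f q + g q) = cls D f + cls D g := by
  rw [B01_cls hf, B01_cls hg]
  exact (B01_cls (hf.add hg)).trans (MemLp.toLp_add hf hg)

theorem B.cls_smul (c : ℂ) {f : P → ℂ} (hf : MemLp f 2 (volume.restrict D)) :
    cls D (fun q => c * f q) = c • cls D f := by
  rw [B01_cls hf]
  exact (B01_cls (hf.const_smul c)).trans (MemLp.toLp_const_smul c hf)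

/-- The restriction of a class to a measurable set. -/
def B.cut (A : Set P) (f : HD D) : HD D := cls D (A.indicator (f : P → ℂ))

/-- Proof: the indicator of a function in `L²` is in `L²`; `B.inner_HD`, `B.norm_sq`;
`mass A f = ∫ q in A ∩ D, ‖f q‖ ^ 2` is the integral over `D` of the indicator
(`setIntegral_indicator`, `inter_comm`). -/
theorem B.cut_facts {A : Set P} (hA : MeasurableSet A) (f g : HD D) :
    ‖B.cut A f‖ ^ 2 = mass A f ∧ (inner ℂ (B.cut A f) g : ℂ) = inner ℂ (B.cut A f) (B.cut A g) ∧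
      inner ℂ (B.cut A f) f = (mass A f : ℂ) ∧ 0 ≤ mass A f ∧ mass A f ≤ ‖f‖ ^ 2 := by
  have hm : ∀ f : HD D, MemLp (A.indicator (f : P → ℂ)) 2 (volume.restrict D) :=
    fun f => (Lp.memLp f).indicator hA
  have hc : ∀ f : HD D, (B.cut A f : P → ℂ) =ᵐ[volume.restrict D] A.indicator (f : P → ℂ) :=
    fun f => B.cls_coe (hm f)
  have e1 : ‖B.cut A f‖ ^ 2 = mass A f := by
    rw [(B.norm_sq (B.cut A f)).2, mass, ← Measure.restrict_restrict hA]
    rw [← integral_indicator hA]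
    refine integral_congr_ae ?_
    filter_upwards [hc f] with q hq
    rw [hq]
    by_cases h : q ∈ A
    · rw [indicator_of_mem h, indicator_of_mem h]
    · rw [indicator_of_notMem h, indicator_of_notMem h]
      simp
  have e2 : ∀ g : HD D, (inner ℂ (B.cut A f) g : ℂ) = inner ℂ (B.cut A f) (B.cut A g) := by
    intro g
    rw [B.inner_HD, B.inner_HD]
    refine integral_congr_ae ?_
    filter_upwards [hc f, hc g] with q h1 h2
    rw [h1, h2]
    by_cases h : q ∈ A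
    · rw [indicator_of_mem h, indicator_of_mem h]
    · rw [indicator_of_notMem h, indicator_of_notMem h]
      simp
  refine ⟨e1, e2 g, ?_, ?_, ?_⟩
  · rw [e2 f, inner_self_eq_norm_sq_to_K, ← e1]
    norm_cast
  · rw [← e1]
    positivity
  · rw [mass, (B.norm_sq f).2]
    refine setIntegral_mono_set (B.norm_sq f).1 (ae_of_all _ fun q => by positivity) ?_
    exact (inter_subset_right).eventuallyLE

end

end Pool.Agent.MP4eed4eR
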