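import Pool.Agent.Lib.MP_4eed4e_an_R.B01

/-!
MP_4eed4e_an, project R, block B, module B02: the Hilbert basis of eigenfunctions.
-/

namespace Pool.Agent.MP4eed4eR

open MeasureTheory Set Filter Topology Metric
open scoped ComplexConjugate ContDiff ENNReal

noncomputable section

variable {D : Set P}

/-- The eigenfunctions are square integrable on `D`, and the matrix elements are the real integrals
over the plane. Proof: `S.h10 k` gives `MemLp (S.u k) 2 volume` (restrict, then `ofReal`). For the
integral: `inner = ∫ q in D, u j * u k` (`B.inner_cls`, `B.cls_coe`) and `u j = 0` almost everywhere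
off `D` (`B.h10_zero`, `S.isOpen`), so it is the integral over the plane. -/
theorem B.e_mem (S : Spec D) (k : ℕ) :
    MemLp (fun q => (S.u k q : ℂ)) 2 (volume.restrict D) ∧
      ∀ j, (inner ℂ (S.e j) (S.e k) : ℂ) = ((∫ q, S.u j q * S.u k q : ℝ) : ℂ) := by
  have hm : ∀ k, MemLp (fun q => (S.u k q : ℂ)) 2 (volume.restrict D) := fun k =>
    ((S.h10 k).mem.restrict D).ofReal
  refine ⟨hm k, fun j => ?_⟩
  have h1 : (inner ℂ (S.e j) (S.e k) : ℂ) = ∫ q in D, ((S.u j q * S.u k q : ℝ) : ℂ) := by
    rw [Spec.e, B.inner_cls (hm j)]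
    refine integral_congr_ae ?_
    filter_upwards [B.cls_coe (hm k)] with q hq
    rw [Spec.e, hq, Complex.conj_ofReal]
    push_cast
    rfl
  rw [h1, integral_complex_ofReal]
  congr 1
  refine setIntegral_eq_integral_of_ae_compl_eq_zero ?_
  filter_upwards [(B.h10_zero S.isOpen (S.h10 j)).1] with q hq hqD
  rw [hq hqD, zero_mul]

theorem orthonormal_e (S : Spec D) : Orthonormal ℂ S.e := by
  rw [orthonormal_iff_ite]
  intro j k
  rw [(B.e_mem S k).2 j, S.orth j k]
  split_ifs <;> simp

/-- The coefficient as an integral. -/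
theorem B.co_eq (S : Spec D) (k : ℕ) (f : HD D) :
    S.co k f = ∫ q in D, (S.u k q : ℂ) * (f : P → ℂ) q := by
  rw [Spec.co, Spec.e, B.inner_cls (B.e_mem S k).1]
  refine integral_congr_ae (ae_of_all _ fun q => ?_)
  simp only [Complex.conj_ofReal]

/-- Completeness. Proof: let `g q = D.indicator (fun q => (f q).re)` and `g'` the same with `im`;
both are in `L²` of the plane and vanish off `D`; the real and the imaginary part of `S.co k f = 0`
(`B.co_eq`) say `∫ g * u k = 0` and `∫ g' * u k = 0`; `S.compl` gives `g = g' = 0` almost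
everywhere, so `f = 0` almost everywhere on `D`. -/
theorem B.compl_e (S : Spec D) {f : HD D} (h : ∀ k, S.co k f = 0) : f = 0 := by
  have hf : MemLp (f : P → ℂ) 2 (volume.restrict D) := Lp.memLp f
  have hfi : ∀ k, Integrable (fun q => (S.u k q : ℂ) * (f : P → ℂ) q) (volume.restrict D) :=
    fun k => (B.e_mem S k).1.integrable_mul hf
  have key : ∀ L : ℂ →L[ℝ] ℝ, (∀ (r : ℝ) (z : ℂ), L (r * z) = r * L z) →
      (fun q => L ((f : P → ℂ) q)) =ᵐ[volume.restrict D] 0 := by
    intro L hL
    have hg : MemLp (fun q => L ((f : P → ℂ) q)) 2 (volume.restrict D) := L.comp_memLp' hf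
    have hg2 : MemLp (D.indicator fun q => L ((f : P → ℂ) q)) 2 volume :=
      (memLp_indicator_iff_restrict S.isOpen.measurableSet).2 hg
    have h2 : (D.indicator fun q => L ((f : P → ℂ) q)) =ᵐ[volume] 0 := by
      refine S.compl _ hg2 (fun q hq => indicator_of_notMem hq _) fun k => ?_
      have h3 : ∫ q, (D.indicator (fun q => L ((f : P → ℂ) q)) q) * S.u k q =
          ∫ q in D, L ((S.u k q : ℂ) * (f : P → ℂ) q) := by
        rw [← integral_indicator S.isOpen.measurableSet]
        refine integral_congr_ae (ae_of_all _ fun q => ?_)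
        by_cases hq : q ∈ D
        · simp only [indicator_of_mem hq, hL]
          ring
        · simp only [indicator_of_notMem hq, zero_mul]
      rw [h3, L.integral_comp_comm (hfi k), ← B.co_eq, h k, map_zero]
    have h4 := (ae_restrict_of_ae (s := D) h2)
    filter_upwards [h4, ae_restrict_mem S.isOpen.measurableSet] with q h5 h6
    rw [indicator_of_mem h6] at h5
    exact h5
  have hre := key Complex.reCLM (fun r z => by simp)
  have him := key Complex.imCLM (fun r z => by simp)
  apply Lp.ext
  filter_upwards [hre, him, Lp.coeFn_zero ℂ 2 (volume.restrict D)] with q h1 h2 h3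
  rw [h3]
  exact Complex.ext (by simpa using h1) (by simpa using h2)

/-- The Hilbert basis. -/
def B.basis (S : Spec D) : HilbertBasis ℕ ℂ (HD D) :=
  HilbertBasis.mkOfOrthogonalEqBot (orthonormal_e S) (by
    rw [Submodule.eq_bot_iff]
    intro f hf
    refine B.compl_e S fun k => ?_
    exact Submodule.inner_right_of_mem_orthogonal
      (Submodule.subset_span (Set.mem_range_self k)) hf)

theorem B.basis_co (S : Spec D) (k : ℕ) (f : HD D) :
    B.basis S k = S.e k ∧ (B.basis S).repr f k = S.co k f := by
  have h1 : B.basis S k = S.e k := by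
    rw [B.basis, HilbertBasis.coe_mkOfOrthogonalEqBot]
  refine ⟨h1, ?_⟩
  rw [HilbertBasis.repr_apply_apply, h1]
  rfl

theorem parseval (S : Spec D) (f : HD D) : HasSum (fun k => ‖S.co k f‖ ^ 2) (‖f‖ ^ 2) := by
  have h1 := (B.basis S).hasSum_inner_mul_inner f f
  rw [inner_self_eq_norm_sq_to_K] at h1
  have h2 : (fun k => (inner ℂ f (B.basis S k) : ℂ) * inner ℂ (B.basis S k) f) =
      fun k => ((‖S.co k f‖ ^ 2 : ℝ) : ℂ) := by
    funext k
    rw [(B.basis_co S k f).1, ← inner_conj_symm f (S.e k)]
    change conj (S.co k f) * S.co k f = _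
    rw [RCLike.conj_mul]
    norm_cast
  rw [h2] at h1
  have h3 := Complex.hasSum_re h1
  simp only [Complex.ofReal_re] at h3
  convert h3 using 1
  norm_cast

theorem parseval_inner (S : Spec D) (f g : HD D) :
    HasSum (fun k => conj (S.co k f) * S.co k g) (inner ℂ f g) := by
  have h1 := (B.basis S).hasSum_inner_mul_inner f g
  have h2 : (fun k => (inner ℂ f (B.basis S k) : ℂ) * inner ℂ (B.basis S k) g) =
      fun k => conj (S.co k f) * S.co k g := by
    funext k
    rw [(B.basis_co S k f).1, ← inner_conj_symm f (S.e k)]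
    rfl
  rw [h2] at h1
  exact h1

theorem ext_co (S : Spec D) {f g : HD D} (h : ∀ k, S.co k f = S.co k g) : f = g := by
  have h1 : ∀ k, S.co k (f - g) = 0 := by
    intro k
    have h2 := h k
    unfold Spec.co at h2 ⊢
    rw [inner_sub_right, h2, sub_self]
  exact sub_eq_zero.1 (B.compl_e S h1)

theorem co_add (S : Spec D) (k : ℕ) (f g : HD D) : S.co k (f + g) = S.co k f + S.co k g := by
  unfold Spec.co
  rw [inner_add_right]

theorem co_smul (S : Spec D) (k : ℕ) (c : ℂ) (f : HD D) : S.co k (c • f) = c * S.co k f := by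
  unfold Spec.co
  rw [inner_smul_right]

/-- Unfold `HasSpectrum` and `IsEigen` and choose the gradients. -/
theorem exists_spec (ho : IsOpen D) {lam : ℕ → ℝ} (h : HasSpectrum D lam) :
    ∃ S : Spec D, S.lam = lam := by
  obtain ⟨-, u, hu, ho', hc⟩ := h
  choose u₁ u₂ hh hw using hu
  exact ⟨⟨ho, lam, u, u₁, u₂, hh, hw, ho', hc⟩, rfl⟩

end

end Pool.Agent.MP4eed4eR
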