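import Pool.Agent.Lib.MP_4eed4e_an_R.B02

/-!
MP_4eed4e_an, project R, block B, module B03: bounded functions of the operator and the group.
-/

namespace Pool.Agent.MP4eed4eR

open MeasureTheory Set Filter Topology Metric
open scoped ComplexConjugate ContDiff ENNReal

noncomputable section

variable {D : Set P}

private theorem B03_norm_exp (x : ℝ) : ‖Complex.exp (-(x : ℂ) * Complex.I)‖ = 1 := by
  rw [← Complex.ofReal_neg, Complex.norm_exp_ofReal_mul_I]

private theorem B03_sum (S : Spec D) {a : ℕ → ℂ} {C : ℝ} (ha : ∀ k, ‖a k‖ ≤ C) (f : HD D) :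
    Summable fun k => ‖a k * S.co k f‖ ^ 2 := by
  refine Summable.of_nonneg_of_le (fun k => sq_nonneg _) (fun k => ?_)
    ((parseval S f).summable.mul_left (C ^ 2))
  rw [norm_mul, mul_pow]
  exact mul_le_mul_of_nonneg_right (pow_le_pow_left₀ (norm_nonneg _) (ha k) 2) (sq_nonneg _)

private theorem B03_co_sub (S : Spec D) (k : ℕ) (f g : HD D) :
    S.co k (f - g) = S.co k f - S.co k g := by
  rw [Spec.co, inner_sub_right]
  rfl

private theorem B03_inner {f g : P → ℝ} (hf : MemLp f 2 volume) (hg : MemLp g 2 volume) :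
    inner ℝ (hf.toLp f) (hg.toLp g) = ∫ q, f q * g q := by
  rw [L2.inner_def]
  refine integral_congr_ae ?_
  filter_upwards [hf.coeFn_toLp, hg.coeFn_toLp] with q h1 h2
  rw [h1, h2]
  exact mul_comm _ _

private theorem B03_toLp {φ : ℕ → P → ℝ} {u : P → ℝ} (hφ : ∀ n, MemLp (φ n) 2 volume)
    (hu : MemLp u 2 volume) (h : Tendsto (fun n => ∫ q, (φ n q - u q) ^ 2) atTop (𝓝 0)) :
    Tendsto (fun n => (hφ n).toLp (φ n)) atTop (𝓝 (hu.toLp u)) := by
  rw [tendsto_iff_norm_sub_tendsto_zero]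
  have h1 : ∀ n, ‖(hφ n).toLp (φ n) - hu.toLp u‖ = Real.sqrt (∫ q, (φ n q - u q) ^ 2) := by
    intro n
    have h2 : ‖(hφ n).toLp (φ n) - hu.toLp u‖ ^ 2 = ∫ q, (φ n q - u q) ^ 2 := by
      rw [← real_inner_self_eq_norm_sq, ← MemLp.toLp_sub, B03_inner]
      refine integral_congr_ae (ae_of_all _ fun q => ?_)
      simp only [Pi.sub_apply]
      ring
    rw [← h2, Real.sqrt_sq (norm_nonneg _)]
  simp only [h1]
  have h3 := (Real.continuous_sqrt.tendsto 0).comp h
  rw [Real.sqrt_zero] at h3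
  exact h3

private theorem B03_lim {φ : ℕ → P → ℝ} {u g : P → ℝ} (hφ : ∀ n, MemLp (φ n) 2 volume)
    (hu : MemLp u 2 volume) (hg : MemLp g 2 volume)
    (h : Tendsto (fun n => ∫ q, (φ n q - u q) ^ 2) atTop (𝓝 0)) :
    Tendsto (fun n => ∫ q, φ n q * g q) atTop (𝓝 (∫ q, u q * g q)) := by
  have h1 := (B03_toLp hφ hu h).inner (tendsto_const_nhds (x := hg.toLp g)) (𝕜 := ℝ)
  simp only [B03_inner] at h1
  exact h1

private theorem B03_test {φ : P → ℝ} (h : Test D φ) :
    MemLp φ 2 volume ∧ MemLp (d1 φ) 2 volume ∧ MemLp (d2 φ) 2 volume := by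
  have h1 : Continuous (fderiv ℝ φ) := h.smooth.continuous_fderiv (by simp)
  have s1 : Continuous (d1 φ) := h1.clm_apply continuous_const
  have s2 : Continuous (d2 φ) := h1.clm_apply continuous_const
  have c0 := h.compact.fderiv ℝ
  have c1 : HasCompactSupport (d1 φ) :=
    c0.comp_left (g := fun L : P →L[ℝ] ℝ => L ((1, 0) : P)) rfl
  have c2 : HasCompactSupport (d2 φ) :=
    c0.comp_left (g := fun L : P →L[ℝ] ℝ => L ((0, 1) : P)) rfl
  exact ⟨h.smooth.continuous.memLp_of_hasCompactSupport h.compact,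
    s1.memLp_of_hasCompactSupport c1, s2.memLp_of_hasCompactSupport c2⟩

private theorem B03_om (S : Spec D) {h : ℝ} (hh0 : 0 < h) (l : ℝ) (k : ℕ) :
    ‖om S.lam h l k‖ ≤ 1 := by
  have h1 : 0 ≤ gk S.lam h k := (Real.exp_pos _).le
  have h2 : gk S.lam h k ≤ 1 := by
    rw [gk, Real.exp_le_one_iff]
    have h3 : 0 ≤ (h ^ 2 * S.lam k - 1) ^ 2 := sq_nonneg _
    exact div_nonpos_of_nonpos_of_nonneg (by linarith) (by linarith)
  rw [om, norm_mul, B03_norm_exp, mul_one, Complex.norm_real, Real.norm_eq_abs, abs_of_nonneg h1]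
  exact h2

/-- Proof: `(a k * S.co k f)` is square summable (`parseval`), so
`(B.basis S).repr.symm` of this element of `ℓ²` is the sum of the series
(`HilbertBasis.hasSum_repr_symm`), and its coefficients are `a k * S.co k f`. -/
theorem co_op (S : Spec D) {a : ℕ → ℂ} {C : ℝ} (ha : ∀ k, ‖a k‖ ≤ C) (f : HD D) (k : ℕ) :
    S.co k (S.op a f) = a k * S.co k f := by
  have hm : Memℓp (fun k => a k * S.co k f) 2 := by
    refine memℓp_gen ?_
    have h1 := B03_sum S ha f
    simpa using h1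
  let x : lp (fun _ : ℕ => ℂ) 2 := ⟨fun k => a k * S.co k f, hm⟩
  have h1 := (B.basis S).hasSum_repr_symm x
  have h2 : S.op a f = (B.basis S).repr.symm x := by
    rw [← h1.tsum_eq]
    refine tsum_congr fun k => ?_
    rw [(B.basis_co S k f).1]
  rw [h2, ← (B.basis_co S k _).2, LinearIsometryEquiv.apply_symm_apply]

theorem norm_op_le (S : Spec D) {a : ℕ → ℂ} {C : ℝ} (ha : ∀ k, ‖a k‖ ≤ C) (f : HD D) :
    ‖S.op a f‖ ≤ C * ‖f‖ := by
  have hC : 0 ≤ C := (norm_nonneg _).trans (ha 0)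
  have h1 := parseval S (S.op a f)
  have h2 := (parseval S f).mul_left (C ^ 2)
  have h3 : ‖S.op a f‖ ^ 2 ≤ C ^ 2 * ‖f‖ ^ 2 := by
    refine hasSum_le (fun k => ?_) h1 h2
    rw [co_op S ha, norm_mul, mul_pow]
    exact mul_le_mul_of_nonneg_right (pow_le_pow_left₀ (norm_nonneg _) (ha k) 2) (sq_nonneg _)
  rw [← mul_pow] at h3
  exact (sq_le_sq₀ (norm_nonneg _) (mul_nonneg hC (norm_nonneg _))).1 h3

theorem co_U (S : Spec D) (h t : ℝ) (f : HD D) (k : ℕ) :
    S.co k (S.U h t f) = Complex.exp (-(t * h * S.lam k / 2 : ℝ) * Complex.I) * S.co k f := by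
  exact co_op S (C := 1) (fun k => (B03_norm_exp _).le) f k

theorem norm_U (S : Spec D) (h t : ℝ) (f : HD D) : ‖S.U h t f‖ = ‖f‖ := by
  have h1 := parseval S (S.U h t f)
  have h2 : (fun k => ‖S.co k (S.U h t f)‖ ^ 2) = fun k => ‖S.co k f‖ ^ 2 := by
    funext k
    rw [co_U, norm_mul, B03_norm_exp, one_mul]
  rw [h2] at h1
  have h3 := h1.unique (parseval S f)
  exact (sq_eq_sq₀ (norm_nonneg _) (norm_nonneg _)).1 h3

theorem U_add (S : Spec D) (h s t : ℝ) (f : HD D) : S.U h (s + t) f = S.U h s (S.U h t f) := by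
  refine ext_co S fun k => ?_
  rw [co_U, co_U, co_U, ← mul_assoc, ← Complex.exp_add]
  congr 2
  push_cast
  ring

theorem U_sub (S : Spec D) (h t : ℝ) (f g : HD D) : S.U h t (f - g) = S.U h t f - S.U h t g := by
  refine ext_co S fun k => ?_
  rw [co_U, B03_co_sub, B03_co_sub, co_U, co_U, mul_sub]

theorem U_smul (S : Spec D) (h t : ℝ) (c : ℂ) (f : HD D) : S.U h t (c • f) = c • S.U h t f := by
  refine ext_co S fun k => ?_
  rw [co_U, co_smul, co_smul, co_U]
  ring

theorem inner_U (S : Spec D) (h t : ℝ) (f g : HD D) :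
    inner ℂ (S.U h t f) g = inner ℂ f (S.U h (-t) g) := by
  have h1 := parseval_inner S (S.U h t f) g
  have h2 := parseval_inner S f (S.U h (-t) g)
  have h3 : (fun k => conj (S.co k (S.U h t f)) * S.co k g) =
      fun k => conj (S.co k f) * S.co k (S.U h (-t) g) := by
    funext k
    rw [co_U, co_U, map_mul, ← Complex.exp_conj]
    have h4 : conj (-((t * h * S.lam k / 2 : ℝ) : ℂ) * Complex.I) =
        -((-t * h * S.lam k / 2 : ℝ) : ℂ) * Complex.I := by
      rw [map_mul, map_neg, Complex.conj_ofReal, Complex.conj_I]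
      push_cast
      ring
    rw [h4]
    ring
  rw [h3] at h1
  exact h1.unique h2

/-- Strong continuity. Proof: `‖U t f - U t₀ f‖ ^ 2 = ∑ |exp (..) - exp (..)| ^ 2 ‖S.co k f‖ ^ 2`
(`parseval`), dominated convergence for sums (`tendsto_tsum_of_dominated_convergence` with the bound
`4 ‖S.co k f‖ ^ 2`). -/
theorem continuous_U (S : Spec D) (h : ℝ) (f : HD D) : Continuous (fun t : ℝ => S.U h t f) := by
  rw [continuous_iff_continuousAt]
  intro t₀
  have key : ∀ t, ‖S.U h t f - S.U h t₀ f‖ ^ 2 =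
      ∑' k, ‖Complex.exp (-(t * h * S.lam k / 2 : ℝ) * Complex.I) -
        Complex.exp (-(t₀ * h * S.lam k / 2 : ℝ) * Complex.I)‖ ^ 2 * ‖S.co k f‖ ^ 2 := by
    intro t
    rw [← (parseval S _).tsum_eq]
    refine tsum_congr fun k => ?_
    rw [B03_co_sub, co_U, co_U, ← sub_mul, norm_mul, mul_pow]
  have hc : Continuous fun t : ℝ =>
      ∑' k, ‖Complex.exp (-(t * h * S.lam k / 2 : ℝ) * Complex.I) -
        Complex.exp (-(t₀ * h * S.lam k / 2 : ℝ) * Complex.I)‖ ^ 2 * ‖S.co k f‖ ^ 2 := by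
    refine continuous_tsum (u := fun k => 4 * ‖S.co k f‖ ^ 2) (fun k => ?_)
      ((parseval S f).summable.mul_left 4) fun k t => ?_
    · fun_prop
    · rw [Real.norm_eq_abs, abs_of_nonneg (by positivity)]
      have h1 := norm_sub_le (Complex.exp (-(t * h * S.lam k / 2 : ℝ) * Complex.I))
        (Complex.exp (-(t₀ * h * S.lam k / 2 : ℝ) * Complex.I))
      rw [B03_norm_exp, B03_norm_exp] at h1
      refine mul_le_mul_of_nonneg_right ?_ (sq_nonneg _)
      nlinarith [norm_nonneg (Complex.exp (-(t * h * S.lam k / 2 : ℝ) * Complex.I) -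
        Complex.exp (-(t₀ * h * S.lam k / 2 : ℝ) * Complex.I))]
  have h0 := hc.tendsto t₀
  simp only [← key, sub_self, norm_zero, ne_eq, OfNat.ofNat_ne_zero, not_false_eq_true,
    zero_pow, zero_mul, tsum_zero] at h0
  rw [ContinuousAt, tendsto_iff_norm_sub_tendsto_zero]
  have h1 := (Real.continuous_sqrt.tendsto 0).comp h0
  rw [Real.sqrt_zero] at h1
  refine h1.congr fun t => ?_
  rw [Function.comp_apply, Real.sqrt_sq (norm_nonneg _)]

/-- Nonnegativity of the eigenvalues. Proof: with `φ n → S.u k` from `S.h10 k`,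
`∫ (u₁ d1 φ + u₂ d2 φ) = lam k ∫ u φ` tends to `∫ (u₁² + u₂²) = lam k ∫ u² = lam k`
(Cauchy-Schwarz for the convergence). -/
theorem lam_nonneg (S : Spec D) (k : ℕ) : 0 ≤ S.lam k := by
  obtain ⟨φ, hφ, l0, l1, l2⟩ := (S.h10 k).approx
  have m0 := (S.h10 k).mem
  have m1 := (S.h10 k).mem₁
  have m2 := (S.h10 k).mem₂
  have hm := fun n => B03_test (hφ n)
  have t1 := B03_lim (fun n => (hm n).2.1) m1 m1 l1
  have t2 := B03_lim (fun n => (hm n).2.2) m2 m2 l2
  have t3 := (B03_lim (fun n => (hm n).1) m0 m0 l0).const_mul (S.lam k)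
  have h1 : ∀ n, (∫ q, d1 (φ n) q * S.u₁ k q) + (∫ q, d2 (φ n) q * S.u₂ k q) =
      S.lam k * ∫ q, φ n q * S.u k q := by
    intro n
    have h2 := S.weak k (φ n) (hφ n)
    have i1 : Integrable (fun q => S.u₁ k q * d1 (φ n) q) volume :=
      m1.integrable_mul (hm n).2.1
    have i2 : Integrable (fun q => S.u₂ k q * d2 (φ n) q) volume :=
      m2.integrable_mul (hm n).2.2
    rw [integral_add i1 i2] at h2
    simp only [mul_comm (d1 (φ n) _), mul_comm (d2 (φ n) _), mul_comm (φ n _)]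
    exact h2
  have h2 := tendsto_nhds_unique ((t1.add t2).congr h1) t3
  have h3 := S.orth k k
  rw [if_pos rfl] at h3
  rw [h3, mul_one] at h2
  rw [← h2]
  exact add_nonneg (integral_nonneg fun q => mul_self_nonneg _)
    (integral_nonneg fun q => mul_self_nonneg _)

theorem co_W (S : Spec D) {h : ℝ} (hh0 : 0 < h) (l : ℝ) (f : HD D) (k : ℕ) :
    S.co k (S.W h l f) = om S.lam h l k * S.co k f := by
  exact co_op S (C := 1) (B03_om S hh0 l) f k

theorem norm_W_le (S : Spec D) {h : ℝ} (hh0 : 0 < h) (l : ℝ) (f : HD D) :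
    ‖S.W h l f‖ ≤ ‖f‖ := by
  have h1 := norm_op_le S (C := 1) (B03_om S hh0 l) f
  rwa [one_mul] at h1

/-- The trace formula of the window operator on a vector: `parseval_inner` and `co_W`. -/
theorem gk_sum (S : Spec D) {h : ℝ} (hh0 : 0 < h) (l : ℝ) (f : HD D) :
    HasSum (fun k => om S.lam h l k * (‖S.co k f‖ ^ 2 : ℝ)) (inner ℂ f (S.W h l f)) := by
  have h1 := parseval_inner S f (S.W h l f)
  have h2 : (fun k => conj (S.co k f) * S.co k (S.W h l f)) =
      fun k => om S.lam h l k * (‖S.co k f‖ ^ 2 : ℝ) := by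
    funext k
    rw [co_W S hh0, mul_left_comm, Complex.conj_mul']
    push_cast
    rfl
  rwa [h2] at h1

end

end Pool.Agent.MP4eed4eR
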