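import Pool.Agent.Lib.MP_4eed4e_an_R.B03

/-!
MP_4eed4e_an, project R, block B, module B04: the window as an average of the group.
-/

namespace Pool.Agent.MP4eed4eR

open MeasureTheory Set Filter Topology Metric
open scoped ComplexConjugate ContDiff ENNReal

noncomputable section

variable {D : Set P}

private theorem b04_int :
    Integrable fun s : ℝ => (Real.sqrt (2 * Real.pi))⁻¹ * Real.exp (-s ^ 2 / 2) := by
  have h1 := (integrable_exp_neg_mul_sq (b := 1 / 2) (by norm_num)).const_mul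
    (Real.sqrt (2 * Real.pi))⁻¹
  refine h1.congr (Eventually.of_forall fun s => ?_)
  simp only []
  congr 2
  ring

private theorem b04_one :
    ∫ s : ℝ, (Real.sqrt (2 * Real.pi))⁻¹ * Real.exp (-s ^ 2 / 2) = 1 := by
  rw [integral_const_mul]
  have h1 := integral_gaussian (1 / 2)
  have h2 : ∀ s : ℝ, Real.exp (-s ^ 2 / 2) = Real.exp (-(1 / 2) * s ^ 2) := by
    intro s
    congr 1
    ring
  simp only [h2]
  rw [h1]
  have h3 : Real.pi / (1 / 2) = 2 * Real.pi := by ring
  rw [h3]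
  exact inv_mul_cancel₀ (by positivity)

/-- `∫ (√(2π))⁻¹ exp (-s² / 2) exp (i s a) ds = exp (-a² / 2)` (`integral_cexp_quadratic` or
`fourierIntegral_gaussian`). -/
theorem B.gauss_fourier (a : ℝ) :
    Integrable (fun s : ℝ => (((Real.sqrt (2 * Real.pi))⁻¹ * Real.exp (-s ^ 2 / 2) : ℝ) : ℂ) *
      Complex.exp ((s * a : ℝ) * Complex.I)) ∧
    ∫ s : ℝ, (((Real.sqrt (2 * Real.pi))⁻¹ * Real.exp (-s ^ 2 / 2) : ℝ) : ℂ) *
      Complex.exp ((s * a : ℝ) * Complex.I) = (Real.exp (-a ^ 2 / 2) : ℂ) := by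
  constructor
  · refine b04_int.mono' ?_ (Eventually.of_forall fun s => ?_)
    · exact (by fun_prop : Continuous fun s : ℝ =>
        (((Real.sqrt (2 * Real.pi))⁻¹ * Real.exp (-s ^ 2 / 2) : ℝ) : ℂ) *
          Complex.exp ((s * a : ℝ) * Complex.I)).aestronglyMeasurable
    · rw [norm_mul, Complex.norm_exp_ofReal_mul_I, mul_one, Complex.norm_real,
        Real.norm_of_nonneg (by positivity)]
  · have h1 := fourierIntegral_gaussian (b := (1 / 2 : ℂ)) (by norm_num) (a : ℂ)
    have h2 : ∀ s : ℝ, (((Real.sqrt (2 * Real.pi))⁻¹ * Real.exp (-s ^ 2 / 2) : ℝ) : ℂ) *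
        Complex.exp ((s * a : ℝ) * Complex.I) = ((Real.sqrt (2 * Real.pi))⁻¹ : ℂ) *
          (Complex.exp (Complex.I * a * s) * Complex.exp (-(1 / 2) * s ^ 2)) := by
      intro s
      push_cast
      rw [mul_assoc, mul_comm (Complex.exp (-(s : ℂ) ^ 2 / 2))]
      congr 3 <;> ring
    simp only [h2]
    rw [integral_const_mul, h1]
    have h3 : ((Real.pi : ℂ) / (1 / 2)) ^ (1 / 2 : ℂ) = ((Real.sqrt (2 * Real.pi) : ℝ) : ℂ) := by
      rw [Real.sqrt_eq_rpow, Complex.ofReal_cpow (by positivity)]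
      push_cast
      congr 1
      ring
    have h4 : ((Real.sqrt (2 * Real.pi) : ℝ) : ℂ) ≠ 0 := by
      rw [Complex.ofReal_ne_zero]
      positivity
    rw [h3, ← mul_assoc, inv_mul_cancel₀ h4, one_mul]
    push_cast
    congr 1
    ring

private theorem b04_term {h : ℝ} (hh0 : 0 < h) (l m : ℝ) (c d : ℂ) :
    Integrable (fun s : ℝ => (((Real.sqrt (2 * Real.pi))⁻¹ * Real.exp (-s ^ 2 / 2) : ℝ) : ℂ) *
      Complex.exp (-(s / Real.sqrt h : ℝ) * Complex.I) *
      (c * (Complex.exp (-((l - 2 * Real.sqrt h * s) * h * m / 2 : ℝ) * Complex.I) * d))) ∧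
    ∫ s : ℝ, (((Real.sqrt (2 * Real.pi))⁻¹ * Real.exp (-s ^ 2 / 2) : ℝ) : ℂ) *
      Complex.exp (-(s / Real.sqrt h : ℝ) * Complex.I) *
      (c * (Complex.exp (-((l - 2 * Real.sqrt h * s) * h * m / 2 : ℝ) * Complex.I) * d)) =
      c * d * (Complex.exp (-(l * h * m / 2 : ℝ) * Complex.I) *
        (Real.exp (-(h ^ 2 * m - 1) ^ 2 / (2 * h)) : ℂ)) ∧
    ∫ s : ℝ, ‖(((Real.sqrt (2 * Real.pi))⁻¹ * Real.exp (-s ^ 2 / 2) : ℝ) : ℂ) *
      Complex.exp (-(s / Real.sqrt h : ℝ) * Complex.I) *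
      (c * (Complex.exp (-((l - 2 * Real.sqrt h * s) * h * m / 2 : ℝ) * Complex.I) * d))‖ =
      ‖c‖ * ‖d‖ := by
  have hs : Real.sqrt h * Real.sqrt h = h := Real.mul_self_sqrt hh0.le
  have hs0 : Real.sqrt h ≠ 0 := (Real.sqrt_pos.2 hh0).ne'
  have key : ∀ s : ℝ, (((Real.sqrt (2 * Real.pi))⁻¹ * Real.exp (-s ^ 2 / 2) : ℝ) : ℂ) *
      Complex.exp (-(s / Real.sqrt h : ℝ) * Complex.I) *
      (c * (Complex.exp (-((l - 2 * Real.sqrt h * s) * h * m / 2 : ℝ) * Complex.I) * d)) =
      c * d * Complex.exp (-(l * h * m / 2 : ℝ) * Complex.I) *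
        ((((Real.sqrt (2 * Real.pi))⁻¹ * Real.exp (-s ^ 2 / 2) : ℝ) : ℂ) *
          Complex.exp ((s * ((h ^ 2 * m - 1) / Real.sqrt h) : ℝ) * Complex.I)) := by
    intro s
    have e1 : Complex.exp (-(s / Real.sqrt h : ℝ) * Complex.I) *
        Complex.exp (-((l - 2 * Real.sqrt h * s) * h * m / 2 : ℝ) * Complex.I) =
        Complex.exp (-(l * h * m / 2 : ℝ) * Complex.I) *
          Complex.exp ((s * ((h ^ 2 * m - 1) / Real.sqrt h) : ℝ) * Complex.I) := by
      rw [← Complex.exp_add, ← Complex.exp_add, ← add_mul, ← add_mul, ← Complex.ofReal_neg,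
        ← Complex.ofReal_neg, ← Complex.ofReal_neg, ← Complex.ofReal_add, ← Complex.ofReal_add]
      congr 3
      have e2 : h ^ 2 / Real.sqrt h = Real.sqrt h * h := by
        rw [div_eq_iff hs0]
        calc h ^ 2 = h * h := by ring
          _ = (Real.sqrt h * Real.sqrt h) * h := by rw [hs]
          _ = Real.sqrt h * h * Real.sqrt h := by ring
      have e3 : s * ((h ^ 2 * m - 1) / Real.sqrt h) =
          s * m * (h ^ 2 / Real.sqrt h) - s / Real.sqrt h := by ring
      rw [e3, e2]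
      ring
    calc _ = c * d * (((Real.sqrt (2 * Real.pi))⁻¹ * Real.exp (-s ^ 2 / 2) : ℝ) : ℂ) *
          (Complex.exp (-(s / Real.sqrt h : ℝ) * Complex.I) *
        Complex.exp (-((l - 2 * Real.sqrt h * s) * h * m / 2 : ℝ) * Complex.I)) := by ring
      _ = _ := by
        rw [e1]
        ring
  have hg := B.gauss_fourier ((h ^ 2 * m - 1) / Real.sqrt h)
  refine ⟨?_, ?_, ?_⟩
  · simp only [key]
    exact hg.1.const_mul _
  · simp only [key]
    rw [integral_const_mul, hg.2, mul_assoc]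
    have e4 : -((h ^ 2 * m - 1) / Real.sqrt h) ^ 2 / 2 = -(h ^ 2 * m - 1) ^ 2 / (2 * h) := by
      rw [div_pow, Real.sq_sqrt hh0.le]
      field_simp
    rw [e4]
  · have e5 : ∀ s : ℝ, ‖(((Real.sqrt (2 * Real.pi))⁻¹ * Real.exp (-s ^ 2 / 2) : ℝ) : ℂ) *
      Complex.exp (-(s / Real.sqrt h : ℝ) * Complex.I) *
      (c * (Complex.exp (-((l - 2 * Real.sqrt h * s) * h * m / 2 : ℝ) * Complex.I) * d))‖ =
      ‖c‖ * ‖d‖ * ((Real.sqrt (2 * Real.pi))⁻¹ * Real.exp (-s ^ 2 / 2)) := by
      intro s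
      rw [norm_mul, norm_mul, norm_mul, norm_mul, Complex.norm_real,
        Real.norm_of_nonneg (by positivity), ← Complex.ofReal_neg, ← Complex.ofReal_neg,
        Complex.norm_exp_ofReal_mul_I, Complex.norm_exp_ofReal_mul_I]
      ring
    simp only [e5]
    rw [integral_const_mul, b04_one, mul_one]

/-- `W` is an average of the group over times near `l`. Proof. By `parseval_inner`, `co_W`, `co_U`
both sides are sums over `k`: the left hand side is `∑ conj (co k g) om k co k f` and the right hand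
side the integral of `∑ conj (co k g) exp (..) co k f` (exchange of sum and integral:
`integral_tsum` or `hasSum_integral_of_summable_integral_norm`, the sum of the norms is
`∑ |co k g| |co k f| < ∞` times the integrable Gaussian). For fixed `k` use `B.gauss_fourier` with
`a = (h² lam k - 1) / √h`: `-s/√h - (l - 2 √h s) h lam k / 2 = s a - l h lam k / 2`, since
`√h * h * lam k * s = s h² lam k / √h`; and `exp (-a² / 2) = gk`. -/
theorem W_integral (S : Spec D) {h : ℝ} (hh0 : 0 < h) (l : ℝ) (f g : HD D) :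
    inner ℂ g (S.W h l f) = ∫ s : ℝ, ((Real.sqrt (2 * Real.pi))⁻¹ * Real.exp (-s ^ 2 / 2) : ℝ) *
      Complex.exp (-(s / Real.sqrt h : ℝ) * Complex.I) *
        inner ℂ g (S.U h (l - 2 * Real.sqrt h * s) f) := by
  have hsum : Summable fun k => ‖S.co k g‖ * ‖S.co k f‖ := by
    refine Summable.of_nonneg_of_le (fun k => by positivity) (fun k => ?_)
      ((parseval S g).summable.add (parseval S f).summable)
    nlinarith [sq_nonneg (‖S.co k g‖ - ‖S.co k f‖), sq_nonneg ‖S.co k g‖, sq_nonneg ‖S.co k f‖]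
  have hF := fun k => b04_term hh0 l (S.lam k) (conj (S.co k g)) (S.co k f)
  have h1 := hasSum_integral_of_summable_integral_norm (F := fun k (s : ℝ) =>
    (((Real.sqrt (2 * Real.pi))⁻¹ * Real.exp (-s ^ 2 / 2) : ℝ) : ℂ) *
      Complex.exp (-(s / Real.sqrt h : ℝ) * Complex.I) *
      (conj (S.co k g) * (Complex.exp (-((l - 2 * Real.sqrt h * s) * h * S.lam k / 2 : ℝ) *
        Complex.I) * S.co k f))) (μ := volume) (fun k => (hF k).1) (by
      refine hsum.congr fun k => ?_
      rw [(hF k).2.2, RCLike.norm_conj])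
  have h2 : HasSum (fun k => conj (S.co k g) * (om S.lam h l k * S.co k f))
      (inner ℂ g (S.W h l f)) := by
    have h3 := parseval_inner S g (S.W h l f)
    simp only [co_W S hh0] at h3
    exact h3
  have h4 : ∀ s : ℝ, ∑' k, (((Real.sqrt (2 * Real.pi))⁻¹ * Real.exp (-s ^ 2 / 2) : ℝ) : ℂ) *
      Complex.exp (-(s / Real.sqrt h : ℝ) * Complex.I) *
      (conj (S.co k g) * (Complex.exp (-((l - 2 * Real.sqrt h * s) * h * S.lam k / 2 : ℝ) *
        Complex.I) * S.co k f)) =
      (((Real.sqrt (2 * Real.pi))⁻¹ * Real.exp (-s ^ 2 / 2) : ℝ) : ℂ) *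
      Complex.exp (-(s / Real.sqrt h : ℝ) * Complex.I) *
        inner ℂ g (S.U h (l - 2 * Real.sqrt h * s) f) := by
    intro s
    have h5 := parseval_inner S g (S.U h (l - 2 * Real.sqrt h * s) f)
    simp only [co_U] at h5
    exact (h5.mul_left _).tsum_eq
  simp only [h4] at h1
  have h6 : (fun k => ∫ s : ℝ, (((Real.sqrt (2 * Real.pi))⁻¹ * Real.exp (-s ^ 2 / 2) : ℝ) : ℂ) *
      Complex.exp (-(s / Real.sqrt h : ℝ) * Complex.I) *
      (conj (S.co k g) * (Complex.exp (-((l - 2 * Real.sqrt h * s) * h * S.lam k / 2 : ℝ) *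
        Complex.I) * S.co k f))) = fun k => conj (S.co k g) * (om S.lam h l k * S.co k f) := by
    funext k
    rw [(hF k).2.1]
    unfold om gk
    ring_nf
  rw [h6] at h1
  exact h2.unique h1

private theorem b04_sub {A : Set P} (hA : MeasurableSet A) (f g : HD D) :
    B.cut A (f - g) = B.cut A f - B.cut A g := by
  have hm : ∀ u : HD D, MemLp (A.indicator (u : P → ℂ)) 2 (volume.restrict D) := fun u =>
    (Lp.memLp u).indicator hA
  refine B.cls_of ?_
  have h1 := Lp.coeFn_sub (B.cut A f) (B.cut A g)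
  have h2 := Lp.coeFn_sub f g
  have h3 := B.cls_coe (hm f)
  have h4 := B.cls_coe (hm g)
  filter_upwards [h1, h2, h3, h4] with q e1 e2 e3 e4
  rw [e1, Pi.sub_apply]
  unfold B.cut
  rw [e3, e4]
  by_cases hq : q ∈ A
  · rw [indicator_of_mem hq, indicator_of_mem hq, indicator_of_mem hq, e2, Pi.sub_apply]
  · rw [indicator_of_notMem hq, indicator_of_notMem hq, indicator_of_notMem hq, sub_zero]

private theorem b04_mass {A : Set P} (hA : MeasurableSet A) :
    Continuous fun f : HD D => mass A f := by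
  have h1 : ∀ f : HD D, mass A f = ‖B.cut A f‖ ^ 2 := fun f => (B.cut_facts hA f f).1.symm
  simp only [h1]
  refine Continuous.pow (Continuous.norm ?_) 2
  have h2 : LipschitzWith 1 fun f : HD D => B.cut A f := by
    refine LipschitzWith.of_dist_le_mul fun f g => ?_
    rw [NNReal.coe_one, one_mul, dist_eq_norm, dist_eq_norm, ← b04_sub hA]
    refine abs_le_of_sq_le_sq' ?_ (norm_nonneg _) |>.2
    rw [(B.cut_facts hA (f - g) f).1]
    exact (B.cut_facts hA (f - g) f).2.2.2.2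
  exact h2.continuous

/-- The mass of `W f` in a set is at most the average of the masses of `U f`. Proof. Let
`g = B.cut A (W f)`, `x = ‖g‖`. `x² = mass A (W f) = ⟨g, W f⟩` (`B.cut_facts`), by `W_integral` it
is at most `∫ gauss(s) ‖g‖ ‖B.cut A (U_s f)‖ ds` (`⟨g, U f⟩ = ⟨g, cut A (U f)⟩`) and
`‖g‖ ‖cut‖ ≤ (x² + mass A (U_s f)) / 2`; the Gaussian has integral one, so
`x² ≤ x² / 2 + (1/2) ∫ gauss(s) mass A (U_s f) ds`. The function `s ↦ mass A (U_s f)` is continuous
(`continuous_U`, `B.cut` is a contraction: `‖cut A f - cut A g‖ ≤ ‖f - g‖`) and bounded. -/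
theorem mass_W_le (S : Spec D) {h : ℝ} (hh0 : 0 < h) (l : ℝ) (f : HD D) {A : Set P}
    (hA : MeasurableSet A) :
    mass A (S.W h l f) ≤ ∫ s : ℝ, ((Real.sqrt (2 * Real.pi))⁻¹ * Real.exp (-s ^ 2 / 2)) *
      mass A (S.U h (l - 2 * Real.sqrt h * s) f) := by
  set g := B.cut A (S.W h l f) with hg
  have hc := B.cut_facts hA (S.W h l f) (S.W h l f)
  have h1 := W_integral S hh0 l f g
  rw [hg, hc.2.2.1, ← hg] at h1
  have hcont : Continuous fun s : ℝ => mass A (S.U h (l - 2 * Real.sqrt h * s) f) := by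
    have h2 : Continuous fun s : ℝ => S.U h (l - 2 * Real.sqrt h * s) f :=
      (continuous_U S h f).comp (by fun_prop)
    exact (b04_mass hA).comp h2
  have hle : ∀ s : ℝ, mass A (S.U h (l - 2 * Real.sqrt h * s) f) ≤ ‖f‖ ^ 2 := by
    intro s
    have h2 := (B.cut_facts hA (S.U h (l - 2 * Real.sqrt h * s) f) f).2.2.2.2
    rwa [norm_U] at h2
  have hge : ∀ s : ℝ, 0 ≤ mass A (S.U h (l - 2 * Real.sqrt h * s) f) := fun s =>
    (B.cut_facts hA (S.U h (l - 2 * Real.sqrt h * s) f) f).2.2.2.1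
  have hint : Integrable fun s : ℝ => ((Real.sqrt (2 * Real.pi))⁻¹ * Real.exp (-s ^ 2 / 2)) *
      mass A (S.U h (l - 2 * Real.sqrt h * s) f) := by
    refine b04_int.mul_bdd (c := ‖f‖ ^ 2) hcont.aestronglyMeasurable
      (Eventually.of_forall fun s => ?_)
    rw [Real.norm_of_nonneg (hge s)]
    exact hle s
  have hm0 : 0 ≤ mass A (S.W h l f) := hc.2.2.2.1
  have h3 : mass A (S.W h l f) ≤ ∫ s : ℝ, (1 / 2 * mass A (S.W h l f) *
      ((Real.sqrt (2 * Real.pi))⁻¹ * Real.exp (-s ^ 2 / 2)) +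
      1 / 2 * (((Real.sqrt (2 * Real.pi))⁻¹ * Real.exp (-s ^ 2 / 2)) *
        mass A (S.U h (l - 2 * Real.sqrt h * s) f))) := by
    calc mass A (S.W h l f) = ‖((mass A (S.W h l f) : ℝ) : ℂ)‖ := by
          rw [Complex.norm_real, Real.norm_of_nonneg hm0]
      _ ≤ _ := by
        rw [h1]
        refine norm_integral_le_of_norm_le ((b04_int.const_mul _).add (hint.const_mul _))
          (Eventually.of_forall fun s => ?_)
        rw [norm_mul, norm_mul, Complex.norm_real, Real.norm_of_nonneg (by positivity)]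
        have e1 : ‖Complex.exp (-(s / Real.sqrt h : ℝ) * Complex.I)‖ = 1 := by
          rw [← Complex.ofReal_neg, Complex.norm_exp_ofReal_mul_I]
        rw [e1, mul_one]
        have e2 := B.cut_facts hA (S.W h l f) (S.U h (l - 2 * Real.sqrt h * s) f)
        have e3 := (B.cut_facts hA (S.U h (l - 2 * Real.sqrt h * s) f) f).1
        have e4 : ‖(inner ℂ g (S.U h (l - 2 * Real.sqrt h * s) f) : ℂ)‖ ≤
            1 / 2 * mass A (S.W h l f) +
              1 / 2 * mass A (S.U h (l - 2 * Real.sqrt h * s) f) := by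
          rw [hg, e2.2.1, ← e2.1, ← e3]
          refine (norm_inner_le_norm _ _).trans ?_
          nlinarith [sq_nonneg (‖B.cut A (S.W h l f)‖ -
            ‖B.cut A (S.U h (l - 2 * Real.sqrt h * s) f)‖)]
        have e5 : 0 ≤ (Real.sqrt (2 * Real.pi))⁻¹ * Real.exp (-s ^ 2 / 2) := by positivity
        have e6 := mul_le_mul_of_nonneg_left e4 e5
        linarith
  have k1 := integral_const_mul (μ := volume) (1 / 2 * mass A (S.W h l f))
    (fun s : ℝ => (Real.sqrt (2 * Real.pi))⁻¹ * Real.exp (-s ^ 2 / 2))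
  have k2 := integral_const_mul (μ := volume) (1 / 2 : ℝ)
    (fun s : ℝ => ((Real.sqrt (2 * Real.pi))⁻¹ * Real.exp (-s ^ 2 / 2)) *
      mass A (S.U h (l - 2 * Real.sqrt h * s) f))
  rw [integral_add (b04_int.const_mul _) (hint.const_mul _), k1, b04_one, k2] at h3
  linarith

end

end Pool.Agent.MP4eed4eR
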