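import Pool.Agent.Lib.MP_4eed4e_an_R.Base

/-!
MP_4eed4e_an, project R, block B, module B05: folding, elementary facts.
-/

namespace Pool.Agent.MP4eed4eR

open MeasureTheory Set Filter Topology Metric
open scoped ComplexConjugate ContDiff ENNReal

noncomputable section

variable {D : Set P}

private theorem B05_refl₁ (a : ℝ) :
    MeasurePreserving (fun q : P => ((2 * a - q.1, q.2) : P)) volume volume := by
  have h1 : MeasurePreserving (fun y : ℝ => 2 * a - y) volume volume :=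
    Measure.measurePreserving_sub_left volume (2 * a)
  exact h1.prod (MeasurePreserving.id volume)

private theorem B05_refl₂ (a : ℝ) :
    MeasurePreserving (fun q : P => ((q.1, 2 * a - q.2) : P)) volume volume := by
  have h1 : MeasurePreserving (fun y : ℝ => 2 * a - y) volume volume :=
    Measure.measurePreserving_sub_left volume (2 * a)
  exact (MeasurePreserving.id volume).prod h1

private theorem B05_refl₃ (a b : ℝ) :
    MeasurePreserving (fun q : P => ((2 * a - q.1, 2 * b - q.2) : P)) volume volume := by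
  have h1 : MeasurePreserving (fun y : ℝ => 2 * a - y) volume volume :=
    Measure.measurePreserving_sub_left volume (2 * a)
  have h2 : MeasurePreserving (fun y : ℝ => 2 * b - y) volume volume :=
    Measure.measurePreserving_sub_left volume (2 * b)
  exact h1.prod h2

private theorem B05_cell {D U : Set P} (hD : IsOpen D) (hU : IsPreconnected U)
    (hf : ∀ q ∈ U, q ∉ frontier D) : U ⊆ D ∨ ∀ q ∈ U, q ∉ D := by
  have h1 : U ⊆ D ∪ (closure D)ᶜ := by
    intro q hq
    by_cases hqD : q ∈ D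
    · exact Or.inl hqD
    · refine Or.inr fun hc => hf q hq ?_
      rw [hD.frontier_eq]
      exact ⟨hc, hqD⟩
  have h2 : U ∩ (D ∩ (closure D)ᶜ) = ∅ := by
    rw [eq_empty_iff_forall_notMem]
    rintro q ⟨-, h3, h4⟩
    exact h4 (subset_closure h3)
  rcases isPreconnected_iff_subset_of_disjoint.1 hU D (closure D)ᶜ hD isClosed_closure.isOpen_compl
    h1 h2 with h3 | h3
  · exact Or.inl h3
  · exact Or.inr fun q hq hqD => h3 hq (subset_closure hqD)

private theorem B05_off (B : Finset ℝ) (y : ℝ) {r : ℝ} (hr : 0 < r) :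
    ∃ z, |z - y| < r ∧ z ∉ B := by
  obtain ⟨z, hz, hzB⟩ := (Ioo_infinite (show y < y + r by linarith)).exists_notMem_finset B
  refine ⟨z, ?_, hzB⟩
  rw [abs_of_pos (by linarith [hz.1])]
  linarith [hz.2]

private theorem B05_sgn {s : ℝ} (hs : IsSgn s) (h0 : s ≠ 0) : s = 1 ∨ s = -1 := by
  rcases hs with h | h
  · exact absurd h h0
  · exact h

/-- No element of the grid between two points on the same side of `a`. -/
private theorem B05_gap {A : Finset ℝ} {a u v ρ : ℝ} (hgap : ∀ a' ∈ A, a' ≠ a → 4 * ρ ≤ |a' - a|)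
    {s : ℝ} (hs : s = 1 ∨ s = -1) (hu : 0 < s * (u - a)) (hv : 0 < s * (v - a))
    (hu' : |u - a| < 2 * ρ) (hv' : |v - a| < 2 * ρ) : ∀ a' ∈ A, a' ∉ uIcc u v := by
  intro a' ha' hin
  rw [mem_uIcc] at hin
  have h1 : a' ≠ a := by
    intro h
    rw [h] at hin
    rcases hs with hs | hs <;> rw [hs] at hu hv <;> rcases hin with h | h <;> linarith [h.1, h.2]
  have h2 := hgap a' ha' h1
  rw [abs_lt] at hu' hv'
  have h3 : |a' - a| < 2 * ρ := by
    rw [abs_lt]
    rcases hin with h | h <;> constructor <;> linarith [h.1, h.2, hu'.1, hu'.2, hv'.1, hv'.2]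
  have h4 : 0 ≤ |a' - a| := abs_nonneg _
  linarith

/-- A point close to `a` strictly on the side `s` of `a`. -/
private theorem B05_near {a x ρ s : ℝ} (hs : s = 1 ∨ s = -1) (hax : |a - x| < ρ) :
    ∃ z, 0 < s * (z - a) ∧ |z - x| < ρ ∧ |z - a| < 2 * ρ := by
  rw [abs_lt] at hax
  have hρ : 0 < ρ := by linarith [hax.1, hax.2]
  have h0 : 0 < min (ρ - (a - x)) (ρ + (a - x)) := lt_min (by linarith) (by linarith)
  have h1 := min_le_left (ρ - (a - x)) (ρ + (a - x))
  have h2 := min_le_right (ρ - (a - x)) (ρ + (a - x))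
  set m := min (ρ - (a - x)) (ρ + (a - x)) with hm
  refine ⟨a + s * (m / 2), ?_, ?_, ?_⟩
  · rcases hs with h | h <;> rw [h] <;> linarith
  · rw [abs_lt]
    rcases hs with h | h <;> rw [h] <;> constructor <;> linarith
  · rw [abs_lt]
    rcases hs with h | h <;> rw [h] <;> constructor <;> linarith

/-- Proof: each of the four terms is a constant times `F` composed with an isometry of the plane
that preserves the measure (`q ↦ (2 a - q.1, q.2)`, ...); restrict, indicator of the identity. -/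
theorem memLp_fold {G : Geo D} {ρ : ℝ} (W : Walls G ρ) (e₁ e₂ : ℝ) (x : P) {F : P → ℂ}
    (hF : MemLp F 2 volume) : MemLp (W.fold e₁ e₂ x F) 2 (volume.restrict D) := by
  have h : MemLp (foldF e₁ e₂ (W.w1 x) (W.w2 x) F) 2 volume := by
    have h1 : MemLp (fun q : P => F (2 * (W.w1 x).1 - q.1, q.2)) 2 volume :=
      hF.comp_measurePreserving (B05_refl₁ _)
    have h2 : MemLp (fun q : P => F (q.1, 2 * (W.w2 x).1 - q.2)) 2 volume :=
      hF.comp_measurePreserving (B05_refl₂ _)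
    have h3 : MemLp (fun q : P => F (2 * (W.w1 x).1 - q.1, 2 * (W.w2 x).1 - q.2)) 2 volume :=
      hF.comp_measurePreserving (B05_refl₃ _ _)
    exact ((hF.add (h1.const_mul _)).add (h2.const_mul _)).add (h3.const_mul _)
  exact (h.restrict D).indicator G.isOpen.measurableSet

/-- No boundary in a box: if no element of `G.A` lies between `p.1` and `q.1` and no element of
`G.B` between `p.2` and `q.2`, then `p ∈ D ↔ q ∈ D`. Proof: the segment from `p` to `q` is connected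
and disjoint from `frontier D` by `G.front`; a connected set that meets `D` and its complement
meets the frontier (`IsPreconnected.inter_frontier_nonempty` or similar). -/
theorem B.box {G : Geo D} {p q : P} (h1 : ∀ a ∈ G.A, a ∉ uIcc p.1 q.1)
    (h2 : ∀ b ∈ G.B, b ∉ uIcc p.2 q.2) : p ∈ D ↔ q ∈ D := by
  have hU : IsPreconnected (uIcc p.1 q.1 ×ˢ uIcc p.2 q.2) :=
    isPreconnected_uIcc.prod isPreconnected_uIcc
  have hp : p ∈ uIcc p.1 q.1 ×ˢ uIcc p.2 q.2 := ⟨left_mem_uIcc, left_mem_uIcc⟩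
  have hq : q ∈ uIcc p.1 q.1 ×ˢ uIcc p.2 q.2 := ⟨right_mem_uIcc, right_mem_uIcc⟩
  have hf : ∀ z ∈ uIcc p.1 q.1 ×ˢ uIcc p.2 q.2, z ∉ frontier D := by
    intro z hz hzf
    rcases G.front z hzf with h | h
    · exact h1 _ h hz.1
    · exact h2 _ h hz.2
  rcases B05_cell G.isOpen hU hf with h | h
  · exact ⟨fun _ => h hq, fun _ => h hp⟩
  · exact ⟨fun h' => absurd h' (h p hp), fun h' => absurd h' (h q hq)⟩

/-- The wrong side of a wall. Let `x` have the walls `w₁`, `w₂` at the scale `ρ ≤ 4 ρ₀` and let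
`q ∈ D` be such that `|q.1 - x.1| < 3 ρ` and `|q.2 - x.2| < 3 ρ` (if there is a vertical wall) resp.
`|q.1 - x.1| < 3ρ`. Then `q` is on the inner side of the walls that exist. Precisely: if
`(W.w1 x).2 ≠ 0`, `|q.1 - (W.w1 x).1| < 2 ρ`, and either `|q.2 - x.2| < ρ` or
(`(W.w2 x).2 ≠ 0` and `|q.2 - (W.w2 x).1| < 2 ρ`), then `0 < (W.w1 x).2 * (q.1 - (W.w1 x).1)`.

Proof. `D` is open, so after a small change of `q` (finitely many excluded values; all hypotheses
are open conditions, and the negation of the conclusion can be made strict by moving `q` to the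
wrong side) we may assume `q ∈ D`, `q.1 ∉ G.A`, `q.2 ∉ G.B`, `(W.w1 x).2 * (q.1 - a) < 0`. Choose
`p ∈ ball x ρ` with `p.1` strictly between `a` and `q.1` (possible since `|a - x.1| < ρ`), and: in
the first case `p.2 = q.2`; in the second case `p.2` strictly on the same side of `b = (W.w2 x).1`
as `q.2`, between `b` and `q.2`, and `|p.2 - x.2| < ρ`. By the gaps `16 ρ₀ ≥ 4 ρ` of `G.A` and
`G.B` no grid line separates `p` and `q` (`B.box`): the elements of `G.A` other than `a` are at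
distance `≥ 4 ρ` from `a`. So `p ∈ D`; but `wIn (W.w1 x) p.1` is false, which contradicts
`W.model`. -/
theorem B.side1 {G : Geo D} {ρ : ℝ} (hρ : 0 < ρ) (hρ' : ρ ≤ 4 * G.rho0) (W : Walls G ρ) {x : P}
    (hx : x ∈ closure D) (hfar : G.Far ρ x) {q : P} (hq : q ∈ D) (h1 : (W.w1 x).2 ≠ 0)
    (hd : |q.1 - (W.w1 x).1| < 2 * ρ)
    (h2 : |q.2 - x.2| < ρ ∨ ((W.w2 x).2 ≠ 0 ∧ |q.2 - (W.w2 x).1| < 2 * ρ)) :
    0 < (W.w1 x).2 * (q.1 - (W.w1 x).1) := by
  by_contra hcon
  push Not at hcon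
  set a := (W.w1 x).1 with ha
  set s := (W.w1 x).2 with hs
  have hs1 : s = 1 ∨ s = -1 := B05_sgn (W.sgn1 x) h1
  obtain ⟨haA, hax⟩ := W.near1 x h1
  -- a point of the domain strictly on the wrong side, off the other grid lines
  obtain ⟨r, hr, hball⟩ := Metric.isOpen_iff.1 G.isOpen q hq
  obtain ⟨e₁, he₁, he₁r, he₁d⟩ : ∃ e : ℝ, 0 < e ∧ e < r ∧ |q.1 - a| + e < 2 * ρ := by
    refine ⟨min r (2 * ρ - |q.1 - a|) / 2, ?_, ?_, ?_⟩
    · have : 0 < min r (2 * ρ - |q.1 - a|) := lt_min hr (by linarith)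
      linarith
    · have := min_le_left r (2 * ρ - |q.1 - a|)
      linarith
    · have := min_le_right r (2 * ρ - |q.1 - a|)
      linarith
  obtain ⟨z, hz, hzB, hz2⟩ : ∃ z : ℝ, |z - q.2| < r ∧ z ∉ G.B ∧
      (|z - x.2| < ρ ∨ ((W.w2 x).2 ≠ 0 ∧ |z - (W.w2 x).1| < 2 * ρ)) := by
    rcases h2 with h2 | ⟨h2, h3⟩
    · obtain ⟨z, hz, hzB⟩ := B05_off G.B q.2 (r := min r (ρ - |q.2 - x.2|))
        (lt_min hr (by linarith))
      refine ⟨z, hz.trans_le (min_le_left _ _), hzB, Or.inl ?_⟩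
      have h4 := hz.trans_le (min_le_right _ _)
      have h5 : |z - x.2| ≤ |z - q.2| + |q.2 - x.2| := by
        have := abs_add_le (z - q.2) (q.2 - x.2)
        rwa [sub_add_sub_cancel] at this
      linarith
    · obtain ⟨z, hz, hzB⟩ := B05_off G.B q.2 (r := min r (2 * ρ - |q.2 - (W.w2 x).1|))
        (lt_min hr (by linarith))
      refine ⟨z, hz.trans_le (min_le_left _ _), hzB, Or.inr ⟨h2, ?_⟩⟩
      have h4 := hz.trans_le (min_le_right _ _)
      have h5 : |z - (W.w2 x).1| ≤ |z - q.2| + |q.2 - (W.w2 x).1| := by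
        have := abs_add_le (z - q.2) (q.2 - (W.w2 x).1)
        rwa [sub_add_sub_cancel] at this
      linarith
  set q' : P := (q.1 - s * e₁, z) with hq'
  have hq'D : q' ∈ D := by
    refine hball ?_
    rw [mem_ball, Prod.dist_eq, max_lt_iff, Real.dist_eq, Real.dist_eq]
    rw [hq']
    dsimp only
    have h6 : |q.1 - s * e₁ - q.1| < r := by
      rw [sub_sub_cancel_left, abs_neg, abs_mul, abs_of_pos he₁]
      rcases hs1 with h | h <;> rw [h] <;> simpa using he₁r
    exact ⟨h6, hz⟩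
  have hw : 0 < -s * (q.1 - s * e₁ - a) := by
    have h6 : -s * (q.1 - s * e₁ - a) = -(s * (q.1 - a)) + s ^ 2 * e₁ := by ring
    rw [h6]
    rcases hs1 with h | h <;> rw [h] at hcon ⊢ <;> nlinarith
  have hw' : |q.1 - s * e₁ - a| < 2 * ρ := by
    have h6 : |q.1 - s * e₁ - a| ≤ |q.1 - a| + |s * e₁| := by
      have := abs_sub (q.1 - a) (s * e₁)
      rwa [show q.1 - a - s * e₁ = q.1 - s * e₁ - a by ring] at this
    rw [abs_mul, abs_of_pos he₁] at h6
    have h7 : |s| = 1 := by rcases hs1 with h | h <;> rw [h] <;> norm_num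
    rw [h7, one_mul] at h6
    linarith
  have hsn : -s = 1 ∨ -s = -1 := by
    rcases hs1 with h | h <;> rw [h]
    · right; rfl
    · left; norm_num
  obtain ⟨p₁, hp1, hp2, hp3⟩ := B05_near hsn hax
  have hgA : ∀ a' ∈ G.A, a' ≠ a → 4 * ρ ≤ |a' - a| := by
    intro a' ha' hne
    have := G.gapA a' ha' a haA hne
    linarith
  have hA := B05_gap hgA hsn hp1 hw hp3 hw'
  obtain ⟨p₂, hp4, hp5⟩ : ∃ p₂ : ℝ, |p₂ - x.2| < ρ ∧ ∀ b ∈ G.B, b ∉ uIcc p₂ z := by
    rcases hz2 with hz2 | ⟨h2', hz2⟩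
    · refine ⟨z, hz2, ?_⟩
      intro b hb hin
      rw [uIcc_self, mem_singleton_iff] at hin
      rw [hin] at hb
      exact hzB hb
    · obtain ⟨hbB, hbx⟩ := W.near2 x h2'
      have hzb : z ≠ (W.w2 x).1 := by
        intro h
        rw [h] at hzB
        exact hzB hbB
      obtain ⟨σ, hσ, hσz⟩ : ∃ σ : ℝ, (σ = 1 ∨ σ = -1) ∧ 0 < σ * (z - (W.w2 x).1) := by
        rcases lt_or_gt_of_ne hzb with h | h
        · exact ⟨-1, Or.inr rfl, by linarith⟩
        · exact ⟨1, Or.inl rfl, by linarith⟩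
      obtain ⟨p₂, g1, g2, g3⟩ := B05_near hσ hbx
      have hgB : ∀ b' ∈ G.B, b' ≠ (W.w2 x).1 → 4 * ρ ≤ |b' - (W.w2 x).1| := by
        intro b' hb' hne
        have := G.gapB b' hb' _ hbB hne
        linarith
      exact ⟨p₂, g2, B05_gap hgB hσ g1 hσz g3 hz2⟩
  have hbox : ((p₁, p₂) : P) ∈ D := (B.box (G := G) (p := (p₁, p₂)) (q := q') hA hp5).2 hq'D
  have hpb : ((p₁, p₂) : P) ∈ ball x ρ := by
    rw [mem_ball, Prod.dist_eq, max_lt_iff, Real.dist_eq, Real.dist_eq]
    exact ⟨hp2, hp4⟩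
  have hwin := ((W.model x hx hfar (p₁, p₂) hpb).1 hbox).1
  rcases hwin with h | h
  · exact h1 h
  · rw [← ha, ← hs] at h
    dsimp only at h
    linarith

/-- The same for the horizontal wall. -/
theorem B.side2 {G : Geo D} {ρ : ℝ} (hρ : 0 < ρ) (hρ' : ρ ≤ 4 * G.rho0) (W : Walls G ρ) {x : P}
    (hx : x ∈ closure D) (hfar : G.Far ρ x) {q : P} (hq : q ∈ D) (h1 : (W.w2 x).2 ≠ 0)
    (hd : |q.2 - (W.w2 x).1| < 2 * ρ)
    (h2 : |q.1 - x.1| < ρ ∨ ((W.w1 x).2 ≠ 0 ∧ |q.1 - (W.w1 x).1| < 2 * ρ)) :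
    0 < (W.w2 x).2 * (q.2 - (W.w2 x).1) := by
  by_contra hcon
  push Not at hcon
  set a := (W.w2 x).1 with ha
  set s := (W.w2 x).2 with hs
  have hs1 : s = 1 ∨ s = -1 := B05_sgn (W.sgn2 x) h1
  obtain ⟨haA, hax⟩ := W.near2 x h1
  -- a point of the domain strictly on the wrong side, off the other grid lines
  obtain ⟨r, hr, hball⟩ := Metric.isOpen_iff.1 G.isOpen q hq
  obtain ⟨e₁, he₁, he₁r, he₁d⟩ : ∃ e : ℝ, 0 < e ∧ e < r ∧ |q.2 - a| + e < 2 * ρ := by
    refine ⟨min r (2 * ρ - |q.2 - a|) / 2, ?_, ?_, ?_⟩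
    · have : 0 < min r (2 * ρ - |q.2 - a|) := lt_min hr (by linarith)
      linarith
    · have := min_le_left r (2 * ρ - |q.2 - a|)
      linarith
    · have := min_le_right r (2 * ρ - |q.2 - a|)
      linarith
  obtain ⟨z, hz, hzB, hz2⟩ : ∃ z : ℝ, |z - q.1| < r ∧ z ∉ G.A ∧
      (|z - x.1| < ρ ∨ ((W.w1 x).2 ≠ 0 ∧ |z - (W.w1 x).1| < 2 * ρ)) := by
    rcases h2 with h2 | ⟨h2, h3⟩
    · obtain ⟨z, hz, hzB⟩ := B05_off G.A q.1 (r := min r (ρ - |q.1 - x.1|))
        (lt_min hr (by linarith))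
      refine ⟨z, hz.trans_le (min_le_left _ _), hzB, Or.inl ?_⟩
      have h4 := hz.trans_le (min_le_right _ _)
      have h5 : |z - x.1| ≤ |z - q.1| + |q.1 - x.1| := by
        have := abs_add_le (z - q.1) (q.1 - x.1)
        rwa [sub_add_sub_cancel] at this
      linarith
    · obtain ⟨z, hz, hzB⟩ := B05_off G.A q.1 (r := min r (2 * ρ - |q.1 - (W.w1 x).1|))
        (lt_min hr (by linarith))
      refine ⟨z, hz.trans_le (min_le_left _ _), hzB, Or.inr ⟨h2, ?_⟩⟩
      have h4 := hz.trans_le (min_le_right _ _)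
      have h5 : |z - (W.w1 x).1| ≤ |z - q.1| + |q.1 - (W.w1 x).1| := by
        have := abs_add_le (z - q.1) (q.1 - (W.w1 x).1)
        rwa [sub_add_sub_cancel] at this
      linarith
  set q' : P := (z, q.2 - s * e₁) with hq'
  have hq'D : q' ∈ D := by
    refine hball ?_
    rw [mem_ball, Prod.dist_eq, max_lt_iff, Real.dist_eq, Real.dist_eq]
    rw [hq']
    dsimp only
    have h6 : |q.2 - s * e₁ - q.2| < r := by
      rw [sub_sub_cancel_left, abs_neg, abs_mul, abs_of_pos he₁]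
      rcases hs1 with h | h <;> rw [h] <;> simpa using he₁r
    exact ⟨hz, h6⟩
  have hw : 0 < -s * (q.2 - s * e₁ - a) := by
    have h6 : -s * (q.2 - s * e₁ - a) = -(s * (q.2 - a)) + s ^ 2 * e₁ := by ring
    rw [h6]
    rcases hs1 with h | h <;> rw [h] at hcon ⊢ <;> nlinarith
  have hw' : |q.2 - s * e₁ - a| < 2 * ρ := by
    have h6 : |q.2 - s * e₁ - a| ≤ |q.2 - a| + |s * e₁| := by
      have := abs_sub (q.2 - a) (s * e₁)
      rwa [show q.2 - a - s * e₁ = q.2 - s * e₁ - a by ring] at this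
    rw [abs_mul, abs_of_pos he₁] at h6
    have h7 : |s| = 1 := by rcases hs1 with h | h <;> rw [h] <;> norm_num
    rw [h7, one_mul] at h6
    linarith
  have hsn : -s = 1 ∨ -s = -1 := by
    rcases hs1 with h | h <;> rw [h]
    · right; rfl
    · left; norm_num
  obtain ⟨p₁, hp1, hp2, hp3⟩ := B05_near hsn hax
  have hgA : ∀ a' ∈ G.B, a' ≠ a → 4 * ρ ≤ |a' - a| := by
    intro a' ha' hne
    have := G.gapB a' ha' a haA hne
    linarith
  have hA := B05_gap hgA hsn hp1 hw hp3 hw'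
  obtain ⟨p₂, hp4, hp5⟩ : ∃ p₂ : ℝ, |p₂ - x.1| < ρ ∧ ∀ b ∈ G.A, b ∉ uIcc p₂ z := by
    rcases hz2 with hz2 | ⟨h2', hz2⟩
    · refine ⟨z, hz2, ?_⟩
      intro b hb hin
      rw [uIcc_self, mem_singleton_iff] at hin
      rw [hin] at hb
      exact hzB hb
    · obtain ⟨hbB, hbx⟩ := W.near1 x h2'
      have hzb : z ≠ (W.w1 x).1 := by
        intro h
        rw [h] at hzB
        exact hzB hbB
      obtain ⟨σ, hσ, hσz⟩ : ∃ σ : ℝ, (σ = 1 ∨ σ = -1) ∧ 0 < σ * (z - (W.w1 x).1) := by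
        rcases lt_or_gt_of_ne hzb with h | h
        · exact ⟨-1, Or.inr rfl, by linarith⟩
        · exact ⟨1, Or.inl rfl, by linarith⟩
      obtain ⟨p₂, g1, g2, g3⟩ := B05_near hσ hbx
      have hgB : ∀ b' ∈ G.A, b' ≠ (W.w1 x).1 → 4 * ρ ≤ |b' - (W.w1 x).1| := by
        intro b' hb' hne
        have := G.gapA b' hb' _ hbB hne
        linarith
      exact ⟨p₂, g2, B05_gap hgB hσ g1 hσz g3 hz2⟩
  have hbox : ((p₂, p₁) : P) ∈ D := (B.box (G := G) (p := (p₂, p₁)) (q := q') hp5 hA).2 hq'D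
  have hpb : ((p₂, p₁) : P) ∈ ball x ρ := by
    rw [mem_ball, Prod.dist_eq, max_lt_iff, Real.dist_eq, Real.dist_eq]
    exact ⟨hp4, hp2⟩
  have hwin := ((W.model x hx hfar (p₂, p₁) hpb).1 hbox).2
  rcases hwin with h | h
  · exact h1 h
  · rw [← ha, ← hs] at h
    dsimp only at h
    linarith

/-- The centre is on the inner side of its walls. Proof: `x ∈ closure D`, so there are points
`q ∈ D` near `x` and by `W.model` they satisfy `wIn`; pass to the limit. -/
theorem B.center {G : Geo D} {ρ : ℝ} (hρ : 0 < ρ) (W : Walls G ρ) {x : P}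
    (hx : x ∈ closure D) (hfar : G.Far ρ x) :
    0 ≤ (W.w1 x).2 * (x.1 - (W.w1 x).1) ∧ 0 ≤ (W.w2 x).2 * (x.2 - (W.w2 x).1) := by
  constructor
  · by_contra hneg
    push Not at hneg
    have hopen : IsOpen {q : P | (W.w1 x).2 * (q.1 - (W.w1 x).1) < 0} :=
      isOpen_lt (continuous_const.mul (continuous_fst.sub continuous_const)) continuous_const
    have hnh : {q : P | (W.w1 x).2 * (q.1 - (W.w1 x).1) < 0} ∩ ball x ρ ∈ 𝓝 x :=
      inter_mem (hopen.mem_nhds hneg) (ball_mem_nhds x hρ)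
    obtain ⟨q, ⟨hq1, hq2⟩, hqD⟩ := mem_closure_iff_nhds.1 hx _ hnh
    have hq1' : (W.w1 x).2 * (q.1 - (W.w1 x).1) < 0 := hq1
    rcases ((W.model x hx hfar q hq2).1 hqD).1 with h | h
    · rw [h, zero_mul] at hq1'
      exact lt_irrefl _ hq1'
    · linarith
  · by_contra hneg
    push Not at hneg
    have hopen : IsOpen {q : P | (W.w2 x).2 * (q.2 - (W.w2 x).1) < 0} :=
      isOpen_lt (continuous_const.mul (continuous_snd.sub continuous_const)) continuous_const
    have hnh : {q : P | (W.w2 x).2 * (q.2 - (W.w2 x).1) < 0} ∩ ball x ρ ∈ 𝓝 x :=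
      inter_mem (hopen.mem_nhds hneg) (ball_mem_nhds x hρ)
    obtain ⟨q, ⟨hq1, hq2⟩, hqD⟩ := mem_closure_iff_nhds.1 hx _ hnh
    have hq1' : (W.w2 x).2 * (q.2 - (W.w2 x).1) < 0 := hq1
    rcases ((W.model x hx hfar q hq2).1 hqD).2 with h | h
    · rw [h, zero_mul] at hq1'
      exact lt_irrefl _ hq1'
    · linarith

/-- The images of `q`: `i`, `j` say whether we reflect. -/
def B.img (w₁ w₂ : ℝ × ℝ) (i j : Bool) (q : P) : P :=
  (if i then 2 * w₁.1 - q.1 else q.1, if j then 2 * w₂.1 - q.2 else q.2)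

private theorem B05_same {s a q x R : ℝ} (hs : s = 1 ∨ s = -1) (h1 : 0 < s * (q - a))
    (h2 : 0 ≤ s * (x - a)) (h : |2 * a - q - x| ≤ R) : |q - x| ≤ R := by
  rw [abs_le] at h ⊢
  rcases hs with hs | hs <;> rw [hs] at h1 h2 <;> constructor <;> linarith [h.1, h.2]

private theorem B05_dist {a q x R ρ : ℝ} (h : |2 * a - q - x| ≤ R) (hax : |a - x| < ρ)
    (hR : 2 * R ≤ ρ) : |q - a| < 2 * ρ := by
  have h0 : 0 ≤ R := (abs_nonneg _).trans h
  rw [abs_le] at h
  rw [abs_lt] at hax ⊢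
  constructor <;> linarith [h.1, h.2, hax.1, hax.2]

/-- Points of `D` whose image is near `x` are near `x` (the reflection is only used if the wall
exists). Proof: if `i = true` then `|q.1 - a| = |image.1 - a| ≤ R + ρ < 2 ρ` (`W.near1`), similarly
for `j`; if `j = false` then `|q.2 - x.2| ≤ R < ρ`. So `B.side1`, `B.side2` apply: `q` and (by
`B.center`) `x` are on the inner side, and `|q.1 - x.1| ≤ |2 a - q.1 - x.1|` for two numbers on the
same side of `a`. -/
theorem B.img_near {G : Geo D} {ρ R : ℝ} (hρ : 0 < ρ) (hρ' : ρ ≤ 4 * G.rho0) (hR : 0 < R)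
    (hR' : 2 * R ≤ ρ) (W : Walls G ρ) {x : P} (hx : x ∈ closure D) (hfar : G.Far ρ x) {q : P}
    (hq : q ∈ D) (i j : Bool) (hi : i = true → (W.w1 x).2 ≠ 0) (hj : j = true → (W.w2 x).2 ≠ 0)
    (h : dist (B.img (W.w1 x) (W.w2 x) i j q) x ≤ R) : dist q x ≤ R := by
  rw [Prod.dist_eq, max_le_iff, Real.dist_eq, Real.dist_eq] at h ⊢
  obtain ⟨hc1, hc2⟩ := B.center hρ W hx hfar
  have hRρ : R < ρ := by linarith
  unfold B.img at h
  cases i <;> cases j
  · simpa using h
  · have hj' := hj rfl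
    obtain ⟨-, hbx⟩ := W.near2 x hj'
    simp only [Bool.false_eq_true, if_false, if_true] at h
    obtain ⟨k1, k2⟩ := h
    have hd := B05_dist k2 hbx hR'
    have hside := B.side2 hρ hρ' W hx hfar hq hj' hd (Or.inl (k1.trans_lt hRρ))
    exact ⟨k1, B05_same (B05_sgn (W.sgn2 x) hj') hside hc2 k2⟩
  · have hi' := hi rfl
    obtain ⟨-, hax⟩ := W.near1 x hi'
    simp only [Bool.false_eq_true, if_false, if_true] at h
    obtain ⟨k1, k2⟩ := h
    have hd := B05_dist k1 hax hR'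
    have hside := B.side1 hρ hρ' W hx hfar hq hi' hd (Or.inl (k2.trans_lt hRρ))
    exact ⟨B05_same (B05_sgn (W.sgn1 x) hi') hside hc1 k1, k2⟩
  · have hi' := hi rfl
    have hj' := hj rfl
    obtain ⟨-, hax⟩ := W.near1 x hi'
    obtain ⟨-, hbx⟩ := W.near2 x hj'
    simp only [if_true] at h
    obtain ⟨k1, k2⟩ := h
    have hd1 := B05_dist k1 hax hR'
    have hd2 := B05_dist k2 hbx hR'
    have s1 := B.side1 hρ hρ' W hx hfar hq hi' hd1 (Or.inr ⟨hj', hd2⟩)
    have s2 := B.side2 hρ hρ' W hx hfar hq hj' hd2 (Or.inr ⟨hi', hd1⟩)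
    exact ⟨B05_same (B05_sgn (W.sgn1 x) hi') s1 hc1 k1,
      B05_same (B05_sgn (W.sgn2 x) hj') s2 hc2 k2⟩

/-- The folded function lives near the centre (in all of `D`): from `B.img_near`, one of the four
terms of `foldF` is not zero (a reflected term has the coefficient zero if the wall does not
exist). -/
theorem fold_supp {G : Geo D} {ρ R : ℝ} (hρ : 0 < ρ) (hρ' : ρ ≤ 4 * G.rho0) (hR : 0 < R)
    (hR' : 2 * R ≤ ρ) (W : Walls G ρ) {x : P} (hx : x ∈ closure D) (hfar : G.Far ρ x)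
    {F : P → ℂ} (hF : ∀ y, R < dist y x → F y = 0) (e₁ e₂ : ℝ) {q : P} (hq : q ∈ D)
    (h0 : W.fold e₁ e₂ x F q ≠ 0) : dist q x ≤ R := by
  by_contra hd
  have key : ∀ i j : Bool, (i = true → (W.w1 x).2 ≠ 0) → (j = true → (W.w2 x).2 ≠ 0) →
      F (B.img (W.w1 x) (W.w2 x) i j q) = 0 := by
    intro i j hi hj
    refine hF _ ?_
    by_contra h
    exact hd (B.img_near hρ hρ' hR hR' W hx hfar hq i j hi hj (not_lt.1 h))
  apply h0
  unfold Walls.fold
  rw [indicator_of_mem hq]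
  unfold foldF
  have k0 : F q = 0 := by
    have := key false false (by simp) (by simp)
    simpa [B.img] using this
  have k1 : ((e₁ * (W.w1 x).2 ^ 2 : ℝ) : ℂ) * F (2 * (W.w1 x).1 - q.1, q.2) = 0 := by
    by_cases hw : (W.w1 x).2 = 0
    · rw [hw]; simp
    · have := key true false (fun _ => hw) (by simp)
      simp only [B.img, if_true, Bool.false_eq_true, if_false] at this
      rw [this, mul_zero]
  have k2 : ((e₂ * (W.w2 x).2 ^ 2 : ℝ) : ℂ) * F (q.1, 2 * (W.w2 x).1 - q.2) = 0 := by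
    by_cases hw : (W.w2 x).2 = 0
    · rw [hw]; simp
    · have := key false true (by simp) (fun _ => hw)
      simp only [B.img, if_true, Bool.false_eq_true, if_false] at this
      rw [this, mul_zero]
  have k3 : ((e₁ * e₂ * ((W.w1 x).2 ^ 2 * (W.w2 x).2 ^ 2) : ℝ) : ℂ) *
      F (2 * (W.w1 x).1 - q.1, 2 * (W.w2 x).1 - q.2) = 0 := by
    by_cases hw : (W.w1 x).2 = 0
    · rw [hw]; simp
    · by_cases hw' : (W.w2 x).2 = 0
      · rw [hw']; simp
      · have := key true true (fun _ => hw) (fun _ => hw')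
        simp only [B.img, if_true] at this
        rw [this, mul_zero]
  rw [k0, k1, k2, k3]
  simp

end

end Pool.Agent.MP4eed4eR
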