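import Pool.Agent.Lib.MP_4eed4e_an_R.B05

/-!
MP_4eed4e_an, project R, block B, module B06: folded smooth functions belong to the form domain.
-/

namespace Pool.Agent.MP4eed4eR

open MeasureTheory Set Filter Topology Metric
open scoped ComplexConjugate ContDiff ENNReal

noncomputable section

variable {D : Set P}

/-! ### partial derivatives as derivatives in one variable -/

private theorem b6_d1 {φ : P → ℝ} {q : P} (h : DifferentiableAt ℝ φ q) :
    HasDerivAt (fun t => φ (t, q.2)) (d1 φ q) q.1 := by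
  have h1 : HasDerivAt (fun t : ℝ => ((t, q.2) : P)) (1, 0) q.1 :=
    (hasDerivAt_id q.1).prodMk (hasDerivAt_const q.1 q.2)
  have h2 : HasFDerivAt φ (fderiv ℝ φ q) ((fun t : ℝ => ((t, q.2) : P)) q.1) := h.hasFDerivAt
  exact h2.comp_hasDerivAt q.1 h1

private theorem b6_d2 {φ : P → ℝ} {q : P} (h : DifferentiableAt ℝ φ q) :
    HasDerivAt (fun t => φ (q.1, t)) (d2 φ q) q.2 := by
  have h1 : HasDerivAt (fun t : ℝ => ((q.1, t) : P)) (0, 1) q.2 :=
    (hasDerivAt_const q.2 q.1).prodMk (hasDerivAt_id q.2)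
  have h2 : HasFDerivAt φ (fderiv ℝ φ q) ((fun t : ℝ => ((q.1, t) : P)) q.2) := h.hasFDerivAt
  exact h2.comp_hasDerivAt q.2 h1

private theorem b6_d1_eq {φ : P → ℝ} {q : P} {c : ℝ} (h : DifferentiableAt ℝ φ q)
    (h' : HasDerivAt (fun t => φ (t, q.2)) c q.1) : d1 φ q = c := (b6_d1 h).unique h'

private theorem b6_d2_eq {φ : P → ℝ} {q : P} {c : ℝ} (h : DifferentiableAt ℝ φ q)
    (h' : HasDerivAt (fun t => φ (q.1, t)) c q.2) : d2 φ q = c := (b6_d2 h).unique h'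

private theorem b6_smooth1 {φ : P → ℝ} (h : ContDiff ℝ ∞ φ) : ContDiff ℝ ∞ (d1 φ) := by
  unfold d1
  exact (h.fderiv_right (m := ∞) (by simp)).clm_apply contDiff_const

private theorem b6_smooth2 {φ : P → ℝ} (h : ContDiff ℝ ∞ φ) : ContDiff ℝ ∞ (d2 φ) := by
  unfold d2
  exact (h.fderiv_right (m := ∞) (by simp)).clm_apply contDiff_const

private theorem b6_diff {φ : P → ℝ} (h : ContDiff ℝ ∞ φ) : Differentiable ℝ φ :=
  h.differentiable (by simp)

/-- folding with arbitrary coefficients -/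
private def foldS (a b c₁ c₂ c₃ : ℝ) (F : P → ℝ) (q : P) : ℝ :=
  F q + c₁ * F (2 * a - q.1, q.2) + c₂ * F (q.1, 2 * b - q.2)
    + c₃ * F (2 * a - q.1, 2 * b - q.2)

private theorem foldS_smooth (a b c₁ c₂ c₃ : ℝ) {F : P → ℝ} (hF : ContDiff ℝ ∞ F) :
    ContDiff ℝ ∞ (foldS a b c₁ c₂ c₃ F) := by
  unfold foldS
  have h1 : ContDiff ℝ ∞ fun q : P => F (2 * a - q.1, q.2) :=
    hF.comp ((contDiff_const.sub contDiff_fst).prodMk contDiff_snd)
  have h2 : ContDiff ℝ ∞ fun q : P => F (q.1, 2 * b - q.2) :=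
    hF.comp (contDiff_fst.prodMk (contDiff_const.sub contDiff_snd))
  have h3 : ContDiff ℝ ∞ fun q : P => F (2 * a - q.1, 2 * b - q.2) :=
    hF.comp ((contDiff_const.sub contDiff_fst).prodMk (contDiff_const.sub contDiff_snd))
  exact ((hF.add (contDiff_const.mul h1)).add (contDiff_const.mul h2)).add
    (contDiff_const.mul h3)

private theorem b6_refl (a t : ℝ) : HasDerivAt (fun t : ℝ => 2 * a - t) (-1) t := by
  simpa using (hasDerivAt_id t).const_sub (2 * a)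

private theorem b6_comp {g : ℝ → ℝ} {c a t : ℝ} (h : HasDerivAt g c (2 * a - t)) :
    HasDerivAt (fun t => g (2 * a - t)) (c * (-1)) t := h.comp t (b6_refl a t)

private theorem foldS_d1 (a b c₁ c₂ c₃ : ℝ) {F : P → ℝ} (hF : ContDiff ℝ ∞ F) (q : P) :
    d1 (foldS a b c₁ c₂ c₃ F) q = foldS a b (-c₁) c₂ (-c₃) (d1 F) q := by
  have hd := b6_diff hF
  refine b6_d1_eq (b6_diff (foldS_smooth a b c₁ c₂ c₃ hF) q) ?_
  have h0 : HasDerivAt (fun t => F (t, q.2)) (d1 F q) q.1 := b6_d1 (hd q)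
  have h2 : HasDerivAt (fun t => F (t, 2 * b - q.2)) (d1 F (q.1, 2 * b - q.2)) q.1 :=
    b6_d1 (q := (q.1, 2 * b - q.2)) (hd _)
  have h1 : HasDerivAt (fun t => F (2 * a - t, q.2)) (d1 F (2 * a - q.1, q.2) * (-1)) q.1 :=
    b6_comp (g := fun t => F (t, q.2)) (b6_d1 (q := (2 * a - q.1, q.2)) (hd _))
  have h3 : HasDerivAt (fun t => F (2 * a - t, 2 * b - q.2))
      (d1 F (2 * a - q.1, 2 * b - q.2) * (-1)) q.1 :=
    b6_comp (g := fun t => F (t, 2 * b - q.2)) (b6_d1 (q := (2 * a - q.1, 2 * b - q.2)) (hd _))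
  have h4 := ((h0.add (h1.const_mul c₁)).add (h2.const_mul c₂)).add (h3.const_mul c₃)
  refine h4.congr_deriv ?_
  unfold foldS
  ring

private theorem foldS_d2 (a b c₁ c₂ c₃ : ℝ) {F : P → ℝ} (hF : ContDiff ℝ ∞ F) (q : P) :
    d2 (foldS a b c₁ c₂ c₃ F) q = foldS a b c₁ (-c₂) (-c₃) (d2 F) q := by
  have hd := b6_diff hF
  refine b6_d2_eq (b6_diff (foldS_smooth a b c₁ c₂ c₃ hF) q) ?_
  have h0 : HasDerivAt (fun t => F (q.1, t)) (d2 F q) q.2 := b6_d2 (hd q)
  have h1 : HasDerivAt (fun t => F (2 * a - q.1, t)) (d2 F (2 * a - q.1, q.2)) q.2 :=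
    b6_d2 (q := (2 * a - q.1, q.2)) (hd _)
  have h2 : HasDerivAt (fun t => F (q.1, 2 * b - t)) (d2 F (q.1, 2 * b - q.2) * (-1)) q.2 :=
    b6_comp (g := fun t => F (q.1, t)) (b6_d2 (q := (q.1, 2 * b - q.2)) (hd _))
  have h3 : HasDerivAt (fun t => F (2 * a - q.1, 2 * b - t))
      (d2 F (2 * a - q.1, 2 * b - q.2) * (-1)) q.2 :=
    b6_comp (g := fun t => F (2 * a - q.1, t)) (b6_d2 (q := (2 * a - q.1, 2 * b - q.2)) (hd _))
  have h4 := ((h0.add (h1.const_mul c₁)).add (h2.const_mul c₂)).add (h3.const_mul c₃)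
  refine h4.congr_deriv ?_
  unfold foldS
  ring

/-- The antisymmetric folding of a real function. -/
def B.foldR (w₁ w₂ : ℝ × ℝ) (F : P → ℝ) (q : P) : ℝ :=
  F q - w₁.2 ^ 2 * F (2 * w₁.1 - q.1, q.2) - w₂.2 ^ 2 * F (q.1, 2 * w₂.1 - q.2)
    + w₁.2 ^ 2 * w₂.2 ^ 2 * F (2 * w₁.1 - q.1, 2 * w₂.1 - q.2)

private theorem foldR_eq (w₁ w₂ : ℝ × ℝ) (F : P → ℝ) :
    B.foldR w₁ w₂ F = foldS w₁.1 w₂.1 (-w₁.2 ^ 2) (-w₂.2 ^ 2) (w₁.2 ^ 2 * w₂.2 ^ 2) F := by
  funext q
  unfold B.foldR foldS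
  ring

theorem B.foldR_smooth (w₁ w₂ : ℝ × ℝ) {F : P → ℝ} (hF : ContDiff ℝ ∞ F) :
    ContDiff ℝ ∞ (B.foldR w₁ w₂ F) := by
  rw [foldR_eq]
  exact foldS_smooth _ _ _ _ _ hF

private theorem b6_compact {F : P → ℝ} (hF : HasCompactSupport F) {g : P → P}
    (hg : Continuous g) (hi : ∀ q, g (g q) = q) : HasCompactSupport fun q => F (g q) :=
  hF.comp_homeomorph ⟨⟨g, g, hi, hi⟩, hg, hg⟩

theorem B.foldR_compact (w₁ w₂ : ℝ × ℝ) {F : P → ℝ} (hF : HasCompactSupport F) :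
    HasCompactSupport (B.foldR w₁ w₂ F) := by
  have h1 : HasCompactSupport fun q : P => F (2 * w₁.1 - q.1, q.2) :=
    b6_compact hF (g := fun q => (2 * w₁.1 - q.1, q.2)) (by fun_prop)
      (fun q => Prod.ext (by simp) rfl)
  have h2 : HasCompactSupport fun q : P => F (q.1, 2 * w₂.1 - q.2) :=
    b6_compact hF (g := fun q => (q.1, 2 * w₂.1 - q.2)) (by fun_prop)
      (fun q => Prod.ext rfl (by simp))
  have h3 : HasCompactSupport fun q : P => F (2 * w₁.1 - q.1, 2 * w₂.1 - q.2) :=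
    b6_compact hF (g := fun q => (2 * w₁.1 - q.1, 2 * w₂.1 - q.2)) (by fun_prop)
      (fun q => Prod.ext (by simp) (by simp))
  rw [foldR_eq]
  unfold foldS
  exact ((hF.add (h1.mul_left (f := fun _ => -w₁.2 ^ 2))).add
    (h2.mul_left (f := fun _ => -w₂.2 ^ 2))).add
    (h3.mul_left (f := fun _ => w₁.2 ^ 2 * w₂.2 ^ 2))

/-- The Laplacian commutes with the folding (chain rule: reflections change the sign of one first
derivative and leave the second derivatives). -/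
theorem B.foldR_lap (w₁ w₂ : ℝ × ℝ) {F : P → ℝ} (hF : ContDiff ℝ ∞ F) (q : P) :
    d1 (d1 (B.foldR w₁ w₂ F)) q + d2 (d2 (B.foldR w₁ w₂ F)) q =
      B.foldR w₁ w₂ (fun y => d1 (d1 F) y + d2 (d2 F) y) q := by
  have e1 : d1 (B.foldR w₁ w₂ F) =
      foldS w₁.1 w₂.1 (-(-w₁.2 ^ 2)) (-w₂.2 ^ 2) (-(w₁.2 ^ 2 * w₂.2 ^ 2)) (d1 F) := by
    funext q
    rw [foldR_eq, foldS_d1 _ _ _ _ _ hF]
  have e2 : d2 (B.foldR w₁ w₂ F) =
      foldS w₁.1 w₂.1 (-w₁.2 ^ 2) (-(-w₂.2 ^ 2)) (-(w₁.2 ^ 2 * w₂.2 ^ 2)) (d2 F) := by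
    funext q
    rw [foldR_eq, foldS_d2 _ _ _ _ _ hF]
  rw [e1, e2, foldS_d1 _ _ _ _ _ (b6_smooth1 hF), foldS_d2 _ _ _ _ _ (b6_smooth2 hF)]
  unfold B.foldR foldS
  ring

private theorem b6_sq_le {s : ℝ} (h : IsSgn s) : 0 ≤ s ^ 2 ∧ s ^ 2 ≤ 1 := by
  rcases h with rfl | rfl | rfl <;> norm_num

private theorem b6_sq_eq {s : ℝ} (h : IsSgn s) (h0 : s ≠ 0) : s ^ 2 = 1 := by
  rcases h with h1 | h1 | h1
  · exact absurd h1 h0
  · rw [h1]; norm_num
  · rw [h1]; norm_num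

/-- The folded function is Lipschitz small at the walls: `F` is smooth with compact support, so
Lipschitz with a constant `L`; pair the four terms in two differences with respect to the first
(second) reflection. -/
theorem B.foldR_small {w₁ w₂ : ℝ × ℝ} (h1 : IsSgn w₁.2) (h2 : IsSgn w₂.2) {F : P → ℝ}
    (hF : ContDiff ℝ ∞ F) (hc : HasCompactSupport F) : ∃ L : ℝ, ∀ q : P,
      (w₁.2 ≠ 0 → |B.foldR w₁ w₂ F q| ≤ L * |q.1 - w₁.1|) ∧
      (w₂.2 ≠ 0 → |B.foldR w₁ w₂ F q| ≤ L * |q.2 - w₂.1|) := by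
  obtain ⟨C, hC⟩ := hF.lipschitzWith_of_hasCompactSupport hc (by simp)
  have hC1 : ∀ y z : ℝ, ∀ t : ℝ, |F (y, t) - F (z, t)| ≤ C * |y - z| := by
    intro y z t
    have h3 := hC.dist_le_mul (y, t) (z, t)
    rwa [Real.dist_eq, Prod.dist_eq, dist_self, Real.dist_eq,
      max_eq_left (abs_nonneg _)] at h3
  have hC2 : ∀ y z : ℝ, ∀ t : ℝ, |F (t, y) - F (t, z)| ≤ C * |y - z| := by
    intro y z t
    have h3 := hC.dist_le_mul (t, y) (t, z)
    rwa [Real.dist_eq, Prod.dist_eq, dist_self, Real.dist_eq,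
      max_eq_right (abs_nonneg _)] at h3
  have hC0 : (0 : ℝ) ≤ C := C.2
  refine ⟨4 * C, fun q => ⟨fun h0 => ?_, fun h0 => ?_⟩⟩
  · have e1 := b6_sq_eq h1 h0
    obtain ⟨e2, e3⟩ := b6_sq_le h2
    have g1 := hC1 q.1 (2 * w₁.1 - q.1) q.2
    have g2 := hC1 q.1 (2 * w₁.1 - q.1) (2 * w₂.1 - q.2)
    have e4 : |q.1 - (2 * w₁.1 - q.1)| = 2 * |q.1 - w₁.1| := by
      rw [← abs_two, ← abs_mul, abs_two]
      congr 1
      ring
    rw [e4] at g1 g2
    have e5 : B.foldR w₁ w₂ F q = (F (q.1, q.2) - F (2 * w₁.1 - q.1, q.2)) -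
        w₂.2 ^ 2 * (F (q.1, 2 * w₂.1 - q.2) - F (2 * w₁.1 - q.1, 2 * w₂.1 - q.2)) := by
      unfold B.foldR
      rw [e1]
      ring
    rw [e5]
    refine (abs_sub _ _).trans ?_
    rw [abs_mul, abs_of_nonneg e2]
    have g3 : w₂.2 ^ 2 * |F (q.1, 2 * w₂.1 - q.2) - F (2 * w₁.1 - q.1, 2 * w₂.1 - q.2)| ≤
        1 * (C * (2 * |q.1 - w₁.1|)) := mul_le_mul e3 g2 (abs_nonneg _) zero_le_one
    linarith
  · have e1 := b6_sq_eq h2 h0
    obtain ⟨e2, e3⟩ := b6_sq_le h1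
    have g1 := hC2 q.2 (2 * w₂.1 - q.2) q.1
    have g2 := hC2 q.2 (2 * w₂.1 - q.2) (2 * w₁.1 - q.1)
    have e4 : |q.2 - (2 * w₂.1 - q.2)| = 2 * |q.2 - w₂.1| := by
      rw [← abs_two, ← abs_mul, abs_two]
      congr 1
      ring
    rw [e4] at g1 g2
    have e5 : B.foldR w₁ w₂ F q = (F (q.1, q.2) - F (q.1, 2 * w₂.1 - q.2)) -
        w₁.2 ^ 2 * (F (2 * w₁.1 - q.1, q.2) - F (2 * w₁.1 - q.1, 2 * w₂.1 - q.2)) := by
      unfold B.foldR
      rw [e1]
      ring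
    rw [e5]
    refine (abs_sub _ _).trans ?_
    rw [abs_mul, abs_of_nonneg e2]
    have g3 : w₁.2 ^ 2 * |F (2 * w₁.1 - q.1, q.2) - F (2 * w₁.1 - q.1, 2 * w₂.1 - q.2)| ≤
        1 * (C * (2 * |q.2 - w₂.1|)) := mul_le_mul e3 g2 (abs_nonneg _) zero_le_one
    linarith

/-! ### the cutoff at a wall -/

private def kq (w : ℝ × ℝ) (n : ℕ) (t : ℝ) : ℝ :=
  if w.2 = 0 then 1 else Real.smoothTransition ((n : ℝ) * (w.2 * (t - w.1)) - 1)

private theorem kq_smooth (w : ℝ × ℝ) (n : ℕ) : ContDiff ℝ ∞ (kq w n) := by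
  unfold kq
  split_ifs
  · exact contDiff_const
  · exact Real.smoothTransition.contDiff.comp (by fun_prop)

private theorem kq_bd (w : ℝ × ℝ) (n : ℕ) (t : ℝ) : |kq w n t| ≤ 1 := by
  unfold kq
  split_ifs
  · simp
  · rw [abs_of_nonneg (Real.smoothTransition.nonneg _)]
    exact Real.smoothTransition.le_one _

private theorem kq_zero {w : ℝ × ℝ} {n : ℕ} {t : ℝ} (h : kq w n t ≠ 0) :
    w.2 = 0 ∨ 1 ≤ (n : ℝ) * (w.2 * (t - w.1)) := by
  by_cases h0 : w.2 = 0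
  · exact Or.inl h0
  · right
    by_contra h1
    rw [not_le] at h1
    unfold kq at h
    rw [if_neg h0] at h
    exact h (Real.smoothTransition.zero_of_nonpos (by linarith))

private theorem kq_in {w : ℝ × ℝ} {n : ℕ} {t : ℝ}
    (h : w.2 = 0 ∨ 1 ≤ (n : ℝ) * (w.2 * (t - w.1))) : wIn w t := by
  rcases h with h | h
  · exact Or.inl h
  · right
    by_contra h1
    rw [not_lt] at h1
    have h2 := mul_nonpos_of_nonneg_of_nonpos (Nat.cast_nonneg (α := ℝ) n) h1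
    linarith

private theorem kq_ev {w : ℝ × ℝ} {t : ℝ} (h : wIn w t) :
    ∀ᶠ n in atTop, kq w n t = 1 ∧ deriv (kq w n) t = 0 := by
  by_cases h0 : w.2 = 0
  · refine Eventually.of_forall fun n => ?_
    have : kq w n = fun _ => 1 := by
      funext t
      unfold kq
      rw [if_pos h0]
    rw [this]
    simp
  · have h1 : 0 < w.2 * (t - w.1) := by
      rcases h with h | h
      · exact absurd h h0
      · exact h
    have h2 : Tendsto (fun n : ℕ => (n : ℝ) * (w.2 * (t - w.1))) atTop atTop :=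
      Tendsto.atTop_mul_const h1 tendsto_natCast_atTop_atTop
    filter_upwards [h2.eventually_gt_atTop 2] with n hn
    have h3 : ∀ᶠ t' in 𝓝 t, kq w n t' = 1 := by
      have h4 : Continuous fun t' : ℝ => (n : ℝ) * (w.2 * (t' - w.1)) := by fun_prop
      filter_upwards [h4.continuousAt.eventually (lt_mem_nhds hn)] with t' ht'
      unfold kq
      rw [if_neg h0]
      exact Real.smoothTransition.one_of_one_le (by linarith)
    refine ⟨h3.self_of_nhds, ?_⟩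
    have h5 : kq w n =ᶠ[𝓝 t] fun _ => (1 : ℝ) := h3
    rw [h5.deriv_eq]
    simp

private theorem st_deriv : ∃ C : ℝ, 0 ≤ C ∧ ∀ y : ℝ, |deriv Real.smoothTransition y| ≤ C ∧
    (deriv Real.smoothTransition y ≠ 0 → 0 ≤ y ∧ y ≤ 1) := by
  have hz : ∀ y : ℝ, deriv Real.smoothTransition y ≠ 0 → 0 ≤ y ∧ y ≤ 1 := by
    intro y hy
    constructor
    · by_contra h1
      rw [not_le] at h1
      refine hy ?_
      have h5 : Real.smoothTransition =ᶠ[𝓝 y] fun _ => (0 : ℝ) := by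
        filter_upwards [gt_mem_nhds h1] with z hz
        exact Real.smoothTransition.zero_of_nonpos (le_of_lt hz)
      rw [h5.deriv_eq]
      simp
    · by_contra h1
      rw [not_le] at h1
      refine hy ?_
      have h5 : Real.smoothTransition =ᶠ[𝓝 y] fun _ => (1 : ℝ) := by
        filter_upwards [lt_mem_nhds h1] with z hz
        exact Real.smoothTransition.one_of_one_le (le_of_lt hz)
      rw [h5.deriv_eq]
      simp
  have hc : Continuous (deriv Real.smoothTransition) :=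
    (Real.smoothTransition.contDiff (n := 1)).continuous_deriv le_rfl
  obtain ⟨C, hC⟩ := (isCompact_Icc (a := (0 : ℝ)) (b := 1)).exists_bound_of_continuousOn
    hc.continuousOn
  refine ⟨C, (norm_nonneg _).trans (hC 0 ⟨le_rfl, zero_le_one⟩), fun y => ⟨?_, hz y⟩⟩
  by_cases h0 : deriv Real.smoothTransition y = 0
  · rw [h0, abs_zero]
    exact (norm_nonneg _).trans (hC 0 ⟨le_rfl, zero_le_one⟩)
  · obtain ⟨h1, h2⟩ := hz y h0
    exact hC y ⟨h1, h2⟩

private theorem kq_deriv : ∃ C : ℝ, 0 ≤ C ∧ ∀ (w : ℝ × ℝ), IsSgn w.2 → ∀ (n : ℕ) (t : ℝ),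
    (w.2 = 0 → deriv (kq w n) t = 0) ∧ |deriv (kq w n) t| * |t - w.1| ≤ C := by
  obtain ⟨C, hC0, hC⟩ := st_deriv
  refine ⟨2 * C, by positivity, fun w hw n t => ?_⟩
  by_cases h0 : w.2 = 0
  · have : kq w n = fun _ => 1 := by
      funext t
      unfold kq
      rw [if_pos h0]
    rw [this]
    simp only [deriv_const', abs_zero, zero_mul, implies_true, true_and]
    positivity
  · refine ⟨fun h => absurd h h0, ?_⟩
    have hw1 : |w.2| = 1 := by
      rcases hw with h | h | h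
      · exact absurd h h0
      · rw [h]; simp
      · rw [h]; simp
    have h1 : HasDerivAt (fun t : ℝ => (n : ℝ) * (w.2 * (t - w.1)) - 1) ((n : ℝ) * w.2) t := by
      have := ((((hasDerivAt_id t).sub_const w.1).const_mul w.2).const_mul (n : ℝ)).sub_const 1
      simpa using this
    have h2 : HasDerivAt Real.smoothTransition
        (deriv Real.smoothTransition ((n : ℝ) * (w.2 * (t - w.1)) - 1))
        ((n : ℝ) * (w.2 * (t - w.1)) - 1) :=
      ((Real.smoothTransition.contDiff (n := 1)).differentiable (by simp) _).hasDerivAt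
    have h3 : deriv (kq w n) t =
        deriv Real.smoothTransition ((n : ℝ) * (w.2 * (t - w.1)) - 1) * ((n : ℝ) * w.2) := by
      have h4 : kq w n = fun t => Real.smoothTransition ((n : ℝ) * (w.2 * (t - w.1)) - 1) := by
        funext t
        unfold kq
        rw [if_neg h0]
      rw [h4]
      exact (h2.comp t h1).deriv
    rw [h3]
    obtain ⟨h5, h6⟩ := hC ((n : ℝ) * (w.2 * (t - w.1)) - 1)
    by_cases h7 : deriv Real.smoothTransition ((n : ℝ) * (w.2 * (t - w.1)) - 1) = 0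
    · rw [h7]
      simp only [zero_mul, abs_zero]
      positivity
    · obtain ⟨h8, h9⟩ := h6 h7
      have h10 : (n : ℝ) * |t - w.1| ≤ 2 := by
        have h11 : (n : ℝ) * |t - w.1| = |(n : ℝ) * (w.2 * (t - w.1))| := by
          rw [abs_mul, abs_mul, hw1, one_mul, Nat.abs_cast]
        rw [h11, abs_of_nonneg (by linarith)]
        linarith
      rw [abs_mul, abs_mul, hw1, mul_one, Nat.abs_cast, mul_assoc]
      calc |deriv Real.smoothTransition ((n : ℝ) * (w.2 * (t - w.1)) - 1)| *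
            ((n : ℝ) * |t - w.1|) ≤ C * 2 :=
            mul_le_mul h5 h10 (by positivity) hC0
        _ = 2 * C := by ring

/-- convergence in the mean from pointwise convergence -/
private theorem b6_conv {f : ℕ → P → ℝ} {g : P → ℝ} {K : Set P} {M : ℝ} (hK : IsCompact K)
    (hf : ∀ n, Continuous (f n)) (hg : AEStronglyMeasurable g volume)
    (hfb : ∀ n q, |f n q| ≤ M) (hgb : ∀ q, |g q| ≤ M)
    (hf0 : ∀ n q, q ∉ K → f n q = 0) (hg0 : ∀ q, q ∉ K → g q = 0)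
    (hlim : ∀ q, ∀ᶠ n in atTop, f n q = g q) :
    Tendsto (fun n => ∫ q, (f n q - g q) ^ 2) atTop (𝓝 0) := by
  have hM : 0 ≤ M := (abs_nonneg _).trans (hgb 0)
  have h1 : Tendsto (fun n => ∫ q, (f n q - g q) ^ 2) atTop (𝓝 (∫ _ : P, (0 : ℝ))) := by
    refine tendsto_integral_of_dominated_convergence
      (K.indicator fun _ => (2 * M) ^ 2) ?_ ?_ ?_ ?_
    · intro n
      exact ((hf n).aestronglyMeasurable.sub hg).pow 2
    · rw [integrable_indicator_iff hK.measurableSet]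
      exact integrableOn_const hK.measure_lt_top.ne
    · intro n
      refine Eventually.of_forall fun q => ?_
      by_cases hq : q ∈ K
      · rw [indicator_of_mem hq, Real.norm_eq_abs, abs_pow]
        refine pow_le_pow_left₀ (abs_nonneg _) ?_ 2
        have := abs_sub (f n q) (g q)
        linarith [hfb n q, hgb q]
      · rw [indicator_of_notMem hq, hf0 n q hq, hg0 q hq]
        simp
    · refine Eventually.of_forall fun q => ?_
      refine tendsto_const_nhds.congr' ?_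
      filter_upwards [hlim q] with n hn
      rw [hn]
      simp
  rwa [integral_zero] at h1

private theorem b6_ev {φ ψ : P → ℝ} {q : P} (h : φ =ᶠ[𝓝 q] ψ) :
    d1 φ q = d1 ψ q ∧ d2 φ q = d2 ψ q := by
  unfold d1 d2
  rw [h.fderiv_eq]
  exact ⟨rfl, rfl⟩

private theorem b6_off {φ : P → ℝ} {q : P} (h : q ∉ tsupport φ) :
    φ q = 0 ∧ d1 φ q = 0 ∧ d2 φ q = 0 := by
  have h1 : φ =ᶠ[𝓝 q] fun _ => 0 := notMem_tsupport_iff_eventuallyEq.1 h
  obtain ⟨h2, h3⟩ := b6_ev h1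
  refine ⟨h1.self_of_nhds, ?_, ?_⟩
  · rw [h2]
    simp [d1]
  · rw [h3]
    simp [d2]

private theorem kq_closed (w : ℝ × ℝ) (n : ℕ) {g : P → ℝ} (hg : Continuous g) :
    IsClosed {q : P | w.2 = 0 ∨ 1 ≤ (n : ℝ) * (w.2 * (g q - w.1))} := by
  by_cases h : w.2 = 0
  · have : {q : P | w.2 = 0 ∨ 1 ≤ (n : ℝ) * (w.2 * (g q - w.1))} = univ := by
      ext q
      simp [h]
    rw [this]
    exact isClosed_univ
  · have : {q : P | w.2 = 0 ∨ 1 ≤ (n : ℝ) * (w.2 * (g q - w.1))} =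
        {q : P | 1 ≤ (n : ℝ) * (w.2 * (g q - w.1))} := by
      ext q
      simp [h]
    rw [this]
    exact isClosed_le continuous_const (by fun_prop)

/-- the approximating functions -/
private def phq (w₁ w₂ : ℝ × ℝ) (Ψ : P → ℝ) (n : ℕ) (q : P) : ℝ :=
  kq w₁ n q.1 * kq w₂ n q.2 * Ψ q

private theorem phq_smooth (w₁ w₂ : ℝ × ℝ) {Ψ : P → ℝ} (hΨ : ContDiff ℝ ∞ Ψ) (n : ℕ) :
    ContDiff ℝ ∞ (phq w₁ w₂ Ψ n) :=
  (((kq_smooth w₁ n).comp contDiff_fst).mul ((kq_smooth w₂ n).comp contDiff_snd)).mul hΨ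

private theorem phq_d1 (w₁ w₂ : ℝ × ℝ) {Ψ : P → ℝ} (hΨ : ContDiff ℝ ∞ Ψ) (n : ℕ) (q : P) :
    d1 (phq w₁ w₂ Ψ n) q = deriv (kq w₁ n) q.1 * kq w₂ n q.2 * Ψ q +
      kq w₁ n q.1 * kq w₂ n q.2 * d1 Ψ q := by
  refine b6_d1_eq (b6_diff (phq_smooth w₁ w₂ hΨ n) q) ?_
  have h1 : HasDerivAt (kq w₁ n) (deriv (kq w₁ n) q.1) q.1 :=
    ((kq_smooth w₁ n).differentiable (by simp) _).hasDerivAt
  have h2 := (h1.mul_const (kq w₂ n q.2)).mul (b6_d1 (b6_diff hΨ q))
  exact h2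

private theorem phq_d2 (w₁ w₂ : ℝ × ℝ) {Ψ : P → ℝ} (hΨ : ContDiff ℝ ∞ Ψ) (n : ℕ) (q : P) :
    d2 (phq w₁ w₂ Ψ n) q = kq w₁ n q.1 * deriv (kq w₂ n) q.2 * Ψ q +
      kq w₁ n q.1 * kq w₂ n q.2 * d2 Ψ q := by
  refine b6_d2_eq (b6_diff (phq_smooth w₁ w₂ hΨ n) q) ?_
  have h1 : HasDerivAt (kq w₂ n) (deriv (kq w₂ n) q.2) q.2 :=
    ((kq_smooth w₂ n).differentiable (by simp) _).hasDerivAt
  have h2 := (h1.const_mul (kq w₁ n q.1)).mul (b6_d2 (b6_diff hΨ q))
  exact h2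

private theorem b6_bd {k k' c D M : ℝ} (hk : |k| ≤ 1) (hk' : |k'| ≤ 1) (hc : |c| ≤ D)
    {v : ℝ} (hv : |v| ≤ M) {e : ℝ} (he : |e| ≤ 1) :
    |c * e + k * k' * v| ≤ D + M := by
  have h1 : |c * e| ≤ D * 1 := by
    rw [abs_mul]
    exact mul_le_mul hc he (abs_nonneg _) ((abs_nonneg _).trans hc)
  have h2 : |k * k' * v| ≤ 1 * 1 * M := by
    rw [abs_mul, abs_mul]
    exact mul_le_mul (mul_le_mul hk hk' (abs_nonneg _) zero_le_one) hv (abs_nonneg _)
      (by norm_num)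
  have h3 := abs_add_le (c * e) (k * k' * v)
  linarith

/-- The folded function belongs to `H¹₀(D)`.

Proof. `Φ = B.foldR w₁ w₂ F` with `w_i` the walls of `x`. Let `κ y = Real.smoothTransition (y - 1)`
(`0` for `y ≤ 1`, `1` for `y ≥ 2`), `k₁ n q = κ (n s₁ (q.1 - a))` if there is a vertical wall `(a,
s₁)` and `1` otherwise, similarly `k₂`; let `ϑ` be a smooth function equal to `1` on
`closedBall x R` with support in `closedBall x (3 R / 2)` (products of `smoothTransition`s or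
`ContDiffBump`). `φ n = k₁ n * k₂ n * ϑ * Φ` is smooth with compact support in
`{n s₁ (q.1 - a) ≥ 1, n s₂ (q.2 - b) ≥ 1} ∩ closedBall x (3 R / 2) ⊆ D` (`W.model`, `3 R / 2 < ρ`).
On `D` we have `ϑ Φ = Φ` (`fold_supp`: `Φ q ≠ 0` implies `dist q x ≤ R`; the real folding is the
real part of `foldF (-1) (-1)` of the function `F` as a complex function), and `φ n = 0` off `D`.
Convergence by dominated convergence on the bounded set `closedBall x (2 R)`: `φ n → D.indicator Φ`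
pointwise (`k_i n → 1` at points of `D`), bounded by `sup |Φ|`; `d1 (φ n) = k₁ k₂ d1 (ϑ Φ) +
n s₁ κ' (n s₁ (q.1 - a)) k₂ ϑ Φ`: the first term converges to `D.indicator (d1 Φ)` pointwise on
`D`, the second tends to `0` pointwise and is bounded by `n sup |κ'| L |q.1 - a| ≤ 2 L sup |κ'|`
(`B.foldR_small`; `κ'` is supported in `[1, 2]`). The same for `d2`. The functions are in `L²`:
bounded measurable with bounded support. -/
theorem B.fold_h10 {G : Geo D} {ρ R : ℝ} (hρ : 0 < ρ) (hρ' : ρ ≤ 4 * G.rho0)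
    (hR : 0 < R) (hR' : 2 * R ≤ ρ) (W : Walls G ρ) {x : P} (hx : x ∈ closure D)
    (hfar : G.Far ρ x) {F : P → ℝ} (hs : ContDiff ℝ ∞ F) (hF : ∀ y, R < dist y x → F y = 0) :
    H10 D (D.indicator (B.foldR (W.w1 x) (W.w2 x) F))
      (D.indicator (d1 (B.foldR (W.w1 x) (W.w2 x) F)))
      (D.indicator (d2 (B.foldR (W.w1 x) (W.w2 x) F))) := by
  have hDo : IsOpen D := G.isOpen
  have hDm : MeasurableSet D := hDo.measurableSet
  have hFc : HasCompactSupport F := HasCompactSupport.intro (isCompact_closedBall x R)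
    fun y hy => hF y (not_le.1 hy)
  set w₁ := W.w1 x with hw₁
  set w₂ := W.w2 x with hw₂
  have hsg1 : IsSgn w₁.2 := W.sgn1 x
  have hsg2 : IsSgn w₂.2 := W.sgn2 x
  set Φ : P → ℝ := B.foldR w₁ w₂ F with hΦ
  have hΦs : ContDiff ℝ ∞ Φ := B.foldR_smooth w₁ w₂ hs
  have hΦc : HasCompactSupport Φ := B.foldR_compact w₁ w₂ hFc
  obtain ⟨L, hL⟩ := B.foldR_small hsg1 hsg2 hs hFc
  obtain ⟨C, hC0, hC⟩ := kq_deriv
  let ϑ : ContDiffBump x := ⟨R, 3 * R / 2, hR, by linarith⟩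
  set Ψ : P → ℝ := fun q => ϑ q * Φ q with hΨ
  have hΨs : ContDiff ℝ ∞ Ψ := ϑ.contDiff.mul hΦs
  set K : Set P := closedBall x (3 * R / 2) with hKd
  have hK : IsCompact K := isCompact_closedBall _ _
  have hΨ0 : ∀ q, q ∉ K → Ψ q = 0 := by
    intro q hq
    have h1 : ϑ q = 0 := ϑ.zero_of_le_dist (le_of_lt (not_le.1 hq))
    simp only [hΨ, h1, zero_mul]
  have hΨt : tsupport Ψ ⊆ K := by
    refine closure_minimal (fun q hq => ?_) isClosed_closedBall
    by_contra h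
    exact hq (hΨ0 q h)
  have hΨK : ∀ q, q ∉ K → Ψ q = 0 ∧ d1 Ψ q = 0 ∧ d2 Ψ q = 0 := fun q hq =>
    b6_off fun h => hq (hΨt h)
  have hΨc : HasCompactSupport Ψ := hK.of_isClosed_subset (isClosed_tsupport _) hΨt
  have hΨΦ : ∀ q, |Ψ q| ≤ |Φ q| := by
    intro q
    simp only [hΨ]
    rw [abs_mul, abs_of_nonneg ϑ.nonneg]
    exact mul_le_of_le_one_left (abs_nonneg _) ϑ.le_one
  have hΨD : ∀ q ∈ D, Ψ q = Φ q := by
    intro q hq
    by_cases h0 : Φ q = 0
    · simp only [hΨ, h0, mul_zero]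
    · have h1 : W.fold (-1) (-1) x (fun y => (F y : ℂ)) q = ((Φ q : ℝ) : ℂ) := by
        unfold Walls.fold
        rw [indicator_of_mem hq, hΦ]
        unfold foldF B.foldR
        rw [← hw₁, ← hw₂]
        push_cast
        ring
      have h2 : dist q x ≤ R := fold_supp hρ hρ' hR hR' W hx hfar
        (F := fun y => (F y : ℂ)) (fun y hy => by rw [hF y hy]; rfl) (-1) (-1) hq (by
          rw [h1]
          exact_mod_cast h0)
      have h3 : ϑ q = 1 := ϑ.one_of_mem_closedBall h2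
      simp only [hΨ, h3, one_mul]
  have hΨD' : ∀ q ∈ D, d1 Φ q = d1 Ψ q ∧ d2 Φ q = d2 Ψ q := by
    intro q hq
    refine b6_ev ?_
    filter_upwards [hDo.mem_nhds hq] with y hy
    exact (hΨD y hy).symm
  have hmod : ∀ q ∈ K, (q ∈ D ↔ wIn w₁ q.1 ∧ wIn w₂ q.2) := by
    intro q hq
    refine W.model x hx hfar q (mem_ball.2 ?_)
    have h1 : dist q x ≤ 3 * R / 2 := hq
    linarith
  -- supports of the approximating functions
  have hsupp : ∀ n, tsupport (phq w₁ w₂ Ψ n) ⊆ K ∩ D := by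
    intro n
    have h1 : tsupport (phq w₁ w₂ Ψ n) ⊆
        ({q : P | w₁.2 = 0 ∨ 1 ≤ (n : ℝ) * (w₁.2 * (q.1 - w₁.1))} ∩
        {q : P | w₂.2 = 0 ∨ 1 ≤ (n : ℝ) * (w₂.2 * (q.2 - w₂.1))}) ∩ K := by
      refine closure_minimal (fun q hq => ?_) (((kq_closed w₁ n continuous_fst).inter
        (kq_closed w₂ n continuous_snd)).inter isClosed_closedBall)
      have h2 : kq w₁ n q.1 * kq w₂ n q.2 * Ψ q ≠ 0 := hq
      have h3 := left_ne_zero_of_mul h2
      refine ⟨⟨kq_zero (left_ne_zero_of_mul h3), kq_zero (right_ne_zero_of_mul h3)⟩, ?_⟩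
      by_contra h4
      exact right_ne_zero_of_mul h2 (hΨ0 q h4)
    intro q hq
    obtain ⟨⟨h2, h3⟩, h4⟩ := h1 hq
    exact ⟨h4, (hmod q h4).2 ⟨kq_in h2, kq_in h3⟩⟩
  have htest : ∀ n, Test D (phq w₁ w₂ Ψ n) := fun n =>
    ⟨phq_smooth w₁ w₂ hΨs n,
      hK.of_isClosed_subset (isClosed_tsupport _) ((hsupp n).trans inter_subset_left),
      (hsupp n).trans inter_subset_right⟩
  have hoff : ∀ n q, q ∉ D → phq w₁ w₂ Ψ n q = 0 ∧ d1 (phq w₁ w₂ Ψ n) q = 0 ∧
      d2 (phq w₁ w₂ Ψ n) q = 0 := fun n q hq => b6_off fun h => hq (hsupp n h).2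
  have hoffK : ∀ n q, q ∉ K → phq w₁ w₂ Ψ n q = 0 ∧ d1 (phq w₁ w₂ Ψ n) q = 0 ∧
      d2 (phq w₁ w₂ Ψ n) q = 0 := fun n q hq => b6_off fun h => hq (hsupp n h).1
  -- the limits
  have hlim : ∀ q ∈ D, ∀ᶠ n in atTop, phq w₁ w₂ Ψ n q = Ψ q ∧
      d1 (phq w₁ w₂ Ψ n) q = d1 Ψ q ∧ d2 (phq w₁ w₂ Ψ n) q = d2 Ψ q := by
    intro q hq
    by_cases hqK : q ∈ K
    · obtain ⟨h1, h2⟩ := (hmod q hqK).1 hq
      filter_upwards [kq_ev h1, kq_ev h2] with n hn1 hn2
      rw [phq_d1 w₁ w₂ hΨs, phq_d2 w₁ w₂ hΨs, hn1.1, hn1.2, hn2.1, hn2.2]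
      unfold phq
      rw [hn1.1, hn2.1]
      refine ⟨by ring, by ring, by ring⟩
    · refine Eventually.of_forall fun n => ?_
      obtain ⟨g1, g2, g3⟩ := hoffK n q hqK
      obtain ⟨g4, g5, g6⟩ := hΨK q hqK
      rw [g1, g2, g3, g4, g5, g6]
      exact ⟨rfl, rfl, rfl⟩
  -- the bounds
  obtain ⟨M0, hM0⟩ := hΨs.continuous.bounded_above_of_compact_support hΨc
  have hc1 : Continuous (d1 Ψ) := (b6_smooth1 hΨs).continuous
  have hc2 : Continuous (d2 Ψ) := (b6_smooth2 hΨs).continuous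
  have hcs : ∀ {f : P → ℝ}, (∀ q, q ∉ K → f q = 0) → HasCompactSupport f := fun hf =>
    HasCompactSupport.intro hK hf
  obtain ⟨M1, hM1⟩ := hc1.bounded_above_of_compact_support
    (hcs fun q hq => (hΨK q hq).2.1)
  obtain ⟨M2, hM2⟩ := hc2.bounded_above_of_compact_support
    (hcs fun q hq => (hΨK q hq).2.2)
  simp only [Real.norm_eq_abs] at hM0 hM1 hM2
  have hM0' : 0 ≤ M0 := (abs_nonneg _).trans (hM0 0)
  have hM1' : 0 ≤ M1 := (abs_nonneg _).trans (hM1 0)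
  have hM2' : 0 ≤ M2 := (abs_nonneg _).trans (hM2 0)
  have hCL : 0 ≤ C * |L| := by positivity
  have hder1 : ∀ n (q : P), |deriv (kq w₁ n) q.1 * Ψ q| ≤ C * |L| := by
    intro n q
    obtain ⟨h1, h2⟩ := hC w₁ hsg1 n q.1
    by_cases h0 : w₁.2 = 0
    · rw [h1 h0, zero_mul, abs_zero]
      exact hCL
    · have h3 : |Ψ q| ≤ |L| * |q.1 - w₁.1| := (hΨΦ q).trans (((hL q).1 h0).trans
        (mul_le_mul_of_nonneg_right (le_abs_self L) (abs_nonneg _)))
      rw [abs_mul]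
      calc |deriv (kq w₁ n) q.1| * |Ψ q| ≤ |deriv (kq w₁ n) q.1| * (|L| * |q.1 - w₁.1|) :=
            mul_le_mul_of_nonneg_left h3 (abs_nonneg _)
        _ = (|deriv (kq w₁ n) q.1| * |q.1 - w₁.1|) * |L| := by ring
        _ ≤ C * |L| := mul_le_mul_of_nonneg_right h2 (abs_nonneg _)
  have hder2 : ∀ n (q : P), |deriv (kq w₂ n) q.2 * Ψ q| ≤ C * |L| := by
    intro n q
    obtain ⟨h1, h2⟩ := hC w₂ hsg2 n q.2
    by_cases h0 : w₂.2 = 0
    · rw [h1 h0, zero_mul, abs_zero]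
      exact hCL
    · have h3 : |Ψ q| ≤ |L| * |q.2 - w₂.1| := (hΨΦ q).trans (((hL q).2 h0).trans
        (mul_le_mul_of_nonneg_right (le_abs_self L) (abs_nonneg _)))
      rw [abs_mul]
      calc |deriv (kq w₂ n) q.2| * |Ψ q| ≤ |deriv (kq w₂ n) q.2| * (|L| * |q.2 - w₂.1|) :=
            mul_le_mul_of_nonneg_left h3 (abs_nonneg _)
        _ = (|deriv (kq w₂ n) q.2| * |q.2 - w₂.1|) * |L| := by ring
        _ ≤ C * |L| := mul_le_mul_of_nonneg_right h2 (abs_nonneg _)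
  have hmeas : ∀ {f : P → ℝ}, Continuous f → AEStronglyMeasurable (D.indicator f) volume :=
    fun hf => hf.aestronglyMeasurable.indicator hDm
  have hb : ∀ {f g : P → ℝ} {M : ℝ}, 0 ≤ M → (∀ q ∈ D, f q = g q) → (∀ q, |g q| ≤ M) →
      (∀ q, q ∉ K → g q = 0) → (∀ q, |D.indicator f q| ≤ M) ∧
        (∀ q, q ∉ K → D.indicator f q = 0) := by
    intro f g M hM hfg hg hg0
    constructor
    · intro q
      by_cases hq : q ∈ D
      · rw [indicator_of_mem hq, hfg q hq]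
        exact hg q
      · rw [indicator_of_notMem hq, abs_zero]
        exact hM
    · intro q hqK
      by_cases hq : q ∈ D
      · rw [indicator_of_mem hq, hfg q hq, hg0 q hqK]
      · rw [indicator_of_notMem hq]
  have hcd1 : Continuous (d1 Φ) := (b6_smooth1 hΦs).continuous
  have hcd2 : Continuous (d2 Φ) := (b6_smooth2 hΦs).continuous
  obtain ⟨i1, i2⟩ := hb hM0' (fun q hq => (hΨD q hq).symm) hM0 (fun q hq => (hΨK q hq).1)
  obtain ⟨j1, j2⟩ := hb hM1' (fun q hq => (hΨD' q hq).1) hM1 (fun q hq => (hΨK q hq).2.1)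
  obtain ⟨k1, k2⟩ := hb hM2' (fun q hq => (hΨD' q hq).2) hM2 (fun q hq => (hΨK q hq).2.2)
  have hmem : ∀ {f : P → ℝ} {M : ℝ}, Continuous f → (∀ q, |D.indicator f q| ≤ M) →
      (∀ q, q ∉ K → D.indicator f q = 0) → MemLp (D.indicator f) 2 volume := by
    intro f M hf h1 h2
    have h3 : D.indicator f = K.indicator (D.indicator f) := by
      funext q
      by_cases hq : q ∈ K
      · rw [indicator_of_mem hq]
      · rw [indicator_of_notMem hq, h2 q hq]
    rw [h3, memLp_indicator_iff_restrict hK.measurableSet]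
    have : IsFiniteMeasure (volume.restrict K) := ⟨by
      rw [Measure.restrict_apply_univ]
      exact hK.measure_lt_top⟩
    exact MemLp.of_bound (hmeas hf).restrict M (Eventually.of_forall h1)
  refine ⟨hmem hΦs.continuous i1 i2, hmem hcd1 j1 j2, hmem hcd2 k1 k2,
    phq w₁ w₂ Ψ, htest, ?_, ?_, ?_⟩
  · refine b6_conv (M := M0) hK (fun n => (phq_smooth w₁ w₂ hΨs n).continuous)
      (hmeas hΦs.continuous) (fun n q => ?_) i1 (fun n q hq => (hoffK n q hq).1) i2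
      (fun q => ?_)
    · have := b6_bd (c := 0) (e := 0) (D := 0) (kq_bd w₁ n q.1) (kq_bd w₂ n q.2) (by simp)
        (hM0 q) (by simp)
      simpa [phq] using this
    · by_cases hq : q ∈ D
      · filter_upwards [hlim q hq] with n hn
        rw [indicator_of_mem hq, hn.1, hΨD q hq]
      · refine Eventually.of_forall fun n => ?_
        rw [indicator_of_notMem hq, (hoff n q hq).1]
  · refine b6_conv (M := C * |L| + M1) hK
      (fun n => (b6_smooth1 (phq_smooth w₁ w₂ hΨs n)).continuous)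
      (hmeas hcd1) (fun n q => ?_) (fun q => (j1 q).trans (by linarith))
      (fun n q hq => (hoffK n q hq).2.1) j2 (fun q => ?_)
    · rw [phq_d1 w₁ w₂ hΨs]
      have := b6_bd (kq_bd w₁ n q.1) (kq_bd w₂ n q.2) (hder1 n q) (hM1 q)
        (e := kq w₂ n q.2) (kq_bd w₂ n q.2)
      refine le_trans (le_of_eq ?_) this
      congr 1
      ring
    · by_cases hq : q ∈ D
      · filter_upwards [hlim q hq] with n hn
        rw [indicator_of_mem hq, hn.2.1, (hΨD' q hq).1]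
      · refine Eventually.of_forall fun n => ?_
        rw [indicator_of_notMem hq, (hoff n q hq).2.1]
  · refine b6_conv (M := C * |L| + M2) hK
      (fun n => (b6_smooth2 (phq_smooth w₁ w₂ hΨs n)).continuous)
      (hmeas hcd2) (fun n q => ?_) (fun q => (k1 q).trans (by linarith))
      (fun n q hq => (hoffK n q hq).2.2) k2 (fun q => ?_)
    · rw [phq_d2 w₁ w₂ hΨs]
      have := b6_bd (kq_bd w₁ n q.1) (kq_bd w₂ n q.2) (hder2 n q) (hM2 q)
        (e := kq w₁ n q.1) (kq_bd w₁ n q.1)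
      refine le_trans (le_of_eq ?_) this
      congr 1
      ring
    · by_cases hq : q ∈ D
      · filter_upwards [hlim q hq] with n hn
        rw [indicator_of_mem hq, hn.2.2, (hΨD' q hq).2]
      · refine Eventually.of_forall fun n => ?_
        rw [indicator_of_notMem hq, (hoff n q hq).2.2]

end

end Pool.Agent.MP4eed4eR
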