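import Pool.Agent.Lib.MP_4eed4e_an_R.B02
import Pool.Agent.Lib.MP_4eed4e_an_R.B06

/-!
MP_4eed4e_an, project R, block B, module B07: the Laplacian of a folded function.
-/

namespace Pool.Agent.MP4eed4eR

open MeasureTheory Set Filter Topology Metric
open scoped ComplexConjugate ContDiff ENNReal

noncomputable section

variable {D : Set P}

private theorem b07_int {μ : Measure P} {f g : P → ℝ} (hf : MemLp f 2 μ) (hg : MemLp g 2 μ) :
    Integrable (fun q => f q * g q) μ :=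
  hf.integrable_mul hg

/-- limits of pairings -/
private theorem b07_lim {f : P → ℝ} {g : ℕ → P → ℝ} {g₀ : P → ℝ} (hf : MemLp f 2 volume)
    (hg : ∀ n, MemLp (g n) 2 volume) (hg₀ : MemLp g₀ 2 volume)
    (h : Tendsto (fun n => ∫ q, (g n q - g₀ q) ^ 2) atTop (𝓝 0)) :
    Tendsto (fun n => ∫ q, f q * g n q) atTop (𝓝 (∫ q, f q * g₀ q)) := by
  set A : ℝ := ∫ q, f q ^ 2 with hA
  have hA0 : 0 ≤ A := integral_nonneg fun q => sq_nonneg _
  rw [Metric.tendsto_atTop]
  intro ε hε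
  set c : ℝ := ε / (2 * (A + 1)) with hc
  have hc0 : 0 < c := by positivity
  have hcA : c * A < ε / 2 := by
    rw [hc, div_mul_eq_mul_div, div_lt_div_iff₀ (by positivity) (by norm_num)]
    nlinarith
  have h1 : (0 : ℝ) < 4 * c * (ε / 2) := by positivity
  obtain ⟨N, hN⟩ := (Metric.tendsto_atTop.1 h) _ h1
  refine ⟨N, fun n hn => ?_⟩
  have h2 := hN n hn
  have h3 : 0 ≤ ∫ q, (g n q - g₀ q) ^ 2 := integral_nonneg fun q => sq_nonneg _
  rw [Real.dist_eq, sub_zero, abs_of_nonneg h3] at h2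
  have hd : MemLp (fun q => g n q - g₀ q) 2 volume := (hg n).sub hg₀
  have h4 : (∫ q, f q * g n q) - ∫ q, f q * g₀ q = ∫ q, f q * (g n q - g₀ q) := by
    rw [← integral_sub (b07_int hf (hg n)) (b07_int hf hg₀)]
    congr 1
    funext q
    ring
  rw [Real.dist_eq, h4]
  have h5 : |∫ q, f q * (g n q - g₀ q)| ≤
      ∫ q, (c * f q ^ 2 + (4 * c)⁻¹ * (g n q - g₀ q) ^ 2) := by
    refine (abs_integral_le_integral_abs).trans ?_
    refine integral_mono (b07_int hf hd).abs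
      ((hf.integrable_sq.const_mul _).add (hd.integrable_sq.const_mul _)) fun q => ?_
    show |f q * (g n q - g₀ q)| ≤ c * f q ^ 2 + (4 * c)⁻¹ * (g n q - g₀ q) ^ 2
    set u := f q with hu
    set w := g n q - g₀ q with hw
    have e1 : c * u ^ 2 + (4 * c)⁻¹ * w ^ 2 - u * w = c * (u - (2 * c)⁻¹ * w) ^ 2 := by
      field_simp
      ring
    have e2 : c * u ^ 2 + (4 * c)⁻¹ * w ^ 2 + u * w = c * (u + (2 * c)⁻¹ * w) ^ 2 := by
      field_simp
      ring
    have e3 : 0 ≤ c * (u - (2 * c)⁻¹ * w) ^ 2 := by positivity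
    have e4 : 0 ≤ c * (u + (2 * c)⁻¹ * w) ^ 2 := by positivity
    rw [abs_le]
    constructor
    · linarith
    · linarith
  have h6 : ∫ q, (c * f q ^ 2 + (4 * c)⁻¹ * (g n q - g₀ q) ^ 2) =
      c * A + (4 * c)⁻¹ * ∫ q, (g n q - g₀ q) ^ 2 := by
    rw [integral_add (hf.integrable_sq.const_mul _) (hd.integrable_sq.const_mul _),
      integral_const_mul, integral_const_mul]
  have h7 : (4 * c)⁻¹ * ∫ q, (g n q - g₀ q) ^ 2 < ε / 2 := by
    rw [inv_mul_lt_iff₀ (by positivity)]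
    exact h2
  rw [h6] at h5
  linarith

private theorem b07_d1 {φ : P → ℝ} (h : ContDiff ℝ ∞ φ) : ContDiff ℝ ∞ (d1 φ) :=
  (h.fderiv_right (m := ∞) (by simp)).clm_apply contDiff_const

private theorem b07_d2 {φ : P → ℝ} (h : ContDiff ℝ ∞ φ) : ContDiff ℝ ∞ (d2 φ) :=
  (h.fderiv_right (m := ∞) (by simp)).clm_apply contDiff_const

private theorem b07_c1 {φ : P → ℝ} (h : HasCompactSupport φ) : HasCompactSupport (d1 φ) :=
  h.fderiv_apply ℝ ((1, 0) : P)

private theorem b07_c2 {φ : P → ℝ} (h : HasCompactSupport φ) : HasCompactSupport (d2 φ) :=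
  h.fderiv_apply ℝ ((0, 1) : P)

private theorem b07_mem {μ : Measure P} [IsFiniteMeasureOnCompacts μ] {φ : P → ℝ}
    (h : ContDiff ℝ ∞ φ) (hc : HasCompactSupport φ) : MemLp φ 2 μ :=
  h.continuous.memLp_of_hasCompactSupport hc

/-- The weak equation for test functions in `H¹₀(D)`: pass to the limit in `S.weak` with the test
functions of `H10`. -/
theorem B.weak_h10 (S : Spec D) (k : ℕ) {v v₁ v₂ : P → ℝ} (hv : H10 D v v₁ v₂) :
    ∫ q, (S.u₁ k q * v₁ q + S.u₂ k q * v₂ q) = S.lam k * ∫ q, S.u k q * v q := by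
  obtain ⟨φ, hφ, a0, a1, a2⟩ := hv.approx
  have hu := S.h10 k
  have m0 : ∀ n, MemLp (φ n) 2 volume := fun n => b07_mem (hφ n).smooth (hφ n).compact
  have m1 : ∀ n, MemLp (d1 (φ n)) 2 volume := fun n =>
    b07_mem (b07_d1 (hφ n).smooth) (b07_c1 (hφ n).compact)
  have m2 : ∀ n, MemLp (d2 (φ n)) 2 volume := fun n =>
    b07_mem (b07_d2 (hφ n).smooth) (b07_c2 (hφ n).compact)
  have t0 := b07_lim hu.mem m0 hv.mem a0
  have t1 := b07_lim hu.mem₁ m1 hv.mem₁ a1
  have t2 := b07_lim hu.mem₂ m2 hv.mem₂ a2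
  have e : ∀ n, (∫ q, S.u₁ k q * d1 (φ n) q) + ∫ q, S.u₂ k q * d2 (φ n) q =
      S.lam k * ∫ q, S.u k q * φ n q := by
    intro n
    rw [← integral_add (b07_int hu.mem₁ (m1 n)) (b07_int hu.mem₂ (m2 n))]
    exact S.weak k (φ n) (hφ n)
  have t3 := t1.add t2
  simp only [e] at t3
  rw [integral_add (b07_int hu.mem₁ hv.mem₁) (b07_int hu.mem₂ hv.mem₂)]
  exact tendsto_nhds_unique t3 (t0.const_mul _)

/-- Integration by parts: for a test function `φ` instead of `S.u k` this is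
`integral_mul_fderiv_eq_neg_fderiv_mul_of_integrable` twice; pass to the limit `φ n → S.u k`. -/
theorem B.parts (S : Spec D) (k : ℕ) {Φ : P → ℝ} (hΦ : ContDiff ℝ ∞ Φ)
    (hc : HasCompactSupport Φ) : ∫ q, (S.u₁ k q * d1 Φ q + S.u₂ k q * d2 Φ q) =
      -∫ q, S.u k q * (d1 (d1 Φ) q + d2 (d2 Φ) q) := by
  have hu := S.h10 k
  obtain ⟨φ, hφ, a0, a1, a2⟩ := hu.approx
  have m0 : ∀ n, MemLp (φ n) 2 volume := fun n => b07_mem (hφ n).smooth (hφ n).compact
  have m1 : ∀ n, MemLp (d1 (φ n)) 2 volume := fun n =>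
    b07_mem (b07_d1 (hφ n).smooth) (b07_c1 (hφ n).compact)
  have m2 : ∀ n, MemLp (d2 (φ n)) 2 volume := fun n =>
    b07_mem (b07_d2 (hφ n).smooth) (b07_c2 (hφ n).compact)
  have s1 := b07_d1 hΦ
  have s2 := b07_d2 hΦ
  have s11 := b07_d1 s1
  have s22 := b07_d2 s2
  have n1 : MemLp (d1 Φ) 2 volume := b07_mem s1 (b07_c1 hc)
  have n2 : MemLp (d2 Φ) 2 volume := b07_mem s2 (b07_c2 hc)
  have n11 : MemLp (d1 (d1 Φ)) 2 volume := b07_mem s11 (b07_c1 (b07_c1 hc))
  have n22 : MemLp (d2 (d2 Φ)) 2 volume := b07_mem s22 (b07_c2 (b07_c2 hc))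
  have t01 := b07_lim n11 m0 hu.mem a0
  have t02 := b07_lim n22 m0 hu.mem a0
  have t1 := b07_lim n1 m1 hu.mem₁ a1
  have t2 := b07_lim n2 m2 hu.mem₂ a2
  have e1 : ∀ n, ∫ q, d1 Φ q * d1 (φ n) q = -∫ q, d1 (d1 Φ) q * φ n q := by
    intro n
    exact integral_mul_fderiv_eq_neg_fderiv_mul_of_integrable (f := d1 Φ) (g := φ n)
      (v := ((1, 0) : P)) (b07_int n11 (m0 n)) (b07_int n1 (m1 n)) (b07_int n1 (m0 n))
      (fun x _ => (s1.differentiable (by simp)) x)
      (fun x _ => ((hφ n).smooth.differentiable (by simp)) x)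
  have e2 : ∀ n, ∫ q, d2 Φ q * d2 (φ n) q = -∫ q, d2 (d2 Φ) q * φ n q := by
    intro n
    exact integral_mul_fderiv_eq_neg_fderiv_mul_of_integrable (f := d2 Φ) (g := φ n)
      (v := ((0, 1) : P)) (b07_int n22 (m0 n)) (b07_int n2 (m2 n)) (b07_int n2 (m0 n))
      (fun x _ => (s2.differentiable (by simp)) x)
      (fun x _ => ((hφ n).smooth.differentiable (by simp)) x)
  simp only [e1] at t1
  simp only [e2] at t2
  have r1 := tendsto_nhds_unique t1 t01.neg
  have r2 := tendsto_nhds_unique t2 t02.neg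
  have l1 : ∫ q, (S.u₁ k q * d1 Φ q + S.u₂ k q * d2 Φ q) =
      (∫ q, d1 Φ q * S.u₁ k q) + ∫ q, d2 Φ q * S.u₂ k q := by
    rw [← integral_add (b07_int n1 hu.mem₁) (b07_int n2 hu.mem₂)]
    congr 1
    funext q
    ring
  have l2 : ∫ q, S.u k q * (d1 (d1 Φ) q + d2 (d2 Φ) q) =
      (∫ q, d1 (d1 Φ) q * S.u k q) + ∫ q, d2 (d2 Φ) q * S.u k q := by
    rw [← integral_add (b07_int n11 hu.mem) (b07_int n22 hu.mem)]
    congr 1
    funext q
    ring
  rw [l1, l2, r1, r2]
  ring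

/-- The real version. Proof: `v = D.indicator Φ`, `Φ = B.foldR .. F`: `B.weak_h10` with
`B.fold_h10`; the indicators of the gradient can be omitted because `S.u₁ k`, `S.u₂ k` vanish off
`D` (`B.h10_zero`); then `B.parts` (compact support: `B.foldR_compact`) and `B.foldR_lap`. -/
theorem B.real_lap (S : Spec D) {G : Geo D} {ρ R : ℝ} (hρ : 0 < ρ) (hρ' : ρ ≤ 4 * G.rho0)
    (hR : 0 < R) (hR' : 2 * R ≤ ρ) (W : Walls G ρ) {x : P} (hx : x ∈ closure D)
    (hfar : G.Far ρ x) {F : P → ℝ} (hs : ContDiff ℝ ∞ F) (hF : ∀ y, R < dist y x → F y = 0)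
    (k : ℕ) : ∫ q in D, S.u k q * B.foldR (W.w1 x) (W.w2 x) (fun y => d1 (d1 F) y + d2 (d2 F) y) q =
      -S.lam k * ∫ q in D, S.u k q * B.foldR (W.w1 x) (W.w2 x) F q := by
  have hcF : HasCompactSupport F := HasCompactSupport.intro (isCompact_closedBall x R)
    fun y hy => hF y (not_le.1 hy)
  set Φ := B.foldR (W.w1 x) (W.w2 x) F with hΦ
  have hs' : ContDiff ℝ ∞ Φ := B.foldR_smooth _ _ hs
  have hc' : HasCompactSupport Φ := B.foldR_compact _ _ hcF
  obtain ⟨z0, z1, z2⟩ := B.h10_zero S.isOpen (S.h10 k)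
  have hm := S.isOpen.measurableSet
  have h1 := B.weak_h10 S k (B.fold_h10 hρ hρ' hR hR' W hx hfar hs hF)
  have h2 := B.parts S k hs' hc'
  have h3 : ∫ q, (S.u₁ k q * D.indicator (d1 Φ) q + S.u₂ k q * D.indicator (d2 Φ) q) =
      ∫ q, (S.u₁ k q * d1 Φ q + S.u₂ k q * d2 Φ q) := by
    refine integral_congr_ae ?_
    filter_upwards [z1, z2] with q q1 q2
    by_cases hq : q ∈ D
    · rw [indicator_of_mem hq, indicator_of_mem hq]
    · rw [q1 hq, q2 hq]
      ring
  have h4 : ∫ q, S.u k q * D.indicator Φ q = ∫ q in D, S.u k q * Φ q := by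
    rw [← integral_indicator hm]
    congr 1
    funext q
    by_cases hq : q ∈ D
    · rw [indicator_of_mem hq, indicator_of_mem hq]
    · rw [indicator_of_notMem hq, indicator_of_notMem hq, mul_zero]
  have h5 : ∫ q, S.u k q * (d1 (d1 Φ) q + d2 (d2 Φ) q) = ∫ q in D, S.u k q *
      B.foldR (W.w1 x) (W.w2 x) (fun y => d1 (d1 F) y + d2 (d2 F) y) q := by
    have e : (fun q => S.u k q * (d1 (d1 Φ) q + d2 (d2 Φ) q)) = fun q => S.u k q *
        B.foldR (W.w1 x) (W.w2 x) (fun y => d1 (d1 F) y + d2 (d2 F) y) q := by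
      funext q
      rw [hΦ, B.foldR_lap _ _ hs q]
    rw [e]
    refine (setIntegral_eq_integral_of_ae_compl_eq_zero ?_).symm
    filter_upwards [z0] with q q0 hq
    rw [q0 hq, zero_mul]
  rw [← hΦ, h3, h2, h4, h5] at h1
  rw [neg_mul, ← h1, neg_neg]

private theorem b07_sub {F : P → ℂ} (hs : ContDiff ℝ ∞ F) (w : P) :
    ContDiff ℝ ∞ (fun q => fderiv ℝ F q w) :=
  (hs.fderiv_right (m := ∞) (by simp)).clm_apply contDiff_const

private theorem b07_re {F : P → ℂ} (hs : ContDiff ℝ ∞ F) (w q : P) :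
    (fderiv ℝ F q w).re = fderiv ℝ (fun y => (F y).re) q w := by
  have h1 : HasFDerivAt F (fderiv ℝ F q) q := ((hs.differentiable (by simp)) q).hasFDerivAt
  have h2 : HasFDerivAt (fun y => (F y).re) (Complex.reCLM.comp (fderiv ℝ F q)) q :=
    Complex.reCLM.hasFDerivAt.comp q h1
  rw [h2.fderiv]
  rfl

private theorem b07_im {F : P → ℂ} (hs : ContDiff ℝ ∞ F) (w q : P) :
    (fderiv ℝ F q w).im = fderiv ℝ (fun y => (F y).im) q w := by
  have h1 : HasFDerivAt F (fderiv ℝ F q) q := ((hs.differentiable (by simp)) q).hasFDerivAt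
  have h2 : HasFDerivAt (fun y => (F y).im) (Complex.imCLM.comp (fderiv ℝ F q)) q :=
    Complex.imCLM.hasFDerivAt.comp q h1
  rw [h2.fderiv]
  rfl

private theorem b07_lap_re {F : P → ℂ} (hs : ContDiff ℝ ∞ F) (q : P) :
    (Lap F q).re = d1 (d1 fun y => (F y).re) q + d2 (d2 fun y => (F y).re) q := by
  have e1 : (fun y => (D1 F y).re) = d1 fun y => (F y).re := funext fun y => b07_re hs _ y
  have e2 : (fun y => (D2 F y).re) = d2 fun y => (F y).re := funext fun y => b07_re hs _ y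
  rw [← e1, ← e2]
  show (D1 (D1 F) q + D2 (D2 F) q).re = _
  rw [Complex.add_re]
  exact congrArg₂ (· + ·) (b07_re (b07_sub hs _) _ q) (b07_re (b07_sub hs _) _ q)

private theorem b07_lap_im {F : P → ℂ} (hs : ContDiff ℝ ∞ F) (q : P) :
    (Lap F q).im = d1 (d1 fun y => (F y).im) q + d2 (d2 fun y => (F y).im) q := by
  have e1 : (fun y => (D1 F y).im) = d1 fun y => (F y).im := funext fun y => b07_im hs _ y
  have e2 : (fun y => (D2 F y).im) = d2 fun y => (F y).im := funext fun y => b07_im hs _ y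
  rw [← e1, ← e2]
  show (D1 (D1 F) q + D2 (D2 F) q).im = _
  rw [Complex.add_im]
  exact congrArg₂ (· + ·) (b07_im (b07_sub hs _) _ q) (b07_im (b07_sub hs _) _ q)

private theorem b07_fold (w₁ w₂ : ℝ × ℝ) (F : P → ℂ) (q : P) :
    foldF (-1) (-1) w₁ w₂ F q = ((B.foldR w₁ w₂ (fun y => (F y).re) q : ℝ) : ℂ) +
      ((B.foldR w₁ w₂ (fun y => (F y).im) q : ℝ) : ℂ) * Complex.I := by
  apply Complex.ext
  · simp [foldF, B.foldR]
    ring
  · simp [foldF, B.foldR]
    ring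

/-- the coefficients of folded functions -/
private theorem b07_co (S : Spec D) {G : Geo D} {ρ : ℝ} (W : Walls G ρ) (x : P) {F : P → ℂ}
    (hs : ContDiff ℝ ∞ F) (hc : HasCompactSupport F) (k : ℕ) :
    S.co k (cls D (W.fold (-1) (-1) x F)) =
      ((∫ q in D, S.u k q * B.foldR (W.w1 x) (W.w2 x) (fun y => (F y).re) q : ℝ) : ℂ) +
      ((∫ q in D, S.u k q * B.foldR (W.w1 x) (W.w2 x) (fun y => (F y).im) q : ℝ) : ℂ) *
        Complex.I := by
  have hm := S.isOpen.measurableSet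
  have hF : MemLp F 2 volume := hs.continuous.memLp_of_hasCompactSupport hc
  have hf : MemLp (W.fold (-1) (-1) x F) 2 (volume.restrict D) := memLp_fold W _ _ x hF
  have ha : ContDiff ℝ ∞ fun y => (F y).re := Complex.reCLM.contDiff.comp hs
  have hb : ContDiff ℝ ∞ fun y => (F y).im := Complex.imCLM.contDiff.comp hs
  have ca : HasCompactSupport fun y => (F y).re := hc.comp_left (g := Complex.re) rfl
  have cb : HasCompactSupport fun y => (F y).im := hc.comp_left (g := Complex.im) rfl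
  have ma : MemLp (B.foldR (W.w1 x) (W.w2 x) fun y => (F y).re) 2 (volume.restrict D) :=
    b07_mem (B.foldR_smooth _ _ ha) (B.foldR_compact _ _ ca)
  have mb : MemLp (B.foldR (W.w1 x) (W.w2 x) fun y => (F y).im) 2 (volume.restrict D) :=
    b07_mem (B.foldR_smooth _ _ hb) (B.foldR_compact _ _ cb)
  have mu : MemLp (S.u k) 2 (volume.restrict D) := (S.h10 k).mem.restrict D
  have ia := (b07_int mu ma).ofReal (𝕜 := ℂ)
  have ib := ((b07_int mu mb).ofReal (𝕜 := ℂ)).mul_const Complex.I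
  rw [B.co_eq]
  have e : ∫ q in D, (S.u k q : ℂ) * (cls D (W.fold (-1) (-1) x F) : P → ℂ) q =
      ∫ q in D, (((S.u k q * B.foldR (W.w1 x) (W.w2 x) (fun y => (F y).re) q : ℝ) : ℂ) +
        ((S.u k q * B.foldR (W.w1 x) (W.w2 x) (fun y => (F y).im) q : ℝ) : ℂ) *
          Complex.I) := by
    refine integral_congr_ae ?_
    filter_upwards [B.cls_coe hf, ae_restrict_mem hm] with q q1 q2
    rw [q1, Walls.fold, indicator_of_mem q2, b07_fold]
    push_cast
    ring
  rw [e]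
  refine (integral_add ia ib).trans ?_
  refine congrArg₂ (· + ·) integral_ofReal ?_
  refine (integral_mul_const _ _).trans ?_
  exact congrArg (· * Complex.I) integral_ofReal

/-- The Laplacian of a folded smooth function, in the weak sense. Proof: `F = a + i b` with real
smooth `a`, `b`; `Lap F = (d1 d1 a + d2 d2 a) + i (..)` (`fderiv` of the real and the imaginary
part), `foldF (-1) (-1) w₁ w₂ F = foldR a + i foldR b`; `S.co k (cls D f) = ∫ q in D, u k q * f q`
(`B.inner_cls`); `B.real_lap` for `a` and `b`. -/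
theorem co_fold_lap (S : Spec D) {G : Geo D} {ρ R : ℝ} (hρ : 0 < ρ) (hρ' : ρ ≤ 4 * G.rho0)
    (hR : 0 < R) (hR' : 2 * R ≤ ρ) (W : Walls G ρ) {x : P} (hx : x ∈ closure D)
    (hfar : G.Far ρ x) {F : P → ℂ} (hs : ContDiff ℝ ∞ F) (hF : ∀ y, R < dist y x → F y = 0)
    (k : ℕ) : S.co k (cls D (W.fold (-1) (-1) x (Lap F))) =
      -(S.lam k : ℂ) * S.co k (cls D (W.fold (-1) (-1) x F)) := by
  have hc : HasCompactSupport F := HasCompactSupport.intro (isCompact_closedBall x R)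
    fun y hy => hF y (not_le.1 hy)
  have hL : ContDiff ℝ ∞ (Lap F) :=
    (b07_sub (b07_sub hs _) _).add (b07_sub (b07_sub hs _) _)
  have hcL : HasCompactSupport (Lap F) :=
    ((hc.fderiv_apply ℝ ((1, 0) : P)).fderiv_apply ℝ ((1, 0) : P)).add
      ((hc.fderiv_apply ℝ ((0, 1) : P)).fderiv_apply ℝ ((0, 1) : P))
  have ha : ContDiff ℝ ∞ fun y => (F y).re := Complex.reCLM.contDiff.comp hs
  have hb : ContDiff ℝ ∞ fun y => (F y).im := Complex.imCLM.contDiff.comp hs
  have r1 := B.real_lap S hρ hρ' hR hR' W hx hfar ha (fun y hy => by rw [hF y hy]; rfl) k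
  have r2 := B.real_lap S hρ hρ' hR hR' W hx hfar hb (fun y hy => by rw [hF y hy]; rfl) k
  rw [b07_co S W x hL hcL k, b07_co S W x hs hc k]
  have e1 : (fun y => (Lap F y).re) = fun y => d1 (d1 fun y => (F y).re) y +
      d2 (d2 fun y => (F y).re) y := funext fun y => b07_lap_re hs y
  have e2 : (fun y => (Lap F y).im) = fun y => d1 (d1 fun y => (F y).im) y +
      d2 (d2 fun y => (F y).im) y := funext fun y => b07_lap_im hs y
  rw [e1, e2, r1, r2]
  push_cast
  ring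

end

end Pool.Agent.MP4eed4eR
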