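import Pool.Agent.Lib.MP_4eed4e_an_R.Base
import Pool.Agent.Lib.MP_ff3fe0_an_SPH.PlaA

/-!
MP_4eed4e_an, project R, block B, module B08: Plancherel in the plane.
-/

namespace Pool.Agent.MP4eed4eR

open MeasureTheory Set Filter Topology Metric
open scoped ComplexConjugate ContDiff ENNReal FourierTransform

noncomputable section

variable {D : Set P}

private abbrev E2 : Type := EuclideanSpace ℝ (Fin 2)

private def phi : E2 ≃ᵐ P :=
  (MeasurableEquiv.toLp 2 (Fin 2 → ℝ)).symm.trans MeasurableEquiv.finTwoArrow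

private theorem phi_apply (v : E2) : phi v = (v 0, v 1) := rfl

private theorem phi_mp : MeasurePreserving phi volume volume :=
  (volume_preserving_finTwoArrow ℝ).comp
    (EuclideanSpace.volume_preserving_symm_measurableEquiv_toLp (Fin 2))

private theorem inner_phi (v w : E2) : inner ℝ v w = dot (phi w) (phi v) := by
  rw [phi_apply, phi_apply, PiLp.inner_apply, Fin.sum_univ_two]
  simp only [RCLike.inner_apply, conj_trivial, dot]

private theorem four_phi (f : P → ℂ) (w : E2) : 𝓕 (fun v : E2 => f (phi v)) w =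
    ∫ y, f y * Complex.exp (-(2 * Real.pi * dot (phi w) y : ℝ) * Complex.I) := by
  rw [← phi_mp.integral_comp phi.measurableEmbedding, Real.fourier_eq']
  refine integral_congr_ae (Eventually.of_forall fun v => ?_)
  simp only [smul_eq_mul]
  rw [mul_comm, inner_phi]
  congr 2
  push_cast
  ring

private theorem pl_lint {α : Type*} [MeasurableSpace α] {μ : Measure α} {f : α → ℂ} :
    ∫ x, ‖f x‖ ^ 2 ∂μ = (∫⁻ x, ‖f x‖ₑ ^ 2 ∂μ).toReal ∨ ¬ AEStronglyMeasurable f μ := by
  by_cases hf : AEStronglyMeasurable f μ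
  · left
    have hm : AEStronglyMeasurable (fun x => ‖f x‖ ^ 2) μ := hf.norm.pow 2
    rw [integral_eq_lintegral_of_nonneg_ae (f := fun x => ‖f x‖ ^ 2)
      (Eventually.of_forall fun x => sq_nonneg _) hm]
    congr 1
    refine lintegral_congr fun x => ?_
    rw [ENNReal.ofReal_pow (norm_nonneg _), ofReal_norm]
  · exact Or.inr hf

private theorem pl_four {f : P → ℂ} (hf : MemLp f 2 volume) (hf1 : Integrable f) :
    Integrable (fun ζ : P => ‖∫ y, f y *
      Complex.exp (-(2 * Real.pi * dot ζ y : ℝ) * Complex.I)‖ ^ 2) ∧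
    ∫ ζ : P, ‖∫ y, f y * Complex.exp (-(2 * Real.pi * dot ζ y : ℝ) * Complex.I)‖ ^ 2 =
      ∫ y, ‖f y‖ ^ 2 := by
  have hq1 : Integrable (fun v : E2 => f (phi v)) :=
    (phi_mp.integrable_comp_emb phi.measurableEmbedding).2 hf1
  have hq2 : MemLp (fun v : E2 => f (phi v)) 2 volume := hf.comp_measurePreserving phi_mp
  have hpl := Pool.Agent.Lib.MP_ff3fe0_an_SPH.plancherel (fun v : E2 => f (phi v)) hq1 hq2
  have hcont : Continuous (𝓕 (fun v : E2 => f (phi v))) :=
    VectorFourier.fourierIntegral_continuous Real.continuous_fourierChar continuous_inner hq1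
  have hmem : MemLp (𝓕 (fun v : E2 => f (phi v))) 2 volume := by
    refine ⟨hcont.aestronglyMeasurable, ?_⟩
    rw [eLpNorm_lt_top_iff_lintegral_rpow_enorm_lt_top (by norm_num) (by norm_num)]
    have h1 := (eLpNorm_lt_top_iff_lintegral_rpow_enorm_lt_top (f := fun v : E2 => f (phi v))
      (μ := volume) (p := 2) (by norm_num) (by norm_num)).1 hq2.2
    simp only [ENNReal.toReal_ofNat, ENNReal.rpow_ofNat] at h1 ⊢
    rw [hpl]
    exact h1
  have hint := (memLp_two_iff_integrable_sq_norm hcont.aestronglyMeasurable).1 hmem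
  simp only [four_phi] at hint
  constructor
  · exact (phi_mp.integrable_comp_emb phi.measurableEmbedding).1 hint
  · rw [← phi_mp.integral_comp phi.measurableEmbedding,
      ← phi_mp.integral_comp phi.measurableEmbedding (fun y => ‖f y‖ ^ 2)]
    simp only [← four_phi]
    rcases pl_lint (μ := (volume : Measure E2)) (f := 𝓕 (fun v : E2 => f (phi v))) with h1 | h1
    · rcases pl_lint (μ := (volume : Measure E2)) (f := fun v : E2 => f (phi v)) with h2 | h2
      · rw [h1, h2, hpl]
      · exact absurd hq1.aestronglyMeasurable h2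
    · exact absurd hcont.aestronglyMeasurable h1

/-- Plancherel. Proof: the module `Pool.Agent.Lib.MP_ff3fe0_an_SPH.PlaA` (import it) contains
`∫⁻ ξ, ‖𝓕 q ξ‖ₑ ^ 2 = ∫⁻ y, ‖q y‖ₑ ^ 2` for `q : EuclideanSpace ℝ (Fin d) → ℂ` integrable and
square integrable (it comes from `MeasureTheory.Lp.norm_fourier_eq`). Transfer to `ℝ × ℝ` with the
measure preserving equivalences `EuclideanSpace.volume_preserving_measurableEquiv` (or
`PiLp.volume_preserving_ofLp`) and `MeasureTheory.volume_preserving_finTwoArrow`; the inner product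
of `EuclideanSpace ℝ (Fin 2)` is `dot`. Then rescale: `𝓕 f (ξ) = ∫ exp (-2π i ξ·y) f y dy`, so the
function of the statement is `𝓕 f (ξ / (2π h))`, and the substitution `ξ = 2π h ζ` gives the factor
`(2π h)²` (`Measure.integral_comp_smul` or `lintegral` version, dimension `2`). -/
theorem plancherel {h : ℝ} (hh0 : 0 < h) {f : P → ℂ} (hf : MemLp f 2 volume)
    (hf1 : Integrable f) :
    Integrable (fun ξ : P => ‖∫ y, f y * Complex.exp (-(dot ξ y / h : ℝ) * Complex.I)‖ ^ 2) ∧
    ∫ ξ : P, ‖∫ y, f y * Complex.exp (-(dot ξ y / h : ℝ) * Complex.I)‖ ^ 2 =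
      (2 * Real.pi * h) ^ 2 * ∫ y, ‖f y‖ ^ 2 := by
  obtain ⟨h1, h2⟩ := pl_four hf hf1
  have hc : (2 * Real.pi * h : ℝ) ≠ 0 := by positivity
  have key : ∀ ζ : P, ∫ y, f y * Complex.exp (-(dot ((2 * Real.pi * h) • ζ) y / h : ℝ) * Complex.I)
      = ∫ y, f y * Complex.exp (-(2 * Real.pi * dot ζ y : ℝ) * Complex.I) := by
    intro ζ
    refine integral_congr_ae (Eventually.of_forall fun y => ?_)
    have e1 : dot ((2 * Real.pi * h) • ζ) y / h = 2 * Real.pi * dot ζ y := by
      have e2 : dot ((2 * Real.pi * h) • ζ) y = 2 * Real.pi * h * dot ζ y := by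
        simp only [dot, Prod.smul_fst, Prod.smul_snd, smul_eq_mul]
        ring
      rw [e2]
      field_simp
    simp only [e1]
  have h3 : Integrable (fun ζ : P =>
      ‖∫ y, f y * Complex.exp (-(dot ((2 * Real.pi * h) • ζ) y / h : ℝ) * Complex.I)‖ ^ 2) := by
    simp only [key]
    exact h1
  have h4 := (integrable_comp_smul_iff (volume : Measure P)
    (fun ξ : P => ‖∫ y, f y * Complex.exp (-(dot ξ y / h : ℝ) * Complex.I)‖ ^ 2) hc).1 h3
  refine ⟨h4, ?_⟩
  have h5 := Measure.integral_comp_smul (volume : Measure P)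
    (fun ξ : P => ‖∫ y, f y * Complex.exp (-(dot ξ y / h : ℝ) * Complex.I)‖ ^ 2)
    (2 * Real.pi * h)
  simp only [key] at h5
  rw [h2] at h5
  have h6 : Module.finrank ℝ P = 2 := by simp
  rw [h6, abs_of_nonneg (by positivity), smul_eq_mul] at h5
  rw [h5, ← mul_assoc, mul_inv_cancel₀ (pow_ne_zero 2 hc), one_mul]

end

end Pool.Agent.MP4eed4eR
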