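import Pool.Agent.Lib.MP_4eed4e_an_R.BDefs
import Pool.Agent.Lib.MP_4eed4e_an_R.B01
import Pool.Agent.Lib.MP_4eed4e_an_R.B05
import Pool.Agent.Lib.MP_4eed4e_an_R.B08

/-!
MP_4eed4e_an, project R, block B, module B09: Plancherel for the folded families.
-/

namespace Pool.Agent.MP4eed4eR

open MeasureTheory Set Filter Topology Metric
open scoped ComplexConjugate ContDiff ENNReal

noncomputable section

variable {D : Set P}

/-- The coefficient of the image `(i, j)`. -/
def B.cf (e₁ e₂ : ℝ) (w₁ w₂ : ℝ × ℝ) (i j : Bool) : ℝ :=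
  (if i then e₁ * w₁.2 ^ 2 else 1) * (if j then e₂ * w₂.2 ^ 2 else 1)

theorem B.foldF_sum (e₁ e₂ : ℝ) (w₁ w₂ : ℝ × ℝ) (F : P → ℂ) (q : P) :
    foldF e₁ e₂ w₁ w₂ F q =
      ∑ i : Bool, ∑ j : Bool, (B.cf e₁ e₂ w₁ w₂ i j : ℂ) * F (B.img w₁ w₂ i j q) := by
  simp only [Fintype.sum_bool, B.cf, B.img, foldF, if_true, Bool.false_eq_true, if_false]
  push_cast
  ring

theorem B.foldN_sum (w₁ w₂ : ℝ × ℝ) (N : P → ℝ) (q : P) :
    foldN w₁ w₂ N q =
      ∑ i : Bool, ∑ j : Bool, B.cf 1 1 w₁ w₂ i j * N (B.img w₁ w₂ i j q) := by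
  simp only [Fintype.sum_bool, B.cf, B.img, foldN, if_true, Bool.false_eq_true, if_false]
  ring

/-- The images are measure preserving involutions. -/
theorem B.img_inv (w₁ w₂ : ℝ × ℝ) (i j : Bool) :
    MeasurePreserving (B.img w₁ w₂ i j) volume volume ∧
      ∀ q, B.img w₁ w₂ i j (B.img w₁ w₂ i j q) = q := by
  have h1 : ∀ (a : ℝ) (i : Bool),
      MeasurePreserving (fun t : ℝ => if i then 2 * a - t else t) volume volume := by
    intro a i
    cases i
    · simp only [Bool.false_eq_true, if_false]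
      exact MeasurePreserving.id (volume : Measure ℝ)
    · simpa using Measure.measurePreserving_sub_left (volume : Measure ℝ) (2 * a)
  constructor
  · exact (h1 w₁.1 i).prod (h1 w₂.1 j)
  · intro q
    unfold B.img
    cases i <;> cases j <;> simp

/-- At most one image of a point near `x` belongs to `D`. Proof: let `g = B.img i j`,
`g' = B.img i' j'` with `g y ∈ D`, `g' y ∈ D`, `dist y x ≤ R`. By `B.img_near` (for the points
`g y`, whose image under `g` is `y`) and the proof there (`B.side1`, `B.side2`) `g y` and `g' y` are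
on the inner sides of the walls that exist. If `i ≠ i'` the vertical wall `(a, s)` exists and
`(g y).1`, `(g' y).1` are mirror images in `a`, so not both on the inner side. -/
theorem B.img_unique {G : Geo D} {ρ R : ℝ} (hρ : 0 < ρ) (hρ' : ρ ≤ 4 * G.rho0) (hR : 0 < R)
    (hR' : 2 * R ≤ ρ) (W : Walls G ρ) {x : P} (hx : x ∈ closure D) (hfar : G.Far ρ x) {y : P}
    (hy : dist y x ≤ R) {i j i' j' : Bool} (hi : (i = true ∨ i' = true) → (W.w1 x).2 ≠ 0)
    (hj : (j = true ∨ j' = true) → (W.w2 x).2 ≠ 0)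
    (h : B.img (W.w1 x) (W.w2 x) i j y ∈ D) (h' : B.img (W.w1 x) (W.w2 x) i' j' y ∈ D) :
    i = i' ∧ j = j' := by
  -- the inner sides
  have key : ∀ i j : Bool, (i = true → (W.w1 x).2 ≠ 0) → (j = true → (W.w2 x).2 ≠ 0) →
      B.img (W.w1 x) (W.w2 x) i j y ∈ D →
      ((W.w1 x).2 ≠ 0 → 0 < (W.w1 x).2 * ((B.img (W.w1 x) (W.w2 x) i j y).1 - (W.w1 x).1)) ∧
      ((W.w2 x).2 ≠ 0 → 0 < (W.w2 x).2 * ((B.img (W.w1 x) (W.w2 x) i j y).2 - (W.w2 x).1)) := by
    intro i j hi hj hD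
    have h1 : dist (B.img (W.w1 x) (W.w2 x) i j y) x ≤ R := by
      refine B.img_near hρ hρ' hR hR' W hx hfar hD i j hi hj ?_
      rw [(B.img_inv _ _ i j).2]
      exact hy
    rw [Prod.dist_eq, max_le_iff, Real.dist_eq, Real.dist_eq] at h1
    obtain ⟨h2, h3⟩ := h1
    constructor
    · intro h0
      have h4 := (W.near1 x h0).2
      refine B.side1 hρ hρ' W hx hfar hD h0 ?_ (Or.inl (by linarith))
      have := abs_sub_le (B.img (W.w1 x) (W.w2 x) i j y).1 x.1 (W.w1 x).1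
      rw [abs_sub_comm x.1] at this
      linarith
    · intro h0
      have h4 := (W.near2 x h0).2
      refine B.side2 hρ hρ' W hx hfar hD h0 ?_ (Or.inl (by linarith))
      have := abs_sub_le (B.img (W.w1 x) (W.w2 x) i j y).2 x.2 (W.w2 x).1
      rw [abs_sub_comm x.2] at this
      linarith
  obtain ⟨k1, k2⟩ := key i j (fun e => hi (Or.inl e)) (fun e => hj (Or.inl e)) h
  obtain ⟨k1', k2'⟩ := key i' j' (fun e => hi (Or.inr e)) (fun e => hj (Or.inr e)) h'
  constructor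
  · by_contra hne
    have h0 : (W.w1 x).2 ≠ 0 := hi (by cases i <;> cases i' <;> simp_all)
    have e1 := k1 h0
    have e2 := k1' h0
    unfold B.img at e1 e2
    simp only at e1 e2
    cases i <;> cases i' <;> simp at hne e1 e2 <;> nlinarith
  · by_contra hne
    have h0 : (W.w2 x).2 ≠ 0 := hj (by cases j <;> cases j' <;> simp_all)
    have e1 := k2 h0
    have e2 := k2' h0
    unfold B.img at e1 e2
    simp only at e1 e2
    cases j <;> cases j' <;> simp at hne e1 e2 <;> nlinarith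

private theorem b9_emb (w₁ w₂ : ℝ × ℝ) (p : Bool × Bool) :
    MeasurableEmbedding (B.img w₁ w₂ p.1 p.2) := by
  have h := B.img_inv w₁ w₂ p.1 p.2
  exact (MeasurableEquiv.mk ⟨B.img w₁ w₂ p.1 p.2, B.img w₁ w₂ p.1 p.2, h.2, h.2⟩
    h.1.measurable h.1.measurable).measurableEmbedding

private theorem b9_cv (w₁ w₂ : ℝ × ℝ) (p : Bool × Bool) {X : Type*} [NormedAddCommGroup X]
    [NormedSpace ℝ X] (Φ : P → X) :
    ∫ y, Φ (B.img w₁ w₂ p.1 p.2 y) = ∫ y, Φ y :=
  (B.img_inv w₁ w₂ p.1 p.2).1.integral_comp (b9_emb w₁ w₂ p) Φ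

private theorem b9_memLp {F : P → ℂ} (hF : Measurable F) {C : ℝ} (hC : ∀ y, ‖F y‖ ≤ C)
    {K : Set P} (hK : IsCompact K) (h0 : ∀ y, y ∉ K → F y = 0) : MemLp F 2 volume := by
  have h3 : F = K.indicator F := by
    funext q
    by_cases hq : q ∈ K
    · rw [indicator_of_mem hq]
    · rw [indicator_of_notMem hq, h0 q hq]
  rw [h3, memLp_indicator_iff_restrict hK.measurableSet]
  have : IsFiniteMeasure (volume.restrict K) := ⟨by
    rw [Measure.restrict_apply_univ]
    exact hK.measure_lt_top⟩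
  exact MemLp.of_bound hF.aestronglyMeasurable C (Eventually.of_forall hC)

private theorem b9_sum {ι : Type*} [Fintype ι] {t : ι → ℂ}
    (h : ∀ p p', t p ≠ 0 → t p' ≠ 0 → p = p') : ‖∑ p, t p‖ ^ 2 = ∑ p, ‖t p‖ ^ 2 := by
  classical
  by_cases h0 : ∃ p, t p ≠ 0
  · obtain ⟨p, hp⟩ := h0
    have h1 : ∀ p', p' ≠ p → t p' = 0 := by
      intro p' hne
      by_contra h2
      exact hne (h p' p h2 hp)
    rw [Finset.sum_eq_single p (fun p' _ hne => h1 p' hne) (fun hp' =>
      absurd (Finset.mem_univ p) hp'),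
      Finset.sum_eq_single p (fun p' _ hne => by rw [h1 p' hne]; simp) (fun hp' =>
      absurd (Finset.mem_univ p) hp')]
  · push Not at h0
    simp [h0]

private theorem b9_cf_sq {e₁ e₂ : ℝ} (he₁ : e₁ = 1 ∨ e₁ = -1) (he₂ : e₂ = 1 ∨ e₂ = -1)
    {w₁ w₂ : ℝ × ℝ} (h1 : IsSgn w₁.2) (h2 : IsSgn w₂.2) (i j : Bool) :
    B.cf e₁ e₂ w₁ w₂ i j ^ 2 = B.cf 1 1 w₁ w₂ i j := by
  have e1 : (e₁ * w₁.2 ^ 2) ^ 2 = 1 * w₁.2 ^ 2 := by
    rcases he₁ with rfl | rfl <;> rcases h1 with h | h | h <;> rw [h] <;> norm_num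
  have e2 : (e₂ * w₂.2 ^ 2) ^ 2 = 1 * w₂.2 ^ 2 := by
    rcases he₂ with rfl | rfl <;> rcases h2 with h | h | h <;> rw [h] <;> norm_num
  unfold B.cf
  rw [mul_pow]
  cases i <;> cases j <;> simp only [Bool.false_eq_true, if_false, if_true, e1, e2, one_pow]

private theorem b9_cf_ne {e₁ e₂ : ℝ} {w₁ w₂ : ℝ × ℝ} {i j : Bool}
    (h : B.cf e₁ e₂ w₁ w₂ i j ≠ 0) : (i = true → w₁.2 ≠ 0) ∧ (j = true → w₂.2 ≠ 0) := by
  constructor
  · rintro rfl h0
    apply h
    unfold B.cf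
    rw [h0]
    simp
  · rintro rfl h0
    apply h
    unfold B.cf
    rw [h0]
    simp

/-- Plancherel for the folded families.

Proof. Let `w₁`, `w₂` be the walls of `x`, `E' y = E (y - x)`, and define the extension of `f`:
`f̂ y = ∑ i j, cf * f (img i j y) * [img i j y ∈ D]` if `dist y x ≤ R` and `0` otherwise. By
`B.inner_cls`, `B.foldF_sum` and the change of variables `q = img i j y` (`B.img_inv`) in each term,
`⟨cls (fold ..), f⟩ = ∫ y, conj (E' y) * f̂ y * exp (-i ξ·(y - x) / h)` (the coefficients are real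
and `E' y = 0` for `dist y x > R`). The modulus of this is the modulus of the integral with
`exp (-i ξ·y / h)`, so `plancherel` for `conj E' * f̂` (bounded times square integrable with bounded
support) gives `(2πh)² ∫ ‖E' y‖² ‖f̂ y‖²`. By `B.img_unique` at most one term of `f̂ y` is not zero
and its coefficient has modulus one (`cf = ±1` if the walls exist, otherwise `0`), so
`‖f̂ y‖² = ∑ i j, |cf| ‖f (img i j y)‖² [img i j y ∈ D]` for `dist y x ≤ R`; changing the variables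
back in each term gives `∫ q in D, (∑ i j, |cf| ‖E' (img i j q)‖²) ‖f q‖²` (`B.foldN_sum`, `cf 1 1`
is `|cf e₁ e₂|`). -/
theorem fam_plancherel {G : Geo D} {ρ R h : ℝ} (hh0 : 0 < h) (hρ : 0 < ρ)
    (hρ' : ρ ≤ 4 * G.rho0) (hR : 0 < R) (hR' : 2 * R ≤ ρ) (W : Walls G ρ) {x : P}
    (hx : x ∈ closure D) (hfar : G.Far ρ x) {E : P → ℂ} (hE : Env E R) {e₁ e₂ : ℝ}
    (he₁ : e₁ = 1 ∨ e₁ = -1) (he₂ : e₂ = 1 ∨ e₂ = -1) (f : HD D) :
    Integrable (fun ξ : P => ‖inner ℂ (cls D (W.fam e₁ e₂ E h x ξ)) f‖ ^ 2) ∧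
    ∫ ξ : P, ‖inner ℂ (cls D (W.fam e₁ e₂ E h x ξ)) f‖ ^ 2 =
      (2 * Real.pi * h) ^ 2 *
        ∫ q in D, foldN (W.w1 x) (W.w2 x) (fun y => ‖E (y - x)‖ ^ 2) q * ‖f q‖ ^ 2 := by
  have hDm : MeasurableSet D := G.isOpen.measurableSet
  obtain ⟨C, hC⟩ := hE.bdd
  have hC0 : 0 ≤ C := (norm_nonneg _).trans (hC 0)
  set w₁ := W.w1 x with hw₁
  set w₂ := W.w2 x with hw₂
  set K : Set P := closedBall x R with hKd
  have hK : IsCompact K := isCompact_closedBall _ _
  set E' : P → ℂ := fun y => E (y - x) with hE'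
  have hE'm : Measurable E' := hE.meas.comp (measurable_id.sub_const x)
  have hE'b : ∀ y, ‖E' y‖ ≤ C := fun y => hC _
  have hE'0 : ∀ y, y ∉ K → E' y = 0 := by
    intro y hy
    refine hE.supp _ ?_
    rw [← dist_eq_norm]
    exact not_le.1 hy
  -- the modulated envelopes
  set F : P → P → ℂ := fun ξ y => E' y * Complex.exp ((dot ξ (y - x) / h : ℝ) * Complex.I)
    with hF
  have hdot : ∀ ξ : P, Continuous fun y : P => dot ξ (y - x) := by
    intro ξ
    unfold dot
    fun_prop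
  have hFm : ∀ ξ, Measurable (F ξ) := by
    intro ξ
    exact hE'm.mul (Complex.continuous_exp.comp ((Complex.continuous_ofReal.comp
      ((hdot ξ).div_const h)).mul continuous_const)).measurable
  have hFb : ∀ ξ y, ‖F ξ y‖ ≤ C := by
    intro ξ y
    simp only [hF]
    rw [norm_mul, Complex.norm_exp_ofReal_mul_I, mul_one]
    exact hE'b y
  have hF0 : ∀ ξ y, y ∉ K → F ξ y = 0 := by
    intro ξ y hy
    simp only [hF]
    rw [hE'0 y hy, zero_mul]
  have hFL : ∀ ξ, MemLp (F ξ) 2 volume := fun ξ => b9_memLp (hFm ξ) (hFb ξ) hK (hF0 ξ)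
  -- the function `f`, extended by zero
  set g : P → ℂ := D.indicator (f : P → ℂ) with hg
  have hgL : MemLp g 2 volume := by
    rw [hg, memLp_indicator_iff_restrict hDm]
    exact Lp.memLp f
  have hgiL : ∀ p : Bool × Bool, MemLp (fun y => g (B.img w₁ w₂ p.1 p.2 y)) 2 volume := fun p =>
    hgL.comp_measurePreserving (B.img_inv w₁ w₂ p.1 p.2).1
  set fh : P → ℂ := fun y => ∑ p : Bool × Bool,
    (B.cf e₁ e₂ w₁ w₂ p.1 p.2 : ℂ) * g (B.img w₁ w₂ p.1 p.2 y) with hfh
  have hfhL : MemLp fh 2 volume :=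
    memLp_finsetSum _ fun p _ => (hgiL p).const_mul _
  -- the inner product
  have hinner : ∀ ξ, (inner ℂ (cls D (W.fam e₁ e₂ E h x ξ)) f : ℂ) =
      ∫ y, conj (F ξ y) * fh y := by
    intro ξ
    have h1 : MemLp (W.fam e₁ e₂ E h x ξ) 2 (volume.restrict D) :=
      memLp_fold W e₁ e₂ x (hFL ξ)
    rw [B.inner_cls h1, ← integral_indicator hDm]
    have h2 : (D.indicator fun q => conj (W.fam e₁ e₂ E h x ξ q) * (f : P → ℂ) q) = fun q =>
        ∑ p : Bool × Bool, (B.cf e₁ e₂ w₁ w₂ p.1 p.2 : ℂ) *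
          (conj (F ξ (B.img w₁ w₂ p.1 p.2 q)) * g q) := by
      funext q
      by_cases hq : q ∈ D
      · rw [indicator_of_mem hq]
        have h3 : W.fam e₁ e₂ E h x ξ q = foldF e₁ e₂ w₁ w₂ (F ξ) q := by
          show (D.indicator (foldF e₁ e₂ w₁ w₂ (F ξ))) q = _
          rw [indicator_of_mem hq]
        rw [h3, B.foldF_sum, map_sum, Fintype.sum_prod_type, Finset.sum_mul]
        refine Finset.sum_congr rfl fun i _ => ?_
        rw [map_sum, Finset.sum_mul]
        refine Finset.sum_congr rfl fun j _ => ?_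
        rw [map_mul, Complex.conj_ofReal, hg, indicator_of_mem hq]
        ring
      · rw [indicator_of_notMem hq, hg]
        simp [indicator_of_notMem hq]
    rw [h2, integral_finsetSum]
    · have h4 : ∀ p : Bool × Bool, ∫ q, (B.cf e₁ e₂ w₁ w₂ p.1 p.2 : ℂ) *
          (conj (F ξ (B.img w₁ w₂ p.1 p.2 q)) * g q) =
          ∫ y, (B.cf e₁ e₂ w₁ w₂ p.1 p.2 : ℂ) *
          (conj (F ξ y) * g (B.img w₁ w₂ p.1 p.2 y)) := by
        intro p
        rw [← b9_cv w₁ w₂ p (fun q => (B.cf e₁ e₂ w₁ w₂ p.1 p.2 : ℂ) *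
          (conj (F ξ (B.img w₁ w₂ p.1 p.2 q)) * g q))]
        simp only [(B.img_inv w₁ w₂ p.1 p.2).2]
      rw [Finset.sum_congr rfl fun p _ => h4 p, ← integral_finsetSum]
      · refine integral_congr_ae (Eventually.of_forall fun y => ?_)
        simp only [hfh]
        rw [Finset.mul_sum]
        refine Finset.sum_congr rfl fun p _ => ?_
        ring
      · intro p _
        refine Integrable.const_mul ?_ _
        exact (hFL ξ).star.integrable_mul (hgiL p)
    · intro p _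
      refine Integrable.const_mul ?_ _
      exact ((hFL ξ).comp_measurePreserving (B.img_inv w₁ w₂ p.1 p.2).1).star.integrable_mul hgL
  -- the function of Plancherel's theorem
  set u : P → ℂ := fun y => conj (E' y) * fh y with hu
  have hum : AEStronglyMeasurable u volume :=
    (Complex.continuous_conj.comp_aestronglyMeasurable hE'm.aestronglyMeasurable).mul hfhL.1
  have huL : MemLp u 2 volume := by
    refine hfhL.of_le_mul (c := C) hum (Eventually.of_forall fun y => ?_)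
    simp only [hu]
    rw [norm_mul, RCLike.norm_conj]
    exact mul_le_mul_of_nonneg_right (hE'b y) (norm_nonneg _)
  have huI : Integrable u :=
    (b9_memLp hE'm hE'b hK hE'0).star.integrable_mul hfhL
  have hmod : ∀ ξ, ‖inner ℂ (cls D (W.fam e₁ e₂ E h x ξ)) f‖ =
      ‖∫ y, u y * Complex.exp (-(dot ξ y / h : ℝ) * Complex.I)‖ := by
    intro ξ
    rw [hinner ξ]
    have h1 : ∀ y, conj (F ξ y) * fh y =
        Complex.exp ((dot ξ x / h : ℝ) * Complex.I) *
          (u y * Complex.exp (-(dot ξ y / h : ℝ) * Complex.I)) := by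
      intro y
      simp only [hF, hu]
      rw [map_mul, ← Complex.exp_conj, map_mul, Complex.conj_ofReal, Complex.conj_I]
      have h2 : Complex.exp (((dot ξ (y - x) / h : ℝ) : ℂ) * -Complex.I) =
          Complex.exp ((dot ξ x / h : ℝ) * Complex.I) *
            Complex.exp (-(dot ξ y / h : ℝ) * Complex.I) := by
        rw [← Complex.exp_add]
        congr 1
        have h3 : dot ξ (y - x) / h = dot ξ y / h - dot ξ x / h := by
          unfold dot
          simp only [Prod.fst_sub, Prod.snd_sub]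
          ring
        rw [h3]
        push_cast
        ring
      rw [h2]
      ring
    simp_rw [h1]
    rw [integral_const_mul, norm_mul, Complex.norm_exp_ofReal_mul_I, one_mul]
  obtain ⟨hp1, hp2⟩ := plancherel hh0 huL huI
  simp_rw [hmod]
  refine ⟨hp1, ?_⟩
  rw [hp2]
  congr 1
  -- the norm of `u`
  have hnorm : ∀ y, ‖u y‖ ^ 2 = ∑ p : Bool × Bool, B.cf 1 1 w₁ w₂ p.1 p.2 *
      (‖E' y‖ ^ 2 * ‖g (B.img w₁ w₂ p.1 p.2 y)‖ ^ 2) := by
    intro y
    simp only [hu]
    rw [norm_mul, RCLike.norm_conj, mul_pow]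
    by_cases hy : y ∈ K
    · have h1 : ‖fh y‖ ^ 2 = ∑ p : Bool × Bool,
          ‖(B.cf e₁ e₂ w₁ w₂ p.1 p.2 : ℂ) * g (B.img w₁ w₂ p.1 p.2 y)‖ ^ 2 := by
        refine b9_sum fun p p' hp hp' => ?_
        have c1 : B.cf e₁ e₂ w₁ w₂ p.1 p.2 ≠ 0 := fun e => hp (by rw [e]; simp)
        have c2 : B.cf e₁ e₂ w₁ w₂ p'.1 p'.2 ≠ 0 := fun e => hp' (by rw [e]; simp)
        have d1 : B.img w₁ w₂ p.1 p.2 y ∈ D := by
          by_contra hn
          apply hp
          rw [hg, indicator_of_notMem hn, mul_zero]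
        have d2 : B.img w₁ w₂ p'.1 p'.2 y ∈ D := by
          by_contra hn
          apply hp'
          rw [hg, indicator_of_notMem hn, mul_zero]
        obtain ⟨f1, f2⟩ := b9_cf_ne c1
        obtain ⟨f3, f4⟩ := b9_cf_ne c2
        have h2 := B.img_unique hρ hρ' hR hR' W hx hfar (y := y) hy
          (i := p.1) (j := p.2) (i' := p'.1) (j' := p'.2)
          (fun e => e.elim f1 f3) (fun e => e.elim f2 f4) d1 d2
        exact Prod.ext h2.1 h2.2
      rw [h1, Finset.mul_sum]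
      refine Finset.sum_congr rfl fun p _ => ?_
      rw [norm_mul, mul_pow, Complex.norm_real, Real.norm_eq_abs, sq_abs,
        b9_cf_sq he₁ he₂ (W.sgn1 x) (W.sgn2 x)]
      ring
    · rw [hE'0 y hy]
      simp
  simp_rw [hnorm]
  have hint : ∀ p : Bool × Bool,
      Integrable fun q => ‖E' (B.img w₁ w₂ p.1 p.2 q)‖ ^ 2 * ‖g q‖ ^ 2 := by
    intro p
    have h1 : Integrable fun q => ‖g q‖ ^ 2 := by
      have := hgL.integrable_norm_pow (by norm_num)
      simpa using this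
    refine Integrable.bdd_mul (c := C ^ 2) h1 ?_ (Eventually.of_forall fun q => ?_)
    · exact ((hE'm.comp
        (B.img_inv w₁ w₂ p.1 p.2).1.measurable).norm.pow_const 2).aestronglyMeasurable
    · rw [Real.norm_eq_abs, abs_of_nonneg (by positivity)]
      exact pow_le_pow_left₀ (norm_nonneg _) (hE'b _) 2
  have hcv : ∀ p : Bool × Bool, ∫ y, B.cf 1 1 w₁ w₂ p.1 p.2 *
      (‖E' y‖ ^ 2 * ‖g (B.img w₁ w₂ p.1 p.2 y)‖ ^ 2) =
      ∫ q, B.cf 1 1 w₁ w₂ p.1 p.2 * (‖E' (B.img w₁ w₂ p.1 p.2 q)‖ ^ 2 * ‖g q‖ ^ 2) := by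
    intro p
    rw [← b9_cv w₁ w₂ p (fun y => B.cf 1 1 w₁ w₂ p.1 p.2 *
      (‖E' y‖ ^ 2 * ‖g (B.img w₁ w₂ p.1 p.2 y)‖ ^ 2))]
    simp only [(B.img_inv w₁ w₂ p.1 p.2).2]
  have hint' : ∀ p : Bool × Bool, Integrable fun y => B.cf 1 1 w₁ w₂ p.1 p.2 *
      (‖E' y‖ ^ 2 * ‖g (B.img w₁ w₂ p.1 p.2 y)‖ ^ 2) := by
    intro p
    have h1 := ((B.img_inv w₁ w₂ p.1 p.2).1.integrable_comp_emb (b9_emb w₁ w₂ p)
      (g := fun q => B.cf 1 1 w₁ w₂ p.1 p.2 *
        (‖E' (B.img w₁ w₂ p.1 p.2 q)‖ ^ 2 * ‖g q‖ ^ 2))).2 ((hint p).const_mul _)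
    refine h1.congr (Eventually.of_forall fun y => ?_)
    simp only [Function.comp, (B.img_inv w₁ w₂ p.1 p.2).2]
  rw [integral_finsetSum _ fun p _ => hint' p, Finset.sum_congr rfl fun p _ => hcv p,
    ← integral_finsetSum _ fun p _ => (hint p).const_mul _, ← integral_indicator hDm]
  refine integral_congr_ae (Eventually.of_forall fun q => ?_)
  simp only
  by_cases hq : q ∈ D
  · rw [indicator_of_mem hq, B.foldN_sum, Fintype.sum_prod_type, Finset.sum_mul]
    refine Finset.sum_congr rfl fun i _ => ?_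
    rw [Finset.sum_mul]
    refine Finset.sum_congr rfl fun j _ => ?_
    rw [hg, indicator_of_mem hq]
    ring
  · rw [indicator_of_notMem hq, hg]
    simp [indicator_of_notMem hq]

end

end Pool.Agent.MP4eed4eR
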