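import Pool.Agent.Lib.MP_4eed4e_an_R.B09

/-!
MP_4eed4e_an, project R, block B, module B10: the multiplier: upper bound.
-/

namespace Pool.Agent.MP4eed4eR

open MeasureTheory Set Filter Topology Metric
open scoped ComplexConjugate ContDiff ENNReal

noncomputable section

variable {D : Set P}

/-- `∫ x, ‖E (c - x)‖ ^ 2 = ∫ y, ‖E y‖ ^ 2`, and integrability (bounded with bounded support). -/
theorem B.env_int {E : P → ℂ} {R : ℝ} (hE : Env E R) (c : P) :
    Integrable (fun x => ‖E (c - x)‖ ^ 2) ∧ ∫ x, ‖E (c - x)‖ ^ 2 = ∫ y, ‖E y‖ ^ 2 ∧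
      Integrable (fun y => ‖E y‖ ^ 2) := by
  have h1 : Integrable (fun y => ‖E y‖ ^ 2) := by
    obtain ⟨C, hC⟩ := hE.bdd
    have hm : AEStronglyMeasurable (fun y => ‖E y‖ ^ 2)
        (volume.restrict (closedBall (0 : P) R)) :=
      (hE.meas.norm.pow_const 2).aestronglyMeasurable
    have hon : IntegrableOn (fun y => ‖E y‖ ^ 2) (closedBall (0 : P) R) := by
      refine Measure.integrableOn_of_bounded (M := C ^ 2) measure_closedBall_lt_top.ne
        (hE.meas.norm.pow_const 2).aestronglyMeasurable ?_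
      refine Eventually.of_forall fun y => ?_
      rw [Real.norm_eq_abs, abs_of_nonneg (sq_nonneg _)]
      exact pow_le_pow_left₀ (norm_nonneg _) (hC y) 2
    refine (integrableOn_iff_integrable_of_support_subset ?_).1 hon
    intro y hy
    rw [mem_closedBall, dist_zero_right]
    by_contra hcon
    rw [not_le] at hcon
    refine hy ?_
    simp only []
    rw [hE.supp y hcon, norm_zero, zero_pow two_ne_zero]
  exact ⟨h1.comp_sub_left c, integral_sub_left_eq_self (fun y => ‖E y‖ ^ 2) volume c, h1⟩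

private theorem b10_abs {p q : P} {r : ℝ} (h : dist q p ≤ r) :
    |q.1 - p.1| ≤ r ∧ |q.2 - p.2| ≤ r := by
  rw [Prod.dist_eq, max_le_iff, Real.dist_eq, Real.dist_eq] at h
  exact h

private theorem b10_eq {A : Finset ℝ} {r R : ℝ} (hr : 0 < r) (hR' : 2 * R ≤ 4 * r)
    (gap : ∀ a ∈ A, ∀ a' ∈ A, a ≠ a' → 16 * r ≤ |a - a'|) {a a' q x x' : ℝ} (ha : a ∈ A)
    (ha' : a' ∈ A) (h1 : |q - x| ≤ R) (h2 : |2 * a - q - x| ≤ R) (h3 : |q - x'| ≤ R)
    (h4 : |2 * a' - q - x'| ≤ R) : a = a' := by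
  by_contra hne
  have h := gap a ha a' ha' hne
  have h5 : |a - a'| ≤ 2 * R := by
    rw [abs_le] at *
    constructor <;> linarith [h1.1, h1.2, h2.1, h2.2, h3.1, h3.2, h4.1, h4.2]
  linarith

/-- The walls that matter for `q` do not depend on the centre: if `x` and `x'` are admissible
centres, the image `(i, j)` of `q ∈ D` with respect to the walls of `x` (which exist) is within `R`
of `x`, and similarly for `x'` and the same `(i, j)`, then the images are equal. Proof: let `i =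
true`; by `B.img_near` `|q.1 - x.1| ≤ R` and `|2 a - q.1 - x.1| ≤ R`, so `|a - q.1| ≤ R`, and
`|a' - q.1| ≤ R` for the wall of `x'`; so `|a - a'| ≤ 2 R < 16 ρ₀` and `a = a'` (`G.gapA`). -/
theorem B.img_same {G : Geo D} {ρ R : ℝ} (hρ : 0 < ρ) (hρ' : ρ ≤ 4 * G.rho0) (hR : 0 < R)
    (hR' : 2 * R ≤ ρ) (W : Walls G ρ) {x x' : P} (hx : x ∈ closure D) (hfar : G.Far ρ x)
    (hx' : x' ∈ closure D) (hfar' : G.Far ρ x') {q : P} (hq : q ∈ D) (i j : Bool)
    (hi : i = true → (W.w1 x).2 ≠ 0 ∧ (W.w1 x').2 ≠ 0)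
    (hj : j = true → (W.w2 x).2 ≠ 0 ∧ (W.w2 x').2 ≠ 0)
    (h : dist (B.img (W.w1 x) (W.w2 x) i j q) x ≤ R)
    (h' : dist (B.img (W.w1 x') (W.w2 x') i j q) x' ≤ R) :
    B.img (W.w1 x) (W.w2 x) i j q = B.img (W.w1 x') (W.w2 x') i j q := by
  have n1 := b10_abs (B.img_near hρ hρ' hR hR' W hx hfar hq i j (fun g => (hi g).1)
    (fun g => (hj g).1) h)
  have n2 := b10_abs (B.img_near hρ hρ' hR hR' W hx' hfar' hq i j (fun g => (hi g).2)
    (fun g => (hj g).2) h')
  have k1 := b10_abs h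
  have k2 := b10_abs h'
  have hRr : 2 * R ≤ 4 * G.rho0 := hR'.trans hρ'
  refine Prod.ext ?_ ?_
  · cases i with
    | false => rfl
    | true =>
      have e := b10_eq G.pos hRr G.gapA (W.near1 x (hi rfl).1).1 (W.near1 x' (hi rfl).2).1
        n1.1 k1.1 n2.1 k2.1
      change 2 * (W.w1 x).1 - q.1 = 2 * (W.w1 x').1 - q.1
      rw [e]
  · cases j with
    | false => rfl
    | true =>
      have e := b10_eq G.pos hRr G.gapB (W.near2 x (hj rfl).1).1 (W.near2 x' (hj rfl).2).1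
        n1.2 k1.2 n2.2 k2.2
      change 2 * (W.w2 x).1 - q.2 = 2 * (W.w2 x').1 - q.2
      rw [e]

/-- The integrand of the multiplier is jointly measurable in `(x, q)`. Proof: `W.meas1`, `W.meas2`,
`hE.meas`. -/
theorem B.mult_meas {G : Geo D} {ρ R : ℝ} (W : Walls G ρ) {E : P → ℂ} (hE : Env E R) :
    Measurable (fun p : P × P =>
      foldN (W.w1 p.1) (W.w2 p.1) (fun y => ‖E (y - p.1)‖ ^ 2) p.2) := by
  have m1 : Measurable (fun p : P × P => W.w1 p.1) := W.meas1.comp measurable_fst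
  have m2 : Measurable (fun p : P × P => W.w2 p.1) := W.meas2.comp measurable_fst
  have a1 : Measurable (fun p : P × P => (W.w1 p.1).1) := measurable_fst.comp m1
  have s1 : Measurable (fun p : P × P => (W.w1 p.1).2) := measurable_snd.comp m1
  have a2 : Measurable (fun p : P × P => (W.w2 p.1).1) := measurable_fst.comp m2
  have s2 : Measurable (fun p : P × P => (W.w2 p.1).2) := measurable_snd.comp m2
  have q1 : Measurable (fun p : P × P => p.2.1) := measurable_fst.comp measurable_snd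
  have q2 : Measurable (fun p : P × P => p.2.2) := measurable_snd.comp measurable_snd
  have hE' : ∀ f : P × P → P, Measurable f →
      Measurable (fun p : P × P => ‖E (f p - p.1)‖ ^ 2) := fun f hf =>
    ((hE.meas.comp (hf.sub measurable_fst)).norm).pow_const 2
  unfold foldN
  refine (((hE' _ measurable_snd).add ((s1.pow_const 2).mul (hE' _ ?_))).add
    ((s2.pow_const 2).mul (hE' _ ?_))).add (((s1.pow_const 2).mul (s2.pow_const 2)).mul
      (hE' _ ?_))
  · exact ((a1.const_mul 2).sub q1).prodMk q2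
  · exact q1.prodMk ((a2.const_mul 2).sub q2)
  · exact ((a1.const_mul 2).sub q1).prodMk ((a2.const_mul 2).sub q2)

private theorem b10_sgn {s : ℝ} (h : IsSgn s) : s ^ 2 = 0 ∨ s ^ 2 = 1 := by
  rcases h with h | h | h <;> rw [h] <;> norm_num

private theorem b10_cf {w₁ w₂ : ℝ × ℝ} (h1 : IsSgn w₁.2) (h2 : IsSgn w₂.2) (i j : Bool) :
    0 ≤ B.cf 1 1 w₁ w₂ i j ∧ B.cf 1 1 w₁ w₂ i j ≤ 1 ∧
      (B.cf 1 1 w₁ w₂ i j ≠ 0 → (i = true → w₁.2 ≠ 0) ∧ (j = true → w₂.2 ≠ 0)) := by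
  have k1 : ∀ (s : ℝ) (i : Bool), IsSgn s → 0 ≤ (if i then 1 * s ^ 2 else (1 : ℝ)) ∧
      (if i then 1 * s ^ 2 else (1 : ℝ)) ≤ 1 := by
    intro s i hs
    cases i with
    | false => simp
    | true =>
      rcases b10_sgn hs with h | h <;> simp [h]
  obtain ⟨a1, a2⟩ := k1 _ i h1
  obtain ⟨b1, b2⟩ := k1 _ j h2
  refine ⟨mul_nonneg a1 b1, mul_le_one₀ a2 b1 b2, fun h => ⟨fun hi h0 => h ?_, fun hj h0 => h ?_⟩⟩
  · unfold B.cf
    rw [hi, h0]; simp
  · unfold B.cf
    rw [hj, h0]; simp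

private theorem b10_meas {G : Geo D} {ρ R : ℝ} (W : Walls G ρ) {E : P → ℂ} (hE : Env E R)
    (q : P) (i j : Bool) : Measurable (fun x : P => B.cf 1 1 (W.w1 x) (W.w2 x) i j *
      ‖E (B.img (W.w1 x) (W.w2 x) i j q - x)‖ ^ 2) := by
  have a1 : Measurable (fun x : P => (W.w1 x).1) := measurable_fst.comp W.meas1
  have s1 : Measurable (fun x : P => (W.w1 x).2) := measurable_snd.comp W.meas1
  have a2 : Measurable (fun x : P => (W.w2 x).1) := measurable_fst.comp W.meas2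
  have s2 : Measurable (fun x : P => (W.w2 x).2) := measurable_snd.comp W.meas2
  have hE' : ∀ f : P → P, Measurable f →
      Measurable (fun x : P => ‖E (f x - x)‖ ^ 2) := fun f hf =>
    ((hE.meas.comp (hf.sub measurable_id)).norm).pow_const 2
  have c1 : ∀ (s : P → ℝ) (i : Bool), Measurable s →
      Measurable (fun x => if i then 1 * s x ^ 2 else (1 : ℝ)) := by
    intro s i hs
    cases i with
    | false => exact measurable_const
    | true => exact (hs.pow_const 2).const_mul 1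
  have c2 : ∀ (a : P → ℝ) (i : Bool) (y : ℝ), Measurable a →
      Measurable (fun x => if i then 2 * a x - y else y) := by
    intro s i y hs
    cases i with
    | false => exact measurable_const
    | true => exact (hs.const_mul 2).sub measurable_const
  exact ((c1 _ i s1).mul (c1 _ j s2)).mul (hE' _ ((c2 _ i q.1 a1).prodMk (c2 _ j q.2 a2)))

private theorem b10_term {G : Geo D} {ρ R : ℝ} (hρ : 0 < ρ) (hρ' : ρ ≤ 4 * G.rho0) (hR : 0 < R)
    (hR' : 2 * R ≤ ρ) (W : Walls G ρ) {E : P → ℂ} (hE : Env E R) {X : Set P}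
    (hX : MeasurableSet X) (hX' : ∀ x ∈ X, x ∈ closure D ∧ G.Far ρ x) {q : P} (hq : q ∈ D)
    (i j : Bool) :
    IntegrableOn (fun x : P => B.cf 1 1 (W.w1 x) (W.w2 x) i j *
      ‖E (B.img (W.w1 x) (W.w2 x) i j q - x)‖ ^ 2) X ∧
    0 ≤ (∫ x in X, B.cf 1 1 (W.w1 x) (W.w2 x) i j *
      ‖E (B.img (W.w1 x) (W.w2 x) i j q - x)‖ ^ 2) ∧
    (∫ x in X, B.cf 1 1 (W.w1 x) (W.w2 x) i j *
      ‖E (B.img (W.w1 x) (W.w2 x) i j q - x)‖ ^ 2) ≤ ∫ y, ‖E y‖ ^ 2 := by
  have hm := b10_meas W hE q i j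
  have hcf := fun x => b10_cf (W.sgn1 x) (W.sgn2 x) i j
  set g : P → ℝ := fun x => B.cf 1 1 (W.w1 x) (W.w2 x) i j *
      ‖E (B.img (W.w1 x) (W.w2 x) i j q - x)‖ ^ 2 with hg
  have g0 : ∀ x, 0 ≤ g x := fun x => mul_nonneg (hcf x).1 (sq_nonneg _)
  -- nonzero values
  have hnz : ∀ x, g x ≠ 0 → ((i = true → (W.w1 x).2 ≠ 0) ∧ (j = true → (W.w2 x).2 ≠ 0)) ∧
      dist (B.img (W.w1 x) (W.w2 x) i j q) x ≤ R := by
    intro x hx
    have h1 : B.cf 1 1 (W.w1 x) (W.w2 x) i j ≠ 0 := fun h0 => hx (by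
      simp only [hg]; rw [h0, zero_mul])
    have h2 : E (B.img (W.w1 x) (W.w2 x) i j q - x) ≠ 0 := fun h0 => hx (by
      simp only [hg]; rw [h0, norm_zero, zero_pow two_ne_zero, mul_zero])
    refine ⟨(hcf x).2.2 h1, ?_⟩
    rw [dist_eq_norm]
    by_contra hcon
    exact h2 (hE.supp _ (not_le.1 hcon))
  have hc : ∃ c : P, ∀ x ∈ X, g x ≤ ‖E (c - x)‖ ^ 2 := by
    by_cases hex : ∃ x0 ∈ X, g x0 ≠ 0
    · obtain ⟨x0, hx0, h0⟩ := hex
      refine ⟨B.img (W.w1 x0) (W.w2 x0) i j q, fun x hx => ?_⟩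
      by_cases hgx : g x = 0
      · rw [hgx]; exact sq_nonneg _
      · obtain ⟨w0, d0⟩ := hnz x0 h0
        obtain ⟨w, d⟩ := hnz x hgx
        have e := B.img_same hρ hρ' hR hR' W (hX' x hx).1 (hX' x hx).2 (hX' x0 hx0).1
          (hX' x0 hx0).2 hq i j (fun h => ⟨w.1 h, w0.1 h⟩) (fun h => ⟨w.2 h, w0.2 h⟩) d d0
        rw [← e]
        exact mul_le_of_le_one_left (sq_nonneg _) (hcf x).2.1
    · push Not at hex
      exact ⟨0, fun x hx => by rw [hex x hx]; exact sq_nonneg _⟩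
  obtain ⟨c, hc⟩ := hc
  obtain ⟨e1, e2, e3⟩ := B.env_int hE c
  have hint : IntegrableOn g X := by
    refine Integrable.mono' e1.integrableOn hm.aestronglyMeasurable ?_
    refine (ae_restrict_iff' hX).2 (Eventually.of_forall fun x hx => ?_)
    rw [Real.norm_eq_abs, abs_of_nonneg (g0 x)]
    exact hc x hx
  refine ⟨hint, setIntegral_nonneg hX fun x _ => g0 x, ?_⟩
  calc ∫ x in X, g x ≤ ∫ x in X, ‖E (c - x)‖ ^ 2 :=
        setIntegral_mono_on hint e1.integrableOn hX hc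
    _ ≤ ∫ x, ‖E (c - x)‖ ^ 2 := setIntegral_le_integral e1
        (Eventually.of_forall fun x => sq_nonneg _)
    _ = ∫ y, ‖E y‖ ^ 2 := e2

/-- The bound of the multiplier. Proof: `mult` is the sum over `i j` of
`∫ x in X, cf 1 1 * ‖E (img i j q - x)‖ ^ 2` (`B.foldN_sum`; integrable: measurable, bounded, zero
for `dist x q > R` by `B.img_near` and `hE.supp`). For fixed `(i, j)` let `X'` be the set of the `x
∈ X` for which the integrand is not zero; on `X'` the point `c = img i j q` does not depend on `x`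
(`B.img_same`), so the integral is at most `∫ x, ‖E (c - x)‖ ^ 2 = ∫ ‖E‖ ^ 2`
(`B.env_int`; `0 ≤ cf 1 1 ≤ 1`). -/
theorem mult_le {G : Geo D} {ρ R : ℝ} (hρ : 0 < ρ) (hρ' : ρ ≤ 4 * G.rho0) (hR : 0 < R)
    (hR' : 2 * R ≤ ρ) (W : Walls G ρ) {E : P → ℂ} (hE : Env E R) {X : Set P}
    (hX : MeasurableSet X) (hX' : ∀ x ∈ X, x ∈ closure D ∧ G.Far ρ x) {q : P} (hq : q ∈ D) :
    0 ≤ W.mult E X q ∧ W.mult E X q ≤ 4 * ∫ y, ‖E y‖ ^ 2 := by
  have ht := b10_term hρ hρ' hR hR' W hE hX hX' hq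
  have e : W.mult E X q = ∑ i : Bool, ∑ j : Bool,
      ∫ x in X, B.cf 1 1 (W.w1 x) (W.w2 x) i j *
        ‖E (B.img (W.w1 x) (W.w2 x) i j q - x)‖ ^ 2 := by
    unfold Walls.mult
    simp only [B.foldN_sum]
    rw [integral_finsetSum _ (fun i _ => integrable_finsetSum _ (fun j _ => (ht i j).1))]
    refine Finset.sum_congr rfl fun i _ => ?_
    rw [integral_finsetSum _ (fun j _ => (ht i j).1)]
  rw [e]
  constructor
  · exact Finset.sum_nonneg fun i _ => Finset.sum_nonneg fun j _ => (ht i j).2.1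
  · rw [Fintype.sum_bool, Fintype.sum_bool, Fintype.sum_bool]
    linarith [(ht true true).2.2, (ht true false).2.2, (ht false true).2.2,
      (ht false false).2.2]

end

end Pool.Agent.MP4eed4eR
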