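import Pool.Agent.Lib.MP_4eed4e_an_R.B10
import Pool.Agent.Lib.MP_4eed4e_an_R.A07

/-!
MP_4eed4e_an, project R, block B, module B11: the multiplier: exact value.
-/

namespace Pool.Agent.MP4eed4eR

open MeasureTheory Set Filter Topology Metric
open scoped ComplexConjugate ContDiff ENNReal

noncomputable section

variable {D : Set P}

private theorem B11_uniq {u w : ℝ × ℝ} {ρ cx cq : ℝ} (hu : IsSgn u.2) (hw : IsSgn w.2)
    (k : ∀ y, |y - cx| < ρ → |y - cq| < ρ → (wIn u y ↔ wIn w y)) (h0 : u.2 ≠ 0)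
    (h1 : |u.1 - cx| < ρ) (h2 : |u.1 - cq| < ρ) : w = u := by
  refine BlA.wall_unique (c := u.1) (r := min (ρ - |u.1 - cx|) (ρ - |u.1 - cq|)) hu hw ?_ h0 ?_
  · intro y hy
    rw [lt_min_iff] at hy
    have e1 := abs_sub_le y u.1 cx
    have e2 := abs_sub_le y u.1 cq
    exact k y (by linarith [hy.1]) (by linarith [hy.2])
  · rw [sub_self, abs_zero]
    exact lt_min (by linarith) (by linarith)

/-- The walls of `x` and of `q` agree as far as they matter. Let `q ∈ D`, `x ∈ closure D`,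
`dist x q ≤ R`, both far from the vertices. If `(W.w1 q).2 ≠ 0` and the wall `a = (W.w1 q).1` has
`|a - x.1| < ρ`, then `W.w1 x = W.w1 q`; and if `(W.w1 x).2 ≠ 0` and `|(W.w1 x).1 - q.1| < ρ`, then
`W.w1 x = W.w1 q`.

Proof. Both models describe `D` on `ball x ρ ∩ ball q ρ`. The points `(a + ε, q.2)`, `(a - ε, q.2)`
belong to both balls for small `ε > 0` (`|q.2 - x.2| ≤ R < ρ`). The model at `q` says that exactly
one of them is in `D` (`wIn (W.w2 q) q.2` holds because `q ∈ D`). So the model at `x` has a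
vertical wall between them for every small `ε`, i.e. at `a`, with the same sign. The second claim
is symmetric (use `q ∈ D` and the model at `x` for `wIn (W.w2 x) q.2`). -/
theorem B.wall_eq {G : Geo D} {ρ R : ℝ} (hρ : 0 < ρ) (hR : 0 < R)
    (hR' : 2 * R ≤ ρ) (W : Walls G ρ) {x q : P} (hx : x ∈ closure D) (hfar : G.Far ρ x)
    (hq : q ∈ D) (hfq : G.Far ρ q) (hd : dist x q ≤ R) :
    (((W.w1 q).2 ≠ 0 ∧ |(W.w1 q).1 - x.1| < ρ) ∨ ((W.w1 x).2 ≠ 0 ∧ |(W.w1 x).1 - q.1| < ρ) →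
      W.w1 x = W.w1 q) ∧
    (((W.w2 q).2 ≠ 0 ∧ |(W.w2 q).1 - x.2| < ρ) ∨ ((W.w2 x).2 ≠ 0 ∧ |(W.w2 x).1 - q.2| < ρ) →
      W.w2 x = W.w2 q) := by
  have hmq := W.model q (subset_closure hq) hfq
  have hmx := W.model x hx hfar
  have hRρ : R < ρ := by linarith
  have hqq : q ∈ ball q ρ := mem_ball_self hρ
  have hqx : q ∈ ball x ρ := by
    rw [mem_ball, dist_comm]
    linarith
  obtain ⟨q1, q2⟩ := (hmq q hqq).1 hq
  obtain ⟨x1, x2⟩ := (hmx q hqx).1 hq
  rw [Prod.dist_eq, max_le_iff, Real.dist_eq, Real.dist_eq] at hd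
  obtain ⟨hd1, hd2⟩ := hd
  rw [abs_sub_comm] at hd1 hd2
  have k1 : ∀ y, |y - x.1| < ρ → |y - q.1| < ρ → (wIn (W.w1 q) y ↔ wIn (W.w1 x) y) := by
    intro y h1 h2
    have m1 := hmq (y, q.2) (by
      rw [mem_ball, Prod.dist_eq, Real.dist_eq, Real.dist_eq, sub_self, abs_zero]
      exact max_lt h2 hρ)
    have m2 := hmx (y, q.2) (by
      rw [mem_ball, Prod.dist_eq, Real.dist_eq, Real.dist_eq]
      exact max_lt h1 (lt_of_le_of_lt hd2 hRρ))
    exact ⟨fun h => (m2.1 (m1.2 ⟨h, q2⟩)).1, fun h => (m1.1 (m2.2 ⟨h, x2⟩)).1⟩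
  have k2 : ∀ y, |y - x.2| < ρ → |y - q.2| < ρ → (wIn (W.w2 q) y ↔ wIn (W.w2 x) y) := by
    intro y h1 h2
    have m1 := hmq (q.1, y) (by
      rw [mem_ball, Prod.dist_eq, Real.dist_eq, Real.dist_eq, sub_self, abs_zero]
      exact max_lt hρ h2)
    have m2 := hmx (q.1, y) (by
      rw [mem_ball, Prod.dist_eq, Real.dist_eq, Real.dist_eq]
      exact max_lt (lt_of_le_of_lt hd1 hRρ) h1)
    exact ⟨fun h => (m2.1 (m1.2 ⟨q1, h⟩)).2, fun h => (m1.1 (m2.2 ⟨x1, h⟩)).2⟩
  constructor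
  · rintro (⟨h0, h1⟩ | ⟨h0, h1⟩)
    · exact B11_uniq (W.sgn1 q) (W.sgn1 x) k1 h0 h1 (W.near1 q h0).2
    · exact (B11_uniq (W.sgn1 x) (W.sgn1 q) (fun y h2 h3 => (k1 y h2 h3).symm) h0
        (W.near1 x h0).2 h1).symm
  · rintro (⟨h0, h1⟩ | ⟨h0, h1⟩)
    · exact B11_uniq (W.sgn2 q) (W.sgn2 x) k2 h0 h1 (W.near2 q h0).2
    · exact (B11_uniq (W.sgn2 x) (W.sgn2 q) (fun y h2 h3 => (k2 y h2 h3).symm) h0
        (W.near2 x h0).2 h1).symm

private theorem B11_line1 (a : ℝ) : volume {x : P | x.1 = a} = 0 := by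
  have e : {x : P | x.1 = a} = {a} ×ˢ (univ : Set ℝ) := by
    ext x
    simp
  rw [e, Measure.volume_eq_prod, Measure.prod_prod, Real.volume_singleton, zero_mul]

private theorem B11_line2 (a : ℝ) : volume {x : P | x.2 = a} = 0 := by
  have e : {x : P | x.2 = a} = (univ : Set ℝ) ×ˢ {a} := by
    ext x
    simp
  rw [e, Measure.volume_eq_prod, Measure.prod_prod, Real.volume_singleton, mul_zero]

/-- The frontier of `D` is a null set (`G.front`: finitely many lines), so almost every point of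
`closure D` belongs to `D`. -/
theorem B.front_null (G : Geo D) : volume (frontier D) = 0 := by
  have h1 : frontier D ⊆ (⋃ a ∈ G.A, {x : P | x.1 = a}) ∪ ⋃ b ∈ G.B, {x : P | x.2 = b} := by
    intro q hq
    rcases G.front q hq with h | h
    · exact Or.inl (mem_biUnion (Finset.mem_coe.2 h) rfl)
    · exact Or.inr (mem_biUnion (Finset.mem_coe.2 h) rfl)
  refine measure_mono_null h1 (measure_union_null ?_ ?_)
  · exact (measure_biUnion_null_iff G.A.countable_toSet).2 fun a _ => B11_line1 a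
  · exact (measure_biUnion_null_iff G.B.countable_toSet).2 fun a _ => B11_line2 a

private def B11_f1 (u : ℝ × ℝ) (g : P → ℝ) (x : P) : ℝ :=
  g x + u.2 ^ 2 * g (2 * u.1 - x.1, x.2)

private def B11_f2 (u : ℝ × ℝ) (g : P → ℝ) (x : P) : ℝ :=
  g x + u.2 ^ 2 * g (x.1, 2 * u.1 - x.2)

private theorem B11_fold (u v : ℝ × ℝ) (g : P → ℝ) : foldN u v g = B11_f1 u (B11_f2 v g) := by
  funext x
  unfold foldN B11_f1 B11_f2
  ring

private theorem B11_mp1 (a : ℝ) :
    MeasurePreserving (fun x : P => ((2 * a - x.1, x.2) : P)) volume volume := by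
  have h := (B.img_inv (a, 0) (a, 0) true false).1
  have e : B.img (a, 0) (a, 0) true false = fun x : P => ((2 * a - x.1, x.2) : P) := by
    funext x
    simp [B.img]
  rwa [e] at h

private theorem B11_mp2 (a : ℝ) :
    MeasurePreserving (fun x : P => ((x.1, 2 * a - x.2) : P)) volume volume := by
  have h := (B.img_inv (a, 0) (a, 0) false true).1
  have e : B.img (a, 0) (a, 0) false true = fun x : P => ((x.1, 2 * a - x.2) : P) := by
    funext x
    simp [B.img]
  rwa [e] at h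

private theorem B11_sq {s : ℝ} (hs : IsSgn s) (h0 : s ≠ 0) : s ^ 2 = 1 := by
  rcases hs with h | h | h
  · exact absurd h h0
  · rw [h]; norm_num
  · rw [h]; norm_num

private theorem B11_F1 {u : ℝ × ℝ} (hu : IsSgn u.2) {V : Set P} (hV : MeasurableSet V)
    (hVr : ∀ x : P, ((2 * u.1 - x.1, x.2) : P) ∈ V ↔ x ∈ V) {g : P → ℝ} (hg : Integrable g) :
    ∫ x in {x : P | wIn u x.1} ∩ V, B11_f1 u g x = ∫ x in V, g x := by
  by_cases h0 : u.2 = 0
  · have e1 : {x : P | wIn u x.1} = univ := by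
      ext x
      simp [wIn, h0]
    rw [e1, univ_inter]
    simp [B11_f1, h0]
  have hs := B11_sq hu h0
  have hr := B11_mp1 u.1
  have hre : MeasurableEmbedding (fun x : P => ((2 * u.1 - x.1, x.2) : P)) := by
    refine hr.measurable.measurableEmbedding fun x y h => ?_
    rw [Prod.mk.injEq] at h
    exact Prod.ext (by linarith [h.1]) h.2
  have e1 : {x : P | wIn u x.1} = {x : P | 0 < u.2 * (x.1 - u.1)} := by
    ext x
    simp [wIn, h0]
  have hU : MeasurableSet {x : P | 0 < u.2 * (x.1 - u.1)} :=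
    measurableSet_lt measurable_const (by fun_prop)
  have hU' : MeasurableSet {x : P | u.2 * (x.1 - u.1) < 0} :=
    measurableSet_lt (by fun_prop) measurable_const
  have hgr : Integrable (fun x : P => g (2 * u.1 - x.1, x.2)) :=
    hr.integrable_comp_of_integrable hg
  have e2 : ∫ x in {x : P | 0 < u.2 * (x.1 - u.1)} ∩ V, g (2 * u.1 - x.1, x.2) =
      ∫ x in {x : P | u.2 * (x.1 - u.1) < 0} ∩ V, g x := by
    rw [← hr.setIntegral_preimage_emb hre g ({x : P | u.2 * (x.1 - u.1) < 0} ∩ V)]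
    congr 2
    ext x
    rw [mem_preimage, mem_inter_iff, mem_inter_iff, hVr x]
    refine and_congr_left fun _ => ?_
    rw [mem_ofPred_eq, mem_ofPred_eq]
    constructor <;> intro h <;> nlinarith
  rw [e1]
  simp only [B11_f1, hs, one_mul]
  rw [integral_add hg.integrableOn hgr.integrableOn, e2, ← setIntegral_union ?_ (hU'.inter hV)
    hg.integrableOn hg.integrableOn]
  · refine setIntegral_congr_set ?_
    have h1 : ∀ᵐ x : P, x.1 ≠ u.1 := by
      rw [ae_iff]
      simpa using B11_line1 u.1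
    filter_upwards [h1] with x hx
    refine propext ?_
    change (x ∈ {x : P | 0 < u.2 * (x.1 - u.1)} ∩ V ∪ {x : P | u.2 * (x.1 - u.1) < 0} ∩ V) ↔
      x ∈ V
    rw [mem_union, mem_inter_iff, mem_inter_iff, mem_ofPred_eq, mem_ofPred_eq, ← or_and_right]
    refine and_iff_right ?_
    have h2 : u.2 * (x.1 - u.1) ≠ 0 := mul_ne_zero h0 (sub_ne_zero.2 hx)
    rcases lt_or_gt_of_ne h2 with h | h
    · exact Or.inr h
    · exact Or.inl h
  · rw [Set.disjoint_left]
    rintro x ⟨h1, -⟩ ⟨h2, -⟩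
    rw [mem_ofPred_eq] at h1 h2
    linarith

private theorem B11_F2 {u : ℝ × ℝ} (hu : IsSgn u.2) {g : P → ℝ} (hg : Integrable g) :
    ∫ x in {x : P | wIn u x.2}, B11_f2 u g x = ∫ x, g x := by
  by_cases h0 : u.2 = 0
  · have e1 : {x : P | wIn u x.2} = univ := by
      ext x
      simp [wIn, h0]
    rw [e1]
    simp [B11_f2, h0]
  have hs := B11_sq hu h0
  have hr := B11_mp2 u.1
  have hre : MeasurableEmbedding (fun x : P => ((x.1, 2 * u.1 - x.2) : P)) := by
    refine hr.measurable.measurableEmbedding fun x y h => ?_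
    rw [Prod.mk.injEq] at h
    exact Prod.ext h.1 (by linarith [h.2])
  have e1 : {x : P | wIn u x.2} = {x : P | 0 < u.2 * (x.2 - u.1)} := by
    ext x
    simp [wIn, h0]
  have hU' : MeasurableSet {x : P | u.2 * (x.2 - u.1) < 0} :=
    measurableSet_lt (by fun_prop) measurable_const
  have hgr : Integrable (fun x : P => g (x.1, 2 * u.1 - x.2)) :=
    hr.integrable_comp_of_integrable hg
  have e2 : ∫ x in {x : P | 0 < u.2 * (x.2 - u.1)}, g (x.1, 2 * u.1 - x.2) =
      ∫ x in {x : P | u.2 * (x.2 - u.1) < 0}, g x := by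
    rw [← hr.setIntegral_preimage_emb hre g {x : P | u.2 * (x.2 - u.1) < 0}]
    congr 2
    ext x
    rw [mem_preimage, mem_ofPred_eq, mem_ofPred_eq]
    constructor <;> intro h <;> nlinarith
  rw [e1]
  simp only [B11_f2, hs, one_mul]
  rw [integral_add hg.integrableOn hgr.integrableOn, e2, ← setIntegral_union ?_ hU'
    hg.integrableOn hg.integrableOn]
  · refine (setIntegral_congr_set ?_).trans setIntegral_univ
    have h1 : ∀ᵐ x : P, x.2 ≠ u.1 := by
      rw [ae_iff]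
      simpa using B11_line2 u.1
    filter_upwards [h1] with x hx
    refine propext ?_
    change (x ∈ {x : P | 0 < u.2 * (x.2 - u.1)} ∪ {x : P | u.2 * (x.2 - u.1) < 0}) ↔
      x ∈ univ
    refine iff_of_true ?_ (mem_univ _)
    have h2 : u.2 * (x.2 - u.1) ≠ 0 := mul_ne_zero h0 (sub_ne_zero.2 hx)
    rcases lt_or_gt_of_ne h2 with h | h
    · exact Or.inr h
    · exact Or.inl h
  · rw [Set.disjoint_left]
    intro x h1 h2
    rw [mem_ofPred_eq] at h1 h2
    linarith

private theorem B11_wIn_meas (u : ℝ × ℝ) : MeasurableSet {y : ℝ | wIn u y} := by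
  by_cases h0 : u.2 = 0
  · have e : {y : ℝ | wIn u y} = univ := by
      ext y
      simp [wIn, h0]
    rw [e]
    exact MeasurableSet.univ
  · have e : {y : ℝ | wIn u y} = {y : ℝ | 0 < u.2 * (y - u.1)} := by
      ext y
      simp [wIn, h0]
    rw [e]
    exact measurableSet_lt measurable_const (by fun_prop)

private theorem B11_F {u v : ℝ × ℝ} (hu : IsSgn u.2) (hv : IsSgn v.2) {g : P → ℝ}
    (hg : Integrable g) :
    ∫ x in {x : P | wIn u x.1} ∩ {x : P | wIn v x.2}, foldN u v g x = ∫ x, g x := by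
  have hV : MeasurableSet {x : P | wIn v x.2} := measurable_snd (B11_wIn_meas v)
  have h2 : Integrable (B11_f2 v g) := by
    unfold B11_f2
    exact hg.add (((B11_mp2 v.1).integrable_comp_of_integrable hg).const_mul _)
  rw [B11_fold, B11_F1 hu hV (fun x => Iff.rfl) h2, B11_F2 hv hg]

private theorem B11_refl {u : ℝ × ℝ} (hu : IsSgn u.2) {c y : ℝ} (hc : wIn u c) (hy : wIn u y)
    (h0 : u.2 ≠ 0) : |c - y| ≤ |c - (2 * u.1 - y)| := by
  rcases hc with h | hc
  · exact absurd h h0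
  rcases hy with h | hy
  · exact absurd h h0
  rcases hu with h | h | h
  · exact absurd h h0
  · rw [h] at hc hy
    rw [abs_of_nonneg (a := c - (2 * u.1 - y)) (by linarith), abs_le]
    constructor <;> linarith
  · rw [h] at hc hy
    rw [abs_of_nonpos (a := c - (2 * u.1 - y)) (by linarith), abs_le]
    constructor <;> linarith

private theorem B11_cf {w₁ w₂ : ℝ × ℝ} {i j : Bool} (h : ¬ ((i = true → w₁.2 ≠ 0) ∧
    (j = true → w₂.2 ≠ 0))) : B.cf 1 1 w₁ w₂ i j = 0 := by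
  unfold B.cf
  by_cases hi : i = true → w₁.2 ≠ 0
  · have hj : ¬ (j = true → w₂.2 ≠ 0) := fun hj => h ⟨hi, hj⟩
    push Not at hj
    simp [hj.1, hj.2]
  · push Not at hi
    simp [hi.1, hi.2]

private theorem B11_far {E : P → ℂ} {R ρ : ℝ} (hE : Env E R) (hR : 0 < R) (hR' : 2 * R ≤ ρ)
    {a : ℝ} {q x : P} (hd : |q.1 - x.1| ≤ R) (h : ρ ≤ |a - q.1| ∨ ρ ≤ |a - x.1|) (s : ℝ) :
    ‖E ((2 * a - q.1, s) - x)‖ ^ 2 = 0 := by
  have h1 : R < |2 * a - q.1 - x.1| := by
    rcases h with h | h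
    · have e := abs_sub_abs_le_abs_sub (2 * (a - q.1)) (x.1 - q.1)
      rw [show 2 * (a - q.1) - (x.1 - q.1) = 2 * a - q.1 - x.1 by ring, abs_mul,
        abs_two, abs_sub_comm x.1 q.1] at e
      linarith
    · have e := abs_sub_abs_le_abs_sub (2 * (a - x.1)) (q.1 - x.1)
      rw [show 2 * (a - x.1) - (q.1 - x.1) = 2 * a - q.1 - x.1 by ring, abs_mul,
        abs_two] at e
      linarith
  have h2 : R < ‖(((2 * a - q.1, s) : P) - x)‖ := by
    refine lt_of_lt_of_le h1 ?_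
    exact norm_fst_le (((2 * a - q.1, s) : P) - x)
  rw [hE.supp _ h2]
  simp

private theorem B11_far2 {E : P → ℂ} {R ρ : ℝ} (hE : Env E R) (hR : 0 < R) (hR' : 2 * R ≤ ρ)
    {a : ℝ} {q x : P} (hd : |q.2 - x.2| ≤ R) (h : ρ ≤ |a - q.2| ∨ ρ ≤ |a - x.2|) (s : ℝ) :
    ‖E ((s, 2 * a - q.2) - x)‖ ^ 2 = 0 := by
  have h1 : R < |2 * a - q.2 - x.2| := by
    rcases h with h | h
    · have e := abs_sub_abs_le_abs_sub (2 * (a - q.2)) (x.2 - q.2)
      rw [show 2 * (a - q.2) - (x.2 - q.2) = 2 * a - q.2 - x.2 by ring, abs_mul,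
        abs_two, abs_sub_comm x.2 q.2] at e
      linarith
    · have e := abs_sub_abs_le_abs_sub (2 * (a - x.2)) (q.2 - x.2)
      rw [show 2 * (a - x.2) - (q.2 - x.2) = 2 * a - q.2 - x.2 by ring, abs_mul,
        abs_two] at e
      linarith
  have h2 : R < ‖(((s, 2 * a - q.2) : P) - x)‖ := by
    refine lt_of_lt_of_le h1 ?_
    exact norm_snd_le (((s, 2 * a - q.2) : P) - x)
  rw [hE.supp _ h2]
  simp

/-- The exact value of the multiplier.

Proof. `q ∈ X` by `hall`, so `G.Far ρ q`. By `B.img_near` and `hE.supp` the integrand vanishes for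
`dist x q > R`; for almost all `x` with `dist x q ≤ R`, `x ∈ X ↔ x ∈ D` (`hall`, `hX'`,
`B.front_null`). For such `x` the sum over the images of `q` with respect to the walls of `x` equals
the sum with respect to the walls of `q`: by `B.wall_eq` a wall of one that is not a wall of the
other has distance `≥ ρ` from the other point, so `|2 a - q.1 - x.1| ≥ |a - q.1| + |a - x.1| - ...
> R` (both on the same side of `a`), and the corresponding terms are zero on both sides. By evenness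
`‖E (img i j q - x)‖ = ‖E (q - img i j x)‖` (reflection of the argument in one or both coordinates).
So `mult = ∑ i j, cf 1 1 (walls of q) * ∫ x in D ∩ closedBall q R, ‖E (q - img i j x)‖ ^ 2`, and
`img i j` maps `D ∩ closedBall q R` onto sets which (for the walls that exist) are pairwise disjoint
and whose union contains almost all of `closedBall q R`: a point `y` with `dist y q ≤ R` off the
walls is on the inner side of all walls of `q` after exactly one choice of reflections, the result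
is at distance `≤ R` from `q` (reflection towards the side of `q` decreases the distance) and
belongs to `D` by `W.model`. Conversely other choices give points that are within `R` of `q` only
if they are on the wrong side, so not in `D`. Hence the sum is `∫ y in closedBall q R, ‖E (q - y)‖
^ 2 = ∫ ‖E‖ ^ 2` (change of variables `y = img i j x`, `B.img_inv`). -/
theorem mult_eq {G : Geo D} {ρ R : ℝ} (hρ : 0 < ρ) (hρ' : ρ ≤ 4 * G.rho0) (hR : 0 < R)
    (hR' : 2 * R ≤ ρ) (W : Walls G ρ) {E : P → ℂ} (hE : Env E R)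
    (hev : ∀ y : P, ‖E (-y.1, y.2)‖ = ‖E y‖ ∧ ‖E (y.1, -y.2)‖ = ‖E y‖) {X : Set P}
    (hX : MeasurableSet X) (hX' : ∀ x ∈ X, x ∈ closure D ∧ G.Far ρ x) {q : P} (hq : q ∈ D)
    (hall : ∀ x ∈ D, dist x q ≤ R → x ∈ X) : W.mult E X q = ∫ y, ‖E y‖ ^ 2 := by
  have hqX := hall q hq (by rw [dist_self]; exact hR.le)
  obtain ⟨hqc, hfq⟩ := hX' q hqX
  have hRρ : R < ρ := by linarith
  obtain ⟨hu1, hv1⟩ := (W.model q hqc hfq q (mem_ball_self hρ)).1 hq
  obtain ⟨hg, hg1, -⟩ := B.env_int hE q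
  have hE0 : ∀ y x : P, R < dist y x → ‖E (y - x)‖ ^ 2 = 0 := by
    intro y x h
    rw [dist_eq_norm] at h
    rw [hE.supp _ h]
    simp
  -- the integrand vanishes far from `q`
  have s1 : W.mult E X q = ∫ x in X ∩ closedBall q R,
      foldN (W.w1 x) (W.w2 x) (fun y => ‖E (y - x)‖ ^ 2) q := by
    unfold Walls.mult
    refine setIntegral_eq_of_subset_of_forall_sdiff_eq_zero hX inter_subset_left fun x hx => ?_
    have hxX := hx.1
    have hd : ¬ dist q x ≤ R := fun h =>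
      hx.2 ⟨hxX, by rw [mem_closedBall, dist_comm]; exact h⟩
    rw [B.foldN_sum]
    refine Finset.sum_eq_zero fun i _ => Finset.sum_eq_zero fun j _ => ?_
    by_cases hij : (i = true → (W.w1 x).2 ≠ 0) ∧ (j = true → (W.w2 x).2 ≠ 0)
    · have h3 := mt (B.img_near hρ hρ' hR hR' W (hX' x hxX).1 (hX' x hxX).2 hq i j hij.1
        hij.2) hd
      rw [hE0 _ _ (not_le.1 h3), mul_zero]
    · rw [B11_cf hij, zero_mul]
  -- replace `X` by `D`
  have s2 : (X ∩ closedBall q R : Set P) =ᵐ[volume] (D ∩ closedBall q R : Set P) := by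
    have h1 : ∀ᵐ x : P, x ∉ frontier D := by
      rw [ae_iff]
      simpa using B.front_null G
    filter_upwards [h1] with x hx
    refine propext ?_
    change x ∈ X ∩ closedBall q R ↔ x ∈ D ∩ closedBall q R
    constructor
    · rintro ⟨h2, h3⟩
      refine ⟨?_, h3⟩
      by_contra h4
      have h5 := (hX' x h2).1
      refine hx ?_
      rw [frontier, G.isOpen.interior_eq]
      exact ⟨h5, h4⟩
    · rintro ⟨h2, h3⟩
      exact ⟨hall x h2 h3, h3⟩
  have hDm : MeasurableSet (D ∩ closedBall q R) :=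
    G.isOpen.measurableSet.inter isClosed_closedBall.measurableSet
  -- the walls of `q`
  have s3 : ∀ x ∈ D ∩ closedBall q R,
      foldN (W.w1 x) (W.w2 x) (fun y => ‖E (y - x)‖ ^ 2) q =
        foldN (W.w1 q) (W.w2 q) (fun z => ‖E (q - z)‖ ^ 2) x := by
    rintro x ⟨hxD, hxq⟩
    have hxX := hall x hxD hxq
    obtain ⟨hxc, hfx⟩ := hX' x hxX
    rw [mem_closedBall] at hxq
    obtain ⟨hw1, hw2⟩ := B.wall_eq hρ hR hR' W hxc hfx hq hfq hxq
    have hd := hxq
    rw [Prod.dist_eq, max_le_iff, Real.dist_eq, Real.dist_eq, abs_sub_comm,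
      abs_sub_comm x.2] at hd
    obtain ⟨hd1, hd2⟩ := hd
    have t1 : ∀ s : ℝ, (W.w1 x).2 ^ 2 * ‖E ((2 * (W.w1 x).1 - q.1, s) - x)‖ ^ 2 =
        (W.w1 q).2 ^ 2 * ‖E ((2 * (W.w1 q).1 - q.1, s) - x)‖ ^ 2 := by
      intro s
      by_cases heq : W.w1 x = W.w1 q
      · rw [heq]
      have z1 : (W.w1 x).2 ^ 2 * ‖E ((2 * (W.w1 x).1 - q.1, s) - x)‖ ^ 2 = 0 := by
        by_cases h0 : (W.w1 x).2 = 0
        · rw [h0]; ring
        · rw [B11_far hE hR hR' hd1 (Or.inl (not_lt.1 fun h => heq (hw1 (Or.inr ⟨h0, h⟩)))),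
            mul_zero]
      have z2 : (W.w1 q).2 ^ 2 * ‖E ((2 * (W.w1 q).1 - q.1, s) - x)‖ ^ 2 = 0 := by
        by_cases h0 : (W.w1 q).2 = 0
        · rw [h0]; ring
        · rw [B11_far hE hR hR' hd1 (Or.inr (not_lt.1 fun h => heq (hw1 (Or.inl ⟨h0, h⟩)))),
            mul_zero]
      rw [z1, z2]
    have t2 : ∀ s : ℝ, (W.w2 x).2 ^ 2 * ‖E ((s, 2 * (W.w2 x).1 - q.2) - x)‖ ^ 2 =
        (W.w2 q).2 ^ 2 * ‖E ((s, 2 * (W.w2 q).1 - q.2) - x)‖ ^ 2 := by
      intro s
      by_cases heq : W.w2 x = W.w2 q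
      · rw [heq]
      have z1 : (W.w2 x).2 ^ 2 * ‖E ((s, 2 * (W.w2 x).1 - q.2) - x)‖ ^ 2 = 0 := by
        by_cases h0 : (W.w2 x).2 = 0
        · rw [h0]; ring
        · rw [B11_far2 hE hR hR' hd2 (Or.inl (not_lt.1 fun h => heq (hw2 (Or.inr ⟨h0, h⟩)))),
            mul_zero]
      have z2 : (W.w2 q).2 ^ 2 * ‖E ((s, 2 * (W.w2 q).1 - q.2) - x)‖ ^ 2 = 0 := by
        by_cases h0 : (W.w2 q).2 = 0
        · rw [h0]; ring
        · rw [B11_far2 hE hR hR' hd2 (Or.inr (not_lt.1 fun h => heq (hw2 (Or.inl ⟨h0, h⟩)))),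
            mul_zero]
      rw [z1, z2]
    have r1 : ∀ a : ℝ, ‖E ((2 * a - q.1, q.2) - x)‖ = ‖E (q - (2 * a - x.1, x.2))‖ := by
      intro a
      rw [← (hev (q - (2 * a - x.1, x.2))).1]
      congr 2
      exact Prod.ext (by simp only [Prod.fst_sub]; ring) rfl
    have r2 : ∀ b : ℝ, ‖E ((q.1, 2 * b - q.2) - x)‖ = ‖E (q - (x.1, 2 * b - x.2))‖ := by
      intro b
      rw [← (hev (q - (x.1, 2 * b - x.2))).2]
      congr 2
      exact Prod.ext rfl (by simp only [Prod.snd_sub]; ring)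
    have r3 : ∀ a b : ℝ, ‖E ((2 * a - q.1, 2 * b - q.2) - x)‖ =
        ‖E (q - (2 * a - x.1, 2 * b - x.2))‖ := by
      intro a b
      rw [← (hev (q - (2 * a - x.1, 2 * b - x.2))).1]
      rw [← (hev (-(q - (2 * a - x.1, 2 * b - x.2)).1, (q - (2 * a - x.1, 2 * b - x.2)).2)).2]
      congr 2
      exact Prod.ext (by simp only [Prod.fst_sub]; ring) (by simp only [Prod.snd_sub]; ring)
    have t3 : (W.w1 x).2 ^ 2 * (W.w2 x).2 ^ 2 *
        ‖E ((2 * (W.w1 x).1 - q.1, 2 * (W.w2 x).1 - q.2) - x)‖ ^ 2 =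
        (W.w1 q).2 ^ 2 * (W.w2 q).2 ^ 2 *
        ‖E ((2 * (W.w1 q).1 - q.1, 2 * (W.w2 q).1 - q.2) - x)‖ ^ 2 := by
      have c1 := t1 (2 * (W.w2 x).1 - q.2)
      have c2 := t2 (2 * (W.w1 q).1 - q.1)
      calc _ = (W.w2 x).2 ^ 2 * ((W.w1 x).2 ^ 2 *
            ‖E ((2 * (W.w1 x).1 - q.1, 2 * (W.w2 x).1 - q.2) - x)‖ ^ 2) := by ring
        _ = (W.w1 q).2 ^ 2 * ((W.w2 x).2 ^ 2 *
            ‖E ((2 * (W.w1 q).1 - q.1, 2 * (W.w2 x).1 - q.2) - x)‖ ^ 2) := by rw [c1]; ring
        _ = _ := by rw [c2]; ring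
    unfold foldN
    rw [t1, t2, t3, r1, r2, r3]
  have s4 : ∫ x in {x : P | wIn (W.w1 q) x.1} ∩ {x : P | wIn (W.w2 q) x.2},
      foldN (W.w1 q) (W.w2 q) (fun z => ‖E (q - z)‖ ^ 2) x =
      ∫ x in D ∩ closedBall q R, foldN (W.w1 q) (W.w2 q) (fun z => ‖E (q - z)‖ ^ 2) x := by
    refine setIntegral_eq_of_subset_of_forall_sdiff_eq_zero
      ((measurable_fst (B11_wIn_meas _)).inter (measurable_snd (B11_wIn_meas _))) ?_ ?_
    · rintro x ⟨hxD, hxq⟩
      exact (W.model q hqc hfq x (closedBall_subset_ball hRρ hxq)).1 hxD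
    · rintro x ⟨⟨hx1, hx2⟩, hx3⟩
      rw [mem_ofPred_eq] at hx1 hx2
      have hd : R < dist q x := by
        by_contra h
        rw [not_lt] at h
        have h1 : x ∈ closedBall q R := by rw [mem_closedBall, dist_comm]; exact h
        exact hx3 ⟨(W.model q hqc hfq x (closedBall_subset_ball hRρ h1)).2 ⟨hx1, hx2⟩, h1⟩
      have hd' := hd
      rw [Prod.dist_eq, Real.dist_eq, Real.dist_eq, lt_max_iff] at hd'
      unfold foldN
      beta_reduce
      have z0 : ‖E (q - x)‖ ^ 2 = 0 := hE0 _ _ hd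
      have z1 : (W.w1 q).2 ^ 2 * ‖E (q - (2 * (W.w1 q).1 - x.1, x.2))‖ ^ 2 = 0 := by
        by_cases h0 : (W.w1 q).2 = 0
        · rw [h0]; ring
        rw [hE0, mul_zero]
        rw [Prod.dist_eq, Real.dist_eq, Real.dist_eq, lt_max_iff]
        rcases hd' with h | h
        · exact Or.inl (lt_of_lt_of_le h (B11_refl (W.sgn1 q) hu1 hx1 h0))
        · exact Or.inr h
      have z2 : (W.w2 q).2 ^ 2 * ‖E (q - (x.1, 2 * (W.w2 q).1 - x.2))‖ ^ 2 = 0 := by
        by_cases h0 : (W.w2 q).2 = 0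
        · rw [h0]; ring
        rw [hE0, mul_zero]
        rw [Prod.dist_eq, Real.dist_eq, Real.dist_eq, lt_max_iff]
        rcases hd' with h | h
        · exact Or.inl h
        · exact Or.inr (lt_of_lt_of_le h (B11_refl (W.sgn2 q) hv1 hx2 h0))
      have z3 : (W.w1 q).2 ^ 2 * (W.w2 q).2 ^ 2 *
          ‖E (q - (2 * (W.w1 q).1 - x.1, 2 * (W.w2 q).1 - x.2))‖ ^ 2 = 0 := by
        by_cases h0 : (W.w1 q).2 = 0
        · rw [h0]; ring
        by_cases h0' : (W.w2 q).2 = 0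
        · rw [h0']; ring
        rw [hE0, mul_zero]
        rw [Prod.dist_eq, Real.dist_eq, Real.dist_eq, lt_max_iff]
        rcases hd' with h | h
        · exact Or.inl (lt_of_lt_of_le h (B11_refl (W.sgn1 q) hu1 hx1 h0))
        · exact Or.inr (lt_of_lt_of_le h (B11_refl (W.sgn2 q) hv1 hx2 h0'))
      rw [z0, z1, z2, z3]
      ring
  rw [s1, setIntegral_congr_set s2, setIntegral_congr_fun hDm s3, ← s4,
    B11_F (W.sgn1 q) (W.sgn2 q) hg, hg1]

end

end Pool.Agent.MP4eed4eR
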