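import Pool.Agent.Lib.MP_4eed4e_an_R.B10

/-!
MP_4eed4e_an, project R, block B, module B12: the frame identity.
-/

namespace Pool.Agent.MP4eed4eR

open MeasureTheory Set Filter Topology Metric
open scoped ComplexConjugate ContDiff ENNReal

noncomputable section

variable {D : Set P}

/-- The envelope with its phase. -/
private def phi (E : P → ℂ) (h : ℝ) (z : P × P) (y : P) : ℂ :=
  E (y - z.1) * Complex.exp ((dot z.2 (y - z.1) / h : ℝ) * Complex.I)

private theorem phi_meas {E : P → ℂ} {R : ℝ} (hE : Env E R) (h : ℝ) {Z : Type*}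
    [MeasurableSpace Z] {g : Z → P × P} (hg : Measurable g) {k : Z → P} (hk : Measurable k) :
    Measurable fun z => phi E h (g z) (k z) := by
  have h1 : Measurable fun z => k z - (g z).1 := hk.sub (measurable_fst.comp hg)
  have h2 : Measurable fun z => (dot (g z).2 (k z - (g z).1) / h : ℝ) := by
    unfold dot
    have h3 : Measurable fun z => (g z).2 := measurable_snd.comp hg
    exact (((measurable_fst.comp h3).mul (measurable_fst.comp h1)).add
      ((measurable_snd.comp h3).mul (measurable_snd.comp h1))).div_const h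
  exact (hE.meas.comp h1).mul
    ((Complex.measurable_ofReal.comp h2).mul_const Complex.I).cexp

private theorem phi_norm (E : P → ℂ) (h : ℝ) (z : P × P) (y : P) :
    ‖phi E h z y‖ = ‖E (y - z.1)‖ := by
  unfold phi
  rw [norm_mul, Complex.norm_exp_ofReal_mul_I, mul_one]

private theorem phi_memLp {E : P → ℂ} {R : ℝ} (hE : Env E R) (h : ℝ) (z : P × P) :
    MemLp (phi E h z) 2 volume := by
  obtain ⟨C, hC⟩ := hE.bdd
  have hm : Measurable (phi E h z) :=
    phi_meas hE h (Z := P) (g := fun _ => z) measurable_const (k := fun y => y) measurable_id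
  have h1 : MemLp ((closedBall z.1 R).indicator (phi E h z)) 2 volume := by
    rw [memLp_indicator_iff_restrict isClosed_closedBall.measurableSet]
    have : IsFiniteMeasure (volume.restrict (closedBall z.1 R)) :=
      ⟨by rw [Measure.restrict_apply_univ]; exact measure_closedBall_lt_top⟩
    refine MemLp.of_bound hm.aestronglyMeasurable C (Eventually.of_forall fun y => ?_)
    rw [phi_norm]
    exact hC _
  have h2 : (closedBall z.1 R).indicator (phi E h z) = phi E h z := by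
    funext y
    by_cases hy : y ∈ closedBall z.1 R
    · rw [indicator_of_mem hy]
    · rw [indicator_of_notMem hy]
      have h3 : E (y - z.1) = 0 := by
        refine hE.supp _ ?_
        rw [mem_closedBall, not_le, dist_eq_norm] at hy
        exact hy
      unfold phi
      rw [h3, zero_mul]
  rwa [h2] at h1

private theorem fam_memLp {G : Geo D} {ρ R : ℝ} (W : Walls G ρ) {E : P → ℂ} (hE : Env E R)
    (e₁ e₂ h : ℝ) (z : P × P) : MemLp (W.fam e₁ e₂ E h z.1 z.2) 2 (volume.restrict D) :=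
  memLp_fold W e₁ e₂ z.1 (phi_memLp hE h z)

/-- Joint measurability of the matrix elements. Proof: `inner = ∫ q in D, conj (fam q) * f q`
(`B.inner_cls`), the integrand is jointly strongly measurable in `(z, q)` (`W.meas1`, `W.meas2`,
`hE.meas`, a measurable representative of `f`), `StronglyMeasurable.integral_prod_right'`. -/
theorem B.meas_fam {G : Geo D} {ρ R h : ℝ} (W : Walls G ρ) {E : P → ℂ}
    (hE : Env E R) (e₁ e₂ : ℝ) (f : HD D) :
    Measurable (fun z : P × P => (inner ℂ (cls D (W.fam e₁ e₂ E h z.1 z.2)) f : ℂ)) := by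
  have hf : Measurable (f : P → ℂ) := (Lp.stronglyMeasurable f).measurable
  have h1 : ∀ z : P × P, (inner ℂ (cls D (W.fam e₁ e₂ E h z.1 z.2)) f : ℂ) =
      ∫ q in D, conj (W.fam e₁ e₂ E h z.1 z.2 q) * (f : P → ℂ) q := fun z =>
    B.inner_cls (fam_memLp W hE e₁ e₂ h z) f
  simp_rw [h1]
  have hw1 : Measurable fun p : (P × P) × P => W.w1 p.1.1 :=
    W.meas1.comp (measurable_fst.comp measurable_fst)
  have hw2 : Measurable fun p : (P × P) × P => W.w2 p.1.1 :=
    W.meas2.comp (measurable_fst.comp measurable_fst)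
  have hq1 : Measurable fun p : (P × P) × P => p.2.1 := measurable_fst.comp measurable_snd
  have hq2 : Measurable fun p : (P × P) × P => p.2.2 := measurable_snd.comp measurable_snd
  have hr1 : Measurable fun p : (P × P) × P => 2 * (W.w1 p.1.1).1 - p.2.1 :=
    ((measurable_fst.comp hw1).const_mul 2).sub hq1
  have hr2 : Measurable fun p : (P × P) × P => 2 * (W.w2 p.1.1).1 - p.2.2 :=
    ((measurable_fst.comp hw2).const_mul 2).sub hq2
  have hs1 : Measurable fun p : (P × P) × P => (W.w1 p.1.1).2 ^ 2 :=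
    (measurable_snd.comp hw1).pow_const 2
  have hs2 : Measurable fun p : (P × P) × P => (W.w2 p.1.1).2 ^ 2 :=
    (measurable_snd.comp hw2).pow_const 2
  have h2 : Measurable fun p : (P × P) × P =>
      foldF e₁ e₂ (W.w1 p.1.1) (W.w2 p.1.1) (phi E h p.1) p.2 := by
    unfold foldF
    refine ((Measurable.add ?_ ?_).add ?_).add ?_
    · exact phi_meas hE h measurable_fst measurable_snd
    · exact (Complex.measurable_ofReal.comp (hs1.const_mul e₁)).mul
        (phi_meas hE h measurable_fst (hr1.prodMk hq2))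
    · exact (Complex.measurable_ofReal.comp (hs2.const_mul e₂)).mul
        (phi_meas hE h measurable_fst (hq1.prodMk hr2))
    · exact (Complex.measurable_ofReal.comp ((hs1.mul hs2).const_mul (e₁ * e₂))).mul
        (phi_meas hE h measurable_fst (hr1.prodMk hr2))
  have h3 : Measurable fun p : (P × P) × P => W.fam e₁ e₂ E h p.1.1 p.1.2 p.2 := by
    have h4 := h2.indicator (measurableSet_preimage measurable_snd G.isOpen.measurableSet)
    have h6 : (fun p : (P × P) × P => W.fam e₁ e₂ E h p.1.1 p.1.2 p.2) =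
        (Prod.snd ⁻¹' D).indicator fun p : (P × P) × P =>
          foldF e₁ e₂ (W.w1 p.1.1) (W.w2 p.1.1) (phi E h p.1) p.2 := by
      funext p
      by_cases hp : p.2 ∈ D
      · rw [indicator_of_mem (show p ∈ Prod.snd ⁻¹' D from hp)]
        exact indicator_of_mem hp _
      · rw [indicator_of_notMem (show p ∉ Prod.snd ⁻¹' D from hp)]
        exact indicator_of_notMem hp _
    rw [h6]
    exact h4
  have h5 : StronglyMeasurable fun p : (P × P) × P =>
      conj (W.fam e₁ e₂ E h p.1.1 p.1.2 p.2) * (f : P → ℂ) p.2 :=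
    ((Complex.continuous_conj.measurable.comp h3).mul (hf.comp measurable_snd)).stronglyMeasurable
  exact (h5.integral_prod_right' (ν := volume.restrict D)).measurable

private theorem foldN_bd {G : Geo D} {ρ R : ℝ} (W : Walls G ρ) {E : P → ℂ} (hE : Env E R) :
    ∃ C : ℝ, ∀ x q, 0 ≤ foldN (W.w1 x) (W.w2 x) (fun y => ‖E (y - x)‖ ^ 2) q ∧
      foldN (W.w1 x) (W.w2 x) (fun y => ‖E (y - x)‖ ^ 2) q ≤ C := by
  obtain ⟨C, hC⟩ := hE.bdd
  refine ⟨4 * C ^ 2, fun x q => ?_⟩
  have hs : ∀ s : ℝ, IsSgn s → s ^ 2 ≤ 1 := by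
    rintro s (h | h | h) <;> rw [h] <;> norm_num
  have hN : ∀ y, 0 ≤ ‖E (y - x)‖ ^ 2 ∧ ‖E (y - x)‖ ^ 2 ≤ C ^ 2 := fun y =>
    ⟨by positivity, pow_le_pow_left₀ (norm_nonneg _) (hC _) 2⟩
  have h1 := hs _ (W.sgn1 x)
  have h2 := hs _ (W.sgn2 x)
  have h3 : 0 ≤ (W.w1 x).2 ^ 2 := sq_nonneg _
  have h4 : 0 ≤ (W.w2 x).2 ^ 2 := sq_nonneg _
  have h5 : (W.w1 x).2 ^ 2 * (W.w2 x).2 ^ 2 ≤ 1 := mul_le_one₀ h1 h4 h2
  have h6 : 0 ≤ (W.w1 x).2 ^ 2 * (W.w2 x).2 ^ 2 := mul_nonneg h3 h4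
  have hm : ∀ c : ℝ, 0 ≤ c → c ≤ 1 → ∀ y, 0 ≤ c * ‖E (y - x)‖ ^ 2 ∧
      c * ‖E (y - x)‖ ^ 2 ≤ C ^ 2 := fun c hc hc1 y =>
    ⟨mul_nonneg hc (hN y).1, (mul_le_of_le_one_left (hN y).1 hc1).trans (hN y).2⟩
  unfold foldN
  have a1 := hN q
  have a2 := hm _ h3 h1 (2 * (W.w1 x).1 - q.1, q.2)
  have a3 := hm _ h4 h2 (q.1, 2 * (W.w2 x).1 - q.2)
  have a4 := hm _ h6 h5 (2 * (W.w1 x).1 - q.1, 2 * (W.w2 x).1 - q.2)
  refine ⟨?_, ?_⟩
  · have := a1.1
    have := a2.1
    have := a3.1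
    have := a4.1
    simp only
    linarith
  · have := a1.2
    have := a2.2
    have := a3.2
    have := a4.2
    simp only
    linarith

/-- The frame identity. Proof: integrate `fam_plancherel` over `x ∈ X`. Left: Tonelli in the form
`lintegral_prod` (measurability: `B.meas_fam`), `volume.restrict (X ×ˢ univ)` is the product of
`volume.restrict X` and `volume`. Right: `∫ x in X, ∫ q in D, foldN .. * ‖f q‖ ^ 2` is
`∫ q in D, mult q * ‖f q‖ ^ 2` by Tonelli (`B.mult_meas`); everything is finite by `mult_le`. -/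
theorem frame_id {G : Geo D} {ρ R h : ℝ} (hh0 : 0 < h) (hρ : 0 < ρ)
    (hρ' : ρ ≤ 4 * G.rho0) (hR : 0 < R) (hR' : 2 * R ≤ ρ) (W : Walls G ρ)
    {X : Set P} (hX : MeasurableSet X) (hX' : ∀ x ∈ X, x ∈ closure D ∧ G.Far ρ x)
    {E : P → ℂ} (hE : Env E R) {e₁ e₂ : ℝ}
    (he₁ : e₁ = 1 ∨ e₁ = -1) (he₂ : e₂ = 1 ∨ e₂ = -1) (f : HD D) :
    IntegrableOn (fun z : P × P => ‖inner ℂ (cls D (W.fam e₁ e₂ E h z.1 z.2)) f‖ ^ 2)
      (X ×ˢ univ) ∧
    ∫ z in X ×ˢ (univ : Set P), ‖inner ℂ (cls D (W.fam e₁ e₂ E h z.1 z.2)) f‖ ^ 2 =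
      (2 * Real.pi * h) ^ 2 * ∫ q in D, W.mult E X q * ‖f q‖ ^ 2 := by
  obtain ⟨C, hC⟩ := foldN_bd W hE
  have hXf : volume X < ⊤ := by
    refine lt_of_le_of_lt (measure_mono fun x hx => (hX' x hx).1) ?_
    exact G.isBounded.closure.measure_lt_top
  have hfin : IsFiniteMeasure (volume.restrict X) :=
    ⟨by rw [Measure.restrict_apply_univ]; exact hXf⟩
  have hmeas : Measurable fun z : P × P =>
      ‖(inner ℂ (cls D (W.fam e₁ e₂ E h z.1 z.2)) f : ℂ)‖ ^ 2 :=
    (B.meas_fam W hE e₁ e₂ f).norm.pow_const 2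
  have hpl : ∀ x ∈ X, _ := fun x hx =>
    fam_plancherel (h := h) hh0 hρ hρ' hR hR' W (hX' x hx).1 (hX' x hx).2 hE he₁ he₂ f
  have hrest : (volume : Measure (P × P)).restrict (X ×ˢ (univ : Set P)) =
      (volume.restrict X).prod volume := by
    rw [Measure.volume_eq_prod P P, ← Measure.prod_restrict, Measure.restrict_univ]
  have hgi : Integrable (fun p : P × P =>
      foldN (W.w1 p.1) (W.w2 p.1) (fun y => ‖E (y - p.1)‖ ^ 2) p.2 * ‖f p.2‖ ^ 2)
      ((volume.restrict X).prod (volume.restrict D)) := by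
    have h1 : Integrable (fun p : P × P => ‖f p.2‖ ^ 2)
        ((volume.restrict X).prod (volume.restrict D)) := (B.norm_sq f).1.comp_snd _
    refine h1.bdd_mul (c := C) (B.mult_meas W hE).aestronglyMeasurable
      (Eventually.of_forall fun p => ?_)
    rw [Real.norm_eq_abs, abs_of_nonneg (hC _ _).1]
    exact (hC _ _).2
  have hin : Integrable (fun z : P × P =>
      ‖(inner ℂ (cls D (W.fam e₁ e₂ E h z.1 z.2)) f : ℂ)‖ ^ 2)
      ((volume.restrict X).prod volume) := by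
    rw [integrable_prod_iff hmeas.aestronglyMeasurable]
    refine ⟨?_, ?_⟩
    · filter_upwards [ae_restrict_mem hX] with x hx
      exact (hpl x hx).1
    · have h1 := (hgi.integral_prod_left).const_mul ((2 * Real.pi * h) ^ 2)
      refine h1.congr ?_
      filter_upwards [ae_restrict_mem hX] with x hx
      rw [← (hpl x hx).2]
      refine integral_congr_ae (Eventually.of_forall fun ξ => ?_)
      simp only
      rw [Real.norm_eq_abs, abs_of_nonneg (by positivity)]
  refine ⟨?_, ?_⟩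
  · unfold IntegrableOn
    rw [hrest]
    exact hin
  · rw [hrest, integral_prod _ hin]
    have h1 : ∫ x in X, ∫ ξ, ‖(inner ℂ (cls D (W.fam e₁ e₂ E h x ξ)) f : ℂ)‖ ^ 2 =
        ∫ x in X, (2 * Real.pi * h) ^ 2 * ∫ q in D,
          foldN (W.w1 x) (W.w2 x) (fun y => ‖E (y - x)‖ ^ 2) q * ‖f q‖ ^ 2 :=
      setIntegral_congr_fun hX fun x hx => (hpl x hx).2
    rw [h1, integral_const_mul, integral_integral_swap hgi]
    congr 1
    refine integral_congr_ae (Eventually.of_forall fun q => ?_)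
    simp only
    rw [integral_mul_const]
    rfl

/-- Bessel's inequality for the families: `frame_id` and `mult_le`. -/
theorem bessel {G : Geo D} {ρ R h : ℝ} (hh0 : 0 < h) (hρ : 0 < ρ)
    (hρ' : ρ ≤ 4 * G.rho0) (hR : 0 < R) (hR' : 2 * R ≤ ρ) (W : Walls G ρ)
    {X : Set P} (hX : MeasurableSet X) (hX' : ∀ x ∈ X, x ∈ closure D ∧ G.Far ρ x)
    {E : P → ℂ} (hE : Env E R) {e₁ e₂ : ℝ}
    (he₁ : e₁ = 1 ∨ e₁ = -1) (he₂ : e₂ = 1 ∨ e₂ = -1) (f : HD D) :
    ∫ z in X ×ˢ (univ : Set P), ‖inner ℂ (cls D (W.fam e₁ e₂ E h z.1 z.2)) f‖ ^ 2 ≤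
      4 * (2 * Real.pi * h) ^ 2 * (∫ y, ‖E y‖ ^ 2) * ‖f‖ ^ 2 := by
  rw [(frame_id hh0 hρ hρ' hR hR' W hX hX' hE he₁ he₂ f).2]
  have h1 : ∫ q in D, W.mult E X q * ‖f q‖ ^ 2 ≤ ∫ q in D, 4 * (∫ y, ‖E y‖ ^ 2) * ‖f q‖ ^ 2 := by
    refine integral_mono_of_nonneg ?_ ((B.norm_sq f).1.const_mul _) ?_
    · filter_upwards [ae_restrict_mem G.isOpen.measurableSet] with q hq
      exact mul_nonneg (mult_le hρ hρ' hR hR' W hE hX hX' hq).1 (by positivity)
    · filter_upwards [ae_restrict_mem G.isOpen.measurableSet] with q hq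
      exact mul_le_mul_of_nonneg_right (mult_le hρ hρ' hR hR' W hE hX hX' hq).2 (by positivity)
  rw [integral_const_mul, ← (B.norm_sq f).2] at h1
  calc (2 * Real.pi * h) ^ 2 * ∫ q in D, W.mult E X q * ‖f q‖ ^ 2
      ≤ (2 * Real.pi * h) ^ 2 * (4 * (∫ y, ‖E y‖ ^ 2) * ‖f‖ ^ 2) :=
        mul_le_mul_of_nonneg_left h1 (by positivity)
    _ = 4 * (2 * Real.pi * h) ^ 2 * (∫ y, ‖E y‖ ^ 2) * ‖f‖ ^ 2 := by ring

end

end Pool.Agent.MP4eed4eR
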