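import Pool.Agent.Lib.MP_4eed4e_an_R.B03
import Pool.Agent.Lib.MP_4eed4e_an_R.B08

/-!
MP_4eed4e_an, project R, block B, module B13: Berezin-Li-Yau.
-/

namespace Pool.Agent.MP4eed4eR

open MeasureTheory Set Filter Topology Metric
open scoped ComplexConjugate ContDiff ENNReal

noncomputable section

variable {D : Set P}

/-- The Fourier transform of a test function. -/
def B.ft (f : P → ℝ) (ξ : P) : ℂ :=
  ∫ y, (f y : ℂ) * Complex.exp (-(dot ξ y : ℝ) * Complex.I)

private theorem b13_plan {f : P → ℝ} (hf : MemLp f 2 volume) (hf1 : Integrable f) :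
    Integrable (fun ξ : P => ‖B.ft f ξ‖ ^ 2) ∧
      ∫ ξ : P, ‖B.ft f ξ‖ ^ 2 = (2 * Real.pi) ^ 2 * ∫ y, f y ^ 2 := by
  have h := plancherel (h := 1) one_pos (f := fun y => (f y : ℂ)) hf.ofReal hf1.ofReal
  have e : ∀ ξ : P, (∫ y, (f y : ℂ) * Complex.exp (-(dot ξ y / 1 : ℝ) * Complex.I)) = B.ft f ξ := by
    intro ξ
    simp only [B.ft, div_one]
  simp only [e, mul_one] at h
  refine ⟨h.1, ?_⟩
  rw [h.2]
  congr 1
  apply integral_congr_ae
  filter_upwards with y
  simp

/-- The linear form `y ↦ ξ·y`. -/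
private def b13_lin (ξ : P) : P →L[ℝ] ℂ :=
  Complex.ofRealCLM.comp
    (ξ.1 • ContinuousLinearMap.fst ℝ ℝ ℝ + ξ.2 • ContinuousLinearMap.snd ℝ ℝ ℝ)

private theorem b13_lin_apply (ξ y : P) : b13_lin ξ y = ((dot ξ y : ℝ) : ℂ) := by
  simp [b13_lin, dot]

private theorem b13_exp_deriv (ξ y : P) :
    HasFDerivAt (fun y : P => Complex.exp (-(dot ξ y : ℝ) * Complex.I))
      ((Complex.exp (-(dot ξ y : ℝ) * Complex.I)) • ((-Complex.I) • b13_lin ξ)) y := by
  have h0 : HasFDerivAt (fun y : P => ((dot ξ y : ℝ) : ℂ)) (b13_lin ξ) y := by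
    have h1 : (fun y : P => ((dot ξ y : ℝ) : ℂ)) = b13_lin ξ := by
      funext z
      rw [b13_lin_apply]
    rw [h1]
    exact ContinuousLinearMap.hasFDerivAt _
  have h2 := ((h0.const_mul (-Complex.I)).cexp)
  have e : ∀ z : P, -Complex.I * ((dot ξ z : ℝ) : ℂ) = -((dot ξ z : ℝ) : ℂ) * Complex.I :=
    fun z => by ring
  simp only [e] at h2
  exact h2

private theorem b13_exp_cont (ξ : P) :
    Continuous (fun y : P => Complex.exp (-(dot ξ y : ℝ) * Complex.I)) :=
  continuous_iff_continuousAt.2 fun y => (b13_exp_deriv ξ y).continuousAt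

private theorem b13_exp_norm (ξ y : P) :
    ‖Complex.exp (-(dot ξ y : ℝ) * Complex.I)‖ = 1 := by
  have : -((dot ξ y : ℝ) : ℂ) * Complex.I = ((-(dot ξ y) : ℝ) : ℂ) * Complex.I := by
    push_cast; ring
  rw [this, Complex.norm_exp_ofReal_mul_I]

private theorem b13_dir {φ : P → ℝ} (h : Test D φ) (ξ v : P) :
    B.ft (fun q => fderiv ℝ φ q v) ξ = ((dot ξ v : ℝ) : ℂ) * Complex.I * B.ft φ ξ := by
  have hd : Differentiable ℝ φ := h.smooth.differentiable (by simp)
  have hd1 : ContDiff ℝ ∞ (fun q => fderiv ℝ φ q v) :=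
    (h.smooth.fderiv_right (m := ∞) (by simp)).clm_apply contDiff_const
  have hc1 : HasCompactSupport (fun q => fderiv ℝ φ q v) := by
    have := h.compact.fderiv (𝕜 := ℝ)
    exact this.comp_left (g := fun L : P →L[ℝ] ℝ => L v) rfl
  have hF : ∀ y, HasFDerivAt (fun y : P => (φ y : ℂ)) (Complex.ofRealCLM.comp (fderiv ℝ φ y)) y :=
    fun y => (Complex.ofRealCLM.hasFDerivAt.comp y (hd y).hasFDerivAt)
  have e1 : ∀ y, fderiv ℝ (fun y : P => (φ y : ℂ)) y v = ((fderiv ℝ φ y v : ℝ) : ℂ) := by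
    intro y
    rw [(hF y).fderiv]
    simp
  have e2 : ∀ y, fderiv ℝ (fun y : P => Complex.exp (-(dot ξ y : ℝ) * Complex.I)) y v =
      -(((dot ξ v : ℝ) : ℂ) * Complex.I) * Complex.exp (-(dot ξ y : ℝ) * Complex.I) := by
    intro y
    rw [(b13_exp_deriv ξ y).fderiv]
    simp only [_root_.smul_apply, b13_lin_apply, smul_eq_mul]
    ring
  have hcE := b13_exp_cont ξ
  have hcφ : Continuous (fun y : P => (φ y : ℂ)) :=
    Complex.continuous_ofReal.comp h.smooth.continuous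
  have hsφ : HasCompactSupport (fun y : P => (φ y : ℂ)) :=
    h.compact.comp_left (g := fun t : ℝ => (t : ℂ)) (by simp)
  have hsd : HasCompactSupport (fun y : P => ((fderiv ℝ φ y v : ℝ) : ℂ)) :=
    hc1.comp_left (g := fun t : ℝ => (t : ℂ)) (by simp)
  have hcd : Continuous (fun y : P => ((fderiv ℝ φ y v : ℝ) : ℂ)) :=
    Complex.continuous_ofReal.comp hd1.continuous
  have key := integral_mul_fderiv_eq_neg_fderiv_mul_of_integrable (μ := (volume : Measure P))
    (f := fun y : P => (φ y : ℂ))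
    (g := fun y : P => Complex.exp (-(dot ξ y : ℝ) * Complex.I)) (v := v)
    (by
      simp only [e1]
      exact (hcd.mul hcE).integrable_of_hasCompactSupport hsd.mul_right)
    (by
      simp only [e2]
      exact (hcφ.mul (continuous_const.mul hcE)).integrable_of_hasCompactSupport hsφ.mul_right)
    ((hcφ.mul hcE).integrable_of_hasCompactSupport hsφ.mul_right)
    (fun y _ => (hF y).differentiableAt)
    (fun y _ => (b13_exp_deriv ξ y).differentiableAt)
  simp only [e1, e2] at key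
  have k2 : (∫ y, (φ y : ℂ) * (-(((dot ξ v : ℝ) : ℂ) * Complex.I) *
      Complex.exp (-(dot ξ y : ℝ) * Complex.I))) =
      -(((dot ξ v : ℝ) : ℂ) * Complex.I) * B.ft φ ξ := by
    rw [B.ft, ← integral_const_mul]
    apply integral_congr_ae
    filter_upwards with y
    ring
  rw [k2] at key
  have k3 : B.ft (fun q => fderiv ℝ φ q v) ξ =
      ∫ y, ((fderiv ℝ φ y v : ℝ) : ℂ) * Complex.exp (-(dot ξ y : ℝ) * Complex.I) := rfl
  rw [k3]
  linear_combination key

private theorem b13_d_mem {φ : P → ℝ} (h : Test D φ) (v : P) :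
    Continuous (fun q => fderiv ℝ φ q v) ∧ HasCompactSupport (fun q => fderiv ℝ φ q v) := by
  have hd1 : ContDiff ℝ ∞ (fun q => fderiv ℝ φ q v) :=
    (h.smooth.fderiv_right (m := ∞) (by simp)).clm_apply contDiff_const
  refine ⟨hd1.continuous, ?_⟩
  have := h.compact.fderiv (𝕜 := ℝ)
  exact this.comp_left (g := fun L : P →L[ℝ] ℝ => L v) rfl

/-- The energy of a test function. Proof: `i ξ_j B.ft φ ξ = B.ft (d_j φ) ξ` (integration by parts,
compact support), `|ξ|² |B.ft φ|² = |B.ft (d1 φ)|² + |B.ft (d2 φ)|²`, and `plancherel` with `h = 1`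
for `d1 φ`, `d2 φ`. -/
theorem B.ft_energy {φ : P → ℝ} (h : Test D φ) :
    ∫⁻ ξ : P, ENNReal.ofReal (sq ξ * ‖B.ft φ ξ‖ ^ 2) =
      ENNReal.ofReal ((2 * Real.pi) ^ 2 * ∫ q, (d1 φ q ^ 2 + d2 φ q ^ 2)) := by
  obtain ⟨c1, s1⟩ := b13_d_mem h ((1, 0) : P)
  obtain ⟨c2, s2⟩ := b13_d_mem h ((0, 1) : P)
  have p1 := b13_plan (f := d1 φ) (c1.memLp_of_hasCompactSupport s1)
    (c1.integrable_of_hasCompactSupport s1)
  have p2 := b13_plan (f := d2 φ) (c2.memLp_of_hasCompactSupport s2)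
    (c2.integrable_of_hasCompactSupport s2)
  have e : ∀ ξ : P, sq ξ * ‖B.ft φ ξ‖ ^ 2 = ‖B.ft (d1 φ) ξ‖ ^ 2 + ‖B.ft (d2 φ) ξ‖ ^ 2 := by
    intro ξ
    have h1 : B.ft (d1 φ) ξ = ((dot ξ (1, 0) : ℝ) : ℂ) * Complex.I * B.ft φ ξ := b13_dir h ξ (1, 0)
    have h2 : B.ft (d2 φ) ξ = ((dot ξ (0, 1) : ℝ) : ℂ) * Complex.I * B.ft φ ξ := b13_dir h ξ (0, 1)
    rw [h1, h2]
    simp only [norm_mul, Complex.norm_I, Complex.norm_real, mul_one, mul_pow, Real.norm_eq_abs,
      sq_abs, sq, dot, mul_zero, add_zero, zero_add]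
    ring
  simp only [e]
  have hi : Integrable (fun ξ : P => ‖B.ft (d1 φ) ξ‖ ^ 2 + ‖B.ft (d2 φ) ξ‖ ^ 2) := p1.1.add p2.1
  rw [← ofReal_integral_eq_lintegral_ofReal hi (Eventually.of_forall fun ξ => by positivity)]
  congr 1
  rw [integral_add p1.1 p2.1, p1.2, p2.2, integral_add, mul_add]
  · exact (c1.pow 2).integrable_of_hasCompactSupport (by
      simpa [pow_two] using HasCompactSupport.mul_right s1)
  · exact (c2.pow 2).integrable_of_hasCompactSupport (by
      simpa [pow_two] using HasCompactSupport.mul_right s2)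

/-! ### Convergence in mean -/

private theorem b13_norm_sub {f g : P → ℝ} (hf : MemLp f 2 volume) (hg : MemLp g 2 volume) :
    ‖hf.toLp f - hg.toLp g‖ ^ 2 = ∫ q, (f q - g q) ^ 2 := by
  rw [← MemLp.toLp_sub hf hg, ← real_inner_self_eq_norm_sq, L2.inner_def]
  apply integral_congr_ae
  filter_upwards [(hf.sub hg).coeFn_toLp] with q hq
  rw [hq]
  simp [pow_two]

private theorem b13_inner {f g : P → ℝ} (hf : MemLp f 2 volume) (hg : MemLp g 2 volume) :
    inner ℝ (hf.toLp f) (hg.toLp g) = ∫ q, f q * g q := by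
  rw [L2.inner_def]
  apply integral_congr_ae
  filter_upwards [hf.coeFn_toLp, hg.coeFn_toLp] with q h1 h2
  rw [h1, h2]
  simp [mul_comm]

private theorem b13_tend_toLp {f : ℕ → P → ℝ} {f0 : P → ℝ} (hf : ∀ n, MemLp (f n) 2 volume)
    (hf0 : MemLp f0 2 volume) (h : Tendsto (fun n => ∫ q, (f n q - f0 q) ^ 2) atTop (𝓝 0)) :
    Tendsto (fun n => (hf n).toLp (f n)) atTop (𝓝 (hf0.toLp f0)) := by
  rw [tendsto_iff_norm_sub_tendsto_zero]
  have h1 : Tendsto (fun n => Real.sqrt (∫ q, (f n q - f0 q) ^ 2)) atTop (𝓝 (Real.sqrt 0)) :=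
    (Real.continuous_sqrt.tendsto 0).comp h
  rw [Real.sqrt_zero] at h1
  refine h1.congr fun n => ?_
  rw [← b13_norm_sub (hf n) hf0, Real.sqrt_sq (norm_nonneg _)]

private theorem b13_tend_inner {f g : ℕ → P → ℝ} {f0 g0 : P → ℝ} (hf : ∀ n, MemLp (f n) 2 volume)
    (hf0 : MemLp f0 2 volume) (hg : ∀ n, MemLp (g n) 2 volume) (hg0 : MemLp g0 2 volume)
    (h1 : Tendsto (fun n => ∫ q, (f n q - f0 q) ^ 2) atTop (𝓝 0))
    (h2 : Tendsto (fun n => ∫ q, (g n q - g0 q) ^ 2) atTop (𝓝 0)) :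
    Tendsto (fun n => ∫ q, f n q * g n q) atTop (𝓝 (∫ q, f0 q * g0 q)) := by
  have := (b13_tend_toLp hf hf0 h1).inner (b13_tend_toLp hg hg0 h2) (𝕜 := ℝ)
  simpa only [b13_inner] using this

private theorem b13_const {g0 : P → ℝ} :
    Tendsto (fun _ : ℕ => ∫ q, (g0 q - g0 q) ^ 2) atTop (𝓝 0) := by
  simp

/-! ### Functions vanishing off a bounded set -/

/-- A square integrable function that vanishes almost everywhere off `D`, as a restricted one. -/
private theorem b13_restr {f : P → ℝ} (h0 : ∀ᵐ q ∂volume, q ∉ D → f q = 0) :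
    D.indicator f =ᵐ[volume] f := by
  filter_upwards [h0] with q hq
  by_cases hqD : q ∈ D
  · simp [hqD]
  · simp [hqD, hq hqD]

private theorem b13_int {f : P → ℝ} (hb : Bornology.IsBounded D) (hDm : MeasurableSet D)
    (hf : MemLp f 2 volume) (h0 : ∀ᵐ q ∂volume, q ∉ D → f q = 0) : Integrable f := by
  have hfin : volume D < ⊤ := hb.measure_lt_top
  have : IsFiniteMeasure (volume.restrict D) := ⟨by simpa using hfin⟩
  have h1 : Integrable f (volume.restrict D) :=
    (hf.restrict D).integrable (by norm_num)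
  have h2 : Integrable (D.indicator f) volume := (integrable_indicator_iff hDm).2 h1
  exact h2.congr (b13_restr h0)

/-- Cauchy-Schwarz on a set of finite volume. -/
private theorem b13_cs {f : P → ℝ} (hb : Bornology.IsBounded D) (hDm : MeasurableSet D)
    (hf : MemLp f 2 volume) (h0 : ∀ᵐ q ∂volume, q ∉ D → f q = 0) :
    (∫ q, |f q|) ^ 2 ≤ (volume D).toReal * ∫ q, f q ^ 2 := by
  have hfin : volume D < ⊤ := hb.measure_lt_top
  set V := (volume D).toReal with hV
  have hV0 : 0 ≤ V := ENNReal.toReal_nonneg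
  have hi := b13_int hb hDm hf h0
  have hq : Integrable (fun q => f q ^ 2) := hf.integrable_sq
  have hone : Integrable (D.indicator (fun _ : P => (1 : ℝ))) :=
    (integrable_indicator_iff hDm).2 (integrableOn_const (by simpa using hfin.ne))
  have hone' : ∫ q, D.indicator (fun _ : P => (1 : ℝ)) q = V := by
    rw [integral_indicator hDm]
    simp [hV, Measure.real]
  set a := ∫ q, |f q| with ha
  have key : ∀ c : ℝ, 0 ≤ (∫ q, f q ^ 2) - 2 * c * a + c ^ 2 * V := by
    intro c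
    have e : (∫ q, f q ^ 2) - 2 * c * a + c ^ 2 * V =
        ∫ q, (f q ^ 2 - 2 * c * |f q| + c ^ 2 * D.indicator (fun _ : P => (1 : ℝ)) q) := by
      have i1 : Integrable (fun q => 2 * c * |f q|) := hi.abs.const_mul _
      have i2 : Integrable (fun q => c ^ 2 * D.indicator (fun _ : P => (1 : ℝ)) q) :=
        hone.const_mul _
      have i3 : Integrable (fun q => f q ^ 2 - 2 * c * |f q|) := hq.sub i1
      rw [integral_add i3 i2, integral_sub hq i1, integral_const_mul, integral_const_mul, hone']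
    rw [e]
    apply integral_nonneg_of_ae
    filter_upwards [h0] with q hq0
    by_cases hqD : q ∈ D
    · simp only [hqD, indicator_of_mem, mul_one, Pi.zero_apply]
      nlinarith [sq_nonneg (|f q| - c), sq_abs (f q)]
    · simp [hqD, hq0 hqD]
  rcases hV0.eq_or_lt with h | h
  · have h1 := key (((∫ q, f q ^ 2) + 1) / (2 * a))
    rw [← h] at h1 ⊢
    by_contra hcon
    have ha0 : a ≠ 0 := by
      rintro h2
      rw [h2] at hcon
      simp at hcon
    have : 2 * (((∫ q, f q ^ 2) + 1) / (2 * a)) * a = (∫ q, f q ^ 2) + 1 := by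
      field_simp
    rw [this] at h1
    linarith
  · have h1 := key (a / V)
    have h2 : (∫ q, f q ^ 2) - 2 * (a / V) * a + (a / V) ^ 2 * V =
        (∫ q, f q ^ 2) - a ^ 2 / V := by
      field_simp
      ring
    rw [h2] at h1
    have h3 : a ^ 2 / V ≤ ∫ q, f q ^ 2 := by linarith
    rw [div_le_iff₀ h] at h3
    linarith

private theorem b13_ft_sub {f g : P → ℝ} (hf : Integrable f) (hg : Integrable g) (ξ : P) :
    ‖B.ft f ξ - B.ft g ξ‖ ≤ ∫ q, |f q - g q| := by
  have hE := b13_exp_cont ξ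
  have hm : ∀ {u : P → ℝ}, Integrable u →
      Integrable (fun y => (u y : ℂ) * Complex.exp (-(dot ξ y : ℝ) * Complex.I)) := by
    intro u hu
    have h1 : Integrable (fun y => (u y : ℂ)) := hu.ofReal
    refine h1.mono (h1.aestronglyMeasurable.mul hE.aestronglyMeasurable) ?_
    filter_upwards with y
    rw [norm_mul, b13_exp_norm, mul_one]
  rw [B.ft, B.ft, ← integral_sub (hm hf) (hm hg)]
  refine (norm_integral_le_integral_norm _).trans (le_of_eq ?_)
  apply integral_congr_ae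
  filter_upwards with y
  rw [← sub_mul, norm_mul, b13_exp_norm, mul_one, ← Complex.ofReal_sub, Complex.norm_real,
    Real.norm_eq_abs]

/-- The energy of an eigenfunction. Proof: let `φ n → S.u k` as in `H10`. All functions vanish off
the bounded set `D`, so the convergence holds in `L¹` and `B.ft (φ n) ξ → B.ft (S.u k) ξ` for every
`ξ`. Fatou (`lintegral_liminf_le`), `B.ft_energy`, and
`∫ (d1 φ n ² + d2 φ n ²) → ∫ (u₁² + u₂²) = lam k` (see `lam_nonneg`). -/
theorem B.ft_eigen (S : Spec D) (hb : Bornology.IsBounded D) (k : ℕ) :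
    ∫⁻ ξ : P, ENNReal.ofReal (sq ξ * ‖B.ft (S.u k) ξ‖ ^ 2) ≤
      ENNReal.ofReal ((2 * Real.pi) ^ 2 * S.lam k) ∧
    Integrable (fun ξ => ‖B.ft (S.u k) ξ‖ ^ 2) ∧
    ∫ ξ : P, ‖B.ft (S.u k) ξ‖ ^ 2 = (2 * Real.pi) ^ 2 := by
  have hDm : MeasurableSet D := S.isOpen.measurableSet
  have hk := S.h10 k
  obtain ⟨φ, ht, t0, t1, t2⟩ := hk.approx
  obtain ⟨z0, z1, z2⟩ := B.h10_zero S.isOpen hk
  have hui := b13_int hb hDm hk.mem z0
  have hpl := b13_plan hk.mem hui
  have huu : ∫ q, S.u k q ^ 2 = 1 := by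
    have := S.orth k k
    simpa [pow_two] using this
  have hφm : ∀ n, MemLp (φ n) 2 volume := fun n =>
    (ht n).smooth.continuous.memLp_of_hasCompactSupport (ht n).compact
  have hφi : ∀ n, Integrable (φ n) := fun n =>
    (ht n).smooth.continuous.integrable_of_hasCompactSupport (ht n).compact
  have hφ0 : ∀ n, ∀ᵐ q ∂volume, q ∉ D → φ n q - S.u k q = 0 := by
    intro n
    filter_upwards [z0] with q hq hqD
    rw [hq hqD, sub_zero]
    by_contra hne
    exact hqD ((ht n).supp (subset_tsupport _ hne))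
  have hd1m : ∀ n, MemLp (d1 (φ n)) 2 volume := fun n =>
    (b13_d_mem (ht n) ((1, 0) : P)).1.memLp_of_hasCompactSupport (b13_d_mem (ht n) ((1, 0) : P)).2
  have hd2m : ∀ n, MemLp (d2 (φ n)) 2 volume := fun n =>
    (b13_d_mem (ht n) ((0, 1) : P)).1.memLp_of_hasCompactSupport (b13_d_mem (ht n) ((0, 1) : P)).2
  -- pointwise convergence of the transforms
  have hpt : ∀ ξ : P, Tendsto (fun n => B.ft (φ n) ξ) atTop (𝓝 (B.ft (S.u k) ξ)) := by
    intro ξ
    rw [tendsto_iff_norm_sub_tendsto_zero]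
    have h1 : Tendsto (fun n => Real.sqrt ((volume D).toReal * ∫ q, (φ n q - S.u k q) ^ 2)) atTop
        (𝓝 (Real.sqrt ((volume D).toReal * 0))) :=
      (Real.continuous_sqrt.tendsto _).comp (t0.const_mul _)
    rw [mul_zero, Real.sqrt_zero] at h1
    refine squeeze_zero (fun n => norm_nonneg _) (fun n => ?_) h1
    refine (b13_ft_sub (hφi n) hui ξ).trans ?_
    apply Real.le_sqrt_of_sq_le
    exact b13_cs (f := fun q => φ n q - S.u k q) hb hDm ((hφm n).sub hk.mem) (hφ0 n)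
  -- the limit of the energies
  have hen : Tendsto (fun n => ∫ q, (d1 (φ n) q ^ 2 + d2 (φ n) q ^ 2)) atTop (𝓝 (S.lam k)) := by
    have a1 := b13_tend_inner hd1m hk.mem₁ hd1m hk.mem₁ t1 t1
    have a2 := b13_tend_inner hd2m hk.mem₂ hd2m hk.mem₂ t2 t2
    have b1 := b13_tend_inner (fun _ => hk.mem₁) hk.mem₁ hd1m hk.mem₁ b13_const t1
    have b2 := b13_tend_inner (fun _ => hk.mem₂) hk.mem₂ hd2m hk.mem₂ b13_const t2
    have c0 := b13_tend_inner (fun _ => hk.mem) hk.mem hφm hk.mem b13_const t0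
    have e1 : ∀ n, ∫ q, (S.u₁ k q * d1 (φ n) q + S.u₂ k q * d2 (φ n) q) =
        (∫ q, S.u₁ k q * d1 (φ n) q) + ∫ q, S.u₂ k q * d2 (φ n) q := fun n =>
      integral_add (hk.mem₁.integrable_mul (hd1m n)) (hk.mem₂.integrable_mul (hd2m n))
    have e2 : ∀ n, (∫ q, S.u₁ k q * d1 (φ n) q) + (∫ q, S.u₂ k q * d2 (φ n) q) =
        S.lam k * ∫ q, S.u k q * φ n q := fun n => by rw [← e1 n, S.weak k (φ n) (ht n)]
    have e3 : (∫ q, S.u₁ k q * S.u₁ k q) + (∫ q, S.u₂ k q * S.u₂ k q) = S.lam k := by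
      have l1 := b1.add b2
      have l2 := c0.const_mul (S.lam k)
      rw [show (∫ q, S.u k q * S.u k q) = 1 by simpa using S.orth k k, mul_one] at l2
      exact tendsto_nhds_unique l1 (l2.congr fun n => (e2 n).symm)
    have l3 := a1.add a2
    rw [e3] at l3
    refine l3.congr fun n => ?_
    have m1 : Integrable (fun q => d1 (φ n) q * d1 (φ n) q) := (hd1m n).integrable_mul (hd1m n)
    have m2 : Integrable (fun q => d2 (φ n) q * d2 (φ n) q) := (hd2m n).integrable_mul (hd2m n)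
    rw [← integral_add m1 m2]
    apply integral_congr_ae
    filter_upwards with q
    ring
  refine ⟨?_, hpl.1, ?_⟩
  · have hlim : ∀ ξ : P, ENNReal.ofReal (sq ξ * ‖B.ft (S.u k) ξ‖ ^ 2) =
        liminf (fun n => ENNReal.ofReal (sq ξ * ‖B.ft (φ n) ξ‖ ^ 2)) atTop := by
      intro ξ
      refine (Tendsto.liminf_eq ?_).symm
      exact ENNReal.tendsto_ofReal ((((hpt ξ).norm).pow 2).const_mul _)
    simp only [hlim]
    have hmeas : ∀ n, AEMeasurable (fun ξ : P => ENNReal.ofReal (sq ξ * ‖B.ft (φ n) ξ‖ ^ 2))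
        volume := by
      intro n
      have h1 := (b13_plan (hφm n) (hφi n)).1.aestronglyMeasurable.aemeasurable
      have h2 : Measurable (fun ξ : P => sq ξ) := by
        unfold sq
        fun_prop
      exact (h2.aemeasurable.mul h1).ennreal_ofReal
    refine (lintegral_liminf_le' hmeas).trans ?_
    have hE : ∀ n, ∫⁻ ξ : P, ENNReal.ofReal (sq ξ * ‖B.ft (φ n) ξ‖ ^ 2) =
        ENNReal.ofReal ((2 * Real.pi) ^ 2 * ∫ q, (d1 (φ n) q ^ 2 + d2 (φ n) q ^ 2)) :=
      fun n => B.ft_energy (ht n)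
    simp only [hE]
    refine le_of_eq (Tendsto.liminf_eq ?_)
    exact ENNReal.tendsto_ofReal (hen.const_mul _)
  · rw [hpl.2, huu, mul_one]

/-- Jensen with a tangent line: `exp (-h² |ξ|²) ≥ exp (-h² λ) (1 - h² (|ξ|² - λ))`; integrate
against `(2π)⁻² |B.ft (u k)|²` (total mass one, second moment `≤ λ` by `B.ft_eigen`). -/
theorem B.jensen (S : Spec D) (hb : Bornology.IsBounded D) (h : ℝ) (k : ℕ) :
    Real.exp (-(h ^ 2 * S.lam k)) ≤
      ((2 * Real.pi) ^ 2)⁻¹ * ∫ ξ : P, Real.exp (-(h ^ 2 * sq ξ)) * ‖B.ft (S.u k) ξ‖ ^ 2 := by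
  obtain ⟨he, hi, h1⟩ := B.ft_eigen S hb k
  have hl := lam_nonneg S k
  set g : P → ℝ := fun ξ => ‖B.ft (S.u k) ξ‖ ^ 2 with hg
  have hg0 : ∀ ξ, 0 ≤ g ξ := fun ξ => by positivity
  have hsq0 : ∀ ξ : P, 0 ≤ sq ξ := fun ξ => by unfold sq; positivity
  have hsqm : Measurable (fun ξ : P => sq ξ) := by
    unfold sq
    fun_prop
  have hpi : (0 : ℝ) < (2 * Real.pi) ^ 2 := by positivity
  have hm : AEStronglyMeasurable (fun ξ : P => sq ξ * g ξ) volume :=
    hsqm.aestronglyMeasurable.mul hi.aestronglyMeasurable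
  have hsi : Integrable (fun ξ : P => sq ξ * g ξ) := by
    refine ⟨hm, ?_⟩
    rw [hasFiniteIntegral_iff_ofReal (Eventually.of_forall fun ξ => mul_nonneg (hsq0 ξ) (hg0 ξ))]
    exact lt_of_le_of_lt he ENNReal.ofReal_lt_top
  have hs : ∫ ξ : P, sq ξ * g ξ ≤ (2 * Real.pi) ^ 2 * S.lam k := by
    rw [← ofReal_integral_eq_lintegral_ofReal hsi
      (Eventually.of_forall fun ξ => mul_nonneg (hsq0 ξ) (hg0 ξ))] at he
    exact (ENNReal.ofReal_le_ofReal_iff (by positivity)).1 he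
  have hem : Measurable (fun ξ : P => Real.exp (-(h ^ 2 * sq ξ))) :=
    Real.measurable_exp.comp ((hsqm.const_mul _).neg)
  have hei : Integrable (fun ξ : P => Real.exp (-(h ^ 2 * sq ξ)) * g ξ) := by
    refine hi.mono (hem.aestronglyMeasurable.mul hi.aestronglyMeasurable) ?_
    filter_upwards with ξ
    rw [norm_mul, Real.norm_eq_abs, abs_of_pos (Real.exp_pos _)]
    have : Real.exp (-(h ^ 2 * sq ξ)) ≤ 1 := by
      rw [Real.exp_le_one_iff]
      have := mul_nonneg (sq_nonneg h) (hsq0 ξ)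
      linarith
    exact mul_le_of_le_one_left (norm_nonneg _) this
  have hlow : Real.exp (-(h ^ 2 * S.lam k)) * ((1 + h ^ 2 * S.lam k) * (∫ ξ : P, g ξ) -
      h ^ 2 * ∫ ξ : P, sq ξ * g ξ) ≤ ∫ ξ : P, Real.exp (-(h ^ 2 * sq ξ)) * g ξ := by
    have e : Real.exp (-(h ^ 2 * S.lam k)) * ((1 + h ^ 2 * S.lam k) * (∫ ξ : P, g ξ) -
        h ^ 2 * ∫ ξ : P, sq ξ * g ξ) = ∫ ξ : P, Real.exp (-(h ^ 2 * S.lam k)) *
          ((1 + h ^ 2 * S.lam k) * g ξ - h ^ 2 * (sq ξ * g ξ)) := by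
      rw [integral_const_mul, integral_sub (hi.const_mul _) (hsi.const_mul _), integral_const_mul,
        integral_const_mul]
    rw [e]
    refine integral_mono (((hi.const_mul _).sub (hsi.const_mul _)).const_mul _) hei fun ξ => ?_
    have h2 : Real.exp (-(h ^ 2 * sq ξ)) = Real.exp (-(h ^ 2 * S.lam k)) *
        Real.exp (-(h ^ 2 * (sq ξ - S.lam k))) := by
      rw [← Real.exp_add]
      congr 1
      ring
    have h3 := Real.add_one_le_exp (-(h ^ 2 * (sq ξ - S.lam k)))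
    have h4 : (1 + h ^ 2 * S.lam k) * g ξ - h ^ 2 * (sq ξ * g ξ) =
        (-(h ^ 2 * (sq ξ - S.lam k)) + 1) * g ξ := by ring
    simp only
    rw [h2, h4, mul_assoc]
    exact mul_le_mul_of_nonneg_left (mul_le_mul_of_nonneg_right h3 (hg0 ξ)) (Real.exp_pos _).le
  have hge : Real.exp (-(h ^ 2 * S.lam k)) * (2 * Real.pi) ^ 2 ≤
      Real.exp (-(h ^ 2 * S.lam k)) * ((1 + h ^ 2 * S.lam k) * (∫ ξ : P, g ξ) -
        h ^ 2 * ∫ ξ : P, sq ξ * g ξ) := by
    refine mul_le_mul_of_nonneg_left ?_ (Real.exp_pos _).le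
    rw [h1]
    nlinarith [mul_le_mul_of_nonneg_left hs (sq_nonneg h)]
  rw [inv_mul_eq_div, le_div_iff₀ hpi]
  exact hge.trans hlow

/-- Bessel: `∑ k ‖B.ft (u k) ξ‖ ^ 2 = ‖1_D exp (i ξ·y)‖ ^ 2 = volume D`. Proof: `parseval` for the
class of `y ↦ exp (-i ξ·y)` on `D` (`B.co_eq`; `S.u k = 0` off `D`, `B.h10_zero`). -/
theorem B.bessel_ft (S : Spec D) (hb : Bornology.IsBounded D) (ξ : P) :
    HasSum (fun k => ‖B.ft (S.u k) ξ‖ ^ 2) (volume D).toReal := by
  have hDm : MeasurableSet D := S.isOpen.measurableSet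
  have hfin : volume D < ⊤ := hb.measure_lt_top
  have : IsFiniteMeasure (volume.restrict D) := ⟨by simpa using hfin⟩
  have hE := b13_exp_cont ξ
  have hmem : MemLp (fun y : P => Complex.exp (-(dot ξ y : ℝ) * Complex.I)) 2
      (volume.restrict D) :=
    MemLp.of_bound hE.aestronglyMeasurable 1
      (Eventually.of_forall fun y => (b13_exp_norm ξ y).le)
  set f : HD D := cls D (fun y : P => Complex.exp (-(dot ξ y : ℝ) * Complex.I)) with hf
  have hcoe := B.cls_coe hmem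
  have hco : ∀ k, S.co k f = B.ft (S.u k) ξ := by
    intro k
    rw [B.co_eq, B.ft]
    have z0 := (B.h10_zero S.isOpen (S.h10 k)).1
    have e1 : ∫ q in D, (S.u k q : ℂ) * (f : P → ℂ) q =
        ∫ q in D, (S.u k q : ℂ) * Complex.exp (-(dot ξ q : ℝ) * Complex.I) := by
      apply integral_congr_ae
      filter_upwards [hcoe] with q hq
      rw [hf, hq]
    rw [e1, ← integral_indicator hDm]
    apply integral_congr_ae
    filter_upwards [z0] with q hq
    by_cases hqD : q ∈ D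
    · simp [hqD]
    · simp [hqD, hq hqD]
  have hn : ‖f‖ ^ 2 = (volume D).toReal := by
    rw [(B.norm_sq f).2]
    have e1 : ∫ q in D, ‖(f : P → ℂ) q‖ ^ 2 = ∫ q in D, (1 : ℝ) := by
      apply integral_congr_ae
      filter_upwards [hcoe] with q hq
      rw [hf, hq, b13_exp_norm, one_pow]
    rw [e1]
    simp [Measure.real]
  have := parseval S f
  simp only [hco, hn] at this
  exact this

private theorem b13_gauss {h : ℝ} (hh0 : 0 < h) :
    Integrable (fun ξ : P => Real.exp (-(h ^ 2 * sq ξ))) ∧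
      ∫ ξ : P, Real.exp (-(h ^ 2 * sq ξ)) = Real.pi / h ^ 2 := by
  have hh2 : 0 < h ^ 2 := by positivity
  have e : (fun ξ : P => Real.exp (-(h ^ 2 * sq ξ))) = fun ξ : ℝ × ℝ =>
      (fun x : ℝ => Real.exp (-(h ^ 2) * x ^ 2)) ξ.1 *
        (fun x : ℝ => Real.exp (-(h ^ 2) * x ^ 2)) ξ.2 := by
    funext ξ
    simp only
    rw [← Real.exp_add]
    congr 1
    unfold sq
    ring
  have hi := integrable_exp_neg_mul_sq hh2
  constructor
  · rw [e]
    exact hi.mul_prod hi
  · rw [e]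
    have := integral_prod_mul (μ := (volume : Measure ℝ)) (ν := (volume : Measure ℝ))
      (fun x : ℝ => Real.exp (-(h ^ 2) * x ^ 2)) (fun x : ℝ => Real.exp (-(h ^ 2) * x ^ 2))
    rw [← Measure.volume_eq_prod] at this
    rw [this, integral_gaussian, Real.mul_self_sqrt (by positivity)]

/-- Berezin-Li-Yau. Proof: sum `B.jensen` over `k` (monotone convergence: `lintegral_tsum`), use
`B.bessel_ft` and `∫ exp (-h² |ξ|²) dξ = π / h²`:
`(2π)⁻² volume D π / h² = volume D / (4π h²)`. -/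
theorem bly (S : Spec D) (hb : Bornology.IsBounded D) (hm : MeasurableSet D) {h : ℝ}
    (hh0 : 0 < h) : Summable (fun k => Real.exp (-(h ^ 2 * S.lam k))) ∧
    ∑' k, Real.exp (-(h ^ 2 * S.lam k)) ≤ (volume D).toReal / (4 * Real.pi * h ^ 2) := by
  obtain ⟨gi, gv⟩ := b13_gauss hh0
  have hpi : (0 : ℝ) < (2 * Real.pi) ^ 2 := by positivity
  have hsqm : Measurable (fun ξ : P => sq ξ) := by
    unfold sq
    fun_prop
  have hem : Measurable (fun ξ : P => Real.exp (-(h ^ 2 * sq ξ))) :=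
    Real.measurable_exp.comp ((hsqm.const_mul _).neg)
  have hei : ∀ k, Integrable (fun ξ : P => Real.exp (-(h ^ 2 * sq ξ)) * ‖B.ft (S.u k) ξ‖ ^ 2) := by
    intro k
    have hi := (B.ft_eigen S hb k).2.1
    refine hi.mono (hem.aestronglyMeasurable.mul hi.aestronglyMeasurable) ?_
    filter_upwards with ξ
    rw [norm_mul, Real.norm_eq_abs, abs_of_pos (Real.exp_pos _)]
    have h0 : 0 ≤ sq ξ := by unfold sq; positivity
    have : Real.exp (-(h ^ 2 * sq ξ)) ≤ 1 := by
      rw [Real.exp_le_one_iff]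
      have := mul_nonneg (sq_nonneg h) h0
      linarith
    exact mul_le_of_le_one_left (norm_nonneg _) this
  have key : ∀ s : Finset ℕ, ∑ k ∈ s, Real.exp (-(h ^ 2 * S.lam k)) ≤
      (volume D).toReal / (4 * Real.pi * h ^ 2) := by
    intro s
    calc ∑ k ∈ s, Real.exp (-(h ^ 2 * S.lam k))
        ≤ ∑ k ∈ s, ((2 * Real.pi) ^ 2)⁻¹ *
            ∫ ξ : P, Real.exp (-(h ^ 2 * sq ξ)) * ‖B.ft (S.u k) ξ‖ ^ 2 :=
          Finset.sum_le_sum fun k _ => B.jensen S hb h k
      _ = ((2 * Real.pi) ^ 2)⁻¹ *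
            ∫ ξ : P, ∑ k ∈ s, Real.exp (-(h ^ 2 * sq ξ)) * ‖B.ft (S.u k) ξ‖ ^ 2 := by
          rw [integral_finsetSum _ fun k _ => hei k, Finset.mul_sum]
      _ ≤ ((2 * Real.pi) ^ 2)⁻¹ *
            ∫ ξ : P, Real.exp (-(h ^ 2 * sq ξ)) * (volume D).toReal := by
          refine mul_le_mul_of_nonneg_left ?_ (by positivity)
          refine integral_mono (integrable_finsetSum _ fun k _ => hei k) (gi.mul_const _)
            fun ξ => ?_
          simp only
          rw [← Finset.mul_sum]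
          refine mul_le_mul_of_nonneg_left ?_ (Real.exp_pos _).le
          exact sum_le_hasSum s (fun k _ => by positivity) (B.bessel_ft S hb ξ)
      _ = (volume D).toReal / (4 * Real.pi * h ^ 2) := by
          rw [integral_mul_const, gv]
          have := Real.pi_pos.ne'
          field_simp
          ring
  have hsum : Summable (fun k => Real.exp (-(h ^ 2 * S.lam k))) :=
    summable_of_sum_le (fun k => (Real.exp_pos _).le) key
  exact ⟨hsum, hsum.tsum_le_of_sum_le key⟩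

end

end Pool.Agent.MP4eed4eR
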