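import Pool.Agent.Lib.MP_4eed4e_an_R.B03
import Pool.Agent.Lib.MP_4eed4e_an_R.B07

/-!
MP_4eed4e_an, project R, block B, module B14: Duhamel.
-/

namespace Pool.Agent.MP4eed4eR

open MeasureTheory Set Filter Topology Metric
open scoped ComplexConjugate ContDiff ENNReal

noncomputable section

variable {D : Set P}

private theorem b14_fin (G : Geo D) : IsFiniteMeasure (volume.restrict D) :=
  ⟨by rw [Measure.restrict_apply_univ]; exact G.isBounded.measure_lt_top⟩

private theorem b14_memLp {g : P → ℂ} {x : P} {R : ℝ} (hg : Continuous g)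
    (hs : ∀ y, R < dist y x → g y = 0) : MemLp g 2 volume :=
  hg.memLp_of_hasCompactSupport (HasCompactSupport.intro (isCompact_closedBall x R)
    (fun y hy => hs y (not_le.mp hy)))

private theorem b14_cont (e₁ e₂ : ℝ) (w₁ w₂ : ℝ × ℝ) {g : P → ℂ} (hg : Continuous g) :
    Continuous (foldF e₁ e₂ w₁ w₂ g) := by
  unfold foldF
  fun_prop

private theorem b14_co (S : Spec D) {G : Geo D} {ρ : ℝ} (W : Walls G ρ) {x : P} {g : P → ℂ}
    (hm : MemLp g 2 volume) (k : ℕ) : S.co k (cls D (W.fold (-1) (-1) x g)) =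
      ∫ q in D, (S.u k q : ℂ) * foldF (-1) (-1) (W.w1 x) (W.w2 x) g q := by
  rw [B.co_eq]
  refine integral_congr_ae ?_
  filter_upwards [B.cls_coe (memLp_fold W (-1) (-1) x hm),
    ae_restrict_mem G.isOpen.measurableSet] with q h1 h2
  rw [h1]
  unfold Walls.fold
  rw [indicator_of_mem h2]

private theorem b14_bound {Q : ℝ → P → ℂ} (hQ : Continuous (fun z : ℝ × P => Q z.1 z.2)) {x : P}
    {R : ℝ} (hs : ∀ t y, R < dist y x → Q t y = 0) (t : ℝ) :
    ∃ C, 0 ≤ C ∧ ∀ s ∈ Icc (t - 1) (t + 1), ∀ y, ‖Q s y‖ ≤ C := by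
  obtain ⟨C, hC⟩ := ((isCompact_Icc (a := t - 1) (b := t + 1)).prod
    (isCompact_closedBall x R)).exists_bound_of_continuousOn hQ.continuousOn
  refine ⟨max C 0, le_max_right _ _, fun s hs' y => ?_⟩
  by_cases hy : dist y x ≤ R
  · exact (hC (s, y) ⟨hs', hy⟩).trans (le_max_left _ _)
  · rw [hs s y (not_le.mp hy), norm_zero]
    exact le_max_right _ _

private theorem b14_term {c : ℝ} {z : ℂ} {C : ℝ} (hc : |c| ≤ 1) (hz : ‖z‖ ≤ C) :
    ‖(c : ℂ) * z‖ ≤ C := by
  rw [norm_mul, Complex.norm_real, Real.norm_eq_abs]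
  calc |c| * ‖z‖ ≤ 1 * C := mul_le_mul hc hz (norm_nonneg _) zero_le_one
    _ = C := one_mul _

private theorem b14_sq {s : ℝ} (h : IsSgn s) : |s ^ 2| ≤ 1 := by
  rcases h with h | h | h <;> rw [h] <;> norm_num

private theorem b14_fold_bound {w₁ w₂ : ℝ × ℝ} (h₁ : IsSgn w₁.2) (h₂ : IsSgn w₂.2) {g : P → ℂ}
    {C : ℝ} (hC : ∀ y, ‖g y‖ ≤ C) (q : P) : ‖foldF (-1) (-1) w₁ w₂ g q‖ ≤ 4 * C := by
  have s1 : |(-1) * w₁.2 ^ 2| ≤ 1 := by
    rw [neg_one_mul, abs_neg]
    exact b14_sq h₁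
  have s2 : |(-1) * w₂.2 ^ 2| ≤ 1 := by
    rw [neg_one_mul, abs_neg]
    exact b14_sq h₂
  have s3 : |(-1) * (-1) * (w₁.2 ^ 2 * w₂.2 ^ 2)| ≤ 1 := by
    rw [show (-1 : ℝ) * (-1) * (w₁.2 ^ 2 * w₂.2 ^ 2) = w₁.2 ^ 2 * w₂.2 ^ 2 by ring, abs_mul]
    exact mul_le_one₀ (b14_sq h₁) (abs_nonneg _) (b14_sq h₂)
  unfold foldF
  refine (norm_add_le _ _).trans ((add_le_add ((norm_add_le _ _).trans
    (add_le_add ((norm_add_le _ _).trans (add_le_add (hC _) (b14_term s1 (hC _))))
      (b14_term s2 (hC _)))) (b14_term s3 (hC _))).trans (le_of_eq (by ring)))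

private theorem b14_fold_deriv {F F' : ℝ → P → ℂ} {t : ℝ}
    (h : ∀ y, HasDerivAt (fun s => F s y) (F' t y) t) (e₁ e₂ : ℝ) (w₁ w₂ : ℝ × ℝ) (q : P) :
    HasDerivAt (fun s => foldF e₁ e₂ w₁ w₂ (F s) q) (foldF e₁ e₂ w₁ w₂ (F' t) q) t := by
  unfold foldF
  exact (((h q).fun_add ((h _).const_mul _)).fun_add ((h _).const_mul _)).fun_add
    ((h _).const_mul _)

/-- The coefficients of a folded time dependent function are differentiable. Proof: `S.co k (cls D
(fold F_t)) = ∫ q in D, u k q * foldF .. (F t) q` (`B.inner_cls`) and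
`hasDerivAt_integral_of_dominated_loc_of_deriv_le`: the derivative in `t` of the integrand is
`u k q * foldF .. (F' t) q`, `F' t = (I h / 2) Lap (F t) + Q t`, which is bounded by
`|u k q| * 4 C` on `D` and vanishes for `dist q x > R` (`fold_supp`); `C` is a bound of the
continuous function `F'` on `[t - 1, t + 1] × closedBall x R` (it vanishes outside the ball: `hsQ`
and the support of `F t`); `|u k|` is integrable on `closedBall x R`. Linearity of the folding and
`co_fold_lap` give the value of the derivative. Continuity of `t ↦ S.co k (cls D (fold (Q t)))`: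
dominated convergence. -/
theorem B.duh_deriv (S : Spec D) {G : Geo D} {ρ R h : ℝ} (hh0 : 0 < h) (hρ : 0 < ρ)
    (hρ' : ρ ≤ 4 * G.rho0) (hR : 0 < R) (hR' : 2 * R ≤ ρ) (W : Walls G ρ) {x : P}
    (hx : x ∈ closure D) (hfar : G.Far ρ x) {F Q : ℝ → P → ℂ}
    (hF : ContDiff ℝ ∞ (fun z : ℝ × P => F z.1 z.2)) (hQ : Continuous (fun z : ℝ × P => Q z.1 z.2))
    (hsF : ∀ t y, R < dist y x → F t y = 0) (hsQ : ∀ t y, R < dist y x → Q t y = 0)
    (hpde : ∀ t y, HasDerivAt (fun s => F s y) ((Complex.I * h / 2) * Lap (F t) y + Q t y) t)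
    (k : ℕ) (t : ℝ) :
    HasDerivAt (fun s => S.co k (cls D (W.fold (-1) (-1) x (F s))))
      (-(h * S.lam k / 2 : ℝ) * Complex.I * S.co k (cls D (W.fold (-1) (-1) x (F t))) +
        S.co k (cls D (W.fold (-1) (-1) x (Q t)))) t ∧
    Continuous (fun s => S.co k (cls D (W.fold (-1) (-1) x (Q s)))) := by
  have := b14_fin G
  have hFs : ∀ s, ContDiff ℝ ∞ (F s) := fun s =>
    hF.comp (contDiff_const.prodMk contDiff_id)
  have hQc : ∀ s, Continuous (Q s) := fun s =>
    hQ.comp (Continuous.prodMk continuous_const continuous_id)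
  have mF : ∀ s, MemLp (F s) 2 volume := fun s => b14_memLp (hFs s).continuous (hsF s)
  have mQ : ∀ s, MemLp (Q s) 2 volume := fun s => b14_memLp (hQc s) (hsQ s)
  have hc : (Complex.I * h / 2 : ℂ) ≠ 0 := by
    have h1 : (h : ℂ) ≠ 0 := by exact_mod_cast hh0.ne'
    exact div_ne_zero (mul_ne_zero Complex.I_ne_zero h1) two_ne_zero
  obtain ⟨F', hFd⟩ : ∃ F' : ℝ → P → ℂ, F' = fun s y => (Complex.I * h / 2) * Lap (F s) y + Q s y :=
    ⟨_, rfl⟩
  have hpde' : ∀ s y, HasDerivAt (fun s => F s y) (F' s y) s := by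
    intro s y
    rw [hFd]
    exact hpde s y
  have hF' : ∀ s y, F' s y = fderiv ℝ (fun z : ℝ × P => F z.1 z.2) (s, y) (1, 0) := by
    intro s y
    have h2 : HasDerivAt (fun s : ℝ => ((s, y) : ℝ × P)) (1, 0) s :=
      (hasDerivAt_id s).prodMk (hasDerivAt_const s y)
    have h3 := ((hF.differentiable (by simp)) (s, y)).hasFDerivAt.comp_hasDerivAt s h2
    exact (hpde' s y).unique h3
  have cF' : Continuous (fun z : ℝ × P => F' z.1 z.2) := by
    have h1 : (fun z : ℝ × P => F' z.1 z.2) =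
        fun z => fderiv ℝ (fun z : ℝ × P => F z.1 z.2) z (1, 0) := funext fun z => hF' z.1 z.2
    rw [h1]
    exact (hF.continuous_fderiv (by simp)).clm_apply continuous_const
  have sF' : ∀ s y, R < dist y x → F' s y = 0 := by
    intro s y hy
    have h0 : HasDerivAt (fun s => F s y) 0 s := by
      have h1 : (fun s => F s y) = fun _ => (0 : ℂ) := funext fun s => hsF s y hy
      rw [h1]
      exact hasDerivAt_const _ _
    exact (hpde' s y).unique h0
  have cF's : ∀ s, Continuous (F' s) := fun s =>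
    cF'.comp (Continuous.prodMk continuous_const continuous_id)
  have mF' : ∀ s, MemLp (F' s) 2 volume := fun s => b14_memLp (cF's s) (sF' s)
  have hL : Lap (F t) = fun y => (Complex.I * h / 2 : ℂ)⁻¹ * (F' t y - Q t y) := by
    funext y
    rw [hFd]
    show Lap (F t) y = (Complex.I * h / 2 : ℂ)⁻¹ *
      ((Complex.I * h / 2) * Lap (F t) y + Q t y - Q t y)
    rw [add_sub_cancel_right, inv_mul_cancel_left₀ hc]
  have mL : MemLp (Lap (F t)) 2 volume := by
    rw [hL]
    exact ((mF' t).sub (mQ t)).const_mul _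
  have hu := (B.e_mem S k).1
  have hui : Integrable (fun q => (S.u k q : ℂ)) (volume.restrict D) :=
    hu.integrable (by norm_num)
  have meas : ∀ g : P → ℂ, Continuous g → AEStronglyMeasurable
      (fun q => (S.u k q : ℂ) * foldF (-1) (-1) (W.w1 x) (W.w2 x) g q) (volume.restrict D) :=
    fun g hg => hui.aestronglyMeasurable.mul (b14_cont _ _ _ _ hg).aestronglyMeasurable
  have bd : ∀ {g : P → ℂ} {C : ℝ}, (∀ y, ‖g y‖ ≤ C) → ∀ q,
      ‖(S.u k q : ℂ) * foldF (-1) (-1) (W.w1 x) (W.w2 x) g q‖ ≤ ‖(S.u k q : ℂ)‖ * (4 * C) := by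
    intro g C hg q
    rw [norm_mul]
    exact mul_le_mul_of_nonneg_left (b14_fold_bound (W.sgn1 x) (W.sgn2 x) hg q) (norm_nonneg _)
  have hnb : Icc (t - 1) (t + 1) ∈ 𝓝 t := Icc_mem_nhds (by linarith) (by linarith)
  constructor
  · have val : S.co k (cls D (W.fold (-1) (-1) x (F' t))) =
        -(h * S.lam k / 2 : ℝ) * Complex.I * S.co k (cls D (W.fold (-1) (-1) x (F t))) +
          S.co k (cls D (W.fold (-1) (-1) x (Q t))) := by
      have e1 : W.fold (-1) (-1) x (F' t) = fun q =>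
          (Complex.I * h / 2) * W.fold (-1) (-1) x (Lap (F t)) q + W.fold (-1) (-1) x (Q t) q := by
        funext q
        unfold Walls.fold
        by_cases hq : q ∈ D
        · rw [indicator_of_mem hq, indicator_of_mem hq, indicator_of_mem hq, hFd]
          unfold foldF
          ring
        · rw [indicator_of_notMem hq, indicator_of_notMem hq, indicator_of_notMem hq]
          ring
      have l1 := memLp_fold W (-1) (-1) x mL
      have l2 := memLp_fold W (-1) (-1) x (mQ t)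
      rw [e1, B.cls_add (l1.const_mul (Complex.I * h / 2)) l2, B.cls_smul _ l1, co_add, co_smul,
        co_fold_lap S hρ hρ' hR hR' W hx hfar (hFs t) (hsF t) k]
      push_cast
      ring
    rw [← val, b14_co S W (mF' t) k]
    have e2 : (fun s => S.co k (cls D (W.fold (-1) (-1) x (F s)))) = fun s =>
        ∫ q in D, (S.u k q : ℂ) * foldF (-1) (-1) (W.w1 x) (W.w2 x) (F s) q :=
      funext fun s => b14_co S W (mF s) k
    rw [e2]
    obtain ⟨C, hC0, hC⟩ := b14_bound cF' sF' t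
    obtain ⟨C', hC0', hC'⟩ := b14_bound hF.continuous hsF t
    refine (hasDerivAt_integral_of_dominated_loc_of_deriv_le (μ := volume.restrict D)
      (F := fun s q => (S.u k q : ℂ) * foldF (-1) (-1) (W.w1 x) (W.w2 x) (F s) q)
      (F' := fun s q => (S.u k q : ℂ) * foldF (-1) (-1) (W.w1 x) (W.w2 x) (F' s) q)
      (bound := fun q => ‖(S.u k q : ℂ)‖ * (4 * C)) hnb ?_ ?_ ?_ ?_ ?_ ?_).2
    · exact Eventually.of_forall fun s => meas _ (hFs s).continuous
    · refine (hui.norm.mul_const (4 * C')).mono' (meas _ (hFs t).continuous) (ae_of_all _ ?_)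
      exact bd (hC' t ⟨by linarith, by linarith⟩)
    · exact meas _ (cF's t)
    · exact ae_of_all _ fun q s hs => bd (hC s hs) q
    · exact hui.norm.mul_const _
    · exact ae_of_all _ fun q s hs =>
        (b14_fold_deriv (fun y => hpde' s y) (-1) (-1) (W.w1 x) (W.w2 x) q).const_mul _
  · have e : (fun s => S.co k (cls D (W.fold (-1) (-1) x (Q s)))) = fun s =>
        ∫ q in D, (S.u k q : ℂ) * foldF (-1) (-1) (W.w1 x) (W.w2 x) (Q s) q :=
      funext fun s => b14_co S W (mQ s) k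
    rw [e, continuous_iff_continuousAt]
    intro s₀
    obtain ⟨C, hC0, hC⟩ := b14_bound hQ hsQ s₀
    refine continuousAt_of_dominated (bound := fun q => ‖(S.u k q : ℂ)‖ * (4 * C)) ?_ ?_ ?_ ?_
    · exact Eventually.of_forall fun s => meas _ (hQc s)
    · filter_upwards [Icc_mem_nhds (show s₀ - 1 < s₀ by linarith) (show s₀ < s₀ + 1 by linarith)]
        with s hs
      exact ae_of_all _ fun q => bd (hC s hs) q
    · exact hui.norm.mul_const _
    · refine ae_of_all _ fun q => ?_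
      have hq : ∀ y : P, Continuous fun s => Q s y := fun y =>
        hQ.comp (Continuous.prodMk continuous_id continuous_const)
      have : Continuous fun s => (S.u k q : ℂ) * foldF (-1) (-1) (W.w1 x) (W.w2 x) (Q s) q := by
        unfold foldF
        exact continuous_const.mul ((((hq _).add (continuous_const.mul (hq _))).add
          (continuous_const.mul (hq _))).add (continuous_const.mul (hq _)))
      exact this.continuousAt

/-- Duhamel. Proof. Let `w = U τ v(0) - v(τ)`, `v(t) = cls D (fold (F t))`, `q k t = S.co k (cls D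
(fold (Q t)))`. By `B.duh_deriv` the derivative of `exp (i t h lam k / 2) * S.co k v(t)` is
`exp (i t h lam k / 2) * q k t`, so (`intervalIntegral.integral_eq_sub_of_hasDerivAt`) `S.co k w =
-∫ t in 0..τ, exp (-i (τ - t) h lam k / 2) * q k t`. For a finite set `s` of indices
`A = ∑ k ∈ s, ‖S.co k w‖ ^ 2` is the norm of `∫ t in 0..τ, ∑ k ∈ s, conj (S.co k w) * (..) * q k t`,
at most `|τ| √A M` by Cauchy-Schwarz (`∑ ‖q k t‖ ^ 2 ≤ ‖cls D (fold (Q t))‖ ^ 2 ≤ M ^ 2`,
`parseval`). So `A ≤ (|τ| M) ^ 2` for every `s`, and `‖w‖ ≤ |τ| M` by `parseval`. -/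
theorem duhamel (S : Spec D) {G : Geo D} {ρ R h : ℝ} (hh0 : 0 < h) (hρ : 0 < ρ)
    (hρ' : ρ ≤ 4 * G.rho0) (hR : 0 < R) (hR' : 2 * R ≤ ρ) (W : Walls G ρ) {x : P}
    (hx : x ∈ closure D) (hfar : G.Far ρ x) {F Q : ℝ → P → ℂ}
    (hF : ContDiff ℝ ∞ (fun z : ℝ × P => F z.1 z.2)) (hQ : Continuous (fun z : ℝ × P => Q z.1 z.2))
    (hsF : ∀ t y, R < dist y x → F t y = 0) (hsQ : ∀ t y, R < dist y x → Q t y = 0)
    (hpde : ∀ t y, HasDerivAt (fun s => F s y) ((Complex.I * h / 2) * Lap (F t) y + Q t y) t)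
    {τ M : ℝ} (hM : ∀ t ∈ uIcc 0 τ, ‖cls D (W.fold (-1) (-1) x (Q t))‖ ≤ M) :
    ‖S.U h τ (cls D (W.fold (-1) (-1) x (F 0))) - cls D (W.fold (-1) (-1) x (F τ))‖ ≤
      |τ| * M := by
  have hM0 : 0 ≤ M := (norm_nonneg _).trans (hM 0 left_mem_uIcc)
  obtain ⟨w, hw⟩ : ∃ w, w = S.U h τ (cls D (W.fold (-1) (-1) x (F 0))) -
    cls D (W.fold (-1) (-1) x (F τ)) := ⟨_, rfl⟩
  rw [← hw]
  have hcw : ∀ k, S.co k w = Complex.exp (-(τ * h * S.lam k / 2 : ℝ) * Complex.I) *
      S.co k (cls D (W.fold (-1) (-1) x (F 0))) - S.co k (cls D (W.fold (-1) (-1) x (F τ))) := by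
    intro k
    rw [← co_U S h τ, hw]
    unfold Spec.co
    exact inner_sub_right _ _ _
  have key : ∀ s : Finset ℕ, ∑ k ∈ s, ‖S.co k w‖ ^ 2 ≤ (|τ| * M) ^ 2 := by
    intro s
    obtain ⟨A, hA⟩ : ∃ A, A = ∑ k ∈ s, ‖S.co k w‖ ^ 2 := ⟨_, rfl⟩
    have hA0 : 0 ≤ A := by
      rw [hA]
      exact Finset.sum_nonneg fun k _ => by positivity
    have hd : ∀ k t, HasDerivAt (fun t : ℝ => conj (S.co k w) *
        (Complex.exp (-((τ - t) * h * S.lam k / 2 : ℝ) * Complex.I) *
          S.co k (cls D (W.fold (-1) (-1) x (F t)))))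
        (conj (S.co k w) * (Complex.exp (-((τ - t) * h * S.lam k / 2 : ℝ) * Complex.I) *
          S.co k (cls D (W.fold (-1) (-1) x (Q t))))) t := by
      intro k t
      have d1 := (B.duh_deriv S hh0 hρ hρ' hR hR' W hx hfar hF hQ hsF hsQ hpde k t).1
      have d2 : HasDerivAt (fun t : ℝ => -(((τ - t) * h * S.lam k / 2 : ℝ) : ℂ) * Complex.I)
          ((h * S.lam k / 2 : ℝ) * Complex.I) t := by
        have d3 : HasDerivAt (fun t : ℝ => (τ - t) * h * S.lam k / 2)
            (-1 * h * S.lam k / 2) t :=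
          ((((hasDerivAt_id t).const_sub τ).mul_const h).mul_const (S.lam k)).div_const 2
        have d4 := (d3.ofReal_comp.neg).mul_const Complex.I
        refine d4.congr_deriv ?_
        push_cast
        ring
      refine ((d2.cexp.mul d1).const_mul (conj (S.co k w))).congr_deriv ?_
      ring
    have hds : ∀ t, HasDerivAt (fun t : ℝ => ∑ k ∈ s, conj (S.co k w) *
        (Complex.exp (-((τ - t) * h * S.lam k / 2 : ℝ) * Complex.I) *
          S.co k (cls D (W.fold (-1) (-1) x (F t)))))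
        (∑ k ∈ s, conj (S.co k w) *
          (Complex.exp (-((τ - t) * h * S.lam k / 2 : ℝ) * Complex.I) *
            S.co k (cls D (W.fold (-1) (-1) x (Q t))))) t := fun t =>
      HasDerivAt.fun_sum fun k _ => hd k t
    have hb : ∀ t ∈ uIcc 0 τ, ‖∑ k ∈ s, conj (S.co k w) *
        (Complex.exp (-((τ - t) * h * S.lam k / 2 : ℝ) * Complex.I) *
          S.co k (cls D (W.fold (-1) (-1) x (Q t))))‖ ≤ Real.sqrt A * M := by
      intro t ht
      have b1 : ∀ k, ‖conj (S.co k w) *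
          (Complex.exp (-((τ - t) * h * S.lam k / 2 : ℝ) * Complex.I) *
            S.co k (cls D (W.fold (-1) (-1) x (Q t))))‖ =
          ‖S.co k w‖ * ‖S.co k (cls D (W.fold (-1) (-1) x (Q t)))‖ := by
        intro k
        have b2 : ‖Complex.exp (-((τ - t) * h * S.lam k / 2 : ℝ) * Complex.I)‖ = 1 := by
          rw [← Complex.ofReal_neg, Complex.norm_exp_ofReal_mul_I]
        rw [norm_mul, norm_mul, b2, one_mul, RCLike.norm_conj]
      refine (norm_sum_le _ _).trans ?_
      simp only [b1]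
      refine (Real.sum_mul_le_sqrt_mul_sqrt s _ _).trans ?_
      rw [← hA]
      refine mul_le_mul_of_nonneg_left ?_ (Real.sqrt_nonneg _)
      refine Real.sqrt_le_iff.mpr ⟨hM0, ?_⟩
      have b3 := sum_le_hasSum s (fun k _ => by positivity)
        (parseval S (cls D (W.fold (-1) (-1) x (Q t))))
      exact b3.trans (pow_le_pow_left₀ (norm_nonneg _) (hM t ht) 2)
    have hmv := Convex.norm_image_sub_le_of_norm_hasDerivWithin_le
      (fun t _ => (hds t).hasDerivWithinAt) hb (convex_uIcc 0 τ) left_mem_uIcc right_mem_uIcc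
    have hval : (∑ k ∈ s, conj (S.co k w) *
        (Complex.exp (-((τ - τ) * h * S.lam k / 2 : ℝ) * Complex.I) *
          S.co k (cls D (W.fold (-1) (-1) x (F τ))))) -
        (∑ k ∈ s, conj (S.co k w) *
        (Complex.exp (-((τ - 0) * h * S.lam k / 2 : ℝ) * Complex.I) *
          S.co k (cls D (W.fold (-1) (-1) x (F 0))))) = -((A : ℝ) : ℂ) := by
      rw [← Finset.sum_sub_distrib, hA, Complex.ofReal_sum, ← Finset.sum_neg_distrib]
      refine Finset.sum_congr rfl fun k _ => ?_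
      have c1 : ((‖S.co k w‖ ^ 2 : ℝ) : ℂ) = conj (S.co k w) * S.co k w := by
        rw [← Complex.normSq_eq_norm_sq, Complex.normSq_eq_conj_mul_self]
      have c2 : S.co k (cls D (W.fold (-1) (-1) x (F τ))) =
          Complex.exp (-(τ * h * S.lam k / 2 : ℝ) * Complex.I) *
            S.co k (cls D (W.fold (-1) (-1) x (F 0))) - S.co k w := by
        rw [hcw k, sub_sub_cancel]
      rw [c1, sub_self, sub_zero, c2]
      simp only [zero_mul, zero_div, Complex.ofReal_zero, neg_zero, Complex.exp_zero, one_mul]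
      ring
    rw [hval, norm_neg, Complex.norm_real, Real.norm_eq_abs, abs_of_nonneg hA0, sub_zero,
      Real.norm_eq_abs] at hmv
    rw [← hA]
    have h1 : Real.sqrt A ≤ |τ| * M := by
      by_cases h0 : Real.sqrt A = 0
      · rw [h0]
        positivity
      · have h2 : 0 < Real.sqrt A := lt_of_le_of_ne (Real.sqrt_nonneg _) (Ne.symm h0)
        have h3 : Real.sqrt A * Real.sqrt A ≤ Real.sqrt A * (|τ| * M) := by
          rw [Real.mul_self_sqrt hA0]
          linarith
        exact le_of_mul_le_mul_left h3 h2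
    calc A = Real.sqrt A ^ 2 := (Real.sq_sqrt hA0).symm
      _ ≤ (|τ| * M) ^ 2 := pow_le_pow_left₀ (Real.sqrt_nonneg _) h1 2
  have hfin : ‖w‖ ^ 2 ≤ (|τ| * M) ^ 2 := hasSum_le_of_sum_le (parseval S w) key
  exact (pow_le_pow_iff_left₀ (norm_nonneg _) (by positivity) two_ne_zero).mp hfin

end

end Pool.Agent.MP4eed4eR
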