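import Pool.Agent.Lib.MP_4eed4e_an_R.Base

/-!
MP_4eed4e_an, project R, block B: definitions for the families of folded plane waves.
-/

namespace Pool.Agent.MP4eed4eR

open MeasureTheory Set Filter Topology Metric

noncomputable section

variable {D : Set P}

/-- The folded modulated translates of the envelope `E`. -/
def Walls.fam {G : Geo D} {ρ : ℝ} (W : Walls G ρ) (e₁ e₂ : ℝ) (E : P → ℂ) (h : ℝ) (x ξ : P) :
    P → ℂ :=
  W.fold e₁ e₂ x (fun y => E (y - x) * Complex.exp ((dot ξ (y - x) / h : ℝ) * Complex.I))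

/-- The sum of `N` over the images of `q`. -/
def foldN (w₁ w₂ : ℝ × ℝ) (N : P → ℝ) (q : P) : ℝ :=
  N q + w₁.2 ^ 2 * N (2 * w₁.1 - q.1, q.2) + w₂.2 ^ 2 * N (q.1, 2 * w₂.1 - q.2)
    + w₁.2 ^ 2 * w₂.2 ^ 2 * N (2 * w₁.1 - q.1, 2 * w₂.1 - q.2)

/-- An admissible envelope of radius `R`. -/
structure Env (E : P → ℂ) (R : ℝ) : Prop where
  meas : Measurable E
  bdd : ∃ C, ∀ y, ‖E y‖ ≤ C
  supp : ∀ y : P, R < ‖y‖ → E y = 0

/-- The multiplier of the frame with centres in `X`. -/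
def Walls.mult {G : Geo D} {ρ : ℝ} (W : Walls G ρ) (E : P → ℂ) (X : Set P) (q : P) : ℝ :=
  ∫ x in X, foldN (W.w1 x) (W.w2 x) (fun y => ‖E (y - x)‖ ^ 2) q

end

end Pool.Agent.MP4eed4eR
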