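import Pool.Agent.Lib.MP_4eed4e_an_R.Defs

/-!
MP_4eed4e_an, project R: definitions used in the proofs (scales, walls, folding, packets,
spectral calculus). See /team-store/MP_4eed4e_R.md for the paper proof.
-/

namespace Pool.Agent.MP4eed4eR

open MeasureTheory Set Filter Topology Metric
open scoped ComplexConjugate ContDiff

noncomputable section

/-- The plane; the norm is the sup norm, so that balls are squares. -/
abbrev P : Type := ℝ × ℝ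

/-- The square of the Euclidean length. -/
def sq (v : P) : ℝ := v.1 ^ 2 + v.2 ^ 2

/-- The Euclidean scalar product. -/
def dot (v w : P) : ℝ := v.1 * w.1 + v.2 * w.2

/-! ### The scales -/

def hh (δ : ℝ) : ℝ := δ ^ 80
def sh (δ : ℝ) : ℝ := δ ^ 40
def kap (δ : ℝ) : ℝ := δ ^ 39
def th (δ : ℝ) : ℝ := δ ^ 38
def thp (δ : ℝ) : ℝ := δ ^ 36
def rho2 (δ : ℝ) : ℝ := δ ^ 34
def a1 (δ : ℝ) : ℝ := δ ^ 32
def rho1 (δ : ℝ) : ℝ := δ ^ 30
/-- The scale of the cutoff of the packets; their support has radius `2 * rad δ = th δ / 32`. -/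
def rad (δ : ℝ) : ℝ := th δ / 64
/-- The time step. -/
def tau (δ : ℝ) : ℝ := th δ / 1024

/-! ### Walls -/

/-- A wall is a pair `(a, s)`: `s = 0` means no wall, `s = 1` means that the domain lies on the
right hand side of `a`, `s = -1` that it lies on the left hand side. -/
def wIn (w : ℝ × ℝ) (y : ℝ) : Prop := w.2 = 0 ∨ 0 < w.2 * (y - w.1)

/-- Folding of the line at the wall. -/
def wfold (w : ℝ × ℝ) (y : ℝ) : ℝ := if w.2 = 0 then y else w.1 + w.2 * |y - w.1|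

/-- `-1` if `y` is strictly beyond the wall, otherwise `1`. -/
def wsgn (w : ℝ × ℝ) (y : ℝ) : ℝ := if w.2 * (y - w.1) < 0 then -1 else 1

/-- `s` is a wall sign. -/
def IsSgn (s : ℝ) : Prop := s = 0 ∨ s = 1 ∨ s = -1

/-- Geometric data of a rectilinear domain. -/
structure Geo (D : Set P) where
  A : Finset ℝ
  B : Finset ℝ
  V : Finset P
  rho0 : ℝ
  pos : 0 < rho0
  le_one : rho0 ≤ 1
  isOpen : IsOpen D
  isBounded : Bornology.IsBounded D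
  nonempty : D.Nonempty
  front : ∀ q ∈ frontier D, q.1 ∈ A ∨ q.2 ∈ B
  gapA : ∀ a ∈ A, ∀ a' ∈ A, a ≠ a' → 16 * rho0 ≤ |a - a'|
  gapB : ∀ b ∈ B, ∀ b' ∈ B, b ≠ b' → 16 * rho0 ≤ |b - b'|
  Vgrid : ∀ v ∈ V, v.1 ∈ A ∧ v.2 ∈ B
  reflex : ∀ v ∈ V, ∃ s t : ℝ, (s = 1 ∨ s = -1) ∧ (t = 1 ∨ t = -1) ∧
    ∀ q ∈ ball v (16 * rho0), (q ∈ D ↔ 0 < s * (q.1 - v.1) ∨ 0 < t * (q.2 - v.2))
  model : ∀ x ∈ closure D, ∀ ρ : ℝ, 0 < ρ → ρ ≤ 8 * rho0 → (∀ v ∈ V, ρ ≤ dist x v) →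
    ∃ w1 w2 : ℝ × ℝ, IsSgn w1.2 ∧ IsSgn w2.2 ∧
      (w1.2 ≠ 0 → w1.1 ∈ A ∧ |w1.1 - x.1| < ρ) ∧ (w2.2 ≠ 0 → w2.1 ∈ B ∧ |w2.1 - x.2| < ρ) ∧
      ∀ q ∈ ball x ρ, (q ∈ D ↔ wIn w1 q.1 ∧ wIn w2 q.2)

/-- `x` has distance at least `ρ` from the reflex vertices. -/
def Geo.Far {D : Set P} (G : Geo D) (ρ : ℝ) (x : P) : Prop := ∀ v ∈ G.V, ρ ≤ dist x v

/-- Measurable wall functions at scale `ρ`. -/
structure Walls {D : Set P} (G : Geo D) (ρ : ℝ) where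
  w1 : P → ℝ × ℝ
  w2 : P → ℝ × ℝ
  meas1 : Measurable w1
  meas2 : Measurable w2
  sgn1 : ∀ x, IsSgn (w1 x).2
  sgn2 : ∀ x, IsSgn (w2 x).2
  near1 : ∀ x, (w1 x).2 ≠ 0 → (w1 x).1 ∈ G.A ∧ |(w1 x).1 - x.1| < ρ
  near2 : ∀ x, (w2 x).2 ≠ 0 → (w2 x).1 ∈ G.B ∧ |(w2 x).1 - x.2| < ρ
  model : ∀ x ∈ closure D, G.Far ρ x → ∀ q ∈ ball x ρ, (q ∈ D ↔ wIn (w1 x) q.1 ∧ wIn (w2 x) q.2)

/-- The step of the billiard with time `t`. -/
def stp {D : Set P} {G : Geo D} {ρ : ℝ} (W : Walls G ρ) (t : ℝ) (z : P × P) : P × P :=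
  ((wfold (W.w1 z.1) (z.1.1 + t * z.2.1), wfold (W.w2 z.1) (z.1.2 + t * z.2.2)),
    (wsgn (W.w1 z.1) (z.1.1 + t * z.2.1) * z.2.1,
      wsgn (W.w2 z.1) (z.1.2 + t * z.2.2) * z.2.2))

/-- The affine map `y ↦ g y + c`, where `g` is the diagonal matrix with entries `γ.1`. -/
def app (γ : P × P) (y : P) : P := (γ.1.1 * y.1 + γ.2.1, γ.1.2 * y.2 + γ.2.2)

/-- The linear part of `γ`. -/
def lin (γ : P × P) (ξ : P) : P := (γ.1.1 * ξ.1, γ.1.2 * ξ.2)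

/-- The identity as an affine map. -/
def idA : P × P := ((1, 1), (0, 0))

/-- The billiard flow for the time `t ≥ 0`, in steps of length `τ`. -/
def flow {D : Set P} {G : Geo D} {ρ : ℝ} (W : Walls G ρ) (τ t : ℝ) (z : P × P) : P × P :=
  stp W (t - (⌊t / τ⌋₊ : ℝ) * τ) ((stp W τ)^[⌊t / τ⌋₊] z)

/-- All orbit points up to time `t` have distance at least `θ` from the reflex vertices. -/
def GoodUpTo {D : Set P} {G : Geo D} {ρ : ℝ} (W : Walls G ρ) (τ θ t : ℝ) (z : P × P) : Prop :=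
  ∀ k : ℕ, (k : ℝ) * τ ≤ t → G.Far θ ((stp W τ)^[k] z).1

/-- Compositions of at most `n` reflections of the line in points of `A`. -/
def Rf (A : Finset ℝ) : ℕ → Finset (ℝ × ℝ)
  | 0 => {(1, 0)}
  | n + 1 => Rf A n ∪ ((Rf A n) ×ˢ A).image (fun p => (-p.1.1, 2 * p.2 - p.1.2))

/-- The number of reflections that is allowed up to time `T`. -/
def Geo.NT {D : Set P} (G : Geo D) (T : ℝ) : ℕ := ⌈T / G.rho0⌉₊ + 2

open Classical in
/-- The finite set of affine maps that describe the billiard up to time `T`. -/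
def Geo.Gam {D : Set P} (G : Geo D) (T : ℝ) : Finset (P × P) :=
  (((Rf G.A (G.NT T)) ×ˢ (Rf G.B (G.NT T))).image
    (fun p => (((p.1.1, p.2.1), (p.1.2, p.2.2)) : P × P))).filter
    (fun γ => (γ.1.1 = 1 → γ.2.1 ≠ 0 → 16 * G.rho0 ≤ |γ.2.1|) ∧
      (γ.1.2 = 1 → γ.2.2 ≠ 0 → 16 * G.rho0 ≤ |γ.2.2|))

/-! ### Folding of functions -/

/-- Symmetrisation of `F` with the signs `e₁`, `e₂` in the walls `w₁` (vertical) and `w₂`
(horizontal); `e₁ = e₂ = -1` is the Dirichlet condition. -/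
def foldF (e₁ e₂ : ℝ) (w₁ w₂ : ℝ × ℝ) (F : P → ℂ) (q : P) : ℂ :=
  F q + (e₁ * w₁.2 ^ 2 : ℝ) * F (2 * w₁.1 - q.1, q.2) + (e₂ * w₂.2 ^ 2 : ℝ) * F (q.1, 2 * w₂.1 - q.2)
    + (e₁ * e₂ * (w₁.2 ^ 2 * w₂.2 ^ 2) : ℝ) * F (2 * w₁.1 - q.1, 2 * w₂.1 - q.2)

/-- The folded function, restricted to the domain. -/
def Walls.fold {D : Set P} {G : Geo D} {ρ : ℝ} (W : Walls G ρ) (e₁ e₂ : ℝ) (x : P) (F : P → ℂ) :
    P → ℂ := D.indicator (foldF e₁ e₂ (W.w1 x) (W.w2 x) F)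

/-- An even smooth cutoff: `1` on `[-1, 1]`, `0` off `(-2, 2)`. -/
def chi (y : ℝ) : ℝ := Real.smoothTransition (2 - |y|)

/-- The cutoff in the plane at scale `r`. -/
def chir (r : ℝ) (y : P) : ℝ := chi (y.1 / r) * chi (y.2 / r)

/-- `1 / (1 + i s)`. -/
def beta (s : ℝ) : ℂ := 1 / (1 + s * Complex.I)

/-- The Gaussian packet with centre `x`, momentum `ξ` and spreading time `s`. -/
def psi (h : ℝ) (x ξ : P) (s : ℝ) (y : P) : ℂ :=
  (1 / Real.sqrt (Real.pi * h) : ℝ) * beta s *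
    Complex.exp (-beta s * (sq (y - x) : ℝ) / (2 * h : ℝ) + (dot ξ (y - x) / h : ℝ) * Complex.I)

/-- The truncated packet. -/
def psic (δ : ℝ) (x ξ : P) (s : ℝ) (y : P) : ℂ :=
  (chir (rad δ) (y - x) : ℂ) * psi (hh δ) x ξ s y

/-- The folded packet in the domain. -/
def Walls.pkt {D : Set P} {G : Geo D} {ρ : ℝ} (W : Walls G ρ) (δ : ℝ) (x ξ : P) (s : ℝ) : P → ℂ :=
  W.fold (-1) (-1) x (psic δ x ξ s)

/-- The partial derivatives and the Laplacian of complex valued functions. -/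
def D1 (F : P → ℂ) (q : P) : ℂ := fderiv ℝ F q (1, 0)

def D2 (F : P → ℂ) (q : P) : ℂ := fderiv ℝ F q (0, 1)

def Lap (F : P → ℂ) (q : P) : ℂ := D1 (D1 F) q + D2 (D2 F) q

/-! ### Spectral calculus -/

/-- A complete orthonormal system of Dirichlet eigenfunctions of `D`. -/
structure Spec (D : Set P) where
  isOpen : IsOpen D
  lam : ℕ → ℝ
  u : ℕ → P → ℝ
  u₁ : ℕ → P → ℝ
  u₂ : ℕ → P → ℝ
  h10 : ∀ k, H10 D (u k) (u₁ k) (u₂ k)
  weak : ∀ k φ, Test D φ →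
    ∫ q, (u₁ k q * d1 φ q + u₂ k q * d2 φ q) = lam k * ∫ q, u k q * φ q
  orth : ∀ j k, ∫ q, u j q * u k q = if j = k then 1 else 0
  compl : ∀ f : P → ℝ, MemLp f 2 volume → (∀ q, q ∉ D → f q = 0) →
    (∀ k, ∫ q, f q * u k q = 0) → f =ᵐ[volume] 0

/-- `L²(D; ℂ)`. -/
abbrev HD (D : Set P) : Type := Lp ℂ 2 (volume.restrict D)

open Classical in
/-- The class of a function in `L²(D; ℂ)` (zero if it is not square integrable). -/
def cls (D : Set P) (f : P → ℂ) : HD D :=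
  if h : MemLp f 2 (volume.restrict D) then h.toLp f else 0

/-- The mass of `f` in `S`. -/
def mass {D : Set P} (S : Set P) (f : HD D) : ℝ := ∫ q in S ∩ D, ‖f q‖ ^ 2

variable {D : Set P}

/-- The eigenfunctions as elements of `L²(D; ℂ)`. -/
def Spec.e (S : Spec D) (k : ℕ) : HD D := cls D (fun q => (S.u k q : ℂ))

/-- The coefficients. -/
def Spec.co (S : Spec D) (k : ℕ) (f : HD D) : ℂ := inner ℂ (S.e k) f

/-- The operator with eigenvalues `a k`. -/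
def Spec.op (S : Spec D) (a : ℕ → ℂ) (f : HD D) : HD D := ∑' k, (a k * S.co k f) • S.e k

/-- The Schrödinger group `exp (- i t H / 2h)`, `H = h²(-Δ)`. -/
def Spec.U (S : Spec D) (h t : ℝ) : HD D → HD D :=
  S.op (fun k => Complex.exp (-(t * h * S.lam k / 2 : ℝ) * Complex.I))

/-- The window `exp (-(H - 1)² / 2h)`. -/
def gk (lam : ℕ → ℝ) (h : ℝ) (k : ℕ) : ℝ := Real.exp (-(h ^ 2 * lam k - 1) ^ 2 / (2 * h))

/-- The eigenvalues of `W = exp (-(H - 1)² / 2h) exp (- i l H / 2h)`. -/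
def om (lam : ℕ → ℝ) (h l : ℝ) (k : ℕ) : ℂ :=
  (gk lam h k : ℂ) * Complex.exp (-(l * h * lam k / 2 : ℝ) * Complex.I)

/-- The operator `W`. -/
def Spec.W (S : Spec D) (h l : ℝ) : HD D → HD D := S.op (om S.lam h l)

/-- The window operator `G`. -/
def Spec.Gop (S : Spec D) (h : ℝ) : HD D → HD D := S.op (fun k => (gk S.lam h k : ℂ))

/-- The trace of `W`. -/
def LamF (lam : ℕ → ℝ) (h l : ℝ) : ℂ := ∑' k, om lam h l k

/-- The trace of the window. -/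
def GSum (lam : ℕ → ℝ) (h : ℝ) : ℝ := ∑' k, gk lam h k

end

end Pool.Agent.MP4eed4eR
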