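import Pool.Agent.Lib.MP_4eed4e_an_R.Base

/-!
MP_4eed4e_an, project R: definitions for the blocks C, D, E, F.
-/

namespace Pool.Agent.MP4eed4eR

open MeasureTheory Set Filter Topology Metric
open scoped ComplexConjugate ContDiff

noncomputable section

variable {D : Set P}

/-- The envelope of the truncated packet with spreading time `s`. -/
def envc (δ s : ℝ) (y : P) : ℂ :=
  (chir (rad δ) y : ℂ) * ((1 / Real.sqrt (Real.pi * hh δ) : ℝ) * beta s *
    Complex.exp (-beta s * (sq y : ℝ) / (2 * hh δ : ℝ)))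

/-- The frame constant `c_h`. -/
def cst (δ : ℝ) : ℝ := ∫ y, ‖envc δ 0 y‖ ^ 2

/-- The centres of the frame: the points of `D` at distance at least `θ` from the reflex
vertices. -/
def Geo.X (G : Geo D) (δ : ℝ) : Set P := {x | x ∈ D ∧ G.Far (th δ) x}

/-- The admissible centres of packets. -/
def Geo.Y (G : Geo D) (δ : ℝ) : Set P := {x | x ∈ closure D ∧ G.Far (th δ / 2) x}

/-- The momenta of the first kind. -/
def Sq2 : Set P := {ξ | |ξ.1| ≤ 2 ∧ |ξ.2| ≤ 2}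

/-- The walls of `x` have distance at least `κ` from `x`. -/
def Walls.Int {G : Geo D} {ρ : ℝ} (W : Walls G ρ) (κ : ℝ) (x : P) : Prop :=
  ((W.w1 x).2 ≠ 0 → κ ≤ |(W.w1 x).1 - x.1|) ∧ ((W.w2 x).2 ≠ 0 → κ ≤ |(W.w2 x).1 - x.2|)

/-- The unit phase `exp (i t |ξ|² / 2h)`. -/
def phs (δ t : ℝ) (ξ : P) : ℂ := Complex.exp ((t * sq ξ / (2 * hh δ) : ℝ) * Complex.I)

/-- The class of the packet. -/
def Walls.v {G : Geo D} {ρ : ℝ} (W : Walls G ρ) (δ : ℝ) (z : P × P) (s : ℝ) : HD D :=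
  cls D (W.pkt δ z.1 z.2 s)

/-- The kernel of the free overlaps. -/
def Kc (h t : ℝ) (c ξ : P) : ℂ :=
  ∫ z : P, Complex.exp (-(t * sq z / (2 * h) + dot z c / h : ℝ) * Complex.I) *
    ((Real.pi * h)⁻¹ * Real.exp (-(sq (z - ξ)) / h) : ℝ)

/-- The free value of `⟨v, G v⟩`. -/
def J0 (h : ℝ) (ξ : P) : ℝ :=
  ∫ z : P, Real.exp (-(sq z - 1) ^ 2 / (2 * h)) * ((Real.pi * h)⁻¹ * Real.exp (-(sq (z - ξ)) / h))

/-- The normalisation of the area law. -/
def Z0 (h : ℝ) : ℝ := ∫ z : P, Real.exp (-(sq z - 1) ^ 2 / (2 * h))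

/-- The two components of an affine map as an element of `P × P`. -/
def mk2 (p : (ℝ × ℝ) × (ℝ × ℝ)) : P × P := ((p.1.1, p.2.1), (p.1.2, p.2.2))

end

end Pool.Agent.MP4eed4eR
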