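import Pool.Agent.Lib.MP_4eed4e_an_R.Base2

/-!
MP_4eed4e_an, project R: definitions for the static identities (block D) and for blocks E, F.
-/

namespace Pool.Agent.MP4eed4eR

open MeasureTheory Set Filter Topology Metric
open scoped ComplexConjugate ContDiff

noncomputable section

variable {D : Set P}

/-- The Laplacian of a real valued function. -/
def lap (η : P → ℝ) (q : P) : ℝ := d1 (d1 η) q + d2 (d2 η) q

/-- Smooth functions, bounded with their first derivatives and their Laplacian. -/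
structure Cut (η : P → ℝ) : Prop where
  smooth : ContDiff ℝ ∞ η
  bdd : ∃ C, ∀ q, |η q| ≤ C ∧ |d1 η q| ≤ C ∧ |d2 η q| ≤ C ∧ |lap η q| ≤ C

/-- `u ∈ H¹₀(D)` with gradient `(u₁, u₂)` and `-Δu = f ∈ L²` in the weak sense. -/
structure Dom (D : Set P) (u u₁ u₂ f : P → ℝ) : Prop where
  h10 : H10 D u u₁ u₂
  mem : MemLp f 2 volume
  weak : ∀ φ, Test D φ → ∫ q, (u₁ q * d1 φ q + u₂ q * d2 φ q) = ∫ q, f q * φ q

/-- The quadratic form of the window. -/
def Spec.gq (S : Spec D) (h : ℝ) (f : HD D) : ℝ := ∑' k, gk S.lam h k * ‖S.co k f‖ ^ 2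

/-- The phase space neighbourhood of the vertex `V`. -/
def Geo.N (G : Geo D) (δ : ℝ) (V : P) : Set (P × P) :=
  {y | y.1 ∈ G.Y δ ∧ dist y.1 V < th δ ∧ |sq y.2 - 1| ≤ th δ}

/-- The energy window. -/
def Win (δ : ℝ) : Set P := {ξ | |sq ξ - 1| ≤ th δ}

end

end Pool.Agent.MP4eed4eR
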