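import Pool.Agent.Lib.MP_4eed4e_an_R.Base

/-!
MP_4eed4e_an, project R, block C, module C01: scales and negligible quantities.
-/

namespace Pool.Agent.MP4eed4eR

open MeasureTheory Set Filter Topology Metric

noncomputable section

variable {D : Set P}

theorem C.ev_lt {c : ℝ} (hc : 0 < c) : ∀ᶠ δ in 𝓝[>] (0 : ℝ), 0 < δ ∧ δ < c := by
  filter_upwards [eventually_mem_nhdsWithin,
    eventually_nhdsWithin_of_eventually_nhds (eventually_lt_nhds hc)] with δ h1 h2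
  exact ⟨h1, h2⟩

theorem C.ev_pow {c : ℝ} (hc : 0 < c) {m : ℕ} (hm : 0 < m) :
    ∀ᶠ δ in 𝓝[>] (0 : ℝ), δ ^ m ≤ c := by
  have h : Tendsto (fun δ : ℝ => δ ^ m) (𝓝 0) (𝓝 (0 ^ m)) := (continuous_pow m).tendsto 0
  rw [zero_pow hm.ne'] at h
  exact eventually_nhdsWithin_of_eventually_nhds
    ((h.eventually (eventually_le_nhds hc)))

theorem C.hh_pos {δ : ℝ} (h : 0 < δ) : 0 < hh δ := by
  exact pow_pos h _

theorem C.th_pos {δ : ℝ} (h : 0 < δ) : 0 < th δ := by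
  exact pow_pos h _

theorem C.rad_pos {δ : ℝ} (h : 0 < δ) : 0 < rad δ := by
  unfold rad
  have := C.th_pos h
  positivity

theorem C.tau_pos {δ : ℝ} (h : 0 < δ) : 0 < tau δ := by
  unfold tau
  have := C.th_pos h
  positivity

theorem C.kap_pos {δ : ℝ} (h : 0 < δ) : 0 < kap δ := by
  exact pow_pos h _

theorem C.sqrt_hh {δ : ℝ} (h : 0 < δ) : Real.sqrt (hh δ) = sh δ := by
  have : hh δ = sh δ ^ 2 := by unfold hh sh; ring
  rw [this]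
  exact Real.sqrt_sq (pow_pos h _).le

/-- `r ^ 2 / h = δ ^ (-4) / 4096`. -/
theorem C.rad_sq {δ : ℝ} (h : 0 < δ) : rad δ ^ 2 / hh δ = 1 / (4096 * δ ^ 4) := by
  unfold rad th hh
  have : δ ≠ 0 := h.ne'
  field_simp
  ring

theorem C.kap_sq {δ : ℝ} (h : 0 < δ) : kap δ ^ 2 / hh δ = 1 / δ ^ 2 := by
  unfold kap hh
  have : δ ≠ 0 := h.ne'
  field_simp

/-- `th δ / 64 = rad δ`, `tau δ * 2 = rad δ / 8`. -/
theorem C.tau_rad (δ : ℝ) : 2 * tau δ = rad δ / 8 ∧ th δ / 4 = 16 * rad δ ∧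
    th δ / 32 = 2 * rad δ := by
  unfold tau rad
  refine ⟨?_, ?_, ?_⟩ <;> ring

theorem C.ev_geo (G : Geo D) : ∀ᶠ δ in 𝓝[>] (0 : ℝ), 0 < δ ∧ δ ≤ 1 / 2 ∧
    th δ / 4 ≤ 4 * G.rho0 ∧ th δ ≤ G.rho0 := by
  have hr := G.pos
  filter_upwards [C.ev_lt (show (0 : ℝ) < 1 / 2 by norm_num),
    C.ev_pow hr (show 0 < 38 by norm_num)] with δ h1 h2
  have h3 : th δ ≤ G.rho0 := h2
  refine ⟨h1.1, h1.2.le, by linarith, h3⟩

/-- Proof: with `u = δ⁻¹ ≥ 1` the inequality is `K u ^ (m + N) exp (-c u ^ 2) ≤ 1`, and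
`u ^ (m + N) ≤ (u ^ 2) ^ (m + N)`; use `Real.tendsto_pow_mul_exp_neg_atTop_nhds_zero` for
`x = c u ^ 2`. -/
theorem C.neg_exp {c : ℝ} (hc : 0 < c) (K : ℝ) (m N : ℕ) :
    ∀ᶠ δ in 𝓝[>] (0 : ℝ), K * (δ⁻¹) ^ m * Real.exp (-(c / δ ^ 2)) ≤ δ ^ N := by
  have h1 : Tendsto (fun δ : ℝ => c / δ ^ 2) (𝓝[>] 0) atTop := by
    refine Tendsto.const_mul_atTop hc ?_ |>.congr (fun δ => (div_eq_mul_inv c (δ ^ 2)).symm)
    have h0 : Tendsto (fun δ : ℝ => δ⁻¹ ^ 2) (𝓝[>] 0) atTop :=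
      (tendsto_pow_atTop (two_ne_zero)).comp tendsto_inv_nhdsGT_zero
    exact h0.congr (fun δ => inv_pow δ 2)
  have h2 := (Real.tendsto_pow_mul_exp_neg_atTop_nhds_zero (m + N)).comp h1
  have hK : (0 : ℝ) < c ^ (m + N) / (|K| + 1) := by positivity
  filter_upwards [h2.eventually (eventually_lt_nhds hK),
    C.ev_lt (show (0 : ℝ) < 1 by norm_num)] with δ h3 h4
  obtain ⟨hδ, hδ1⟩ := h4
  simp only [Function.comp] at h3
  have e1 : (c / δ ^ 2) ^ (m + N) = c ^ (m + N) * (δ⁻¹ ^ 2) ^ (m + N) := by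
    rw [div_eq_mul_inv, mul_pow, inv_pow, inv_pow, inv_pow]
  rw [e1, mul_assoc, lt_div_iff₀ (by positivity)] at h3
  have hcp : 0 < c ^ (m + N) := by positivity
  have h5 : (δ⁻¹ ^ 2) ^ (m + N) * Real.exp (-(c / δ ^ 2)) * (|K| + 1) < 1 := by
    by_contra hcon
    push Not at hcon
    nlinarith [mul_le_mul_of_nonneg_left hcon hcp.le]
  have hu : 1 ≤ δ⁻¹ := (one_le_inv₀ hδ).2 hδ1.le
  have h6 : δ⁻¹ ^ (m + N) ≤ (δ⁻¹ ^ 2) ^ (m + N) := by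
    refine pow_le_pow_left₀ (by positivity) ?_ _
    nlinarith
  have h7 : K * δ⁻¹ ^ (m + N) * Real.exp (-(c / δ ^ 2)) ≤ 1 := by
    calc K * δ⁻¹ ^ (m + N) * Real.exp (-(c / δ ^ 2)) ≤
          (|K| + 1) * (δ⁻¹ ^ 2) ^ (m + N) * Real.exp (-(c / δ ^ 2)) := by
          gcongr
          have := le_abs_self K
          linarith
      _ = (δ⁻¹ ^ 2) ^ (m + N) * Real.exp (-(c / δ ^ 2)) * (|K| + 1) := by ring
      _ ≤ 1 := h5.le
  have h8 : K * δ⁻¹ ^ m * Real.exp (-(c / δ ^ 2)) =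
      (K * δ⁻¹ ^ (m + N) * Real.exp (-(c / δ ^ 2))) * δ ^ N := by
    rw [pow_add]
    have : δ⁻¹ ^ N * δ ^ N = 1 := by
      rw [← mul_pow, inv_mul_cancel₀ hδ.ne', one_pow]
    calc K * δ⁻¹ ^ m * Real.exp (-(c / δ ^ 2)) =
          K * δ⁻¹ ^ m * Real.exp (-(c / δ ^ 2)) * (δ⁻¹ ^ N * δ ^ N) := by rw [this, mul_one]
      _ = _ := by ring
  rw [h8]
  have : 0 ≤ δ ^ N := by positivity
  nlinarith

/-- Proof: `c / δ ^ 2 ≤ c / δ ^ 4` for `δ ≤ 1` and `neg_exp` for `max K 0`. -/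
theorem C.neg_exp4 {c : ℝ} (hc : 0 < c) (K : ℝ) (m N : ℕ) :
    ∀ᶠ δ in 𝓝[>] (0 : ℝ), K * (δ⁻¹) ^ m * Real.exp (-(c / δ ^ 4)) ≤ δ ^ N := by
  filter_upwards [C.neg_exp hc (max K 0) m N,
    C.ev_lt (show (0 : ℝ) < 1 by norm_num)] with δ h1 h2
  obtain ⟨hδ, hδ1⟩ := h2
  refine le_trans ?_ h1
  have h3 : c / δ ^ 2 ≤ c / δ ^ 4 := by
    refine div_le_div_of_nonneg_left hc.le (by positivity) ?_
    exact pow_le_pow_of_le_one hδ.le hδ1.le (by norm_num)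
  have hK : K ≤ max K 0 := le_max_left _ _
  have hK0 : 0 ≤ max K 0 := le_max_right _ _
  gcongr

end

end Pool.Agent.MP4eed4eR
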