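import Pool.Agent.Lib.MP_4eed4e_an_R.Base

/-!
MP_4eed4e_an, project R, block C, module C02: the cutoff functions.
-/

namespace Pool.Agent.MP4eed4eR

open MeasureTheory Set Filter Topology Metric
open scoped ContDiff

noncomputable section

theorem C.chi_nonneg (y : ℝ) : 0 ≤ chi y := Real.smoothTransition.nonneg _

theorem C.chi_le_one (y : ℝ) : chi y ≤ 1 := Real.smoothTransition.le_one _

theorem C.chi_neg (y : ℝ) : chi (-y) = chi y := by
  unfold chi
  rw [abs_neg]

theorem C.chi_eq_one {y : ℝ} (h : |y| ≤ 1) : chi y = 1 :=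
  Real.smoothTransition.one_of_one_le (by linarith)

theorem C.chi_eq_zero {y : ℝ} (h : 2 ≤ |y|) : chi y = 0 :=
  Real.smoothTransition.zero_of_nonpos (by linarith)

private theorem C02_near_one {y : ℝ} (h : |y| < 1) : chi =ᶠ[𝓝 y] fun _ => (1 : ℝ) := by
  filter_upwards [(isOpen_lt continuous_abs continuous_const).mem_nhds h] with z hz
  exact C.chi_eq_one (le_of_lt hz)

private theorem C02_near_zero {y : ℝ} (h : 2 < |y|) : chi =ᶠ[𝓝 y] fun _ => (0 : ℝ) := by
  filter_upwards [(isOpen_lt continuous_const continuous_abs).mem_nhds h] with z hz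
  exact C.chi_eq_zero (le_of_lt hz)

/-- Proof: near `0` the function is constant, elsewhere `|y|` is smooth (`contDiffAt_abs`). -/
theorem C.contDiff_chi : ContDiff ℝ ∞ chi := by
  rw [contDiff_iff_contDiffAt]
  intro y
  by_cases h : |y| < 1
  · exact contDiffAt_const.congr_of_eventuallyEq (C02_near_one h)
  · have hy : y ≠ 0 := by
      rintro rfl
      rw [abs_zero] at h
      exact h one_pos
    have h1 : ContDiffAt ℝ ∞ (fun z : ℝ => 2 - |z|) y :=
      contDiffAt_const.sub (contDiffAt_abs hy)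
    exact (Real.smoothTransition.contDiffAt (n := (⊤ : ℕ∞))).comp y h1

/-- The derivatives vanish off `1 ≤ |y| ≤ 2`, where `chi` is locally constant. -/
theorem C.chi_deriv_zero {n : ℕ} (hn : 0 < n) {y : ℝ} (h : |y| < 1 ∨ 2 < |y|) :
    iteratedDeriv n chi y = 0 := by
  rcases h with h | h
  · rw [(C02_near_one h).iteratedDeriv_eq, iteratedDeriv_const, if_neg hn.ne']
  · rw [(C02_near_zero h).iteratedDeriv_eq, iteratedDeriv_const, if_neg hn.ne']

/-- Continuous functions which vanish off `[-2, 2]` are bounded. -/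
theorem C.chi_deriv_bdd (n : ℕ) : ∃ C : ℝ, 0 ≤ C ∧ ∀ y, |iteratedDeriv n chi y| ≤ C := by
  rcases Nat.eq_zero_or_pos n with rfl | hn
  · refine ⟨1, zero_le_one, fun y => ?_⟩
    rw [iteratedDeriv_zero, abs_of_nonneg (C.chi_nonneg y)]
    exact C.chi_le_one y
  · have h1 : Continuous (iteratedDeriv n chi) :=
      C.contDiff_chi.continuous_iteratedDeriv n (by exact_mod_cast le_top)
    obtain ⟨K, hK⟩ := isCompact_Icc.exists_bound_of_continuousOn
      (h1.continuousOn (s := Icc (-2 : ℝ) 2))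
    refine ⟨max K 0, le_max_right _ _, fun y => ?_⟩
    by_cases hy : |y| ≤ 2
    · exact (hK y (abs_le.1 hy)).trans (le_max_left _ _)
    · rw [C.chi_deriv_zero hn (Or.inr (not_le.1 hy)), abs_zero]
      exact le_max_right _ _

theorem C.chir_nonneg (r : ℝ) (y : P) : 0 ≤ chir r y :=
  mul_nonneg (C.chi_nonneg _) (C.chi_nonneg _)

theorem C.chir_le_one (r : ℝ) (y : P) : chir r y ≤ 1 :=
  mul_le_one₀ (C.chi_le_one _) (C.chi_nonneg _) (C.chi_le_one _)

theorem C.chir_even (r : ℝ) (y : P) :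
    chir r (-y.1, y.2) = chir r y ∧ chir r (y.1, -y.2) = chir r y := by
  unfold chir
  simp only [neg_div, C.chi_neg, and_self]

theorem C.chir_eq_one {r : ℝ} (hr : 0 < r) {y : P} (h : ‖y‖ ≤ r) : chir r y = 1 := by
  have h1 : |y.1 / r| ≤ 1 := by
    rw [abs_div, abs_of_pos hr, div_le_one hr]
    exact (norm_fst_le y).trans h
  have h2 : |y.2 / r| ≤ 1 := by
    rw [abs_div, abs_of_pos hr, div_le_one hr]
    exact (norm_snd_le y).trans h
  unfold chir
  rw [C.chi_eq_one h1, C.chi_eq_one h2, one_mul]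

theorem C.chir_eq_zero {r : ℝ} (hr : 0 < r) {y : P} (h : 2 * r ≤ ‖y‖) : chir r y = 0 := by
  unfold chir
  rw [Prod.norm_def, le_max_iff] at h
  rcases h with h | h
  · rw [C.chi_eq_zero (y := y.1 / r), zero_mul]
    rw [abs_div, abs_of_pos hr, le_div_iff₀ hr]
    exact h
  · rw [C.chi_eq_zero (y := y.2 / r), mul_zero]
    rw [abs_div, abs_of_pos hr, le_div_iff₀ hr]
    exact h

theorem C.contDiff_chir (r : ℝ) : ContDiff ℝ ∞ (chir r) :=
  (C.contDiff_chi.comp (contDiff_fst.div_const r)).mul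
    (C.contDiff_chi.comp (contDiff_snd.div_const r))

end

end Pool.Agent.MP4eed4eR
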