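import Pool.Agent.Lib.MP_4eed4e_an_R.Base

/-!
MP_4eed4e_an, project R, block C, module C03: Gaussian integrals in the plane.
-/

namespace Pool.Agent.MP4eed4eR

open MeasureTheory Set Filter Topology Metric

noncomputable section

/-- The complex Gaussian integral in the plane.

Proof: the integrand is the product of `exp (-b u₁ ^ 2 + c₁ u₁)` and `exp (-b u₂ ^ 2 + c₂ u₂ + d)`
(`MeasureTheory.integral_prod_mul`, `Integrable.mul_prod`); one dimensional integrals:
`integral_cexp_quadratic` (and the integrability lemma next to it,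
`integrable_cexp_quadratic`); `(π / b) ^ (1 / 2) * (π / b) ^ (1 / 2) = π / b`
(`Complex.cpow_add`, `π / b ≠ 0`). -/
theorem C.gauss_int {b : ℂ} (hb : 0 < b.re) (c₁ c₂ d : ℂ) :
    Integrable (fun u : P => Complex.exp (-b * (sq u : ℝ) + c₁ * u.1 + c₂ * u.2 + d)) ∧
    ∫ u : P, Complex.exp (-b * (sq u : ℝ) + c₁ * u.1 + c₂ * u.2 + d) =
      (Real.pi / b) * Complex.exp ((c₁ ^ 2 + c₂ ^ 2) / (4 * b) + d) := by
  have e : (fun u : P => Complex.exp (-b * (sq u : ℝ) + c₁ * u.1 + c₂ * u.2 + d)) =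
      fun u : P => (fun x : ℝ => Complex.exp (-b * x ^ 2 + c₁ * x + 0)) u.1 *
        (fun x : ℝ => Complex.exp (-b * x ^ 2 + c₂ * x + d)) u.2 := by
    funext u
    rw [← Complex.exp_add]
    congr 1
    unfold sq
    push_cast
    ring
  have hb' : (-b).re < 0 := by simpa using hb
  have hb0 : b ≠ 0 := by
    rintro rfl
    simp at hb
  have hpi : (Real.pi : ℂ) / b ≠ 0 :=
    div_ne_zero (Complex.ofReal_ne_zero.2 Real.pi_ne_zero) hb0
  rw [e, Measure.volume_eq_prod]
  refine ⟨(integrable_cexp_quadratic hb c₁ 0).mul_prod (integrable_cexp_quadratic hb c₂ d), ?_⟩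
  refine (integral_prod_mul (fun x : ℝ => Complex.exp (-b * x ^ 2 + c₁ * x + 0))
    (fun x : ℝ => Complex.exp (-b * x ^ 2 + c₂ * x + d))).trans ?_
  rw [integral_cexp_quadratic hb', integral_cexp_quadratic hb', neg_neg]
  have h1 : ((Real.pi : ℂ) / b) ^ (1 / 2 : ℂ) * ((Real.pi : ℂ) / b) ^ (1 / 2 : ℂ) =
      Real.pi / b := by
    rw [← Complex.cpow_add _ _ hpi]
    norm_num
  calc ((Real.pi : ℂ) / b) ^ (1 / 2 : ℂ) * Complex.exp (0 - c₁ ^ 2 / (4 * -b)) *
        (((Real.pi : ℂ) / b) ^ (1 / 2 : ℂ) * Complex.exp (d - c₂ ^ 2 / (4 * -b))) =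
      (((Real.pi : ℂ) / b) ^ (1 / 2 : ℂ) * ((Real.pi : ℂ) / b) ^ (1 / 2 : ℂ)) *
        Complex.exp ((0 - c₁ ^ 2 / (4 * -b)) + (d - c₂ ^ 2 / (4 * -b))) := by
        rw [Complex.exp_add]
        ring
    _ = _ := by
        rw [h1]
        congr 2
        field_simp
        ring

theorem C.gauss_real {a : ℝ} (ha : 0 < a) :
    Integrable (fun u : P => Real.exp (-(a * sq u))) ∧
      ∫ u : P, Real.exp (-(a * sq u)) = Real.pi / a := by
  have e : (fun u : P => Real.exp (-(a * sq u))) =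
      fun u : P => (fun x : ℝ => Real.exp (-a * x ^ 2)) u.1 *
        (fun x : ℝ => Real.exp (-a * x ^ 2)) u.2 := by
    funext u
    rw [← Real.exp_add]
    congr 1
    unfold sq
    ring
  rw [e, Measure.volume_eq_prod]
  refine ⟨(integrable_exp_neg_mul_sq ha).mul_prod (integrable_exp_neg_mul_sq ha), ?_⟩
  refine (integral_prod_mul (fun x : ℝ => Real.exp (-a * x ^ 2))
    (fun x : ℝ => Real.exp (-a * x ^ 2))).trans ?_
  rw [integral_gaussian]
  exact Real.mul_self_sqrt (by positivity)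

theorem C.gauss_shift {a : ℝ} (ha : 0 < a) (x : P) :
    Integrable (fun u : P => Real.exp (-(a * sq (u - x)))) ∧
      ∫ u : P, Real.exp (-(a * sq (u - x))) = Real.pi / a := by
  obtain ⟨h1, h2⟩ := C.gauss_real ha
  refine ⟨h1.comp_sub_right x, ?_⟩
  rw [← h2]
  exact integral_sub_right_eq_self (fun u : P => Real.exp (-(a * sq u))) x

/-- The square of the distance (sup norm) is at most `sq`. -/
theorem C.dist_sq_le (u x : P) : dist u x ^ 2 ≤ sq (u - x) := by
  rw [Prod.dist_eq, Real.dist_eq, Real.dist_eq]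
  unfold sq
  rw [Prod.fst_sub, Prod.snd_sub]
  rcases max_choice |u.1 - x.1| |u.2 - x.2| with h | h
  · rw [h, sq_abs]
    nlinarith [sq_nonneg (u.2 - x.2)]
  · rw [h, sq_abs]
    nlinarith [sq_nonneg (u.1 - x.1)]

theorem C.sq_le_dist (u x : P) : sq (u - x) ≤ 2 * dist u x ^ 2 := by
  rw [Prod.dist_eq, Real.dist_eq, Real.dist_eq]
  unfold sq
  rw [Prod.fst_sub, Prod.snd_sub]
  have h1 : (u.1 - x.1) ^ 2 ≤ max |u.1 - x.1| |u.2 - x.2| ^ 2 := by
    rw [← sq_abs (u.1 - x.1)]
    exact pow_le_pow_left₀ (abs_nonneg _) (le_max_left _ _) 2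
  have h2 : (u.2 - x.2) ^ 2 ≤ max |u.1 - x.1| |u.2 - x.2| ^ 2 := by
    rw [← sq_abs (u.2 - x.2)]
    exact pow_le_pow_left₀ (abs_nonneg _) (le_max_right _ _) 2
  linarith

private theorem c03_sq_nonneg (u : P) : 0 ≤ sq u := by
  unfold sq
  positivity

private theorem c03_cont : Continuous (sq : P → ℝ) := by
  unfold sq
  fun_prop

/-- The tail. Proof: on `{r ≤ dist u x}` we have
`exp (-a sq) ≤ exp (-a r ^ 2 / 2) exp (-(a / 2) sq)`. -/
theorem C.gauss_tail {a r : ℝ} (ha : 0 < a) (hr : 0 ≤ r) (x : P) :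
    ∫ u in {u : P | r ≤ dist u x}, Real.exp (-(a * sq (u - x))) ≤
      2 * Real.pi / a * Real.exp (-(a * r ^ 2 / 2)) := by
  obtain ⟨h1, -⟩ := C.gauss_shift ha x
  obtain ⟨h2, h3⟩ := C.gauss_shift (half_pos ha) x
  have hm : MeasurableSet {u : P | r ≤ dist u x} :=
    measurableSet_le measurable_const (continuous_id.dist continuous_const).measurable
  have h4 : ∀ u ∈ {u : P | r ≤ dist u x}, Real.exp (-(a * sq (u - x))) ≤
      Real.exp (-(a * r ^ 2 / 2)) * Real.exp (-(a / 2 * sq (u - x))) := by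
    intro u hu
    rw [← Real.exp_add]
    refine Real.exp_le_exp.2 ?_
    have h5 : r ^ 2 ≤ sq (u - x) :=
      (pow_le_pow_left₀ hr hu 2).trans (C.dist_sq_le u x)
    nlinarith
  have h5 := setIntegral_mono_on h1.integrableOn
    (h2.const_mul (Real.exp (-(a * r ^ 2 / 2)))).integrableOn hm h4
  refine h5.trans ((setIntegral_le_integral (h2.const_mul _)
    (Eventually.of_forall fun u => by positivity)).trans ?_)
  rw [integral_const_mul, h3]
  refine le_of_eq ?_
  field_simp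

/-- Proof: `a sq / 2 ≤ exp (a sq / 2)`. -/
theorem C.gauss_mom {a : ℝ} (ha : 0 < a) :
    Integrable (fun u : P => sq u * Real.exp (-(a * sq u))) ∧
      ∫ u : P, sq u * Real.exp (-(a * sq u)) ≤ 4 * Real.pi / a ^ 2 := by
  obtain ⟨h2, h3⟩ := C.gauss_real (half_pos ha)
  have h4 : ∀ u : P, sq u * Real.exp (-(a * sq u)) ≤ 2 / a * Real.exp (-(a / 2 * sq u)) := by
    intro u
    have h5 : a / 2 * sq u ≤ Real.exp (a / 2 * sq u) := by
      linarith [Real.add_one_le_exp (a / 2 * sq u)]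
    have h6 : Real.exp (-(a * sq u)) =
        Real.exp (-(a / 2 * sq u)) * Real.exp (-(a / 2 * sq u)) := by
      rw [← Real.exp_add]
      congr 1
      ring
    have h7 : Real.exp (a / 2 * sq u) * Real.exp (-(a / 2 * sq u)) = 1 := by
      rw [← Real.exp_add, add_neg_cancel, Real.exp_zero]
    have h8 : a / 2 * sq u * Real.exp (-(a / 2 * sq u)) ≤ 1 := by
      rw [← h7]
      exact mul_le_mul_of_nonneg_right h5 (Real.exp_pos _).le
    have h9 : sq u * Real.exp (-(a / 2 * sq u)) ≤ 2 / a := by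
      rw [le_div_iff₀ ha]
      nlinarith
    rw [h6, ← mul_assoc]
    exact mul_le_mul_of_nonneg_right h9 (Real.exp_pos _).le
  have hc : Continuous fun u : P => sq u * Real.exp (-(a * sq u)) := by
    have := c03_cont
    fun_prop
  have h5 : Integrable (fun u : P => sq u * Real.exp (-(a * sq u))) := by
    refine Integrable.mono' (h2.const_mul (2 / a)) hc.aestronglyMeasurable
      (Eventually.of_forall fun u => ?_)
    rw [Real.norm_of_nonneg (mul_nonneg (c03_sq_nonneg u) (Real.exp_pos _).le)]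
    exact h4 u
  refine ⟨h5, (integral_mono h5 (h2.const_mul (2 / a)) h4).trans (le_of_eq ?_)⟩
  rw [integral_const_mul, h3]
  field_simp
  norm_num

/-- Proof: `(a sq / 2) ^ 2 ≤ 2 exp (a sq / 2)`. -/
theorem C.gauss_mom2 {a : ℝ} (ha : 0 < a) :
    Integrable (fun u : P => sq u ^ 2 * Real.exp (-(a * sq u))) ∧
      ∫ u : P, sq u ^ 2 * Real.exp (-(a * sq u)) ≤ 16 * Real.pi / a ^ 3 := by
  obtain ⟨h2, h3⟩ := C.gauss_real (half_pos ha)
  have h4 : ∀ u : P, sq u ^ 2 * Real.exp (-(a * sq u)) ≤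
      8 / a ^ 2 * Real.exp (-(a / 2 * sq u)) := by
    intro u
    have h0 : 0 ≤ a / 2 * sq u := mul_nonneg (half_pos ha).le (c03_sq_nonneg u)
    have h5 : (a / 2 * sq u) ^ 2 / 2 ≤ Real.exp (a / 2 * sq u) := by
      linarith [Real.quadratic_le_exp_of_nonneg h0]
    have h6 : Real.exp (-(a * sq u)) =
        Real.exp (-(a / 2 * sq u)) * Real.exp (-(a / 2 * sq u)) := by
      rw [← Real.exp_add]
      congr 1
      ring
    have h7 : Real.exp (a / 2 * sq u) * Real.exp (-(a / 2 * sq u)) = 1 := by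
      rw [← Real.exp_add, add_neg_cancel, Real.exp_zero]
    have h8 : (a / 2 * sq u) ^ 2 / 2 * Real.exp (-(a / 2 * sq u)) ≤ 1 := by
      rw [← h7]
      exact mul_le_mul_of_nonneg_right h5 (Real.exp_pos _).le
    have h9 : sq u ^ 2 * Real.exp (-(a / 2 * sq u)) ≤ 8 / a ^ 2 := by
      rw [le_div_iff₀ (by positivity)]
      nlinarith
    rw [h6, ← mul_assoc]
    exact mul_le_mul_of_nonneg_right h9 (Real.exp_pos _).le
  have hc : Continuous fun u : P => sq u ^ 2 * Real.exp (-(a * sq u)) := by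
    have := c03_cont
    fun_prop
  have h5 : Integrable (fun u : P => sq u ^ 2 * Real.exp (-(a * sq u))) := by
    refine Integrable.mono' (h2.const_mul (8 / a ^ 2)) hc.aestronglyMeasurable
      (Eventually.of_forall fun u => ?_)
    rw [Real.norm_of_nonneg (mul_nonneg (sq_nonneg _) (Real.exp_pos _).le)]
    exact h4 u
  refine ⟨h5, (integral_mono h5 (h2.const_mul (8 / a ^ 2)) h4).trans (le_of_eq ?_)⟩
  rw [integral_const_mul, h3]
  field_simp
  norm_num

end

end Pool.Agent.MP4eed4eR
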