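import Pool.Agent.Lib.MP_4eed4e_an_R.C03

/-!
MP_4eed4e_an, project R, block C, module C04: the parameter `beta` and the size of the packets.
-/

namespace Pool.Agent.MP4eed4eR

open MeasureTheory Set Filter Topology Metric
open scoped ContDiff

noncomputable section

private theorem C04_normSq (s : ℝ) : Complex.normSq (1 + s * Complex.I) = 1 + s ^ 2 := by
  rw [Complex.normSq_apply]
  simp
  ring

private theorem C04_ne (s : ℝ) : (1 + s * Complex.I : ℂ) ≠ 0 := by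
  intro h
  have h1 := C04_normSq s
  rw [h, map_zero] at h1
  nlinarith [sq_nonneg s]

theorem C.beta_re (s : ℝ) : (beta s).re = (1 + s ^ 2)⁻¹ := by
  unfold beta
  rw [one_div, Complex.inv_re, C04_normSq]
  simp [div_eq_mul_inv]

theorem C.beta_sq (s : ℝ) : ‖beta s‖ ^ 2 = (1 + s ^ 2)⁻¹ := by
  unfold beta
  rw [norm_div, norm_one, div_pow, one_pow, Complex.sq_norm, C04_normSq, one_div]

theorem C.beta_le (s : ℝ) : ‖beta s‖ ≤ 1 := by
  have h1 := C.beta_sq s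
  have h2 : (1 + s ^ 2)⁻¹ ≤ 1 := inv_le_one_of_one_le₀ (by nlinarith [sq_nonneg s])
  have h3 := norm_nonneg (beta s)
  by_contra h
  push Not at h
  nlinarith

theorem C.beta_zero : beta 0 = 1 := by
  simp [beta]

theorem C.hasDerivAt_beta (s : ℝ) : HasDerivAt beta (-Complex.I * beta s ^ 2) s := by
  have h1 : HasDerivAt (fun x : ℝ => (1 + x * Complex.I : ℂ)) Complex.I s := by
    have h := ((Complex.ofRealCLM.hasDerivAt (x := s)).mul_const Complex.I).const_add 1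
    simpa using h
  have h2 := h1.inv (C04_ne s)
  have e : beta = fun x : ℝ => ((1 + x * Complex.I : ℂ))⁻¹ := by
    funext x
    unfold beta
    rw [one_div]
  rw [e]
  refine h2.congr_deriv ?_
  rw [div_eq_mul_inv, inv_pow]

theorem C.contDiff_beta : ContDiff ℝ ∞ beta := by
  have e : beta = fun x : ℝ => ((1 + x * Complex.I : ℂ))⁻¹ := by
    funext x
    unfold beta
    rw [one_div]
  rw [e]
  refine ContDiff.inv ?_ C04_ne
  exact contDiff_const.add (Complex.ofRealCLM.contDiff.mul contDiff_const)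

theorem C.norm_psi (h : ℝ) (x ξ : P) (s : ℝ) (y : P) :
    ‖psi h x ξ s y‖ = (1 / Real.sqrt (Real.pi * h)) * ‖beta s‖ *
      Real.exp (-((1 + s ^ 2)⁻¹ * sq (y - x) / (2 * h))) := by
  unfold psi
  rw [norm_mul, norm_mul, Complex.norm_real, Complex.norm_exp, Real.norm_eq_abs,
    abs_of_nonneg (by positivity : 0 ≤ 1 / Real.sqrt (Real.pi * h))]
  congr 2
  have e1 : -beta s * ((sq (y - x) : ℝ) : ℂ) / ((2 * h : ℝ) : ℂ) =
      -beta s * ((sq (y - x) / (2 * h) : ℝ) : ℂ) := by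
    push_cast
    ring
  rw [Complex.add_re, e1, Complex.re_mul_ofReal, Complex.neg_re, C.beta_re]
  rw [show ((dot ξ (y - x) / h : ℝ) : ℂ) * Complex.I = Complex.I * ((dot ξ (y - x) / h : ℝ) : ℂ)
    from mul_comm _ _, Complex.re_mul_ofReal, Complex.I_re]
  ring

theorem C.norm_psi_sq {h : ℝ} (hh0 : 0 < h) (x ξ : P) (s : ℝ) (y : P) :
    ‖psi h x ξ s y‖ ^ 2 = (Real.pi * h)⁻¹ * (1 + s ^ 2)⁻¹ *
      Real.exp (-((h * (1 + s ^ 2))⁻¹ * sq (y - x))) := by
  have h1 : 0 < Real.pi * h := mul_pos Real.pi_pos hh0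
  rw [C.norm_psi, mul_pow, mul_pow, C.beta_sq, div_pow, one_pow, Real.sq_sqrt h1.le, one_div,
    pow_two (Real.exp _), ← Real.exp_add]
  congr 2
  have h2 : (0 : ℝ) < 1 + s ^ 2 := by positivity
  field_simp
  ring

theorem C.continuous_psi (h : ℝ) (x ξ : P) (s : ℝ) : Continuous (psi h x ξ s) := by
  unfold psi sq dot
  fun_prop

private theorem C04_pos {h : ℝ} (hh0 : 0 < h) (s : ℝ) : 0 < (h * (1 + s ^ 2))⁻¹ := by
  positivity

theorem C.memLp_psi {h : ℝ} (hh0 : 0 < h) (x ξ : P) (s : ℝ) :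
    MemLp (psi h x ξ s) 2 volume := by
  rw [memLp_two_iff_integrable_sq_norm (C.continuous_psi h x ξ s).aestronglyMeasurable]
  simp only [C.norm_psi_sq hh0]
  exact ((C.gauss_shift (C04_pos hh0 s) x).1).const_mul _

theorem C.int_psi_sq {h : ℝ} (hh0 : 0 < h) (x ξ : P) (s : ℝ) :
    ∫ y, ‖psi h x ξ s y‖ ^ 2 = 1 := by
  simp only [C.norm_psi_sq hh0]
  rw [integral_const_mul, (C.gauss_shift (C04_pos hh0 s) x).2]
  have h1 := Real.pi_pos
  have h2 : (0 : ℝ) < 1 + s ^ 2 := by positivity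
  field_simp

/-- Proof: `gauss_tail` for `a = (h (1 + s ^ 2))⁻¹`. -/
theorem C.psi_tail {h r T : ℝ} (hh0 : 0 < h) (hr : 0 ≤ r) (x ξ : P) {s : ℝ} (hs : |s| ≤ T) :
    ∫ y in {y : P | r ≤ dist y x}, ‖psi h x ξ s y‖ ^ 2 ≤
      2 * Real.exp (-(r ^ 2 / (2 * h * (1 + T ^ 2)))) := by
  simp only [C.norm_psi_sq hh0]
  rw [integral_const_mul]
  have h0 := C.gauss_tail (C04_pos hh0 s) hr x
  have h1 := Real.pi_pos
  have h2 : (0 : ℝ) < 1 + s ^ 2 := by positivity
  have h3 : (0 : ℝ) ≤ (Real.pi * h)⁻¹ * (1 + s ^ 2)⁻¹ := by positivity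
  refine (mul_le_mul_of_nonneg_left h0 h3).trans ?_
  have e : (Real.pi * h)⁻¹ * (1 + s ^ 2)⁻¹ * (2 * Real.pi / (h * (1 + s ^ 2))⁻¹ *
      Real.exp (-((h * (1 + s ^ 2))⁻¹ * r ^ 2 / 2))) =
      2 * Real.exp (-((h * (1 + s ^ 2))⁻¹ * r ^ 2 / 2)) := by
    field_simp
  rw [e]
  refine mul_le_mul_of_nonneg_left (Real.exp_le_exp.2 (neg_le_neg ?_)) (by norm_num)
  have hsT : s ^ 2 ≤ T ^ 2 := by
    rw [← sq_abs s]
    exact pow_le_pow_left₀ (abs_nonneg s) hs 2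
  have e2 : (h * (1 + s ^ 2))⁻¹ * r ^ 2 / 2 = r ^ 2 / (2 * h * (1 + s ^ 2)) := by
    field_simp
  rw [e2]
  exact div_le_div_of_nonneg_left (sq_nonneg r) (by positivity)
    (mul_le_mul_of_nonneg_left (by linarith) (by positivity))

end

end Pool.Agent.MP4eed4eR
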