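import Pool.Agent.Lib.MP_4eed4e_an_R.BDefs
import Pool.Agent.Lib.MP_4eed4e_an_R.Base2
import Pool.Agent.Lib.MP_4eed4e_an_R.C01
import Pool.Agent.Lib.MP_4eed4e_an_R.C02
import Pool.Agent.Lib.MP_4eed4e_an_R.C04

/-!
MP_4eed4e_an, project R, block C, module C05: the envelopes of the packets.
-/

namespace Pool.Agent.MP4eed4eR

open MeasureTheory Set Filter Topology Metric

noncomputable section

variable {D : Set P}

theorem C.envc_eq (δ s : ℝ) (y : P) :
    envc δ s y = (chir (rad δ) y : ℂ) * psi (hh δ) 0 0 s y := by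
  unfold envc psi
  rw [sub_zero]
  have h1 : dot (0 : P) y = 0 := by
    unfold dot
    simp
  rw [h1, zero_div, Complex.ofReal_zero, zero_mul, add_zero]

theorem C.psic_eq (δ : ℝ) (x ξ : P) (s : ℝ) (y : P) :
    psic δ x ξ s y = envc δ s (y - x) * Complex.exp ((dot ξ (y - x) / hh δ : ℝ) * Complex.I) := by
  unfold psic envc psi
  rw [Complex.exp_add]
  ring

theorem pkt_eq_fam {G : Geo D} {ρ : ℝ} (W : Walls G ρ) (δ : ℝ) (x ξ : P) (s : ℝ) :
    W.pkt δ x ξ s = W.fam (-1) (-1) (envc δ s) (hh δ) x ξ := by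
  unfold Walls.pkt Walls.fam
  congr 1
  funext y
  exact C.psic_eq δ x ξ s y

theorem C.norm_psic_le (δ : ℝ) (x ξ : P) (s : ℝ) (y : P) :
    ‖psic δ x ξ s y‖ ≤ ‖psi (hh δ) x ξ s y‖ := by
  unfold psic
  rw [norm_mul, Complex.norm_real, Real.norm_of_nonneg (C.chir_nonneg _ _)]
  exact mul_le_of_le_one_left (norm_nonneg _) (C.chir_le_one _ _)

private theorem c05_norm_envc (δ s : ℝ) (y : P) :
    ‖envc δ s y‖ = chir (rad δ) y * ‖psi (hh δ) 0 0 s y‖ := by
  rw [C.envc_eq, norm_mul, Complex.norm_real, Real.norm_of_nonneg (C.chir_nonneg _ _)]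

private theorem c05_envc_le (δ s : ℝ) (y : P) : ‖envc δ s y‖ ≤ ‖psi (hh δ) 0 0 s y‖ := by
  rw [c05_norm_envc]
  exact mul_le_of_le_one_left (norm_nonneg _) (C.chir_le_one _ _)

private theorem c05_cont (δ s : ℝ) : Continuous (envc δ s) := by
  have e : envc δ s = fun y => (chir (rad δ) y : ℂ) * psi (hh δ) 0 0 s y := by
    funext y
    exact C.envc_eq δ s y
  rw [e]
  exact (Complex.continuous_ofReal.comp (C.contDiff_chir _).continuous).mul
    (C.continuous_psi _ _ _ _)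

/-- Proof: continuous (`contDiff_chir`, `continuous_psi`), bounded by `1 / √(π h)`
(`norm_psi`), and zero for `2 r < ‖y‖` (`chir_eq_zero`). -/
theorem env_envc {δ : ℝ} (hδ : 0 < δ) (s : ℝ) : Env (envc δ s) (2 * rad δ) := by
  refine ⟨(c05_cont δ s).measurable, ⟨1 / Real.sqrt (Real.pi * hh δ), fun y => ?_⟩,
    fun y hy => ?_⟩
  · refine (c05_envc_le δ s y).trans ?_
    rw [C.norm_psi]
    have h1 : 0 ≤ 1 / Real.sqrt (Real.pi * hh δ) := by positivity
    have h2 : 0 ≤ sq (y - 0) := by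
      unfold sq
      positivity
    have h3 : Real.exp (-((1 + s ^ 2)⁻¹ * sq (y - 0) / (2 * hh δ))) ≤ 1 := by
      rw [Real.exp_le_one_iff, neg_nonpos]
      have := C.hh_pos hδ
      positivity
    have h4 : 1 / Real.sqrt (Real.pi * hh δ) * ‖beta s‖ ≤ 1 / Real.sqrt (Real.pi * hh δ) :=
      mul_le_of_le_one_right h1 (C.beta_le s)
    exact (mul_le_of_le_one_right (mul_nonneg h1 (norm_nonneg _)) h3).trans h4
  · rw [C.envc_eq, C.chir_eq_zero (C.rad_pos hδ) hy.le]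
    simp

private theorem c05_int_psi {h : ℝ} (hh0 : 0 < h) (x ξ : P) (s : ℝ) :
    Integrable fun y => ‖psi h x ξ s y‖ ^ 2 :=
  (C.memLp_psi hh0 x ξ s).norm.integrable_sq

/-- Proof: `‖envc‖ ≤ ‖psi‖`, `int_psi_sq`. -/
theorem envc_norm_le {δ : ℝ} (hδ : 0 < δ) (s : ℝ) : ∫ y, ‖envc δ s y‖ ^ 2 ≤ 1 := by
  rw [← C.int_psi_sq (C.hh_pos hδ) 0 0 s]
  refine integral_mono_of_nonneg (Eventually.of_forall fun y => by positivity)
    (c05_int_psi (C.hh_pos hδ) 0 0 s) (Eventually.of_forall fun y => ?_)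
  exact pow_le_pow_left₀ (norm_nonneg _) (c05_envc_le δ s y) 2

theorem envc_even {δ : ℝ} (s : ℝ) (y : P) : ‖envc δ s (-y.1, y.2)‖ = ‖envc δ s y‖ ∧
    ‖envc δ s (y.1, -y.2)‖ = ‖envc δ s y‖ := by
  obtain ⟨h1, h2⟩ := C.chir_even (rad δ) y
  have h3 : sq (-y.1, y.2) = sq y := by
    unfold sq
    ring
  have h4 : sq (y.1, -y.2) = sq y := by
    unfold sq
    ring
  unfold envc
  rw [h1, h2, h3, h4]
  exact ⟨rfl, rfl⟩

theorem C.memLp_psic {δ : ℝ} (hδ : 0 < δ) (x ξ : P) (s : ℝ) :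
    MemLp (psic δ x ξ s) 2 volume := by
  refine MemLp.mono (C.memLp_psi (C.hh_pos hδ) x ξ s) ?_
    (Eventually.of_forall fun y => C.norm_psic_le δ x ξ s y)
  have h1 : Continuous fun y : P => (chir (rad δ) (y - x) : ℂ) :=
    Complex.continuous_ofReal.comp
      ((C.contDiff_chir _).continuous.comp (continuous_id.sub continuous_const))
  exact (h1.mul (C.continuous_psi _ _ _ _)).aestronglyMeasurable

theorem C.psic_zero {δ : ℝ} (hδ : 0 < δ) (x ξ : P) (s : ℝ) {y : P}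
    (hy : 2 * rad δ < dist y x) : psic δ x ξ s y = 0 := by
  rw [dist_eq_norm] at hy
  unfold psic
  rw [C.chir_eq_zero (C.rad_pos hδ) hy.le]
  simp

private theorem c05_cst {δ : ℝ} (hδ : 0 < δ) :
    1 - 2 * Real.exp (-(1 / 8192 / δ ^ 4)) ≤ cst δ := by
  have hp := C.hh_pos hδ
  have h1 := c05_int_psi hp 0 0 0
  have h2 : Integrable fun y => ‖envc δ 0 y‖ ^ 2 := by
    refine Integrable.mono' h1 ((c05_cont δ 0).norm.pow 2).aestronglyMeasurable
      (Eventually.of_forall fun y => ?_)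
    rw [Real.norm_of_nonneg (by positivity)]
    exact pow_le_pow_left₀ (norm_nonneg _) (c05_envc_le δ 0 y) 2
  have hS : MeasurableSet {y : P | rad δ ≤ dist y 0} :=
    measurableSet_le measurable_const (continuous_id.dist continuous_const).measurable
  have h3 : ∀ y : P, ‖psi (hh δ) 0 0 0 y‖ ^ 2 ≤ ‖envc δ 0 y‖ ^ 2 +
      {y : P | rad δ ≤ dist y 0}.indicator (fun y => ‖psi (hh δ) 0 0 0 y‖ ^ 2) y := by
    intro y
    by_cases hy : rad δ ≤ dist y 0
    · rw [indicator_of_mem (s := {y : P | rad δ ≤ dist y 0}) hy]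
      have : 0 ≤ ‖envc δ 0 y‖ ^ 2 := by positivity
      linarith
    · rw [indicator_of_notMem (s := {y : P | rad δ ≤ dist y 0}) hy, add_zero, c05_norm_envc]
      rw [dist_zero_right, not_le] at hy
      rw [C.chir_eq_one (C.rad_pos hδ) hy.le, one_mul]
  have h4 := integral_mono h1 (h2.add (h1.indicator hS)) h3
  rw [C.int_psi_sq hp] at h4
  have h5 : ∫ y : P, ((fun y => ‖envc δ 0 y‖ ^ 2) + {y : P | rad δ ≤ dist y 0}.indicator
      (fun y => ‖psi (hh δ) 0 0 0 y‖ ^ 2)) y = cst δ +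
      ∫ y in {y : P | rad δ ≤ dist y 0}, ‖psi (hh δ) 0 0 0 y‖ ^ 2 := by
    rw [← integral_indicator hS]
    exact integral_add h2 (h1.indicator hS)
  rw [h5] at h4
  have h6 := C.psi_tail hp (C.rad_pos hδ).le 0 0 (s := 0) (T := 0) (by simp)
  have h7 : rad δ ^ 2 / (2 * hh δ * (1 + 0 ^ 2)) = 1 / 8192 / δ ^ 4 := by
    have h8 := C.rad_sq hδ
    have h9 : rad δ ^ 2 / (2 * hh δ * (1 + 0 ^ 2)) = rad δ ^ 2 / hh δ / 2 := by
      field_simp
      ring
    rw [h9, h8]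
    field_simp
    norm_num
  rw [h7] at h6
  linarith

/-- Proof: `1 - cst = ∫ (1 - chir ^ 2) ‖psi (hh δ) 0 0 0‖ ^ 2`, the integrand vanishes for
`‖y‖ < r`, so by `psi_tail` (`T = 0`) it is at most `2 exp (-r ^ 2 / (2 h))`,
`r ^ 2 / h = 1 / (4096 δ ^ 4)` (`rad_sq`), and `neg_exp4`. -/
theorem cst_near : ∀ᶠ δ in 𝓝[>] (0 : ℝ), 1 - δ ^ 1000 ≤ cst δ ∧ cst δ ≤ 1 := by
  filter_upwards [C.neg_exp4 (c := 1 / 8192) (by norm_num) 2 0 1000,
    C.ev_lt (show (0 : ℝ) < 1 by norm_num)] with δ h1 h2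
  refine ⟨?_, envc_norm_le h2.1 0⟩
  rw [pow_zero, mul_one] at h1
  have h3 := c05_cst h2.1
  linarith

end

end Pool.Agent.MP4eed4eR
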