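import Pool.Agent.Lib.MP_4eed4e_an_R.B05
import Pool.Agent.Lib.MP_4eed4e_an_R.BDefs

/-!
MP_4eed4e_an, project R, block C, module C06: classes of functions and folded functions.
-/

namespace Pool.Agent.MP4eed4eR

open MeasureTheory Set Filter Topology Metric
open scoped ComplexConjugate ENNReal

noncomputable section

variable {D : Set P}

private theorem C6_cls {f : P → ℂ} (hf : MemLp f 2 (volume.restrict D)) :
    cls D f = hf.toLp f :=
  dif_pos hf

private theorem C6_norm {μ : Measure P} {f : P → ℂ} (hf : MemLp f 2 μ) :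
    (eLpNorm f 2 μ).toReal = Real.sqrt (∫ q, ‖f q‖ ^ 2 ∂μ) := by
  rw [hf.eLpNorm_eq_integral_rpow_norm two_ne_zero ENNReal.ofNat_ne_top]
  rw [ENNReal.toReal_ofReal (by positivity), Real.sqrt_eq_rpow]
  have h2 : (2 : ℝ≥0∞).toReal = 2 := by simp
  rw [h2]
  simp only [Real.rpow_two, one_div]

theorem C.cls_coe {f : P → ℂ} (hf : MemLp f 2 (volume.restrict D)) :
    (cls D f : P → ℂ) =ᵐ[volume.restrict D] f := by
  rw [C6_cls hf]
  exact hf.coeFn_toLp

theorem C.cls_congr (hD : MeasurableSet D) {f g : P → ℂ} (h : ∀ q ∈ D, f q = g q) :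
    cls D f = cls D g := by
  have hfg : f =ᵐ[volume.restrict D] g := (ae_restrict_iff' hD).2 (Eventually.of_forall h)
  by_cases hf : MemLp f 2 (volume.restrict D)
  · have hg : MemLp g 2 (volume.restrict D) := (memLp_congr_ae hfg).1 hf
    rw [C6_cls hf, C6_cls hg]
    exact MemLp.toLp_congr hf hg hfg
  · have hg : ¬ MemLp g 2 (volume.restrict D) := fun hg => hf ((memLp_congr_ae hfg).2 hg)
    rw [cls, cls, dif_neg hf, dif_neg hg]

theorem C.cls_add {f g : P → ℂ} (hf : MemLp f 2 (volume.restrict D))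
    (hg : MemLp g 2 (volume.restrict D)) :
    cls D (fun q => f q + g q) = cls D f + cls D g := by
  rw [C6_cls hf, C6_cls hg]
  exact (C6_cls (hf.add hg)).trans (MemLp.toLp_add hf hg)

theorem C.cls_sub {f g : P → ℂ} (hf : MemLp f 2 (volume.restrict D))
    (hg : MemLp g 2 (volume.restrict D)) :
    cls D (fun q => f q - g q) = cls D f - cls D g := by
  rw [C6_cls hf, C6_cls hg]
  exact (C6_cls (hf.sub hg)).trans (MemLp.toLp_sub hf hg)

theorem C.cls_smul (c : ℂ) {f : P → ℂ} (hf : MemLp f 2 (volume.restrict D)) :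
    cls D (fun q => c * f q) = c • cls D f := by
  rw [C6_cls hf]
  exact (C6_cls (hf.const_smul c)).trans (MemLp.toLp_const_smul c hf)

theorem C.norm_cls {f : P → ℂ} (hf : MemLp f 2 (volume.restrict D)) :
    ‖cls D f‖ = Real.sqrt (∫ q in D, ‖f q‖ ^ 2) := by
  rw [C6_cls hf, Lp.norm_toLp]
  exact C6_norm hf

theorem C.inner_cls {f g : P → ℂ} (hf : MemLp f 2 (volume.restrict D))
    (hg : MemLp g 2 (volume.restrict D)) :
    (inner ℂ (cls D f) (cls D g) : ℂ) = ∫ q in D, conj (f q) * g q := by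
  rw [L2.inner_def]
  refine integral_congr_ae ?_
  filter_upwards [C.cls_coe hf, C.cls_coe hg] with q h1 h2
  rw [h1, h2, RCLike.inner_apply']

theorem C.fold_add {G : Geo D} {ρ : ℝ} (W : Walls G ρ) (e₁ e₂ : ℝ) (x : P) (F F' : P → ℂ) (q : P) :
    W.fold e₁ e₂ x (fun y => F y + F' y) q = W.fold e₁ e₂ x F q + W.fold e₁ e₂ x F' q := by
  unfold Walls.fold
  by_cases hq : q ∈ D
  · rw [indicator_of_mem hq, indicator_of_mem hq, indicator_of_mem hq]
    unfold foldF
    ring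
  · rw [indicator_of_notMem hq, indicator_of_notMem hq, indicator_of_notMem hq, add_zero]

theorem C.fold_sub {G : Geo D} {ρ : ℝ} (W : Walls G ρ) (e₁ e₂ : ℝ) (x : P) (F F' : P → ℂ) (q : P) :
    W.fold e₁ e₂ x (fun y => F y - F' y) q = W.fold e₁ e₂ x F q - W.fold e₁ e₂ x F' q := by
  unfold Walls.fold
  by_cases hq : q ∈ D
  · rw [indicator_of_mem hq, indicator_of_mem hq, indicator_of_mem hq]
    unfold foldF
    ring
  · rw [indicator_of_notMem hq, indicator_of_notMem hq, indicator_of_notMem hq, sub_zero]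

theorem C.fold_smul {G : Geo D} {ρ : ℝ} (W : Walls G ρ) (e₁ e₂ : ℝ) (x : P) (c : ℂ) (F : P → ℂ)
    (q : P) : W.fold e₁ e₂ x (fun y => c * F y) q = c * W.fold e₁ e₂ x F q := by
  unfold Walls.fold
  by_cases hq : q ∈ D
  · rw [indicator_of_mem hq, indicator_of_mem hq]
    unfold foldF
    ring
  · rw [indicator_of_notMem hq, indicator_of_notMem hq, mul_zero]

private theorem C6_term {c : ℝ} (hc : |c| ≤ 1) {F : P → ℂ} (hF : MemLp F 2 volume) {φ : P → P}
    (hφ : MeasurePreserving φ volume volume) :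
    AEStronglyMeasurable (fun q => (c : ℂ) * F (φ q)) volume ∧
      eLpNorm (fun q => (c : ℂ) * F (φ q)) 2 volume ≤ eLpNorm F 2 volume := by
  have h1 : MemLp (F ∘ φ) 2 volume := hF.comp_measurePreserving hφ
  refine ⟨h1.1.const_mul (c : ℂ), ?_⟩
  have h2 : eLpNorm (fun q => (c : ℂ) * F (φ q)) 2 volume ≤ eLpNorm (F ∘ φ) 2 volume := by
    refine eLpNorm_mono fun q => ?_
    rw [norm_mul, Complex.norm_real, Real.norm_eq_abs]
    exact mul_le_of_le_one_left (norm_nonneg _) hc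
  exact h2.trans (eLpNorm_comp_measurePreserving hF.1 hφ).le

private theorem C6_coef {e s : ℝ} (he : e = 1 ∨ e = -1) (hs : IsSgn s) : |e * s ^ 2| ≤ 1 := by
  rcases he with rfl | rfl <;> rcases hs with rfl | rfl | rfl <;> norm_num

private theorem C6_r1 (a : ℝ) :
    MeasurePreserving (fun q : P => ((a - q.1, q.2) : P)) volume volume :=
  (Measure.measurePreserving_sub_left (volume : Measure ℝ) a).prod (MeasurePreserving.id volume)

private theorem C6_r2 (a : ℝ) :
    MeasurePreserving (fun q : P => ((q.1, a - q.2) : P)) volume volume :=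
  (MeasurePreserving.id volume).prod (Measure.measurePreserving_sub_left (volume : Measure ℝ) a)

private theorem C6_r3 (a a' : ℝ) :
    MeasurePreserving (fun q : P => ((a - q.1, a' - q.2) : P)) volume volume :=
  (Measure.measurePreserving_sub_left (volume : Measure ℝ) a).prod
    (Measure.measurePreserving_sub_left (volume : Measure ℝ) a')

/-- The norm of a folded function.

Proof. `memLp_fold` (OutB). The four terms of `foldF` have coefficients of absolute value at most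
one (`W.sgn1`, `W.sgn2`) and the reflections preserve the measure, so by the triangle inequality in
`L²` (restrict to `D`: `eLpNorm` is monotone in the measure) the norm is at most
`4 √(∫ ‖F‖ ^ 2)`. Or pointwise `‖foldF‖ ^ 2 ≤ 4 (sum of the four squares)` and integrate. -/
theorem C.norm_fold_le {G : Geo D} {ρ : ℝ} (W : Walls G ρ) {e₁ e₂ : ℝ}
    (he₁ : e₁ = 1 ∨ e₁ = -1) (he₂ : e₂ = 1 ∨ e₂ = -1) (x : P) {F : P → ℂ}
    (hF : MemLp F 2 volume) :
    ‖cls D (W.fold e₁ e₂ x F)‖ ≤ 4 * Real.sqrt (∫ y, ‖F y‖ ^ 2) := by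
  rw [C6_cls (memLp_fold W e₁ e₂ x hF), Lp.norm_toLp, ← C6_norm hF]
  have hc1 := C6_coef he₁ (W.sgn1 x)
  have hc2 := C6_coef he₂ (W.sgn2 x)
  have hc3 : |e₁ * e₂ * ((W.w1 x).2 ^ 2 * (W.w2 x).2 ^ 2)| ≤ 1 := by
    have h1 : e₁ * e₂ * ((W.w1 x).2 ^ 2 * (W.w2 x).2 ^ 2) =
      (e₁ * (W.w1 x).2 ^ 2) * (e₂ * (W.w2 x).2 ^ 2) := by ring
    rw [h1, abs_mul]
    exact mul_le_one₀ hc1 (abs_nonneg _) hc2
  have h0 := C6_term (c := 1) (by rw [abs_one]) hF (MeasurePreserving.id volume)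
  have h1 := C6_term hc1 hF (C6_r1 (2 * (W.w1 x).1))
  have h2 := C6_term hc2 hF (C6_r2 (2 * (W.w2 x).1))
  have h3 := C6_term hc3 hF (C6_r3 (2 * (W.w1 x).1) (2 * (W.w2 x).1))
  have hle : eLpNorm (W.fold e₁ e₂ x F) 2 (volume.restrict D) ≤ 4 * eLpNorm F 2 volume := by
    have h4 : eLpNorm (W.fold e₁ e₂ x F) 2 (volume.restrict D) ≤
        eLpNorm (foldF e₁ e₂ (W.w1 x) (W.w2 x) F) 2 volume :=
      (eLpNorm_mono_measure _ Measure.restrict_le_self).trans
        (eLpNorm_mono fun q => norm_indicator_le_norm_self _ _)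
    refine h4.trans ?_
    have h5 : foldF e₁ e₂ (W.w1 x) (W.w2 x) F =
        (fun q => ((1 : ℝ) : ℂ) * F (id q)) +
        (fun q => ((e₁ * (W.w1 x).2 ^ 2 : ℝ) : ℂ) * F (2 * (W.w1 x).1 - q.1, q.2)) +
        (fun q => ((e₂ * (W.w2 x).2 ^ 2 : ℝ) : ℂ) * F (q.1, 2 * (W.w2 x).1 - q.2)) +
        fun q => ((e₁ * e₂ * ((W.w1 x).2 ^ 2 * (W.w2 x).2 ^ 2) : ℝ) : ℂ) *
          F (2 * (W.w1 x).1 - q.1, 2 * (W.w2 x).1 - q.2) := by
      funext q
      simp only [foldF, Pi.add_apply, id, Complex.ofReal_one, one_mul]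
    rw [h5]
    refine (eLpNorm_add_le ((h0.1.add h1.1).add h2.1) h3.1 one_le_two).trans ?_
    refine (add_le_add ((eLpNorm_add_le (h0.1.add h1.1) h2.1 one_le_two).trans
      (add_le_add ((eLpNorm_add_le h0.1 h1.1 one_le_two).trans (add_le_add h0.2 h1.2))
        h2.2)) h3.2).trans (le_of_eq ?_)
    ring
  have h6 := ENNReal.toReal_mono (ENNReal.mul_ne_top ENNReal.ofNat_ne_top hF.2.ne) hle
  rw [ENNReal.toReal_mul] at h6
  have h7 : (4 : ℝ≥0∞).toReal = 4 := by simp
  rw [h7] at h6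
  exact h6

theorem C.norm_fold_sub_le {G : Geo D} {ρ : ℝ} (W : Walls G ρ) {e₁ e₂ : ℝ}
    (he₁ : e₁ = 1 ∨ e₁ = -1) (he₂ : e₂ = 1 ∨ e₂ = -1) (x : P) {F F' : P → ℂ}
    (hF : MemLp F 2 volume) (hF' : MemLp F' 2 volume) :
    ‖cls D (W.fold e₁ e₂ x F) - cls D (W.fold e₁ e₂ x F')‖ ≤
      4 * Real.sqrt (∫ y, ‖F y - F' y‖ ^ 2) := by
  have h1 : cls D (W.fold e₁ e₂ x F) - cls D (W.fold e₁ e₂ x F') =
      cls D (W.fold e₁ e₂ x fun y => F y - F' y) := by
    rw [← C.cls_sub (memLp_fold W e₁ e₂ x hF) (memLp_fold W e₁ e₂ x hF')]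
    congr 1
    funext q
    exact (C.fold_sub W e₁ e₂ x F F' q).symm
  rw [h1]
  exact C.norm_fold_le W he₁ he₂ x (hF.sub hF')

private theorem C6_memLp {f : P → ℂ} {B R : ℝ} (x' : P) (hf : Measurable f)
    (hb : ∀ y, ‖f y‖ ≤ B) (hs : ∀ y, R < dist y x' → f y = 0) : MemLp f 2 volume := by
  have h1 : f = (closedBall x' R).indicator f := by
    funext y
    by_cases hy : y ∈ closedBall x' R
    · rw [indicator_of_mem hy]
    · rw [indicator_of_notMem hy]
      exact hs y (not_le.1 hy)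
  rw [h1, memLp_indicator_iff_restrict measurableSet_closedBall]
  have h2 : IsFiniteMeasure (volume.restrict (closedBall x' R)) :=
    ⟨by rw [Measure.restrict_apply_univ]; exact measure_closedBall_lt_top⟩
  exact MemLp.of_bound hf.aestronglyMeasurable B (Eventually.of_forall hb)

/-- A bounded measurable function with support in a square. The square has area `(2 R) ^ 2`. -/
theorem C.norm_fold_le_sup {G : Geo D} {ρ : ℝ} (W : Walls G ρ) {e₁ e₂ : ℝ}
    (he₁ : e₁ = 1 ∨ e₁ = -1) (he₂ : e₂ = 1 ∨ e₂ = -1) (x : P) {F : P → ℂ} {B R : ℝ}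
    (hB : 0 ≤ B) (hR : 0 ≤ R) (x' : P) (hF : Measurable F) (hb : ∀ y, ‖F y‖ ≤ B)
    (hs : ∀ y, R < dist y x' → F y = 0) :
    MemLp F 2 volume ∧ ‖cls D (W.fold e₁ e₂ x F)‖ ≤ 8 * R * B := by
  have hm := C6_memLp x' hF hb hs
  refine ⟨hm, (C.norm_fold_le W he₁ he₂ x hm).trans ?_⟩
  have hvol : volume.real (closedBall x' R) = (2 * R) ^ 2 := by
    have h1 : closedBall x' R = closedBall x'.1 R ×ˢ closedBall x'.2 R :=
      (closedBall_prod_same x'.1 x'.2 R).symm
    rw [Measure.real, h1, Measure.volume_eq_prod, Measure.prod_prod, Real.volume_closedBall,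
      Real.volume_closedBall, ENNReal.toReal_mul, ENNReal.toReal_ofReal (by positivity)]
    ring
  have h2 : ∫ y, ‖F y‖ ^ 2 ≤ (2 * R * B) ^ 2 := by
    have h3 : ∫ y, ‖F y‖ ^ 2 ≤ ∫ y, (closedBall x' R).indicator (fun _ => B ^ 2) y := by
      refine integral_mono_of_nonneg (Eventually.of_forall fun y => by positivity) ?_
        (Eventually.of_forall fun y => ?_)
      · rw [integrable_indicator_iff measurableSet_closedBall]
        exact integrableOn_const measure_closedBall_lt_top.ne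
      · by_cases hy : y ∈ closedBall x' R
        · rw [indicator_of_mem hy]
          exact pow_le_pow_left₀ (norm_nonneg _) (hb y) 2
        · rw [indicator_of_notMem hy]
          change ‖F y‖ ^ 2 ≤ 0
          rw [hs y (not_le.1 hy), norm_zero]
          norm_num
    refine h3.trans (le_of_eq ?_)
    rw [integral_indicator measurableSet_closedBall, setIntegral_const, hvol, smul_eq_mul]
    ring
  have h4 : Real.sqrt (∫ y, ‖F y‖ ^ 2) ≤ 2 * R * B := by
    rw [Real.sqrt_le_left (by positivity)]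
    exact h2
  linarith

theorem C.memLp_env {E : P → ℂ} {R : ℝ} (hE : Env E R) (h : ℝ) (x ξ : P) :
    MemLp (fun y => E (y - x) * Complex.exp ((dot ξ (y - x) / h : ℝ) * Complex.I)) 2 volume := by
  obtain ⟨C, hC⟩ := hE.bdd
  refine C6_memLp (B := C) (R := R) x ?_ (fun y => ?_) (fun y hy => ?_)
  · have h1 : Measurable fun y : P => E (y - x) := hE.meas.comp (measurable_id.sub_const x)
    refine h1.mul ?_
    unfold dot
    fun_prop
  · rw [norm_mul, Complex.norm_exp_ofReal_mul_I, mul_one]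
    exact hC _
  · rw [dist_eq_norm] at hy
    rw [hE.supp _ hy, zero_mul]

/-- The norm of a folded function: `norm_fold_le`; the modulus of the exponential is one and the
Lebesgue measure is translation invariant. -/
theorem norm_fam_le {G : Geo D} {ρ R h : ℝ} (W : Walls G ρ) {E : P → ℂ} (hE : Env E R)
    {e₁ e₂ : ℝ} (he₁ : e₁ = 1 ∨ e₁ = -1) (he₂ : e₂ = 1 ∨ e₂ = -1) (x ξ : P) :
    MemLp (W.fam e₁ e₂ E h x ξ) 2 (volume.restrict D) ∧
    ‖cls D (W.fam e₁ e₂ E h x ξ)‖ ≤ 4 * Real.sqrt (∫ y, ‖E y‖ ^ 2) := by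
  have h1 := C.memLp_env hE h x ξ
  refine ⟨memLp_fold W e₁ e₂ x h1, (C.norm_fold_le W he₁ he₂ x h1).trans (le_of_eq ?_)⟩
  have h2 : ∫ y, ‖E (y - x) * Complex.exp ((dot ξ (y - x) / h : ℝ) * Complex.I)‖ ^ 2 =
      ∫ y, ‖E (y - x)‖ ^ 2 := by
    refine integral_congr_ae (Eventually.of_forall fun y => ?_)
    change ‖E (y - x) * Complex.exp ((dot ξ (y - x) / h : ℝ) * Complex.I)‖ ^ 2 =
      ‖E (y - x)‖ ^ 2
    rw [norm_mul, Complex.norm_exp_ofReal_mul_I, mul_one]
  rw [h2, integral_sub_right_eq_self (fun y => ‖E y‖ ^ 2) x]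

end

end Pool.Agent.MP4eed4eR
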