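import Pool.Agent.Lib.MP_4eed4e_an_R.C05
import Pool.Agent.Lib.MP_4eed4e_an_R.C06

/-!
MP_4eed4e_an, project R, block C, module C07: norm and support of the packets.
-/

namespace Pool.Agent.MP4eed4eR

open MeasureTheory Set Filter Topology Metric

noncomputable section

variable {D : Set P}

theorem C.memLp_pkt {G : Geo D} {ρ : ℝ} (W : Walls G ρ) {δ : ℝ} (hδ : 0 < δ) (x ξ : P) (s : ℝ) :
    MemLp (W.pkt δ x ξ s) 2 (volume.restrict D) :=
  memLp_fold W (-1) (-1) x (C.memLp_psic hδ x ξ s)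

theorem C.v_eq_fam {G : Geo D} {ρ : ℝ} (W : Walls G ρ) (δ : ℝ) (z : P × P) (s : ℝ) :
    W.v δ z s = cls D (W.fam (-1) (-1) (envc δ s) (hh δ) z.1 z.2) := by
  rw [Walls.v, pkt_eq_fam]

/-- `pkt_eq_fam`, `norm_fam_le`, `envc_norm_le`. -/
theorem norm_v_le {G : Geo D} {ρ : ℝ} (W : Walls G ρ) {δ : ℝ} (hδ : 0 < δ) (z : P × P) (s : ℝ) :
    ‖W.v δ z s‖ ≤ 4 := by
  rw [C.v_eq_fam]
  have h1 := (norm_fam_le (h := hh δ) W (env_envc hδ s) (Or.inr rfl : (-1 : ℝ) = 1 ∨ _)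
    (Or.inr rfl : (-1 : ℝ) = 1 ∨ _) z.1 z.2).2
  have h2 : Real.sqrt (∫ y, ‖envc δ s y‖ ^ 2) ≤ 1 := by
    rw [Real.sqrt_le_one]
    exact envc_norm_le hδ s
  linarith

/-- The packet lives in the square of radius `θ / 32` about the centre.

Proof. `fold_supp` (OutB) for `ρ = th δ / 4`, `R = th δ / 32 = 2 rad δ`, `F = psic` (`psic_zero`;
`dist y x` with `2 rad < dist y x`), and `cls_coe`. For small `δ` we have `ρ ≤ 4 rho0`
(`ev_geo`). `Far (th / 2)` implies `Far (th / 4)`. -/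
theorem mass_v (G : Geo D) : ∀ᶠ δ in 𝓝[>] (0 : ℝ), ∀ W : Walls G (th δ / 4), ∀ z : P × P,
    z.1 ∈ G.Y δ → ∀ s : ℝ, ∀ᵐ q ∂(volume.restrict D), th δ / 32 < dist q z.1 →
      (W.v δ z s : P → ℂ) q = 0 := by
  filter_upwards [C.ev_geo G] with δ hδ
  intro W z hz s
  filter_upwards [C.cls_coe (C.memLp_pkt W hδ.1 z.1 z.2 s),
    ae_restrict_mem G.isOpen.measurableSet] with q hq hqD hdist
  rw [Walls.v, hq]
  by_contra h0
  have ht : 0 < th δ := C.th_pos hδ.1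
  have h1 := fold_supp (R := th δ / 32) (by linarith) hδ.2.2.1 (by linarith) (by linarith) W hz.1
    (fun v hv => by
      have h2 := hz.2 v hv
      linarith)
    (fun y hy => C.psic_zero hδ.1 z.1 z.2 s (by
      have h3 := (C.tau_rad δ).2.2
      linarith)) (-1) (-1) hqD h0
  linarith

end

end Pool.Agent.MP4eed4eR
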