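import Pool.Agent.Lib.MP_4eed4e_an_R.B03
import Pool.Agent.Lib.MP_4eed4e_an_R.C06

/-!
MP_4eed4e_an, project R, block C, module C08: measurability of coefficients.
-/

namespace Pool.Agent.MP4eed4eR

open MeasureTheory Set Filter Topology Metric
open scoped ComplexConjugate

noncomputable section

variable {D : Set P}

/-- Joint measurability of the family. Proof: `G.isOpen` gives measurability of `D`; `foldF` is a
combination of compositions of measurable functions of `(z, q)` (`W.meas1`, `W.meas2`). -/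
theorem C.meas_fam {G : Geo D} {ρ : ℝ} (h : ℝ) (W : Walls G ρ) {E : P → ℂ} (hE : Measurable E)
    (e₁ e₂ : ℝ) : Measurable (fun p : (P × P) × P => W.fam e₁ e₂ E h p.1.1 p.1.2 p.2) := by
  have hD : MeasurableSet {p : (P × P) × P | p.2 ∈ D} := measurable_snd G.isOpen.measurableSet
  have hx : Measurable (fun p : (P × P) × P => p.1.1) := measurable_fst.fst
  have h1 : Measurable (fun p : (P × P) × P => W.w1 p.1.1) := W.meas1.comp hx
  have h2 : Measurable (fun p : (P × P) × P => W.w2 p.1.1) := W.meas2.comp hx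
  have h11 := h1.fst
  have h12 := h1.snd
  have h21 := h2.fst
  have h22 := h2.snd
  have hd : ∀ y : (P × P) × P → P, Measurable y → Measurable (fun p : (P × P) × P =>
      E (y p - p.1.1) * Complex.exp ((dot p.1.2 (y p - p.1.1) / h : ℝ) * Complex.I)) := by
    intro y hy
    have hs : Measurable (fun p : (P × P) × P => y p - p.1.1) := hy.sub hx
    refine (hE.comp hs).mul (Complex.measurable_exp.comp ?_)
    refine (Complex.measurable_ofReal.comp ?_).mul_const _
    unfold dot
    fun_prop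
  have e : (fun p : (P × P) × P => W.fam e₁ e₂ E h p.1.1 p.1.2 p.2) =
      {p : (P × P) × P | p.2 ∈ D}.indicator (fun p => foldF e₁ e₂ (W.w1 p.1.1) (W.w2 p.1.1)
        (fun y => E (y - p.1.1) * Complex.exp ((dot p.1.2 (y - p.1.1) / h : ℝ) * Complex.I))
        p.2) := by
    funext p
    unfold Walls.fam Walls.fold
    by_cases hp : p.2 ∈ D
    · rw [Set.indicator_of_mem hp, Set.indicator_of_mem (show p ∈ {p : (P × P) × P | p.2 ∈ D}
        from hp)]
    · rw [Set.indicator_of_notMem hp, Set.indicator_of_notMem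
        (show p ∉ {p : (P × P) × P | p.2 ∈ D} from hp)]
  rw [e]
  refine Measurable.indicator ?_ hD
  unfold foldF
  have k1 := hd (fun p => p.2) measurable_snd
  have k2 := hd (fun p => (2 * (W.w1 p.1.1).1 - p.2.1, p.2.2)) (by fun_prop)
  have k3 := hd (fun p => (p.2.1, 2 * (W.w2 p.1.1).1 - p.2.2)) (by fun_prop)
  have k4 := hd (fun p => (2 * (W.w1 p.1.1).1 - p.2.1, 2 * (W.w2 p.1.1).1 - p.2.2))
    (by fun_prop)
  have c1 : Measurable (fun p : (P × P) × P => ((e₁ * (W.w1 p.1.1).2 ^ 2 : ℝ) : ℂ)) := by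
    fun_prop
  have c2 : Measurable (fun p : (P × P) × P => ((e₂ * (W.w2 p.1.1).2 ^ 2 : ℝ) : ℂ)) := by
    fun_prop
  have c3 : Measurable (fun p : (P × P) × P =>
      ((e₁ * e₂ * ((W.w1 p.1.1).2 ^ 2 * (W.w2 p.1.1).2 ^ 2) : ℝ) : ℂ)) := by
    fun_prop
  exact ((k1.add (c1.mul k2)).add (c2.mul k3)).add (c3.mul k4)

private theorem cls_self (f : HD D) : cls D (f : P → ℂ) = f := by
  have hf : MemLp (f : P → ℂ) 2 (volume.restrict D) := Lp.memLp f
  unfold cls
  rw [dif_pos hf]
  exact Lp.toLp_coeFn f hf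

/-- Proof. The inner product is `∫ q in D, conj (W.fam e₁ e₂ E h z.1 z.2 q) * f q`
(`memLp_fold`, `memLp_env`), `f` is strongly measurable (`Lp.stronglyMeasurable`); use
`StronglyMeasurable.integral_prod_right'` and `meas_fam`. -/
theorem measurable_inner_fam {G : Geo D} {ρ R h : ℝ} (W : Walls G ρ) {E : P → ℂ}
    (hE : Env E R) (e₁ e₂ : ℝ) (f : HD D) :
    Measurable (fun z : P × P => (inner ℂ (cls D (W.fam e₁ e₂ E h z.1 z.2)) f : ℂ)) := by
  have hm : ∀ z : P × P, MemLp (W.fam e₁ e₂ E h z.1 z.2) 2 (volume.restrict D) := fun z =>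
    memLp_fold W e₁ e₂ z.1 (C.memLp_env hE h z.1 z.2)
  have e : (fun z : P × P => (inner ℂ (cls D (W.fam e₁ e₂ E h z.1 z.2)) f : ℂ)) =
      fun z : P × P => ∫ q in D, conj (W.fam e₁ e₂ E h z.1 z.2 q) * f q := by
    funext z
    have := C.inner_cls (hm z) (Lp.memLp f)
    rw [cls_self] at this
    exact this
  rw [e]
  have hf : Measurable (fun p : (P × P) × P => (f : P → ℂ) p.2) :=
    (Lp.stronglyMeasurable f).measurable.comp measurable_snd
  have hj : Measurable (fun p : (P × P) × P =>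
      conj (W.fam e₁ e₂ E h p.1.1 p.1.2 p.2) * (f : P → ℂ) p.2) :=
    (Complex.continuous_conj.measurable.comp (C.meas_fam h W hE.meas e₁ e₂)).mul hf
  exact (StronglyMeasurable.integral_prod_right' (ν := volume.restrict D)
    hj.stronglyMeasurable).measurable

theorem C.measurable_co (S : Spec D) {G : Geo D} {ρ R h : ℝ} (W : Walls G ρ) {E : P → ℂ}
    (hE : Env E R) (e₁ e₂ : ℝ) (k : ℕ) :
    Measurable (fun z : P × P => S.co k (cls D (W.fam e₁ e₂ E h z.1 z.2))) := by
  have e : (fun z : P × P => S.co k (cls D (W.fam e₁ e₂ E h z.1 z.2))) =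
      fun z : P × P => conj (inner ℂ (cls D (W.fam e₁ e₂ E h z.1 z.2)) (S.e k) : ℂ) := by
    funext z
    unfold Spec.co
    exact (inner_conj_symm _ _).symm
  rw [e]
  exact Complex.continuous_conj.measurable.comp (measurable_inner_fam W hE e₁ e₂ (S.e k))

/-- Proof: `gk_sum` (OutB): the function is the limit of the finite sums over `Finset.range n`
(`HasSum.tendsto_sum_nat`, `measurable_of_tendsto_metrizable`) of the measurable functions
`om S.lam h l k * ‖S.co k (cls D (W.fam ..))‖ ^ 2`. -/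
theorem measurable_quad (S : Spec D) {G : Geo D} {ρ R h : ℝ} (hh0 : 0 < h) (W : Walls G ρ)
    {E : P → ℂ} (hE : Env E R) (e₁ e₂ l : ℝ) :
    Measurable (fun z : P × P => (inner ℂ (cls D (W.fam e₁ e₂ E h z.1 z.2))
      (S.W h l (cls D (W.fam e₁ e₂ E h z.1 z.2))) : ℂ)) := by
  refine measurable_of_tendsto_metrizable (f := fun (n : ℕ) (z : P × P) =>
    ∑ k ∈ Finset.range n, om S.lam h l k *
      ((‖S.co k (cls D (W.fam e₁ e₂ E h z.1 z.2))‖ ^ 2 : ℝ) : ℂ)) ?_ ?_
  · intro n
    refine Finset.measurable_sum _ fun k _ => ?_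
    exact (Complex.measurable_ofReal.comp
      ((C.measurable_co S W hE e₁ e₂ k).norm.pow_const 2)).const_mul _
  · rw [tendsto_pi_nhds]
    intro z
    exact (gk_sum S hh0 l _).tendsto_sum_nat

end

end Pool.Agent.MP4eed4eR
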