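import Pool.Agent.Lib.MP_4eed4e_an_R.C08

/-!
MP_4eed4e_an, project R, block C, module C09: measurability of the local masses.
-/

namespace Pool.Agent.MP4eed4eR

open MeasureTheory Set Filter Topology Metric
open scoped ComplexConjugate

noncomputable section

variable {D : Set P}

/-- Restriction to a set, as an element of `L²(D)`. -/
def C.ind (A : Set P) (f : HD D) : HD D := cls D (A.indicator (f : P → ℂ))

private theorem c09_coe {A : Set P} (hA : MeasurableSet A) (f : HD D) :
    (C.ind A f : P → ℂ) =ᵐ[volume.restrict D] A.indicator (f : P → ℂ) := by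
  have h1 : MemLp (A.indicator (f : P → ℂ)) 2 (volume.restrict D) := (Lp.memLp f).indicator hA
  unfold C.ind cls
  rw [dif_pos h1]
  exact h1.coeFn_toLp

private theorem c09_inner {A : Set P} (hA : MeasurableSet A) (f g : HD D) :
    (inner ℂ f (C.ind A g) : ℂ) =
      ∫ q, A.indicator (fun q => (inner ℂ (f q) (g q) : ℂ)) q ∂(volume.restrict D) := by
  rw [L2.inner_def]
  refine integral_congr_ae ?_
  filter_upwards [c09_coe hA g] with q hq
  rw [hq]
  by_cases h : q ∈ A
  · rw [indicator_of_mem h, indicator_of_mem h]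
  · rw [indicator_of_notMem h, indicator_of_notMem h, inner_zero_right]

private theorem c09_inner' {A : Set P} (hA : MeasurableSet A) (f g : HD D) :
    (inner ℂ (C.ind A f) g : ℂ) =
      ∫ q, A.indicator (fun q => (inner ℂ (f q) (g q) : ℂ)) q ∂(volume.restrict D) := by
  rw [L2.inner_def]
  refine integral_congr_ae ?_
  filter_upwards [c09_coe hA f] with q hq
  rw [hq]
  by_cases h : q ∈ A
  · rw [indicator_of_mem h, indicator_of_mem h]
  · rw [indicator_of_notMem h, indicator_of_notMem h, inner_zero_left]

/-- `mass A f = ⟨f, 1_A f⟩`. -/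
theorem C.mass_eq {A : Set P} (hA : MeasurableSet A) (f : HD D) :
    mass A f = (inner ℂ f (C.ind A f) : ℂ).re := by
  rw [c09_inner hA, integral_indicator hA, Measure.restrict_restrict hA]
  have h1 : (fun q => (inner ℂ (f q) (f q) : ℂ)) = fun q => ((‖f q‖ ^ 2 : ℝ) : ℂ) := by
    funext q
    rw [inner_self_eq_norm_sq_to_K]
    push_cast
    rfl
  rw [h1, integral_complex_ofReal, Complex.ofReal_re]
  rfl

theorem C.inner_ind {A : Set P} (hA : MeasurableSet A) (f g : HD D) :
    (inner ℂ f (C.ind A g) : ℂ) = inner ℂ (C.ind A f) g := by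
  rw [c09_inner hA, c09_inner' hA]

private theorem c09_meas {α : Type*} [MeasurableSpace α] {F : ℕ → α → ℂ} {g : α → ℂ}
    (hF : ∀ k, Measurable (F k)) (hg : ∀ a, HasSum (fun k => F k a) (g a)) : Measurable g := by
  refine measurable_of_tendsto_metrizable
    (f := fun n a => ∑ k ∈ Finset.range n, F k a) (fun n => ?_) ?_
  · exact Finset.measurable_fun_sum _ fun k _ => hF k
  · exact tendsto_pi_nhds.2 fun a => (hg a).tendsto_sum_nat

/-- Proof. By `mass_eq`, `parseval_inner` (OutB) the mass of `g = S.U h t f` is the real part of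
`∑ k, conj (S.co k g) * S.co k (C.ind A g)`, `S.co k (C.ind A g) = ⟨e k, 1_A g⟩ = ⟨1_A (e k), g⟩`
(`inner_ind`) `= ∑ j, conj (S.co j (C.ind A (S.e k))) * S.co j g` (`parseval_inner` again), and
`S.co j g` is `co_U`. All functions are limits of finite sums (`HasSum.tendsto_sum_nat`) of
products of measurable functions of `p` (`measurable_co`), `measurable_of_tendsto_metrizable`. -/
theorem measurable_mass (S : Spec D) {G : Geo D} {ρ R h : ℝ} (W : Walls G ρ)
    {E : P → ℂ} (hE : Env E R) (e₁ e₂ : ℝ) {A : Set P} (hA : MeasurableSet A) :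
    Measurable (fun p : ℝ × (P × P) =>
      mass A (S.U h p.1 (cls D (W.fam e₁ e₂ E h p.2.1 p.2.2)))) := by
  set g : ℝ × (P × P) → HD D := fun p => S.U h p.1 (cls D (W.fam e₁ e₂ E h p.2.1 p.2.2)) with hg
  have h1 : ∀ k, Measurable fun p => S.co k (g p) := by
    intro k
    have h2 : (fun p => S.co k (g p)) = fun p : ℝ × (P × P) =>
        Complex.exp (-(p.1 * h * S.lam k / 2 : ℝ) * Complex.I) *
          S.co k (cls D (W.fam e₁ e₂ E h p.2.1 p.2.2)) := by
      funext p
      exact co_U S h p.1 _ k
    rw [h2]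
    refine Measurable.mul ?_ ((C.measurable_co S W hE e₁ e₂ k).comp measurable_snd)
    have h3 : Continuous fun p : ℝ × (P × P) =>
        Complex.exp (-(p.1 * h * S.lam k / 2 : ℝ) * Complex.I) := by fun_prop
    exact h3.measurable
  have h2 : ∀ k, Measurable fun p => S.co k (C.ind A (g p)) := by
    intro k
    refine c09_meas (F := fun j p => conj (S.co j (C.ind A (S.e k))) * S.co j (g p))
      (fun j => measurable_const.mul (h1 j)) fun p => ?_
    have h3 : S.co k (C.ind A (g p)) = inner ℂ (C.ind A (S.e k)) (g p) := by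
      unfold Spec.co
      exact C.inner_ind hA _ _
    rw [h3]
    exact parseval_inner S _ _
  have h3 : Measurable fun p => (inner ℂ (g p) (C.ind A (g p)) : ℂ) := by
    refine c09_meas (F := fun k p => conj (S.co k (g p)) * S.co k (C.ind A (g p)))
      (fun k => ?_) fun p => parseval_inner S _ _
    exact (Complex.continuous_conj.measurable.comp (h1 k)).mul (h2 k)
  have h4 : (fun p => mass A (g p)) = fun p => (inner ℂ (g p) (C.ind A (g p)) : ℂ).re := by
    funext p
    exact C.mass_eq hA _
  rw [h4]
  exact Complex.measurable_re.comp h3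

end

end Pool.Agent.MP4eed4eR
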