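import Pool.Agent.Lib.MP_4eed4e_an_R.B11
import Pool.Agent.Lib.MP_4eed4e_an_R.B12
import Pool.Agent.Lib.MP_4eed4e_an_R.C07

/-!
MP_4eed4e_an, project R, block C, module C10: the frame identity.
-/

namespace Pool.Agent.MP4eed4eR

open MeasureTheory Set Filter Topology Metric
open scoped ComplexConjugate

noncomputable section

variable {D : Set P}

private theorem C10.meas_far (G : Geo D) (r : ℝ) : MeasurableSet {x : P | G.Far r x} := by
  have h1 : {x : P | G.Far r x} = ⋂ v ∈ G.V, {x : P | r ≤ dist x v} := by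
    ext x
    simp only [Geo.Far, mem_iInter, mem_ofPred_eq]
  rw [h1]
  refine Finset.measurableSet_biInter _ (fun v _ => ?_)
  exact (isClosed_le continuous_const (continuous_id.dist continuous_const)).measurableSet

theorem C.meas_X (G : Geo D) (δ : ℝ) : MeasurableSet (G.X δ) := by
  have h1 : G.X δ = D ∩ {x : P | G.Far (th δ) x} := by
    ext x
    rfl
  rw [h1]
  exact G.isOpen.measurableSet.inter (C10.meas_far G _)

theorem C.meas_Y (G : Geo D) (δ : ℝ) : MeasurableSet (G.Y δ) := by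
  have h1 : G.Y δ = closure D ∩ {x : P | G.Far (th δ / 2) x} := by
    ext x
    rfl
  rw [h1]
  exact isClosed_closure.measurableSet.inter (C10.meas_far G _)

/-- Joint measurability in `(x, q)` and `StronglyMeasurable.integral_prod_left'` or `right'`. -/
theorem C.meas_mult {G : Geo D} {ρ R : ℝ} (W : Walls G ρ) {E : P → ℂ} (hE : Env E R)
    (X : Set P) (hX : MeasurableSet X) : Measurable (W.mult E X) := by
  have hE1 : Measurable E := hE.meas
  have h1 := W.meas1
  have h2 := W.meas2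
  have key : Measurable (fun p : P × P =>
      foldN (W.w1 p.2) (W.w2 p.2) (fun y => ‖E (y - p.2)‖ ^ 2) p.1) := by
    unfold foldN
    fun_prop
  have h3 : StronglyMeasurable (fun q : P => ∫ x in X,
      foldN (W.w1 x) (W.w2 x) (fun y => ‖E (y - x)‖ ^ 2) q) :=
    StronglyMeasurable.integral_prod_right' key.stronglyMeasurable
  exact h3.measurable

/-- polarisation of complex numbers -/
private theorem C10.pol0 (a b : ℂ) : conj a * b = (1 / 4 : ℂ) *
    (((‖a + b‖ ^ 2 : ℝ) - (‖a - b‖ ^ 2 : ℝ)) - Complex.I *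
      ((‖a + Complex.I * b‖ ^ 2 : ℝ) - (‖a - Complex.I * b‖ ^ 2 : ℝ))) := by
  simp only [← Complex.normSq_eq_norm_sq]
  rw [← Complex.mul_conj, ← Complex.mul_conj, ← Complex.mul_conj, ← Complex.mul_conj]
  simp only [map_add, map_sub, map_mul, Complex.conj_I]
  ring_nf
  simp only [Complex.I_sq]
  ring

/-- linearity -/
private theorem C10.lin {α : Type*} [MeasurableSpace α] (μ : Measure α) {F₁ F₂ F₃ F₄ : α → ℂ}
    (h₁ : Integrable F₁ μ) (h₂ : Integrable F₂ μ) (h₃ : Integrable F₃ μ) (h₄ : Integrable F₄ μ) :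
    ∫ x, (1 / 4 : ℂ) * ((F₁ x - F₂ x) - Complex.I * (F₃ x - F₄ x)) ∂μ =
      (1 / 4 : ℂ) * (((∫ x, F₁ x ∂μ) - ∫ x, F₂ x ∂μ) -
        Complex.I * ((∫ x, F₃ x ∂μ) - ∫ x, F₄ x ∂μ)) := by
  rw [integral_const_mul, integral_sub (f := fun x => F₁ x - F₂ x)
    (g := fun x => Complex.I * (F₃ x - F₄ x)) (h₁.sub h₂) ((h₃.sub h₄).const_mul _),
    integral_sub h₁ h₂, integral_const_mul, integral_sub h₃ h₄]

/-- polarisation of integrals -/
private theorem C10.pol {α : Type*} [MeasurableSpace α] (μ : Measure α) (w : α → ℝ)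
    (A B : α → ℂ)
    (I1 : Integrable (fun x => w x * ‖A x + B x‖ ^ 2) μ)
    (I2 : Integrable (fun x => w x * ‖A x - B x‖ ^ 2) μ)
    (I3 : Integrable (fun x => w x * ‖A x + Complex.I * B x‖ ^ 2) μ)
    (I4 : Integrable (fun x => w x * ‖A x - Complex.I * B x‖ ^ 2) μ) :
    Integrable (fun x => (w x : ℂ) * (conj (A x) * B x)) μ ∧
    ∫ x, (w x : ℂ) * (conj (A x) * B x) ∂μ = (1 / 4 : ℂ) *
      ((((∫ x, w x * ‖A x + B x‖ ^ 2 ∂μ : ℝ) : ℂ) - ((∫ x, w x * ‖A x - B x‖ ^ 2 ∂μ : ℝ) : ℂ)) -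
        Complex.I * (((∫ x, w x * ‖A x + Complex.I * B x‖ ^ 2 ∂μ : ℝ) : ℂ) -
          ((∫ x, w x * ‖A x - Complex.I * B x‖ ^ 2 ∂μ : ℝ) : ℂ))) := by
  have J1 := I1.ofReal (𝕜 := ℂ)
  have J2 := I2.ofReal (𝕜 := ℂ)
  have J3 := I3.ofReal (𝕜 := ℂ)
  have J4 := I4.ofReal (𝕜 := ℂ)
  have e : (fun x => (w x : ℂ) * (conj (A x) * B x)) = fun x => (1 / 4 : ℂ) *
      (((((w x * ‖A x + B x‖ ^ 2 : ℝ) : ℂ)) - ((w x * ‖A x - B x‖ ^ 2 : ℝ) : ℂ)) -
        Complex.I * (((w x * ‖A x + Complex.I * B x‖ ^ 2 : ℝ) : ℂ) -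
          ((w x * ‖A x - Complex.I * B x‖ ^ 2 : ℝ) : ℂ))) := by
    funext x
    rw [C10.pol0]
    push_cast
    ring
  rw [e]
  refine ⟨((J1.sub J2).sub ((J3.sub J4).const_mul _)).const_mul _, ?_⟩
  refine (C10.lin μ J1 J2 J3 J4).trans ?_
  rw [← integral_complex_ofReal, ← integral_complex_ofReal, ← integral_complex_ofReal,
    ← integral_complex_ofReal]
  rfl

/-- The polarised frame identity. The multiplier `m` is `c_h` off the `2θ` squares at the reflex
vertices.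

Proof. `E = envc δ 0`, `X = G.X δ`, `ρ = th δ / 4`, `R = 2 rad δ = th δ / 32`, `e₁ = e₂ = -1`,
`m = D.indicator (W.mult E X)`. Bounds: `mult_le` and `envc_norm_le`; `m q = cst δ`: `mult_eq`
(`envc_even`; for `dist x q ≤ th / 32`, `x ∈ D` we have `dist x v ≥ 2 th - th / 32 ≥ th`).
With `v = W.v δ z 0` (`v_eq_fam`), `a = ⟨v, f⟩`, `b = ⟨v, g⟩`:
`4 conj a b = (|a + b|² - |a - b|²) - i (|a + i b|² - |a - i b|²)` and `a + i b = ⟨v, f + i g⟩`;
so the integrability and the integral follow from `frame_id` for `f + g`, `f - g`, `f + i g`,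
`f - i g`, and the same polarisation of `conj (f q) * (m q * g q)`. -/
theorem frame (G : Geo D) : ∀ᶠ δ in 𝓝[>] (0 : ℝ), ∀ W : Walls G (th δ / 4),
    ∃ m : P → ℝ, Measurable m ∧ (∀ q, 0 ≤ m q ∧ m q ≤ 4) ∧
      (∀ q ∈ D, (∀ v ∈ G.V, 2 * th δ ≤ dist q v) → m q = cst δ) ∧
      ∀ f g : HD D, IntegrableOn (fun z : P × P => (inner ℂ f (W.v δ z 0) : ℂ) *
          inner ℂ (W.v δ z 0) g) (G.X δ ×ˢ univ) ∧
        ∫ z in G.X δ ×ˢ (univ : Set P), (inner ℂ f (W.v δ z 0) : ℂ) * inner ℂ (W.v δ z 0) g =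
          ((2 * Real.pi * hh δ) ^ 2 : ℝ) * ∫ q in D, conj (f q) * ((m q : ℂ) * g q) := by
  filter_upwards [C.ev_geo G] with δ hδ W
  obtain ⟨h0, -, hρ', -⟩ := hδ
  have hth := C.th_pos h0
  have hrad := C.rad_pos h0
  have hhh := C.hh_pos h0
  have hr1 := (C.tau_rad δ).2.1
  have hr2 := (C.tau_rad δ).2.2
  have hE := env_envc h0 0
  have hX := C.meas_X G δ
  have hρ : 0 < th δ / 4 := by positivity
  have hR : 0 < 2 * rad δ := by positivity
  have hR' : 2 * (2 * rad δ) ≤ th δ / 4 := by linarith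
  have hX' : ∀ x ∈ G.X δ, x ∈ closure D ∧ G.Far (th δ / 4) x := fun x hx =>
    ⟨subset_closure hx.1, fun v hv => le_trans (by linarith) (hx.2 v hv)⟩
  have hD : MeasurableSet D := G.isOpen.measurableSet
  have hm := C.meas_mult W hE (G.X δ) hX
  have hml : ∀ q ∈ D, 0 ≤ W.mult (envc δ 0) (G.X δ) q ∧ W.mult (envc δ 0) (G.X δ) q ≤ 4 := by
    intro q hq
    have h1 := mult_le hρ hρ' hR hR' W hE hX hX' hq
    have h2 := envc_norm_le h0 0
    exact ⟨h1.1, by linarith [h1.2]⟩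
  refine ⟨D.indicator (W.mult (envc δ 0) (G.X δ)), hm.indicator hD, ?_, ?_, ?_⟩
  · intro q
    by_cases hq : q ∈ D
    · rw [indicator_of_mem hq]
      exact hml q hq
    · rw [indicator_of_notMem hq]
      norm_num
  · intro q hq hv
    rw [indicator_of_mem hq]
    refine mult_eq hρ hρ' hR hR' W hE (fun y => envc_even 0 y) hX hX' hq (fun x hx hxq => ?_)
    refine ⟨hx, fun v hvV => ?_⟩
    have h1 := hv v hvV
    have h2 := dist_triangle q x v
    rw [dist_comm q x] at h2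
    linarith
  · intro f g
    -- the frame identity for one vector
    have FI := fun k : HD D => frame_id (h := hh δ) hhh hρ hρ' hR hR' W hX hX' hE
      (e₁ := -1) (e₂ := -1) (Or.inr rfl) (Or.inr rfl) k
    have hv : ∀ z : P × P, W.v δ z 0 =
        cls D (W.fam (-1) (-1) (envc δ 0) (hh δ) z.1 z.2) := fun z => C.v_eq_fam W δ z 0
    -- left hand side
    have eL : ∀ z : P × P, (inner ℂ f (W.v δ z 0) : ℂ) * inner ℂ (W.v δ z 0) g =
        ((1 : ℝ) : ℂ) * (conj (inner ℂ (W.v δ z 0) f : ℂ) * inner ℂ (W.v δ z 0) g) := by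
      intro z
      rw [inner_conj_symm]
      push_cast
      ring
    have a1 : ∀ z : P × P, (1 : ℝ) * ‖(inner ℂ (W.v δ z 0) f : ℂ) + inner ℂ (W.v δ z 0) g‖ ^ 2 =
        ‖(inner ℂ (cls D (W.fam (-1) (-1) (envc δ 0) (hh δ) z.1 z.2)) (f + g) : ℂ)‖ ^ 2 := by
      intro z
      rw [hv, inner_add_right, one_mul]
    have a2 : ∀ z : P × P, (1 : ℝ) * ‖(inner ℂ (W.v δ z 0) f : ℂ) - inner ℂ (W.v δ z 0) g‖ ^ 2 =
        ‖(inner ℂ (cls D (W.fam (-1) (-1) (envc δ 0) (hh δ) z.1 z.2)) (f - g) : ℂ)‖ ^ 2 := by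
      intro z
      rw [hv, inner_sub_right, one_mul]
    have a3 : ∀ z : P × P, (1 : ℝ) * ‖(inner ℂ (W.v δ z 0) f : ℂ) +
        Complex.I * inner ℂ (W.v δ z 0) g‖ ^ 2 =
        ‖(inner ℂ (cls D (W.fam (-1) (-1) (envc δ 0) (hh δ) z.1 z.2))
          (f + Complex.I • g) : ℂ)‖ ^ 2 := by
      intro z
      rw [hv, inner_add_right, inner_smul_right, one_mul]
    have a4 : ∀ z : P × P, (1 : ℝ) * ‖(inner ℂ (W.v δ z 0) f : ℂ) -
        Complex.I * inner ℂ (W.v δ z 0) g‖ ^ 2 =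
        ‖(inner ℂ (cls D (W.fam (-1) (-1) (envc δ 0) (hh δ) z.1 z.2))
          (f - Complex.I • g) : ℂ)‖ ^ 2 := by
      intro z
      rw [hv, inner_sub_right, inner_smul_right, one_mul]
    have L := C10.pol (volume.restrict (G.X δ ×ˢ (univ : Set P))) (fun _ => (1 : ℝ))
      (fun z => (inner ℂ (W.v δ z 0) f : ℂ)) (fun z => (inner ℂ (W.v δ z 0) g : ℂ))
      (by simp only [a1]; exact (FI _).1) (by simp only [a2]; exact (FI _).1)
      (by simp only [a3]; exact (FI _).1) (by simp only [a4]; exact (FI _).1)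
    simp only [a1, a2, a3, a4] at L
    rw [(FI _).2, (FI _).2, (FI _).2, (FI _).2] at L
    -- right hand side
    have b0 : ∀ k : HD D, Integrable (fun q => W.mult (envc δ 0) (G.X δ) q * ‖k q‖ ^ 2)
        (volume.restrict D) := by
      intro k
      have hk : Integrable (fun q => ‖k q‖ ^ 2) (volume.restrict D) :=
        (Lp.memLp k).integrable_norm_pow (by norm_num)
      refine hk.bdd_mul (c := 4) hm.aestronglyMeasurable ?_
      filter_upwards [ae_restrict_mem hD] with q hq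
      rw [Real.norm_eq_abs, abs_of_nonneg (hml q hq).1]
      exact (hml q hq).2
    have c1 : (fun q => W.mult (envc δ 0) (G.X δ) q * ‖(f + g : HD D) q‖ ^ 2)
        =ᵐ[volume.restrict D] fun q => W.mult (envc δ 0) (G.X δ) q * ‖f q + g q‖ ^ 2 := by
      filter_upwards [Lp.coeFn_add f g] with q hq
      rw [hq]
      rfl
    have c2 : (fun q => W.mult (envc δ 0) (G.X δ) q * ‖(f - g : HD D) q‖ ^ 2)
        =ᵐ[volume.restrict D] fun q => W.mult (envc δ 0) (G.X δ) q * ‖f q - g q‖ ^ 2 := by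
      filter_upwards [Lp.coeFn_sub f g] with q hq
      rw [hq]
      rfl
    have c3 : (fun q => W.mult (envc δ 0) (G.X δ) q * ‖(f + Complex.I • g : HD D) q‖ ^ 2)
        =ᵐ[volume.restrict D] fun q => W.mult (envc δ 0) (G.X δ) q *
          ‖f q + Complex.I * g q‖ ^ 2 := by
      filter_upwards [Lp.coeFn_add f (Complex.I • g), Lp.coeFn_smul Complex.I g] with q hq hq'
      rw [hq, Pi.add_apply, hq']
      rfl
    have c4 : (fun q => W.mult (envc δ 0) (G.X δ) q * ‖(f - Complex.I • g : HD D) q‖ ^ 2)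
        =ᵐ[volume.restrict D] fun q => W.mult (envc δ 0) (G.X δ) q *
          ‖f q - Complex.I * g q‖ ^ 2 := by
      filter_upwards [Lp.coeFn_sub f (Complex.I • g), Lp.coeFn_smul Complex.I g] with q hq hq'
      rw [hq, Pi.sub_apply, hq']
      rfl
    have Rr := C10.pol (volume.restrict D) (W.mult (envc δ 0) (G.X δ)) (fun q => f q)
      (fun q => g q) ((b0 _).congr c1) ((b0 _).congr c2) ((b0 _).congr c3) ((b0 _).congr c4)
    rw [← integral_congr_ae c1, ← integral_congr_ae c2, ← integral_congr_ae c3,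
      ← integral_congr_ae c4] at Rr
    have hR2 : ∫ q in D, conj (f q) * (((D.indicator (W.mult (envc δ 0) (G.X δ)) q : ℝ) : ℂ) *
        g q) = ∫ q in D, ((W.mult (envc δ 0) (G.X δ) q : ℝ) : ℂ) * (conj (f q) * g q) := by
      refine setIntegral_congr_fun hD (fun q hq => ?_)
      simp only [indicator_of_mem hq]
      ring
    refine ⟨?_, ?_⟩
    · rw [IntegrableOn]
      simp only [eL]
      exact L.1
    · simp only [eL]
      rw [L.2, hR2, Rr.2]
      push_cast
      ring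

end

end Pool.Agent.MP4eed4eR
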