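import Pool.Agent.Lib.MP_4eed4e_an_R.C10

/-!
MP_4eed4e_an, project R, block C, module C11: local frame bounds and Bessel inequalities.
-/

namespace Pool.Agent.MP4eed4eR

open MeasureTheory Set Filter Topology Metric
open scoped ComplexConjugate

noncomputable section

variable {D : Set P}

private theorem c11_far {G : Geo D} {a b : ℝ} (hab : a ≤ b) {x : P} (h : G.Far b x) :
    G.Far a x := fun v hv => hab.trans (h v hv)

private theorem c11_scales {δ : ℝ} (hδ : 0 < δ) :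
    0 < th δ / 4 ∧ 0 < 2 * rad δ ∧ 2 * (2 * rad δ) ≤ th δ / 4 := by
  have h1 := C.th_pos hδ
  have h2 := C.rad_pos hδ
  have h3 := (C.tau_rad δ).2.1
  refine ⟨by linarith, by linarith, ?_⟩
  rw [h3]
  linarith

private theorem c11_sq_int (f : HD D) :
    Integrable (fun q => ‖(f : P → ℂ) q‖ ^ 2) (volume.restrict D) :=
  (memLp_two_iff_integrable_sq_norm (Lp.memLp f).1).1 (Lp.memLp f)

/-- The frame bound for subsets: if all centres near the points of `A` belong to `X`, then the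
mass in `A` is controlled by the packets with centres in `X`.

Proof. `frame_id` for `X`, `E = envc δ 0`: the integral over `X ×ˢ univ` is
`(2 π h)² ∫_D W.mult E X q ‖f q‖²`; the multiplier is nonnegative (`mult_le`) and equal to
`∫ ‖E‖² = cst δ` on `A` (`mult_eq`). Pass to `lintegral` by `ofReal_integral_eq_lintegral_ofReal`
(integrability from `frame_id`); `0 < (2 π h)²`. -/
theorem frame_loc (G : Geo D) : ∀ᶠ δ in 𝓝[>] (0 : ℝ), ∀ W : Walls G (th δ / 4),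
    ∀ X A : Set P, MeasurableSet X → X ⊆ G.X δ → MeasurableSet A → A ⊆ D →
      (∀ q ∈ A, ∀ x ∈ D, dist x q ≤ th δ / 32 → x ∈ X) → ∀ f : HD D,
      ENNReal.ofReal (cst δ * mass A f) ≤ ENNReal.ofReal (((2 * Real.pi * hh δ) ^ 2)⁻¹) *
        ∫⁻ z in X ×ˢ (univ : Set P), ENNReal.ofReal (‖(inner ℂ (W.v δ z 0) f : ℂ)‖ ^ 2) := by
  filter_upwards [C.ev_geo G] with δ hδ W X A hX hXs hA hAD hall f
  obtain ⟨hδ0, -, hρ', -⟩ := hδ
  obtain ⟨hρ, hR, hR'⟩ := c11_scales hδ0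
  have hh0 := C.hh_pos hδ0
  have hth := C.th_pos hδ0
  have hE := env_envc hδ0 0
  have hX' : ∀ x ∈ X, x ∈ closure D ∧ G.Far (th δ / 4) x := fun x hx =>
    ⟨subset_closure (hXs hx).1, c11_far (by linarith) (hXs hx).2⟩
  obtain ⟨hint, hval⟩ := frame_id hh0 hρ hρ' hR hR' W hX hX' hE (Or.inr rfl : (-1 : ℝ) = 1 ∨ _)
    (Or.inr rfl : (-1 : ℝ) = 1 ∨ _) f
  have e1 : ∀ z : P × P, W.v δ z 0 = cls D (W.fam (-1) (-1) (envc δ 0) (hh δ) z.1 z.2) :=
    fun z => C.v_eq_fam W δ z 0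
  simp only [e1]
  rw [← ofReal_integral_eq_lintegral_ofReal hint (Eventually.of_forall fun z => by positivity),
    hval, ← ENNReal.ofReal_mul (by positivity)]
  refine ENNReal.ofReal_le_ofReal ?_
  have hpos : (0 : ℝ) < (2 * Real.pi * hh δ) ^ 2 := by
    have := Real.pi_pos
    positivity
  rw [inv_mul_cancel_left₀ hpos.ne']
  have hm : Measurable (W.mult (envc δ 0) X) := C.meas_mult W hE X hX
  have hDm : MeasurableSet D := G.isOpen.measurableSet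
  have hmi : Integrable (fun q => W.mult (envc δ 0) X q * ‖(f : P → ℂ) q‖ ^ 2)
      (volume.restrict D) := by
    refine Integrable.mono' ((c11_sq_int f).const_mul (4 * ∫ y, ‖envc δ 0 y‖ ^ 2))
      (hm.aestronglyMeasurable.mul (c11_sq_int f).1) ?_
    filter_upwards [ae_restrict_mem hDm] with q hq
    obtain ⟨h1, h2⟩ := mult_le hρ hρ' hR hR' W hE hX hX' hq
    rw [Real.norm_eq_abs, abs_mul, abs_of_nonneg h1, abs_of_nonneg (by positivity)]
    exact mul_le_mul_of_nonneg_right h2 (by positivity)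
  unfold mass
  rw [← integral_const_mul]
  have e2 : ∫ q in A ∩ D, cst δ * ‖(f : P → ℂ) q‖ ^ 2 =
      ∫ q in A ∩ D, W.mult (envc δ 0) X q * ‖(f : P → ℂ) q‖ ^ 2 := by
    refine setIntegral_congr_fun (hA.inter hDm) fun q hq => ?_
    have h1 := mult_eq hρ hρ' hR hR' W hE (envc_even 0) hX hX' hq.2
      (fun x hx hd => hall q hq.1 x hx (by rw [(C.tau_rad δ).2.2]; exact hd))
    show cst δ * ‖(f : P → ℂ) q‖ ^ 2 = W.mult (envc δ 0) X q * ‖(f : P → ℂ) q‖ ^ 2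
    rw [h1]
    rfl
  rw [e2]
  refine setIntegral_mono_set hmi ?_ (Eventually.of_forall fun q hq => hq.2)
  filter_upwards [ae_restrict_mem hDm] with q hq
  have h1 := (mult_le hρ hρ' hR hR' W hE hX hX' hq).1
  show 0 ≤ W.mult (envc δ 0) X q * ‖(f : P → ℂ) q‖ ^ 2
  positivity

/-- Bessel's inequality for general envelopes: `bessel` and `frame_id` (integrability) for
`X = G.Y δ`. -/
theorem bessel_fam (G : Geo D) : ∀ᶠ δ in 𝓝[>] (0 : ℝ), ∀ W : Walls G (th δ / 4),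
    ∀ E : P → ℂ, Env E (2 * rad δ) → ∀ e₁ e₂ : ℝ, (e₁ = 1 ∨ e₁ = -1) → (e₂ = 1 ∨ e₂ = -1) →
    ∀ f : HD D, ∫⁻ z in G.Y δ ×ˢ (univ : Set P),
        ENNReal.ofReal (‖(inner ℂ (cls D (W.fam e₁ e₂ E (hh δ) z.1 z.2)) f : ℂ)‖ ^ 2) ≤
      ENNReal.ofReal (4 * (2 * Real.pi * hh δ) ^ 2 * (∫ y, ‖E y‖ ^ 2) * ‖f‖ ^ 2) := by
  filter_upwards [C.ev_geo G] with δ hδ W E hE e₁ e₂ he₁ he₂ f
  obtain ⟨hδ0, -, hρ', -⟩ := hδ
  obtain ⟨hρ, hR, hR'⟩ := c11_scales hδ0
  have hh0 := C.hh_pos hδ0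
  have hth := C.th_pos hδ0
  have hX' : ∀ x ∈ G.Y δ, x ∈ closure D ∧ G.Far (th δ / 4) x := fun x hx =>
    ⟨hx.1, c11_far (by linarith) hx.2⟩
  have hint := (frame_id hh0 hρ hρ' hR hR' W (C.meas_Y G δ) hX' hE he₁ he₂ f).1
  rw [← ofReal_integral_eq_lintegral_ofReal hint (Eventually.of_forall fun z => by positivity)]
  exact ENNReal.ofReal_le_ofReal
    (bessel hh0 hρ hρ' hR hR' W (C.meas_Y G δ) hX' hE he₁ he₂ f)

/-- Bessel's inequality for packets: `bessel_fam`, `v_eq_fam`, `env_envc`, `envc_norm_le`. -/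
theorem bessel_v (G : Geo D) : ∀ᶠ δ in 𝓝[>] (0 : ℝ), ∀ W : Walls G (th δ / 4),
    ∀ s : ℝ, ∀ f : HD D, ∫⁻ z in G.Y δ ×ˢ (univ : Set P),
        ENNReal.ofReal (‖(inner ℂ (W.v δ z s) f : ℂ)‖ ^ 2) ≤
      ENNReal.ofReal (4 * (2 * Real.pi * hh δ) ^ 2 * ‖f‖ ^ 2) := by
  filter_upwards [C.ev_geo G, bessel_fam G] with δ hδ hb W s f
  have hδ0 := hδ.1
  have e1 : ∀ z : P × P, W.v δ z s = cls D (W.fam (-1) (-1) (envc δ s) (hh δ) z.1 z.2) :=
    fun z => C.v_eq_fam W δ z s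
  simp only [e1]
  refine (hb W (envc δ s) (env_envc hδ0 s) (-1) (-1) (Or.inr rfl) (Or.inr rfl) f).trans
    (ENNReal.ofReal_le_ofReal ?_)
  have h1 := envc_norm_le hδ0 s
  have h2 : 4 * (2 * Real.pi * hh δ) ^ 2 * (∫ y, ‖envc δ s y‖ ^ 2) ≤
      4 * (2 * Real.pi * hh δ) ^ 2 * 1 := mul_le_mul_of_nonneg_left h1 (by positivity)
  rw [mul_one] at h2
  exact mul_le_mul_of_nonneg_right h2 (by positivity)

end

end Pool.Agent.MP4eed4eR
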