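import Pool.Agent.Lib.MP_4eed4e_an_R.Base

/-!
MP_4eed4e_an, project R, block C, module C12: the domain beyond its walls.
-/

namespace Pool.Agent.MP4eed4eR

open MeasureTheory Set Filter Topology Metric

noncomputable section

variable {D : Set P}

/-- Proof: the segment is contained in the union of the open sets `D` and `(closure D)ᶜ`
(`G.front`, `G.isOpen`), it is preconnected and meets `D`
(`IsPreconnected.subset_left_of_subset_union`). -/
theorem C.seg_mem (G : Geo D) {q p : P} (hq : q ∈ D)
    (hs : ∀ u ∈ segment ℝ q p, u.1 ∉ G.A ∧ u.2 ∉ G.B) : p ∈ D := by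
  have hpre : IsPreconnected (segment ℝ q p) := (convex_segment q p).isPreconnected
  have hsub : segment ℝ q p ⊆ D ∪ (closure D)ᶜ := by
    intro u hu
    by_cases h : u ∈ closure D
    · left
      by_contra hD
      have hf : u ∈ frontier D := by
        rw [G.isOpen.frontier_eq]
        exact ⟨h, hD⟩
      rcases G.front u hf with h1 | h1
      · exact (hs u hu).1 h1
      · exact (hs u hu).2 h1
    · right; exact h
  have hdisj : Disjoint D (closure D)ᶜ := by
    rw [Set.disjoint_compl_right_iff_subset]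
    exact subset_closure
  have := hpre.subset_left_of_subset_union G.isOpen isClosed_closure.isOpen_compl hdisj hsub
    ⟨q, left_mem_segment ℝ q p, hq⟩
  exact this (right_mem_segment ℝ q p)

private theorem c12_avoid (B : Finset ℝ) (y ε : ℝ) (hε : 0 < ε) :
    ∃ y' : ℝ, |y' - y| < ε ∧ y' ∉ B := by
  have hinf : (Set.Ioo (y - ε) (y + ε)).Infinite := Set.Ioo_infinite (by linarith)
  obtain ⟨y', hy', hB⟩ := hinf.exists_notMem_finset B
  refine ⟨y', ?_, hB⟩
  rw [abs_lt]
  constructor <;> linarith [hy'.1, hy'.2]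

private theorem c12_sgn {s : ℝ} (h : IsSgn s) (h0 : s ≠ 0) : s * s = 1 ∧ |s| = 1 := by
  rcases h with h | h | h
  · exact absurd h h0
  · subst h; norm_num
  · subst h; norm_num

private theorem c12_notA {A : Finset ℝ} {r : ℝ}
    (gap : ∀ a ∈ A, ∀ a' ∈ A, a ≠ a' → 16 * r ≤ |a - a'|) {a u : ℝ} (ha : a ∈ A)
    (hu : u ≠ a) (hu2 : |u - a| < 16 * r) : u ∉ A := by
  intro h
  have := gap u h a ha hu
  linarith

private theorem c12_ball {q : P} {r : ℝ} {y z : ℝ} (hy : |y - q.1| < r) (hz : |z - q.2| < r) :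
    ((y, z) : P) ∈ ball q r := by
  rw [mem_ball, Prod.dist_eq]
  exact max_lt (by rw [Real.dist_eq]; exact hy) (by rw [Real.dist_eq]; exact hz)

private theorem c12_abs_mul {s : ℝ} (hs : s * s = 1) (hs1 : |s| = 1) (u v : ℝ) :
    |(u - s * v) - u| = |v| := by
  have : (u - s * v) - u = -(s * v) := by ring
  rw [this, abs_neg, abs_mul, hs1, one_mul]

private theorem c12_corner (G : Geo D) {a b : ℝ} (ha : a ∈ G.A) (hb : b ∈ G.B) {q : P}
    (hq : q ∈ D) (h1 : q.1 ≠ a) (h2 : q.2 ≠ b) (h3 : |q.1 - a| < 16 * G.rho0)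
    (h4 : |q.2 - b| < 16 * G.rho0) {ε : ℝ} (hε : 0 < ε) (hε1 : ε ≤ 1) :
    ((a + ε * (q.1 - a), b + ε * (q.2 - b)) : P) ∈ D := by
  refine C.seg_mem G hq ?_
  rintro u ⟨α, β, hα, hβ, hαβ, rfl⟩
  have hv0 : 0 < α + β * ε := by
    rcases hα.eq_or_lt with h | h
    · have : β = 1 := by linarith
      subst this; rw [← h]; linarith
    · have := mul_nonneg hβ hε.le
      linarith
  have hv1 : α + β * ε ≤ 1 := by nlinarith
  constructor
  · have e : (α • q + β • ((a + ε * (q.1 - a), b + ε * (q.2 - b)) : P)).1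
        = a + (α + β * ε) * (q.1 - a) := by
      have : β = 1 - α := by linarith
      simp only [Prod.fst_add, Prod.smul_fst, smul_eq_mul]
      subst this; ring
    rw [e]
    refine c12_notA G.gapA ha ?_ ?_
    · intro h
      have : (α + β * ε) * (q.1 - a) = 0 := by linarith
      rcases mul_eq_zero.1 this with h' | h'
      · linarith
      · exact h1 (by linarith)
    · have e2 : a + (α + β * ε) * (q.1 - a) - a = (α + β * ε) * (q.1 - a) := by ring
      rw [e2, abs_mul, abs_of_pos hv0]
      calc (α + β * ε) * |q.1 - a| ≤ 1 * |q.1 - a| :=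
            mul_le_mul_of_nonneg_right hv1 (abs_nonneg _)
        _ < 16 * G.rho0 := by linarith
  · have e : (α • q + β • ((a + ε * (q.1 - a), b + ε * (q.2 - b)) : P)).2
        = b + (α + β * ε) * (q.2 - b) := by
      have : β = 1 - α := by linarith
      simp only [Prod.snd_add, Prod.smul_snd, smul_eq_mul]
      subst this; ring
    rw [e]
    refine c12_notA G.gapB hb ?_ ?_
    · intro h
      have : (α + β * ε) * (q.2 - b) = 0 := by linarith
      rcases mul_eq_zero.1 this with h' | h'
      · linarith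
      · exact h2 (by linarith)
    · have e2 : b + (α + β * ε) * (q.2 - b) - b = (α + β * ε) * (q.2 - b) := by ring
      rw [e2, abs_mul, abs_of_pos hv0]
      calc (α + β * ε) * |q.2 - b| ≤ 1 * |q.2 - b| :=
            mul_le_mul_of_nonneg_right hv1 (abs_nonneg _)
        _ < 16 * G.rho0 := by linarith

/-- Small `ε` for which the corner point is in the ball. -/
private theorem c12_small {a b ρ : ℝ} {x : P} (ha : |a - x.1| < ρ) (hb : |b - x.2| < ρ)
    (c d : ℝ) : ∃ ε : ℝ, 0 < ε ∧ ε ≤ 1 ∧ ((a + ε * c, b + ε * d) : P) ∈ ball x ρ := by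
  have hc : ContinuousAt (fun ε : ℝ => ((a + ε * c, b + ε * d) : P)) 0 :=
    (((continuous_const.add (continuous_id.mul continuous_const)).prodMk
      (continuous_const.add (continuous_id.mul continuous_const)))).continuousAt
  have h0 : ((a + (0 : ℝ) * c, b + (0 : ℝ) * d) : P) ∈ ball x ρ := by
    rw [zero_mul, zero_mul, add_zero, add_zero]
    exact c12_ball ha hb
  have h1 := hc.eventually (isOpen_ball.mem_nhds h0)
  obtain ⟨δ, hδ, h2⟩ := Metric.eventually_nhds_iff.1 h1
  refine ⟨min (δ / 2) 1, lt_min (by linarith) one_pos, min_le_right _ _, ?_⟩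
  apply h2
  rw [Real.dist_eq, sub_zero, abs_of_pos (lt_min (by linarith) one_pos)]
  exact (min_le_left _ _).trans_lt (by linarith)

/-- Proof: `y` is a limit of points of `D ∩ ball x ρ`, for which `W.model` gives
`wIn`; the statement is trivial if the sign is `0`. -/
theorem C.clo_side {G : Geo D} {ρ : ℝ} (W : Walls G ρ) {x y : P} (hx : x ∈ closure D)
    (hfar : G.Far ρ x) (hy : y ∈ closure D) (hyx : dist y x < ρ) :
    0 ≤ (W.w1 x).2 * (y.1 - (W.w1 x).1) ∧ 0 ≤ (W.w2 x).2 * (y.2 - (W.w2 x).1) := by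
  have hy' : y ∈ closure (D ∩ ball x ρ) := by
    rw [_root_.mem_closure_iff]
    intro o ho hyo
    obtain ⟨z, hz⟩ := _root_.mem_closure_iff.1 hy (o ∩ ball x ρ) (ho.inter isOpen_ball)
      ⟨hyo, by rw [mem_ball]; exact hyx⟩
    exact ⟨z, hz.1.1, hz.2, hz.1.2⟩
  have hcl : IsClosed {z : P | 0 ≤ (W.w1 x).2 * (z.1 - (W.w1 x).1) ∧
      0 ≤ (W.w2 x).2 * (z.2 - (W.w2 x).1)} := by
    apply IsClosed.inter
    · exact isClosed_le continuous_const
        (continuous_const.mul (continuous_fst.sub continuous_const))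
    · exact isClosed_le continuous_const
        (continuous_const.mul (continuous_snd.sub continuous_const))
  have hsub : D ∩ ball x ρ ⊆ {z : P | 0 ≤ (W.w1 x).2 * (z.1 - (W.w1 x).1) ∧
      0 ≤ (W.w2 x).2 * (z.2 - (W.w2 x).1)} := by
    rintro z ⟨hzD, hzb⟩
    obtain ⟨g1, g2⟩ := (W.model x hx hfar z hzb).1 hzD
    constructor
    · rcases g1 with g | g
      · rw [g, zero_mul]
      · exact g.le
    · rcases g2 with g | g
      · rw [g, zero_mul]
      · exact g.le
  exact closure_minimal hsub hcl hy'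

/-- Beyond a vertical wall `a` there is no point of `D`.

Proof. Let `s` be the sign. Otherwise, as `D` is open and `B` is finite, there is `q' ∈ D` close
to `q` with `s (q'.1 - a) < 0`, `q'.2 ∉ B` and the same strict inequalities. The segment from `q'`
to `p = (a - s ε, q'.2)` (`ε > 0` small, `|p.1 - x.1| < ρ` because `|a - x.1| < ρ`, `W.near1`)
consists of points `(u, q'.2)` with `0 < |u - a| < 16 rho0`, so `u ∉ A` (`G.gapA`, `a ∈ A` by
`W.near1`). By `seg_mem` `p ∈ D`, but `p ∈ ball x ρ` is beyond the wall: contradiction to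
`W.model`. -/
theorem C.side1 {G : Geo D} {ρ : ℝ} (hρ : 0 < ρ) (W : Walls G ρ) {x : P} (hx : x ∈ closure D)
    (hfar : G.Far ρ x) (h1 : (W.w1 x).2 ≠ 0) {q : P} (hq : q ∈ D)
    (hq1 : |q.1 - (W.w1 x).1| < 16 * G.rho0) (hq2 : |q.2 - x.2| < ρ) :
    0 < (W.w1 x).2 * (q.1 - (W.w1 x).1) := by
  obtain ⟨haA, hax⟩ := W.near1 x h1
  obtain ⟨hss, hs1⟩ := c12_sgn (W.sgn1 x) h1
  have hmod := W.model x hx hfar
  revert h1 hq1 haA hax hss hs1 hmod
  generalize W.w1 x = w
  generalize W.w2 x = w2
  obtain ⟨a, s⟩ := w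
  intro h1 hq1 haA hax hss hs1 hmod
  simp only at *
  by_contra hcon
  rw [not_lt] at hcon
  obtain ⟨r, hr, hball⟩ := Metric.isOpen_iff.1 G.isOpen q hq
  obtain ⟨y', hy1, hyB⟩ := c12_avoid G.B q.2 (min r (ρ - |q.2 - x.2|))
    (lt_min hr (by linarith))
  have hy2 : |y' - q.2| < r := hy1.trans_le (min_le_left _ _)
  have hy3 : |y' - x.2| < ρ := by
    have e : y' - x.2 = (y' - q.2) + (q.2 - x.2) := by ring
    have := hy1.trans_le (min_le_right _ _)
    rw [e]
    exact (abs_add_le _ _).trans_lt (by linarith)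
  obtain ⟨η, hη0, hη⟩ := exists_between (lt_min hr (sub_pos.2 hq1))
  have hη1 : η < r := hη.trans_le (min_le_left _ _)
  have hη2 : η < 16 * G.rho0 - |q.1 - a| := hη.trans_le (min_le_right _ _)
  have hx' : |(q.1 - s * η) - q.1| = η := by rw [c12_abs_mul hss hs1, abs_of_pos hη0]
  have hq'D : ((q.1 - s * η, y') : P) ∈ D := hball (c12_ball (by rw [hx']; exact hη1) hy2)
  have hneg : s * ((q.1 - s * η) - a) < 0 := by
    have e : s * ((q.1 - s * η) - a) = s * (q.1 - a) - (s * s) * η := by ring
    rw [e, hss]; linarith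
  have habs : |(q.1 - s * η) - a| < 16 * G.rho0 := by
    have e : (q.1 - s * η) - a = ((q.1 - s * η) - q.1) + (q.1 - a) := by ring
    rw [e]
    exact (abs_add_le _ _).trans_lt (by rw [hx']; linarith)
  -- the point beyond the wall
  obtain ⟨ε, hε0, hε⟩ := exists_between (lt_min (sub_pos.2 hax)
    (mul_pos (by norm_num : (0 : ℝ) < 16) G.pos))
  have hε1 : ε < ρ - |a - x.1| := hε.trans_le (min_le_left _ _)
  have hε2 : ε < 16 * G.rho0 := hε.trans_le (min_le_right _ _)
  have hpD : ((a - s * ε, y') : P) ∈ D := by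
    refine C.seg_mem G hq'D ?_
    rintro u ⟨α, β, hα, hβ, hαβ, rfl⟩
    constructor
    · have e : (α • ((q.1 - s * η, y') : P) + β • ((a - s * ε, y') : P)).1 - a
          = α * ((q.1 - s * η) - a) + β * (-(s * ε)) := by
        have : β = 1 - α := by linarith
        simp only [Prod.fst_add, Prod.smul_fst, smul_eq_mul]
        subst this; ring
      refine c12_notA G.gapA haA ?_ ?_
      · intro h
        have h' : α * ((q.1 - s * η) - a) + β * (-(s * ε)) = 0 := by
          rw [← e, h, sub_self]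
        have h'' : α * (s * ((q.1 - s * η) - a)) + β * (-((s * s) * ε)) = 0 := by
          have : α * (s * ((q.1 - s * η) - a)) + β * (-((s * s) * ε))
            = s * (α * ((q.1 - s * η) - a) + β * (-(s * ε))) := by ring
          rw [this, h', mul_zero]
        rw [hss, one_mul] at h''
        rcases hα.eq_or_lt with h0 | h0
        · have : β = 1 := by linarith
          rw [← h0, this] at h''
          linarith
        · have := mul_neg_of_pos_of_neg h0 hneg
          have := mul_nonneg hβ hε0.le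
          linarith
      · rw [e]
        have hsε : |-(s * ε)| = ε := by
          rw [abs_neg, abs_mul, hs1, one_mul, abs_of_pos hε0]
        have g1 : |α * ((q.1 - s * η) - a)| = α * |(q.1 - s * η) - a| := by
          rw [abs_mul, abs_of_nonneg hα]
        have g2 : |β * (-(s * ε))| = β * ε := by
          rw [abs_mul, abs_of_nonneg hβ, hsε]
        refine (abs_add_le _ _).trans_lt ?_
        rw [g1, g2]
        rcases hα.eq_or_lt with h0 | h0
        · have : β = 1 := by linarith
          rw [← h0, this]; linarith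
        · have k1 := mul_lt_mul_of_pos_left habs h0
          have k2 := mul_le_mul_of_nonneg_left hε2.le hβ
          have k3 : α * (16 * G.rho0) + β * (16 * G.rho0) = 16 * G.rho0 := by
            rw [← add_mul, hαβ, one_mul]
          linarith
    · have e : (α • ((q.1 - s * η, y') : P) + β • ((a - s * ε, y') : P)).2 = y' := by
        simp only [Prod.snd_add, Prod.smul_snd, smul_eq_mul]
        rw [← add_mul, hαβ, one_mul]
      rw [e]; exact hyB
  have hpb : ((a - s * ε, y') : P) ∈ ball x ρ := by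
    refine c12_ball ?_ hy3
    have e : a - s * ε - x.1 = ((a - s * ε) - a) + (a - x.1) := by ring
    rw [e]
    refine (abs_add_le _ _).trans_lt ?_
    rw [c12_abs_mul hss hs1, abs_of_pos hε0]; linarith
  obtain ⟨g, -⟩ := (hmod _ hpb).1 hpD
  rcases g with g | g
  · exact h1 g
  · have e : s * ((a - s * ε) - a) = -((s * s) * ε) := by ring
    simp only at g
    rw [e, hss] at g
    linarith

/-- The same for horizontal walls. -/
theorem C.side2 {G : Geo D} {ρ : ℝ} (hρ : 0 < ρ) (W : Walls G ρ) {x : P} (hx : x ∈ closure D)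
    (hfar : G.Far ρ x) (h2 : (W.w2 x).2 ≠ 0) {q : P} (hq : q ∈ D)
    (hq2 : |q.2 - (W.w2 x).1| < 16 * G.rho0) (hq1 : |q.1 - x.1| < ρ) :
    0 < (W.w2 x).2 * (q.2 - (W.w2 x).1) := by
  obtain ⟨hbB, hbx⟩ := W.near2 x h2
  obtain ⟨hss, hs1⟩ := c12_sgn (W.sgn2 x) h2
  have hmod := W.model x hx hfar
  revert h2 hq2 hbB hbx hss hs1 hmod
  generalize W.w1 x = w
  generalize W.w2 x = w2
  obtain ⟨b, s⟩ := w2
  intro h2 hq2 hbB hbx hss hs1 hmod
  simp only at *
  by_contra hcon
  rw [not_lt] at hcon
  obtain ⟨r, hr, hball⟩ := Metric.isOpen_iff.1 G.isOpen q hq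
  obtain ⟨y', hy1, hyA⟩ := c12_avoid G.A q.1 (min r (ρ - |q.1 - x.1|))
    (lt_min hr (by linarith))
  have hy2 : |y' - q.1| < r := hy1.trans_le (min_le_left _ _)
  have hy3 : |y' - x.1| < ρ := by
    have e : y' - x.1 = (y' - q.1) + (q.1 - x.1) := by ring
    have := hy1.trans_le (min_le_right _ _)
    rw [e]
    exact (abs_add_le _ _).trans_lt (by linarith)
  obtain ⟨η, hη0, hη⟩ := exists_between (lt_min hr (sub_pos.2 hq2))
  have hη1 : η < r := hη.trans_le (min_le_left _ _)
  have hη2 : η < 16 * G.rho0 - |q.2 - b| := hη.trans_le (min_le_right _ _)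
  have hx' : |(q.2 - s * η) - q.2| = η := by rw [c12_abs_mul hss hs1, abs_of_pos hη0]
  have hq'D : ((y', q.2 - s * η) : P) ∈ D := hball (c12_ball hy2 (by rw [hx']; exact hη1))
  have hneg : s * ((q.2 - s * η) - b) < 0 := by
    have e : s * ((q.2 - s * η) - b) = s * (q.2 - b) - (s * s) * η := by ring
    rw [e, hss]; linarith
  have habs : |(q.2 - s * η) - b| < 16 * G.rho0 := by
    have e : (q.2 - s * η) - b = ((q.2 - s * η) - q.2) + (q.2 - b) := by ring
    rw [e]
    exact (abs_add_le _ _).trans_lt (by rw [hx']; linarith)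
  -- the point beyond the wall
  obtain ⟨ε, hε0, hε⟩ := exists_between (lt_min (sub_pos.2 hbx)
    (mul_pos (by norm_num : (0 : ℝ) < 16) G.pos))
  have hε1 : ε < ρ - |b - x.2| := hε.trans_le (min_le_left _ _)
  have hε2 : ε < 16 * G.rho0 := hε.trans_le (min_le_right _ _)
  have hpD : ((y', b - s * ε) : P) ∈ D := by
    refine C.seg_mem G hq'D ?_
    rintro u ⟨α, β, hα, hβ, hαβ, rfl⟩
    constructor
    · have e : (α • ((y', q.2 - s * η) : P) + β • ((y', b - s * ε) : P)).1 = y' := by
        simp only [Prod.fst_add, Prod.smul_fst, smul_eq_mul]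
        rw [← add_mul, hαβ, one_mul]
      rw [e]; exact hyA
    · have e : (α • ((y', q.2 - s * η) : P) + β • ((y', b - s * ε) : P)).2 - b
          = α * ((q.2 - s * η) - b) + β * (-(s * ε)) := by
        have : β = 1 - α := by linarith
        simp only [Prod.snd_add, Prod.smul_snd, smul_eq_mul]
        subst this; ring
      refine c12_notA G.gapB hbB ?_ ?_
      · intro h
        have h' : α * ((q.2 - s * η) - b) + β * (-(s * ε)) = 0 := by
          rw [← e, h, sub_self]
        have h'' : α * (s * ((q.2 - s * η) - b)) + β * (-((s * s) * ε)) = 0 := by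
          have : α * (s * ((q.2 - s * η) - b)) + β * (-((s * s) * ε))
            = s * (α * ((q.2 - s * η) - b) + β * (-(s * ε))) := by ring
          rw [this, h', mul_zero]
        rw [hss, one_mul] at h''
        rcases hα.eq_or_lt with h0 | h0
        · have : β = 1 := by linarith
          rw [← h0, this] at h''
          linarith
        · have := mul_neg_of_pos_of_neg h0 hneg
          have := mul_nonneg hβ hε0.le
          linarith
      · rw [e]
        have hsε : |-(s * ε)| = ε := by
          rw [abs_neg, abs_mul, hs1, one_mul, abs_of_pos hε0]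
        have g1 : |α * ((q.2 - s * η) - b)| = α * |(q.2 - s * η) - b| := by
          rw [abs_mul, abs_of_nonneg hα]
        have g2 : |β * (-(s * ε))| = β * ε := by
          rw [abs_mul, abs_of_nonneg hβ, hsε]
        refine (abs_add_le _ _).trans_lt ?_
        rw [g1, g2]
        rcases hα.eq_or_lt with h0 | h0
        · have : β = 1 := by linarith
          rw [← h0, this]; linarith
        · have k1 := mul_lt_mul_of_pos_left habs h0
          have k2 := mul_le_mul_of_nonneg_left hε2.le hβ
          have k3 : α * (16 * G.rho0) + β * (16 * G.rho0) = 16 * G.rho0 := by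
            rw [← add_mul, hαβ, one_mul]
          linarith
  have hpb : ((y', b - s * ε) : P) ∈ ball x ρ := by
    refine c12_ball hy3 ?_
    have e : b - s * ε - x.2 = ((b - s * ε) - b) + (b - x.2) := by ring
    rw [e]
    refine (abs_add_le _ _).trans_lt ?_
    rw [c12_abs_mul hss hs1, abs_of_pos hε0]; linarith
  obtain ⟨-, g⟩ := (hmod _ hpb).1 hpD
  rcases g with g | g
  · exact h2 g
  · have e : s * ((b - s * ε) - b) = -((s * s) * ε) := by ring
    simp only at g
    rw [e, hss] at g
    linarith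

/-- Near a corner `(a, b)`.

Proof. Let for example `s (q.1 - a) ≤ 0`, `s` the first sign. There is `q' ∈ D` close to `q` with
`s (q'.1 - a) < 0`, `q'.2 ≠ b` and the same strict inequalities. The segment from `q'` to
`p = (a + ε (q'.1 - a), b + ε (q'.2 - b))`, `0 < ε < 1` small, consists of points
`(a + v (q'.1 - a), b + v (q'.2 - b))`, `ε ≤ v ≤ 1`, which are not on the grid lines (`G.gapA`,
`G.gapB`). So `p ∈ D`, but `p ∈ ball x ρ` (as `|a - x.1| < ρ`, `|b - x.2| < ρ`) is beyond the
wall. -/
theorem C.side12 {G : Geo D} {ρ : ℝ} (hρ : 0 < ρ) (W : Walls G ρ) {x : P} (hx : x ∈ closure D)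
    (hfar : G.Far ρ x) (h1 : (W.w1 x).2 ≠ 0) (h2 : (W.w2 x).2 ≠ 0) {q : P} (hq : q ∈ D)
    (hq1 : |q.1 - (W.w1 x).1| < 16 * G.rho0) (hq2 : |q.2 - (W.w2 x).1| < 16 * G.rho0) :
    0 < (W.w1 x).2 * (q.1 - (W.w1 x).1) ∧ 0 < (W.w2 x).2 * (q.2 - (W.w2 x).1) := by
  obtain ⟨haA, hax⟩ := W.near1 x h1
  obtain ⟨hss, hs1⟩ := c12_sgn (W.sgn1 x) h1
  obtain ⟨hbB, hbx⟩ := W.near2 x h2
  obtain ⟨htt, ht1⟩ := c12_sgn (W.sgn2 x) h2
  have hmod := W.model x hx hfar
  revert h1 hq1 haA hax hss hs1 h2 hq2 hbB hbx htt ht1 hmod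
  generalize W.w1 x = w
  generalize W.w2 x = w2
  obtain ⟨a, s⟩ := w
  obtain ⟨b, t⟩ := w2
  intro h1 h2 hq1 hq2 haA hax hss hs1 hbB hbx htt ht1 hmod
  simp only at *
  obtain ⟨r, hr, hball⟩ := Metric.isOpen_iff.1 G.isOpen q hq
  -- a nearby point of `D`
  have main : ∀ q' : P, q' ∈ D → q'.1 ≠ a → q'.2 ≠ b → |q'.1 - a| < 16 * G.rho0 →
      |q'.2 - b| < 16 * G.rho0 → 0 < s * (q'.1 - a) ∧ 0 < t * (q'.2 - b) := by
    intro q' hq' k1 k2 k3 k4
    obtain ⟨ε, hε, hε1, hb⟩ := c12_small hax hbx (q'.1 - a) (q'.2 - b)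
    have hD := c12_corner G haA hbB hq' k1 k2 k3 k4 hε hε1
    obtain ⟨g1, g2⟩ := (hmod _ hb).1 hD
    constructor
    · rcases g1 with g | g
      · exact absurd g h1
      · have e : s * ((a + ε * (q'.1 - a)) - a) = ε * (s * (q'.1 - a)) := by ring
        simp only at g
        rw [e] at g
        exact (mul_pos_iff_of_pos_left hε).1 g
    · rcases g2 with g | g
      · exact absurd g h2
      · have e : t * ((b + ε * (q'.2 - b)) - b) = ε * (t * (q'.2 - b)) := by ring
        simp only at g
        rw [e] at g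
        exact (mul_pos_iff_of_pos_left hε).1 g
  constructor
  · by_contra hcon
    rw [not_lt] at hcon
    obtain ⟨y', hy1, hyB⟩ := c12_avoid G.B q.2 (min r (16 * G.rho0 - |q.2 - b|))
      (lt_min hr (by linarith))
    have hy2 : |y' - q.2| < r := hy1.trans_le (min_le_left _ _)
    have hy3 : |y' - b| < 16 * G.rho0 := by
      have e : y' - b = (y' - q.2) + (q.2 - b) := by ring
      have := hy1.trans_le (min_le_right _ _)
      rw [e]
      exact (abs_add_le _ _).trans_lt (by linarith)
    obtain ⟨η, hη0, hη⟩ := exists_between (lt_min hr (sub_pos.2 hq1))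
    have hη1 : η < r := hη.trans_le (min_le_left _ _)
    have hη2 : η < 16 * G.rho0 - |q.1 - a| := hη.trans_le (min_le_right _ _)
    have hx' : |(q.1 - s * η) - q.1| = η := by rw [c12_abs_mul hss hs1, abs_of_pos hη0]
    have hq'D : ((q.1 - s * η, y') : P) ∈ D := hball (c12_ball (by rw [hx']; exact hη1) hy2)
    have hneg : s * ((q.1 - s * η) - a) < 0 := by
      have e : s * ((q.1 - s * η) - a) = s * (q.1 - a) - (s * s) * η := by ring
      rw [e, hss]; linarith
    have habs : |(q.1 - s * η) - a| < 16 * G.rho0 := by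
      have e : (q.1 - s * η) - a = ((q.1 - s * η) - q.1) + (q.1 - a) := by ring
      rw [e]
      exact (abs_add_le _ _).trans_lt (by rw [hx']; linarith)
    have hna : q.1 - s * η ≠ a := by
      intro h
      rw [h, sub_self, mul_zero] at hneg
      exact lt_irrefl _ hneg
    have hnb : y' ≠ b := fun h => hyB (h ▸ hbB)
    have := (main _ hq'D hna hnb habs hy3).1
    simp only at this
    linarith
  · by_contra hcon
    rw [not_lt] at hcon
    obtain ⟨y', hy1, hyA⟩ := c12_avoid G.A q.1 (min r (16 * G.rho0 - |q.1 - a|))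
      (lt_min hr (by linarith))
    have hy2 : |y' - q.1| < r := hy1.trans_le (min_le_left _ _)
    have hy3 : |y' - a| < 16 * G.rho0 := by
      have e : y' - a = (y' - q.1) + (q.1 - a) := by ring
      have := hy1.trans_le (min_le_right _ _)
      rw [e]
      exact (abs_add_le _ _).trans_lt (by linarith)
    obtain ⟨η, hη0, hη⟩ := exists_between (lt_min hr (sub_pos.2 hq2))
    have hη1 : η < r := hη.trans_le (min_le_left _ _)
    have hη2 : η < 16 * G.rho0 - |q.2 - b| := hη.trans_le (min_le_right _ _)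
    have hx' : |(q.2 - t * η) - q.2| = η := by rw [c12_abs_mul htt ht1, abs_of_pos hη0]
    have hq'D : ((y', q.2 - t * η) : P) ∈ D := hball (c12_ball hy2 (by rw [hx']; exact hη1))
    have hneg : t * ((q.2 - t * η) - b) < 0 := by
      have e : t * ((q.2 - t * η) - b) = t * (q.2 - b) - (t * t) * η := by ring
      rw [e, htt]; linarith
    have habs : |(q.2 - t * η) - b| < 16 * G.rho0 := by
      have e : (q.2 - t * η) - b = ((q.2 - t * η) - q.2) + (q.2 - b) := by ring
      rw [e]
      exact (abs_add_le _ _).trans_lt (by rw [hx']; linarith)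
    have hnb : q.2 - t * η ≠ b := by
      intro h
      rw [h, sub_self, mul_zero] at hneg
      exact lt_irrefl _ hneg
    have hna : y' ≠ a := fun h => hyA (h ▸ haA)
    have := (main _ hq'D hna hnb hy3 habs).2
    simp only at this
    linarith

end

end Pool.Agent.MP4eed4eR
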