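import Pool.Agent.Lib.MP_4eed4e_an_R.C12

/-!
MP_4eed4e_an, project R, block C, module C13: folding about two close centres.
-/

namespace Pool.Agent.MP4eed4eR

open MeasureTheory Set Filter Topology Metric

noncomputable section

variable {D : Set P}

private theorem wall_aux {a s a' s' r : ℝ} (hs : IsSgn s) (hs' : IsSgn s') (h0 : s ≠ 0)
    (hr : 0 < r) (h : ∀ ε, 0 < ε → ε < r → wIn (a', s') (a + s * ε) ∧
      ¬ wIn (a', s') (a - s * ε)) : a' = a ∧ s' = s := by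
  have hs2 : s = 1 ∨ s = -1 := hs.resolve_left h0
  have h1 := h (r / 2) (by linarith) (by linarith)
  have hs0 : s' ≠ 0 := fun hc => h1.2 (Or.inl hc)
  have hs'2 : s' = 1 ∨ s' = -1 := hs'.resolve_left hs0
  have key : ∀ ε, 0 < ε → ε < r → 0 < s' * (a + s * ε - a') ∧ s' * (a - s * ε - a') ≤ 0 := by
    intro ε e0 e1
    obtain ⟨k1, k2⟩ := h ε e0 e1
    refine ⟨k1.resolve_left hs0, ?_⟩
    by_contra hc
    exact k2 (Or.inr (not_le.mp hc))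
  have haa : a' = a := by
    by_contra hne
    have hpos : 0 < |a - a'| := abs_pos.mpr (sub_ne_zero.mpr (fun hc => hne hc.symm))
    have e0 : 0 < min (r / 2) (|a - a'| / 2) := lt_min (by linarith) (by linarith)
    obtain ⟨k1, k2⟩ := key _ e0 (lt_of_le_of_lt (min_le_left _ _) (by linarith))
    have e1 : min (r / 2) (|a - a'| / 2) ≤ |a - a'| / 2 := min_le_right _ _
    generalize min (r / 2) (|a - a'| / 2) = ε at *
    rcases abs_cases (a - a') with ⟨q1, q2⟩ | ⟨q1, q2⟩ <;> rcases hs2 with rfl | rfl <;>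
      rcases hs'2 with rfl | rfl <;> linarith
  refine ⟨haa, ?_⟩
  obtain ⟨k1, k2⟩ := key (r / 2) (by linarith) (by linarith)
  subst haa
  rcases hs2 with rfl | rfl <;> rcases hs'2 with rfl | rfl
  · rfl
  · linarith
  · linarith
  · rfl

private theorem dist_mk (a b c d : ℝ) {R : ℝ} :
    dist ((a, b) : P) (c, d) ≤ R ↔ |a - c| ≤ R ∧ |b - d| ≤ R := by
  rw [Prod.dist_eq, max_le_iff, Real.dist_eq, Real.dist_eq]

private theorem dist_mk_lt (a b c d : ℝ) {R : ℝ} :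
    dist ((a, b) : P) (c, d) < R ↔ |a - c| < R ∧ |b - d| < R := by
  rw [Prod.dist_eq, max_lt_iff, Real.dist_eq, Real.dist_eq]

private theorem abs_fst_le (p q : P) : |p.1 - q.1| ≤ dist p q := by
  rw [Prod.dist_eq, ← Real.dist_eq]
  exact le_max_left _ _

private theorem abs_snd_le (p q : P) : |p.2 - q.2| ≤ dist p q := by
  rw [Prod.dist_eq, ← Real.dist_eq]
  exact le_max_right _ _

private theorem refl_aux {s a q y R : ℝ} (hs : s = 1 ∨ s = -1) (h1 : 0 < s * (q - a))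
    (h2 : 0 ≤ s * (y - a)) (h3 : |2 * a - q - y| ≤ R) : |q - y| ≤ R ∧ |a - y| ≤ R := by
  obtain ⟨k1, k2⟩ := abs_le.mp h3
  rcases hs with rfl | rfl
  · exact ⟨abs_le.mpr ⟨by linarith, by linarith⟩, abs_le.mpr ⟨by linarith, by linarith⟩⟩
  · exact ⟨abs_le.mpr ⟨by linarith, by linarith⟩, abs_le.mpr ⟨by linarith, by linarith⟩⟩

/-- Two local models have the same wall.

Proof. Let `(a, s) = W.w1 x`, `(a', s') = W.w1 x'`. For small `ε > 0` the points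
`p₊ = (a + s ε, q.2)`, `p₋ = (a - s ε, q.2)` belong to `ball x ρ` and to `ball x' ρ`
(`|a - x.1| < ρ` by `W.near1`). The model at `x` gives `wIn (W.w2 x) q.2` (as `q ∈ D`), hence
`p₊ ∈ D`, `p₋ ∉ D`. The model at `x'` gives `wIn (W.w2 x') q.2`, `wIn (a', s') (a + s ε)` and
not `wIn (a', s') (a - s ε)`: so `s' ≠ 0`, `0 < s' (a + s ε - a')`, `s' (a - s ε - a') ≤ 0` for
all small `ε > 0`. Hence `s' (a - a') = 0`, `a' = a` and `0 < s' s`, `s' = s` (both `± 1`). -/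
theorem C.wall_eq1 {G : Geo D} {ρ : ℝ} (W : Walls G ρ) {x x' : P} (hx : x ∈ closure D)
    (hfar : G.Far ρ x) (hx' : x' ∈ closure D) (hfar' : G.Far ρ x') {q : P} (hq : q ∈ D)
    (hqx : dist q x < ρ) (hqx' : dist q x' < ρ) (h1 : (W.w1 x).2 ≠ 0)
    (ha : |(W.w1 x).1 - x'.1| < ρ) : W.w1 x' = W.w1 x := by
  obtain ⟨-, hn⟩ := W.near1 x h1
  set a := (W.w1 x).1 with ha'
  set s := (W.w1 x).2 with hs'
  have hs : IsSgn s := W.sgn1 x
  have hs2 : s = 1 ∨ s = -1 := hs.resolve_left h1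
  have hq0 : |q.2 - x.2| < ρ := lt_of_le_of_lt (abs_snd_le q x) hqx
  have hq0' : |q.2 - x'.2| < ρ := lt_of_le_of_lt (abs_snd_le q x') hqx'
  have m1 := ((W.model x hx hfar q (mem_ball.mpr hqx)).mp hq).2
  have m2 := ((W.model x' hx' hfar' q (mem_ball.mpr hqx')).mp hq).2
  obtain ⟨r, hr0, hr1, hr2⟩ : ∃ r > 0, |a - x.1| + r ≤ ρ ∧ |a - x'.1| + r ≤ ρ := by
    refine ⟨min (ρ - |a - x.1|) (ρ - |a - x'.1|), lt_min (by linarith) (by linarith), ?_, ?_⟩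
    · linarith [min_le_left (ρ - |a - x.1|) (ρ - |a - x'.1|)]
    · linarith [min_le_right (ρ - |a - x.1|) (ρ - |a - x'.1|)]
  have hb : ∀ e : ℝ, |e| < r → ((a + e, q.2) : P) ∈ ball x ρ ∧
      ((a + e, q.2) : P) ∈ ball x' ρ := by
    intro e he
    have t1 : |a + e - x.1| ≤ |a - x.1| + |e| := by
      have := abs_add_le (a - x.1) e
      rwa [show a - x.1 + e = a + e - x.1 by ring] at this
    have t2 : |a + e - x'.1| ≤ |a - x'.1| + |e| := by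
      have := abs_add_le (a - x'.1) e
      rwa [show a - x'.1 + e = a + e - x'.1 by ring] at this
    exact ⟨mem_ball.mpr ((dist_mk_lt _ _ _ _).mpr ⟨by linarith, hq0⟩),
      mem_ball.mpr ((dist_mk_lt _ _ _ _).mpr ⟨by linarith, hq0'⟩)⟩
  have hse : ∀ e : ℝ, 0 < e → s * (s * e) = e := by
    intro e _
    rcases hs2 with h | h <;> rw [h] <;> ring
  have habs : ∀ e : ℝ, 0 < e → |s * e| = e := by
    intro e he
    rcases hs2 with h | h <;> rw [h]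
    · rw [one_mul, abs_of_pos he]
    · rw [neg_one_mul, abs_neg, abs_of_pos he]
  have hw := wall_aux (a := a) (s := s) (a' := (W.w1 x').1) (s' := (W.w1 x').2) hs
    (W.sgn1 x') h1 hr0 (by
      intro e e0 e1
      obtain ⟨b1, b2⟩ := hb (s * e) (by rw [habs e e0]; exact e1)
      obtain ⟨b3, b4⟩ := hb (-(s * e)) (by rw [abs_neg, habs e e0]; exact e1)
      have hp : ((a + s * e, q.2) : P) ∈ D := by
        refine (W.model x hx hfar _ b1).mpr ⟨Or.inr ?_, m1⟩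
        have : s * (a + s * e - a) = e := by
          rw [show a + s * e - a = s * e by ring, hse e e0]
        exact lt_of_lt_of_eq e0 this.symm
      have hp' : ((a + -(s * e), q.2) : P) ∉ D := by
        intro hc
        rcases ((W.model x hx hfar _ b3).mp hc).1 with h | h
        · exact h1 h
        · have : s * (a + -(s * e) - a) = -e := by
            rw [show a + -(s * e) - a = -(s * e) by ring, mul_neg, hse e e0]
          have h' : 0 < s * (a + -(s * e) - a) := h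
          linarith
      refine ⟨((W.model x' hx' hfar' _ b2).mp hp).1, fun hc => hp' ?_⟩
      refine (W.model x' hx' hfar' _ b4).mpr ⟨?_, m2⟩
      rw [← sub_eq_add_neg]
      exact hc)
  exact Prod.ext hw.1 hw.2

theorem C.wall_eq2 {G : Geo D} {ρ : ℝ} (W : Walls G ρ) {x x' : P} (hx : x ∈ closure D)
    (hfar : G.Far ρ x) (hx' : x' ∈ closure D) (hfar' : G.Far ρ x') {q : P} (hq : q ∈ D)
    (hqx : dist q x < ρ) (hqx' : dist q x' < ρ) (h2 : (W.w2 x).2 ≠ 0)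
    (ha : |(W.w2 x).1 - x'.2| < ρ) : W.w2 x' = W.w2 x := by
  obtain ⟨-, hn⟩ := W.near2 x h2
  set a := (W.w2 x).1 with ha'
  set s := (W.w2 x).2 with hs'
  have hs : IsSgn s := W.sgn2 x
  have hs2 : s = 1 ∨ s = -1 := hs.resolve_left h2
  have hq0 : |q.1 - x.1| < ρ := lt_of_le_of_lt (abs_fst_le q x) hqx
  have hq0' : |q.1 - x'.1| < ρ := lt_of_le_of_lt (abs_fst_le q x') hqx'
  have m1 := ((W.model x hx hfar q (mem_ball.mpr hqx)).mp hq).1
  have m2 := ((W.model x' hx' hfar' q (mem_ball.mpr hqx')).mp hq).1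
  obtain ⟨r, hr0, hr1, hr2⟩ : ∃ r > 0, |a - x.2| + r ≤ ρ ∧ |a - x'.2| + r ≤ ρ := by
    refine ⟨min (ρ - |a - x.2|) (ρ - |a - x'.2|), lt_min (by linarith) (by linarith), ?_, ?_⟩
    · linarith [min_le_left (ρ - |a - x.2|) (ρ - |a - x'.2|)]
    · linarith [min_le_right (ρ - |a - x.2|) (ρ - |a - x'.2|)]
  have hb : ∀ e : ℝ, |e| < r → ((q.1, a + e) : P) ∈ ball x ρ ∧
      ((q.1, a + e) : P) ∈ ball x' ρ := by
    intro e he
    have t1 : |a + e - x.2| ≤ |a - x.2| + |e| := by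
      have := abs_add_le (a - x.2) e
      rwa [show a - x.2 + e = a + e - x.2 by ring] at this
    have t2 : |a + e - x'.2| ≤ |a - x'.2| + |e| := by
      have := abs_add_le (a - x'.2) e
      rwa [show a - x'.2 + e = a + e - x'.2 by ring] at this
    exact ⟨mem_ball.mpr ((dist_mk_lt _ _ _ _).mpr ⟨hq0, by linarith⟩),
      mem_ball.mpr ((dist_mk_lt _ _ _ _).mpr ⟨hq0', by linarith⟩)⟩
  have hse : ∀ e : ℝ, 0 < e → s * (s * e) = e := by
    intro e _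
    rcases hs2 with h | h <;> rw [h] <;> ring
  have habs : ∀ e : ℝ, 0 < e → |s * e| = e := by
    intro e he
    rcases hs2 with h | h <;> rw [h]
    · rw [one_mul, abs_of_pos he]
    · rw [neg_one_mul, abs_neg, abs_of_pos he]
  have hw := wall_aux (a := a) (s := s) (a' := (W.w2 x').1) (s' := (W.w2 x').2) hs
    (W.sgn2 x') h2 hr0 (by
      intro e e0 e1
      obtain ⟨b1, b2⟩ := hb (s * e) (by rw [habs e e0]; exact e1)
      obtain ⟨b3, b4⟩ := hb (-(s * e)) (by rw [abs_neg, habs e e0]; exact e1)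
      have hp : ((q.1, a + s * e) : P) ∈ D := by
        refine (W.model x hx hfar _ b1).mpr ⟨m1, Or.inr ?_⟩
        have : s * (a + s * e - a) = e := by
          rw [show a + s * e - a = s * e by ring, hse e e0]
        exact lt_of_lt_of_eq e0 this.symm
      have hp' : ((q.1, a + -(s * e)) : P) ∉ D := by
        intro hc
        rcases ((W.model x hx hfar _ b3).mp hc).2 with h | h
        · exact h2 h
        · have : s * (a + -(s * e) - a) = -e := by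
            rw [show a + -(s * e) - a = -(s * e) by ring, mul_neg, hse e e0]
          have h' : 0 < s * (a + -(s * e) - a) := h
          linarith
      refine ⟨((W.model x' hx' hfar' _ b2).mp hp).2, fun hc => hp' ?_⟩
      refine (W.model x' hx' hfar' _ b4).mpr ⟨m2, ?_⟩
      rw [← sub_eq_add_neg]
      exact hc)
  exact Prod.ext hw.1 hw.2

/-- If the reflected point is close to `y` then the point and the wall are close to `y`.

Proof. `|q.2 - z.2| ≤ R + dist z y < ρ`, `|q.1 - a| ≤ R + |a - z.1| + dist z y < 2 ρ ≤ 8 rho0`, so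
`side1` gives `0 < s (q.1 - a)`, `clo_side` gives `0 ≤ s (y.1 - a)`; the sum of the two numbers is
`|q.1 + y.1 - 2 a| ≤ R` and their difference is `s (q.1 - y.1)`. -/
theorem C.near1 {G : Geo D} {ρ R : ℝ} (hρ : 0 < ρ) (hρ' : ρ ≤ 4 * G.rho0) (hR : 0 < R)
    (W : Walls G ρ) {z y : P} (hz : z ∈ closure D) (hfar : G.Far ρ z) (hy : y ∈ closure D)
    (hd : dist z y + 2 * R ≤ ρ) (h1 : (W.w1 z).2 ≠ 0) {q : P} (hq : q ∈ D)
    (hr : dist ((2 * (W.w1 z).1 - q.1, q.2) : P) y ≤ R) :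
    dist q y ≤ R ∧ |(W.w1 z).1 - y.1| ≤ R := by
  obtain ⟨-, hn⟩ := W.near1 z h1
  have hs2 : (W.w1 z).2 = 1 ∨ (W.w1 z).2 = -1 := (W.sgn1 z).resolve_left h1
  obtain ⟨r1, r2⟩ := (dist_mk _ _ _ _).mp hr
  have z1 : |z.1 - y.1| ≤ dist z y := abs_fst_le z y
  have z2 : |z.2 - y.2| ≤ dist z y := abs_snd_le z y
  have hρ0 : 0 < G.rho0 := G.pos
  have b1 : |q.1 - (W.w1 z).1| < 16 * G.rho0 := by
    rw [abs_lt]
    rw [abs_le] at r1 z1
    rw [abs_lt] at hn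
    constructor <;> linarith [hn.1, hn.2, r1.1, r1.2, z1.1, z1.2]
  have b2 : |q.2 - z.2| < ρ := by
    rw [abs_lt]
    rw [abs_le] at r2 z2
    constructor <;> linarith [r2.1, r2.2, z2.1, z2.2]
  have s1 := C.side1 hρ W hz hfar h1 hq b1 b2
  have s2 := (C.clo_side W hz hfar hy (by rw [dist_comm]; linarith)).1
  obtain ⟨t1, t2⟩ := refl_aux hs2 s1 s2 r1
  exact ⟨(dist_mk _ _ _ _).mpr ⟨t1, r2⟩, t2⟩

theorem C.near2 {G : Geo D} {ρ R : ℝ} (hρ : 0 < ρ) (hρ' : ρ ≤ 4 * G.rho0) (hR : 0 < R)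
    (W : Walls G ρ) {z y : P} (hz : z ∈ closure D) (hfar : G.Far ρ z) (hy : y ∈ closure D)
    (hd : dist z y + 2 * R ≤ ρ) (h2 : (W.w2 z).2 ≠ 0) {q : P} (hq : q ∈ D)
    (hr : dist ((q.1, 2 * (W.w2 z).1 - q.2) : P) y ≤ R) :
    dist q y ≤ R ∧ |(W.w2 z).1 - y.2| ≤ R := by
  obtain ⟨-, hn⟩ := W.near2 z h2
  have hs2 : (W.w2 z).2 = 1 ∨ (W.w2 z).2 = -1 := (W.sgn2 z).resolve_left h2
  obtain ⟨r1, r2⟩ := (dist_mk _ _ _ _).mp hr
  have z1 : |z.1 - y.1| ≤ dist z y := abs_fst_le z y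
  have z2 : |z.2 - y.2| ≤ dist z y := abs_snd_le z y
  have hρ0 : 0 < G.rho0 := G.pos
  have b1 : |q.2 - (W.w2 z).1| < 16 * G.rho0 := by
    rw [abs_lt]
    rw [abs_le] at r2 z2
    rw [abs_lt] at hn
    constructor <;> linarith [hn.1, hn.2, r2.1, r2.2, z2.1, z2.2]
  have b2 : |q.1 - z.1| < ρ := by
    rw [abs_lt]
    rw [abs_le] at r1 z1
    constructor <;> linarith [r1.1, r1.2, z1.1, z1.2]
  have s1 := C.side2 hρ W hz hfar h2 hq b1 b2
  have s2 := (C.clo_side W hz hfar hy (by rw [dist_comm]; linarith)).2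
  obtain ⟨t1, t2⟩ := refl_aux hs2 s1 s2 r2
  exact ⟨(dist_mk _ _ _ _).mpr ⟨r1, t1⟩, t2⟩

/-- Both reflections; use `side12`. -/
theorem C.near12 {G : Geo D} {ρ R : ℝ} (hρ : 0 < ρ) (hρ' : ρ ≤ 4 * G.rho0) (hR : 0 < R)
    (W : Walls G ρ) {z y : P} (hz : z ∈ closure D) (hfar : G.Far ρ z) (hy : y ∈ closure D)
    (hd : dist z y + 2 * R ≤ ρ) (h1 : (W.w1 z).2 ≠ 0) (h2 : (W.w2 z).2 ≠ 0) {q : P} (hq : q ∈ D)
    (hr : dist ((2 * (W.w1 z).1 - q.1, 2 * (W.w2 z).1 - q.2) : P) y ≤ R) :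
    dist q y ≤ R ∧ |(W.w1 z).1 - y.1| ≤ R ∧ |(W.w2 z).1 - y.2| ≤ R := by
  obtain ⟨-, hn1⟩ := W.near1 z h1
  obtain ⟨-, hn2⟩ := W.near2 z h2
  have hs1 : (W.w1 z).2 = 1 ∨ (W.w1 z).2 = -1 := (W.sgn1 z).resolve_left h1
  have hs2 : (W.w2 z).2 = 1 ∨ (W.w2 z).2 = -1 := (W.sgn2 z).resolve_left h2
  obtain ⟨r1, r2⟩ := (dist_mk _ _ _ _).mp hr
  have z1 : |z.1 - y.1| ≤ dist z y := abs_fst_le z y
  have z2 : |z.2 - y.2| ≤ dist z y := abs_snd_le z y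
  have hρ0 : 0 < G.rho0 := G.pos
  have b1 : |q.1 - (W.w1 z).1| < 16 * G.rho0 := by
    have r1' := abs_le.mp r1
    have z1' := abs_le.mp z1
    have n1' := abs_lt.mp hn1
    rw [abs_lt]
    constructor <;> linarith [n1'.1, n1'.2, r1'.1, r1'.2, z1'.1, z1'.2]
  have b2 : |q.2 - (W.w2 z).1| < 16 * G.rho0 := by
    have r2' := abs_le.mp r2
    have z2' := abs_le.mp z2
    have n2' := abs_lt.mp hn2
    rw [abs_lt]
    constructor <;> linarith [n2'.1, n2'.2, r2'.1, r2'.2, z2'.1, z2'.2]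
  obtain ⟨s1, s2⟩ := C.side12 hρ W hz hfar h1 h2 hq b1 b2
  obtain ⟨c1, c2⟩ := C.clo_side W hz hfar hy (by rw [dist_comm]; linarith)
  obtain ⟨t1, t2⟩ := refl_aux hs1 s1 c1 r1
  obtain ⟨t3, t4⟩ := refl_aux hs2 s2 c2 r2
  exact ⟨(dist_mk _ _ _ _).mpr ⟨t1, t3⟩, t2, t4⟩

/-- Folding about `x` and about `x'` are the same on `D` for functions with support near `x'`.

Proof. Compare the four terms of `foldF`. If for example the second term for `x`,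
`(e₁ * (W.w1 x).2 ^ 2) * F (2 * (W.w1 x).1 - q.1, q.2)`, is not zero then `near1` (`z = x`,
`y = x'`) and `wall_eq1` give `W.w1 x' = W.w1 x`, so the two second terms are equal; if the term
for `x'` is not zero then `near1` (`z = x'`, `y = x'`) and `wall_eq1` with the roles of `x` and
`x'` exchanged (`|a' - x.1| ≤ R + dist x x' < ρ`) give the same. The third term: `near2`,
`wall_eq2`; the fourth: `near12`, both. -/
theorem C.fold_congr {G : Geo D} {ρ R : ℝ} (hρ : 0 < ρ) (hρ' : ρ ≤ 4 * G.rho0) (hR : 0 < R)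
    (W : Walls G ρ) {x x' : P} (hx : x ∈ closure D) (hfar : G.Far ρ x) (hx' : x' ∈ closure D)
    (hfar' : G.Far ρ x') (hd : dist x x' + 2 * R ≤ ρ) {F : P → ℂ}
    (hF : ∀ y, R < dist y x' → F y = 0) (e₁ e₂ : ℝ) {q : P} (hq : q ∈ D) :
    foldF e₁ e₂ (W.w1 x) (W.w2 x) F q = foldF e₁ e₂ (W.w1 x') (W.w2 x') F q := by
  have hxx : dist x' x' + 2 * R ≤ ρ := by
    rw [dist_self]
    linarith [dist_nonneg (x := x) (y := x')]
  have hqd : dist q x' ≤ R → dist q x < ρ ∧ dist q x' < ρ := by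
    intro h
    have h1 := dist_triangle q x' x
    rw [dist_comm x' x] at h1
    exact ⟨by linarith, by linarith [dist_nonneg (x := x) (y := x')]⟩
  have hRρ : R < ρ := by linarith [dist_nonneg (x := x) (y := x')]
  have f1 : ∀ a : ℝ, |a - x'.1| ≤ R → |a - x.1| < ρ := by
    intro a ha
    have h1 := abs_le.mp ha
    have h2 := abs_le.mp (abs_fst_le x x')
    rw [abs_lt]
    constructor <;> linarith [h1.1, h1.2, h2.1, h2.2]
  have f2 : ∀ a : ℝ, |a - x'.2| ≤ R → |a - x.2| < ρ := by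
    intro a ha
    have h1 := abs_le.mp ha
    have h2 := abs_le.mp (abs_snd_le x x')
    rw [abs_lt]
    constructor <;> linarith [h1.1, h1.2, h2.1, h2.2]
  -- the three comparisons of walls
  have A1 : (W.w1 x).2 ≠ 0 → dist ((2 * (W.w1 x).1 - q.1, q.2) : P) x' ≤ R →
      W.w1 x' = W.w1 x := by
    intro h1 hr
    obtain ⟨k1, k2⟩ := C.near1 hρ hρ' hR W hx hfar hx' hd h1 hq hr
    exact C.wall_eq1 W hx hfar hx' hfar' hq (hqd k1).1 (hqd k1).2 h1 (lt_of_le_of_lt k2 hRρ)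
  have A1' : (W.w1 x').2 ≠ 0 → dist ((2 * (W.w1 x').1 - q.1, q.2) : P) x' ≤ R →
      W.w1 x = W.w1 x' := by
    intro h1 hr
    obtain ⟨k1, k2⟩ := C.near1 hρ hρ' hR W hx' hfar' hx' hxx h1 hq hr
    exact C.wall_eq1 W hx' hfar' hx hfar hq (hqd k1).2 (hqd k1).1 h1 (f1 _ k2)
  have A2 : (W.w2 x).2 ≠ 0 → dist ((q.1, 2 * (W.w2 x).1 - q.2) : P) x' ≤ R →
      W.w2 x' = W.w2 x := by
    intro h2 hr
    obtain ⟨k1, k2⟩ := C.near2 hρ hρ' hR W hx hfar hx' hd h2 hq hr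
    exact C.wall_eq2 W hx hfar hx' hfar' hq (hqd k1).1 (hqd k1).2 h2 (lt_of_le_of_lt k2 hRρ)
  have A2' : (W.w2 x').2 ≠ 0 → dist ((q.1, 2 * (W.w2 x').1 - q.2) : P) x' ≤ R →
      W.w2 x = W.w2 x' := by
    intro h2 hr
    obtain ⟨k1, k2⟩ := C.near2 hρ hρ' hR W hx' hfar' hx' hxx h2 hq hr
    exact C.wall_eq2 W hx' hfar' hx hfar hq (hqd k1).2 (hqd k1).1 h2 (f2 _ k2)
  have A3 : (W.w1 x).2 ≠ 0 → (W.w2 x).2 ≠ 0 →
      dist ((2 * (W.w1 x).1 - q.1, 2 * (W.w2 x).1 - q.2) : P) x' ≤ R →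
      W.w1 x' = W.w1 x ∧ W.w2 x' = W.w2 x := by
    intro h1 h2 hr
    obtain ⟨k1, k2, k3⟩ := C.near12 hρ hρ' hR W hx hfar hx' hd h1 h2 hq hr
    exact ⟨C.wall_eq1 W hx hfar hx' hfar' hq (hqd k1).1 (hqd k1).2 h1 (lt_of_le_of_lt k2 hRρ),
      C.wall_eq2 W hx hfar hx' hfar' hq (hqd k1).1 (hqd k1).2 h2 (lt_of_le_of_lt k3 hRρ)⟩
  have A3' : (W.w1 x').2 ≠ 0 → (W.w2 x').2 ≠ 0 →
      dist ((2 * (W.w1 x').1 - q.1, 2 * (W.w2 x').1 - q.2) : P) x' ≤ R →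
      W.w1 x = W.w1 x' ∧ W.w2 x = W.w2 x' := by
    intro h1 h2 hr
    obtain ⟨k1, k2, k3⟩ := C.near12 hρ hρ' hR W hx' hfar' hx' hxx h1 h2 hq hr
    exact ⟨C.wall_eq1 W hx' hfar' hx hfar hq (hqd k1).2 (hqd k1).1 h1 (f1 _ k2),
      C.wall_eq2 W hx' hfar' hx hfar hq (hqd k1).2 (hqd k1).1 h2 (f2 _ k3)⟩
  -- the terms
  have T1 : ∀ z : P, ¬ ((W.w1 z).2 ≠ 0 ∧ dist ((2 * (W.w1 z).1 - q.1, q.2) : P) x' ≤ R) →
      ((e₁ * (W.w1 z).2 ^ 2 : ℝ) : ℂ) * F (2 * (W.w1 z).1 - q.1, q.2) = 0 := by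
    intro z hz
    by_cases h : (W.w1 z).2 = 0
    · rw [h]; simp
    · rw [hF _ (not_le.mp fun hc => hz ⟨h, hc⟩), mul_zero]
  have T2 : ∀ z : P, ¬ ((W.w2 z).2 ≠ 0 ∧ dist ((q.1, 2 * (W.w2 z).1 - q.2) : P) x' ≤ R) →
      ((e₂ * (W.w2 z).2 ^ 2 : ℝ) : ℂ) * F (q.1, 2 * (W.w2 z).1 - q.2) = 0 := by
    intro z hz
    by_cases h : (W.w2 z).2 = 0
    · rw [h]; simp
    · rw [hF _ (not_le.mp fun hc => hz ⟨h, hc⟩), mul_zero]
  have T3 : ∀ z : P, ¬ ((W.w1 z).2 ≠ 0 ∧ (W.w2 z).2 ≠ 0 ∧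
      dist ((2 * (W.w1 z).1 - q.1, 2 * (W.w2 z).1 - q.2) : P) x' ≤ R) →
      ((e₁ * e₂ * ((W.w1 z).2 ^ 2 * (W.w2 z).2 ^ 2) : ℝ) : ℂ) *
        F (2 * (W.w1 z).1 - q.1, 2 * (W.w2 z).1 - q.2) = 0 := by
    intro z hz
    by_cases h : (W.w1 z).2 = 0
    · rw [h]; simp
    · by_cases h' : (W.w2 z).2 = 0
      · rw [h']; simp
      · rw [hF _ (not_le.mp fun hc => hz ⟨h, h', hc⟩), mul_zero]
  have E1 : ((e₁ * (W.w1 x).2 ^ 2 : ℝ) : ℂ) * F (2 * (W.w1 x).1 - q.1, q.2) =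
      ((e₁ * (W.w1 x').2 ^ 2 : ℝ) : ℂ) * F (2 * (W.w1 x').1 - q.1, q.2) := by
    by_cases h : (W.w1 x).2 ≠ 0 ∧ dist ((2 * (W.w1 x).1 - q.1, q.2) : P) x' ≤ R
    · rw [A1 h.1 h.2]
    · by_cases h' : (W.w1 x').2 ≠ 0 ∧ dist ((2 * (W.w1 x').1 - q.1, q.2) : P) x' ≤ R
      · rw [A1' h'.1 h'.2]
      · rw [T1 x h, T1 x' h']
  have E2 : ((e₂ * (W.w2 x).2 ^ 2 : ℝ) : ℂ) * F (q.1, 2 * (W.w2 x).1 - q.2) =
      ((e₂ * (W.w2 x').2 ^ 2 : ℝ) : ℂ) * F (q.1, 2 * (W.w2 x').1 - q.2) := by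
    by_cases h : (W.w2 x).2 ≠ 0 ∧ dist ((q.1, 2 * (W.w2 x).1 - q.2) : P) x' ≤ R
    · rw [A2 h.1 h.2]
    · by_cases h' : (W.w2 x').2 ≠ 0 ∧ dist ((q.1, 2 * (W.w2 x').1 - q.2) : P) x' ≤ R
      · rw [A2' h'.1 h'.2]
      · rw [T2 x h, T2 x' h']
  have E3 : ((e₁ * e₂ * ((W.w1 x).2 ^ 2 * (W.w2 x).2 ^ 2) : ℝ) : ℂ) *
        F (2 * (W.w1 x).1 - q.1, 2 * (W.w2 x).1 - q.2) =
      ((e₁ * e₂ * ((W.w1 x').2 ^ 2 * (W.w2 x').2 ^ 2) : ℝ) : ℂ) *
        F (2 * (W.w1 x').1 - q.1, 2 * (W.w2 x').1 - q.2) := by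
    by_cases h : (W.w1 x).2 ≠ 0 ∧ (W.w2 x).2 ≠ 0 ∧
        dist ((2 * (W.w1 x).1 - q.1, 2 * (W.w2 x).1 - q.2) : P) x' ≤ R
    · obtain ⟨k1, k2⟩ := A3 h.1 h.2.1 h.2.2
      rw [k1, k2]
    · by_cases h' : (W.w1 x').2 ≠ 0 ∧ (W.w2 x').2 ≠ 0 ∧
        dist ((2 * (W.w1 x').1 - q.1, 2 * (W.w2 x').1 - q.2) : P) x' ≤ R
      · obtain ⟨k1, k2⟩ := A3' h'.1 h'.2.1 h'.2.2
        rw [k1, k2]
      · rw [T3 x h, T3 x' h']
  unfold foldF
  rw [E1, E2, E3]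

end

end Pool.Agent.MP4eed4eR
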