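import Pool.Agent.Lib.MP_4eed4e_an_R.C02

/-!
MP_4eed4e_an, project R, block C, module C14: reflections of packets.
-/

namespace Pool.Agent.MP4eed4eR

open MeasureTheory Set Filter Topology Metric

noncomputable section

variable {D : Set P}

private theorem c14_r (a y : ℝ) : 2 * a - (2 * a - y) = y := by ring

theorem C.foldF_refl1 {w₁ w₂ : ℝ × ℝ} (h : w₁.2 ^ 2 = 1) (F : P → ℂ) (q : P) :
    foldF (-1) (-1) w₁ w₂ (fun y => F (2 * w₁.1 - y.1, y.2)) q =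
      -foldF (-1) (-1) w₁ w₂ F q := by
  unfold foldF
  simp only [h, c14_r]
  push_cast
  ring

theorem C.foldF_refl2 {w₁ w₂ : ℝ × ℝ} (h : w₂.2 ^ 2 = 1) (F : P → ℂ) (q : P) :
    foldF (-1) (-1) w₁ w₂ (fun y => F (y.1, 2 * w₂.1 - y.2)) q =
      -foldF (-1) (-1) w₁ w₂ F q := by
  unfold foldF
  simp only [h, c14_r]
  push_cast
  ring

theorem C.foldF_at1 {w₁ w₂ : ℝ × ℝ} (h : w₁.2 ^ 2 = 1) (F : P → ℂ) (q : P) :
    foldF (-1) (-1) w₁ w₂ F (2 * w₁.1 - q.1, q.2) = -foldF (-1) (-1) w₁ w₂ F q := by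
  unfold foldF
  simp only [h, c14_r]
  push_cast
  ring

theorem C.foldF_at2 {w₁ w₂ : ℝ × ℝ} (h : w₂.2 ^ 2 = 1) (F : P → ℂ) (q : P) :
    foldF (-1) (-1) w₁ w₂ F (q.1, 2 * w₂.1 - q.2) = -foldF (-1) (-1) w₁ w₂ F q := by
  unfold foldF
  simp only [h, c14_r]
  push_cast
  ring

theorem C.psi_refl1 (h a : ℝ) (x ξ : P) (s : ℝ) (y : P) :
    psi h (2 * a - x.1, x.2) (-ξ.1, ξ.2) s y = psi h x ξ s (2 * a - y.1, y.2) := by
  have h1 : sq (y - (2 * a - x.1, x.2)) = sq ((2 * a - y.1, y.2) - x) := by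
    unfold sq
    simp only [Prod.fst_sub, Prod.snd_sub]
    ring
  have h2 : dot (-ξ.1, ξ.2) (y - (2 * a - x.1, x.2)) = dot ξ ((2 * a - y.1, y.2) - x) := by
    unfold dot
    simp only [Prod.fst_sub, Prod.snd_sub]
    ring
  unfold psi
  rw [h1, h2]

theorem C.psi_refl2 (h b : ℝ) (x ξ : P) (s : ℝ) (y : P) :
    psi h (x.1, 2 * b - x.2) (ξ.1, -ξ.2) s y = psi h x ξ s (y.1, 2 * b - y.2) := by
  have h1 : sq (y - (x.1, 2 * b - x.2)) = sq ((y.1, 2 * b - y.2) - x) := by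
    unfold sq
    simp only [Prod.fst_sub, Prod.snd_sub]
    ring
  have h2 : dot (ξ.1, -ξ.2) (y - (x.1, 2 * b - x.2)) = dot ξ ((y.1, 2 * b - y.2) - x) := by
    unfold dot
    simp only [Prod.fst_sub, Prod.snd_sub]
    ring
  unfold psi
  rw [h1, h2]

private theorem c14_chir1 (r a : ℝ) (x y : P) :
    chir r (y - (2 * a - x.1, x.2)) = chir r ((2 * a - y.1, y.2) - x) := by
  rw [← (C.chir_even r (y - (2 * a - x.1, x.2))).1]
  congr 1
  ext <;> simp <;> ring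

private theorem c14_chir2 (r b : ℝ) (x y : P) :
    chir r (y - (x.1, 2 * b - x.2)) = chir r ((y.1, 2 * b - y.2) - x) := by
  rw [← (C.chir_even r (y - (x.1, 2 * b - x.2))).2]
  congr 1
  ext <;> simp <;> ring

theorem C.psic_refl1 (δ a : ℝ) (x ξ : P) (s : ℝ) (y : P) :
    psic δ (2 * a - x.1, x.2) (-ξ.1, ξ.2) s y = psic δ x ξ s (2 * a - y.1, y.2) := by
  unfold psic
  rw [C.psi_refl1, c14_chir1]

theorem C.psic_refl2 (δ b : ℝ) (x ξ : P) (s : ℝ) (y : P) :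
    psic δ (x.1, 2 * b - x.2) (ξ.1, -ξ.2) s y = psic δ x ξ s (y.1, 2 * b - y.2) := by
  unfold psic
  rw [C.psi_refl2, c14_chir2]

/-- the two cases of the folding at one wall -/
private theorem c14_wall {w : ℝ × ℝ} (hw : IsSgn w.2) (y : ℝ) :
    (w.2 ^ 2 = 1 ∧ wfold w y = 2 * w.1 - y ∧ wsgn w y = -1) ∨
      (wfold w y = y ∨ w.2 * (y - w.1) < 0) ∧ wsgn w y = 1 ∧ wfold w y = y := by
  by_cases h : w.2 * (y - w.1) < 0
  · left
    rcases hw with h0 | h0 | h0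
    · rw [h0, zero_mul] at h
      exact absurd h (lt_irrefl _)
    · refine ⟨by rw [h0]; norm_num, ?_, if_pos h⟩
      unfold wfold
      rw [h0] at h ⊢
      rw [if_neg one_ne_zero, abs_of_neg (by linarith)]
      ring
    · refine ⟨by rw [h0]; norm_num, ?_, if_pos h⟩
      unfold wfold
      rw [h0] at h ⊢
      rw [if_neg (by norm_num), abs_of_pos (by linarith)]
      ring
  · right
    have h1 : wfold w y = y := by
      unfold wfold
      rcases hw with h0 | h0 | h0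
      · rw [if_pos h0]
      · rw [h0] at h ⊢
        rw [if_neg one_ne_zero, abs_of_nonneg (by linarith)]
        ring
      · rw [h0] at h ⊢
        rw [if_neg (by norm_num), abs_of_nonpos (by linarith)]
        ring
    exact ⟨Or.inl h1, if_neg h, h1⟩

/-- Folding and the step of the billiard.

Proof. If `x.1 + t ξ.1` is strictly beyond the first wall `(a, s)` (then `s ^ 2 = 1`, `W.sgn1`) then
`wfold (a, s) (x.1 + t ξ.1) = 2 a - (x.1 + t ξ.1)` and `wsgn = -1`, otherwise `wfold` is the identity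
there and `wsgn = 1`; the same for the second wall. In each of the four cases use
`psic_refl1`, `psic_refl2`, `foldF_refl1`, `foldF_refl2`. -/
theorem C.fold_stp {G : Geo D} {ρ : ℝ} (W : Walls G ρ) (δ t s : ℝ) (x ξ q : P) :
    foldF (-1) (-1) (W.w1 x) (W.w2 x) (psic δ (x + t • ξ) ξ s) q =
      ((wsgn (W.w1 x) (x.1 + t * ξ.1) * wsgn (W.w2 x) (x.2 + t * ξ.2) : ℝ) : ℂ) *
        foldF (-1) (-1) (W.w1 x) (W.w2 x)
          (psic δ (stp W t (x, ξ)).1 (stp W t (x, ξ)).2 s) q := by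
  have hx : x + t • ξ = (x.1 + t * ξ.1, x.2 + t * ξ.2) := by
    ext <;> simp
  rw [hx]
  unfold stp
  simp only
  obtain ⟨X, hX⟩ : ∃ X, X = x.1 + t * ξ.1 := ⟨_, rfl⟩
  obtain ⟨Z, hZ⟩ : ∃ Z, Z = x.2 + t * ξ.2 := ⟨_, rfl⟩
  rw [← hX, ← hZ]
  rcases c14_wall (W.sgn1 x) X with ⟨e1, e2, e3⟩ | ⟨-, e2, e3⟩ <;>
    rcases c14_wall (W.sgn2 x) Z with ⟨g1, g2, g3⟩ | ⟨-, g2, g3⟩
  · -- both
    have h1 : psic δ (2 * (W.w1 x).1 - X, 2 * (W.w2 x).1 - Z) (-1 * ξ.1, -1 * ξ.2) s =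
        fun y => (fun y' => psic δ (X, Z) ξ s (y'.1, 2 * (W.w2 x).1 - y'.2))
          (2 * (W.w1 x).1 - y.1, y.2) := by
      funext y
      have h2 := C.psic_refl1 δ (W.w1 x).1 (X, 2 * (W.w2 x).1 - Z) (ξ.1, -ξ.2) s y
      have h3 := C.psic_refl2 δ (W.w2 x).1 (X, Z) ξ s (2 * (W.w1 x).1 - y.1, y.2)
      simp only at h2 h3
      rw [neg_one_mul, neg_one_mul, h2, h3]
    rw [e2, e3, g2, g3, h1]
    rw [C.foldF_refl1 e1 (fun y' => psic δ (X, Z) ξ s (y'.1, 2 * (W.w2 x).1 - y'.2)),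
      C.foldF_refl2 g1]
    push_cast
    ring
  · -- first only
    have h1 : psic δ (2 * (W.w1 x).1 - X, Z) (-1 * ξ.1, 1 * ξ.2) s =
        fun y => psic δ (X, Z) ξ s (2 * (W.w1 x).1 - y.1, y.2) := by
      funext y
      have h2 := C.psic_refl1 δ (W.w1 x).1 (X, Z) ξ s y
      simp only at h2
      rw [neg_one_mul, one_mul, h2]
    rw [e2, e3, g2, g3, h1, C.foldF_refl1 e1]
    push_cast
    ring
  · -- second only
    have h1 : psic δ (X, 2 * (W.w2 x).1 - Z) (1 * ξ.1, -1 * ξ.2) s =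
        fun y => psic δ (X, Z) ξ s (y.1, 2 * (W.w2 x).1 - y.2) := by
      funext y
      have h2 := C.psic_refl2 δ (W.w2 x).1 (X, Z) ξ s y
      simp only at h2
      rw [neg_one_mul, one_mul, h2]
    rw [e2, e3, g2, g3, h1, C.foldF_refl2 g1]
    push_cast
    ring
  · rw [e2, e3, g2, g3]
    simp

end

end Pool.Agent.MP4eed4eR
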