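import Pool.Agent.Lib.MP_4eed4e_an_R.C04

/-!
MP_4eed4e_an, project R, block C, module C15: derivatives of the packets, Schroedinger equation.
-/

namespace Pool.Agent.MP4eed4eR

open MeasureTheory Set Filter Topology Metric
open scoped ContDiff

noncomputable section

private theorem C15_line {F : P → ℂ} (hF : ContDiff ℝ ∞ F) (q v : P) {F' : ℂ}
    (h : HasDerivAt (fun t : ℝ => F (q + t • v)) F' 0) : fderiv ℝ F q v = F' := by
  have h1 : DifferentiableAt ℝ F q := (hF.differentiable (by simp)).differentiableAt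
  rw [← h1.lineDeriv_eq_fderiv]
  exact HasLineDerivAt.lineDeriv h

private theorem C15_lin (a b t : ℝ) : HasDerivAt (fun t : ℝ => a + t * b) b t := by
  simpa using ((hasDerivAt_id t).mul_const b).const_add a

private theorem C15_sq (a v : P) : HasDerivAt (fun t : ℝ => sq (a + t • v)) (2 * dot v a) 0 := by
  have h1 := ((C15_lin a.1 v.1 0).pow 2).add ((C15_lin a.2 v.2 0).pow 2)
  refine (h1.congr_of_eventuallyEq (Filter.Eventually.of_forall fun t => ?_)).congr_deriv ?_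
  · simp [sq]
  · simp [dot]
    ring

private theorem C15_dot (ξ a v : P) :
    HasDerivAt (fun t : ℝ => dot ξ (a + t • v)) (dot ξ v) 0 := by
  have h1 := ((C15_lin a.1 v.1 0).const_mul ξ.1).add ((C15_lin a.2 v.2 0).const_mul ξ.2)
  refine (h1.congr_of_eventuallyEq (Filter.Eventually.of_forall fun t => ?_)).congr_deriv ?_
  · simp [dot]
  · simp [dot]

theorem C.contDiff_psi (h : ℝ) (x ξ : P) (s : ℝ) : ContDiff ℝ ∞ (psi h x ξ s) := by
  have h1 : ContDiff ℝ ∞ fun y : P => sq (y - x) := by unfold sq; fun_prop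
  have h2 : ContDiff ℝ ∞ fun y : P => dot ξ (y - x) / h := by unfold dot; fun_prop
  have h3 : ContDiff ℝ ∞ fun y : P => ((sq (y - x) : ℝ) : ℂ) :=
    Complex.ofRealCLM.contDiff.comp h1
  have h4 : ContDiff ℝ ∞ fun y : P => ((dot ξ (y - x) / h : ℝ) : ℂ) :=
    Complex.ofRealCLM.contDiff.comp h2
  unfold psi
  exact contDiff_const.mul
    ((((contDiff_const.mul h3).div_const _).add (h4.mul contDiff_const)).cexp)

private theorem C15_dir {h : ℝ} (hh0 : 0 < h) (x ξ : P) (s : ℝ) (y v : P) :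
    fderiv ℝ (psi h x ξ s) y v =
      ((-beta s * ((dot v (y - x) : ℝ) : ℂ) + Complex.I * (dot ξ v : ℝ)) / (h : ℂ)) *
        psi h x ξ s y := by
  refine C15_line (C.contDiff_psi h x ξ s) y v ?_
  have h1 := (C15_sq (y - x) v).ofReal_comp
  have h2 := ((C15_dot ξ (y - x) v).div_const h).ofReal_comp
  have h3 := (((h1.const_mul (-beta s)).div_const ((2 * h : ℝ) : ℂ)).add
    (h2.mul_const Complex.I)).cexp.const_mul
      (((1 / Real.sqrt (Real.pi * h) : ℝ) : ℂ) * beta s)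
  refine (h3.congr_of_eventuallyEq (Filter.Eventually.of_forall fun t => ?_)).congr_deriv ?_
  · simp only [psi, add_sub_right_comm]
    rfl
  · have hc : (h : ℂ) ≠ 0 := by exact_mod_cast hh0.ne'
    simp only [psi, Pi.add_apply, zero_smul, add_zero]
    push_cast
    field_simp

theorem C.D1_psi {h : ℝ} (hh0 : 0 < h) (x ξ : P) (s : ℝ) (y : P) :
    D1 (psi h x ξ s) y =
      ((-beta s * ((y.1 - x.1 : ℝ) : ℂ) + Complex.I * (ξ.1 : ℂ)) / (h : ℂ)) * psi h x ξ s y := by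
  unfold D1
  rw [C15_dir hh0]
  simp [dot]

theorem C.D2_psi {h : ℝ} (hh0 : 0 < h) (x ξ : P) (s : ℝ) (y : P) :
    D2 (psi h x ξ s) y =
      ((-beta s * ((y.2 - x.2 : ℝ) : ℂ) + Complex.I * (ξ.2 : ℂ)) / (h : ℂ)) * psi h x ξ s y := by
  unfold D2
  rw [C15_dir hh0]
  simp [dot]

private theorem C15_second {h : ℝ} (hh0 : 0 < h) (x ξ : P) (s : ℝ) (y v : P) (a b : ℂ)
    (L : P →L[ℝ] ℝ) :
    fderiv ℝ (fun y => (a * ((L y : ℝ) : ℂ) + b) * psi h x ξ s y) y v =
      a * ((L v : ℝ) : ℂ) * psi h x ξ s y + (a * ((L y : ℝ) : ℂ) + b) *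
      (((-beta s * ((dot v (y - x) : ℝ) : ℂ) + Complex.I * (dot ξ v : ℝ)) / (h : ℂ)) *
        psi h x ξ s y) := by
  have h1 : HasFDerivAt (psi h x ξ s) (fderiv ℝ (psi h x ξ s) y) y :=
    (((C.contDiff_psi h x ξ s).differentiable (by simp)).differentiableAt).hasFDerivAt
  have h2 : HasFDerivAt (fun y : P => ((L y : ℝ) : ℂ)) (Complex.ofRealCLM.comp L) y :=
    (Complex.ofRealCLM.comp L).hasFDerivAt
  have h3 := ((h2.const_mul a).add_const b).mul h1
  have h4 : fderiv ℝ (fun y => (a * ((L y : ℝ) : ℂ) + b) * psi h x ξ s y) y = _ := h3.fderiv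
  rw [h4]
  simp only [add_apply, smul_apply, smul_eq_mul,
    ContinuousLinearMap.comp_apply, Complex.ofRealCLM_apply, C15_dir hh0]
  ring

/-- The Laplacian of the packet. -/
theorem C.Lap_psi {h : ℝ} (hh0 : 0 < h) (x ξ : P) (s : ℝ) (y : P) :
    Lap (psi h x ξ s) y = (-(2 * beta s) / (h : ℂ) +
      (beta s ^ 2 * (sq (y - x) : ℝ) - 2 * Complex.I * beta s * (dot ξ (y - x) : ℝ)
        - (sq ξ : ℝ)) / (h : ℂ) ^ 2) * psi h x ξ s y := by
  have hc : (h : ℂ) ≠ 0 := by exact_mod_cast hh0.ne'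
  have e1 : D1 (psi h x ξ s) = fun y => ((-beta s / (h : ℂ)) *
      ((ContinuousLinearMap.fst ℝ ℝ ℝ y : ℝ) : ℂ) +
      (beta s * (x.1 : ℂ) + Complex.I * (ξ.1 : ℂ)) / (h : ℂ)) * psi h x ξ s y := by
    funext y
    rw [C.D1_psi hh0]
    simp only [ContinuousLinearMap.coe_fst']
    push_cast
    ring
  have e2 : D2 (psi h x ξ s) = fun y => ((-beta s / (h : ℂ)) *
      ((ContinuousLinearMap.snd ℝ ℝ ℝ y : ℝ) : ℂ) +
      (beta s * (x.2 : ℂ) + Complex.I * (ξ.2 : ℂ)) / (h : ℂ)) * psi h x ξ s y := by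
    funext y
    rw [C.D2_psi hh0]
    simp only [ContinuousLinearMap.coe_snd']
    push_cast
    ring
  unfold Lap
  rw [e1, e2]
  unfold D1 D2
  rw [C15_second hh0, C15_second hh0]
  simp only [ContinuousLinearMap.coe_fst', ContinuousLinearMap.coe_snd', dot, sq, Prod.fst_sub,
    Prod.snd_sub]
  have hI := Complex.I_sq
  push_cast
  field_simp
  linear_combination (psi h x ξ s y * ((ξ.1 : ℂ) ^ 2 + (ξ.2 : ℂ) ^ 2)) * hI

/-- The free evolution is smooth in both variables (`contDiff_beta`). -/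
theorem C.contDiff_free (h : ℝ) (x ξ : P) (s : ℝ) :
    ContDiff ℝ ∞ (fun z : ℝ × P => Complex.exp ((z.1 * sq ξ / (2 * h) : ℝ) * Complex.I) *
      psi h (x + z.1 • ξ) ξ (s + z.1) z.2) := by
  have h0 : ContDiff ℝ ∞ fun z : ℝ × P => z.1 * sq ξ / (2 * h) := by fun_prop
  have h1 : ContDiff ℝ ∞ fun z : ℝ × P => sq (z.2 - (x + z.1 • ξ)) := by unfold sq; fun_prop
  have h2 : ContDiff ℝ ∞ fun z : ℝ × P => dot ξ (z.2 - (x + z.1 • ξ)) / h := by
    unfold dot; fun_prop
  have h5 : ContDiff ℝ ∞ fun z : ℝ × P => ((z.1 * sq ξ / (2 * h) : ℝ) : ℂ) :=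
    Complex.ofRealCLM.contDiff.comp h0
  have h3 : ContDiff ℝ ∞ fun z : ℝ × P => ((sq (z.2 - (x + z.1 • ξ)) : ℝ) : ℂ) :=
    Complex.ofRealCLM.contDiff.comp h1
  have h4 : ContDiff ℝ ∞ fun z : ℝ × P => ((dot ξ (z.2 - (x + z.1 • ξ)) / h : ℝ) : ℂ) :=
    Complex.ofRealCLM.contDiff.comp h2
  have h6 : ContDiff ℝ ∞ fun z : ℝ × P => beta (s + z.1) :=
    C.contDiff_beta.comp (contDiff_const.add contDiff_fst)
  unfold psi
  exact ((h5.mul contDiff_const).cexp).mul ((contDiff_const.mul h6).mul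
    ((((h6.neg.mul h3).div_const _).add (h4.mul contDiff_const)).cexp))

/-- The free Schroedinger equation.

Proof. With `β = beta (s + t)`, `Y = y - x - t ξ` the logarithmic derivative in `t` is
`i |ξ|² / 2h - i β + i β² |Y|² / 2h + β ξ·Y / h - i |ξ|² / h` (`hasDerivAt_beta`), which is
`(i h / 2)` times the factor in `Lap_psi`. -/
theorem C.free_pde {h : ℝ} (hh0 : 0 < h) (x ξ : P) (s t : ℝ) (y : P) :
    HasDerivAt (fun t : ℝ => Complex.exp ((t * sq ξ / (2 * h) : ℝ) * Complex.I) *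
        psi h (x + t • ξ) ξ (s + t) y)
      ((Complex.I * (h : ℂ) / 2) * (Complex.exp ((t * sq ξ / (2 * h) : ℝ) * Complex.I) *
        Lap (psi h (x + t • ξ) ξ (s + t)) y)) t := by
  have hc : (h : ℂ) ≠ 0 := by exact_mod_cast hh0.ne'
  have k1 : HasDerivAt (fun t : ℝ => t * sq ξ / (2 * h)) (sq ξ / (2 * h)) t := by
    simpa using ((hasDerivAt_id t).mul_const (sq ξ)).div_const (2 * h)
  have k2 : HasDerivAt (fun t : ℝ => sq (y - (x + t • ξ)))
      (-2 * dot ξ (y - (x + t • ξ))) t := by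
    have h1 := ((C15_lin (y.1 - x.1) (-ξ.1) t).pow 2).add
      ((C15_lin (y.2 - x.2) (-ξ.2) t).pow 2)
    refine (h1.congr_of_eventuallyEq (Filter.Eventually.of_forall fun t => ?_)).congr_deriv ?_
    · simp only [sq, Prod.fst_sub, Prod.snd_sub, Prod.fst_add, Prod.snd_add, Prod.smul_fst,
        Prod.smul_snd, smul_eq_mul, Pi.add_apply, Pi.pow_apply]
      ring
    · simp only [dot, Prod.fst_sub, Prod.snd_sub, Prod.fst_add, Prod.snd_add, Prod.smul_fst,
        Prod.smul_snd, smul_eq_mul]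
      push_cast
      ring
  have k3 : HasDerivAt (fun t : ℝ => dot ξ (y - (x + t • ξ)) / h) (-sq ξ / h) t := by
    have h1 := (((C15_lin (y.1 - x.1) (-ξ.1) t).const_mul ξ.1).add
      ((C15_lin (y.2 - x.2) (-ξ.2) t).const_mul ξ.2)).div_const h
    refine (h1.congr_of_eventuallyEq (Filter.Eventually.of_forall fun t => ?_)).congr_deriv ?_
    · simp only [dot, Prod.fst_sub, Prod.snd_sub, Prod.fst_add, Prod.snd_add, Prod.smul_fst,
        Prod.smul_snd, smul_eq_mul, Pi.add_apply]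
      ring
    · simp only [sq]
      ring
  have k4 : HasDerivAt (fun t : ℝ => beta (s + t)) (-Complex.I * beta (s + t) ^ 2) t :=
    (C.hasDerivAt_beta (s + t)).comp_const_add s t
  have k5 := (k1.ofReal_comp.mul_const Complex.I).cexp
  have k6 := (((k4.neg.mul k2.ofReal_comp).div_const ((2 * h : ℝ) : ℂ)).add
    (k3.ofReal_comp.mul_const Complex.I)).cexp
  have k7 := k5.mul ((k4.const_mul ((1 / Real.sqrt (Real.pi * h) : ℝ) : ℂ)).mul k6)
  refine (k7.congr_of_eventuallyEq (Filter.Eventually.of_forall fun t => ?_)).congr_deriv ?_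
  · simp only [psi]
    rfl
  · rw [C.Lap_psi hh0]
    simp only [psi, Pi.add_apply, Pi.mul_apply, Pi.neg_apply]
    push_cast
    field_simp
    linear_combination (2 * beta (s + t) ^ 2 * ((dot ξ (y - (x + t • ξ)) : ℝ) : ℂ) *
      ((Real.sqrt (Real.pi * h) : ℝ) : ℂ)⁻¹) * Complex.I_sq

end

end Pool.Agent.MP4eed4eR
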