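import Pool.Agent.Lib.MP_4eed4e_an_R.C02

/-!
MP_4eed4e_an, project R, block C, module C16: product rules, derivatives of the cutoff.
-/

namespace Pool.Agent.MP4eed4eR

open MeasureTheory Set Filter Topology Metric
open scoped ContDiff

noncomputable section

private theorem C16_diff {f : P → ℂ} (hf : ContDiff ℝ ∞ f) (q : P) :
    DifferentiableAt ℝ f q := (hf.differentiable (by simp)) q

private theorem C16_D1_add {f g : P → ℂ} (hf : ContDiff ℝ ∞ f) (hg : ContDiff ℝ ∞ g) (q : P) :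
    D1 (fun y => f y + g y) q = D1 f q + D1 g q := by
  unfold D1
  have h1 := (C16_diff hf q).hasFDerivAt
  have h2 := (C16_diff hg q).hasFDerivAt
  rw [(h1.fun_add h2).fderiv]
  simp

private theorem C16_D2_add {f g : P → ℂ} (hf : ContDiff ℝ ∞ f) (hg : ContDiff ℝ ∞ g) (q : P) :
    D2 (fun y => f y + g y) q = D2 f q + D2 g q := by
  unfold D2
  have h1 := (C16_diff hf q).hasFDerivAt
  have h2 := (C16_diff hg q).hasFDerivAt
  rw [(h1.fun_add h2).fderiv]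
  simp

private theorem C16_cf {a : ℝ → ℂ} (ha : ContDiff ℝ ∞ a) : ContDiff ℝ ∞ fun y : P => a y.1 :=
  ha.comp contDiff_fst

private theorem C16_cs {b : ℝ → ℂ} (hb : ContDiff ℝ ∞ b) : ContDiff ℝ ∞ fun y : P => b y.2 :=
  hb.comp contDiff_snd

private theorem C16_ff {a : ℝ → ℂ} (ha : ContDiff ℝ ∞ a) (q v : P) :
    fderiv ℝ (fun y : P => a y.1) q v = v.1 • deriv a q.1 := by
  have h1 : HasDerivAt a (deriv a q.1) q.1 :=
    ((ha.differentiable (by simp)) q.1).hasDerivAt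
  have h2 : HasFDerivAt (fun y : P => y.1) (ContinuousLinearMap.fst ℝ ℝ ℝ) q :=
    hasFDerivAt_fst
  have h3 := h1.hasFDerivAt.comp q h2
  have h4 : fderiv ℝ (fun y : P => a y.1) q = _ := h3.fderiv
  rw [h4]
  simp

private theorem C16_fs {b : ℝ → ℂ} (hb : ContDiff ℝ ∞ b) (q v : P) :
    fderiv ℝ (fun y : P => b y.2) q v = v.2 • deriv b q.2 := by
  have h1 : HasDerivAt b (deriv b q.2) q.2 :=
    ((hb.differentiable (by simp)) q.2).hasDerivAt
  have h2 : HasFDerivAt (fun y : P => y.2) (ContinuousLinearMap.snd ℝ ℝ ℝ) q :=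
    hasFDerivAt_snd
  have h3 := h1.hasFDerivAt.comp q h2
  have h4 : fderiv ℝ (fun y : P => b y.2) q = _ := h3.fderiv
  rw [h4]
  simp

private theorem C16_D1_fst {a : ℝ → ℂ} (ha : ContDiff ℝ ∞ a) (q : P) :
    D1 (fun y => a y.1) q = deriv a q.1 := by
  unfold D1
  rw [C16_ff ha, one_smul]

private theorem C16_D2_fst {a : ℝ → ℂ} (ha : ContDiff ℝ ∞ a) (q : P) :
    D2 (fun y => a y.1) q = 0 := by
  unfold D2
  rw [C16_ff ha, zero_smul]

private theorem C16_D1_snd {b : ℝ → ℂ} (hb : ContDiff ℝ ∞ b) (q : P) :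
    D1 (fun y => b y.2) q = 0 := by
  unfold D1
  rw [C16_fs hb, zero_smul]

private theorem C16_D2_snd {b : ℝ → ℂ} (hb : ContDiff ℝ ∞ b) (q : P) :
    D2 (fun y => b y.2) q = deriv b q.2 := by
  unfold D2
  rw [C16_fs hb, one_smul]

private theorem C16_deriv {a : ℝ → ℂ} (ha : ContDiff ℝ ∞ a) : ContDiff ℝ ∞ (deriv a) :=
  (contDiff_infty_iff_deriv.1 ha).2

private theorem C16_two : iteratedDeriv 2 chi = deriv (deriv chi) := by
  rw [iteratedDeriv_succ, iteratedDeriv_one]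

/-- The cutoff of the line as a complex valued function. -/
private def C16_A (c r t : ℝ) : ℂ := ((chi ((t - c) / r) : ℝ) : ℂ)

private theorem C16_A_smooth (c r : ℝ) : ContDiff ℝ ∞ (C16_A c r) :=
  Complex.ofRealCLM.contDiff.comp (C.contDiff_chi.comp
    ((contDiff_id.sub contDiff_const).div_const r))

private theorem C16_gen {g : ℝ → ℝ} (hg : Differentiable ℝ g) (c r t : ℝ) :
    HasDerivAt (fun t : ℝ => ((g ((t - c) / r) : ℝ) : ℂ))
      ((deriv g ((t - c) / r) / r : ℝ) : ℂ) t := by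
  have h1 : HasDerivAt (fun t : ℝ => (t - c) / r) (1 / r) t :=
    ((hasDerivAt_id t).sub_const c).div_const r
  have h2 := ((hg ((t - c) / r)).hasDerivAt.comp t h1).ofReal_comp
  rw [mul_one_div] at h2
  exact h2

private theorem C16_A_deriv (c r : ℝ) : deriv (C16_A c r) = fun t =>
    ((deriv chi ((t - c) / r) / r : ℝ) : ℂ) :=
  funext fun t => (C16_gen (C.contDiff_chi.differentiable (by simp)) c r t).deriv

private theorem C16_chi1 : ContDiff ℝ ∞ (deriv chi) :=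
  (contDiff_infty_iff_deriv.1 C.contDiff_chi).2

private theorem C16_A_deriv2 (c r : ℝ) : deriv (deriv (C16_A c r)) = fun t =>
    ((deriv (deriv chi) ((t - c) / r) / r / r : ℝ) : ℂ) := by
  rw [C16_A_deriv]
  funext t
  have h1 := (C16_gen (C16_chi1.differentiable (by simp)) c r t).div_const (r : ℂ)
  have h2 : (fun t : ℝ => ((deriv chi ((t - c) / r) / r : ℝ) : ℂ)) =
      fun t : ℝ => ((deriv chi ((t - c) / r) : ℝ) : ℂ) / (r : ℂ) := by
    funext t
    push_cast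
    rfl
  rw [h2, h1.deriv]
  push_cast
  rfl

theorem C.contDiff_D1 {f : P → ℂ} (hf : ContDiff ℝ ∞ f) : ContDiff ℝ ∞ (D1 f) := by
  unfold D1
  exact (hf.fderiv_right (m := ∞) (by simp)).clm_apply contDiff_const

theorem C.contDiff_D2 {f : P → ℂ} (hf : ContDiff ℝ ∞ f) : ContDiff ℝ ∞ (D2 f) := by
  unfold D2
  exact (hf.fderiv_right (m := ∞) (by simp)).clm_apply contDiff_const

theorem C.contDiff_Lap {f : P → ℂ} (hf : ContDiff ℝ ∞ f) : ContDiff ℝ ∞ (Lap f) := by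
  unfold Lap
  exact (C.contDiff_D1 (C.contDiff_D1 hf)).add (C.contDiff_D2 (C.contDiff_D2 hf))

theorem C.D1_mul {f g : P → ℂ} (hf : ContDiff ℝ ∞ f) (hg : ContDiff ℝ ∞ g) (q : P) :
    D1 (fun y => f y * g y) q = D1 f q * g q + f q * D1 g q := by
  unfold D1
  have h1 := (C16_diff hf q).hasFDerivAt
  have h2 := (C16_diff hg q).hasFDerivAt
  rw [(h1.fun_mul h2).fderiv]
  simp
  ring

theorem C.D2_mul {f g : P → ℂ} (hf : ContDiff ℝ ∞ f) (hg : ContDiff ℝ ∞ g) (q : P) :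
    D2 (fun y => f y * g y) q = D2 f q * g q + f q * D2 g q := by
  unfold D2
  have h1 := (C16_diff hf q).hasFDerivAt
  have h2 := (C16_diff hg q).hasFDerivAt
  rw [(h1.fun_mul h2).fderiv]
  simp
  ring

theorem C.Lap_mul {f g : P → ℂ} (hf : ContDiff ℝ ∞ f) (hg : ContDiff ℝ ∞ g) (q : P) :
    Lap (fun y => f y * g y) q =
      Lap f q * g q + 2 * (D1 f q * D1 g q + D2 f q * D2 g q) + f q * Lap g q := by
  have e1 : D1 (fun y => f y * g y) = fun y => D1 f y * g y + f y * D1 g y :=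
    funext fun y => C.D1_mul hf hg y
  have e2 : D2 (fun y => f y * g y) = fun y => D2 f y * g y + f y * D2 g y :=
    funext fun y => C.D2_mul hf hg y
  have f1 := C.contDiff_D1 hf
  have f2 := C.contDiff_D2 hf
  have g1 := C.contDiff_D1 hg
  have g2 := C.contDiff_D2 hg
  unfold Lap
  rw [e1, e2, C16_D1_add (f1.mul hg) (hf.mul g1), C16_D2_add (f2.mul hg) (hf.mul g2),
    C.D1_mul f1 hg, C.D1_mul hf g1, C.D2_mul f2 hg, C.D2_mul hf g2]
  ring

theorem C.Lap_add {f g : P → ℂ} (hf : ContDiff ℝ ∞ f) (hg : ContDiff ℝ ∞ g) (q : P) :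
    Lap (fun y => f y + g y) q = Lap f q + Lap g q := by
  have e1 : D1 (fun y => f y + g y) = fun y => D1 f y + D1 g y :=
    funext fun y => C16_D1_add hf hg y
  have e2 : D2 (fun y => f y + g y) = fun y => D2 f y + D2 g y :=
    funext fun y => C16_D2_add hf hg y
  unfold Lap
  rw [e1, e2, C16_D1_add (C.contDiff_D1 hf) (C.contDiff_D1 hg),
    C16_D2_add (C.contDiff_D2 hf) (C.contDiff_D2 hg)]
  ring

theorem C.Lap_smul (c : ℂ) {f : P → ℂ} (hf : ContDiff ℝ ∞ f) (q : P) :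
    Lap (fun y => c * f y) q = c * Lap f q := by
  have h0 : ContDiff ℝ ∞ (fun _ : P => c) := contDiff_const
  have hz : ∀ y : P, D1 (fun _ : P => c) y = 0 ∧ D2 (fun _ : P => c) y = 0 := by
    intro y
    unfold D1 D2
    simp
  have e1 : D1 (fun y => c * f y) = fun y => c * D1 f y := by
    funext y
    rw [C.D1_mul h0 hf, (hz y).1]
    ring
  have e2 : D2 (fun y => c * f y) = fun y => c * D2 f y := by
    funext y
    rw [C.D2_mul h0 hf, (hz y).2]
    ring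
  unfold Lap
  rw [e1, e2, C.D1_mul h0 (C.contDiff_D1 hf), C.D2_mul h0 (C.contDiff_D2 hf), (hz q).1,
    (hz q).2]
  ring

/-- Product functions. -/
theorem C.D1_prod {a b : ℝ → ℂ} (ha : ContDiff ℝ ∞ a) (hb : ContDiff ℝ ∞ b) (q : P) :
    D1 (fun y => a y.1 * b y.2) q = deriv a q.1 * b q.2 := by
  rw [C.D1_mul (C16_cf ha) (C16_cs hb), C16_D1_fst ha, C16_D1_snd hb]
  ring

theorem C.D2_prod {a b : ℝ → ℂ} (ha : ContDiff ℝ ∞ a) (hb : ContDiff ℝ ∞ b) (q : P) :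
    D2 (fun y => a y.1 * b y.2) q = a q.1 * deriv b q.2 := by
  rw [C.D2_mul (C16_cf ha) (C16_cs hb), C16_D2_fst ha, C16_D2_snd hb]
  ring

theorem C.Lap_prod {a b : ℝ → ℂ} (ha : ContDiff ℝ ∞ a) (hb : ContDiff ℝ ∞ b) (q : P) :
    Lap (fun y => a y.1 * b y.2) q =
      deriv (deriv a) q.1 * b q.2 + a q.1 * deriv (deriv b) q.2 := by
  have e1 : D1 (fun y => a y.1 * b y.2) = fun y => deriv a y.1 * b y.2 :=
    funext fun y => C.D1_prod ha hb y
  have e2 : D2 (fun y => a y.1 * b y.2) = fun y => a y.1 * deriv b y.2 :=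
    funext fun y => C.D2_prod ha hb y
  unfold Lap
  rw [e1, e2, C.D1_prod (C16_deriv ha) hb, C.D2_prod ha (C16_deriv hb)]

/-- The cutoff about `x`. -/
def C.cx (r : ℝ) (x y : P) : ℂ := (chir r (y - x) : ℂ)

theorem C.contDiff_cx (r : ℝ) (x : P) : ContDiff ℝ ∞ (C.cx r x) := by
  exact Complex.ofRealCLM.contDiff.comp ((C.contDiff_chir r).comp
    (contDiff_id.sub contDiff_const))


private theorem C16_cx_eq (r : ℝ) (x : P) :
    C.cx r x = fun y => C16_A x.1 r y.1 * C16_A x.2 r y.2 := by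
  funext y
  unfold C.cx chir C16_A
  push_cast
  rfl

private theorem C16_vals {r : ℝ} (_hr : 0 < r) (x y : P) :
    D1 (C.cx r x) y = ((deriv chi ((y.1 - x.1) / r) / r : ℝ) : ℂ) *
      ((chi ((y.2 - x.2) / r) : ℝ) : ℂ) ∧
    D2 (C.cx r x) y = ((chi ((y.1 - x.1) / r) : ℝ) : ℂ) *
      ((deriv chi ((y.2 - x.2) / r) / r : ℝ) : ℂ) ∧
    Lap (C.cx r x) y = ((deriv (deriv chi) ((y.1 - x.1) / r) / r / r : ℝ) : ℂ) *
      ((chi ((y.2 - x.2) / r) : ℝ) : ℂ) + ((chi ((y.1 - x.1) / r) : ℝ) : ℂ) *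
      ((deriv (deriv chi) ((y.2 - x.2) / r) / r / r : ℝ) : ℂ) := by
  rw [C16_cx_eq]
  have s1 := C16_A_smooth x.1 r
  have s2 := C16_A_smooth x.2 r
  refine ⟨?_, ?_, ?_⟩
  · rw [C.D1_prod s1 s2, C16_A_deriv]
    rfl
  · rw [C.D2_prod s1 s2, C16_A_deriv]
    rfl
  · rw [C.Lap_prod s1 s2, C16_A_deriv2, C16_A_deriv2]
    rfl

/-- Proof: `cx r x y = chi ((y.1 - x.1) / r) * chi ((y.2 - x.2) / r)`, `D1_prod`, `Lap_prod`,
`chi_deriv_bdd` for `n = 1, 2` (`iteratedDeriv_one`, `iteratedDeriv_succ`). -/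
theorem C.cx_bdd : ∃ K : ℝ, 0 ≤ K ∧ ∀ r : ℝ, 0 < r → ∀ x y : P, ‖D1 (C.cx r x) y‖ ≤ K / r ∧
    ‖D2 (C.cx r x) y‖ ≤ K / r ∧ ‖Lap (C.cx r x) y‖ ≤ K / r ^ 2 := by
  obtain ⟨K₁, hK₁, h₁⟩ := C.chi_deriv_bdd 1
  obtain ⟨K₂, hK₂, h₂⟩ := C.chi_deriv_bdd 2
  rw [iteratedDeriv_one] at h₁
  rw [C16_two] at h₂
  refine ⟨K₁ + 2 * K₂, by positivity, fun r hr x y => ?_⟩
  obtain ⟨e1, e2, e3⟩ := C16_vals hr x y
  have c1 : ∀ t : ℝ, ‖((chi t : ℝ) : ℂ)‖ ≤ 1 := by
    intro t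
    rw [Complex.norm_real, Real.norm_eq_abs, abs_of_nonneg (C.chi_nonneg t)]
    exact C.chi_le_one t
  have c2 : ∀ t : ℝ, ‖((deriv chi t / r : ℝ) : ℂ)‖ ≤ K₁ / r := by
    intro t
    rw [Complex.norm_real, Real.norm_eq_abs, abs_div, abs_of_pos hr]
    exact div_le_div_of_nonneg_right (h₁ t) hr.le
  have c3 : ∀ t : ℝ, ‖((deriv (deriv chi) t / r / r : ℝ) : ℂ)‖ ≤ K₂ / r ^ 2 := by
    intro t
    rw [Complex.norm_real, Real.norm_eq_abs, abs_div, abs_div, abs_of_pos hr, div_div, ← pow_two]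
    exact div_le_div_of_nonneg_right (h₂ t) (by positivity)
  have k1 : K₁ / r ≤ (K₁ + 2 * K₂) / r := by
    apply div_le_div_of_nonneg_right _ hr.le
    linarith
  have k2 : 0 ≤ K₁ / r := by positivity
  have k3 : 0 ≤ K₂ / r ^ 2 := by positivity
  have k4 : 0 ≤ K₁ / r ^ 2 := by positivity
  refine ⟨?_, ?_, ?_⟩
  · rw [e1, norm_mul]
    refine le_trans ?_ k1
    calc _ ≤ K₁ / r * 1 := mul_le_mul (c2 _) (c1 _) (norm_nonneg _) k2
      _ = K₁ / r := mul_one _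
  · rw [e2, norm_mul]
    refine le_trans ?_ k1
    calc _ ≤ 1 * (K₁ / r) := mul_le_mul (c1 _) (c2 _) (norm_nonneg _) zero_le_one
      _ = K₁ / r := one_mul _
  · rw [e3]
    refine (norm_add_le _ _).trans ?_
    rw [norm_mul, norm_mul]
    have m1 := mul_le_mul (c3 ((y.1 - x.1) / r)) (c1 ((y.2 - x.2) / r)) (norm_nonneg _) k3
    have m2 := mul_le_mul (c1 ((y.1 - x.1) / r)) (c3 ((y.2 - x.2) / r)) (norm_nonneg _)
      zero_le_one
    calc _ ≤ K₂ / r ^ 2 * 1 + 1 * (K₂ / r ^ 2) := add_le_add m1 m2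
      _ ≤ (K₁ + 2 * K₂) / r ^ 2 := by
        rw [add_div, mul_div_assoc]
        linarith

/-- The cutoff is locally constant off `r ≤ dist y x ≤ 2 r`. -/
theorem C.cx_zero {r : ℝ} (hr : 0 < r) {x y : P} (h : dist y x < r ∨ 2 * r < dist y x) :
    D1 (C.cx r x) y = 0 ∧ D2 (C.cx r x) y = 0 ∧ Lap (C.cx r x) y = 0 := by
  obtain ⟨e1, e2, e3⟩ := C16_vals hr x y
  have z1 : ∀ t : ℝ, |t| < 1 ∨ 2 < |t| → deriv chi t = 0 := by
    intro t ht
    have h1 := C.chi_deriv_zero (n := 1) one_pos ht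
    rwa [iteratedDeriv_one] at h1
  have z2 : ∀ t : ℝ, |t| < 1 ∨ 2 < |t| → deriv (deriv chi) t = 0 := by
    intro t ht
    have h1 := C.chi_deriv_zero (n := 2) two_pos ht
    rwa [C16_two] at h1
  rw [e1, e2, e3]
  rcases h with h | h
  · rw [Prod.dist_eq, max_lt_iff, Real.dist_eq, Real.dist_eq] at h
    have a1 : |(y.1 - x.1) / r| < 1 := by
      rw [abs_div, abs_of_pos hr, div_lt_one hr]
      exact h.1
    have a2 : |(y.2 - x.2) / r| < 1 := by
      rw [abs_div, abs_of_pos hr, div_lt_one hr]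
      exact h.2
    rw [z1 _ (Or.inl a1), z1 _ (Or.inl a2), z2 _ (Or.inl a1), z2 _ (Or.inl a2)]
    simp
  · rw [Prod.dist_eq, lt_max_iff, Real.dist_eq, Real.dist_eq] at h
    rcases h with h | h
    · have a1 : 2 < |(y.1 - x.1) / r| := by
        rw [abs_div, abs_of_pos hr, lt_div_iff₀ hr]
        exact h
      rw [z1 _ (Or.inr a1), z2 _ (Or.inr a1), C.chi_eq_zero a1.le]
      simp
    · have a2 : 2 < |(y.2 - x.2) / r| := by
        rw [abs_div, abs_of_pos hr, lt_div_iff₀ hr]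
        exact h
      rw [z1 _ (Or.inr a2), z2 _ (Or.inr a2), C.chi_eq_zero a2.le]
      simp

end

end Pool.Agent.MP4eed4eR
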