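import Pool.Agent.Lib.MP_4eed4e_an_R.Base2
import Pool.Agent.Lib.MP_4eed4e_an_R.C01
import Pool.Agent.Lib.MP_4eed4e_an_R.C15
import Pool.Agent.Lib.MP_4eed4e_an_R.C16

/-!
MP_4eed4e_an, project R, block C, module C17: the truncated free evolution.
-/

namespace Pool.Agent.MP4eed4eR

open MeasureTheory Set Filter Topology Metric
open scoped ContDiff

noncomputable section

/-- The free evolution of the packet with a cutoff at the initial centre. -/
def C.evo (δ : ℝ) (x ξ : P) (s t : ℝ) (y : P) : ℂ :=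
  C.cx (rad δ) x y * (phs δ t ξ * psi (hh δ) (x + t • ξ) ξ (s + t) y)

/-- The error term of the truncated evolution. -/
def C.err (δ : ℝ) (x ξ : P) (s t : ℝ) (y : P) : ℂ :=
  -(Complex.I * (hh δ : ℂ) / 2) * (phs δ t ξ *
    (Lap (C.cx (rad δ) x) y * psi (hh δ) (x + t • ξ) ξ (s + t) y +
      2 * (D1 (C.cx (rad δ) x) y * D1 (psi (hh δ) (x + t • ξ) ξ (s + t)) y +
        D2 (C.cx (rad δ) x) y * D2 (psi (hh δ) (x + t • ξ) ξ (s + t)) y)))

/-- `contDiff_cx`, `contDiff_free`. -/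
theorem C.contDiff_evo (δ : ℝ) (x ξ : P) (s : ℝ) :
    ContDiff ℝ ∞ (fun z : ℝ × P => C.evo δ x ξ s z.1 z.2) := by
  exact ((C.contDiff_cx (rad δ) x).comp contDiff_snd).mul (C.contDiff_free (hh δ) x ξ s)

private theorem C17_psi (h : ℝ) (x ξ : P) (s : ℝ) :
    Continuous (fun z : ℝ × P => psi h (x + z.1 • ξ) ξ (s + z.1) z.2) := by
  have h1 : Continuous fun z : ℝ × P => beta (s + z.1) :=
    C.contDiff_beta.continuous.comp (by fun_prop)
  unfold psi sq dot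
  fun_prop

/-- Proof: `D1_psi`, `D2_psi` express the derivatives by continuous functions. -/
theorem C.continuous_err {δ : ℝ} (hδ : 0 < δ) (x ξ : P) (s : ℝ) :
    Continuous (fun z : ℝ × P => C.err δ x ξ s z.1 z.2) := by
  have h0 : Continuous fun z : ℝ × P => phs δ z.1 ξ := by
    unfold phs
    fun_prop
  have h1 := C17_psi (hh δ) x ξ s
  have h2 : Continuous fun z : ℝ × P => beta (s + z.1) :=
    C.contDiff_beta.continuous.comp (by fun_prop)
  have h3 : Continuous fun z : ℝ × P => Lap (C.cx (rad δ) x) z.2 :=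
    (C.contDiff_Lap (C.contDiff_cx (rad δ) x)).continuous.comp continuous_snd
  have h4 : Continuous fun z : ℝ × P => D1 (C.cx (rad δ) x) z.2 :=
    (C.contDiff_D1 (C.contDiff_cx (rad δ) x)).continuous.comp continuous_snd
  have h5 : Continuous fun z : ℝ × P => D2 (C.cx (rad δ) x) z.2 :=
    (C.contDiff_D2 (C.contDiff_cx (rad δ) x)).continuous.comp continuous_snd
  unfold C.err
  simp only [C.D1_psi (C.hh_pos hδ), C.D2_psi (C.hh_pos hδ)]
  fun_prop

private theorem C17_smul (c : ℂ) {f : P → ℂ} (hf : ContDiff ℝ ∞ f) (q : P) :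
    D1 (fun y => c * f y) q = c * D1 f q ∧ D2 (fun y => c * f y) q = c * D2 f q := by
  have h0 : ContDiff ℝ ∞ (fun _ : P => c) := contDiff_const
  have hz : D1 (fun _ : P => c) q = 0 ∧ D2 (fun _ : P => c) q = 0 := by
    unfold D1 D2
    simp
  rw [C.D1_mul h0 hf, C.D2_mul h0 hf, hz.1, hz.2]
  constructor <;> ring

/-- Proof: `free_pde` times the cutoff, and `Lap_mul`, `Lap_smul` for
`cx * (phs * psi)`. -/
theorem C.evo_pde {δ : ℝ} (hδ : 0 < δ) (x ξ : P) (s t : ℝ) (y : P) :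
    HasDerivAt (fun t : ℝ => C.evo δ x ξ s t y)
      ((Complex.I * (hh δ : ℂ) / 2) * Lap (C.evo δ x ξ s t) y + C.err δ x ξ s t y) t := by
  have h1 := (C.free_pde (C.hh_pos hδ) x ξ s t y).const_mul (C.cx (rad δ) x y)
  refine h1.congr_deriv ?_
  have h2 := C.contDiff_psi (hh δ) (x + t • ξ) ξ (s + t)
  have h3 : ContDiff ℝ ∞ fun y => phs δ t ξ * psi (hh δ) (x + t • ξ) ξ (s + t) y :=
    contDiff_const.mul h2
  have h4 : Lap (C.evo δ x ξ s t) y = _ :=
    C.Lap_mul (C.contDiff_cx (rad δ) x) h3 y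
  rw [h4, (C17_smul _ h2 y).1, (C17_smul _ h2 y).2, C.Lap_smul _ h2]
  unfold C.err phs
  ring

theorem C.evo_supp {δ : ℝ} (hδ : 0 < δ) (x ξ : P) (s t : ℝ) {y : P}
    (hy : 2 * rad δ < dist y x) : C.evo δ x ξ s t y = 0 ∧ C.err δ x ξ s t y = 0 := by
  have hr := C.rad_pos hδ
  have h1 : C.cx (rad δ) x y = 0 := by
    unfold C.cx
    rw [C.chir_eq_zero hr (by rw [← dist_eq_norm]; exact hy.le), Complex.ofReal_zero]
  obtain ⟨h2, h3, h4⟩ := C.cx_zero hr (Or.inr hy)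
  unfold C.evo C.err
  rw [h1, h2, h3, h4]
  constructor <;> simp

theorem C.evo_zero (δ : ℝ) (x ξ : P) (s : ℝ) (y : P) :
    C.evo δ x ξ s 0 y = psic δ x ξ s y := by
  unfold C.evo psic C.cx phs
  rw [zero_smul, add_zero, add_zero, zero_mul, zero_div, Complex.ofReal_zero, zero_mul,
    Complex.exp_zero, one_mul]

/-- The packet is negligible away from its centre. Proof: `norm_psi`, `1 / √(π h) ≤ δ ^ (-40)`,
`sq (y - x) ≥ dist y x ^ 2 ≥ r ^ 2 / 4` (`dist_sq_le`), `rad_sq`, `neg_exp4`. -/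
theorem C.psi_far (T : ℝ) : ∀ᶠ δ in 𝓝[>] (0 : ℝ), ∀ x ξ : P, ∀ s : ℝ, |s| ≤ T → ∀ y : P,
    rad δ / 2 ≤ dist y x → ‖psi (hh δ) x ξ s y‖ ≤ δ ^ 2500 := by
  have hc : (0 : ℝ) < 1 / (32768 * (1 + T ^ 2)) := by positivity
  filter_upwards [C.neg_exp4 hc 1 40 2500, C.ev_lt (show (0 : ℝ) < 1 by norm_num)]
    with δ h1 h2 x ξ s hs y hy
  obtain ⟨hδ, hδ1⟩ := h2
  refine le_trans ?_ h1
  clear h1
  have hh0 := C.hh_pos hδ
  have hr := C.rad_pos hδ
  rw [C.norm_psi, one_mul]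
  have k1 : 1 / Real.sqrt (Real.pi * hh δ) * ‖beta s‖ ≤ δ⁻¹ ^ 40 := by
    have e1 : Real.sqrt (hh δ) ≤ Real.sqrt (Real.pi * hh δ) := by
      refine Real.sqrt_le_sqrt ?_
      nlinarith [Real.pi_gt_three]
    rw [C.sqrt_hh hδ] at e1
    have e2 : (0 : ℝ) < sh δ := pow_pos hδ _
    have e3 : 1 / Real.sqrt (Real.pi * hh δ) ≤ 1 / sh δ := one_div_le_one_div_of_le e2 e1
    have e4 : 1 / sh δ = δ⁻¹ ^ 40 := by
      unfold sh
      rw [one_div, inv_pow]
    rw [← e4]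
    exact (mul_le_of_le_one_right (by positivity) (C.beta_le s)).trans e3
  refine mul_le_mul k1 (Real.exp_le_exp.2 (neg_le_neg ?_)) (Real.exp_pos _).le (by positivity)
  have k2 : rad δ ^ 2 / 4 ≤ sq (y - x) := by
    refine le_trans ?_ (C.dist_sq_le y x)
    have := pow_le_pow_left₀ (by positivity) hy 2
    refine le_trans (le_of_eq ?_) this
    ring
  have k3 : (1 + T ^ 2)⁻¹ ≤ (1 + s ^ 2)⁻¹ := by
    have hsT : s ^ 2 ≤ T ^ 2 := by
      rw [← sq_abs s]
      exact pow_le_pow_left₀ (abs_nonneg s) hs 2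
    exact inv_anti₀ (by positivity) (by linarith)
  have k4 : 1 / (32768 * (1 + T ^ 2)) / δ ^ 4 =
      (1 + T ^ 2)⁻¹ * (rad δ ^ 2 / 4) / (2 * hh δ) := by
    have e5 := C.rad_sq hδ
    have e6 : (1 + T ^ 2)⁻¹ * (rad δ ^ 2 / 4) / (2 * hh δ) =
        (1 + T ^ 2)⁻¹ / 8 * (rad δ ^ 2 / hh δ) := by
      field_simp
      norm_num
    rw [e6, e5]
    field_simp
    norm_num
  rw [k4]
  refine div_le_div_of_nonneg_right ?_ (by positivity)
  exact mul_le_mul k3 k2 (by positivity) (by positivity)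

/-- The error term is negligible.

Proof. If `dist y x < r` or `2 r < dist y x` it is zero (`cx_zero`). Otherwise the centre
`x + t ξ` has distance at most `2 tau = r / 8` from `x`, so `r / 2 ≤ dist y (x + t ξ) ≤ 1`; by
`D1_psi`, `D2_psi` the derivatives of the packet are at most `3 / h` times the packet
(`beta_le`, `|ξ.i| ≤ 2`), `cx_bdd`, and `psi_far` for `T + 1`: the error is at most
`(h / 2) (K / r ^ 2 + 4 (K / r) (3 / h)) δ ^ 2500`. -/
theorem C.err_le (T : ℝ) : ∀ᶠ δ in 𝓝[>] (0 : ℝ), ∀ x : P, ∀ ξ ∈ Sq2, ∀ s t : ℝ, |s| ≤ T →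
    |t| ≤ tau δ → ∀ y, ‖C.err δ x ξ s t y‖ ≤ δ ^ 2100 := by
  obtain ⟨K, hK0, hK⟩ := C.cx_bdd
  have hc : (0 : ℝ) < 1 / (28672 * K + 1) := by positivity
  filter_upwards [C.psi_far (T + 1), C.ev_lt hc, C.ev_lt (show (0 : ℝ) < 1 by norm_num)]
    with δ h1 h2 h3 x ξ hξ s t hs ht y
  obtain ⟨hδ, hδ1⟩ := h3
  have hh0 := C.hh_pos hδ
  have hh1 : hh δ ≤ 1 := pow_le_one₀ hδ.le hδ1.le
  have hr := C.rad_pos hδ
  have hth1 : th δ ≤ 1 := pow_le_one₀ hδ.le hδ1.le
  have hr1 : rad δ ≤ 1 / 64 := by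
    unfold rad
    linarith
  have htr := (C.tau_rad δ).1
  have hξ1 : |ξ.1| ≤ 2 := hξ.1
  have hξ2 : |ξ.2| ≤ 2 := hξ.2
  by_cases hy : dist y x < rad δ ∨ 2 * rad δ < dist y x
  · obtain ⟨e1, e2, e3⟩ := C.cx_zero hr hy
    unfold C.err
    rw [e1, e2, e3]
    simp only [zero_mul, add_zero, mul_zero, norm_zero]
    positivity
  rw [not_or, not_lt, not_lt] at hy
  obtain ⟨hy1, hy2⟩ := hy
  have hm : dist x (x + t • ξ) ≤ rad δ / 8 := by
    rw [dist_eq_norm, sub_add_cancel_left, norm_neg, norm_smul, Real.norm_eq_abs]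
    have e1 : ‖ξ‖ ≤ 2 := by
      rw [Prod.norm_def]
      exact max_le hξ1 hξ2
    calc |t| * ‖ξ‖ ≤ tau δ * 2 := mul_le_mul ht e1 (norm_nonneg _) (C.tau_pos hδ).le
      _ = rad δ / 8 := by linarith
  have hd1 : rad δ / 2 ≤ dist y (x + t • ξ) := by
    have := dist_triangle y (x + t • ξ) x
    rw [dist_comm (x + t • ξ) x] at this
    linarith
  have hd2 : dist y (x + t • ξ) ≤ 1 := by
    have := dist_triangle y x (x + t • ξ)
    linarith
  have hst : |s + t| ≤ T + 1 := by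
    refine (abs_add_le s t).trans ?_
    have : tau δ ≤ 1 := by linarith
    linarith
  have hq := h1 (x + t • ξ) ξ (s + t) hst y hd1
  set ψ := psi (hh δ) (x + t • ξ) ξ (s + t) with hψ
  have hδp : (0 : ℝ) ≤ δ ^ 2500 := by positivity
  have key : ∀ a b : ℝ, |a| ≤ 1 → |b| ≤ 2 →
      ‖((-beta (s + t) * (a : ℂ) + Complex.I * (b : ℂ)) / (hh δ : ℂ)) * ψ y‖ ≤
        3 / hh δ * δ ^ 2500 := by
    intro a b ha hb
    rw [norm_mul, norm_div, Complex.norm_real, Real.norm_of_nonneg hh0.le]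
    refine mul_le_mul (div_le_div_of_nonneg_right ?_ hh0.le) hq (norm_nonneg _) (by positivity)
    refine (norm_add_le _ _).trans ?_
    rw [norm_mul, norm_mul, norm_neg, Complex.norm_I, Complex.norm_real, Complex.norm_real,
      Real.norm_eq_abs, Real.norm_eq_abs]
    have := mul_le_mul (C.beta_le (s + t)) ha (abs_nonneg _) zero_le_one
    linarith
  have hc1 : |y.1 - (x + t • ξ).1| ≤ 1 := by
    refine le_trans ?_ hd2
    rw [Prod.dist_eq, Real.dist_eq]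
    exact le_max_left _ _
  have hc2 : |y.2 - (x + t • ξ).2| ≤ 1 := by
    refine le_trans ?_ hd2
    rw [Prod.dist_eq, Real.dist_eq, Real.dist_eq]
    exact le_max_right _ _
  have hD1 : ‖D1 ψ y‖ ≤ 3 / hh δ * δ ^ 2500 := by
    rw [hψ, C.D1_psi hh0]
    exact key _ _ hc1 hξ1
  have hD2 : ‖D2 ψ y‖ ≤ 3 / hh δ * δ ^ 2500 := by
    rw [hψ, C.D2_psi hh0]
    exact key _ _ hc2 hξ2
  obtain ⟨b1, b2, b3⟩ := hK (rad δ) hr x y
  have hphs : ‖phs δ t ξ‖ = 1 := by
    unfold phs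
    exact Complex.norm_exp_ofReal_mul_I _
  have hKr : 0 ≤ K / rad δ := by positivity
  have hKr2 : 0 ≤ K / rad δ ^ 2 := by positivity
  have hsum : ‖C.err δ x ξ s t y‖ ≤ hh δ / 2 * (K / rad δ ^ 2 * δ ^ 2500 +
      2 * (K / rad δ * (3 / hh δ * δ ^ 2500) + K / rad δ * (3 / hh δ * δ ^ 2500))) := by
    unfold C.err
    rw [norm_mul, norm_mul, hphs, one_mul, norm_neg, norm_div, norm_mul, Complex.norm_I,
      Complex.norm_real, Real.norm_of_nonneg hh0.le, one_mul, Complex.norm_ofNat]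
    refine mul_le_mul_of_nonneg_left ?_ (by positivity)
    refine (norm_add_le _ _).trans (add_le_add ?_ ?_)
    · rw [norm_mul]
      exact mul_le_mul b3 hq (norm_nonneg _) hKr2
    · rw [norm_mul, Complex.norm_ofNat]
      refine mul_le_mul_of_nonneg_left ?_ (by norm_num)
      refine (norm_add_le _ _).trans (add_le_add ?_ ?_)
      · rw [norm_mul]
        exact mul_le_mul b1 hD1 (norm_nonneg _) hKr
      · rw [norm_mul]
        exact mul_le_mul b2 hD2 (norm_nonneg _) hKr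
  refine hsum.trans ?_
  have e1 : hh δ / 2 * (K / rad δ ^ 2 * δ ^ 2500 +
      2 * (K / rad δ * (3 / hh δ * δ ^ 2500) + K / rad δ * (3 / hh δ * δ ^ 2500))) =
      (hh δ / 2 * (K / rad δ ^ 2) + 6 * (K / rad δ)) * δ ^ 2500 := by
    field_simp
    ring
  rw [e1]
  have e2 : hh δ / 2 * (K / rad δ ^ 2) ≤ 1 * (K / rad δ ^ 2) :=
    mul_le_mul_of_nonneg_right (by linarith) hKr2
  have e3 : K / rad δ ≤ K / rad δ ^ 2 := by
    refine div_le_div_of_nonneg_left hK0 (by positivity) ?_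
    nlinarith
  have e4 : (hh δ / 2 * (K / rad δ ^ 2) + 6 * (K / rad δ)) * δ ^ 2500 ≤
      7 * (K / rad δ ^ 2) * δ ^ 2500 := mul_le_mul_of_nonneg_right (by linarith) hδp
  refine e4.trans ?_
  have e5 : 7 * (K / rad δ ^ 2) * δ ^ 2500 = (28672 * K * δ) * δ ^ 2423 := by
    unfold rad th
    field_simp
    ring
  have e6 : 28672 * K * δ ≤ 1 := by
    have h5 := h2.2
    rw [lt_div_iff₀ (by positivity)] at h5
    nlinarith
  rw [e5]
  calc (28672 * K * δ) * δ ^ 2423 ≤ 1 * δ ^ 2423 :=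
        mul_le_mul_of_nonneg_right e6 (by positivity)
    _ = δ ^ 2423 := one_mul _
    _ ≤ δ ^ 2100 := pow_le_pow_of_le_one hδ.le hδ1.le (by norm_num)

end

end Pool.Agent.MP4eed4eR
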