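import Pool.Agent.Lib.MP_4eed4e_an_R.B14
import Pool.Agent.Lib.MP_4eed4e_an_R.C05
import Pool.Agent.Lib.MP_4eed4e_an_R.C06
import Pool.Agent.Lib.MP_4eed4e_an_R.C17

/-!
MP_4eed4e_an, project R, block C, module C18: one step with fixed walls.
-/

namespace Pool.Agent.MP4eed4eR

open MeasureTheory Set Filter Topology Metric
open scoped ContDiff

noncomputable section

variable {D : Set P}

private theorem c18_th_le {δ : ℝ} (h0 : 0 < δ) (h1 : δ ≤ 1 / 2) : th δ ≤ 1 :=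
  pow_le_one₀ h0.le (by linarith)

private theorem c18_pow {δ : ℝ} (h0 : 0 < δ) (h1 : δ ≤ 1 / 2) : δ ^ 2100 ≤ δ ^ 2050 :=
  pow_le_pow_of_le_one h0.le (by linarith) (by norm_num)

/-- Duhamel for the folded truncated evolution.

Proof. `duhamel` (OutB) for `h = hh δ`, `ρ = th δ / 4`, `R = 2 rad δ` (`tau_rad`, `ev_geo`),
`F = evo δ x ξ s`, `Q = err δ x ξ s`, `τ = t`; `evo_zero`; the bound `M = 8 (2 rad δ) δ ^ 2100`
comes from `norm_fold_le_sup` and `err_le`; `|t| M ≤ δ ^ 2050`. -/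
theorem C.evo_step (S : Spec D) (G : Geo D) (T : ℝ) : ∀ᶠ δ in 𝓝[>] (0 : ℝ),
    ∀ W : Walls G (th δ / 4), ∀ x ∈ G.Y δ, ∀ ξ ∈ Sq2, ∀ s : ℝ, |s| ≤ T → ∀ t : ℝ, |t| ≤ tau δ →
    ‖S.U (hh δ) t (W.v δ (x, ξ) s) - cls D (W.fold (-1) (-1) x (C.evo δ x ξ s t))‖ ≤
      δ ^ 2050 := by
  filter_upwards [C.ev_geo G, C.err_le T] with δ hδ hE
  intro W x hx ξ hξ s hs t ht
  have h0 : 0 < δ := hδ.1
  have hr : 0 < rad δ := C.rad_pos h0
  have ht0 : 0 < th δ := C.th_pos h0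
  obtain ⟨r1, r2, r3⟩ := C.tau_rad δ
  have hcont := C.continuous_err h0 x ξ s
  have hM : ∀ t' ∈ uIcc 0 t, ‖cls D (W.fold (-1) (-1) x (C.err δ x ξ s t'))‖ ≤
      8 * (2 * rad δ) * δ ^ 2100 := by
    intro t' ht'
    have ht1 : |t'| ≤ tau δ := by
      have h1 : |t' - 0| ≤ |t - 0| := abs_sub_left_of_mem_uIcc ht'
      rw [sub_zero, sub_zero] at h1
      exact h1.trans ht
    exact (C.norm_fold_le_sup W (Or.inr rfl) (Or.inr rfl) x (B := δ ^ 2100) (R := 2 * rad δ)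
      (by positivity) (by positivity) x
      (hcont.comp (Continuous.prodMk continuous_const continuous_id)).measurable
      (fun y => hE x ξ hξ s t' hs ht1 y) (fun y hy => (C.evo_supp h0 x ξ s t' hy).2)).2
  have hD := duhamel S (h := hh δ) (ρ := th δ / 4) (R := 2 * rad δ) (C.hh_pos h0) (by linarith)
    hδ.2.2.1 (by linarith) (by linarith) W hx.1 (fun v hv => by
      have h2 := hx.2 v hv
      linarith) (F := C.evo δ x ξ s) (Q := C.err δ x ξ s) (C.contDiff_evo δ x ξ s) hcont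
    (fun t y hy => (C.evo_supp h0 x ξ s t hy).1) (fun t y hy => (C.evo_supp h0 x ξ s t hy).2)
    (fun t y => C.evo_pde h0 x ξ s t y) (τ := t) hM
  have e0 : C.evo δ x ξ s 0 = psic δ x ξ s := funext fun y => C.evo_zero δ x ξ s y
  rw [e0] at hD
  refine le_trans hD ?_
  have hth := c18_th_le h0 hδ.2.1
  have k1 : |t| ≤ 1 := by
    refine ht.trans ?_
    linarith
  have k2 : 8 * (2 * rad δ) ≤ 1 := by linarith
  have k3 : 0 ≤ 8 * (2 * rad δ) * δ ^ 2100 := by positivity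
  calc |t| * (8 * (2 * rad δ) * δ ^ 2100) ≤ 1 * (8 * (2 * rad δ) * δ ^ 2100) :=
        mul_le_mul_of_nonneg_right k1 k3
    _ = 8 * (2 * rad δ) * δ ^ 2100 := one_mul _
    _ ≤ 1 * δ ^ 2100 := mul_le_mul_of_nonneg_right k2 (by positivity)
    _ = δ ^ 2100 := one_mul _
    _ ≤ δ ^ 2050 := c18_pow h0 hδ.2.1

private theorem c18_phs (δ t : ℝ) (ξ : P) : ‖phs δ t ξ‖ = 1 := by
  unfold phs
  exact Complex.norm_exp_ofReal_mul_I _

private theorem c18_norm_smul {δ t : ℝ} {ξ : P} (h1 : ξ ∈ Sq2) (ht : |t| ≤ tau δ) :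
    ‖t • ξ‖ ≤ 2 * tau δ := by
  have h2 : ‖ξ‖ ≤ 2 := by
    rw [Prod.norm_def, max_le_iff, Real.norm_eq_abs, Real.norm_eq_abs]
    exact h1
  rw [norm_smul, Real.norm_eq_abs, mul_comm]
  exact mul_le_mul h2 ht (abs_nonneg t) (by norm_num)

private theorem c18_diff {δ : ℝ} (h0 : 0 < δ) (x ξ : P) (hξ : ξ ∈ Sq2) (s t : ℝ)
    (ht : |t| ≤ tau δ) (y : P) :
    ‖C.evo δ x ξ s t y - phs δ t ξ * psic δ (x + t • ξ) ξ (s + t) y‖ ^ 2 ≤
      {y : P | rad δ / 2 ≤ dist y (x + t • ξ)}.indicator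
        (fun y => ‖psi (hh δ) (x + t • ξ) ξ (s + t) y‖ ^ 2) y := by
  have hr : 0 < rad δ := C.rad_pos h0
  have e1 : C.evo δ x ξ s t y - phs δ t ξ * psic δ (x + t • ξ) ξ (s + t) y =
      phs δ t ξ * (((chir (rad δ) (y - x) - chir (rad δ) (y - (x + t • ξ)) : ℝ) : ℂ) *
        psi (hh δ) (x + t • ξ) ξ (s + t) y) := by
    unfold C.evo C.cx psic
    push_cast
    ring
  rw [e1, norm_mul, norm_mul, c18_phs, one_mul, Complex.norm_real, Real.norm_eq_abs]
  by_cases hy : rad δ / 2 ≤ dist y (x + t • ξ)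
  · rw [indicator_of_mem (show y ∈ {y : P | rad δ / 2 ≤ dist y (x + t • ξ)} from hy)]
    have k1 : |chir (rad δ) (y - x) - chir (rad δ) (y - (x + t • ξ))| ≤ 1 := by
      rw [abs_le]
      have a1 := C.chir_nonneg (rad δ) (y - x)
      have a2 := C.chir_le_one (rad δ) (y - x)
      have a3 := C.chir_nonneg (rad δ) (y - (x + t • ξ))
      have a4 := C.chir_le_one (rad δ) (y - (x + t • ξ))
      constructor <;> linarith
    refine pow_le_pow_left₀ (by positivity) ?_ 2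
    exact mul_le_of_le_one_left (norm_nonneg _) k1
  · have hy' : ‖y - (x + t • ξ)‖ < rad δ / 2 := by
      rw [← dist_eq_norm]
      exact not_le.mp hy
    have c1 : chir (rad δ) (y - (x + t • ξ)) = 1 := C.chir_eq_one hr (by linarith)
    have c2 : chir (rad δ) (y - x) = 1 := by
      refine C.chir_eq_one hr ?_
      have b1 : y - x = (y - (x + t • ξ)) + t • ξ := by abel
      have b2 := norm_add_le (y - (x + t • ξ)) (t • ξ)
      have b3 := c18_norm_smul hξ ht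
      have b4 := (C.tau_rad δ).1
      rw [b1]
      linarith
    rw [c1, c2, sub_self, abs_zero, zero_mul]
    exact le_trans (by norm_num) (indicator_nonneg (fun _ _ => by positivity) y)

/-- Change of the cutoff.

Proof. `norm_fold_sub_le`; pointwise the difference of `evo δ x ξ s t` and
`phs δ t ξ * psic δ (x + t ξ) ξ (s + t)` is the difference of the two cutoffs times a packet; it
vanishes for `dist y (x + t ξ) < r / 2` (then `dist y x < r / 2 + r / 8`, both cutoffs are one) and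
is otherwise at most `‖psi (hh δ) (x + t ξ) ξ (s + t) y‖`; `psi_tail` for `r / 2`, `T + 1`, and
`rad_sq`, `neg_exp4`. -/
theorem C.cut_change (G : Geo D) (T : ℝ) : ∀ᶠ δ in 𝓝[>] (0 : ℝ),
    ∀ W : Walls G (th δ / 4), ∀ x : P, ∀ ξ ∈ Sq2, ∀ s : ℝ, |s| ≤ T → ∀ t : ℝ, |t| ≤ tau δ →
    ‖cls D (W.fold (-1) (-1) x (C.evo δ x ξ s t)) -
      phs δ t ξ • cls D (W.fold (-1) (-1) x (psic δ (x + t • ξ) ξ (s + t)))‖ ≤ δ ^ 2050 := by
  have hc : 0 < 1 / (32768 * (1 + (T + 1) ^ 2)) := by positivity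
  filter_upwards [C.ev_geo G, C.neg_exp4 hc 32 0 4100] with δ hδ hN
  intro W x ξ hξ s hs t ht
  have h0 : 0 < δ := hδ.1
  have hr : 0 < rad δ := C.rad_pos h0
  have hth := c18_th_le h0 hδ.2.1
  have hh0 : 0 < hh δ := C.hh_pos h0
  have hst : |s + t| ≤ T + 1 := by
    have h1 : |t| ≤ 1 := by
      refine ht.trans ?_
      unfold tau
      linarith
    exact (abs_add_le s t).trans (add_le_add hs h1)
  have mF : MemLp (C.evo δ x ξ s t) 2 volume := by
    refine (C.memLp_psi hh0 (x + t • ξ) ξ (s + t)).mono ?_ (ae_of_all _ fun y => ?_)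
    · exact ((C.contDiff_evo δ x ξ s).continuous.comp
        (Continuous.prodMk continuous_const continuous_id)).aestronglyMeasurable
    · unfold C.evo C.cx
      rw [norm_mul, norm_mul, c18_phs, one_mul, Complex.norm_real, Real.norm_eq_abs,
        abs_of_nonneg (C.chir_nonneg _ _)]
      exact mul_le_of_le_one_left (norm_nonneg _) (C.chir_le_one _ _)
  have mG : MemLp (psic δ (x + t • ξ) ξ (s + t)) 2 volume := C.memLp_psic h0 _ ξ (s + t)
  have mF' : MemLp (fun y => phs δ t ξ * psic δ (x + t • ξ) ξ (s + t) y) 2 volume :=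
    mG.const_mul _
  have e1 : phs δ t ξ • cls D (W.fold (-1) (-1) x (psic δ (x + t • ξ) ξ (s + t))) =
      cls D (W.fold (-1) (-1) x (fun y => phs δ t ξ * psic δ (x + t • ξ) ξ (s + t) y)) := by
    rw [← C.cls_smul _ (memLp_fold W (-1) (-1) x mG)]
    exact congrArg (cls D) (funext fun q => (C.fold_smul W (-1) (-1) x _ _ q).symm)
  rw [e1]
  refine (C.norm_fold_sub_le W (Or.inr rfl) (Or.inr rfl) x mF mF').trans ?_
  have hms : MeasurableSet {y : P | rad δ / 2 ≤ dist y (x + t • ξ)} :=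
    measurableSet_le measurable_const (measurable_id.dist measurable_const)
  have hi : Integrable (fun y => ‖psi (hh δ) (x + t • ξ) ξ (s + t) y‖ ^ 2) volume :=
    (C.memLp_psi hh0 (x + t • ξ) ξ (s + t)).integrable_norm_pow (by norm_num)
  have k1 : ∫ y, ‖C.evo δ x ξ s t y - phs δ t ξ * psic δ (x + t • ξ) ξ (s + t) y‖ ^ 2 ≤
      ∫ y in {y : P | rad δ / 2 ≤ dist y (x + t • ξ)},
        ‖psi (hh δ) (x + t • ξ) ξ (s + t) y‖ ^ 2 := by
    rw [← integral_indicator hms]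
    exact integral_mono_of_nonneg (ae_of_all _ fun y => by positivity) (hi.indicator hms)
      (ae_of_all _ fun y => c18_diff h0 x ξ hξ s t ht y)
  have k2 := C.psi_tail hh0 (r := rad δ / 2) (by linarith) (x + t • ξ) ξ hst
  have k3 : (rad δ / 2) ^ 2 / (2 * hh δ * (1 + (T + 1) ^ 2)) =
      1 / (32768 * (1 + (T + 1) ^ 2)) / δ ^ 4 := by
    have q1 := C.rad_sq h0
    have q2 : (rad δ / 2) ^ 2 / (2 * hh δ * (1 + (T + 1) ^ 2)) =
        rad δ ^ 2 / hh δ * (1 / (8 * (1 + (T + 1) ^ 2))) := by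
      field_simp
      ring
    rw [q2, q1]
    field_simp
    ring
  rw [k3] at k2
  rw [pow_zero, mul_one] at hN
  have k4 : ∫ y, ‖C.evo δ x ξ s t y - phs δ t ξ * psic δ (x + t • ξ) ξ (s + t) y‖ ^ 2 ≤
      (δ ^ 2050 / 4) ^ 2 := by
    have q3 : (δ ^ 2050 / 4) ^ 2 = δ ^ 4100 / 16 := by
      rw [div_pow, ← pow_mul]
      norm_num
    rw [q3]
    linarith
  have k5 : Real.sqrt (∫ y, ‖C.evo δ x ξ s t y -
      phs δ t ξ * psic δ (x + t • ξ) ξ (s + t) y‖ ^ 2) ≤ δ ^ 2050 / 4 :=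
    Real.sqrt_le_iff.mpr ⟨by positivity, k4⟩
  linarith

end

end Pool.Agent.MP4eed4eR
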