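import Pool.Agent.Lib.MP_4eed4e_an_R.A09

/-!
MP_4eed4e_an, project R, block A (geometry and billiard). Statements exported to the other blocks.
-/

namespace Pool.Agent.MP4eed4eR

open MeasureTheory Set Filter Topology Metric

noncomputable section

variable {D : Set P}

/-- A4: the step map preserves the closure of `D` and moves points by at most `|t| |ξ|`. -/
theorem stp_mem (G : Geo D) {ρ : ℝ} (W : Walls G ρ) {x ξ : P} (hx : x ∈ closure D)
    (hF : G.Far ρ x) {t : ℝ} (ht : 2 * (|t| * max |ξ.1| |ξ.2|) < ρ) :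
    (stp W t (x, ξ)).1 ∈ closure D ∧ dist (stp W t (x, ξ)).1 x ≤ |t| * max |ξ.1| |ξ.2| :=
  BlA.stp_mem G W hx hF ht

theorem stp_sq {G : Geo D} {ρ : ℝ} (W : Walls G ρ) (t : ℝ) (z : P × P) :
    |(stp W t z).2.1| = |z.2.1| ∧ |(stp W t z).2.2| = |z.2.2| :=
  BlA.stp_sq W t z

theorem measurable_stp {G : Geo D} {ρ : ℝ} (W : Walls G ρ) (t : ℝ) : Measurable (stp W t) :=
  BlA.measurable_stp W t

end

end Pool.Agent.MP4eed4eR
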