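import Pool.Agent.Lib.MP_4eed4e_an_R.C07
import Pool.Agent.Lib.MP_4eed4e_an_R.C13
import Pool.Agent.Lib.MP_4eed4e_an_R.C14
import Pool.Agent.Lib.MP_4eed4e_an_R.C18
import Pool.Agent.Lib.MP_4eed4e_an_R.OutA2

/-!
MP_4eed4e_an, project R, block C, module C19: one step.
-/

namespace Pool.Agent.MP4eed4eR

open MeasureTheory Set Filter Topology Metric

noncomputable section

variable {D : Set P}

/-- Proof: `cls_congr` (`G.isOpen.measurableSet`), `fold_stp` and `fold_congr` with `R = 2 rad δ`,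
`F = psic δ x' ξ' (s + t)` (`psic_zero`), `x' = (stp W t (x, ξ)).1`, `dist x x' ≤ 2 tau = r / 8`
(`stp_mem`, OutA), `cls_smul` (`memLp_pkt`). -/
theorem C.change_walls (G : Geo D) : ∀ᶠ δ in 𝓝[>] (0 : ℝ),
    ∀ W : Walls G (th δ / 4), ∀ x ∈ G.Y δ, ∀ ξ ∈ Sq2, ∀ s : ℝ, ∀ t : ℝ, |t| ≤ tau δ →
    (stp W t (x, ξ)).1 ∈ G.Y δ →
    cls D (W.fold (-1) (-1) x (psic δ (x + t • ξ) ξ s)) =
      ((wsgn (W.w1 x) (x.1 + t * ξ.1) * wsgn (W.w2 x) (x.2 + t * ξ.2) : ℝ) : ℂ) •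
        W.v δ (stp W t (x, ξ)) s := by
  filter_upwards [C.ev_geo G] with δ hδ
  intro W x hx ξ hξ s t ht hx'
  have hth : 0 < th δ := C.th_pos hδ.1
  have hrad : 0 < rad δ := C.rad_pos hδ.1
  have hrel := C.tau_rad δ
  have hfar : G.Far (th δ / 4) x := fun v hv => by
    have h2 := hx.2 v hv
    linarith
  have hfar' : G.Far (th δ / 4) (stp W t (x, ξ)).1 := fun v hv => by
    have h2 := hx'.2 v hv
    linarith
  have hmax : max |ξ.1| |ξ.2| ≤ 2 := max_le hξ.1 hξ.2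
  have hmul : |t| * max |ξ.1| |ξ.2| ≤ rad δ / 8 := by
    have h1 : |t| * max |ξ.1| |ξ.2| ≤ |t| * 2 := mul_le_mul_of_nonneg_left hmax (abs_nonneg _)
    linarith [hrel.1]
  have hd := (stp_mem G W hx.1 hfar (t := t) (ξ := ξ) (by linarith [hrel.2.1])).2
  rw [dist_comm] at hd
  have h1 : cls D (W.fold (-1) (-1) x (psic δ (x + t • ξ) ξ s)) =
      cls D (fun q => ((wsgn (W.w1 x) (x.1 + t * ξ.1) * wsgn (W.w2 x) (x.2 + t * ξ.2) : ℝ) : ℂ) *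
        W.pkt δ (stp W t (x, ξ)).1 (stp W t (x, ξ)).2 s q) := by
    refine C.cls_congr G.isOpen.measurableSet fun q hq => ?_
    rw [Walls.pkt, Walls.fold, Walls.fold, indicator_of_mem hq, indicator_of_mem hq,
      C.fold_stp W δ t s x ξ q]
    rw [C.fold_congr (R := 2 * rad δ) (by linarith) hδ.2.2.1 (by linarith) W hx.1 hfar hx'.1 hfar'
      (by linarith [hrel.2.1]) (fun y hy => C.psic_zero hδ.1 _ _ s hy) (-1) (-1) hq]
  rw [h1, C.cls_smul _ (C.memLp_pkt W hδ.1 _ _ s)]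
  rfl

/-- C3: one step: `evo_step`, `cut_change`, `change_walls`; `2 δ ^ 2050 ≤ δ ^ 2000`. -/
theorem step (S : Spec D) (G : Geo D) (T : ℝ) : ∀ᶠ δ in 𝓝[>] (0 : ℝ),
    ∀ W : Walls G (th δ / 4), ∀ x ∈ G.Y δ, ∀ ξ ∈ Sq2, ∀ s : ℝ, |s| ≤ T → ∀ t : ℝ, |t| ≤ tau δ →
    (stp W t (x, ξ)).1 ∈ G.Y δ →
    ‖S.U (hh δ) t (W.v δ (x, ξ) s) -
      (((wsgn (W.w1 x) (x.1 + t * ξ.1) * wsgn (W.w2 x) (x.2 + t * ξ.2) : ℝ) : ℂ) * phs δ t ξ) •
        W.v δ (stp W t (x, ξ)) (s + t)‖ ≤ δ ^ 2000 := by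
  filter_upwards [C.evo_step S G T, C.cut_change G T, C.change_walls G, C.ev_geo G] with δ h1 h2
    h3 hδ
  intro W x hx ξ hξ s hs t ht hx'
  have e1 := h1 W x hx ξ hξ s hs t ht
  have e2 := h2 W x ξ hξ s hs t ht
  rw [h3 W x hx ξ hξ (s + t) t ht hx', smul_smul, mul_comm (phs δ t ξ)] at e2
  refine (norm_sub_le_norm_sub_add_norm_sub _
    (cls D (W.fold (-1) (-1) x (C.evo δ x ξ s t))) _).trans ?_
  have h4 : δ ^ 2050 ≤ δ ^ 2001 := pow_le_pow_of_le_one hδ.1.le (by linarith [hδ.2.1])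
    (by norm_num)
  have h5 : δ ^ 2001 = δ ^ 2000 * δ := pow_succ δ 2000
  have h6 : 0 < δ ^ 2000 := pow_pos hδ.1 2000
  have h7 : δ ^ 2000 * δ ≤ δ ^ 2000 * (1 / 2) := mul_le_mul_of_nonneg_left hδ.2.1 h6.le
  rw [h5] at h4
  linarith

end

end Pool.Agent.MP4eed4eR
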