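import Pool.Agent.Lib.MP_4eed4e_an_R.C19

/-!
MP_4eed4e_an, project R, block C, module C20: iteration of the step.
-/

namespace Pool.Agent.MP4eed4eR

open MeasureTheory Set Filter Topology Metric

noncomputable section

variable {D : Set P}

theorem C.phs_add (δ s t : ℝ) (ξ : P) : phs δ (s + t) ξ = phs δ s ξ * phs δ t ξ := by
  unfold phs
  rw [← Complex.exp_add]
  congr 1
  push_cast
  ring

theorem C.norm_phs (δ t : ℝ) (ξ : P) : ‖phs δ t ξ‖ = 1 := by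
  unfold phs
  exact Complex.norm_exp_ofReal_mul_I _

private theorem c20_phs_zero (δ : ℝ) (ξ : P) : phs δ 0 ξ = 1 := by
  unfold phs
  simp

private theorem c20_U_zero (S : Spec D) (h : ℝ) (f : HD D) : S.U h 0 f = f := by
  refine ext_co S fun k => ?_
  rw [co_U]
  simp

private theorem c20_wsgn (w : ℝ × ℝ) (y : ℝ) : wsgn w y = 1 ∨ wsgn w y = -1 := by
  unfold wsgn
  split_ifs
  · exact Or.inr rfl
  · exact Or.inl rfl

private theorem c20_mul {a b : ℝ} (ha : a = 1 ∨ a = -1) (hb : b = 1 ∨ b = -1) :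
    a * b = 1 ∨ a * b = -1 := by
  rcases ha with rfl | rfl <;> rcases hb with rfl | rfl <;> norm_num

private theorem c20_abs {a : ℝ} (ha : a = 1 ∨ a = -1) : |a| = 1 := by
  rcases ha with rfl | rfl <;> norm_num

private theorem c20_sq {a : ℝ} (ha : a = 1 ∨ a = -1) : a ^ 2 = 1 := by
  rcases ha with rfl | rfl <;> norm_num

private theorem c20_norm {a b : ℝ} (ha : a = 1 ∨ a = -1) (hb : b = 1 ∨ b = -1) (δ t : ℝ)
    (ξ : P) : ‖((a * b : ℝ) : ℂ) * phs δ t ξ‖ = 1 := by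
  rw [norm_mul, C.norm_phs, mul_one, Complex.norm_real, Real.norm_eq_abs,
    c20_abs (c20_mul ha hb)]

private theorem c20_small {c : ℝ} (hc : 0 < c) {n : ℕ} (hn : n ≠ 0) :
    ∀ᶠ δ in 𝓝[>] (0 : ℝ), δ ^ n < c := by
  have h1 : Tendsto (fun δ : ℝ => δ ^ n) (𝓝[>] (0 : ℝ)) (𝓝 0) := by
    have h2 : Tendsto (fun δ : ℝ => δ ^ n) (𝓝 (0 : ℝ)) (𝓝 ((0 : ℝ) ^ n)) :=
      (continuous_pow n).tendsto 0
    rw [zero_pow hn] at h2
    exact h2.mono_left nhdsWithin_le_nhds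
  exact h1.eventually (gt_mem_nhds hc)

/-- the number of steps does not spoil the error -/
private theorem c20_count (T : ℝ) : ∀ᶠ δ in 𝓝[>] (0 : ℝ), 0 < δ → δ ≤ 1 / 2 →
    ∀ k : ℕ, (k : ℝ) * tau δ ≤ T → ((k : ℝ) + 1) * δ ^ 2000 ≤ δ ^ 1900 := by
  have hc : (0 : ℝ) < 1 / ((|T| + 1) * 1024) := by positivity
  filter_upwards [c20_small hc (n := 62) (by norm_num)] with δ h1 hδ hδ2 k hk
  have hτ : tau δ = δ ^ 38 / 1024 := rfl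
  have h2 : (|T| + 1) * 1024 * δ ^ 62 ≤ 1 := by
    rw [lt_div_iff₀ (by positivity)] at h1
    linarith
  have h3 : tau δ ≤ 1 := by
    rw [hτ]
    have : δ ^ 38 ≤ 1 := pow_le_one₀ hδ.le (by linarith)
    linarith
  have h4 : ((k : ℝ) + 1) * tau δ ≤ |T| + 1 := by
    have := le_abs_self T
    rw [add_mul, one_mul]
    linarith
  have h5 : ((k : ℝ) + 1) * δ ^ 2000 = (((k : ℝ) + 1) * tau δ) * (1024 * δ ^ 62) * δ ^ 1900 := by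
    have e : δ ^ 2000 = δ ^ 38 * δ ^ 62 * δ ^ 1900 := by
      rw [← pow_add, ← pow_add]
    rw [e, hτ]
    ring
  have h6 : (((k : ℝ) + 1) * tau δ) * (1024 * δ ^ 62) ≤ 1 :=
    calc (((k : ℝ) + 1) * tau δ) * (1024 * δ ^ 62) ≤ (|T| + 1) * (1024 * δ ^ 62) :=
          mul_le_mul_of_nonneg_right h4 (by positivity)
      _ = (|T| + 1) * 1024 * δ ^ 62 := by ring
      _ ≤ 1 := h2
  rw [h5]
  calc (((k : ℝ) + 1) * tau δ) * (1024 * δ ^ 62) * δ ^ 1900 ≤ 1 * δ ^ 1900 :=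
        mul_le_mul_of_nonneg_right h6 (by positivity)
    _ = δ ^ 1900 := one_mul _

/-- one more step -/
private theorem c20_next (S : Spec D) (G : Geo D) {T δ : ℝ} {W : Walls G (th δ / 4)}
    (hst : ∀ x ∈ G.Y δ, ∀ ξ ∈ Sq2, ∀ s : ℝ, |s| ≤ T → ∀ t : ℝ, |t| ≤ tau δ →
      (stp W t (x, ξ)).1 ∈ G.Y δ →
      ‖S.U (hh δ) t (W.v δ (x, ξ) s) -
        (((wsgn (W.w1 x) (x.1 + t * ξ.1) * wsgn (W.w2 x) (x.2 + t * ξ.2) : ℝ) : ℂ) *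
          phs δ t ξ) • W.v δ (stp W t (x, ξ)) (s + t)‖ ≤ δ ^ 2000)
    {ξ : P} (hξ : ξ ∈ Sq2) {z : P × P} (hz : z.1 ∈ G.Y δ) {σ₁ σ₂ : ℝ}
    (hσ₁ : σ₁ = 1 ∨ σ₁ = -1) (hσ₂ : σ₂ = 1 ∨ σ₂ = -1) (hz2 : z.2 = (σ₁ * ξ.1, σ₂ * ξ.2))
    {s t ε : ℝ} (hs : |s| ≤ T) (ht : |t| ≤ tau δ) (hy : (stp W t z).1 ∈ G.Y δ) {v₀ : HD D}
    (hv : ‖S.U (hh δ) s v₀ - (((σ₁ * σ₂ : ℝ) : ℂ) * phs δ s ξ) • W.v δ z s‖ ≤ ε) :
    ∃ ρ₁ ρ₂ : ℝ, (ρ₁ = 1 ∨ ρ₁ = -1) ∧ (ρ₂ = 1 ∨ ρ₂ = -1) ∧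
      (stp W t z).2 = (ρ₁ * ξ.1, ρ₂ * ξ.2) ∧
      ‖S.U (hh δ) (s + t) v₀ - (((ρ₁ * ρ₂ : ℝ) : ℂ) * phs δ (s + t) ξ) •
        W.v δ (stp W t z) (s + t)‖ ≤ ε + δ ^ 2000 := by
  set e₁ := wsgn (W.w1 z.1) (z.1.1 + t * z.2.1) with he₁
  set e₂ := wsgn (W.w2 z.1) (z.1.2 + t * z.2.2) with he₂
  have s1 : e₁ = 1 ∨ e₁ = -1 := c20_wsgn _ _
  have s2 : e₂ = 1 ∨ e₂ = -1 := c20_wsgn _ _
  have hzS : z.2 ∈ Sq2 := by
    rw [hz2]
    refine ⟨?_, ?_⟩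
    · simp only [abs_mul, c20_abs hσ₁, one_mul]
      exact hξ.1
    · simp only [abs_mul, c20_abs hσ₂, one_mul]
      exact hξ.2
  have hsq : sq z.2 = sq ξ := by
    rw [hz2]
    unfold sq
    simp only [mul_pow, c20_sq hσ₁, c20_sq hσ₂, one_mul]
  have hph : phs δ t z.2 = phs δ t ξ := by
    unfold phs
    rw [hsq]
  have key := hst z.1 hz z.2 hzS s hs t ht hy
  rw [hph] at key
  refine ⟨e₁ * σ₁, e₂ * σ₂, c20_mul s1 hσ₁, c20_mul s2 hσ₂, ?_, ?_⟩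
  · have h1 : (stp W t z).2 = (e₁ * z.2.1, e₂ * z.2.2) := rfl
    rw [h1, hz2]
    simp only [mul_assoc]
  · set a : ℂ := ((σ₁ * σ₂ : ℝ) : ℂ) * phs δ s ξ with ha
    set b : ℂ := ((e₁ * e₂ : ℝ) : ℂ) * phs δ t ξ with hb
    have hab : (((e₁ * σ₁) * (e₂ * σ₂) : ℝ) : ℂ) * phs δ (s + t) ξ = a * b := by
      rw [ha, hb, C.phs_add]
      push_cast
      ring
    have han : ‖a‖ = 1 := c20_norm hσ₁ hσ₂ δ s ξ
    have hU : S.U (hh δ) (s + t) v₀ - (a * b) • W.v δ (stp W t z) (s + t) =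
        S.U (hh δ) t (S.U (hh δ) s v₀ - a • W.v δ z s) +
          a • (S.U (hh δ) t (W.v δ z s) - b • W.v δ (stp W t z) (s + t)) := by
      rw [add_comm s t, U_add, U_sub, U_smul, smul_sub, smul_smul]
      abel
    rw [hab, hU]
    refine (norm_add_le _ _).trans ?_
    rw [norm_U, norm_smul, han, one_mul]
    exact add_le_add hv key

/-- The iteration, at the multiples of the step.

Proof. Induction on `k`. `k = 0`: `S.U h 0 f = f` by `ext_co`, `co_U`. Step: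
`z_k = (stp W (tau δ))^[k] (x, ξ)` has `z_k.1 ∈ G.Y δ`, `z_k.2 ∈ Sq2` and `sq z_k.2 = sq ξ`;
`z_{k+1}.1 ∈ closure D` by `stp_mem`
(OutA; `2 (tau * 2) < th / 4`), `Far` by hypothesis; `step` for `T`, `s = k tau δ`, `t = tau δ`
(note `stp W t z = stp W t (z.1, z.2)`), `U_add`, `U_sub`, `U_smul`, `norm_U`; the new signs are
`σ_i` times `wsgn`, which is `± 1`; `phs δ (tau δ) z_k.2 = phs δ (tau δ) ξ`, `phs_add`. -/
theorem C.iter_aux (S : Spec D) (G : Geo D) (T : ℝ) : ∀ᶠ δ in 𝓝[>] (0 : ℝ),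
    ∀ W : Walls G (th δ / 4), ∀ x ∈ G.Y δ, ∀ ξ ∈ Sq2, ∀ k : ℕ, (k : ℝ) * tau δ ≤ T →
    (∀ j ≤ k, G.Far (th δ / 2) ((stp W (tau δ))^[j] (x, ξ)).1) →
    ((stp W (tau δ))^[k] (x, ξ)).1 ∈ G.Y δ ∧ ∃ σ₁ σ₂ : ℝ, (σ₁ = 1 ∨ σ₁ = -1) ∧
      (σ₂ = 1 ∨ σ₂ = -1) ∧ ((stp W (tau δ))^[k] (x, ξ)).2 = (σ₁ * ξ.1, σ₂ * ξ.2) ∧
      ‖S.U (hh δ) (k * tau δ) (W.v δ (x, ξ) 0) - (((σ₁ * σ₂ : ℝ) : ℂ) * phs δ (k * tau δ) ξ) •
        W.v δ ((stp W (tau δ))^[k] (x, ξ)) (k * tau δ)‖ ≤ k * δ ^ 2000 := by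
  filter_upwards [step S G T, C.ev_geo G] with δ hst hgeo
  intro W x hx ξ hξ k
  have hδ := hgeo.1
  have hτ : 0 < tau δ := C.tau_pos hδ
  have hth : 0 < th δ := C.th_pos hδ
  induction k with
  | zero =>
    intro _ _
    refine ⟨hx, 1, 1, Or.inl rfl, Or.inl rfl, ?_, ?_⟩
    · simp
    · simp only [Function.iterate_zero, id_eq, Nat.cast_zero, zero_mul, mul_one,
        Complex.ofReal_one, c20_phs_zero, c20_U_zero, one_smul, sub_self, norm_zero, le_refl]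
  | succ k ih =>
    intro hk hF
    have hk' : (k : ℝ) * tau δ ≤ T := by
      push_cast at hk
      linarith
    obtain ⟨hy, σ₁, σ₂, hσ₁, hσ₂, hz2, hn⟩ := ih hk' fun j hj => hF j (by omega)
    have hF1 := hF (k + 1) le_rfl
    rw [Function.iterate_succ_apply'] at hF1 ⊢
    set z := (stp W (tau δ))^[k] (x, ξ) with hz
    have hy1 : (stp W (tau δ) z).1 ∈ G.Y δ := by
      refine ⟨?_, hF1⟩
      have hfar : G.Far (th δ / 4) z.1 := fun v hv => by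
        have := hy.2 v hv
        linarith
      refine (stp_mem G W (x := z.1) (ξ := z.2) (t := tau δ) hy.1 hfar ?_).1
      have h1 : max |z.2.1| |z.2.2| ≤ 2 := by
        rw [hz2]
        refine max_le ?_ ?_
        · simp only [abs_mul, c20_abs hσ₁, one_mul]
          exact hξ.1
        · simp only [abs_mul, c20_abs hσ₂, one_mul]
          exact hξ.2
      have h2 : |tau δ| * max |z.2.1| |z.2.2| ≤ tau δ * 2 := by
        rw [abs_of_pos hτ]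
        exact mul_le_mul_of_nonneg_left h1 hτ.le
      have h3 : tau δ = th δ / 1024 := rfl
      linarith
    have hs : |(k : ℝ) * tau δ| ≤ T := by
      rw [abs_of_nonneg (by positivity)]
      exact hk'
    obtain ⟨ρ₁, ρ₂, h1, h2, h3, h4⟩ := c20_next S G (hst W) hξ hy hσ₁ hσ₂ hz2 hs
      (abs_of_pos hτ).le hy1 hn
    refine ⟨hy1, ρ₁, ρ₂, h1, h2, h3, ?_⟩
    have e : ((k + 1 : ℕ) : ℝ) * tau δ = (k : ℝ) * tau δ + tau δ := by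
      push_cast
      ring
    have e2 : ((k + 1 : ℕ) : ℝ) * δ ^ 2000 = (k : ℝ) * δ ^ 2000 + δ ^ 2000 := by
      push_cast
      ring
    rw [e, e2]
    exact h4

/-- C4: iteration.

Proof. `iter_aux` for `k = ⌊t / tau⌋₊` (`k tau ≤ t`), then one more step (`step`) of length
`t - k tau`, which is between `0` and `tau`; `k + 1 ≤ T / tau + 1 = 1024 T δ ^ (-38) + 1`. -/
theorem iter (S : Spec D) (G : Geo D) (T : ℝ) : ∀ᶠ δ in 𝓝[>] (0 : ℝ),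
    ∀ W : Walls G (th δ / 4), ∀ x ∈ G.Y δ, ∀ ξ ∈ Sq2, ∀ t : ℝ, 0 ≤ t → t ≤ T →
    GoodUpTo W (tau δ) (th δ / 2) t (x, ξ) → (flow W (tau δ) t (x, ξ)).1 ∈ G.Y δ →
    ∃ σ₁ σ₂ : ℝ, (σ₁ = 1 ∨ σ₁ = -1) ∧ (σ₂ = 1 ∨ σ₂ = -1) ∧
      (flow W (tau δ) t (x, ξ)).2 = (σ₁ * ξ.1, σ₂ * ξ.2) ∧
      ‖S.U (hh δ) t (W.v δ (x, ξ) 0) - (((σ₁ * σ₂ : ℝ) : ℂ) * phs δ t ξ) •
        W.v δ (flow W (tau δ) t (x, ξ)) t‖ ≤ δ ^ 1900 := by
  filter_upwards [C.iter_aux S G T, step S G T, C.ev_geo G, c20_count T] with δ hit hst hgeo hcnt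
  intro W x hx ξ hξ t ht0 htT hgood hfl
  have hδ := hgeo.1
  have hτ : 0 < tau δ := C.tau_pos hδ
  set k := ⌊t / tau δ⌋₊ with hk
  have hk1 : (k : ℝ) * tau δ ≤ t := by
    have := Nat.floor_le (div_nonneg ht0 hτ.le)
    rwa [le_div_iff₀ hτ] at this
  have hk2 : t < ((k : ℝ) + 1) * tau δ := by
    have := Nat.lt_floor_add_one (t / tau δ)
    rwa [div_lt_iff₀ hτ] at this
  have hfar : ∀ j ≤ k, G.Far (th δ / 2) ((stp W (tau δ))^[j] (x, ξ)).1 := by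
    intro j hj
    refine hgood j (le_trans ?_ hk1)
    have : (j : ℝ) ≤ k := by exact_mod_cast hj
    exact mul_le_mul_of_nonneg_right this hτ.le
  obtain ⟨hy, σ₁, σ₂, hσ₁, hσ₂, hz2, hn⟩ := hit W x hx ξ hξ k (by linarith) hfar
  set z := (stp W (tau δ))^[k] (x, ξ) with hz
  have hflow : flow W (tau δ) t (x, ξ) = stp W (t - (k : ℝ) * tau δ) z := rfl
  rw [hflow] at hfl ⊢
  have hs : |(k : ℝ) * tau δ| ≤ T := by
    rw [abs_of_nonneg (by positivity)]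
    linarith
  have ht' : |t - (k : ℝ) * tau δ| ≤ tau δ := by
    rw [abs_of_nonneg (by linarith)]
    linarith
  obtain ⟨ρ₁, ρ₂, h1, h2, h3, h4⟩ := c20_next S G (hst W) hξ hy hσ₁ hσ₂ hz2 hs ht' hfl hn
  refine ⟨ρ₁, ρ₂, h1, h2, h3, ?_⟩
  rw [show (k : ℝ) * tau δ + (t - (k : ℝ) * tau δ) = t by ring] at h4
  refine h4.trans ?_
  have h5 := hcnt hδ hgeo.2.1 k (by linarith)
  rw [add_mul, one_mul] at h5
  exact h5

/-- The iteration at the multiples of the step: `iter_aux`, `norm_phs`. -/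
theorem iter_nat (S : Spec D) (G : Geo D) (T : ℝ) : ∀ᶠ δ in 𝓝[>] (0 : ℝ),
    ∀ W : Walls G (th δ / 4), ∀ x ∈ G.Y δ, ∀ ξ ∈ Sq2, ∀ k : ℕ, (k : ℝ) * tau δ ≤ T →
    (∀ j ≤ k, G.Far (th δ / 2) ((stp W (tau δ))^[j] (x, ξ)).1) →
    ∃ om : ℂ, ‖om‖ = 1 ∧ ((stp W (tau δ))^[k] (x, ξ)).1 ∈ G.Y δ ∧
      ‖S.U (hh δ) (k * tau δ) (W.v δ (x, ξ) 0) -
        om • W.v δ ((stp W (tau δ))^[k] (x, ξ)) (k * tau δ)‖ ≤ δ ^ 1900 := by
  filter_upwards [C.iter_aux S G T, C.ev_geo G, c20_count T] with δ hit hgeo hcnt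
  intro W x hx ξ hξ k hk hF
  obtain ⟨hy, σ₁, σ₂, hσ₁, hσ₂, -, hn⟩ := hit W x hx ξ hξ k hk hF
  refine ⟨((σ₁ * σ₂ : ℝ) : ℂ) * phs δ (k * tau δ) ξ, c20_norm hσ₁ hσ₂ _ _ _, hy, hn.trans ?_⟩
  have h5 := hcnt hgeo.1 hgeo.2.1 k hk
  have h6 : (0 : ℝ) ≤ δ ^ 2000 := pow_nonneg hgeo.1.le _
  rw [add_mul, one_mul] at h5
  linarith

end

end Pool.Agent.MP4eed4eR
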