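import Pool.Agent.Lib.MP_4eed4e_an_R.C06
import Pool.Agent.Lib.MP_4eed4e_an_R.C12
import Pool.Agent.Lib.MP_4eed4e_an_R.C14

/-!
MP_4eed4e_an, project R, block C, module C21: unfolding of inner products.
-/

namespace Pool.Agent.MP4eed4eR

open MeasureTheory Set Filter Topology Metric
open scoped ComplexConjugate

noncomputable section

variable {D : Set P}

private theorem c21_r1 (a : ℝ) :
    MeasurePreserving (fun q : P => ((a - q.1, q.2) : P)) volume volume :=
  (Measure.measurePreserving_sub_left (volume : Measure ℝ) a).prod (MeasurePreserving.id volume)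

private theorem c21_r2 (a : ℝ) :
    MeasurePreserving (fun q : P => ((q.1, a - q.2) : P)) volume volume :=
  (MeasurePreserving.id volume).prod (Measure.measurePreserving_sub_left (volume : Measure ℝ) a)

private theorem c21_r3 (a a' : ℝ) :
    MeasurePreserving (fun q : P => ((a - q.1, a' - q.2) : P)) volume volume :=
  (Measure.measurePreserving_sub_left (volume : Measure ℝ) a).prod
    (Measure.measurePreserving_sub_left (volume : Measure ℝ) a')

private theorem c21_meas1 (w : ℝ × ℝ) : MeasurableSet {q : P | wIn w q.1} := by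
  unfold wIn
  refine (MeasurableSet.const _).union ?_
  exact measurableSet_lt measurable_const ((measurable_fst.sub_const _).const_mul _)

private theorem c21_meas2 (w : ℝ × ℝ) : MeasurableSet {q : P | wIn w q.2} := by
  unfold wIn
  refine (MeasurableSet.const _).union ?_
  exact measurableSet_lt measurable_const ((measurable_snd.sub_const _).const_mul _)

private theorem c21_line1 (a : ℝ) : ∀ᵐ q : P, q.1 ≠ a := by
  have h1 : volume ({a} ×ˢ (univ : Set ℝ) : Set P) = 0 := by
    rw [Measure.volume_eq_prod, Measure.prod_prod, Real.volume_singleton, zero_mul]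
  filter_upwards [measure_eq_zero_iff_ae_notMem.1 h1] with q hq h
  exact hq ⟨h, mem_univ _⟩

private theorem c21_line2 (a : ℝ) : ∀ᵐ q : P, q.2 ≠ a := by
  have h1 : volume ((univ : Set ℝ) ×ˢ {a} : Set P) = 0 := by
    rw [Measure.volume_eq_prod, Measure.prod_prod, Real.volume_singleton, mul_zero]
  filter_upwards [measure_eq_zero_iff_ae_notMem.1 h1] with q hq h
  exact hq ⟨mem_univ _, h⟩

private theorem c21_split {r : P → P} (hinv : Function.Involutive r)
    (hr : MeasurePreserving r volume volume) {H : Set P} (hH : MeasurableSet H)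
    (hae : ∀ᵐ q : P, r q ∉ H ↔ q ∈ H) {f : P → ℂ} (hf : Integrable f) :
    ∫ q, f q = ∫ q in H, (f q + f (r q)) := by
  have hemb : MeasurableEmbedding r :=
    (MeasurableEquiv.ofInvolutive r hinv hr.measurable).measurableEmbedding
  have h1 : ∫ q in Hᶜ, f q = ∫ q in H, f (r q) := by
    rw [← hr.setIntegral_preimage_emb hemb f Hᶜ]
    refine setIntegral_congr_set ?_
    rw [Filter.eventuallyEq_set]
    exact hae
  have hfr : Integrable (fun q => f (r q)) := (hr.integrable_comp_emb hemb).2 hf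
  rw [← integral_add_compl hH hf, h1, ← integral_add hf.integrableOn hfr.integrableOn]

private theorem c21_side {a s y : ℝ} (hs : s = 1 ∨ s = -1) (hy : y ≠ a) :
    ¬ (0 < s * (2 * a - y - a)) ↔ 0 < s * (y - a) := by
  have h0 : y - a ≠ 0 := sub_ne_zero.2 hy
  rcases hs with rfl | rfl
  · constructor
    · intro h
      rcases lt_or_gt_of_ne h0 with h1 | h1
      · exact absurd (by linarith) h
      · linarith
    · intro h h2
      linarith
  · constructor
    · intro h
      rcases lt_or_gt_of_ne h0 with h1 | h1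
      · linarith
      · exact absurd (by linarith) h
    · intro h h2
      linarith

private theorem c21_near {a s y z R : ℝ} (hs : s = 1 ∨ s = -1) (h1 : 0 < s * (y - a))
    (h2 : 0 ≤ s * (z - a)) (h : |2 * a - y - z| ≤ R) : |y - z| ≤ R := by
  rw [abs_le] at h ⊢
  rcases hs with rfl | rfl
  · constructor <;> linarith [h.1, h.2]
  · constructor <;> linarith [h.1, h.2]

private theorem c21_sgn {s : ℝ} (hs : IsSgn s) (h : s ≠ 0) : s = 1 ∨ s = -1 := by
  rcases hs with h0 | h0 | h0
  · exact absurd h0 h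
  · exact Or.inl h0
  · exact Or.inr h0

private theorem c21_sq {s : ℝ} (hs : IsSgn s) : s = 0 ∨ s ^ 2 = 1 := by
  rcases hs with h0 | h0 | h0
  · exact Or.inl h0
  · exact Or.inr (by rw [h0]; norm_num)
  · exact Or.inr (by rw [h0]; norm_num)

/-- Proof: for the sign `0` the set is everything. For `± 1` split the integral into the open half
plane, its mirror image and a null set; the reflection preserves the measure. -/
theorem C.unfold1 {w : ℝ × ℝ} (hw : IsSgn w.2) {f : P → ℂ} (hf : Integrable f) :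
    ∫ q, f q = ∫ q in {q : P | wIn w q.1},
      (f q + ((w.2 ^ 2 : ℝ) : ℂ) * f (2 * w.1 - q.1, q.2)) := by
  rcases eq_or_ne w.2 0 with h0 | h0
  · have h1 : {q : P | wIn w q.1} = univ := by
      ext q
      exact ⟨fun _ => mem_univ _, fun _ => Or.inl h0⟩
    rw [h1, Measure.restrict_univ, h0]
    simp
  · have hs := c21_sgn hw h0
    have h2 : w.2 ^ 2 = 1 := (c21_sq hw).resolve_left h0
    rw [c21_split (r := fun q : P => (2 * w.1 - q.1, q.2)) (fun q => by simp)
      (c21_r1 (2 * w.1)) (c21_meas1 w) ?_ hf, h2]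
    · simp
    · filter_upwards [c21_line1 w.1] with q hq
      have h3 := c21_side hs hq
      constructor
      · intro h
        refine Or.inr (h3.1 fun h' => h (Or.inr h'))
      · intro h h'
        exact h3.2 (h.resolve_left h0) (Or.resolve_left h' h0)

theorem C.unfold2 {w : ℝ × ℝ} (hw : IsSgn w.2) {f : P → ℂ} (hf : Integrable f) :
    ∫ q, f q = ∫ q in {q : P | wIn w q.2},
      (f q + ((w.2 ^ 2 : ℝ) : ℂ) * f (q.1, 2 * w.1 - q.2)) := by
  rcases eq_or_ne w.2 0 with h0 | h0
  · have h1 : {q : P | wIn w q.2} = univ := by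
      ext q
      exact ⟨fun _ => mem_univ _, fun _ => Or.inl h0⟩
    rw [h1, Measure.restrict_univ, h0]
    simp
  · have hs := c21_sgn hw h0
    have h2 : w.2 ^ 2 = 1 := (c21_sq hw).resolve_left h0
    rw [c21_split (r := fun q : P => (q.1, 2 * w.1 - q.2)) (fun q => by simp)
      (c21_r2 (2 * w.1)) (c21_meas2 w) ?_ hf, h2]
    · simp
    · filter_upwards [c21_line2 w.1] with q hq
      have h3 := c21_side hs hq
      constructor
      · intro h
        refine Or.inr (h3.1 fun h' => h (Or.inr h'))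
      · intro h h'
        exact h3.2 (h.resolve_left h0) (Or.resolve_left h' h0)

/-- Proof: `unfold1` for `f`, then `unfold2` for the indicator function of `{q | wIn w₁ q.1}` times
`f + w₁.2 ^ 2 * f ∘ reflection` (which is integrable). -/
theorem C.unfold {w₁ w₂ : ℝ × ℝ} (h₁ : IsSgn w₁.2) (h₂ : IsSgn w₂.2) {f : P → ℂ}
    (hf : Integrable f) :
    ∫ q, f q = ∫ q in {q : P | wIn w₁ q.1 ∧ wIn w₂ q.2}, foldF 1 1 w₁ w₂ f q := by
  set g : P → ℂ := fun q => f q + ((w₁.2 ^ 2 : ℝ) : ℂ) * f (2 * w₁.1 - q.1, q.2) with hg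
  have hfr : Integrable (fun q : P => f (2 * w₁.1 - q.1, q.2)) :=
    (c21_r1 (2 * w₁.1)).integrable_comp_of_integrable hf
  have hgi : Integrable g := hf.add (hfr.const_mul _)
  have hi : Integrable ({q : P | wIn w₁ q.1}.indicator g) := hgi.indicator (c21_meas1 w₁)
  have h3 : ∀ q : P, {q : P | wIn w₁ q.1}.indicator g q +
      ((w₂.2 ^ 2 : ℝ) : ℂ) * {q : P | wIn w₁ q.1}.indicator g (q.1, 2 * w₂.1 - q.2) =
      {q : P | wIn w₁ q.1}.indicator (foldF 1 1 w₁ w₂ f) q := by
    intro q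
    by_cases hq : wIn w₁ q.1
    · have e1 : q ∈ {q : P | wIn w₁ q.1} := hq
      have e2 : ((q.1, 2 * w₂.1 - q.2) : P) ∈ {q : P | wIn w₁ q.1} := hq
      rw [indicator_of_mem e1, indicator_of_mem e2, indicator_of_mem e1]
      show (f q + ((w₁.2 ^ 2 : ℝ) : ℂ) * f (2 * w₁.1 - q.1, q.2)) + ((w₂.2 ^ 2 : ℝ) : ℂ) *
        (f (q.1, 2 * w₂.1 - q.2) + ((w₁.2 ^ 2 : ℝ) : ℂ) * f (2 * w₁.1 - q.1, 2 * w₂.1 - q.2)) =
        foldF 1 1 w₁ w₂ f q
      unfold foldF
      push_cast
      ring
    · have e1 : q ∉ {q : P | wIn w₁ q.1} := hq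
      have e2 : ((q.1, 2 * w₂.1 - q.2) : P) ∉ {q : P | wIn w₁ q.1} := hq
      rw [indicator_of_notMem e1, indicator_of_notMem e2, indicator_of_notMem e1]
      simp
  rw [C.unfold1 h₁ hf, ← integral_indicator (c21_meas1 w₁), C.unfold2 h₂ hi]
  rw [integral_congr_ae (Eventually.of_forall h3), setIntegral_indicator (c21_meas1 w₁)]
  have h4 : {q : P | wIn w₂ q.2} ∩ {q : P | wIn w₁ q.1} =
      {q : P | wIn w₁ q.1 ∧ wIn w₂ q.2} := by
    ext q
    exact and_comm
  rw [h4]

/-- If `q` is on the right side of the walls and the image is close to the centre then `q` is close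
to the centre. Proof: with the sign `s` of the wall `a`: `0 < s (q.1 - a)`, `0 ≤ s (x.1 - a)`
(`clo_side` for `y = x`), the sum is `|2 a - q.1 - x.1|` and the difference `s (q.1 - x.1)`. -/
theorem C.fold_near {G : Geo D} {ρ R : ℝ} (hρ : 0 < ρ) (W : Walls G ρ) {x : P}
    (hx : x ∈ closure D) (hfar : G.Far ρ x) {F : P → ℂ} (hs : ∀ y, R < dist y x → F y = 0)
    (e₁ e₂ : ℝ) {q : P} (h1 : wIn (W.w1 x) q.1) (h2 : wIn (W.w2 x) q.2)
    (h0 : foldF e₁ e₂ (W.w1 x) (W.w2 x) F q ≠ 0) : dist q x ≤ R := by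
  by_contra hcon
  rw [not_le] at hcon
  obtain ⟨c1, c2⟩ := C.clo_side W hx hfar hx (by rw [dist_self]; exact hρ)
  have k1 : ∀ {y : ℝ}, (W.w1 x).2 ≠ 0 → |2 * (W.w1 x).1 - q.1 - x.1| ≤ R → |q.1 - x.1| ≤ R :=
    fun hne h => c21_near (c21_sgn (W.sgn1 x) hne) (h1.resolve_left hne) c1 h
  have k2 : ∀ {y : ℝ}, (W.w2 x).2 ≠ 0 → |2 * (W.w2 x).1 - q.2 - x.2| ≤ R → |q.2 - x.2| ≤ R :=
    fun hne h => c21_near (c21_sgn (W.sgn2 x) hne) (h2.resolve_left hne) c2 h
  have hd : ∀ y : P, dist y x ≤ R ↔ |y.1 - x.1| ≤ R ∧ |y.2 - x.2| ≤ R := by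
    intro y
    rw [Prod.dist_eq, max_le_iff, Real.dist_eq, Real.dist_eq]
  have hq : ¬ (|q.1 - x.1| ≤ R ∧ |q.2 - x.2| ≤ R) := fun h =>
    absurd ((hd q).2 h) (not_le.2 hcon)
  have t0 : F q = 0 := hs q hcon
  have t1 : ((e₁ * (W.w1 x).2 ^ 2 : ℝ) : ℂ) * F (2 * (W.w1 x).1 - q.1, q.2) = 0 := by
    rcases eq_or_ne (W.w1 x).2 0 with hz | hz
    · rw [hz]
      simp
    · rw [hs _ ?_, mul_zero]
      by_contra h
      have h' := (hd _).1 (not_lt.1 h)
      exact hq ⟨k1 (y := 0) hz h'.1, h'.2⟩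
  have t2 : ((e₂ * (W.w2 x).2 ^ 2 : ℝ) : ℂ) * F (q.1, 2 * (W.w2 x).1 - q.2) = 0 := by
    rcases eq_or_ne (W.w2 x).2 0 with hz | hz
    · rw [hz]
      simp
    · rw [hs _ ?_, mul_zero]
      by_contra h
      have h' := (hd _).1 (not_lt.1 h)
      exact hq ⟨h'.1, k2 (y := 0) hz h'.2⟩
  have t3 : ((e₁ * e₂ * ((W.w1 x).2 ^ 2 * (W.w2 x).2 ^ 2) : ℝ) : ℂ) *
      F (2 * (W.w1 x).1 - q.1, 2 * (W.w2 x).1 - q.2) = 0 := by
    rcases eq_or_ne (W.w1 x).2 0 with hz | hz
    · rw [hz]
      simp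
    · rcases eq_or_ne (W.w2 x).2 0 with hz' | hz'
      · rw [hz']
        simp
      · rw [hs _ ?_, mul_zero]
        by_contra h
        have h' := (hd _).1 (not_lt.1 h)
        exact hq ⟨k1 (y := 0) hz h'.1, k2 (y := 0) hz' h'.2⟩
  refine h0 ?_
  unfold foldF
  rw [t0, t1, t2, t3]
  simp

/-- Unfolding of an inner product.

Proof. Let `K = foldF (-1) (-1) (W.w1 x) (W.w2 x) F'`, `M = {q | wIn (W.w1 x) q.1 ∧
wIn (W.w2 x) q.2}`. The left side is `∫ q in D, conj (foldF F q) * K q` (`inner_cls`,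
`memLp_fold`). The functions `D.indicator` and `M.indicator` of `conj (foldF F) * K` are equal: if
`q ∈ D` and `foldF F q ≠ 0` then `dist q x ≤ R < ρ` (`fold_supp`, OutB) and `q ∈ M` by `W.model`;
if `q ∈ M` and `foldF F q ≠ 0` then `dist q x ≤ R` (`fold_near`) and `q ∈ D` by `W.model`.
The right side is `∫ q in M, foldF 1 1 (conj F * K) q` (`unfold`; `conj F * K` is integrable as a
product of functions in `L²`) and `foldF 1 1 (conj F * K) = conj (foldF (-1) (-1) F) * K` because
`K` changes sign under the reflections (`foldF_at1`, `foldF_at2`; the coefficients of the other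
terms vanish if the sign is `0`). -/
theorem C.inner_fold {G : Geo D} {ρ R : ℝ} (hρ : 0 < ρ) (hρ' : ρ ≤ 4 * G.rho0) (hR : 0 < R)
    (hR' : 2 * R ≤ ρ) (W : Walls G ρ) {x : P} (hx : x ∈ closure D) (hfar : G.Far ρ x)
    {F F' : P → ℂ} (hF : MemLp F 2 volume) (hF' : MemLp F' 2 volume)
    (hs : ∀ y, R < dist y x → F y = 0) :
    (inner ℂ (cls D (W.fold (-1) (-1) x F)) (cls D (W.fold (-1) (-1) x F')) : ℂ) =
      ∫ y, conj (F y) * foldF (-1) (-1) (W.w1 x) (W.w2 x) F' y := by
  have hDm : MeasurableSet D := G.isOpen.measurableSet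
  set K : P → ℂ := foldF (-1) (-1) (W.w1 x) (W.w2 x) F' with hK
  set M : Set P := {q : P | wIn (W.w1 x) q.1 ∧ wIn (W.w2 x) q.2} with hM
  have hMm : MeasurableSet M := (c21_meas1 (W.w1 x)).inter (c21_meas2 (W.w2 x))
  have hRρ : R < ρ := by linarith
  have hKL : MemLp K 2 volume := by
    have e0 : K = fun q => F' q + (((-1) * (W.w1 x).2 ^ 2 : ℝ) : ℂ) *
        F' (2 * (W.w1 x).1 - q.1, q.2) + (((-1) * (W.w2 x).2 ^ 2 : ℝ) : ℂ) *
        F' (q.1, 2 * (W.w2 x).1 - q.2) +
        (((-1) * (-1) * ((W.w1 x).2 ^ 2 * (W.w2 x).2 ^ 2) : ℝ) : ℂ) *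
        F' (2 * (W.w1 x).1 - q.1, 2 * (W.w2 x).1 - q.2) := rfl
    rw [e0]
    exact ((hF'.add ((hF'.comp_measurePreserving (c21_r1 (2 * (W.w1 x).1))).const_mul _)).add
      ((hF'.comp_measurePreserving (c21_r2 (2 * (W.w2 x).1))).const_mul _)).add
      ((hF'.comp_measurePreserving (c21_r3 (2 * (W.w1 x).1) (2 * (W.w2 x).1))).const_mul _)
  have hcF : MemLp (fun y => conj (F y)) 2 volume := by
    refine hF.of_le (Complex.continuous_conj.comp_aestronglyMeasurable hF.1)
      (Eventually.of_forall fun y => ?_)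
    rw [RCLike.norm_conj]
  have hint : Integrable (fun y => conj (F y) * K y) := hcF.integrable_mul hKL
  have hfold : ∀ q, foldF 1 1 (W.w1 x) (W.w2 x) (fun y => conj (F y) * K y) q =
      conj (foldF (-1) (-1) (W.w1 x) (W.w2 x) F q) * K q := by
    intro q
    have a1 : (W.w1 x).2 = 0 ∨ ((W.w1 x).2 ^ 2 = 1 ∧
        (∀ q' : P, K (2 * (W.w1 x).1 - q'.1, q'.2) = -K q')) := by
      rcases c21_sq (W.sgn1 x) with h | h
      · exact Or.inl h
      · exact Or.inr ⟨h, fun q' => C.foldF_at1 h F' q'⟩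
    have a2 : (W.w2 x).2 = 0 ∨ ((W.w2 x).2 ^ 2 = 1 ∧
        (∀ q' : P, K (q'.1, 2 * (W.w2 x).1 - q'.2) = -K q')) := by
      rcases c21_sq (W.sgn2 x) with h | h
      · exact Or.inl h
      · exact Or.inr ⟨h, fun q' => C.foldF_at2 h F' q'⟩
    unfold foldF
    beta_reduce
    rcases a1 with h1 | ⟨h1, h1'⟩ <;> rcases a2 with h2 | ⟨h2, h2'⟩
    · simp [h1, h2]
    · have e2 := h2' q
      rw [h1, h2, e2]
      simp
      ring
    · have e1 := h1' q
      rw [h1, h2, e1]
      simp
      ring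
    · have e1 := h1' q
      have e2 := h2' q
      have e3 : K (2 * (W.w1 x).1 - q.1, 2 * (W.w2 x).1 - q.2) = K q := by
        have := h1' ((q.1, 2 * (W.w2 x).1 - q.2) : P)
        simp only at this
        rw [this, e2, neg_neg]
      rw [h1, h2, e1, e2, e3]
      simp
      ring
  have hDM : ∀ q, D.indicator (fun q => conj (foldF (-1) (-1) (W.w1 x) (W.w2 x) F q) * K q) q =
      M.indicator (fun q => conj (foldF (-1) (-1) (W.w1 x) (W.w2 x) F q) * K q) q := by
    intro q
    by_cases h0 : foldF (-1) (-1) (W.w1 x) (W.w2 x) F q = 0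
    · have e0 : ∀ S : Set P, S.indicator
          (fun q => conj (foldF (-1) (-1) (W.w1 x) (W.w2 x) F q) * K q) q = 0 := by
        intro S
        by_cases hq : q ∈ S
        · rw [indicator_of_mem hq, h0, map_zero, zero_mul]
        · rw [indicator_of_notMem hq]
      exact (e0 D).trans (e0 M).symm
    · have hiff : q ∈ D ↔ q ∈ M := by
        constructor
        · intro hq
          have h1 : W.fold (-1) (-1) x F q ≠ 0 := by
            unfold Walls.fold
            rw [indicator_of_mem hq]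
            exact h0
          have h2 := fold_supp hρ hρ' hR hR' W hx hfar hs (-1) (-1) hq h1
          exact (W.model x hx hfar q (mem_ball.2 (h2.trans_lt hRρ))).1 hq
        · intro hq
          have h2 := C.fold_near hρ W hx hfar hs (-1) (-1) hq.1 hq.2 h0
          exact (W.model x hx hfar q (mem_ball.2 (h2.trans_lt hRρ))).2 hq
      by_cases hq : q ∈ D
      · rw [indicator_of_mem hq, indicator_of_mem (hiff.1 hq)]
      · rw [indicator_of_notMem hq, indicator_of_notMem fun h => hq (hiff.2 h)]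
  rw [C.inner_cls (memLp_fold W (-1) (-1) x hF) (memLp_fold W (-1) (-1) x hF')]
  rw [C.unfold (W.sgn1 x) (W.sgn2 x) hint]
  have e1 : ∫ q in D, conj (W.fold (-1) (-1) x F q) * W.fold (-1) (-1) x F' q =
      ∫ q in D, conj (foldF (-1) (-1) (W.w1 x) (W.w2 x) F q) * K q := by
    refine setIntegral_congr_fun hDm fun q hq => ?_
    show conj (W.fold (-1) (-1) x F q) * W.fold (-1) (-1) x F' q = _
    unfold Walls.fold
    rw [indicator_of_mem hq, indicator_of_mem hq]
  rw [e1, ← integral_indicator hDm, integral_congr_ae (Eventually.of_forall hDM),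
    integral_indicator hMm]
  exact integral_congr_ae (Eventually.of_forall fun q => (hfold q).symm)

end

end Pool.Agent.MP4eed4eR
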