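import Pool.Agent.Lib.MP_4eed4e_an_R.Base2
import Pool.Agent.Lib.MP_4eed4e_an_R.C04

/-!
MP_4eed4e_an, project R, block C, module C22: the free overlap of two packets.
-/

namespace Pool.Agent.MP4eed4eR

open MeasureTheory Set Filter Topology Metric
open scoped ComplexConjugate

noncomputable section

/-- The free overlap. -/
def C.fov (h : ℝ) (x ξ y η : P) (t : ℝ) : ℂ := ∫ u, conj (psi h x ξ 0 u) * psi h y η t u

private theorem C22_ne (t : ℝ) : (1 + (t : ℂ) * Complex.I) ≠ 0 ∧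
    (2 + (t : ℂ) * Complex.I) ≠ 0 := by
  constructor
  · intro h
    have h1 := congrArg Complex.re h
    simp at h1
  · intro h
    have h1 := congrArg Complex.re h
    simp at h1

private theorem C22_key {h s x y ξ η : ℂ} (hh0 : h ≠ 0) (hs : s ≠ 0) (hs1 : s + 1 ≠ 0) :
    ((x + s⁻¹ * y) / h + Complex.I * (η - ξ) / h) ^ 2 / (4 * ((s + 1) / (s * (2 * h)))) +
      (-x ^ 2 / (2 * h) - s⁻¹ * y ^ 2 / (2 * h) + Complex.I * ξ * x / h -
        Complex.I * η * y / h) =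
      (-(y - x) ^ 2 + 2 * Complex.I * ((y - x) * (η - ξ)) - s * (η - ξ) ^ 2) /
        (2 * h * (s + 1)) - Complex.I * (η * (y - x)) / h := by
  have hI := Complex.I_sq
  field_simp
  ring_nf
  rw [hI]
  ring

private theorem C22_key2 {h t τ ξ c : ℂ} (hh0 : h ≠ 0) (hτ : τ ≠ 0)
    (ht : t = Complex.I * (2 - τ)) :
    Complex.I * t * ξ ^ 2 / (2 * h) + (-(t * ξ + c) ^ 2 / (2 * h * τ) -
      Complex.I * (ξ * (t * ξ + c)) / h) =
      ((2 * ξ - Complex.I * c) / h) ^ 2 / (4 * (τ / (2 * h))) - ξ ^ 2 / h := by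
  have hI := Complex.I_sq
  subst ht
  field_simp
  ring_nf
  rw [hI]
  ring

private theorem C22_key3 {h t τ σ D B W e : ℂ} (hh0 : h ≠ 0) (hτ : τ ≠ 0) (hσ : σ ≠ 0)
    (h2 : σ = 2 - t * Complex.I) :
    (-D + 2 * Complex.I * B - (1 + t * Complex.I) * W) / (2 * h * τ) - Complex.I * e / h =
      -(D - t * B + (1 + t ^ 2 / 2) * W) / (h * (τ * σ)) +
        ((t * D + 4 * B - t * W) / (2 * h * (τ * σ)) - e / h) * Complex.I := by
  have e1 : (-D + 2 * Complex.I * B - (1 + t * Complex.I) * W) / (2 * h * τ) =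
      (-D + 2 * Complex.I * B - (1 + t * Complex.I) * W) * σ / (2 * h * (τ * σ)) := by
    field_simp
  have e2 : (-D + 2 * Complex.I * B - (1 + t * Complex.I) * W) * σ =
      -2 * (D - t * B + (1 + t ^ 2 / 2) * W) + (t * D + 4 * B - t * W) * Complex.I := by
    rw [h2]
    ring_nf
    rw [Complex.I_sq]
    ring
  rw [e1, e2]
  field_simp
  ring

/-- The free overlap in closed form.

Proof. With `v = u - x`, `d = y - x`, `w = η - ξ`, `β = beta t` the integrand is `β / (π h)` times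
`exp (-(1 + β) |v|² / 2h + v·(β d / h + i w / h) - β |d|² / 2h - i η·d / h)` (`beta_zero`);
`gauss_int` for `b = (1 + β) / 2h` gives the factor `2 β / (1 + β) = 2 / (2 + i t)` and the exponent
`∑ i, ((β d_i + i w_i)² / (2 h (1 + β)) - β d_i² / 2h) - i η·d / h`, and
`(β d + i w)² / (1 + β) - β d² = (-d² + 2 i d w - (1 + i t) w²) / (2 + i t)`. -/
theorem C.fov_eq {h : ℝ} (hh0 : 0 < h) (x ξ y η : P) (t : ℝ) :
    C.fov h x ξ y η t = (2 / (2 + (t : ℂ) * Complex.I)) * Complex.exp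
      ((-((sq (y - x) : ℝ) : ℂ) + 2 * Complex.I * ((dot (y - x) (η - ξ) : ℝ) : ℂ)
        - (1 + (t : ℂ) * Complex.I) * ((sq (η - ξ) : ℝ) : ℂ)) /
          (2 * (h : ℂ) * (2 + (t : ℂ) * Complex.I))
        - Complex.I * ((dot η (y - x) : ℝ) : ℂ) / (h : ℂ)) := by
  obtain ⟨hs, hs2⟩ := C22_ne t
  have hhc : (h : ℂ) ≠ 0 := Complex.ofReal_ne_zero.2 hh0.ne'
  have hs1 : (1 + (t : ℂ) * Complex.I) + 1 ≠ 0 := by
    rw [show (1 + (t : ℂ) * Complex.I) + 1 = 2 + (t : ℂ) * Complex.I by ring]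
    exact hs2
  set s : ℂ := 1 + (t : ℂ) * Complex.I with hsdef
  have hpi : (0 : ℝ) < Real.pi * h := mul_pos Real.pi_pos hh0
  set b : ℂ := (s + 1) / (s * (2 * (h : ℂ))) with hb
  have hbeta : beta t = s⁻¹ := by
    unfold beta
    rw [one_div]
  have hbre : 0 < b.re := by
    have h1 : b = (1 + beta t) * ((1 / (2 * h) : ℝ) : ℂ) := by
      rw [hb, hbeta]
      push_cast
      field_simp
    rw [h1, Complex.re_mul_ofReal, Complex.add_re, Complex.one_re, C.beta_re]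
    positivity
  set c₁ : ℂ := ((x.1 : ℂ) + s⁻¹ * (y.1 : ℂ)) / h + Complex.I * ((η.1 : ℂ) - ξ.1) / h with hc₁
  set c₂ : ℂ := ((x.2 : ℂ) + s⁻¹ * (y.2 : ℂ)) / h + Complex.I * ((η.2 : ℂ) - ξ.2) / h with hc₂
  set d : ℂ := (-(x.1 : ℂ) ^ 2 / (2 * h) - s⁻¹ * (y.1 : ℂ) ^ 2 / (2 * h) +
      Complex.I * ξ.1 * x.1 / h - Complex.I * η.1 * y.1 / h) +
      (-(x.2 : ℂ) ^ 2 / (2 * h) - s⁻¹ * (y.2 : ℂ) ^ 2 / (2 * h) +
      Complex.I * ξ.2 * x.2 / h - Complex.I * η.2 * y.2 / h) with hd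
  have hint : ∀ u : P, conj (psi h x ξ 0 u) * psi h y η t u =
      (s⁻¹ * ((1 / (Real.pi * h) : ℝ) : ℂ)) *
        Complex.exp (-b * (sq u : ℝ) + c₁ * u.1 + c₂ * u.2 + d) := by
    intro u
    unfold psi
    rw [C.beta_zero, hbeta, map_mul, map_mul, Complex.conj_ofReal, map_one, ← Complex.exp_conj]
    have h1 : ((1 / Real.sqrt (Real.pi * h) : ℝ) : ℂ) * ((1 / Real.sqrt (Real.pi * h) : ℝ) : ℂ) =
        ((1 / (Real.pi * h) : ℝ) : ℂ) := by
      rw [← Complex.ofReal_mul, one_div_mul_one_div, Real.mul_self_sqrt hpi.le]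
    rw [show ((1 / Real.sqrt (Real.pi * h) : ℝ) : ℂ) * 1 * Complex.exp
      (conj (-1 * ((sq (u - x) : ℝ) : ℂ) / ((2 * h : ℝ) : ℂ) +
        ((dot ξ (u - x) / h : ℝ) : ℂ) * Complex.I)) *
      (((1 / Real.sqrt (Real.pi * h) : ℝ) : ℂ) * s⁻¹ * Complex.exp
        (-s⁻¹ * ((sq (u - y) : ℝ) : ℂ) / ((2 * h : ℝ) : ℂ) +
          ((dot η (u - y) / h : ℝ) : ℂ) * Complex.I)) =
      (s⁻¹ * (((1 / Real.sqrt (Real.pi * h) : ℝ) : ℂ) *
        ((1 / Real.sqrt (Real.pi * h) : ℝ) : ℂ))) * (Complex.exp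
      (conj (-1 * ((sq (u - x) : ℝ) : ℂ) / ((2 * h : ℝ) : ℂ) +
        ((dot ξ (u - x) / h : ℝ) : ℂ) * Complex.I)) * Complex.exp
        (-s⁻¹ * ((sq (u - y) : ℝ) : ℂ) / ((2 * h : ℝ) : ℂ) +
          ((dot η (u - y) / h : ℝ) : ℂ) * Complex.I)) by ring, h1, ← Complex.exp_add]
    congr 2
    rw [map_add, map_div₀, map_mul, map_mul, map_neg, map_one, Complex.conj_ofReal,
      Complex.conj_ofReal, Complex.conj_ofReal, Complex.conj_I, hb, hc₁, hc₂, hd]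
    unfold sq dot
    simp only [Prod.fst_sub, Prod.snd_sub]
    push_cast
    field_simp
    ring
  unfold C.fov
  simp only [hint]
  rw [integral_const_mul, (C.gauss_int hbre c₁ c₂ d).2, ← mul_assoc]
  congr 1
  · rw [hb]
    push_cast
    have hpi' : (Real.pi : ℂ) ≠ 0 := Complex.ofReal_ne_zero.2 Real.pi_ne_zero
    rw [show 2 + (t : ℂ) * Complex.I = s + 1 by rw [hsdef]; ring]
    field_simp
  · congr 1
    have k1 := C22_key (x := (x.1 : ℂ)) (y := (y.1 : ℂ)) (ξ := (ξ.1 : ℂ)) (η := (η.1 : ℂ))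
      hhc hs hs1
    have k2 := C22_key (x := (x.2 : ℂ)) (y := (y.2 : ℂ)) (ξ := (ξ.2 : ℂ)) (η := (η.2 : ℂ))
      hhc hs hs1
    have e1 : (c₁ ^ 2 + c₂ ^ 2) / (4 * b) + d =
        (c₁ ^ 2 / (4 * b) + (-(x.1 : ℂ) ^ 2 / (2 * h) - s⁻¹ * (y.1 : ℂ) ^ 2 / (2 * h) +
          Complex.I * ξ.1 * x.1 / h - Complex.I * η.1 * y.1 / h)) +
        (c₂ ^ 2 / (4 * b) + (-(x.2 : ℂ) ^ 2 / (2 * h) - s⁻¹ * (y.2 : ℂ) ^ 2 / (2 * h) +
          Complex.I * ξ.2 * x.2 / h - Complex.I * η.2 * y.2 / h)) := by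
      rw [hd, add_div]
      ring
    rw [e1, hc₁, hc₂, hb, k1, k2]
    rw [show 2 + (t : ℂ) * Complex.I = s + 1 by rw [hsdef]; ring]
    unfold sq dot
    simp only [Prod.fst_sub, Prod.snd_sub]
    push_cast
    ring

/-- Proof: `fov_eq`; `‖2 / (2 + i t)‖ ≤ 1`, the real part of the exponent is
`-(d² - t d·w + (1 + t² / 2) w²) / (h (4 + t²))`, and the quadratic form is at least
`(d² + w²) / 2`: twice the form minus `d² + w²` is `d² - 2 t d·w + (1 + t²) w² ≥ (|d| - |t| |w|)²`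
(sum of two squares, coordinatewise `(d_i - t w_i)² + w_i²`). -/
theorem C.fov_le {h T : ℝ} (hh0 : 0 < h) (x ξ y η : P) {t : ℝ} (ht : |t| ≤ T) :
    ‖C.fov h x ξ y η t‖ ≤
      Real.exp (-(1 / (2 * (4 + T ^ 2))) * (sq (x - y) + sq (ξ - η)) / h) := by
  rw [C.fov_eq hh0, norm_mul, Complex.norm_exp]
  set D : ℝ := sq (y - x) with hD
  set W : ℝ := sq (η - ξ) with hW
  set B : ℝ := dot (y - x) (η - ξ) with hB
  have h1 : ‖(2 / (2 + (t : ℂ) * Complex.I) : ℂ)‖ ≤ 1 := by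
    rw [norm_div, div_le_one (norm_pos_iff.2 (C22_ne t).2)]
    have h2 := Complex.abs_re_le_norm (2 + (t : ℂ) * Complex.I)
    simp at h2
    simpa using h2
  have h3 : (((-(D : ℂ) + 2 * Complex.I * (B : ℂ) - (1 + (t : ℂ) * Complex.I) * (W : ℂ)) /
      (2 * (h : ℂ) * (2 + (t : ℂ) * Complex.I)) -
        Complex.I * ((dot η (y - x) : ℝ) : ℂ) / (h : ℂ)) : ℂ).re =
      -(D - t * B + (1 + t ^ 2 / 2) * W) / (h * (4 + t ^ 2)) := by
    have h4 : (-(D : ℂ) + 2 * Complex.I * (B : ℂ) - (1 + (t : ℂ) * Complex.I) * (W : ℂ)) /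
      (2 * (h : ℂ) * (2 + (t : ℂ) * Complex.I)) -
        Complex.I * ((dot η (y - x) : ℝ) : ℂ) / (h : ℂ) =
      ((-(D - t * B + (1 + t ^ 2 / 2) * W) / (h * (4 + t ^ 2)) : ℝ) : ℂ) +
        (((t * D + 4 * B - t * W) / (2 * h * (4 + t ^ 2)) - dot η (y - x) / h : ℝ) : ℂ) *
          Complex.I := by
      have h5 : (4 + (t : ℂ) ^ 2) ≠ 0 := by
        have h6 : (4 + (t : ℂ) ^ 2) = ((4 + t ^ 2 : ℝ) : ℂ) := by push_cast; ring
        rw [h6]
        exact Complex.ofReal_ne_zero.2 (by positivity)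
      have h7 := (C22_ne t).2
      have hhc : (h : ℂ) ≠ 0 := Complex.ofReal_ne_zero.2 hh0.ne'
      have h8 : (4 + (t : ℂ) ^ 2) = (2 + (t : ℂ) * Complex.I) * (2 - (t : ℂ) * Complex.I) := by
        ring_nf
        rw [Complex.I_sq]
        ring
      push_cast
      have h9 : (2 - (t : ℂ) * Complex.I) ≠ 0 := by
        intro h0
        rw [h8, h0, mul_zero] at h5
        exact h5 rfl
      rw [h8]
      exact C22_key3 hhc h7 h9 rfl
    rw [h4, Complex.add_re, Complex.ofReal_re, mul_comm _ Complex.I, Complex.re_mul_ofReal,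
      Complex.I_re, zero_mul, add_zero]
  rw [h3]
  have hq : 0 ≤ D - 2 * t * B + (1 + t ^ 2) * W := by
    have : D - 2 * t * B + (1 + t ^ 2) * W =
        ((y.1 - x.1) - t * (η.1 - ξ.1)) ^ 2 + ((y.2 - x.2) - t * (η.2 - ξ.2)) ^ 2 +
          ((η.1 - ξ.1) ^ 2 + (η.2 - ξ.2) ^ 2) := by
      rw [hD, hW, hB]
      unfold sq dot
      simp only [Prod.fst_sub, Prod.snd_sub]
      ring
    rw [this]
    positivity
  have hDW : 0 ≤ D + W := by
    rw [hD, hW]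
    unfold sq
    positivity
  have htT : t ^ 2 ≤ T ^ 2 := by
    rw [← sq_abs t]
    exact pow_le_pow_left₀ (abs_nonneg t) ht 2
  have e1 : sq (x - y) = D := by
    rw [hD]
    unfold sq
    simp only [Prod.fst_sub, Prod.snd_sub]
    ring
  have e2 : sq (ξ - η) = W := by
    rw [hW]
    unfold sq
    simp only [Prod.fst_sub, Prod.snd_sub]
    ring
  rw [e1, e2]
  have hexp : -(D - t * B + (1 + t ^ 2 / 2) * W) / (h * (4 + t ^ 2)) ≤
      -(1 / (2 * (4 + T ^ 2))) * (D + W) / h := by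
    have a1 : (D + W) / (2 * (4 + T ^ 2)) ≤ (D - t * B + (1 + t ^ 2 / 2) * W) / (4 + t ^ 2) := by
      rw [div_le_div_iff₀ (by positivity) (by positivity)]
      nlinarith
    have a2 : -(D - t * B + (1 + t ^ 2 / 2) * W) / (h * (4 + t ^ 2)) =
        -((D - t * B + (1 + t ^ 2 / 2) * W) / (4 + t ^ 2)) / h := by
      field_simp
    have a3 : -(1 / (2 * (4 + T ^ 2))) * (D + W) / h = -((D + W) / (2 * (4 + T ^ 2))) / h := by
      field_simp
    rw [a2, a3]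
    apply div_le_div_of_nonneg_right _ hh0.le
    linarith
  calc _ ≤ 1 * Real.exp (-(1 / (2 * (4 + T ^ 2))) * (D + W) / h) :=
        mul_le_mul h1 (Real.exp_le_exp.2 hexp) (Real.exp_pos _).le zero_le_one
    _ = _ := one_mul _

/-- Proof: `fov_eq` for `d = t ξ + c`, `w = 0`; the right side by `gauss_int` after the
substitution `z = ξ + v`: both are
`2 / (2 + i t) * exp (-|t ξ + c|² / (2 h (2 + i t)) - i t |ξ|² / 2h - i ξ·c / h)`. -/
theorem C.fov_Kc {h : ℝ} (hh0 : 0 < h) (x ξ c : P) (t : ℝ) :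
    Complex.exp ((t * sq ξ / (2 * h) : ℝ) * Complex.I) *
      C.fov h x ξ (x + t • ξ + c) ξ t = Kc h t c ξ := by
  obtain ⟨hs, hs2⟩ := C22_ne t
  have hhc : (h : ℂ) ≠ 0 := Complex.ofReal_ne_zero.2 hh0.ne'
  have hpi' : (Real.pi : ℂ) ≠ 0 := Complex.ofReal_ne_zero.2 Real.pi_ne_zero
  set b : ℂ := (2 + (t : ℂ) * Complex.I) / (2 * (h : ℂ)) with hb
  have hbre : 0 < b.re := by
    have h1 : b = (2 + (t : ℂ) * Complex.I) * ((1 / (2 * h) : ℝ) : ℂ) := by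
      rw [hb]
      push_cast
      field_simp
    rw [h1, Complex.re_mul_ofReal]
    simp
    positivity
  set c₁ : ℂ := (2 * (ξ.1 : ℂ) - Complex.I * (c.1 : ℂ)) / h with hc₁
  set c₂ : ℂ := (2 * (ξ.2 : ℂ) - Complex.I * (c.2 : ℂ)) / h with hc₂
  set d : ℂ := -(ξ.1 : ℂ) ^ 2 / h + -(ξ.2 : ℂ) ^ 2 / h with hd
  have hint : ∀ z : P, Complex.exp (-(t * sq z / (2 * h) + dot z c / h : ℝ) * Complex.I) *
      ((Real.pi * h)⁻¹ * Real.exp (-(sq (z - ξ)) / h) : ℝ) =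
      (((Real.pi * h)⁻¹ : ℝ) : ℂ) *
        Complex.exp (-b * (sq z : ℝ) + c₁ * z.1 + c₂ * z.2 + d) := by
    intro z
    rw [Complex.ofReal_mul, Complex.ofReal_exp, mul_left_comm, ← Complex.exp_add]
    congr 2
    rw [hb, hc₁, hc₂, hd]
    unfold sq dot
    simp only [Prod.fst_sub, Prod.snd_sub]
    push_cast
    field_simp
    ring
  unfold Kc
  simp only [hint]
  rw [integral_const_mul, (C.gauss_int hbre c₁ c₂ d).2, C.fov_eq hh0, mul_left_comm,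
    ← Complex.exp_add, ← mul_assoc]
  congr 1
  · rw [hb]
    push_cast
    field_simp
  · congr 1
    have ht' : (t : ℂ) = Complex.I * (2 - (2 + (t : ℂ) * Complex.I)) := by
      ring_nf
      rw [Complex.I_sq]
      ring
    have k1 := C22_key2 (ξ := (ξ.1 : ℂ)) (c := (c.1 : ℂ)) hhc hs2 ht'
    have k2 := C22_key2 (ξ := (ξ.2 : ℂ)) (c := (c.2 : ℂ)) hhc hs2 ht'
    have e1 : (c₁ ^ 2 + c₂ ^ 2) / (4 * b) + d =
        (c₁ ^ 2 / (4 * b) - (ξ.1 : ℂ) ^ 2 / h) + (c₂ ^ 2 / (4 * b) - (ξ.2 : ℂ) ^ 2 / h) := by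
      rw [hd, add_div]
      ring
    rw [e1, hc₁, hc₂, hb, ← k1, ← k2]
    have e2 : x + t • ξ + c - x = t • ξ + c := by abel
    rw [e2, sub_self]
    unfold sq dot
    simp only [Prod.fst_add, Prod.snd_add, Prod.smul_fst, Prod.smul_snd, smul_eq_mul,
      Prod.fst_zero, Prod.snd_zero]
    push_cast
    ring

/-- `fov_Kc`, `fov_le`. -/
theorem C.Kc_le {h T : ℝ} (hh0 : 0 < h) (ξ c : P) {t : ℝ} (ht : |t| ≤ T) :
    ‖Kc h t c ξ‖ ≤ Real.exp (-(1 / (2 * (4 + T ^ 2))) * sq (t • ξ + c) / h) := by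
  rw [← C.fov_Kc hh0 0 ξ c t, norm_mul, Complex.norm_exp_ofReal_mul_I, one_mul]
  refine (C.fov_le hh0 0 ξ (0 + t • ξ + c) ξ ht).trans (le_of_eq ?_)
  have e1 : sq ((0 : P) - (0 + t • ξ + c)) = sq (t • ξ + c) := by
    rw [zero_add, zero_sub]
    unfold sq
    simp only [Prod.fst_neg, Prod.snd_neg]
    ring
  have e2 : sq (ξ - ξ) = 0 := by
    rw [sub_self]
    unfold sq
    simp
  rw [e1, e2, add_zero]

end

end Pool.Agent.MP4eed4eR
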