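import Pool.Agent.Lib.MP_4eed4e_an_R.C05
import Pool.Agent.Lib.MP_4eed4e_an_R.C22

/-!
MP_4eed4e_an, project R, block C, module C23: the overlap of truncated packets.
-/

namespace Pool.Agent.MP4eed4eR

open MeasureTheory Set Filter Topology Metric
open scoped ComplexConjugate

noncomputable section

theorem C.integrable_ov {h : ℝ} (hh0 : 0 < h) (x ξ y η : P) (s t : ℝ) :
    Integrable (fun u => conj (psi h x ξ s u) * psi h y η t u) := by
  have h1 := (C.memLp_psi hh0 x ξ s).norm.integrable_mul (C.memLp_psi hh0 y η t).norm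
  refine h1.mono ?_ (Eventually.of_forall fun u => ?_)
  · exact ((Complex.continuous_conj.comp (C.continuous_psi h x ξ s)).mul
      (C.continuous_psi h y η t)).aestronglyMeasurable
  · simp

theorem C.integrable_ovc {δ : ℝ} (hδ : 0 < δ) (x ξ y η : P) (s t : ℝ) :
    Integrable (fun u => conj (psic δ x ξ s u) * psic δ y η t u) := by
  have h1 := (C.memLp_psic hδ x ξ s).norm.integrable_mul (C.memLp_psic hδ y η t).norm
  refine h1.mono ?_ (Eventually.of_forall fun u => ?_)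
  · exact (Complex.continuous_conj.comp_aestronglyMeasurable (C.memLp_psic hδ x ξ s).1).mul
      (C.memLp_psic hδ y η t).1
  · simp

private theorem c23_amgm {E a b : ℝ} (hE : 0 < E) : a * b ≤ E / 2 * a ^ 2 + E⁻¹ / 2 * b ^ 2 := by
  have h1 : 0 ≤ (E * a - b) ^ 2 / (2 * E) := by positivity
  have h2 : (E * a - b) ^ 2 / (2 * E) = E / 2 * a ^ 2 + E⁻¹ / 2 * b ^ 2 - a * b := by
    field_simp
    ring
  linarith

/-- The pointwise bound. -/
private theorem c23_pt {δ : ℝ} (hδ : 0 < δ) (x ξ y η : P) (t : ℝ) {E : ℝ} (hE : 0 < E) (u : P) :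
    ‖conj (psic δ x ξ 0 u) * psic δ y η t u -
        conj (psi (hh δ) x ξ 0 u) * psi (hh δ) y η t u‖ ≤
      {u : P | rad δ ≤ dist u x}.indicator (fun u => E / 2 * ‖psi (hh δ) x ξ 0 u‖ ^ 2 +
        E⁻¹ / 2 * ‖psi (hh δ) y η t u‖ ^ 2) u +
      {u : P | rad δ ≤ dist u y}.indicator (fun u => E / 2 * ‖psi (hh δ) y η t u‖ ^ 2 +
        E⁻¹ / 2 * ‖psi (hh δ) x ξ 0 u‖ ^ 2) u := by
  have hr := C.rad_pos hδ
  have h0 : conj (psic δ x ξ 0 u) * psic δ y η t u -
      conj (psi (hh δ) x ξ 0 u) * psi (hh δ) y η t u =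
      ((chir (rad δ) (u - x) * chir (rad δ) (u - y) - 1 : ℝ) : ℂ) *
        (conj (psi (hh δ) x ξ 0 u) * psi (hh δ) y η t u) := by
    unfold psic
    rw [map_mul, Complex.conj_ofReal]
    push_cast
    ring
  have hn : ‖conj (psi (hh δ) x ξ 0 u) * psi (hh δ) y η t u‖ =
      ‖psi (hh δ) x ξ 0 u‖ * ‖psi (hh δ) y η t u‖ := by
    rw [norm_mul, RCLike.norm_conj]
  have hx := C.chir_nonneg (rad δ) (u - x)
  have hx1 := C.chir_le_one (rad δ) (u - x)
  have hy := C.chir_nonneg (rad δ) (u - y)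
  have hy1 := C.chir_le_one (rad δ) (u - y)
  have hle : |chir (rad δ) (u - x) * chir (rad δ) (u - y) - 1| ≤ 1 := by
    have h1 := mul_nonneg hx hy
    have h2 := mul_le_one₀ hx1 hy hy1
    rw [abs_le]
    constructor <;> linarith
  have hi1 : ∀ u : P, 0 ≤ E / 2 * ‖psi (hh δ) x ξ 0 u‖ ^ 2 +
      E⁻¹ / 2 * ‖psi (hh δ) y η t u‖ ^ 2 := fun u => by positivity
  have hi2 : ∀ u : P, 0 ≤ E / 2 * ‖psi (hh δ) y η t u‖ ^ 2 +
      E⁻¹ / 2 * ‖psi (hh δ) x ξ 0 u‖ ^ 2 := fun u => by positivity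
  have hb : ‖conj (psic δ x ξ 0 u) * psic δ y η t u -
      conj (psi (hh δ) x ξ 0 u) * psi (hh δ) y η t u‖ ≤
      ‖psi (hh δ) x ξ 0 u‖ * ‖psi (hh δ) y η t u‖ := by
    rw [h0, norm_mul, Complex.norm_real, Real.norm_eq_abs, hn]
    exact mul_le_of_le_one_left (by positivity) hle
  by_cases hA : rad δ ≤ dist u x
  · have h1 : {u : P | rad δ ≤ dist u x}.indicator (fun u => E / 2 *
        ‖psi (hh δ) x ξ 0 u‖ ^ 2 + E⁻¹ / 2 * ‖psi (hh δ) y η t u‖ ^ 2) u =
        E / 2 * ‖psi (hh δ) x ξ 0 u‖ ^ 2 + E⁻¹ / 2 * ‖psi (hh δ) y η t u‖ ^ 2 :=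
      indicator_of_mem (s := {u : P | rad δ ≤ dist u x}) hA _
    rw [h1]
    have h2 := indicator_nonneg (s := {u : P | rad δ ≤ dist u y}) (fun u _ => hi2 u) u
    have h3 := c23_amgm (a := ‖psi (hh δ) x ξ 0 u‖) (b := ‖psi (hh δ) y η t u‖) hE
    linarith
  · by_cases hB : rad δ ≤ dist u y
    · have h1 : {u : P | rad δ ≤ dist u y}.indicator (fun u => E / 2 *
          ‖psi (hh δ) y η t u‖ ^ 2 + E⁻¹ / 2 * ‖psi (hh δ) x ξ 0 u‖ ^ 2) u =
          E / 2 * ‖psi (hh δ) y η t u‖ ^ 2 + E⁻¹ / 2 * ‖psi (hh δ) x ξ 0 u‖ ^ 2 :=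
        indicator_of_mem (s := {u : P | rad δ ≤ dist u y}) hB _
      rw [h1]
      have h2 := indicator_nonneg (s := {u : P | rad δ ≤ dist u x}) (fun u _ => hi1 u) u
      have h3 := c23_amgm (a := ‖psi (hh δ) y η t u‖) (b := ‖psi (hh δ) x ξ 0 u‖) hE
      rw [mul_comm] at h3
      linarith
    · have h1 : chir (rad δ) (u - x) = 1 := by
        refine C.chir_eq_one hr ?_
        rw [← dist_eq_norm]
        exact (not_le.1 hA).le
      have h2 : chir (rad δ) (u - y) = 1 := by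
        refine C.chir_eq_one hr ?_
        rw [← dist_eq_norm]
        exact (not_le.1 hB).le
      have h3 := indicator_nonneg (s := {u : P | rad δ ≤ dist u x}) (fun u _ => hi1 u) u
      have h4 := indicator_nonneg (s := {u : P | rad δ ≤ dist u y}) (fun u _ => hi2 u) u
      rw [h0, h1, h2]
      simp only [mul_one, sub_self, Complex.ofReal_zero, zero_mul, norm_zero]
      linarith

/-- The truncation is negligible.

Proof. The difference of the integrands is `(1 - χ χ')` times a product of two packets, and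
`|1 - χ χ'|` is at most the sum of the indicator functions of `{r ≤ dist u x}` and
`{r ≤ dist u y}`. By the Cauchy-Schwarz inequality, `int_psi_sq` and `psi_tail` (note `0 ≤ T`) the
two parts are at most `√2 exp (-r ^ 2 / (4 h (1 + T ^ 2)))`; `rad_sq`, `neg_exp4`. -/
theorem C.tov (T : ℝ) : ∀ᶠ δ in 𝓝[>] (0 : ℝ), ∀ x ξ y η : P, ∀ t : ℝ, |t| ≤ T →
    ‖(∫ u, conj (psic δ x ξ 0 u) * psic δ y η t u) - C.fov (hh δ) x ξ y η t‖ ≤ δ ^ 2000 := by
  have hc : 0 < 1 / (16384 * (1 + T ^ 2)) := by positivity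
  filter_upwards [C.neg_exp4 hc 3 0 2000, C.ev_lt one_pos] with δ h1 h2 x ξ y η t ht
  obtain ⟨hδ, -⟩ := h2
  have hT : |(0 : ℝ)| ≤ T := by
    rw [abs_zero]
    exact (abs_nonneg t).trans ht
  have hh0 := C.hh_pos hδ
  have hr := C.rad_pos hδ
  obtain ⟨K, hK⟩ : ∃ K, K = 1 / (16384 * (1 + T ^ 2)) / δ ^ 4 := ⟨_, rfl⟩
  rw [← hK, pow_zero, mul_one] at h1
  have e1 : rad δ ^ 2 / (2 * hh δ * (1 + T ^ 2)) = 2 * K := by
    have h3 := C.rad_sq hδ
    have h4 : rad δ ^ 2 / (2 * hh δ * (1 + T ^ 2)) =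
        rad δ ^ 2 / hh δ / (2 * (1 + T ^ 2)) := by
      field_simp
    rw [h4, h3, hK]
    field_simp
    norm_num
  have tA := C.psi_tail hh0 hr.le x ξ hT
  have tB := C.psi_tail hh0 hr.le y η ht
  rw [e1] at tA tB
  have iF : Integrable fun u => ‖psi (hh δ) x ξ 0 u‖ ^ 2 :=
    (C.memLp_psi hh0 x ξ 0).norm.integrable_sq
  have iG : Integrable fun u => ‖psi (hh δ) y η t u‖ ^ 2 :=
    (C.memLp_psi hh0 y η t).norm.integrable_sq
  have sA : MeasurableSet {u : P | rad δ ≤ dist u x} :=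
    (isClosed_le continuous_const (continuous_id.dist continuous_const)).measurableSet
  have sB : MeasurableSet {u : P | rad δ ≤ dist u y} :=
    (isClosed_le continuous_const (continuous_id.dist continuous_const)).measurableSet
  have tA' : ∫ u in {u : P | rad δ ≤ dist u x}, ‖psi (hh δ) y η t u‖ ^ 2 ≤ 1 :=
    (setIntegral_le_integral iG (Eventually.of_forall fun u => sq_nonneg _)).trans_eq
      (C.int_psi_sq hh0 y η t)
  have tB' : ∫ u in {u : P | rad δ ≤ dist u y}, ‖psi (hh δ) x ξ 0 u‖ ^ 2 ≤ 1 :=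
    (setIntegral_le_integral iF (Eventually.of_forall fun u => sq_nonneg _)).trans_eq
      (C.int_psi_sq hh0 x ξ 0)
  obtain ⟨E, hE⟩ : ∃ E, E = Real.exp K := ⟨_, rfl⟩
  have hE0 : 0 < E := hE ▸ Real.exp_pos K
  have iA : Integrable (fun u => E / 2 * ‖psi (hh δ) x ξ 0 u‖ ^ 2 +
      E⁻¹ / 2 * ‖psi (hh δ) y η t u‖ ^ 2) := (iF.const_mul _).add (iG.const_mul _)
  have iB : Integrable (fun u => E / 2 * ‖psi (hh δ) y η t u‖ ^ 2 +
      E⁻¹ / 2 * ‖psi (hh δ) x ξ 0 u‖ ^ 2) := (iG.const_mul _).add (iF.const_mul _)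
  unfold C.fov
  rw [← integral_sub (C.integrable_ovc hδ x ξ y η 0 t) (C.integrable_ov hh0 x ξ y η 0 t)]
  refine (norm_integral_le_of_norm_le ((iA.indicator sA).add (iB.indicator sB))
    (Eventually.of_forall (c23_pt hδ x ξ y η t hE0))).trans ?_
  rw [integral_add' (iA.indicator sA) (iB.indicator sB), integral_indicator sA,
    integral_indicator sB, integral_add (iF.const_mul _).integrableOn
      (iG.const_mul _).integrableOn, integral_add (iG.const_mul _).integrableOn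
      (iF.const_mul _).integrableOn]
  simp only [integral_const_mul]
  have hEi : E⁻¹ = Real.exp (-K) := by rw [hE, Real.exp_neg]
  have hEK : E * Real.exp (-(2 * K)) = Real.exp (-K) := by
    rw [hE, ← Real.exp_add]
    congr 1
    ring
  have b1 := mul_le_mul_of_nonneg_left tA (by positivity : 0 ≤ E / 2)
  have b2 := mul_le_mul_of_nonneg_left tB (by positivity : 0 ≤ E / 2)
  have b3 := mul_le_mul_of_nonneg_left tA' (by positivity : 0 ≤ E⁻¹ / 2)
  have b4 := mul_le_mul_of_nonneg_left tB' (by positivity : 0 ≤ E⁻¹ / 2)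
  refine le_trans ?_ h1
  have e5 : E / 2 * (2 * Real.exp (-(2 * K))) = Real.exp (-K) := by
    rw [← hEK]
    ring
  rw [e5] at b1 b2
  rw [hEi] at b3 b4 ⊢
  linarith

end

end Pool.Agent.MP4eed4eR
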