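import Pool.Agent.Lib.MP_4eed4e_an_R.C07
import Pool.Agent.Lib.MP_4eed4e_an_R.C13
import Pool.Agent.Lib.MP_4eed4e_an_R.C21
import Pool.Agent.Lib.MP_4eed4e_an_R.C23

/-!
MP_4eed4e_an, project R, block C, module C24: overlaps of packets in the domain.
-/

namespace Pool.Agent.MP4eed4eR

open MeasureTheory Set Filter Topology Metric
open scoped ComplexConjugate

noncomputable section

variable {D : Set P}

/-- The sum over the images in the walls at `x`. -/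
def C.wsum {G : Geo D} {ρ : ℝ} (W : Walls G ρ) (δ : ℝ) (x ξ y η : P) (t : ℝ) : ℂ :=
  C.fov (hh δ) x ξ y η t
    - (((W.w1 x).2 ^ 2 : ℝ) : ℂ) *
        C.fov (hh δ) x ξ (2 * (W.w1 x).1 - y.1, y.2) (-η.1, η.2) t
    - (((W.w2 x).2 ^ 2 : ℝ) : ℂ) *
        C.fov (hh δ) x ξ (y.1, 2 * (W.w2 x).1 - y.2) (η.1, -η.2) t
    + (((W.w1 x).2 ^ 2 * (W.w2 x).2 ^ 2 : ℝ) : ℂ) *
        C.fov (hh δ) x ξ (2 * (W.w1 x).1 - y.1, 2 * (W.w2 x).1 - y.2) (-η.1, -η.2) t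

private theorem c24_term {c : ℝ} {z : ℂ} {ε : ℝ} (hc0 : 0 ≤ c) (hc1 : c ≤ 1)
    (hz : c ≠ 0 → ‖z‖ ≤ ε) (hε : 0 ≤ ε) : ‖(c : ℂ) * z‖ ≤ ε := by
  by_cases h : c = 0
  · rw [h, Complex.ofReal_zero, zero_mul, norm_zero]
    exact hε
  · rw [norm_mul, Complex.norm_real, Real.norm_eq_abs, abs_of_nonneg hc0]
    calc c * ‖z‖ ≤ 1 * ε := mul_le_mul hc1 (hz h) (norm_nonneg _) zero_le_one
      _ = ε := one_mul _

private theorem c24_sq {s : ℝ} (h : IsSgn s) : 0 ≤ s ^ 2 ∧ s ^ 2 ≤ 1 := by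
  rcases h with h | h | h <;> rw [h] <;> norm_num

private theorem c24_mul {a b : ℝ} (ha : 0 ≤ a ∧ a ≤ 1) (hb : 0 ≤ b ∧ b ≤ 1) :
    0 ≤ a * b ∧ a * b ≤ 1 :=
  ⟨mul_nonneg ha.1 hb.1, mul_le_one₀ ha.2 hb.1 hb.2⟩

private theorem c24_far {G : Geo D} {δ : ℝ} (hδ : 0 < th δ) {x : P} (hx : x ∈ G.Y δ) :
    G.Far (th δ / 4) x := fun v hv => by
  have h := hx.2 v hv
  linarith

private theorem c24_v {G : Geo D} {δ : ℝ} (h0 : 0 < δ) (hG : th δ / 4 ≤ 4 * G.rho0)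
    (W : Walls G (th δ / 4)) {x y : P} (hx : x ∈ G.Y δ) (hy : y ∈ G.Y δ)
    (hd : dist x y ≤ th δ / 16) (η : P) (t : ℝ) :
    W.v δ (y, η) t = cls D (W.fold (-1) (-1) x (psic δ y η t)) := by
  have hr : 0 < rad δ := C.rad_pos h0
  have ht0 : 0 < th δ := C.th_pos h0
  obtain ⟨r1, r2, r3⟩ := C.tau_rad δ
  unfold Walls.v Walls.pkt
  refine C.cls_congr G.isOpen.measurableSet fun q hq => ?_
  unfold Walls.fold
  rw [indicator_of_mem hq, indicator_of_mem hq]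
  exact (C.fold_congr (ρ := th δ / 4) (R := 2 * rad δ) (by linarith) hG (by linarith) W hx.1
    (c24_far ht0 hx) hy.1 (c24_far ht0 hy) (by linarith)
    (fun u hu => C.psic_zero h0 y η t hu) (-1) (-1) hq).symm

private theorem c24_int {f0 f1 f2 f3 : P → ℂ} (c1 c2 c3 : ℂ) (h0 : Integrable f0)
    (h1 : Integrable f1) (h2 : Integrable f2) (h3 : Integrable f3) :
    ∫ u, (f0 u - c1 * f1 u - c2 * f2 u + c3 * f3 u) =
      (∫ u, f0 u) - c1 * (∫ u, f1 u) - c2 * (∫ u, f2 u) + c3 * ∫ u, f3 u := by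
  have i1 : Integrable (fun u => c1 * f1 u) := h1.const_mul c1
  have i2 : Integrable (fun u => c2 * f2 u) := h2.const_mul c2
  have i3 : Integrable (fun u => c3 * f3 u) := h3.const_mul c3
  have j1 : Integrable (fun u => f0 u - c1 * f1 u) := h0.sub i1
  have j2 : Integrable (fun u => f0 u - c1 * f1 u - c2 * f2 u) := j1.sub i2
  rw [integral_add j2 i3, integral_sub j1 i2, integral_sub h0 i1, integral_const_mul,
    integral_const_mul, integral_const_mul]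

private theorem c24_expand {δ : ℝ} (h0 : 0 < δ) (w₁ w₂ : ℝ × ℝ) (x ξ y η : P) (t : ℝ) :
    ∫ u, conj (psic δ x ξ 0 u) * foldF (-1) (-1) w₁ w₂ (psic δ y η t) u =
      (∫ u, conj (psic δ x ξ 0 u) * psic δ y η t u)
        - ((w₁.2 ^ 2 : ℝ) : ℂ) *
          (∫ u, conj (psic δ x ξ 0 u) * psic δ (2 * w₁.1 - y.1, y.2) (-η.1, η.2) t u)
        - ((w₂.2 ^ 2 : ℝ) : ℂ) *
          (∫ u, conj (psic δ x ξ 0 u) * psic δ (y.1, 2 * w₂.1 - y.2) (η.1, -η.2) t u)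
        + ((w₁.2 ^ 2 * w₂.2 ^ 2 : ℝ) : ℂ) *
          (∫ u, conj (psic δ x ξ 0 u) *
            psic δ (2 * w₁.1 - y.1, 2 * w₂.1 - y.2) (-η.1, -η.2) t u) := by
  have e : (fun u => conj (psic δ x ξ 0 u) * foldF (-1) (-1) w₁ w₂ (psic δ y η t) u) =
      fun u => conj (psic δ x ξ 0 u) * psic δ y η t u
        - ((w₁.2 ^ 2 : ℝ) : ℂ) *
          (conj (psic δ x ξ 0 u) * psic δ (2 * w₁.1 - y.1, y.2) (-η.1, η.2) t u)
        - ((w₂.2 ^ 2 : ℝ) : ℂ) *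
          (conj (psic δ x ξ 0 u) * psic δ (y.1, 2 * w₂.1 - y.2) (η.1, -η.2) t u)
        + ((w₁.2 ^ 2 * w₂.2 ^ 2 : ℝ) : ℂ) *
          (conj (psic δ x ξ 0 u) *
            psic δ (2 * w₁.1 - y.1, 2 * w₂.1 - y.2) (-η.1, -η.2) t u) := by
    funext u
    have e1 := C.psic_refl1 δ w₁.1 y η t u
    have e2 := C.psic_refl2 δ w₂.1 y η t u
    have e3 := C.psic_refl1 δ w₁.1 (y.1, 2 * w₂.1 - y.2) (η.1, -η.2) t u
    have e4 := C.psic_refl2 δ w₂.1 y η t (2 * w₁.1 - u.1, u.2)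
    simp only at e3 e4
    rw [e1, e2, e3, e4]
    unfold foldF
    push_cast
    ring
  rw [e]
  exact c24_int _ _ _ (C.integrable_ovc h0 x ξ y η 0 t)
    (C.integrable_ovc h0 x ξ (2 * w₁.1 - y.1, y.2) (-η.1, η.2) 0 t)
    (C.integrable_ovc h0 x ξ (y.1, 2 * w₂.1 - y.2) (η.1, -η.2) 0 t)
    (C.integrable_ovc h0 x ξ (2 * w₁.1 - y.1, 2 * w₂.1 - y.2) (-η.1, -η.2) 0 t)

/-- Close centres.

Proof. `R = 2 rad δ`, `ρ = th δ / 4 = 16 rad δ`, `th δ / 16 = 4 rad δ`. By `fold_congr`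
(`x' = y`, `F = psic δ y η t`, `psic_zero`) and `cls_congr` the class `W.v δ (y, η) t` is
`cls D (W.fold (-1) (-1) x (psic δ y η t))`. `inner_fold` gives
`∫ u, conj (psic δ x ξ 0 u) * foldF (-1) (-1) (W.w1 x) (W.w2 x) (psic δ y η t) u`; expand `foldF`,
`psic_refl1`, `psic_refl2` (used from right to left) turn the four terms into
`∫ u, conj (psic δ x ξ 0 u) * psic δ y' η' t u`, and use `tov` four times (the coefficients are
`0` or `± 1`); `4 δ ^ 2000 ≤ δ ^ 1990`. -/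
theorem C.ov_near (G : Geo D) (T : ℝ) : ∀ᶠ δ in 𝓝[>] (0 : ℝ),
    ∀ W : Walls G (th δ / 4), ∀ x ∈ G.Y δ, ∀ y ∈ G.Y δ, dist x y ≤ th δ / 16 →
    ∀ ξ η : P, ∀ t : ℝ, |t| ≤ T →
    ‖(inner ℂ (W.v δ (x, ξ) 0) (W.v δ (y, η) t) : ℂ) - C.wsum W δ x ξ y η t‖ ≤ δ ^ 1990 := by
  filter_upwards [C.ev_geo G, C.tov T] with δ hδ hT
  intro W x hx y hy hd ξ η t ht
  have h0 : 0 < δ := hδ.1
  have hr : 0 < rad δ := C.rad_pos h0
  have ht0 : 0 < th δ := C.th_pos h0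
  obtain ⟨r1, r2, r3⟩ := C.tau_rad δ
  rw [c24_v h0 hδ.2.2.1 W hx hy hd η t]
  have e1 : W.v δ (x, ξ) 0 = cls D (W.fold (-1) (-1) x (psic δ x ξ 0)) := rfl
  rw [e1, C.inner_fold (ρ := th δ / 4) (R := 2 * rad δ) (by linarith) hδ.2.2.1 (by linarith)
    (by linarith) W hx.1 (c24_far ht0 hx) (C.memLp_psic h0 x ξ 0) (C.memLp_psic h0 y η t)
    (fun u hu => C.psic_zero h0 x ξ 0 hu), c24_expand h0]
  unfold C.wsum
  have s1 := c24_sq (W.sgn1 x)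
  have s2 := c24_sq (W.sgn2 x)
  have s3 := c24_mul s1 s2
  have p0 : (0 : ℝ) ≤ δ ^ 2000 := by positivity
  have k0 := hT x ξ y η t ht
  have k1 := c24_term s1.1 s1.2
    (fun _ => hT x ξ (2 * (W.w1 x).1 - y.1, y.2) (-η.1, η.2) t ht) p0
  have k2 := c24_term s2.1 s2.2
    (fun _ => hT x ξ (y.1, 2 * (W.w2 x).1 - y.2) (η.1, -η.2) t ht) p0
  have k3 := c24_term s3.1 s3.2
    (fun _ => hT x ξ (2 * (W.w1 x).1 - y.1, 2 * (W.w2 x).1 - y.2) (-η.1, -η.2) t ht) p0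
  have k4 : 4 * δ ^ 2000 ≤ δ ^ 1990 := by
    have q1 : δ ^ 10 ≤ (1 / 2) ^ 10 := pow_le_pow_left₀ h0.le hδ.2.1 10
    have q2 : δ ^ 2000 = δ ^ 10 * δ ^ 1990 := by rw [← pow_add]
    rw [q2, ← mul_assoc]
    refine mul_le_of_le_one_left (by positivity) ?_
    norm_num at q1 ⊢
    linarith
  refine le_trans ?_ k4
  refine le_trans (le_of_eq (congrArg norm ?_)) ((norm_add_le _ _).trans
    ((add_le_add_left ((norm_sub_le _ _).trans (add_le_add_left (norm_sub_le _ _) _)) _).trans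
      ((add_le_add (add_le_add (add_le_add k0 k1) k2) k3).trans (le_of_eq ?_))))
  · ring
  · ring

/-- Distant centres: the supports are disjoint (`mass_v`; the inner product is
`∫ q in D, conj (v q) * v' q`, `MeasureTheory.L2.inner_def`). -/
theorem C.ov_far (G : Geo D) : ∀ᶠ δ in 𝓝[>] (0 : ℝ),
    ∀ W : Walls G (th δ / 4), ∀ x ∈ G.Y δ, ∀ y ∈ G.Y δ, th δ / 16 < dist x y →
    ∀ ξ η : P, ∀ t : ℝ, (inner ℂ (W.v δ (x, ξ) 0) (W.v δ (y, η) t) : ℂ) = 0 := by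
  filter_upwards [C.ev_geo G, mass_v G] with δ hδ hm
  intro W x hx y hy hd ξ η t
  rw [MeasureTheory.L2.inner_def]
  refine integral_eq_zero_of_ae ?_
  filter_upwards [hm W (x, ξ) hx 0, hm W (y, η) hy t] with q h1 h2
  by_cases hq : th δ / 32 < dist q x
  · rw [h1 hq, inner_zero_left]
    rfl
  · have hq' : th δ / 32 < dist q y := by
      have := dist_triangle x q y
      rw [dist_comm x q] at this
      linarith [not_lt.mp hq]
    rw [h2 hq', inner_zero_right]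
    rfl

private theorem c24_side {s a x y κ : ℝ} (hs : IsSgn s) (h0 : s ≠ 0) (hx : 0 ≤ s * (x - a))
    (hy : 0 ≤ s * (y - a)) (hk0 : 0 ≤ κ) (hk : κ ≤ |a - x|) : κ ^ 2 ≤ (x - (2 * a - y)) ^ 2 := by
  have h1 : κ ≤ |x - (2 * a - y)| := by
    rcases hs with h | h | h
    · exact absurd h h0
    · rw [h] at hx hy
      rw [abs_of_nonpos (by linarith)] at hk
      rw [abs_of_nonneg (by linarith)]
      linarith
    · rw [h] at hx hy
      rw [abs_of_nonneg (by linarith)] at hk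
      rw [abs_of_nonpos (by linarith)]
      linarith
  rw [← sq_abs (x - (2 * a - y))]
  exact pow_le_pow_left₀ hk0 h1 2

private theorem c24_fov {δ T : ℝ} (h0 : 0 < δ) (x ξ y η : P) {t : ℝ} (ht : |t| ≤ T)
    (hs : kap δ ^ 2 ≤ sq (x - y)) :
    ‖C.fov (hh δ) x ξ y η t‖ ≤ Real.exp (-(1 / (2 * (4 + T ^ 2)) / δ ^ 2)) := by
  refine (C.fov_le (C.hh_pos h0) x ξ y η ht).trans (Real.exp_le_exp.mpr ?_)
  have hh0 : 0 < hh δ := C.hh_pos h0
  have h1 := C.kap_sq h0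
  have h2 : 0 ≤ sq (ξ - η) := by
    unfold sq
    positivity
  have h3 : 1 / δ ^ 2 ≤ (sq (x - y) + sq (ξ - η)) / hh δ := by
    rw [← h1]
    exact div_le_div_of_nonneg_right (by linarith) hh0.le
  have h4 : 0 ≤ 1 / (2 * (4 + T ^ 2)) := by positivity
  have h5 := mul_le_mul_of_nonneg_left h3 h4
  have h6 : -(1 / (2 * (4 + T ^ 2))) * (sq (x - y) + sq (ξ - η)) / hh δ =
      -(1 / (2 * (4 + T ^ 2)) * ((sq (x - y) + sq (ξ - η)) / hh δ)) := by ring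
  have h7 : 1 / (2 * (4 + T ^ 2)) / δ ^ 2 = 1 / (2 * (4 + T ^ 2)) * (1 / δ ^ 2) := by ring
  rw [h6, h7]
  linarith

/-- The images of a packet whose centre has distance at least `κ` from the walls are negligible.

Proof. In each of the last three terms with nonzero coefficient, for example for the first wall
`a` with sign `s`: `s (x.1 - a) ≥ 0`, `s (y.1 - a) ≥ 0` (`clo_side`, `dist y x < ρ`), and
`|x.1 - a| ≥ kap δ` (`W.Int`), so `|x.1 - (2 a - y.1)| ≥ kap δ`, `sq (x - y') ≥ kap δ ^ 2`;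
`fov_le`, `kap_sq`, `neg_exp`. -/
theorem C.wsum_int (G : Geo D) (T : ℝ) : ∀ᶠ δ in 𝓝[>] (0 : ℝ),
    ∀ W : Walls G (th δ / 4), ∀ x ∈ G.Y δ, W.Int (kap δ) x → ∀ y ∈ G.Y δ,
    dist x y ≤ th δ / 16 → ∀ ξ η : P, ∀ t : ℝ, |t| ≤ T →
    ‖C.wsum W δ x ξ y η t - C.fov (hh δ) x ξ y η t‖ ≤ δ ^ 1990 := by
  have hc : 0 < 1 / (2 * (4 + T ^ 2)) := by positivity
  filter_upwards [C.ev_geo G, C.neg_exp hc 3 0 1990] with δ hδ hN
  intro W x hx hI y hy hd ξ η t ht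
  have h0 : 0 < δ := hδ.1
  have ht0 : 0 < th δ := C.th_pos h0
  have hk0 : 0 < kap δ := C.kap_pos h0
  have hfx := c24_far ht0 hx
  obtain ⟨a1, a2⟩ := C.clo_side W hx.1 hfx hx.1 (by rw [dist_self]; linarith)
  obtain ⟨b1, b2⟩ := C.clo_side W hx.1 hfx hy.1 (by rw [dist_comm]; linarith)
  have s1 := c24_sq (W.sgn1 x)
  have s2 := c24_sq (W.sgn2 x)
  have s3 := c24_mul s1 s2
  rw [pow_zero, mul_one] at hN
  have p0 : 0 ≤ Real.exp (-(1 / (2 * (4 + T ^ 2)) / δ ^ 2)) := (Real.exp_pos _).le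
  have g1 : (W.w1 x).2 ≠ 0 → ∀ u : ℝ, kap δ ^ 2 ≤ sq (x - (2 * (W.w1 x).1 - y.1, u)) := by
    intro hw u
    have h1 := c24_side (W.sgn1 x) hw a1 b1 hk0.le (hI.1 hw)
    unfold sq
    simp only [Prod.fst_sub, Prod.snd_sub]
    linarith [sq_nonneg (x.2 - u)]
  have g2 : (W.w2 x).2 ≠ 0 → ∀ u : ℝ, kap δ ^ 2 ≤ sq (x - (u, 2 * (W.w2 x).1 - y.2)) := by
    intro hw u
    have h1 := c24_side (W.sgn2 x) hw a2 b2 hk0.le (hI.2 hw)
    unfold sq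
    simp only [Prod.fst_sub, Prod.snd_sub]
    linarith [sq_nonneg (x.1 - u)]
  have n1 : (W.w1 x).2 ^ 2 ≠ 0 → (W.w1 x).2 ≠ 0 := fun h h' => h (by rw [h']; norm_num)
  have n2 : (W.w2 x).2 ^ 2 ≠ 0 → (W.w2 x).2 ≠ 0 := fun h h' => h (by rw [h']; norm_num)
  have k1 := c24_term s1.1 s1.2 (fun h =>
    c24_fov h0 x ξ (2 * (W.w1 x).1 - y.1, y.2) (-η.1, η.2) ht (g1 (n1 h) _)) p0
  have k2 := c24_term s2.1 s2.2 (fun h =>
    c24_fov h0 x ξ (y.1, 2 * (W.w2 x).1 - y.2) (η.1, -η.2) ht (g2 (n2 h) _)) p0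
  have k3 := c24_term s3.1 s3.2 (fun h =>
    c24_fov h0 x ξ (2 * (W.w1 x).1 - y.1, 2 * (W.w2 x).1 - y.2) (-η.1, -η.2) ht
      (g1 (n1 (left_ne_zero_of_mul h)) _)) p0
  refine le_trans ?_ hN
  unfold C.wsum
  refine le_trans (le_of_eq ?_) ((norm_sub_le _ _).trans
    ((add_le_add_left (norm_add_le _ _) _).trans
      ((add_le_add (add_le_add k1 k2) k3).trans (le_of_eq ?_))))
  · rw [← norm_neg]
    congr 1
    ring
  · ring

end

end Pool.Agent.MP4eed4eR
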