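import Pool.Agent.Lib.MP_4eed4e_an_R.C24

/-!
MP_4eed4e_an, project R, block C, module C25: the exported overlap estimates.
-/

namespace Pool.Agent.MP4eed4eR

open MeasureTheory Set Filter Topology Metric
open scoped ComplexConjugate

noncomputable section

variable {D : Set P}

/-- the sum over at most one reflection -/
private theorem C25.sum1 {A : Finset ℝ} {w : ℝ × ℝ} (hw : IsSgn w.2) (hA : w.2 ≠ 0 → w.1 ∈ A)
    {g : ℝ × ℝ → ℝ} (hg : ∀ p, 0 ≤ g p) :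
    g (1, 0) + w.2 ^ 2 * g (-1, 2 * w.1) ≤ ∑ p ∈ Rf A 1, g p := by
  have m1 : ((1, 0) : ℝ × ℝ) ∈ Rf A 1 := by
    simp [Rf]
  by_cases h0 : w.2 = 0
  · rw [h0]
    have := Finset.single_le_sum (f := g) (fun p _ => hg p) m1
    simpa using this
  · have m2 : ((-1, 2 * w.1) : ℝ × ℝ) ∈ Rf A 1 := by
      simp only [Rf, Finset.mem_union, Finset.mem_image, Finset.mem_product,
        Finset.mem_singleton]
      refine Or.inr ⟨((1, 0), w.1), ⟨rfl, hA h0⟩, ?_⟩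
      simp
    have hne : ((1, 0) : ℝ × ℝ) ≠ (-1, 2 * w.1) := by
      intro h
      have h1 : (1 : ℝ) = -1 := congrArg Prod.fst h
      norm_num at h1
    have hs : ({(1, 0), (-1, 2 * w.1)} : Finset (ℝ × ℝ)) ⊆ Rf A 1 := by
      intro p hp
      rw [Finset.mem_insert, Finset.mem_singleton] at hp
      rcases hp with rfl | rfl
      · exact m1
      · exact m2
    have h2 := Finset.sum_le_sum_of_subset_of_nonneg hs (f := g) (fun p _ _ => hg p)
    rw [Finset.sum_pair hne] at h2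
    have h3 : w.2 ^ 2 = 1 := by
      rcases hw with h | h | h
      · exact absurd h h0
      · rw [h]; norm_num
      · rw [h]; norm_num
    rw [h3, one_mul]
    exact h2

/-- the sum over at most one reflection in each direction -/
private theorem C25.sum2 {A B : Finset ℝ} {w v : ℝ × ℝ} (hw : IsSgn w.2) (hv : IsSgn v.2)
    (hA : w.2 ≠ 0 → w.1 ∈ A) (hB : v.2 ≠ 0 → v.1 ∈ B)
    {g : (ℝ × ℝ) × (ℝ × ℝ) → ℝ} (hg : ∀ p, 0 ≤ g p) :
    g ((1, 0), (1, 0)) + w.2 ^ 2 * g ((-1, 2 * w.1), (1, 0)) +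
      v.2 ^ 2 * g ((1, 0), (-1, 2 * v.1)) +
      w.2 ^ 2 * v.2 ^ 2 * g ((-1, 2 * w.1), (-1, 2 * v.1)) ≤ ∑ p ∈ Rf A 1 ×ˢ Rf B 1, g p := by
  rw [Finset.sum_product]
  have h1 := C25.sum1 (g := fun p => ∑ q ∈ Rf B 1, g (p, q)) hw hA
    (fun p => Finset.sum_nonneg fun q _ => hg _)
  have h2 := C25.sum1 (g := fun q => g ((1, 0), q)) hv hB (fun q => hg _)
  have h3 := C25.sum1 (g := fun q => g ((-1, 2 * w.1), q)) hv hB (fun q => hg _)
  have h4 := mul_le_mul_of_nonneg_left h3 (sq_nonneg w.2)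
  linarith

/-- powers of small numbers -/
private theorem C25.pw {δ : ℝ} (h0 : 0 < δ) (h1 : δ ≤ 1 / 2) : 2 * δ ^ 1990 ≤ δ ^ 1900 := by
  have e1 : δ ^ 1990 ≤ δ ^ 1901 := pow_le_pow_of_le_one h0.le (by linarith) (by norm_num)
  have e2 : δ ^ 1901 = δ ^ 1900 * δ := pow_succ δ 1900
  have e3 : 0 < δ ^ 1900 := pow_pos h0 1900
  have e4 : δ ^ 1900 * δ ≤ δ ^ 1900 * (1 / 2) := mul_le_mul_of_nonneg_left h1 e3.le
  rw [e2] at e1
  linarith

private theorem C25.c_pos (T : ℝ) : 0 < 1 / (2 * (4 + T ^ 2)) := by positivity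

/-- the size of a term of the sum over the images -/
private theorem C25.term {δ T : ℝ} (hδ : 0 < δ) {k : ℝ} (hk : 0 ≤ k) (x ξ y η : P) {t : ℝ}
    (ht : |t| ≤ T) : ‖((k : ℝ) : ℂ) * C.fov (hh δ) x ξ y η t‖ ≤
      k * Real.exp (-(1 / (2 * (4 + T ^ 2))) * (sq (x - y) + sq (ξ - η)) / hh δ) := by
  rw [norm_mul, Complex.norm_real, Real.norm_eq_abs, abs_of_nonneg hk]
  exact mul_le_mul_of_nonneg_left (C.fov_le (C.hh_pos hδ) x ξ y η ht) hk

/-- C7: the overlap of two packets, with the images.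

Proof. `c = 1 / (2 (4 + T ^ 2))`. Distant centres: `ov_far`. Close centres: `ov_near`; by `fov_le`
the norm of `wsum` is at most the sum of the four exponentials, where the terms with coefficient `0`
are absent. With `a = (W.w1 x).1 ∈ G.A`, `b = (W.w2 x).1 ∈ G.B` (`W.near1`, `W.near2`) these are
the terms `p = ((1, 0), (1, 0))`, `((-1, 2 a), (1, 0))`, `((1, 0), (-1, 2 b))`,
`((-1, 2 a), (-1, 2 b))` of the sum over `Rf G.A 1 ×ˢ Rf G.B 1`, which are pairwise different, and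
all terms of the sum are nonnegative (`Finset.sum_le_sum_of_subset_of_nonneg`). Here
`Rf A 1 = {(1, 0)} ∪ {(-1, 2 a) | a ∈ A}`. -/
theorem overlap (G : Geo D) (T : ℝ) : ∃ c > 0, ∀ᶠ δ in 𝓝[>] (0 : ℝ),
    ∀ W : Walls G (th δ / 4), ∀ x ∈ G.Y δ, ∀ y ∈ G.Y δ, ∀ ξ ∈ Sq2, ∀ η ∈ Sq2,
    ∀ t : ℝ, |t| ≤ T → ‖(inner ℂ (W.v δ (x, ξ) 0) (W.v δ (y, η) t) : ℂ)‖ ≤
      ∑ p ∈ Rf G.A 1 ×ˢ Rf G.B 1, Real.exp
        (-c * (sq (x - app (mk2 p) y) + sq (ξ - lin (mk2 p) η)) / hh δ) + δ ^ 1900 := by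
  refine ⟨1 / (2 * (4 + T ^ 2)), C25.c_pos T, ?_⟩
  filter_upwards [C.ev_geo G, C.ov_near G T, C.ov_far G] with δ hδ hn hf
  intro W x hx y hy ξ _ η _ t ht
  obtain ⟨h0, h12, -, -⟩ := hδ
  have hp := C25.pw h0 h12
  have hp0 : 0 < δ ^ 1900 := pow_pos h0 _
  have hp1 : 0 < δ ^ 1990 := pow_pos h0 _
  rcases lt_or_ge (th δ / 16) (dist x y) with hd | hd
  · rw [hf W x hx y hy hd ξ η t, norm_zero]
    have : 0 ≤ ∑ p ∈ Rf G.A 1 ×ˢ Rf G.B 1, Real.exp
        (-(1 / (2 * (4 + T ^ 2))) * (sq (x - app (mk2 p) y) + sq (ξ - lin (mk2 p) η)) /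
          hh δ) := Finset.sum_nonneg fun p _ => (Real.exp_pos _).le
    linarith
  · have h1 := hn W x hx y hy hd ξ η t ht
    have h2 := C25.sum2 (A := G.A) (B := G.B) (W.sgn1 x) (W.sgn2 x)
      (fun h => (W.near1 x h).1) (fun h => (W.near2 x h).1)
      (g := fun p => Real.exp (-(1 / (2 * (4 + T ^ 2))) *
        (sq (x - app (mk2 p) y) + sq (ξ - lin (mk2 p) η)) / hh δ))
      (fun p => (Real.exp_pos _).le)
    refine le_trans ?_ (add_le_add_left h2 _)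
    have e0 : app (mk2 ((1, 0), (1, 0))) y = y ∧ lin (mk2 ((1, 0), (1, 0))) η = η := by
      constructor <;> simp [app, lin, mk2]
    have e1 : app (mk2 ((-1, 2 * (W.w1 x).1), (1, 0))) y = (2 * (W.w1 x).1 - y.1, y.2) ∧
        lin (mk2 ((-1, 2 * (W.w1 x).1), (1, 0))) η = (-η.1, η.2) := by
      constructor
      · simp only [app, mk2, Prod.mk.injEq]
        constructor <;> ring
      · simp [lin, mk2]
    have e2 : app (mk2 ((1, 0), (-1, 2 * (W.w2 x).1))) y = (y.1, 2 * (W.w2 x).1 - y.2) ∧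
        lin (mk2 ((1, 0), (-1, 2 * (W.w2 x).1))) η = (η.1, -η.2) := by
      constructor
      · simp only [app, mk2, Prod.mk.injEq]
        constructor <;> ring
      · simp [lin, mk2]
    have e3 : app (mk2 ((-1, 2 * (W.w1 x).1), (-1, 2 * (W.w2 x).1))) y =
        (2 * (W.w1 x).1 - y.1, 2 * (W.w2 x).1 - y.2) ∧
        lin (mk2 ((-1, 2 * (W.w1 x).1), (-1, 2 * (W.w2 x).1))) η = (-η.1, -η.2) := by
      constructor
      · simp only [app, mk2, Prod.mk.injEq]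
        constructor <;> ring
      · simp [lin, mk2]
    simp only [e0.1, e0.2, e1.1, e1.2, e2.1, e2.2, e3.1, e3.2]
    have t0 := C.fov_le (C.hh_pos h0) x ξ y η ht
    have t1 := C25.term h0 (sq_nonneg (W.w1 x).2) x ξ (2 * (W.w1 x).1 - y.1, y.2) (-η.1, η.2) ht
    have t2 := C25.term h0 (sq_nonneg (W.w2 x).2) x ξ (y.1, 2 * (W.w2 x).1 - y.2) (η.1, -η.2) ht
    have t3 := C25.term h0 (mul_nonneg (sq_nonneg (W.w1 x).2) (sq_nonneg (W.w2 x).2)) x ξ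
      (2 * (W.w1 x).1 - y.1, 2 * (W.w2 x).1 - y.2) (-η.1, -η.2) ht
    have hw : ‖C.wsum W δ x ξ y η t‖ ≤ ‖C.fov (hh δ) x ξ y η t‖ +
        ‖(((W.w1 x).2 ^ 2 : ℝ) : ℂ) *
          C.fov (hh δ) x ξ (2 * (W.w1 x).1 - y.1, y.2) (-η.1, η.2) t‖ +
        ‖(((W.w2 x).2 ^ 2 : ℝ) : ℂ) *
          C.fov (hh δ) x ξ (y.1, 2 * (W.w2 x).1 - y.2) (η.1, -η.2) t‖ +
        ‖(((W.w1 x).2 ^ 2 * (W.w2 x).2 ^ 2 : ℝ) : ℂ) *
          C.fov (hh δ) x ξ (2 * (W.w1 x).1 - y.1, 2 * (W.w2 x).1 - y.2) (-η.1, -η.2) t‖ := by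
      unfold C.wsum
      refine (norm_add_le _ _).trans (add_le_add_left ?_ _)
      refine (norm_sub_le _ _).trans (add_le_add_left ?_ _)
      exact norm_sub_le _ _
    have h3 : ‖(inner ℂ (W.v δ (x, ξ) 0) (W.v δ (y, η) t) : ℂ)‖ ≤
        ‖C.wsum W δ x ξ y η t‖ + δ ^ 1990 := by
      have := norm_le_norm_add_norm_sub' (inner ℂ (W.v δ (x, ξ) 0) (W.v δ (y, η) t) : ℂ)
        (C.wsum W δ x ξ y η t)
      linarith
    linarith

/-- The overlap of two packets, one of them away from the walls: `ov_far`, `ov_near`, `wsum_int`,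
`fov_le`. -/
theorem overlap0 (G : Geo D) (T : ℝ) : ∃ c > 0, ∀ᶠ δ in 𝓝[>] (0 : ℝ),
    ∀ W : Walls G (th δ / 4), ∀ x ∈ G.Y δ, W.Int (kap δ) x → ∀ y ∈ G.Y δ, ∀ ξ ∈ Sq2,
    ∀ η ∈ Sq2, ∀ t : ℝ, |t| ≤ T → ‖(inner ℂ (W.v δ (x, ξ) 0) (W.v δ (y, η) t) : ℂ)‖ ≤
      Real.exp (-c * (sq (x - y) + sq (ξ - η)) / hh δ) + δ ^ 1900 := by
  refine ⟨1 / (2 * (4 + T ^ 2)), C25.c_pos T, ?_⟩
  filter_upwards [C.ev_geo G, C.ov_near G T, C.ov_far G, C.wsum_int G T] with δ hδ hn hf hi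
  intro W x hx hxi y hy ξ _ η _ t ht
  obtain ⟨h0, h12, -, -⟩ := hδ
  have hp := C25.pw h0 h12
  have hp0 : 0 < δ ^ 1900 := pow_pos h0 _
  rcases lt_or_ge (th δ / 16) (dist x y) with hd | hd
  · rw [hf W x hx y hy hd ξ η t, norm_zero]
    have := (Real.exp_pos (-(1 / (2 * (4 + T ^ 2))) * (sq (x - y) + sq (ξ - η)) / hh δ)).le
    linarith
  · have h1 := hn W x hx y hy hd ξ η t ht
    have h2 := hi W x hx hxi y hy hd ξ η t ht
    have h3 := C.fov_le (C.hh_pos h0) x ξ y η ht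
    have h4 := norm_le_norm_add_norm_sub' (inner ℂ (W.v δ (x, ξ) 0) (W.v δ (y, η) t) : ℂ)
      (C.wsum W δ x ξ y η t)
    have h5 := norm_le_norm_add_norm_sub' (C.wsum W δ x ξ y η t) (C.fov (hh δ) x ξ y η t)
    linarith

/-- C8: the exact overlap of two packets with the same momentum.

Proof. `y = x + t ξ + c`. Close centres: `ov_near`, `wsum_int`, `fov_Kc` (`phs δ t ξ` is the
exponential there, of modulus one). Distant centres: the inner product is zero (`ov_far`) and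
`Kc_le` with `sq (t ξ + c) ≥ dist x y ^ 2 > (4 rad δ) ^ 2` (`dist_sq_le`), `rad_sq`,
`neg_exp4`. -/
theorem overlap_eq (G : Geo D) (T : ℝ) : ∀ᶠ δ in 𝓝[>] (0 : ℝ),
    ∀ W : Walls G (th δ / 4), ∀ x ∈ G.Y δ, W.Int (kap δ) x → ∀ ξ ∈ Sq2, ∀ t : ℝ, |t| ≤ T →
    ∀ c : P, x + t • ξ + c ∈ G.Y δ →
    ‖phs δ t ξ * inner ℂ (W.v δ (x, ξ) 0) (W.v δ (x + t • ξ + c, ξ) t) -
      Kc (hh δ) t c ξ‖ ≤ δ ^ 1900 := by
  have hc : 0 < 1 / (2 * (4 + T ^ 2)) / 256 := by positivity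
  filter_upwards [C.ev_geo G, C.ov_near G T, C.ov_far G, C.wsum_int G T,
    C.neg_exp4 hc 1 0 1900] with δ hδ hn hf hi he
  intro W x hx hxi ξ _ t ht c hy
  obtain ⟨h0, h12, -, -⟩ := hδ
  have hp := C25.pw h0 h12
  have hh0 := C.hh_pos h0
  rcases lt_or_ge (th δ / 16) (dist x (x + t • ξ + c)) with hd | hd
  · rw [hf W x hx _ hy hd ξ ξ t, mul_zero, zero_sub, norm_neg]
    refine (C.Kc_le hh0 ξ c ht).trans ?_
    rw [one_mul, pow_zero, one_mul] at he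
    refine le_trans (Real.exp_le_exp.2 ?_) he
    have h1 := C.dist_sq_le (x + t • ξ + c) x
    have h2 : x + t • ξ + c - x = t • ξ + c := by abel
    rw [h2, dist_comm] at h1
    have h3 : th δ / 16 = 4 * rad δ := by
      unfold rad
      ring
    rw [h3] at hd
    have hr := C.rad_pos h0
    have h4 : (4 * rad δ) ^ 2 ≤ sq (t • ξ + c) :=
      le_trans (pow_le_pow_left₀ (by positivity) hd.le 2) h1
    have h5 := C.rad_sq h0
    have h6 : 1 / (256 * δ ^ 4) ≤ sq (t • ξ + c) / hh δ := by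
      have h7 := div_le_div_of_nonneg_right h4 hh0.le
      have h8 : (4 * rad δ) ^ 2 / hh δ = 16 * (rad δ ^ 2 / hh δ) := by ring
      rw [h8, h5] at h7
      have h9 : 16 * (1 / (4096 * δ ^ 4)) = 1 / (256 * δ ^ 4) := by
        field_simp
        norm_num
      rw [h9] at h7
      exact h7
    have h10 := mul_le_mul_of_nonneg_left h6 (C25.c_pos T).le
    have h11 : 1 / (2 * (4 + T ^ 2)) * (1 / (256 * δ ^ 4)) =
        1 / (2 * (4 + T ^ 2)) / 256 / δ ^ 4 := by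
      rw [div_div, div_div, div_mul_div_comm, one_mul, mul_assoc]
    rw [h11] at h10
    have h12' : -(1 / (2 * (4 + T ^ 2))) * sq (t • ξ + c) / hh δ =
        -(1 / (2 * (4 + T ^ 2)) * (sq (t • ξ + c) / hh δ)) := by ring
    rw [h12']
    linarith
  · have h1 := hn W x hx _ hy hd ξ ξ t ht
    have h2 := hi W x hx hxi _ hy hd ξ ξ t ht
    have h3 := C.fov_Kc hh0 x ξ c t
    have h4 : ‖phs δ t ξ‖ = 1 := by
      unfold phs
      exact Complex.norm_exp_ofReal_mul_I _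
    have h5 : Kc (hh δ) t c ξ = phs δ t ξ * C.fov (hh δ) x ξ (x + t • ξ + c) ξ t := by
      rw [← h3]
      rfl
    rw [h5, ← mul_sub, norm_mul, h4, one_mul]
    have h6 := norm_sub_le_norm_sub_add_norm_sub
      (inner ℂ (W.v δ (x, ξ) 0) (W.v δ (x + t • ξ + c, ξ) t) : ℂ)
      (C.wsum W δ x ξ (x + t • ξ + c) ξ t) (C.fov (hh δ) x ξ (x + t • ξ + c) ξ t)
    linarith

end

end Pool.Agent.MP4eed4eR
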