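import Pool.Agent.Lib.MP_4eed4e_an_R.C16

/-!
MP_4eed4e_an, project R, block C, module C26: the Hamiltonian on modulated packets.
-/

namespace Pool.Agent.MP4eed4eR

open MeasureTheory Set Filter Topology Metric
open scoped ContDiff

noncomputable section

/-- The one dimensional packet without normalisation. -/
def C.ph (h s ξ x y : ℝ) : ℂ :=
  Complex.exp (-beta s * (((y - x) ^ 2 : ℝ) : ℂ) / ((2 * h : ℝ) : ℂ) +
    ((ξ * (y - x) / h : ℝ) : ℂ) * Complex.I)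

private theorem C26_real {g : ℝ → ℝ} (hg : ContDiff ℝ ∞ g) :
    ContDiff ℝ ∞ fun y : ℝ => ((g y : ℝ) : ℂ) :=
  Complex.ofRealCLM.contDiff.comp hg

private theorem C26_deriv {a : ℝ → ℂ} (ha : ContDiff ℝ ∞ a) : ContDiff ℝ ∞ (deriv a) :=
  (contDiff_infty_iff_deriv.1 ha).2

theorem C.contDiff_ph (h s ξ x : ℝ) : ContDiff ℝ ∞ (C.ph h s ξ x) := by
  have h0 : ContDiff ℝ ∞ fun y : ℝ => y - x := contDiff_id.sub contDiff_const
  have h1 : ContDiff ℝ ∞ fun y : ℝ => (((y - x) ^ 2 : ℝ) : ℂ) := C26_real (h0.pow 2)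
  have h2 : ContDiff ℝ ∞ fun y : ℝ => ((ξ * (y - x) / h : ℝ) : ℂ) :=
    C26_real ((contDiff_const.mul h0).div_const h)
  exact (((contDiff_const.mul h1).div_const _).add (h2.mul contDiff_const)).cexp

/-- The logarithmic derivative of `ph`. -/
private def C26_q (h s ξ x y : ℝ) : ℂ :=
  (-beta s * ((y - x : ℝ) : ℂ) + Complex.I * (ξ : ℂ)) / (h : ℂ)

private theorem C26_lin (x y : ℝ) : HasDerivAt (fun y : ℝ => ((y - x : ℝ) : ℂ)) 1 y := by
  have h1 : HasDerivAt (fun y : ℝ => y - x) 1 y := (hasDerivAt_id y).sub_const x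
  simpa using h1.ofReal_comp

private theorem C26_q_deriv (h s ξ x y : ℝ) :
    HasDerivAt (C26_q h s ξ x) (-beta s / (h : ℂ)) y := by
  have h1 := (((C26_lin x y).const_mul (-beta s)).add_const (Complex.I * (ξ : ℂ))).div_const
    (h : ℂ)
  rw [mul_one] at h1
  exact h1

private theorem C26_ph_deriv {h : ℝ} (hh0 : 0 < h) (s ξ x y : ℝ) :
    HasDerivAt (C.ph h s ξ x) (C26_q h s ξ x y * C.ph h s ξ x y) y := by
  have hne : (h : ℂ) ≠ 0 := by exact_mod_cast hh0.ne'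
  have e : C.ph h s ξ x = fun y : ℝ => Complex.exp (-beta s / ((2 * h : ℝ) : ℂ) *
      (((y - x : ℝ) : ℂ) * ((y - x : ℝ) : ℂ)) +
        Complex.I * (ξ : ℂ) / (h : ℂ) * ((y - x : ℝ) : ℂ)) := by
    funext y
    unfold C.ph
    congr 1
    push_cast
    ring
  have h1 := ((((C26_lin x y).fun_mul (C26_lin x y)).const_mul
    (-beta s / ((2 * h : ℝ) : ℂ))).fun_add
      ((C26_lin x y).const_mul (Complex.I * (ξ : ℂ) / (h : ℂ)))).cexp
  have e2 := congrFun e y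
  rw [e2]
  rw [e]
  refine h1.congr_deriv ?_
  unfold C26_q
  rw [mul_comm]
  congr 1
  push_cast
  field_simp
  ring

/-- The one dimensional operator on the amplitudes. -/
def C.opN (h s ξ x : ℝ) (f : ℝ → ℂ) (y : ℝ) : ℂ :=
  -(h : ℂ) ^ 2 * deriv (deriv f) y
    - 2 * (h : ℂ) * (Complex.I * (ξ : ℂ) - beta s * ((y - x : ℝ) : ℂ)) * deriv f y
    + ((h : ℂ) * beta s + 2 * Complex.I * beta s * (ξ : ℂ) * ((y - x : ℝ) : ℂ)
        - beta s ^ 2 * ((y - x : ℝ) : ℂ) ^ 2) * f y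

theorem C.contDiff_opN (h s ξ x : ℝ) {f : ℝ → ℂ} (hf : ContDiff ℝ ∞ f) :
    ContDiff ℝ ∞ (C.opN h s ξ x f) := by
  have h0 : ContDiff ℝ ∞ fun y : ℝ => ((y - x : ℝ) : ℂ) :=
    C26_real (contDiff_id.sub contDiff_const)
  have h1 := C26_deriv hf
  have h2 := C26_deriv h1
  unfold C.opN
  exact ((contDiff_const.mul h2).sub ((contDiff_const.mul (contDiff_const.sub
    (contDiff_const.mul h0))).mul h1)).add (((contDiff_const.add (contDiff_const.mul h0)).sub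
      (contDiff_const.mul (h0.pow 2))).mul hf)

/-- Proof: `(ph)' = ((-β Y + i ξ) / h) ph`, `Y = y - x`; product rule. -/
theorem C.opN_eq {h : ℝ} (hh0 : 0 < h) (s ξ x : ℝ) {f : ℝ → ℂ} (hf : ContDiff ℝ ∞ f) (y : ℝ) :
    -(h : ℂ) ^ 2 * deriv (deriv (fun y => f y * C.ph h s ξ x y)) y =
      ((ξ : ℂ) ^ 2 * f y + C.opN h s ξ x f y) * C.ph h s ξ x y := by
  have hne : (h : ℂ) ≠ 0 := by exact_mod_cast hh0.ne'
  have hf1 : ∀ y, HasDerivAt f (deriv f y) y := fun y =>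
    ((hf.differentiable (by simp)) y).hasDerivAt
  have hf2 : ∀ y, HasDerivAt (deriv f) (deriv (deriv f) y) y := fun y =>
    (((C26_deriv hf).differentiable (by simp)) y).hasDerivAt
  have d1 : deriv (fun y => f y * C.ph h s ξ x y) = fun y =>
      (deriv f y + C26_q h s ξ x y * f y) * C.ph h s ξ x y := by
    funext y
    rw [((hf1 y).fun_mul (C26_ph_deriv hh0 s ξ x y)).deriv]
    ring
  have d2 := (((hf2 y).fun_add ((C26_q_deriv h s ξ x y).fun_mul (hf1 y))).fun_mul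
    (C26_ph_deriv hh0 s ξ x y)).deriv
  rw [d1, d2]
  unfold C.opN C26_q
  field_simp
  ring_nf
  rw [Complex.I_sq]
  ring

/-- A packet with the amplitude `a y.1 * b y.2`. -/
def C.pr (h s : ℝ) (x ξ : P) (a b : ℝ → ℂ) (y : P) : ℂ := a y.1 * b y.2 * psi h x ξ s y

theorem C.psi_prod (h : ℝ) (x ξ : P) (s : ℝ) (y : P) :
    psi h x ξ s y = (((1 / Real.sqrt (Real.pi * h) : ℝ) : ℂ) * beta s) *
      (C.ph h s ξ.1 x.1 y.1 * C.ph h s ξ.2 x.2 y.2) := by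
  unfold psi C.ph
  rw [← Complex.exp_add]
  congr 2
  unfold sq dot
  simp only [Prod.fst_sub, Prod.snd_sub]
  push_cast
  ring

private theorem C26_pr_eq (h s : ℝ) (x ξ : P) (a b : ℝ → ℂ) : C.pr h s x ξ a b = fun y : P =>
    (((1 / Real.sqrt (Real.pi * h) : ℝ) : ℂ) * beta s) *
      ((fun t => a t * C.ph h s ξ.1 x.1 t) y.1 * (fun t => b t * C.ph h s ξ.2 x.2 t) y.2) := by
  funext y
  unfold C.pr
  rw [C.psi_prod]
  ring

theorem C.contDiff_pr (h s : ℝ) (x ξ : P) {a b : ℝ → ℂ} (ha : ContDiff ℝ ∞ a)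
    (hb : ContDiff ℝ ∞ b) : ContDiff ℝ ∞ (C.pr h s x ξ a b) := by
  rw [C26_pr_eq]
  have h1 : ContDiff ℝ ∞ fun t => a t * C.ph h s ξ.1 x.1 t := ha.mul (C.contDiff_ph _ _ _ _)
  have h2 : ContDiff ℝ ∞ fun t => b t * C.ph h s ξ.2 x.2 t := hb.mul (C.contDiff_ph _ _ _ _)
  exact contDiff_const.mul ((h1.comp contDiff_fst).mul (h2.comp contDiff_snd))

/-- Proof: `psi_prod`, `Lap_smul`, `Lap_prod` and `opN_eq` in each variable;
`sq ξ = ξ.1 ^ 2 + ξ.2 ^ 2`. -/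
theorem C.ham_pr {h : ℝ} (hh0 : 0 < h) (s : ℝ) (x ξ : P) {a b : ℝ → ℂ} (ha : ContDiff ℝ ∞ a)
    (hb : ContDiff ℝ ∞ b) (y : P) :
    -(h : ℂ) ^ 2 * Lap (C.pr h s x ξ a b) y = ((sq ξ : ℝ) : ℂ) * C.pr h s x ξ a b y +
      C.pr h s x ξ (C.opN h s ξ.1 x.1 a) b y + C.pr h s x ξ a (C.opN h s ξ.2 x.2 b) y := by
  have h1 : ContDiff ℝ ∞ fun t => a t * C.ph h s ξ.1 x.1 t := ha.mul (C.contDiff_ph _ _ _ _)
  have h2 : ContDiff ℝ ∞ fun t => b t * C.ph h s ξ.2 x.2 t := hb.mul (C.contDiff_ph _ _ _ _)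
  have h3 : ContDiff ℝ ∞ fun y : P => (fun t => a t * C.ph h s ξ.1 x.1 t) y.1 *
      (fun t => b t * C.ph h s ξ.2 x.2 t) y.2 := (h1.comp contDiff_fst).mul (h2.comp contDiff_snd)
  have k1 := C.opN_eq hh0 s ξ.1 x.1 ha y.1
  have k2 := C.opN_eq hh0 s ξ.2 x.2 hb y.2
  rw [C26_pr_eq h s x ξ a b, C.Lap_smul _ h3, C.Lap_prod h1 h2, C26_pr_eq, C26_pr_eq]
  have e : ((sq ξ : ℝ) : ℂ) = (ξ.1 : ℂ) ^ 2 + (ξ.2 : ℂ) ^ 2 := by
    unfold sq
    push_cast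
    ring
  rw [e]
  linear_combination (((1 / Real.sqrt (Real.pi * h) : ℝ) : ℂ) * beta s) *
    (b y.2 * C.ph h s ξ.2 x.2 y.2) * k1 + (((1 / Real.sqrt (Real.pi * h) : ℝ) : ℂ) * beta s) *
    (a y.1 * C.ph h s ξ.1 x.1 y.1) * k2

end

end Pool.Agent.MP4eed4eR
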