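import Pool.Agent.Lib.MP_4eed4e_an_R.C01
import Pool.Agent.Lib.MP_4eed4e_an_R.C04
import Pool.Agent.Lib.MP_4eed4e_an_R.C26

/-!
MP_4eed4e_an, project R, block C, module C27: the amplitudes of the Hamiltonian and its square.
-/

namespace Pool.Agent.MP4eed4eR

open MeasureTheory Set Filter Topology Metric
open scoped ContDiff

noncomputable section

/-- The cutoff in one variable. -/
def C.f0 (δ x y : ℝ) : ℂ := (chi ((y - x) / rad δ) : ℂ)

def C.f1 (δ s ξ x : ℝ) : ℝ → ℂ := C.opN (hh δ) s ξ x (C.f0 δ x)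

def C.f2 (δ s ξ x : ℝ) : ℝ → ℂ := C.opN (hh δ) s ξ x (C.f1 δ s ξ x)

theorem C.contDiff_f0 (δ x : ℝ) : ContDiff ℝ ∞ (C.f0 δ x) := by
  unfold C.f0
  exact Complex.ofRealCLM.contDiff.comp
    (C.contDiff_chi.comp ((contDiff_id.sub contDiff_const).div_const _))

theorem C.contDiff_f1 (δ s ξ x : ℝ) : ContDiff ℝ ∞ (C.f1 δ s ξ x) := by
  exact C.contDiff_opN _ _ _ _ (C.contDiff_f0 δ x)

theorem C.contDiff_f2 (δ s ξ x : ℝ) : ContDiff ℝ ∞ (C.f2 δ s ξ x) := by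
  exact C.contDiff_opN _ _ _ _ (C.contDiff_f1 δ s ξ x)

theorem C.f0_le (δ x y : ℝ) : ‖C.f0 δ x y‖ ≤ 1 := by
  unfold C.f0
  rw [Complex.norm_real, Real.norm_eq_abs, abs_of_nonneg (C.chi_nonneg _)]
  exact C.chi_le_one _

/-- the operator is local -/
private theorem C27_local (h s ξ x : ℝ) {U : Set ℝ} (hU : IsOpen U) {f : ℝ → ℂ}
    (hf : ∀ y ∈ U, f y = 0) : ∀ y ∈ U, C.opN h s ξ x f y = 0 := by
  have hd : ∀ g : ℝ → ℂ, (∀ y ∈ U, g y = 0) → ∀ y ∈ U, deriv g y = 0 := by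
    intro g hg y hy
    have h1 : g =ᶠ[𝓝 y] fun _ => (0 : ℂ) := by
      filter_upwards [hU.mem_nhds hy] with z hz
      exact hg z hz
    rw [h1.deriv_eq, deriv_const]
  intro y hy
  unfold C.opN
  rw [hf y hy, hd f hf y hy, hd _ (hd f hf) y hy]
  ring

/-- The functions vanish for `2 r < |y - x|` (locally, so the derivatives vanish too). -/
theorem C.f_supp {δ : ℝ} (hδ : 0 < δ) (s ξ x : ℝ) {y : ℝ} (h : 2 * rad δ < |y - x|) :
    C.f0 δ x y = 0 ∧ C.f1 δ s ξ x y = 0 ∧ C.f2 δ s ξ x y = 0 := by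
  have hr := C.rad_pos hδ
  have hU : IsOpen {y : ℝ | 2 * rad δ < |y - x|} :=
    isOpen_lt continuous_const (continuous_id.sub continuous_const).abs
  have h0 : ∀ y ∈ {y : ℝ | 2 * rad δ < |y - x|}, C.f0 δ x y = 0 := by
    intro y hy
    unfold C.f0
    rw [C.chi_eq_zero, Complex.ofReal_zero]
    rw [abs_div, abs_of_pos hr, le_div_iff₀ hr]
    exact le_of_lt hy
  have h1 := C27_local (hh δ) s ξ x hU h0
  have h2 := C27_local (hh δ) s ξ x hU h1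
  exact ⟨h0 y h, h1 y h, h2 y h⟩

private theorem C27_iter (δ x : ℝ) (n : ℕ) : iteratedDeriv n (C.f0 δ x) =
    fun y => ((iteratedDeriv n chi ((y - x) / rad δ) / rad δ ^ n : ℝ) : ℂ) := by
  induction n with
  | zero =>
    funext y
    simp [C.f0]
  | succ n ih =>
    rw [iteratedDeriv_succ, ih]
    funext y
    have h1 : HasDerivAt (iteratedDeriv n chi) (iteratedDeriv (n + 1) chi ((y - x) / rad δ))
        ((y - x) / rad δ) := by
      rw [iteratedDeriv_succ]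
      exact ((C.contDiff_chi.differentiable_iteratedDeriv n
        (by exact_mod_cast WithTop.coe_lt_top _)) _).hasDerivAt
    have h2 : HasDerivAt (fun y : ℝ => (y - x) / rad δ) (1 / rad δ) y :=
      ((hasDerivAt_id y).sub_const x).div_const (rad δ)
    have h3 := ((h1.comp y h2).div_const (rad δ ^ n)).ofReal_comp
    rw [show (fun y : ℝ => ((iteratedDeriv n chi ((y - x) / rad δ) / rad δ ^ n : ℝ) : ℂ)) =
      fun y : ℝ => (((iteratedDeriv n chi ∘ fun y => (y - x) / rad δ) y / rad δ ^ n : ℝ) : ℂ)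
      from rfl, h3.deriv]
    congr 1
    rw [pow_succ, mul_one_div, div_div, mul_comm (rad δ)]

/-- The derivatives of the cutoff: `|f0^(n)| ≤ K / r ^ n`, and for `n > 0` they vanish off
`r ≤ |y - x| ≤ 2 r` (`chi_deriv_bdd`, `chi_deriv_zero`). -/
theorem C.f0_deriv (n : ℕ) : ∃ K : ℝ, 0 ≤ K ∧ ∀ δ : ℝ, 0 < δ → ∀ x y : ℝ,
    ‖iteratedDeriv n (C.f0 δ x) y‖ ≤ K / rad δ ^ n ∧
      (0 < n → 2 * rad δ < |y - x| → iteratedDeriv n (C.f0 δ x) y = 0) := by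
  obtain ⟨K, hK0, hK⟩ := C.chi_deriv_bdd n
  refine ⟨K, hK0, fun δ hδ x y => ?_⟩
  have hr := C.rad_pos hδ
  rw [C27_iter]
  constructor
  · rw [Complex.norm_real, Real.norm_eq_abs, abs_div, abs_of_pos (pow_pos hr n)]
    exact div_le_div_of_nonneg_right (hK _) (pow_pos hr n).le
  · intro hn hy
    have h2 : 2 < |(y - x) / rad δ| := by
      rw [abs_div, abs_of_pos hr, lt_div_iff₀ hr]
      exact hy
    simp only []
    rw [C.chi_deriv_zero hn (Or.inr h2), zero_div, Complex.ofReal_zero]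

private theorem C27_Y (x y : ℝ) : HasDerivAt (fun y : ℝ => ((y - x : ℝ) : ℂ)) 1 y := by
  have h := ((hasDerivAt_id y).sub_const x).ofReal_comp
  simpa using h

private theorem C27_diff {f : ℝ → ℂ} (hf : ContDiff ℝ ∞ f) : ContDiff ℝ ∞ (deriv f) := by
  have h1 : ContDiff ℝ (∞ + 1) f := by simpa using hf
  exact (contDiff_succ_iff_deriv.1 h1).2.2

private theorem C27_has {f : ℝ → ℂ} (hf : ContDiff ℝ ∞ f) (y : ℝ) :
    HasDerivAt f (deriv f y) y :=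
  ((hf.differentiable (by norm_num)) y).hasDerivAt

/-- the derivative of the operator -/
private theorem C27_der (h s ξ x : ℝ) {f : ℝ → ℂ} (hf : ContDiff ℝ ∞ f) (y : ℝ) :
    HasDerivAt (C.opN h s ξ x f) (C.opN h s ξ x (deriv f) y + 2 * (h : ℂ) * beta s * deriv f y
      + (2 * Complex.I * beta s * (ξ : ℂ) - 2 * beta s ^ 2 * ((y - x : ℝ) : ℂ)) * f y) y := by
  have f1 := C27_has hf y
  have f2 := C27_has (C27_diff hf) y
  have f3 := C27_has (C27_diff (C27_diff hf)) y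
  have hY := C27_Y x y
  have t1 := f3.const_mul (-(h : ℂ) ^ 2)
  have t2 := (((hasDerivAt_const y (Complex.I * (ξ : ℂ))).sub
    (hY.const_mul (beta s))).const_mul (2 * (h : ℂ))).mul f2
  have t3 := ((((hasDerivAt_const y ((h : ℂ) * beta s)).add
    (hY.const_mul (2 * Complex.I * beta s * (ξ : ℂ)))).sub
    ((hY.pow 2).const_mul (beta s ^ 2)))).mul f1
  have h := (t1.sub t2).add t3
  refine (h.congr_of_eventuallyEq ?_).congr_deriv ?_
  · refine Eventually.of_forall fun z => ?_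
    simp only [C.opN, Pi.add_apply, Pi.sub_apply, Pi.mul_apply, Pi.pow_apply]
  · simp only [C.opN, Pi.add_apply, Pi.sub_apply, Pi.mul_apply, Pi.pow_apply]
    push_cast
    ring

private theorem C27_deriv_opN (h s ξ x : ℝ) {f : ℝ → ℂ} (hf : ContDiff ℝ ∞ f) :
    deriv (C.opN h s ξ x f) = fun y => C.opN h s ξ x (deriv f) y
      + 2 * (h : ℂ) * beta s * deriv f y
      + (2 * Complex.I * beta s * (ξ : ℂ) - 2 * beta s ^ 2 * ((y - x : ℝ) : ℂ)) * f y :=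
  funext fun y => (C27_der h s ξ x hf y).deriv

private theorem C27_deriv2_opN (h s ξ x : ℝ) {f : ℝ → ℂ} (hf : ContDiff ℝ ∞ f) (y : ℝ) :
    deriv (deriv (C.opN h s ξ x f)) y = C.opN h s ξ x (deriv (deriv f)) y
      + 4 * (h : ℂ) * beta s * deriv (deriv f) y
      + 2 * (2 * Complex.I * beta s * (ξ : ℂ) - 2 * beta s ^ 2 * ((y - x : ℝ) : ℂ)) * deriv f y
      - 2 * beta s ^ 2 * f y := by
  rw [C27_deriv_opN h s ξ x hf]
  have f1 := C27_has hf y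
  have f2 := C27_has (C27_diff hf) y
  have g := C27_der h s ξ x (C27_diff hf) y
  have hY := C27_Y x y
  have t2 := f2.const_mul (2 * (h : ℂ) * beta s)
  have t3 := ((hasDerivAt_const y (2 * Complex.I * beta s * (ξ : ℂ))).sub
    (hY.const_mul (2 * beta s ^ 2))).mul f1
  have hh := (g.add t2).add t3
  refine HasDerivAt.deriv ((hh.congr_of_eventuallyEq ?_).congr_deriv ?_)
  · refine Eventually.of_forall fun z => ?_
    simp only [Pi.add_apply, Pi.sub_apply, Pi.mul_apply]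
  · simp only [Pi.sub_apply]
    ring

private theorem C27_c1 (s : ℝ) {ξ Y : ℝ} (hξ : |ξ| ≤ 2) (hY : |Y| ≤ 1) :
    ‖Complex.I * (ξ : ℂ) - beta s * (Y : ℂ)‖ ≤ 3 := by
  refine (norm_sub_le _ _).trans ?_
  rw [norm_mul, norm_mul, Complex.norm_I, Complex.norm_real, Complex.norm_real,
    Real.norm_eq_abs, Real.norm_eq_abs, one_mul]
  have h1 := mul_le_mul (C.beta_le s) hY (abs_nonneg _) zero_le_one
  linarith

private theorem C27_c0 {h : ℝ} (h0 : 0 ≤ h) (s : ℝ) {ξ Y : ℝ} (hξ : |ξ| ≤ 2) (hY : |Y| ≤ 1) :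
    ‖(h : ℂ) * beta s + 2 * Complex.I * beta s * (ξ : ℂ) * (Y : ℂ) - beta s ^ 2 * (Y : ℂ) ^ 2‖
      ≤ h + 5 * |Y| := by
  have hb := C.beta_le s
  have hb0 := norm_nonneg (beta s)
  have hY0 := abs_nonneg Y
  have e1 : ‖(h : ℂ) * beta s‖ ≤ h := by
    rw [norm_mul, Complex.norm_real, Real.norm_eq_abs, abs_of_nonneg h0]
    exact mul_le_of_le_one_right h0 hb
  have e2 : ‖2 * Complex.I * beta s * (ξ : ℂ) * (Y : ℂ)‖ ≤ 4 * |Y| := by
    rw [norm_mul, norm_mul, norm_mul, norm_mul, Complex.norm_I, Complex.norm_real,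
      Complex.norm_real, Real.norm_eq_abs, Real.norm_eq_abs, Complex.norm_ofNat, mul_one]
    have k1 : ‖beta s‖ * |ξ| ≤ 1 * 2 := mul_le_mul hb hξ (abs_nonneg _) zero_le_one
    have k2 := mul_le_mul_of_nonneg_right k1 hY0
    have : (2 : ℝ) * ‖beta s‖ * |ξ| * |Y| = 2 * (‖beta s‖ * |ξ| * |Y|) := by ring
    rw [this]; linarith
  have e3 : ‖beta s ^ 2 * (Y : ℂ) ^ 2‖ ≤ |Y| := by
    rw [norm_mul, norm_pow, norm_pow, Complex.norm_real, Real.norm_eq_abs]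
    have k1 : ‖beta s‖ ^ 2 ≤ 1 := pow_le_one₀ hb0 hb
    have k2 : |Y| ^ 2 ≤ |Y| := by
      rw [pow_two]; exact mul_le_of_le_one_right hY0 hY
    calc ‖beta s‖ ^ 2 * |Y| ^ 2 ≤ 1 * |Y| :=
          mul_le_mul k1 k2 (sq_nonneg _) zero_le_one
      _ = |Y| := one_mul _
  have t1 := norm_sub_le ((h : ℂ) * beta s + 2 * Complex.I * beta s * (ξ : ℂ) * (Y : ℂ))
    (beta s ^ 2 * (Y : ℂ) ^ 2)
  have t2 := norm_add_le ((h : ℂ) * beta s) (2 * Complex.I * beta s * (ξ : ℂ) * (Y : ℂ))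
  linarith

private theorem C27_cd (s : ℝ) {ξ Y : ℝ} (hξ : |ξ| ≤ 2) (hY : |Y| ≤ 1) :
    ‖2 * Complex.I * beta s * (ξ : ℂ) - 2 * beta s ^ 2 * (Y : ℂ)‖ ≤ 6 := by
  have hb := C.beta_le s
  have hb0 := norm_nonneg (beta s)
  have hY0 := abs_nonneg Y
  refine (norm_sub_le _ _).trans ?_
  rw [norm_mul, norm_mul, norm_mul, norm_mul, norm_mul, norm_pow, Complex.norm_I,
    Complex.norm_real, Complex.norm_real, Real.norm_eq_abs, Real.norm_eq_abs,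
    Complex.norm_ofNat, mul_one]
  have k1 : ‖beta s‖ * |ξ| ≤ 1 * 2 := mul_le_mul hb hξ (abs_nonneg _) zero_le_one
  have k2 : ‖beta s‖ ^ 2 ≤ 1 := pow_le_one₀ hb0 hb
  have k3 : ‖beta s‖ ^ 2 * |Y| ≤ 1 * 1 := mul_le_mul k2 hY hY0 zero_le_one
  have e1 : (2 : ℝ) * ‖beta s‖ * |ξ| = 2 * (‖beta s‖ * |ξ|) := by ring
  have e2 : (2 : ℝ) * ‖beta s‖ ^ 2 * |Y| = 2 * (‖beta s‖ ^ 2 * |Y|) := by ring
  rw [e1, e2]
  linarith

private theorem C27_op_le {h : ℝ} (h0 : 0 ≤ h) (s : ℝ) {ξ x y : ℝ} (hξ : |ξ| ≤ 2)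
    (hY : |y - x| ≤ 1) (f : ℝ → ℂ) : ‖C.opN h s ξ x f y‖ ≤
      h ^ 2 * ‖deriv (deriv f) y‖ + 6 * (h * ‖deriv f y‖) + (h + 5 * |y - x|) * ‖f y‖ := by
  unfold C.opN
  have c1 := C27_c1 s hξ hY
  have c0 := C27_c0 h0 s hξ hY
  have t1 := norm_add_le (-(h : ℂ) ^ 2 * deriv (deriv f) y
    - 2 * (h : ℂ) * (Complex.I * (ξ : ℂ) - beta s * ((y - x : ℝ) : ℂ)) * deriv f y)
    (((h : ℂ) * beta s + 2 * Complex.I * beta s * (ξ : ℂ) * ((y - x : ℝ) : ℂ)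
        - beta s ^ 2 * ((y - x : ℝ) : ℂ) ^ 2) * f y)
  have t2 := norm_sub_le (-(h : ℂ) ^ 2 * deriv (deriv f) y)
    (2 * (h : ℂ) * (Complex.I * (ξ : ℂ) - beta s * ((y - x : ℝ) : ℂ)) * deriv f y)
  have e1 : ‖-(h : ℂ) ^ 2 * deriv (deriv f) y‖ = h ^ 2 * ‖deriv (deriv f) y‖ := by
    rw [norm_mul, norm_neg, norm_pow, Complex.norm_real, Real.norm_eq_abs, abs_of_nonneg h0]
  have e2 : ‖2 * (h : ℂ) * (Complex.I * (ξ : ℂ) - beta s * ((y - x : ℝ) : ℂ)) * deriv f y‖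
      ≤ 6 * (h * ‖deriv f y‖) := by
    rw [norm_mul, norm_mul, norm_mul, Complex.norm_ofNat, Complex.norm_real,
      Real.norm_eq_abs, abs_of_nonneg h0]
    have k1 := mul_le_mul_of_nonneg_right c1 (mul_nonneg h0 (norm_nonneg (deriv f y)))
    have e : (2 : ℝ) * h * ‖Complex.I * (ξ : ℂ) - beta s * ((y - x : ℝ) : ℂ)‖ * ‖deriv f y‖
      = 2 * (‖Complex.I * (ξ : ℂ) - beta s * ((y - x : ℝ) : ℂ)‖ * (h * ‖deriv f y‖)) := by
      ring
    rw [e]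
    linarith
  have e3 : ‖((h : ℂ) * beta s + 2 * Complex.I * beta s * (ξ : ℂ) * ((y - x : ℝ) : ℂ)
        - beta s ^ 2 * ((y - x : ℝ) : ℂ) ^ 2) * f y‖ ≤ (h + 5 * |y - x|) * ‖f y‖ := by
    rw [norm_mul]
    exact mul_le_mul_of_nonneg_right c0 (norm_nonneg _)
  linarith

/-- the constants for the first four derivatives of the cutoff -/
private theorem C27_K : ∃ K : ℝ, 0 ≤ K ∧ ∀ δ : ℝ, 0 < δ → ∀ x y : ℝ,
    ‖deriv (C.f0 δ x) y‖ ≤ K / rad δ ∧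
    ‖deriv (deriv (C.f0 δ x)) y‖ ≤ K / rad δ ^ 2 ∧
    ‖deriv (deriv (deriv (C.f0 δ x))) y‖ ≤ K / rad δ ^ 3 ∧
    ‖deriv (deriv (deriv (deriv (C.f0 δ x)))) y‖ ≤ K / rad δ ^ 4 := by
  obtain ⟨K1, k1, h1⟩ := C.f0_deriv 1
  obtain ⟨K2, k2, h2⟩ := C.f0_deriv 2
  obtain ⟨K3, k3, h3⟩ := C.f0_deriv 3
  obtain ⟨K4, k4, h4⟩ := C.f0_deriv 4
  refine ⟨K1 + K2 + K3 + K4, by positivity, fun δ hδ x y => ?_⟩
  have hr := C.rad_pos hδ
  have g1 := (h1 δ hδ x y).1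
  have g2 := (h2 δ hδ x y).1
  have g3 := (h3 δ hδ x y).1
  have g4 := (h4 δ hδ x y).1
  simp only [iteratedDeriv_succ, iteratedDeriv_zero] at g1 g2 g3 g4
  rw [pow_one] at g1
  refine ⟨g1.trans ?_, g2.trans ?_, g3.trans ?_, g4.trans ?_⟩
  · exact div_le_div_of_nonneg_right (by linarith) hr.le
  · exact div_le_div_of_nonneg_right (by linarith) (pow_pos hr 2).le
  · exact div_le_div_of_nonneg_right (by linarith) (pow_pos hr 3).le
  · exact div_le_div_of_nonneg_right (by linarith) (pow_pos hr 4).le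

/-- the scales -/
private theorem C27_ev : ∀ᶠ δ in 𝓝[>] (0 : ℝ), 0 < δ ∧ 0 < rad δ ∧ rad δ ≤ 1 / 2 ∧
    ∃ v : ℝ, 0 ≤ v ∧ v ≤ 1 ∧ hh δ = v * rad δ ^ 2 := by
  filter_upwards [C.ev_lt (show (0 : ℝ) < 1 / 16 by norm_num)] with δ h
  obtain ⟨hδ, h1⟩ := h
  have hr := C.rad_pos hδ
  refine ⟨hδ, hr, ?_, 4096 * δ ^ 4, by positivity, ?_, ?_⟩
  · unfold rad th
    have : δ ^ 38 ≤ 1 := pow_le_one₀ hδ.le (by linarith)
    linarith
  · have : δ ^ 4 ≤ (1 / 16) ^ 4 := pow_le_pow_left₀ hδ.le h1.le 4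
    calc 4096 * δ ^ 4 ≤ 4096 * (1 / 16) ^ 4 := by linarith
      _ ≤ 1 := by norm_num
  · unfold hh rad th
    ring

private theorem C27_f1 {K r v h Y M1 M2 N : ℝ} (hK : 0 ≤ K) (hr : 0 < r) (hr1 : r ≤ 1 / 2)
    (hv : 0 ≤ v) (hv1 : v ≤ 1) (hh0 : h = v * r ^ 2) (hY0 : 0 ≤ Y)
    (m1 : M1 ≤ K / r) (m2 : M2 ≤ K / r ^ 2) (hN0 : N ≤ 1) :
    h ^ 2 * M2 + 6 * (h * M1) + (h + 5 * Y) * N ≤ (7 * K + 5) * (h / r + Y) := by
  have hpos : 0 ≤ h := by rw [hh0]; positivity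
  have hu : h / r = v * r := by
    rw [hh0]; field_simp
  have hvr : v * r ≤ 1 := by nlinarith
  have hvr0 : 0 ≤ v * r := by positivity
  have a1 : h * M1 ≤ K * (v * r) := by
    calc h * M1 ≤ h * (K / r) := mul_le_mul_of_nonneg_left m1 hpos
      _ = K * (v * r) := by rw [hh0]; field_simp
  have a2 : h ^ 2 * M2 ≤ K * (v * r) := by
    calc h ^ 2 * M2 ≤ h ^ 2 * (K / r ^ 2) := mul_le_mul_of_nonneg_left m2 (by positivity)
      _ = K * (v * r) * (v * r) := by rw [hh0]; field_simp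
      _ ≤ K * (v * r) * 1 := mul_le_mul_of_nonneg_left hvr (by positivity)
      _ = K * (v * r) := mul_one _
  have a3 : (h + 5 * Y) * N ≤ h + 5 * Y := by
    calc (h + 5 * Y) * N ≤ (h + 5 * Y) * 1 := mul_le_mul_of_nonneg_left hN0 (by positivity)
      _ = h + 5 * Y := mul_one _
  have a4 : h ≤ v * r := by
    rw [hh0]
    have : v * r ^ 2 = (v * r) * r := by ring
    rw [this]
    exact mul_le_of_le_one_right hvr0 (by linarith)
  rw [hu]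
  have a5 : 0 ≤ K * Y := by positivity
  have e : (7 * K + 5) * (v * r + Y) = 7 * (K * (v * r)) + 7 * (K * Y) + 5 * (v * r) + 5 * Y := by
    ring
  rw [e]
  linarith

private theorem C27_f2 {K r v h Y M1 M2 M3 M4 N A B F : ℝ} (hK : 0 ≤ K) (hr : 0 < r)
    (hr1 : r ≤ 1 / 2) (hv : 0 ≤ v) (hv1 : v ≤ 1) (hh0 : h = v * r ^ 2) (hY0 : 0 ≤ Y)
    (hY : Y ≤ 2 * r) (m1 : M1 ≤ K / r) (m2 : M2 ≤ K / r ^ 2)
    (m3 : M3 ≤ K / r ^ 3) (m4 : M4 ≤ K / r ^ 4) (hN0 : N ≤ 1)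
    (hA : A ≤ h ^ 2 * M4 + 6 * (h * M3) + (h + 5 * Y) * M2 + 4 * h * M2 + 12 * M1 + 2 * N)
    (hB : B ≤ h ^ 2 * M3 + 6 * (h * M2) + (h + 5 * Y) * M1 + 2 * h * M1 + 6 * N)
    (hF : F ≤ (7 * K + 5) * (h / r + Y)) :
    h ^ 2 * A + 6 * (h * B) + (h + 5 * Y) * F ≤ (210 * K + 78) * (h + Y ^ 2) := by
  have hpos : 0 ≤ h := by rw [hh0]; positivity
  have hu : h / r = v * r := by
    rw [hh0]; field_simp
  have hvr0 : 0 ≤ v * r := by positivity
  have hvr : v * r ≤ 1 := by nlinarith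
  have hv2 : v * v ≤ 1 := by nlinarith
  have hh1 : h ≤ 1 := by
    rw [hh0]
    nlinarith [mul_nonneg hvr0 hr.le]
  have b1 : h * M1 ≤ K := by
    calc h * M1 ≤ h * (K / r) := mul_le_mul_of_nonneg_left m1 hpos
      _ = K * (v * r) := by rw [hh0]; field_simp
      _ ≤ K * 1 := mul_le_mul_of_nonneg_left hvr hK
      _ = K := mul_one _
  have b2 : h * M2 ≤ K := by
    calc h * M2 ≤ h * (K / r ^ 2) := mul_le_mul_of_nonneg_left m2 hpos
      _ = K * v := by rw [hh0]; field_simp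
      _ ≤ K * 1 := mul_le_mul_of_nonneg_left hv1 hK
      _ = K := mul_one _
  have b3 : h ^ 2 * M3 ≤ K := by
    calc h ^ 2 * M3 ≤ h ^ 2 * (K / r ^ 3) := mul_le_mul_of_nonneg_left m3 (by positivity)
      _ = K * (v * (v * r)) := by rw [hh0]; field_simp
      _ ≤ K * 1 := mul_le_mul_of_nonneg_left (by nlinarith) hK
      _ = K := mul_one _
  have b4 : h ^ 2 * M4 ≤ K := by
    calc h ^ 2 * M4 ≤ h ^ 2 * (K / r ^ 4) := mul_le_mul_of_nonneg_left m4 (by positivity)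
      _ = K * (v * v) := by rw [hh0]; field_simp
      _ ≤ K * 1 := mul_le_mul_of_nonneg_left hv2 hK
      _ = K := mul_one _
  have b5 : (h + 5 * Y) * M1 ≤ 11 * K := by
    have k0 : 0 ≤ h + 5 * Y := by positivity
    have k1 : h + 5 * Y ≤ 11 * r := by
      rw [hh0]
      nlinarith [mul_nonneg hvr0 hr.le]
    calc (h + 5 * Y) * M1 ≤ (h + 5 * Y) * (K / r) := mul_le_mul_of_nonneg_left m1 k0
      _ ≤ (11 * r) * (K / r) := mul_le_mul_of_nonneg_right k1 (by positivity)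
      _ = 11 * K := by field_simp
  have b6 : h * ((h + 5 * Y) * M2) ≤ 11 * K := by
    have k0 : 0 ≤ h * (h + 5 * Y) := by positivity
    have k1 : h + 5 * Y ≤ 11 * r := by
      rw [hh0]
      nlinarith [mul_nonneg hvr0 hr.le]
    calc h * ((h + 5 * Y) * M2) = (h * (h + 5 * Y)) * M2 := by ring
      _ ≤ (h * (h + 5 * Y)) * (K / r ^ 2) := mul_le_mul_of_nonneg_left m2 k0
      _ ≤ (h * (11 * r)) * (K / r ^ 2) :=
          mul_le_mul_of_nonneg_right (mul_le_mul_of_nonneg_left k1 hpos) (by positivity)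
      _ = 11 * (K * (v * r)) := by rw [hh0]; field_simp
      _ ≤ 11 * (K * 1) := by
          have := mul_le_mul_of_nonneg_left hvr hK
          linarith
      _ = 11 * K := by ring
  have hBb : B ≤ 20 * K + 6 := by
    have e : 2 * h * M1 = 2 * (h * M1) := by ring
    rw [e] at hB
    linarith
  have hAb : h * A ≤ 34 * K + 2 := by
    have k1 := mul_le_mul_of_nonneg_left hA hpos
    have e : h * (h ^ 2 * M4 + 6 * (h * M3) + (h + 5 * Y) * M2 + 4 * h * M2 + 12 * M1 + 2 * N)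
        = h * (h ^ 2 * M4) + 6 * (h ^ 2 * M3) + h * ((h + 5 * Y) * M2) + 4 * (h * (h * M2))
          + 12 * (h * M1) + 2 * (h * N) := by ring
    rw [e] at k1
    have k2 : h * (h ^ 2 * M4) ≤ K := by
      calc h * (h ^ 2 * M4) ≤ h * K := mul_le_mul_of_nonneg_left b4 hpos
        _ ≤ 1 * K := mul_le_mul_of_nonneg_right hh1 hK
        _ = K := one_mul _
    have k3 : h * (h * M2) ≤ K := by
      calc h * (h * M2) ≤ h * K := mul_le_mul_of_nonneg_left b2 hpos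
        _ ≤ 1 * K := mul_le_mul_of_nonneg_right hh1 hK
        _ = K := one_mul _
    have k4 : h * N ≤ 1 := by
      calc h * N ≤ h * 1 := mul_le_mul_of_nonneg_left hN0 hpos
        _ ≤ 1 := by linarith
    linarith
  have c1 : h ^ 2 * A ≤ (34 * K + 2) * h := by
    have := mul_le_mul_of_nonneg_left hAb hpos
    have e : h ^ 2 * A = h * (h * A) := by ring
    rw [e]; linarith
  have c2 : h * B ≤ (20 * K + 6) * h := by
    have := mul_le_mul_of_nonneg_left hBb hpos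
    linarith
  have c3 : (h + 5 * Y) * (h / r + Y) ≤ 8 * (h + Y ^ 2) := by
    rw [hu]
    have d1 : (v * r) * (v * r) ≤ h := by
      rw [hh0]
      have : (v * r) * (v * r) = v * (v * r ^ 2) := by ring
      rw [this]
      exact mul_le_of_le_one_left (by positivity) hv1
    have d2 : h * (v * r) ≤ h := mul_le_of_le_one_right hpos hvr
    have d3 : h * Y ≤ h := mul_le_of_le_one_right hpos (by linarith)
    nlinarith [sq_nonneg (v * r - Y)]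
  have c4 : (h + 5 * Y) * F ≤ (7 * K + 5) * (8 * (h + Y ^ 2)) := by
    calc (h + 5 * Y) * F ≤ (h + 5 * Y) * ((7 * K + 5) * (h / r + Y)) :=
          mul_le_mul_of_nonneg_left hF (by positivity)
      _ = (7 * K + 5) * ((h + 5 * Y) * (h / r + Y)) := by ring
      _ ≤ (7 * K + 5) * (8 * (h + Y ^ 2)) := mul_le_mul_of_nonneg_left c3 (by positivity)
  have c5 : 0 ≤ K * Y ^ 2 := by positivity
  have c6 : 0 ≤ Y ^ 2 := by positivity
  nlinarith

/-- Proof: `f1 = -h² f0'' - 2 h (i ξ - β Y) f0' + (h β + 2 i β ξ Y - β² Y²) f0` with `Y = y - x`,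
`|β| ≤ 1`, `|Y| ≤ 2 r ≤ 1` on the supports, and `h / r ≤ 1`, `h ≤ h / r`. -/
theorem C.f1_le : ∃ K : ℝ, 0 ≤ K ∧ ∀ᶠ δ in 𝓝[>] (0 : ℝ), ∀ s ξ x y : ℝ, |ξ| ≤ 2 →
    ‖C.f1 δ s ξ x y‖ ≤ K * (hh δ / rad δ + |y - x|) := by
  obtain ⟨K, hK, hKb⟩ := C27_K
  refine ⟨7 * K + 5, by positivity, ?_⟩
  filter_upwards [C27_ev] with δ hδ s ξ x y hξ
  obtain ⟨hδ0, hr, hr1, v, hv, hv1, hhv⟩ := hδ
  obtain ⟨m1, m2, -, -⟩ := hKb δ hδ0 x y
  by_cases hy : 2 * rad δ < |y - x|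
  · rw [(C.f_supp hδ0 s ξ x hy).2.1, norm_zero]
    have := C.hh_pos hδ0
    positivity
  · rw [not_lt] at hy
    refine (C27_op_le (C.hh_pos hδ0).le s hξ (by linarith) (C.f0 δ x)).trans ?_
    exact C27_f1 hK hr hr1 hv hv1 hhv (abs_nonneg _) m1 m2 (C.f0_le δ x y)

/-- Proof: differentiate the formula for `f1`: `|f1'| ≤ K`, `|f1''| ≤ K / r`. Here
`|f0^(n)| ≤ K / r ^ n` (`n ≤ 4`, `f0_deriv`), `|Y| ≤ 2 r` on the supports of these derivatives,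
and `h / r ^ 2 ≤ 1` (`rad_sq`: `r ^ 2 / h = 1 / (4096 δ ^ 4)`). Then
`|f2| ≤ h² |f1''| + 2 h (2 + |Y|) |f1'| + (h + 4 |Y| + Y²) |f1|`, with `f1_le`, `|Y| ≤ 2 r` on
the support and `(h / r) ^ 2 ≤ h`. -/
theorem C.f2_le : ∃ K : ℝ, 0 ≤ K ∧ ∀ᶠ δ in 𝓝[>] (0 : ℝ), ∀ s ξ x y : ℝ, |ξ| ≤ 2 →
    ‖C.f2 δ s ξ x y‖ ≤ K * (hh δ + (y - x) ^ 2) := by
  obtain ⟨K, hK, hKb⟩ := C27_K
  refine ⟨210 * K + 78, by positivity, ?_⟩
  filter_upwards [C27_ev] with δ hδ s ξ x y hξ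
  obtain ⟨hδ0, hr, hr1, v, hv, hv1, hhv⟩ := hδ
  obtain ⟨m1, m2, m3, m4⟩ := hKb δ hδ0 x y
  have hh0 := (C.hh_pos hδ0).le
  by_cases hy : 2 * rad δ < |y - x|
  · rw [(C.f_supp hδ0 s ξ x hy).2.2, norm_zero]
    positivity
  rw [not_lt] at hy
  have hY1 : |y - x| ≤ 1 := by linarith
  have hf := C.contDiff_f0 δ x
  have hb := C.beta_le s
  have hb0 := norm_nonneg (beta s)
  have hcd := C27_cd s hξ hY1
  have eF := (C27_op_le hh0 s hξ hY1 (C.f0 δ x)).trans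
    (C27_f1 hK hr hr1 hv hv1 hhv (abs_nonneg _) m1 m2 (C.f0_le δ x y))
  have eB : ‖deriv (C.f1 δ s ξ x) y‖ ≤
      hh δ ^ 2 * ‖deriv (deriv (deriv (C.f0 δ x))) y‖
        + 6 * (hh δ * ‖deriv (deriv (C.f0 δ x)) y‖)
        + (hh δ + 5 * |y - x|) * ‖deriv (C.f0 δ x) y‖ + 2 * hh δ * ‖deriv (C.f0 δ x) y‖
        + 6 * ‖C.f0 δ x y‖ := by
    unfold C.f1
    rw [C27_deriv_opN _ _ _ _ hf]
    have t1 := norm_add_le (C.opN (hh δ) s ξ x (deriv (C.f0 δ x)) y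
      + 2 * ((hh δ : ℝ) : ℂ) * beta s * deriv (C.f0 δ x) y)
      ((2 * Complex.I * beta s * (ξ : ℂ) - 2 * beta s ^ 2 * ((y - x : ℝ) : ℂ)) * C.f0 δ x y)
    have t2 := norm_add_le (C.opN (hh δ) s ξ x (deriv (C.f0 δ x)) y)
      (2 * ((hh δ : ℝ) : ℂ) * beta s * deriv (C.f0 δ x) y)
    have t3 := C27_op_le hh0 s hξ hY1 (deriv (C.f0 δ x))
    have t4 : ‖2 * ((hh δ : ℝ) : ℂ) * beta s * deriv (C.f0 δ x) y‖ ≤
        2 * hh δ * ‖deriv (C.f0 δ x) y‖ := by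
      rw [norm_mul, norm_mul, norm_mul, Complex.norm_ofNat, Complex.norm_real,
        Real.norm_eq_abs, abs_of_nonneg hh0]
      refine mul_le_mul_of_nonneg_right ?_ (norm_nonneg _)
      exact mul_le_of_le_one_right (by positivity) hb
    have t5 : ‖(2 * Complex.I * beta s * (ξ : ℂ) - 2 * beta s ^ 2 * ((y - x : ℝ) : ℂ))
        * C.f0 δ x y‖ ≤ 6 * ‖C.f0 δ x y‖ := by
      rw [norm_mul]
      exact mul_le_mul_of_nonneg_right hcd (norm_nonneg _)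
    linarith
  have eA : ‖deriv (deriv (C.f1 δ s ξ x)) y‖ ≤
      hh δ ^ 2 * ‖deriv (deriv (deriv (deriv (C.f0 δ x)))) y‖
        + 6 * (hh δ * ‖deriv (deriv (deriv (C.f0 δ x))) y‖)
        + (hh δ + 5 * |y - x|) * ‖deriv (deriv (C.f0 δ x)) y‖
        + 4 * hh δ * ‖deriv (deriv (C.f0 δ x)) y‖
        + 12 * ‖deriv (C.f0 δ x) y‖ + 2 * ‖C.f0 δ x y‖ := by
    unfold C.f1
    rw [C27_deriv2_opN _ _ _ _ hf]
    have t0 := norm_sub_le (C.opN (hh δ) s ξ x (deriv (deriv (C.f0 δ x))) y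
      + 4 * ((hh δ : ℝ) : ℂ) * beta s * deriv (deriv (C.f0 δ x)) y
      + 2 * (2 * Complex.I * beta s * (ξ : ℂ) - 2 * beta s ^ 2 * ((y - x : ℝ) : ℂ))
        * deriv (C.f0 δ x) y) (2 * beta s ^ 2 * C.f0 δ x y)
    have t1 := norm_add_le (C.opN (hh δ) s ξ x (deriv (deriv (C.f0 δ x))) y
      + 4 * ((hh δ : ℝ) : ℂ) * beta s * deriv (deriv (C.f0 δ x)) y)
      (2 * (2 * Complex.I * beta s * (ξ : ℂ) - 2 * beta s ^ 2 * ((y - x : ℝ) : ℂ))
        * deriv (C.f0 δ x) y)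
    have t2 := norm_add_le (C.opN (hh δ) s ξ x (deriv (deriv (C.f0 δ x))) y)
      (4 * ((hh δ : ℝ) : ℂ) * beta s * deriv (deriv (C.f0 δ x)) y)
    have t3 := C27_op_le hh0 s hξ hY1 (deriv (deriv (C.f0 δ x)))
    have t4 : ‖4 * ((hh δ : ℝ) : ℂ) * beta s * deriv (deriv (C.f0 δ x)) y‖ ≤
        4 * hh δ * ‖deriv (deriv (C.f0 δ x)) y‖ := by
      rw [norm_mul, norm_mul, norm_mul, Complex.norm_ofNat, Complex.norm_real,
        Real.norm_eq_abs, abs_of_nonneg hh0]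
      refine mul_le_mul_of_nonneg_right ?_ (norm_nonneg _)
      exact mul_le_of_le_one_right (by positivity) hb
    have t5 : ‖2 * (2 * Complex.I * beta s * (ξ : ℂ) - 2 * beta s ^ 2 * ((y - x : ℝ) : ℂ))
        * deriv (C.f0 δ x) y‖ ≤ 12 * ‖deriv (C.f0 δ x) y‖ := by
      rw [norm_mul, norm_mul, Complex.norm_ofNat]
      exact mul_le_mul_of_nonneg_right (by linarith) (norm_nonneg _)
    have t6 : ‖2 * beta s ^ 2 * C.f0 δ x y‖ ≤ 2 * ‖C.f0 δ x y‖ := by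
      rw [norm_mul, norm_mul, norm_pow, Complex.norm_ofNat]
      refine mul_le_mul_of_nonneg_right ?_ (norm_nonneg _)
      have : ‖beta s‖ ^ 2 ≤ 1 := pow_le_one₀ hb0 hb
      linarith
    linarith
  refine (C27_op_le hh0 s hξ hY1 (C.f1 δ s ξ x)).trans ?_
  have := C27_f2 hK hr hr1 hv hv1 hhv (abs_nonneg _) hy m1 m2 m3 m4 (C.f0_le δ x y) eA eB
    eF
  rw [sq_abs] at this
  exact this

end

end Pool.Agent.MP4eed4eR
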