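import Pool.Agent.Lib.MP_4eed4e_an_R.C05
import Pool.Agent.Lib.MP_4eed4e_an_R.C27

/-!
MP_4eed4e_an, project R, block C, module C28: the Hamiltonian and its square on the packets.
-/

namespace Pool.Agent.MP4eed4eR

open MeasureTheory Set Filter Topology Metric
open scoped ContDiff

noncomputable section

theorem C.psic_pr (δ : ℝ) (x ξ : P) (s : ℝ) (y : P) :
    psic δ x ξ s y = C.pr (hh δ) s x ξ (C.f0 δ x.1) (C.f0 δ x.2) y := by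
  unfold psic C.pr C.f0 chir
  rw [Prod.fst_sub, Prod.snd_sub]
  push_cast
  ring

/-- `(-h² Δ - 1)` of the truncated packet. -/
def C.F1 (δ : ℝ) (x ξ : P) (s : ℝ) (y : P) : ℂ :=
  ((sq ξ - 1 : ℝ) : ℂ) * psic δ x ξ s y +
    C.pr (hh δ) s x ξ (C.f1 δ s ξ.1 x.1) (C.f0 δ x.2) y +
    C.pr (hh δ) s x ξ (C.f0 δ x.1) (C.f1 δ s ξ.2 x.2) y

/-- `(-h² Δ - 1)²` of the truncated packet. -/
def C.F2 (δ : ℝ) (x ξ : P) (s : ℝ) (y : P) : ℂ :=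
  ((sq ξ - 1 : ℝ) : ℂ) ^ 2 * psic δ x ξ s y +
    2 * ((sq ξ - 1 : ℝ) : ℂ) * (C.pr (hh δ) s x ξ (C.f1 δ s ξ.1 x.1) (C.f0 δ x.2) y +
      C.pr (hh δ) s x ξ (C.f0 δ x.1) (C.f1 δ s ξ.2 x.2) y) +
    (C.pr (hh δ) s x ξ (C.f2 δ s ξ.1 x.1) (C.f0 δ x.2) y +
      2 * C.pr (hh δ) s x ξ (C.f1 δ s ξ.1 x.1) (C.f1 δ s ξ.2 x.2) y +
      C.pr (hh δ) s x ξ (C.f0 δ x.1) (C.f2 δ s ξ.2 x.2) y)

theorem C.contDiff_psic (δ : ℝ) (x ξ : P) (s : ℝ) : ContDiff ℝ ∞ (psic δ x ξ s) := by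
  have e : psic δ x ξ s = C.pr (hh δ) s x ξ (C.f0 δ x.1) (C.f0 δ x.2) :=
    funext fun y => C.psic_pr δ x ξ s y
  rw [e]
  exact C.contDiff_pr _ _ _ _ (C.contDiff_f0 _ _) (C.contDiff_f0 _ _)

theorem C.contDiff_F1 (δ : ℝ) (x ξ : P) (s : ℝ) : ContDiff ℝ ∞ (C.F1 δ x ξ s) := by
  unfold C.F1
  exact ((contDiff_const.mul (C.contDiff_psic δ x ξ s)).add
    (C.contDiff_pr _ _ _ _ (C.contDiff_f1 _ _ _ _) (C.contDiff_f0 _ _))).add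
      (C.contDiff_pr _ _ _ _ (C.contDiff_f0 _ _) (C.contDiff_f1 _ _ _ _))

theorem C.contDiff_F2 (δ : ℝ) (x ξ : P) (s : ℝ) : ContDiff ℝ ∞ (C.F2 δ x ξ s) := by
  unfold C.F2
  have h00 := C.contDiff_psic δ x ξ s
  have h10 := C.contDiff_pr (hh δ) s x ξ (C.contDiff_f1 δ s ξ.1 x.1) (C.contDiff_f0 δ x.2)
  have h01 := C.contDiff_pr (hh δ) s x ξ (C.contDiff_f0 δ x.1) (C.contDiff_f1 δ s ξ.2 x.2)
  have h20 := C.contDiff_pr (hh δ) s x ξ (C.contDiff_f2 δ s ξ.1 x.1) (C.contDiff_f0 δ x.2)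
  have h11 := C.contDiff_pr (hh δ) s x ξ (C.contDiff_f1 δ s ξ.1 x.1) (C.contDiff_f1 δ s ξ.2 x.2)
  have h02 := C.contDiff_pr (hh δ) s x ξ (C.contDiff_f0 δ x.1) (C.contDiff_f2 δ s ξ.2 x.2)
  exact ((contDiff_const.mul h00).add (contDiff_const.mul (h10.add h01))).add
    ((h20.add (contDiff_const.mul h11)).add h02)

/-- `psic_pr`, `ham_pr`. -/
theorem C.F1_eq {δ : ℝ} (hδ : 0 < δ) (x ξ : P) (s : ℝ) (y : P) :
    C.F1 δ x ξ s y = -(hh δ : ℂ) ^ 2 * Lap (psic δ x ξ s) y - psic δ x ξ s y := by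
  have e : psic δ x ξ s = C.pr (hh δ) s x ξ (C.f0 δ x.1) (C.f0 δ x.2) :=
    funext fun y => C.psic_pr δ x ξ s y
  have h1 := C.ham_pr (C.hh_pos hδ) s x ξ (C.contDiff_f0 δ x.1) (C.contDiff_f0 δ x.2) y
  rw [← e] at h1
  unfold C.F1
  rw [h1]
  have e1 : C.opN (hh δ) s ξ.1 x.1 (C.f0 δ x.1) = C.f1 δ s ξ.1 x.1 := rfl
  have e2 : C.opN (hh δ) s ξ.2 x.2 (C.f0 δ x.2) = C.f1 δ s ξ.2 x.2 := rfl
  rw [e1, e2]
  push_cast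
  ring

/-- `Lap_add`, `Lap_smul`, `ham_pr` for each term. -/
theorem C.F2_eq {δ : ℝ} (hδ : 0 < δ) (x ξ : P) (s : ℝ) (y : P) :
    C.F2 δ x ξ s y = -(hh δ : ℂ) ^ 2 * Lap (C.F1 δ x ξ s) y - C.F1 δ x ξ s y := by
  have h10 := C.contDiff_pr (hh δ) s x ξ (C.contDiff_f1 δ s ξ.1 x.1) (C.contDiff_f0 δ x.2)
  have h01 := C.contDiff_pr (hh δ) s x ξ (C.contDiff_f0 δ x.1) (C.contDiff_f1 δ s ξ.2 x.2)
  have h00 := C.contDiff_psic δ x ξ s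
  have hc : ContDiff ℝ ∞ fun y => ((sq ξ - 1 : ℝ) : ℂ) * psic δ x ξ s y := contDiff_const.mul h00
  have eL : Lap (C.F1 δ x ξ s) y = ((sq ξ - 1 : ℝ) : ℂ) * Lap (psic δ x ξ s) y +
      Lap (C.pr (hh δ) s x ξ (C.f1 δ s ξ.1 x.1) (C.f0 δ x.2)) y +
      Lap (C.pr (hh δ) s x ξ (C.f0 δ x.1) (C.f1 δ s ξ.2 x.2)) y := by
    have e1 := C.Lap_add (hc.add h10) h01 y
    have e2 := C.Lap_add hc h10 y
    have e3 := C.Lap_smul ((sq ξ - 1 : ℝ) : ℂ) h00 y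
    rw [← e3, ← e2, ← e1]
    rfl
  have k1 := C.F1_eq hδ x ξ s y
  have k2 := C.ham_pr (C.hh_pos hδ) s x ξ (C.contDiff_f1 δ s ξ.1 x.1) (C.contDiff_f0 δ x.2) y
  have k3 := C.ham_pr (C.hh_pos hδ) s x ξ (C.contDiff_f0 δ x.1) (C.contDiff_f1 δ s ξ.2 x.2) y
  have e1 : C.opN (hh δ) s ξ.1 x.1 (C.f0 δ x.1) = C.f1 δ s ξ.1 x.1 := rfl
  have e2 : C.opN (hh δ) s ξ.2 x.2 (C.f0 δ x.2) = C.f1 δ s ξ.2 x.2 := rfl
  have e3 : C.opN (hh δ) s ξ.1 x.1 (C.f1 δ s ξ.1 x.1) = C.f2 δ s ξ.1 x.1 := rfl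
  have e4 : C.opN (hh δ) s ξ.2 x.2 (C.f1 δ s ξ.2 x.2) = C.f2 δ s ξ.2 x.2 := rfl
  rw [e2, e3] at k2
  rw [e1, e4] at k3
  rw [eL]
  have k4 : -(hh δ : ℂ) ^ 2 * Lap (psic δ x ξ s) y = C.F1 δ x ξ s y + psic δ x ξ s y := by
    rw [k1]
    ring
  have k5 : -(hh δ : ℂ) ^ 2 * (((sq ξ - 1 : ℝ) : ℂ) * Lap (psic δ x ξ s) y +
      Lap (C.pr (hh δ) s x ξ (C.f1 δ s ξ.1 x.1) (C.f0 δ x.2)) y +
      Lap (C.pr (hh δ) s x ξ (C.f0 δ x.1) (C.f1 δ s ξ.2 x.2)) y) =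
      ((sq ξ - 1 : ℝ) : ℂ) * (-(hh δ : ℂ) ^ 2 * Lap (psic δ x ξ s) y) +
      (-(hh δ : ℂ) ^ 2 * Lap (C.pr (hh δ) s x ξ (C.f1 δ s ξ.1 x.1) (C.f0 δ x.2)) y) +
      (-(hh δ : ℂ) ^ 2 * Lap (C.pr (hh δ) s x ξ (C.f0 δ x.1) (C.f1 δ s ξ.2 x.2)) y) := by
    ring
  rw [k5, k4, k2, k3]
  unfold C.F1 C.F2
  push_cast
  ring

theorem C.F_supp {δ : ℝ} (hδ : 0 < δ) (x ξ : P) (s : ℝ) {y : P} (hy : 2 * rad δ < dist y x) :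
    C.F1 δ x ξ s y = 0 ∧ C.F2 δ x ξ s y = 0 := by
  rw [dist_eq_norm, Prod.norm_def, lt_max_iff] at hy
  unfold C.F1 C.F2
  rw [C.psic_pr]
  unfold C.pr
  rcases hy with h | h
  · have h' : 2 * rad δ < |y.1 - x.1| := h
    obtain ⟨h0, h1, h2⟩ := C.f_supp hδ s ξ.1 x.1 h'
    rw [h0, h1, h2]
    constructor <;> ring
  · have h' : 2 * rad δ < |y.2 - x.2| := h
    obtain ⟨h0, h1, h2⟩ := C.f_supp hδ s ξ.2 x.2 h'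
    rw [h0, h1, h2]
    constructor <;> ring

/-- Pointwise bounds: `f0_le`, `f1_le`, `f2_le`, `|y.i - x.i| ≤ dist y x`, and `(h / r) ^ 2 ≤ h`
(`rad_sq`). -/
theorem C.F_le : ∃ K : ℝ, 0 ≤ K ∧ ∀ᶠ δ in 𝓝[>] (0 : ℝ), ∀ x ξ : P, |ξ.1| ≤ 2 → |ξ.2| ≤ 2 →
    ∀ s : ℝ, ∀ y : P,
    ‖C.F1 δ x ξ s y‖ ≤ (|sq ξ - 1| + K * (hh δ / rad δ + dist y x)) *
      ‖psi (hh δ) x ξ s y‖ ∧
    ‖C.F2 δ x ξ s y‖ ≤ ((sq ξ - 1) ^ 2 + K * |sq ξ - 1| * (hh δ / rad δ + dist y x) +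
      K * (hh δ + dist y x ^ 2)) * ‖psi (hh δ) x ξ s y‖ := by
  obtain ⟨K1, hK1, f1⟩ := C.f1_le
  obtain ⟨K2, hK2, f2⟩ := C.f2_le
  refine ⟨4 * K1 + 2 * K2 + 4 * K1 ^ 2, by positivity, ?_⟩
  filter_upwards [f1, f2, C.ev_lt (show (0 : ℝ) < 1 / 8 by norm_num)] with δ g1 g2 hδ
  intro x ξ hξ1 hξ2 s y
  obtain ⟨hδ0, hδ1⟩ := hδ
  have hr := C.rad_pos hδ0
  have hp := C.hh_pos hδ0
  set d := dist y x with hd
  set q := hh δ / rad δ with hq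
  have hq0 : 0 ≤ q := by positivity
  have hd0 : 0 ≤ d := dist_nonneg
  have hd1 : |y.1 - x.1| ≤ d := by
    rw [hd, dist_eq_norm]
    exact norm_fst_le (y - x)
  have hd2 : |y.2 - x.2| ≤ d := by
    rw [hd, dist_eq_norm]
    exact norm_snd_le (y - x)
  have hq2 : q ^ 2 ≤ hh δ := by
    have h1 := C.rad_sq hδ0
    have h2 : δ ^ 4 ≤ (1 / 8) ^ 4 := pow_le_pow_left₀ hδ0.le hδ1.le 4
    have h3 : 1 ≤ 1 / (4096 * δ ^ 4) := by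
      rw [le_div_iff₀ (by positivity)]
      norm_num at h2
      linarith
    rw [← h1, le_div_iff₀ hp, one_mul] at h3
    rw [hq, div_pow, div_le_iff₀ (by positivity), pow_two]
    exact mul_le_mul_of_nonneg_left h3 hp.le
  have a1 : ‖C.f1 δ s ξ.1 x.1 y.1‖ ≤ K1 * (q + d) :=
    (g1 s ξ.1 x.1 y.1 hξ1).trans (by gcongr)
  have b1 : ‖C.f1 δ s ξ.2 x.2 y.2‖ ≤ K1 * (q + d) :=
    (g1 s ξ.2 x.2 y.2 hξ2).trans (by gcongr)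
  have sq1 : (y.1 - x.1) ^ 2 ≤ d ^ 2 := by
    rw [← sq_abs (y.1 - x.1)]
    exact pow_le_pow_left₀ (abs_nonneg _) hd1 2
  have sq2 : (y.2 - x.2) ^ 2 ≤ d ^ 2 := by
    rw [← sq_abs (y.2 - x.2)]
    exact pow_le_pow_left₀ (abs_nonneg _) hd2 2
  have a2 : ‖C.f2 δ s ξ.1 x.1 y.1‖ ≤ K2 * (hh δ + d ^ 2) :=
    (g2 s ξ.1 x.1 y.1 hξ1).trans (by gcongr)
  have b2 : ‖C.f2 δ s ξ.2 x.2 y.2‖ ≤ K2 * (hh δ + d ^ 2) :=
    (g2 s ξ.2 x.2 y.2 hξ2).trans (by gcongr)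
  have a0 : ‖C.f0 δ x.1 y.1‖ ≤ 1 := C.f0_le _ _ _
  have b0 : ‖C.f0 δ x.2 y.2‖ ≤ 1 := C.f0_le _ _ _
  set N := ‖psi (hh δ) x ξ s y‖ with hN
  have hN0 : 0 ≤ N := norm_nonneg _
  have hsq : ‖((sq ξ - 1 : ℝ) : ℂ)‖ = |sq ξ - 1| := by
    rw [Complex.norm_real, Real.norm_eq_abs]
  set m := |sq ξ - 1| with hm
  have hm0 : 0 ≤ m := abs_nonneg _
  have pn : ∀ a b : ℝ → ℂ, ‖C.pr (hh δ) s x ξ a b y‖ = ‖a y.1‖ * ‖b y.2‖ * N := by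
    intro a b
    unfold C.pr
    rw [norm_mul, norm_mul]
  have hu0 : 0 ≤ K1 * (q + d) := by positivity
  have hv0 : 0 ≤ K2 * (hh δ + d ^ 2) := by positivity
  have p00 : ‖psic δ x ξ s y‖ ≤ N := C.norm_psic_le δ x ξ s y
  have p10 : ‖C.pr (hh δ) s x ξ (C.f1 δ s ξ.1 x.1) (C.f0 δ x.2) y‖ ≤ K1 * (q + d) * N := by
    rw [pn]
    refine mul_le_mul_of_nonneg_right ?_ hN0
    calc _ ≤ K1 * (q + d) * 1 := mul_le_mul a1 b0 (norm_nonneg _) hu0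
      _ = _ := mul_one _
  have p01 : ‖C.pr (hh δ) s x ξ (C.f0 δ x.1) (C.f1 δ s ξ.2 x.2) y‖ ≤ K1 * (q + d) * N := by
    rw [pn]
    refine mul_le_mul_of_nonneg_right ?_ hN0
    calc _ ≤ 1 * (K1 * (q + d)) := mul_le_mul a0 b1 (norm_nonneg _) zero_le_one
      _ = _ := one_mul _
  have p20 : ‖C.pr (hh δ) s x ξ (C.f2 δ s ξ.1 x.1) (C.f0 δ x.2) y‖ ≤
      K2 * (hh δ + d ^ 2) * N := by
    rw [pn]
    refine mul_le_mul_of_nonneg_right ?_ hN0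
    calc _ ≤ K2 * (hh δ + d ^ 2) * 1 := mul_le_mul a2 b0 (norm_nonneg _) hv0
      _ = _ := mul_one _
  have p02 : ‖C.pr (hh δ) s x ξ (C.f0 δ x.1) (C.f2 δ s ξ.2 x.2) y‖ ≤
      K2 * (hh δ + d ^ 2) * N := by
    rw [pn]
    refine mul_le_mul_of_nonneg_right ?_ hN0
    calc _ ≤ 1 * (K2 * (hh δ + d ^ 2)) := mul_le_mul a0 b2 (norm_nonneg _) zero_le_one
      _ = _ := one_mul _
  have p11 : ‖C.pr (hh δ) s x ξ (C.f1 δ s ξ.1 x.1) (C.f1 δ s ξ.2 x.2) y‖ ≤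
      (K1 * (q + d)) * (K1 * (q + d)) * N := by
    rw [pn]
    exact mul_le_mul_of_nonneg_right (mul_le_mul a1 b1 (norm_nonneg _) hu0) hN0
  have hqd : (q + d) ^ 2 ≤ 2 * (hh δ + d ^ 2) := by
    nlinarith [sq_nonneg (q - d)]
  constructor
  · have t1 : ‖C.F1 δ x ξ s y‖ ≤ m * N + K1 * (q + d) * N + K1 * (q + d) * N := by
      unfold C.F1
      refine (norm_add₃_le).trans ?_
      rw [norm_mul, hsq]
      exact add_le_add (add_le_add (mul_le_mul_of_nonneg_left p00 hm0) p10) p01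
    refine t1.trans ?_
    have t2 : 0 ≤ (2 * K1 + 2 * K2 + 4 * K1 ^ 2) * (q + d) * N := by positivity
    nlinarith [t2]
  · have t1 : ‖C.F2 δ x ξ s y‖ ≤ m ^ 2 * N + 2 * m * (K1 * (q + d) * N + K1 * (q + d) * N) +
        (K2 * (hh δ + d ^ 2) * N + 2 * ((K1 * (q + d)) * (K1 * (q + d)) * N) +
          K2 * (hh δ + d ^ 2) * N) := by
      unfold C.F2
      refine (norm_add₃_le).trans ?_
      rw [norm_mul, norm_mul, norm_mul, norm_pow, hsq, Complex.norm_ofNat]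
      refine add_le_add (add_le_add (mul_le_mul_of_nonneg_left p00 (sq_nonneg m)) ?_) ?_
      · refine mul_le_mul_of_nonneg_left ((norm_add_le _ _).trans (add_le_add p10 p01)) ?_
        positivity
      · refine (norm_add₃_le).trans ?_
        rw [norm_mul, Complex.norm_ofNat]
        exact add_le_add (add_le_add p20 (mul_le_mul_of_nonneg_left p11 zero_le_two)) p02
    refine t1.trans ?_
    have hsm : (sq ξ - 1) ^ 2 = m ^ 2 := by rw [hm, sq_abs]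
    rw [hsm]
    have t2 : 0 ≤ (2 * K2 + 4 * K1 ^ 2) * m * (q + d) * N := by positivity
    have t3 : 0 ≤ (4 * K1) * (hh δ + d ^ 2) * N := by positivity
    have t4 : 2 * K1 ^ 2 * N * (q + d) ^ 2 ≤ 2 * K1 ^ 2 * N * (2 * (hh δ + d ^ 2)) :=
      mul_le_mul_of_nonneg_left hqd (by positivity)
    nlinarith [t2, t3, t4]

end

end Pool.Agent.MP4eed4eR
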