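import Pool.Agent.Lib.MP_4eed4e_an_R.B07
import Pool.Agent.Lib.MP_4eed4e_an_R.C06
import Pool.Agent.Lib.MP_4eed4e_an_R.C28

/-!
MP_4eed4e_an, project R, block C, module C29: energies of the packets.
-/

namespace Pool.Agent.MP4eed4eR

open MeasureTheory Set Filter Topology Metric
open scoped ContDiff

noncomputable section

variable {D : Set P}

/-- Moments of the packets. Proof: `norm_psi_sq`, `dist y x ^ 2 ≤ sq (y - x)` (`dist_sq_le`),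
`gauss_mom`, `gauss_mom2` for `a = (h (1 + s ^ 2))⁻¹` (translate). -/
theorem C.psi_mom {h T : ℝ} (hh0 : 0 < h) (x ξ : P) {s : ℝ} (hs : |s| ≤ T) :
    Integrable (fun y => dist y x ^ 2 * ‖psi h x ξ s y‖ ^ 2) ∧
    ∫ y, dist y x ^ 2 * ‖psi h x ξ s y‖ ^ 2 ≤ 4 * h * (1 + T ^ 2) ∧
    Integrable (fun y => dist y x ^ 4 * ‖psi h x ξ s y‖ ^ 2) ∧
    ∫ y, dist y x ^ 4 * ‖psi h x ξ s y‖ ^ 2 ≤ 16 * h ^ 2 * (1 + T ^ 2) ^ 2 := by
  have h1s : (0 : ℝ) < 1 + s ^ 2 := by positivity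
  have ha : 0 < (h * (1 + s ^ 2))⁻¹ := by positivity
  have hpi := Real.pi_pos
  have hsT : s ^ 2 ≤ T ^ 2 := by
    rw [← sq_abs s]
    exact pow_le_pow_left₀ (abs_nonneg s) hs 2
  have hc : 0 ≤ (Real.pi * h)⁻¹ * (1 + s ^ 2)⁻¹ := by positivity
  have hpc : Continuous (psi h x ξ s) := C.continuous_psi h x ξ s
  have hdc : Continuous fun y : P => dist y x := continuous_id.dist continuous_const
  obtain ⟨m1, m2⟩ := C.gauss_mom ha
  obtain ⟨n1, n2⟩ := C.gauss_mom2 ha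
  have m1' := (m1.comp_sub_right x).const_mul ((Real.pi * h)⁻¹ * (1 + s ^ 2)⁻¹)
  have n1' := (n1.comp_sub_right x).const_mul ((Real.pi * h)⁻¹ * (1 + s ^ 2)⁻¹)
  have p1 : ∀ y : P, dist y x ^ 2 * ‖psi h x ξ s y‖ ^ 2 ≤
      (Real.pi * h)⁻¹ * (1 + s ^ 2)⁻¹ *
        (sq (y - x) * Real.exp (-((h * (1 + s ^ 2))⁻¹ * sq (y - x)))) := by
    intro y
    rw [C.norm_psi_sq hh0]
    have g1 := mul_le_mul_of_nonneg_right (C.dist_sq_le y x)
      (mul_nonneg hc (Real.exp_pos (-((h * (1 + s ^ 2))⁻¹ * sq (y - x)))).le)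
    refine g1.trans (le_of_eq ?_)
    ring
  have p2 : ∀ y : P, dist y x ^ 4 * ‖psi h x ξ s y‖ ^ 2 ≤
      (Real.pi * h)⁻¹ * (1 + s ^ 2)⁻¹ *
        (sq (y - x) ^ 2 * Real.exp (-((h * (1 + s ^ 2))⁻¹ * sq (y - x)))) := by
    intro y
    rw [C.norm_psi_sq hh0]
    have g0 : dist y x ^ 4 ≤ sq (y - x) ^ 2 := by
      have : dist y x ^ 4 = (dist y x ^ 2) ^ 2 := by ring
      rw [this]
      exact pow_le_pow_left₀ (by positivity) (C.dist_sq_le y x) 2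
    have g1 := mul_le_mul_of_nonneg_right g0
      (mul_nonneg hc (Real.exp_pos (-((h * (1 + s ^ 2))⁻¹ * sq (y - x)))).le)
    refine g1.trans (le_of_eq ?_)
    ring
  have i1 : Integrable (fun y => dist y x ^ 2 * ‖psi h x ξ s y‖ ^ 2) := by
    refine Integrable.mono' m1' ((hdc.pow 2).mul (hpc.norm.pow 2)).aestronglyMeasurable
      (Eventually.of_forall fun y => ?_)
    rw [Real.norm_of_nonneg (by positivity)]
    exact p1 y
  have i2 : Integrable (fun y => dist y x ^ 4 * ‖psi h x ξ s y‖ ^ 2) := by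
    refine Integrable.mono' n1' ((hdc.pow 4).mul (hpc.norm.pow 2)).aestronglyMeasurable
      (Eventually.of_forall fun y => ?_)
    rw [Real.norm_of_nonneg (by positivity)]
    exact p2 y
  refine ⟨i1, ?_, i2, ?_⟩
  · refine (integral_mono i1 m1' p1).trans ?_
    rw [integral_const_mul, integral_sub_right_eq_self
      (fun u : P => sq u * Real.exp (-((h * (1 + s ^ 2))⁻¹ * sq u))) x]
    refine (mul_le_mul_of_nonneg_left m2 hc).trans ?_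
    have e : (Real.pi * h)⁻¹ * (1 + s ^ 2)⁻¹ * (4 * Real.pi / (h * (1 + s ^ 2))⁻¹ ^ 2) =
        4 * h * (1 + s ^ 2) := by
      field_simp
    rw [e]
    exact mul_le_mul_of_nonneg_left (by linarith) (by positivity)
  · refine (integral_mono i2 n1' p2).trans ?_
    rw [integral_const_mul, integral_sub_right_eq_self
      (fun u : P => sq u ^ 2 * Real.exp (-((h * (1 + s ^ 2))⁻¹ * sq u))) x]
    refine (mul_le_mul_of_nonneg_left n2 hc).trans ?_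
    have e : (Real.pi * h)⁻¹ * (1 + s ^ 2)⁻¹ * (16 * Real.pi / (h * (1 + s ^ 2))⁻¹ ^ 3) =
        16 * h ^ 2 * (1 + s ^ 2) ^ 2 := by
      field_simp
    rw [e]
    exact mul_le_mul_of_nonneg_left (pow_le_pow_left₀ (by positivity) (by linarith) 2)
      (by positivity)

/-- the norm of a function dominated by a multiple of a packet -/
private theorem c29_norm {h T a b c : ℝ} (hh0 : 0 < h) (ha : 0 ≤ a) (hb : 0 ≤ b) (hc : 0 ≤ c)
    (x ξ : P) {s : ℝ} (hs : |s| ≤ T) {F : P → ℂ} (hF : Continuous F)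
    (hle : ∀ y, ‖F y‖ ≤ (a + b * dist y x + c * dist y x ^ 2) * ‖psi h x ξ s y‖) :
    MemLp F 2 volume ∧ ∫ y, ‖F y‖ ^ 2 ≤ 3 * (a ^ 2 + b ^ 2 * (4 * h * (1 + T ^ 2)) +
      c ^ 2 * (16 * h ^ 2 * (1 + T ^ 2) ^ 2)) := by
  obtain ⟨i1, j1, i2, j2⟩ := C.psi_mom hh0 x ξ hs
  have i0 : Integrable fun y => ‖psi h x ξ s y‖ ^ 2 :=
    (C.memLp_psi hh0 x ξ s).norm.integrable_sq
  have j0 := C.int_psi_sq hh0 x ξ s
  have hI : Integrable fun y => 3 * (a ^ 2 * ‖psi h x ξ s y‖ ^ 2 +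
      b ^ 2 * (dist y x ^ 2 * ‖psi h x ξ s y‖ ^ 2) +
      c ^ 2 * (dist y x ^ 4 * ‖psi h x ξ s y‖ ^ 2)) :=
    (((i0.const_mul (a ^ 2)).add (i1.const_mul (b ^ 2))).add (i2.const_mul (c ^ 2))).const_mul 3
  have hp : ∀ y, ‖F y‖ ^ 2 ≤ 3 * (a ^ 2 * ‖psi h x ξ s y‖ ^ 2 +
      b ^ 2 * (dist y x ^ 2 * ‖psi h x ξ s y‖ ^ 2) +
      c ^ 2 * (dist y x ^ 4 * ‖psi h x ξ s y‖ ^ 2)) := by
    intro y
    have g1 := pow_le_pow_left₀ (norm_nonneg _) (hle y) 2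
    refine g1.trans ?_
    have g2 : (a + b * dist y x + c * dist y x ^ 2) ^ 2 ≤
        3 * (a ^ 2 + b ^ 2 * dist y x ^ 2 + c ^ 2 * dist y x ^ 4) := by
      nlinarith [sq_nonneg (a - b * dist y x), sq_nonneg (a - c * dist y x ^ 2),
        sq_nonneg (b * dist y x - c * dist y x ^ 2)]
    rw [mul_pow]
    refine (mul_le_mul_of_nonneg_right g2 (by positivity)).trans (le_of_eq ?_)
    ring
  have hm : Integrable fun y => ‖F y‖ ^ 2 := by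
    refine Integrable.mono' hI (hF.norm.pow 2).aestronglyMeasurable
      (Eventually.of_forall fun y => ?_)
    rw [Real.norm_of_nonneg (by positivity)]
    exact hp y
  refine ⟨(memLp_two_iff_integrable_sq_norm hF.aestronglyMeasurable).2 hm, ?_⟩
  refine (integral_mono hm hI hp).trans ?_
  rw [integral_const_mul, integral_add, integral_add, integral_const_mul, integral_const_mul,
    integral_const_mul, j0, mul_one]
  · have k1 := mul_le_mul_of_nonneg_left j1 (sq_nonneg b)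
    have k2 := mul_le_mul_of_nonneg_left j2 (sq_nonneg c)
    linarith
  · exact i0.const_mul (a ^ 2)
  · exact i1.const_mul (b ^ 2)
  · exact (i0.const_mul (a ^ 2)).add (i1.const_mul (b ^ 2))
  · exact i2.const_mul (c ^ 2)

private theorem c29_xi {ξ : P} (h : |sq ξ - 1| ≤ 1) : |ξ.1| ≤ 2 ∧ |ξ.2| ≤ 2 := by
  have h1 := (abs_le.1 h).2
  unfold sq at h1
  constructor
  · exact abs_le_of_sq_le_sq (by nlinarith [sq_nonneg ξ.2]) (by norm_num)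
  · exact abs_le_of_sq_le_sq (by nlinarith [sq_nonneg ξ.1]) (by norm_num)

private theorem c29_scales {δ : ℝ} (h0 : 0 < δ) (h1 : δ < 1) :
    th δ ≤ 1 ∧ hh δ / rad δ ≤ 64 * th δ ∧ hh δ ≤ th δ ^ 2 := by
  refine ⟨?_, ?_, ?_⟩
  · exact pow_le_one₀ h0.le h1.le
  · have e : hh δ / rad δ = 64 * δ ^ 42 := by
      unfold hh rad th
      have : δ ≠ 0 := h0.ne'
      field_simp
    rw [e]
    unfold th
    exact mul_le_mul_of_nonneg_left (pow_le_pow_of_le_one h0.le h1.le (by norm_num)) (by norm_num)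
  · unfold hh th
    rw [← pow_mul]
    exact pow_le_pow_of_le_one h0.le h1.le (by norm_num)

/-- Proof: `F_le`, `psi_mom`, `int_psi_sq` and `(a + b + c)² ≤ 3 (a² + b² + c²)`;
`|sq ξ - 1| ≤ th` gives `|ξ.i| ≤ 2`; `h / r = 64 δ ^ 42`, `√h = sh = δ ^ 40 ≤ th`,
`h ≤ th ^ 2`. -/
theorem C.F_norm (T : ℝ) : ∃ K : ℝ, 0 ≤ K ∧ ∀ᶠ δ in 𝓝[>] (0 : ℝ), ∀ x ξ : P,
    |sq ξ - 1| ≤ th δ → ∀ s : ℝ, |s| ≤ T →
    MemLp (C.F1 δ x ξ s) 2 volume ∧ MemLp (C.F2 δ x ξ s) 2 volume ∧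
    Real.sqrt (∫ y, ‖C.F1 δ x ξ s y‖ ^ 2) ≤ K * th δ ∧
    Real.sqrt (∫ y, ‖C.F2 δ x ξ s y‖ ^ 2) ≤ K * th δ ^ 2 := by
  obtain ⟨K, hK, hev⟩ := C.F_le
  have hT1 : (1 : ℝ) ≤ 1 + T ^ 2 := by nlinarith [sq_nonneg T]
  set K1 : ℝ := 3 * ((1 + 64 * K) ^ 2 + K ^ 2 * (4 * (1 + T ^ 2))) with hK1
  set K2 : ℝ := 3 * ((1 + 65 * K) ^ 2 + K ^ 2 * (4 * (1 + T ^ 2)) +
    K ^ 2 * (16 * (1 + T ^ 2) ^ 2)) with hK2
  have hK1p : 0 ≤ K1 := by positivity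
  have hK2p : 0 ≤ K2 := by positivity
  refine ⟨Real.sqrt K1 + Real.sqrt K2, by positivity, ?_⟩
  filter_upwards [hev, C.ev_lt (show (0 : ℝ) < 1 by norm_num)] with δ h1 h2
  intro x ξ hξ s hs
  obtain ⟨c1, c2, c3⟩ := c29_scales h2.1 h2.2
  obtain ⟨x1, x2⟩ := c29_xi (hξ.trans c1)
  have ht := C.th_pos h2.1
  have hh0 := C.hh_pos h2.1
  have h3 := h1 x ξ x1 x2 s
  have hsq2 : (sq ξ - 1) ^ 2 ≤ th δ ^ 2 := by
    rw [← sq_abs]
    exact pow_le_pow_left₀ (abs_nonneg _) hξ 2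
  have A1 := c29_norm (a := (1 + 64 * K) * th δ) (b := K) (c := 0) hh0 (by positivity) hK le_rfl
    x ξ hs (C.contDiff_F1 δ x ξ s).continuous (fun y => by
      refine ((h3 y).1).trans (mul_le_mul_of_nonneg_right ?_ (norm_nonneg _))
      have g1 := mul_le_mul_of_nonneg_left c2 hK
      nlinarith)
  have A2 := c29_norm (a := (1 + 65 * K) * th δ ^ 2) (b := K * th δ) (c := K) hh0 (by positivity)
    (by positivity) hK x ξ hs (C.contDiff_F2 δ x ξ s).continuous (fun y => by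
      refine ((h3 y).2).trans (mul_le_mul_of_nonneg_right ?_ (norm_nonneg _))
      have hd : 0 ≤ dist y x := dist_nonneg
      have g1 : K * |sq ξ - 1| * (hh δ / rad δ + dist y x) ≤
          K * th δ * (64 * th δ + dist y x) := by
        refine mul_le_mul (mul_le_mul_of_nonneg_left hξ hK) (by linarith) ?_ (by positivity)
        have := C.rad_pos h2.1
        positivity
      have g2 : K * (hh δ + dist y x ^ 2) ≤ K * (th δ ^ 2 + dist y x ^ 2) :=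
        mul_le_mul_of_nonneg_left (by linarith) hK
      nlinarith)
  refine ⟨A1.1, A2.1, ?_, ?_⟩
  · have B1 : ∫ y, ‖C.F1 δ x ξ s y‖ ^ 2 ≤ K1 * th δ ^ 2 := by
      refine A1.2.trans ?_
      have g1 : K ^ 2 * (4 * hh δ * (1 + T ^ 2)) ≤ K ^ 2 * (4 * (1 + T ^ 2)) * th δ ^ 2 := by
        have g2 := mul_le_mul_of_nonneg_left c3 (by positivity : 0 ≤ K ^ 2 * (4 * (1 + T ^ 2)))
        nlinarith
      rw [hK1]
      nlinarith
    calc Real.sqrt (∫ y, ‖C.F1 δ x ξ s y‖ ^ 2) ≤ Real.sqrt (K1 * th δ ^ 2) :=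
          Real.sqrt_le_sqrt B1
      _ = Real.sqrt K1 * th δ := by rw [Real.sqrt_mul hK1p, Real.sqrt_sq ht.le]
      _ ≤ (Real.sqrt K1 + Real.sqrt K2) * th δ :=
          mul_le_mul_of_nonneg_right (by linarith [Real.sqrt_nonneg K2]) ht.le
  · have B2 : ∫ y, ‖C.F2 δ x ξ s y‖ ^ 2 ≤ K2 * (th δ ^ 2) ^ 2 := by
      refine A2.2.trans ?_
      have g1 : (K * th δ) ^ 2 * (4 * hh δ * (1 + T ^ 2)) ≤
          K ^ 2 * (4 * (1 + T ^ 2)) * (th δ ^ 2) ^ 2 := by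
        have g2 := mul_le_mul_of_nonneg_left c3
          (by positivity : 0 ≤ K ^ 2 * (4 * (1 + T ^ 2)) * th δ ^ 2)
        calc (K * th δ) ^ 2 * (4 * hh δ * (1 + T ^ 2)) =
            K ^ 2 * (4 * (1 + T ^ 2)) * th δ ^ 2 * hh δ := by ring
          _ ≤ K ^ 2 * (4 * (1 + T ^ 2)) * th δ ^ 2 * th δ ^ 2 := g2
          _ = _ := by ring
      have g3 : K ^ 2 * (16 * hh δ ^ 2 * (1 + T ^ 2) ^ 2) ≤
          K ^ 2 * (16 * (1 + T ^ 2) ^ 2) * (th δ ^ 2) ^ 2 := by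
        have g4 := mul_le_mul_of_nonneg_left (pow_le_pow_left₀ hh0.le c3 2)
          (by positivity : 0 ≤ K ^ 2 * (16 * (1 + T ^ 2) ^ 2))
        calc K ^ 2 * (16 * hh δ ^ 2 * (1 + T ^ 2) ^ 2) =
            K ^ 2 * (16 * (1 + T ^ 2) ^ 2) * hh δ ^ 2 := by ring
          _ ≤ _ := g4
      rw [hK2]
      have g5 : ((1 + 65 * K) * th δ ^ 2) ^ 2 = (1 + 65 * K) ^ 2 * (th δ ^ 2) ^ 2 := by ring
      rw [g5]
      have g6 : 3 * ((1 + 65 * K) ^ 2 + K ^ 2 * (4 * (1 + T ^ 2)) +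
          K ^ 2 * (16 * (1 + T ^ 2) ^ 2)) * (th δ ^ 2) ^ 2 =
          3 * ((1 + 65 * K) ^ 2 * (th δ ^ 2) ^ 2 + K ^ 2 * (4 * (1 + T ^ 2)) * (th δ ^ 2) ^ 2 +
          K ^ 2 * (16 * (1 + T ^ 2) ^ 2) * (th δ ^ 2) ^ 2) := by ring
      rw [g6]
      linarith
    calc Real.sqrt (∫ y, ‖C.F2 δ x ξ s y‖ ^ 2) ≤ Real.sqrt (K2 * (th δ ^ 2) ^ 2) :=
          Real.sqrt_le_sqrt B2
      _ = Real.sqrt K2 * th δ ^ 2 := by
          rw [Real.sqrt_mul hK2p, Real.sqrt_sq (by positivity)]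
      _ ≤ (Real.sqrt K1 + Real.sqrt K2) * th δ ^ 2 :=
          mul_le_mul_of_nonneg_right (by linarith [Real.sqrt_nonneg K1]) (by positivity)

private theorem c29_co (S : Spec D) {G : Geo D} {ρ R : ℝ} (hρ : 0 < ρ) (hρ' : ρ ≤ 4 * G.rho0)
    (hR : 0 < R) (hR' : 2 * R ≤ ρ) (W : Walls G ρ) {x : P} (hx : x ∈ closure D)
    (hfar : G.Far ρ x) {F F' : P → ℂ} (hs : ContDiff ℝ ∞ F) (hF : ∀ y, R < dist y x → F y = 0)
    (hm : MemLp F 2 volume) (hm' : MemLp F' 2 volume) {h : ℝ} (hh0 : 0 < h)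
    (he : ∀ y, F' y = -(h : ℂ) ^ 2 * Lap F y - F y) (k : ℕ) :
    S.co k (cls D (W.fold (-1) (-1) x F')) =
      ((h ^ 2 * S.lam k - 1 : ℝ) : ℂ) * S.co k (cls D (W.fold (-1) (-1) x F)) := by
  have hc : (-(h : ℂ) ^ 2) ≠ 0 := by
    rw [neg_ne_zero]
    exact pow_ne_zero _ (Complex.ofReal_ne_zero.2 hh0.ne')
  have hL : MemLp (Lap F) 2 volume := by
    have h1 := (hm'.add hm).const_mul ((-(h : ℂ) ^ 2)⁻¹)
    refine (memLp_congr_ae (Eventually.of_forall fun y => ?_)).1 h1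
    show (-(h : ℂ) ^ 2)⁻¹ * (F' y + F y) = Lap F y
    rw [he y, sub_add_cancel, inv_mul_cancel_left₀ hc]
  have h1 := memLp_fold W (-1) (-1) x hL
  have h2 := memLp_fold W (-1) (-1) x hm
  have h3 : cls D (W.fold (-1) (-1) x F') =
      (-(h : ℂ) ^ 2) • cls D (W.fold (-1) (-1) x (Lap F)) - cls D (W.fold (-1) (-1) x F) := by
    rw [← C.cls_smul _ h1, ← C.cls_sub (h1.const_mul (-(h : ℂ) ^ 2)) h2]
    congr 1
    funext q
    have h4 : F' = fun y => (fun z => -(h : ℂ) ^ 2 * Lap F z) y - F y := by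
      funext y
      exact he y
    rw [h4, C.fold_sub, C.fold_smul]
  have h5 := co_fold_lap S hρ hρ' hR hR' W hx hfar hs hF k
  have h6 : S.co k ((-(h : ℂ) ^ 2) • cls D (W.fold (-1) (-1) x (Lap F)) -
      cls D (W.fold (-1) (-1) x F)) =
      S.co k ((-(h : ℂ) ^ 2) • cls D (W.fold (-1) (-1) x (Lap F))) -
      S.co k (cls D (W.fold (-1) (-1) x F)) := by
    unfold Spec.co
    exact inner_sub_right _ _ _
  rw [h3, h6, co_smul, h5]
  push_cast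
  ring

/-- C9: energies.

Proof. `w₁ = cls D (W.fold (-1) (-1) x (F1 δ x ξ s))`, `w₂` the same with `F2`. By `F1_eq`,
`fold_sub`, `fold_smul` (`cls_sub`, `cls_smul`, `memLp_fold`) and `co_fold_lap` (OutB, with
`ρ = th δ / 4`, `R = 2 rad δ`, `F = psic δ x ξ s`, `contDiff_psic`) the coefficient of `w₁` is
`h² lam_k - 1` times the coefficient of the packet; the same for `w₂` with `F = F1`. The
coefficients are linear: `co_add`, `co_smul`. Norms: `norm_fold_le`, `F_norm`. -/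
theorem energy (S : Spec D) (G : Geo D) (T : ℝ) : ∃ C : ℝ, ∀ᶠ δ in 𝓝[>] (0 : ℝ),
    ∀ W : Walls G (th δ / 4), ∀ x ∈ G.Y δ, ∀ ξ : P, |sq ξ - 1| ≤ th δ → ∀ s : ℝ, |s| ≤ T →
    ∃ w₁ w₂ : HD D, ‖w₁‖ ≤ C * th δ ∧ ‖w₂‖ ≤ C * th δ ^ 2 ∧
      ∀ k, S.co k w₁ = ((hh δ ^ 2 * S.lam k - 1 : ℝ) : ℂ) * S.co k (W.v δ (x, ξ) s) ∧
        S.co k w₂ = (((hh δ ^ 2 * S.lam k - 1) ^ 2 : ℝ) : ℂ) * S.co k (W.v δ (x, ξ) s) := by
  obtain ⟨K, hK, hev⟩ := C.F_norm T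
  refine ⟨4 * K, ?_⟩
  filter_upwards [hev, C.ev_geo G] with δ h1 hδ
  intro W x hx ξ hξ s hs
  obtain ⟨f1, f2, f3, f4⟩ := h1 x ξ hξ s hs
  have ht := C.th_pos hδ.1
  have hr := C.rad_pos hδ.1
  have hh0 := C.hh_pos hδ.1
  have hrt := C.tau_rad δ
  have hfar : G.Far (th δ / 4) x := fun v hv => by
    have h2 := hx.2 v hv
    linarith
  have c1 : ∀ k, S.co k (cls D (W.fold (-1) (-1) x (C.F1 δ x ξ s))) =
      ((hh δ ^ 2 * S.lam k - 1 : ℝ) : ℂ) * S.co k (cls D (W.fold (-1) (-1) x (psic δ x ξ s))) :=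
    c29_co S (R := 2 * rad δ) (by linarith) hδ.2.2.1 (by linarith) (by linarith) W hx.1 hfar
      (C.contDiff_psic δ x ξ s) (fun y hy => C.psic_zero hδ.1 x ξ s hy)
      (C.memLp_psic hδ.1 x ξ s) f1 hh0 (fun y => C.F1_eq hδ.1 x ξ s y)
  have c2 : ∀ k, S.co k (cls D (W.fold (-1) (-1) x (C.F2 δ x ξ s))) =
      ((hh δ ^ 2 * S.lam k - 1 : ℝ) : ℂ) *
        S.co k (cls D (W.fold (-1) (-1) x (C.F1 δ x ξ s))) :=
    c29_co S (R := 2 * rad δ) (by linarith) hδ.2.2.1 (by linarith) (by linarith) W hx.1 hfar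
      (C.contDiff_F1 δ x ξ s) (fun y hy => (C.F_supp hδ.1 x ξ s hy).1)
      f1 f2 hh0 (fun y => C.F2_eq hδ.1 x ξ s y)
  refine ⟨cls D (W.fold (-1) (-1) x (C.F1 δ x ξ s)), cls D (W.fold (-1) (-1) x (C.F2 δ x ξ s)),
    ?_, ?_, fun k => ⟨c1 k, ?_⟩⟩
  · have g := C.norm_fold_le W (Or.inr rfl : (-1 : ℝ) = 1 ∨ _) (Or.inr rfl : (-1 : ℝ) = 1 ∨ _) x f1
    linarith
  · have g := C.norm_fold_le W (Or.inr rfl : (-1 : ℝ) = 1 ∨ _) (Or.inr rfl : (-1 : ℝ) = 1 ∨ _) x f2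
    linarith
  · rw [c2 k, c1 k]
    show _ = _ * S.co k (cls D (W.fold (-1) (-1) x (psic δ x ξ s)))
    push_cast
    ring

end

end Pool.Agent.MP4eed4eR
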