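import Pool.Agent.Lib.MP_4eed4e_an_R.C29

/-!
MP_4eed4e_an, project R, block C, module C30: the Hamiltonian as a combination of families.
-/

namespace Pool.Agent.MP4eed4eR

open MeasureTheory Set Filter Topology Metric
open scoped ContDiff

noncomputable section

variable {D : Set P}

def C.gA (δ y : ℝ) : ℂ := -(hh δ : ℂ) ^ 2 * deriv (deriv (C.f0 δ 0)) y +
  2 * (hh δ : ℂ) * (y : ℂ) * deriv (C.f0 δ 0) y + ((hh δ : ℂ) - (y : ℂ) ^ 2) * C.f0 δ 0 y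

def C.gB (δ y : ℝ) : ℂ :=
  2 * Complex.I * ((y : ℂ) * C.f0 δ 0 y - (hh δ : ℂ) * deriv (C.f0 δ 0) y)

private theorem c30_f0 (δ x : ℝ) : C.f0 δ x = fun y => C.f0 δ 0 (y - x) := by
  funext y
  unfold C.f0
  rw [sub_zero]

private theorem c30_dd (δ x : ℝ) :
    deriv (C.f0 δ x) = (fun y => deriv (C.f0 δ 0) (y - x)) ∧
      deriv (deriv (C.f0 δ x)) = fun y => deriv (deriv (C.f0 δ 0)) (y - x) := by
  have h1 : deriv (C.f0 δ x) = fun y => deriv (C.f0 δ 0) (y - x) := by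
    rw [c30_f0 δ x]
    funext y
    exact deriv_comp_sub_const _ _ _
  refine ⟨h1, ?_⟩
  rw [h1]
  funext y
  exact deriv_comp_sub_const _ _ _

private theorem c30_it1 (f : ℝ → ℂ) : iteratedDeriv 1 f = deriv f := iteratedDeriv_one

private theorem c30_it2 (f : ℝ → ℂ) : iteratedDeriv 2 f = deriv (deriv f) := by
  rw [iteratedDeriv_succ, iteratedDeriv_one]

private theorem c30_zero {δ : ℝ} (hδ : 0 < δ) {y : ℝ} (hy : 2 * rad δ < |y|) :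
    C.f0 δ 0 y = 0 ∧ C.gA δ y = 0 ∧ C.gB δ y = 0 := by
  have hy' : 2 * rad δ < |y - 0| := by rwa [sub_zero]
  have h0 := (C.f_supp hδ 0 0 0 hy').1
  obtain ⟨K1, -, h1⟩ := C.f0_deriv 1
  obtain ⟨K2, -, h2⟩ := C.f0_deriv 2
  have h3 := (h1 δ hδ 0 y).2 one_pos hy'
  have h4 := (h2 δ hδ 0 y).2 two_pos hy'
  rw [c30_it1] at h3
  rw [c30_it2] at h4
  refine ⟨h0, ?_, ?_⟩
  · unfold C.gA
    rw [h0, h3, h4]
    ring
  · unfold C.gB
    rw [h0, h3]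
    ring

/-- Proof: `beta 0 = 1`; the derivatives of `f0 δ x` at `y` are those of `f0 δ 0` at `y - x`. -/
theorem C.opN_f0 (δ ξ x y : ℝ) :
    C.f1 δ 0 ξ x y = C.gA δ (y - x) + (ξ : ℂ) * C.gB δ (y - x) := by
  obtain ⟨h1, h2⟩ := c30_dd δ x
  unfold C.f1 C.opN C.gA C.gB
  rw [h2, h1, c30_f0 δ x, C.beta_zero]
  push_cast
  ring

private theorem c30_hr {δ : ℝ} (h0 : 0 < δ) (h01 : δ < 1 / 8) : hh δ / rad δ ^ 2 ≤ 1 := by
  have hr : 0 < rad δ := C.rad_pos h0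
  have hh0 : 0 < hh δ := C.hh_pos h0
  have h1 := C.rad_sq h0
  have h2 : δ ^ 4 ≤ (1 / 8) ^ 4 := pow_le_pow_left₀ h0.le h01.le 4
  have h3 : (0 : ℝ) < 4096 * δ ^ 4 := by positivity
  rw [div_le_one (by positivity)]
  have h4 : rad δ ^ 2 = hh δ * (1 / (4096 * δ ^ 4)) := by
    rw [← h1]
    field_simp
  have h5 : 1 ≤ 1 / (4096 * δ ^ 4) := by
    rw [le_div_iff₀ h3]
    norm_num at h2 ⊢
    linarith
  rw [h4]
  nlinarith

/-- `f0_deriv` for `n = 0, 1, 2`, `h / r ^ 2 ≤ 1`. -/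
theorem C.g_le : ∃ K : ℝ, 0 ≤ K ∧ ∀ᶠ δ in 𝓝[>] (0 : ℝ), ∀ y : ℝ,
    ‖C.gA δ y‖ ≤ K * (hh δ + y ^ 2) ∧ ‖C.gB δ y‖ ≤ K * (hh δ / rad δ + |y|) ∧
      (2 * rad δ < |y| → C.gA δ y = 0 ∧ C.gB δ y = 0) := by
  obtain ⟨K1, hK1, h1⟩ := C.f0_deriv 1
  obtain ⟨K2, hK2, h2⟩ := C.f0_deriv 2
  refine ⟨K2 + 4 * K1 + 2, by positivity, ?_⟩
  filter_upwards [C.ev_lt (c := 1 / 8) (by norm_num)] with δ hδ y
  obtain ⟨h0, h01⟩ := hδ
  have hr : 0 < rad δ := C.rad_pos h0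
  have hh0 : 0 < hh δ := C.hh_pos h0
  have hq : hh δ / rad δ ^ 2 ≤ 1 := c30_hr h0 h01
  have e1 := (h1 δ h0 0 y).1
  have e2 := (h2 δ h0 0 y).1
  rw [c30_it1, pow_one] at e1
  rw [c30_it2] at e2
  have e0 := C.f0_le δ 0 y
  refine ⟨?_, ?_, fun hy => (c30_zero h0 hy).2⟩
  · by_cases hy : 2 * rad δ < |y|
    · rw [(c30_zero h0 hy).2.1, norm_zero]
      positivity
    · have hy' : |y| ≤ 2 * rad δ := not_lt.1 hy
      have n1 : ‖-(hh δ : ℂ) ^ 2 * deriv (deriv (C.f0 δ 0)) y‖ ≤ K2 * hh δ := by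
        rw [norm_mul, norm_neg, norm_pow, Complex.norm_real, Real.norm_eq_abs,
          abs_of_pos hh0]
        calc hh δ ^ 2 * ‖deriv (deriv (C.f0 δ 0)) y‖ ≤ hh δ ^ 2 * (K2 / rad δ ^ 2) := by
              gcongr
          _ = K2 * hh δ * (hh δ / rad δ ^ 2) := by ring
          _ ≤ K2 * hh δ * 1 := by gcongr
          _ = K2 * hh δ := mul_one _
      have n2 : ‖2 * (hh δ : ℂ) * (y : ℂ) * deriv (C.f0 δ 0) y‖ ≤ 4 * K1 * hh δ := by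
        rw [norm_mul, norm_mul, norm_mul, Complex.norm_real, Complex.norm_real,
          Real.norm_eq_abs, Real.norm_eq_abs, abs_of_pos hh0, Complex.norm_ofNat]
        calc 2 * hh δ * |y| * ‖deriv (C.f0 δ 0) y‖ ≤
            2 * hh δ * (2 * rad δ) * (K1 / rad δ) := by gcongr
          _ = 4 * K1 * hh δ := by
            field_simp
            ring
      have n3 : ‖((hh δ : ℂ) - (y : ℂ) ^ 2) * C.f0 δ 0 y‖ ≤ hh δ + y ^ 2 := by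
        rw [norm_mul]
        have n4 : ‖(hh δ : ℂ) - (y : ℂ) ^ 2‖ ≤ hh δ + y ^ 2 := by
          refine (norm_sub_le _ _).trans (le_of_eq ?_)
          rw [norm_pow, Complex.norm_real, Complex.norm_real, Real.norm_eq_abs,
            Real.norm_eq_abs, abs_of_pos hh0, sq_abs]
        calc ‖(hh δ : ℂ) - (y : ℂ) ^ 2‖ * ‖C.f0 δ 0 y‖ ≤ (hh δ + y ^ 2) * 1 := by gcongr
          _ = hh δ + y ^ 2 := mul_one _
      have n5 : ‖C.gA δ y‖ ≤ K2 * hh δ + 4 * K1 * hh δ + (hh δ + y ^ 2) := by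
        unfold C.gA
        exact (norm_add₃_le).trans (add_le_add (add_le_add n1 n2) n3)
      have n6 : 0 ≤ (K2 + 4 * K1) * y ^ 2 := by positivity
      have n7 : 0 ≤ hh δ + y ^ 2 := by positivity
      nlinarith
  · have n1 : ‖C.gB δ y‖ ≤ 2 * (|y| + hh δ * (K1 / rad δ)) := by
      unfold C.gB
      rw [norm_mul, norm_mul, Complex.norm_I, mul_one, Complex.norm_ofNat]
      gcongr
      refine (norm_sub_le _ _).trans ?_
      rw [norm_mul, norm_mul, Complex.norm_real, Complex.norm_real, Real.norm_eq_abs,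
        Real.norm_eq_abs, abs_of_pos hh0]
      have n2 : |y| * ‖C.f0 δ 0 y‖ ≤ |y| * 1 := by gcongr
      have n3 : hh δ * ‖deriv (C.f0 δ 0) y‖ ≤ hh δ * (K1 / rad δ) := by gcongr
      linarith
    have n2 : 2 * (|y| + hh δ * (K1 / rad δ)) = 2 * |y| + 2 * K1 * (hh δ / rad δ) := by ring
    have n3 : 0 ≤ hh δ / rad δ := by positivity
    have n4 : 0 ≤ |y| := abs_nonneg y
    have n5 : 0 ≤ K1 * (hh δ / rad δ) := by positivity
    have n6 : 0 ≤ K2 * (hh δ / rad δ) := by positivity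
    have n7 : 0 ≤ K1 * |y| := by positivity
    have n8 : 0 ≤ K2 * |y| := by positivity
    nlinarith

/-- The envelopes. -/
def C.E0 (δ : ℝ) (y : P) : ℂ :=
  (C.gA δ y.1 * C.f0 δ 0 y.2 + C.f0 δ 0 y.1 * C.gA δ y.2) * psi (hh δ) 0 0 0 y

def C.E1 (δ : ℝ) (y : P) : ℂ := C.gB δ y.1 * C.f0 δ 0 y.2 * psi (hh δ) 0 0 0 y

def C.E2 (δ : ℝ) (y : P) : ℂ := C.f0 δ 0 y.1 * C.gB δ y.2 * psi (hh δ) 0 0 0 y

private theorem c30_cont (δ : ℝ) :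
    Continuous (C.f0 δ 0) ∧ Continuous (C.gA δ) ∧ Continuous (C.gB δ) := by
  have h0 := C.contDiff_f0 δ 0
  have h1 : ContDiff ℝ ∞ (deriv (C.f0 δ 0)) := (contDiff_infty_iff_deriv.1 h0).2
  have h2 : ContDiff ℝ ∞ (deriv (deriv (C.f0 δ 0))) := (contDiff_infty_iff_deriv.1 h1).2
  have c0 := h0.continuous
  have c1 := h1.continuous
  have c2 := h2.continuous
  have cy : Continuous fun y : ℝ => (y : ℂ) := Complex.continuous_ofReal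
  refine ⟨c0, ?_, ?_⟩
  · unfold C.gA
    exact ((continuous_const.mul c2).add ((continuous_const.mul cy).mul c1)).add
      ((continuous_const.sub (cy.pow 2)).mul c0)
  · unfold C.gB
    exact continuous_const.mul ((cy.mul c0).sub (continuous_const.mul c1))

private theorem c30_big {δ : ℝ} {y : P} (hy : 2 * rad δ < ‖y‖) :
    2 * rad δ < |y.1| ∨ 2 * rad δ < |y.2| := by
  rw [Prod.norm_def, lt_max_iff, Real.norm_eq_abs, Real.norm_eq_abs] at hy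
  exact hy

private theorem c30_env {E : P → ℂ} {R : ℝ} (hE : Continuous E)
    (hs : ∀ y : P, R < ‖y‖ → E y = 0) : Env E R := by
  refine ⟨hE.measurable, ?_, hs⟩
  obtain ⟨C, hC⟩ := (isCompact_closedBall (0 : P) R).exists_bound_of_continuousOn hE.continuousOn
  refine ⟨max C 0, fun y => ?_⟩
  by_cases hy : R < ‖y‖
  · rw [hs y hy, norm_zero]
    exact le_max_right _ _
  · exact (hC y (by rw [mem_closedBall_zero_iff]; exact not_lt.1 hy)).trans (le_max_left _ _)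

theorem C.env_E {δ : ℝ} (hδ : 0 < δ) : Env (C.E0 δ) (2 * rad δ) ∧ Env (C.E1 δ) (2 * rad δ) ∧
    Env (C.E2 δ) (2 * rad δ) := by
  have hr : 0 < rad δ := C.rad_pos hδ
  have cp : Continuous (psi (hh δ) 0 0 0) := C.continuous_psi _ _ _ _
  obtain ⟨c0, cA, cB⟩ := c30_cont δ
  have k1 : Continuous fun y : P => C.f0 δ 0 y.1 := c0.comp continuous_fst
  have k2 : Continuous fun y : P => C.f0 δ 0 y.2 := c0.comp continuous_snd
  have k3 : Continuous fun y : P => C.gA δ y.1 := cA.comp continuous_fst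
  have k4 : Continuous fun y : P => C.gA δ y.2 := cA.comp continuous_snd
  have k5 : Continuous fun y : P => C.gB δ y.1 := cB.comp continuous_fst
  have k6 : Continuous fun y : P => C.gB δ y.2 := cB.comp continuous_snd
  refine ⟨c30_env (((k3.mul k2).add (k1.mul k4)).mul cp) fun y hy => ?_,
    c30_env ((k5.mul k2).mul cp) fun y hy => ?_, c30_env ((k1.mul k6).mul cp) fun y hy => ?_⟩
  all_goals
    rcases c30_big hy with h | h <;>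
      obtain ⟨z0, z1, z2⟩ := c30_zero hδ h
  · show (C.gA δ y.1 * C.f0 δ 0 y.2 + C.f0 δ 0 y.1 * C.gA δ y.2) * psi (hh δ) 0 0 0 y = 0
    rw [z0, z1]
    ring
  · show (C.gA δ y.1 * C.f0 δ 0 y.2 + C.f0 δ 0 y.1 * C.gA δ y.2) * psi (hh δ) 0 0 0 y = 0
    rw [z0, z1]
    ring
  · show C.gB δ y.1 * C.f0 δ 0 y.2 * psi (hh δ) 0 0 0 y = 0
    rw [z2]
    ring
  · show C.gB δ y.1 * C.f0 δ 0 y.2 * psi (hh δ) 0 0 0 y = 0
    rw [z0]
    ring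
  · show C.f0 δ 0 y.1 * C.gB δ y.2 * psi (hh δ) 0 0 0 y = 0
    rw [z0]
    ring
  · show C.f0 δ 0 y.1 * C.gB δ y.2 * psi (hh δ) 0 0 0 y = 0
    rw [z2]
    ring

/-- Proof: `g_le`, `f0_le`, `psi_mom` for `x = 0`, `T = 0`, `(h / r) ^ 2 ≤ h`. -/
theorem C.E_norm : ∃ K : ℝ, 0 ≤ K ∧ ∀ᶠ δ in 𝓝[>] (0 : ℝ),
    ∫ y, ‖C.E0 δ y‖ ^ 2 ≤ K * hh δ ^ 2 ∧ ∫ y, ‖C.E1 δ y‖ ^ 2 ≤ K * hh δ ∧
      ∫ y, ‖C.E2 δ y‖ ^ 2 ≤ K * hh δ := by
  obtain ⟨K, hK, hg⟩ := C.g_le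
  refine ⟨136 * K ^ 2, by positivity, ?_⟩
  filter_upwards [hg, C.ev_lt (c := 1 / 8) (by norm_num)] with δ hg hδ
  obtain ⟨h0, h01⟩ := hδ
  have hr : 0 < rad δ := C.rad_pos h0
  have hh0 : 0 < hh δ := C.hh_pos h0
  have hq : hh δ / rad δ ^ 2 ≤ 1 := c30_hr h0 h01
  have hq' : (hh δ / rad δ) ^ 2 ≤ hh δ := by
    calc (hh δ / rad δ) ^ 2 = hh δ * (hh δ / rad δ ^ 2) := by ring
      _ ≤ hh δ * 1 := by gcongr
      _ = hh δ := mul_one _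
  obtain ⟨i2, m2, i4, m4⟩ := C.psi_mom (T := 0) hh0 (0 : P) (0 : P) (s := 0) (by simp)
  have m0 := C.int_psi_sq hh0 (0 : P) (0 : P) 0
  have i0 : Integrable (fun y : P => ‖psi (hh δ) 0 0 0 y‖ ^ 2) volume :=
    (C.memLp_psi hh0 (0 : P) (0 : P) 0).integrable_norm_pow (by norm_num)
  have l1 : ∀ y : P, |y.1| ≤ dist y 0 := fun y => by
    rw [dist_zero_right, ← Real.norm_eq_abs]
    exact norm_fst_le y
  have l2 : ∀ y : P, |y.2| ≤ dist y 0 := fun y => by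
    rw [dist_zero_right, ← Real.norm_eq_abs]
    exact norm_snd_le y
  have q1 : ∀ y : P, y.1 ^ 2 ≤ dist y 0 ^ 2 := fun y => by
    rw [← sq_abs]
    exact pow_le_pow_left₀ (abs_nonneg _) (l1 y) 2
  have q2 : ∀ y : P, y.2 ^ 2 ≤ dist y 0 ^ 2 := fun y => by
    rw [← sq_abs]
    exact pow_le_pow_left₀ (abs_nonneg _) (l2 y) 2
  have b0 : ∀ y : P, ‖C.E0 δ y‖ ^ 2 ≤ 8 * K ^ 2 * (hh δ ^ 2 * ‖psi (hh δ) 0 0 0 y‖ ^ 2 +
      dist y 0 ^ 4 * ‖psi (hh δ) 0 0 0 y‖ ^ 2) := by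
    intro y
    have e1 : ‖C.gA δ y.1 * C.f0 δ 0 y.2 + C.f0 δ 0 y.1 * C.gA δ y.2‖ ≤
        2 * K * (hh δ + dist y 0 ^ 2) := by
      refine (norm_add_le _ _).trans ?_
      rw [norm_mul, norm_mul]
      have a1 : ‖C.gA δ y.1‖ * ‖C.f0 δ 0 y.2‖ ≤ K * (hh δ + dist y 0 ^ 2) * 1 := by
        refine mul_le_mul (((hg y.1).1).trans ?_) (C.f0_le δ 0 y.2) (norm_nonneg _)
          (by positivity)
        have := q1 y
        gcongr
      have a2 : ‖C.f0 δ 0 y.1‖ * ‖C.gA δ y.2‖ ≤ 1 * (K * (hh δ + dist y 0 ^ 2)) := by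
        refine mul_le_mul (C.f0_le δ 0 y.1) (((hg y.2).1).trans ?_) (norm_nonneg _)
          (by positivity)
        have := q2 y
        gcongr
      linarith
    unfold C.E0
    rw [norm_mul, mul_pow]
    have e2 : ‖C.gA δ y.1 * C.f0 δ 0 y.2 + C.f0 δ 0 y.1 * C.gA δ y.2‖ ^ 2 ≤
        8 * K ^ 2 * (hh δ ^ 2 + dist y 0 ^ 4) := by
      refine (pow_le_pow_left₀ (norm_nonneg _) e1 2).trans ?_
      have a3 : 8 * K ^ 2 * (hh δ ^ 2 + dist y 0 ^ 4) -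
          (2 * K * (hh δ + dist y 0 ^ 2)) ^ 2 = (2 * K * (hh δ - dist y 0 ^ 2)) ^ 2 := by ring
      have a4 : 0 ≤ (2 * K * (hh δ - dist y 0 ^ 2)) ^ 2 := sq_nonneg _
      linarith
    calc _ ≤ 8 * K ^ 2 * (hh δ ^ 2 + dist y 0 ^ 4) * ‖psi (hh δ) 0 0 0 y‖ ^ 2 := by gcongr
      _ = _ := by ring
  have b1 : ∀ (y : P) (u v : ℂ), ‖u‖ ≤ K * (hh δ / rad δ + dist y 0) → ‖v‖ ≤ 1 →
      ‖u * v * psi (hh δ) 0 0 0 y‖ ^ 2 ≤ 2 * K ^ 2 * (hh δ * ‖psi (hh δ) 0 0 0 y‖ ^ 2 +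
      dist y 0 ^ 2 * ‖psi (hh δ) 0 0 0 y‖ ^ 2) := by
    intro y u v hu hv
    rw [norm_mul, norm_mul, mul_pow]
    have e2 : (‖u‖ * ‖v‖) ^ 2 ≤ 2 * K ^ 2 * (hh δ + dist y 0 ^ 2) := by
      have e3 : ‖u‖ * ‖v‖ ≤ K * (hh δ / rad δ + dist y 0) * 1 :=
        mul_le_mul hu hv (norm_nonneg _) (by positivity)
      refine (pow_le_pow_left₀ (by positivity) e3 2).trans ?_
      have a3 : 2 * K ^ 2 * ((hh δ / rad δ) ^ 2 + dist y 0 ^ 2) -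
          (K * (hh δ / rad δ + dist y 0) * 1) ^ 2 =
            (K * (hh δ / rad δ - dist y 0)) ^ 2 := by ring
      have a4 : 0 ≤ (K * (hh δ / rad δ - dist y 0)) ^ 2 := sq_nonneg _
      have a5 : 2 * K ^ 2 * ((hh δ / rad δ) ^ 2 + dist y 0 ^ 2) ≤
          2 * K ^ 2 * (hh δ + dist y 0 ^ 2) := by gcongr
      linarith
    calc _ ≤ 2 * K ^ 2 * (hh δ + dist y 0 ^ 2) * ‖psi (hh δ) 0 0 0 y‖ ^ 2 := by gcongr
      _ = _ := by ring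
  have i0' : Integrable (fun y : P => hh δ ^ 2 * ‖psi (hh δ) 0 0 0 y‖ ^ 2) volume :=
    i0.const_mul _
  have i0'' : Integrable (fun y : P => hh δ * ‖psi (hh δ) 0 0 0 y‖ ^ 2) volume :=
    i0.const_mul _
  have t4 : ∫ y : P, 8 * K ^ 2 * (hh δ ^ 2 * ‖psi (hh δ) 0 0 0 y‖ ^ 2 +
      dist y 0 ^ 4 * ‖psi (hh δ) 0 0 0 y‖ ^ 2) ≤ 136 * K ^ 2 * hh δ ^ 2 := by
    rw [integral_const_mul, integral_add i0' i4, integral_const_mul, m0]
    have m4' : ∫ y : P, dist y 0 ^ 4 * ‖psi (hh δ) 0 0 0 y‖ ^ 2 ≤ 16 * hh δ ^ 2 :=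
      m4.trans (le_of_eq (by ring))
    have m5 := mul_le_mul_of_nonneg_left m4' (show 0 ≤ 8 * K ^ 2 by positivity)
    linarith
  have t2 : ∫ y : P, 2 * K ^ 2 * (hh δ * ‖psi (hh δ) 0 0 0 y‖ ^ 2 +
      dist y 0 ^ 2 * ‖psi (hh δ) 0 0 0 y‖ ^ 2) ≤ 136 * K ^ 2 * hh δ := by
    rw [integral_const_mul, integral_add i0'' i2, integral_const_mul, m0]
    have m2' : ∫ y : P, dist y 0 ^ 2 * ‖psi (hh δ) 0 0 0 y‖ ^ 2 ≤ 4 * hh δ :=
      m2.trans (le_of_eq (by ring))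
    have m3 := mul_le_mul_of_nonneg_left m2' (show 0 ≤ 2 * K ^ 2 by positivity)
    have m6 : 0 ≤ K ^ 2 * hh δ := mul_nonneg (sq_nonneg K) hh0.le
    linarith
  refine ⟨?_, ?_, ?_⟩
  · exact (integral_mono_of_nonneg (ae_of_all _ fun y => by positivity)
      ((i0'.add i4).const_mul _) (ae_of_all _ b0)).trans t4
  · refine (integral_mono_of_nonneg (ae_of_all _ fun y => by positivity)
      ((i0''.add i2).const_mul _) (ae_of_all _ fun y => ?_)).trans t2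
    refine b1 y _ _ (((hg y.1).2.1).trans ?_) (C.f0_le δ 0 y.2)
    have := l1 y
    gcongr
  · refine (integral_mono_of_nonneg (ae_of_all _ fun y => by positivity)
      ((i0''.add i2).const_mul _) (ae_of_all _ fun y => ?_)).trans t2
    show ‖C.f0 δ 0 y.1 * C.gB δ y.2 * psi (hh δ) 0 0 0 y‖ ^ 2 ≤ _
    rw [mul_comm (C.f0 δ 0 y.1)]
    refine b1 y _ _ (((hg y.2).2.1).trans ?_) (C.f0_le δ 0 y.1)
    have := l2 y
    gcongr

/-- Proof: `psic_pr`, `ham_pr`, `opN_f0`, and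
`psi h x ξ 0 y = psi h 0 0 0 (y - x) * exp (i ξ·(y - x) / h)`. -/
theorem C.ham_psic {δ : ℝ} (hδ : 0 < δ) (x ξ y : P) :
    -(hh δ : ℂ) ^ 2 * Lap (psic δ x ξ 0) y - ((sq ξ : ℝ) : ℂ) * psic δ x ξ 0 y =
      (C.E0 δ (y - x) + (ξ.1 : ℂ) * C.E1 δ (y - x) + (ξ.2 : ℂ) * C.E2 δ (y - x)) *
        Complex.exp ((dot ξ (y - x) / hh δ : ℝ) * Complex.I) := by
  have hh0 : 0 < hh δ := C.hh_pos hδ
  have e0 : psic δ x ξ 0 = C.pr (hh δ) 0 x ξ (C.f0 δ x.1) (C.f0 δ x.2) :=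
    funext fun y => C.psic_pr δ x ξ 0 y
  rw [e0, C.ham_pr hh0 0 x ξ (C.contDiff_f0 δ x.1) (C.contDiff_f0 δ x.2) y]
  have e1 : C.opN (hh δ) 0 ξ.1 x.1 (C.f0 δ x.1) y.1 =
      C.gA δ (y.1 - x.1) + (ξ.1 : ℂ) * C.gB δ (y.1 - x.1) := C.opN_f0 δ ξ.1 x.1 y.1
  have e2 : C.opN (hh δ) 0 ξ.2 x.2 (C.f0 δ x.2) y.2 =
      C.gA δ (y.2 - x.2) + (ξ.2 : ℂ) * C.gB δ (y.2 - x.2) := C.opN_f0 δ ξ.2 x.2 y.2
  have e3 : psi (hh δ) x ξ 0 y = psi (hh δ) 0 0 0 (y - x) *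
      Complex.exp ((dot ξ (y - x) / hh δ : ℝ) * Complex.I) := by
    unfold psi
    rw [mul_assoc (((1 / Real.sqrt (Real.pi * hh δ) : ℝ) : ℂ) * beta 0) _ _, ← Complex.exp_add]
    congr 2
    have d0 : dot 0 (y - x - 0) = 0 := by
      unfold dot
      simp
    rw [d0, sub_zero, zero_div]
    push_cast
    ring
  unfold C.pr
  rw [e1, e2, e3, c30_f0 δ x.1, c30_f0 δ x.2]
  unfold C.E0 C.E1 C.E2
  rw [Prod.fst_sub, Prod.snd_sub]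
  ring

/-- `(H - |ξ|²) v` is a combination of families.

Proof. As in `energy`: `co_fold_lap`, `ham_psic`, `fold_add`, `fold_smul`, linearity of
`S.co k` (`memLp_env`, `memLp_fold`), `env_E`, `E_norm`. -/
theorem ham_fam (S : Spec D) (G : Geo D) : ∃ C : ℝ, ∀ᶠ δ in 𝓝[>] (0 : ℝ),
    ∃ E₀ E₁ E₂ : P → ℂ, Env E₀ (2 * rad δ) ∧ Env E₁ (2 * rad δ) ∧ Env E₂ (2 * rad δ) ∧
      ∫ y, ‖E₀ y‖ ^ 2 ≤ C * hh δ ^ 2 ∧ ∫ y, ‖E₁ y‖ ^ 2 ≤ C * hh δ ∧ ∫ y, ‖E₂ y‖ ^ 2 ≤ C * hh δ ∧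
      ∀ W : Walls G (th δ / 4), ∀ x ∈ G.Y δ, ∀ (ξ : P) (k : ℕ),
        ((hh δ ^ 2 * S.lam k - sq ξ : ℝ) : ℂ) * S.co k (W.v δ (x, ξ) 0) =
          S.co k (cls D (W.fam (-1) (-1) E₀ (hh δ) x ξ)) +
          (ξ.1 : ℂ) * S.co k (cls D (W.fam (-1) (-1) E₁ (hh δ) x ξ)) +
          (ξ.2 : ℂ) * S.co k (cls D (W.fam (-1) (-1) E₂ (hh δ) x ξ)) := by
  obtain ⟨K, hK, hN⟩ := C.E_norm
  refine ⟨K, ?_⟩
  filter_upwards [hN, C.ev_geo G] with δ hN hδ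
  have h0 : 0 < δ := hδ.1
  have hr : 0 < rad δ := C.rad_pos h0
  have hh0 : 0 < hh δ := C.hh_pos h0
  have ht0 : 0 < th δ := C.th_pos h0
  obtain ⟨r1, r2, r3⟩ := C.tau_rad δ
  obtain ⟨E0, E1, E2⟩ := C.env_E h0
  refine ⟨C.E0 δ, C.E1 δ, C.E2 δ, E0, E1, E2, hN.1, hN.2.1, hN.2.2, ?_⟩
  intro W x hx ξ k
  have hfar : G.Far (th δ / 4) x := fun v hv => by
    have h2 := hx.2 v hv
    linarith
  have hF := co_fold_lap S (ρ := th δ / 4) (R := 2 * rad δ) (by linarith)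
    hδ.2.2.1 (by linarith) (by linarith) W hx.1 hfar (C.contDiff_psic δ x ξ 0)
    (fun y hy => C.psic_zero h0 x ξ 0 hy) k
  have hne : (hh δ : ℂ) ≠ 0 := by exact_mod_cast hh0.ne'
  have M := C.memLp_psic h0 x ξ 0
  have M0 := C.memLp_env E0 (hh δ) x ξ
  have M1 := C.memLp_env E1 (hh δ) x ξ
  have M2 := C.memLp_env E2 (hh δ) x ξ
  set H0 : P → ℂ := fun y => C.E0 δ (y - x) *
    Complex.exp ((dot ξ (y - x) / hh δ : ℝ) * Complex.I) with hH0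
  set H1 : P → ℂ := fun y => C.E1 δ (y - x) *
    Complex.exp ((dot ξ (y - x) / hh δ : ℝ) * Complex.I) with hH1
  set H2 : P → ℂ := fun y => C.E2 δ (y - x) *
    Complex.exp ((dot ξ (y - x) / hh δ : ℝ) * Complex.I) with hH2
  have eL : Lap (psic δ x ξ 0) = fun y => (-1 / (hh δ : ℂ) ^ 2) *
      ((H0 y + (ξ.1 : ℂ) * H1 y) + ((ξ.2 : ℂ) * H2 y + ((sq ξ : ℝ) : ℂ) * psic δ x ξ 0 y)) := by
    funext y
    have h1 := C.ham_psic h0 x ξ y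
    have h2 : (H0 y + (ξ.1 : ℂ) * H1 y) + ((ξ.2 : ℂ) * H2 y +
        ((sq ξ : ℝ) : ℂ) * psic δ x ξ 0 y) = -(hh δ : ℂ) ^ 2 * Lap (psic δ x ξ 0) y := by
      rw [hH0, hH1, hH2]
      linear_combination -h1
    rw [h2]
    field_simp
  have m0 := memLp_fold W (-1) (-1) x M0
  have m1 := memLp_fold W (-1) (-1) x M1
  have m2 := memLp_fold W (-1) (-1) x M2
  have m := memLp_fold W (-1) (-1) x M
  have eF : W.fold (-1) (-1) x (Lap (psic δ x ξ 0)) = fun q => (-1 / (hh δ : ℂ) ^ 2) *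
      ((W.fold (-1) (-1) x H0 q + (ξ.1 : ℂ) * W.fold (-1) (-1) x H1 q) +
        ((ξ.2 : ℂ) * W.fold (-1) (-1) x H2 q +
          ((sq ξ : ℝ) : ℂ) * W.fold (-1) (-1) x (psic δ x ξ 0) q)) := by
    funext q
    rw [eL, C.fold_smul, C.fold_add, C.fold_add, C.fold_add, C.fold_smul, C.fold_smul,
      C.fold_smul]
  have a1 := m1.const_mul (ξ.1 : ℂ)
  have a2 := m2.const_mul (ξ.2 : ℂ)
  have a3 := m.const_mul ((sq ξ : ℝ) : ℂ)
  have b1 : MemLp (fun q => W.fold (-1) (-1) x H0 q + (ξ.1 : ℂ) * W.fold (-1) (-1) x H1 q) 2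
      (volume.restrict D) := m0.add a1
  have b2 : MemLp (fun q => (ξ.2 : ℂ) * W.fold (-1) (-1) x H2 q +
      ((sq ξ : ℝ) : ℂ) * W.fold (-1) (-1) x (psic δ x ξ 0) q) 2
      (volume.restrict D) := a2.add a3
  have b3 : MemLp (fun q => (W.fold (-1) (-1) x H0 q + (ξ.1 : ℂ) * W.fold (-1) (-1) x H1 q) +
      ((ξ.2 : ℂ) * W.fold (-1) (-1) x H2 q +
        ((sq ξ : ℝ) : ℂ) * W.fold (-1) (-1) x (psic δ x ξ 0) q)) 2
      (volume.restrict D) := b1.add b2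
  have eC : cls D (W.fold (-1) (-1) x (Lap (psic δ x ξ 0))) = (-1 / (hh δ : ℂ) ^ 2) •
      ((cls D (W.fold (-1) (-1) x H0) + (ξ.1 : ℂ) • cls D (W.fold (-1) (-1) x H1)) +
        ((ξ.2 : ℂ) • cls D (W.fold (-1) (-1) x H2) +
          ((sq ξ : ℝ) : ℂ) • cls D (W.fold (-1) (-1) x (psic δ x ξ 0)))) := by
    rw [eF, C.cls_smul _ b3, C.cls_add b1 b2,
      C.cls_add m0 a1, C.cls_add a2 a3, C.cls_smul _ m1, C.cls_smul _ m2, C.cls_smul _ m]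
  rw [eC, co_smul, co_add, co_add, co_add, co_smul, co_smul, co_smul] at hF
  show ((hh δ ^ 2 * S.lam k - sq ξ : ℝ) : ℂ) *
      S.co k (cls D (W.fold (-1) (-1) x (psic δ x ξ 0))) =
    S.co k (cls D (W.fold (-1) (-1) x H0)) + (ξ.1 : ℂ) * S.co k (cls D (W.fold (-1) (-1) x H1)) +
      (ξ.2 : ℂ) * S.co k (cls D (W.fold (-1) (-1) x H2))
  have h3 : (-1 / (hh δ : ℂ) ^ 2) * (hh δ : ℂ) ^ 2 = -1 := by field_simp
  push_cast
  linear_combination ((hh δ : ℂ) ^ 2) * hF - (S.co k (cls D (W.fold (-1) (-1) x H0)) +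
    (ξ.1 : ℂ) * S.co k (cls D (W.fold (-1) (-1) x H1)) +
      ((ξ.2 : ℂ) * S.co k (cls D (W.fold (-1) (-1) x H2)) +
        ((sq ξ : ℝ) : ℂ) * S.co k (cls D (W.fold (-1) (-1) x (psic δ x ξ 0))))) * h3

end

end Pool.Agent.MP4eed4eR
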