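import Pool.Agent.Lib.MP_4eed4e_an_R.B01
import Pool.Agent.Lib.MP_4eed4e_an_R.Base3

/-!
MP_4eed4e_an, project R, module D01: linear combinations in `H10`; support.
-/

namespace Pool.Agent.MP4eed4eR

open MeasureTheory Set Filter Topology Metric
open scoped ContDiff

noncomputable section

variable {D : Set P}

/-- A test function with its partial derivatives: smooth, compactly supported, square integrable,
zero off `D`. Proof: `d1 φ q = fderiv ℝ φ q (1, 0)`; `ContDiff.fderiv_right`,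
`HasCompactSupport.fderiv`, `Continuous.memLp_of_hasCompactSupport`; off `D` a point does not
belong to `tsupport φ`, so `φ q = 0` and `fderiv ℝ φ q = 0` (`image_eq_zero_of_notMem_tsupport`,
`support_fderiv_subset`). -/
theorem test_facts {φ : P → ℝ} (h : Test D φ) :
    (ContDiff ℝ ∞ (d1 φ) ∧ ContDiff ℝ ∞ (d2 φ)) ∧
    (HasCompactSupport (d1 φ) ∧ HasCompactSupport (d2 φ)) ∧
    (MemLp φ 2 volume ∧ MemLp (d1 φ) 2 volume ∧ MemLp (d2 φ) 2 volume) ∧
    ∀ q, q ∉ D → φ q = 0 ∧ d1 φ q = 0 ∧ d2 φ q = 0 := by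
  have h1 : ContDiff ℝ ∞ (fderiv ℝ φ) := h.smooth.fderiv_right (by simp)
  have s1 : ContDiff ℝ ∞ (d1 φ) := h1.clm_apply contDiff_const
  have s2 : ContDiff ℝ ∞ (d2 φ) := h1.clm_apply contDiff_const
  have c0 := h.compact.fderiv ℝ
  have c1 : HasCompactSupport (d1 φ) :=
    c0.comp_left (g := fun L : P →L[ℝ] ℝ => L ((1, 0) : P)) rfl
  have c2 : HasCompactSupport (d2 φ) :=
    c0.comp_left (g := fun L : P →L[ℝ] ℝ => L ((0, 1) : P)) rfl
  refine ⟨⟨s1, s2⟩, ⟨c1, c2⟩, ⟨h.smooth.continuous.memLp_of_hasCompactSupport h.compact,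
    s1.continuous.memLp_of_hasCompactSupport c1, s2.continuous.memLp_of_hasCompactSupport c2⟩,
    fun q hq => ?_⟩
  have hq' : q ∉ tsupport φ := fun hh => hq (h.supp hh)
  have h2 : fderiv ℝ φ q = 0 := fderiv_of_notMem_tsupport ℝ hq'
  refine ⟨image_eq_zero_of_notMem_tsupport hq', ?_, ?_⟩
  · rw [d1, h2]
    rfl
  · rw [d2, h2]
    rfl

private theorem inner_eq {f g : P → ℝ} (hf : MemLp f 2 volume) (hg : MemLp g 2 volume) :
    inner ℝ (hf.toLp f) (hg.toLp g) = ∫ q, f q * g q := by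
  rw [L2.inner_def]
  refine integral_congr_ae ?_
  filter_upwards [hf.coeFn_toLp, hg.coeFn_toLp] with q h1 h2
  rw [h1, h2]
  exact mul_comm _ _

private theorem toLp_tendsto {φ : ℕ → P → ℝ} {u : P → ℝ} (hφ : ∀ n, MemLp (φ n) 2 volume)
    (hu : MemLp u 2 volume) (h : Tendsto (fun n => ∫ q, (φ n q - u q) ^ 2) atTop (𝓝 0)) :
    Tendsto (fun n => (hφ n).toLp (φ n)) atTop (𝓝 (hu.toLp u)) := by
  rw [tendsto_iff_norm_sub_tendsto_zero]
  have h1 : ∀ n, ‖(hφ n).toLp (φ n) - hu.toLp u‖ = Real.sqrt (∫ q, (φ n q - u q) ^ 2) := by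
    intro n
    have h2 : ‖(hφ n).toLp (φ n) - hu.toLp u‖ ^ 2 = ∫ q, (φ n q - u q) ^ 2 := by
      rw [← real_inner_self_eq_norm_sq, ← MemLp.toLp_sub, inner_eq]
      refine integral_congr_ae (ae_of_all _ fun q => ?_)
      simp only [Pi.sub_apply]
      ring
    rw [← h2, Real.sqrt_sq (norm_nonneg _)]
  simp only [h1]
  have h3 := (Real.continuous_sqrt.tendsto 0).comp h
  rw [Real.sqrt_zero] at h3
  exact h3

/-- Squares of differences: if `∫ (φ n - u) ^ 2 → 0` then `φ n → u` in `L²`; used in the form of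
the continuity of the scalar product. Proof: `|∫ φ n * g - ∫ u * g|² ≤ ∫ (φ n - u)² * ∫ g²`
(Cauchy-Schwarz, for example `integral_mul_le_Lp_mul_Lq_of_nonneg` with exponents `2`, `2`, or
`0 ≤ ∫ (ε⁻¹ a - ε b)²`). -/
theorem l2_lim {φ : ℕ → P → ℝ} {u g : P → ℝ} (hφ : ∀ n, MemLp (φ n) 2 volume)
    (hu : MemLp u 2 volume) (hg : MemLp g 2 volume)
    (h : Tendsto (fun n => ∫ q, (φ n q - u q) ^ 2) atTop (𝓝 0)) :
    Tendsto (fun n => ∫ q, φ n q * g q) atTop (𝓝 (∫ q, u q * g q)) := by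
  have h1 := (toLp_tendsto hφ hu h).inner (tendsto_const_nhds (x := hg.toLp g)) (𝕜 := ℝ)
  simp only [inner_eq] at h1
  exact h1

/-- The continuity of products in `L¹`. Proof: `a n * b n - a' * b' = (a n - a') * b n +
a' * (b n - b')`; the second term by `l2_lim`; the first one by Cauchy-Schwarz, and
`∫ (b n)² ≤ 2 ∫ (b n - b')² + 2 ∫ b'²` is bounded. -/
theorem l2_lim2 {a b : ℕ → P → ℝ} {a' b' : P → ℝ} (ha : ∀ n, MemLp (a n) 2 volume)
    (hb : ∀ n, MemLp (b n) 2 volume) (ha' : MemLp a' 2 volume) (hb' : MemLp b' 2 volume)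
    (h1 : Tendsto (fun n => ∫ q, (a n q - a' q) ^ 2) atTop (𝓝 0))
    (h2 : Tendsto (fun n => ∫ q, (b n q - b' q) ^ 2) atTop (𝓝 0)) :
    Tendsto (fun n => ∫ q, a n q * b n q) atTop (𝓝 (∫ q, a' q * b' q)) := by
  have h3 := (toLp_tendsto ha ha' h1).inner (toLp_tendsto hb hb' h2) (𝕜 := ℝ)
  simp only [inner_eq] at h3
  exact h3

private theorem test_comb {φ ψ : P → ℝ} (a b : ℝ) (h1 : Test D φ) (h2 : Test D ψ) :
    Test D (fun q => a * φ q + b * ψ q) ∧
      (∀ q, d1 (fun q => a * φ q + b * ψ q) q = a * d1 φ q + b * d1 ψ q) ∧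
      ∀ q, d2 (fun q => a * φ q + b * ψ q) q = a * d2 φ q + b * d2 ψ q := by
  have hK : IsCompact (tsupport φ ∪ tsupport ψ) := h1.compact.isCompact.union h2.compact.isCompact
  have h0 : ∀ q, q ∉ tsupport φ ∪ tsupport ψ → a * φ q + b * ψ q = 0 := by
    intro q hq
    rw [image_eq_zero_of_notMem_tsupport fun hh => hq (Or.inl hh),
      image_eq_zero_of_notMem_tsupport fun hh => hq (Or.inr hh)]
    ring
  have hfd : ∀ q, fderiv ℝ (fun q => a * φ q + b * ψ q) q =
      a • fderiv ℝ φ q + b • fderiv ℝ ψ q := by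
    intro q
    have e1 : DifferentiableAt ℝ φ q := (h1.smooth.differentiable (by simp)) q
    have e2 : DifferentiableAt ℝ ψ q := (h2.smooth.differentiable (by simp)) q
    exact ((e1.hasFDerivAt.const_mul a).add (e2.hasFDerivAt.const_mul b)).fderiv
  refine ⟨⟨?_, HasCompactSupport.intro hK h0, ?_⟩, fun q => ?_, fun q => ?_⟩
  · exact (contDiff_const.mul h1.smooth).add (contDiff_const.mul h2.smooth)
  · refine closure_minimal ?_ hK.isClosed |>.trans (union_subset h1.supp h2.supp)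
    intro q hq
    by_contra hcon
    exact hq (h0 q hcon)
  · rw [d1, hfd]
    rfl
  · rw [d2, hfd]
    rfl

private theorem lin_lim {f g : ℕ → P → ℝ} {u v : P → ℝ} (a b : ℝ)
    (hf : ∀ n, MemLp (f n) 2 volume) (hg : ∀ n, MemLp (g n) 2 volume) (hu : MemLp u 2 volume)
    (hv : MemLp v 2 volume) (h1 : Tendsto (fun n => ∫ q, (f n q - u q) ^ 2) atTop (𝓝 0))
    (h2 : Tendsto (fun n => ∫ q, (g n q - v q) ^ 2) atTop (𝓝 0)) :
    Tendsto (fun n => ∫ q, ((a * f n q + b * g n q) - (a * u q + b * v q)) ^ 2) atTop (𝓝 0) := by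
  have h3 := (h1.const_mul (2 * a ^ 2)).add (h2.const_mul (2 * b ^ 2))
  rw [mul_zero, mul_zero, add_zero] at h3
  refine squeeze_zero (fun n => integral_nonneg fun q => sq_nonneg _) (fun n => ?_) h3
  have i1 : Integrable fun q => (f n q - u q) ^ 2 := ((hf n).sub hu).integrable_sq
  have i2 : Integrable fun q => (g n q - v q) ^ 2 := ((hg n).sub hv).integrable_sq
  rw [← integral_const_mul, ← integral_const_mul, ← integral_add (i1.const_mul _) (i2.const_mul _)]
  refine integral_mono_of_nonneg (ae_of_all _ fun q => sq_nonneg _)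
    ((i1.const_mul _).add (i2.const_mul _)) (ae_of_all _ fun q => ?_)
  simp only
  nlinarith [sq_nonneg (a * (f n q - u q) - b * (g n q - v q))]

/-- The zero function. -/
theorem h10_zero_fn : H10 D (fun _ => 0) (fun _ => 0) (fun _ => 0) := by
  have hm : MemLp (fun _ : P => (0 : ℝ)) 2 volume := MemLp.zero'
  have ht : Test D (fun _ : P => (0 : ℝ)) := by
    refine ⟨contDiff_const, HasCompactSupport.zero, ?_⟩
    have : tsupport (fun _ : P => (0 : ℝ)) = ∅ := tsupport_eq_empty_iff.2 rfl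
    rw [this]
    exact empty_subset _
  have e1 : ∀ q : P, d1 (fun _ : P => (0 : ℝ)) q = 0 := by
    intro q
    rw [d1, fderiv_const_apply]
    rfl
  have e2 : ∀ q : P, d2 (fun _ : P => (0 : ℝ)) q = 0 := by
    intro q
    rw [d2, fderiv_const_apply]
    rfl
  refine ⟨hm, hm, hm, fun _ _ => 0, fun _ => ht, ?_, ?_, ?_⟩
  · simp
  · simp [e1]
  · simp [e2]

/-- Proof: `a • φ n + b • ψ n`, `(x + y)² ≤ 2 x² + 2 y²`. -/
theorem h10_lin {u u₁ u₂ v v₁ v₂ : P → ℝ} (a b : ℝ) (hu : H10 D u u₁ u₂) (hv : H10 D v v₁ v₂) :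
    H10 D (fun q => a * u q + b * v q) (fun q => a * u₁ q + b * v₁ q)
      (fun q => a * u₂ q + b * v₂ q) := by
  obtain ⟨φ, hφ, a0, a1, a2⟩ := hu.approx
  obtain ⟨ψ, hψ, b0, b1, b2⟩ := hv.approx
  refine ⟨(hu.mem.const_mul a).add (hv.mem.const_mul b),
    (hu.mem₁.const_mul a).add (hv.mem₁.const_mul b),
    (hu.mem₂.const_mul a).add (hv.mem₂.const_mul b),
    fun n q => a * φ n q + b * ψ n q, fun n => (test_comb a b (hφ n) (hψ n)).1, ?_, ?_, ?_⟩
  · exact lin_lim a b (fun n => (test_facts (hφ n)).2.2.1.1) (fun n => (test_facts (hψ n)).2.2.1.1)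
      hu.mem hv.mem a0 b0
  · simp only [fun n => (test_comb a b (hφ n) (hψ n)).2.1]
    exact lin_lim a b (fun n => (test_facts (hφ n)).2.2.1.2.1)
      (fun n => (test_facts (hψ n)).2.2.1.2.1) hu.mem₁ hv.mem₁ a1 b1
  · simp only [fun n => (test_comb a b (hφ n) (hψ n)).2.2]
    exact lin_lim a b (fun n => (test_facts (hφ n)).2.2.1.2.2)
      (fun n => (test_facts (hψ n)).2.2.1.2.2) hu.mem₂ hv.mem₂ a2 b2

private theorem zero_off (hD : IsOpen D) {f : ℕ → P → ℝ} {w : P → ℝ}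
    (hf : ∀ n, MemLp (f n) 2 volume) (hw : MemLp w 2 volume)
    (h : Tendsto (fun n => ∫ q, (f n q - w q) ^ 2) atTop (𝓝 0))
    (h0 : ∀ n q, q ∉ D → f n q = 0) : ∀ᵐ q ∂volume, q ∉ D → w q = 0 := by
  have hm : MeasurableSet Dᶜ := hD.measurableSet.compl
  have h1 : ∫ q in Dᶜ, w q ^ 2 = 0 := by
    refine le_antisymm ?_ (integral_nonneg fun q => sq_nonneg _)
    refine ge_of_tendsto' h fun n => ?_
    have h2 : ∫ q in Dᶜ, w q ^ 2 = ∫ q in Dᶜ, (f n q - w q) ^ 2 := by
      refine setIntegral_congr_fun hm fun q hq => ?_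
      show w q ^ 2 = (f n q - w q) ^ 2
      rw [h0 n q hq]
      ring
    rw [h2]
    exact setIntegral_le_integral ((hf n).sub hw).integrable_sq (ae_of_all _ fun q => sq_nonneg _)
  rw [setIntegral_eq_zero_iff_of_nonneg_ae (ae_of_all _ fun q => sq_nonneg _)
    hw.integrable_sq.integrableOn] at h1
  have h2 := (ae_restrict_iff' hm).1 h1
  filter_upwards [h2] with q hq hqD
  exact pow_eq_zero_iff (two_ne_zero) |>.1 (hq hqD)

/-- A function of `H¹₀(D)` vanishes off `D` with its gradient. Proof: for the approximations `φ n`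
we have `∫_{Dᶜ} u² = ∫_{Dᶜ} (φ n - u)² ≤ ∫ (φ n - u)² → 0` (`test_facts`), so `∫_{Dᶜ} u² = 0`
(`setIntegral_eq_zero_iff_of_nonneg_ae` or `integral_eq_zero_iff_of_nonneg`), and the same for the
derivatives. -/
theorem h10_zero (hD : IsOpen D) {u u₁ u₂ : P → ℝ} (h : H10 D u u₁ u₂) :
    (∀ᵐ q ∂volume, q ∉ D → u q = 0) ∧ (∀ᵐ q ∂volume, q ∉ D → u₁ q = 0) ∧
      ∀ᵐ q ∂volume, q ∉ D → u₂ q = 0 := by
  obtain ⟨φ, hφ, a0, a1, a2⟩ := h.approx
  exact ⟨zero_off hD (fun n => (test_facts (hφ n)).2.2.1.1) h.mem a0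
      fun n q hq => ((test_facts (hφ n)).2.2.2 q hq).1,
    zero_off hD (fun n => (test_facts (hφ n)).2.2.1.2.1) h.mem₁ a1
      fun n q hq => ((test_facts (hφ n)).2.2.2 q hq).2.1,
    zero_off hD (fun n => (test_facts (hφ n)).2.2.1.2.2) h.mem₂ a2
      fun n q hq => ((test_facts (hφ n)).2.2.2 q hq).2.2⟩

private theorem mul_int {f g : P → ℝ} (hf : MemLp f 2 volume) (hg : MemLp g 2 volume) :
    Integrable fun q => f q * g q := hf.integrable_mul hg

/-- Proof: linearity of the weak equation. -/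
theorem dom_lin {u u₁ u₂ f v v₁ v₂ g : P → ℝ} (a b : ℝ) (hu : Dom D u u₁ u₂ f)
    (hv : Dom D v v₁ v₂ g) :
    Dom D (fun q => a * u q + b * v q) (fun q => a * u₁ q + b * v₁ q)
      (fun q => a * u₂ q + b * v₂ q) (fun q => a * f q + b * g q) := by
  refine ⟨h10_lin a b hu.h10 hv.h10, (hu.mem.const_mul a).add (hv.mem.const_mul b),
    fun φ hφ => ?_⟩
  obtain ⟨-, -, ⟨m0, m1, m2⟩, -⟩ := test_facts hφ
  have e1 := hu.weak φ hφ
  have e2 := hv.weak φ hφ
  have i1 : Integrable fun q => u₁ q * d1 φ q + u₂ q * d2 φ q :=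
    (mul_int hu.h10.mem₁ m1).add (mul_int hu.h10.mem₂ m2)
  have i2 : Integrable fun q => v₁ q * d1 φ q + v₂ q * d2 φ q :=
    (mul_int hv.h10.mem₁ m1).add (mul_int hv.h10.mem₂ m2)
  calc ∫ q, ((a * u₁ q + b * v₁ q) * d1 φ q + (a * u₂ q + b * v₂ q) * d2 φ q)
      = ∫ q, (a * (u₁ q * d1 φ q + u₂ q * d2 φ q) + b * (v₁ q * d1 φ q + v₂ q * d2 φ q)) := by
        congr 1
        funext q
        ring
    _ = (a * ∫ q, f q * φ q) + b * ∫ q, g q * φ q := by
        rw [integral_add (i1.const_mul a) (i2.const_mul b), integral_const_mul,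
          integral_const_mul, e1, e2]
    _ = ∫ q, (a * (f q * φ q) + b * (g q * φ q)) := by
        rw [integral_add ((mul_int hu.mem m0).const_mul a) ((mul_int hv.mem m0).const_mul b),
          integral_const_mul, integral_const_mul]
    _ = ∫ q, (a * f q + b * g q) * φ q := by
        congr 1
        funext q
        ring

/-- The eigenfunctions belong to the domain; finite real combinations too. Proof: induction on the
finite set, `dom_lin`, `h10_zero_fn`. -/
theorem dom_sum (S : Spec D) (s : Finset ℕ) (a : ℕ → ℝ) :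
    Dom D (fun q => ∑ k ∈ s, a k * S.u k q) (fun q => ∑ k ∈ s, a k * S.u₁ k q)
      (fun q => ∑ k ∈ s, a k * S.u₂ k q) (fun q => ∑ k ∈ s, a k * (S.lam k * S.u k q)) := by
  classical
  have hk : ∀ k, Dom D (S.u k) (S.u₁ k) (S.u₂ k) (fun q => S.lam k * S.u k q) := by
    intro k
    refine ⟨S.h10 k, (S.h10 k).mem.const_mul _, fun φ hφ => ?_⟩
    rw [S.weak k φ hφ, ← integral_const_mul]
    congr 1
    funext q
    ring
  induction s using Finset.induction_on with
  | empty =>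
    simp only [Finset.sum_empty]
    exact ⟨h10_zero_fn, MemLp.zero', fun φ _ => by simp⟩
  | insert i s hi ih =>
    simp only [Finset.sum_insert hi]
    have h1 := dom_lin (a i) 1 (hk i) ih
    simp only [one_mul] at h1
    exact h1

end

end Pool.Agent.MP4eed4eR
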