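import Pool.Agent.Lib.MP_4eed4e_an_R.D01

/-!
MP_4eed4e_an, project R, module D02: multiplication by smooth functions, the weak equation for
test functions in `H¹₀(D)`, the flux identity.
-/

namespace Pool.Agent.MP4eed4eR

open MeasureTheory Set Filter Topology Metric
open scoped ContDiff

noncomputable section

variable {D : Set P}

private theorem D02_cont {η : P → ℝ} (h : ContDiff ℝ ∞ η) :
    Continuous (d1 η) ∧ Continuous (d2 η) := by
  have h1 : Continuous (fderiv ℝ η) := h.continuous_fderiv (by simp)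
  exact ⟨h1.clm_apply continuous_const, h1.clm_apply continuous_const⟩

private theorem D02_bm {η g : P → ℝ} {C : ℝ} (hη : Continuous η) (hb : ∀ q, |η q| ≤ C)
    (hg : MemLp g 2 volume) : MemLp (fun q => η q * g q) 2 volume := by
  refine MemLp.of_le_mul (c := C) hg (hη.aestronglyMeasurable.mul hg.1)
    (Filter.Eventually.of_forall fun q => ?_)
  rw [Real.norm_eq_abs, Real.norm_eq_abs, abs_mul]
  exact mul_le_mul_of_nonneg_right (hb q) (abs_nonneg _)

private theorem D02_int {f g : P → ℝ} (hf : MemLp f 2 volume) (hg : MemLp g 2 volume) :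
    Integrable (fun q => f q * g q) volume := hf.integrable_mul hg

/-- Product rule. Proof: `fderiv_mul` (both functions are differentiable). -/
theorem d_mul {f g : P → ℝ} (hf : ContDiff ℝ ∞ f) (hg : ContDiff ℝ ∞ g) (q : P) :
    d1 (fun q => f q * g q) q = f q * d1 g q + d1 f q * g q ∧
      d2 (fun q => f q * g q) q = f q * d2 g q + d2 f q * g q := by
  have h1 : DifferentiableAt ℝ f q := (hf.differentiable (by simp)) q
  have h2 : DifferentiableAt ℝ g q := (hg.differentiable (by simp)) q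
  constructor
  · show fderiv ℝ (fun q => f q * g q) q (1, 0) = _
    rw [fderiv_fun_mul h1 h2]
    show f q * fderiv ℝ g q (1, 0) + g q * fderiv ℝ f q (1, 0) =
      f q * fderiv ℝ g q (1, 0) + fderiv ℝ f q (1, 0) * g q
    ring
  · show fderiv ℝ (fun q => f q * g q) q (0, 1) = _
    rw [fderiv_fun_mul h1 h2]
    show f q * fderiv ℝ g q (0, 1) + g q * fderiv ℝ f q (0, 1) =
      f q * fderiv ℝ g q (0, 1) + fderiv ℝ f q (0, 1) * g q
    ring

/-- Products of test functions with smooth functions. Proof: `ContDiff.mul`,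
`HasCompactSupport.mul_left`, `tsupport_mul_subset_right`. -/
theorem test_mul {η φ : P → ℝ} (hη : ContDiff ℝ ∞ η) (h : Test D φ) :
    Test D (fun q => η q * φ q) :=
  ⟨hη.mul h.smooth, HasCompactSupport.mul_left h.compact,
    tsupport_mul_subset_right.trans h.supp⟩

/-- Multiplication by a smooth function. Proof: the approximations are `η φ n` (`test_mul`), with
derivatives `η d1 (φ n) + d1 η φ n` (`d_mul`). With the bound `C` of `η`, `d1 η`, `d2 η`:
`∫ (η φ n - η u)² ≤ C² ∫ (φ n - u)²` and `∫ (d1 (η φ n) - (η u₁ + d1 η u))² ≤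
2 C² ∫ (d1 (φ n) - u₁)² + 2 C² ∫ (φ n - u)²`. Square integrability: `MemLp.bdd_mul` or
`MemLp.of_le_mul` (the derivatives of `η` are continuous). -/
theorem h10_mul {η : P → ℝ} (hη : Cut η) {u u₁ u₂ : P → ℝ} (h : H10 D u u₁ u₂) :
    H10 D (fun q => η q * u q) (fun q => η q * u₁ q + d1 η q * u q)
      (fun q => η q * u₂ q + d2 η q * u q) := by
  obtain ⟨C, hC⟩ := hη.bdd
  have hc0 : Continuous η := hη.smooth.continuous
  obtain ⟨hc1, hc2⟩ := D02_cont hη.smooth
  have hC0 : 0 ≤ C := (abs_nonneg _).trans (hC 0).1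
  obtain ⟨φ, hφ, hl0, hl1, hl2⟩ := h.approx
  have hm : ∀ n, MemLp (φ n) 2 volume ∧ MemLp (d1 (φ n)) 2 volume ∧
      MemLp (d2 (φ n)) 2 volume := fun n => (test_facts (hφ n)).2.2.1
  have key : ∀ {e : P → ℝ} {u' : P → ℝ} {ψ : ℕ → P → ℝ}, Continuous e → (∀ q, |e q| ≤ C) →
      MemLp u' 2 volume → (∀ n, MemLp (ψ n) 2 volume) →
      Tendsto (fun n => ∫ q, (ψ n q - u' q) ^ 2) atTop (𝓝 0) →
      Tendsto (fun n => ∫ q, ((η q * ψ n q + e q * φ n q) -
        (η q * u' q + e q * u q)) ^ 2) atTop (𝓝 0) := by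
    intro e u' ψ he heC hu' hψ hψl
    have hub : Tendsto (fun n => 2 * C ^ 2 * (∫ q, (ψ n q - u' q) ^ 2) +
        2 * C ^ 2 * ∫ q, (φ n q - u q) ^ 2) atTop (𝓝 0) := by
      have h1 := (hψl.const_mul (2 * C ^ 2)).add (hl0.const_mul (2 * C ^ 2))
      rwa [mul_zero, add_zero] at h1
    refine squeeze_zero (fun n => integral_nonneg fun q => sq_nonneg _) (fun n => ?_) hub
    have i1 : Integrable (fun q => (ψ n q - u' q) ^ 2) volume :=
      ((hψ n).sub hu').integrable_sq
    have i2 : Integrable (fun q => (φ n q - u q) ^ 2) volume :=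
      ((hm n).1.sub h.mem).integrable_sq
    rw [← integral_const_mul, ← integral_const_mul,
      ← integral_add (i1.const_mul _) (i2.const_mul _)]
    refine integral_mono ?_ ((i1.const_mul _).add (i2.const_mul _)) fun q => ?_
    · exact (((D02_bm hc0 (fun q => (hC q).1) (hψ n)).add (D02_bm he heC (hm n).1)).sub
        ((D02_bm hc0 (fun q => (hC q).1) hu').add (D02_bm he heC h.mem))).integrable_sq
    · have h1 : (η q) ^ 2 ≤ C ^ 2 := sq_le_sq' (by linarith [(abs_le.1 (hC q).1).1])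
        (abs_le.1 (hC q).1).2
      have h2 : (e q) ^ 2 ≤ C ^ 2 := sq_le_sq' (by linarith [(abs_le.1 (heC q)).1])
        (abs_le.1 (heC q)).2
      show ((η q * ψ n q + e q * φ n q) - (η q * u' q + e q * u q)) ^ 2 ≤
        2 * C ^ 2 * (ψ n q - u' q) ^ 2 + 2 * C ^ 2 * (φ n q - u q) ^ 2
      have h3 := mul_le_mul_of_nonneg_right h1 (sq_nonneg (ψ n q - u' q))
      have h4 := mul_le_mul_of_nonneg_right h2 (sq_nonneg (φ n q - u q))
      nlinarith [sq_nonneg (η q * (ψ n q - u' q) - e q * (φ n q - u q))]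
  refine ⟨D02_bm hc0 (fun q => (hC q).1) h.mem,
    (D02_bm hc0 (fun q => (hC q).1) h.mem₁).add (D02_bm hc1 (fun q => (hC q).2.1) h.mem),
    (D02_bm hc0 (fun q => (hC q).1) h.mem₂).add (D02_bm hc2 (fun q => (hC q).2.2.1) h.mem),
    fun n q => η q * φ n q, fun n => test_mul hη.smooth (hφ n), ?_, ?_, ?_⟩
  · have h1 := key (e := fun _ => 0) continuous_const (fun q => by rw [abs_zero]; exact hC0)
      h.mem (fun n => (hm n).1) hl0
    simpa only [zero_mul, add_zero] using h1
  · have h1 := key hc1 (fun q => (hC q).2.1) h.mem₁ (fun n => (hm n).2.1) hl1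
    refine h1.congr fun n => ?_
    refine integral_congr_ae (Filter.Eventually.of_forall fun q => ?_)
    show _ = (d1 (fun q => η q * φ n q) q - _) ^ 2
    rw [(d_mul hη.smooth (hφ n).smooth q).1]
  · have h1 := key hc2 (fun q => (hC q).2.2.1) h.mem₂ (fun n => (hm n).2.2) hl2
    refine h1.congr fun n => ?_
    refine integral_congr_ae (Filter.Eventually.of_forall fun q => ?_)
    show _ = (d2 (fun q => η q * φ n q) q - _) ^ 2
    rw [(d_mul hη.smooth (hφ n).smooth q).2]

/-- The weak equation for test functions in `H¹₀(D)`. Proof: it holds for the approximations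
`φ n` of `v`; pass to the limit with `l2_lim` in the three terms. -/
theorem weak_h10 {u u₁ u₂ f v v₁ v₂ : P → ℝ} (h : Dom D u u₁ u₂ f) (hv : H10 D v v₁ v₂) :
    ∫ q, (u₁ q * v₁ q + u₂ q * v₂ q) = ∫ q, f q * v q := by
  obtain ⟨φ, hφ, hl0, hl1, hl2⟩ := hv.approx
  have hm : ∀ n, MemLp (φ n) 2 volume ∧ MemLp (d1 (φ n)) 2 volume ∧
      MemLp (d2 (φ n)) 2 volume := fun n => (test_facts (hφ n)).2.2.1
  have h1 := l2_lim (fun n => (hm n).2.1) hv.mem₁ h.h10.mem₁ hl1
  have h2 := l2_lim (fun n => (hm n).2.2) hv.mem₂ h.h10.mem₂ hl2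
  have h3 := l2_lim (fun n => (hm n).1) hv.mem h.mem hl0
  have h4 : ∀ n, (∫ q, d1 (φ n) q * u₁ q) + (∫ q, d2 (φ n) q * u₂ q) =
      ∫ q, φ n q * f q := by
    intro n
    rw [← integral_add (D02_int (hm n).2.1 h.h10.mem₁) (D02_int (hm n).2.2 h.h10.mem₂)]
    have h5 := h.weak (φ n) (hφ n)
    simp only [mul_comm (d1 (φ n) _), mul_comm (d2 (φ n) _), mul_comm (φ n _)]
    exact h5
  have h6 := (h1.add h2).congr h4
  have h7 := tendsto_nhds_unique h6 h3
  rw [← integral_add (D02_int hv.mem₁ h.h10.mem₁) (D02_int hv.mem₂ h.h10.mem₂)] at h7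
  simp only [mul_comm (u₁ _), mul_comm (u₂ _), mul_comm (f _)]
  exact h7

/-- The flux identity for two functions. Proof: `weak_h10` for `b` and the test function `ζ a`
(`h10_mul`), and for `a` and the test function `ζ b`; subtract. All products are integrable
(`MemLp.integrable_mul`, bounded factors). -/
theorem flux {ζ : P → ℝ} (hζ : Cut ζ) {a a₁ a₂ f b b₁ b₂ g : P → ℝ} (ha : Dom D a a₁ a₂ f)
    (hb : Dom D b b₁ b₂ g) :
    ∫ q, ζ q * (a q * g q - b q * f q) =
      ∫ q, (a q * (d1 ζ q * b₁ q + d2 ζ q * b₂ q) - b q * (d1 ζ q * a₁ q + d2 ζ q * a₂ q)) := by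
  have ha' := h10_mul hζ ha.h10
  have hb' := h10_mul hζ hb.h10
  have e1 := weak_h10 hb ha'
  have e2 := weak_h10 ha hb'
  have i1 := D02_int hb.mem ha'.mem
  have i2 := D02_int ha.mem hb'.mem
  have i3 := (D02_int hb.h10.mem₁ ha'.mem₁).add (D02_int hb.h10.mem₂ ha'.mem₂)
  have i4 := (D02_int ha.h10.mem₁ hb'.mem₁).add (D02_int ha.h10.mem₂ hb'.mem₂)
  calc ∫ q, ζ q * (a q * g q - b q * f q)
      = ∫ q, (g q * (ζ q * a q) - f q * (ζ q * b q)) := by
        refine integral_congr_ae (Filter.Eventually.of_forall fun q => ?_)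
        show _ = _
        ring
    _ = (∫ q, g q * (ζ q * a q)) - ∫ q, f q * (ζ q * b q) := integral_sub i1 i2
    _ = (∫ q, (b₁ q * (ζ q * a₁ q + d1 ζ q * a q) + b₂ q * (ζ q * a₂ q + d2 ζ q * a q))) -
        ∫ q, (a₁ q * (ζ q * b₁ q + d1 ζ q * b q) + a₂ q * (ζ q * b₂ q + d2 ζ q * b q)) := by
        rw [e1, e2]
    _ = ∫ q, ((b₁ q * (ζ q * a₁ q + d1 ζ q * a q) + b₂ q * (ζ q * a₂ q + d2 ζ q * a q)) -
        (a₁ q * (ζ q * b₁ q + d1 ζ q * b q) + a₂ q * (ζ q * b₂ q + d2 ζ q * b q))) :=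
        (integral_sub i3 i4).symm
    _ = _ := by
        refine integral_congr_ae (Filter.Eventually.of_forall fun q => ?_)
        show _ = _
        ring

end

end Pool.Agent.MP4eed4eR
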