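import Pool.Agent.Lib.MP_4eed4e_an_R.D02

/-!
MP_4eed4e_an, project R, module D03: integration by parts, the domain under multiplication by
smooth functions, the local energy identity.
-/

namespace Pool.Agent.MP4eed4eR

open MeasureTheory Set Filter Topology Metric
open scoped ContDiff

noncomputable section

variable {D : Set P}

private theorem D03_cont {η : P → ℝ} (h : ContDiff ℝ ∞ η) :
    ContDiff ℝ ∞ (d1 η) ∧ ContDiff ℝ ∞ (d2 η) := by
  have h1 : ContDiff ℝ ∞ (fderiv ℝ η) := h.fderiv_right (by simp)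
  exact ⟨h1.clm_apply contDiff_const, h1.clm_apply contDiff_const⟩

private theorem D03_lap {η : P → ℝ} (h : ContDiff ℝ ∞ η) : Continuous (lap η) := by
  obtain ⟨h1, h2⟩ := D03_cont h
  exact (D03_cont h1).1.continuous.add (D03_cont h2).2.continuous

private theorem D03_bm {η g : P → ℝ} {C : ℝ} (hη : Continuous η) (hb : ∀ q, |η q| ≤ C)
    (hg : MemLp g 2 volume) : MemLp (fun q => η q * g q) 2 volume := by
  refine MemLp.of_le_mul (c := C) hg (hη.aestronglyMeasurable.mul hg.1)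
    (Filter.Eventually.of_forall fun q => ?_)
  rw [Real.norm_eq_abs, Real.norm_eq_abs, abs_mul]
  exact mul_le_mul_of_nonneg_right (hb q) (abs_nonneg _)

private theorem D03_int {f g : P → ℝ} (hf : MemLp f 2 volume) (hg : MemLp g 2 volume) :
    Integrable (fun q => f q * g q) volume := hf.integrable_mul hg

private theorem D03_congr {f g : P → ℝ} (h : ∀ q, f q = g q) : ∫ q, f q = ∫ q, g q :=
  integral_congr_ae (Filter.Eventually.of_forall h)

private theorem D03_two {a a' b b' : P → ℝ} (ha : MemLp a 2 volume) (ha' : MemLp a' 2 volume)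
    (hb : MemLp b 2 volume) (hb' : MemLp b' 2 volume) :
    ∫ q, (a q * a' q + b q * b' q) = (∫ q, a q * a' q) + ∫ q, b q * b' q :=
  integral_add (D03_int ha ha') (D03_int hb hb')

private theorem D03_four {a a' b b' c c' e e' : P → ℝ} (ha : MemLp a 2 volume)
    (ha' : MemLp a' 2 volume) (hb : MemLp b 2 volume) (hb' : MemLp b' 2 volume)
    (hc : MemLp c 2 volume) (hc' : MemLp c' 2 volume) (he : MemLp e 2 volume)
    (he' : MemLp e' 2 volume) :
    ∫ q, ((a q * a' q + b q * b' q) + (c q * c' q + e q * e' q)) =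
      ((∫ q, a q * a' q) + ∫ q, b q * b' q) + ((∫ q, c q * c' q) + ∫ q, e q * e' q) := by
  rw [← D03_two ha ha' hb hb', ← D03_two hc hc' he he']
  exact integral_add ((D03_int ha ha').add (D03_int hb hb'))
    ((D03_int hc hc').add (D03_int he he'))

private theorem D03_test {φ : P → ℝ} (h : ContDiff ℝ ∞ φ) (hc : HasCompactSupport φ) :
    Test univ φ := ⟨h, hc, subset_univ _⟩

private theorem D03_lim {e w : P → ℝ} {ψ : ℕ → P → ℝ} {C : ℝ} (he : Continuous e)
    (hC : ∀ q, |e q| ≤ C) (hψ : ∀ n, MemLp (ψ n) 2 volume) (hw : MemLp w 2 volume)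
    (h : Tendsto (fun n => ∫ q, (ψ n q - w q) ^ 2) atTop (𝓝 0)) :
    Tendsto (fun n => ∫ q, (e q * ψ n q - e q * w q) ^ 2) atTop (𝓝 0) := by
  have hub : Tendsto (fun n => C ^ 2 * ∫ q, (ψ n q - w q) ^ 2) atTop (𝓝 0) := by
    have h1 := h.const_mul (C ^ 2)
    rwa [mul_zero] at h1
  refine squeeze_zero (fun n => integral_nonneg fun q => sq_nonneg _) (fun n => ?_) hub
  have i1 : Integrable (fun q => (ψ n q - w q) ^ 2) volume := ((hψ n).sub hw).integrable_sq
  rw [← integral_const_mul]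
  refine integral_mono ?_ (i1.const_mul _) fun q => ?_
  · exact ((D03_bm he hC (hψ n)).sub (D03_bm he hC hw)).integrable_sq
  · have h1 : (e q) ^ 2 ≤ C ^ 2 := sq_le_sq' (by linarith [(abs_le.1 (hC q)).1])
      (abs_le.1 (hC q)).2
    show (e q * ψ n q - e q * w q) ^ 2 ≤ C ^ 2 * (ψ n q - w q) ^ 2
    have h3 := mul_le_mul_of_nonneg_right h1 (sq_nonneg (ψ n q - w q))
    nlinarith

private theorem D03_int_v {φ : P → ℝ} (h : ContDiff ℝ ∞ φ) (hc : HasCompactSupport φ) (v : P) :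
    ∫ q, fderiv ℝ φ q v = 0 := by
  have hi : Integrable (fun q => fderiv ℝ φ q v) volume := by
    have h1 : Continuous (fun q => fderiv ℝ φ q v) :=
      (h.continuous_fderiv (by simp)).clm_apply continuous_const
    exact h1.integrable_of_hasCompactSupport
      ((hc.fderiv ℝ).comp_left (g := fun L : P →L[ℝ] ℝ => L v) rfl)
  have hφ : Integrable φ volume := h.continuous.integrable_of_hasCompactSupport hc
  have h0 : ∀ q : P, fderiv ℝ (fun _ : P => (1 : ℝ)) q v * φ q = 0 := by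
    intro q
    rw [fderiv_const_apply, zero_apply, zero_mul]
  have h2 := integral_mul_fderiv_eq_neg_fderiv_mul_of_integrable (μ := (volume : Measure P))
    (f := fun _ : P => (1 : ℝ)) (g := φ) (v := v) (by simp only [h0]; exact integrable_zero _ _ _)
    (by simpa using hi) (by simpa using hφ) (fun _ _ => differentiableAt_const _)
    (fun q _ => (h.differentiable (by simp)) q)
  simp only [h0, one_mul, integral_zero, neg_zero] at h2
  exact h2

/-- The integral of a derivative of a smooth function with compact support is zero. Proof: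
Mathlib has `integral_mul_fderiv_eq_neg_fderiv_mul_of_integrable` and
`integral_bilinear_hasLineDerivAt_right_eq_neg_left_of_integrable` (take for one factor a smooth
cutoff equal to `1` on the support); or use Fubini and the one dimensional statement
(`HasCompactSupport.integral_deriv_eq_zero` or the fundamental theorem) on each line. -/
theorem int_d {φ : P → ℝ} (h : ContDiff ℝ ∞ φ) (hc : HasCompactSupport φ) :
    ∫ q, d1 φ q = 0 ∧ ∫ q, d2 φ q = 0 := by
  exact ⟨D03_int_v h hc _, D03_int_v h hc _⟩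

/-- Proof: for the approximations `φ n` of `u`, `0 = ∫ d1 (ψ φ n) = ∫ (ψ d1 (φ n) + d1 ψ φ n)`
(`int_d`, `d_mul`); pass to the limit (`l2_lim`; `ψ` and its derivatives are square
integrable). -/
theorem parts_cpt {ψ : P → ℝ} (hψ : ContDiff ℝ ∞ ψ) (hc : HasCompactSupport ψ)
    {u u₁ u₂ : P → ℝ} (h : H10 D u u₁ u₂) :
    ∫ q, ψ q * u₁ q = -∫ q, d1 ψ q * u q ∧ ∫ q, ψ q * u₂ q = -∫ q, d2 ψ q * u q := by
  obtain ⟨φ, hφ, hl0, hl1, hl2⟩ := h.approx
  have hm : ∀ n, MemLp (φ n) 2 volume ∧ MemLp (d1 (φ n)) 2 volume ∧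
      MemLp (d2 (φ n)) 2 volume := fun n => (test_facts (hφ n)).2.2.1
  obtain ⟨hψ0, hψ1, hψ2⟩ := (test_facts (D03_test hψ hc)).2.2.1
  have hz : ∀ n, (∫ q, d1 (φ n) q * ψ q) = -∫ q, φ n q * d1 ψ q ∧
      (∫ q, d2 (φ n) q * ψ q) = -∫ q, φ n q * d2 ψ q := by
    intro n
    have h1 := int_d (hψ.mul (hφ n).smooth) (HasCompactSupport.mul_right hc)
    have e1 : ∫ q, d1 (fun q => ψ q * φ n q) q =
        ∫ q, (d1 (φ n) q * ψ q + φ n q * d1 ψ q) := D03_congr fun q => by
      rw [(d_mul hψ (hφ n).smooth q).1]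
      ring
    have e2 : ∫ q, d2 (fun q => ψ q * φ n q) q =
        ∫ q, (d2 (φ n) q * ψ q + φ n q * d2 ψ q) := D03_congr fun q => by
      rw [(d_mul hψ (hφ n).smooth q).2]
      ring
    have h2 : ∫ q, d1 (fun q => ψ q * φ n q) q = 0 := h1.1
    have h3 : ∫ q, d2 (fun q => ψ q * φ n q) q = 0 := h1.2
    rw [e1, D03_two (hm n).2.1 hψ0 (hm n).1 hψ1] at h2
    rw [e2, D03_two (hm n).2.2 hψ0 (hm n).1 hψ2] at h3
    exact ⟨by linarith, by linarith⟩
  have l1 := l2_lim (fun n => (hm n).2.1) h.mem₁ hψ0 hl1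
  have l2 := l2_lim (fun n => (hm n).2.2) h.mem₂ hψ0 hl2
  have l3 := (l2_lim (fun n => (hm n).1) h.mem hψ1 hl0).neg
  have l4 := (l2_lim (fun n => (hm n).1) h.mem hψ2 hl0).neg
  have m1 := tendsto_nhds_unique (l1.congr fun n => (hz n).1) l3
  have m2 := tendsto_nhds_unique (l2.congr fun n => (hz n).2) l4
  have c1 : ∀ a b : P → ℝ, ∫ q, a q * b q = ∫ q, b q * a q :=
    fun a b => D03_congr fun q => mul_comm _ _
  rw [c1 ψ u₁, c1 ψ u₂, c1 (d1 ψ) u, c1 (d2 ψ) u]
  exact ⟨m1, m2⟩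

/-- Integration by parts against a smooth function. Proof: take a smooth `κ` with compact support,
equal to `1` on a ball that contains the bounded set `D` in its interior
(`exists_contDiff_tsupport_subset` or a bump function `ContDiffBump`). The approximations `φ n` of
`u` vanish off `D`, hence `u`, `u₁`, `u₂` vanish almost everywhere off the closed ball (as in
`h10_zero`, applied to the open ball: `H10` is monotone in the domain). Apply `parts_cpt` with
`ψ = κ η`; on the ball `ψ = η` and `d1 ψ = d1 η`. -/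
theorem h10_parts {η : P → ℝ} (hη : Cut η) {u u₁ u₂ : P → ℝ} (h : H10 D u u₁ u₂)
    (hb : Bornology.IsBounded D) :
    ∫ q, η q * u₁ q = -∫ q, d1 η q * u q ∧ ∫ q, η q * u₂ q = -∫ q, d2 η q * u q := by
  obtain ⟨R, hR, hD⟩ := hb.subset_ball_lt 0 (0 : P)
  have hB : H10 (ball (0 : P) R) u u₁ u₂ := by
    obtain ⟨φ, hφ, hl⟩ := h.approx
    exact ⟨h.mem, h.mem₁, h.mem₂, φ,
      fun n => ⟨(hφ n).smooth, (hφ n).compact, (hφ n).supp.trans hD⟩, hl⟩
  obtain ⟨z0, z1, z2⟩ := h10_zero isOpen_ball hB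
  let κ : ContDiffBump (0 : P) := ⟨R, R + 1, hR, by linarith⟩
  have hκs : ContDiff ℝ ∞ (κ : P → ℝ) := κ.contDiff
  have hκc : HasCompactSupport (κ : P → ℝ) := κ.hasCompactSupport
  have hκ1 : ∀ q ∈ ball (0 : P) R, κ q = 1 := fun q hq =>
    κ.one_of_mem_closedBall (ball_subset_closedBall hq)
  set ψ : P → ℝ := fun q => κ q * η q with hψdef
  have hψ : ContDiff ℝ ∞ ψ := hκs.mul hη.smooth
  have hψc : HasCompactSupport ψ := HasCompactSupport.mul_right hκc
  have e0 : ∀ q ∈ ball (0 : P) R, ψ q = η q := fun q hq => by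
    simp only [hψdef]
    rw [hκ1 q hq, one_mul]
  have ef : ∀ q ∈ ball (0 : P) R, fderiv ℝ ψ q = fderiv ℝ η q := fun q hq => by
    refine Filter.EventuallyEq.fderiv_eq ?_
    filter_upwards [isOpen_ball.mem_nhds hq] with x hx
    exact e0 x hx
  have hp := parts_cpt hψ hψc h
  have key : ∀ {a b w : P → ℝ}, (∀ q ∈ ball (0 : P) R, a q = b q) →
      (∀ᵐ q ∂volume, q ∉ ball (0 : P) R → w q = 0) →
      ∫ q, a q * w q = ∫ q, b q * w q := by
    intro a b w hab hw
    refine integral_congr_ae ?_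
    filter_upwards [hw] with q hq
    by_cases hqb : q ∈ ball (0 : P) R
    · rw [hab q hqb]
    · rw [hq hqb, mul_zero, mul_zero]
  rw [← key e0 z1, ← key e0 z2,
    ← key (a := d1 ψ) (b := d1 η) (fun q hq => by rw [d1, d1, ef q hq]) z0,
    ← key (a := d2 ψ) (b := d2 η) (fun q hq => by rw [d2, d2, ef q hq]) z0]
  exact hp

/-- Proof. `H10` for `η u` is `h10_mul`. The right hand side is square integrable (`Cut` bounds).
Weak equation for `φ` (`Test D φ`): the equation of `u` for the test function `η φ`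
(`test_mul`, `d_mul`) gives `∫ η ∇u·∇φ = ∫ f η φ - ∫ φ ∇u·∇η`, and `parts_cpt` for
`ψ = φ d1 η` and `ψ = φ d2 η` gives
`∫ u (∇η·∇φ) = -∫ φ (∇η·∇u) - ∫ u φ lap η` (`d1 (φ d1 η) = φ d1 (d1 η) + d1 φ d1 η`). Add:
`∫ (η ∇u + u ∇η)·∇φ = ∫ (η f - 2 ∇η·∇u - lap η u) φ`. -/
theorem dom_mul {η : P → ℝ} (hη : Cut η) {u u₁ u₂ f : P → ℝ} (h : Dom D u u₁ u₂ f) :
    Dom D (fun q => η q * u q) (fun q => η q * u₁ q + d1 η q * u q)
      (fun q => η q * u₂ q + d2 η q * u q)
      (fun q => η q * f q - 2 * (d1 η q * u₁ q + d2 η q * u₂ q) - lap η q * u q) := by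
  obtain ⟨C, hC⟩ := hη.bdd
  obtain ⟨s1, s2⟩ := D03_cont hη.smooth
  have hu := h.h10.mem
  have hu₁ := h.h10.mem₁
  have hu₂ := h.h10.mem₂
  refine ⟨h10_mul hη h.h10, ?_, fun φ hφ => ?_⟩
  · have m1 := D03_bm hη.smooth.continuous (fun q => (hC q).1) h.mem
    have m2 := ((D03_bm s1.continuous (fun q => (hC q).2.1) hu₁).add
      (D03_bm s2.continuous (fun q => (hC q).2.2.1) hu₂)).const_mul 2
    have m3 := D03_bm (D03_lap hη.smooth) (fun q => (hC q).2.2.2) hu
    exact (m1.sub m2).sub m3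
  · obtain ⟨⟨f1, f2⟩, ⟨k1, k2⟩, ⟨_, _, _⟩, _⟩ := test_facts hφ
    have hmem : ∀ {a b : P → ℝ}, ContDiff ℝ ∞ a → ContDiff ℝ ∞ b → HasCompactSupport b →
        MemLp (fun q => a q * b q) 2 volume := fun ha hb hbc =>
      (ha.mul hb).continuous.memLp_of_hasCompactSupport (HasCompactSupport.mul_left hbc)
    have hs11 := (D03_cont s1).1
    have hs22 := (D03_cont s2).2
    have g0 := hmem hη.smooth hφ.smooth hφ.compact
    have g1 := hmem hη.smooth f1 k1
    have g2 := hmem hη.smooth f2 k2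
    have g3 := hmem s1 hφ.smooth hφ.compact
    have g4 := hmem s2 hφ.smooth hφ.compact
    have g5 := hmem s1 f1 k1
    have g6 := hmem s2 f2 k2
    have g7 := hmem hs11 hφ.smooth hφ.compact
    have g8 := hmem hs22 hφ.smooth hφ.compact
    have w1 := h.weak _ (test_mul hη.smooth hφ)
    have e1 : ∫ q, (u₁ q * d1 (fun q => η q * φ q) q + u₂ q * d2 (fun q => η q * φ q) q) =
        ∫ q, ((u₁ q * (η q * d1 φ q) + u₁ q * (d1 η q * φ q)) +
          (u₂ q * (η q * d2 φ q) + u₂ q * (d2 η q * φ q))) := D03_congr fun q => by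
      rw [(d_mul hη.smooth hφ.smooth q).1, (d_mul hη.smooth hφ.smooth q).2]
      ring
    rw [e1, D03_four hu₁ g1 hu₁ g3 hu₂ g2 hu₂ g4] at w1
    have w2 := (parts_cpt (s1.mul hφ.smooth) (HasCompactSupport.mul_left hφ.compact) h.h10).1
    have w3 := (parts_cpt (s2.mul hφ.smooth) (HasCompactSupport.mul_left hφ.compact) h.h10).2
    have e2 : ∫ q, d1 (fun q => d1 η q * φ q) q * u q =
        ∫ q, (u q * (d1 η q * d1 φ q) + u q * (d1 (d1 η) q * φ q)) := D03_congr fun q => by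
      rw [(d_mul s1 hφ.smooth q).1]
      ring
    have e3 : ∫ q, d2 (fun q => d2 η q * φ q) q * u q =
        ∫ q, (u q * (d2 η q * d2 φ q) + u q * (d2 (d2 η) q * φ q)) := D03_congr fun q => by
      rw [(d_mul s2 hφ.smooth q).2]
      ring
    have w2' : ∫ q, (d1 η q * φ q) * u₁ q = -∫ q, d1 (fun q => d1 η q * φ q) q * u q := w2
    have w3' : ∫ q, (d2 η q * φ q) * u₂ q = -∫ q, d2 (fun q => d2 η q * φ q) q * u q := w3
    rw [e2, D03_two hu g5 hu g7, D03_congr (fun q => mul_comm (d1 η q * φ q) (u₁ q))] at w2'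
    rw [e3, D03_two hu g6 hu g8, D03_congr (fun q => mul_comm (d2 η q * φ q) (u₂ q))] at w3'
    have e4 : ∫ q, ((η q * u₁ q + d1 η q * u q) * d1 φ q + (η q * u₂ q + d2 η q * u q) * d2 φ q) =
        ∫ q, ((u₁ q * (η q * d1 φ q) + u q * (d1 η q * d1 φ q)) +
          (u₂ q * (η q * d2 φ q) + u q * (d2 η q * d2 φ q))) := D03_congr fun q => by ring
    have e5 : ∫ q, (η q * f q - 2 * (d1 η q * u₁ q + d2 η q * u₂ q) - lap η q * u q) * φ q =
        (∫ q, f q * (η q * φ q)) - (2 * ((∫ q, u₁ q * (d1 η q * φ q)) +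
          ∫ q, u₂ q * (d2 η q * φ q)) + ((∫ q, u q * (d1 (d1 η) q * φ q)) +
          ∫ q, u q * (d2 (d2 η) q * φ q))) := by
      have t1 : Integrable (fun q => 2 * (u₁ q * (d1 η q * φ q) + u₂ q * (d2 η q * φ q)))
        volume := ((D03_int hu₁ g3).add (D03_int hu₂ g4)).const_mul 2
      have t2 : Integrable (fun q => u q * (d1 (d1 η) q * φ q) + u q * (d2 (d2 η) q * φ q))
        volume := (D03_int hu g7).add (D03_int hu g8)
      have t3 : Integrable (fun q => 2 * (u₁ q * (d1 η q * φ q) + u₂ q * (d2 η q * φ q)) +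
        (u q * (d1 (d1 η) q * φ q) + u q * (d2 (d2 η) q * φ q))) volume := t1.add t2
      rw [← D03_two hu₁ g3 hu₂ g4, ← D03_two hu g7 hu g8, ← integral_const_mul,
        ← integral_add t1 t2, ← integral_sub (D03_int h.mem g0) t3]
      exact D03_congr fun q => by
        simp only [lap]
        ring
    rw [e4, e5, D03_four hu₁ g1 hu g5 hu₂ g2 hu g6]
    linarith

/-- D4: the local energy identity. Proof: `weak_h10` with the test function `ζ u` (`h10_mul`):
`∫ ζ |∇u|² + ∫ u (∇ζ·∇u) = ∫ f ζ u`. For the approximations `φ n` of `u`,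
`2 φ n (∇ζ·∇φ n) = ∇ζ·∇(φ n²)`, so by `int_d` for `φ n² d1 ζ`, `φ n² d2 ζ` (compactly supported)
`2 ∫ φ n (∇ζ·∇(φ n)) = -∫ lap ζ (φ n)²`; pass to the limit with `l2_lim2` (for the sequences
`φ n` and `d1 ζ d1 (φ n)`, and for `φ n`, `lap ζ φ n`; multiplication by a bounded continuous
function is continuous in `L²`). -/
theorem local_energy {ζ : P → ℝ} (hζ : Cut ζ) {u u₁ u₂ f : P → ℝ} (h : Dom D u u₁ u₂ f)
    (hb : Bornology.IsBounded D) :
    ∫ q, ζ q * (u₁ q ^ 2 + u₂ q ^ 2) =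
      (∫ q, ζ q * (u q * f q)) + 1 / 2 * ∫ q, lap ζ q * u q ^ 2 := by
  obtain ⟨C, hC⟩ := hζ.bdd
  obtain ⟨s1, s2⟩ := D03_cont hζ.smooth
  have hs11 := (D03_cont s1).1
  have hs22 := (D03_cont s2).2
  have hu := h.h10.mem
  have hu₁ := h.h10.mem₁
  have hu₂ := h.h10.mem₂
  have b0 : ∀ {g : P → ℝ}, MemLp g 2 volume → MemLp (fun q => ζ q * g q) 2 volume :=
    fun hg => D03_bm hζ.smooth.continuous (fun q => (hC q).1) hg
  have b1 : ∀ {g : P → ℝ}, MemLp g 2 volume → MemLp (fun q => d1 ζ q * g q) 2 volume :=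
    fun hg => D03_bm s1.continuous (fun q => (hC q).2.1) hg
  have b2 : ∀ {g : P → ℝ}, MemLp g 2 volume → MemLp (fun q => d2 ζ q * g q) 2 volume :=
    fun hg => D03_bm s2.continuous (fun q => (hC q).2.2.1) hg
  have b3 : ∀ {g : P → ℝ}, MemLp g 2 volume → MemLp (fun q => lap ζ q * g q) 2 volume :=
    fun hg => D03_bm (D03_lap hζ.smooth) (fun q => (hC q).2.2.2) hg
  obtain ⟨φ, hφ, hl0, hl1, hl2⟩ := h.h10.approx
  have hm : ∀ n, MemLp (φ n) 2 volume ∧ MemLp (d1 (φ n)) 2 volume ∧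
      MemLp (d2 (φ n)) 2 volume := fun n => (test_facts (hφ n)).2.2.1
  have w1 := weak_h10 h (h10_mul hζ h.h10)
  have e1 : ∫ q, (u₁ q * (ζ q * u₁ q + d1 ζ q * u q) + u₂ q * (ζ q * u₂ q + d2 ζ q * u q)) =
      ∫ q, ((u₁ q * (ζ q * u₁ q) + u₂ q * (ζ q * u₂ q)) +
        (u q * (d1 ζ q * u₁ q) + u q * (d2 ζ q * u₂ q))) := D03_congr fun q => by ring
  rw [e1, D03_four hu₁ (b0 hu₁) hu₂ (b0 hu₂) hu (b1 hu₁) hu (b2 hu₂)] at w1
  have hz : ∀ n, 2 * ((∫ q, φ n q * (d1 ζ q * d1 (φ n) q)) + ∫ q, φ n q * (d2 ζ q * d2 (φ n) q)) =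
      -∫ q, φ n q * (lap ζ q * φ n q) := by
    intro n
    have hsm := (hφ n).smooth
    have hsq : ContDiff ℝ ∞ (fun q => φ n q * φ n q) := hsm.mul hsm
    have hcp : HasCompactSupport (fun q => φ n q * φ n q) :=
      HasCompactSupport.mul_left (hφ n).compact
    have z1 : ∫ q, d1 (fun q => d1 ζ q * (φ n q * φ n q)) q = 0 :=
      (int_d (s1.mul hsq) (HasCompactSupport.mul_left hcp)).1
    have z2 : ∫ q, d2 (fun q => d2 ζ q * (φ n q * φ n q)) q = 0 :=
      (int_d (s2.mul hsq) (HasCompactSupport.mul_left hcp)).2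
    have i1 := D03_int (hm n).1 (b1 (hm n).2.1)
    have i2 := D03_int (hm n).1 (b2 (hm n).2.2)
    have i3 := D03_int (hm n).1 (b3 (hm n).1)
    have j1 : Integrable (d1 (fun q => d1 ζ q * (φ n q * φ n q))) volume := by
      obtain ⟨⟨t1, _⟩, ⟨t2, _⟩, _⟩ := test_facts
        (D03_test (s1.mul hsq) (HasCompactSupport.mul_left hcp))
      exact t1.continuous.integrable_of_hasCompactSupport t2
    have j2 : Integrable (d2 (fun q => d2 ζ q * (φ n q * φ n q))) volume := by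
      obtain ⟨⟨_, t1⟩, ⟨_, t2⟩, _⟩ := test_facts
        (D03_test (s2.mul hsq) (HasCompactSupport.mul_left hcp))
      exact t1.continuous.integrable_of_hasCompactSupport t2
    have z3 : ∫ q, (d1 (fun q => d1 ζ q * (φ n q * φ n q)) q +
        d2 (fun q => d2 ζ q * (φ n q * φ n q)) q) = 0 := by
      rw [integral_add j1 j2, z1, z2, add_zero]
    have z4 : ∫ q, (d1 (fun q => d1 ζ q * (φ n q * φ n q)) q +
        d2 (fun q => d2 ζ q * (φ n q * φ n q)) q) =
        ∫ q, (2 * (φ n q * (d1 ζ q * d1 (φ n) q) + φ n q * (d2 ζ q * d2 (φ n) q)) +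
          φ n q * (lap ζ q * φ n q)) := D03_congr fun q => by
      rw [(d_mul s1 hsq q).1, (d_mul s2 hsq q).2, (d_mul hsm hsm q).1, (d_mul hsm hsm q).2, lap]
      ring
    have i4 : Integrable (fun q => 2 * (φ n q * (d1 ζ q * d1 (φ n) q) +
      φ n q * (d2 ζ q * d2 (φ n) q))) volume := (i1.add i2).const_mul 2
    rw [z4, integral_add i4 i3, integral_const_mul,
      D03_two (hm n).1 (b1 (hm n).2.1) (hm n).1 (b2 (hm n).2.2)] at z3
    linarith
  have l1 := l2_lim2 (fun n => (hm n).1) (fun n => b1 (hm n).2.1) hu (b1 hu₁) hl0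
    (D03_lim s1.continuous (fun q => (hC q).2.1) (fun n => (hm n).2.1) hu₁ hl1)
  have l2 := l2_lim2 (fun n => (hm n).1) (fun n => b2 (hm n).2.2) hu (b2 hu₂) hl0
    (D03_lim s2.continuous (fun q => (hC q).2.2.1) (fun n => (hm n).2.2) hu₂ hl2)
  have l3 := l2_lim2 (fun n => (hm n).1) (fun n => b3 (hm n).1) hu (b3 hu) hl0
    (D03_lim (D03_lap hζ.smooth) (fun q => (hC q).2.2.2) (fun n => (hm n).1) hu hl0)
  have l4 := tendsto_nhds_unique (((l1.add l2).const_mul 2).congr hz) l3.neg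
  have e2 : ∫ q, ζ q * (u₁ q ^ 2 + u₂ q ^ 2) =
      ∫ q, (u₁ q * (ζ q * u₁ q) + u₂ q * (ζ q * u₂ q)) := D03_congr fun q => by ring
  have e3 : ∫ q, ζ q * (u q * f q) = ∫ q, f q * (ζ q * u q) := D03_congr fun q => by ring
  have e4 : ∫ q, lap ζ q * u q ^ 2 = ∫ q, u q * (lap ζ q * u q) := D03_congr fun q => by ring
  rw [e2, e3, e4, D03_two hu₁ (b0 hu₁) hu₂ (b0 hu₂)]
  linarith

end

end Pool.Agent.MP4eed4eR
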