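import Pool.Agent.Lib.MP_4eed4e_an_R.D02

/-!
MP_4eed4e_an, project R, module D04: dilations at a reflex vertex.
-/

namespace Pool.Agent.MP4eed4eR

open MeasureTheory Set Filter Topology Metric
open scoped ContDiff

noncomputable section

variable {D : Set P}

/-- The dilation with centre `V` and ratio `m`. -/
def dl (V : P) (m : ℝ) (q : P) : P := V + m • (q - V)

/-- Proof: `m ≠ 0`; `dl V m q = m • q + (V - m • V)`: translation invariance and
`MeasureTheory.Measure.integral_comp_smul` (`Module.finrank ℝ (ℝ × ℝ) = 2`). True for all functions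
(no integrability needed). -/
theorem int_dl (V : P) {m : ℝ} (hm : 0 < m) (F : P → ℝ) :
    ∫ q, F (dl V m q) = (m ^ 2)⁻¹ * ∫ q, F q := by
  have h1 : ∫ q, F (dl V m q) = ∫ q : P, F (V + m • q) :=
    integral_sub_right_eq_self (fun q : P => F (V + m • q)) V
  have h2 : ∫ q : P, F (V + m • q) = |(m ^ Module.finrank ℝ P)⁻¹| • ∫ q : P, F (V + q) :=
    Measure.integral_comp_smul volume (fun q : P => F (V + q)) m
  have h3 : Module.finrank ℝ P = 2 := by
    rw [Module.finrank_prod, Module.finrank_self]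
  rw [h1, h2, h3, integral_add_left_eq_self (fun q : P => F q) V, abs_of_pos (by positivity),
    smul_eq_mul]

private theorem D04_cont (V : P) (m : ℝ) : Continuous (dl V m) := by
  unfold dl
  fun_prop

private theorem D04_inv (V : P) {m : ℝ} (hm : m ≠ 0) (q : P) :
    dl V m⁻¹ (dl V m q) = q ∧ dl V m (dl V m⁻¹ q) = q := by
  unfold dl
  refine ⟨?_, ?_⟩
  · rw [add_sub_cancel_left, smul_smul, inv_mul_cancel₀ hm, one_smul, add_sub_cancel]
  · rw [add_sub_cancel_left, smul_smul, mul_inv_cancel₀ hm, one_smul, add_sub_cancel]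

/-- Proof: `int_dl` for the function `q ↦ a (dl V m⁻¹ q) * b q` (`dl V m⁻¹ (dl V m q) = q`):
both sides are equal to `m⁻¹ * ∫ a (dl V m⁻¹ q) * b q`. -/
theorem form_dl (V : P) {m : ℝ} (hm : 0 < m) (a b : P → ℝ) :
    ∫ q, a q * (m * b (dl V m q)) = ∫ q, (m⁻¹ * a (dl V m⁻¹ q)) * b q := by
  have h1 : ∫ q, a q * (m * b (dl V m q)) =
      ∫ q, (fun q => m * a (dl V m⁻¹ q) * b q) (dl V m q) := by
    refine integral_congr_ae (Eventually.of_forall fun q => ?_)
    change a q * (m * b (dl V m q)) = m * a (dl V m⁻¹ (dl V m q)) * b (dl V m q)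
    rw [(D04_inv V hm.ne' q).1]
    ring
  rw [h1, int_dl V hm (fun q => m * a (dl V m⁻¹ q) * b q), ← integral_const_mul]
  refine integral_congr_ae (Eventually.of_forall fun q => ?_)
  change (m ^ 2)⁻¹ * (m * a (dl V m⁻¹ q) * b q) = m⁻¹ * a (dl V m⁻¹ q) * b q
  have h2 : (m ^ 2)⁻¹ * m = m⁻¹ := by
    field_simp
  calc (m ^ 2)⁻¹ * (m * a (dl V m⁻¹ q) * b q) = ((m ^ 2)⁻¹ * m) * a (dl V m⁻¹ q) * b q := by
        ring
    _ = _ := by rw [h2]

private theorem D04_map (V : P) {m : ℝ} (hm : 0 < m) :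
    Measure.map (dl V m) volume =
      ENNReal.ofReal |(m ^ Module.finrank ℝ P)⁻¹| • (volume : Measure P) := by
  have h1 : dl V m = (fun q : P => q + (V - m • V)) ∘ (m • ·) := by
    funext q
    change V + m • (q - V) = m • q + (V - m • V)
    rw [smul_sub]
    abel
  have h2 : Measurable (fun q : P => q + (V - m • V)) := measurable_id.add_const _
  rw [h1, ← Measure.map_map h2 (measurable_const_smul m),
    Measure.map_addHaar_smul volume hm.ne', Measure.map_smul]
  congr 1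
  exact map_add_right_eq_self volume (V - m • V)

/-- Proof: `dl V m` is a homeomorphism that multiplies the measure by `m⁻²`
(`MemLp.comp_quasiMeasurePreserving`-like; or directly: `dl V m` is affine, `MemLp` for `p = 2` is
measurability and finiteness of the integral of the square: `memLp_two_iff_integrable_sq`, and
`Integrable.comp_smul`, `Integrable.comp_add_right`). -/
theorem memLp_dl (V : P) {m : ℝ} (hm : 0 < m) {u : P → ℝ} (hu : MemLp u 2 volume) :
    MemLp (fun q => u (dl V m q)) 2 volume := by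
  have h1 : MemLp u 2 (Measure.map (dl V m) volume) := by
    rw [D04_map V hm]
    exact hu.smul_measure ENNReal.ofReal_ne_top
  exact h1.comp_measurePreserving ⟨(D04_cont V m).measurable, rfl⟩

/-- Proof: chain rule (`fderiv_comp`, the derivative of `dl V m` is `m • id`). -/
theorem d_dl (V : P) (m : ℝ) {φ : P → ℝ} (hφ : ContDiff ℝ ∞ φ) (q : P) :
    d1 (fun q => φ (dl V m q)) q = m * d1 φ (dl V m q) ∧
      d2 (fun q => φ (dl V m q)) q = m * d2 φ (dl V m q) := by
  have h1 : HasFDerivAt (dl V m) (m • ContinuousLinearMap.id ℝ P) q :=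
    (((hasFDerivAt_id q).sub_const V).const_smul m).const_add V
  have h2 : HasFDerivAt φ (fderiv ℝ φ (dl V m q)) (dl V m q) :=
    (hφ.differentiable (by simp) _).hasFDerivAt
  have h3 : fderiv ℝ (fun q => φ (dl V m q)) q =
      (fderiv ℝ φ (dl V m q)).comp (m • ContinuousLinearMap.id ℝ P) := (h2.comp q h1).fderiv
  constructor
  · unfold d1
    rw [h3]
    change fderiv ℝ φ (dl V m q) (m • ((1, 0) : P)) = m * fderiv ℝ φ (dl V m q) (1, 0)
    rw [map_smul, smul_eq_mul]
  · unfold d2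
    rw [h3]
    change fderiv ℝ φ (dl V m q) (m • ((0, 1) : P)) = m * fderiv ℝ φ (dl V m q) (0, 1)
    rw [map_smul, smul_eq_mul]

private theorem D04_dist (V : P) {m : ℝ} (hm : 0 < m) (q : P) :
    dist (dl V m q) V = m * dist q V := by
  rw [dist_eq_norm, dist_eq_norm, dl, add_sub_cancel_left, norm_smul, Real.norm_eq_abs,
    abs_of_pos hm]

/-- Test functions near the reflex vertex are stable under dilation. Proof: the support of
`φ ∘ dl V m` is the preimage of the compact set `tsupport φ` under the homeomorphism `dl V m`. If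
`dl V m q ∈ tsupport φ`, then `dl V m q ∈ D` and `m * dist q V = dist (dl V m q) V ≤ 7 ρ₀`, so
`dist q V ≤ 14 ρ₀`; both points lie in the ball of radius `16 ρ₀`, where by `G.reflex` membership
in `D` only depends on the signs of the coordinates of `q - V`; the signs of `m (q - V)` are the
same. -/
theorem test_dl (G : Geo D) {V : P} (hV : V ∈ G.V) {m : ℝ} (hm : 1 / 2 ≤ m) {φ : P → ℝ}
    (h : Test D φ) (hs : ∀ q, 7 * G.rho0 < dist q V → φ q = 0) :
    Test D (fun q => φ (dl V m q)) := by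
  have hm0 : 0 < m := by linarith
  have hts : tsupport φ ⊆ closedBall V (7 * G.rho0) := by
    refine closure_minimal (fun q hq => ?_) isClosed_closedBall
    by_contra hc
    exact hq (hs q (not_le.1 hc))
  have hsub : tsupport (fun q => φ (dl V m q)) ⊆ dl V m ⁻¹' tsupport φ :=
    closure_minimal (fun q hq => subset_closure hq)
      ((isClosed_tsupport φ).preimage (D04_cont V m))
  have hpre : dl V m ⁻¹' tsupport φ = dl V m⁻¹ '' tsupport φ := by
    ext q
    constructor
    · intro hq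
      exact ⟨dl V m q, hq, (D04_inv V hm0.ne' q).1⟩
    · rintro ⟨p, hp, rfl⟩
      change dl V m (dl V m⁻¹ p) ∈ tsupport φ
      rw [(D04_inv V hm0.ne' p).2]
      exact hp
  refine ⟨h.smooth.comp (by unfold dl; fun_prop), ?_, ?_⟩
  · have h1 : IsCompact (dl V m ⁻¹' tsupport φ) := by
      rw [hpre]
      exact h.compact.isCompact.image (D04_cont V m⁻¹)
    exact h1.of_isClosed_subset (isClosed_tsupport _) hsub
  · intro q hq
    have h1 : dl V m q ∈ tsupport φ := hsub hq
    have h2 := h.supp h1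
    have h3 : dist (dl V m q) V ≤ 7 * G.rho0 := hts h1
    have hr := G.pos
    have h4 : dist q V ≤ 14 * G.rho0 := by
      rw [D04_dist V hm0] at h3
      have h5 : (0 : ℝ) ≤ dist q V := dist_nonneg
      nlinarith
    obtain ⟨s, t, -, -, hst⟩ := G.reflex V hV
    have h5 : q ∈ ball V (16 * G.rho0) := by
      rw [mem_ball]
      linarith
    have h6 : dl V m q ∈ ball V (16 * G.rho0) := by
      rw [mem_ball]
      linarith
    rw [hst _ h5]
    have e1 : (dl V m q).1 - V.1 = m * (q.1 - V.1) := by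
      change V.1 + m * (q.1 - V.1) - V.1 = m * (q.1 - V.1)
      ring
    have e2 : (dl V m q).2 - V.2 = m * (q.2 - V.2) := by
      change V.2 + m * (q.2 - V.2) - V.2 = m * (q.2 - V.2)
      ring
    rcases (hst _ h6).1 h2 with h7 | h7
    · left
      rw [e1] at h7
      have h8 : 0 < m * (s * (q.1 - V.1)) := by linarith
      exact (mul_pos_iff_of_pos_left hm0).1 h8
    · right
      rw [e2] at h7
      have h8 : 0 < m * (t * (q.2 - V.2)) := by linarith
      exact (mul_pos_iff_of_pos_left hm0).1 h8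

private theorem D04_bdd {f : P → ℝ} (hf : ContDiff ℝ ∞ f) (hc : HasCompactSupport f) :
    ∃ C, ∀ q, |f q| ≤ C := hc.exists_bound_of_continuous hf.continuous

private theorem D04_cut {f : P → ℝ} (hf : ContDiff ℝ ∞ f) (hc : HasCompactSupport f) : Cut f := by
  obtain ⟨⟨s1, s2⟩, ⟨c1, c2⟩, -, -⟩ := test_facts (D := univ) ⟨hf, hc, subset_univ _⟩
  obtain ⟨⟨s11, -⟩, ⟨c11, -⟩, -, -⟩ := test_facts (D := univ) ⟨s1, c1, subset_univ _⟩
  obtain ⟨⟨-, s22⟩, ⟨-, c22⟩, -, -⟩ := test_facts (D := univ) ⟨s2, c2, subset_univ _⟩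
  obtain ⟨C0, h0⟩ := D04_bdd hf hc
  obtain ⟨C1, h1⟩ := D04_bdd s1 c1
  obtain ⟨C2, h2⟩ := D04_bdd s2 c2
  obtain ⟨C3, h3⟩ := D04_bdd s11 c11
  obtain ⟨C4, h4⟩ := D04_bdd s22 c22
  have a0 := (abs_nonneg _).trans (h0 0)
  have a1 := (abs_nonneg _).trans (h1 0)
  have a2 := (abs_nonneg _).trans (h2 0)
  have a3 := (abs_nonneg _).trans (h3 0)
  have a4 := (abs_nonneg _).trans (h4 0)
  refine ⟨hf, C0 + C1 + C2 + C3 + C4, fun q => ⟨?_, ?_, ?_, ?_⟩⟩
  · linarith [h0 q]
  · linarith [h1 q]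
  · linarith [h2 q]
  · have h5 : |lap f q| ≤ |d1 (d1 f) q| + |d2 (d2 f) q| := abs_add_le _ _
    linarith [h3 q, h4 q]

/-- A smooth cutoff: `1` on the ball of radius `5 ρ₀`, `0` off the ball of radius `6 ρ₀`. Proof:
`ContDiffBump` with centre `V` and radii `5 ρ₀`, `6 ρ₀` (`P` has `HasContDiffBump`, a finite
dimensional space), or products of `Real.smoothTransition`; a smooth function with compact support
has bounded derivatives (`Continuous.bounded_above_of_compact_support` or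
`HasCompactSupport.exists_bound_of_continuous`-like lemmas). -/
theorem exists_cut (V : P) {ρ : ℝ} (hρ : 0 < ρ) : ∃ η : P → ℝ, Cut η ∧ HasCompactSupport η ∧
    (∀ q, dist q V ≤ 5 * ρ → η q = 1) ∧ (∀ q, 6 * ρ ≤ dist q V → η q = 0) ∧
    ∀ q, 0 ≤ η q ∧ η q ≤ 1 := by
  let f : ContDiffBump V := ⟨5 * ρ, 6 * ρ, by linarith, by linarith⟩
  have hs : ContDiff ℝ ∞ (f : P → ℝ) := f.contDiff
  have hc : HasCompactSupport (f : P → ℝ) := f.hasCompactSupport
  exact ⟨f, D04_cut hs hc, hc, fun q hq => f.one_of_mem_closedBall hq,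
    fun q hq => f.zero_of_le_dist hq, fun q => ⟨f.nonneg, f.le_one⟩⟩

private theorem D04_bm {η g : P → ℝ} {C : ℝ} (hη : Continuous η) (hb : ∀ q, |η q| ≤ C)
    (hg : MemLp g 2 volume) : MemLp (fun q => η q * g q) 2 volume := by
  refine MemLp.of_le_mul (c := C) hg (hη.aestronglyMeasurable.mul hg.1)
    (Filter.Eventually.of_forall fun q => ?_)
  rw [Real.norm_eq_abs, Real.norm_eq_abs, abs_mul]
  exact mul_le_mul_of_nonneg_right (hb q) (abs_nonneg _)

private theorem D04_key {η e u u' : P → ℝ} {φ ψ : ℕ → P → ℝ} {C : ℝ} (hη : Continuous η)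
    (hηC : ∀ q, |η q| ≤ C) (he : Continuous e) (heC : ∀ q, |e q| ≤ C) (hu : MemLp u 2 volume)
    (hu' : MemLp u' 2 volume) (hφ : ∀ n, MemLp (φ n) 2 volume)
    (hψ : ∀ n, MemLp (ψ n) 2 volume)
    (hl0 : Tendsto (fun n => ∫ q, (φ n q - u q) ^ 2) atTop (𝓝 0))
    (hl1 : Tendsto (fun n => ∫ q, (ψ n q - u' q) ^ 2) atTop (𝓝 0)) :
    Tendsto (fun n => ∫ q, ((η q * ψ n q + e q * φ n q) - (η q * u' q + e q * u q)) ^ 2)
      atTop (𝓝 0) := by
  have hub : Tendsto (fun n => 2 * C ^ 2 * (∫ q, (ψ n q - u' q) ^ 2) +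
      2 * C ^ 2 * ∫ q, (φ n q - u q) ^ 2) atTop (𝓝 0) := by
    have h1 := (hl1.const_mul (2 * C ^ 2)).add (hl0.const_mul (2 * C ^ 2))
    rwa [mul_zero, add_zero] at h1
  refine squeeze_zero (fun n => integral_nonneg fun q => sq_nonneg _) (fun n => ?_) hub
  have i1 : Integrable (fun q => (ψ n q - u' q) ^ 2) volume :=
    ((hψ n).sub hu').integrable_sq
  have i2 : Integrable (fun q => (φ n q - u q) ^ 2) volume :=
    ((hφ n).sub hu).integrable_sq
  rw [← integral_const_mul, ← integral_const_mul,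
    ← integral_add (i1.const_mul _) (i2.const_mul _)]
  refine integral_mono ?_ ((i1.const_mul _).add (i2.const_mul _)) fun q => ?_
  · exact (((D04_bm hη hηC (hψ n)).add (D04_bm he heC (hφ n))).sub
      ((D04_bm hη hηC hu').add (D04_bm he heC hu))).integrable_sq
  · have h1 : (η q) ^ 2 ≤ C ^ 2 := sq_le_sq' (by linarith [(abs_le.1 (hηC q)).1])
      (abs_le.1 (hηC q)).2
    have h2 : (e q) ^ 2 ≤ C ^ 2 := sq_le_sq' (by linarith [(abs_le.1 (heC q)).1])
      (abs_le.1 (heC q)).2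
    change ((η q * ψ n q + e q * φ n q) - (η q * u' q + e q * u q)) ^ 2 ≤
      2 * C ^ 2 * (ψ n q - u' q) ^ 2 + 2 * C ^ 2 * (φ n q - u q) ^ 2
    have h3 := mul_le_mul_of_nonneg_right h1 (sq_nonneg (ψ n q - u' q))
    have h4 := mul_le_mul_of_nonneg_right h2 (sq_nonneg (φ n q - u q))
    nlinarith [sq_nonneg (η q * (ψ n q - u' q) - e q * (φ n q - u q))]

/-- the derivatives of the cutoff vanish where it is locally constant -/
private theorem D04_d {V : P} {ρ : ℝ} {η : P → ℝ} (h1 : ∀ q, dist q V ≤ 5 * ρ → η q = 1)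
    {q : P} (hq : dist q V < 5 * ρ) : d1 η q = 0 ∧ d2 η q = 0 := by
  have h2 : η =ᶠ[𝓝 q] fun _ => (1 : ℝ) := by
    filter_upwards [isOpen_ball.mem_nhds (show q ∈ ball V (5 * ρ) from hq)] with p hp
    exact h1 p (le_of_lt hp)
  have h3 : fderiv ℝ η q = 0 := by
    rw [h2.fderiv_eq]
    exact fderiv_const_apply (1 : ℝ)
  unfold d1 d2
  rw [h3]
  exact ⟨rfl, rfl⟩

private theorem D04_lim (V : P) {m : ℝ} (hm : 0 < m) {c : ℝ} {F : ℕ → P → ℝ} {u : P → ℝ}
    (h : Tendsto (fun n => ∫ q, (F n q - u q) ^ 2) atTop (𝓝 0)) :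
    Tendsto (fun n => ∫ q, (c * F n (dl V m q) - c * u (dl V m q)) ^ 2) atTop (𝓝 0) := by
  have h1 := h.const_mul (c ^ 2 * (m ^ 2)⁻¹)
  rw [mul_zero] at h1
  refine h1.congr fun n => ?_
  have h2 := int_dl V hm (fun q => (F n q - u q) ^ 2)
  have h3 : ∫ q, (c * F n (dl V m q) - c * u (dl V m q)) ^ 2 =
      ∫ q, c ^ 2 * (F n (dl V m q) - u (dl V m q)) ^ 2 := by
    refine integral_congr_ae (Eventually.of_forall fun q => ?_)
    change (c * F n (dl V m q) - c * u (dl V m q)) ^ 2 =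
      c ^ 2 * (F n (dl V m q) - u (dl V m q)) ^ 2
    ring
  rw [h3, integral_const_mul, h2]
  ring

/-- The dilated function. Proof: let `η` be the cutoff of `exists_cut` for `ρ = G.rho0`. Since `u`
and its gradient vanish off the ball of radius `4 ρ₀`, `H10 D (η u) ..` (`h10_mul`) is the
statement `H10 D u u₁ u₂` with approximations `η φ n`: they are test functions (`test_mul`) that
vanish off the ball of radius `6 ρ₀`, and `η u = u`, `η u₁ + d1 η u = u₁` pointwise (on the ball of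
radius `5 ρ₀` we have `d1 η = 0`, elsewhere `u = 0`). Their dilations are test functions
(`test_dl`), and the integrals of squares are transformed by `int_dl`, `d_dl`. -/
theorem h10_dl (G : Geo D) {V : P} (hV : V ∈ G.V) {m : ℝ} (hm : 1 / 2 ≤ m)
    {u u₁ u₂ : P → ℝ} (h : H10 D u u₁ u₂)
    (hs : ∀ q, 4 * G.rho0 ≤ dist q V → u q = 0 ∧ u₁ q = 0 ∧ u₂ q = 0) :
    H10 D (fun q => u (dl V m q)) (fun q => m * u₁ (dl V m q)) (fun q => m * u₂ (dl V m q)) := by
  have hm0 : 0 < m := by linarith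
  have hρ := G.pos
  obtain ⟨η, hcut, -, hη1, hη0, -⟩ := exists_cut V hρ
  obtain ⟨C, hC⟩ := hcut.bdd
  obtain ⟨φ, hφ, hl0, hl1, hl2⟩ := h.approx
  have hfac : ∀ n, MemLp (φ n) 2 volume ∧ MemLp (d1 (φ n)) 2 volume ∧
      MemLp (d2 (φ n)) 2 volume := fun n => (test_facts (hφ n)).2.2.1
  have hc0 : Continuous η := hcut.smooth.continuous
  have hcf : Continuous (fderiv ℝ η) := hcut.smooth.continuous_fderiv (by simp)
  have hc1 : Continuous (d1 η) := hcf.clm_apply continuous_const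
  have hc2 : Continuous (d2 η) := hcf.clm_apply continuous_const
  have hψt : ∀ n, Test D (fun q => η q * φ n q) := fun n => test_mul hcut.smooth (hφ n)
  have hψs : ∀ n, ∀ q, 7 * G.rho0 < dist q V → (fun q => η q * φ n q) q = 0 := by
    intro n q hq
    change η q * φ n q = 0
    rw [hη0 q (by linarith), zero_mul]
  -- pointwise identities
  have p0 : ∀ q, η q * u q + 0 * u q = u q := by
    intro q
    rcases le_or_gt (dist q V) (4 * G.rho0) with h1 | h1
    · rw [hη1 q (by linarith)]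
      ring
    · rw [(hs q h1.le).1]
      ring
  have p1 : ∀ q, η q * u₁ q + d1 η q * u q = u₁ q := by
    intro q
    rcases le_or_gt (dist q V) (4 * G.rho0) with h1 | h1
    · rw [hη1 q (by linarith), (D04_d hη1 (by linarith)).1]
      ring
    · rw [(hs q h1.le).1, (hs q h1.le).2.1]
      ring
  have p2 : ∀ q, η q * u₂ q + d2 η q * u q = u₂ q := by
    intro q
    rcases le_or_gt (dist q V) (4 * G.rho0) with h1 | h1
    · rw [hη1 q (by linarith), (D04_d hη1 (by linarith)).2]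
      ring
    · rw [(hs q h1.le).1, (hs q h1.le).2.2]
      ring
  have l0 : Tendsto (fun n => ∫ q, (η q * φ n q - u q) ^ 2) atTop (𝓝 0) := by
    have h1 := D04_key (e := fun _ => 0) hc0 (fun q => (hC q).1) continuous_const
      (fun q => by rw [abs_zero]; exact (abs_nonneg _).trans (hC q).1) h.mem h.mem
      (fun n => (hfac n).1) (fun n => (hfac n).1) hl0 hl0
    have p00 : ∀ q, η q * u q = u q := fun q => by
      have h2 := p0 q
      linarith
    simpa only [zero_mul, add_zero, p00] using h1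
  have l1 : Tendsto (fun n => ∫ q, (d1 (fun q => η q * φ n q) q - u₁ q) ^ 2) atTop (𝓝 0) := by
    have h1 := D04_key hc0 (fun q => (hC q).1) hc1 (fun q => (hC q).2.1) h.mem h.mem₁
      (fun n => (hfac n).1) (fun n => (hfac n).2.1) hl0 hl1
    simp only [p1] at h1
    refine h1.congr fun n => ?_
    refine integral_congr_ae (Filter.Eventually.of_forall fun q => ?_)
    change (η q * d1 (φ n) q + d1 η q * φ n q - u₁ q) ^ 2 =
      (d1 (fun q => η q * φ n q) q - u₁ q) ^ 2
    rw [(d_mul hcut.smooth (hφ n).smooth q).1]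
  have l2 : Tendsto (fun n => ∫ q, (d2 (fun q => η q * φ n q) q - u₂ q) ^ 2) atTop (𝓝 0) := by
    have h1 := D04_key hc0 (fun q => (hC q).1) hc2 (fun q => (hC q).2.2.1) h.mem h.mem₂
      (fun n => (hfac n).1) (fun n => (hfac n).2.2) hl0 hl2
    simp only [p2] at h1
    refine h1.congr fun n => ?_
    refine integral_congr_ae (Filter.Eventually.of_forall fun q => ?_)
    change (η q * d2 (φ n) q + d2 η q * φ n q - u₂ q) ^ 2 =
      (d2 (fun q => η q * φ n q) q - u₂ q) ^ 2
    rw [(d_mul hcut.smooth (hφ n).smooth q).2]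
  refine ⟨memLp_dl V hm0 h.mem, (memLp_dl V hm0 h.mem₁).const_mul m,
    (memLp_dl V hm0 h.mem₂).const_mul m, fun n q => η (dl V m q) * φ n (dl V m q),
    fun n => test_dl G hV hm (hψt n) (hψs n), ?_, ?_, ?_⟩
  · have h1 := D04_lim V hm0 (c := 1) l0
    simpa only [one_mul] using h1
  · have h1 := D04_lim V hm0 (c := m) l1
    refine h1.congr fun n => ?_
    refine integral_congr_ae (Filter.Eventually.of_forall fun q => ?_)
    change (m * d1 (fun q => η q * φ n q) (dl V m q) - m * u₁ (dl V m q)) ^ 2 =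
      (d1 (fun q => η (dl V m q) * φ n (dl V m q)) q - m * u₁ (dl V m q)) ^ 2
    rw [← (d_dl V m (hψt n).smooth q).1]
  · have h1 := D04_lim V hm0 (c := m) l2
    refine h1.congr fun n => ?_
    refine integral_congr_ae (Filter.Eventually.of_forall fun q => ?_)
    change (m * d2 (fun q => η q * φ n q) (dl V m q) - m * u₂ (dl V m q)) ^ 2 =
      (d2 (fun q => η (dl V m q) * φ n (dl V m q)) q - m * u₂ (dl V m q)) ^ 2
    rw [← (d_dl V m (hψt n).smooth q).2]

/-- Conformal invariance. Proof: `weak_h10` for `h` and the test functions `h10_dl` with the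
ratios `m` and `m⁻¹`: the two integrals `∫ f (u ∘ dl V m)`, `∫ f (u ∘ dl V m⁻¹)` are
`∫ ∇u·(m ∇u ∘ dl V m)` and `∫ ∇u·(m⁻¹ ∇u ∘ dl V m⁻¹)`, which are equal by `form_dl` (for the
pairs `(u₁, u₁)` and `(u₂, u₂)`; the products are integrable by `memLp_dl`). -/
theorem conf_inv (G : Geo D) {V : P} (hV : V ∈ G.V) {m : ℝ} (hm : 1 ≤ m) (hm2 : m ≤ 2)
    {u u₁ u₂ f : P → ℝ} (h : Dom D u u₁ u₂ f)
    (hs : ∀ q, 4 * G.rho0 ≤ dist q V → u q = 0 ∧ u₁ q = 0 ∧ u₂ q = 0) :
    ∫ q, f q * (u (dl V m q) - u (dl V m⁻¹ q)) = 0 := by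
  have hm0 : 0 < m := by linarith
  have hmi : 1 / 2 ≤ m⁻¹ := by
    rw [one_div]
    exact inv_anti₀ hm0 hm2
  have hmi0 : 0 < m⁻¹ := inv_pos.2 hm0
  have e1 := weak_h10 h (h10_dl G hV (by linarith : 1 / 2 ≤ m) h.h10 hs)
  have e2 := weak_h10 h (h10_dl G hV hmi h.h10 hs)
  have i1 : ∀ {k : ℝ}, 0 < k → ∀ {g g' : P → ℝ}, MemLp g 2 volume → MemLp g' 2 volume →
      Integrable (fun q => g q * (k * g' (dl V k q))) := fun hk _ _ hg hg' =>
    hg.integrable_mul ((memLp_dl V hk hg').const_mul _)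
  have i2 : ∀ {k : ℝ}, 0 < k → Integrable (fun q => f q * u (dl V k q)) := fun hk =>
    h.mem.integrable_mul (memLp_dl V hk h.h10.mem)
  rw [integral_add (i1 hm0 h.h10.mem₁ h.h10.mem₁) (i1 hm0 h.h10.mem₂ h.h10.mem₂),
    form_dl V hm0, form_dl V hm0] at e1
  rw [integral_add (i1 hmi0 h.h10.mem₁ h.h10.mem₁) (i1 hmi0 h.h10.mem₂ h.h10.mem₂)] at e2
  have h1 : ∀ g : P → ℝ, ∫ q, (m⁻¹ * g (dl V m⁻¹ q)) * g q =
      ∫ q, g q * (m⁻¹ * g (dl V m⁻¹ q)) := fun g =>
    integral_congr_ae (Filter.Eventually.of_forall fun q => mul_comm _ _)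
  rw [h1, h1] at e1
  have h2 : ∫ q, f q * (u (dl V m q) - u (dl V m⁻¹ q)) =
      (∫ q, f q * u (dl V m q)) - ∫ q, f q * u (dl V m⁻¹ q) := by
    rw [← integral_sub (i2 hm0) (i2 hmi0)]
    refine integral_congr_ae (Filter.Eventually.of_forall fun q => ?_)
    change f q * (u (dl V m q) - u (dl V m⁻¹ q)) =
      f q * u (dl V m q) - f q * u (dl V m⁻¹ q)
    ring
  rw [h2, ← e1, ← e2, sub_self]

end

end Pool.Agent.MP4eed4eR
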