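import Pool.Agent.Lib.MP_4eed4e_an_R.D04

/-!
MP_4eed4e_an, project R, module D05: difference quotients of dilations.
-/

namespace Pool.Agent.MP4eed4eR

open MeasureTheory Set Filter Topology Metric
open scoped ContDiff

noncomputable section

variable {D : Set P}

/-- The radial derivative. -/
def rd (V : P) (a b : P → ℝ) (q : P) : ℝ := (q.1 - V.1) * a q + (q.2 - V.2) * b q

private theorem D05_cs {a b : ℝ} (hab : a ≤ b) {f : ℝ → ℝ} (hf : ContinuousOn f (Icc a b)) :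
    (∫ s in a..b, f s) ^ 2 ≤ (b - a) * ∫ s in a..b, f s ^ 2 := by
  have h1 : IntervalIntegrable f volume a b := hf.intervalIntegrable_of_Icc hab
  have h2 : IntervalIntegrable (fun s => f s ^ 2) volume a b :=
    (hf.pow 2).intervalIntegrable_of_Icc hab
  rcases hab.eq_or_lt with rfl | hlt
  · simp
  obtain ⟨I, hI⟩ : ∃ I, I = ∫ s in a..b, f s := ⟨_, rfl⟩
  have h3 : 0 ≤ ∫ s in a..b, ((b - a) * f s - I) ^ 2 :=
    intervalIntegral.integral_nonneg hab fun s _ => sq_nonneg _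
  have h4 : ∫ s in a..b, ((b - a) * f s - I) ^ 2 =
      (b - a) ^ 2 * (∫ s in a..b, f s ^ 2) - (2 * (b - a) * I) * I + I ^ 2 * (b - a) := by
    have e : ∀ s, ((b - a) * f s - I) ^ 2 =
        (b - a) ^ 2 * f s ^ 2 - (2 * (b - a) * I) * f s + I ^ 2 := fun s => by ring
    simp only [e]
    rw [intervalIntegral.integral_add ((h2.const_mul _).sub (h1.const_mul _))
      intervalIntegrable_const, intervalIntegral.integral_sub (h2.const_mul _) (h1.const_mul _),
      intervalIntegral.integral_const_mul, intervalIntegral.integral_const_mul,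
      intervalIntegral.integral_const, ← hI, smul_eq_mul]
    ring
  rw [h4] at h3
  rw [← hI]
  have h5 : 0 < b - a := sub_pos.2 hlt
  have h6 : 0 ≤ (b - a) * ((b - a) * (∫ s in a..b, f s ^ 2) - I ^ 2) := by
    have e : (b - a) * ((b - a) * (∫ s in a..b, f s ^ 2) - I ^ 2) =
        (b - a) ^ 2 * (∫ s in a..b, f s ^ 2) - (2 * (b - a) * I) * I + I ^ 2 * (b - a) := by ring
    rw [e]
    exact h3
  have h7 := nonneg_of_mul_nonneg_right h6 h5
  linarith

private theorem D05_g (V : P) {φ : P → ℝ} (hφ : ContDiff ℝ ∞ φ) (hc : HasCompactSupport φ) :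
    Continuous (rd V (d1 φ) (d2 φ)) ∧ HasCompactSupport (rd V (d1 φ) (d2 φ)) ∧
      ∃ M, 0 ≤ M ∧ (∀ q, |rd V (d1 φ) (d2 φ) q| ≤ M) ∧
      ∃ R, 0 ≤ R ∧ ∀ q, R < dist q V → φ q = 0 ∧ rd V (d1 φ) (d2 φ) q = 0 := by
  have h1 : Continuous (fderiv ℝ φ) := hφ.continuous_fderiv (by simp)
  have h2 : Continuous (d1 φ) := h1.clm_apply continuous_const
  have h3 : Continuous (d2 φ) := h1.clm_apply continuous_const
  have h4 : Continuous (rd V (d1 φ) (d2 φ)) := by
    unfold rd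
    fun_prop
  have hcd : HasCompactSupport (fderiv ℝ φ) := hc.fderiv ℝ
  have hz : ∀ q, fderiv ℝ φ q = 0 → rd V (d1 φ) (d2 φ) q = 0 := by
    intro q hq
    unfold rd d1 d2
    rw [hq]
    simp
  have h5 : HasCompactSupport (rd V (d1 φ) (d2 φ)) := by
    refine hcd.mono fun q hq => ?_
    rw [Function.mem_support] at hq ⊢
    exact fun h => hq (hz q h)
  obtain ⟨M, hM⟩ := h4.bounded_above_of_compact_support h5
  obtain ⟨R, hR⟩ := (hc.isCompact.isBounded).subset_closedBall V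
  refine ⟨h4, h5, M, (norm_nonneg _).trans (hM 0), fun q => by simpa using hM q, max R 0,
    le_max_right _ _, fun q hq => ?_⟩
  have h6 : q ∉ tsupport φ := by
    intro h
    have h7 := hR h
    rw [mem_closedBall] at h7
    exact absurd (h7.trans (le_max_left R 0)) (not_le.2 hq)
  refine ⟨image_eq_zero_of_notMem_tsupport h6, hz q ?_⟩
  have h8 : q ∉ tsupport (fderiv ℝ φ) := fun h => h6 (tsupport_fderiv_subset ℝ h)
  exact image_eq_zero_of_notMem_tsupport h8

private theorem D05_dist (V : P) {s : ℝ} (hs : 0 < s) (q : P) :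
    dist (dl V s q) V = s * dist q V := by
  unfold dl
  rw [dist_eq_norm, add_sub_cancel_left, norm_smul, Real.norm_eq_abs, abs_of_pos hs,
    dist_eq_norm]

private theorem D05_cont (V : P) : Continuous (fun z : P × ℝ => dl V z.2 z.1) := by
  unfold dl
  fun_prop

private theorem D05_m {m : ℝ} (hm : 1 ≤ m) (hm2 : m ≤ 2) :
    1 / 2 ≤ m⁻¹ ∧ m⁻¹ ≤ m ∧ m - m⁻¹ ≤ 2 * (m - 1) := by
  have h0 : 0 < m := by linarith
  have h1 : m⁻¹ ≤ 1 := inv_le_one_of_one_le₀ hm
  have h2 : m * m⁻¹ = 1 := mul_inv_cancel₀ h0.ne'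
  have h3 : 1 / 2 ≤ m⁻¹ := by
    rw [one_div]
    exact inv_anti₀ h0 hm2
  refine ⟨h3, h1.trans hm, ?_⟩
  have h4 : 0 ≤ (m - 1) * (1 - m⁻¹) := mul_nonneg (by linarith) (by linarith)
  have h5 : (m - 1) * (1 - m⁻¹) = m - 1 - m * m⁻¹ + m⁻¹ := by ring
  rw [h5, h2] at h4
  linarith

private theorem D05_inv {a s : ℝ} (ha : 1 / 2 ≤ a) (hs : a ≤ s) : 0 < s ∧ s⁻¹ ≤ 2 ∧ 0 ≤ s⁻¹ := by
  have h0 : 0 < s := by linarith
  refine ⟨h0, ?_, (inv_pos.2 h0).le⟩
  have h1 := inv_anti₀ (by norm_num : (0 : ℝ) < 1 / 2) (ha.trans hs)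
  have h2 : (1 / 2 : ℝ)⁻¹ = 2 := by norm_num
  rwa [h2] at h1

/-- Proof: the curve `s ↦ φ (dl V s q)` has the derivative
`(q.1 - V.1) d1 φ (dl V s q) + (q.2 - V.2) d2 φ (dl V s q) = s⁻¹ rd V (d1 φ) (d2 φ) (dl V s q)`
(`(dl V s q).1 - V.1 = s (q.1 - V.1)`). -/
theorem hasDerivAt_dl (V : P) {φ : P → ℝ} (hφ : ContDiff ℝ ∞ φ) {s : ℝ} (hs : 0 < s) (q : P) :
    HasDerivAt (fun s => φ (dl V s q)) (s⁻¹ * rd V (d1 φ) (d2 φ) (dl V s q)) s := by
  have h1 : HasDerivAt (fun s : ℝ => dl V s q) (q - V) s := by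
    have h2 := ((hasDerivAt_id s).smul_const (q - V)).const_add V
    rw [one_smul] at h2
    exact h2
  have h2 : HasFDerivAt φ (fderiv ℝ φ (dl V s q)) (dl V s q) :=
    ((hφ.differentiable (by simp)) _).hasFDerivAt
  have h3 := h2.comp_hasDerivAt s h1
  have h4 : fderiv ℝ φ (dl V s q) (q - V) = s⁻¹ * rd V (d1 φ) (d2 φ) (dl V s q) := by
    have e1 : q - V = (q.1 - V.1) • ((1, 0) : P) + (q.2 - V.2) • ((0, 1) : P) := by
      ext <;> simp
    have e2 : (dl V s q).1 - V.1 = s * (q.1 - V.1) := by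
      simp [dl]
    have e3 : (dl V s q).2 - V.2 = s * (q.2 - V.2) := by
      simp [dl]
    rw [e1, map_add, map_smul, map_smul, smul_eq_mul, smul_eq_mul]
    unfold rd d1 d2
    rw [e2, e3]
    field_simp
  rw [h4] at h3
  exact h3

/-- Proof. By `hasDerivAt_dl` and the fundamental theorem, with `g = rd V (d1 φ) (d2 φ)`,
`φ (dl V m q) - φ (dl V m⁻¹ q) = ∫ s in m⁻¹..m, s⁻¹ g (dl V s q)`; by Cauchy-Schwarz its square is
at most `(m - m⁻¹) ∫ s in m⁻¹..m, s⁻² g (dl V s q)²`. Integrate over `q` and exchange the order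
(everything is continuous with compact support in `(s, q)`, or use `lintegral`); by `int_dl` the
integral over `q` of `g (dl V s q)²` is `s⁻² ∫ g²`. As `s ≥ 1/2` the total is at most
`16 (m - m⁻¹)² ∫ g² ≤ 64 (m - 1)² ∫ g²`. -/
theorem dl_bound (V : P) {φ : P → ℝ} (hφ : ContDiff ℝ ∞ φ) (hc : HasCompactSupport φ) {m : ℝ}
    (hm : 1 ≤ m) (hm2 : m ≤ 2) :
    ∫ q, (φ (dl V m q) - φ (dl V m⁻¹ q)) ^ 2 ≤
      64 * (m - 1) ^ 2 * ∫ q, rd V (d1 φ) (d2 φ) q ^ 2 := by
  obtain ⟨gc, -, M, hM0, hM, R, hR0, hR⟩ := D05_g V hφ hc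
  obtain ⟨m1, m2, m3⟩ := D05_m hm hm2
  have hm0 : 0 < m⁻¹ := by linarith
  set g := rd V (d1 φ) (d2 φ) with hg
  set K : P × ℝ → ℝ := fun z => (z.2⁻¹ * g (dl V z.2 z.1)) ^ 2 with hK
  set μ : Measure ℝ := volume.restrict (Ioc m⁻¹ m) with hμ
  have hFTC : ∀ q, φ (dl V m q) - φ (dl V m⁻¹ q) = ∫ s in m⁻¹..m, s⁻¹ * g (dl V s q) ∧
      ContinuousOn (fun s => s⁻¹ * g (dl V s q)) (Icc m⁻¹ m) := by
    intro q
    have hco : ContinuousOn (fun s => s⁻¹ * g (dl V s q)) (Icc m⁻¹ m) := by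
      refine ContinuousOn.mul (continuousOn_inv₀.mono ?_) ?_
      · intro s hs
        exact (lt_of_lt_of_le hm0 hs.1).ne'
      · exact (gc.comp ((D05_cont V).comp (Continuous.prodMk_right q))).continuousOn
    refine ⟨?_, hco⟩
    refine (intervalIntegral.integral_eq_sub_of_hasDerivAt (f := fun s => φ (dl V s q))
      (fun s hs => ?_) (hco.intervalIntegrable_of_Icc m2)).symm
    rw [uIcc_of_le m2] at hs
    exact hasDerivAt_dl V hφ (lt_of_lt_of_le hm0 hs.1) q
  have hKi : Integrable K (volume.prod μ) := by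
    have hb : Integrable (fun z : P × ℝ => (closedBall V (2 * R)).indicator
        (fun _ => (4 * M ^ 2 : ℝ)) z.1 * (1 : ℝ)) (volume.prod μ) := by
      refine Integrable.mul_prod (f := (closedBall V (2 * R)).indicator
        (fun _ => (4 * M ^ 2 : ℝ))) (g := fun _ : ℝ => (1 : ℝ)) ?_ (integrable_const _)
      refine (integrable_indicator_iff measurableSet_closedBall).2 ?_
      exact integrableOn_const (isCompact_closedBall V (2 * R)).measure_lt_top.ne
    refine hb.mono' ?_ ?_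
    · have h1 : Measurable K := by
        refine (Measurable.mul ?_ ?_).pow_const 2
        · exact measurable_snd.inv
        · exact (gc.comp (D05_cont V)).measurable
      exact h1.aestronglyMeasurable
    · have h2 : ∀ᵐ z : P × ℝ ∂(volume.prod μ), z.2 ∈ Ioc m⁻¹ m := by
        have h3 : ∀ᵐ s ∂μ, s ∈ Ioc m⁻¹ m := ae_restrict_mem measurableSet_Ioc
        exact Measure.quasiMeasurePreserving_snd.ae h3
      filter_upwards [h2] with z hz
      obtain ⟨s0, s1, s2⟩ := D05_inv m1 hz.1.le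
      rw [mul_one, Real.norm_eq_abs, abs_of_nonneg (sq_nonneg _)]
      by_cases hzb : z.1 ∈ closedBall V (2 * R)
      · rw [indicator_of_mem hzb]
        have h4 := hM (dl V z.2 z.1)
        have h5 : |z.2⁻¹ * g (dl V z.2 z.1)| ≤ 2 * M := by
          rw [abs_mul, abs_of_nonneg s2]
          exact mul_le_mul s1 h4 (abs_nonneg _) (by norm_num)
        have h6 : (z.2⁻¹ * g (dl V z.2 z.1)) ^ 2 ≤ (2 * M) ^ 2 :=
          sq_le_sq' (by linarith [(abs_le.1 h5).1]) (abs_le.1 h5).2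
        show (z.2⁻¹ * g (dl V z.2 z.1)) ^ 2 ≤ 4 * M ^ 2
        linarith
      · rw [indicator_of_notMem hzb]
        rw [mem_closedBall, not_le] at hzb
        have h7 : R < dist (dl V z.2 z.1) V := by
          rw [D05_dist V s0]
          have h8 : 1 / 2 ≤ z.2 := m1.trans hz.1.le
          nlinarith
        have h9 := (hR _ h7).2
        show (z.2⁻¹ * g (dl V z.2 z.1)) ^ 2 ≤ 0
        rw [h9, mul_zero]
        norm_num
  have hswap : ∫ q, (∫ s, K (q, s) ∂μ) = ∫ s, (∫ q, K (q, s)) ∂μ :=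
    integral_integral_swap (f := fun q s => K (q, s)) hKi
  have hpt : ∀ q, (φ (dl V m q) - φ (dl V m⁻¹ q)) ^ 2 ≤ (m - m⁻¹) * ∫ s, K (q, s) ∂μ := by
    intro q
    obtain ⟨h1, h2⟩ := hFTC q
    rw [h1]
    refine (D05_cs m2 h2).trans (le_of_eq ?_)
    rw [intervalIntegral.integral_of_le m2]
  have hone : ∀ s ∈ Ioc m⁻¹ m, ∫ q, K (q, s) ≤ 16 * ∫ q, g q ^ 2 := by
    intro s hs
    obtain ⟨s0, s1, s2⟩ := D05_inv m1 hs.1.le
    have e1 : ∫ q, K (q, s) = s⁻¹ ^ 2 * ∫ q, g (dl V s q) ^ 2 := by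
      rw [← integral_const_mul]
      refine integral_congr_ae (Filter.Eventually.of_forall fun q => ?_)
      show (s⁻¹ * g (dl V s q)) ^ 2 = s⁻¹ ^ 2 * g (dl V s q) ^ 2
      ring
    rw [e1, int_dl V s0 (fun q => g q ^ 2), ← mul_assoc]
    have h1 : 0 ≤ ∫ q, g q ^ 2 := integral_nonneg fun q => sq_nonneg _
    refine mul_le_mul_of_nonneg_right ?_ h1
    rw [← inv_pow, ← pow_add]
    calc s⁻¹ ^ (2 + 2) ≤ 2 ^ (2 + 2) := pow_le_pow_left₀ s2 s1 _
      _ = 16 := by norm_num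
  have hI : ∫ s, (∫ q, K (q, s)) ∂μ ≤ (m - m⁻¹) * (16 * ∫ q, g q ^ 2) := by
    have h1 : IntegrableOn (fun s => ∫ q, K (q, s)) (Ioc m⁻¹ m) volume :=
      hKi.swap.integral_prod_left
    have h2 : IntegrableOn (fun _ : ℝ => 16 * ∫ q, g q ^ 2) (Ioc m⁻¹ m) volume :=
      integrableOn_const measure_Ioc_lt_top.ne
    have h3 := setIntegral_mono_on h1 h2 measurableSet_Ioc hone
    rw [setIntegral_const, Real.volume_real_Ioc_of_le m2, smul_eq_mul] at h3
    exact h3
  have hL : ∫ q, (φ (dl V m q) - φ (dl V m⁻¹ q)) ^ 2 ≤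
      ∫ q, (m - m⁻¹) * ∫ s, K (q, s) ∂μ :=
    integral_mono_of_nonneg (Filter.Eventually.of_forall fun q => sq_nonneg _)
      (hKi.integral_prod_left.const_mul _) (Filter.Eventually.of_forall hpt)
  rw [integral_const_mul, hswap] at hL
  have h0 : 0 ≤ m - m⁻¹ := by linarith
  have h1 : 0 ≤ ∫ q, g q ^ 2 := integral_nonneg fun q => sq_nonneg _
  have h2 := mul_le_mul_of_nonneg_left hI h0
  have h3 : (m - m⁻¹) ^ 2 ≤ (2 * (m - 1)) ^ 2 := pow_le_pow_left₀ h0 m3 2
  have h4 := mul_le_mul_of_nonneg_right h3 (mul_nonneg (by norm_num : (0 : ℝ) ≤ 16) h1)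
  calc ∫ q, (φ (dl V m q) - φ (dl V m⁻¹ q)) ^ 2
      ≤ (m - m⁻¹) * ∫ s, (∫ q, K (q, s)) ∂μ := hL
    _ ≤ (m - m⁻¹) * ((m - m⁻¹) * (16 * ∫ q, g q ^ 2)) := h2
    _ = (m - m⁻¹) ^ 2 * (16 * ∫ q, g q ^ 2) := by ring
    _ ≤ (2 * (m - 1)) ^ 2 * (16 * ∫ q, g q ^ 2) := h4
    _ = 64 * (m - 1) ^ 2 * ∫ q, g q ^ 2 := by ring

/-- The ratios `1 + 1 / (n + 1)`. Proof: dominated convergence. Pointwise the quotient
`(φ (dl V m q) - φ (dl V m⁻¹ q)) / (m - 1)` tends to `2 rd V (d1 φ) (d2 φ) q` as `m → 1`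
(`hasDerivAt_dl` at `s = 1`, and the chain rule for `m ↦ m⁻¹`; `dl V 1 q = q`). It is bounded by
`8 sup |rd V (d1 φ) (d2 φ)|` (mean value theorem on `[m⁻¹, m] ⊆ [1/2, 2]`,
`m - m⁻¹ ≤ 2 (m - 1)`), and it vanishes off a fixed ball about `V` (the support of `φ` is
contained in a ball of radius `R` about `V`, so the quotient vanishes for `dist q V > 2 R`); `f`
is integrable on that ball. -/
theorem dl_quot (V : P) {φ : P → ℝ} (hφ : ContDiff ℝ ∞ φ) (hc : HasCompactSupport φ)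
    {f : P → ℝ} (hf : MemLp f 2 volume) :
    Tendsto (fun n : ℕ => ((n : ℝ) + 1) * ∫ q, f q * (φ (dl V (1 + 1 / ((n : ℝ) + 1)) q) -
      φ (dl V (1 + 1 / ((n : ℝ) + 1))⁻¹ q))) atTop
      (𝓝 (2 * ∫ q, f q * rd V (d1 φ) (d2 φ) q)) := by
  obtain ⟨gc, -, M, hM0, hM, R, hR0, hR⟩ := D05_g V hφ hc
  set g := rd V (d1 φ) (d2 φ) with hg
  have hmn : ∀ n : ℕ, 1 ≤ 1 + 1 / ((n : ℝ) + 1) ∧ 1 + 1 / ((n : ℝ) + 1) ≤ 2 := by
    intro n
    have h1 : (0 : ℝ) < (n : ℝ) + 1 := by positivity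
    have h2 : 1 / ((n : ℝ) + 1) ≤ 1 := by
      rw [div_le_one h1]
      have : (0 : ℝ) ≤ n := by positivity
      linarith
    have h3 : 0 < 1 / ((n : ℝ) + 1) := by positivity
    constructor <;> linarith
  have hdc : ∀ (m : ℝ), Continuous (fun q => φ (dl V m q)) := fun m =>
    hφ.continuous.comp ((D05_cont V).comp (Continuous.prodMk_left m))
  have hbd : ∀ m : ℝ, 1 ≤ m → m ≤ 2 → ∀ q,
      |φ (dl V m q) - φ (dl V m⁻¹ q)| ≤ (m - 1) * (4 * M) ∧
        (2 * R < dist q V → φ (dl V m q) - φ (dl V m⁻¹ q) = 0) := by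
    intro m hm hm2 q
    obtain ⟨m1, m2, m3⟩ := D05_m hm hm2
    have hm0 : 0 < m⁻¹ := by linarith
    constructor
    · have h1 := Convex.norm_image_sub_le_of_norm_hasDerivWithin_le
        (f := fun s => φ (dl V s q)) (f' := fun s => s⁻¹ * g (dl V s q)) (C := 2 * M)
        (s := Icc m⁻¹ m) (x := m⁻¹) (y := m)
        (fun s hs => (hasDerivAt_dl V hφ (lt_of_lt_of_le hm0 hs.1) q).hasDerivWithinAt)
        (fun s hs => by
          obtain ⟨s0, s1, s2⟩ := D05_inv m1 hs.1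
          rw [Real.norm_eq_abs, abs_mul, abs_of_nonneg s2]
          exact mul_le_mul s1 (hM _) (abs_nonneg _) (by norm_num))
        (convex_Icc _ _) (left_mem_Icc.2 m2) (right_mem_Icc.2 m2)
      rw [Real.norm_eq_abs, Real.norm_eq_abs, abs_of_nonneg (sub_nonneg.2 m2)] at h1
      have h2 := mul_le_mul_of_nonneg_left m3 (by linarith : 0 ≤ 2 * M)
      linarith
    · intro h1
      have h2 : R < dist (dl V m q) V := by
        rw [D05_dist V (by linarith : 0 < m)]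
        nlinarith
      have h3 : R < dist (dl V m⁻¹ q) V := by
        rw [D05_dist V hm0]
        nlinarith
      rw [(hR _ h2).1, (hR _ h3).1, sub_zero]
  have key : Tendsto (fun n : ℕ => ∫ q, ((n : ℝ) + 1) * (f q *
      (φ (dl V (1 + 1 / ((n : ℝ) + 1)) q) - φ (dl V (1 + 1 / ((n : ℝ) + 1))⁻¹ q)))) atTop
      (𝓝 (∫ q, f q * (2 * g q))) := by
    refine tendsto_integral_of_dominated_convergence
      (fun q => |f q| * (closedBall V (2 * R)).indicator (fun _ => 4 * M) q) ?_ ?_ ?_ ?_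
    · intro n
      exact (hf.1.mul ((hdc _).sub (hdc _)).aestronglyMeasurable).const_mul _
    · have h1 : MemLp ((closedBall V (2 * R)).indicator (fun _ : P => 4 * M)) 2 volume :=
        memLp_indicator_const 2 measurableSet_closedBall _
          (Or.inr (isCompact_closedBall V (2 * R)).measure_lt_top.ne)
      have h2 : MemLp (fun q => |f q|) 2 volume := hf.abs
      exact h2.integrable_mul h1
    · intro n
      refine Filter.Eventually.of_forall fun q => ?_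
      obtain ⟨h1, h2⟩ := hmn n
      obtain ⟨h3, h4⟩ := hbd _ h1 h2 q
      have hn : (0 : ℝ) < (n : ℝ) + 1 := by positivity
      rw [Real.norm_eq_abs, abs_mul, abs_mul, abs_of_pos hn]
      by_cases hq : q ∈ closedBall V (2 * R)
      · rw [indicator_of_mem hq]
        have e1 : (1 + 1 / ((n : ℝ) + 1) - 1) * (4 * M) = (4 * M) / ((n : ℝ) + 1) := by
          ring
        rw [e1, le_div_iff₀ hn] at h3
        have h5 := mul_le_mul_of_nonneg_left h3 (abs_nonneg (f q))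
        linarith
      · rw [indicator_of_notMem hq]
        rw [mem_closedBall, not_le] at hq
        rw [h4 hq, abs_zero, mul_zero, mul_zero]
    · refine Filter.Eventually.of_forall fun q => ?_
      have d1' : HasDerivAt (fun s => φ (dl V s q)) (g q) 1 := by
        have h1 := hasDerivAt_dl V hφ one_pos q
        have h2 : dl V 1 q = q := by simp [dl]
        rw [h2, inv_one, one_mul] at h1
        exact h1
      have d2' : HasDerivAt (fun s : ℝ => φ (dl V s⁻¹ q)) (-g q) 1 := by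
        have h1 : HasDerivAt (fun s : ℝ => s⁻¹) (-(1 ^ 2)⁻¹) (1 : ℝ) := hasDerivAt_inv one_ne_zero
        have h2 : HasDerivAt (fun s => φ (dl V s q)) (g q) ((1 : ℝ)⁻¹) := by
          rw [inv_one]
          exact d1'
        have h3 := h2.comp (1 : ℝ) h1
        have h4 : g q * -((1 : ℝ) ^ 2)⁻¹ = -g q := by norm_num
        rw [h4] at h3
        exact h3
      have d3 := d1'.sub d2'
      rw [hasDerivAt_iff_tendsto_slope_zero] at d3
      have h5 : Tendsto (fun n : ℕ => 1 / ((n : ℝ) + 1)) atTop (𝓝[≠] 0) := by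
        refine tendsto_nhdsWithin_iff.2 ⟨tendsto_one_div_add_atTop_nhds_zero_nat, ?_⟩
        refine Filter.Eventually.of_forall fun n => ?_
        have hn : (0 : ℝ) < (n : ℝ) + 1 := by positivity
        exact (one_div_pos.2 hn).ne'
      have h6 := d3.comp h5
      have h7 : g q - -g q = 2 * g q := by ring
      rw [h7] at h6
      refine (h6.const_mul (f q)).congr fun n => ?_
      show f q * ((1 / ((n : ℝ) + 1))⁻¹ • ((φ (dl V (1 + 1 / ((n : ℝ) + 1)) q) -
        φ (dl V (1 + 1 / ((n : ℝ) + 1))⁻¹ q)) - (φ (dl V 1 q) - φ (dl V (1 : ℝ)⁻¹ q)))) = _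
      rw [inv_one, sub_self, sub_zero, one_div, inv_inv, smul_eq_mul]
      ring
  have e1 : ∫ q, f q * (2 * g q) = 2 * ∫ q, f q * g q := by
    rw [← integral_const_mul]
    refine integral_congr_ae (Filter.Eventually.of_forall fun q => ?_)
    show f q * (2 * g q) = 2 * (f q * g q)
    ring
  rw [← e1]
  refine key.congr fun n => ?_
  rw [integral_const_mul]

end

end Pool.Agent.MP4eed4eR
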