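import Pool.Agent.Lib.MP_4eed4e_an_R.D05

/-!
MP_4eed4e_an, project R, module D06: the dilation identity at a reflex vertex.
-/

namespace Pool.Agent.MP4eed4eR

open MeasureTheory Set Filter Topology Metric
open scoped ContDiff

noncomputable section

variable {D : Set P}

/-- Test functions belong to `H10` (constant sequence; `test_facts`). -/
theorem test_h10 {φ : P → ℝ} (h : Test D φ) : H10 D φ (d1 φ) (d2 φ) := by
  obtain ⟨-, -, ⟨m0, m1, m2⟩, -⟩ := test_facts h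
  exact ⟨m0, m1, m2, fun _ => φ, fun _ => h, by simp, by simp, by simp⟩

/-- Cauchy-Schwarz -/
private theorem D06.cs {f g : P → ℝ} (hf : MemLp f 2 volume) (hg : MemLp g 2 volume) :
    (∫ q, f q * g q) ^ 2 ≤ (∫ q, f q ^ 2) * ∫ q, g q ^ 2 := by
  have i1 : Integrable (fun q => f q ^ 2) volume := hf.integrable_sq
  have i2 : Integrable (fun q => g q ^ 2) volume := hg.integrable_sq
  have i3 : Integrable (fun q => f q * g q) volume := hf.integrable_mul hg
  have key : ∀ t : ℝ, 0 ≤ (∫ q, g q ^ 2) * (t * t) + (-2 * ∫ q, f q * g q) * t +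
      ∫ q, f q ^ 2 := by
    intro t
    have h1 : (∫ q, g q ^ 2) * (t * t) + (-2 * ∫ q, f q * g q) * t + ∫ q, f q ^ 2 =
        ∫ q, (f q - t * g q) ^ 2 := by
      have h2 : ∀ q, (f q - t * g q) ^ 2 = (t * t) * g q ^ 2 + ((-2 * t) * (f q * g q) +
        f q ^ 2) := fun q => by ring
      simp only [h2]
      rw [integral_add (f := fun q => (t * t) * g q ^ 2)
        (g := fun q => (-2 * t) * (f q * g q) + f q ^ 2) (i2.const_mul _)
        ((i3.const_mul _).add i1), integral_add (i3.const_mul _) i1, integral_const_mul,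
        integral_const_mul]
      ring
    rw [h1]
    exact integral_nonneg fun q => sq_nonneg _
  have h3 := discrim_le_zero key
  unfold discrim at h3
  nlinarith [h3]

/-- the radial derivative of square integrable functions that vanish off `D` -/
private theorem D06.rdg {V : P} {R : ℝ} (hR : ∀ q ∈ D, |q.1 - V.1| ≤ R ∧ |q.2 - V.2| ≤ R)
    (hR0 : 0 ≤ R) {a b : P → ℝ} (ha : MemLp a 2 volume) (hb : MemLp b 2 volume)
    (ha0 : ∀ᵐ q ∂volume, q ∉ D → a q = 0) (hb0 : ∀ᵐ q ∂volume, q ∉ D → b q = 0) :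
    MemLp (rd V a b) 2 volume ∧
      ∫ q, rd V a b q ^ 2 ≤ 2 * R ^ 2 * ((∫ q, a q ^ 2) + ∫ q, b q ^ 2) := by
  have hm : AEStronglyMeasurable (rd V a b) volume := by
    refine AEStronglyMeasurable.add ?_ ?_
    · exact (by fun_prop : Continuous fun q : P => q.1 - V.1).aestronglyMeasurable.mul ha.1
    · exact (by fun_prop : Continuous fun q : P => q.2 - V.2).aestronglyMeasurable.mul hb.1
  have hM : MemLp (rd V a b) 2 volume := by
    refine MemLp.mono ((ha.abs.const_mul R).add (hb.abs.const_mul R)) hm ?_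
    filter_upwards [ha0, hb0] with q h1 h2
    rw [Real.norm_eq_abs, Real.norm_eq_abs]
    refine le_trans ?_ (le_abs_self (R * |a q| + R * |b q|))
    by_cases hq : q ∈ D
    · refine le_trans (abs_add_le _ _) ?_
      rw [abs_mul, abs_mul]
      exact add_le_add (mul_le_mul_of_nonneg_right (hR q hq).1 (abs_nonneg _))
        (mul_le_mul_of_nonneg_right (hR q hq).2 (abs_nonneg _))
    · rw [rd, h1 hq, h2 hq]
      simp
  refine ⟨hM, ?_⟩
  rw [← integral_add ha.integrable_sq hb.integrable_sq, ← integral_const_mul]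
  refine integral_mono_ae hM.integrable_sq
    ((ha.integrable_sq.add hb.integrable_sq).const_mul _) ?_
  filter_upwards [ha0, hb0] with q h1 h2
  simp only [rd]
  by_cases hq : q ∈ D
  · have e1 : (q.1 - V.1) ^ 2 ≤ R ^ 2 := by
      rw [← sq_abs]
      exact pow_le_pow_left₀ (abs_nonneg _) (hR q hq).1 2
    have e2 : (q.2 - V.2) ^ 2 ≤ R ^ 2 := by
      rw [← sq_abs]
      exact pow_le_pow_left₀ (abs_nonneg _) (hR q hq).2 2
    have e3 := mul_le_mul_of_nonneg_right e1 (sq_nonneg (a q))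
    have e4 := mul_le_mul_of_nonneg_right e2 (sq_nonneg (b q))
    nlinarith [sq_nonneg ((q.1 - V.1) * a q - (q.2 - V.2) * b q)]
  · rw [h1 hq, h2 hq]
    simp

private theorem D06.exR (hb : Bornology.IsBounded D) (V : P) :
    ∃ R : ℝ, 0 ≤ R ∧ ∀ q ∈ D, |q.1 - V.1| ≤ R ∧ |q.2 - V.2| ≤ R := by
  obtain ⟨R, hR⟩ := hb.subset_closedBall V
  refine ⟨max R 0, le_max_right _ _, fun q hq => ?_⟩
  have h1 : dist q V ≤ R := hR hq
  have h2 : dist q V = max |q.1 - V.1| |q.2 - V.2| := by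
    rw [Prod.dist_eq, Real.dist_eq, Real.dist_eq]
  have h3 := le_max_left |q.1 - V.1| |q.2 - V.2|
  have h4 := le_max_right |q.1 - V.1| |q.2 - V.2|
  have h5 := le_max_left R 0
  exact ⟨by linarith, by linarith⟩

/-- The radial derivative is continuous on `H¹₀` of a bounded domain. Proof: choose `R` with
`|q.1 - V.1| ≤ R`, `|q.2 - V.2| ≤ R` on `D`; the functions `d1 (φ n)`, `u₁` vanish off `D`
(`test_facts`, `h10_zero`), so almost everywhere
`(rd V (d1 φ) (d2 φ) - rd V u₁ u₂)² ≤ 2 R² ((d1 φ - u₁)² + (d2 φ - u₂)²)`. -/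
theorem rd_cont (hD : IsOpen D) (hb : Bornology.IsBounded D) (V : P) {u u₁ u₂ : P → ℝ}
    (h : H10 D u u₁ u₂) :
    ∃ R : ℝ, MemLp (rd V u₁ u₂) 2 volume ∧ ∀ φ : P → ℝ, Test D φ →
      MemLp (rd V (d1 φ) (d2 φ)) 2 volume ∧
      ∫ q, (rd V (d1 φ) (d2 φ) q - rd V u₁ u₂ q) ^ 2 ≤
        2 * R ^ 2 * ((∫ q, (d1 φ q - u₁ q) ^ 2) + ∫ q, (d2 φ q - u₂ q) ^ 2) := by
  obtain ⟨R, hR0, hR⟩ := D06.exR hb V
  obtain ⟨-, z1, z2⟩ := h10_zero hD h
  refine ⟨R, (D06.rdg hR hR0 h.mem₁ h.mem₂ z1 z2).1, fun φ hφ => ?_⟩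
  obtain ⟨-, -, ⟨-, m1, m2⟩, z⟩ := test_facts hφ
  refine ⟨(D06.rdg hR hR0 m1 m2 (Eventually.of_forall fun q hq => (z q hq).2.1)
    (Eventually.of_forall fun q hq => (z q hq).2.2)).1, ?_⟩
  have k := (D06.rdg (V := V) hR hR0 (m1.sub h.mem₁) (m2.sub h.mem₂)
    (by
      filter_upwards [z1] with q hq hqD
      rw [Pi.sub_apply, hq hqD, (z q hqD).2.1, sub_zero])
    (by
      filter_upwards [z2] with q hq hqD
      rw [Pi.sub_apply, hq hqD, (z q hqD).2.2, sub_zero])).2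
  have e : ∀ q, rd V (d1 φ) (d2 φ) q - rd V u₁ u₂ q = rd V (d1 φ - u₁) (d2 φ - u₂) q := by
    intro q
    simp only [rd, Pi.sub_apply]
    ring
  simp only [e]
  exact k

/-- splitting -/
private theorem D06.split (V : P) {f u : P → ℝ} (hf : MemLp f 2 volume)
    (hu : MemLp u 2 volume) {m : ℝ} (hm : 0 < m) :
    ∫ q, f q * (u (dl V m q) - u (dl V m⁻¹ q)) =
      (∫ q, u (dl V m q) * f q) - ∫ q, u (dl V m⁻¹ q) * f q := by
  have i1 : Integrable (fun q => u (dl V m q) * f q) volume := (memLp_dl V hm hu).integrable_mul hf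
  have i2 : Integrable (fun q => u (dl V m⁻¹ q) * f q) volume :=
    (memLp_dl V (inv_pos.2 hm) hu).integrable_mul hf
  rw [← integral_sub i1 i2]
  refine integral_congr_ae (Eventually.of_forall fun q => ?_)
  simp only
  ring

/-- limit of the dilated integrals -/
private theorem D06.lim (V : P) {f u : P → ℝ} {φ : ℕ → P → ℝ} (hf : MemLp f 2 volume)
    (hu : MemLp u 2 volume) (hφ : ∀ n, MemLp (φ n) 2 volume)
    (h : Tendsto (fun n => ∫ q, (φ n q - u q) ^ 2) atTop (𝓝 0)) {m : ℝ} (hm : 0 < m) :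
    Tendsto (fun n => ∫ q, φ n (dl V m q) * f q) atTop (𝓝 (∫ q, u (dl V m q) * f q)) := by
  refine l2_lim (fun n => memLp_dl V hm (hφ n)) (memLp_dl V hm hu) hf ?_
  have e : ∀ n, ∫ q, (φ n (dl V m q) - u (dl V m q)) ^ 2 =
      (m ^ 2)⁻¹ * ∫ q, (φ n q - u q) ^ 2 := fun n =>
    int_dl V hm (fun q => (φ n q - u q) ^ 2)
  simp only [e]
  simpa using h.const_mul ((m ^ 2)⁻¹)

/-- Proof: for test functions `φ n` this is Cauchy-Schwarz and `dl_bound`. For the approximations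
`φ n` of `u` both sides converge: the left one by `l2_lim` (the dilated sequences converge in
`L²` by `int_dl`), the right one by `rd_cont` and `l2_lim2`. -/
theorem dl_bound_h10 (hD : IsOpen D) (hb : Bornology.IsBounded D) (V : P) {u u₁ u₂ f : P → ℝ}
    (h : H10 D u u₁ u₂) (hf : MemLp f 2 volume) {m : ℝ} (hm : 1 ≤ m) (hm2 : m ≤ 2) :
    (∫ q, f q * (u (dl V m q) - u (dl V m⁻¹ q))) ^ 2 ≤
      64 * (m - 1) ^ 2 * (∫ q, f q ^ 2) * ∫ q, rd V u₁ u₂ q ^ 2 := by
  have hm0 : 0 < m := by linarith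
  obtain ⟨R, r1, r2⟩ := rd_cont hD hb V h
  obtain ⟨φ, hφ, l0, l1, l2⟩ := h.approx
  have hφm : ∀ n, MemLp (φ n) 2 volume := fun n => (test_facts (hφ n)).2.2.1.1
  -- the estimate for the test functions
  have key : ∀ n, (∫ q, f q * (φ n (dl V m q) - φ n (dl V m⁻¹ q))) ^ 2 ≤
      64 * (m - 1) ^ 2 * (∫ q, f q ^ 2) *
        ∫ q, rd V (d1 (φ n)) (d2 (φ n)) q * rd V (d1 (φ n)) (d2 (φ n)) q := by
    intro n
    have h1 := dl_bound V (hφ n).smooth (hφ n).compact hm hm2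
    have h2 := D06.cs hf ((memLp_dl V hm0 (hφm n)).sub (memLp_dl V (inv_pos.2 hm0) (hφm n)))
    simp only [Pi.sub_apply] at h2
    refine le_trans h2 ?_
    have h3 := mul_le_mul_of_nonneg_left h1 (integral_nonneg (fun q => sq_nonneg (f q)) :
      0 ≤ ∫ q, f q ^ 2)
    refine le_trans h3 (le_of_eq ?_)
    simp only [← pow_two]
    ring
  have L : Tendsto (fun n => (∫ q, f q * (φ n (dl V m q) - φ n (dl V m⁻¹ q))) ^ 2) atTop
      (𝓝 ((∫ q, f q * (u (dl V m q) - u (dl V m⁻¹ q))) ^ 2)) := by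
    refine Tendsto.pow ?_ 2
    rw [D06.split V hf h.mem hm0]
    have e : ∀ n, ∫ q, f q * (φ n (dl V m q) - φ n (dl V m⁻¹ q)) =
        (∫ q, φ n (dl V m q) * f q) - ∫ q, φ n (dl V m⁻¹ q) * f q := fun n =>
      D06.split V hf (hφm n) hm0
    simp only [e]
    exact (D06.lim V hf h.mem hφm l0 hm0).sub (D06.lim V hf h.mem hφm l0 (inv_pos.2 hm0))
  have rl : Tendsto (fun n => ∫ q, (rd V (d1 (φ n)) (d2 (φ n)) q - rd V u₁ u₂ q) ^ 2) atTop
      (𝓝 0) := by
    have h3 := (l1.add l2).const_mul (2 * R ^ 2)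
    simp only [add_zero, mul_zero] at h3
    exact squeeze_zero (fun n => integral_nonneg fun q => sq_nonneg _)
      (fun n => (r2 (φ n) (hφ n)).2) h3
  have Rt := (l2_lim2 (fun n => (r2 (φ n) (hφ n)).1) (fun n => (r2 (φ n) (hφ n)).1) r1 r1 rl
    rl).const_mul (64 * (m - 1) ^ 2 * (∫ q, f q ^ 2))
  have res := le_of_tendsto_of_tendsto' L Rt key
  simp only [← pow_two] at res
  exact res

/-- D3: the dilation identity at a reflex vertex. Proof. Let `φ n` be the approximations of `u`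
and `T m v = ∫ f (v ∘ dl V m - v ∘ dl V m⁻¹)`. For `1 ≤ m ≤ 2` we have `T m u = 0` (`conf_inv`), so
`(T m (φ n))² = (T m (u - φ n))² ≤ 64 (m - 1)² ∫ f² ∫ (rd (u - φ n))²` (`dl_bound_h10` for
`u - φ n`, `h10_lin` with `test_h10`). Take `m = 1 + 1 / (j + 1)`, divide by `(m - 1)²` and let
`j → ∞` (`dl_quot`): `4 (∫ f rd (φ n))² ≤ 64 ∫ f² ∫ (rd (u - φ n))²`. Let `n → ∞`: the right hand
side tends to `0` (`rd_cont`) and the left hand side to `4 (∫ f rd V u₁ u₂)²` (`l2_lim`). The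
hypothesis on the support of `f` is not needed. -/
theorem dilation (G : Geo D) {V : P} (hV : V ∈ G.V) {u u₁ u₂ f : P → ℝ}
    (h : Dom D u u₁ u₂ f) (hsu : ∀ q, 4 * G.rho0 ≤ dist q V → u q = 0 ∧ u₁ q = 0 ∧ u₂ q = 0)
    (hsf : ∀ q, 4 * G.rho0 ≤ dist q V → f q = 0) :
    ∫ q, f q * ((q.1 - V.1) * u₁ q + (q.2 - V.2) * u₂ q) = 0 := by
  have hD := G.isOpen
  have hb := G.isBounded
  obtain ⟨R, r1, r2⟩ := rd_cont hD hb V h.h10
  obtain ⟨φ, hφ, l0, l1, l2⟩ := h.h10.approx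
  have hφm : ∀ n, MemLp (φ n) 2 volume := fun n => (test_facts (hφ n)).2.2.1.1
  -- the estimate for fixed `m`
  have key : ∀ n, ∀ m : ℝ, 1 ≤ m → m ≤ 2 →
      (∫ q, f q * (φ n (dl V m q) - φ n (dl V m⁻¹ q))) ^ 2 ≤
      64 * (m - 1) ^ 2 * (∫ q, f q ^ 2) *
        ∫ q, (rd V (d1 (φ n)) (d2 (φ n)) q - rd V u₁ u₂ q) ^ 2 := by
    intro n m hm hm2
    have hm0 : 0 < m := by linarith
    have h1 := conf_inv G hV hm hm2 h hsu
    have hw := h10_lin 1 (-1) h.h10 (test_h10 (hφ n))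
    have h2 := dl_bound_h10 hD hb V hw h.mem hm hm2
    have e1 : ∫ q, f q * ((1 * u (dl V m q) + -1 * φ n (dl V m q)) -
        (1 * u (dl V m⁻¹ q) + -1 * φ n (dl V m⁻¹ q))) =
        -∫ q, f q * (φ n (dl V m q) - φ n (dl V m⁻¹ q)) := by
      have i1 : Integrable (fun q => f q * (u (dl V m q) - u (dl V m⁻¹ q))) volume :=
        h.mem.integrable_mul
          ((memLp_dl V hm0 h.h10.mem).sub (memLp_dl V (inv_pos.2 hm0) h.h10.mem))
      have i2 : Integrable (fun q => f q * (φ n (dl V m q) - φ n (dl V m⁻¹ q))) volume :=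
        h.mem.integrable_mul
          ((memLp_dl V hm0 (hφm n)).sub (memLp_dl V (inv_pos.2 hm0) (hφm n)))
      have e2 : ∀ q, f q * ((1 * u (dl V m q) + -1 * φ n (dl V m q)) -
        (1 * u (dl V m⁻¹ q) + -1 * φ n (dl V m⁻¹ q))) =
        f q * (u (dl V m q) - u (dl V m⁻¹ q)) -
          f q * (φ n (dl V m q) - φ n (dl V m⁻¹ q)) := fun q => by ring
      simp only [e2]
      rw [integral_sub i1 i2, h1, zero_sub]
    rw [e1, neg_sq] at h2
    refine le_trans h2 (le_of_eq ?_)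
    congr 1
    refine integral_congr_ae (Eventually.of_forall fun q => ?_)
    simp only [rd]
    ring
  -- the limit `m → 1`
  have key2 : ∀ n, (2 * ∫ q, f q * rd V (d1 (φ n)) (d2 (φ n)) q) ^ 2 ≤
      64 * (∫ q, f q ^ 2) * ∫ q, (rd V (d1 (φ n)) (d2 (φ n)) q - rd V u₁ u₂ q) ^ 2 := by
    intro n
    have h1 := (dl_quot V (hφ n).smooth (hφ n).compact h.mem).pow 2
    refine le_of_tendsto' h1 (fun j => ?_)
    have hj : (0 : ℝ) < (j : ℝ) + 1 := by positivity
    have h2 := key n (1 + 1 / ((j : ℝ) + 1)) (by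
      have : 0 ≤ 1 / ((j : ℝ) + 1) := by positivity
      linarith) (by
      have : 1 / ((j : ℝ) + 1) ≤ 1 := by
        rw [div_le_one hj]
        have : (0 : ℝ) ≤ j := by positivity
        linarith
      linarith)
    have h3 := mul_le_mul_of_nonneg_left h2 (sq_nonneg ((j : ℝ) + 1))
    rw [mul_pow]
    refine le_trans h3 (le_of_eq ?_)
    field_simp
    ring
  have rl : Tendsto (fun n => ∫ q, (rd V (d1 (φ n)) (d2 (φ n)) q - rd V u₁ u₂ q) ^ 2) atTop
      (𝓝 0) := by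
    have h3 := (l1.add l2).const_mul (2 * R ^ 2)
    simp only [add_zero, mul_zero] at h3
    exact squeeze_zero (fun n => integral_nonneg fun q => sq_nonneg _)
      (fun n => (r2 (φ n) (hφ n)).2) h3
  have L1 := l2_lim (fun n => (r2 (φ n) (hφ n)).1) r1 h.mem rl
  have L2 := (L1.const_mul 2).pow 2
  have R2 := rl.const_mul (64 * (∫ q, f q ^ 2))
  rw [mul_zero] at R2
  have res : (2 * ∫ q, rd V u₁ u₂ q * f q) ^ 2 ≤ 0 := by
    refine le_of_tendsto_of_tendsto' L2 R2 (fun n => ?_)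
    have h4 := key2 n
    have e : ∫ q, rd V (d1 (φ n)) (d2 (φ n)) q * f q =
        ∫ q, f q * rd V (d1 (φ n)) (d2 (φ n)) q := by
      refine integral_congr_ae (Eventually.of_forall fun q => ?_)
      simp only
      ring
    rw [e]
    exact h4
  have res2 : 2 * ∫ q, rd V u₁ u₂ q * f q = 0 :=
    pow_eq_zero_iff (two_ne_zero) |>.1 (le_antisymm res (sq_nonneg _))
  have e : ∫ q, f q * ((q.1 - V.1) * u₁ q + (q.2 - V.2) * u₂ q) =
      ∫ q, rd V u₁ u₂ q * f q := by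
    refine integral_congr_ae (Eventually.of_forall fun q => ?_)
    simp only [rd]
    ring
  rw [e]
  linarith

end

end Pool.Agent.MP4eed4eR
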