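import Pool.Agent.Lib.MP_4eed4e_an_R.B03
import Pool.Agent.Lib.MP_4eed4e_an_R.Base3
import Pool.Agent.Lib.MP_4eed4e_an_R.C07
import Pool.Agent.Lib.MP_4eed4e_an_R.C30

/-!
MP_4eed4e_an, project R, module D07: the quadratic form of the window, momenta off the unit circle.
-/

namespace Pool.Agent.MP4eed4eR

open MeasureTheory Set Filter Topology Metric
open scoped ComplexConjugate ContDiff

noncomputable section

variable {D : Set P}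

/-- Proof: the exponent is nonpositive; `x * exp (-x) ≤ 1` with `x = (h² λ - 1)² / (2 h)`. -/
theorem gk_bounds (lam : ℕ → ℝ) {h : ℝ} (hh0 : 0 < h) (k : ℕ) :
    0 < gk lam h k ∧ gk lam h k ≤ 1 ∧ gk lam h k * (h ^ 2 * lam k - 1) ^ 2 ≤ 2 * h := by
  unfold gk
  refine ⟨Real.exp_pos _, ?_, ?_⟩
  · rw [Real.exp_le_one_iff]
    exact div_nonpos_of_nonpos_of_nonneg (neg_nonpos.2 (sq_nonneg _)) (by positivity)
  · set A : ℝ := (h ^ 2 * lam k - 1) ^ 2 with hA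
    have h1 : Real.exp (-A / (2 * h)) * Real.exp (A / (2 * h)) = 1 := by
      rw [← Real.exp_add, neg_div, neg_add_cancel, Real.exp_zero]
    have h2 : A / (2 * h) ≤ Real.exp (A / (2 * h)) := by
      have := Real.add_one_le_exp (A / (2 * h))
      linarith
    have h3 : A = A / (2 * h) * (2 * h) := by
      field_simp
    have h4 : 0 < Real.exp (-A / (2 * h)) := Real.exp_pos _
    calc Real.exp (-A / (2 * h)) * A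
        = Real.exp (-A / (2 * h)) * (A / (2 * h)) * (2 * h) := by
          rw [mul_assoc, ← h3]
      _ ≤ Real.exp (-A / (2 * h)) * Real.exp (A / (2 * h)) * (2 * h) := by
          refine mul_le_mul_of_nonneg_right ?_ (by positivity)
          exact mul_le_mul_of_nonneg_left h2 h4.le
      _ = 2 * h := by rw [h1, one_mul]

/-- Proof: `parseval` and `0 ≤ gk ≤ 1`. -/
theorem gq_summable (S : Spec D) {h : ℝ} (hh0 : 0 < h) (f : HD D) :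
    Summable (fun k => gk S.lam h k * ‖S.co k f‖ ^ 2) ∧ 0 ≤ S.gq h f ∧ S.gq h f ≤ ‖f‖ ^ 2 := by
  have h0 : ∀ k, 0 ≤ gk S.lam h k * ‖S.co k f‖ ^ 2 := fun k =>
    mul_nonneg (gk_bounds S.lam hh0 k).1.le (by positivity)
  have h1 : ∀ k, gk S.lam h k * ‖S.co k f‖ ^ 2 ≤ ‖S.co k f‖ ^ 2 := fun k =>
    mul_le_of_le_one_left (by positivity) (gk_bounds S.lam hh0 k).2.1
  have hs : Summable (fun k => gk S.lam h k * ‖S.co k f‖ ^ 2) :=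
    Summable.of_nonneg_of_le h0 h1 (parseval S f).summable
  exact ⟨hs, tsum_nonneg h0, hasSum_le h1 hs.hasSum (parseval S f)⟩

/-- Proof: `gk_sum`, the triangle inequality for series (`norm_tsum_le_tsum_norm`), and
`‖om‖ = gk` (the exponential factor has modulus one). -/
theorem inner_W_le (S : Spec D) {h : ℝ} (hh0 : 0 < h) (l : ℝ) (f : HD D) :
    ‖(inner ℂ f (S.W h l f) : ℂ)‖ ≤ S.gq h f := by
  have h1 : ∀ k, ‖om S.lam h l k * ((‖S.co k f‖ ^ 2 : ℝ) : ℂ)‖ =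
      gk S.lam h k * ‖S.co k f‖ ^ 2 := fun k => by
    have h2 : (-(l * h * S.lam k / 2 : ℝ) * Complex.I : ℂ) =
        ((-(l * h * S.lam k / 2) : ℝ) : ℂ) * Complex.I := by
      push_cast
      ring
    rw [om, h2, norm_mul, norm_mul, Complex.norm_exp_ofReal_mul_I, mul_one, Complex.norm_real,
      Complex.norm_real, Real.norm_of_nonneg (gk_bounds S.lam hh0 k).1.le,
      Real.norm_of_nonneg (by positivity)]
  have h3 : Summable (fun k => ‖om S.lam h l k * ((‖S.co k f‖ ^ 2 : ℝ) : ℂ)‖) := by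
    simp only [h1]
    exact (gq_summable S hh0 f).1
  rw [← (gk_sum S hh0 l f).tsum_eq]
  refine (norm_tsum_le_tsum_norm h3).trans ?_
  simp only [h1]
  exact le_rfl

/-- The abstract form of D1. Proof: `(1 - μ)² ≤ 2 (h² λ - 1)² + 2 (h² λ - μ)²`, so by `gk_bounds`
`gk ‖co k f‖² (1 - μ)² ≤ 4 h ‖co k f‖² + 2 ‖(h² λ - μ) co k f‖²`, and
`‖(h² λ - μ) co k f‖² ≤ 3 (‖co k f₀‖² + ‖co k f₁‖² + ‖co k f₂‖²)`; sum over `k` with `parseval`. -/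
theorem gq_shift (S : Spec D) {h : ℝ} (hh0 : 0 < h) (μ : ℝ) (f f₀ f₁ f₂ : HD D)
    (h1 : ∀ k, ((h ^ 2 * S.lam k - μ : ℝ) : ℂ) * S.co k f =
      S.co k f₀ + S.co k f₁ + S.co k f₂) :
    S.gq h f * (μ - 1) ^ 2 ≤ 4 * h * ‖f‖ ^ 2 + 6 * (‖f₀‖ ^ 2 + ‖f₁‖ ^ 2 + ‖f₂‖ ^ 2) := by
  have hL : HasSum (fun k => gk S.lam h k * ‖S.co k f‖ ^ 2 * (μ - 1) ^ 2)
      (S.gq h f * (μ - 1) ^ 2) := (gq_summable S hh0 f).1.hasSum.mul_right _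
  have hR : HasSum (fun k => 4 * h * ‖S.co k f‖ ^ 2 +
      6 * (‖S.co k f₀‖ ^ 2 + ‖S.co k f₁‖ ^ 2 + ‖S.co k f₂‖ ^ 2))
      (4 * h * ‖f‖ ^ 2 + 6 * (‖f₀‖ ^ 2 + ‖f₁‖ ^ 2 + ‖f₂‖ ^ 2)) :=
    ((parseval S f).mul_left _).add
      ((((parseval S f₀).add (parseval S f₁)).add (parseval S f₂)).mul_left _)
  refine hasSum_le (fun k => ?_) hL hR
  obtain ⟨g0, g1, g2⟩ := gk_bounds S.lam hh0 k
  set g := gk S.lam h k with hg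
  set L : ℝ := h ^ 2 * S.lam k with hL'
  have h2 : (L - μ) ^ 2 * ‖S.co k f‖ ^ 2 = ‖S.co k f₀ + S.co k f₁ + S.co k f₂‖ ^ 2 := by
    rw [← h1 k, norm_mul, mul_pow, Complex.norm_real, Real.norm_eq_abs, sq_abs]
  have h3 : ‖S.co k f₀ + S.co k f₁ + S.co k f₂‖ ≤
      ‖S.co k f₀‖ + ‖S.co k f₁‖ + ‖S.co k f₂‖ := norm_add₃_le
  have h4 : ‖S.co k f₀ + S.co k f₁ + S.co k f₂‖ ^ 2 ≤
      3 * (‖S.co k f₀‖ ^ 2 + ‖S.co k f₁‖ ^ 2 + ‖S.co k f₂‖ ^ 2) := by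
    refine (pow_le_pow_left₀ (norm_nonneg _) h3 2).trans ?_
    nlinarith [sq_nonneg (‖S.co k f₀‖ - ‖S.co k f₁‖), sq_nonneg (‖S.co k f₀‖ - ‖S.co k f₂‖),
      sq_nonneg (‖S.co k f₁‖ - ‖S.co k f₂‖)]
  have h5 : g * (μ - 1) ^ 2 ≤ 4 * h + 2 * (L - μ) ^ 2 := by
    have e1 : (μ - 1) ^ 2 ≤ 2 * (L - 1) ^ 2 + 2 * (L - μ) ^ 2 := by
      nlinarith [sq_nonneg (L - 1 + (L - μ))]
    have e2 : g * (μ - 1) ^ 2 ≤ g * (2 * (L - 1) ^ 2 + 2 * (L - μ) ^ 2) :=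
      mul_le_mul_of_nonneg_left e1 g0.le
    have e3 : g * (L - μ) ^ 2 ≤ (L - μ) ^ 2 := mul_le_of_le_one_left (sq_nonneg _) g1
    linarith
  have h6 : g * ‖S.co k f‖ ^ 2 * (μ - 1) ^ 2 ≤
      (4 * h + 2 * (L - μ) ^ 2) * ‖S.co k f‖ ^ 2 := by
    have e : g * ‖S.co k f‖ ^ 2 * (μ - 1) ^ 2 = g * (μ - 1) ^ 2 * ‖S.co k f‖ ^ 2 := by ring
    rw [e]
    exact mul_le_mul_of_nonneg_right h5 (by positivity)
  linarith

private theorem d07_fam {G : Geo D} {ρ R h M : ℝ} (W : Walls G ρ) {E : P → ℂ} (hE : Env E R)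
    (x ξ : P) (hM : ∫ y, ‖E y‖ ^ 2 ≤ M) :
    ‖cls D (W.fam (-1) (-1) E h x ξ)‖ ^ 2 ≤ 16 * M := by
  have h1 := (norm_fam_le (h := h) W hE (Or.inr rfl : (-1 : ℝ) = 1 ∨ _)
    (Or.inr rfl : (-1 : ℝ) = 1 ∨ _) x ξ).2
  have h2 : 0 ≤ ∫ y, ‖E y‖ ^ 2 := integral_nonneg fun y => by positivity
  calc ‖cls D (W.fam (-1) (-1) E h x ξ)‖ ^ 2 ≤ (4 * Real.sqrt (∫ y, ‖E y‖ ^ 2)) ^ 2 :=
        pow_le_pow_left₀ (norm_nonneg _) h1 2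
    _ = 16 * ∫ y, ‖E y‖ ^ 2 := by
        rw [mul_pow, Real.sq_sqrt h2]
        norm_num
    _ ≤ 16 * M := mul_le_mul_of_nonneg_left hM (by norm_num)

/-- D1. Proof: take `C₀` and the envelopes of `ham_fam` (we may assume `0 ≤ C₀`); apply `gq_shift`
with `μ = sq ξ`, `f = W.v δ (x, ξ) 0`, `f₀ = cls (fam E₀)`, `f₁ = ξ.1 • cls (fam E₁)`,
`f₂ = ξ.2 • cls (fam E₂)` (`co_smul`). By `norm_v_le` `‖f‖ ≤ 4`; by `norm_fam_le`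
`‖f_i‖² ≤ 16 * 4 * C₀ * h` (`|ξ.i| ≤ 2`, `h² ≤ h` for small `δ`). -/
theorem low_le (S : Spec D) (G : Geo D) : ∃ C : ℝ, ∀ᶠ δ in 𝓝[>] (0 : ℝ),
    ∀ W : Walls G (th δ / 4), ∀ x ∈ G.Y δ, ∀ ξ ∈ Sq2,
      S.gq (hh δ) (W.v δ (x, ξ) 0) * (sq ξ - 1) ^ 2 ≤ C * hh δ := by
  obtain ⟨C₀, hC₀⟩ := ham_fam S G
  refine ⟨64 + 864 * max C₀ 0, ?_⟩
  have hone : ∀ᶠ δ in 𝓝[>] (0 : ℝ), δ ≤ 1 :=
    mem_nhdsWithin_of_mem_nhds (Iic_mem_nhds one_pos)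
  filter_upwards [hC₀, hone, self_mem_nhdsWithin] with δ hham hδ1 hδ
  obtain ⟨E₀, E₁, E₂, hE₀, hE₁, hE₂, i₀, i₁, i₂, hk⟩ := hham
  intro W x hx ξ hξ
  have hδ0 : (0 : ℝ) < δ := hδ
  have hh0 : 0 < hh δ := pow_pos hδ0 _
  have hh1 : hh δ ≤ 1 := pow_le_one₀ hδ0.le hδ1
  set h := hh δ with hhd
  set C₁ := max C₀ 0 with hC₁
  have c0 : C₀ ≤ C₁ := le_max_left _ _
  have c1 : 0 ≤ C₁ := le_max_right _ _
  have hsq : h ^ 2 ≤ h := by nlinarith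
  have j₀ : ∫ y, ‖E₀ y‖ ^ 2 ≤ C₁ * h := by
    refine i₀.trans ?_
    calc C₀ * h ^ 2 ≤ C₁ * h ^ 2 := mul_le_mul_of_nonneg_right c0 (by positivity)
      _ ≤ C₁ * h := mul_le_mul_of_nonneg_left hsq c1
  have j₁ : ∫ y, ‖E₁ y‖ ^ 2 ≤ C₁ * h := i₁.trans (mul_le_mul_of_nonneg_right c0 hh0.le)
  have j₂ : ∫ y, ‖E₂ y‖ ^ 2 ≤ C₁ * h := i₂.trans (mul_le_mul_of_nonneg_right c0 hh0.le)
  have n₀ := d07_fam (h := h) W hE₀ x ξ j₀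
  have n₁ := d07_fam (h := h) W hE₁ x ξ j₁
  have n₂ := d07_fam (h := h) W hE₂ x ξ j₂
  have q₁ : ξ.1 ^ 2 ≤ 4 := by
    have := (sq_abs ξ.1).symm
    have h2 : |ξ.1| ≤ 2 := hξ.1
    nlinarith [abs_nonneg ξ.1]
  have q₂ : ξ.2 ^ 2 ≤ 4 := by
    have := (sq_abs ξ.2).symm
    have h2 : |ξ.2| ≤ 2 := hξ.2
    nlinarith [abs_nonneg ξ.2]
  have key := gq_shift S hh0 (sq ξ) (W.v δ (x, ξ) 0)
    (cls D (W.fam (-1) (-1) E₀ h x ξ)) ((ξ.1 : ℂ) • cls D (W.fam (-1) (-1) E₁ h x ξ))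
    ((ξ.2 : ℂ) • cls D (W.fam (-1) (-1) E₂ h x ξ)) (fun k => by
      rw [co_smul, co_smul]
      exact hk W x hx ξ k)
  have m₁ : ‖(ξ.1 : ℂ) • cls D (W.fam (-1) (-1) E₁ h x ξ)‖ ^ 2 ≤ 4 * (16 * (C₁ * h)) := by
    rw [norm_smul, mul_pow, Complex.norm_real, Real.norm_eq_abs, sq_abs]
    exact mul_le_mul q₁ n₁ (by positivity) (by norm_num)
  have m₂ : ‖(ξ.2 : ℂ) • cls D (W.fam (-1) (-1) E₂ h x ξ)‖ ^ 2 ≤ 4 * (16 * (C₁ * h)) := by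
    rw [norm_smul, mul_pow, Complex.norm_real, Real.norm_eq_abs, sq_abs]
    exact mul_le_mul q₂ n₂ (by positivity) (by norm_num)
  have hv : ‖W.v δ (x, ξ) 0‖ ^ 2 ≤ 16 := by
    have := norm_v_le W hδ0 (x, ξ) 0
    nlinarith [norm_nonneg (W.v δ (x, ξ) 0)]
  have hv2 : 4 * h * ‖W.v δ (x, ξ) 0‖ ^ 2 ≤ 4 * h * 16 :=
    mul_le_mul_of_nonneg_left hv (by positivity)
  refine key.trans ?_
  linarith

end

end Pool.Agent.MP4eed4eR
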