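import Pool.Agent.Lib.MP_4eed4e_an_R.Base2

/-!
MP_4eed4e_an, project R, module F01: radial integrals and the normalisation `Z0`.
-/

namespace Pool.Agent.MP4eed4eR

open MeasureTheory Set Filter Topology Metric
open scoped ENNReal

noncomputable section

/-- Radial integrals. Proof: `lintegral_comp_polarCoord_symm` with `f = fun ξ => F (sq ξ)`; on
`polarCoord.target = Ioi 0 ×ˢ Ioo (-π) π` we have `sq (polarCoord.symm p) = p.1 ^ 2` (cos² + sin² =
1); Tonelli (`lintegral_prod` for the restricted product measure, `Measure.prod_restrict`) gives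
`2π ∫⁻ r in Ioi 0, ofReal r * F (r ^ 2)`; finally the substitution `u = r ^ 2` on `Ioi 0`
(`lintegral_image_eq_lintegral_abs_deriv_mul` with `f r = r ^ 2`, `|f'| = 2 r`, image `Ioi 0`)
gives `∫⁻ u in Ioi 0, F u = ∫⁻ r in Ioi 0, ofReal (2 r) * F (r ^ 2)`. -/
theorem lint_radial {F : ℝ → ℝ≥0∞} (hF : Measurable F) :
    ∫⁻ ξ : P, F (sq ξ) = ENNReal.ofReal Real.pi * ∫⁻ u in Ioi (0 : ℝ), F u := by
  have hm : Measurable fun r : ℝ => F (r ^ 2) := hF.comp (measurable_id.pow_const 2)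
  have h1 := lintegral_comp_polarCoord_symm (fun ξ : ℝ × ℝ => F (sq ξ))
  have h2 : ∀ p : ℝ × ℝ, ENNReal.ofReal p.1 • F (sq (polarCoord.symm p)) =
      (ENNReal.ofReal p.1 * F (p.1 ^ 2)) * 1 := by
    intro p
    rw [polarCoord_symm_apply, smul_eq_mul, mul_one]
    have h3 : sq (p.1 * Real.cos p.2, p.1 * Real.sin p.2) = p.1 ^ 2 := by
      have h4 := Real.cos_sq_add_sin_sq p.2
      show (p.1 * Real.cos p.2) ^ 2 + (p.1 * Real.sin p.2) ^ 2 = p.1 ^ 2
      calc (p.1 * Real.cos p.2) ^ 2 + (p.1 * Real.sin p.2) ^ 2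
          = p.1 ^ 2 * (Real.cos p.2 ^ 2 + Real.sin p.2 ^ 2) := by ring
        _ = p.1 ^ 2 := by rw [h4, mul_one]
    rw [h3]
  have h5 : ∫⁻ ξ : ℝ × ℝ, F (sq ξ) =
      (∫⁻ r in Ioi (0 : ℝ), ENNReal.ofReal r * F (r ^ 2)) * ENNReal.ofReal (2 * Real.pi) := by
    rw [← h1, polarCoord_target, Measure.volume_eq_prod, ← Measure.prod_restrict]
    simp_rw [h2]
    rw [lintegral_prod_mul (f := fun r : ℝ => ENNReal.ofReal r * F (r ^ 2)) (g := fun _ => 1)
      ((ENNReal.measurable_ofReal.mul hm).aemeasurable) aemeasurable_const]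
    congr 1
    rw [lintegral_one, Measure.restrict_apply_univ, Real.volume_Ioo]
    congr 1
    ring
  have h6 : ∫⁻ u in Ioi (0 : ℝ), F u =
      ∫⁻ r in Ioi (0 : ℝ), ENNReal.ofReal |2 * r| * F (r ^ 2) := by
    have himg : (fun r : ℝ => r ^ 2) '' Ioi (0 : ℝ) = Ioi 0 := by
      ext u
      constructor
      · rintro ⟨r, hr, rfl⟩
        exact pow_pos (mem_Ioi.1 hr) 2
      · intro hu
        exact ⟨Real.sqrt u, Real.sqrt_pos.2 hu, Real.sq_sqrt (le_of_lt hu)⟩
    have h7 := lintegral_image_eq_lintegral_abs_deriv_mul (s := Ioi (0 : ℝ))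
      (f := fun r : ℝ => r ^ 2) (f' := fun r : ℝ => 2 * r) measurableSet_Ioi
      (fun x _ => by
        have := (hasDerivAt_pow 2 x).hasDerivWithinAt (s := Ioi (0 : ℝ))
        simpa using this)
      (fun x hx y hy hxy => by
        have hx' : (0 : ℝ) ≤ x := le_of_lt hx
        have hy' : (0 : ℝ) ≤ y := le_of_lt hy
        exact (pow_left_inj₀ hx' hy' two_ne_zero).1 hxy) F
    rw [himg] at h7
    exact h7
  have h8 : ∫⁻ r in Ioi (0 : ℝ), ENNReal.ofReal |2 * r| * F (r ^ 2) =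
      ENNReal.ofReal 2 * ∫⁻ r in Ioi (0 : ℝ), ENNReal.ofReal r * F (r ^ 2) := by
    have hm2 : Measurable fun r : ℝ => ENNReal.ofReal r * F (r ^ 2) :=
      ENNReal.measurable_ofReal.mul hm
    rw [← lintegral_const_mul _ hm2]
    refine setLIntegral_congr_fun measurableSet_Ioi ?_
    intro r hr
    have hr' : (0 : ℝ) < r := hr
    show ENNReal.ofReal |2 * r| * F (r ^ 2) = ENNReal.ofReal 2 * (ENNReal.ofReal r * F (r ^ 2))
    rw [abs_of_pos (by positivity), ENNReal.ofReal_mul (by norm_num), mul_assoc]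
  have h9 : ENNReal.ofReal (2 * Real.pi) = ENNReal.ofReal Real.pi * ENNReal.ofReal 2 := by
    rw [mul_comm (2 : ℝ), ENNReal.ofReal_mul Real.pi_pos.le]
  rw [h6, h8]
  refine h5.trans ?_
  rw [h9]
  ring

private theorem f01_tail {ε : ℝ} (hε : 0 < ε) :
    ∫⁻ v in Ici ε, ENNReal.ofReal (1 / v ^ 2) = ENNReal.ofReal (1 / ε) := by
  rw [setLIntegral_congr Ioi_ae_eq_Ici.symm]
  have hd : ∀ x ∈ Ioi ε, HasDerivAt (fun v : ℝ => -v⁻¹) (1 / x ^ 2) x := by
    intro x hx
    have hx0 : x ≠ 0 := (lt_trans hε hx).ne'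
    have h1 := (hasDerivAt_inv hx0).neg
    have h2 : -(-(x ^ 2)⁻¹) = 1 / x ^ 2 := by rw [neg_neg, one_div]
    rw [h2] at h1
    exact h1
  have hc : ContinuousWithinAt (fun v : ℝ => -v⁻¹) (Ici ε) ε :=
    (continuousAt_inv₀ hε.ne').neg.continuousWithinAt
  have ht : Tendsto (fun v : ℝ => -v⁻¹) atTop (𝓝 0) := by
    have := (tendsto_inv_atTop_zero (𝕜 := ℝ)).neg
    simpa using this
  have hi : IntegrableOn (fun x : ℝ => 1 / x ^ 2) (Ioi ε) :=
    integrableOn_Ioi_deriv_of_nonneg hc hd (fun x _ => by positivity) ht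
  have he := integral_Ioi_of_hasDerivAt_of_tendsto hc hd hi ht
  rw [← ofReal_integral_eq_lintegral_ofReal hi
    (Eventually.of_forall fun x => by positivity), he]
  congr 1
  simp

/-- Proof: by `lint_radial` with `F u = indicator {u | ε ≤ |u - 1|} (ofReal (1 / (u - 1) ^ 2))` the
left hand side is at most `π (∫⁻ u in Ici (1 + ε), .. + ∫⁻ u in Iic (1 - ε), ..) = 2π / ε`
(`integral_Ioi_rpow_of_lt` or `integrableOn_Ioi_rpow_of_lt` after translation, or directly: the
function `-1 / (u - 1)` is a primitive; `integral_Ioi_of_hasDerivAt_of_tendsto`). Take `C = 2π`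
or anything larger. -/
theorem lint_off : ∃ C : ℝ, 0 < C ∧ ∀ ε : ℝ, 0 < ε → ε ≤ 1 →
    ∫⁻ ξ in {ξ : P | ε ≤ |sq ξ - 1|}, ENNReal.ofReal (1 / (sq ξ - 1) ^ 2) ≤
      ENNReal.ofReal (C / ε) := by
  refine ⟨2 * Real.pi, by positivity, fun ε hε _ => ?_⟩
  have hsq : Measurable (fun ξ : P => sq ξ) :=
    (measurable_fst.pow_const 2).add (measurable_snd.pow_const 2)
  set F : ℝ → ℝ≥0∞ := fun u => {v : ℝ | ε ≤ |v|}.indicator
    (fun v => ENNReal.ofReal (1 / v ^ 2)) (u - 1) with hFdef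
  have hms : MeasurableSet {v : ℝ | ε ≤ |v|} := measurableSet_le measurable_const measurable_id.abs
  have hmf : Measurable (fun v : ℝ => ENNReal.ofReal (1 / v ^ 2)) :=
    (measurable_const.div (measurable_id.pow_const 2)).ennreal_ofReal
  have hmF : Measurable F := (hmf.indicator hms).comp (measurable_id.sub_const 1)
  have hmset : MeasurableSet {ξ : P | ε ≤ |sq ξ - 1|} :=
    measurableSet_le measurable_const (hsq.sub_const 1).abs
  have h1 : ∫⁻ ξ in {ξ : P | ε ≤ |sq ξ - 1|}, ENNReal.ofReal (1 / (sq ξ - 1) ^ 2) =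
      ∫⁻ ξ : P, F (sq ξ) := by
    rw [← lintegral_indicator hmset]
    rfl
  have h2 : ∫⁻ u in Ioi (0 : ℝ), F u ≤
      ∫⁻ v : ℝ, {v : ℝ | ε ≤ |v|}.indicator (fun v => ENNReal.ofReal (1 / v ^ 2)) v := by
    refine (setLIntegral_le_lintegral _ _).trans (le_of_eq ?_)
    exact lintegral_sub_right_eq_self
      ({v : ℝ | ε ≤ |v|}.indicator (fun v => ENNReal.ofReal (1 / v ^ 2))) 1
  rw [h1, lint_radial hmF]
  calc ENNReal.ofReal Real.pi * ∫⁻ u in Ioi (0 : ℝ), F u
      ≤ ENNReal.ofReal Real.pi * (ENNReal.ofReal (1 / ε) + ENNReal.ofReal (1 / ε)) := by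
        gcongr
        refine h2.trans ?_
        have h3 : ∀ v : ℝ, {v : ℝ | ε ≤ |v|}.indicator (fun v => ENNReal.ofReal (1 / v ^ 2)) v ≤
            (Ici ε).indicator (fun v => ENNReal.ofReal (1 / v ^ 2)) v +
            (Ici ε).indicator (fun v => ENNReal.ofReal (1 / v ^ 2)) (-v) := by
          intro v
          by_cases hv : v ∈ {v : ℝ | ε ≤ |v|}
          · rw [indicator_of_mem hv]
            have hv' : ε ≤ |v| := hv
            rcases le_abs.1 hv' with h | h
            · rw [indicator_of_mem (s := Ici ε) h]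
              exact le_self_add
            · rw [indicator_of_mem (s := Ici ε) (a := -v) h, neg_sq]
              exact le_add_self
          · rw [indicator_of_notMem hv]
            exact zero_le
        refine (lintegral_mono h3).trans ?_
        rw [lintegral_add_left (hmf.indicator measurableSet_Ici)]
        have h4 : ∫⁻ v : ℝ, (Ici ε).indicator (fun v => ENNReal.ofReal (1 / v ^ 2)) (-v) =
            ∫⁻ v : ℝ, (Ici ε).indicator (fun v => ENNReal.ofReal (1 / v ^ 2)) v :=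
          lintegral_neg_eq_self ((Ici ε).indicator (fun v => ENNReal.ofReal (1 / v ^ 2)))
        rw [h4, lintegral_indicator measurableSet_Ici, f01_tail hε]
    _ = ENNReal.ofReal (2 * Real.pi / ε) := by
        rw [← ENNReal.ofReal_add (by positivity) (by positivity),
          ← ENNReal.ofReal_mul Real.pi_pos.le]
        congr 1
        ring

/-- Proof: by `lint_radial` the lower integral of `exp (-(sq z - 1)² / 2h)` over the plane is `π`
times the integral over `u > 0` of `exp (-(u - 1)² / 2h)`, which is at most the integral over the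
whole line `√(2πh)` (`integral_gaussian`), and at least `√h exp (-1/2)` (integrate over
`1 ≤ u ≤ 1 + √h` only). Finiteness gives integrability; convert with
`ofReal_integral_eq_lintegral_ofReal`. -/
theorem Z0_bounds : ∃ c C : ℝ, 0 < c ∧ ∀ h : ℝ, 0 < h →
    Integrable (fun z : P => Real.exp (-(sq z - 1) ^ 2 / (2 * h))) ∧
      c * Real.sqrt h ≤ Z0 h ∧ Z0 h ≤ C * Real.sqrt h := by
  refine ⟨Real.pi * Real.exp (-1 / 2), Real.pi * Real.sqrt (2 * Real.pi), by positivity,
    fun h hh => ?_⟩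
  have hsq : Measurable (fun ξ : P => sq ξ) :=
    (measurable_fst.pow_const 2).add (measurable_snd.pow_const 2)
  have hmE : Measurable (fun u : ℝ => Real.exp (-(u - 1) ^ 2 / (2 * h))) := by fun_prop
  have hmE' : Measurable (fun u : ℝ => ENNReal.ofReal (Real.exp (-(u - 1) ^ 2 / (2 * h)))) :=
    hmE.ennreal_ofReal
  have hL : ∫⁻ z : P, ENNReal.ofReal (Real.exp (-(sq z - 1) ^ 2 / (2 * h))) =
      ENNReal.ofReal Real.pi *
        ∫⁻ u in Ioi (0 : ℝ), ENNReal.ofReal (Real.exp (-(u - 1) ^ 2 / (2 * h))) :=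
    lint_radial hmE'
  have hup : ∫⁻ u in Ioi (0 : ℝ), ENNReal.ofReal (Real.exp (-(u - 1) ^ 2 / (2 * h))) ≤
      ENNReal.ofReal (Real.sqrt (2 * Real.pi) * Real.sqrt h) := by
    refine (setLIntegral_le_lintegral _ _).trans (le_of_eq ?_)
    have h1 : ∫⁻ u : ℝ, ENNReal.ofReal (Real.exp (-(u - 1) ^ 2 / (2 * h))) =
        ∫⁻ u : ℝ, ENNReal.ofReal (Real.exp (-(1 / (2 * h)) * u ^ 2)) := by
      rw [← lintegral_sub_right_eq_self
        (fun u : ℝ => ENNReal.ofReal (Real.exp (-(1 / (2 * h)) * u ^ 2))) 1]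
      refine lintegral_congr fun u => ?_
      congr 2
      ring
    rw [h1, ← ofReal_integral_eq_lintegral_ofReal (integrable_exp_neg_mul_sq (by positivity))
      (Eventually.of_forall fun x => (Real.exp_pos _).le), integral_gaussian]
    congr 1
    rw [← Real.sqrt_mul (by positivity)]
    congr 1
    field_simp
  have hlo : ENNReal.ofReal (Real.exp (-1 / 2) * Real.sqrt h) ≤
      ∫⁻ u in Ioi (0 : ℝ), ENNReal.ofReal (Real.exp (-(u - 1) ^ 2 / (2 * h))) := by
    have hsub : Icc (1 : ℝ) (1 + Real.sqrt h) ⊆ Ioi 0 := fun u hu =>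
      lt_of_lt_of_le one_pos hu.1
    refine le_trans ?_ (lintegral_mono_set hsub)
    have h2 : ∫⁻ _ in Icc (1 : ℝ) (1 + Real.sqrt h), ENNReal.ofReal (Real.exp (-1 / 2)) =
        ENNReal.ofReal (Real.exp (-1 / 2) * Real.sqrt h) := by
      rw [setLIntegral_const, Real.volume_Icc, ← ENNReal.ofReal_mul (Real.exp_pos _).le]
      congr 1
      ring
    rw [← h2]
    refine setLIntegral_mono hmE' fun u hu => ?_
    refine ENNReal.ofReal_le_ofReal (Real.exp_le_exp.2 ?_)
    have h3 : (u - 1) ^ 2 ≤ h := by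
      calc (u - 1) ^ 2 ≤ Real.sqrt h ^ 2 :=
            pow_le_pow_left₀ (by linarith [hu.1]) (by linarith [hu.2]) 2
        _ = h := Real.sq_sqrt hh.le
    rw [div_le_div_iff₀ (by norm_num) (by positivity)]
    nlinarith
  have hint : Integrable (fun z : P => Real.exp (-(sq z - 1) ^ 2 / (2 * h))) := by
    refine ⟨(hmE.comp hsq).aestronglyMeasurable, ?_⟩
    rw [hasFiniteIntegral_iff_ofReal (Eventually.of_forall fun x => (Real.exp_pos _).le), hL]
    exact ENNReal.mul_lt_top ENNReal.ofReal_lt_top (lt_of_le_of_lt hup ENNReal.ofReal_lt_top)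
  have hZ : ENNReal.ofReal (Z0 h) = ENNReal.ofReal Real.pi *
      ∫⁻ u in Ioi (0 : ℝ), ENNReal.ofReal (Real.exp (-(u - 1) ^ 2 / (2 * h))) := by
    rw [← hL]
    exact ofReal_integral_eq_lintegral_ofReal hint
      (Eventually.of_forall fun x => (Real.exp_pos _).le)
  have hZ0 : 0 ≤ Z0 h := integral_nonneg fun x => (Real.exp_pos _).le
  refine ⟨hint, ?_, ?_⟩
  · rw [← ENNReal.ofReal_le_ofReal_iff hZ0, hZ, mul_assoc, ENNReal.ofReal_mul Real.pi_pos.le]
    gcongr
  · rw [← ENNReal.ofReal_le_ofReal_iff (by positivity), hZ, mul_assoc,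
      ENNReal.ofReal_mul Real.pi_pos.le]
    gcongr

end

end Pool.Agent.MP4eed4eR
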