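import Pool.Agent.Lib.MP_4eed4e_an_R.D07
import Pool.Agent.Lib.MP_4eed4e_an_R.F01

/-!
MP_4eed4e_an, project R, module D08: integration of D1 over the momenta.
-/

namespace Pool.Agent.MP4eed4eR

open MeasureTheory Set Filter Topology Metric
open scoped ENNReal

noncomputable section

variable {D : Set P}

/-- Proof: `lint_radial` with `F u = ofReal (h / (h + (u - 1) ^ 2))`; the integral over `Ioi 0` is
at most the integral over the line, which is `h * π / √h = π √h` (translate by `1`, scale by `√h`,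
`integral_univ_inv_one_add_sq`; pass to `lintegral` by `ofReal_integral_eq_lintegral_ofReal`). -/
theorem lint_lorentz {h : ℝ} (hh0 : 0 < h) :
    ∫⁻ ξ : P, ENNReal.ofReal (h / (h + (sq ξ - 1) ^ 2)) ≤
      ENNReal.ofReal (Real.pi ^ 2 * Real.sqrt h) := by
  have hs : 0 < Real.sqrt h := Real.sqrt_pos.2 hh0
  have hm : Measurable (fun u : ℝ => ENNReal.ofReal (h / (h + (u - 1) ^ 2))) := by fun_prop
  have e1 : ∫⁻ ξ : P, ENNReal.ofReal (h / (h + (sq ξ - 1) ^ 2)) = ENNReal.ofReal Real.pi *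
      ∫⁻ u in Ioi (0 : ℝ), ENNReal.ofReal (h / (h + (u - 1) ^ 2)) := lint_radial hm
  have e2 : (fun u : ℝ => h / (h + (u - 1) ^ 2)) =
      fun u : ℝ => (fun v : ℝ => (fun w : ℝ => (1 + w ^ 2)⁻¹) ((Real.sqrt h)⁻¹ * v)) (u - 1) := by
    funext u
    show h / (h + (u - 1) ^ 2) = (1 + ((Real.sqrt h)⁻¹ * (u - 1)) ^ 2)⁻¹
    have h1 : (0 : ℝ) < h + (u - 1) ^ 2 := by positivity
    have h2 : (Real.sqrt h) ^ 2 = h := Real.sq_sqrt hh0.le
    rw [mul_pow, inv_pow, h2, eq_comm, inv_eq_iff_eq_inv, inv_div]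
    field_simp
  have hi0 : Integrable (fun v : ℝ => (fun w : ℝ => (1 + w ^ 2)⁻¹) ((Real.sqrt h)⁻¹ * v)) :=
    integrable_inv_one_add_sq.comp_mul_left' (inv_ne_zero hs.ne')
  have hi : Integrable (fun u : ℝ => h / (h + (u - 1) ^ 2)) := by
    rw [e2]
    exact hi0.comp_sub_right 1
  have e3 : ∫ u : ℝ, h / (h + (u - 1) ^ 2) = Real.sqrt h * Real.pi := by
    rw [e2, integral_sub_right_eq_self
      (fun v : ℝ => (fun w : ℝ => (1 + w ^ 2)⁻¹) ((Real.sqrt h)⁻¹ * v)) 1,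
      Measure.integral_comp_mul_left (fun w : ℝ => (1 + w ^ 2)⁻¹), inv_inv, abs_of_pos hs,
      integral_univ_inv_one_add_sq, smul_eq_mul]
  have e4 : ∫⁻ u : ℝ, ENNReal.ofReal (h / (h + (u - 1) ^ 2)) =
      ENNReal.ofReal (Real.sqrt h * Real.pi) := by
    rw [← e3, ofReal_integral_eq_lintegral_ofReal hi
      (Eventually.of_forall fun u => by positivity)]
  rw [e1]
  calc _ ≤ ENNReal.ofReal Real.pi * ∫⁻ u : ℝ, ENNReal.ofReal (h / (h + (u - 1) ^ 2)) := by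
        gcongr
        exact Measure.restrict_le_self
    _ = ENNReal.ofReal (Real.pi ^ 2 * Real.sqrt h) := by
        rw [e4, ← ENNReal.ofReal_mul Real.pi_pos.le]
        congr 1
        ring

/-- Proof: let `C₀` be the constant of `low_le`. The number `g = S.gq (hh δ) (W.v δ (x, ξ) 0)`
satisfies `g ≤ 16` (`gq_summable`, `norm_v_le`) and `g (sq ξ - 1)² ≤ C₀ h`, hence
`g ≤ (16 + |C₀|) h / (h + (sq ξ - 1)²)`. Integrate (`lint_lorentz`, enlarge the domain `Sq2` to the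
plane); `√(hh δ) = sh δ`. -/
theorem low_int (S : Spec D) (G : Geo D) : ∃ C : ℝ, ∀ᶠ δ in 𝓝[>] (0 : ℝ),
    ∀ W : Walls G (th δ / 4), ∀ x ∈ G.Y δ,
      ∫⁻ ξ in Sq2, ENNReal.ofReal (S.gq (hh δ) (W.v δ (x, ξ) 0)) ≤ ENNReal.ofReal (C * sh δ) := by
  obtain ⟨C₀, hC₀⟩ := low_le S G
  refine ⟨(16 + |C₀|) * Real.pi ^ 2, ?_⟩
  filter_upwards [hC₀, self_mem_nhdsWithin] with δ hδ hpos W x hx
  have hδ0 : (0 : ℝ) < δ := hpos
  have hh0 : 0 < hh δ := pow_pos hδ0 80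
  have hsh : Real.sqrt (hh δ) = sh δ := by
    unfold hh sh
    rw [show δ ^ 80 = (δ ^ 40) ^ 2 by ring]
    exact Real.sqrt_sq (by positivity)
  have hK : (0 : ℝ) ≤ 16 + |C₀| := by positivity
  have hsq : Measurable (fun ξ : P => sq ξ) :=
    (measurable_fst.pow_const 2).add (measurable_snd.pow_const 2)
  have hmF : Measurable (fun ξ : P => hh δ / (hh δ + (sq ξ - 1) ^ 2)) :=
    measurable_const.div (measurable_const.add ((hsq.sub_const 1).pow_const 2))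
  have key : ∀ ξ ∈ Sq2, ENNReal.ofReal (S.gq (hh δ) (W.v δ (x, ξ) 0)) ≤
      ENNReal.ofReal (16 + |C₀|) * ENNReal.ofReal (hh δ / (hh δ + (sq ξ - 1) ^ 2)) := by
    intro ξ hξ
    have h1 := hδ W x hx ξ hξ
    have h2 := (gq_summable S hh0 (W.v δ (x, ξ) 0)).2.2
    have h3 := norm_v_le W hδ0 (x, ξ) 0
    have h4 : ‖W.v δ (x, ξ) 0‖ ^ 2 ≤ 16 := by
      calc ‖W.v δ (x, ξ) 0‖ ^ 2 ≤ 4 ^ 2 := pow_le_pow_left₀ (norm_nonneg _) h3 2
        _ = 16 := by norm_num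
    have h5 : C₀ * hh δ ≤ |C₀| * hh δ := mul_le_mul_of_nonneg_right (le_abs_self _) hh0.le
    have h6 : S.gq (hh δ) (W.v δ (x, ξ) 0) * hh δ ≤ 16 * hh δ :=
      mul_le_mul_of_nonneg_right (h2.trans h4) hh0.le
    have h7 : (0 : ℝ) < hh δ + (sq ξ - 1) ^ 2 := by positivity
    rw [← ENNReal.ofReal_mul hK]
    refine ENNReal.ofReal_le_ofReal ?_
    rw [← mul_div_assoc, le_div_iff₀ h7]
    nlinarith
  calc _ ≤ ∫⁻ ξ in Sq2, ENNReal.ofReal (16 + |C₀|) *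
        ENNReal.ofReal (hh δ / (hh δ + (sq ξ - 1) ^ 2)) :=
        setLIntegral_mono (hmF.ennreal_ofReal.const_mul _) key
    _ ≤ ∫⁻ ξ : P, ENNReal.ofReal (16 + |C₀|) *
        ENNReal.ofReal (hh δ / (hh δ + (sq ξ - 1) ^ 2)) := setLIntegral_le_lintegral _ _
    _ = ENNReal.ofReal (16 + |C₀|) *
        ∫⁻ ξ : P, ENNReal.ofReal (hh δ / (hh δ + (sq ξ - 1) ^ 2)) :=
        lintegral_const_mul _ hmF.ennreal_ofReal
    _ ≤ ENNReal.ofReal (16 + |C₀|) * ENNReal.ofReal (Real.pi ^ 2 * Real.sqrt (hh δ)) := by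
        gcongr
        exact lint_lorentz hh0
    _ = ENNReal.ofReal ((16 + |C₀|) * Real.pi ^ 2 * sh δ) := by
        rw [← ENNReal.ofReal_mul hK, hsh]
        congr 1
        ring

end

end Pool.Agent.MP4eed4eR
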