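import Pool.Agent.Lib.MP_4eed4e_an_R.B13
import Pool.Agent.Lib.MP_4eed4e_an_R.C06
import Pool.Agent.Lib.MP_4eed4e_an_R.D01

/-!
MP_4eed4e_an, project R, module D09: masses, summability of the window and its tail.
-/

namespace Pool.Agent.MP4eed4eR

open MeasureTheory Set Filter Topology Metric

noncomputable section

variable {D : Set P}

private theorem d09_int (f : HD D) : IntegrableOn (fun q => ‖f q‖ ^ 2) D :=
  (memLp_two_iff_integrable_sq_norm (Lp.memLp f).1).1 (Lp.memLp f)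

private theorem d09_norm (f : HD D) : ∫ q in D, ‖f q‖ ^ 2 = ‖f‖ ^ 2 := by
  have h1 : (inner ℂ f f : ℂ) = ((‖f‖ : ℝ) : ℂ) ^ 2 := inner_self_eq_norm_sq_to_K f
  have h2 : (inner ℂ f f : ℂ) = ∫ q in D, inner ℂ (f q) (f q) := L2.inner_def f f
  have h3 : ∀ q, (inner ℂ (f q) (f q) : ℂ) = ((‖f q‖ ^ 2 : ℝ) : ℂ) := by
    intro q
    rw [inner_self_eq_norm_sq_to_K]
    push_cast
    rfl
  simp_rw [h3] at h2
  rw [integral_complex_ofReal, h1] at h2
  exact_mod_cast h2.symm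

private theorem d09_mem (S : Spec D) (k : ℕ) :
    MemLp (fun q => (S.u k q : ℂ)) 2 (volume.restrict D) :=
  ((S.h10 k).mem.restrict D).ofReal

private theorem d09_e (S : Spec D) (k : ℕ) :
    ∀ᵐ q ∂(volume.restrict D), ‖(S.e k : P → ℂ) q‖ ^ 2 = S.u k q ^ 2 := by
  have h1 : S.e k = (d09_mem S k).toLp (fun q => (S.u k q : ℂ)) := by
    rw [Spec.e, cls, dif_pos (d09_mem S k)]
  rw [h1]
  filter_upwards [(d09_mem S k).coeFn_toLp] with q hq
  rw [hq, Complex.norm_real, Real.norm_eq_abs, sq_abs]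

/-- Proof: `mass A f = ∫ q in A ∩ D, ‖f q‖²` and `‖f‖² = ∫ q in D, ‖f q‖²`
(`MeasureTheory.L2.inner_def` or `Lp.norm_def`; `‖f q‖²` is integrable on `D` by `Lp.memLp f`,
`MemLp.integrable_norm_pow`), monotonicity of the integral of a nonnegative function in the
set. For the eigenfunctions: `S.e k` is the class of `u k` (`MemLp` from `S.h10 k`), so
`‖S.e k‖² = ∫ q in D, (u k q)² = ∫ q, (u k q)² = 1` (`h10_zero` of D01: `u k` vanishes a.e. off
`D`; `S.orth k k`). -/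
theorem mass_facts (S : Spec D) (G : Geo D) :
    (∀ (A : Set P) (f : HD D), 0 ≤ mass A f ∧ mass A f ≤ ‖f‖ ^ 2) ∧
    (∀ (A B : Set P) (f : HD D), A ⊆ B → mass A f ≤ mass B f) ∧
    (∀ (A B : Set P) (f : HD D), MeasurableSet A → MeasurableSet B →
      mass (A ∪ B) f ≤ mass A f + mass B f) ∧
    (∀ f : HD D, mass univ f = ‖f‖ ^ 2) ∧
    (∀ k, ‖S.e k‖ = 1) ∧ ∀ (A : Set P) (k : ℕ), MeasurableSet A →
      mass A (S.e k) = ∫ q in A, S.u k q ^ 2 := by
  have hm : MeasurableSet D := G.isOpen.measurableSet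
  have hnn : ∀ (f : HD D) (s : Set P), 0 ≤ᵐ[volume.restrict s] fun q => ‖f q‖ ^ 2 :=
    fun f s => Eventually.of_forall fun q => sq_nonneg _
  have hmono : ∀ (s t : Set P) (f : HD D), t ⊆ D → s ⊆ t →
      ∫ q in s, ‖f q‖ ^ 2 ≤ ∫ q in t, ‖f q‖ ^ 2 := fun s t f ht hst =>
    setIntegral_mono_set ((d09_int f).mono_set ht) (hnn f t) (Eventually.of_forall hst)
  have h0 : ∀ k, ∀ᵐ q ∂(volume : Measure P), q ∉ D → S.u k q ^ 2 = 0 := by
    intro k
    filter_upwards [(h10_zero G.isOpen (S.h10 k)).1] with q hq hqD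
    rw [hq hqD]
    ring
  refine ⟨fun A f => ⟨integral_nonneg fun q => sq_nonneg _, ?_⟩, fun A B f hAB => ?_,
    fun A B f hA hB => ?_, fun f => ?_, fun k => ?_, fun A k hA => ?_⟩
  · rw [← d09_norm f]
    exact hmono _ _ f Subset.rfl inter_subset_right
  · exact hmono _ _ f inter_subset_right (inter_subset_inter_left D hAB)
  · have h1 : (A ∪ B) ∩ D = (A ∩ D) ∪ ((B \ A) ∩ D) := by
      rw [← union_inter_distrib_right, union_sdiff_self]
    have h2 : Disjoint (A ∩ D) ((B \ A) ∩ D) :=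
      disjoint_sdiff_self_right.mono inter_subset_left inter_subset_left
    unfold mass
    rw [h1, setIntegral_union h2 ((hB.diff hA).inter hm)
      ((d09_int f).mono_set inter_subset_right) ((d09_int f).mono_set inter_subset_right)]
    exact add_le_add le_rfl (hmono _ _ f inter_subset_right
      (inter_subset_inter_left D sdiff_subset))
  · unfold mass
    rw [univ_inter]
    exact d09_norm f
  · have h1 : ‖S.e k‖ ^ 2 = 1 := by
      rw [← d09_norm, integral_congr_ae (d09_e S k),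
        setIntegral_eq_integral_of_ae_compl_eq_zero (h0 k)]
      have h2 := S.orth k k
      rw [if_pos rfl] at h2
      rw [← h2]
      congr 1
      funext q
      ring
    have h2 : ‖S.e k‖ ^ 2 = 1 ^ 2 := by rw [h1, one_pow]
    exact (pow_left_inj₀ (norm_nonneg _) zero_le_one two_ne_zero).1 h2
  · unfold mass
    rw [integral_congr_ae (ae_restrict_of_ae_restrict_of_subset inter_subset_right (d09_e S k)),
      inter_comm, ← Measure.restrict_restrict hm,
      setIntegral_eq_integral_of_ae_compl_eq_zero (ae_restrict_of_ae (h0 k))]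

/-- The part of the window far from the energy `1`. -/
def gkt (lam : ℕ → ℝ) (h : ℝ) (k : ℕ) : ℝ :=
  if 1 / 2 ≤ h ^ 2 * lam k ∧ h ^ 2 * lam k ≤ 2 then 0 else gk lam h k

/-- Proof: put `x = h² λ > 0`; `-(x - 1)² / (2 h) ≤ -(x - 1) + h / 2` since
`(x - 1)² - 2 h (x - 1) + h² ≥ 0`. -/
theorem gk_le_exp (lam : ℕ → ℝ) {h : ℝ} (hh0 : 0 < h) (k : ℕ) :
    gk lam h k ≤ Real.exp (1 + h / 2) * Real.exp (-(h ^ 2 * lam k)) := by
  unfold gk
  rw [← Real.exp_add]
  refine Real.exp_le_exp.2 ?_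
  rw [div_le_iff₀ (by positivity)]
  nlinarith [sq_nonneg (h ^ 2 * lam k - 1 - h)]

private theorem d09_gkt {lam : ℕ → ℝ} {h : ℝ} (hh0 : 0 < h) (h8 : h ≤ 1 / 8) (k : ℕ)
    (hk : 0 ≤ lam k) :
    gkt lam h k ≤ Real.exp (-(1 / (16 * h))) * Real.exp (-(h ^ 2 * lam k)) := by
  unfold gkt
  split_ifs with h1
  · positivity
  · unfold gk
    rw [← Real.exp_add]
    refine Real.exp_le_exp.2 ?_
    obtain ⟨x, hx⟩ : ∃ x, x = h ^ 2 * lam k := ⟨_, rfl⟩
    rw [← hx] at h1 ⊢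
    have hx0 : 0 ≤ x := by
      rw [hx]
      positivity
    have h2 : 0 ≤ (2 * x - 1) * (4 * x - 7) := by
      rcases lt_or_ge x (1 / 2) with h3 | h3
      · exact mul_nonneg_of_nonpos_of_nonpos (by linarith) (by linarith)
      · have h4 : 2 < x := by
          by_contra h5
          exact h1 ⟨h3, not_lt.1 h5⟩
        exact mul_nonneg (by linarith) (by linarith)
    have h3 : h * x ≤ 1 / 8 * x := mul_le_mul_of_nonneg_right h8 hx0
    have e1 : -(x - 1) ^ 2 / (2 * h) = (-8 * (x - 1) ^ 2) / (16 * h) := by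
      field_simp
      ring
    have e2 : -(1 / (16 * h)) + -x = (-1 - 16 * (h * x)) / (16 * h) := by
      field_simp
      ring
    rw [e1, e2]
    refine div_le_div_of_nonneg_right ?_ (by positivity)
    nlinarith

/-- Proof: put `x = h² λ > 0`. If `x < 1/2` then `(x - 1)² / (2 h) ≥ 1 / (8 h) ≥ 1 / (16 h) + x`
since `1 / (16 h) ≥ 1 / 2`. If `x > 2` then `(x - 1)² / (2 h) ≥ x² / (8 h) = x² / (16 h) +
x² / (16 h) ≥ x / (8 h) + 4 / (16 h) ≥ x + 1 / (16 h)`. -/
theorem gkt_le_exp {lam : ℕ → ℝ} {h : ℝ} (hh0 : 0 < h) (h8 : h ≤ 1 / 8) (k : ℕ)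
    (hk : 0 < lam k) :
    gkt lam h k ≤ Real.exp (-(1 / (16 * h))) * Real.exp (-(h ^ 2 * lam k)) :=
  d09_gkt hh0 h8 k hk.le

/-- Proof: `bly` and `gk_le_exp`. -/
theorem gk_summable (S : Spec D) (G : Geo D) {h : ℝ} (hh0 : 0 < h) :
    Summable (gk S.lam h) ∧ Summable (gkt S.lam h) := by
  have h1 := (bly S G.isBounded G.isOpen.measurableSet hh0).1
  have h2 : ∀ k, 0 ≤ gk S.lam h k := fun k => (Real.exp_pos _).le
  have h3 : Summable (gk S.lam h) :=
    Summable.of_nonneg_of_le h2 (gk_le_exp S.lam hh0) (h1.mul_left _)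
  refine ⟨h3, Summable.of_nonneg_of_le (fun k => ?_) (fun k => ?_) h3⟩
  · unfold gkt
    split_ifs
    · exact le_refl _
    · exact h2 k
  · unfold gkt
    split_ifs
    · exact h2 k
    · exact le_refl _

/-- The window is negligible far from the energy `1`. Proof: by `gkt_le_exp` (`lam_pos`) and `bly`
the sum is at most `exp (-1 / (16 h)) |D| / (4 π h²)`, and `h⁻⁵ exp (-1 / (16 h)) → 0` as `h → 0+`
(`Real.tendsto_pow_mul_exp_neg_atTop_nhds_zero` with the variable `1 / (16 h)`; `hh δ → 0+`). -/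
theorem gkt_tail (S : Spec D) (G : Geo D) :
    ∀ᶠ δ in 𝓝[>] (0 : ℝ), ∑' k, gkt S.lam (hh δ) k ≤ hh δ ^ 3 := by
  set C : ℝ := (volume D).toReal / (4 * Real.pi) with hC
  have hC0 : 0 ≤ C := by positivity
  set c : ℝ := 1 / (C * (720 * 16 ^ 6) + 1) with hc
  have hc0 : 0 < c := by positivity
  filter_upwards [self_mem_nhdsWithin, mem_nhdsWithin_of_mem_nhds (Iic_mem_nhds
    (by norm_num : (0 : ℝ) < 1 / 8)), mem_nhdsWithin_of_mem_nhds (Iic_mem_nhds hc0)]
    with δ hδ hδ1 hδ2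
  have hδ0 : 0 < δ := hδ
  have hδ1' : δ ≤ 1 / 8 := hδ1
  have hδ2' : δ ≤ c := hδ2
  have hle : hh δ ≤ δ := by
    unfold hh
    calc δ ^ 80 ≤ δ ^ 1 := pow_le_pow_of_le_one hδ0.le (by linarith) (by norm_num)
      _ = δ := pow_one δ
  obtain ⟨h, hh⟩ : ∃ h, h = hh δ := ⟨_, rfl⟩
  rw [← hh] at hle ⊢
  have h0 : 0 < h := by
    rw [hh]
    exact pow_pos hδ0 _
  have h8 : h ≤ 1 / 8 := hle.trans hδ1'
  have hhc : h ≤ c := hle.trans hδ2'
  obtain ⟨b1, b2⟩ := bly S G.isBounded G.isOpen.measurableSet h0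
  have k1 : ∑' k, gkt S.lam h k ≤ ∑' k, Real.exp (-(1 / (16 * h))) *
      Real.exp (-(h ^ 2 * S.lam k)) :=
    Summable.tsum_le_tsum (fun k => d09_gkt h0 h8 k (lam_nonneg S k)) (gk_summable S G h0).2
      (b1.mul_left _)
  rw [tsum_mul_left] at k1
  have k2 : Real.exp (-(1 / (16 * h))) ≤ 720 * (16 * h) ^ 6 := by
    have h1 := Real.pow_div_factorial_le_exp (1 / (16 * h)) (by positivity) 6
    have h2 : (Nat.factorial 6 : ℝ) = 720 := by norm_num [Nat.factorial]
    rw [h2] at h1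
    rw [Real.exp_neg, inv_le_comm₀ (Real.exp_pos _) (by positivity)]
    refine le_trans (le_of_eq ?_) h1
    field_simp
  have k3 : ∑' k, gkt S.lam h k ≤ 720 * (16 * h) ^ 6 * ((volume D).toReal /
      (4 * Real.pi * h ^ 2)) :=
    k1.trans (mul_le_mul k2 b2 (tsum_nonneg fun k => (Real.exp_pos _).le) (by positivity))
  refine k3.trans ?_
  have e1 : 720 * (16 * h) ^ 6 * ((volume D).toReal / (4 * Real.pi * h ^ 2)) =
      (C * (720 * 16 ^ 6) * h) * h ^ 3 := by
    rw [hC]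
    field_simp
  rw [e1]
  have k4 : C * (720 * 16 ^ 6) * h ≤ 1 := by
    rw [hc, le_div_iff₀ (by positivity)] at hhc
    nlinarith
  calc C * (720 * 16 ^ 6) * h * h ^ 3 ≤ 1 * h ^ 3 :=
        mul_le_mul_of_nonneg_right k4 (by positivity)
    _ = h ^ 3 := one_mul _

end

end Pool.Agent.MP4eed4eR
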