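import Pool.Agent.Lib.MP_4eed4e_an_R.C08
import Pool.Agent.Lib.MP_4eed4e_an_R.C11
import Pool.Agent.Lib.MP_4eed4e_an_R.D07
import Pool.Agent.Lib.MP_4eed4e_an_R.D09

/-!
MP_4eed4e_an, project R, module D10: high momenta (D2).
-/

namespace Pool.Agent.MP4eed4eR

open MeasureTheory Set Filter Topology Metric
open scoped ENNReal

noncomputable section

variable {D : Set P}

private theorem D10_hh {δ : ℝ} (hδ : 0 < δ) : 0 < hh δ := by unfold hh; positivity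

private theorem D10_v {G : Geo D} {ρ : ℝ} (W : Walls G ρ) (δ : ℝ) (z : P × P) :
    W.v δ z 0 = cls D (W.fam (-1) (-1) (envc δ 0) (hh δ) z.1 z.2) := by
  unfold Walls.v
  rw [pkt_eq_fam]

private theorem D10_co (S : Spec D) (k : ℕ) (f : HD D) :
    ‖S.co k f‖ = ‖(inner ℂ f (S.e k) : ℂ)‖ := by
  unfold Spec.co
  exact norm_inner_symm _ _

private theorem D10_mfam (S : Spec D) {G : Geo D} {ρ R h : ℝ} (W : Walls G ρ) {E : P → ℂ}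
    (hE : Env E R) (k : ℕ) : Measurable (fun z : P × P =>
      ENNReal.ofReal (‖(inner ℂ (cls D (W.fam (-1) (-1) E h z.1 z.2)) (S.e k) : ℂ)‖ ^ 2)) :=
  ((measurable_inner_fam W hE (-1) (-1) (S.e k)).norm.pow_const 2).ennreal_ofReal

private theorem D10_mv (S : Spec D) {G : Geo D} {ρ : ℝ} (W : Walls G ρ) {δ : ℝ} (hδ : 0 < δ)
    (k : ℕ) : Measurable (fun z : P × P =>
      ENNReal.ofReal (‖(inner ℂ (W.v δ z 0) (S.e k) : ℂ)‖ ^ 2)) := by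
  have h := D10_mfam (h := hh δ) S W (env_envc hδ 0) k
  simpa only [D10_v] using h

private theorem D10_gq (S : Spec D) {G : Geo D} {ρ : ℝ} (W : Walls G ρ) {δ : ℝ} (hδ : 0 < δ)
    (z : P × P) : ENNReal.ofReal (S.gq (hh δ) (W.v δ z 0)) =
      ∑' k, ENNReal.ofReal (gk S.lam (hh δ) k) *
        ENNReal.ofReal (‖(inner ℂ (W.v δ z 0) (S.e k) : ℂ)‖ ^ 2) := by
  have hh0 := D10_hh hδ
  unfold Spec.gq
  rw [ENNReal.ofReal_tsum_of_nonneg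
    (fun k => mul_nonneg (gk_bounds S.lam hh0 k).1.le (sq_nonneg _))
    (gq_summable S hh0 (W.v δ z 0)).1]
  refine tsum_congr fun k => ?_
  rw [ENNReal.ofReal_mul (gk_bounds S.lam hh0 k).1.le, D10_co]

/-- Proof: `ENNReal.ofReal_tsum_of_nonneg`, `measurable_inner_fam` (with `pkt_eq_fam`,
`env_envc`; `‖S.co k f‖ = ‖inner f (S.e k)‖` by conjugate symmetry) and
`Measurable.ennreal_tsum`. -/
theorem measurable_gq (S : Spec D) {G : Geo D} {ρ : ℝ} (W : Walls G ρ) {δ : ℝ} (hδ : 0 < δ) :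
    Measurable (fun z : P × P => ENNReal.ofReal (S.gq (hh δ) (W.v δ z 0))) := by
  simp only [D10_gq S W hδ]
  exact Measurable.tsum fun k => (D10_mv S W hδ k).const_mul _

/-- Proof: `ENNReal.ofReal_tsum_of_nonneg` and `lintegral_tsum` (or `lintegral_const_mul`). -/
theorem lint_gq (S : Spec D) {G : Geo D} {ρ : ℝ} (W : Walls G ρ) {δ : ℝ} (hδ : 0 < δ)
    (Z : Set (P × P)) : ∫⁻ z in Z, ENNReal.ofReal (S.gq (hh δ) (W.v δ z 0)) =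
      ∑' k, ENNReal.ofReal (gk S.lam (hh δ) k) *
        ∫⁻ z in Z, ENNReal.ofReal (‖(inner ℂ (W.v δ z 0) (S.e k) : ℂ)‖ ^ 2) := by
  simp only [D10_gq S W hδ]
  rw [lintegral_tsum fun k => ((D10_mv S W hδ k).const_mul _).aemeasurable]
  exact tsum_congr fun k => lintegral_const_mul _ (D10_mv S W hδ k)

private theorem D10_sq {ξ : P} (h : ξ ∉ Sq2) : 4 ≤ sq ξ := by
  unfold Sq2 at h
  unfold sq
  simp only [mem_ofPred_eq, not_and_or, not_le] at h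
  rcases h with h | h
  · have h1 : (2 : ℝ) ^ 2 ≤ |ξ.1| ^ 2 := pow_le_pow_left₀ (by norm_num) h.le 2
    rw [sq_abs] at h1
    nlinarith [sq_nonneg ξ.2]
  · have h1 : (2 : ℝ) ^ 2 ≤ |ξ.2| ^ 2 := pow_le_pow_left₀ (by norm_num) h.le 2
    rw [sq_abs] at h1
    nlinarith [sq_nonneg ξ.1]

private theorem D10_alg {m s a a₀ a₁ a₂ b₁ b₂ : ℝ} (hm : m ≤ 2) (hs : 4 ≤ s)
    (ha : 0 ≤ a) (hb : b₁ ^ 2 + b₂ ^ 2 = s)
    (h : |m - s| * a ≤ a₀ + |b₁| * a₁ + |b₂| * a₂) :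
    a ^ 2 ≤ 3 * (a₀ ^ 2 + a₁ ^ 2 + a₂ ^ 2) := by
  have h3 : s / 2 * a ≤ a₀ + |b₁| * a₁ + |b₂| * a₂ := by
    refine le_trans (mul_le_mul_of_nonneg_right ?_ ha) h
    rw [abs_of_nonpos (by linarith)]
    linarith
  have h4 : (s / 2 * a) ^ 2 ≤ (a₀ + |b₁| * a₁ + |b₂| * a₂) ^ 2 :=
    pow_le_pow_left₀ (by positivity) h3 2
  have h5 : (a₀ + |b₁| * a₁ + |b₂| * a₂) ^ 2 ≤
      3 * (a₀ ^ 2 + (|b₁| * a₁) ^ 2 + (|b₂| * a₂) ^ 2) := by
    nlinarith [sq_nonneg (a₀ - |b₁| * a₁), sq_nonneg (a₀ - |b₂| * a₂),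
      sq_nonneg (|b₁| * a₁ - |b₂| * a₂)]
  rw [mul_pow, mul_pow, sq_abs, sq_abs] at h5
  have h6 : b₁ ^ 2 * a₁ ^ 2 ≤ s * a₁ ^ 2 :=
    mul_le_mul_of_nonneg_right (by nlinarith [sq_nonneg b₂]) (sq_nonneg _)
  have h7 : b₂ ^ 2 * a₂ ^ 2 ≤ s * a₂ ^ 2 :=
    mul_le_mul_of_nonneg_right (by nlinarith [sq_nonneg b₁]) (sq_nonneg _)
  have h8 : s ^ 2 * a ^ 2 ≤ 12 * (a₀ ^ 2 + s * (a₁ ^ 2 + a₂ ^ 2)) := by
    have : (s / 2 * a) ^ 2 = s ^ 2 * a ^ 2 / 4 := by ring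
    linarith
  have h9 : 12 * (a₀ ^ 2 + s * (a₁ ^ 2 + a₂ ^ 2)) ≤ s ^ 2 * (3 * (a₀ ^ 2 + a₁ ^ 2 + a₂ ^ 2)) := by
    have e1 : 0 ≤ (s ^ 2 - 4) * a₀ ^ 2 := mul_nonneg (by nlinarith) (sq_nonneg _)
    have e2 : 0 ≤ (s ^ 2 - 4 * s) * (a₁ ^ 2 + a₂ ^ 2) :=
      mul_nonneg (by nlinarith) (by positivity)
    linarith
  exact le_of_mul_le_mul_left (h8.trans h9) (by positivity)

private theorem D10_Y {G : Geo D} {δ : ℝ} (hδ : 0 < δ) : G.X δ ⊆ G.Y δ := fun x hx =>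
  ⟨subset_closure hx.1, fun v hv => by
    have h1 : 0 < th δ := by unfold th; positivity
    exact le_trans (by linarith) (hx.2 v hv)⟩

/-- One eigenfunction with low energy, high momenta. Proof: for `ξ ∉ Sq2` we have `4 ≤ sq ξ`, so
`h² λ ≤ 2 ≤ sq ξ / 2` and `ham_fam` gives
`‖co k v‖² ≤ 12 (‖co k F₀‖² + sq ξ (‖co k F₁‖² + ‖co k F₂‖²)) / (sq ξ)² ≤
3 (‖co k F₀‖² + ‖co k F₁‖² + ‖co k F₂‖²)`, `F_i = cls (fam E_i)`. Now `bessel_fam` for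
`E₀`, `E₁`, `E₂` and `f = S.e k` (`‖S.e k‖ = 1`, from `S.orth`), `G.X δ ⊆ G.Y δ`, `h ≤ 1`. -/
theorem high_one (S : Spec D) (G : Geo D) : ∃ C : ℝ, ∀ᶠ δ in 𝓝[>] (0 : ℝ),
    ∀ W : Walls G (th δ / 4), ∀ k, hh δ ^ 2 * S.lam k ≤ 2 →
      ∫⁻ z in G.X δ ×ˢ Sq2ᶜ, ENNReal.ofReal (‖(inner ℂ (W.v δ z 0) (S.e k) : ℂ)‖ ^ 2) ≤
        ENNReal.ofReal (C * hh δ ^ 3) := by
  obtain ⟨C, hC⟩ := ham_fam S G
  refine ⟨144 * Real.pi ^ 2 * C, ?_⟩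
  filter_upwards [hC, bessel_fam G, Ioo_mem_nhdsGT (zero_lt_one (α := ℝ))] with δ h1 h2 hδ W k hk
  have hδ0 : 0 < δ := hδ.1
  have hh0 := D10_hh hδ0
  have hh1 : hh δ ≤ 1 := pow_le_one₀ hδ0.le hδ.2.le
  obtain ⟨E₀, E₁, E₂, e₀, e₁, e₂, i₀, i₁, i₂, hE⟩ := h1
  have b₀ := h2 W E₀ e₀ (-1) (-1) (Or.inr rfl) (Or.inr rfl) (S.e k)
  have b₁ := h2 W E₁ e₁ (-1) (-1) (Or.inr rfl) (Or.inr rfl) (S.e k)
  have b₂ := h2 W E₂ e₂ (-1) (-1) (Or.inr rfl) (Or.inr rfl) (S.e k)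
  rw [(orthonormal_e S).1 k, one_pow, mul_one] at b₀ b₁ b₂
  have m₀ := D10_mfam (h := hh δ) S W e₀ k
  have m₁ := D10_mfam (h := hh δ) S W e₁ k
  have m₂ := D10_mfam (h := hh δ) S W e₂ k
  have key : ∀ z ∈ G.X δ ×ˢ Sq2ᶜ, ENNReal.ofReal (‖(inner ℂ (W.v δ z 0) (S.e k) : ℂ)‖ ^ 2) ≤
      ENNReal.ofReal 3 *
      (ENNReal.ofReal (‖(inner ℂ (cls D (W.fam (-1) (-1) E₀ (hh δ) z.1 z.2)) (S.e k) : ℂ)‖ ^ 2) +
      ENNReal.ofReal (‖(inner ℂ (cls D (W.fam (-1) (-1) E₁ (hh δ) z.1 z.2)) (S.e k) : ℂ)‖ ^ 2) +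
      ENNReal.ofReal
        (‖(inner ℂ (cls D (W.fam (-1) (-1) E₂ (hh δ) z.1 z.2)) (S.e k) : ℂ)‖ ^ 2)) := by
    rintro ⟨x, ξ⟩ ⟨hx, hξ⟩
    have h3 := hE W x (D10_Y hδ0 hx) ξ k
    rw [← ENNReal.ofReal_add (sq_nonneg _) (sq_nonneg _), ← ENNReal.ofReal_add
      (add_nonneg (sq_nonneg _) (sq_nonneg _)) (sq_nonneg _), ← ENNReal.ofReal_mul (by norm_num)]
    refine ENNReal.ofReal_le_ofReal ?_
    rw [← D10_co, ← D10_co, ← D10_co, ← D10_co]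
    refine D10_alg (m := hh δ ^ 2 * S.lam k) (s := sq ξ) (b₁ := ξ.1) (b₂ := ξ.2) hk (D10_sq hξ)
      (norm_nonneg _) rfl ?_
    have h4 := congrArg norm h3
    rw [norm_mul, Complex.norm_real, Real.norm_eq_abs] at h4
    rw [h4]
    refine (norm_add_le _ _).trans (add_le_add ((norm_add_le _ _).trans (add_le_add le_rfl ?_)) ?_)
    · rw [norm_mul, Complex.norm_real, Real.norm_eq_abs]
    · rw [norm_mul, Complex.norm_real, Real.norm_eq_abs]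
  refine (setLIntegral_mono (((m₀.add m₁).add m₂).const_mul _) key).trans ?_
  refine (lintegral_mono_set (t := G.Y δ ×ˢ (univ : Set P))
    (prod_mono (D10_Y hδ0) (subset_univ _))).trans ?_
  rw [lintegral_const_mul _ ((m₀.add m₁).add m₂)]
  simp only [Pi.add_apply]
  rw [lintegral_add_right _ m₂, lintegral_add_right _ m₁]
  have hI : ∀ E : P → ℂ, 0 ≤ ∫ y, ‖E y‖ ^ 2 := fun E => integral_nonneg fun y => sq_nonneg _
  have hp : ∀ E : P → ℂ, 0 ≤ 4 * (2 * Real.pi * hh δ) ^ 2 * ∫ y, ‖E y‖ ^ 2 := fun E =>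
    mul_nonneg (by positivity) (hI E)
  refine (mul_le_mul_right (add_le_add (add_le_add b₀ b₁) b₂) _).trans ?_
  rw [← ENNReal.ofReal_add (hp _) (hp _), ← ENNReal.ofReal_add
      (add_nonneg (hp _) (hp _)) (hp _), ← ENNReal.ofReal_mul (by norm_num)]
  refine ENNReal.ofReal_le_ofReal ?_
  have hC0 : 0 ≤ C * hh δ ^ 2 := (hI E₀).trans i₀
  have hC1 : 0 ≤ C := nonneg_of_mul_nonneg_left hC0 (by positivity)
  have j₀ : ∫ y, ‖E₀ y‖ ^ 2 ≤ C * hh δ := i₀.trans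
    (mul_le_mul_of_nonneg_left (by nlinarith) hC1)
  have hq : 0 ≤ 4 * (2 * Real.pi * hh δ) ^ 2 := by positivity
  have k₀ := mul_le_mul_of_nonneg_left j₀ hq
  have k₁ := mul_le_mul_of_nonneg_left i₁ hq
  have k₂ := mul_le_mul_of_nonneg_left i₂ hq
  have e : 144 * Real.pi ^ 2 * C * hh δ ^ 3 =
      3 * (3 * (4 * (2 * Real.pi * hh δ) ^ 2 * (C * hh δ))) := by ring
  rw [e]
  linarith

/-- Proof: `lint_gq` for `Z = G.X δ ×ˢ Sq2ᶜ`. For each `k` either `h² λ ∈ [1/2, 2]` and the term is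
at most `gk * C h³` (`high_one`), or `gk = gkt` and the term is at most `gkt * 4 (2 π h)²`
(`bessel_v`, `‖S.e k‖ = 1`). So the sum is at most `C h³ GSum + 4 (2 π h)² ∑' gkt` and the last
series is at most `h³ ≤ h` (`gkt_tail`, `gk_summable`, `ENNReal.ofReal_tsum_of_nonneg`). -/
theorem high_aux (S : Spec D) (G : Geo D) : ∃ C : ℝ, ∀ᶠ δ in 𝓝[>] (0 : ℝ),
    ∀ W : Walls G (th δ / 4), ∫⁻ z in G.X δ ×ˢ Sq2ᶜ, ENNReal.ofReal
      (S.gq (hh δ) (W.v δ z 0)) ≤ ENNReal.ofReal (C * (hh δ ^ 3 * (GSum S.lam (hh δ) + 1))) := by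
  obtain ⟨C, hC⟩ := high_one S G
  refine ⟨max C 0 + 16 * Real.pi ^ 2, ?_⟩
  filter_upwards [hC, bessel_v G, gkt_tail S G, Ioo_mem_nhdsGT (zero_lt_one (α := ℝ))]
    with δ h1 h2 h3 hδ W
  have hδ0 : 0 < δ := hδ.1
  have hh0 := D10_hh hδ0
  have hh1 : hh δ ≤ 1 := pow_le_one₀ hδ0.le hδ.2.le
  have hC0 : 0 ≤ max C 0 := le_max_right _ _
  obtain ⟨s1, s2⟩ := gk_summable S G hh0
  have hg : ∀ k, 0 ≤ gk S.lam (hh δ) k := fun k => (gk_bounds S.lam hh0 k).1.le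
  have hgt : ∀ k, 0 ≤ gkt S.lam (hh δ) k := fun k => by
    unfold gkt
    split_ifs
    · exact le_rfl
    · exact hg k
  have hG : 0 ≤ GSum S.lam (hh δ) := tsum_nonneg hg
  rw [lint_gq S W hδ0]
  have key : ∀ k, ENNReal.ofReal (gk S.lam (hh δ) k) * ∫⁻ z in G.X δ ×ˢ Sq2ᶜ,
      ENNReal.ofReal (‖(inner ℂ (W.v δ z 0) (S.e k) : ℂ)‖ ^ 2) ≤
      ENNReal.ofReal (max C 0 * hh δ ^ 3 * gk S.lam (hh δ) k) +
        ENNReal.ofReal (4 * (2 * Real.pi * hh δ) ^ 2 * gkt S.lam (hh δ) k) := by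
    intro k
    by_cases hk : 1 / 2 ≤ hh δ ^ 2 * S.lam k ∧ hh δ ^ 2 * S.lam k ≤ 2
    · refine le_trans ?_ (le_add_of_nonneg_right zero_le)
      refine (mul_le_mul_right (h1 W k hk.2) _).trans ?_
      rw [← ENNReal.ofReal_mul (hg k)]
      refine ENNReal.ofReal_le_ofReal ?_
      rw [mul_comm]
      exact mul_le_mul_of_nonneg_right
        (mul_le_mul_of_nonneg_right (le_max_left _ _) (by positivity)) (hg k)
    · refine le_trans ?_ (le_add_of_nonneg_left zero_le)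
      have h4 := h2 W 0 (S.e k)
      rw [(orthonormal_e S).1 k, one_pow, mul_one] at h4
      have h5 : gkt S.lam (hh δ) k = gk S.lam (hh δ) k := if_neg hk
      refine (mul_le_mul_right ((lintegral_mono_set (t := G.Y δ ×ˢ (univ : Set P))
        (prod_mono (D10_Y hδ0) (subset_univ _))).trans h4) _).trans ?_
      rw [h5, ← ENNReal.ofReal_mul (hg k), mul_comm]
  refine (ENNReal.tsum_le_tsum key).trans ?_
  rw [ENNReal.tsum_add, ← ENNReal.ofReal_tsum_of_nonneg (fun k => by have := hg k; positivity)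
    (s1.mul_left _), ← ENNReal.ofReal_tsum_of_nonneg (fun k => by have := hgt k; positivity)
    (s2.mul_left _), tsum_mul_left, tsum_mul_left, ← ENNReal.ofReal_add
      (mul_nonneg (by positivity) (tsum_nonneg hg))
      (mul_nonneg (by positivity) (tsum_nonneg hgt))]
  refine ENNReal.ofReal_le_ofReal ?_
  have h6 : 4 * (2 * Real.pi * hh δ) ^ 2 * ∑' k, gkt S.lam (hh δ) k ≤
      16 * Real.pi ^ 2 * hh δ ^ 3 := by
    refine (mul_le_mul_of_nonneg_left h3 (by positivity)).trans ?_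
    have e : 4 * (2 * Real.pi * hh δ) ^ 2 * hh δ ^ 3 =
        16 * Real.pi ^ 2 * hh δ ^ 3 * hh δ ^ 2 := by ring
    rw [e]
    exact mul_le_of_le_one_right (by positivity) (pow_le_one₀ hh0.le hh1)
  have h7 : 0 ≤ 16 * Real.pi ^ 2 * hh δ ^ 3 * GSum S.lam (hh δ) := by positivity
  have h8 : 0 ≤ max C 0 * hh δ ^ 3 := by positivity
  change max C 0 * hh δ ^ 3 * GSum S.lam (hh δ) + _ ≤ _
  nlinarith

end

end Pool.Agent.MP4eed4eR
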