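import Pool.Agent.Lib.MP_4eed4e_an_R.A06

/-!
MP_4eed4e_an, project R, block A (geometry and billiard). Statements exported to the other blocks.
-/

namespace Pool.Agent.MP4eed4eR

open MeasureTheory Set Filter Topology Metric

noncomputable section

variable {D : Set P}

/-- A1, A2: the grid and the local models. -/
theorem exists_geo (hD : RectDomain D) : ∃ G : Geo D, ∀ p, ReflexPt D p ↔ p ∈ G.V :=
  BlA.exists_geo hD

/-- A3: measurable wall functions. -/
theorem exists_walls (G : Geo D) {ρ : ℝ} (h0 : 0 < ρ) (h1 : ρ ≤ 8 * G.rho0) :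
    Nonempty (Walls G ρ) :=
  BlA.exists_walls G h0 h1

end

end Pool.Agent.MP4eed4eR
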