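import Pool.Agent.Lib.MP_4eed4e_an_R.D08
import Pool.Agent.Lib.MP_4eed4e_an_R.D10
import Pool.Agent.Lib.MP_4eed4e_an_R.OutA1

/-!
MP_4eed4e_an, project R, module D11: the local Weyl law (upper bound).
-/

namespace Pool.Agent.MP4eed4eR

open MeasureTheory Set Filter Topology Metric
open scoped ENNReal

noncomputable section

variable {D : Set P}

private theorem D11_X_Y {G : Geo D} {δ : ℝ} (hδ : 0 < δ) : G.X δ ⊆ G.Y δ := by
  intro x hx
  refine ⟨subset_closure hx.1, fun v hv => ?_⟩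
  have h1 := hx.2 v hv
  have h2 : 0 < th δ := pow_pos hδ 38
  linarith

private theorem D11_fin (G : Geo D) {X : Set P} {δ : ℝ} (hX : X ⊆ G.X δ) :
    volume X = ENNReal.ofReal (volume X).toReal := by
  refine (ENNReal.ofReal_toReal ?_).symm
  have h1 : X ⊆ D := fun x hx => (hX hx).1
  exact ((G.isBounded.subset h1).measure_lt_top).ne

private theorem D11_mass (S : Set P) (f : HD D) : 0 ≤ mass S f :=
  integral_nonneg fun _ => sq_nonneg _

private theorem D11_gk (lam : ℕ → ℝ) (h : ℝ) (k : ℕ) : 0 ≤ gk lam h k := (Real.exp_pos _).le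

private theorem D11_ev (G : Geo D) : ∀ᶠ δ in 𝓝[>] (0 : ℝ), 0 < δ ∧ δ ≤ 1 / 2 ∧ th δ ≤ G.rho0 := by
  have hm : 0 < min (1 / 2) G.rho0 := lt_min (by norm_num) G.pos
  filter_upwards [Ioo_mem_nhdsGT hm] with δ hδ
  obtain ⟨h1, h2⟩ := hδ
  have h3 : δ ≤ 1 / 2 := h2.le.trans (min_le_left _ _)
  refine ⟨h1, h3, ?_⟩
  have h4 : th δ ≤ δ := by
    have h5 := pow_le_pow_of_le_one h1.le (by linarith : δ ≤ 1) (show 1 ≤ 38 by norm_num)
    rw [pow_one] at h5
    exact h5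
  exact h4.trans (h2.le.trans (min_le_right _ _))

/-- Low momenta. Proof: Tonelli (`setLIntegral_prod` or `lintegral_prod` for the restricted
product measure, measurability by `measurable_gq`), then `low_int` for each centre `x ∈ X`
(`G.X δ ⊆ G.Y δ`). -/
theorem low_X (S : Spec D) (G : Geo D) : ∃ C : ℝ, ∀ᶠ δ in 𝓝[>] (0 : ℝ),
    ∀ W : Walls G (th δ / 4), ∀ X : Set P, MeasurableSet X → X ⊆ G.X δ →
      ∫⁻ z in X ×ˢ Sq2, ENNReal.ofReal (S.gq (hh δ) (W.v δ z 0)) ≤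
        ENNReal.ofReal (C * ((volume X).toReal * sh δ)) := by
  obtain ⟨C, hC⟩ := low_int S G
  refine ⟨C, ?_⟩
  filter_upwards [hC, D11_ev G] with δ h1 h2 W X hX hXs
  obtain ⟨hδ, -, -⟩ := h2
  have hv := D11_fin G hXs
  have hm := measurable_gq S W hδ
  calc ∫⁻ z in X ×ˢ Sq2, ENNReal.ofReal (S.gq (hh δ) (W.v δ z 0))
      = ∫⁻ x in X, ∫⁻ ξ in Sq2, ENNReal.ofReal (S.gq (hh δ) (W.v δ (x, ξ) 0)) :=
        setLIntegral_prod _ hm.aemeasurable
    _ ≤ ∫⁻ x in X, ENNReal.ofReal (C * sh δ) :=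
        setLIntegral_mono' hX fun x hx => h1 W x (D11_X_Y hδ (hXs hx))
    _ = ENNReal.ofReal (C * ((volume X).toReal * sh δ)) := by
        rw [setLIntegral_const, hv, ENNReal.toReal_ofReal ENNReal.toReal_nonneg,
          ← ENNReal.ofReal_mul' ENNReal.toReal_nonneg]
        congr 1
        ring

/-- The local Weyl law. Proof: choose walls (`exists_walls`, `th δ / 4 ≤ 8 ρ₀`). Multiply
`frame_loc` for `f = S.e k` by `gk` and sum over `k` (`lint_gq` with `Z = X ×ˢ univ`,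
`ENNReal.ofReal_tsum_of_nonneg`, `ENNReal.tsum_mul_left`): `cst` times the sum is at most
`(2 π h)⁻²` times the integral of `gq` over `X ×ˢ univ`, which is at most the sum of the integrals
over `X ×ˢ Sq2` (`low_X`) and `G.X δ ×ˢ Sq2ᶜ` (`high_aux`). Finally `cst ≥ 1 / 2`
(`cst_near`). The volume of `X` is finite since `D` is bounded. -/
theorem local_weyl (S : Spec D) (G : Geo D) : ∃ C : ℝ, ∀ᶠ δ in 𝓝[>] (0 : ℝ),
    ∀ X A : Set P, MeasurableSet X → X ⊆ G.X δ → MeasurableSet A → A ⊆ D →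
      (∀ q ∈ A, ∀ x ∈ D, dist x q ≤ th δ / 32 → x ∈ X) →
      Summable (fun k => gk S.lam (hh δ) k * mass A (S.e k)) ∧
      (∑' k, gk S.lam (hh δ) k * mass A (S.e k)) * hh δ ^ 2 ≤
        C * ((volume X).toReal * sh δ + hh δ ^ 3 * (GSum S.lam (hh δ) + 1)) := by
  obtain ⟨C₁, h₁⟩ := low_X S G
  obtain ⟨C₂, h₂⟩ := high_aux S G
  refine ⟨|C₁| + |C₂|, ?_⟩
  filter_upwards [h₁, h₂, D11_ev G, frame_loc G, cst_near] with δ e₁ e₂ e₃ e₄ e₅ X A hX hXs hA hAD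
    hXA
  obtain ⟨hδ, hδ2, hρ⟩ := e₃
  have hth : 0 < th δ := pow_pos hδ 38
  have hρ0 := G.pos
  obtain ⟨W⟩ := exists_walls G (ρ := th δ / 4) (by linarith) (by linarith)
  have hh0 : 0 < hh δ := pow_pos hδ 80
  have hsh : 0 < sh δ := pow_pos hδ 40
  have hcst : 1 / 2 ≤ cst δ := by
    have h3 : δ ^ 1000 ≤ δ := by
      have h5 := pow_le_pow_of_le_one hδ.le (by linarith : δ ≤ 1) (show 1 ≤ 1000 by norm_num)
      rwa [pow_one] at h5
    linarith [e₅.1]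
  have hG : 0 ≤ GSum S.lam (hh δ) := tsum_nonneg fun k => D11_gk _ _ k
  set v : ℝ := (volume X).toReal with hvdef
  have hv0 : 0 ≤ v := ENNReal.toReal_nonneg
  set K : ℝ := ((2 * Real.pi * hh δ) ^ 2)⁻¹ with hKdef
  have hK0 : 0 ≤ K := by positivity
  set T : ℝ := |C₁| * (v * sh δ) + |C₂| * (hh δ ^ 3 * (GSum S.lam (hh δ) + 1)) with hTdef
  have hT1 : 0 ≤ |C₁| * (v * sh δ) := by positivity
  have hT2 : 0 ≤ |C₂| * (hh δ ^ 3 * (GSum S.lam (hh δ) + 1)) := by positivity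
  have hT0 : 0 ≤ T := add_nonneg hT1 hT2
  -- the integral of the window
  have hI : ∫⁻ z in X ×ˢ (univ : Set P), ENNReal.ofReal (S.gq (hh δ) (W.v δ z 0)) ≤
      ENNReal.ofReal T := by
    have hsub : X ×ˢ (univ : Set P) ⊆ (X ×ˢ Sq2) ∪ (G.X δ ×ˢ Sq2ᶜ) := by
      rintro ⟨x, ξ⟩ ⟨hx, -⟩
      by_cases hξ : ξ ∈ Sq2
      · exact Or.inl ⟨hx, hξ⟩
      · exact Or.inr ⟨hXs hx, hξ⟩
    calc ∫⁻ z in X ×ˢ (univ : Set P), ENNReal.ofReal (S.gq (hh δ) (W.v δ z 0))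
        ≤ ∫⁻ z in (X ×ˢ Sq2) ∪ (G.X δ ×ˢ Sq2ᶜ), ENNReal.ofReal (S.gq (hh δ) (W.v δ z 0)) :=
          lintegral_mono_set hsub
      _ ≤ (∫⁻ z in X ×ˢ Sq2, ENNReal.ofReal (S.gq (hh δ) (W.v δ z 0))) +
          ∫⁻ z in G.X δ ×ˢ Sq2ᶜ, ENNReal.ofReal (S.gq (hh δ) (W.v δ z 0)) :=
          lintegral_union_le _ _ _
      _ ≤ ENNReal.ofReal (|C₁| * (v * sh δ)) +
          ENNReal.ofReal (|C₂| * (hh δ ^ 3 * (GSum S.lam (hh δ) + 1))) := by
          refine add_le_add ((e₁ W X hX hXs).trans (ENNReal.ofReal_le_ofReal ?_))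
            ((e₂ W).trans (ENNReal.ofReal_le_ofReal ?_))
          · exact mul_le_mul_of_nonneg_right (le_abs_self _) (by positivity)
          · exact mul_le_mul_of_nonneg_right (le_abs_self _) (by positivity)
      _ = ENNReal.ofReal T := (ENNReal.ofReal_add hT1 hT2).symm
  have hsum : ∑' k, ENNReal.ofReal (gk S.lam (hh δ) k * (cst δ * mass A (S.e k))) ≤
      ENNReal.ofReal (K * T) := by
    calc ∑' k, ENNReal.ofReal (gk S.lam (hh δ) k * (cst δ * mass A (S.e k)))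
        ≤ ∑' k, ENNReal.ofReal K * (ENNReal.ofReal (gk S.lam (hh δ) k) *
          ∫⁻ z in X ×ˢ (univ : Set P),
            ENNReal.ofReal (‖(inner ℂ (W.v δ z 0) (S.e k) : ℂ)‖ ^ 2)) := by
          refine ENNReal.tsum_le_tsum fun k => ?_
          rw [ENNReal.ofReal_mul (D11_gk _ _ _), mul_left_comm]
          gcongr
          exact e₄ W X A hX hXs hA hAD hXA (S.e k)
      _ = ENNReal.ofReal K * ∫⁻ z in X ×ˢ (univ : Set P),
            ENNReal.ofReal (S.gq (hh δ) (W.v δ z 0)) := by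
          rw [ENNReal.tsum_mul_left, lint_gq S W hδ]
      _ ≤ ENNReal.ofReal K * ENNReal.ofReal T := by gcongr
      _ = ENNReal.ofReal (K * T) := (ENNReal.ofReal_mul hK0).symm
  have hx0 : ∀ k, 0 ≤ gk S.lam (hh δ) k * mass A (S.e k) := fun k =>
    mul_nonneg (D11_gk _ _ _) (D11_mass _ _)
  have hx1 : ∀ k, 0 ≤ gk S.lam (hh δ) k * (cst δ * mass A (S.e k)) := fun k =>
    mul_nonneg (D11_gk _ _ _) (mul_nonneg (by linarith) (D11_mass _ _))
  have hfin : ∀ s : Finset ℕ, ∑ k ∈ s, gk S.lam (hh δ) k * mass A (S.e k) ≤ 2 * (K * T) := by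
    intro s
    have h3 : ENNReal.ofReal (∑ k ∈ s, gk S.lam (hh δ) k * (cst δ * mass A (S.e k))) ≤
        ENNReal.ofReal (K * T) := by
      rw [ENNReal.ofReal_sum_of_nonneg fun k _ => hx1 k]
      exact (ENNReal.sum_le_tsum s).trans hsum
    have h4 := (ENNReal.ofReal_le_ofReal_iff (mul_nonneg hK0 hT0)).1 h3
    have h5 : ∑ k ∈ s, gk S.lam (hh δ) k * (cst δ * mass A (S.e k)) =
        cst δ * ∑ k ∈ s, gk S.lam (hh δ) k * mass A (S.e k) := by
      rw [Finset.mul_sum]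
      exact Finset.sum_congr rfl fun k _ => by ring
    rw [h5] at h4
    have h6 : 0 ≤ ∑ k ∈ s, gk S.lam (hh δ) k * mass A (S.e k) :=
      Finset.sum_nonneg fun k _ => hx0 k
    nlinarith [mul_le_mul_of_nonneg_right hcst h6]
  have hS : Summable (fun k => gk S.lam (hh δ) k * mass A (S.e k)) :=
    summable_of_sum_le hx0 hfin
  refine ⟨hS, ?_⟩
  have h7 : ∑' k, gk S.lam (hh δ) k * mass A (S.e k) ≤ 2 * (K * T) :=
    hS.tsum_le_of_sum_le hfin
  have h8 : 2 * (K * T) * hh δ ^ 2 ≤ T := by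
    have h9 : 2 * (K * T) * hh δ ^ 2 = T * (2 / (2 * Real.pi) ^ 2) := by
      rw [hKdef]
      field_simp
    rw [h9]
    have h10 : 2 / (2 * Real.pi) ^ 2 ≤ 1 := by
      rw [div_le_one (by positivity)]
      nlinarith [Real.pi_gt_three]
    exact mul_le_of_le_one_right hT0 h10
  have h11 : T ≤ (|C₁| + |C₂|) * (v * sh δ + hh δ ^ 3 * (GSum S.lam (hh δ) + 1)) := by
    have a1 : 0 ≤ |C₂| * (v * sh δ) := by positivity
    have a2 : 0 ≤ |C₁| * (hh δ ^ 3 * (GSum S.lam (hh δ) + 1)) := by positivity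
    rw [hTdef]
    nlinarith
  calc (∑' k, gk S.lam (hh δ) k * mass A (S.e k)) * hh δ ^ 2
      ≤ 2 * (K * T) * hh δ ^ 2 := mul_le_mul_of_nonneg_right h7 (by positivity)
    _ ≤ T := h8
    _ ≤ _ := h11

end

end Pool.Agent.MP4eed4eR
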