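import Pool.Agent.Lib.MP_4eed4e_an_R.D06
import Pool.Agent.Lib.MP_4eed4e_an_R.D03

/-!
MP_4eed4e_an, project R, module D12: slowly varying cutoffs; the Euler identity.
-/

namespace Pool.Agent.MP4eed4eR

open MeasureTheory Set Filter Topology Metric
open scoped ContDiff

noncomputable section

variable {D : Set P}

private lemma st_deriv_bdd : ∃ C : ℝ, 0 < C ∧ ∀ x, |deriv Real.smoothTransition x| ≤ C := by
  have hc : Continuous (deriv Real.smoothTransition) :=
    (Real.smoothTransition.contDiff (n := ⊤)).continuous_deriv (by simp)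
  have hs : HasCompactSupport (deriv Real.smoothTransition) := by
    refine HasCompactSupport.intro (isCompact_Icc (a := (0 : ℝ)) (b := 1)) ?_
    intro x hx
    rw [mem_Icc, not_and_or, not_le, not_le] at hx
    rcases hx with hx | hx
    · have : Real.smoothTransition =ᶠ[𝓝 x] fun _ => 0 := by
        filter_upwards [eventually_lt_nhds hx] with y hy
        exact Real.smoothTransition.zero_of_nonpos hy.le
      rw [this.deriv_eq]
      simp
    · have : Real.smoothTransition =ᶠ[𝓝 x] fun _ => 1 := by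
        filter_upwards [eventually_gt_nhds hx] with y hy
        exact Real.smoothTransition.one_of_one_le hy.le
      rw [this.deriv_eq]
      simp
  obtain ⟨C, hC⟩ := hc.bounded_above_of_compact_support hs
  refine ⟨|C| + 1, by positivity, fun x => ?_⟩
  have := hC x
  rw [Real.norm_eq_abs] at this
  linarith [le_abs_self C]

/-- A slowly varying function of one variable. Proof: with `st = Real.smoothTransition` take
`g s = st (1 - log (max s (1 / 2)) / L)`. For `s < 1` the argument of `st` is at least `1`, so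
`g = 1` there; for `s > 1 / 2` it is `st (1 - log s / L)`, smooth. So `g` is smooth (every point
has one of these two neighbourhoods). `g s = 0` for `s ≥ exp L`. For `s > 1 / 2`,
`s g' s = -st' (1 - log s / L) / L`, and `st'` is bounded (continuous, zero off `[0, 1]`), so
`|s g' s| ≤ C / L ≤ ε` for `L` large; for `s < 1` `g' s = 0`. Take `K` with `K ^ 2 ≥ exp L`. -/
theorem exists_slow1 {ε : ℝ} (hε : 0 < ε) : ∃ (g : ℝ → ℝ) (K : ℝ), ContDiff ℝ ∞ g ∧ 1 ≤ K ∧
    (∀ s, 0 ≤ g s ∧ g s ≤ 1) ∧ (∀ s, s ≤ 1 → g s = 1) ∧ (∀ s, K ^ 2 ≤ s → g s = 0) ∧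
    ∀ s, |s * deriv g s| ≤ ε := by
  obtain ⟨C, hC0, hC⟩ := st_deriv_bdd
  set L : ℝ := C / ε with hL
  have hL0 : 0 < L := by positivity
  set g : ℝ → ℝ := fun s => Real.smoothTransition (1 - Real.log (max s (1 / 2)) / L) with hg
  have hlow : ∀ s, s ≤ 1 → g s = 1 := by
    intro s hs
    refine Real.smoothTransition.one_of_one_le ?_
    have h1 : Real.log (max s (1 / 2)) ≤ 0 :=
      Real.log_nonpos (le_max_of_le_right (by norm_num)) (max_le hs (by norm_num))
    have h2 : Real.log (max s (1 / 2)) / L ≤ 0 := div_nonpos_of_nonpos_of_nonneg h1 hL0.le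
    linarith
  have hev1 : ∀ s, s < 1 → g =ᶠ[𝓝 s] fun _ => 1 := by
    intro s hs
    filter_upwards [eventually_lt_nhds hs] with y hy
    exact hlow y hy.le
  have hev2 : ∀ s, 1 / 2 < s → g =ᶠ[𝓝 s] fun s => Real.smoothTransition (1 - Real.log s / L) := by
    intro s hs
    filter_upwards [eventually_gt_nhds hs] with y hy
    simp only [hg]
    rw [max_eq_left hy.le]
  refine ⟨g, Real.exp L, ?_, Real.one_le_exp hL0.le, ?_, hlow, ?_, ?_⟩
  · rw [contDiff_iff_contDiffAt]
    intro s
    rcases lt_or_ge s 1 with hs | hs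
    · exact contDiffAt_const.congr_of_eventuallyEq (hev1 s hs)
    · refine ContDiffAt.congr_of_eventuallyEq ?_ (hev2 s (by linarith))
      refine Real.smoothTransition.contDiffAt.comp s ?_
      refine contDiffAt_const.sub (ContDiffAt.div_const ?_ _)
      exact Real.contDiffAt_log.2 (by linarith)
  · intro s
    exact ⟨Real.smoothTransition.nonneg _, Real.smoothTransition.le_one _⟩
  · intro s hs
    refine Real.smoothTransition.zero_of_nonpos ?_
    have h1 : Real.exp L ≤ s := by
      refine le_trans ?_ hs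
      have := Real.one_le_exp hL0.le
      nlinarith
    have h2 : L ≤ Real.log (max s (1 / 2)) := by
      rw [Real.le_log_iff_exp_le (lt_max_of_lt_right (by norm_num))]
      exact h1.trans (le_max_left _ _)
    have h3 : 1 ≤ Real.log (max s (1 / 2)) / L := by
      rw [le_div_iff₀ hL0]; linarith
    linarith
  · intro s
    rcases lt_or_ge s 1 with hs | hs
    · rw [(hev1 s hs).deriv_eq]
      simp [hε.le]
    · have hs0 : (0 : ℝ) < s := by linarith
      have hd : HasDerivAt (fun s => Real.smoothTransition (1 - Real.log s / L))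
          (deriv Real.smoothTransition (1 - Real.log s / L) * (-(s⁻¹ / L))) s := by
        have h1 : HasDerivAt (fun s => 1 - Real.log s / L) (-(s⁻¹ / L)) s := by
          have := ((Real.hasDerivAt_log hs0.ne').div_const L).const_sub 1
          simpa using this
        have h2 : HasDerivAt Real.smoothTransition
            (deriv Real.smoothTransition (1 - Real.log s / L)) (1 - Real.log s / L) :=
          ((Real.smoothTransition.contDiff (n := ⊤)).differentiable (by simp) _).hasDerivAt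
        exact h2.comp s h1
      rw [(hev2 s (by linarith)).deriv_eq, hd.deriv]
      have h3 : s * (deriv Real.smoothTransition (1 - Real.log s / L) * (-(s⁻¹ / L))) =
          -(deriv Real.smoothTransition (1 - Real.log s / L) / L) := by
        field_simp
      rw [h3, abs_neg, abs_div, abs_of_pos hL0, div_le_iff₀ hL0]
      refine (hC _).trans (le_of_eq ?_)
      rw [hL]; field_simp

private lemma cd1 {η : P → ℝ} (h : ContDiff ℝ ∞ η) : ContDiff ℝ ∞ (d1 η) := by
  unfold d1
  exact (h.fderiv_right (m := ∞) (by simp)).clm_apply contDiff_const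

private lemma cd2 {η : P → ℝ} (h : ContDiff ℝ ∞ η) : ContDiff ℝ ∞ (d2 η) := by
  unfold d2
  exact (h.fderiv_right (m := ∞) (by simp)).clm_apply contDiff_const

private lemma cs1 {η : P → ℝ} (h : HasCompactSupport η) : HasCompactSupport (d1 η) := by
  unfold d1
  exact (h.fderiv ℝ).comp_left (g := fun L : P →L[ℝ] ℝ => L (1, 0)) rfl

private lemma cs2 {η : P → ℝ} (h : HasCompactSupport η) : HasCompactSupport (d2 η) := by
  unfold d2
  exact (h.fderiv ℝ).comp_left (g := fun L : P →L[ℝ] ℝ => L (0, 1)) rfl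

private lemma clap {η : P → ℝ} (h : ContDiff ℝ ∞ η) : Continuous (lap η) := by
  unfold lap
  exact (cd1 (cd1 h)).continuous.add (cd2 (cd2 h)).continuous

private lemma cslap {η : P → ℝ} (h : HasCompactSupport η) : HasCompactSupport (lap η) := by
  unfold lap
  exact (cs1 (cs1 h)).add (cs2 (cs2 h))

/-- scaling -/
private lemma d_scale (V : P) (m : ℝ) {φ : P → ℝ} (hφ : ContDiff ℝ ∞ φ) (q : P) :
    d1 (fun q => φ (m • (q - V))) q = m * d1 φ (m • (q - V)) ∧
      d2 (fun q => φ (m • (q - V))) q = m * d2 φ (m • (q - V)) := by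
  have h1 : HasFDerivAt (fun q : P => m • (q - V)) (m • ContinuousLinearMap.id ℝ P) q :=
    ((hasFDerivAt_id q).sub_const V).const_smul m
  have h2 : HasFDerivAt φ (fderiv ℝ φ (m • (q - V))) (m • (q - V)) :=
    (hφ.differentiable (by simp) _).hasFDerivAt
  have h3 := h2.comp q h1
  have h4 : fderiv ℝ (fun q => φ (m • (q - V))) q =
      (fderiv ℝ φ (m • (q - V))).comp (m • ContinuousLinearMap.id ℝ P) := h3.fderiv
  constructor
  · show fderiv ℝ (fun q => φ (m • (q - V))) q (1, 0) = m * fderiv ℝ φ (m • (q - V)) (1, 0)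
    rw [h4]
    simp only [ContinuousLinearMap.comp_apply, smul_apply,
      ContinuousLinearMap.id_apply, map_smul, smul_eq_mul]
  · show fderiv ℝ (fun q => φ (m • (q - V))) q (0, 1) = m * fderiv ℝ φ (m • (q - V)) (0, 1)
    rw [h4]
    simp only [ContinuousLinearMap.comp_apply, smul_apply,
      ContinuousLinearMap.id_apply, map_smul, smul_eq_mul]

private lemma d_const_mul (m : ℝ) {φ : P → ℝ} (hφ : ContDiff ℝ ∞ φ) (q : P) :
    d1 (fun q => m * φ q) q = m * d1 φ q ∧ d2 (fun q => m * φ q) q = m * d2 φ q := by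
  have h : fderiv ℝ (fun q => m * φ q) q = m • fderiv ℝ φ q :=
    ((hφ.differentiable (by simp) q).hasFDerivAt.const_mul m).fderiv
  constructor
  · show fderiv ℝ (fun q => m * φ q) q (1, 0) = _
    rw [h]; rfl
  · show fderiv ℝ (fun q => m * φ q) q (0, 1) = _
    rw [h]; rfl

private lemma lap_scale (V : P) (m : ℝ) {φ : P → ℝ} (hφ : ContDiff ℝ ∞ φ) (q : P) :
    lap (fun q => φ (m • (q - V))) q = m ^ 2 * lap φ (m • (q - V)) := by
  have e1 : d1 (fun q => φ (m • (q - V))) = fun q => m * d1 φ (m • (q - V)) :=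
    funext fun q => (d_scale V m hφ q).1
  have e2 : d2 (fun q => φ (m • (q - V))) = fun q => m * d2 φ (m • (q - V)) :=
    funext fun q => (d_scale V m hφ q).2
  have c1 : ContDiff ℝ ∞ (fun q : P => d1 φ (m • (q - V))) :=
    (cd1 hφ).comp ((contDiff_id.sub contDiff_const).const_smul m)
  have c2 : ContDiff ℝ ∞ (fun q : P => d2 φ (m • (q - V))) :=
    (cd2 hφ).comp ((contDiff_id.sub contDiff_const).const_smul m)
  unfold lap
  rw [e1, e2, (d_const_mul m c1 q).1, (d_const_mul m c2 q).2, (d_scale V m (cd1 hφ) q).1,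
    (d_scale V m (cd2 hφ) q).2]
  ring

private lemma sq_smooth : ContDiff ℝ ∞ (sq : P → ℝ) := by
  unfold sq
  fun_prop

private lemma d_sq {g : ℝ → ℝ} (hg : ContDiff ℝ ∞ g) (y : P) :
    d1 (fun y => g (sq y)) y = 2 * deriv g (sq y) * y.1 ∧
      d2 (fun y => g (sq y)) y = 2 * deriv g (sq y) * y.2 := by
  have h1 : HasFDerivAt (sq : P → ℝ)
      ((2 * y.1) • ContinuousLinearMap.fst ℝ ℝ ℝ + (2 * y.2) • ContinuousLinearMap.snd ℝ ℝ ℝ) y := by
    have e1 : HasFDerivAt (fun y : P => y.1 ^ 2) ((2 * y.1) • ContinuousLinearMap.fst ℝ ℝ ℝ) y := by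
      have := (hasFDerivAt_fst (𝕜 := ℝ) (p := y)).pow 2
      simpa using this
    have e2 : HasFDerivAt (fun y : P => y.2 ^ 2) ((2 * y.2) • ContinuousLinearMap.snd ℝ ℝ ℝ) y := by
      have := (hasFDerivAt_snd (𝕜 := ℝ) (p := y)).pow 2
      simpa using this
    exact e1.add e2
  have h2 : HasDerivAt g (deriv g (sq y)) (sq y) :=
    (hg.differentiable (by simp) _).hasDerivAt
  have h3 := (h2.comp_hasFDerivAt y h1).fderiv
  constructor
  · show fderiv ℝ (fun y => g (sq y)) y (1, 0) = _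
    have h4 : fderiv ℝ (fun y => g (sq y)) y = _ := h3
    rw [h4]
    simp
    ring
  · show fderiv ℝ (fun y => g (sq y)) y (0, 1) = _
    have h4 : fderiv ℝ (fun y => g (sq y)) y = _ := h3
    rw [h4]
    simp
    ring

private lemma sq_smul_sub (V : P) (m : ℝ) (q : P) : sq (m • (q - V)) = m ^ 2 * sq (q - V) := by
  unfold sq
  simp only [Prod.smul_fst, Prod.smul_snd, smul_eq_mul]
  ring

/-- A slowly varying radial cutoff in the plane with its scaled versions
`η q = E (r⁻¹ • (q - V))`. All gradients and Laplacians scale, and `E` has compact support (so `E`,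
its first derivatives and its Laplacian are bounded). Proof: `E y = g (sq y)` with the function
`g` of `exists_slow1` for `ε / 2`; `d1 E y = 2 y.1 g' (sq y)`, `d2 E y = 2 y.2 g' (sq y)`, so with
`b = -2 g' (sq y)` we have `|b| sq y ≤ ε` (after scaling `b q = -2 r⁻² g' (r⁻² sq (q - V))`). Use
twice the constant `K` of `exists_slow1` here, so that the last case concerns points in the
interior of the set where `E` vanishes. -/
theorem exists_slow {ε : ℝ} (hε : 0 < ε) : ∃ (E : P → ℝ) (K C : ℝ), 1 ≤ K ∧ 0 ≤ C ∧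
    ∀ (V : P) (r : ℝ), 0 < r → ∃ b : P → ℝ, Cut (fun q => E (r⁻¹ • (q - V))) ∧ ∀ q : P,
      (0 ≤ E (r⁻¹ • (q - V)) ∧ E (r⁻¹ • (q - V)) ≤ 1) ∧
      (sq (q - V) ≤ r ^ 2 → E (r⁻¹ • (q - V)) = 1) ∧
      (K ^ 2 * r ^ 2 ≤ sq (q - V) → E (r⁻¹ • (q - V)) = 0 ∧ b q = 0 ∧
        lap (fun q => E (r⁻¹ • (q - V))) q = 0) ∧
      d1 (fun q => E (r⁻¹ • (q - V))) q = -b q * (q.1 - V.1) ∧
      d2 (fun q => E (r⁻¹ • (q - V))) q = -b q * (q.2 - V.2) ∧
      |b q| * sq (q - V) ≤ ε ∧
      |d1 (fun q => E (r⁻¹ • (q - V))) q| ≤ C / r ∧ |d2 (fun q => E (r⁻¹ • (q - V))) q| ≤ C / r ∧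
      |lap (fun q => E (r⁻¹ • (q - V))) q| ≤ C / r ^ 2 := by
  obtain ⟨g, K₀, hg, hK₀, hg01, hg1, hg0, hgd⟩ := exists_slow1 (half_pos hε)
  set E : P → ℝ := fun y => g (sq y) with hE
  have hEs : ContDiff ℝ ∞ E := hg.comp sq_smooth
  have hEc : HasCompactSupport E := by
    refine HasCompactSupport.intro (isCompact_closedBall (0 : P) K₀) ?_
    intro y hy
    refine hg0 _ ?_
    rw [mem_closedBall, dist_zero_right, not_le, Prod.norm_def, lt_max_iff] at hy
    unfold sq
    rcases hy with hy | hy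
    · rw [Real.norm_eq_abs] at hy
      have := sq_abs y.1
      nlinarith [sq_nonneg y.2]
    · rw [Real.norm_eq_abs] at hy
      have := sq_abs y.2
      nlinarith [sq_nonneg y.1]
  obtain ⟨C₁, hC₁⟩ := (cd1 hEs).continuous.bounded_above_of_compact_support (cs1 hEc)
  obtain ⟨C₂, hC₂⟩ := (cd2 hEs).continuous.bounded_above_of_compact_support (cs2 hEc)
  obtain ⟨C₃, hC₃⟩ := (clap hEs).bounded_above_of_compact_support (cslap hEc)
  set C : ℝ := |C₁| + |C₂| + |C₃| with hC
  have b1 : ∀ y, |d1 E y| ≤ C := fun y => by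
    have := hC₁ y
    rw [Real.norm_eq_abs] at this
    have := le_abs_self C₁
    have := abs_nonneg C₂
    have := abs_nonneg C₃
    linarith
  have b2 : ∀ y, |d2 E y| ≤ C := fun y => by
    have := hC₂ y
    rw [Real.norm_eq_abs] at this
    have := le_abs_self C₂
    have := abs_nonneg C₁
    have := abs_nonneg C₃
    linarith
  have b3 : ∀ y, |lap E y| ≤ C := fun y => by
    have := hC₃ y
    rw [Real.norm_eq_abs] at this
    have := le_abs_self C₃
    have := abs_nonneg C₁
    have := abs_nonneg C₂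
    linarith
  refine ⟨E, 2 * K₀, C, by linarith, by positivity, ?_⟩
  intro V r hr
  have hri : 0 < r⁻¹ := by positivity
  have D1 : ∀ q, |d1 (fun q => E (r⁻¹ • (q - V))) q| ≤ C / r := fun q => by
    rw [(d_scale V r⁻¹ hEs q).1, abs_mul, abs_of_pos hri, div_eq_inv_mul]
    exact mul_le_mul_of_nonneg_left (b1 _) hri.le
  have D2 : ∀ q, |d2 (fun q => E (r⁻¹ • (q - V))) q| ≤ C / r := fun q => by
    rw [(d_scale V r⁻¹ hEs q).2, abs_mul, abs_of_pos hri, div_eq_inv_mul]
    exact mul_le_mul_of_nonneg_left (b2 _) hri.le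
  have D3 : ∀ q, |lap (fun q => E (r⁻¹ • (q - V))) q| ≤ C / r ^ 2 := fun q => by
    rw [lap_scale V r⁻¹ hEs q, abs_mul, abs_of_pos (by positivity : 0 < r⁻¹ ^ 2),
      div_eq_inv_mul, ← inv_pow]
    exact mul_le_mul_of_nonneg_left (b3 _) (by positivity)
  have hsm : ContDiff ℝ ∞ (fun q => E (r⁻¹ • (q - V))) :=
    hEs.comp ((contDiff_id.sub contDiff_const).const_smul r⁻¹)
  refine ⟨fun q => -2 * r⁻¹ ^ 2 * deriv g (sq (r⁻¹ • (q - V))), ⟨hsm, ?_⟩, ?_⟩
  · refine ⟨max 1 (max (C / r) (C / r ^ 2)), fun q => ⟨?_, ?_, ?_, ?_⟩⟩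
    · refine le_trans ?_ (le_max_left _ _)
      rw [abs_of_nonneg (hg01 _).1]
      exact (hg01 _).2
    · exact (D1 q).trans ((le_max_left _ _).trans (le_max_right _ _))
    · exact (D2 q).trans ((le_max_left _ _).trans (le_max_right _ _))
    · exact (D3 q).trans ((le_max_right _ _).trans (le_max_right _ _))
  · intro q
    have hsq : sq (r⁻¹ • (q - V)) = r⁻¹ ^ 2 * sq (q - V) := sq_smul_sub V r⁻¹ q
    have hsq0 : 0 ≤ sq (q - V) := by unfold sq; positivity
    refine ⟨hg01 _, ?_, ?_, ?_, ?_, ?_, D1 q, D2 q, D3 q⟩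
    · intro h
      refine hg1 _ ?_
      rw [hsq]
      calc r⁻¹ ^ 2 * sq (q - V) ≤ r⁻¹ ^ 2 * r ^ 2 := by gcongr
        _ = 1 := by field_simp
    · intro h
      have hbig : K₀ ^ 2 < sq (r⁻¹ • (q - V)) := by
        rw [hsq]
        calc K₀ ^ 2 < (2 * K₀) ^ 2 := by nlinarith
          _ = r⁻¹ ^ 2 * ((2 * K₀) ^ 2 * r ^ 2) := by field_simp
          _ ≤ _ := by gcongr
      have hgev : g =ᶠ[𝓝 (sq (r⁻¹ • (q - V)))] fun _ => 0 := by
        filter_upwards [eventually_gt_nhds hbig] with s hs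
        exact hg0 s hs.le
      refine ⟨hg0 _ hbig.le, ?_, ?_⟩
      · show -2 * r⁻¹ ^ 2 * deriv g (sq (r⁻¹ • (q - V))) = 0
        rw [hgev.deriv_eq]
        simp
      · have hcont : Continuous (fun q : P => sq (r⁻¹ • (q - V))) :=
          (sq_smooth.comp ((contDiff_id.sub contDiff_const).const_smul r⁻¹)).continuous
        have hev : ∀ᶠ q' in 𝓝 q, K₀ ^ 2 < sq (r⁻¹ • (q' - V)) :=
          hcont.continuousAt.eventually (lt_mem_nhds hbig)
        have hηev : (fun q => E (r⁻¹ • (q - V))) =ᶠ[𝓝 q] fun _ => 0 := by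
          filter_upwards [hev] with q' hq'
          exact hg0 _ hq'.le
        have k1 : d1 (fun q => E (r⁻¹ • (q - V))) =ᶠ[𝓝 q] fun _ => 0 := by
          filter_upwards [hηev.eventuallyEq_nhds] with q' hq'
          show fderiv ℝ _ q' (1, 0) = 0
          rw [hq'.fderiv_eq]
          simp
        have k2 : d2 (fun q => E (r⁻¹ • (q - V))) =ᶠ[𝓝 q] fun _ => 0 := by
          filter_upwards [hηev.eventuallyEq_nhds] with q' hq'
          show fderiv ℝ _ q' (0, 1) = 0
          rw [hq'.fderiv_eq]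
          simp
        show fderiv ℝ (d1 (fun q => E (r⁻¹ • (q - V)))) q (1, 0) +
          fderiv ℝ (d2 (fun q => E (r⁻¹ • (q - V)))) q (0, 1) = 0
        rw [k1.fderiv_eq, k2.fderiv_eq]
        simp
    · rw [(d_scale V r⁻¹ hEs q).1, (d_sq hg _).1]
      simp only [Prod.smul_fst, Prod.fst_sub, smul_eq_mul]
      ring
    · rw [(d_scale V r⁻¹ hEs q).2, (d_sq hg _).2]
      simp only [Prod.smul_snd, Prod.snd_sub, smul_eq_mul]
      ring
    · have h1 := hgd (sq (r⁻¹ • (q - V)))
      have h2 : |(-2 * r⁻¹ ^ 2 * deriv g (sq (r⁻¹ • (q - V))))| * sq (q - V) =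
          2 * |sq (r⁻¹ • (q - V)) * deriv g (sq (r⁻¹ • (q - V)))| := by
        rw [abs_mul, abs_mul, abs_mul, abs_of_nonneg (a := sq (r⁻¹ • (q - V)))
          (by rw [hsq]; positivity), abs_of_nonneg (a := r⁻¹ ^ 2) (by positivity)]
        rw [hsq]
        have : |(-2 : ℝ)| = 2 := by norm_num
        rw [this]
        ring
      rw [h2]
      linarith

/-- The Euler identity. Proof: for a test function `φ`, `int_d` for the functions
`(q.1 - V.1) φ²`, `(q.2 - V.2) φ²` gives `0 = ∫ (2 φ² + 2 φ rd V (d1 φ) (d2 φ))`; pass to the limit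
along the approximations of `u` with `l2_lim2` and `rd_cont`. -/
theorem euler_id (hD : IsOpen D) (hb : Bornology.IsBounded D) (V : P) {u u₁ u₂ : P → ℝ}
    (h : H10 D u u₁ u₂) : ∫ q, u q * rd V u₁ u₂ q = -∫ q, u q ^ 2 := by
  obtain ⟨R, hrd, H⟩ := rd_cont hD hb V h
  obtain ⟨φ, hφ, t0, t1, t2⟩ := h.approx
  have key : ∀ n, ∫ q, φ n q * rd V (d1 (φ n)) (d2 (φ n)) q = -∫ q, φ n q * φ n q := by
    intro n
    have hs := (hφ n).smooth
    have hc := (hφ n).compact
    have hf := test_facts (hφ n)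
    have hx1 : ContDiff ℝ ∞ (fun q : P => q.1 - V.1) := by fun_prop
    have hx2 : ContDiff ℝ ∞ (fun q : P => q.2 - V.2) := by fun_prop
    have hφφ : ContDiff ℝ ∞ (fun q => φ n q * φ n q) := hs.mul hs
    have hcφφ : HasCompactSupport (fun q => φ n q * φ n q) := hc.mul_left
    have dx1 : ∀ q, d1 (fun q : P => q.1 - V.1) q = 1 := by
      intro q
      have : HasFDerivAt (fun q : P => q.1 - V.1) (ContinuousLinearMap.fst ℝ ℝ ℝ) q :=
        hasFDerivAt_fst.sub_const _
      show fderiv ℝ _ q (1, 0) = 1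
      rw [this.fderiv]; rfl
    have dx2 : ∀ q, d2 (fun q : P => q.2 - V.2) q = 1 := by
      intro q
      have : HasFDerivAt (fun q : P => q.2 - V.2) (ContinuousLinearMap.snd ℝ ℝ ℝ) q :=
        hasFDerivAt_snd.sub_const _
      show fderiv ℝ _ q (0, 1) = 1
      rw [this.fderiv]; rfl
    have i1 := (int_d (hx1.mul hφφ) hcφφ.mul_left).1
    have i2 := (int_d (hx2.mul hφφ) hcφφ.mul_left).2
    have e1 : ∀ q, d1 (fun q => (q.1 - V.1) * (φ n q * φ n q)) q =
        2 * (φ n q * ((q.1 - V.1) * d1 (φ n) q)) + φ n q * φ n q := by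
      intro q
      rw [(d_mul hx1 hφφ q).1, dx1, (d_mul hs hs q).1]
      ring
    have e2 : ∀ q, d2 (fun q => (q.2 - V.2) * (φ n q * φ n q)) q =
        2 * (φ n q * ((q.2 - V.2) * d2 (φ n) q)) + φ n q * φ n q := by
      intro q
      rw [(d_mul hx2 hφφ q).2, dx2, (d_mul hs hs q).2]
      ring
    have j0 : Integrable (fun q => φ n q * φ n q) := hf.2.2.1.1.integrable_mul hf.2.2.1.1
    have j1 : Integrable (fun q => φ n q * rd V (d1 (φ n)) (d2 (φ n)) q) :=
      hf.2.2.1.1.integrable_mul (H (φ n) (hφ n)).1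
    have k1 : Integrable (fun q => d1 (fun q => (q.1 - V.1) * (φ n q * φ n q)) q) :=
      (cd1 (hx1.mul hφφ)).continuous.integrable_of_hasCompactSupport (cs1 hcφφ.mul_left)
    have k2 : Integrable (fun q => d2 (fun q => (q.2 - V.2) * (φ n q * φ n q)) q) :=
      (cd2 (hx2.mul hφφ)).continuous.integrable_of_hasCompactSupport (cs2 hcφφ.mul_left)
    have e3 : (0 : ℝ) = ∫ q, (2 * (φ n q * rd V (d1 (φ n)) (d2 (φ n)) q) +
        2 * (φ n q * φ n q)) := by
      have : (0 : ℝ) = (∫ q, d1 (fun q => (q.1 - V.1) * (φ n q * φ n q)) q) +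
          ∫ q, d2 (fun q => (q.2 - V.2) * (φ n q * φ n q)) q := by
        have i1' : ∫ q, d1 (fun q => (q.1 - V.1) * (φ n q * φ n q)) q = 0 := i1
        have i2' : ∫ q, d2 (fun q => (q.2 - V.2) * (φ n q * φ n q)) q = 0 := i2
        rw [i1', i2']; ring
      rw [this, ← integral_add k1 k2]
      refine integral_congr_ae (Eventually.of_forall fun q => ?_)
      simp only [e1, e2]
      unfold rd
      ring
    rw [integral_add (j1.const_mul 2) (j0.const_mul 2), integral_const_mul,
      integral_const_mul] at e3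
    linarith
  have lim1 : Tendsto (fun n => ∫ q, φ n q * rd V (d1 (φ n)) (d2 (φ n)) q) atTop
      (𝓝 (∫ q, u q * rd V u₁ u₂ q)) := by
    refine l2_lim2 (fun n => (test_facts (hφ n)).2.2.1.1) (fun n => (H (φ n) (hφ n)).1) h.mem
      hrd t0 ?_
    refine squeeze_zero (fun n => integral_nonneg fun q => sq_nonneg _)
      (fun n => (H (φ n) (hφ n)).2) ?_
    have := (t1.add t2).const_mul (2 * R ^ 2)
    simpa using this
  have lim2 : Tendsto (fun n => ∫ q, φ n q * φ n q) atTop (𝓝 (∫ q, u q * u q)) :=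
    l2_lim2 (fun n => (test_facts (hφ n)).2.2.1.1) (fun n => (test_facts (hφ n)).2.2.1.1) h.mem
      h.mem t0 t0
  have lim3 : Tendsto (fun n => ∫ q, φ n q * rd V (d1 (φ n)) (d2 (φ n)) q) atTop
      (𝓝 (-∫ q, u q * u q)) := by
    simp_rw [key]
    exact lim2.neg
  have := tendsto_nhds_unique lim1 lim3
  rw [this]
  congr 1
  exact integral_congr_ae (Eventually.of_forall fun q => by simp only [pow_two])

end

end Pool.Agent.MP4eed4eR
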