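import Pool.Agent.Lib.MP_4eed4e_an_R.D12

/-!
MP_4eed4e_an, project R, module D13: concentration at a reflex vertex is impossible (D5).
-/

namespace Pool.Agent.MP4eed4eR

open MeasureTheory Set Filter Topology Metric
open scoped ContDiff

noncomputable section

variable {D : Set P}

/-- The Euclidean disc. -/
def Disc (V : P) (r : ℝ) : Set P := {q | sq (q - V) < r ^ 2}

private lemma continuous_sqV (V : P) : Continuous (fun q : P => sq (q - V)) := by
  unfold sq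
  fun_prop

private lemma disc_meas (V : P) (r : ℝ) : MeasurableSet (Disc V r) :=
  (isOpen_lt (continuous_sqV V) continuous_const).measurableSet

private lemma int_bdd {g η : P → ℝ} {C : ℝ} (hg : Integrable g) (hη : Continuous η)
    (hb : ∀ q, |η q| ≤ C) : Integrable (fun q => η q * g q) := by
  refine hg.bdd_mul hη.aestronglyMeasurable (c := C) ?_
  exact Eventually.of_forall fun q => by simpa [Real.norm_eq_abs] using hb q

private lemma cont_d1 {η : P → ℝ} (h : ContDiff ℝ ∞ η) : ContDiff ℝ ∞ (d1 η) := by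
  unfold d1
  exact (h.fderiv_right (m := ∞) (by simp)).clm_apply contDiff_const

private lemma cont_d2 {η : P → ℝ} (h : ContDiff ℝ ∞ η) : ContDiff ℝ ∞ (d2 η) := by
  unfold d2
  exact (h.fderiv_right (m := ∞) (by simp)).clm_apply contDiff_const

private lemma cont_lap {η : P → ℝ} (h : ContDiff ℝ ∞ η) : Continuous (lap η) := by
  unfold lap
  exact (cont_d1 (cont_d1 h)).continuous.add (cont_d2 (cont_d2 h)).continuous

/-- The energy in a disc. Proof: `local_energy` with the cutoff `ζ = η` of `exists_slow` (for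
`ε = 1`) at the scale `r`: `1_{Disc V r} ≤ ζ ≤ 1`, `ζ` and `lap ζ` vanish off `Disc V (K r)`,
`|lap ζ| ≤ C / r²`; `f = lam u`. -/
theorem disc_energy : ∃ K C : ℝ, 1 ≤ K ∧ 0 ≤ C ∧ ∀ (V : P) (r lam : ℝ), 0 < r → 0 ≤ lam →
    Bornology.IsBounded D → ∀ u u₁ u₂ : P → ℝ, Dom D u u₁ u₂ (fun q => lam * u q) →
    ∫ q in Disc V r, (u₁ q ^ 2 + u₂ q ^ 2) ≤
      (lam + C / r ^ 2) * ∫ q in Disc V (K * r), u q ^ 2 := by
  obtain ⟨E, K, C, hK, hC, H⟩ := exists_slow (ε := 1) one_pos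
  refine ⟨K, C, hK, hC, ?_⟩
  intro V r lam hr hlam hb u u₁ u₂ hu
  obtain ⟨b, hcut, hq⟩ := H V r hr
  set η : P → ℝ := fun q => E (r⁻¹ • (q - V)) with hη
  have hle := local_energy hcut hu hb
  obtain ⟨C', hC'⟩ := hcut.bdd
  have hu2 : Integrable (fun q => u q ^ 2) := hu.h10.mem.integrable_sq
  have hg : Integrable (fun q => u₁ q ^ 2 + u₂ q ^ 2) :=
    hu.h10.mem₁.integrable_sq.add hu.h10.mem₂.integrable_sq
  have hηg : Integrable (fun q => η q * (u₁ q ^ 2 + u₂ q ^ 2)) :=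
    int_bdd hg hcut.smooth.continuous fun q => (hC' q).1
  have hηu : Integrable (fun q => η q * u q ^ 2) :=
    int_bdd hu2 hcut.smooth.continuous fun q => (hC' q).1
  have hlu : Integrable (fun q => lap η q * u q ^ 2) :=
    int_bdd hu2 (cont_lap hcut.smooth) fun q => (hC' q).2.2.2
  calc ∫ q in Disc V r, (u₁ q ^ 2 + u₂ q ^ 2)
      = ∫ q, (Disc V r).indicator (fun q => u₁ q ^ 2 + u₂ q ^ 2) q := by
        rw [integral_indicator (disc_meas V r)]
    _ ≤ ∫ q, η q * (u₁ q ^ 2 + u₂ q ^ 2) := by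
        refine integral_mono (hg.indicator (disc_meas V r)) hηg fun q => ?_
        by_cases h : q ∈ Disc V r
        · simp only [indicator_of_mem h]
          have h1 : sq (q - V) < r ^ 2 := h
          have h2 : η q = 1 := (hq q).2.1 h1.le
          rw [h2, one_mul]
        · simp only [indicator_of_notMem h]
          exact mul_nonneg (hq q).1.1 (by positivity)
    _ = ∫ q, (lam * (η q * u q ^ 2) + 1 / 2 * (lap η q * u q ^ 2)) := by
        rw [hle, integral_add (hηu.const_mul lam) (hlu.const_mul _), integral_const_mul (1 / 2)]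
        congr 1
        refine integral_congr_ae (Eventually.of_forall fun q => ?_)
        show η q * (u q * (lam * u q)) = lam * (η q * u q ^ 2)
        ring
    _ ≤ ∫ q, (Disc V (K * r)).indicator (fun q => (lam + C / r ^ 2) * u q ^ 2) q := by
        refine integral_mono ((hηu.const_mul lam).add (hlu.const_mul _))
          ((hu2.const_mul _).indicator (disc_meas V _)) fun q => ?_
        by_cases h : q ∈ Disc V (K * r)
        · simp only [indicator_of_mem h]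
          have h1 := (hq q).1.2
          have h2 := (abs_le.1 (hq q).2.2.2.2.2.2.2.2).2
          have h3 : 0 ≤ C / r ^ 2 := by positivity
          have h4 : 0 ≤ u q ^ 2 := sq_nonneg _
          have h5 : lam * (η q * u q ^ 2) ≤ lam * u q ^ 2 := by
            refine mul_le_mul_of_nonneg_left ?_ hlam
            nlinarith
          have h6 : lap η q * u q ^ 2 ≤ C / r ^ 2 * u q ^ 2 :=
            mul_le_mul_of_nonneg_right h2 h4
          have h7 : 0 ≤ C / r ^ 2 * u q ^ 2 := by positivity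
          linarith
        · simp only [indicator_of_notMem h]
          have h1 : K ^ 2 * r ^ 2 ≤ sq (q - V) := by
            have := not_lt.1 (show ¬ sq (q - V) < (K * r) ^ 2 from h)
            rwa [mul_pow] at this
          have h2 := (hq q).2.2.1 h1
          have h3 : η q = 0 := h2.1
          have h4 : lap η q = 0 := h2.2.2
          rw [h3, h4]
          simp
    _ = (lam + C / r ^ 2) * ∫ q in Disc V (K * r), u q ^ 2 := by
        rw [integral_indicator (disc_meas V _), integral_const_mul]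

/-- The identity for the cut off function. Proof: let `η` be a smooth cutoff as in the statement,
`w = η u`. By `dom_mul`, `Dom D w (η u₁ + d1 η u) (η u₂ + d2 η u) F` with
`F = η lam u - 2 (d1 η u₁ + d2 η u₂) - lap η u`. The dilation identity (`dilation`, all functions
vanish for `dist q V ≥ 4 ρ₀` because `η` and its derivatives do) is
`∫ F rd V w₁ w₂ = 0`, and `∫ w rd V w₁ w₂ = -∫ w²` (`euler_id`). So
`lam ∫ w² = -∫ (2 (d1 η u₁ + d2 η u₂) + lap η u) rd V w₁ w₂` (all products are integrable: `MemLp`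
times `MemLp`, `rd_cont`). -/
theorem cut_identity (G : Geo D) {V : P} (hV : V ∈ G.V) {η : P → ℝ} (hη : Cut η)
    (hs : ∀ q, 4 * G.rho0 ≤ dist q V → η q = 0 ∧ d1 η q = 0 ∧ d2 η q = 0 ∧ lap η q = 0)
    {lam : ℝ} {u u₁ u₂ : P → ℝ} (h : Dom D u u₁ u₂ (fun q => lam * u q)) :
    lam * ∫ q, (η q * u q) ^ 2 =
      -∫ q, (2 * (d1 η q * u₁ q + d2 η q * u₂ q) + lap η q * u q) *
        rd V (fun q => η q * u₁ q + d1 η q * u q) (fun q => η q * u₂ q + d2 η q * u q) q := by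
  have hw := dom_mul hη h
  have hdil := dilation G hV hw
    (fun q hq => by obtain ⟨e1, e2, e3, e4⟩ := hs q hq; simp [e1, e2, e3])
    (fun q hq => by obtain ⟨e1, e2, e3, e4⟩ := hs q hq; simp [e1, e2, e3, e4])
  have heul := euler_id G.isOpen G.isBounded V hw.h10
  obtain ⟨R, hrd, -⟩ := rd_cont G.isOpen G.isBounded V hw.h10
  set r : P → ℝ := rd V (fun q => η q * u₁ q + d1 η q * u q)
    (fun q => η q * u₂ q + d2 η q * u q) with hr
  set F : P → ℝ := fun q => η q * (lam * u q) - 2 * (d1 η q * u₁ q + d2 η q * u₂ q) -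
    lap η q * u q with hF
  have e1 : ∫ q, F q * r q = 0 := hdil
  have i1 : Integrable (fun q => η q * u q * r q) := hw.h10.mem.integrable_mul hrd
  have i2 : Integrable (fun q => F q * r q) := hw.mem.integrable_mul hrd
  have e2 : ∫ q, (2 * (d1 η q * u₁ q + d2 η q * u₂ q) + lap η q * u q) * r q =
      ∫ q, (lam * (η q * u q * r q) - F q * r q) := by
    refine integral_congr_ae (Eventually.of_forall fun q => ?_)
    show _ = lam * (η q * u q * r q) - (η q * (lam * u q) -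
      2 * (d1 η q * u₁ q + d2 η q * u₂ q) - lap η q * u q) * r q
    ring
  rw [e2, integral_sub (i1.const_mul lam) i2, e1, integral_const_mul, heul]
  ring

/-- The pointwise estimate of the integrand. With `X = (x₁, x₂) = q - V`, `∇η = -b X`,
`|b| |X|² ≤ ε`, `|X| ≤ K r`: the integrand is
`-(-2 b (X·p) + l u) (η (X·p) - b |X|² u)` where `p = (p₁, p₂) = ∇u`, `l = lap η`. The first
product is `2 b η (X·p)² ≤ 2 ε |p|²`; the others are bounded by `C r⁻¹ |u| |p|` and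
`C r⁻² u²`; and `r⁻¹ |u| |p| ≤ (h / r) |p|² + u² / (h r)`. Proof by elementary inequalities
(`(X·p)² ≤ |X|² |p|²`). -/
theorem pointwise_bound (C₀ K ε : ℝ) (hC₀ : 0 ≤ C₀) (hK : 1 ≤ K) (hε : 0 < ε) (hε1 : ε ≤ 1) :
    ∃ C : ℝ, 0 ≤ C ∧ ∀ h r x₁ x₂ p₁ p₂ b l e u : ℝ, 0 < h → h ≤ r →
      x₁ ^ 2 + x₂ ^ 2 ≤ K ^ 2 * r ^ 2 → |b| * (x₁ ^ 2 + x₂ ^ 2) ≤ ε → |b * x₁| ≤ C₀ / r →
      |b * x₂| ≤ C₀ / r → |l| ≤ C₀ / r ^ 2 → 0 ≤ e → e ≤ 1 →
      -((2 * (-b * x₁ * p₁ + -b * x₂ * p₂) + l * u) *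
        (x₁ * (e * p₁ + -b * x₁ * u) + x₂ * (e * p₂ + -b * x₂ * u))) ≤
        (2 * ε + C * (h / r)) * (p₁ ^ 2 + p₂ ^ 2) + C / (h * r) * u ^ 2 := by
  refine ⟨3 * C₀ + C₀ * K, by positivity, ?_⟩
  intro h r x₁ x₂ p₁ p₂ b l e u hh hhr hx hb hb1 hb2 hl he he1
  have hr : 0 < r := hh.trans_le hhr
  have hN : 0 ≤ x₁ ^ 2 + x₂ ^ 2 := by positivity
  have hp : 0 ≤ p₁ ^ 2 + p₂ ^ 2 := by positivity
  have hK0 : 0 < K := by linarith
  -- the expansion
  have hexp : -((2 * (-b * x₁ * p₁ + -b * x₂ * p₂) + l * u) *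
        (x₁ * (e * p₁ + -b * x₁ * u) + x₂ * (e * p₂ + -b * x₂ * u))) =
      2 * b * e * (x₁ * p₁ + x₂ * p₂) ^ 2 -
        2 * (b * (x₁ ^ 2 + x₂ ^ 2)) * (b * x₁ * p₁ + b * x₂ * p₂) * u -
        e * l * u * (x₁ * p₁ + x₂ * p₂) + l * (b * (x₁ ^ 2 + x₂ ^ 2)) * u ^ 2 := by
    ring
  rw [hexp]
  have hbN : |b * (x₁ ^ 2 + x₂ ^ 2)| ≤ ε := by
    rw [abs_mul, abs_of_nonneg hN]; exact hb
  have hx1 : |x₁| ≤ K * r := abs_le_of_sq_le_sq (by nlinarith) (by positivity)
  have hx2 : |x₂| ≤ K * r := abs_le_of_sq_le_sq (by nlinarith) (by positivity)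
  -- first term
  have t1 : 2 * b * e * (x₁ * p₁ + x₂ * p₂) ^ 2 ≤ 2 * ε * (p₁ ^ 2 + p₂ ^ 2) := by
    have hcs : (x₁ * p₁ + x₂ * p₂) ^ 2 ≤ (x₁ ^ 2 + x₂ ^ 2) * (p₁ ^ 2 + p₂ ^ 2) := by
      nlinarith [sq_nonneg (x₁ * p₂ - x₂ * p₁)]
    calc 2 * b * e * (x₁ * p₁ + x₂ * p₂) ^ 2
        ≤ 2 * |b| * 1 * (x₁ * p₁ + x₂ * p₂) ^ 2 := by
          refine mul_le_mul_of_nonneg_right ?_ (sq_nonneg _)
          have := le_abs_self b
          have := abs_nonneg b
          nlinarith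
      _ ≤ 2 * |b| * 1 * ((x₁ ^ 2 + x₂ ^ 2) * (p₁ ^ 2 + p₂ ^ 2)) :=
          mul_le_mul_of_nonneg_left hcs (by positivity)
      _ = 2 * (|b| * (x₁ ^ 2 + x₂ ^ 2)) * (p₁ ^ 2 + p₂ ^ 2) := by ring
      _ ≤ 2 * ε * (p₁ ^ 2 + p₂ ^ 2) :=
          mul_le_mul_of_nonneg_right (by linarith) hp
  set A : ℝ := (|p₁| + |p₂|) * |u| / r with hA
  have hA0 : 0 ≤ A := by positivity
  have t2 : -(2 * (b * (x₁ ^ 2 + x₂ ^ 2)) * (b * x₁ * p₁ + b * x₂ * p₂) * u) ≤ 2 * C₀ * A := by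
    refine (neg_le_abs _).trans ?_
    rw [abs_mul, abs_mul, abs_mul, abs_two]
    have h1 : |b * x₁ * p₁ + b * x₂ * p₂| ≤ C₀ / r * (|p₁| + |p₂|) := by
      refine (abs_add_le _ _).trans ?_
      rw [abs_mul (b * x₁), abs_mul (b * x₂), mul_add]
      gcongr
    calc 2 * |b * (x₁ ^ 2 + x₂ ^ 2)| * |b * x₁ * p₁ + b * x₂ * p₂| * |u|
        ≤ 2 * 1 * (C₀ / r * (|p₁| + |p₂|)) * |u| := by
          gcongr
          exact hbN.trans hε1
      _ = 2 * C₀ * A := by rw [hA]; ring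
  have t3 : -(e * l * u * (x₁ * p₁ + x₂ * p₂)) ≤ C₀ * K * A := by
    refine (neg_le_abs _).trans ?_
    rw [abs_mul, abs_mul, abs_mul, abs_of_nonneg he]
    have h1 : |x₁ * p₁ + x₂ * p₂| ≤ K * r * (|p₁| + |p₂|) := by
      refine (abs_add_le _ _).trans ?_
      rw [abs_mul x₁, abs_mul x₂, mul_add]
      gcongr
    calc e * |l| * |u| * |x₁ * p₁ + x₂ * p₂|
        ≤ 1 * (C₀ / r ^ 2) * |u| * (K * r * (|p₁| + |p₂|)) := by
          gcongr
      _ = C₀ * K * A := by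
          rw [hA]; field_simp
  have t4 : l * (b * (x₁ ^ 2 + x₂ ^ 2)) * u ^ 2 ≤ C₀ / (h * r) * u ^ 2 := by
    refine mul_le_mul_of_nonneg_right ?_ (sq_nonneg _)
    refine (le_abs_self _).trans ?_
    rw [abs_mul]
    calc |l| * |b * (x₁ ^ 2 + x₂ ^ 2)| ≤ C₀ / r ^ 2 * 1 := by
          gcongr
          exact hbN.trans hε1
      _ ≤ C₀ / (h * r) := by
          rw [mul_one]
          gcongr
          nlinarith
  have t5 : A ≤ h / r * (p₁ ^ 2 + p₂ ^ 2) + 1 / (h * r) * u ^ 2 := by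
    have h1 : ∀ p : ℝ, |p| * |u| ≤ h / 2 * p ^ 2 + 1 / (2 * h) * u ^ 2 := by
      intro p
      have h2 : 0 ≤ (h * |p| - |u|) ^ 2 := sq_nonneg _
      have h3 : (h * |p| - |u|) ^ 2 = h ^ 2 * p ^ 2 - 2 * h * (|p| * |u|) + u ^ 2 := by
        have := sq_abs p
        have := sq_abs u
        nlinarith
      have h4 : h / 2 * p ^ 2 + 1 / (2 * h) * u ^ 2 - |p| * |u| =
          (h * |p| - |u|) ^ 2 / (2 * h) := by
        rw [h3]; field_simp; ring
      have h5 : 0 ≤ (h * |p| - |u|) ^ 2 / (2 * h) := by positivity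
      linarith
    have h6 : A = (|p₁| * |u| + |p₂| * |u|) / r := by rw [hA]; ring
    rw [h6, div_le_iff₀ hr]
    have h7 : (h / r * (p₁ ^ 2 + p₂ ^ 2) + 1 / (h * r) * u ^ 2) * r =
        h * (p₁ ^ 2 + p₂ ^ 2) + 1 / h * u ^ 2 := by
      field_simp
    rw [h7]
    have h8 := h1 p₁
    have h9 := h1 p₂
    have h10 : 1 / (2 * h) * u ^ 2 + 1 / (2 * h) * u ^ 2 = 1 / h * u ^ 2 := by
      field_simp; ring
    nlinarith
  have t6 : (2 * C₀ + C₀ * K) * A ≤
      (2 * C₀ + C₀ * K) * (h / r * (p₁ ^ 2 + p₂ ^ 2) + 1 / (h * r) * u ^ 2) :=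
    mul_le_mul_of_nonneg_left t5 (by positivity)
  have t7 : 0 ≤ C₀ * (h / r) * (p₁ ^ 2 + p₂ ^ 2) := by positivity
  have t8 : C₀ / (h * r) * u ^ 2 = C₀ * (1 / (h * r) * u ^ 2) := by ring
  have t9 : (3 * C₀ + C₀ * K) / (h * r) * u ^ 2 =
      (3 * C₀ + C₀ * K) * (1 / (h * r) * u ^ 2) := by ring
  rw [t9]
  rw [t8] at t4
  nlinarith

/-- D5. Proof: let `E, K₁, C₁` be as in `exists_slow` for `ε₁ = min ε 1 / 4`, `K₂, C₂` as in
`disc_energy`, `K = K₁ * K₂`. Since `K₁ r ≤ ρ₀`, `cut_identity` applies to `η`; by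
`pointwise_bound` on `Disc V (K₁ r)` (the integrand vanishes outside),
`lam ∫_{Disc V r} u² ≤ (2 ε₁ + C h / r) ∫_{Disc V (K₁ r)} |∇u|² + C / (h r) ∫_{Disc V (K₁ r)} u²
≤ ((2 ε₁ + C h / r) (lam + C₂ / r²) + C / (h r)) ∫_{Disc V (K r)} u²`. Divide by `lam`, where
`lam⁻¹ ≤ 2 h²` and `h ≤ r`. -/
theorem vertex_gain (G : Geo D) {ε : ℝ} (hε : 0 < ε) : ∃ K C : ℝ, 1 ≤ K ∧ 0 ≤ C ∧
    ∀ V ∈ G.V, ∀ r h lam : ℝ, 0 < h → h ≤ r → K * r ≤ G.rho0 → 1 / 2 ≤ h ^ 2 * lam →
    ∀ u u₁ u₂ : P → ℝ, Dom D u u₁ u₂ (fun q => lam * u q) →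
      ∫ q in Disc V r, u q ^ 2 ≤ (ε + C * (h / r)) * ∫ q in Disc V (K * r), u q ^ 2 := by
  set ε₁ : ℝ := min ε 1 / 4 with hε₁
  have hm : 0 < min ε 1 := lt_min hε one_pos
  have hε₁0 : 0 < ε₁ := by rw [hε₁]; linarith
  have hε₁1 : ε₁ ≤ 1 := by
    have := min_le_right ε 1
    rw [hε₁]; linarith
  have hε₁2 : 2 * ε₁ ≤ ε := by
    have := min_le_left ε 1
    rw [hε₁]; linarith
  obtain ⟨E, K₁, C₁, hK₁, hC₁, H⟩ := exists_slow hε₁0
  obtain ⟨K₂, C₂, hK₂, hC₂, H₂⟩ := disc_energy (D := D)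
  obtain ⟨C, hC, H₃⟩ := pointwise_bound C₁ K₁ ε₁ hC₁ hK₁ hε₁0 hε₁1
  refine ⟨K₁ * K₂, C + 4 * ε₁ * C₂ + 2 * C * C₂ + 2 * C, by nlinarith, by positivity, ?_⟩
  intro V hV r h lam hh hhr hKr hlam u u₁ u₂ hu
  have hr : 0 < r := hh.trans_le hhr
  have hlam0 : 0 < lam := by
    by_contra hneg
    have := mul_nonpos_of_nonneg_of_nonpos (sq_nonneg h) (not_lt.1 hneg)
    linarith
  have hrho := G.pos
  have hK₁r : K₁ * r ≤ G.rho0 := by
    refine le_trans ?_ hKr
    have : 0 ≤ K₁ * r := by positivity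
    nlinarith
  obtain ⟨b, hcut, hq⟩ := H V r hr
  set η : P → ℝ := fun q => E (r⁻¹ • (q - V)) with hη
  -- far points
  have hfar : ∀ q, q ∉ Disc V (K₁ * r) → η q = 0 ∧ b q = 0 ∧ lap η q = 0 := by
    intro q hqD
    have h1 : K₁ ^ 2 * r ^ 2 ≤ sq (q - V) := by
      have := not_lt.1 (show ¬ sq (q - V) < (K₁ * r) ^ 2 from hqD)
      rwa [mul_pow] at this
    exact (hq q).2.2.1 h1
  have hs : ∀ q, 4 * G.rho0 ≤ dist q V → η q = 0 ∧ d1 η q = 0 ∧ d2 η q = 0 ∧ lap η q = 0 := by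
    intro q hqV
    have h1 : q ∉ Disc V (K₁ * r) := by
      intro hmem
      have h2 : sq (q - V) < (K₁ * r) ^ 2 := hmem
      have h3 : (K₁ * r) ^ 2 ≤ G.rho0 ^ 2 := by
        have : 0 ≤ K₁ * r := by positivity
        nlinarith
      have h4 : dist q V ^ 2 ≤ sq (q - V) := by
        rw [Prod.dist_eq, Real.dist_eq, Real.dist_eq]
        unfold sq
        rcases max_cases |q.1 - V.1| |q.2 - V.2| with hmx | hmx
        · rw [hmx.1, sq_abs]
          simp only [Prod.fst_sub, Prod.snd_sub]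
          nlinarith [sq_nonneg (q.2 - V.2)]
        · rw [hmx.1, sq_abs]
          simp only [Prod.fst_sub, Prod.snd_sub]
          nlinarith [sq_nonneg (q.1 - V.1)]
      nlinarith
    obtain ⟨e1, e2, e3⟩ := hfar q h1
    have e4 : d1 η q = -b q * (q.1 - V.1) := (hq q).2.2.2.1
    have e5 : d2 η q = -b q * (q.2 - V.2) := (hq q).2.2.2.2.1
    exact ⟨e1, by rw [e4, e2]; simp, by rw [e5, e2]; simp, e3⟩
  have hid := cut_identity G hV hcut hs hu
  obtain ⟨C', hC'⟩ := hcut.bdd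
  have hu2 : Integrable (fun q => u q ^ 2) := hu.h10.mem.integrable_sq
  have hg : Integrable (fun q => u₁ q ^ 2 + u₂ q ^ 2) :=
    hu.h10.mem₁.integrable_sq.add hu.h10.mem₂.integrable_sq
  have hηu2 : Integrable (fun q => (η q * u q) ^ 2) := (dom_mul hcut hu).h10.mem.integrable_sq
  set M : ℝ := ∫ q in Disc V (K₁ * K₂ * r), u q ^ 2 with hM
  have hM0 : 0 ≤ M := setIntegral_nonneg (disc_meas V _) fun q _ => sq_nonneg _
  -- step 1
  have s1 : lam * ∫ q in Disc V r, u q ^ 2 ≤ lam * ∫ q, (η q * u q) ^ 2 := by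
    refine mul_le_mul_of_nonneg_left ?_ hlam0.le
    rw [← integral_indicator (disc_meas V r)]
    refine integral_mono (hu2.indicator (disc_meas V r)) hηu2 fun q => ?_
    by_cases hqd : q ∈ Disc V r
    · simp only [indicator_of_mem hqd]
      have h1 : sq (q - V) < r ^ 2 := hqd
      have h2 : η q = 1 := (hq q).2.1 h1.le
      rw [h2, one_mul]
    · simp only [indicator_of_notMem hqd]
      positivity
  -- step 2
  set a₁ : ℝ := 2 * ε₁ + C * (h / r) with ha₁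
  set a₂ : ℝ := C / (h * r) with ha₂
  have ha₁0 : 0 ≤ a₁ := by positivity
  have ha₂0 : 0 ≤ a₂ := by positivity
  have s2 : lam * ∫ q, (η q * u q) ^ 2 ≤
      a₁ * (∫ q in Disc V (K₁ * r), (u₁ q ^ 2 + u₂ q ^ 2)) +
        a₂ * ∫ q in Disc V (K₁ * r), u q ^ 2 := by
    rw [hid, ← integral_neg, ← integral_indicator (disc_meas V _),
      ← integral_indicator (disc_meas V _), ← integral_const_mul, ← integral_const_mul,
      ← integral_add ((hg.indicator (disc_meas V _)).const_mul _)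
        ((hu2.indicator (disc_meas V _)).const_mul _)]
    have hint : Integrable (fun q => -((2 * (d1 η q * u₁ q + d2 η q * u₂ q) + lap η q * u q) *
        rd V (fun q => η q * u₁ q + d1 η q * u q) (fun q => η q * u₂ q + d2 η q * u q) q)) := by
      have hw := dom_mul hcut hu
      obtain ⟨R, hrd, -⟩ := rd_cont G.isOpen G.isBounded V hw.h10
      have hG : MemLp (fun q => lam * (η q * u q) - (η q * (lam * u q) -
          2 * (d1 η q * u₁ q + d2 η q * u₂ q) - lap η q * u q)) 2 volume :=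
        (hw.h10.mem.const_mul lam).sub hw.mem
      refine (hG.integrable_mul hrd).neg.congr (Eventually.of_forall fun q => ?_)
      simp only [Pi.neg_apply, Pi.mul_apply]
      ring
    refine integral_mono hint (((hg.indicator (disc_meas V _)).const_mul _).add
      ((hu2.indicator (disc_meas V _)).const_mul _)) fun q => ?_
    have e4 : d1 η q = -b q * (q.1 - V.1) := (hq q).2.2.2.1
    have e5 : d2 η q = -b q * (q.2 - V.2) := (hq q).2.2.2.2.1
    by_cases hqd : q ∈ Disc V (K₁ * r)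
    · simp only [indicator_of_mem hqd]
      unfold rd
      beta_reduce
      have hsq : (q.1 - V.1) ^ 2 + (q.2 - V.2) ^ 2 < (K₁ * r) ^ 2 := hqd
      have f1 : |b q * (q.1 - V.1)| ≤ C₁ / r := by
        have := (hq q).2.2.2.2.2.2.1
        rw [e4, neg_mul, abs_neg] at this
        exact this
      have f2 : |b q * (q.2 - V.2)| ≤ C₁ / r := by
        have := (hq q).2.2.2.2.2.2.2.1
        rw [e5, neg_mul, abs_neg] at this
        exact this
      have := H₃ h r (q.1 - V.1) (q.2 - V.2) (u₁ q) (u₂ q) (b q) (lap η q) (η q) (u q) hh hhr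
        (by rw [mul_pow] at hsq; exact hsq.le) (hq q).2.2.2.2.2.1 f1 f2
        (hq q).2.2.2.2.2.2.2.2 (hq q).1.1 (hq q).1.2
      rw [e4, e5]
      exact this
    · simp only [indicator_of_notMem hqd]
      obtain ⟨g1, g2, g3⟩ := hfar q hqd
      rw [e4, e5, g2, g3]
      simp
  -- step 3
  have s3 : ∫ q in Disc V (K₁ * r), (u₁ q ^ 2 + u₂ q ^ 2) ≤ (lam + C₂ / r ^ 2) * M := by
    have h1 := H₂ V (K₁ * r) lam (by positivity) hlam0.le G.isBounded u u₁ u₂ hu
    have h2 : K₂ * (K₁ * r) = K₁ * K₂ * r := by ring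
    rw [h2] at h1
    refine h1.trans (mul_le_mul_of_nonneg_right ?_ hM0)
    have : C₂ / (K₁ * r) ^ 2 ≤ C₂ / r ^ 2 := by
      gcongr
      nlinarith
    linarith
  have s4 : ∫ q in Disc V (K₁ * r), u q ^ 2 ≤ M := by
    refine setIntegral_mono_set hu2.integrableOn
      (Eventually.of_forall fun q => sq_nonneg _) (Eventually.of_forall ?_)
    intro q hqd
    have h1 : sq (q - V) < (K₁ * r) ^ 2 := hqd
    show sq (q - V) < (K₁ * K₂ * r) ^ 2
    refine h1.trans_le ?_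
    have h2 : 0 ≤ K₁ * r := by positivity
    have h3 : K₁ * r ≤ K₁ * K₂ * r := by nlinarith
    exact pow_le_pow_left₀ h2 h3 2
  have s5 : lam * ∫ q in Disc V r, u q ^ 2 ≤ (a₁ * (lam + C₂ / r ^ 2) + a₂) * M := by
    have h1 := mul_le_mul_of_nonneg_left s3 ha₁0
    have h2 := mul_le_mul_of_nonneg_left s4 ha₂0
    calc _ ≤ _ := s1
      _ ≤ _ := s2
      _ ≤ a₁ * ((lam + C₂ / r ^ 2) * M) + a₂ * M := add_le_add h1 h2
      _ = _ := by ring
  -- step 6
  have s6 : a₁ * (lam + C₂ / r ^ 2) + a₂ ≤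
      lam * (ε + (C + 4 * ε₁ * C₂ + 2 * C * C₂ + 2 * C) * (h / r)) := by
    set x : ℝ := h / r with hx
    have hx0 : 0 ≤ x := by positivity
    have hx1 : x ≤ 1 := by rw [hx, div_le_one hr]; exact hhr
    have e1 : C₂ / r ^ 2 ≤ lam * (2 * C₂ * x ^ 2) := by
      have : C₂ / r ^ 2 = C₂ * x ^ 2 * (1 / h ^ 2) := by
        rw [hx]; field_simp
      rw [this]
      have h2 : 1 / h ^ 2 ≤ 2 * lam := by
        rw [div_le_iff₀ (by positivity)]
        nlinarith
      have h3 : 0 ≤ C₂ * x ^ 2 := by positivity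
      nlinarith
    have e2 : a₂ ≤ lam * (2 * C * x) := by
      have : a₂ = C * x * (1 / h ^ 2) := by
        rw [ha₂, hx]; field_simp
      rw [this]
      have h2 : 1 / h ^ 2 ≤ 2 * lam := by
        rw [div_le_iff₀ (by positivity)]
        nlinarith
      have h3 : 0 ≤ C * x := by positivity
      nlinarith
    have e3 : a₁ * (lam + C₂ / r ^ 2) ≤ lam * (a₁ * (1 + 2 * C₂ * x ^ 2)) := by
      have := mul_le_mul_of_nonneg_left e1 ha₁0
      nlinarith
    have e4 : a₁ * (1 + 2 * C₂ * x ^ 2) + 2 * C * x ≤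
        ε + (C + 4 * ε₁ * C₂ + 2 * C * C₂ + 2 * C) * x := by
      have hx2 : x ^ 2 ≤ x := by nlinarith
      have hx3 : x * x ^ 2 ≤ x := by
        have : x * x ^ 2 ≤ x * 1 := mul_le_mul_of_nonneg_left (by nlinarith) hx0
        linarith
      rw [ha₁]
      have g1 : 4 * ε₁ * C₂ * x ^ 2 ≤ 4 * ε₁ * C₂ * x :=
        mul_le_mul_of_nonneg_left hx2 (by positivity)
      have g2 : 2 * C * C₂ * (x * x ^ 2) ≤ 2 * C * C₂ * x :=
        mul_le_mul_of_nonneg_left hx3 (by positivity)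
      nlinarith
    have e5 := mul_le_mul_of_nonneg_left e4 hlam0.le
    nlinarith
  have s7 := s5.trans (mul_le_mul_of_nonneg_right s6 hM0)
  rw [mul_assoc lam] at s7
  exact le_of_mul_le_mul_left s7 hlam0

end

end Pool.Agent.MP4eed4eR
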