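import Pool.Agent.Lib.MP_4eed4e_an_R.D13
import Pool.Agent.Lib.MP_4eed4e_an_R.D09

/-!
MP_4eed4e_an, project R, module D14: the gain at the reflex vertices for the eigenfunctions.
-/

namespace Pool.Agent.MP4eed4eR

open MeasureTheory Set Filter Topology Metric

noncomputable section

variable {D : Set P}

/-- Proof: the fields of `Spec`. -/
theorem dom_u (S : Spec D) (k : ℕ) :
    Dom D (S.u k) (S.u₁ k) (S.u₂ k) (fun q => S.lam k * S.u k q) where
  h10 := S.h10 k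
  mem := (S.h10 k).mem.const_mul (S.lam k)
  weak φ hφ := by
    rw [S.weak k φ hφ, ← integral_const_mul]
    simp only [mul_assoc]

private theorem meas_disc (V : P) (r : ℝ) : MeasurableSet (Disc V r) := by
  have h1 : Continuous fun q : P => sq (q - V) := by
    unfold sq
    fun_prop
  exact measurableSet_lt h1.measurable measurable_const

private theorem ball_sub (V : P) {θ : ℝ} (h : 0 < θ) : ball V (2 * θ) ⊆ Disc V (3 * θ) := by
  intro q hq
  rw [mem_ball, dist_eq_norm, Prod.norm_def, max_lt_iff, Real.norm_eq_abs, Real.norm_eq_abs] at hq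
  obtain ⟨h1, h2⟩ := hq
  have h3 := sq_lt_sq' (abs_lt.mp h1).1 (abs_lt.mp h1).2
  have h4 := sq_lt_sq' (abs_lt.mp h2).1 (abs_lt.mp h2).2
  change (q - V).1 ^ 2 + (q - V).2 ^ 2 < (3 * θ) ^ 2
  nlinarith [pow_pos h 2]

private theorem disc_sub (V : P) {r : ℝ} (h : 0 < r) : Disc V r ⊆ ball V r := by
  intro q hq
  change (q - V).1 ^ 2 + (q - V).2 ^ 2 < r ^ 2 at hq
  rw [mem_ball, dist_eq_norm, Prod.norm_def, max_lt_iff, Real.norm_eq_abs, Real.norm_eq_abs]
  exact ⟨abs_lt_of_sq_lt_sq (by nlinarith [sq_nonneg (q - V).2]) h.le,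
    abs_lt_of_sq_lt_sq (by nlinarith [sq_nonneg (q - V).1]) h.le⟩

private theorem ev_pow {c : ℝ} (hc : 0 < c) (a : ℝ) {n : ℕ} (hn : n ≠ 0) :
    ∀ᶠ δ in 𝓝[>] (0 : ℝ), a * δ ^ n ≤ c := by
  have h1 : Tendsto (fun δ : ℝ => a * δ ^ n) (𝓝[>] 0) (𝓝 0) := by
    have h2 : Tendsto (fun δ : ℝ => a * δ ^ n) (𝓝 0) (𝓝 (a * 0 ^ n)) :=
      (continuous_const.mul (continuous_pow n)).tendsto 0
    rw [zero_pow hn, mul_zero] at h2
    exact h2.mono_left nhdsWithin_le_nhds
  exact (h1.eventually (gt_mem_nhds hc)).mono fun δ h => h.le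

/-- Proof: `vertex_gain` with `ε / 2`, `r = 3 θ`, `h = hh δ` and the eigenfunction `S.u k`
(`dom_u`), `K = 3 K'`; for small `δ` we have `h ≤ r`, `K' r ≤ ρ₀` and `C h / r ≤ ε / 2`
(`hh δ = th δ * δ ^ 42`). `ball V (2 θ) ⊆ Disc V (3 θ)` (`sq < 8 θ²`) and
`Disc V (K' * (3 θ)) ⊆ ball V (K θ)` (the sup norm is at most the Euclidean one); translate
integrals to masses with `mass_facts`. -/
theorem corner_gain (S : Spec D) (G : Geo D) {ε : ℝ} (hε : 0 < ε) : ∃ K : ℝ, 3 ≤ K ∧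
    ∀ᶠ δ in 𝓝[>] (0 : ℝ), ∀ V ∈ G.V, ∀ k, 1 / 2 ≤ hh δ ^ 2 * S.lam k →
      mass (ball V (2 * th δ)) (S.e k) ≤ ε * mass (ball V (K * th δ)) (S.e k) := by
  obtain ⟨K', C, hK, hC, hg⟩ := vertex_gain G (half_pos hε)
  obtain ⟨-, -, -, -, -, hm⟩ := mass_facts S G
  refine ⟨3 * K', by linarith, ?_⟩
  filter_upwards [self_mem_nhdsWithin, ev_pow one_pos 1 one_ne_zero,
    ev_pow G.pos (K' * 3) (n := 38) (by norm_num), ev_pow (half_pos hε) C (n := 42) (by norm_num)]
    with δ h0 h1 h2 h3 V hV k hk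
  have h0 : 0 < δ := h0
  rw [pow_one, one_mul] at h1
  have hth : 0 < th δ := pow_pos h0 38
  have hhh : 0 < hh δ := pow_pos h0 80
  have h4 : hh δ = th δ * δ ^ 42 := by
    unfold hh th
    ring
  have h5 : δ ^ 42 ≤ 1 := pow_le_one₀ h0.le h1
  have h6 : hh δ ≤ 3 * th δ := by
    rw [h4]
    nlinarith
  have h7 := hg V hV (3 * th δ) (hh δ) (S.lam k) hhh h6 (by
    have : K' * 3 * δ ^ 38 ≤ G.rho0 := h2
    change K' * (3 * δ ^ 38) ≤ G.rho0
    linarith) hk (S.u k) (S.u₁ k) (S.u₂ k) (dom_u S k)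
  have h8 : ε / 2 + C * (hh δ / (3 * th δ)) ≤ ε := by
    have h9 : hh δ / (3 * th δ) = δ ^ 42 / 3 := by
      rw [h4]
      field_simp
    rw [h9]
    have h10 : 0 ≤ C * δ ^ 42 := mul_nonneg hC (pow_nonneg h0.le _)
    linarith
  have hint : Integrable (fun q => S.u k q ^ 2) volume := (S.h10 k).mem.integrable_sq
  rw [hm _ k measurableSet_ball, hm _ k measurableSet_ball]
  have hnn : ∀ A : Set P, 0 ≤ ∫ q in A, S.u k q ^ 2 := fun A =>
    integral_nonneg fun q => sq_nonneg _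
  calc ∫ q in ball V (2 * th δ), S.u k q ^ 2
      ≤ ∫ q in Disc V (3 * th δ), S.u k q ^ 2 :=
        setIntegral_mono_set hint.integrableOn (Eventually.of_forall fun q => sq_nonneg _)
          (ball_sub V hth).eventuallyLE
    _ ≤ (ε / 2 + C * (hh δ / (3 * th δ))) * ∫ q in Disc V (K' * (3 * th δ)), S.u k q ^ 2 := h7
    _ ≤ ε * ∫ q in Disc V (K' * (3 * th δ)), S.u k q ^ 2 :=
        mul_le_mul_of_nonneg_right h8 (hnn _)
    _ ≤ ε * ∫ q in ball V (3 * K' * th δ), S.u k q ^ 2 := by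
        refine mul_le_mul_of_nonneg_left ?_ hε.le
        refine setIntegral_mono_set hint.integrableOn
          (Eventually.of_forall fun q => sq_nonneg _) (HasSubset.Subset.eventuallyLE ?_)
        have h11 : K' * (3 * th δ) = 3 * K' * th δ := by ring
        rw [h11]
        exact disc_sub V (by positivity)

end

end Pool.Agent.MP4eed4eR
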