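import Pool.Agent.Lib.MP_4eed4e_an_R.D11
import Pool.Agent.Lib.MP_4eed4e_an_R.D14

/-!
MP_4eed4e_an, project R, module D15: the bound for the trace of the window.
-/

namespace Pool.Agent.MP4eed4eR

open MeasureTheory Set Filter Topology Metric

noncomputable section

variable {D : Set P}

/-- The points of `D` away from the reflex vertices. -/
def Geo.Aw (G : Geo D) (δ : ℝ) : Set P := {q | q ∈ D ∧ ∀ v ∈ G.V, 2 * th δ ≤ dist q v}

private theorem d15_far (G : Geo D) (r : ℝ) :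
    MeasurableSet {q : P | q ∈ D ∧ ∀ v ∈ G.V, r ≤ dist q v} := by
  have h1 : {q : P | q ∈ D ∧ ∀ v ∈ G.V, r ≤ dist q v} =
      D ∩ ⋂ v ∈ G.V, {q : P | r ≤ dist q v} := by
    ext q
    simp only [mem_ofPred_eq, mem_inter_iff, mem_iInter]
  rw [h1]
  refine G.isOpen.measurableSet.inter (IsClosed.measurableSet ?_)
  exact isClosed_biInter fun v _ => isClosed_le continuous_const
    (continuous_id.dist continuous_const)

private theorem d15_union (S : Spec D) (G : Geo D) (r : ℝ) (f : HD D) (s : Finset P) :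
    mass (⋃ v ∈ s, ball v r) f ≤ ∑ v ∈ s, mass (ball v r) f := by
  classical
  obtain ⟨-, -, m3, -, -, -⟩ := mass_facts S G
  induction s using Finset.induction_on with
  | empty =>
    simp [mass]
  | insert a s ha ih =>
    rw [Finset.sum_insert ha, Finset.set_biUnion_insert]
    exact (m3 _ _ f measurableSet_ball
      (s.measurableSet_biUnion fun v _ => measurableSet_ball)).trans (add_le_add_right ih _)

/-- Half of the mass of each eigenfunction is away from the vertices. Proof: `corner_gain` with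
`ε = 1 / (4 (card V + 1))`; `D ⊆ Aw ∪ ⋃ v ∈ V, ball v (2 θ)`, so
`1 = ‖S.e k‖² = mass univ ≤ mass Aw + Σ_v mass (ball v (2 θ)) ≤ mass Aw + card V * ε * 1`
(`mass_facts`, induction over the finite set or `Finset.sum_le_card_nsmul`;
`mass A (S.e k) = ∫ q in A ∩ D, ..`). -/
theorem half_away (S : Spec D) (G : Geo D) : ∀ᶠ δ in 𝓝[>] (0 : ℝ), ∀ k,
    1 / 2 ≤ hh δ ^ 2 * S.lam k → 1 / 2 ≤ mass (G.Aw δ) (S.e k) := by
  have hn : (0 : ℝ) < 4 * ((G.V.card : ℝ) + 1) := by positivity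
  obtain ⟨K, hK, hg⟩ := corner_gain S G (ε := 1 / (4 * ((G.V.card : ℝ) + 1))) (by positivity)
  obtain ⟨m1, m2, m3, m4, m5, m6⟩ := mass_facts S G
  filter_upwards [hg] with δ hδ k hk
  have h1 : mass univ (S.e k) = mass (G.Aw δ ∪ ⋃ v ∈ G.V, ball v (2 * th δ)) (S.e k) := by
    have h2 : univ ∩ D = (G.Aw δ ∪ ⋃ v ∈ G.V, ball v (2 * th δ)) ∩ D := by
      ext q
      simp only [mem_inter_iff, mem_univ, true_and, mem_union, mem_iUnion, mem_ball]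
      constructor
      · intro hq
        refine ⟨?_, hq⟩
        by_cases h : ∀ v ∈ G.V, 2 * th δ ≤ dist q v
        · exact Or.inl ⟨hq, h⟩
        · push Not at h
          obtain ⟨v, hv, h'⟩ := h
          exact Or.inr ⟨v, hv, h'⟩
      · exact fun h => h.2
    unfold mass
    rw [h2]
  have h3 := m3 (G.Aw δ) (⋃ v ∈ G.V, ball v (2 * th δ)) (S.e k) (d15_far G (2 * th δ))
    (G.V.measurableSet_biUnion fun v _ => measurableSet_ball)
  have h4 := d15_union S G (2 * th δ) (S.e k) G.V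
  have h5 : ∑ v ∈ G.V, mass (ball v (2 * th δ)) (S.e k) ≤
      G.V.card • (1 / (4 * ((G.V.card : ℝ) + 1))) := by
    refine Finset.sum_le_card_nsmul _ _ _ fun v hv => ?_
    have a1 := hδ v hv k hk
    have a2 := (m1 (ball v (K * th δ)) (S.e k)).2
    rw [m5 k, one_pow] at a2
    refine a1.trans (mul_le_of_le_one_right (by positivity) a2)
  have h6 : G.V.card • (1 / (4 * ((G.V.card : ℝ) + 1))) ≤ 1 / 2 := by
    rw [nsmul_eq_mul, mul_one_div, div_le_div_iff₀ hn (by norm_num)]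
    have : (0 : ℝ) ≤ (G.V.card : ℝ) := by positivity
    linarith
  have h7 := m4 (S.e k)
  rw [m5 k, one_pow] at h7
  linarith

/-- D6. Proof. Summability is `gk_summable`. For every `k`,
`gk ≤ 2 gk mass (Aw) (S.e k) + gkt` (`half_away`; if `k` is not in the window then `gkt = gk`). Sum
and use `local_weyl` with `X = G.X δ`, `A = G.Aw δ` (if `q ∈ A`, `x ∈ D`, `dist x q ≤ θ / 32` then
`dist x v ≥ 2 θ - θ / 32 ≥ θ`) and `gkt_tail`:
`GSum h² ≤ 2 C (|D| sh + h³ (GSum + 1)) + h⁵`. For small `δ` we have `2 C h ≤ 1 / 2`, hence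
`GSum h² ≤ 2 (2 C |D| sh + 2 C h³ + h⁵) ≤ C' sh`, and `h² = sh⁴`. -/
theorem gsum_le (S : Spec D) (G : Geo D) : ∃ C : ℝ, ∀ᶠ δ in 𝓝[>] (0 : ℝ),
    Summable (gk S.lam (hh δ)) ∧ GSum S.lam (hh δ) * sh δ ^ 3 ≤ C := by
  obtain ⟨C₀, hC⟩ := local_weyl S G
  obtain ⟨m1, m2, m3, m4, m5, m6⟩ := mass_facts S G
  obtain ⟨C₁, hC₁⟩ : ∃ C₁, C₁ = max C₀ 0 := ⟨_, rfl⟩
  have c0 : C₀ ≤ C₁ := by rw [hC₁]; exact le_max_left _ _
  have c1 : 0 ≤ C₁ := by rw [hC₁]; exact le_max_right _ _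
  obtain ⟨V, hV⟩ : ∃ V, V = (volume D).toReal := ⟨_, rfl⟩
  have hV0 : 0 ≤ V := by rw [hV]; exact ENNReal.toReal_nonneg
  have hVf : volume D ≠ ⊤ := G.isBounded.measure_lt_top.ne
  refine ⟨4 * C₁ * V + 4 * C₁ + 2, ?_⟩
  have hev : ∀ᶠ δ in 𝓝[>] (0 : ℝ), 0 < δ ∧ δ ≤ 1 ∧ 4 * C₁ * hh δ ≤ 1 := by
    have t1 : Tendsto (fun δ : ℝ => 4 * C₁ * hh δ) (𝓝[>] 0) (𝓝 (4 * C₁ * hh 0)) := by
      have : Continuous fun δ : ℝ => 4 * C₁ * hh δ := by
        unfold hh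
        fun_prop
      exact (this.tendsto 0).mono_left nhdsWithin_le_nhds
    have t2 : 4 * C₁ * hh 0 < 1 := by
      unfold hh
      norm_num
    filter_upwards [self_mem_nhdsWithin, t1.eventually (gt_mem_nhds t2),
      mem_nhdsWithin_of_mem_nhds (Iic_mem_nhds one_pos)] with δ a1 a2 a3
    exact ⟨a1, a3, a2.le⟩
  filter_upwards [hC, half_away S G, gkt_tail S G, hev] with δ hδ hA hT hE
  obtain ⟨e0, e1, e2⟩ := hE
  have hh0 : 0 < hh δ := pow_pos e0 80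
  have hs0 : 0 < sh δ := pow_pos e0 40
  have hs1 : sh δ ≤ 1 := pow_le_one₀ e0.le e1
  have hhs : hh δ = sh δ ^ 2 := by
    unfold hh sh
    rw [← pow_mul]
  have hh1 : hh δ ≤ 1 := pow_le_one₀ e0.le e1
  have ht0 : 0 < th δ := pow_pos e0 38
  obtain ⟨g1, g2⟩ := gk_summable S G hh0
  refine ⟨g1, ?_⟩
  obtain ⟨w1, w2⟩ := hδ (G.X δ) (G.Aw δ) (d15_far G (th δ)) le_rfl (d15_far G (2 * th δ))
    (fun q hq => hq.1) (fun q hq x hx hd => ⟨hx, fun v hv => by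
      have a1 := hq.2 v hv
      have a2 := dist_triangle q x v
      rw [dist_comm q x] at a2
      linarith⟩)
  obtain ⟨Γ, hΓ⟩ : ∃ Γ, Γ = GSum S.lam (hh δ) := ⟨_, rfl⟩
  have hg0 : ∀ k, 0 ≤ gk S.lam (hh δ) k := fun k => (gk_bounds S.lam hh0 k).1.le
  have hΓ0 : 0 ≤ Γ := by
    rw [hΓ]
    exact tsum_nonneg hg0
  have hk : ∀ k, gk S.lam (hh δ) k ≤
      2 * (gk S.lam (hh δ) k * mass (G.Aw δ) (S.e k)) + gkt S.lam (hh δ) k := by
    intro k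
    have b0 := (m1 (G.Aw δ) (S.e k)).1
    have b1 := mul_nonneg (hg0 k) b0
    unfold gkt
    split_ifs with h
    · have b2 := mul_le_mul_of_nonneg_left (hA k h.1) (hg0 k)
      linarith
    · linarith
  have hsum : Γ ≤ 2 * (∑' k, gk S.lam (hh δ) k * mass (G.Aw δ) (S.e k)) +
      ∑' k, gkt S.lam (hh δ) k := by
    rw [hΓ]
    unfold GSum
    rw [← tsum_mul_left, ← (w1.mul_left 2).tsum_add g2]
    exact g1.tsum_le_tsum hk ((w1.mul_left 2).add g2)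
  rw [← hΓ] at w2 ⊢
  have hX : (volume (G.X δ)).toReal ≤ V := by
    rw [hV]
    exact ENNReal.toReal_mono hVf (measure_mono fun q hq => hq.1)
  have hX0 : 0 ≤ (volume (G.X δ)).toReal := ENNReal.toReal_nonneg
  have w3 : (∑' k, gk S.lam (hh δ) k * mass (G.Aw δ) (S.e k)) * hh δ ^ 2 ≤
      C₁ * (V * sh δ + hh δ ^ 3 * (Γ + 1)) := by
    refine w2.trans (mul_le_mul c0 ?_ (by positivity) c1)
    have := mul_le_mul_of_nonneg_right hX hs0.le
    linarith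
  have w4 : Γ * hh δ ^ 2 ≤ 2 * (C₁ * (V * sh δ + hh δ ^ 3 * (Γ + 1))) +
      hh δ ^ 3 * hh δ ^ 2 := by
    have b1 := mul_le_mul_of_nonneg_right hsum (by positivity : (0 : ℝ) ≤ hh δ ^ 2)
    have b2 := mul_le_mul_of_nonneg_right hT (by positivity : (0 : ℝ) ≤ hh δ ^ 2)
    rw [add_mul, mul_assoc] at b1
    linarith
  have w5 : 2 * (C₁ * (hh δ ^ 3 * Γ)) ≤ 1 / 2 * (Γ * hh δ ^ 2) := by
    have b1 := mul_le_mul_of_nonneg_right e2 (by positivity : (0 : ℝ) ≤ Γ * hh δ ^ 2)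
    have b2 : 4 * C₁ * hh δ * (Γ * hh δ ^ 2) = 2 * (2 * (C₁ * (hh δ ^ 3 * Γ))) := by ring
    linarith
  have p3 : hh δ ^ 3 ≤ sh δ := by
    rw [hhs, ← pow_mul]
    calc sh δ ^ (2 * 3) ≤ sh δ ^ 1 := pow_le_pow_of_le_one hs0.le hs1 (by norm_num)
      _ = sh δ := pow_one _
  have p5 : hh δ ^ 3 * hh δ ^ 2 ≤ sh δ := by
    rw [← pow_add, hhs, ← pow_mul]
    calc sh δ ^ (2 * (3 + 2)) ≤ sh δ ^ 1 := pow_le_pow_of_le_one hs0.le hs1 (by norm_num)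
      _ = sh δ := pow_one _
  have p6 : C₁ * hh δ ^ 3 ≤ C₁ * sh δ := mul_le_mul_of_nonneg_left p3 c1
  have w6 : Γ * hh δ ^ 2 ≤ (4 * C₁ * V + 4 * C₁ + 2) * sh δ := by
    have b1 : 2 * (C₁ * (V * sh δ + hh δ ^ 3 * (Γ + 1))) =
      2 * C₁ * V * sh δ + 2 * (C₁ * (hh δ ^ 3 * Γ)) + 2 * (C₁ * hh δ ^ 3) := by ring
    rw [b1] at w4
    linarith
  have w7 : Γ * sh δ ^ 3 * sh δ ≤ (4 * C₁ * V + 4 * C₁ + 2) * sh δ := by
    have b1 : Γ * hh δ ^ 2 = Γ * sh δ ^ 3 * sh δ := by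
      rw [hhs]
      ring
    rw [← b1]
    exact w6
  exact le_of_mul_le_mul_right w7 hs0

/-- D2. Proof: `high_aux` and `gsum_le`; `h³ = sh⁶`, `sh ≤ 1`. -/
theorem high_le (S : Spec D) (G : Geo D) : ∃ C : ℝ, ∀ᶠ δ in 𝓝[>] (0 : ℝ),
    ∀ W : Walls G (th δ / 4), ∫⁻ z in G.X δ ×ˢ Sq2ᶜ, ENNReal.ofReal
      (S.gq (hh δ) (W.v δ z 0)) ≤ ENNReal.ofReal (C * sh δ ^ 3) := by
  obtain ⟨C₀, hC₀⟩ := high_aux S G
  obtain ⟨C₁, hC₁⟩ := gsum_le S G
  refine ⟨|C₀| * (|C₁| + 1), ?_⟩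
  filter_upwards [hC₀, hC₁, self_mem_nhdsWithin,
    mem_nhdsWithin_of_mem_nhds (Iic_mem_nhds one_pos)] with δ h0 h1 e0 e1
  intro W
  have e0' : 0 < δ := e0
  refine (h0 W).trans (ENNReal.ofReal_le_ofReal ?_)
  have hs0 : 0 < sh δ := pow_pos e0' 40
  have hs1 : sh δ ≤ 1 := pow_le_one₀ e0'.le e1
  have hh0 : 0 < hh δ := pow_pos e0' 80
  have hhs : hh δ = sh δ ^ 2 := by
    unfold hh sh
    rw [← pow_mul]
  have hΓ0 : 0 ≤ GSum S.lam (hh δ) := tsum_nonneg fun k => (gk_bounds S.lam hh0 k).1.le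
  have k1 : hh δ ^ 3 * (GSum S.lam (hh δ) + 1) ≤ (|C₁| + 1) * sh δ ^ 3 := by
    have b1 : hh δ ^ 3 * (GSum S.lam (hh δ) + 1) =
        sh δ ^ 3 * (GSum S.lam (hh δ) * sh δ ^ 3) + sh δ ^ 3 * sh δ ^ 3 := by
      rw [hhs]
      ring
    have b2 : sh δ ^ 3 ≤ 1 := pow_le_one₀ hs0.le hs1
    have b3 : 0 < sh δ ^ 3 := by positivity
    have b4 := mul_le_mul_of_nonneg_left (h1.2.trans (le_abs_self C₁)) b3.le
    have b5 := mul_le_mul_of_nonneg_left b2 b3.le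
    rw [b1]
    linarith
  have k2 : 0 ≤ hh δ ^ 3 * (GSum S.lam (hh δ) + 1) := by positivity
  calc C₀ * (hh δ ^ 3 * (GSum S.lam (hh δ) + 1)) ≤
      |C₀| * (hh δ ^ 3 * (GSum S.lam (hh δ) + 1)) :=
        mul_le_mul_of_nonneg_right (le_abs_self _) k2
    _ ≤ |C₀| * ((|C₁| + 1) * sh δ ^ 3) := mul_le_mul_of_nonneg_left k1 (abs_nonneg _)
    _ = |C₀| * (|C₁| + 1) * sh δ ^ 3 := by ring

end

end Pool.Agent.MP4eed4eR
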