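import Pool.Agent.Lib.MP_4eed4e_an_R.D15

/-!
MP_4eed4e_an, project R, module D16: the mass of the window at the reflex vertices.
-/

namespace Pool.Agent.MP4eed4eR

open MeasureTheory Set Filter Topology Metric

noncomputable section

variable {D : Set P}

/-- Two different reflex vertices are at distance at least `16 ρ₀` (`Vgrid`, `gapA`, `gapB`). -/
theorem vertex_gap (G : Geo D) {v w : P} (hv : v ∈ G.V) (hw : w ∈ G.V) (h : v ≠ w) :
    16 * G.rho0 ≤ dist v w := by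
  by_cases h1 : v.1 = w.1
  · have h2 : v.2 ≠ w.2 := fun h2 => h (Prod.ext h1 h2)
    have h3 := G.gapB v.2 (G.Vgrid v hv).2 w.2 (G.Vgrid w hw).2 h2
    rw [Prod.dist_eq, Real.dist_eq, Real.dist_eq]
    exact h3.trans (le_max_right _ _)
  · have h3 := G.gapA v.1 (G.Vgrid v hv).1 w.1 (G.Vgrid w hw).1 h1
    rw [Prod.dist_eq, Real.dist_eq, Real.dist_eq]
    exact h3.trans (le_max_left _ _)

private theorem d16_X (G : Geo D) (δ : ℝ) : MeasurableSet (G.X δ) := by
  have h1 : G.X δ = D ∩ ⋂ v ∈ G.V, {x : P | th δ ≤ dist x v} := by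
    ext x
    simp only [Geo.X, Geo.Far, mem_ofPred_eq, mem_inter_iff, mem_iInter]
  rw [h1]
  refine G.isOpen.measurableSet.inter (Finset.measurableSet_biInter _ fun v _ => ?_)
  exact (isClosed_le continuous_const (continuous_id.dist continuous_const)).measurableSet

private theorem d16_vol (V : P) {r : ℝ} (hr : 0 ≤ r) :
    volume (ball V r) = ENNReal.ofReal ((2 * r) ^ 2) := by
  rw [← ball_prod_same V.1 V.2, Measure.volume_eq_prod, Measure.prod_prod, Real.volume_ball,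
    Real.volume_ball, ← ENNReal.ofReal_mul (by positivity), pow_two]

private theorem d16_small {c : ℝ} (hc : 0 < c) (a : ℝ) :
    ∀ᶠ δ in 𝓝[>] (0 : ℝ), a * th δ ≤ c := by
  have h1 : Tendsto (fun δ : ℝ => a * δ ^ 38) (𝓝[>] 0) (𝓝 0) := by
    have h2 : Tendsto (fun δ : ℝ => a * δ ^ 38) (𝓝 0) (𝓝 (a * 0 ^ 38)) :=
      (continuous_const.mul (continuous_pow 38)).tendsto 0
    rw [zero_pow (by norm_num), mul_zero] at h2
    exact h2.mono_left nhdsWithin_le_nhds
  exact (h1.eventually (gt_mem_nhds hc)).mono fun δ h => h.le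

private theorem d16_one : ∀ᶠ δ in 𝓝[>] (0 : ℝ), δ ≤ 1 :=
  mem_nhdsWithin_of_mem_nhds (Iic_mem_nhds one_pos)

/-- The shell about a vertex. Proof: `local_weyl` with `A = shell ∩ D` (the mass is the same) and
`X = G.X δ ∩ ball V ((K + 1) θ)`, whose volume is at most `(2 (K + 1) θ)²` (`ball` in the sup norm
is a square: `ball_prod_same`, `Real.volume_ball`). If `q` is in the shell, `x ∈ D` and
`dist x q ≤ θ / 32`, then `dist x V ≥ θ`, and the other vertices are at distance `≥ 16 ρ₀` from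
`V` (`vertex_gap`) and `K θ ≤ ρ₀` for small `δ`. With `gsum_le`, `h³ = sh⁶`, `h ≤ θ²` the right
hand side is at most `C' θ² sh`, and `h² = sh⁴`. -/
theorem shell_le (S : Spec D) (G : Geo D) {K : ℝ} (hK : 3 ≤ K) : ∃ C : ℝ,
    ∀ᶠ δ in 𝓝[>] (0 : ℝ), ∀ V ∈ G.V,
      (∑' k, gk S.lam (hh δ) k * mass (ball V (K * th δ) \ ball V (2 * th δ)) (S.e k)) *
        sh δ ^ 3 ≤ C * th δ ^ 2 := by
  obtain ⟨C₁, h₁⟩ := local_weyl S G
  obtain ⟨C₂, h₂⟩ := gsum_le S G
  refine ⟨|C₁| * (4 * (K + 1) ^ 2 + |C₂| + 1), ?_⟩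
  filter_upwards [self_mem_nhdsWithin, d16_one, d16_small G.pos (K + 2), h₁, h₂]
    with δ h0 h1 hK2 hw hg V hV
  have h0 : 0 < δ := h0
  have hth : 0 < th δ := pow_pos h0 38
  have hsh : 0 < sh δ := pow_pos h0 40
  have hθs : sh δ ≤ th δ := pow_le_pow_of_le_one h0.le h1 (by norm_num)
  have hs1 : sh δ ≤ 1 := pow_le_one₀ h0.le h1
  have hhs : hh δ = sh δ ^ 2 := by
    unfold hh sh
    ring
  have hρ := G.pos
  have hX : MeasurableSet (G.X δ ∩ ball V ((K + 1) * th δ)) :=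
    (d16_X G δ).inter measurableSet_ball
  have hA : MeasurableSet ((ball V (K * th δ) \ ball V (2 * th δ)) ∩ D) :=
    (measurableSet_ball.diff measurableSet_ball).inter G.isOpen.measurableSet
  obtain ⟨-, hb⟩ := hw (G.X δ ∩ ball V ((K + 1) * th δ))
    ((ball V (K * th δ) \ ball V (2 * th δ)) ∩ D) hX inter_subset_left hA inter_subset_right (by
      rintro q ⟨⟨hq1, hq2⟩, hqD⟩ x hxD hxq
      rw [mem_ball] at hq1 hq2
      push Not at hq2
      have t1 : dist q V ≤ dist x q + dist x V := by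
        have := dist_triangle q x V
        rw [dist_comm q x] at this
        exact this
      have t2 : dist x V ≤ dist x q + dist q V := dist_triangle x q V
      refine ⟨⟨hxD, fun v hv => ?_⟩, ?_⟩
      · by_cases hvV : v = V
        · rw [hvV]
          linarith
        · have t3 := vertex_gap G hV hv (Ne.symm hvV)
          have t4 : dist V v ≤ dist x V + dist x v := by
            have := dist_triangle V x v
            rw [dist_comm V x] at this
            exact this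
          nlinarith
      · rw [mem_ball]
        nlinarith)
  have hmass : ∀ k, mass ((ball V (K * th δ) \ ball V (2 * th δ)) ∩ D) (S.e k) =
      mass (ball V (K * th δ) \ ball V (2 * th δ)) (S.e k) := by
    intro k
    unfold mass
    rw [inter_assoc, inter_self]
  simp only [hmass] at hb
  set T : ℝ := ∑' k, gk S.lam (hh δ) k *
    mass (ball V (K * th δ) \ ball V (2 * th δ)) (S.e k) with hT
  have hG0 : 0 ≤ GSum S.lam (hh δ) := tsum_nonneg fun k => (Real.exp_pos _).le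
  have hvol : (volume (G.X δ ∩ ball V ((K + 1) * th δ))).toReal ≤
      4 * (K + 1) ^ 2 * th δ ^ 2 := by
    have v1 : volume (G.X δ ∩ ball V ((K + 1) * th δ)) ≤
        ENNReal.ofReal ((2 * ((K + 1) * th δ)) ^ 2) := by
      rw [← d16_vol V (by positivity)]
      exact measure_mono inter_subset_right
    have v2 := ENNReal.toReal_mono ENNReal.ofReal_ne_top v1
    rw [ENNReal.toReal_ofReal (by positivity)] at v2
    refine v2.trans (le_of_eq ?_)
    ring
  have hvol0 : 0 ≤ (volume (G.X δ ∩ ball V ((K + 1) * th δ))).toReal := ENNReal.toReal_nonneg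
  have e1 : hh δ ^ 3 * (GSum S.lam (hh δ) + 1) ≤ (|C₂| + 1) * (th δ ^ 2 * sh δ) := by
    have e2 : hh δ ^ 3 * GSum S.lam (hh δ) ≤ |C₂| * (th δ ^ 2 * sh δ) := by
      have e3 : hh δ ^ 3 * GSum S.lam (hh δ) = sh δ ^ 3 * (GSum S.lam (hh δ) * sh δ ^ 3) := by
        rw [hhs]
        ring
      rw [e3]
      have e4 : GSum S.lam (hh δ) * sh δ ^ 3 ≤ |C₂| := hg.2.trans (le_abs_self _)
      have e5 : sh δ ^ 3 ≤ th δ ^ 2 * sh δ := by
        have : sh δ ^ 2 ≤ th δ ^ 2 := pow_le_pow_left₀ hsh.le hθs 2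
        nlinarith
      calc sh δ ^ 3 * (GSum S.lam (hh δ) * sh δ ^ 3) ≤ (th δ ^ 2 * sh δ) * |C₂| :=
            mul_le_mul e5 e4 (by positivity) (by positivity)
        _ = |C₂| * (th δ ^ 2 * sh δ) := by ring
    have e6 : hh δ ^ 3 ≤ th δ ^ 2 * sh δ := by
      rw [hhs]
      have e7 : sh δ ^ 2 ≤ th δ ^ 2 := pow_le_pow_left₀ hsh.le hθs 2
      have e8 : (sh δ ^ 2) ^ 3 = sh δ ^ 2 * (sh δ * sh δ ^ 3) := by ring
      have e9 : sh δ * sh δ ^ 3 ≤ sh δ * 1 :=
        mul_le_mul_of_nonneg_left (pow_le_one₀ hsh.le hs1) hsh.le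
      rw [e8]
      rw [mul_one] at e9
      exact mul_le_mul e7 e9 (by positivity) (by positivity)
    have e10 : hh δ ^ 3 * (GSum S.lam (hh δ) + 1) =
        hh δ ^ 3 * GSum S.lam (hh δ) + hh δ ^ 3 := by ring
    rw [e10]
    nlinarith
  have e11 : 0 ≤ (volume (G.X δ ∩ ball V ((K + 1) * th δ))).toReal * sh δ +
      hh δ ^ 3 * (GSum S.lam (hh δ) + 1) := by
    have : 0 ≤ hh δ := by
      rw [hhs]
      positivity
    positivity
  have e12 : T * hh δ ^ 2 ≤ |C₁| * (4 * (K + 1) ^ 2 + |C₂| + 1) * (th δ ^ 2 * sh δ) := by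
    refine hb.trans ((mul_le_mul_of_nonneg_right (le_abs_self C₁) e11).trans ?_)
    rw [mul_assoc]
    refine mul_le_mul_of_nonneg_left ?_ (abs_nonneg _)
    have e13 := mul_le_mul_of_nonneg_right hvol hsh.le
    calc _ ≤ 4 * (K + 1) ^ 2 * th δ ^ 2 * sh δ + (|C₂| + 1) * (th δ ^ 2 * sh δ) :=
          add_le_add e13 e1
      _ = _ := by ring
  have e14 : T * sh δ ^ 3 * sh δ ≤
      |C₁| * (4 * (K + 1) ^ 2 + |C₂| + 1) * th δ ^ 2 * sh δ := by
    have e15 : T * sh δ ^ 3 * sh δ = T * hh δ ^ 2 := by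
      rw [hhs]
      ring
    rw [e15]
    refine e12.trans (le_of_eq ?_)
    ring
  exact le_of_mul_le_mul_right e14 hsh

/-- D6 at the vertices. Proof. All series are dominated by `gk` (`gk_summable`, `mass ≤ 1`). With
`K` from `corner_gain` for `ε = 1 / 2`, for every `k`
`gk mass (ball V (2 θ)) ≤ gk mass (ball V (K θ)) / 2 + gkt` and
`mass (ball V (K θ)) ≤ mass (ball V (2 θ)) + mass (shell)` (`mass_facts`). Sum over `k` and absorb:
`S(2 θ) ≤ shell + 2 Σ gkt`; `shell_le` and `gkt_tail` (`h³ sh³ ≤ θ²`). -/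
theorem corner_le (S : Spec D) (G : Geo D) : ∃ C : ℝ, ∀ᶠ δ in 𝓝[>] (0 : ℝ),
    ∀ V ∈ G.V, Summable (fun k => gk S.lam (hh δ) k * mass (ball V (2 * th δ)) (S.e k)) ∧
      (∑' k, gk S.lam (hh δ) k * mass (ball V (2 * th δ)) (S.e k)) * sh δ ^ 3 ≤
        C * th δ ^ 2 := by
  obtain ⟨K, hK, hgain⟩ := corner_gain S G (ε := 1 / 2) (by norm_num)
  obtain ⟨C, hC⟩ := shell_le S G hK
  obtain ⟨m1, m2, m3, -, m5, -⟩ := mass_facts S G
  refine ⟨C + 2, ?_⟩
  filter_upwards [self_mem_nhdsWithin, d16_one, hgain, hC, gkt_tail S G]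
    with δ h0 h1 hg hs ht V hV
  have h0 : 0 < δ := h0
  have hth : 0 < th δ := pow_pos h0 38
  have hsh : 0 < sh δ := pow_pos h0 40
  have hθs : sh δ ≤ th δ := pow_le_pow_of_le_one h0.le h1 (by norm_num)
  have hs1 : sh δ ≤ 1 := pow_le_one₀ h0.le h1
  have hh0 : 0 < hh δ := pow_pos h0 80
  have hh1 : hh δ ≤ 1 := pow_le_one₀ h0.le h1
  obtain ⟨s1, s2⟩ := gk_summable S G hh0
  have g0 : ∀ k, 0 ≤ gk S.lam (hh δ) k := fun k => (Real.exp_pos _).le
  have mle : ∀ (A : Set P) k, 0 ≤ mass A (S.e k) ∧ mass A (S.e k) ≤ 1 := by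
    intro A k
    have := m1 A (S.e k)
    rw [m5 k, one_pow] at this
    exact this
  have hsum : ∀ A : Set P, Summable fun k => gk S.lam (hh δ) k * mass A (S.e k) := fun A =>
    Summable.of_nonneg_of_le (fun k => mul_nonneg (g0 k) (mle A k).1)
      (fun k => (mul_le_mul_of_nonneg_left (mle A k).2 (g0 k)).trans (mul_one _).le) s1
  refine ⟨hsum _, ?_⟩
  set S2 : ℝ := ∑' k, gk S.lam (hh δ) k * mass (ball V (2 * th δ)) (S.e k) with hS2
  set SK : ℝ := ∑' k, gk S.lam (hh δ) k * mass (ball V (K * th δ)) (S.e k) with hSK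
  set T : ℝ := ∑' k, gk S.lam (hh δ) k *
    mass (ball V (K * th δ) \ ball V (2 * th δ)) (S.e k) with hT
  have a1 : S2 ≤ 1 / 2 * SK + ∑' k, gkt S.lam (hh δ) k := by
    rw [hS2, hSK, ← tsum_mul_left, ← ((hsum _).mul_left _).tsum_add s2]
    refine Summable.tsum_le_tsum (fun k => ?_) (hsum _) (((hsum _).mul_left _).add s2)
    have mK := mle (ball V (K * th δ)) k
    have mm := mle (ball V (2 * th δ)) k
    unfold gkt
    split_ifs with hk
    · have b1 := mul_le_mul_of_nonneg_left (hg V hV k hk.1) (g0 k)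
      nlinarith
    · have b1 := mul_le_mul_of_nonneg_left mm.2 (g0 k)
      have b2 := mul_nonneg (g0 k) mK.1
      nlinarith
  have a2 : SK ≤ S2 + T := by
    rw [hS2, hSK, hT, ← (hsum _).tsum_add (hsum _)]
    refine Summable.tsum_le_tsum (fun k => ?_) (hsum _) ((hsum _).add (hsum _))
    have b1 : mass (ball V (K * th δ)) (S.e k) ≤
        mass (ball V (2 * th δ) ∪ (ball V (K * th δ) \ ball V (2 * th δ))) (S.e k) := by
      refine m2 _ _ _ fun q hq => ?_
      by_cases hq2 : q ∈ ball V (2 * th δ)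
      · exact Or.inl hq2
      · exact Or.inr ⟨hq, hq2⟩
    have b2 := b1.trans (m3 _ _ (S.e k) measurableSet_ball
      (measurableSet_ball.diff measurableSet_ball))
    have b3 := mul_le_mul_of_nonneg_left b2 (g0 k)
    rw [mul_add] at b3
    exact b3
  have a3 : S2 ≤ T + 2 * hh δ ^ 3 := by linarith
  have a4 := mul_le_mul_of_nonneg_right a3 (pow_nonneg hsh.le 3)
  have a5 : hh δ ^ 3 * sh δ ^ 3 ≤ th δ ^ 2 := by
    have b1 : hh δ ^ 3 ≤ 1 := pow_le_one₀ hh0.le hh1
    have b2 : sh δ ^ 3 ≤ sh δ ^ 2 := pow_le_pow_of_le_one hsh.le hs1 (by norm_num)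
    have b3 : sh δ ^ 2 ≤ th δ ^ 2 := pow_le_pow_left₀ hsh.le hθs 2
    calc hh δ ^ 3 * sh δ ^ 3 ≤ 1 * sh δ ^ 3 :=
          mul_le_mul_of_nonneg_right b1 (by positivity)
      _ = sh δ ^ 3 := one_mul _
      _ ≤ th δ ^ 2 := b2.trans b3
  have a6 := hs V hV
  nlinarith

end

end Pool.Agent.MP4eed4eR
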