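import Mathlib

/-!
MP_4eed4e_an, project R. Definitions used in the statement: the Dirichlet spectrum of a plane
domain and rectilinear polygonal domains in general position.
-/

namespace Pool.Agent.MP4eed4eR

open MeasureTheory Set Filter Topology
open scoped ContDiff

noncomputable section

/-- The partial derivative of `φ` in the first variable. -/
def d1 (φ : ℝ × ℝ → ℝ) (q : ℝ × ℝ) : ℝ := fderiv ℝ φ q (1, 0)

/-- The partial derivative of `φ` in the second variable. -/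
def d2 (φ : ℝ × ℝ → ℝ) (q : ℝ × ℝ) : ℝ := fderiv ℝ φ q (0, 1)

/-- `φ` is a smooth function with compact support contained in `D`. -/
structure Test (D : Set (ℝ × ℝ)) (φ : ℝ × ℝ → ℝ) : Prop where
  smooth : ContDiff ℝ ∞ φ
  compact : HasCompactSupport φ
  supp : tsupport φ ⊆ D

/-- `u` belongs to `H¹₀(D)` (the closure of the smooth functions with compact support in `D`)
and `(u₁, u₂)` is its gradient. -/
structure H10 (D : Set (ℝ × ℝ)) (u u₁ u₂ : ℝ × ℝ → ℝ) : Prop where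
  mem : MemLp u 2 volume
  mem₁ : MemLp u₁ 2 volume
  mem₂ : MemLp u₂ 2 volume
  approx : ∃ φ : ℕ → ℝ × ℝ → ℝ, (∀ n, Test D (φ n)) ∧
    Tendsto (fun n => ∫ q, (φ n q - u q) ^ 2) atTop (𝓝 0) ∧
    Tendsto (fun n => ∫ q, (d1 (φ n) q - u₁ q) ^ 2) atTop (𝓝 0) ∧
    Tendsto (fun n => ∫ q, (d2 (φ n) q - u₂ q) ^ 2) atTop (𝓝 0)

/-- `u` is a weak solution in `H¹₀(D)` of `-Δu = lam u`. -/
def IsEigen (D : Set (ℝ × ℝ)) (lam : ℝ) (u : ℝ × ℝ → ℝ) : Prop :=
  ∃ u₁ u₂, H10 D u u₁ u₂ ∧ ∀ φ, Test D φ →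
    ∫ q, (u₁ q * d1 φ q + u₂ q * d2 φ q) = lam * ∫ q, u q * φ q

/-- `lam` is the sequence of the Dirichlet eigenvalues of `D` in nondecreasing order, repeated
according to multiplicity: there is a complete orthonormal system of `L²(D)` consisting of
eigenfunctions in `H¹₀(D)` with these eigenvalues. -/
def HasSpectrum (D : Set (ℝ × ℝ)) (lam : ℕ → ℝ) : Prop :=
  Monotone lam ∧ ∃ u : ℕ → ℝ × ℝ → ℝ, (∀ k, IsEigen D (lam k) (u k)) ∧
    (∀ j k, ∫ q, u j q * u k q = if j = k then 1 else 0) ∧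
    ∀ f : ℝ × ℝ → ℝ, MemLp f 2 volume → (∀ q, q ∉ D → f q = 0) →
      (∀ k, ∫ q, f q * u k q = 0) → f =ᵐ[volume] 0

/-- Near `p` the set `D` is a half plane with vertical boundary line through `p`. -/
def VertPt (D : Set (ℝ × ℝ)) (p : ℝ × ℝ) : Prop :=
  ∃ r > 0, ∃ s : ℝ, (s = 1 ∨ s = -1) ∧
    ∀ q ∈ Metric.ball p r, (q ∈ D ↔ 0 < s * (q.1 - p.1))

/-- Near `p` the set `D` is a half plane with horizontal boundary line through `p`. -/
def HorPt (D : Set (ℝ × ℝ)) (p : ℝ × ℝ) : Prop :=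
  ∃ r > 0, ∃ t : ℝ, (t = 1 ∨ t = -1) ∧
    ∀ q ∈ Metric.ball p r, (q ∈ D ↔ 0 < t * (q.2 - p.2))

/-- Near `p` the set `D` is an open quadrant with vertex `p` (interior angle `π / 2`). -/
def ConvexPt (D : Set (ℝ × ℝ)) (p : ℝ × ℝ) : Prop :=
  ∃ r > 0, ∃ s t : ℝ, (s = 1 ∨ s = -1) ∧ (t = 1 ∨ t = -1) ∧
    ∀ q ∈ Metric.ball p r, (q ∈ D ↔ 0 < s * (q.1 - p.1) ∧ 0 < t * (q.2 - p.2))

/-- Near `p` the set `D` is the complement of a closed quadrant with vertex `p` (interior angle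
`3π / 2`). -/
def ReflexPt (D : Set (ℝ × ℝ)) (p : ℝ × ℝ) : Prop :=
  ∃ r > 0, ∃ s t : ℝ, (s = 1 ∨ s = -1) ∧ (t = 1 ∨ t = -1) ∧
    ∀ q ∈ Metric.ball p r, (q ∈ D ↔ 0 < s * (q.1 - p.1) ∨ 0 < t * (q.2 - p.2))

/-- `D` is a bounded domain bounded by finitely many disjoint simple closed polygons with
horizontal and vertical sides (holes are allowed): every point of the boundary lies in the
interior of a vertical or a horizontal side or is a corner of angle `π / 2` or `3π / 2`. -/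
structure RectDomain (D : Set (ℝ × ℝ)) : Prop where
  isOpen : IsOpen D
  isConnected : IsConnected D
  isBounded : Bornology.IsBounded D
  loc : ∀ p ∈ frontier D, VertPt D p ∨ HorPt D p ∨ ConvexPt D p ∨ ReflexPt D p

/-- No two different sides of `D` lie on one line: two points of vertical sides with the same
first coordinate are joined by a segment contained in the boundary, and similarly for horizontal
sides. -/
def GenPos (D : Set (ℝ × ℝ)) : Prop :=
  (∀ p q : ℝ × ℝ, VertPt D p → VertPt D q → p.1 = q.1 → segment ℝ p q ⊆ frontier D) ∧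
  ∀ p q : ℝ × ℝ, HorPt D p → HorPt D q → p.2 = q.2 → segment ℝ p q ⊆ frontier D

end

end Pool.Agent.MP4eed4eR
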