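import Pool.Agent.Lib.MP_4eed4e_an_R.Base2

/-!
MP_4eed4e_an, project R, module F02: the kernel `Kc` in closed form.
-/

namespace Pool.Agent.MP4eed4eR

open MeasureTheory Set Filter Topology Metric

noncomputable section

private theorem gauss2 {b : ℂ} (hb : b.re < 0) (c1 c2 d : ℂ) :
    Integrable (fun z : P => Complex.exp (b * ((z.1 : ℂ) ^ 2 + (z.2 : ℂ) ^ 2) + c1 * z.1 +
      c2 * z.2 + d)) ∧
    ∫ z : P, Complex.exp (b * ((z.1 : ℂ) ^ 2 + (z.2 : ℂ) ^ 2) + c1 * z.1 + c2 * z.2 + d) =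
      (Real.pi / -b) * Complex.exp (d - (c1 ^ 2 + c2 ^ 2) / (4 * b)) := by
  have hb0 : b ≠ 0 := by
    rintro rfl
    simp at hb
  have h1 : (fun z : P => Complex.exp (b * ((z.1 : ℂ) ^ 2 + (z.2 : ℂ) ^ 2) + c1 * z.1 +
      c2 * z.2 + d)) = fun z : P => Complex.exp (b * (z.1 : ℂ) ^ 2 + c1 * z.1 + d) *
        Complex.exp (b * (z.2 : ℂ) ^ 2 + c2 * z.2 + 0) := by
    funext z
    rw [← Complex.exp_add]
    congr 1
    ring
  rw [h1]
  refine ⟨(integrable_cexp_quadratic' hb c1 d).mul_prod (integrable_cexp_quadratic' hb c2 0), ?_⟩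
  rw [show (volume : Measure P) = (volume : Measure ℝ).prod volume from rfl,
    integral_prod_mul (fun x : ℝ => Complex.exp (b * (x : ℂ) ^ 2 + c1 * x + d))
      (fun x : ℝ => Complex.exp (b * (x : ℂ) ^ 2 + c2 * x + 0)),
    integral_cexp_quadratic hb, integral_cexp_quadratic hb]
  have h2 : (Real.pi / -b : ℂ) ≠ 0 :=
    div_ne_zero (by exact_mod_cast Real.pi_ne_zero) (neg_ne_zero.2 hb0)
  have h3 : (Real.pi / -b : ℂ) ^ (1 / 2 : ℂ) * (Real.pi / -b : ℂ) ^ (1 / 2 : ℂ) =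
      Real.pi / -b := by
    rw [← Complex.cpow_add _ _ h2]
    norm_num
  calc (Real.pi / -b : ℂ) ^ (1 / 2 : ℂ) * Complex.exp (d - c1 ^ 2 / (4 * b)) *
        ((Real.pi / -b : ℂ) ^ (1 / 2 : ℂ) * Complex.exp (0 - c2 ^ 2 / (4 * b)))
      = ((Real.pi / -b : ℂ) ^ (1 / 2 : ℂ) * (Real.pi / -b : ℂ) ^ (1 / 2 : ℂ)) *
        (Complex.exp (d - c1 ^ 2 / (4 * b)) * Complex.exp (0 - c2 ^ 2 / (4 * b))) := by ring
    _ = _ := by
      rw [h3, ← Complex.exp_add]
      congr 2
      ring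

private theorem A_ne (t : ℝ) : (1 + t / 2 * Complex.I : ℂ) ≠ 0 := by
  intro h
  have h1 := congrArg Complex.re h
  simp at h1

/-- Closed form. Proof: with `A = 1 + i t / 2` the exponent of the integrand is
`-(A / h) |z|² + ((2ξ - i c) / h) · z - |ξ|² / h`; the integral over `z : ℝ × ℝ` is the product of
two one dimensional integrals (`integral_prod_mul`), each given by `integral_cexp_quadratic`
(`∫ exp (b x² + c x + d) = (π / -b) ^ (1/2) * exp (d - c² / (4 b))`, `b = -A / h`); the product of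
the two square roots is `π h / A` (`Complex.cpow` with exponent `1/2`, twice:
`w ^ (1/2) * w ^ (1/2) = w` for `w ≠ 0` by `← Complex.cpow_add`). -/
theorem Kc_eq {h : ℝ} (hh0 : 0 < h) (t : ℝ) (c ξ : P) :
    Kc h t c ξ = (1 + t / 2 * Complex.I)⁻¹ * Complex.exp
      (((4 * sq ξ - sq c : ℝ) - (4 * dot ξ c : ℝ) * Complex.I) /
        (4 * h * (1 + t / 2 * Complex.I)) - (sq ξ / h : ℝ)) := by
  have hA := A_ne t
  have hh : (h : ℂ) ≠ 0 := by exact_mod_cast hh0.ne'
  have hpi : (Real.pi : ℂ) ≠ 0 := by exact_mod_cast Real.pi_ne_zero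
  have hb : (-((1 + t / 2 * Complex.I) / h) : ℂ).re < 0 := by
    rw [Complex.neg_re, Complex.div_ofReal_re]
    simp only [Complex.add_re, Complex.one_re, Complex.mul_re, Complex.I_re, mul_zero,
      Complex.I_im, mul_one, zero_sub]
    have : (t / 2 : ℂ).im = 0 := by
      rw [show (t / 2 : ℂ) = ((t / 2 : ℝ) : ℂ) by push_cast; ring, Complex.ofReal_im]
    rw [this]
    simp only [neg_zero, add_zero]
    exact neg_neg_of_pos (by positivity)
  have h1 := (gauss2 hb ((2 * ξ.1 - c.1 * Complex.I) / h) ((2 * ξ.2 - c.2 * Complex.I) / h)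
    (-(sq ξ / h : ℝ))).2
  have h2 : Kc h t c ξ = ∫ z : P, ((Real.pi * h)⁻¹ : ℂ) * Complex.exp
      (-((1 + t / 2 * Complex.I) / h) * ((z.1 : ℂ) ^ 2 + (z.2 : ℂ) ^ 2) +
        (2 * ξ.1 - c.1 * Complex.I) / h * z.1 + (2 * ξ.2 - c.2 * Complex.I) / h * z.2 +
        (-(sq ξ / h : ℝ))) := by
    unfold Kc
    refine integral_congr_ae (Eventually.of_forall fun z => ?_)
    simp only
    rw [Complex.ofReal_mul, Complex.ofReal_exp, mul_left_comm, ← Complex.exp_add]
    congr 1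
    · push_cast
      ring
    · congr 1
      simp only [sq, dot, Prod.fst_sub, Prod.snd_sub]
      push_cast
      field_simp
      ring
  rw [h2, integral_const_mul, h1, ← mul_assoc]
  clear h1 h2 hb
  simp only [sq, dot]
  generalize (1 + t / 2 * Complex.I : ℂ) = A at hA ⊢
  congr 1
  · field_simp
  · congr 1
    push_cast
    field_simp
    linear_combination (((c.1 : ℂ) ^ 2 + (c.2 : ℂ) ^ 2)) * Complex.I_sq

private theorem F02_A_normSq (t : ℝ) : Complex.normSq (1 + t / 2 * Complex.I) = 1 + t ^ 2 / 4 := by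
  have h1 : (1 + t / 2 * Complex.I : ℂ) = ⟨1, t / 2⟩ := by
    apply Complex.ext <;> simp
  rw [h1, Complex.normSq_mk]
  ring

private theorem F02_inv (t : ℝ) : ((2 + t * Complex.I)⁻¹ : ℂ) =
    (2 - t * Complex.I) / (4 + t ^ 2) := by
  have h4 : (4 + t ^ 2 : ℂ) ≠ 0 := by
    have : (4 + t ^ 2 : ℝ) ≠ 0 := by positivity
    exact_mod_cast this
  have h5 : (2 + t * Complex.I : ℂ) ≠ 0 := by
    intro h6
    apply A_ne t
    linear_combination (1 / 2) * h6
  refine eq_div_of_mul_eq h4 ?_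
  rw [inv_mul_eq_iff_eq_mul₀ h5]
  linear_combination (t : ℂ) ^ 2 * Complex.I_sq

private theorem F02_re {h : ℝ} (hh0 : 0 < h) (t u v w : ℝ) :
    (((u : ℂ) - v * Complex.I) / (4 * h * (1 + t / 2 * Complex.I)) - (w : ℂ)).re =
      (u - v * t / 2) / (h * (4 + t ^ 2)) - w := by
  have h1 : ((u : ℂ) - v * Complex.I) / (4 * h * (1 + t / 2 * Complex.I)) - (w : ℂ) =
      (((u - v * t / 2) / (h * (4 + t ^ 2)) - w : ℝ) : ℂ) +
        ((-(v + u * t / 2) / (h * (4 + t ^ 2)) : ℝ) : ℂ) * Complex.I := by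
    have hh : (h : ℂ) ≠ 0 := by exact_mod_cast hh0.ne'
    have h4 : (4 + t ^ 2 : ℂ) ≠ 0 := by
      have : (4 + t ^ 2 : ℝ) ≠ 0 := by positivity
      exact_mod_cast this
    have h6 : ((u : ℂ) - v * Complex.I) / (4 * h * (1 + t / 2 * Complex.I)) =
        ((u : ℂ) - v * Complex.I) / (2 * h) * (2 + t * Complex.I)⁻¹ := by
      rw [show (4 * h * (1 + t / 2 * Complex.I) : ℂ) = 2 * h * (2 + t * Complex.I) by ring,
        div_mul_eq_div_div, div_eq_mul_inv]
    rw [h6, F02_inv]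
    push_cast
    field_simp
    linear_combination ((v : ℂ) * t) * Complex.I_sq
  rw [h1, Complex.add_re, Complex.ofReal_re, Complex.re_ofReal_mul, Complex.I_re, mul_zero,
    add_zero]

/-- Proof: take norms in `Kc_eq`: `|A|² = 1 + t² / 4` and the real part of the exponent is
`[4|ξ|² - |c|² - 2 t ξ·c - (4 + t²)|ξ|²] / (h (4 + t²)) = -|t ξ + c|² / (h (4 + t²))`. -/
theorem Kc_norm {h : ℝ} (hh0 : 0 < h) (t : ℝ) (c ξ : P) :
    ‖Kc h t c ξ‖ = (Real.sqrt (1 + t ^ 2 / 4))⁻¹ *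
      Real.exp (-(sq (t • ξ + c)) / (h * (4 + t ^ 2))) := by
  rw [Kc_eq hh0, norm_mul, norm_inv, Complex.norm_exp, F02_re hh0]
  congr 1
  · rw [Complex.norm_def, F02_A_normSq]
  · congr 1
    have : (4 + t ^ 2 : ℝ) ≠ 0 := by positivity
    simp only [sq, dot, Prod.fst_add, Prod.snd_add, Prod.smul_fst, Prod.smul_snd, smul_eq_mul]
    field_simp
    ring

/-- From `Kc_norm`. -/
theorem Kc_le {h : ℝ} (hh0 : 0 < h) (t : ℝ) (c ξ : P) :
    ‖Kc h t c ξ‖ ≤ Real.exp (-(sq (t • ξ + c)) / (h * (4 + t ^ 2))) ∧ ‖Kc h t c ξ‖ ≤ 1 := by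
  have h1 : (Real.sqrt (1 + t ^ 2 / 4))⁻¹ ≤ 1 := by
    apply inv_le_one_of_one_le₀
    rw [Real.one_le_sqrt]
    nlinarith [sq_nonneg t]
  have h2 : Real.exp (-(sq (t • ξ + c)) / (h * (4 + t ^ 2))) ≤ 1 := by
    rw [Real.exp_le_one_iff, neg_div, neg_nonpos]
    unfold sq
    positivity
  rw [Kc_norm hh0]
  have h3 := Real.exp_pos (-(sq (t • ξ + c)) / (h * (4 + t ^ 2)))
  constructor
  · exact mul_le_of_le_one_left h3.le h1
  · exact (mul_le_of_le_one_left h3.le h1).trans h2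

/-- Proof: the right hand side of `Kc_eq` is jointly continuous (`A ≠ 0`). -/
theorem Kc_continuous {h : ℝ} (hh0 : 0 < h) (c : P) :
    Continuous (fun p : ℝ × P => Kc h p.1 c p.2) := by
  have hh : (h : ℂ) ≠ 0 := by exact_mod_cast hh0.ne'
  have h1 : (fun p : ℝ × P => Kc h p.1 c p.2) = fun p : ℝ × P =>
      (1 + p.1 / 2 * Complex.I : ℂ)⁻¹ * Complex.exp
      (((4 * sq p.2 - sq c : ℝ) - (4 * dot p.2 c : ℝ) * Complex.I) /
        (4 * h * (1 + p.1 / 2 * Complex.I)) - (sq p.2 / h : ℝ)) :=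
    funext fun p => Kc_eq hh0 p.1 c p.2
  rw [h1]
  have h2 : Continuous fun p : ℝ × P => (1 + p.1 / 2 * Complex.I : ℂ) := by fun_prop
  have h3 : Continuous fun p : ℝ × P => sq p.2 := by unfold sq; fun_prop
  have h4 : Continuous fun p : ℝ × P => dot p.2 c := by unfold dot; fun_prop
  refine (h2.inv₀ fun p => A_ne p.1).mul (Complex.continuous_exp.comp (Continuous.sub
    (Continuous.div ?_ (continuous_const.mul h2) fun p => ?_) ?_))
  · exact (Complex.continuous_ofReal.comp ((continuous_const.mul h3).sub continuous_const)).sub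
      ((Complex.continuous_ofReal.comp (continuous_const.mul h4)).mul continuous_const)
  · exact mul_ne_zero (mul_ne_zero (by norm_num) hh) (A_ne p.1)
  · exact Complex.continuous_ofReal.comp (h3.div_const h)

/-- The Fresnel integral. Proof: insert `Kc_eq`. In the variable `ξ` the exponent is
`-(|ξ|² / h) (1 - 1 / A) - i ξ·c / (h A) - |c|² / (4 h A)`, `1 - 1 / A = (i t / 2) / A` has positive
real part `(t² / 4) / (1 + t² / 4)`. Two one dimensional integrals (`integral_cexp_quadratic`)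
give `A⁻¹ * (π h A / (i t / 2)) * exp ((-i c / (h A))² / (4 (i t / 2) / (h A)) - |c|² / (4 h A))`
and the exponent simplifies to `-|c|² / (2 i t h) = i |c|² / (2 h t)`. Integrability: the product of
two integrable functions (`integrable_cexp_quadratic`, `Integrable.mul_prod`). -/
theorem Kc_fresnel {h t : ℝ} (hh0 : 0 < h) (ht : 0 < t) (c : P) :
    Integrable (fun ξ => Kc h t c ξ) ∧
      ∫ ξ, Kc h t c ξ = (2 * Real.pi * h : ℝ) / ((t : ℝ) * Complex.I) *
        Complex.exp ((sq c / (2 * h * t) : ℝ) * Complex.I) := by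
  have hA := A_ne t
  have hh : (h : ℂ) ≠ 0 := by exact_mod_cast hh0.ne'
  have ht0 : (t : ℂ) ≠ 0 := by exact_mod_cast ht.ne'
  have hI := Complex.I_ne_zero
  obtain ⟨b, hb⟩ : ∃ b : ℂ, b = -(t * Complex.I / 2) / (h * (1 + t / 2 * Complex.I)) := ⟨_, rfl⟩
  have hbre : b.re < 0 := by
    have h1 : b = ((-(t ^ 2) / (h * (4 + t ^ 2)) : ℝ) : ℂ) +
        ((-(2 * t) / (h * (4 + t ^ 2)) : ℝ) : ℂ) * Complex.I := by
      have h4 : (4 + t ^ 2 : ℂ) ≠ 0 := by
        have : (4 + t ^ 2 : ℝ) ≠ 0 := by positivity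
        exact_mod_cast this
      have h5 : (2 + t * Complex.I : ℂ) ≠ 0 := by
        intro h6
        apply hA
        linear_combination (1 / 2) * h6
      rw [hb, show (h * (1 + t / 2 * Complex.I) : ℂ) = h * (2 + t * Complex.I) / 2 by ring]
      push_cast
      field_simp
      linear_combination (2 * (t : ℂ)) * Complex.I_sq
    rw [h1]
    simp only [Complex.add_re, Complex.ofReal_re, Complex.mul_re, Complex.I_re, mul_zero,
      Complex.ofReal_im, Complex.I_im, zero_mul, sub_self, add_zero]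
    exact div_neg_of_neg_of_pos (by nlinarith) (by positivity)
  obtain ⟨h2, h3⟩ := gauss2 hbre (-(c.1 * Complex.I) / (h * (1 + t / 2 * Complex.I)))
    (-(c.2 * Complex.I) / (h * (1 + t / 2 * Complex.I)))
    (-(sq c : ℝ) / (4 * h * (1 + t / 2 * Complex.I)))
  have h4 : (fun ξ => Kc h t c ξ) = fun ξ : P => (1 + t / 2 * Complex.I : ℂ)⁻¹ *
      Complex.exp (b * ((ξ.1 : ℂ) ^ 2 + (ξ.2 : ℂ) ^ 2) +
        -(c.1 * Complex.I) / (h * (1 + t / 2 * Complex.I)) * ξ.1 +
        -(c.2 * Complex.I) / (h * (1 + t / 2 * Complex.I)) * ξ.2 +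
        -(sq c : ℝ) / (4 * h * (1 + t / 2 * Complex.I))) := by
    funext ξ
    rw [Kc_eq hh0, hb]
    congr 2
    simp only [sq, dot]
    have hA2 : (t * Complex.I : ℂ) = 2 * (1 + t / 2 * Complex.I) - 2 := by ring
    rw [hA2]
    clear hA2 h2 h3
    generalize (1 + t / 2 * Complex.I : ℂ) = A at hA ⊢
    push_cast
    field_simp
    ring
  rw [h4]
  refine ⟨h2.const_mul _, ?_⟩
  rw [integral_const_mul, h3, ← mul_assoc, hb]
  have hA2 : (t * Complex.I : ℂ) = 2 * (1 + t / 2 * Complex.I) - 2 := by ring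
  congr 1
  · clear h2 h3 h4
    generalize (1 + t / 2 * Complex.I : ℂ) = A at hA ⊢
    push_cast
    field_simp
  · congr 1
    simp only [sq]
    clear h2 h3 h4
    have hA3 : (1 + t / 2 * Complex.I : ℂ) - 1 = t / 2 * Complex.I := by ring
    generalize (1 + t / 2 * Complex.I : ℂ) = A at hA hA3 ⊢
    push_cast
    field_simp
    linear_combination (-(4 * Complex.I) * ((c.1 : ℂ) ^ 2 + (c.2 : ℂ) ^ 2)) * hA3 +
      (-(2 * (t : ℂ)) * ((c.1 : ℂ) ^ 2 + (c.2 : ℂ) ^ 2)) * Complex.I_sq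

end

end Pool.Agent.MP4eed4eR
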