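import Pool.Agent.Lib.MP_4eed4e_an_R.Base3

/-!
MP_4eed4e_an, project R: definitions for block F.
-/

namespace Pool.Agent.MP4eed4eR

open MeasureTheory Set Filter Topology Metric
open scoped ComplexConjugate ContDiff

noncomputable section

variable {D : Set P}

/-- The Gaussian weight of `W_integral`. -/
def gau (s : ℝ) : ℝ := (Real.sqrt (2 * Real.pi))⁻¹ * Real.exp (-s ^ 2 / 2)

/-- The range of the averaging variable; `|l - (l - 2 √h s)| ≤ κ` there. -/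
def Rng (δ : ℝ) : Set ℝ := Icc (-(1 / (2 * δ))) (1 / (2 * δ))

/-- The diagonal matrix element of `W`. -/
def qW (S : Spec D) {G : Geo D} {ρ : ℝ} (W : Walls G ρ) (δ l : ℝ) (z : P × P) : ℂ :=
  inner ℂ (W.v δ z 0) (S.W (hh δ) l (W.v δ z 0))

/-- The average of the free overlaps. -/
def Ktil (δ l : ℝ) (c ξ : P) : ℂ :=
  ∫ s in Rng δ, (gau s : ℂ) * Complex.exp (-(s / sh δ : ℝ) * Complex.I) *
    Kc (hh δ) (l - 2 * sh δ * s) c ξ

/-- The contribution of one translation of length `l`. -/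
def Zl (δ l : ℝ) : ℂ :=
  ∫ s in Rng δ, (gau s : ℂ) * Complex.exp (-(s / sh δ : ℝ) * Complex.I) *
    ((2 * Real.pi * hh δ : ℝ) / ((l - 2 * sh δ * s : ℝ) * Complex.I) *
      Complex.exp ((l ^ 2 / (2 * hh δ * (l - 2 * sh δ * s)) : ℝ) * Complex.I))

/-- Composition of affine maps: `app (cmp j γ) = app j ∘ app γ`. -/
def cmp (j γ : P × P) : P × P :=
  ((j.1.1 * γ.1.1, j.1.2 * γ.1.2), (j.1.1 * γ.2.1 + j.2.1, j.1.2 * γ.2.2 + j.2.2))

open Classical in
/-- The affine maps of the billiard composed with the images. -/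
def Geo.Img (G : Geo D) (T : ℝ) : Finset (P × P) :=
  ((Rf G.A 1 ×ˢ Rf G.B 1) ×ˢ G.Gam T).image (fun p => cmp (mk2 p.1) p.2)

/-- The resonance set of a finite set of affine maps. -/
def Res (Γ : Finset (P × P)) (δ l : ℝ) : Set (P × P) :=
  {z | z.2 ∈ Win δ ∧ ∃ t : ℝ, |t - l| ≤ kap δ ∧ ∃ γ ∈ Γ,
    sq (z.1 - app γ (z.1 + t • z.2)) + sq (z.2 - lin γ z.2) ≤ kap δ ^ 2}

/-- All linear parts are reflections in the coordinate axes. -/
def Lin1 (Γ : Finset (P × P)) : Prop :=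
  ∀ γ ∈ Γ, (γ.1.1 = 1 ∨ γ.1.1 = -1) ∧ (γ.1.2 = 1 ∨ γ.1.2 = -1)

/-- The square of radius `θ'` about `-c / l`. -/
def Sqc (δ l : ℝ) (c : P) : Set P := {ξ | |ξ.1 + c.1 / l| ≤ thp δ ∧ |ξ.2 + c.2 / l| ≤ thp δ}

/-- The points of `X` off `E` whose orbit in the direction `-c / l` is closed after the time `l`. -/
def Xc {G : Geo D} {ρ : ℝ} (W : Walls G ρ) (δ l : ℝ) (E : Set P) (c : P) : Set P :=
  {x | x ∈ G.X δ ∧ x ∉ E ∧ flow W (tau δ) l (x, -(1 / l) • c) = (x, -(1 / l) • c)}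

open Classical in
/-- The translations of length `l`. -/
def Geo.Cl (G : Geo D) (l : ℝ) : Finset (P × P) :=
  (G.Gam (l + 1)).filter (fun γ => γ.1 = (1, 1) ∧ sq γ.2 = l ^ 2)

end

end Pool.Agent.MP4eed4eR
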