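import Pool.Agent.Lib.MP_4eed4e_an_R.B13
import Pool.Agent.Lib.MP_4eed4e_an_R.F01
import Pool.Agent.Lib.MP_4eed4e_an_R.FDefs

/-!
MP_4eed4e_an, project R, module F03: the free value `J0` of the window.
-/

namespace Pool.Agent.MP4eed4eR

open MeasureTheory Set Filter Topology Metric

noncomputable section

private theorem f03_sq_cont : Continuous sq :=
  (continuous_fst.pow 2).add (continuous_snd.pow 2)

/-- The Gaussian kernel of width `a`. -/
private def ker (h a : ℝ) (z : P) : ℝ := (Real.pi * h)⁻¹ * Real.exp (-(sq z) / a)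

private theorem ker_cont (h a : ℝ) : Continuous (ker h a) :=
  continuous_const.mul (Real.continuous_exp.comp ((f03_sq_cont.neg).div_const a))

private theorem ker_nonneg {h : ℝ} (hh0 : 0 < h) (a : ℝ) (z : P) : 0 ≤ ker h a z := by
  have := Real.pi_pos
  unfold ker
  positivity

private theorem ker_int {h a : ℝ} (ha : 0 < a) : Integrable (ker h a) ∧
    ∫ z, ker h a z = (Real.pi * h)⁻¹ * (Real.pi * a) := by
  have hb : 0 < 1 / a := by positivity
  have h1 := integrable_exp_neg_mul_sq hb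
  have h2 : Integrable (fun z : ℝ × ℝ =>
      Real.exp (-(1 / a) * z.1 ^ 2) * Real.exp (-(1 / a) * z.2 ^ 2)) := h1.mul_prod h1
  have h3 : ker h a = fun z : ℝ × ℝ => (Real.pi * h)⁻¹ *
      (Real.exp (-(1 / a) * z.1 ^ 2) * Real.exp (-(1 / a) * z.2 ^ 2)) := by
    funext z
    rw [ker, ← Real.exp_add, sq]
    congr 2
    ring
  refine ⟨?_, ?_⟩
  · rw [h3]
    exact h2.const_mul _
  · rw [h3, integral_const_mul]
    congr 1
    have h4 := integral_prod_mul (μ := (volume : Measure ℝ)) (ν := (volume : Measure ℝ))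
      (fun x : ℝ => Real.exp (-(1 / a) * x ^ 2)) (fun x : ℝ => Real.exp (-(1 / a) * x ^ 2))
    rw [← Measure.volume_eq_prod] at h4
    rw [h4, integral_gaussian, Real.mul_self_sqrt (by positivity)]
    field_simp

private theorem ker_one {h : ℝ} (hh0 : 0 < h) : ∫ z, ker h h z = 1 := by
  rw [(ker_int (h := h) hh0).2]
  have := Real.pi_pos
  field_simp

private theorem ker_two {h : ℝ} (hh0 : 0 < h) : ∫ z, ker h (2 * h) z = 2 := by
  rw [(ker_int (h := h) (a := 2 * h) (by positivity)).2]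
  have := Real.pi_pos
  field_simp

/-- The weight. -/
private def wgt (h : ℝ) (z : P) : ℝ := Real.exp (-(sq z - 1) ^ 2 / (2 * h))

private theorem wgt_cont (h : ℝ) : Continuous (wgt h) :=
  Real.continuous_exp.comp ((((f03_sq_cont.sub continuous_const).pow 2).neg).div_const _)

private theorem wgt_nonneg (h : ℝ) (z : P) : 0 ≤ wgt h z := (Real.exp_pos _).le

private theorem wgt_le_one {h : ℝ} (hh0 : 0 < h) (z : P) : wgt h z ≤ 1 := by
  refine Real.exp_le_one_iff.2 ?_
  rw [neg_div]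
  exact neg_nonpos.2 (by positivity)

private theorem wgt_int {h : ℝ} (hh0 : 0 < h) : Integrable (wgt h) := by
  obtain ⟨c, C, -, hZ⟩ := Z0_bounds
  exact (hZ h hh0).1

private theorem J0_def (h : ℝ) (ξ : P) : J0 h ξ = ∫ z, wgt h z * ker h h (z - ξ) := rfl

private theorem Z0_def (h : ℝ) : Z0 h = ∫ z, wgt h z := rfl

private theorem conv_int {W k : P → ℝ} (hWc : Continuous W) (hkc : Continuous k)
    (hW0 : ∀ z, 0 ≤ W z) (hk0 : ∀ z, 0 ≤ k z) (hW : Integrable W) (hk : Integrable k) :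
    Integrable (fun p : P × P => W p.2 * k (p.2 - p.1)) (volume.prod volume) := by
  have hc : Continuous (fun p : P × P => W p.2 * k (p.2 - p.1)) :=
    (hWc.comp continuous_snd).mul (hkc.comp (continuous_snd.sub continuous_fst))
  rw [integrable_prod_iff' hc.aestronglyMeasurable]
  refine ⟨Eventually.of_forall fun z => ?_, ?_⟩
  · exact (hk.comp_sub_left z).const_mul (W z)
  have h1 : (fun z : P => ∫ ξ : P, ‖W z * k (z - ξ)‖) = fun z => W z * ∫ y, k y := by
    funext z
    rw [← integral_sub_left_eq_self k volume z, ← integral_const_mul]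
    refine integral_congr_ae (Eventually.of_forall fun ξ => ?_)
    exact Real.norm_of_nonneg (mul_nonneg (hW0 z) (hk0 _))
  rw [h1]
  exact hW.mul_const _

private theorem conv_eq {W k : P → ℝ} (hWc : Continuous W) (hkc : Continuous k)
    (hW0 : ∀ z, 0 ≤ W z) (hk0 : ∀ z, 0 ≤ k z) (hW : Integrable W) (hk : Integrable k) :
    ∫ ξ, ∫ z, W z * k (z - ξ) = (∫ z, W z) * ∫ y, k y := by
  rw [integral_integral_swap (f := fun ξ z : P => W z * k (z - ξ))
    (conv_int hWc hkc hW0 hk0 hW hk), ← integral_mul_const]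
  refine integral_congr_ae (Eventually.of_forall fun z => ?_)
  change ∫ ξ, W z * k (z - ξ) = W z * ∫ y, k y
  rw [← integral_sub_left_eq_self k volume z, ← integral_const_mul]

private theorem slice_int {h : ℝ} (hh0 : 0 < h) {W : P → ℝ} (hWc : Continuous W)
    (hW0 : ∀ z, 0 ≤ W z) (hW1 : ∀ z, W z ≤ 1) {a : ℝ} (ha : 0 < a) (ξ : P) :
    Integrable (fun z => W z * ker h a (z - ξ)) := by
  refine ((ker_int (h := h) ha).1.comp_sub_right ξ).mono' ?_ (Eventually.of_forall fun z => ?_)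
  · exact (hWc.mul ((ker_cont h a).comp (continuous_id.sub continuous_const))).aestronglyMeasurable
  · rw [Real.norm_of_nonneg (mul_nonneg (hW0 z) (ker_nonneg hh0 a _))]
    exact mul_le_of_le_one_left (ker_nonneg hh0 a _) (hW1 z)

/-- Basic bounds. Proof: the kernel `(πh)⁻¹ exp (-|z - ξ|² / h)` is a probability density in `z`
and, by symmetry, in `ξ` (product of one dimensional Gaussians, `integral_gaussian`); the factor
`exp (-(sq z - 1)² / 2h)` is between `0` and `1` and integrable (`Z0_bounds`). Fubini for the last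
two claims (`integral_integral_swap` or `lintegral`). -/
theorem J0_basic {h : ℝ} (hh0 : 0 < h) : (∀ ξ, 0 ≤ J0 h ξ ∧ J0 h ξ ≤ 1) ∧ Measurable (J0 h) ∧
    Integrable (J0 h) ∧ ∫ ξ, J0 h ξ = Z0 h := by
  have hI := conv_int (wgt_cont h) (ker_cont h h) (wgt_nonneg h) (ker_nonneg hh0 h) (wgt_int hh0)
    (ker_int (h := h) hh0).1
  refine ⟨fun ξ => ⟨?_, ?_⟩, ?_, ?_, ?_⟩
  · rw [J0_def]
    exact integral_nonneg fun z => mul_nonneg (wgt_nonneg h z) (ker_nonneg hh0 h _)
  · rw [J0_def, ← ker_one hh0, ← integral_sub_right_eq_self (ker h h) ξ]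
    refine integral_mono (slice_int hh0 (wgt_cont h) (wgt_nonneg h) (wgt_le_one hh0) hh0 ξ)
      ((ker_int (h := h) hh0).1.comp_sub_right ξ) fun z => ?_
    exact mul_le_of_le_one_left (ker_nonneg hh0 h _) (wgt_le_one hh0 z)
  · have hc : Continuous (fun p : P × P => wgt h p.2 * ker h h (p.2 - p.1)) :=
      ((wgt_cont h).comp continuous_snd).mul
        ((ker_cont h h).comp (continuous_snd.sub continuous_fst))
    exact (hc.stronglyMeasurable.integral_prod_right (ν := (volume : Measure P))).measurable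
  · exact hI.integral_prod_left
  · have h1 := conv_eq (wgt_cont h) (ker_cont h h) (wgt_nonneg h) (ker_nonneg hh0 h) (wgt_int hh0)
      (ker_int (h := h) hh0).1
    rw [ker_one hh0, mul_one] at h1
    exact h1

private theorem gau_fourier (a : ℝ) :
    ∫ s : ℝ, (gau s : ℂ) * Complex.exp ((s * a : ℝ) * Complex.I) =
      (Real.exp (-a ^ 2 / 2) : ℂ) := by
  have h1 := fourierIntegral_gaussian (b := (1 / 2 : ℂ)) (by norm_num) (a : ℂ)
  have h2 : ∀ s : ℝ, (gau s : ℂ) * Complex.exp ((s * a : ℝ) * Complex.I) =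
      ((Real.sqrt (2 * Real.pi))⁻¹ : ℝ) *
        (Complex.exp (Complex.I * a * s) * Complex.exp (-(1 / 2 : ℂ) * s ^ 2)) := by
    intro s
    rw [gau]
    push_cast
    rw [mul_assoc, mul_comm (Complex.exp (-(s : ℂ) ^ 2 / 2))]
    congr 3
    · ring
    · ring
  simp only [h2]
  rw [integral_const_mul, h1]
  have h3 : ((Real.pi : ℂ) / (1 / 2 : ℂ)) ^ (1 / 2 : ℂ) = (Real.sqrt (2 * Real.pi) : ℝ) := by
    have h4 : ((Real.pi : ℂ) / (1 / 2 : ℂ)) = ((2 * Real.pi : ℝ) : ℂ) := by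
      push_cast
      ring
    have h5 : (1 / 2 : ℂ) = ((1 / 2 : ℝ) : ℂ) := by
      push_cast
      ring
    rw [h4, h5, ← Complex.ofReal_cpow (by positivity), Real.sqrt_eq_rpow]
  rw [h3, ← mul_assoc, ← Complex.ofReal_mul, inv_mul_cancel₀
    (Real.sqrt_ne_zero'.2 (by positivity)), Complex.ofReal_one, one_mul]
  push_cast
  congr 1
  ring

private theorem gau_cont : Continuous gau := by
  unfold gau
  exact continuous_const.mul (Real.continuous_exp.comp (((continuous_pow 2).neg).div_const 2))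

private theorem gau_nonneg (s : ℝ) : 0 ≤ gau s := by
  unfold gau
  positivity

private theorem gau_int : Integrable gau := by
  have h1 := integrable_exp_neg_mul_sq (b := 1 / 2) (by norm_num)
  have h2 : gau = fun s => (Real.sqrt (2 * Real.pi))⁻¹ * Real.exp (-(1 / 2) * s ^ 2) := by
    funext s
    rw [gau]
    congr 2
    ring
  rw [h2]
  exact h1.const_mul _

/-- The average of the free overlaps with `c = 0` is `J0`. Proof: insert the definition of `Kc` and
exchange the integrals (the integrand is bounded by `gau s * (πh)⁻¹ exp (-|z - ξ|² / h)`). The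
inner integral is `∫ gau s exp (-i s / √h) exp (i √h s |z|² / h) ds
= ∫ gau s exp (i s a) ds = exp (-a² / 2)` with `a = (|z|² - 1) / √h`, `h = hh δ`, `√h = sh δ`
(`fourierIntegral_gaussian` or `integral_cexp_quadratic`), `a² / 2 = (|z|² - 1)² / (2h)`. -/
theorem J0_avg {δ : ℝ} (hδ : 0 < δ) (ξ : P) :
    ∫ s : ℝ, (gau s : ℂ) * Complex.exp (-(s / sh δ : ℝ) * Complex.I) *
      Kc (hh δ) (0 - 2 * sh δ * s) 0 ξ = (J0 (hh δ) ξ : ℂ) := by
  have hs : 0 < sh δ := by unfold sh; positivity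
  have hh0 : 0 < hh δ := by unfold hh; positivity
  have hsq : hh δ = sh δ ^ 2 := by unfold hh sh; ring
  set F : ℝ → P → ℂ := fun s z => (gau s : ℂ) *
    Complex.exp ((s * ((sq z - 1) / sh δ) : ℝ) * Complex.I) * (ker (hh δ) (hh δ) (z - ξ) : ℂ)
    with hF
  have h1 : ∀ s : ℝ, (gau s : ℂ) * Complex.exp (-(s / sh δ : ℝ) * Complex.I) *
      Kc (hh δ) (0 - 2 * sh δ * s) 0 ξ = ∫ z, F s z := by
    intro s
    rw [Kc, ← integral_const_mul]
    refine integral_congr_ae (Eventually.of_forall fun z => ?_)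
    change _ * (_ * _) = _
    rw [hF]
    have h2 : dot z 0 = 0 := by simp [dot]
    rw [h2, ← mul_assoc]
    congr 1
    rw [mul_assoc, ← Complex.exp_add]
    congr 2
    rw [hsq]
    push_cast
    have hs' : (sh δ : ℂ) ≠ 0 := by exact_mod_cast hs.ne'
    field_simp
    ring
  have hFc : Continuous (Function.uncurry F) := by
    rw [hF]
    refine ((Complex.continuous_ofReal.comp (gau_cont.comp continuous_fst)).mul ?_).mul ?_
    · refine Complex.continuous_exp.comp ((Complex.continuous_ofReal.comp ?_).mul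
        continuous_const)
      exact continuous_fst.mul (((f03_sq_cont.comp continuous_snd).sub
        continuous_const).div_const _)
    · exact Complex.continuous_ofReal.comp ((ker_cont _ _).comp
        (continuous_snd.sub continuous_const))
  have hFi : Integrable (Function.uncurry F) ((volume : Measure ℝ).prod (volume : Measure P)) := by
    have h3 : Integrable (fun p : ℝ × P => gau p.1 * ker (hh δ) (hh δ) (p.2 - ξ))
        ((volume : Measure ℝ).prod (volume : Measure P)) :=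
      gau_int.mul_prod ((ker_int (h := hh δ) hh0).1.comp_sub_right ξ)
    refine h3.mono' hFc.aestronglyMeasurable (Eventually.of_forall fun p => ?_)
    simp only [Function.uncurry, hF, norm_mul, Complex.norm_exp_ofReal_mul_I, mul_one,
      Complex.norm_real]
    rw [Real.norm_of_nonneg (gau_nonneg _), Real.norm_of_nonneg (ker_nonneg hh0 _ _)]
  simp only [h1]
  rw [integral_integral_swap hFi, J0_def, ← integral_complex_ofReal]
  refine integral_congr_ae (Eventually.of_forall fun z => ?_)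
  change ∫ s, F s z = _
  simp only [hF]
  rw [integral_mul_const, gau_fourier, Complex.ofReal_mul]
  congr 2
  rw [wgt, hsq]
  congr 1
  field_simp

private theorem small_exp (C : ℝ) : ∀ᶠ δ in 𝓝[>] (0 : ℝ),
    C * Real.exp (-(δ ^ 4)⁻¹ / 512) ≤ δ ^ 1500 := by
  have h1 : Tendsto (fun δ : ℝ => (δ ^ 4)⁻¹) (𝓝[>] 0) atTop := by
    have h2 : Tendsto (fun δ : ℝ => δ ^ 4) (𝓝[>] 0) (𝓝[>] 0) := by
      refine tendsto_nhdsWithin_iff.2 ⟨?_, ?_⟩
      · have h3 : Tendsto (fun δ : ℝ => δ ^ 4) (𝓝 0) (𝓝 (0 ^ 4)) := (continuous_pow 4).tendsto 0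
        rw [zero_pow (by norm_num)] at h3
        exact h3.mono_left nhdsWithin_le_nhds
      · filter_upwards [self_mem_nhdsWithin] with δ hδ
        exact pow_pos (show (0 : ℝ) < δ from hδ) 4
    exact tendsto_inv_nhdsGT_zero.comp h2
  have h3 : Tendsto (fun x : ℝ => C * 512 ^ 375 * (x ^ 375 * Real.exp (-x))) atTop (𝓝 0) := by
    have h4 := (Real.tendsto_pow_mul_exp_neg_atTop_nhds_zero 375).const_mul (C * 512 ^ 375)
    rwa [mul_zero] at h4
  have h5 : Tendsto (fun δ : ℝ => (δ ^ 4)⁻¹ / 512) (𝓝[>] 0) atTop :=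
    h1.atTop_div_const (by norm_num)
  have h6 := (h3.comp h5).eventually (Iio_mem_nhds zero_lt_one)
  filter_upwards [h6, self_mem_nhdsWithin] with δ hδ hδ0
  have hδ1 : 0 < δ := hδ0
  have h7 : C * 512 ^ 375 * (((δ ^ 4)⁻¹ / 512) ^ 375 * Real.exp (-((δ ^ 4)⁻¹ / 512))) < 1 := hδ
  have h8 : C * 512 ^ 375 * (((δ ^ 4)⁻¹ / 512) ^ 375 * Real.exp (-((δ ^ 4)⁻¹ / 512))) =
      C * Real.exp (-(δ ^ 4)⁻¹ / 512) * (δ ^ 1500)⁻¹ := by
    rw [div_pow, inv_pow, ← pow_mul, neg_div]
    field_simp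
  rw [h8, ← div_eq_mul_inv, div_lt_one (by positivity)] at h7
  exact h7.le

/-- Off the window `J0` is negligible. Proof: let `|sq ξ - 1| > θ`, `ξ ∈ Sq2`. If
`|z - ξ| ≤ θ / 16` (Euclidean) then `|sq z - sq ξ| ≤ |z - ξ| (|z - ξ| + 2 |ξ|) ≤ θ / 2` because
`|ξ| ≤ 2√2`, so `exp (-(sq z - 1)² / 2h) ≤ exp (-θ² / (8h)) = exp (-δ⁻⁴ / 8)`; and the integral of
the kernel over `|z - ξ| > θ / 16` is at most `exp (-θ² / (512 h)) ∫ (πh)⁻¹ exp (-|y|² / 2h) dy
= 2 exp (-δ⁻⁴ / 512)`. Both are `≤ δ ^ 1500 / 2` for small `δ` (`exp (-x) ≤ n! / x ^ n`). -/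
theorem J0_off : ∀ᶠ δ in 𝓝[>] (0 : ℝ), ∀ ξ ∈ Sq2, ξ ∉ Win δ → J0 (hh δ) ξ ≤ δ ^ 1500 := by
  have hone : ∀ᶠ δ in 𝓝[>] (0 : ℝ), δ < 1 := by
    filter_upwards [Ioo_mem_nhdsGT (zero_lt_one (α := ℝ))] with δ hδ
    exact hδ.2
  filter_upwards [small_exp 3, self_mem_nhdsWithin, hone] with δ hδ hδ0 hδ1 ξ hξ hW
  have hδp : 0 < δ := hδ0
  have hh0 : 0 < hh δ := by unfold hh; positivity
  have hth : 0 < th δ := by unfold th; positivity
  have hth1 : th δ ≤ 1 := pow_le_one₀ hδp.le hδ1.le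
  have hrat : th δ ^ 2 / hh δ = (δ ^ 4)⁻¹ := by
    unfold th hh
    field_simp
  set E : ℝ := Real.exp (-(δ ^ 4)⁻¹ / 512) with hE
  have hE0 : 0 ≤ E := (Real.exp_pos _).le
  have hout : th δ < |sq ξ - 1| := by
    have h1 : ¬ |sq ξ - 1| ≤ th δ := hW
    exact not_le.1 h1
  have hpt : ∀ z : P, wgt (hh δ) z * ker (hh δ) (hh δ) (z - ξ) ≤
      E * ker (hh δ) (hh δ) (z - ξ) + E * ker (hh δ) (2 * hh δ) (z - ξ) := by
    intro z
    have hk1 := ker_nonneg hh0 (hh δ) (z - ξ)
    have hk2 := ker_nonneg hh0 (2 * hh δ) (z - ξ)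
    rcases le_or_gt (sq (z - ξ)) ((th δ / 16) ^ 2) with hz | hz
    · have hw : wgt (hh δ) z ≤ E := by
        rw [wgt, hE]
        refine Real.exp_le_exp.2 ?_
        have h1 : |z.1 - ξ.1| ≤ th δ / 16 := by
          refine abs_le_of_sq_le_sq ?_ (by positivity)
          refine le_trans ?_ hz
          exact le_add_of_nonneg_right (sq_nonneg _)
        have h2 : |z.2 - ξ.2| ≤ th δ / 16 := by
          refine abs_le_of_sq_le_sq ?_ (by positivity)
          refine le_trans ?_ hz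
          exact le_add_of_nonneg_left (sq_nonneg _)
        have h3 : |z.1 ^ 2 - ξ.1 ^ 2| ≤ th δ / 16 * 5 := by
          have e : z.1 ^ 2 - ξ.1 ^ 2 = (z.1 - ξ.1) * (z.1 + ξ.1) := by ring
          rw [e, abs_mul]
          refine mul_le_mul h1 ?_ (abs_nonneg _) (by positivity)
          have h4 := abs_add_le (z.1 - ξ.1) (2 * ξ.1)
          have h5 : z.1 - ξ.1 + 2 * ξ.1 = z.1 + ξ.1 := by ring
          rw [h5, abs_mul, abs_two] at h4
          have h6 := hξ.1
          linarith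
        have h4 : |z.2 ^ 2 - ξ.2 ^ 2| ≤ th δ / 16 * 5 := by
          have e : z.2 ^ 2 - ξ.2 ^ 2 = (z.2 - ξ.2) * (z.2 + ξ.2) := by ring
          rw [e, abs_mul]
          refine mul_le_mul h2 ?_ (abs_nonneg _) (by positivity)
          have h4 := abs_add_le (z.2 - ξ.2) (2 * ξ.2)
          have h5 : z.2 - ξ.2 + 2 * ξ.2 = z.2 + ξ.2 := by ring
          rw [h5, abs_mul, abs_two] at h4
          have h6 := hξ.2
          linarith
        have h5 : th δ / 4 ≤ |sq z - 1| := by
          have h6 : sq ξ - 1 = (sq z - 1) - (z.1 ^ 2 - ξ.1 ^ 2) - (z.2 ^ 2 - ξ.2 ^ 2) := by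
            simp only [sq]
            ring
          have h7 := abs_sub ((sq z - 1) - (z.1 ^ 2 - ξ.1 ^ 2)) (z.2 ^ 2 - ξ.2 ^ 2)
          have h8 := abs_sub (sq z - 1) (z.1 ^ 2 - ξ.1 ^ 2)
          rw [← h6] at h7
          linarith
        have h6 : (th δ / 4) ^ 2 ≤ (sq z - 1) ^ 2 := by
          rw [← sq_abs (sq z - 1)]
          exact pow_le_pow_left₀ (by positivity) h5 2
        rw [neg_div, neg_div, ← hrat]
        refine neg_le_neg ?_
        rw [div_div, div_le_div_iff₀ (by positivity) (by positivity)]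
        have h7 : th δ ^ 2 ≤ 16 * (sq z - 1) ^ 2 := by nlinarith
        nlinarith
      have h9 : wgt (hh δ) z * ker (hh δ) (hh δ) (z - ξ) ≤ E * ker (hh δ) (hh δ) (z - ξ) :=
        mul_le_mul_of_nonneg_right hw hk1
      have h10 : 0 ≤ E * ker (hh δ) (2 * hh δ) (z - ξ) := mul_nonneg hE0 hk2
      linarith
    · have h1 : ker (hh δ) (hh δ) (z - ξ) ≤ E * ker (hh δ) (2 * hh δ) (z - ξ) := by
        rw [ker, ker, hE, mul_left_comm, ← Real.exp_add]
        refine mul_le_mul_of_nonneg_left (Real.exp_le_exp.2 ?_) ?_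
        · have h2 : (δ ^ 4)⁻¹ / 512 ≤ sq (z - ξ) / (2 * hh δ) := by
            rw [← hrat, div_div, div_le_div_iff₀ (by positivity) (by positivity)]
            nlinarith
          have h3 : -(sq (z - ξ)) / hh δ = -(sq (z - ξ) / (2 * hh δ)) +
              -(sq (z - ξ)) / (2 * hh δ) := by
            field_simp
            ring
          rw [h3, neg_div 512]
          linarith
        · have := Real.pi_pos
          positivity
      have h9 : wgt (hh δ) z * ker (hh δ) (hh δ) (z - ξ) ≤ ker (hh δ) (hh δ) (z - ξ) :=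
        mul_le_of_le_one_left hk1 (wgt_le_one hh0 z)
      have h10 : 0 ≤ E * ker (hh δ) (hh δ) (z - ξ) := mul_nonneg hE0 hk1
      linarith
  have hi1 : Integrable (fun z : P => ker (hh δ) (hh δ) (z - ξ)) :=
    (ker_int (h := hh δ) hh0).1.comp_sub_right ξ
  have hi2 : Integrable (fun z : P => ker (hh δ) (2 * hh δ) (z - ξ)) :=
    (ker_int (h := hh δ) (a := 2 * hh δ) (by positivity)).1.comp_sub_right ξ
  have hmono := integral_mono (slice_int hh0 (wgt_cont (hh δ)) (wgt_nonneg (hh δ))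
    (wgt_le_one hh0) hh0 ξ) ((hi1.const_mul E).add (hi2.const_mul E)) hpt
  rw [← J0_def] at hmono
  refine hmono.trans (le_trans (le_of_eq ?_) hδ)
  change ∫ z, (E * ker (hh δ) (hh δ) (z - ξ) + E * ker (hh δ) (2 * hh δ) (z - ξ)) = _
  rw [integral_add (hi1.const_mul E) (hi2.const_mul E), integral_const_mul, integral_const_mul,
    integral_sub_right_eq_self (ker (hh δ) (hh δ)) ξ,
    integral_sub_right_eq_self (ker (hh δ) (2 * hh δ)) ξ, ker_one hh0, ker_two hh0]
  ring

/-- The part with large momenta is negligible. Proof: for `ξ ∉ Sq2` and `|z|² ≤ 2` we have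
`|z - ξ| ≥ 2 - √2 ≥ 1/2`, so the kernel is at most `exp (-1 / (8h)) (πh)⁻¹ exp (-|z - ξ|² / 2h)`
there; for `|z|² > 2` the factor `exp (-(|z|² - 1)² / 2h)` is at most
`exp (-1 / (4h)) exp (-(|z|² - 1)² / 4h)`. So the integral over `ξ ∉ Sq2` is at most
`2 exp (-1 / (8h)) · vol {|z|² ≤ 2} + exp (-1 / (4h)) Z0 (2h)`; `Z0 (2h) ≤ C √(2h)`. -/
theorem J0_high : ∀ᶠ δ in 𝓝[>] (0 : ℝ), ∫ ξ in Sq2ᶜ, J0 (hh δ) ξ ≤ δ ^ 1500 := by
  obtain ⟨c, C, -, hZ⟩ := Z0_bounds
  have hone : ∀ᶠ δ in 𝓝[>] (0 : ℝ), δ < 1 := by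
    filter_upwards [Ioo_mem_nhdsGT (zero_lt_one (α := ℝ))] with δ hδ
    exact hδ.2
  filter_upwards [small_exp (4 * |C|), self_mem_nhdsWithin, hone] with δ hδ hδ0 hδ1
  have hδp : 0 < δ := hδ0
  have hh0 : 0 < hh δ := by
    unfold hh
    exact pow_pos hδp 80
  have h2h : 0 < 2 * hh δ := mul_pos two_pos hh0
  have hh1 : hh δ ≤ 1 := by
    unfold hh
    exact pow_le_one₀ hδp.le hδ1.le
  have hSq : MeasurableSet Sq2 := by
    have e : Sq2 = {ξ : P | |ξ.1| ≤ 2} ∩ {ξ : P | |ξ.2| ≤ 2} := rfl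
    rw [e]
    refine (measurableSet_le ?_ measurable_const).inter (measurableSet_le ?_ measurable_const)
    · exact (continuous_abs.comp continuous_fst).measurable
    · exact (continuous_abs.comp continuous_snd).measurable
  set E : ℝ := Real.exp (-(δ ^ 4)⁻¹ / 512) with hE
  have hE0 : 0 ≤ E := (Real.exp_pos _).le
  have hE8 : Real.exp (-(1 / (8 * hh δ))) ≤ E := by
    rw [hE]
    refine Real.exp_le_exp.2 ?_
    rw [neg_div]
    refine neg_le_neg ?_
    have h1 : hh δ ≤ δ ^ 4 := pow_le_pow_of_le_one hδp.le hδ1.le (by norm_num)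
    rw [inv_eq_one_div, div_div, div_le_div_iff₀ (by positivity) (by positivity)]
    have h2 : 0 < δ ^ 4 := by positivity
    nlinarith
  have hpt : ∀ ξ : P, ξ ∉ Sq2 → ∀ z : P, wgt (hh δ) z * ker (hh δ) (hh δ) (z - ξ) ≤
      E * (wgt (hh δ) z * ker (hh δ) (2 * hh δ) (z - ξ)) +
        E * (wgt (2 * hh δ) z * ker (hh δ) (hh δ) (z - ξ)) := by
    intro ξ hξ z
    have hk1 := ker_nonneg hh0 (hh δ) (z - ξ)
    have hk2 := ker_nonneg hh0 (2 * hh δ) (z - ξ)
    have hw1 := wgt_nonneg (hh δ) z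
    have hw2 := wgt_nonneg (2 * hh δ) z
    rcases le_or_gt (sq z) 2 with hz | hz
    · have hfar : 1 / 4 ≤ sq (z - ξ) := by
        have hz' : z.1 ^ 2 + z.2 ^ 2 ≤ 2 := hz
        have h1 : |z.1| ≤ 3 / 2 := by
          refine abs_le_of_sq_le_sq ?_ (by norm_num)
          nlinarith [sq_nonneg z.2]
        have h2 : |z.2| ≤ 3 / 2 := by
          refine abs_le_of_sq_le_sq ?_ (by norm_num)
          nlinarith [sq_nonneg z.1]
        have h3 : 2 < |ξ.1| ∨ 2 < |ξ.2| := by
          by_contra hcon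
          push Not at hcon
          exact hξ hcon
        have hgen : ∀ a b : ℝ, |a| ≤ 3 / 2 → 2 < |b| → 1 / 4 ≤ (a - b) ^ 2 := by
          intro a b ha hb
          have h4 : 1 / 2 ≤ |a - b| := by
            have h5 := abs_sub_abs_le_abs_sub b a
            rw [abs_sub_comm b a] at h5
            linarith
          rw [← sq_abs (a - b)]
          nlinarith
        rcases h3 with h3 | h3
        · have h4 := hgen z.1 ξ.1 h1 h3
          exact h4.trans (le_add_of_nonneg_right (sq_nonneg _))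
        · have h4 := hgen z.2 ξ.2 h2 h3
          exact h4.trans (le_add_of_nonneg_left (sq_nonneg _))
      have h1 : ker (hh δ) (hh δ) (z - ξ) ≤ E * ker (hh δ) (2 * hh δ) (z - ξ) := by
        refine le_trans ?_ (mul_le_mul_of_nonneg_right hE8 hk2)
        rw [ker, ker, mul_left_comm, ← Real.exp_add]
        refine mul_le_mul_of_nonneg_left (Real.exp_le_exp.2 ?_) ?_
        · have h2 : 1 / (8 * hh δ) ≤ sq (z - ξ) / (2 * hh δ) := by
            rw [div_le_div_iff₀ (by positivity) (by positivity)]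
            nlinarith
          have h3 : -(sq (z - ξ)) / hh δ = -(sq (z - ξ) / (2 * hh δ)) +
              -(sq (z - ξ)) / (2 * hh δ) := by
            field_simp
            ring
          rw [h3]
          linarith
        · have := Real.pi_pos
          positivity
      have h5 := mul_le_mul_of_nonneg_left h1 hw1
      have h6 : 0 ≤ E * (wgt (2 * hh δ) z * ker (hh δ) (hh δ) (z - ξ)) :=
        mul_nonneg hE0 (mul_nonneg hw2 hk1)
      have h7 : wgt (hh δ) z * (E * ker (hh δ) (2 * hh δ) (z - ξ)) =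
        E * (wgt (hh δ) z * ker (hh δ) (2 * hh δ) (z - ξ)) := by ring
      linarith
    · have h1 : wgt (hh δ) z ≤ E * wgt (2 * hh δ) z := by
        refine le_trans ?_ (mul_le_mul_of_nonneg_right hE8 hw2)
        rw [wgt, wgt, ← Real.exp_add]
        refine Real.exp_le_exp.2 ?_
        have h2 : 1 / (8 * hh δ) ≤ (sq z - 1) ^ 2 / (2 * (2 * hh δ)) := by
          rw [div_le_div_iff₀ (by positivity) (by positivity)]
          have h3 : 1 ≤ (sq z - 1) ^ 2 := by nlinarith
          nlinarith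
        have h3 : -(sq z - 1) ^ 2 / (2 * hh δ) = -((sq z - 1) ^ 2 / (2 * (2 * hh δ))) +
            -(sq z - 1) ^ 2 / (2 * (2 * hh δ)) := by
          field_simp
          ring
        rw [h3]
        linarith
      have h5 := mul_le_mul_of_nonneg_right h1 hk1
      have h6 : 0 ≤ E * (wgt (hh δ) z * ker (hh δ) (2 * hh δ) (z - ξ)) :=
        mul_nonneg hE0 (mul_nonneg hw1 hk2)
      have h7 : E * wgt (2 * hh δ) z * ker (hh δ) (hh δ) (z - ξ) =
        E * (wgt (2 * hh δ) z * ker (hh δ) (hh δ) (z - ξ)) := by ring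
      linarith
  have hik2 := (ker_int (h := hh δ) (a := 2 * hh δ) h2h).1
  have hik1 := (ker_int (h := hh δ) hh0).1
  have hc1 := conv_int (wgt_cont (hh δ)) (ker_cont (hh δ) (2 * hh δ)) (wgt_nonneg _)
    (ker_nonneg hh0 _) (wgt_int hh0) hik2
  have hc2 := conv_int (wgt_cont (2 * hh δ)) (ker_cont (hh δ) (hh δ)) (wgt_nonneg _)
    (ker_nonneg hh0 _) (wgt_int h2h) hik1
  set A1 : P → ℝ := fun ξ => ∫ z, wgt (hh δ) z * ker (hh δ) (2 * hh δ) (z - ξ) with hA1
  set A2 : P → ℝ := fun ξ => ∫ z, wgt (2 * hh δ) z * ker (hh δ) (hh δ) (z - ξ) with hA2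
  have hA1i : Integrable A1 := hc1.integral_prod_left
  have hA2i : Integrable A2 := hc2.integral_prod_left
  have hA10 : ∀ ξ, 0 ≤ A1 ξ := fun ξ => integral_nonneg fun z =>
    mul_nonneg (wgt_nonneg _ z) (ker_nonneg hh0 _ _)
  have hA20 : ∀ ξ, 0 ≤ A2 ξ := fun ξ => integral_nonneg fun z =>
    mul_nonneg (wgt_nonneg _ z) (ker_nonneg hh0 _ _)
  have hJ : ∀ ξ ∈ Sq2ᶜ, J0 (hh δ) ξ ≤ E * A1 ξ + E * A2 ξ := by
    intro ξ hξ
    have hs1 := slice_int hh0 (wgt_cont (hh δ)) (wgt_nonneg (hh δ)) (wgt_le_one hh0) h2h ξ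
    have hs2 := slice_int hh0 (wgt_cont (2 * hh δ)) (wgt_nonneg (2 * hh δ)) (wgt_le_one h2h) hh0 ξ
    have hm := integral_mono (slice_int hh0 (wgt_cont (hh δ)) (wgt_nonneg (hh δ))
      (wgt_le_one hh0) hh0 ξ) ((hs1.const_mul E).add (hs2.const_mul E)) (hpt ξ hξ)
    rw [← J0_def] at hm
    refine hm.trans (le_of_eq ?_)
    rw [hA1, hA2]
    change ∫ z, (E * (wgt (hh δ) z * ker (hh δ) (2 * hh δ) (z - ξ)) +
      E * (wgt (2 * hh δ) z * ker (hh δ) (hh δ) (z - ξ))) = _
    rw [integral_add (hs1.const_mul E) (hs2.const_mul E), integral_const_mul, integral_const_mul]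
  have hsum : Integrable (fun ξ => E * A1 ξ + E * A2 ξ) :=
    (hA1i.const_mul E).add (hA2i.const_mul E)
  have hstep : ∫ ξ in Sq2ᶜ, J0 (hh δ) ξ ≤ ∫ ξ, (E * A1 ξ + E * A2 ξ) := by
    refine le_trans (setIntegral_mono_on (J0_basic hh0).2.2.1.integrableOn hsum.integrableOn
      hSq.compl hJ) ?_
    refine setIntegral_le_integral hsum (Eventually.of_forall fun ξ => ?_)
    exact add_nonneg (mul_nonneg hE0 (hA10 ξ)) (mul_nonneg hE0 (hA20 ξ))
  have hval : ∫ ξ, (E * A1 ξ + E * A2 ξ) = E * (Z0 (hh δ) * 2) + E * (Z0 (2 * hh δ) * 1) := by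
    rw [integral_add (hA1i.const_mul E) (hA2i.const_mul E), integral_const_mul,
      integral_const_mul, hA1, hA2,
      conv_eq (wgt_cont (hh δ)) (ker_cont (hh δ) (2 * hh δ)) (wgt_nonneg _)
        (ker_nonneg hh0 _) (wgt_int hh0) hik2,
      conv_eq (wgt_cont (2 * hh δ)) (ker_cont (hh δ) (hh δ)) (wgt_nonneg _)
        (ker_nonneg hh0 _) (wgt_int h2h) hik1, ker_two hh0, ker_one hh0, ← Z0_def, ← Z0_def]
  have hz1 : Z0 (hh δ) ≤ |C| := by
    refine (hZ (hh δ) hh0).2.2.trans ?_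
    have h1 : Real.sqrt (hh δ) ≤ 1 := Real.sqrt_le_one.2 hh1
    have h2 := Real.sqrt_nonneg (hh δ)
    calc C * Real.sqrt (hh δ) ≤ |C| * Real.sqrt (hh δ) :=
          mul_le_mul_of_nonneg_right (le_abs_self C) h2
      _ ≤ |C| * 1 := mul_le_mul_of_nonneg_left h1 (abs_nonneg C)
      _ = |C| := mul_one _
  have hz2 : Z0 (2 * hh δ) ≤ 2 * |C| := by
    refine (hZ (2 * hh δ) h2h).2.2.trans ?_
    have h1 : Real.sqrt (2 * hh δ) ≤ 2 := by
      rw [Real.sqrt_le_left (by norm_num)]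
      linarith
    have h2 := Real.sqrt_nonneg (2 * hh δ)
    calc C * Real.sqrt (2 * hh δ) ≤ |C| * Real.sqrt (2 * hh δ) :=
          mul_le_mul_of_nonneg_right (le_abs_self C) h2
      _ ≤ |C| * 2 := mul_le_mul_of_nonneg_left h1 (abs_nonneg C)
      _ = 2 * |C| := mul_comm _ _
  refine hstep.trans ?_
  rw [hval]
  refine le_trans ?_ hδ
  have h1 : E * (Z0 (hh δ) * 2) ≤ E * (|C| * 2) :=
    mul_le_mul_of_nonneg_left (by linarith) hE0
  have h2 : E * (Z0 (2 * hh δ) * 1) ≤ E * (2 * |C|) :=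
    mul_le_mul_of_nonneg_left (by linarith) hE0
  linarith

end

end Pool.Agent.MP4eed4eR
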