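import Pool.Agent.Lib.MP_4eed4e_an_R.F02
import Pool.Agent.Lib.MP_4eed4e_an_R.FDefs

/-!
MP_4eed4e_an, project R, module F04: the contribution `Zl` of a translation.
-/

namespace Pool.Agent.MP4eed4eR

open MeasureTheory Set Filter Topology Metric

noncomputable section

/-! ### Auxiliary lemmas -/

private theorem gau_pos (s : ℝ) : 0 < gau s := by
  unfold gau
  positivity

private theorem gau_le_one (s : ℝ) : gau s ≤ 1 := by
  unfold gau
  have h1 : (1 : ℝ) ≤ Real.sqrt (2 * Real.pi) := by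
    rw [Real.one_le_sqrt]
    have := Real.two_le_pi
    linarith
  have h2 : Real.exp (-s ^ 2 / 2) ≤ 1 := by
    rw [Real.exp_le_one_iff]
    have := sq_nonneg s
    linarith
  have h3 : (Real.sqrt (2 * Real.pi))⁻¹ ≤ 1 := inv_le_one_of_one_le₀ h1
  exact mul_le_one₀ h3 (Real.exp_pos _).le h2

private theorem gau_continuous : Continuous gau := by
  unfold gau
  fun_prop

private theorem gau_integrable : Integrable gau := by
  have h := (integrable_exp_neg_mul_sq (b := 1 / 2) (by norm_num)).const_mul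
    (Real.sqrt (2 * Real.pi))⁻¹
  refine h.congr (ae_of_all _ fun s => ?_)
  unfold gau
  ring_nf

private theorem exp_small {b : ℝ} (hb : 0 < b) (K : ℝ) (m : ℕ) :
    ∀ᶠ δ in 𝓝[>] (0 : ℝ), K * Real.exp (-(b / δ ^ 4)) ≤ δ ^ m := by
  have h0 : ∀ᶠ δ in 𝓝[>] (0 : ℝ), δ ∈ Ioo (0 : ℝ) 1 := Ioo_mem_nhdsGT one_pos
  have h1 : Tendsto (fun δ : ℝ => b / δ ^ 4) (𝓝[>] 0) atTop := by
    have h2 : Tendsto (fun δ : ℝ => δ ^ 4) (𝓝[>] 0) (𝓝[>] 0) := by
      refine tendsto_nhdsWithin_iff.2 ⟨?_, ?_⟩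
      · have : Tendsto (fun δ : ℝ => δ ^ 4) (𝓝 0) (𝓝 (0 ^ 4)) :=
          (continuous_pow 4).tendsto 0
        rw [zero_pow (by norm_num)] at this
        exact this.mono_left nhdsWithin_le_nhds
      · filter_upwards [h0] with δ hδ
        exact pow_pos hδ.1 4
    exact (tendsto_inv_nhdsGT_zero.comp h2).const_mul_atTop hb
  have h3 := (Real.tendsto_pow_mul_exp_neg_atTop_nhds_zero m).comp h1
  have hε : 0 < b ^ m / (|K| + 1) := by positivity
  filter_upwards [h0, h3.eventually (gt_mem_nhds hε)] with δ hδ h4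
  simp only [Function.comp] at h4
  have hδ0 : 0 < δ := hδ.1
  have h5 : Real.exp (-(b / δ ^ 4)) * (|K| + 1) < (δ ^ 4) ^ m := by
    rw [div_pow, lt_div_iff₀ (by positivity)] at h4
    have h6 : 0 < b ^ m := pow_pos hb m
    have h7 : b ^ m * (Real.exp (-(b / δ ^ 4)) * (|K| + 1)) < b ^ m * (δ ^ 4) ^ m := by
      have h8 := mul_lt_mul_of_pos_left h4 (pow_pos (pow_pos hδ0 4) m)
      calc b ^ m * (Real.exp (-(b / δ ^ 4)) * (|K| + 1))
          = (δ ^ 4) ^ m * (b ^ m / (δ ^ 4) ^ m * Real.exp (-(b / δ ^ 4)) * (|K| + 1)) := by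
            field_simp
        _ < (δ ^ 4) ^ m * b ^ m := h8
        _ = b ^ m * (δ ^ 4) ^ m := mul_comm _ _
    exact lt_of_mul_lt_mul_left h7 h6.le
  have h9 : (δ ^ 4) ^ m ≤ δ ^ m := by
    refine pow_le_pow_left₀ (by positivity) ?_ m
    exact pow_le_of_le_one hδ0.le hδ.2.le (by norm_num)
  have h10 : K ≤ |K| + 1 := (le_abs_self K).trans (by linarith)
  calc K * Real.exp (-(b / δ ^ 4)) ≤ (|K| + 1) * Real.exp (-(b / δ ^ 4)) :=
        mul_le_mul_of_nonneg_right h10 (Real.exp_pos _).le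
    _ = Real.exp (-(b / δ ^ 4)) * (|K| + 1) := mul_comm _ _
    _ ≤ δ ^ m := h5.le.trans h9

/-- The weight. -/
private def gw (δ s : ℝ) : ℂ := (gau s : ℂ) * Complex.exp (-(s / sh δ : ℝ) * Complex.I)

private theorem norm_gw (δ s : ℝ) : ‖gw δ s‖ = gau s := by
  unfold gw
  rw [norm_mul, ← Complex.ofReal_neg, Complex.norm_exp_ofReal_mul_I, mul_one, Complex.norm_real,
    Real.norm_eq_abs, abs_of_pos (gau_pos s)]

private theorem gw_continuous (δ : ℝ) : Continuous (gw δ) := by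
  unfold gw
  have := gau_continuous
  fun_prop

private theorem rng_meas (δ : ℝ) : MeasurableSet (Rng δ) := measurableSet_Icc

private theorem rng_t {l δ s : ℝ} (hδ : 0 < δ) (hs : s ∈ Rng δ) :
    |(l - 2 * sh δ * s) - l| ≤ kap δ := by
  have h1 : |s| ≤ 1 / (2 * δ) := abs_le.2 ⟨hs.1, hs.2⟩
  have h2 : (l - 2 * sh δ * s) - l = -(2 * sh δ * s) := by ring
  have h3 : 0 < 2 * sh δ := by
    unfold sh
    positivity
  rw [h2, abs_neg, abs_mul, abs_of_pos h3]
  calc 2 * sh δ * |s| ≤ 2 * sh δ * (1 / (2 * δ)) := by gcongr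
    _ = kap δ := by
      unfold sh kap
      field_simp

private theorem rng_fin (δ : ℝ) : volume (Rng δ) < ⊤ := measure_Icc_lt_top

private theorem rng_vol {δ : ℝ} (hδ : 0 < δ) : volume.real (Rng δ) = 1 / δ := by
  unfold Rng
  rw [Real.volume_real_Icc_of_le]
  · field_simp
    norm_num
  · have : 0 < 1 / (2 * δ) := by positivity
    linarith

private theorem small_ev {l : ℝ} (hl : 0 < l) :
    ∀ᶠ δ in 𝓝[>] (0 : ℝ), 0 < δ ∧ δ ≤ 1 ∧ δ ≤ l / 16 := by
  have h1 : ∀ᶠ δ in 𝓝[>] (0 : ℝ), δ ∈ Ioo (0 : ℝ) 1 := Ioo_mem_nhdsGT one_pos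
  have h2 : ∀ᶠ δ in 𝓝[>] (0 : ℝ), δ ∈ Ioo (0 : ℝ) (l / 16) :=
    Ioo_mem_nhdsGT (by positivity)
  filter_upwards [h1, h2] with δ h3 h4
  exact ⟨h3.1, h3.2.le, h4.2.le⟩

private theorem kap_le {l δ : ℝ} (hδ : 0 < δ) (h1 : δ ≤ 1) (h2 : δ ≤ l / 16) :
    kap δ ≤ l / 16 ∧ kap δ ≤ 1 ∧ kap δ ≤ l / 16 * th δ ∧ kap δ ≤ l / 16 * thp δ := by
  have e1 : kap δ ≤ δ := pow_le_of_le_one hδ.le h1 (by norm_num)
  refine ⟨e1.trans h2, e1.trans h1, ?_, ?_⟩
  · have : kap δ = δ * th δ := by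
      unfold kap th
      ring
    rw [this]
    refine mul_le_mul_of_nonneg_right h2 ?_
    unfold th
    positivity
  · have : kap δ = δ ^ 3 * thp δ := by
      unfold kap thp
      ring
    rw [this]
    refine mul_le_mul_of_nonneg_right ((pow_le_of_le_one hδ.le h1 (by norm_num)).trans h2) ?_
    unfold thp
    positivity

private theorem sh_pos {δ : ℝ} (hδ : 0 < δ) : 0 < sh δ := pow_pos hδ _

private theorem hh_pos {δ : ℝ} (hδ : 0 < δ) : 0 < hh δ := pow_pos hδ _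

private theorem hh_eq (δ : ℝ) : hh δ = sh δ ^ 2 := by
  unfold hh sh
  ring

private theorem hh_eq_th (δ : ℝ) : hh δ = δ ^ 4 * th δ ^ 2 := by
  unfold hh th
  ring

private theorem hh_eq_thp (δ : ℝ) : hh δ = δ ^ 8 * thp δ ^ 2 := by
  unfold hh thp
  ring

/-! ### The size of `Zl` -/

private def Phi (l : ℝ) (S s : ℝ) : ℂ :=
  (gau s : ℂ) / ((l - 2 * S * s : ℝ) * Complex.I) *
    Complex.exp ((2 * s ^ 2 / (l - 2 * S * s) : ℝ) * Complex.I)

private theorem Phi_norm (l S s : ℝ) : ‖Phi l S s‖ = gau s / |l - 2 * S * s| := by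
  unfold Phi
  rw [norm_mul, Complex.norm_exp_ofReal_mul_I, mul_one, norm_div, norm_mul, Complex.norm_I, mul_one,
    Complex.norm_real, Complex.norm_real, Real.norm_eq_abs, Real.norm_eq_abs,
    abs_of_pos (gau_pos s)]

private theorem Phi_measurable (l S : ℝ) : Measurable (Phi l S) := by
  unfold Phi
  have := gau_continuous.measurable
  fun_prop

private theorem Zl_eq {l δ : ℝ} (hδ : 0 < δ) (hk : kap δ ≤ l / 16) (hl : 0 < l) :
    Zl δ l = (2 * Real.pi * hh δ : ℝ) * Complex.exp ((l / (2 * hh δ) : ℝ) * Complex.I) *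
      ∫ s in Rng δ, Phi l (sh δ) s := by
  unfold Zl
  rw [← integral_const_mul]
  refine setIntegral_congr_fun (rng_meas δ) fun s hs => ?_
  have h1 := abs_le.1 (rng_t (l := l) hδ hs)
  have ht : 0 < l - 2 * sh δ * s := by linarith
  have hS := sh_pos hδ
  have h0 : ∀ t : ℝ, 0 < t → t = l - 2 * sh δ * s → -(s / sh δ) + l ^ 2 / (2 * hh δ * t) =
      l / (2 * hh δ) + 2 * s ^ 2 / t := by
    intro t ht0 hte
    rw [hh_eq]
    field_simp
    rw [hte]
    ring
  have h2 := h0 _ ht rfl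
  have h3 : Complex.exp (-(s / sh δ : ℝ) * Complex.I) *
      Complex.exp ((l ^ 2 / (2 * hh δ * (l - 2 * sh δ * s)) : ℝ) * Complex.I) =
      Complex.exp ((l / (2 * hh δ) : ℝ) * Complex.I) *
      Complex.exp ((2 * s ^ 2 / (l - 2 * sh δ * s) : ℝ) * Complex.I) := by
    rw [← Complex.exp_add, ← Complex.exp_add, ← add_mul, ← add_mul, ← Complex.ofReal_neg,
      ← Complex.ofReal_add, ← Complex.ofReal_add, h2]
  simp only [Phi]
  calc (gau s : ℂ) * Complex.exp (-(s / sh δ : ℝ) * Complex.I) *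
      ((2 * Real.pi * hh δ : ℝ) / ((l - 2 * sh δ * s : ℝ) * Complex.I) *
        Complex.exp ((l ^ 2 / (2 * hh δ * (l - 2 * sh δ * s)) : ℝ) * Complex.I))
      = (gau s : ℂ) * ((2 * Real.pi * hh δ : ℝ) / ((l - 2 * sh δ * s : ℝ) * Complex.I)) *
        (Complex.exp (-(s / sh δ : ℝ) * Complex.I) *
        Complex.exp ((l ^ 2 / (2 * hh δ * (l - 2 * sh δ * s)) : ℝ) * Complex.I)) := by ring
    _ = _ := by
      rw [h3]
      ring

private theorem Phi_int_ne {l : ℝ} (hl : 0 < l) : ∫ s, Phi l 0 s ≠ 0 := by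
  have hb : 0 < ((1 / 2 : ℂ) - 2 / l * Complex.I).re := by
    have : ((1 / 2 : ℂ) - 2 / l * Complex.I) =
        ((1 / 2 : ℝ) : ℂ) - ((2 / l : ℝ) : ℂ) * Complex.I := by
      push_cast
      ring
    rw [this, Complex.sub_re, Complex.ofReal_re, Complex.re_ofReal_mul, Complex.I_re]
    norm_num
  have h1 : ∀ s : ℝ, Phi l 0 s = ((Real.sqrt (2 * Real.pi))⁻¹ : ℝ) / (l * Complex.I) *
      Complex.exp (-((1 / 2 : ℂ) - 2 / l * Complex.I) * (s : ℂ) ^ 2) := by
    intro s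
    unfold Phi gau
    have e1 : Complex.exp (-((1 / 2 : ℂ) - 2 / l * Complex.I) * (s : ℂ) ^ 2) =
        Complex.exp ((-s ^ 2 / 2 : ℝ)) * Complex.exp ((2 * s ^ 2 / l : ℝ) * Complex.I) := by
      rw [← Complex.exp_add]
      congr 1
      push_cast
      ring
    rw [e1, mul_zero, zero_mul, sub_zero, Complex.ofReal_mul, Complex.ofReal_exp]
    ring
  simp only [h1]
  rw [integral_const_mul, integral_gaussian_complex hb]
  have hpi : (Real.pi : ℂ) ≠ 0 := Complex.ofReal_ne_zero.2 Real.pi_ne_zero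
  have hb0 : ((1 / 2 : ℂ) - 2 / l * Complex.I) ≠ 0 := by
    intro h
    rw [h] at hb
    simp at hb
  refine mul_ne_zero (div_ne_zero ?_ ?_) ?_
  · rw [Complex.ofReal_ne_zero]
    have : 0 < Real.sqrt (2 * Real.pi) := by positivity
    exact (inv_pos.2 this).ne'
  · exact mul_ne_zero (Complex.ofReal_ne_zero.2 hl.ne') Complex.I_ne_zero
  · intro h
    rw [Complex.cpow_eq_zero_iff] at h
    exact div_ne_zero hpi hb0 h.1

private theorem Phi_tendsto {l : ℝ} (hl : 0 < l) :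
    Tendsto (fun δ => ∫ s in Rng δ, Phi l (sh δ) s) (𝓝[>] (0 : ℝ)) (𝓝 (∫ s, Phi l 0 s)) := by
  have h0 : (fun δ => ∫ s in Rng δ, Phi l (sh δ) s) =
      fun δ => ∫ s, (Rng δ).indicator (Phi l (sh δ)) s := by
    funext δ
    rw [integral_indicator (rng_meas δ)]
  rw [h0]
  refine tendsto_integral_filter_of_dominated_convergence (fun s => gau s * (2 / l)) ?_ ?_ ?_ ?_
  · exact Eventually.of_forall fun δ =>
      ((Phi_measurable l (sh δ)).indicator (rng_meas δ)).aestronglyMeasurable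
  · filter_upwards [small_ev hl] with δ hδ
    refine ae_of_all _ fun s => ?_
    have hg := gau_pos s
    by_cases hs : s ∈ Rng δ
    · rw [indicator_of_mem hs, Phi_norm]
      have h1 := abs_le.1 (rng_t (l := l) hδ.1 hs)
      have h2 := (kap_le hδ.1 hδ.2.1 hδ.2.2).1
      have h3 : l / 2 ≤ l - 2 * sh δ * s := by linarith
      rw [abs_of_pos (by linarith), div_eq_mul_inv]
      refine mul_le_mul_of_nonneg_left ?_ hg.le
      rw [← inv_div l 2]
      exact inv_anti₀ (by positivity) h3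
    · rw [indicator_of_notMem hs, norm_zero]
      positivity
  · exact gau_integrable.mul_const _
  · refine ae_of_all _ fun s => ?_
    have h1 : ∀ᶠ δ in 𝓝[>] (0 : ℝ), s ∈ Rng δ := by
      have h2 : ∀ᶠ δ in 𝓝[>] (0 : ℝ), δ ∈ Ioo (0 : ℝ) (1 / (2 * (|s| + 1))) :=
        Ioo_mem_nhdsGT (by positivity)
      filter_upwards [h2] with δ hδ
      have hδ0 : 0 < δ := hδ.1
      have h3 : |s| + 1 < 1 / (2 * δ) := by
        have h4 := hδ.2
        rw [lt_div_iff₀ (by positivity)] at h4 ⊢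
        linarith
      exact abs_le.1 (by linarith : |s| ≤ 1 / (2 * δ))
    have h2 : Tendsto (fun δ : ℝ => Phi l (sh δ) s) (𝓝[>] 0) (𝓝 (Phi l 0 s)) := by
      have h3 : ContinuousAt (fun S : ℝ => Phi l S s) 0 := by
        unfold Phi
        have h4 : l - 2 * 0 * s ≠ 0 := by
          rw [mul_zero, zero_mul, sub_zero]
          exact hl.ne'
        have h5 : ContinuousAt (fun S : ℝ => l - 2 * S * s) 0 := by fun_prop
        have h6 : ContinuousAt (fun S : ℝ => ((l - 2 * S * s : ℝ) : ℂ) * Complex.I) 0 :=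
          (Complex.continuous_ofReal.continuousAt.comp h5).mul continuousAt_const
        have h7 : ContinuousAt (fun S : ℝ => 2 * s ^ 2 / (l - 2 * S * s)) 0 :=
          continuousAt_const.div h5 h4
        refine (continuousAt_const.div h6 ?_).mul ?_
        · exact mul_ne_zero (Complex.ofReal_ne_zero.2 h4) Complex.I_ne_zero
        · exact Complex.continuous_exp.continuousAt.comp
            ((Complex.continuous_ofReal.continuousAt.comp h7).mul continuousAt_const)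
      have h8 : Tendsto sh (𝓝[>] 0) (𝓝 0) := by
        have : Tendsto sh (𝓝 0) (𝓝 (0 ^ 40)) := (continuous_pow 40).tendsto 0
        rw [zero_pow (by norm_num)] at this
        exact this.mono_left nhdsWithin_le_nhds
      exact h3.tendsto.comp h8
    refine h2.congr' ?_
    filter_upwards [h1] with δ hδ
    rw [indicator_of_mem hδ]

/-- Size of `Zl`. Proof: with `t = l - 2 √h s`, `√h = sh δ`, `h = hh δ = (sh δ)²`, we have the exact
identity `l² / (2 h t) - s / √h - l / (2h) = 2 s² / t`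
(`(1/2h) (l² - l t - 2 √h s t) / t`, `l² - (l + 2√h s)(l - 2√h s) = 4 h s²`). Hence
`Zl δ l = 2π h exp (i l / 2h) ∫ s in Rng δ, gau s / (i t) * exp (2 i s² / t)`. The last integral
tends to `(1 / (i l)) ∫ gau s exp (2 i s² / l) ds` by dominated convergence
(`|s| ≤ 1 / (2δ)` gives `|t - l| ≤ δ ^ 39 ≤ l / 2`, so `1 / |t| ≤ 2 / l`; write the integral over
`Rng δ` with an indicator), which is `(1 / (i l)) (√(2π))⁻¹ (π / (1/2 - 2i/l)) ^ (1/2) ≠ 0`
(`integral_gaussian_complex`). -/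
theorem Zl_size {l : ℝ} (hl : 0 < l) : ∃ c C : ℝ, 0 < c ∧ ∀ᶠ δ in 𝓝[>] (0 : ℝ),
    c * hh δ ≤ ‖Zl δ l‖ ∧ ‖Zl δ l‖ ≤ C * hh δ := by
  have h1 := (Phi_tendsto hl).norm
  have h2 : 0 < ‖∫ s, Phi l 0 s‖ := norm_pos_iff.2 (Phi_int_ne hl)
  set J := ‖∫ s, Phi l 0 s‖ with hJ
  have hpi := Real.pi_pos
  refine ⟨2 * Real.pi * (J / 2), 2 * Real.pi * (2 * J), by positivity, ?_⟩
  filter_upwards [small_ev hl, h1.eventually (lt_mem_nhds (half_lt_self h2)),
    h1.eventually (gt_mem_nhds (by linarith : J < 2 * J))] with δ hδ h3 h4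
  have hh0 := hh_pos hδ.1
  have h5 : ‖Zl δ l‖ = 2 * Real.pi * hh δ * ‖∫ s in Rng δ, Phi l (sh δ) s‖ := by
    rw [Zl_eq hδ.1 (kap_le hδ.1 hδ.2.1 hδ.2.2).1 hl, norm_mul, norm_mul,
      Complex.norm_exp_ofReal_mul_I, mul_one, Complex.norm_real, Real.norm_eq_abs,
      abs_of_pos (by positivity)]
  rw [h5]
  have h6 : 0 < 2 * Real.pi * hh δ := by positivity
  constructor
  · calc 2 * Real.pi * (J / 2) * hh δ = 2 * Real.pi * hh δ * (J / 2) := by ring
      _ ≤ _ := mul_le_mul_of_nonneg_left h3.le h6.le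
  · calc 2 * Real.pi * hh δ * ‖∫ s in Rng δ, Phi l (sh δ) s‖ ≤ 2 * Real.pi * hh δ * (2 * J) :=
          mul_le_mul_of_nonneg_left h4.le h6.le
      _ = 2 * Real.pi * (2 * J) * hh δ := by ring

/-! ### Bounds for the kernel -/

private theorem sq_scale {t : ℝ} (ht : 0 < t) (c ξ : P) :
    sq (t • ξ + c) = t ^ 2 * sq (ξ + t⁻¹ • c) := by
  have ht' := ht.ne'
  simp only [sq, Prod.fst_add, Prod.snd_add, Prod.smul_fst, Prod.smul_snd, smul_eq_mul]
  field_simp

/-- The constant in the exponent. -/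
private def cl (l : ℝ) : ℝ := (l / 2) ^ 2 / (4 + (l + 1) ^ 2)

private theorem cl_pos {l : ℝ} (hl : 0 < l) : 0 < cl l := by
  unfold cl
  positivity

/-- If the distance from `-c` of `t ξ` is large, the kernel is small. -/
private theorem kc_small {h l t : ℝ} (hh0 : 0 < h) (hl : 0 < l) (h1 : l / 2 ≤ t) (h2 : t ≤ l + 1)
    (c ξ : P) : ‖Kc h t c ξ‖ ≤ Real.exp (-(cl l / h * sq (ξ + t⁻¹ • c))) := by
  have ht : 0 < t := by linarith
  refine (Kc_le hh0 t c ξ).1.trans (Real.exp_le_exp.2 ?_)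
  rw [sq_scale ht, neg_div, neg_le_neg_iff]
  have hu : 0 ≤ sq (ξ + t⁻¹ • c) := by
    unfold sq
    positivity
  have h3 : (l / 2) ^ 2 ≤ t ^ 2 := by
    have : 0 ≤ l / 2 := by positivity
    gcongr
  have h4 : 4 + t ^ 2 ≤ 4 + (l + 1) ^ 2 := by
    gcongr
  have h5 : cl l ≤ t ^ 2 / (4 + t ^ 2) := by
    unfold cl
    gcongr
  calc cl l / h * sq (ξ + t⁻¹ • c) ≤ t ^ 2 / (4 + t ^ 2) / h * sq (ξ + t⁻¹ • c) := by
        gcongr
    _ = t ^ 2 * sq (ξ + t⁻¹ • c) / (h * (4 + t ^ 2)) := by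
        field_simp

private theorem gauss_int {b : ℝ} (hb : 0 < b) (w : P) :
    Integrable (fun ξ : P => Real.exp (-(b * sq (ξ + w)))) ∧
      ∫ ξ : P, Real.exp (-(b * sq (ξ + w))) = Real.pi / b := by
  have h1 : ∀ ξ : P, Real.exp (-(b * sq ξ)) =
      Real.exp (-b * ξ.1 ^ 2) * Real.exp (-b * ξ.2 ^ 2) := by
    intro ξ
    rw [← Real.exp_add]
    congr 1
    unfold sq
    ring
  have h2 : Integrable (fun ξ : P => Real.exp (-(b * sq ξ))) := by
    simp only [h1]
    exact (integrable_exp_neg_mul_sq hb).mul_prod (integrable_exp_neg_mul_sq hb)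
  have h3 : ∫ ξ : P, Real.exp (-(b * sq ξ)) = Real.pi / b := by
    simp only [h1]
    rw [Measure.volume_eq_prod,
      integral_prod_mul (fun x : ℝ => Real.exp (-b * x ^ 2)) (fun x : ℝ => Real.exp (-b * x ^ 2)),
      integral_gaussian]
    exact Real.mul_self_sqrt (by positivity)
  refine ⟨h2.comp_add_right w, ?_⟩
  rw [← h3]
  exact integral_add_right_eq_self (fun ξ : P => Real.exp (-(b * sq ξ))) w

/-- The integral over the complement of the square. -/
private theorem kc_compl {h l t κ η : ℝ} (hh0 : 0 < h) (hh1 : h ≤ 1) (hl : 0 < l)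
    (hκ : |t - l| ≤ κ) (hκl : κ ≤ l / 16) (hκ1 : κ ≤ 1) (hη : 0 < η) (hκη : κ ≤ l / 16 * η)
    {c : P} (hc : sq c = l ^ 2) (S : Set P) (hS : MeasurableSet S)
    (hSc : ∀ ξ ∉ S, η < |ξ.1 + c.1 / l| ∨ η < |ξ.2 + c.2 / l|) :
    ‖∫ ξ in Sᶜ, Kc h t c ξ‖ ≤
      2 * Real.pi / cl l * Real.exp (-(cl l / 8 * η ^ 2 / h)) := by
  have hκ' := abs_le.1 hκ
  have h1 : l / 2 ≤ t := by linarith
  have h2 : t ≤ l + 1 := by linarith
  have ht : 0 < t := by linarith
  have hcl := cl_pos hl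
  have key : ∀ x : ℝ, x ^ 2 ≤ l ^ 2 → ∀ y : ℝ, η < |y + x / l| → η / 2 ≤ |y + t⁻¹ * x| := by
    intro x hx y hy
    have hx' : |x| ≤ l := by
      rw [← abs_of_pos hl]
      exact sq_le_sq.1 hx
    have h3 : |x / l - t⁻¹ * x| ≤ η / 2 := by
      have h4 : x / l - t⁻¹ * x = x * (t - l) / (l * t) := by
        field_simp
      rw [h4, abs_div, abs_mul, abs_of_pos (by positivity : 0 < l * t), div_le_iff₀ (by positivity)]
      calc |x| * |t - l| ≤ l * (l / 16 * η) :=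
            mul_le_mul hx' (hκ.trans hκη) (abs_nonneg _) hl.le
        _ ≤ η / 2 * (l * (l / 2)) := by nlinarith [mul_pos (mul_pos hl hl) hη]
        _ ≤ η / 2 * (l * t) := by gcongr
    have h5 : |y + x / l| ≤ |y + t⁻¹ * x| + |x / l - t⁻¹ * x| := by
      calc |y + x / l| = |(y + t⁻¹ * x) + (x / l - t⁻¹ * x)| := by
            congr 1
            ring
        _ ≤ _ := abs_add_le _ _
    linarith
  have hsq : ∀ ξ ∉ S, η ^ 2 / 4 ≤ sq (ξ + t⁻¹ • c) := by
    intro ξ hξ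
    have hc1 : c.1 ^ 2 ≤ l ^ 2 := by
      rw [← hc]
      unfold sq
      have := sq_nonneg c.2
      linarith
    have hc2 : c.2 ^ 2 ≤ l ^ 2 := by
      rw [← hc]
      unfold sq
      have := sq_nonneg c.1
      linarith
    have e1 : (η / 2) ^ 2 = η ^ 2 / 4 := by ring
    have e2 : sq (ξ + t⁻¹ • c) = (ξ.1 + t⁻¹ * c.1) ^ 2 + (ξ.2 + t⁻¹ * c.2) ^ 2 := by
      simp only [sq, Prod.fst_add, Prod.snd_add, Prod.smul_fst, Prod.smul_snd, smul_eq_mul]
    rw [e2, ← e1]
    rcases hSc ξ hξ with h3 | h3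
    · have h4 := key c.1 hc1 ξ.1 h3
      have h5 : (η / 2) ^ 2 ≤ (ξ.1 + t⁻¹ * c.1) ^ 2 := by
        rw [← sq_abs (ξ.1 + t⁻¹ * c.1)]
        gcongr
      have := sq_nonneg (ξ.2 + t⁻¹ * c.2)
      linarith
    · have h4 := key c.2 hc2 ξ.2 h3
      have h5 : (η / 2) ^ 2 ≤ (ξ.2 + t⁻¹ * c.2) ^ 2 := by
        rw [← sq_abs (ξ.2 + t⁻¹ * c.2)]
        gcongr
      have := sq_nonneg (ξ.1 + t⁻¹ * c.1)
      linarith
  have hb : 0 < cl l / (2 * h) := by positivity
  obtain ⟨hi, hv⟩ := gauss_int hb (t⁻¹ • c)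
  set E := Real.exp (-(cl l / 8 * η ^ 2 / h)) with hE
  have hE0 : 0 < E := Real.exp_pos _
  have hpt : ∀ ξ ∈ Sᶜ, ‖Kc h t c ξ‖ ≤
      E * Real.exp (-(cl l / (2 * h) * sq (ξ + t⁻¹ • c))) := by
    intro ξ hξ
    refine (kc_small hh0 hl h1 h2 c ξ).trans ?_
    rw [hE, ← Real.exp_add]
    refine Real.exp_le_exp.2 ?_
    have h3 := hsq ξ hξ
    have h4 : cl l / (2 * h) * (η ^ 2 / 4) ≤ cl l / (2 * h) * sq (ξ + t⁻¹ • c) :=
      mul_le_mul_of_nonneg_left h3 hb.le
    have h5 : cl l / h * sq (ξ + t⁻¹ • c) = 2 * (cl l / (2 * h) * sq (ξ + t⁻¹ • c)) := by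
      field_simp
    have h6 : cl l / 8 * η ^ 2 / h = cl l / (2 * h) * (η ^ 2 / 4) := by
      field_simp
      ring
    rw [h5, h6]
    linarith
  have hint : Integrable (fun ξ : P => E * Real.exp (-(cl l / (2 * h) * sq (ξ + t⁻¹ • c)))) :=
    hi.const_mul E
  calc ‖∫ ξ in Sᶜ, Kc h t c ξ‖
      ≤ ∫ ξ in Sᶜ, E * Real.exp (-(cl l / (2 * h) * sq (ξ + t⁻¹ • c))) := by
        refine norm_integral_le_of_norm_le hint.integrableOn ?_
        exact (ae_restrict_iff' hS.compl).2 (ae_of_all _ hpt)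
    _ ≤ ∫ ξ, E * Real.exp (-(cl l / (2 * h) * sq (ξ + t⁻¹ • c))) :=
        setIntegral_le_integral hint (ae_of_all _ fun ξ => by positivity)
    _ = E * (Real.pi / (cl l / (2 * h))) := by
        rw [integral_const_mul, hv]
    _ = h * (2 * Real.pi / cl l * E) := by
        field_simp
    _ ≤ 1 * (2 * Real.pi / cl l * E) := by
        refine mul_le_mul_of_nonneg_right hh1 ?_
        have := Real.pi_pos
        positivity
    _ = _ := one_mul _

private theorem sqc_eq (δ l : ℝ) (c : P) :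
    Sqc δ l c = closedBall (-(c.1 / l), -(c.2 / l)) (thp δ) := by
  ext ξ
  simp only [Sqc, mem_ofPred_eq, mem_closedBall, Prod.dist_eq, Real.dist_eq, max_le_iff,
    sub_neg_eq_add]

private theorem sqc_meas (δ l : ℝ) (c : P) : MeasurableSet (Sqc δ l c) := by
  rw [sqc_eq]
  exact measurableSet_closedBall

private theorem sqc_fin (δ l : ℝ) (c : P) : volume (Sqc δ l c) < ⊤ := by
  rw [sqc_eq]
  exact measure_closedBall_lt_top

/-- The momentum integral of `Ktil` near `-c / l`. Proof: exchange the integrals over `Rng δ` and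
over the square `Sqc δ l c` (bounded continuous integrand on a bounded set). For fixed `s`,
`t = l - 2 √h s`, `|t - l| ≤ κ`, the integral over the whole plane is `Kc_fresnel` (with
`sq c = l²`), which gives `Zl`; the integral over the complement of the square is at most
`∫ exp (-|t ξ + c|² / (h (4 + t²)))`, and there `|t ξ + c| ≥ t |ξ + c / t| ≥ (l/2) |ξ + c/t|_∞`,
`|c/t - c/l| ≤ 2κ / l`, so `|ξ + c/t| ≥ θ' / 2`; hence at most
`exp (-(l/2)² θ'² / (8 h (4 + (l+1)²))) · ∫ exp (-(l/2)² |ξ + c/t|² / (2 h (4 + (l+1)²)))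
≤ exp (-c' δ⁻⁸) C`, negligible (`θ'² / h = δ ^ 72 / δ ^ 80`). -/
theorem Ktil_int {l : ℝ} (hl : 0 < l) {c : P} (hc : sq c = l ^ 2) : ∀ᶠ δ in 𝓝[>] (0 : ℝ),
    IntegrableOn (fun ξ => Ktil δ l c ξ) (Sqc δ l c) ∧
      ‖(∫ ξ in Sqc δ l c, Ktil δ l c ξ) - Zl δ l‖ ≤ δ ^ 1000 := by
  have hcl := cl_pos hl
  have hcl8 : 0 < cl l / 8 := by positivity
  filter_upwards [small_ev hl, exp_small hcl8 (2 * Real.pi / cl l) 1001] with δ hδ hex
  obtain ⟨hδ0, hδ1, hδl⟩ := hδ
  obtain ⟨k1, k2, k3, k4⟩ := kap_le hδ0 hδ1 hδl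
  have hh0 := hh_pos hδ0
  have hh1 : hh δ ≤ 1 := pow_le_one₀ hδ0.le hδ1
  have hS := sh_pos hδ0
  have hthp : 0 < thp δ := pow_pos hδ0 _
  have f1 : IsFiniteMeasure (volume.restrict (Sqc δ l c)) :=
    isFiniteMeasure_restrict.2 (sqc_fin δ l c).ne
  have f2 : IsFiniteMeasure (volume.restrict (Rng δ)) :=
    isFiniteMeasure_restrict.2 (rng_fin δ).ne
  have hcont : Continuous fun p : P × ℝ =>
      gw δ p.2 * Kc (hh δ) (l - 2 * sh δ * p.2) c p.1 := by
    have h0 : Continuous fun p : P × ℝ => ((l - 2 * sh δ * p.2, p.1) : ℝ × P) := by fun_prop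
    exact ((gw_continuous δ).comp continuous_snd).mul ((Kc_continuous hh0 c).comp h0)
  have hle : ∀ s (ξ : P), ‖gw δ s * Kc (hh δ) (l - 2 * sh δ * s) c ξ‖ ≤ 1 := by
    intro s ξ
    rw [norm_mul, norm_gw]
    exact mul_le_one₀ (gau_le_one s) (norm_nonneg _) (Kc_le hh0 _ c ξ).2
  have hint : Integrable (Function.uncurry fun (ξ : P) (s : ℝ) =>
      gw δ s * Kc (hh δ) (l - 2 * sh δ * s) c ξ)
      ((volume.restrict (Sqc δ l c)).prod (volume.restrict (Rng δ))) :=
    Integrable.of_bound hcont.aestronglyMeasurable 1 (ae_of_all _ fun p => hle p.2 p.1)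
  refine ⟨hint.integral_prod_left, ?_⟩
  have e1 : ∫ ξ in Sqc δ l c, Ktil δ l c ξ =
      ∫ s in Rng δ, gw δ s * ∫ ξ in Sqc δ l c, Kc (hh δ) (l - 2 * sh δ * s) c ξ := by
    have e2 := integral_integral_swap hint
    simp only [integral_const_mul] at e2
    exact e2
  have e3 : Zl δ l = ∫ s in Rng δ, gw δ s * ∫ ξ, Kc (hh δ) (l - 2 * sh δ * s) c ξ := by
    refine setIntegral_congr_fun (rng_meas δ) fun s hs => ?_
    have h1 := abs_le.1 (rng_t (l := l) hδ0 hs)
    have ht : 0 < l - 2 * sh δ * s := by linarith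
    rw [(Kc_fresnel hh0 ht c).2, hc]
    rfl
  have i1 : IntegrableOn (fun s => gw δ s * ∫ ξ in Sqc δ l c,
      Kc (hh δ) (l - 2 * sh δ * s) c ξ) (Rng δ) := by
    have := hint.integral_prod_right
    simp only [Function.uncurry_apply_pair, integral_const_mul] at this
    exact this
  have i2 : IntegrableOn (fun s => gw δ s * ∫ ξ, Kc (hh δ) (l - 2 * sh δ * s) c ξ) (Rng δ) := by
    have i3 : ContinuousOn (fun s : ℝ => gw δ s * ((2 * Real.pi * hh δ : ℝ) /
        ((l - 2 * sh δ * s : ℝ) * Complex.I) *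
        Complex.exp ((sq c / (2 * hh δ * (l - 2 * sh δ * s)) : ℝ) * Complex.I))) (Rng δ) := by
      have h4 : ∀ s ∈ Rng δ, l - 2 * sh δ * s ≠ 0 := by
        intro s hs
        have h1 := abs_le.1 (rng_t (l := l) hδ0 hs)
        have ht : 0 < l - 2 * sh δ * s := by linarith
        exact ht.ne'
      have h5 : Continuous fun s : ℝ => l - 2 * sh δ * s := by fun_prop
      refine (gw_continuous δ).continuousOn.mul (ContinuousOn.mul ?_ ?_)
      · refine continuousOn_const.div ?_ ?_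
        · exact ((Complex.continuous_ofReal.comp h5).mul continuous_const).continuousOn
        · intro s hs
          exact mul_ne_zero (Complex.ofReal_ne_zero.2 (h4 s hs)) Complex.I_ne_zero
      · refine Complex.continuous_exp.comp_continuousOn
          ((Complex.continuous_ofReal.comp_continuousOn ?_).mul continuousOn_const)
        refine continuousOn_const.div (continuous_const.mul h5).continuousOn ?_
        intro s hs
        exact mul_ne_zero (mul_ne_zero two_ne_zero hh0.ne') (h4 s hs)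
    have i4 : IntegrableOn _ (Rng δ) volume := i3.integrableOn_compact isCompact_Icc
    refine i4.congr_fun (fun s hs => ?_) (rng_meas δ)
    have h1 := abs_le.1 (rng_t (l := l) hδ0 hs)
    have ht : 0 < l - 2 * sh δ * s := by linarith
    simp only
    rw [(Kc_fresnel hh0 ht c).2]
  rw [e1, e3, ← integral_sub i1 i2]
  have hb : ∀ s ∈ Rng δ, ‖gw δ s * (∫ ξ in Sqc δ l c, Kc (hh δ) (l - 2 * sh δ * s) c ξ) -
      gw δ s * ∫ ξ, Kc (hh δ) (l - 2 * sh δ * s) c ξ‖ ≤ δ ^ 1001 := by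
    intro s hs
    have h1 := rng_t (l := l) hδ0 hs
    have h1' := abs_le.1 h1
    have ht : 0 < l - 2 * sh δ * s := by linarith
    have h2 := integral_add_compl (sqc_meas δ l c) (Kc_fresnel hh0 ht c).1
    rw [← mul_sub, ← h2, sub_add_cancel_left, norm_mul, norm_neg, norm_gw]
    have h3 := kc_compl hh0 hh1 hl h1 k1 k2 hthp k4 hc (Sqc δ l c) (sqc_meas δ l c) (by
      intro ξ hξ
      by_contra hcon
      rw [not_or, not_lt, not_lt] at hcon
      exact hξ hcon)
    have h4 : Real.exp (-(cl l / 8 * thp δ ^ 2 / hh δ)) ≤ Real.exp (-(cl l / 8 / δ ^ 4)) := by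
      refine Real.exp_le_exp.2 (neg_le_neg ?_)
      have h5 : cl l / 8 * thp δ ^ 2 / hh δ = cl l / 8 / δ ^ 8 := by
        rw [hh_eq_thp]
        generalize thp δ = u at hthp
        field_simp
      rw [h5]
      refine div_le_div_of_nonneg_left hcl8.le (by positivity) ?_
      exact pow_le_pow_of_le_one hδ0.le hδ1 (by norm_num)
    calc gau s * ‖∫ ξ in (Sqc δ l c)ᶜ, Kc (hh δ) (l - 2 * sh δ * s) c ξ‖
        ≤ 1 * ‖∫ ξ in (Sqc δ l c)ᶜ, Kc (hh δ) (l - 2 * sh δ * s) c ξ‖ :=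
          mul_le_mul_of_nonneg_right (gau_le_one s) (norm_nonneg _)
      _ ≤ 2 * Real.pi / cl l * Real.exp (-(cl l / 8 * thp δ ^ 2 / hh δ)) := by
          rw [one_mul]
          exact h3
      _ ≤ 2 * Real.pi / cl l * Real.exp (-(cl l / 8 / δ ^ 4)) := by
          refine mul_le_mul_of_nonneg_left h4 ?_
          have := Real.pi_pos
          positivity
      _ ≤ δ ^ 1001 := hex
  have h1 := norm_setIntegral_le_of_norm_le_const (rng_fin δ) hb
  refine h1.trans ?_
  rw [rng_vol hδ0, pow_succ δ 1000]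
  field_simp
  exact le_rfl

/-- Off the window `Ktil` is negligible. Proof: `‖Ktil‖ ≤ sup over s in Rng of ‖Kc‖` (`gau` has
integral one), `‖Kc‖ ≤ exp (-|t ξ + c|² / (h (4 + t²)))` and `|t ξ + c| ≥ |t |ξ| - l|
≥ t ||ξ| - 1| - κ ≥ (l/2) θ / 4 - κ ≥ l θ / 16` since `θ < |sq ξ - 1| = ||ξ| - 1| (|ξ| + 1)`,
`|ξ| + 1 ≤ 4` (for `|ξ| > 3` the claim is easier: `||ξ| - 1| ≥ 1`). -/
theorem Ktil_off {l : ℝ} (hl : 0 < l) {c : P} (hc : sq c = l ^ 2) : ∀ᶠ δ in 𝓝[>] (0 : ℝ),
    ∀ ξ, ξ ∉ Win δ → ‖Ktil δ l c ξ‖ ≤ δ ^ 1000 := by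
  have hl2 : 0 < l ^ 2 / (256 * (4 + (l + 1) ^ 2)) := by positivity
  filter_upwards [small_ev hl, exp_small hl2 1 1001] with δ hδ hex ξ hξ
  obtain ⟨hδ0, hδ1, hδl⟩ := hδ
  obtain ⟨k1, k2, k3, k4⟩ := kap_le hδ0 hδ1 hδl
  have hh0 := hh_pos hδ0
  have hth : 0 < th δ := pow_pos hδ0 _
  have hth1 : th δ ≤ 1 := pow_le_one₀ hδ0.le hδ1
  have hb : ∀ s ∈ Rng δ, ‖(gau s : ℂ) * Complex.exp (-(s / sh δ : ℝ) * Complex.I) *
      Kc (hh δ) (l - 2 * sh δ * s) c ξ‖ ≤ δ ^ 1001 := by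
    intro s hs
    have h1 := abs_le.1 (rng_t (l := l) hδ0 hs)
    set t := l - 2 * sh δ * s with ht
    have h2 : l / 2 ≤ t := by linarith
    have h3 : t ≤ l + 1 := by linarith
    have ht0 : 0 < t := by linarith
    have h4 : (l * th δ / 16) ^ 2 ≤ sq (t • ξ + c) := by
      set r := Real.sqrt (sq ξ) with hr
      have hsq : 0 ≤ sq ξ := by
        unfold sq
        positivity
      have hr0 : 0 ≤ r := Real.sqrt_nonneg _
      have hr2 : r ^ 2 = sq ξ := Real.sq_sqrt hsq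
      have h5 : (t * r - l) ^ 2 ≤ sq (t • ξ + c) := by
        have h6 : -(dot ξ c) ≤ r * l := by
          refine le_of_sq_le_sq ?_ (by positivity)
          have h7 : (r * l) ^ 2 = sq ξ * sq c := by
            rw [mul_pow, hr2, hc]
          rw [h7]
          unfold dot sq
          nlinarith [sq_nonneg (ξ.1 * c.2 - ξ.2 * c.1)]
        have h8 : sq (t • ξ + c) = t ^ 2 * sq ξ + 2 * t * dot ξ c + sq c := by
          simp only [sq, dot, Prod.fst_add, Prod.snd_add, Prod.smul_fst, Prod.smul_snd,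
            smul_eq_mul]
          ring
        rw [h8, ← hr2, hc]
        nlinarith
      refine le_trans ?_ h5
      have h6 : th δ / 4 ≤ |r - 1| := by
        have h7 : th δ < |sq ξ - 1| := not_le.1 hξ
        rw [← hr2] at h7
        have h8 : r ^ 2 - 1 = (r - 1) * (r + 1) := by ring
        rw [h8, abs_mul, abs_of_pos (by linarith : 0 < r + 1)] at h7
        by_cases h9 : r ≤ 3
        · have h10 : |r - 1| * (r + 1) ≤ |r - 1| * 4 :=
            mul_le_mul_of_nonneg_left (by linarith) (abs_nonneg _)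
          linarith
        · have h10 := le_abs_self (r - 1)
          linarith [not_le.1 h9]
      have h7 : l * th δ / 16 ≤ |t * r - l| := by
        have h8 : t * r - l = t * (r - 1) + (t - l) := by ring
        have h9 : t * |r - 1| ≤ |t * r - l| + |t - l| := by
          calc t * |r - 1| = |t * (r - 1)| := by rw [abs_mul, abs_of_pos ht0]
            _ = |(t * r - l) - (t - l)| := by
              congr 1
              ring
            _ ≤ _ := abs_sub _ _
        have h10 : |t - l| ≤ l / 16 * th δ := (abs_le.2 h1).trans k3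
        have h11 : l / 2 * (th δ / 4) ≤ t * |r - 1| := by
          gcongr
        linarith
      rw [← sq_abs (t * r - l)]
      gcongr
    have h5 : ‖Kc (hh δ) t c ξ‖ ≤ 1 * Real.exp (-(l ^ 2 / (256 * (4 + (l + 1) ^ 2)) / δ ^ 4)) := by
      rw [one_mul]
      refine (Kc_le hh0 t c ξ).1.trans (Real.exp_le_exp.2 ?_)
      rw [neg_div, neg_le_neg_iff]
      have h6 : 4 + t ^ 2 ≤ 4 + (l + 1) ^ 2 := by
        gcongr
      calc l ^ 2 / (256 * (4 + (l + 1) ^ 2)) / δ ^ 4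
          = (l * th δ / 16) ^ 2 / (hh δ * (4 + (l + 1) ^ 2)) := by
            rw [hh_eq_th]
            generalize th δ = u at hth
            field_simp
            norm_num
        _ ≤ sq (t • ξ + c) / (hh δ * (4 + t ^ 2)) :=
            div_le_div₀ ((sq_nonneg _).trans h4) h4 (mul_pos hh0 (by positivity))
              (mul_le_mul_of_nonneg_left h6 hh0.le)
    have h6 := norm_gw δ s
    unfold gw at h6
    rw [norm_mul, h6]
    calc gau s * ‖Kc (hh δ) t c ξ‖ ≤ 1 * ‖Kc (hh δ) t c ξ‖ :=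
          mul_le_mul_of_nonneg_right (gau_le_one s) (norm_nonneg _)
      _ ≤ δ ^ 1001 := by
          rw [one_mul]
          exact h5.trans hex
  have h1 := norm_setIntegral_le_of_norm_le_const (rng_fin δ) hb
  refine h1.trans ?_
  rw [rng_vol hδ0, pow_succ δ 1000]
  field_simp
  exact le_rfl

end

end Pool.Agent.MP4eed4eR
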