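import Pool.Agent.Lib.MP_4eed4e_an_R.A17
import Pool.Agent.Lib.MP_4eed4e_an_R.B04
import Pool.Agent.Lib.MP_4eed4e_an_R.C19
import Pool.Agent.Lib.MP_4eed4e_an_R.C25
import Pool.Agent.Lib.MP_4eed4e_an_R.D07
import Pool.Agent.Lib.MP_4eed4e_an_R.F02
import Pool.Agent.Lib.MP_4eed4e_an_R.F03

/-!
MP_4eed4e_an, project R, module F05: averaging over the time; the window on free packets.
-/

namespace Pool.Agent.MP4eed4eR

open MeasureTheory Set Filter Topology Metric

noncomputable section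

variable {D : Set P}

private theorem f05_sqrt {δ : ℝ} (hδ : 0 < δ) : Real.sqrt (hh δ) = sh δ := by
  have h1 : hh δ = sh δ ^ 2 := by
    unfold hh sh
    ring
  rw [h1, Real.sqrt_sq (by unfold sh; positivity)]

private theorem f05_gau_eq (s : ℝ) :
    gau s = (Real.sqrt (2 * Real.pi))⁻¹ * Real.exp (-(1 / 2) * s ^ 2) := by
  unfold gau
  congr 2
  ring

private theorem f05_gau_nonneg (s : ℝ) : 0 ≤ gau s := by
  unfold gau
  positivity

private theorem f05_gau_cont : Continuous gau := by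
  unfold gau
  fun_prop

private theorem f05_gau_int : Integrable gau := by
  have h1 : gau = fun s => (Real.sqrt (2 * Real.pi))⁻¹ * Real.exp (-(1 / 2) * s ^ 2) :=
    funext f05_gau_eq
  rw [h1]
  exact (integrable_exp_neg_mul_sq (by norm_num : (0 : ℝ) < 1 / 2)).const_mul _

private theorem f05_gau_one : ∫ s, gau s = 1 := by
  have h1 : gau = fun s => (Real.sqrt (2 * Real.pi))⁻¹ * Real.exp (-(1 / 2) * s ^ 2) :=
    funext f05_gau_eq
  rw [h1, integral_const_mul, integral_gaussian]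
  have h2 : Real.pi / (1 / 2) = 2 * Real.pi := by ring
  rw [h2]
  exact inv_mul_cancel₀ (by positivity)

private theorem f05_meas (δ : ℝ) : MeasurableSet (Rng δ) := measurableSet_Icc

private theorem f05_small (C : ℝ) :
    ∀ᶠ δ in 𝓝[>] (0 : ℝ), C * Real.exp (-(16 * δ ^ 2)⁻¹) ≤ δ ^ 1600 := by
  have h1 : Tendsto (fun δ : ℝ => (16 * δ ^ 2)⁻¹) (𝓝[>] (0 : ℝ)) atTop := by
    refine Tendsto.inv_tendsto_nhdsGT_zero ?_
    refine tendsto_nhdsWithin_iff.2 ⟨?_, ?_⟩
    · have h2 : Continuous fun δ : ℝ => 16 * δ ^ 2 := by fun_prop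
      have h3 := h2.tendsto 0
      rw [zero_pow two_ne_zero, mul_zero] at h3
      exact h3.mono_left nhdsWithin_le_nhds
    · filter_upwards [self_mem_nhdsWithin] with δ hδ
      have : (0 : ℝ) < δ := hδ
      exact (by positivity : (0 : ℝ) < 16 * δ ^ 2)
  have h2 := (Real.tendsto_pow_mul_exp_neg_atTop_nhds_zero 800).comp h1
  have h3 := h2.const_mul (C * 16 ^ 800)
  rw [mul_zero] at h3
  filter_upwards [h3.eventually_lt_const (one_pos), self_mem_nhdsWithin] with δ h4 hδ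
  have hδ0 : (0 : ℝ) < δ := hδ
  have h5 : C * 16 ^ 800 * (((16 * δ ^ 2)⁻¹) ^ 800 * Real.exp (-(16 * δ ^ 2)⁻¹)) =
      C * Real.exp (-(16 * δ ^ 2)⁻¹) / δ ^ 1600 := by
    rw [inv_pow, mul_pow, ← pow_mul]
    have h16 : (16 : ℝ) ^ 800 ≠ 0 := by positivity
    have hd : δ ^ (2 * 800) ≠ 0 := by positivity
    rw [show (1600 : ℕ) = 2 * 800 by norm_num]
    generalize (16 : ℝ) ^ 800 = X at *
    generalize δ ^ (2 * 800) = Y at *
    field_simp
  have h6 : C * Real.exp (-(16 * δ ^ 2)⁻¹) / δ ^ 1600 < 1 := by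
    rw [← h5]
    exact h4
  rw [div_lt_one (by positivity)] at h6
  exact h6.le

private theorem f05_tail {δ : ℝ} (hδ : 0 < δ) :
    ∫ s in (Rng δ)ᶜ, gau s ≤ Real.sqrt 2 * Real.exp (-(16 * δ ^ 2)⁻¹) := by
  have hi : Integrable fun s : ℝ => Real.exp (-(1 / 4) * s ^ 2) :=
    integrable_exp_neg_mul_sq (by norm_num)
  have h1 : ∀ s ∈ (Rng δ)ᶜ, gau s ≤ ((Real.sqrt (2 * Real.pi))⁻¹ *
      Real.exp (-(16 * δ ^ 2)⁻¹)) * Real.exp (-(1 / 4) * s ^ 2) := by
    intro s hs
    have h2 : 1 / (2 * δ) ≤ |s| := by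
      by_contra hcon
      rw [not_le, abs_lt] at hcon
      exact hs ⟨hcon.1.le, hcon.2.le⟩
    have h3 : (16 * δ ^ 2)⁻¹ ≤ 1 / 4 * s ^ 2 := by
      have h4 : (1 / (2 * δ)) ^ 2 ≤ s ^ 2 := by
        rw [← sq_abs s]
        exact pow_le_pow_left₀ (by positivity) h2 2
      have h5 : (16 * δ ^ 2)⁻¹ = 1 / 4 * (1 / (2 * δ)) ^ 2 := by
        field_simp
        norm_num
      rw [h5]
      linarith
    rw [f05_gau_eq, mul_assoc]
    refine mul_le_mul_of_nonneg_left ?_ (by positivity)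
    rw [← Real.exp_add]
    exact Real.exp_le_exp.2 (by linarith)
  have h2 : ∫ s in (Rng δ)ᶜ, gau s ≤ ∫ s in (Rng δ)ᶜ, ((Real.sqrt (2 * Real.pi))⁻¹ *
      Real.exp (-(16 * δ ^ 2)⁻¹)) * Real.exp (-(1 / 4) * s ^ 2) :=
    setIntegral_mono_on f05_gau_int.integrableOn (hi.const_mul _).integrableOn
      (f05_meas δ).compl h1
  refine h2.trans ?_
  refine (setIntegral_le_integral (hi.const_mul _)
    (Eventually.of_forall fun s => by positivity)).trans ?_
  rw [integral_const_mul, integral_gaussian]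
  have h3 : Real.sqrt (Real.pi / (1 / 4)) = Real.sqrt 2 * Real.sqrt (2 * Real.pi) := by
    rw [← Real.sqrt_mul (by norm_num)]
    congr 1
    ring
  rw [h3]
  have h4 : Real.sqrt (2 * Real.pi) ≠ 0 := by positivity
  refine le_of_eq ?_
  field_simp

/-- `√h = δ ^ 40`, and the Gaussian weight has integral one and a negligible tail. Proof: `hh δ =
(sh δ) ^ 2`; `integral_gaussian`; `exp (-s² / 2) ≤ exp (-1 / (16 δ²)) exp (-s² / 4)` off `Rng δ`
and `exp (-x) ≤ n! / x ^ n`. -/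
theorem gau_facts : (∀ δ : ℝ, 0 < δ → Real.sqrt (hh δ) = sh δ) ∧ Integrable gau ∧
    (∀ s, 0 ≤ gau s) ∧ ∫ s, gau s = 1 ∧
    ∀ᶠ δ in 𝓝[>] (0 : ℝ), ∫ s in (Rng δ)ᶜ, gau s ≤ δ ^ 1600 := by
  refine ⟨fun δ hδ => f05_sqrt hδ, f05_gau_int, f05_gau_nonneg, f05_gau_one, ?_⟩
  filter_upwards [f05_small (Real.sqrt 2), self_mem_nhdsWithin] with δ h1 hδ
  exact (f05_tail hδ).trans h1

private theorem f05_le {c : ℝ} (hc : 0 < c) : ∀ᶠ δ in 𝓝[>] (0 : ℝ), δ ≤ c := by
  have h1 : Iic c ∈ 𝓝 (0 : ℝ) := Iic_mem_nhds hc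
  exact mem_nhdsWithin_of_mem_nhds h1

/-- The averaging lemma. Proof: `W_integral` with `h = hh δ`, `√h = sh δ`, `f = g = v`. The
integrand is continuous (`continuous_U`) and bounded by `16 * gau s` (`norm_U`), hence integrable.
Split into `Rng δ` and its complement; the complement contributes at most
`16 * δ ^ 1600 ≤ δ ^ 1500`; on `Rng δ` replace the matrix element by `k s`, the error is at most
`ε * ∫ gau ≤ ε`. -/
theorem avg (S : Spec D) : ∀ᶠ δ in 𝓝[>] (0 : ℝ), ∀ v : HD D, ‖v‖ ≤ 4 → ∀ (l ε : ℝ) (k : ℝ → ℂ),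
    Continuous k → (∀ s ∈ Rng δ,
      ‖(inner ℂ v (S.U (hh δ) (l - 2 * sh δ * s) v) : ℂ) - k s‖ ≤ ε) →
    ‖(inner ℂ v (S.W (hh δ) l v) : ℂ) - ∫ s in Rng δ, (gau s : ℂ) *
      Complex.exp (-(s / sh δ : ℝ) * Complex.I) * k s‖ ≤ ε + δ ^ 1500 := by
  filter_upwards [gau_facts.2.2.2.2, f05_le (by norm_num : (0 : ℝ) < 1 / 2),
    self_mem_nhdsWithin] with δ htail hδ2 hδ v hv l ε k hk hs
  have hδ0 : (0 : ℝ) < δ := hδ
  have hh0 : 0 < hh δ := by unfold hh; positivity
  have h0 : (0 : ℝ) ∈ Rng δ := ⟨by simp; positivity, by positivity⟩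
  have hε : 0 ≤ ε := (norm_nonneg _).trans (hs 0 h0)
  set m : ℝ → ℂ := fun s => (inner ℂ v (S.U (hh δ) (l - 2 * sh δ * s) v) : ℂ) with hm
  set w : ℝ → ℂ := fun s => (gau s : ℂ) * Complex.exp (-(s / sh δ : ℝ) * Complex.I) with hw
  have hwn : ∀ s, ‖w s‖ = gau s := fun s => by
    have h1 : (-(s / sh δ : ℝ) * Complex.I : ℂ) = ((-(s / sh δ) : ℝ) : ℂ) * Complex.I := by
      push_cast
      ring
    rw [hw]
    simp only
    rw [h1, norm_mul, Complex.norm_exp_ofReal_mul_I, mul_one, Complex.norm_real,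
      Real.norm_of_nonneg (f05_gau_nonneg s)]
  have hwc : Continuous w := by
    have h1 := f05_gau_cont
    rw [hw]
    fun_prop
  have hmc : Continuous m := by
    have h1 : Continuous fun s : ℝ => S.U (hh δ) (l - 2 * sh δ * s) v :=
      (continuous_U S (hh δ) v).comp (by fun_prop)
    exact continuous_const.inner h1
  have hmn : ∀ s, ‖m s‖ ≤ 16 := fun s => by
    refine (norm_inner_le_norm _ _).trans ?_
    rw [norm_U]
    nlinarith [norm_nonneg v]
  have hint : Integrable fun s => w s * m s := by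
    refine Integrable.mono' (f05_gau_int.const_mul 16) (hwc.mul hmc).aestronglyMeasurable
      (Eventually.of_forall fun s => ?_)
    rw [norm_mul, hwn, mul_comm]
    exact mul_le_mul_of_nonneg_right (hmn s) (f05_gau_nonneg s)
  have hW : (inner ℂ v (S.W (hh δ) l v) : ℂ) = ∫ s, w s * m s := by
    rw [W_integral S hh0 l v v]
    refine integral_congr_ae (Eventually.of_forall fun s => ?_)
    simp only [hw, hm, f05_sqrt hδ0]
    rfl
  have hkint : IntegrableOn (fun s => w s * k s) (Rng δ) :=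
    (hwc.mul hk).continuousOn.integrableOn_compact isCompact_Icc
  rw [hW, ← integral_add_compl (f05_meas δ) hint]
  have h1 : ‖∫ s in (Rng δ)ᶜ, w s * m s‖ ≤ δ ^ 1500 := by
    have h2 : ‖∫ s in (Rng δ)ᶜ, w s * m s‖ ≤ ∫ s in (Rng δ)ᶜ, 16 * gau s := by
      refine norm_integral_le_of_norm_le (f05_gau_int.const_mul 16).integrableOn
        (Eventually.of_forall fun s => ?_)
      rw [norm_mul, hwn, mul_comm]
      exact mul_le_mul_of_nonneg_right (hmn s) (f05_gau_nonneg s)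
    refine h2.trans ?_
    rw [integral_const_mul]
    have h3 : δ ^ 1600 = δ ^ 1500 * δ ^ 100 := by rw [← pow_add]
    have h4 : δ ^ 100 ≤ 1 / 16 :=
      calc δ ^ 100 ≤ (1 / 2 : ℝ) ^ 100 := pow_le_pow_left₀ hδ0.le hδ2 _
        _ ≤ 1 / 16 := by norm_num
    have h5 : (0 : ℝ) < δ ^ 1500 := by positivity
    have h6 : 16 * ∫ s in (Rng δ)ᶜ, gau s ≤ 16 * δ ^ 1600 :=
      mul_le_mul_of_nonneg_left htail (by norm_num)
    refine h6.trans ?_
    rw [h3]
    generalize δ ^ 1500 = A at *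
    generalize δ ^ 100 = B at *
    nlinarith
  have h2 : ‖(∫ s in Rng δ, w s * m s) - ∫ s in Rng δ, w s * k s‖ ≤ ε := by
    rw [← integral_sub hint.integrableOn hkint]
    have h3 : ‖∫ s in Rng δ, (w s * m s - w s * k s)‖ ≤ ∫ s in Rng δ, gau s * ε := by
      refine norm_integral_le_of_norm_le (f05_gau_int.mul_const ε).integrableOn ?_
      filter_upwards [ae_restrict_mem (f05_meas δ)] with s hsR
      rw [← mul_sub, norm_mul, hwn]
      exact mul_le_mul_of_nonneg_left (hs s hsR) (f05_gau_nonneg s)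
    refine h3.trans ?_
    rw [integral_mul_const]
    have h4 : ∫ s in Rng δ, gau s ≤ 1 := by
      rw [← f05_gau_one]
      exact setIntegral_le_integral f05_gau_int (Eventually.of_forall f05_gau_nonneg)
    calc (∫ s in Rng δ, gau s) * ε ≤ 1 * ε := mul_le_mul_of_nonneg_right h4 hε
      _ = ε := one_mul ε
  have h3 : (∫ s in Rng δ, w s * m s) + (∫ s in (Rng δ)ᶜ, w s * m s) -
      ∫ s in Rng δ, w s * k s = ((∫ s in Rng δ, w s * m s) - ∫ s in Rng δ, w s * k s) +
        ∫ s in (Rng δ)ᶜ, w s * m s := by ring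
  rw [h3]
  exact (norm_add_le _ _).trans (add_le_add h2 h1)

private theorem f05_wall {w : ℝ × ℝ} (hw : IsSgn w.2) {κ x y : ℝ} (hin : wIn w x)
    (hk : w.2 ≠ 0 → 4 * κ ≤ |w.1 - x|) (hκ : 0 < κ) (hy : |y - x| ≤ 2 * κ) :
    wfold w y = y ∧ wsgn w y = 1 := by
  rcases hin with h0 | h0
  · refine ⟨by rw [wfold, if_pos h0], ?_⟩
    rw [wsgn, if_neg]
    rw [h0, zero_mul]
    exact lt_irrefl _
  · have hne : w.2 ≠ 0 := by
      intro h1
      rw [h1, zero_mul] at h0
      exact lt_irrefl _ h0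
    have h4 := hk hne
    have h5 := abs_le.1 hy
    rcases hw with h1 | h1 | h1
    · exact absurd h1 hne
    · rw [h1, one_mul] at h0
      rw [abs_sub_comm, abs_of_pos h0] at h4
      have h6 : 0 < y - w.1 := by linarith
      refine ⟨?_, ?_⟩
      · rw [wfold, if_neg hne, h1, abs_of_pos h6]
        ring
      · rw [wsgn, if_neg]
        rw [h1, one_mul, not_lt]
        exact h6.le
    · rw [h1] at h0
      have h7 : 0 < w.1 - x := by linarith
      rw [abs_of_pos h7] at h4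
      have h6 : y - w.1 < 0 := by linarith
      refine ⟨?_, ?_⟩
      · rw [wfold, if_neg hne, h1, abs_of_neg h6]
        ring
      · rw [wsgn, if_neg]
        rw [h1, not_lt]
        linarith

private theorem f05_far {D : Set P} {G : Geo D} {ρ ρ' : ℝ} (h : ρ ≤ ρ') {x : P}
    (hx : G.Far ρ' x) : G.Far ρ x := fun v hv => h.trans (hx v hv)

private theorem f05_gq (S : Spec D) {h : ℝ} (hh0 : 0 < h) (f : HD D) :
    (inner ℂ f (S.W h 0 f) : ℂ) = (S.gq h f : ℂ) := by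
  have h1 := gk_sum S hh0 0 f
  have h2 := (gq_summable S hh0 f).1.hasSum
  have h3 := (Complex.hasSum_ofReal).2 h2
  refine h1.unique ?_
  have h4 : (fun k => om S.lam h 0 k * ((‖S.co k f‖ ^ 2 : ℝ) : ℂ)) =
      fun k => ((gk S.lam h k * ‖S.co k f‖ ^ 2 : ℝ) : ℂ) := by
    funext k
    unfold om
    simp
  rw [h4]
  exact h3

/-- The window on a packet away from the walls. Proof. `S.gq h v` is the real part of
`⟨v, W h 0 v⟩` (`gk_sum` with `l = 0`: `om lam h 0 k = gk lam h k`). Apply `avg` with `l = 0`,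
`k s = Kc (hh δ) (0 - 2 sh s) 0 ξ` (`Kc_continuous`). For `s ∈ Rng δ` and `t = -2 sh s` we have
`|t| ≤ κ ≤ τ`. By `W.Int (4 κ) x`, `|t ξ_i| ≤ 2 κ` and `x ∈ D` (so `x` is on the inner side of its
walls, `W.model` with `q = x`) the point `x + t ξ` is on the same side of the walls:
`stp W t (x, ξ) = (x + t ξ, ξ)` and both signs are `1`. It belongs to `G.Y δ`: `stp_mem` and
`dist ≤ 2 κ ≤ th / 2`. So `step` gives `U t v = phs • v' + O (δ ^ 2000)`, `v' = v (x + t ξ, ξ) t`,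
and `overlap_eq` with `c = 0` gives `⟨v, U t v⟩ = Kc + O (δ ^ 1900 + 4 δ ^ 2000)`. Finally the
integral over `Rng δ` differs from the integral over `ℝ`, which is `J0` (`J0_avg`), by at most
`δ ^ 1600` (`‖Kc‖ ≤ 1`, `gau_facts`). -/
theorem gq_free (S : Spec D) (G : Geo D) : ∀ᶠ δ in 𝓝[>] (0 : ℝ), ∀ W : Walls G (th δ / 4),
    ∀ x ∈ G.X δ, W.Int (4 * kap δ) x → ∀ ξ ∈ Sq2,
      |S.gq (hh δ) (W.v δ (x, ξ) 0) - J0 (hh δ) ξ| ≤ δ ^ 1400 := by
  filter_upwards [avg S, step S G 1, overlap_eq G 1, gau_facts.2.2.2.2,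
    f05_le (by norm_num : (0 : ℝ) < 1 / 4096), self_mem_nhdsWithin]
    with δ havg hstep hov htail hδ2 hδ W x hx hI ξ hξ
  have hδ0 : (0 : ℝ) < δ := hδ
  have hh0 : 0 < hh δ := by unfold hh; positivity
  have hsh : 0 < sh δ := by unfold sh; positivity
  have hκ : 0 < kap δ := by unfold kap; positivity
  have hth : 0 < th δ := by unfold th; positivity
  have hkt : 4096 * kap δ ≤ th δ := by
    unfold kap th
    rw [pow_succ]
    have h1 : (0 : ℝ) < δ ^ 38 := by positivity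
    nlinarith
  have hk1 : kap δ ≤ 1 := by
    unfold kap
    exact pow_le_one₀ hδ0.le (by linarith)
  set v : HD D := W.v δ (x, ξ) 0 with hv
  have hvn : ‖v‖ ≤ 4 := norm_v_le W hδ0 _ _
  have hxc : x ∈ closure D := subset_closure hx.1
  have hxY : x ∈ G.Y δ := ⟨hxc, f05_far (by linarith) hx.2⟩
  have hfar : G.Far (th δ / 4) x := f05_far (by linarith) hx.2
  have hin := (W.model x hxc hfar x (mem_ball_self (by positivity))).1 hx.1
  have hmax : max |ξ.1| |ξ.2| ≤ 2 := max_le hξ.1 hξ.2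
  have hKc : Continuous fun s : ℝ => Kc (hh δ) (0 - 2 * sh δ * s) 0 ξ :=
    (Kc_continuous hh0 0).comp (by fun_prop : Continuous fun s : ℝ => (0 - 2 * sh δ * s, ξ))
  have hmat : ∀ s ∈ Rng δ, ‖(inner ℂ v (S.U (hh δ) (0 - 2 * sh δ * s) v) : ℂ) -
      Kc (hh δ) (0 - 2 * sh δ * s) 0 ξ‖ ≤ 4 * δ ^ 2000 + δ ^ 1900 := by
    intro s hs
    set t : ℝ := 0 - 2 * sh δ * s with ht
    have hs1 : |s| ≤ 1 / (2 * δ) := abs_le.2 hs
    have ht1 : |t| ≤ kap δ := by
      have h1 : |t| = 2 * sh δ * |s| := by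
        rw [ht, zero_sub, abs_neg, abs_mul, abs_of_pos (by positivity)]
      have h2 : kap δ = 2 * sh δ * (1 / (2 * δ)) := by
        unfold kap sh
        rw [pow_succ δ 39]
        field_simp
      rw [h1, h2]
      exact mul_le_mul_of_nonneg_left hs1 (by positivity)
    have ht2 : |t| ≤ tau δ := by
      unfold tau
      linarith
    have hprod : ∀ a : ℝ, |a| ≤ 2 → |t * a| ≤ 2 * kap δ := fun a ha => by
      rw [abs_mul]
      nlinarith [abs_nonneg t, abs_nonneg a]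
    obtain ⟨e1, e2⟩ := f05_wall (W.sgn1 x) (κ := kap δ) (x := x.1) (y := x.1 + t * ξ.1) hin.1
      hI.1 hκ (by rw [add_sub_cancel_left]; exact hprod _ hξ.1)
    obtain ⟨e3, e4⟩ := f05_wall (W.sgn2 x) (κ := kap δ) (x := x.2) (y := x.2 + t * ξ.2) hin.2
      hI.2 hκ (by rw [add_sub_cancel_left]; exact hprod _ hξ.2)
    have hstp : stp W t (x, ξ) = (x + t • ξ, ξ) := by
      unfold stp
      simp only [e1, e2, e3, e4, one_mul]
      rfl
    have hst := stp_mem G W (ξ := ξ) hxc hfar (t := t) (by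
      have h1 : |t| * max |ξ.1| |ξ.2| ≤ kap δ * 2 :=
        mul_le_mul ht1 hmax (le_max_of_le_left (abs_nonneg _)) hκ.le
      linarith)
    have hd : dist (stp W t (x, ξ)).1 x ≤ 2 * kap δ := by
      have h1 : |t| * max |ξ.1| |ξ.2| ≤ kap δ * 2 :=
        mul_le_mul ht1 hmax (le_max_of_le_left (abs_nonneg _)) hκ.le
      linarith [hst.2]
    have hY : (stp W t (x, ξ)).1 ∈ G.Y δ := by
      refine ⟨hst.1, fun u hu => ?_⟩
      have h1 := hx.2 u hu
      have h2 := dist_triangle x (stp W t (x, ξ)).1 u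
      rw [dist_comm x (stp W t (x, ξ)).1] at h2
      linarith
    have h1 := hstep W x hxY ξ hξ 0 (by simp) t ht2 hY
    rw [e2, e4, hstp, zero_add] at h1
    rw [hstp] at hY
    have hI' : W.Int (kap δ) x :=
      ⟨fun h => by linarith [hI.1 h], fun h => by linarith [hI.2 h]⟩
    have h2 := hov W x hxY hI' ξ hξ t (ht1.trans hk1) 0 (by rw [add_zero]; exact hY)
    rw [add_zero] at h2
    set v' : HD D := W.v δ (x + t • ξ, ξ) t with hv'
    have h3 : (inner ℂ v (S.U (hh δ) t v) : ℂ) - Kc (hh δ) t 0 ξ =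
        inner ℂ v (S.U (hh δ) t v - ((((1 : ℝ) * 1 : ℝ) : ℂ) * phs δ t ξ) • v') +
          (phs δ t ξ * inner ℂ v v' - Kc (hh δ) t 0 ξ) := by
      rw [inner_sub_right, inner_smul_right]
      push_cast
      ring
    rw [h3]
    refine (norm_add_le _ _).trans (add_le_add ?_ h2)
    refine (norm_inner_le_norm _ _).trans ?_
    exact mul_le_mul hvn h1 (norm_nonneg _) (by norm_num)
  have h1 := havg v hvn 0 _ (fun s => Kc (hh δ) (0 - 2 * sh δ * s) 0 ξ) hKc hmat
  rw [f05_gq S hh0 v] at h1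
  have hJ := J0_avg hδ0 ξ
  set w : ℝ → ℂ := fun s => (gau s : ℂ) * Complex.exp (-(s / sh δ : ℝ) * Complex.I) *
    Kc (hh δ) (0 - 2 * sh δ * s) 0 ξ with hw
  have hwn : ∀ s, ‖w s‖ ≤ gau s := fun s => by
    have h2 : (-(s / sh δ : ℝ) * Complex.I : ℂ) = ((-(s / sh δ) : ℝ) : ℂ) * Complex.I := by
      push_cast
      ring
    rw [hw]
    simp only
    rw [h2, norm_mul, norm_mul, Complex.norm_exp_ofReal_mul_I, mul_one, Complex.norm_real,
      Real.norm_of_nonneg (f05_gau_nonneg s)]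
    exact mul_le_of_le_one_right (f05_gau_nonneg s) (Kc_le hh0 _ _ _).2
  have hwc : Continuous w := by
    have h1 := f05_gau_cont
    rw [hw]
    exact (by fun_prop : Continuous fun s : ℝ =>
      (gau s : ℂ) * Complex.exp (-(s / sh δ : ℝ) * Complex.I)).mul hKc
  have hwi : Integrable w :=
    Integrable.mono' f05_gau_int hwc.aestronglyMeasurable (Eventually.of_forall hwn)
  rw [← integral_add_compl (f05_meas δ) hwi] at hJ
  have h2 : ‖∫ s in (Rng δ)ᶜ, w s‖ ≤ δ ^ 1600 :=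
    (norm_integral_le_of_norm_le f05_gau_int.integrableOn
      (Eventually.of_forall hwn)).trans htail
  have h3 : |S.gq (hh δ) v - J0 (hh δ) ξ| = ‖((S.gq (hh δ) v : ℂ) - ∫ s in Rng δ, w s) -
      ∫ s in (Rng δ)ᶜ, w s‖ := by
    rw [sub_sub, hJ, ← Complex.ofReal_sub, Complex.norm_real, Real.norm_eq_abs]
  rw [h3]
  refine (norm_sub_le _ _).trans ((add_le_add h1 h2).trans ?_)
  have hp : ∀ n : ℕ, 1 ≤ n → δ ^ (1400 + n) ≤ δ ^ 1400 * (1 / 4096) := fun n hn => by
    rw [pow_add]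
    refine mul_le_mul_of_nonneg_left ?_ (by positivity)
    calc δ ^ n ≤ δ ^ 1 := pow_le_pow_of_le_one hδ0.le (by linarith) hn
      _ ≤ 1 / 4096 := by rw [pow_one]; exact hδ2
  have h4 := hp 100 (by norm_num)
  have h5 := hp 200 (by norm_num)
  have h6 := hp 500 (by norm_num)
  have h7 := hp 600 (by norm_num)
  norm_num only at h4 h5 h6 h7
  have h8 : (0 : ℝ) < δ ^ 1400 := by positivity
  linarith

end

end Pool.Agent.MP4eed4eR
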