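import Pool.Agent.Lib.MP_4eed4e_an_R.A12

/-!
MP_4eed4e_an, project R, block A (geometry and billiard). Statements exported to the other blocks.
-/

namespace Pool.Agent.MP4eed4eR

open MeasureTheory Set Filter Topology Metric

noncomputable section

variable {D : Set P}

/-- The area of the points near a wall is small. -/
theorem near_wall_area (G : Geo D) : ∃ C : ℝ, ∀ ρ : ℝ, 0 < ρ → ρ ≤ 1 →
    volume {x : P | x ∈ D ∧ ((∃ a ∈ G.A, |a - x.1| < ρ) ∨ ∃ b ∈ G.B, |b - x.2| < ρ)} ≤
      ENNReal.ofReal (C * ρ) :=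
  BlA.near_wall_area G

end

end Pool.Agent.MP4eed4eR
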