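import Pool.Agent.Lib.MP_4eed4e_an_R.F05
import Pool.Agent.Lib.MP_4eed4e_an_R.OutA4

/-!
MP_4eed4e_an, project R, module F06: the momenta off the window.
-/

namespace Pool.Agent.MP4eed4eR

open MeasureTheory Set Filter Topology Metric

noncomputable section

variable {D : Set P}

private theorem continuous_sq' : Continuous sq := by
  unfold sq; fun_prop

private theorem meas_X (G : Geo D) (δ : ℝ) : MeasurableSet (G.X δ) := by
  have h : G.X δ = D ∩ ⋂ v ∈ G.V, {x : P | th δ ≤ dist x v} := by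
    ext x; simp [Geo.X, Geo.Far]
  rw [h]
  refine G.isOpen.measurableSet.inter ?_
  refine Finset.measurableSet_biInter _ (fun v _ => ?_)
  exact (isClosed_le continuous_const (continuous_id.dist continuous_const)).measurableSet

private theorem meas_Sq2 : MeasurableSet Sq2 := by
  have h1 : IsClosed {ξ : P | |ξ.1| ≤ 2} := isClosed_le (by fun_prop) continuous_const
  have h2 : IsClosed {ξ : P | |ξ.2| ≤ 2} := isClosed_le (by fun_prop) continuous_const
  exact (h1.inter h2).measurableSet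

private theorem meas_Win (δ : ℝ) : MeasurableSet (Win δ) := by
  unfold Win
  exact (isClosed_le ((continuous_sq'.sub continuous_const).abs)
    continuous_const).measurableSet

private theorem meas_N (G : Geo D) (ρ : ℝ) :
    MeasurableSet {x : P | x ∈ D ∧ ((∃ a ∈ G.A, |a - x.1| < ρ) ∨ ∃ b ∈ G.B, |b - x.2| < ρ)} := by
  refine IsOpen.measurableSet ?_
  refine G.isOpen.inter (IsOpen.union ?_ ?_)
  · have h : {x : P | ∃ a ∈ G.A, |a - x.1| < ρ} = ⋃ a ∈ G.A, {x : P | |a - x.1| < ρ} := by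
      ext x; simp
    change IsOpen {x : P | ∃ a ∈ G.A, |a - x.1| < ρ}
    rw [h]
    exact isOpen_biUnion (fun a _ => isOpen_lt (by fun_prop) continuous_const)
  · have h : {x : P | ∃ a ∈ G.B, |a - x.2| < ρ} = ⋃ a ∈ G.B, {x : P | |a - x.2| < ρ} := by
      ext x; simp
    change IsOpen {x : P | ∃ a ∈ G.B, |a - x.2| < ρ}
    rw [h]
    exact isOpen_biUnion (fun a _ => isOpen_lt (by fun_prop) continuous_const)

private theorem vol_fin (G : Geo D) : volume (D ×ˢ Sq2) ≠ ⊤ := by
  have h1 : volume D ≠ ⊤ := G.isBounded.measure_lt_top.ne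
  have h2 : volume Sq2 ≠ ⊤ := by
    have hb : Bornology.IsBounded Sq2 := by
      refine (isBounded_iff_forall_norm_le).2 ⟨2, fun x hx => ?_⟩
      rw [Prod.norm_def]
      exact max_le hx.1 hx.2
    exact hb.measure_lt_top.ne
  change (volume.prod volume) (D ×ˢ Sq2) ≠ ⊤
  rw [Measure.prod_prod]
  exact ENNReal.mul_ne_top h1 h2

/-- The momenta of `Sq2` off the window contribute `O(δ h)`. Proof. Let `N` be the set of the
points of `D` within `4 κ` of a line of `G.A` or `G.B`; `volume N ≤ 4 C κ` (`near_wall_area`; `N` is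
open, so measurable; `4 κ ≤ 1`). The region is contained in `N × (Sq2 \ Win) ∪ (D \ N) × (Sq2 \
Win)`. On the first part `gq ≤ C h / (sq ξ - 1)²` (`low_le`; `G.X δ ⊆ G.Y δ`) and
`∫⁻ ξ, |sq ξ - 1| > θ, ofReal (1 / (sq ξ - 1)²) ≤ C / θ` (`lint_off`), so it contributes at most
`C κ h / θ = C δ h` (`lintegral` over a product set, `Measure.prod_restrict` and `lintegral_prod`
or `lintegral_prod_mul`). For `x ∈ X \ N` we have `W.Int (4 κ) x` (the walls lie on lines of `G.A`,
`G.B`: `W.near1`, `W.near2`), so `gq ≤ J0 + δ ^ 1400 ≤ δ ^ 1500 + δ ^ 1400` (`gq_free`, `J0_off`),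
and the region has finite volume `≤ 16 * volume D`. -/
theorem off_small (S : Spec D) (G : Geo D) : ∃ C : ℝ, ∀ᶠ δ in 𝓝[>] (0 : ℝ),
    ∀ W : Walls G (th δ / 4), ∫⁻ z in {z : P × P | z.1 ∈ G.X δ ∧ z.2 ∈ Sq2 ∧ z.2 ∉ Win δ},
      ENNReal.ofReal (S.gq (hh δ) (W.v δ z 0)) ≤ ENNReal.ofReal (C * (δ * hh δ)) := by
  obtain ⟨C1, hC1⟩ := near_wall_area G
  obtain ⟨C2, hC2⟩ := low_le S G
  obtain ⟨C3, hC3, hC3'⟩ := lint_off
  refine ⟨4 * |C1| * |C2| * C3 + 2 * (volume (D ×ˢ Sq2)).toReal, ?_⟩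
  have hev : ∀ᶠ δ in 𝓝[>] (0 : ℝ), 0 < δ ∧ δ ≤ 1 / 4 :=
    (eventually_mem_nhdsWithin.and (eventually_nhdsWithin_of_eventually_nhds
      (eventually_le_nhds (by norm_num))))
  filter_upwards [hC2, gq_free S G, J0_off, hev] with δ h2 h4 h5 h0 W
  obtain ⟨hδ, hδ1⟩ := h0
  have hth : 0 < th δ := pow_pos hδ _
  have hth1 : th δ ≤ 1 := pow_le_one₀ hδ.le (by linarith)
  have hhp : 0 < hh δ := pow_pos hδ _
  have hk : 0 < kap δ := pow_pos hδ _
  have hk1 : 4 * kap δ ≤ 1 := by
    have : kap δ ≤ 1 / 4 := by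
      unfold kap
      calc δ ^ 39 ≤ δ ^ 1 := pow_le_pow_of_le_one hδ.le (by linarith) (by norm_num)
        _ ≤ 1 / 4 := by simpa using hδ1
    linarith
  set N : Set P := {x : P | x ∈ D ∧ ((∃ a ∈ G.A, |a - x.1| < 4 * kap δ) ∨
    ∃ b ∈ G.B, |b - x.2| < 4 * kap δ)} with hN
  have hNm : MeasurableSet N := meas_N G _
  have hNv : volume N ≤ ENNReal.ofReal (C1 * (4 * kap δ)) := hC1 _ (by linarith) hk1
  set E : Set P := {ξ : P | th δ ≤ |sq ξ - 1|} with hE
  have hEm : MeasurableSet E := by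
    rw [hE]
    exact (isClosed_le continuous_const
      ((continuous_sq'.sub continuous_const).abs)).measurableSet
  set R : Set (P × P) := {z : P × P | z.1 ∈ G.X δ ∧ z.2 ∈ Sq2 ∧ z.2 ∉ Win δ} with hR
  have hRm : MeasurableSet R := by
    have : R = (G.X δ) ×ˢ (Sq2 \ Win δ) := by
      ext z; simp [hR]
    rw [this]
    exact (meas_X G δ).prod (meas_Sq2.diff (meas_Win δ))
  have hRs : R ⊆ D ×ˢ Sq2 := fun z hz => ⟨hz.1.1, hz.2.1⟩
  set a : P → ENNReal := N.indicator (fun _ => ENNReal.ofReal (|C2| * hh δ)) with ha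
  set b : P → ENNReal := E.indicator (fun ξ => ENNReal.ofReal (1 / (sq ξ - 1) ^ 2)) with hb
  have ham : Measurable a := measurable_const.indicator hNm
  have hbm : Measurable b := by
    refine Measurable.indicator ?_ hEm
    refine ENNReal.measurable_ofReal.comp ?_
    exact (measurable_const.div ((continuous_sq'.measurable.sub measurable_const).pow_const 2))
  have key : ∀ z ∈ R, ENNReal.ofReal (S.gq (hh δ) (W.v δ z 0)) ≤
      a z.1 * b z.2 + ENNReal.ofReal (δ ^ 1500 + δ ^ 1400) := by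
    rintro ⟨x, ξ⟩ ⟨hx, hξ, hξW⟩
    have hx' : x ∈ G.X δ := hx
    have hξ' : ξ ∈ Sq2 := hξ
    have hlt : th δ < |sq ξ - 1| := by
      simpa [Win] using hξW
    by_cases hxN : x ∈ N
    · have hY : x ∈ G.Y δ := by
        refine ⟨subset_closure hx'.1, fun v hv => ?_⟩
        have := hx'.2 v hv
        linarith
      have h := h2 W x hY ξ hξ'
      have hne : 0 < (sq ξ - 1) ^ 2 := by
        have : sq ξ - 1 ≠ 0 := fun h0 => by
          rw [h0, abs_zero] at hlt; linarith
        positivity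
      have hle : S.gq (hh δ) (W.v δ (x, ξ) 0) ≤ |C2| * hh δ * (1 / (sq ξ - 1) ^ 2) := by
        rw [mul_one_div, le_div_iff₀ hne]
        exact h.trans (mul_le_mul_of_nonneg_right (le_abs_self _) hhp.le)
      have e1 : a x = ENNReal.ofReal (|C2| * hh δ) := by simp [ha, hxN]
      have e2 : b ξ = ENNReal.ofReal (1 / (sq ξ - 1) ^ 2) := by
        have : ξ ∈ E := hlt.le
        simp [hb, this]
      change ENNReal.ofReal (S.gq (hh δ) (W.v δ (x, ξ) 0)) ≤
        a x * b ξ + ENNReal.ofReal (δ ^ 1500 + δ ^ 1400)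
      rw [e1, e2, ← ENNReal.ofReal_mul (by positivity)]
      exact (ENNReal.ofReal_le_ofReal hle).trans le_self_add
    · have hxN' : ∀ (hh : (∃ a ∈ G.A, |a - x.1| < 4 * kap δ) ∨
          ∃ b ∈ G.B, |b - x.2| < 4 * kap δ), False := fun hh => hxN ⟨hx'.1, hh⟩
      have hInt : W.Int (4 * kap δ) x := by
        refine ⟨fun hs => ?_, fun hs => ?_⟩
        · by_contra hc
          exact hxN' (Or.inl ⟨_, (W.near1 x hs).1, not_le.1 hc⟩)
        · by_contra hc
          exact hxN' (Or.inr ⟨_, (W.near2 x hs).1, not_le.1 hc⟩)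
      have h := h4 W x hx' hInt ξ hξ'
      have hJ := h5 ξ hξ' hξW
      have hle : S.gq (hh δ) (W.v δ (x, ξ) 0) ≤ δ ^ 1500 + δ ^ 1400 := by
        have := (abs_le.1 h).2
        linarith
      exact (ENNReal.ofReal_le_ofReal hle).trans le_add_self
  have s1 : ∫⁻ z in R, a z.1 * b z.2 ≤
      ENNReal.ofReal (4 * |C1| * |C2| * C3 * (δ * hh δ)) := by
    calc ∫⁻ z in R, a z.1 * b z.2 ≤ ∫⁻ z : P × P, a z.1 * b z.2 :=
          setLIntegral_le_lintegral _ _
      _ = (∫⁻ x, a x) * ∫⁻ ξ, b ξ := by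
          change ∫⁻ z, a z.1 * b z.2 ∂(volume.prod volume) = _
          exact lintegral_prod_mul ham.aemeasurable hbm.aemeasurable
      _ ≤ (ENNReal.ofReal (|C2| * hh δ) * ENNReal.ofReal (|C1| * (4 * kap δ))) *
          ENNReal.ofReal (C3 / th δ) := by
          gcongr
          · rw [ha, lintegral_indicator hNm, setLIntegral_const]
            gcongr
            exact hNv.trans (ENNReal.ofReal_le_ofReal
              (mul_le_mul_of_nonneg_right (le_abs_self _) (by positivity)))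
          · rw [hb, lintegral_indicator hEm]
            exact hC3' _ hth hth1
      _ = ENNReal.ofReal (4 * |C1| * |C2| * C3 * (δ * hh δ)) := by
          rw [← ENNReal.ofReal_mul (by positivity), ← ENNReal.ofReal_mul (by positivity)]
          congr 1
          have : kap δ = δ * th δ := by unfold kap th; ring
          rw [this]
          field_simp
  have s2 : ∫⁻ _z in R, ENNReal.ofReal (δ ^ 1500 + δ ^ 1400) ≤
      ENNReal.ofReal (2 * (volume (D ×ˢ Sq2)).toReal * (δ * hh δ)) := by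
    rw [setLIntegral_const]
    calc ENNReal.ofReal (δ ^ 1500 + δ ^ 1400) * volume R ≤
          ENNReal.ofReal (2 * (δ * hh δ)) * volume (D ×ˢ Sq2) := by
          gcongr
          have e : δ * hh δ = δ ^ 81 := by unfold hh; ring
          rw [e]
          have i1 : δ ^ 1500 ≤ δ ^ 81 := pow_le_pow_of_le_one hδ.le (by linarith) (by norm_num)
          have i2 : δ ^ 1400 ≤ δ ^ 81 := pow_le_pow_of_le_one hδ.le (by linarith) (by norm_num)
          linarith
      _ = ENNReal.ofReal (2 * (δ * hh δ)) *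
          ENNReal.ofReal (volume (D ×ˢ Sq2)).toReal := by
          rw [ENNReal.ofReal_toReal (vol_fin G)]
      _ = _ := by
          rw [← ENNReal.ofReal_mul (by positivity)]
          congr 1; ring
  calc ∫⁻ z in R, ENNReal.ofReal (S.gq (hh δ) (W.v δ z 0)) ≤
        ∫⁻ z in R, (a z.1 * b z.2 + ENNReal.ofReal (δ ^ 1500 + δ ^ 1400)) :=
        setLIntegral_mono' hRm key
    _ = (∫⁻ z in R, a z.1 * b z.2) + ∫⁻ _z in R, ENNReal.ofReal (δ ^ 1500 + δ ^ 1400) :=
        lintegral_add_right _ measurable_const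
    _ ≤ ENNReal.ofReal (4 * |C1| * |C2| * C3 * (δ * hh δ)) +
        ENNReal.ofReal (2 * (volume (D ×ˢ Sq2)).toReal * (δ * hh δ)) := add_le_add s1 s2
    _ = ENNReal.ofReal ((4 * |C1| * |C2| * C3 + 2 * (volume (D ×ˢ Sq2)).toReal) *
        (δ * hh δ)) := by
        rw [← ENNReal.ofReal_add (by positivity) (by positivity)]
        congr 1; ring

end

end Pool.Agent.MP4eed4eR
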