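import Pool.Agent.Lib.MP_4eed4e_an_R.C25
import Pool.Agent.Lib.MP_4eed4e_an_R.FDefs

/-!
MP_4eed4e_an, project R, module F07: the volume of the resonance sets.
-/

namespace Pool.Agent.MP4eed4eR

open MeasureTheory Set Filter Topology Metric

noncomputable section

variable {D : Set P}

private theorem rf_sgn (A : Finset ℝ) (n : ℕ) : ∀ p ∈ Rf A n, p.1 = 1 ∨ p.1 = -1 := by
  induction n with
  | zero =>
    intro p hp
    rw [Rf, Finset.mem_singleton] at hp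
    left
    rw [hp]
  | succ n ih =>
    intro p hp
    rw [Rf, Finset.mem_union] at hp
    rcases hp with hp | hp
    · exact ih p hp
    · rw [Finset.mem_image] at hp
      obtain ⟨q, hq, rfl⟩ := hp
      rw [Finset.mem_product] at hq
      rcases ih _ hq.1 with h | h
      · right
        simp [h]
      · left
        simp [h]

private theorem sgn_mul {a b : ℝ} (ha : a = 1 ∨ a = -1) (hb : b = 1 ∨ b = -1) :
    a * b = 1 ∨ a * b = -1 := by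
  rcases ha with rfl | rfl <;> rcases hb with rfl | rfl <;> norm_num

/-- The centre of the square of momenta. -/
private def pt (l : ℝ) (γ : P × P) : P :=
  (if γ.1.1 = 1 then -(γ.2.1 / l) else 0, if γ.1.2 = 1 then -(γ.2.2 / l) else 0)

private theorem ev01 : ∀ᶠ δ in 𝓝[>] (0 : ℝ), δ ∈ Ioo (0 : ℝ) 1 :=
  Ioo_mem_nhdsGT one_pos

private theorem ev_th (K : ℝ) {d : ℝ} (hd : 0 < d) : ∀ᶠ δ in 𝓝[>] (0 : ℝ), K * th δ < d := by
  have h1 : Tendsto (fun δ : ℝ => K * th δ) (𝓝[>] 0) (𝓝 0) := by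
    have h2 : Continuous fun δ : ℝ => K * th δ := by
      unfold th
      fun_prop
    have h3 := h2.tendsto 0
    have h4 : K * th 0 = 0 := by simp [th]
    rw [h4] at h3
    exact h3.mono_left nhdsWithin_le_nhds
  exact h1.eventually (gt_mem_nhds hd)

private theorem ev_half : ∀ᶠ δ in 𝓝[>] (0 : ℝ), th δ < 1 / 2 := by
  filter_upwards [ev_th 1 (d := 1 / 2) (by norm_num)] with δ hδ
  rwa [one_mul] at hδ

private theorem kap_le {δ : ℝ} (hδ : δ ∈ Ioo (0 : ℝ) 1) :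
    0 ≤ kap δ ∧ kap δ ≤ th δ ∧ th δ ≤ 1 ∧ kap δ ≤ 1 := by
  have h0 : 0 ≤ kap δ := pow_nonneg hδ.1.le _
  have h1 : kap δ ≤ th δ := pow_le_pow_of_le_one hδ.1.le hδ.2.le (by norm_num)
  have h2 : th δ ≤ 1 := pow_le_one₀ hδ.1.le hδ.2.le
  exact ⟨h0, h1, h2, h1.trans h2⟩

private theorem comp_le {k : ℝ} (hk : 0 ≤ k) {p q : P} (h : sq p + sq q ≤ k ^ 2) :
    |p.1| ≤ k ∧ |p.2| ≤ k ∧ |q.1| ≤ k ∧ |q.2| ≤ k := by
  unfold sq at h
  have h1 := sq_nonneg p.1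
  have h2 := sq_nonneg p.2
  have h3 := sq_nonneg q.1
  have h4 := sq_nonneg q.2
  exact ⟨abs_le_of_sq_le_sq (by linarith) hk, abs_le_of_sq_le_sq (by linarith) hk,
    abs_le_of_sq_le_sq (by linarith) hk, abs_le_of_sq_le_sq (by linarith) hk⟩

private theorem win_le {δ : ℝ} (hδ : δ ∈ Ioo (0 : ℝ) 1) {ξ : P} (hW : |sq ξ - 1| ≤ th δ) :
    |ξ.1| ≤ 2 ∧ |ξ.2| ≤ 2 := by
  have h1 := (kap_le hδ).2.2.1
  have h2 := (abs_le.1 hW).2
  unfold sq at h2
  have h3 := sq_nonneg ξ.1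
  have h4 := sq_nonneg ξ.2
  exact ⟨abs_le_of_sq_le_sq (by linarith) (by norm_num),
    abs_le_of_sq_le_sq (by linarith) (by norm_num)⟩

private theorem one_comp {g x ξ c t l k : ℝ} (hg : g = 1 ∨ g = -1) (hl : 0 < l) (hk : 0 ≤ k)
    (ht : |t - l| ≤ k) (hξ : |ξ| ≤ 2) (h1 : |x - (g * (x + t * ξ) + c)| ≤ k)
    (h2 : |ξ - g * ξ| ≤ k) : |ξ - (if g = 1 then -(c / l) else 0)| ≤ (3 / l + 1) * k := by
  have hl3 : 0 ≤ 3 / l * k := by positivity
  rcases hg with rfl | rfl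
  · rw [if_pos rfl]
    have h3 : |t * ξ + c| ≤ k := by
      have h4 : x - (1 * (x + t * ξ) + c) = -(t * ξ + c) := by ring
      rwa [h4, abs_neg] at h1
    have h5 : |(t - l) * ξ| ≤ k * 2 := by
      rw [abs_mul]
      exact mul_le_mul ht hξ (abs_nonneg _) hk
    have h6 : |l * ξ + c| ≤ 3 * k := by
      have h7 : l * ξ + c = (t * ξ + c) - (t - l) * ξ := by ring
      rw [h7]
      exact (abs_sub _ _).trans (by linarith)
    have h8 : ξ - -(c / l) = (l * ξ + c) / l := by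
      field_simp
      ring
    rw [h8, abs_div, abs_of_pos hl]
    calc |l * ξ + c| / l ≤ 3 * k / l := by gcongr
      _ = 3 / l * k := by ring
      _ ≤ (3 / l + 1) * k := by linarith
  · have h9 : (-1 : ℝ) ≠ 1 := by norm_num
    rw [if_neg h9, sub_zero]
    have h3 : ξ - -1 * ξ = 2 * ξ := by ring
    rw [h3, abs_mul, abs_of_pos (by norm_num : (0 : ℝ) < 2)] at h2
    have h4 := abs_nonneg ξ
    linarith

private theorem res_data {Γ : Finset (P × P)} (hΓ : Lin1 Γ) {l : ℝ} (hl : 0 < l) {δ : ℝ}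
    (hδ : δ ∈ Ioo (0 : ℝ) 1) {x ξ : P} (h : (x, ξ) ∈ Res Γ δ l) : ∃ γ ∈ Γ,
      (∃ t : ℝ, |t - l| ≤ kap δ ∧ |(x - app γ (x + t • ξ)).1| ≤ kap δ ∧
        |(x - app γ (x + t • ξ)).2| ≤ kap δ ∧ |(ξ - lin γ ξ).1| ≤ kap δ ∧
        |(ξ - lin γ ξ).2| ≤ kap δ) ∧ ξ ∈ closedBall (pt l γ) ((3 / l + 1) * kap δ) := by
  obtain ⟨hW, t, ht, γ, hγ, hle⟩ := h
  have hk := (kap_le hδ).1
  have hc := comp_le hk hle
  have hξ := win_le hδ hW
  refine ⟨γ, hγ, ⟨t, ht, hc⟩, ?_⟩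
  rw [mem_closedBall, Prod.dist_eq, max_le_iff, Real.dist_eq, Real.dist_eq]
  exact ⟨one_comp (hΓ γ hγ).1 hl hk ht hξ.1 hc.1 hc.2.2.1,
    one_comp (hΓ γ hγ).2 hl hk ht hξ.2 hc.2.1 hc.2.2.2⟩

private theorem vol_cb (p : P) {r : ℝ} (hr : 0 ≤ r) :
    volume (closedBall p r) = ENNReal.ofReal ((2 * r) ^ 2) := by
  rw [← closedBall_prod_same p.1 p.2 r, Measure.volume_eq_prod, Measure.prod_prod,
    Real.volume_closedBall, Real.volume_closedBall, ← ENNReal.ofReal_mul (by linarith), pow_two]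

private theorem bdd_box {B : Set P} (hB : Bornology.IsBounded B) :
    ∃ M : ℝ, 0 ≤ M ∧ ∀ x ∈ B, |x.1| ≤ M ∧ |x.2| ≤ M := by
  obtain ⟨C, hC⟩ := isBounded_iff_forall_norm_le.1 hB
  refine ⟨max C 0, le_max_right _ _, fun x hx => ?_⟩
  have h1 := (hC x hx).trans (le_max_left C 0)
  exact ⟨(norm_fst_le x).trans h1, (norm_snd_le x).trans h1⟩

private theorem vol_s1 {M r : ℝ} (hr : 0 ≤ r) (c : ℝ) :
    volume {x : P | |x.2| ≤ M ∧ |2 * x.1 - c| ≤ r} ≤ ENNReal.ofReal (2 * M * r) := by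
  have h1 : {x : P | |x.2| ≤ M ∧ |2 * x.1 - c| ≤ r} ⊆
      closedBall (c / 2) (r / 2) ×ˢ closedBall 0 M := by
    rintro x ⟨h1, h2⟩
    refine ⟨?_, ?_⟩
    · rw [mem_closedBall, Real.dist_eq]
      have h3 : x.1 - c / 2 = (2 * x.1 - c) / 2 := by ring
      rw [h3, abs_div, abs_of_pos (by norm_num : (0 : ℝ) < 2)]
      linarith
    · rw [mem_closedBall, dist_zero_right, Real.norm_eq_abs]
      exact h1
  refine (measure_mono h1).trans ?_
  rw [Measure.volume_eq_prod, Measure.prod_prod, Real.volume_closedBall, Real.volume_closedBall,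
    ← ENNReal.ofReal_mul (by linarith)]
  exact ENNReal.ofReal_le_ofReal (le_of_eq (by ring))

private theorem vol_s2 {M r : ℝ} (hM : 0 ≤ M) (c : ℝ) :
    volume {x : P | |x.1| ≤ M ∧ |2 * x.2 - c| ≤ r} ≤ ENNReal.ofReal (2 * M * r) := by
  have h1 : {x : P | |x.1| ≤ M ∧ |2 * x.2 - c| ≤ r} ⊆
      closedBall 0 M ×ˢ closedBall (c / 2) (r / 2) := by
    rintro x ⟨h1, h2⟩
    refine ⟨?_, ?_⟩
    · rw [mem_closedBall, dist_zero_right, Real.norm_eq_abs]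
      exact h1
    · rw [mem_closedBall, Real.dist_eq]
      have h3 : x.2 - c / 2 = (2 * x.2 - c) / 2 := by ring
      rw [h3, abs_div, abs_of_pos (by norm_num : (0 : ℝ) < 2)]
      linarith
  refine (measure_mono h1).trans ?_
  rw [Measure.volume_eq_prod, Measure.prod_prod, Real.volume_closedBall, Real.volume_closedBall,
    ← ENNReal.ofReal_mul (by linarith)]
  exact ENNReal.ofReal_le_ofReal (le_of_eq (by ring))

/-- The strip of the centres that resonate with `γ`. -/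
private def strip (M r : ℝ) (γ : P × P) : Set P :=
  if γ.1.1 = 1 then {x : P | |x.1| ≤ M ∧ |2 * x.2 - γ.2.2| ≤ r}
  else {x : P | |x.2| ≤ M ∧ |2 * x.1 - γ.2.1| ≤ r}

private theorem vol_strip {M r : ℝ} (hM : 0 ≤ M) (hr : 0 ≤ r) (γ : P × P) :
    volume (strip M r γ) ≤ ENNReal.ofReal (2 * M * r) := by
  unfold strip
  split_ifs
  · exact vol_s2 hM _
  · exact vol_s1 hr _

private theorem strip_comp {l δ : ℝ} (hl : 0 < l) (hδ : δ ∈ Ioo (0 : ℝ) 1) {t x ξ c g : ℝ}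
    (ht : |t - l| ≤ kap δ) (hg : g = -1) (h1 : |x - (g * (x + t * ξ) + c)| ≤ kap δ)
    (h2 : |ξ - g * ξ| ≤ kap δ) : |2 * x - c| ≤ (l + 2) * kap δ := by
  obtain ⟨hk0, -, -, hk1⟩ := kap_le hδ
  subst hg
  have h3 : ξ - -1 * ξ = 2 * ξ := by ring
  rw [h3, abs_mul, abs_of_pos (by norm_num : (0 : ℝ) < 2)] at h2
  have h4 : |t| ≤ l + 1 := by
    have h5 := abs_le.1 ht
    rw [abs_le]
    constructor <;> linarith [h5.1, h5.2]
  have h6 : |t * ξ| ≤ (l + 1) * kap δ := by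
    rw [abs_mul]
    exact mul_le_mul h4 (by linarith [abs_nonneg ξ]) (abs_nonneg _) (by linarith)
  have h7 : 2 * x - c = (x - (-1 * (x + t * ξ) + c)) - t * ξ := by ring
  rw [h7]
  refine (abs_sub _ _).trans ?_
  linarith

private theorem no_minus {δ : ℝ} (hδ : δ ∈ Ioo (0 : ℝ) 1) (hδ3 : th δ < 1 / 2) {γ : P × P}
    (g1 : γ.1.1 = -1) (g2 : γ.1.2 = -1) {ξ : P} (hW : |sq ξ - 1| ≤ th δ)
    (h5 : |(ξ - lin γ ξ).1| ≤ kap δ) (h6 : |(ξ - lin γ ξ).2| ≤ kap δ) : False := by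
  obtain ⟨hk0, hkt, -, hk1⟩ := kap_le hδ
  have e1 : (ξ - lin γ ξ).1 = 2 * ξ.1 := by
    change ξ.1 - γ.1.1 * ξ.1 = _
    rw [g1]
    ring
  have e2 : (ξ - lin γ ξ).2 = 2 * ξ.2 := by
    change ξ.2 - γ.1.2 * ξ.2 = _
    rw [g2]
    ring
  rw [e1] at h5
  rw [e2] at h6
  have h7 : |2 * ξ.1| ≤ 1 / 2 := h5.trans (hkt.trans hδ3.le)
  have h8 : |2 * ξ.2| ≤ 1 / 2 := h6.trans (hkt.trans hδ3.le)
  have h9 := (abs_le.1 hW).1
  unfold sq at h9
  have h10 : (2 * ξ.1) ^ 2 ≤ (1 / 2) ^ 2 := sq_le_sq' (abs_le.1 h7).1 (abs_le.1 h7).2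
  have h11 : (2 * ξ.2) ^ 2 ≤ (1 / 2) ^ 2 := sq_le_sq' (abs_le.1 h8).1 (abs_le.1 h8).2
  nlinarith

private theorem no_trans {l δ : ℝ} (hl : 0 < l) (hδ : δ ∈ Ioo (0 : ℝ) 1) {γ : P × P}
    (g1 : γ.1.1 = 1) (g2 : γ.1.2 = 1) {x ξ : P} {t : ℝ} (ht : |t - l| ≤ kap δ)
    (hW : |sq ξ - 1| ≤ th δ) (hc : |(x - app γ (x + t • ξ)).1| ≤ kap δ ∧
        |(x - app γ (x + t • ξ)).2| ≤ kap δ ∧ |(ξ - lin γ ξ).1| ≤ kap δ ∧
        |(ξ - lin γ ξ).2| ≤ kap δ) :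
    |sq γ.2 - l ^ 2| ≤ ((l + 1) ^ 2 + (2 * l + 1) + 8 * (l + 1) + 2) * th δ := by
  obtain ⟨hk0, hkt, ht1, hk1⟩ := kap_le hδ
  have hξ := win_le hδ hW
  obtain ⟨h1, h2, -, -⟩ := hc
  have e1 : (x - app γ (x + t • ξ)).1 = -(t * ξ.1 + γ.2.1) := by
    change x.1 - (γ.1.1 * (x.1 + t * ξ.1) + γ.2.1) = _
    rw [g1]
    ring
  have e2 : (x - app γ (x + t • ξ)).2 = -(t * ξ.2 + γ.2.2) := by
    change x.2 - (γ.1.2 * (x.2 + t * ξ.2) + γ.2.2) = _
    rw [g2]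
    ring
  rw [e1, abs_neg] at h1
  rw [e2, abs_neg] at h2
  set a := t * ξ.1 + γ.2.1 with ha
  set b := t * ξ.2 + γ.2.2 with hb
  have h3 : sq γ.2 - l ^ 2 = t ^ 2 * (sq ξ - 1) + (t + l) * (t - l) -
      2 * (t * (ξ.1 * a)) - 2 * (t * (ξ.2 * b)) + a ^ 2 + b ^ 2 := by
    rw [ha, hb]
    unfold sq
    ring
  have h4 : |t| ≤ l + 1 := by
    have h5 := abs_le.1 ht
    rw [abs_le]
    constructor <;> linarith [h5.1, h5.2]
  have hθ : 0 ≤ th δ := hk0.trans hkt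
  have b1 : |t ^ 2 * (sq ξ - 1)| ≤ (l + 1) ^ 2 * th δ := by
    rw [abs_mul, abs_pow]
    exact mul_le_mul (pow_le_pow_left₀ (abs_nonneg _) h4 2) hW (abs_nonneg _) (by positivity)
  have b2 : |(t + l) * (t - l)| ≤ (2 * l + 1) * th δ := by
    rw [abs_mul]
    refine mul_le_mul ?_ (ht.trans hkt) (abs_nonneg _) (by linarith)
    refine (abs_add_le _ _).trans ?_
    rw [abs_of_pos hl]
    linarith
  have b3 : |t * (ξ.1 * a)| ≤ (l + 1) * (2 * th δ) := by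
    rw [abs_mul, abs_mul]
    exact mul_le_mul h4 (mul_le_mul hξ.1 (h1.trans hkt) (abs_nonneg _) (by norm_num))
      (by positivity) (by linarith)
  have b4 : |t * (ξ.2 * b)| ≤ (l + 1) * (2 * th δ) := by
    rw [abs_mul, abs_mul]
    exact mul_le_mul h4 (mul_le_mul hξ.2 (h2.trans hkt) (abs_nonneg _) (by norm_num))
      (by positivity) (by linarith)
  have b5 : a ^ 2 ≤ th δ := by
    have h6 : |a| ^ 2 ≤ th δ := by
      calc |a| ^ 2 = |a| * |a| := by ring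
        _ ≤ kap δ * 1 := mul_le_mul h1 (h1.trans hk1) (abs_nonneg _) hk0
        _ ≤ th δ := by linarith
    rwa [sq_abs] at h6
  have b6 : b ^ 2 ≤ th δ := by
    have h6 : |b| ^ 2 ≤ th δ := by
      calc |b| ^ 2 = |b| * |b| := by ring
        _ ≤ kap δ * 1 := mul_le_mul h2 (h2.trans hk1) (abs_nonneg _) hk0
        _ ≤ th δ := by linarith
    rwa [sq_abs] at h6
  rw [h3]
  have c1 := abs_le.1 b1
  have c2 := abs_le.1 b2
  have c3 := abs_le.1 b3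
  have c4 := abs_le.1 b4
  have d1 := sq_nonneg a
  have d2 := sq_nonneg b
  rw [abs_le]
  constructor <;> linarith [c1.1, c1.2, c2.1, c2.2, c3.1, c3.2, c4.1, c4.2]

/-- Induction on `n` for `Rf` (all first components are `±1`), then unfold `Geo.Gam`, `Geo.Img`. -/
theorem lin1_gam (G : Geo D) (T : ℝ) : Lin1 (G.Gam T) ∧ Lin1 (G.Img T) := by
  have h1 : Lin1 (G.Gam T) := by
    intro γ hγ
    rw [Geo.Gam, Finset.mem_filter, Finset.mem_image] at hγ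
    obtain ⟨⟨p, hp, rfl⟩, -⟩ := hγ
    rw [Finset.mem_product] at hp
    have h2 := rf_sgn _ _ _ hp.1
    have h3 := rf_sgn _ _ _ hp.2
    exact ⟨h2, h3⟩
  refine ⟨h1, ?_⟩
  intro γ hγ
  rw [Geo.Img, Finset.mem_image] at hγ
  obtain ⟨p, hp, rfl⟩ := hγ
  rw [Finset.mem_product, Finset.mem_product] at hp
  have h2 := h1 _ hp.2
  have h3 := rf_sgn _ _ _ hp.1.1
  have h4 := rf_sgn _ _ _ hp.1.2
  exact ⟨sgn_mul h3 h2.1, sgn_mul h4 h2.2⟩

/-- Composition. -/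
theorem app_cmp (j γ : P × P) (y : P) :
    app (cmp j γ) y = app j (app γ y) ∧ lin (cmp j γ) y = lin j (lin γ y) := by
  constructor
  · ext
    · simp only [app, cmp]
      ring
    · simp only [app, cmp]
      ring
  · ext
    · simp only [lin, cmp]
      ring
    · simp only [lin, cmp]
      ring

/-- The momenta that resonate with a given point. Proof: let `γ ∈ Γ`, `|t - l| ≤ κ`. If the `i`-th
sign of `γ` is `1` then `|t ξ_i + c_i| ≤ κ`, so `|l ξ_i + c_i| ≤ 3 κ` (`|ξ_i| ≤ 2` in the window,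
`th ≤ 1`); if it is `-1` then `2 |ξ_i| ≤ κ`. So `ξ` lies in a square (a `closedBall` of `P`) with
radius `(3 / l + 1) κ` about a point depending only on `γ` and `l`; its volume is
`4 (3 / l + 1)² κ²`. Sum over `γ ∈ Γ` (`measure_biUnion_finset_le`). -/
theorem res_fiber {Γ : Finset (P × P)} (hΓ : Lin1 Γ) {l : ℝ} (hl : 0 < l) : ∃ C : ℝ,
    ∀ᶠ δ in 𝓝[>] (0 : ℝ), ∀ x : P,
      volume {ξ : P | (x, ξ) ∈ Res Γ δ l} ≤ ENNReal.ofReal (C * kap δ ^ 2) := by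
  refine ⟨(Γ.card : ℝ) * (4 * (3 / l + 1) ^ 2), ?_⟩
  filter_upwards [ev01] with δ hδ x
  have hk : 0 ≤ kap δ := pow_nonneg hδ.1.le _
  have h1 : {ξ : P | (x, ξ) ∈ Res Γ δ l} ⊆
      ⋃ γ ∈ Γ, closedBall (pt l γ) ((3 / l + 1) * kap δ) := by
    intro ξ hξ
    obtain ⟨γ, hγ, -, hb⟩ := res_data hΓ hl hδ hξ
    exact mem_biUnion (Finset.mem_coe.2 hγ) hb
  refine (measure_mono h1).trans ((measure_biUnion_finset_le _ _).trans ?_)
  refine (Finset.sum_le_card_nsmul _ _ (ENNReal.ofReal ((2 * ((3 / l + 1) * kap δ)) ^ 2))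
    fun γ _ => (vol_cb _ (by positivity)).le).trans ?_
  rw [nsmul_eq_mul, ← ENNReal.ofReal_natCast, ← ENNReal.ofReal_mul (Nat.cast_nonneg _)]
  exact ENNReal.ofReal_le_ofReal (le_of_eq (by ring))

/-- The resonance set is contained in a finite union of products of a set of centres and small
squares of momenta, so its part over a set `N` of centres is small if `N` is small. Proof: the
squares of the previous proof do not depend on `x`; the set in question is contained in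
`⋃ γ ∈ Γ, N ×ˢ closedBall (p γ) ((3 / l + 1) κ)` (`Measure.prod_prod` for the upper bound, valid for
all sets). -/
theorem res_near {Γ : Finset (P × P)} (hΓ : Lin1 Γ) {l : ℝ} (hl : 0 < l) : ∃ C : ℝ, 0 ≤ C ∧
    ∀ᶠ δ in 𝓝[>] (0 : ℝ), ∀ N : Set P, volume {z : P × P | z ∈ Res Γ δ l ∧ z.1 ∈ N} ≤
      ENNReal.ofReal (C * kap δ ^ 2) * volume N := by
  refine ⟨(Γ.card : ℝ) * (4 * (3 / l + 1) ^ 2), by positivity, ?_⟩
  filter_upwards [ev01] with δ hδ N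
  have h1 : {z : P × P | z ∈ Res Γ δ l ∧ z.1 ∈ N} ⊆
      ⋃ γ ∈ Γ, N ×ˢ closedBall (pt l γ) ((3 / l + 1) * kap δ) := by
    rintro ⟨x, ξ⟩ ⟨hξ, hN⟩
    obtain ⟨γ, hγ, -, hb⟩ := res_data hΓ hl hδ hξ
    exact mem_biUnion (Finset.mem_coe.2 hγ) ⟨hN, hb⟩
  refine (measure_mono h1).trans ((measure_biUnion_finset_le _ _).trans ?_)
  have hk : 0 ≤ kap δ := pow_nonneg hδ.1.le _
  have h2 : ∀ γ ∈ Γ, volume (N ×ˢ closedBall (pt l γ) ((3 / l + 1) * kap δ)) ≤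
      volume N * ENNReal.ofReal ((2 * ((3 / l + 1) * kap δ)) ^ 2) := by
    intro γ _
    rw [Measure.volume_eq_prod, Measure.prod_prod, vol_cb _ (by positivity)]
  refine (Finset.sum_le_card_nsmul _ _ _ h2).trans ?_
  rw [nsmul_eq_mul, mul_comm (volume N), ← mul_assoc, ← ENNReal.ofReal_natCast,
    ← ENNReal.ofReal_mul (Nat.cast_nonneg _)]
  refine mul_le_mul_left (ENNReal.ofReal_le_ofReal (le_of_eq (by ring))) _

/-- If no translation has length `l`, the resonance set over a bounded set has volume `O(κ³)`.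
Proof: let `γ ∈ Γ`. Signs `(1, 1)`: `|t ξ + c| ≤ κ` and the window give `| |c| - l | ≤ κ +
|t - l| |ξ| + l ||ξ| - 1| ≤ 4 κ + l θ`, impossible for small `δ` because `sq c ≠ l²` (finitely many
`c`). Signs `(-1, -1)`: `4 sq ξ ≤ κ²`, impossible in the window. Signs `(1, -1)`: `2 |ξ_2| ≤ κ` and
`|2 x_2 + t ξ_2 - c_2| ≤ κ`, so `|2 x_2 - c_2| ≤ (l + 2) κ`: `x_2` lies in an interval of length
`(l + 2) κ`, `x_1` in a bounded interval, and `ξ` in a square of radius `(3 / l + 1) κ` as in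
`res_fiber`. Signs `(-1, 1)` are the same with the coordinates exchanged. -/
theorem res_vol {Γ : Finset (P × P)} (hΓ : Lin1 Γ) {l : ℝ} (hl : 0 < l)
    (hne : ∀ c : P, ((1, 1), c) ∈ Γ → sq c ≠ l ^ 2) {B : Set P} (hB : Bornology.IsBounded B) :
    ∃ C : ℝ, ∀ᶠ δ in 𝓝[>] (0 : ℝ), volume {z : P × P | z ∈ Res Γ δ l ∧ z.1 ∈ B} ≤
      ENNReal.ofReal (C * kap δ ^ 3) := by
  obtain ⟨M, hM0, hM⟩ := bdd_box hB
  refine ⟨(Γ.card : ℝ) * ((2 * M) * (l + 2) * (4 * (3 / l + 1) ^ 2)), ?_⟩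
  have hev : ∀ᶠ δ in 𝓝[>] (0 : ℝ), ∀ γ ∈ Γ, γ.1 = (1, 1) →
      ((l + 1) ^ 2 + (2 * l + 1) + 8 * (l + 1) + 2) * th δ < |sq γ.2 - l ^ 2| := by
    rw [Filter.eventually_all_finset]
    intro γ hγ
    by_cases h1 : γ.1 = (1, 1)
    · have h2 : sq γ.2 ≠ l ^ 2 := hne γ.2 (by rw [← h1]; exact hγ)
      filter_upwards [ev_th ((l + 1) ^ 2 + (2 * l + 1) + 8 * (l + 1) + 2)
        (abs_pos.2 (sub_ne_zero.2 h2))] with δ hδ _
      exact hδ
    · exact Eventually.of_forall fun δ h => absurd h h1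
  filter_upwards [ev01, hev, ev_half] with δ hδ hδ2 hδ3
  have hk : 0 ≤ kap δ := pow_nonneg hδ.1.le _
  have h1 : {z : P × P | z ∈ Res Γ δ l ∧ z.1 ∈ B} ⊆
      ⋃ γ ∈ Γ, strip M ((l + 2) * kap δ) γ ×ˢ closedBall (pt l γ) ((3 / l + 1) * kap δ) := by
    rintro ⟨x, ξ⟩ ⟨hξ, hxB⟩
    obtain ⟨γ, hγ, ⟨t, ht, hc⟩, hb⟩ := res_data hΓ hl hδ hξ
    refine mem_biUnion (Finset.mem_coe.2 hγ) ⟨?_, hb⟩
    have hW : |sq ξ - 1| ≤ th δ := hξ.1
    have hx := hM x hxB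
    rcases (hΓ γ hγ).1 with g1 | g1 <;> rcases (hΓ γ hγ).2 with g2 | g2
    · exfalso
      have h3 := hδ2 γ hγ (Prod.ext g1 g2)
      exact absurd h3 (not_lt.2 (no_trans hl hδ g1 g2 ht hW hc))
    · have h4 := strip_comp hl hδ ht g2 hc.2.1 hc.2.2.2
      unfold strip
      rw [if_pos g1]
      exact ⟨hx.1, h4⟩
    · have h4 := strip_comp hl hδ ht g1 hc.1 hc.2.2.1
      have h5 : γ.1.1 ≠ 1 := by
        rw [g1]
        norm_num
      unfold strip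
      rw [if_neg h5]
      exact ⟨hx.2, h4⟩
    · exfalso
      have h5 := hc.2.2.1
      have h6 := hc.2.2.2
      exact no_minus hδ hδ3 g1 g2 hW h5 h6
  refine (measure_mono h1).trans ((measure_biUnion_finset_le _ _).trans ?_)
  have h2 : ∀ γ ∈ Γ, volume (strip M ((l + 2) * kap δ) γ ×ˢ
      closedBall (pt l γ) ((3 / l + 1) * kap δ)) ≤
      ENNReal.ofReal (2 * M * ((l + 2) * kap δ) * (2 * ((3 / l + 1) * kap δ)) ^ 2) := by
    intro γ _
    rw [Measure.volume_eq_prod, Measure.prod_prod, vol_cb _ (by positivity),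
      ENNReal.ofReal_mul (by positivity)]
    exact mul_le_mul_left (vol_strip hM0 (by positivity) γ) _
  refine (Finset.sum_le_card_nsmul _ _ _ h2).trans ?_
  rw [nsmul_eq_mul, ← ENNReal.ofReal_natCast, ← ENNReal.ofReal_mul (Nat.cast_nonneg _)]
  exact ENNReal.ofReal_le_ofReal (le_of_eq (by ring))

/-- The points that resonate with a map with a nontrivial linear part. Proof: take for `E` the
closed set of all `x` with `|2 x.1 - γ.2.1| ≤ (l + 2) κ` or `|2 x.2 - γ.2.2| ≤ (l + 2) κ` for some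
`γ ∈ Γ`; `E ∩ B` has volume `O(κ)` (strips). If `x ∉ E` and `γ` has the second sign `-1`, then the
sum of squares `≤ κ²` would give `2 |ξ_2| ≤ κ`, `|2 x_2 + t ξ_2 - c_2| ≤ κ`, so
`|2 x_2 - c_2| ≤ κ + (l + κ) κ ≤ (l + 2) κ`, a contradiction; similarly for the first sign. -/
theorem res_x {Γ : Finset (P × P)} (hΓ : Lin1 Γ) {l : ℝ} (hl : 0 < l) {B : Set P}
    (hB : Bornology.IsBounded B) : ∃ C : ℝ, ∀ᶠ δ in 𝓝[>] (0 : ℝ), ∃ E : Set P,
      MeasurableSet E ∧ volume (E ∩ B) ≤ ENNReal.ofReal (C * kap δ) ∧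
      ∀ x, x ∉ E → ∀ ξ ∈ Win δ, ∀ t : ℝ, |t - l| ≤ kap δ → ∀ γ ∈ Γ, γ.1 ≠ (1, 1) →
        kap δ ^ 2 < sq (x - app γ (x + t • ξ)) + sq (ξ - lin γ ξ) := by
  obtain ⟨M, hM0, hM⟩ := bdd_box hB
  refine ⟨(Γ.card : ℝ) * (2 * (2 * M * (l + 2))), ?_⟩
  filter_upwards [ev01] with δ hδ
  have hk : 0 ≤ kap δ := pow_nonneg hδ.1.le _
  have hk0 : 0 ≤ (l + 2) * kap δ := by positivity
  refine ⟨⋃ γ ∈ Γ, ({x : P | |2 * x.1 - γ.2.1| ≤ (l + 2) * kap δ} ∪
    {x : P | |2 * x.2 - γ.2.2| ≤ (l + 2) * kap δ}), ?_, ?_, ?_⟩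
  · refine Finset.measurableSet_biUnion _ fun γ _ => MeasurableSet.union ?_ ?_
    · exact (isClosed_le (by fun_prop) (by fun_prop)).measurableSet
    · exact (isClosed_le (by fun_prop) (by fun_prop)).measurableSet
  · rw [iUnion₂_inter]
    refine (measure_biUnion_finset_le _ _).trans ?_
    have h2 : ∀ γ ∈ Γ, volume (({x : P | |2 * x.1 - γ.2.1| ≤ (l + 2) * kap δ} ∪
        {x : P | |2 * x.2 - γ.2.2| ≤ (l + 2) * kap δ}) ∩ B) ≤
        ENNReal.ofReal (2 * (2 * M * ((l + 2) * kap δ))) := by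
      intro γ _
      have h3 : ({x : P | |2 * x.1 - γ.2.1| ≤ (l + 2) * kap δ} ∪
          {x : P | |2 * x.2 - γ.2.2| ≤ (l + 2) * kap δ}) ∩ B ⊆
          {x : P | |x.2| ≤ M ∧ |2 * x.1 - γ.2.1| ≤ (l + 2) * kap δ} ∪
            {x : P | |x.1| ≤ M ∧ |2 * x.2 - γ.2.2| ≤ (l + 2) * kap δ} := by
        rintro x ⟨h4 | h4, hxB⟩
        · exact Or.inl ⟨(hM x hxB).2, h4⟩
        · exact Or.inr ⟨(hM x hxB).1, h4⟩
      refine (measure_mono h3).trans ((measure_union_le _ _).trans ?_)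
      rw [two_mul (2 * M * ((l + 2) * kap δ)), ENNReal.ofReal_add (by positivity) (by positivity)]
      exact add_le_add (vol_s1 hk0 _) (vol_s2 hM0 _)
    refine (Finset.sum_le_card_nsmul _ _ _ h2).trans ?_
    rw [nsmul_eq_mul, ← ENNReal.ofReal_natCast, ← ENNReal.ofReal_mul (Nat.cast_nonneg _)]
    exact ENNReal.ofReal_le_ofReal (le_of_eq (by ring))
  · intro x hx ξ _ t ht γ hγ hne
    by_contra hcon
    rw [not_lt] at hcon
    have hc := comp_le hk hcon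
    refine hx (mem_biUnion (Finset.mem_coe.2 hγ) ?_)
    rcases (hΓ γ hγ).1 with g1 | g1
    · rcases (hΓ γ hγ).2 with g2 | g2
      · exact absurd (Prod.ext g1 g2) hne
      · exact Or.inr (strip_comp hl hδ ht g2 hc.2.1 hc.2.2.2)
    · exact Or.inl (strip_comp hl hδ ht g1 hc.1 hc.2.2.1)

end

end Pool.Agent.MP4eed4eR
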