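import Pool.Agent.Lib.MP_4eed4e_an_R.A10

/-!
MP_4eed4e_an, project R, block A (geometry and billiard). Statements exported to the other blocks.
-/

namespace Pool.Agent.MP4eed4eR

open MeasureTheory Set Filter Topology Metric

noncomputable section

variable {D : Set P}

/-- A5: tracking by finitely many affine maps. -/
theorem tracking (G : Geo D) (T : ℝ) :
    ∀ᶠ δ in 𝓝[>] (0 : ℝ), ∀ W : Walls G (th δ / 4), ∀ x ∈ closure D, ∀ ξ : P,
      |ξ.1| ≤ 2 → |ξ.2| ≤ 2 → ∀ k : ℕ, (k : ℝ) * tau δ ≤ T →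
      (∀ j < k, G.Far (th δ / 2) ((stp W (tau δ))^[j] (x, ξ)).1) →
      (∃ γ ∈ G.Gam T, (stp W (tau δ))^[k] (x, ξ) =
        (app γ (x + ((k : ℝ) * tau δ) • ξ), lin γ ξ)) ∧
      (G.Far (th δ / 2) ((stp W (tau δ))^[k] (x, ξ)).1 → ∀ t, |t| ≤ tau δ →
        (k : ℝ) * tau δ + t ≤ T → ∃ γ ∈ G.Gam T, stp W t ((stp W (tau δ))^[k] (x, ξ)) =
        (app γ (x + ((k : ℝ) * tau δ + t) • ξ), lin γ ξ)) :=
  BlA.tracking G T

end

end Pool.Agent.MP4eed4eR
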