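import Pool.Agent.Lib.MP_4eed4e_an_R.C20
import Pool.Agent.Lib.MP_4eed4e_an_R.F05
import Pool.Agent.Lib.MP_4eed4e_an_R.F07
import Pool.Agent.Lib.MP_4eed4e_an_R.OutA3

/-!
MP_4eed4e_an, project R, module F08: non resonant points do not contribute.
-/

namespace Pool.Agent.MP4eed4eR

open MeasureTheory Set Filter Topology Metric

noncomputable section

variable {D : Set P}

private theorem f08_far_mono (G : Geo D) {a b : ℝ} (hab : a ≤ b) {x : P} (h : G.Far b x) :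
    G.Far a x := fun v hv => hab.trans (h v hv)

private theorem f08_small {c : ℝ} (hc : 0 < c) {n : ℕ} (hn : n ≠ 0) :
    ∀ᶠ δ in 𝓝[>] (0 : ℝ), 0 < δ ∧ δ ^ n < c := by
  have h1 : Tendsto (fun δ : ℝ => δ ^ n) (𝓝[>] (0 : ℝ)) (𝓝 0) := by
    have h2 : Tendsto (fun δ : ℝ => δ ^ n) (𝓝 (0 : ℝ)) (𝓝 ((0 : ℝ) ^ n)) :=
      (continuous_pow n).tendsto 0
    rw [zero_pow hn] at h2
    exact h2.mono_left nhdsWithin_le_nhds
  filter_upwards [h1.eventually (gt_mem_nhds hc), self_mem_nhdsWithin] with δ h2 h3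
  exact ⟨h3, h2⟩

private theorem f08_exp {c : ℝ} (hc : 0 < c) (M : ℝ) :
    ∀ᶠ δ in 𝓝[>] (0 : ℝ), M * Real.exp (-(c / δ ^ 2)) ≤ δ ^ 1500 := by
  have h1 : Tendsto (fun δ : ℝ => c / δ ^ 2) (𝓝[>] (0 : ℝ)) atTop := by
    have h2 : Tendsto (fun δ : ℝ => δ ^ 2) (𝓝[>] (0 : ℝ)) (𝓝[>] (0 : ℝ)) := by
      refine tendsto_nhdsWithin_iff.2 ⟨?_, ?_⟩
      · have h3 : Tendsto (fun δ : ℝ => δ ^ 2) (𝓝 (0 : ℝ)) (𝓝 ((0 : ℝ) ^ 2)) :=
          (continuous_pow 2).tendsto 0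
        rw [zero_pow two_ne_zero] at h3
        exact h3.mono_left nhdsWithin_le_nhds
      · filter_upwards [self_mem_nhdsWithin] with δ h3
        have h4 : (0 : ℝ) < δ := h3
        exact pow_pos h4 2
    have h5 := (tendsto_inv_nhdsGT_zero.comp h2).const_mul_atTop hc
    refine h5.congr fun δ => ?_
    simp [div_eq_mul_inv]
  have h2 := (Real.tendsto_pow_mul_exp_neg_atTop_nhds_zero 750).comp h1
  have h3 : (0 : ℝ) < c ^ 750 / (|M| + 1) := by positivity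
  filter_upwards [h2.eventually (gt_mem_nhds h3), self_mem_nhdsWithin] with δ h4 h5
  have h6 : (0 : ℝ) < δ := h5
  simp only [Function.comp_apply] at h4
  rw [lt_div_iff₀ (by positivity), div_pow, div_mul_eq_mul_div, div_mul_eq_mul_div,
    div_lt_iff₀ (by positivity)] at h4
  have h7 : (δ ^ 2) ^ 750 = δ ^ 1500 := by rw [← pow_mul]
  rw [h7, mul_assoc] at h4
  have h8 : Real.exp (-(c / δ ^ 2)) * (|M| + 1) < δ ^ 1500 :=
    lt_of_mul_lt_mul_left h4 (by positivity)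
  have h9 : M * Real.exp (-(c / δ ^ 2)) ≤ Real.exp (-(c / δ ^ 2)) * (|M| + 1) := by
    have := Real.exp_pos (-(c / δ ^ 2))
    have h10 : M ≤ |M| + 1 := (le_abs_self M).trans (by linarith)
    nlinarith
  linarith

private theorem f08_tau {δ : ℝ} (hδ : 0 < δ) : 0 < tau δ := by
  unfold tau th
  positivity

/-- the orbit points of a good orbit -/
private theorem f08_orbit (G : Geo D) {δ : ℝ} (hδ : 0 < δ) (W : Walls G (th δ / 4)) {x ξ : P}
    (hx : x ∈ closure D) (hξ : ξ ∈ Sq2) {n : ℕ}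
    (hF : ∀ j < n, G.Far (th δ) ((stp W (tau δ))^[j] (x, ξ)).1) :
    ((stp W (tau δ))^[n] (x, ξ)).1 ∈ closure D ∧
      |((stp W (tau δ))^[n] (x, ξ)).2.1| ≤ 2 ∧ |((stp W (tau δ))^[n] (x, ξ)).2.2| ≤ 2 := by
  have hth : 0 < th δ := by
    unfold th
    positivity
  induction n with
  | zero => exact ⟨hx, hξ.1, hξ.2⟩
  | succ n ih =>
    obtain ⟨h1, h2, h3⟩ := ih fun j hj => hF j (by omega)
    have h4 := hF n (by omega)
    rw [Function.iterate_succ_apply']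
    set z := (stp W (tau δ))^[n] (x, ξ) with hz
    obtain ⟨h5, h6⟩ := stp_sq W (tau δ) z
    refine ⟨?_, by rw [h5]; exact h2, by rw [h6]; exact h3⟩
    refine (stp_mem G W (x := z.1) (ξ := z.2) h1 (f08_far_mono G (by linarith) h4) ?_).1
    have h7 : max |z.2.1| |z.2.2| ≤ 2 := max_le h2 h3
    have h8 : 0 < tau δ := f08_tau hδ
    rw [abs_of_pos h8]
    have h9 : tau δ * max |z.2.1| |z.2.2| ≤ tau δ * 2 := mul_le_mul_of_nonneg_left h7 h8.le
    have h10 : tau δ = th δ / 1024 := rfl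
    linarith

/-- The end point of a good orbit is an admissible centre and the flow is given by an affine map.
Proof. Let `n = ⌊t / τ⌋₊`, `t' = t - n τ ∈ [0, τ)`. `GoodUpTo` gives `G.Far θ` for the points
`x_j`, `j ≤ n`, so `tracking` (with `T = l + 1`) applies with `k = n` and gives the affine map
(second clause with `t'`); `G.Far θ x_n` and `stp_mem` (`2 τ · 2 < θ / 4`) give
`(flow ..).1 ∈ closure D` and `dist ≤ 2 τ` from `x_n`, so `G.Far (θ / 2)`. The orbit points `x_j`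
belong to `closure D` by induction with `stp_mem` (`|ξ|` is preserved coordinatewise, `stp_sq`).
`t ≤ l + κ ≤ l + 1/2`. -/
theorem flow_good (G : Geo D) {l : ℝ} (hl : 0 < l) : ∀ᶠ δ in 𝓝[>] (0 : ℝ),
    ∀ W : Walls G (th δ / 4), ∀ x ∈ G.X δ, ∀ ξ ∈ Sq2,
    GoodUpTo W (tau δ) (th δ) (l + 1 / 2) (x, ξ) → ∀ t : ℝ, 0 ≤ t → t ≤ l + kap δ →
    (flow W (tau δ) t (x, ξ)).1 ∈ G.Y δ ∧ GoodUpTo W (tau δ) (th δ / 2) t (x, ξ) ∧
      ∃ γ ∈ G.Gam (l + 1), flow W (tau δ) t (x, ξ) = (app γ (x + t • ξ), lin γ ξ) := by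
  filter_upwards [tracking G (l + 1), f08_small (c := 1 / 2) (n := 39) (by norm_num)
    (by norm_num)] with δ htr ⟨hδ, hkap⟩
  intro W x hx ξ hξ hgood t ht0 ht1
  have hkap1 : kap δ < 1 / 2 := hkap
  have hth : 0 < th δ := by
    unfold th
    positivity
  have hτ : 0 < tau δ := f08_tau hδ
  have hτ2 : tau δ = th δ / 1024 := rfl
  have hxc : x ∈ closure D := subset_closure hx.1
  set n := ⌊t / tau δ⌋₊ with hn
  have hn1 : (n : ℝ) * tau δ ≤ t := by
    have := Nat.floor_le (div_nonneg ht0 hτ.le)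
    rwa [le_div_iff₀ hτ] at this
  have hn2 : t < ((n : ℝ) + 1) * tau δ := by
    have := Nat.lt_floor_add_one (t / tau δ)
    rwa [div_lt_iff₀ hτ] at this
  have hfar : ∀ j : ℕ, (j : ℝ) * tau δ ≤ t → G.Far (th δ) ((stp W (tau δ))^[j] (x, ξ)).1 :=
    fun j hj => hgood j (by linarith)
  have hfarn : ∀ j ≤ n, G.Far (th δ) ((stp W (tau δ))^[j] (x, ξ)).1 := by
    intro j hj
    refine hfar j (le_trans ?_ hn1)
    have : (j : ℝ) ≤ n := by exact_mod_cast hj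
    exact mul_le_mul_of_nonneg_right this hτ.le
  obtain ⟨o1, o2, o3⟩ := f08_orbit G hδ W hxc hξ fun j hj => hfarn j hj.le
  have ht' : |t - (n : ℝ) * tau δ| ≤ tau δ := by
    rw [abs_of_nonneg (by linarith)]
    linarith
  have htrack := (htr W x hxc ξ hξ.1 hξ.2 n (by linarith) fun j hj =>
    f08_far_mono G (by linarith) (hfarn j hj.le)).2
      (f08_far_mono G (by linarith) (hfarn n le_rfl)) (t - (n : ℝ) * tau δ) ht' (by linarith)
  refine ⟨?_, fun k hk => f08_far_mono G (by linarith) (hfar k hk), ?_⟩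
  · have hfl : flow W (tau δ) t (x, ξ) =
        stp W (t - (n : ℝ) * tau δ) ((stp W (tau δ))^[n] (x, ξ)) := rfl
    rw [hfl]
    set z := (stp W (tau δ))^[n] (x, ξ) with hz
    have h7 : max |z.2.1| |z.2.2| ≤ 2 := max_le o2 o3
    have h9 : |t - (n : ℝ) * tau δ| * max |z.2.1| |z.2.2| ≤ tau δ * 2 :=
      mul_le_mul ht' h7 (le_max_of_le_left (abs_nonneg _)) hτ.le
    obtain ⟨m1, m2⟩ := stp_mem G W (x := z.1) (ξ := z.2) (t := t - (n : ℝ) * tau δ) o1
      (f08_far_mono G (by linarith) (hfarn n le_rfl)) (by linarith)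
    refine ⟨m1, fun v hv => ?_⟩
    have h10 : th δ ≤ dist z.1 v := hfarn n le_rfl v hv
    have h11 := dist_triangle z.1 (stp W (t - (n : ℝ) * tau δ) z).1 v
    have h12 := dist_comm z.1 (stp W (t - (n : ℝ) * tau δ) z).1
    have m3 : dist (stp W (t - (n : ℝ) * tau δ) z).1 z.1 ≤ tau δ * 2 := m2.trans h9
    linarith
  · obtain ⟨γ, hγ, hγ2⟩ := htrack
    refine ⟨γ, hγ, ?_⟩
    rw [show (n : ℝ) * tau δ + (t - (n : ℝ) * tau δ) = t by ring] at hγ2
    exact hγ2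

private theorem f08_expo {δ c u : ℝ} (hδ : 0 < δ) (hc : 0 < c) (hu : kap δ ^ 2 ≤ u) :
    -c * u / hh δ ≤ -(c / δ ^ 2) := by
  have hh0 : 0 < hh δ := by
    unfold hh
    positivity
  have h1 : c / δ ^ 2 = c * kap δ ^ 2 / hh δ := by
    unfold kap hh
    field_simp
  rw [h1, neg_mul, neg_div]
  refine neg_le_neg (div_le_div_of_nonneg_right ?_ hh0.le)
  exact mul_le_mul_of_nonneg_left hu hc.le

/-- the common part of the two proofs -/
private theorem f08_core (S : Spec D) (G : Geo D) {l : ℝ} (hl : 0 < l) {c : ℝ} (hc : 0 < c)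
    (M : ℝ) : ∀ᶠ δ in 𝓝[>] (0 : ℝ),
    ∀ W : Walls G (th δ / 4), ∀ x ∈ G.X δ, ∀ ξ ∈ Sq2,
    GoodUpTo W (tau δ) (th δ) (l + 1 / 2) (x, ξ) →
    (∀ t : ℝ, |t - l| ≤ kap δ → (flow W (tau δ) t (x, ξ)).1 ∈ G.Y δ →
      (flow W (tau δ) t (x, ξ)).2 ∈ Sq2 → |t| ≤ l + 1 →
      ‖(inner ℂ (W.v δ (x, ξ) 0) (W.v δ (flow W (tau δ) t (x, ξ)) t) : ℂ)‖ ≤
        M * Real.exp (-(c / δ ^ 2)) + δ ^ 1900) →
    ‖qW S W δ l (x, ξ)‖ ≤ δ ^ 1000 := by
  filter_upwards [flow_good G hl, iter S G (l + 1), avg S, f08_exp hc M,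
    f08_small (c := l) (n := 39) hl (by norm_num),
    f08_small (c := 1) (n := 39) one_pos (by norm_num),
    f08_small (c := 1 / 8) (n := 1) (by norm_num) (by norm_num)] with δ hfg hit havg hexp
      ⟨hδ, hkl⟩ ⟨_, hk1⟩ ⟨_, hδ8⟩
  intro W x hx ξ hξ hgood hin
  rw [pow_one] at hδ8
  have hkl' : kap δ < l := hkl
  have hk1' : kap δ < 1 := hk1
  have hth : 0 < th δ := by
    unfold th
    positivity
  have hxY : x ∈ G.Y δ := ⟨subset_closure hx.1, f08_far_mono G (by linarith) hx.2⟩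
  have hv4 := norm_v_le W hδ (x, ξ) 0
  have hε : ∀ s ∈ Rng δ, ‖(inner ℂ (W.v δ (x, ξ) 0)
      (S.U (hh δ) (l - 2 * sh δ * s) (W.v δ (x, ξ) 0)) : ℂ) - 0‖ ≤
        M * Real.exp (-(c / δ ^ 2)) + 5 * δ ^ 1900 := by
    intro s hs
    set t := l - 2 * sh δ * s with ht
    have hs1 : |s| ≤ 1 / (2 * δ) := abs_le.2 hs
    have htl : |t - l| ≤ kap δ := by
      have e1 : t - l = -(2 * sh δ * s) := by
        rw [ht]
        ring
      have hsh : 0 < sh δ := by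
        unfold sh
        positivity
      rw [e1, abs_neg, abs_mul, abs_of_pos (by positivity)]
      calc 2 * sh δ * |s| ≤ 2 * sh δ * (1 / (2 * δ)) :=
            mul_le_mul_of_nonneg_left hs1 (by positivity)
        _ = kap δ := by
            unfold sh kap
            field_simp
    have htl2 := abs_le.1 htl
    have ht0 : 0 ≤ t := by linarith
    obtain ⟨g1, g2, -⟩ := hfg W x hx ξ hξ hgood t ht0 (by linarith)
    obtain ⟨σ₁, σ₂, hσ₁, hσ₂, hσ, hU⟩ := hit W x hxY ξ hξ t ht0 (by linarith) g2 g1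
    have hη : (flow W (tau δ) t (x, ξ)).2 ∈ Sq2 := by
      rw [hσ]
      have a1 : |σ₁| = 1 := by rcases hσ₁ with h | h <;> simp [h]
      have a2 : |σ₂| = 1 := by rcases hσ₂ with h | h <;> simp [h]
      exact ⟨by simp only [abs_mul, a1, one_mul]; exact hξ.1,
        by simp only [abs_mul, a2, one_mul]; exact hξ.2⟩
    have hov := hin t htl g1 hη (by rw [abs_of_nonneg ht0]; linarith)
    set v := W.v δ (x, ξ) 0 with hv
    set v' := W.v δ (flow W (tau δ) t (x, ξ)) t with hv'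
    set a : ℂ := ((σ₁ * σ₂ : ℝ) : ℂ) * phs δ t ξ with ha
    have han : ‖a‖ = 1 := by
      rw [ha, norm_mul, phs, Complex.norm_exp_ofReal_mul_I, mul_one, Complex.norm_real,
        Real.norm_eq_abs, abs_mul]
      have a1 : |σ₁| = 1 := by rcases hσ₁ with h | h <;> simp [h]
      have a2 : |σ₂| = 1 := by rcases hσ₂ with h | h <;> simp [h]
      rw [a1, a2, one_mul]
    have e2 : (inner ℂ v (S.U (hh δ) t v) : ℂ) =
        inner ℂ v (S.U (hh δ) t v - a • v') + a * inner ℂ v v' := by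
      rw [inner_sub_right, inner_smul_right]
      ring
    rw [sub_zero, e2]
    refine (norm_add_le _ _).trans ?_
    rw [norm_mul, han, one_mul]
    have h1 : ‖(inner ℂ v (S.U (hh δ) t v - a • v') : ℂ)‖ ≤ 4 * δ ^ 1900 :=
      (norm_inner_le_norm _ _).trans (mul_le_mul hv4 hU (norm_nonneg _) (by norm_num))
    linarith
  have key := havg (W.v δ (x, ξ) 0) hv4 l _ (fun _ => 0) continuous_const hε
  simp only [mul_zero, integral_zero, sub_zero] at key
  have hq : qW S W δ l (x, ξ) =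
      inner ℂ (W.v δ (x, ξ) 0) (S.W (hh δ) l (W.v δ (x, ξ) 0)) := rfl
  rw [hq]
  refine key.trans ?_
  have hδ1 : δ ≤ 1 := by linarith
  have p1 : δ ^ 1900 ≤ δ ^ 1500 := pow_le_pow_of_le_one hδ.le hδ1 (by norm_num)
  have p2 : δ ^ 1500 ≤ 1 / 8 * δ ^ 1000 := by
    have h3 : δ ^ 500 ≤ δ ^ 1 := pow_le_pow_of_le_one hδ.le hδ1 (by norm_num)
    rw [pow_one] at h3
    have h4 : δ ^ 1500 = δ ^ 500 * δ ^ 1000 := by rw [← pow_add]
    rw [h4]
    exact mul_le_mul_of_nonneg_right (by linarith) (by positivity)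
  have p3 : 0 ≤ δ ^ 1000 := by positivity
  linarith

/-- Non resonance in terms of the flow, for points away from the walls. Proof. Apply `avg` with
`k = 0`. For `s ∈ Rng δ`, `t = l - 2 sh s ∈ [l - κ, l + κ]`, `t > 0`. `iter` (with `T = l + 1`;
`flow_good`) gives `U t v = (unit number) • v' + O (δ ^ 1900)` with `v' = W.v δ (flow t z) t`.
`overlap0` (`x ∈ G.Y δ`, `flow.1 ∈ G.Y δ`, `flow.2 ∈ Sq2`) bounds `|⟨v, v'⟩|` by
`exp (-c κ² / h) + δ ^ 1900 = exp (-c δ⁻²) + δ ^ 1900`. -/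
theorem nonres_flow (S : Spec D) (G : Geo D) {l : ℝ} (hl : 0 < l) : ∀ᶠ δ in 𝓝[>] (0 : ℝ),
    ∀ W : Walls G (th δ / 4), ∀ x ∈ G.X δ, ∀ ξ ∈ Sq2, W.Int (kap δ) x →
    GoodUpTo W (tau δ) (th δ) (l + 1 / 2) (x, ξ) →
    (∀ t : ℝ, |t - l| ≤ kap δ → kap δ ^ 2 < sq (x - (flow W (tau δ) t (x, ξ)).1) +
      sq (ξ - (flow W (tau δ) t (x, ξ)).2)) →
    ‖qW S W δ l (x, ξ)‖ ≤ δ ^ 1000 := by
  obtain ⟨c, hc, hov⟩ := overlap0 G (l + 1)
  filter_upwards [hov, f08_core S G hl hc 1, self_mem_nhdsWithin] with δ hov hcore hδ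
  have hδ0 : (0 : ℝ) < δ := hδ
  intro W x hx ξ hξ hI hgood hfar
  have hth : 0 < th δ := by
    unfold th
    positivity
  have hxY : x ∈ G.Y δ := ⟨subset_closure hx.1, f08_far_mono G (by linarith) hx.2⟩
  refine hcore W x hx ξ hξ hgood fun t ht hy hη htT => ?_
  refine (hov W x hxY hI _ hy ξ hξ _ hη t htT).trans ?_
  refine add_le_add_left ?_ _
  rw [one_mul]
  refine Real.exp_le_exp.2 ?_
  exact f08_expo hδ0 hc (hfar t ht).le

/-- Non resonance in terms of the affine maps. Proof. In the first case use `nonres_flow` and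
`flow_good`: the flow at the time `t` is `(app γ (x + t ξ), lin γ ξ)` with `γ ∈ G.Gam (l + 1)`, so
`z ∉ Res` gives the hypothesis (`Win δ ⊆ Sq2` if `θ ≤ 1`). In the second case argue as in
`nonres_flow` with `overlap` instead of `overlap0`: the term with `p ∈ Rf G.A 1 ×ˢ Rf G.B 1` is
`exp (-c (|x - app (cmp (mk2 p) γ) (x + t ξ)|² + |ξ - lin (cmp (mk2 p) γ) ξ|²) / h)`, `app_cmp`, and
`cmp (mk2 p) γ ∈ G.Img (l + 1)`; finitely many terms. -/
theorem nonres (S : Spec D) (G : Geo D) {l : ℝ} (hl : 0 < l) : ∀ᶠ δ in 𝓝[>] (0 : ℝ),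
    ∀ W : Walls G (th δ / 4), ∀ z : P × P, z.1 ∈ G.X δ → z.2 ∈ Win δ →
    GoodUpTo W (tau δ) (th δ) (l + 1 / 2) z →
    ((W.Int (kap δ) z.1 ∧ z ∉ Res (G.Gam (l + 1)) δ l) ∨ z ∉ Res (G.Img (l + 1)) δ l) →
    ‖qW S W δ l z‖ ≤ δ ^ 1000 := by
  obtain ⟨c, hc, hov⟩ := overlap G (l + 1)
  filter_upwards [hov, f08_core S G hl hc ((Rf G.A 1 ×ˢ Rf G.B 1).card : ℝ), flow_good G hl,
    nonres_flow S G hl, f08_small (c := l) (n := 39) hl (by norm_num),
    f08_small (c := 1) (n := 38) one_pos (by norm_num)] with δ hov hcore hfg hnr ⟨hδ, hkl⟩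
      ⟨_, hth1⟩
  have hkl' : kap δ < l := hkl
  have hth1' : th δ < 1 := hth1
  have hth : 0 < th δ := by
    unfold th
    positivity
  rintro W ⟨x, ξ⟩ hx hξW hgood hres
  simp only at hx hξW
  have hξ : ξ ∈ Sq2 := by
    have h1 := (abs_le.1 (show |sq ξ - 1| ≤ th δ from hξW)).2
    have h2 : ξ.1 ^ 2 + ξ.2 ^ 2 ≤ 2 := by
      have : sq ξ = ξ.1 ^ 2 + ξ.2 ^ 2 := rfl
      linarith
    constructor
    · refine abs_le_of_sq_le_sq ?_ (by norm_num)
      nlinarith [sq_nonneg ξ.2]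
    · refine abs_le_of_sq_le_sq ?_ (by norm_num)
      nlinarith [sq_nonneg ξ.1]
  have hxY : x ∈ G.Y δ := ⟨subset_closure hx.1, f08_far_mono G (by linarith) hx.2⟩
  rcases hres with ⟨hI, hres⟩ | hres
  · refine hnr W x hx ξ hξ hI hgood fun t ht => ?_
    have ht2 := abs_le.1 ht
    obtain ⟨-, -, γ, hγ, hfl⟩ := hfg W x hx ξ hξ hgood t (by linarith) (by linarith)
    by_contra hcon
    refine hres ⟨hξW, t, ht, γ, hγ, ?_⟩
    rw [hfl] at hcon
    exact not_lt.1 hcon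
  · refine hcore W x hx ξ hξ hgood fun t ht hy hη htT => ?_
    have ht2 := abs_le.1 ht
    obtain ⟨-, -, γ, hγ, hfl⟩ := hfg W x hx ξ hξ hgood t (by linarith) (by linarith)
    refine (hov W x hxY _ hy ξ hξ _ hη t htT).trans ?_
    refine add_le_add_left ?_ _
    rw [← nsmul_eq_mul, ← Finset.sum_const]
    refine Finset.sum_le_sum fun p hp => Real.exp_le_exp.2 ?_
    refine f08_expo hδ hc ?_
    rw [hfl, ← (app_cmp (mk2 p) γ (x + t • ξ)).1, ← (app_cmp (mk2 p) γ ξ).2]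
    by_contra hcon
    refine hres ⟨hξW, t, ht, cmp (mk2 p) γ, ?_, (not_le.1 hcon).le⟩
    exact Finset.mem_image.2 ⟨(p, γ), Finset.mem_product.2 ⟨hp, hγ⟩, rfl⟩

end

end Pool.Agent.MP4eed4eR
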