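import Pool.Agent.Lib.MP_4eed4e_an_R.F08

/-!
MP_4eed4e_an, project R, module F09: the diagonal matrix element at a closed orbit.
-/

namespace Pool.Agent.MP4eed4eR

open MeasureTheory Set Filter Topology Metric

noncomputable section

variable {D : Set P}

private theorem f09_far_mono (G : Geo D) {a b : ℝ} (hab : a ≤ b) {x : P} (h : G.Far b x) :
    G.Far a x := fun v hv => hab.trans (h v hv)

private theorem f09_small {c : ℝ} (hc : 0 < c) {n : ℕ} (hn : n ≠ 0) :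
    ∀ᶠ δ in 𝓝[>] (0 : ℝ), 0 < δ ∧ δ ^ n < c := by
  have h1 : Tendsto (fun δ : ℝ => δ ^ n) (𝓝[>] (0 : ℝ)) (𝓝 0) := by
    have h2 : Tendsto (fun δ : ℝ => δ ^ n) (𝓝 (0 : ℝ)) (𝓝 ((0 : ℝ) ^ n)) :=
      (continuous_pow n).tendsto 0
    rw [zero_pow hn] at h2
    exact h2.mono_left nhdsWithin_le_nhds
  filter_upwards [h1.eventually (gt_mem_nhds hc), self_mem_nhdsWithin] with δ h2 h3
  exact ⟨h3, h2⟩

/-- If the flow near the time `l` is the translation by `c`, the matrix element of `W` is the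
average of the free overlaps. Proof. `avg` with `k s = Kc (hh δ) (l - 2 sh s) c ξ`
(`Kc_continuous`). For `s ∈ Rng δ`, `t = l - 2 sh s`: `iter` (with `T = l + 1`; hypotheses from
`flow_good`) gives signs `σ₁`, `σ₂` with `(flow t z).2 = (σ₁ ξ.1, σ₂ ξ.2)`; this is `ξ`, so
`σ₁ = σ₂ = 1` because `ξ.1`, `ξ.2` are not zero, and
`‖U t v - phs δ t ξ • W.v δ (x + t ξ + c, ξ) t‖ ≤ δ ^ 1900`. Then `overlap_eq` (the centre
`x + t • ξ + c` is in `G.Y δ` by `flow_good`). The errors: `4 δ ^ 1900 + δ ^ 1900 + δ ^ 1500 ≤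
δ ^ 1000`. -/
theorem near_c (S : Spec D) (G : Geo D) {l : ℝ} (hl : 0 < l) (c : P) : ∀ᶠ δ in 𝓝[>] (0 : ℝ),
    ∀ W : Walls G (th δ / 4), ∀ x ∈ G.X δ, W.Int (kap δ) x → ∀ ξ ∈ Sq2,
    ξ.1 ≠ 0 → ξ.2 ≠ 0 → (∀ t : ℝ, |t - l| ≤ kap δ →
      GoodUpTo W (tau δ) (th δ) (l + 1 / 2) (x, ξ) ∧
        flow W (tau δ) t (x, ξ) = (x + t • ξ + c, ξ)) →
    ‖qW S W δ l (x, ξ) - Ktil δ l c ξ‖ ≤ δ ^ 1000 := by
  filter_upwards [avg S, flow_good G hl, iter S G (l + 1), overlap_eq G (l + 1),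
    f09_small (c := l) (n := 39) hl (by norm_num),
    f09_small (c := 1) (n := 39) one_pos (by norm_num),
    f09_small (c := 1 / 8) (n := 1) (by norm_num) (by norm_num)] with δ havg hfg hit hov
      ⟨hδ, hkl⟩ ⟨_, hk1⟩ ⟨_, hδ8⟩
  intro W x hx hI ξ hξ hξ1 hξ2 hnear
  rw [pow_one] at hδ8
  have hkl' : kap δ < l := hkl
  have hk1' : kap δ < 1 := hk1
  have hth : 0 < th δ := by
    unfold th
    positivity
  have hh0 : 0 < hh δ := by
    unfold hh
    positivity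
  have hxY : x ∈ G.Y δ := ⟨subset_closure hx.1, f09_far_mono G (by linarith) hx.2⟩
  have hv4 := norm_v_le W hδ (x, ξ) 0
  have hε : ∀ s ∈ Rng δ, ‖(inner ℂ (W.v δ (x, ξ) 0)
      (S.U (hh δ) (l - 2 * sh δ * s) (W.v δ (x, ξ) 0)) : ℂ) -
        Kc (hh δ) (l - 2 * sh δ * s) c ξ‖ ≤ 5 * δ ^ 1900 := by
    intro s hs
    set t := l - 2 * sh δ * s with ht
    have hs1 : |s| ≤ 1 / (2 * δ) := abs_le.2 hs
    have htl : |t - l| ≤ kap δ := by
      have e1 : t - l = -(2 * sh δ * s) := by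
        rw [ht]
        ring
      have hsh : 0 < sh δ := by
        unfold sh
        positivity
      rw [e1, abs_neg, abs_mul, abs_of_pos (by positivity)]
      calc 2 * sh δ * |s| ≤ 2 * sh δ * (1 / (2 * δ)) :=
            mul_le_mul_of_nonneg_left hs1 (by positivity)
        _ = kap δ := by
            unfold sh kap
            field_simp
    have htl2 := abs_le.1 htl
    have ht0 : 0 ≤ t := by linarith
    obtain ⟨hgood, hfl⟩ := hnear t htl
    obtain ⟨g1, g2, -⟩ := hfg W x hx ξ hξ hgood t ht0 (by linarith)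
    obtain ⟨σ₁, σ₂, hσ₁, hσ₂, hσ, hU⟩ := hit W x hxY ξ hξ t ht0 (by linarith) g2 g1
    rw [hfl] at g1 hσ hU
    have e1 : ξ.1 = σ₁ * ξ.1 := congrArg Prod.fst hσ
    have e2 : ξ.2 = σ₂ * ξ.2 := congrArg Prod.snd hσ
    have s1 : σ₁ = 1 := by
      rcases hσ₁ with h | h
      · exact h
      · rw [h] at e1
        exact absurd (by linarith : ξ.1 = 0) hξ1
    have s2 : σ₂ = 1 := by
      rcases hσ₂ with h | h
      · exact h
      · rw [h] at e2
        exact absurd (by linarith : ξ.2 = 0) hξ2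
    rw [s1, s2, one_mul, Complex.ofReal_one, one_mul] at hU
    have hov1 := hov W x hxY hI ξ hξ t (by rw [abs_of_nonneg ht0]; linarith) c g1
    set v := W.v δ (x, ξ) 0 with hv
    set v' := W.v δ (x + t • ξ + c, ξ) t with hv'
    have e3 : (inner ℂ v (S.U (hh δ) t v) : ℂ) - Kc (hh δ) t c ξ =
        inner ℂ v (S.U (hh δ) t v - phs δ t ξ • v') +
          (phs δ t ξ * inner ℂ v v' - Kc (hh δ) t c ξ) := by
      rw [inner_sub_right, inner_smul_right]
      ring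
    rw [e3]
    refine (norm_add_le _ _).trans ?_
    have h1 : ‖(inner ℂ v (S.U (hh δ) t v - phs δ t ξ • v') : ℂ)‖ ≤ 4 * δ ^ 1900 :=
      (norm_inner_le_norm _ _).trans (mul_le_mul hv4 hU (norm_nonneg _) (by norm_num))
    linarith
  have hcont : Continuous fun s : ℝ => Kc (hh δ) (l - 2 * sh δ * s) c ξ :=
    (Kc_continuous hh0 c).comp (by fun_prop : Continuous fun s : ℝ => (l - 2 * sh δ * s, ξ))
  have key := havg (W.v δ (x, ξ) 0) hv4 l _ (fun s => Kc (hh δ) (l - 2 * sh δ * s) c ξ)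
    hcont hε
  have hq : qW S W δ l (x, ξ) - Ktil δ l c ξ =
      inner ℂ (W.v δ (x, ξ) 0) (S.W (hh δ) l (W.v δ (x, ξ) 0)) -
        ∫ s in Rng δ, (gau s : ℂ) * Complex.exp (-(s / sh δ : ℝ) * Complex.I) *
          Kc (hh δ) (l - 2 * sh δ * s) c ξ := rfl
  rw [hq]
  refine key.trans ?_
  have hδ1 : δ ≤ 1 := by linarith
  have p1 : δ ^ 1900 ≤ δ ^ 1500 := pow_le_pow_of_le_one hδ.le hδ1 (by norm_num)
  have p2 : δ ^ 1500 ≤ 1 / 8 * δ ^ 1000 := by
    have h3 : δ ^ 500 ≤ δ ^ 1 := pow_le_pow_of_le_one hδ.le hδ1 (by norm_num)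
    rw [pow_one] at h3
    have h4 : δ ^ 1500 = δ ^ 500 * δ ^ 1000 := by rw [← pow_add]
    rw [h4]
    exact mul_le_mul_of_nonneg_right (by linarith) (by positivity)
  have p3 : 0 ≤ δ ^ 1000 := by positivity
  linarith

end

end Pool.Agent.MP4eed4eR
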