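import Pool.Agent.Lib.MP_4eed4e_an_R.D16
import Pool.Agent.Lib.MP_4eed4e_an_R.FDefs

/-!
MP_4eed4e_an, project R, module F10: the trace formula.
-/

namespace Pool.Agent.MP4eed4eR

open MeasureTheory Set Filter Topology Metric
open scoped ComplexConjugate

noncomputable section

variable {D : Set P}

private theorem tf_hh {δ : ℝ} (hδ : 0 < δ) : 0 < hh δ := by
  unfold hh
  positivity

private theorem tf_pkt {G : Geo D} {ρ : ℝ} (W : Walls G ρ) (δ : ℝ) (z : P × P) :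
    W.v δ z 0 = cls D (W.fam (-1) (-1) (envc δ 0) (hh δ) z.1 z.2) := by
  unfold Walls.v
  rw [pkt_eq_fam]

/-- Measurability and the trivial bound. Proof: `pkt_eq_fam`, `measurable_quad`; `norm_v_le`,
`norm_W_le`. -/
theorem qW_basic (S : Spec D) {G : Geo D} {ρ : ℝ} (W : Walls G ρ) {δ : ℝ} (hδ : 0 < δ) (l : ℝ) :
    Measurable (qW S W δ l) ∧ (∀ z, ‖qW S W δ l z‖ ≤ 16) ∧
      ∀ z, ‖qW S W δ l z‖ ≤ S.gq (hh δ) (W.v δ z 0) := by
  have hh0 := tf_hh hδ
  refine ⟨?_, fun z => ?_, fun z => inner_W_le S hh0 l _⟩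
  · have h1 := measurable_quad S hh0 W (env_envc hδ 0) (-1) (-1) l
    unfold qW
    simp only [tf_pkt]
    exact h1
  · unfold qW
    have h1 := norm_v_le W hδ z 0
    have h2 := norm_W_le S hh0 l (W.v δ z 0)
    calc ‖(inner ℂ (W.v δ z 0) (S.W (hh δ) l (W.v δ z 0)) : ℂ)‖
        ≤ ‖W.v δ z 0‖ * ‖S.W (hh δ) l (W.v δ z 0)‖ := norm_inner_le_norm _ _
      _ ≤ 4 * 4 := mul_le_mul h1 (h2.trans h1) (norm_nonneg _) (by norm_num)
      _ = 16 := by norm_num

private theorem tf_l2 (f : HD D) : Integrable (fun q => ‖f q‖ ^ 2) (volume.restrict D) ∧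
    ∫ q in D, ‖f q‖ ^ 2 = ‖f‖ ^ 2 := by
  refine ⟨(Lp.memLp f).norm.integrable_sq, ?_⟩
  have h1 : (inner ℂ f f : ℂ) = ∫ q in D, (inner ℂ (f q) (f q) : ℂ) := L2.inner_def f f
  have h2 : ∀ q, (inner ℂ (f q) (f q) : ℂ) = ((‖f q‖ ^ 2 : ℝ) : ℂ) := by
    intro q
    rw [inner_self_eq_norm_sq_to_K]
    push_cast
    rfl
  simp only [h2] at h1
  rw [integral_complex_ofReal, inner_self_eq_norm_sq_to_K] at h1
  have h3 : ((‖f‖ ^ 2 : ℝ) : ℂ) = ((∫ q in D, ‖f q‖ ^ 2 : ℝ) : ℂ) := by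
    rw [← h1]
    push_cast
    rfl
  exact (Complex.ofReal_injective h3).symm

private theorem tf_om {h : ℝ} (lam : ℕ → ℝ) (l : ℝ) (k : ℕ) : ‖om lam h l k‖ = gk lam h k := by
  unfold om
  rw [norm_mul, ← Complex.ofReal_neg, Complex.norm_exp_ofReal_mul_I, mul_one,
    Complex.norm_real, Real.norm_eq_abs, abs_of_nonneg]
  unfold gk
  positivity

private theorem tf_gk_nonneg {h : ℝ} (lam : ℕ → ℝ) (k : ℕ) : 0 ≤ gk lam h k := by
  unfold gk
  positivity

private theorem tf_prod (S : Spec D) (k : ℕ) (v : HD D) :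
    (inner ℂ (S.e k) v : ℂ) * inner ℂ v (S.e k) = ((‖S.co k v‖ ^ 2 : ℝ) : ℂ) := by
  unfold Spec.co
  rw [← inner_conj_symm v (S.e k), RCLike.mul_conj]
  push_cast
  rfl

/-- The difference of the constant and of the mean of the multiplier. -/
private theorem tf_diff (G : Geo D) {c θ : ℝ} (hc0 : 0 ≤ c) (hc1 : c ≤ 1) {m : P → ℝ}
    (hm : Measurable m) (hm1 : ∀ q, 0 ≤ m q ∧ m q ≤ 4)
    (hm2 : ∀ q ∈ D, (∀ v ∈ G.V, 2 * θ ≤ dist q v) → m q = c) {f : HD D} (hf : ‖f‖ = 1) :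
    |c - ∫ q in D, m q * ‖f q‖ ^ 2| ≤ 4 * ∑ V ∈ G.V, mass (ball V (2 * θ)) f := by
  obtain ⟨hi, hv⟩ := tf_l2 f
  rw [hf, one_pow] at hv
  have hD : MeasurableSet D := G.isOpen.measurableSet
  have hi2 : Integrable (fun q => m q * ‖f q‖ ^ 2) (volume.restrict D) := by
    refine hi.bdd_mul (c := 4) hm.aestronglyMeasurable (Eventually.of_forall fun q => ?_)
    rw [Real.norm_eq_abs, abs_of_nonneg (hm1 q).1]
    exact (hm1 q).2
  have h1 : c - ∫ q in D, m q * ‖f q‖ ^ 2 = ∫ q in D, (c * ‖f q‖ ^ 2 - m q * ‖f q‖ ^ 2) := by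
    rw [integral_sub (hi.const_mul c) hi2, integral_const_mul, hv, mul_one]
  have hms : ∀ V : P, MeasurableSet (ball V (2 * θ)) := fun V => measurableSet_ball
  have h2 : ∀ V : P, mass (ball V (2 * θ)) f =
      ∫ q in D, (ball V (2 * θ)).indicator (fun q => ‖f q‖ ^ 2) q := by
    intro V
    unfold mass
    rw [integral_indicator (hms V), Measure.restrict_restrict (hms V)]
  have h3 : ∀ V ∈ G.V, Integrable
      (fun q => (ball V (2 * θ)).indicator (fun q => ‖f q‖ ^ 2) q) (volume.restrict D) :=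
    fun V _ => hi.indicator (hms V)
  rw [h1]
  simp only [h2]
  have h7 : 4 * ∑ V ∈ G.V, ∫ q in D, (ball V (2 * θ)).indicator (fun q => ‖f q‖ ^ 2) q =
      ∫ q in D, 4 * ∑ V ∈ G.V, (ball V (2 * θ)).indicator (fun q => ‖f q‖ ^ 2) q := by
    rw [integral_const_mul, integral_finsetSum _ h3]
  rw [h7, ← Real.norm_eq_abs]
  refine (norm_integral_le_integral_norm _).trans ?_
  refine integral_mono_ae ((hi.const_mul c).sub hi2).norm
    ((integrable_finsetSum _ h3).const_mul 4) ?_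
  refine (ae_restrict_iff' hD).2 (Eventually.of_forall fun q hq => ?_)
  have hsum : ∀ V ∈ G.V, 0 ≤ (ball V (2 * θ)).indicator (fun q => ‖f q‖ ^ 2) q :=
    fun V _ => indicator_nonneg (fun q _ => by positivity) q
  simp only
  by_cases hV : ∀ v ∈ G.V, 2 * θ ≤ dist q v
  · rw [hm2 q hq hV, sub_self, norm_zero]
    exact mul_nonneg (by norm_num) (Finset.sum_nonneg hsum)
  · push Not at hV
    obtain ⟨V, hVG, hVq⟩ := hV
    have h4 : ‖f q‖ ^ 2 ≤ ∑ V ∈ G.V, (ball V (2 * θ)).indicator (fun q => ‖f q‖ ^ 2) q := by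
      have h5 := Finset.single_le_sum hsum hVG
      rw [indicator_of_mem (show q ∈ ball V (2 * θ) from hVq)] at h5
      exact h5
    have h6 : |c - m q| ≤ 4 := by
      rw [abs_le]
      have := hm1 q
      constructor <;> linarith
    rw [← sub_mul, norm_mul, Real.norm_eq_abs, Real.norm_eq_abs,
      abs_of_nonneg (by positivity : (0 : ℝ) ≤ ‖f q‖ ^ 2)]
    calc |c - m q| * ‖f q‖ ^ 2 ≤ 4 * ‖f q‖ ^ 2 := by gcongr
      _ ≤ _ := by gcongr

/-- The trace formula. Proof. Write `a k z = ‖S.co k (W.v δ z 0)‖ ^ 2`. `frame` with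
`f = g = S.e k` gives that `a k` is integrable over `X ×ˢ univ` with integral
`(2πh)² ∫ q in D, m q * ‖S.e k q‖ ^ 2 ≤ 4 (2πh)²` (`‖S.e k‖ = 1`: by `parseval` or by
`S.orth`). `gsum_le` gives `∑ gk < ∞`, so `∑ gk * ∫ a k < ∞` and `integral_tsum` /
`hasSum_integral_of_summable_integral_norm` gives: `qW z = ∑ om k * a k z` (`gk_sum`,
`‖om k‖ = gk k`) is integrable and `∫ qW = (2πh)² ∑ om k * ∫ m |e_k|²`. Hence
`cst (2πh)² LamF - ∫ qW = (2πh)² ∑ om k * ∫ (cst - m) |e_k|²`; the integrand vanishes off the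
squares `ball V (2 θ)`, `V ∈ G.V`, and `|cst - m| ≤ 4` there, so the sum is at most
`4 ∑_V ∑_k gk * mass (ball V (2θ)) (S.e k) ≤ C θ² / sh³` (`corner_le`). Total:
`C δ ^ (160 + 76 - 120) = C δ ^ 116 ≤ δ * δ ^ 80`. -/
theorem trace_formula (S : Spec D) (G : Geo D) (l : ℝ) : ∀ᶠ δ in 𝓝[>] (0 : ℝ),
    ∀ W : Walls G (th δ / 4), IntegrableOn (qW S W δ l) (G.X δ ×ˢ univ) ∧
      ‖((cst δ * (2 * Real.pi * hh δ) ^ 2 : ℝ) : ℂ) * LamF S.lam (hh δ) l -
        ∫ z in G.X δ ×ˢ (univ : Set P), qW S W δ l z‖ ≤ δ * hh δ := by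
  obtain ⟨C₁, hC₁⟩ := gsum_le S G
  obtain ⟨C₂, hC₂⟩ := corner_le S G
  set N : ℝ := 16 * (2 * Real.pi) ^ 2 * (G.V.card : ℝ) * |C₂| with hN
  have hN0 : 0 ≤ N := by positivity
  have hsmall : ∀ᶠ δ in 𝓝[>] (0 : ℝ), N * δ ≤ 1 := by
    have h1 : Tendsto (fun δ : ℝ => N * δ) (𝓝[>] 0) (𝓝 (N * 0)) :=
      (tendsto_id.const_mul N).mono_left nhdsWithin_le_nhds
    rw [mul_zero] at h1
    exact h1.eventually (eventually_le_nhds (by norm_num))
  have hlt : ∀ᶠ δ in 𝓝[>] (0 : ℝ), δ ≤ 1 :=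
    (eventually_le_nhds (by norm_num : (0 : ℝ) < 1)).filter_mono nhdsWithin_le_nhds
  filter_upwards [frame G, hC₁, hC₂, self_mem_nhdsWithin, hsmall, hlt] with δ hfr hg hcor
    hδ hsm hδ1 W
  have hδ0 : 0 < δ := hδ
  have hh0 := tf_hh hδ0
  obtain ⟨m, hm, hm1, hm2, hfg⟩ := hfr W
  obtain ⟨hmeas, hq16, -⟩ := qW_basic S W hδ0 l
  set κ : ℝ := (2 * Real.pi * hh δ) ^ 2 with hκ
  have hκ0 : 0 ≤ κ := by positivity
  have hc0 : 0 ≤ cst δ := by
    unfold cst
    positivity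
  have hc1 : cst δ ≤ 1 := envc_norm_le hδ0 0
  set μ : Measure (P × P) := volume.restrict (G.X δ ×ˢ (univ : Set P)) with hμ
  set M : ℕ → ℝ := fun k => ∫ q in D, m q * ‖S.e k q‖ ^ 2 with hM
  have hek : ∀ k, ‖S.e k‖ = 1 := (orthonormal_e S).1
  -- the integrals of the squares of the coefficients
  have ha : ∀ k, Integrable (fun z : P × P => ‖S.co k (W.v δ z 0)‖ ^ 2) μ ∧
      ∫ z, ‖S.co k (W.v δ z 0)‖ ^ 2 ∂μ = κ * M k := by
    intro k
    obtain ⟨h1, h2⟩ := hfg (S.e k) (S.e k)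
    simp only [tf_prod] at h1 h2
    have h3 : Integrable (fun z : P × P => ‖S.co k (W.v δ z 0)‖ ^ 2) μ := by
      refine (show IntegrableOn _ _ _ from h1.re).congr (Eventually.of_forall fun z => ?_)
      exact Complex.ofReal_re _
    refine ⟨h3, ?_⟩
    rw [integral_complex_ofReal] at h2
    have h5 : ∀ q, conj (S.e k q) * ((m q : ℂ) * S.e k q) =
        ((m q * ‖S.e k q‖ ^ 2 : ℝ) : ℂ) := by
      intro q
      have h6 : conj (S.e k q) * S.e k q = ((‖S.e k q‖ ^ 2 : ℝ) : ℂ) := by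
        rw [RCLike.conj_mul]
        push_cast
        rfl
      rw [mul_left_comm, h6]
      push_cast
      ring
    simp only [h5] at h2
    rw [integral_complex_ofReal] at h2
    exact_mod_cast h2
  set F : ℕ → P × P → ℂ := fun k z => om S.lam (hh δ) l k *
    ((‖S.co k (W.v δ z 0)‖ ^ 2 : ℝ) : ℂ) with hF
  have hFi : ∀ k, Integrable (F k) μ := fun k => (ha k).1.ofReal.const_mul _
  have hFn : ∀ k, ∫ z, ‖F k z‖ ∂μ = gk S.lam (hh δ) k * (κ * M k) := by
    intro k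
    rw [← (ha k).2, ← integral_const_mul]
    refine integral_congr_ae (Eventually.of_forall fun z => ?_)
    simp only [hF]
    rw [norm_mul, tf_om, Complex.norm_real, Real.norm_eq_abs, abs_of_nonneg (by positivity)]
  have hM0 : ∀ k, 0 ≤ M k := fun k =>
    integral_nonneg fun q => mul_nonneg (hm1 q).1 (by positivity)
  have hM4 : ∀ k, M k ≤ 4 := by
    intro k
    obtain ⟨h1, h2⟩ := tf_l2 (S.e k)
    rw [hek, one_pow] at h2
    calc M k ≤ ∫ q in D, 4 * ‖S.e k q‖ ^ 2 := by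
          refine integral_mono_of_nonneg (Eventually.of_forall fun q =>
            mul_nonneg (hm1 q).1 (by positivity)) (h1.const_mul 4)
            (Eventually.of_forall fun q => ?_)
          exact mul_le_mul_of_nonneg_right (hm1 q).2 (by positivity)
      _ = 4 := by rw [integral_const_mul, h2, mul_one]
  have hFs : Summable fun k => ∫ z, ‖F k z‖ ∂μ := by
    simp only [hFn]
    refine Summable.of_nonneg_of_le (fun k => mul_nonneg (tf_gk_nonneg _ k)
      (mul_nonneg hκ0 (hM0 k))) (fun k => ?_) (hg.1.mul_right (κ * 4))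
    exact mul_le_mul_of_nonneg_left (mul_le_mul_of_nonneg_left (hM4 k) hκ0)
      (tf_gk_nonneg _ k)
  have hqF : ∀ z, HasSum (fun k => F k z) (qW S W δ l z) := fun z =>
    gk_sum S hh0 l (W.v δ z 0)
  have hqF' : qW S W δ l = fun z => ∑' k, F k z := funext fun z => (hqF z).tsum_eq.symm
  have hint : Integrable (qW S W δ l) μ := by
    refine ⟨hmeas.aestronglyMeasurable, ?_⟩
    have h1 : ∫⁻ z, ‖qW S W δ l z‖ₑ ∂μ ≤ ∑' k, ENNReal.ofReal (∫ z, ‖F k z‖ ∂μ) := by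
      calc ∫⁻ z, ‖qW S W δ l z‖ₑ ∂μ ≤ ∫⁻ z, ∑' k, ‖F k z‖ₑ ∂μ := by
            refine lintegral_mono fun z => ?_
            rw [hqF']
            exact enorm_tsum_le_tsum_enorm
        _ = ∑' k, ∫⁻ z, ‖F k z‖ₑ ∂μ :=
            lintegral_tsum fun k => (hFi k).aestronglyMeasurable.enorm
        _ = ∑' k, ENNReal.ofReal (∫ z, ‖F k z‖ ∂μ) := by
            refine tsum_congr fun k => ?_
            rw [ofReal_integral_norm_eq_lintegral_enorm (hFi k)]
    refine lt_of_le_of_lt h1 ?_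
    rw [← ENNReal.ofReal_tsum_of_nonneg (fun k => integral_nonneg fun z => norm_nonneg _) hFs]
    exact ENNReal.ofReal_lt_top
  refine ⟨hint, ?_⟩
  -- the integral of the diagonal
  have hI := hasSum_integral_of_summable_integral_norm hFi hFs
  have hFI : ∀ k, ∫ z, F k z ∂μ = om S.lam (hh δ) l k * ((κ * M k : ℝ) : ℂ) := by
    intro k
    simp only [hF]
    rw [integral_const_mul, integral_complex_ofReal, (ha k).2]
  simp only [hFI] at hI
  have hom : Summable (om S.lam (hh δ) l) := by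
    refine Summable.of_norm ?_
    simp only [tf_om]
    exact hg.1
  have hL : HasSum (fun k => ((cst δ * κ : ℝ) : ℂ) * om S.lam (hh δ) l k)
      (((cst δ * κ : ℝ) : ℂ) * LamF S.lam (hh δ) l) := hom.hasSum.mul_left _
  have hdiff := hL.sub hI
  rw [← hqF'] at hdiff
  -- the bound
  set mV : ℕ → ℝ := fun k => 4 * ∑ V ∈ G.V, mass (ball V (2 * th δ)) (S.e k) with hmV
  have hbs : Summable fun k => gk S.lam (hh δ) k * mV k := by
    have h1 : Summable fun k => ∑ V ∈ G.V, 4 * (gk S.lam (hh δ) k *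
        mass (ball V (2 * th δ)) (S.e k)) :=
      summable_sum fun V hV => (hcor V hV).1.mul_left 4
    refine h1.congr fun k => ?_
    simp only [hmV]
    rw [Finset.mul_sum, Finset.mul_sum]
    refine Finset.sum_congr rfl fun V _ => ?_
    ring
  have hbv : ∑' k, gk S.lam (hh δ) k * mV k =
      4 * ∑ V ∈ G.V, ∑' k, gk S.lam (hh δ) k * mass (ball V (2 * th δ)) (S.e k) := by
    rw [← Summable.tsum_finsetSum fun V hV => (hcor V hV).1, ← tsum_mul_left]
    refine tsum_congr fun k => ?_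
    simp only [hmV]
    rw [mul_left_comm, Finset.mul_sum]
  have hterm : ∀ k, ‖((cst δ * κ : ℝ) : ℂ) * om S.lam (hh δ) l k -
      om S.lam (hh δ) l k * ((κ * M k : ℝ) : ℂ)‖ ≤ κ * (gk S.lam (hh δ) k * mV k) := by
    intro k
    have h1 : ((cst δ * κ : ℝ) : ℂ) * om S.lam (hh δ) l k -
        om S.lam (hh δ) l k * ((κ * M k : ℝ) : ℂ) =
        om S.lam (hh δ) l k * ((κ * (cst δ - M k) : ℝ) : ℂ) := by
      push_cast
      ring
    rw [h1, norm_mul, tf_om, Complex.norm_real, Real.norm_eq_abs, abs_mul, abs_of_nonneg hκ0]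
    have h2 := tf_diff G hc0 hc1 hm hm1 hm2 (hek k)
    calc gk S.lam (hh δ) k * (κ * |cst δ - M k|)
        ≤ gk S.lam (hh δ) k * (κ * mV k) :=
          mul_le_mul_of_nonneg_left (mul_le_mul_of_nonneg_left h2 hκ0) (tf_gk_nonneg _ k)
      _ = κ * (gk S.lam (hh δ) k * mV k) := by ring
  have hfin := hdiff.norm_le_of_bounded (hbs.hasSum.mul_left κ) hterm
  refine hfin.trans ?_
  rw [hbv]
  have hsh : 0 < sh δ := by
    unfold sh
    positivity
  have hV1 : ∀ V ∈ G.V, ∑' k, gk S.lam (hh δ) k * mass (ball V (2 * th δ)) (S.e k) ≤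
      |C₂| * th δ ^ 2 / sh δ ^ 3 := by
    intro V hV
    rw [le_div_iff₀ (by positivity)]
    refine (hcor V hV).2.trans ?_
    exact mul_le_mul_of_nonneg_right (le_abs_self _) (by positivity)
  have hV2 : ∑ V ∈ G.V, ∑' k, gk S.lam (hh δ) k * mass (ball V (2 * th δ)) (S.e k) ≤
      G.V.card * (|C₂| * th δ ^ 2 / sh δ ^ 3) := by
    have := Finset.sum_le_card_nsmul G.V _ _ hV1
    rwa [nsmul_eq_mul] at this
  calc κ * (4 * ∑ V ∈ G.V, ∑' k, gk S.lam (hh δ) k * mass (ball V (2 * th δ)) (S.e k))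
      ≤ κ * (4 * (G.V.card * (|C₂| * th δ ^ 2 / sh δ ^ 3))) := by gcongr
    _ ≤ N * δ ^ 116 := by
        have h1 : κ * (4 * (G.V.card * (|C₂| * th δ ^ 2 / sh δ ^ 3))) =
            4 * (2 * Real.pi) ^ 2 * (G.V.card : ℝ) * |C₂| * δ ^ 116 := by
          rw [hκ]
          unfold hh th sh
          field_simp
        rw [h1, hN]
        have h2 : (0 : ℝ) ≤ (2 * Real.pi) ^ 2 * (G.V.card : ℝ) * |C₂| * δ ^ 116 := by
          positivity
        nlinarith
    _ = N * δ * δ ^ 115 := by ring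
    _ ≤ 1 * δ ^ 115 := by gcongr
    _ = δ ^ 81 * δ ^ 34 := by ring
    _ ≤ δ ^ 81 * 1 := by
        gcongr
        exact pow_le_one₀ hδ0.le hδ1
    _ = δ * hh δ := by
        unfold hh
        ring

end

end Pool.Agent.MP4eed4eR
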