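import Pool.Agent.Lib.MP_4eed4e_an_R.F06
import Pool.Agent.Lib.MP_4eed4e_an_R.F08
import Pool.Agent.Lib.MP_4eed4e_an_R.F10
import Pool.Agent.Lib.MP_4eed4e_an_RE.ETube

/-!
MP_4eed4e_an, project R, module F11: the trace without closed orbits, K2.
-/

namespace Pool.Agent.MP4eed4eR

open MeasureTheory Set Filter Topology Metric

noncomputable section

variable {D : Set P}

/-- small positive parameters -/
private theorem f11_ev {c : ℝ} (hc : 0 < c) : ∀ᶠ δ in 𝓝[>] (0 : ℝ), 0 < δ ∧ δ ≤ 1 / 4 ∧ δ ≤ c := by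
  filter_upwards [self_mem_nhdsWithin, mem_nhdsWithin_of_mem_nhds
    (Iic_mem_nhds (by norm_num : (0 : ℝ) < 1 / 4)), mem_nhdsWithin_of_mem_nhds (Iic_mem_nhds hc)]
    with δ h1 h2 h3
  exact ⟨h1, h2, h3⟩

/-- a power of `δ` with a constant is small -/
private theorem f11_pow {c δ : ℝ} (hδ : 0 < δ) (hδ1 : δ ≤ 1) (hc : c * δ ≤ 1 / 2) (hc0 : 0 ≤ c)
    {n : ℕ} (hn : 82 ≤ n) : c * δ ^ n ≤ 1 / 2 * (δ * hh δ) := by
  have h1 : δ ^ n ≤ δ ^ 82 := pow_le_pow_of_le_one hδ.le hδ1 hn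
  have h2 : δ ^ 82 = δ * δ ^ 81 := by ring
  have h3 : δ * hh δ = δ ^ 81 := by
    unfold hh
    ring
  have h4 : 0 < δ ^ 81 := by positivity
  calc c * δ ^ n ≤ c * δ ^ 82 := mul_le_mul_of_nonneg_left h1 hc0
    _ = (c * δ) * δ ^ 81 := by rw [h2]; ring
    _ ≤ 1 / 2 * δ ^ 81 := mul_le_mul_of_nonneg_right hc h4.le
    _ = _ := by rw [h3]

/-- the window is contained in the square -/
private theorem f11_win {δ : ℝ} (hδ : 0 < δ) (hδ1 : δ ≤ 1) : Win δ ⊆ Sq2 := by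
  intro ξ hξ
  have h1 : |sq ξ - 1| ≤ th δ := hξ
  have h2 : th δ ≤ 1 := pow_le_one₀ hδ.le hδ1
  have h3 : ξ.1 ^ 2 + ξ.2 ^ 2 - 1 ≤ 1 := (le_abs_self _).trans (h1.trans h2)
  have h4 := sq_nonneg ξ.1
  have h5 := sq_nonneg ξ.2
  exact ⟨abs_le_of_sq_le_sq (by linarith) (by norm_num),
    abs_le_of_sq_le_sq (by linarith) (by norm_num)⟩

/-- the phase space has finite volume -/
private theorem f11_fin (G : Geo D) : volume (D ×ˢ Sq2) ≠ ⊤ := by
  have h1 : volume D ≠ ⊤ := G.isBounded.measure_lt_top.ne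
  have h2 : volume Sq2 ≠ ⊤ := by
    have hb : Bornology.IsBounded Sq2 := by
      refine (isBounded_iff_forall_norm_le).2 ⟨2, fun x hx => ?_⟩
      rw [Prod.norm_def]
      exact max_le hx.1 hx.2
    exact hb.measure_lt_top.ne
  change (volume.prod volume) (D ×ˢ Sq2) ≠ ⊤
  rw [Measure.prod_prod]
  exact ENNReal.mul_ne_top h1 h2

/-- a bound on a set with a constant -/
private theorem f11_const {f : P × P → ENNReal} {T : Set (P × P)} {c v : ℝ} (hc : 0 ≤ c)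
    (hf : ∀ z ∈ T, f z ≤ ENNReal.ofReal c) (hT : volume T ≤ ENNReal.ofReal v) :
    ∫⁻ z in T, f z ≤ ENNReal.ofReal (c * v) := by
  calc ∫⁻ z in T, f z ≤ ∫⁻ _z in T, ENNReal.ofReal c := setLIntegral_mono measurable_const hf
    _ = ENNReal.ofReal c * volume T := setLIntegral_const _ _
    _ ≤ ENNReal.ofReal c * ENNReal.ofReal v := by gcongr
    _ = ENNReal.ofReal (c * v) := (ENNReal.ofReal_mul hc).symm

/-- Everything except the good part of the window is `O(δ h)`. Proof: on `X ×ˢ univ` minus the set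
of the statement either `z.2 ∉ Sq2` (`high_le`: `C sh³ = C δ ^ 120`), or `z.2 ∈ Sq2 \ Win`
(`off_small`), both with `‖qW‖ ≤ gq` (`qW_basic`), or `z.2 ∈ Win δ` and `z` is not good (`tube`:
`C δ² h`). Subadditivity of the lower integral (`lintegral_union_le`, `lintegral_mono_set`). -/
theorem rest_small (S : Spec D) (G : Geo D) {l : ℝ} (hl : 0 < l) : ∃ C : ℝ,
    ∀ᶠ δ in 𝓝[>] (0 : ℝ), ∀ W : Walls G (th δ / 4),
    ∫⁻ z in {z : P × P | z.1 ∈ G.X δ ∧ ¬(z.2 ∈ Win δ ∧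
        GoodUpTo W (tau δ) (th δ) (l + 1 / 2) z)},
      ENNReal.ofReal ‖qW S W δ l z‖ ≤ ENNReal.ofReal (C * (δ * hh δ)) := by
  obtain ⟨C1, h1⟩ := high_le S G
  obtain ⟨C2, h2⟩ := off_small S G
  obtain ⟨C3, h3⟩ := tube S G hl
  refine ⟨|C1| + |C2| + |C3|, ?_⟩
  filter_upwards [h1, h2, h3, f11_ev one_pos] with δ h1 h2 h3 h0 W
  obtain ⟨hδ, hδ1, -⟩ := h0
  have hhp : 0 < hh δ := pow_pos hδ _
  have hle : ∀ z, ENNReal.ofReal ‖qW S W δ l z‖ ≤
      ENNReal.ofReal (S.gq (hh δ) (W.v δ z 0)) := fun z =>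
    ENNReal.ofReal_le_ofReal ((qW_basic S W hδ l).2.2 z)
  have hsub : {z : P × P | z.1 ∈ G.X δ ∧ ¬(z.2 ∈ Win δ ∧
      GoodUpTo W (tau δ) (th δ) (l + 1 / 2) z)} ⊆ (G.X δ ×ˢ Sq2ᶜ) ∪
      ({z : P × P | z.1 ∈ G.X δ ∧ z.2 ∈ Sq2 ∧ z.2 ∉ Win δ} ∪
        {z : P × P | z.1 ∈ G.X δ ∧ z.2 ∈ Win δ ∧
          ¬GoodUpTo W (tau δ) (th δ) (l + 1 / 2) z}) := by
    rintro z ⟨hz, hz'⟩
    by_cases hq : z.2 ∈ Sq2
    · by_cases hw : z.2 ∈ Win δ
      · exact Or.inr (Or.inr ⟨hz, hw, fun hg => hz' ⟨hw, hg⟩⟩)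
      · exact Or.inr (Or.inl ⟨hz, hq, hw⟩)
    · exact Or.inl ⟨hz, hq⟩
  have k1 : ∫⁻ z in G.X δ ×ˢ Sq2ᶜ, ENNReal.ofReal ‖qW S W δ l z‖ ≤
      ENNReal.ofReal (|C1| * (δ * hh δ)) := by
    refine ((lintegral_mono hle).trans (h1 W)).trans (ENNReal.ofReal_le_ofReal ?_)
    refine mul_le_mul (le_abs_self _) ?_ (by unfold sh; positivity) (abs_nonneg _)
    have e1 : sh δ ^ 3 = δ ^ 120 := by
      unfold sh
      ring
    have e2 : δ * hh δ = δ ^ 81 := by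
      unfold hh
      ring
    rw [e1, e2]
    exact pow_le_pow_of_le_one hδ.le (by linarith) (by norm_num)
  have k2 : ∫⁻ z in {z : P × P | z.1 ∈ G.X δ ∧ z.2 ∈ Sq2 ∧ z.2 ∉ Win δ},
      ENNReal.ofReal ‖qW S W δ l z‖ ≤ ENNReal.ofReal (|C2| * (δ * hh δ)) := by
    refine ((lintegral_mono hle).trans (h2 W)).trans (ENNReal.ofReal_le_ofReal ?_)
    exact mul_le_mul_of_nonneg_right (le_abs_self _) (by positivity)
  have k3 : ∫⁻ z in {z : P × P | z.1 ∈ G.X δ ∧ z.2 ∈ Win δ ∧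
      ¬GoodUpTo W (tau δ) (th δ) (l + 1 / 2) z},
      ENNReal.ofReal ‖qW S W δ l z‖ ≤ ENNReal.ofReal (|C3| * (δ * hh δ)) := by
    refine (h3 W).trans (ENNReal.ofReal_le_ofReal ?_)
    refine mul_le_mul (le_abs_self _) ?_ (by positivity) (abs_nonneg _)
    refine mul_le_mul_of_nonneg_right ?_ hhp.le
    nlinarith
  refine (lintegral_mono_set hsub).trans ((lintegral_union_le _ _ _).trans ?_)
  refine (add_le_add k1 ((lintegral_union_le _ _ _).trans (add_le_add k2 k3))).trans ?_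
  rw [← ENNReal.ofReal_add (by positivity) (by positivity),
    ← ENNReal.ofReal_add (by positivity) (by positivity)]
  exact ENNReal.ofReal_le_ofReal (le_of_eq (by ring))

/-- the good part: where the matrix element is small, and the rest -/
private theorem f11_good (S : Spec D) (G : Geo D) {l δ : ℝ} (hδ : 0 < δ) (hδ1 : δ ≤ 1 / 4)
    (W : Walls G (th δ / 4)) {T R : Set (P × P)} (hT : T ⊆ G.X δ ×ˢ Win δ)
    (h1 : ∀ z ∈ T, z ∉ R → ‖qW S W δ l z‖ ≤ δ ^ 1000) {v : ℝ}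
    (h2 : volume (T ∩ R) ≤ ENNReal.ofReal v) (hv : 16 * v ≤ 1 / 2 * (δ * hh δ))
    (h3 : (volume (D ×ˢ Sq2)).toReal * δ ≤ 1 / 2) :
    ∫⁻ z in T, ENNReal.ofReal ‖qW S W δ l z‖ ≤ ENNReal.ofReal (δ * hh δ) := by
  have hhp : 0 < hh δ := pow_pos hδ _
  have hsub : T ⊆ (T ∩ R) ∪ (T \ R) := fun z hz => by
    by_cases h : z ∈ R
    · exact Or.inl ⟨hz, h⟩
    · exact Or.inr ⟨hz, h⟩
  have k1 : ∫⁻ z in T ∩ R, ENNReal.ofReal ‖qW S W δ l z‖ ≤ ENNReal.ofReal (16 * v) :=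
    f11_const (by norm_num) (fun z _ => ENNReal.ofReal_le_ofReal ((qW_basic S W hδ l).2.1 z)) h2
  have k2 : ∫⁻ z in T \ R, ENNReal.ofReal ‖qW S W δ l z‖ ≤
      ENNReal.ofReal (δ ^ 1000 * (volume (D ×ˢ Sq2)).toReal) := by
    refine f11_const (by positivity) (fun z hz => ENNReal.ofReal_le_ofReal (h1 z hz.1 hz.2)) ?_
    rw [ENNReal.ofReal_toReal (f11_fin G)]
    refine measure_mono fun z hz => ?_
    exact ⟨(hT hz.1).1.1, f11_win hδ (by linarith) (hT hz.1).2⟩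
  refine (lintegral_mono_set hsub).trans ((lintegral_union_le _ _ _).trans
    ((add_le_add k1 k2).trans ?_))
  have h4 : δ ^ 1000 * (volume (D ×ˢ Sq2)).toReal ≤ 1 / 2 * (δ * hh δ) := by
    rw [mul_comm]
    exact f11_pow hδ (by linarith) h3 ENNReal.toReal_nonneg (by norm_num)
  calc ENNReal.ofReal (16 * v) + ENNReal.ofReal (δ ^ 1000 * (volume (D ×ˢ Sq2)).toReal)
      ≤ ENNReal.ofReal (1 / 2 * (δ * hh δ)) + ENNReal.ofReal (1 / 2 * (δ * hh δ)) :=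
        add_le_add (ENNReal.ofReal_le_ofReal hv) (ENNReal.ofReal_le_ofReal h4)
    _ = ENNReal.ofReal (δ * hh δ) := by
        rw [← ENNReal.ofReal_add (by positivity) (by positivity)]
        congr 1
        ring

/-- The good part over the points near the walls is `O(δ h)`. Proof: let `N` be a set of centres
with volume `≤ C₁ δ ^ 19`. By `nonres` (second alternative) `‖qW‖ ≤ δ ^ 1000` off
`Res (G.Img (l + 1))`, and the volume of the rest is at most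
`C κ² · C₁ δ ^ 19 = C C₁ δ ^ 97` (`res_near`, `lin1_gam`), where `‖qW‖ ≤ 16` (`qW_basic`). The set
`X × Win` has finite volume (`D` is bounded). -/
theorem near_small (S : Spec D) (G : Geo D) {l : ℝ} (hl : 0 < l) (C₁ : ℝ) :
    ∀ᶠ δ in 𝓝[>] (0 : ℝ), ∀ W : Walls G (th δ / 4), ∀ N : Set P,
    volume N ≤ ENNReal.ofReal (C₁ * δ ^ 19) →
    ∫⁻ z in {z : P × P | z.1 ∈ G.X δ ∧ z.1 ∈ N ∧ z.2 ∈ Win δ ∧
        GoodUpTo W (tau δ) (th δ) (l + 1 / 2) z},
      ENNReal.ofReal ‖qW S W δ l z‖ ≤ ENNReal.ofReal (δ * hh δ) := by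
  obtain ⟨C, hC0, hC⟩ := res_near (lin1_gam G (l + 1)).2 hl
  have hc1 : 0 < 1 / (2 * (16 * (C * |C₁|) + 1)) := by positivity
  have hc2 : 0 < 1 / (2 * ((volume (D ×ˢ Sq2)).toReal + 1)) := by positivity
  filter_upwards [hC, nonres S G hl, f11_ev hc1, f11_ev hc2] with δ h1 h2 h0 h0' W N hN
  obtain ⟨hδ, hδ1, hδ2⟩ := h0
  have hδ3 := h0'.2.2
  have e1 : 16 * (C * |C₁|) * δ ≤ 1 / 2 := by
    rw [le_div_iff₀ (by positivity)] at hδ2
    nlinarith
  have e2 : (volume (D ×ˢ Sq2)).toReal * δ ≤ 1 / 2 := by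
    rw [le_div_iff₀ (by positivity)] at hδ3
    nlinarith
  refine f11_good S G hδ hδ1 W (R := Res (G.Img (l + 1)) δ l) (v := C * |C₁| * δ ^ 97)
    (fun z hz => ⟨hz.1, hz.2.2.1⟩) (fun z hz hR => ?_) ?_ ?_ e2
  · exact h2 W z hz.1 hz.2.2.1 hz.2.2.2 (Or.inr hR)
  · calc volume ({z : P × P | z.1 ∈ G.X δ ∧ z.1 ∈ N ∧ z.2 ∈ Win δ ∧
          GoodUpTo W (tau δ) (th δ) (l + 1 / 2) z} ∩ Res (G.Img (l + 1)) δ l)
        ≤ volume {z : P × P | z ∈ Res (G.Img (l + 1)) δ l ∧ z.1 ∈ N} :=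
          measure_mono fun z hz => ⟨hz.2, hz.1.2.1⟩
      _ ≤ ENNReal.ofReal (C * kap δ ^ 2) * volume N := h1 N
      _ ≤ ENNReal.ofReal (C * kap δ ^ 2) * ENNReal.ofReal (|C₁| * δ ^ 19) := by
          gcongr
          refine hN.trans (ENNReal.ofReal_le_ofReal ?_)
          exact mul_le_mul_of_nonneg_right (le_abs_self _) (by positivity)
      _ = ENNReal.ofReal (C * |C₁| * δ ^ 97) := by
          rw [← ENNReal.ofReal_mul (by positivity)]
          congr 1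
          unfold kap
          ring
  · have h5 := f11_pow hδ (by linarith) e1 (by positivity) (n := 97) (by norm_num)
    linarith

/-- The trace at the lengths that are not translations. Proof. `exists_walls` gives `W` for every
small `δ`. `X ×ˢ univ` is covered by the set of `rest_small`, by the good part over
`N = {x ∈ D within κ of a line}` (`near_wall_area`: volume `≤ C κ = C δ ^ 39`; `near_small`) and by
the good part over the other points, for which `W.Int κ x` holds (`W.near1`, `W.near2`); there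
`‖qW‖ ≤ δ ^ 1000` off `Res (G.Gam (l + 1))` (`nonres`) and the volume of this set over `D` is
`O(κ³)` (`res_vol`). So `‖∫ qW‖ ≤ C δ h` (`norm_integral_le_lintegral_norm`) and by
`trace_formula` and `cst_near` (`cst ≥ 1/2`) `‖h² LamF‖ ≤ C' δ h`, i.e. `‖h LamF‖ ≤ C' δ → 0`. -/
theorem trace_small (S : Spec D) (G : Geo D) {l : ℝ} (hl : 0 < l)
    (hne : ∀ c : P, ((1, 1), c) ∈ G.Gam (l + 1) → sq c ≠ l ^ 2) :
    Tendsto (fun δ => (hh δ : ℂ) * LamF S.lam (hh δ) l) (𝓝[>] 0) (𝓝 0) := by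
  obtain ⟨C, hC⟩ := rest_small S G hl
  obtain ⟨C1, hC1⟩ := near_wall_area G
  obtain ⟨C2, hC2⟩ := res_vol (lin1_gam G (l + 1)).1 hl hne G.isBounded
  have hc1 : 0 < 1 / (2 * (16 * |C2| + 1)) := by positivity
  have hc2 : 0 < 1 / (2 * ((volume (D ×ˢ Sq2)).toReal + 1)) := by positivity
  have hc3 : 0 < 2 * G.rho0 := mul_pos two_pos G.pos
  have key : ∀ᶠ δ in 𝓝[>] (0 : ℝ), ‖(hh δ : ℂ) * LamF S.lam (hh δ) l‖ ≤ (|C| + 3) * δ := by
    filter_upwards [hC, near_small S G hl |C1|, hC2, nonres S G hl, trace_formula S G l, cst_near,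
      f11_ev hc1, f11_ev hc2, f11_ev hc3] with δ h1 h2 h3 h4 h5 h6 h0 h0' h0''
    obtain ⟨hδ, hδ1, hδ2⟩ := h0
    have hδ3 := h0'.2.2
    have hδ4 := h0''.2.2
    have hhp : 0 < hh δ := pow_pos hδ _
    have hth : 0 < th δ := pow_pos hδ _
    have hthδ : th δ ≤ δ := by
      unfold th
      calc δ ^ 38 ≤ δ ^ 1 := pow_le_pow_of_le_one hδ.le (by linarith) (by norm_num)
        _ = δ := pow_one δ
    have hrho := G.pos
    obtain ⟨W⟩ := exists_walls G (ρ := th δ / 4) (by positivity) (by linarith)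
    have e1 : 16 * |C2| * δ ≤ 1 / 2 := by
      rw [le_div_iff₀ (by positivity)] at hδ2
      nlinarith [abs_nonneg C2]
    have e2 : (volume (D ×ˢ Sq2)).toReal * δ ≤ 1 / 2 := by
      rw [le_div_iff₀ (by positivity)] at hδ3
      nlinarith
    have hk : 0 < kap δ := pow_pos hδ _
    have hk1 : kap δ ≤ 1 := pow_le_one₀ hδ.le (by linarith)
    set N : Set P := {x : P | x ∈ D ∧ ((∃ a ∈ G.A, |a - x.1| < kap δ) ∨
      ∃ b ∈ G.B, |b - x.2| < kap δ)} with hN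
    have hNv : volume N ≤ ENNReal.ofReal (|C1| * δ ^ 19) := by
      refine (hC1 _ hk hk1).trans (ENNReal.ofReal_le_ofReal ?_)
      refine mul_le_mul (le_abs_self _) ?_ hk.le (abs_nonneg _)
      unfold kap
      exact pow_le_pow_of_le_one hδ.le (by linarith) (by norm_num)
    -- the part over the other points
    have k3 : ∫⁻ z in {z : P × P | z.1 ∈ G.X δ ∧ z.1 ∉ N ∧ z.2 ∈ Win δ ∧
        GoodUpTo W (tau δ) (th δ) (l + 1 / 2) z}, ENNReal.ofReal ‖qW S W δ l z‖ ≤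
        ENNReal.ofReal (δ * hh δ) := by
      refine f11_good S G hδ hδ1 W (R := Res (G.Gam (l + 1)) δ l) (v := |C2| * kap δ ^ 3)
        (fun z hz => ⟨hz.1, hz.2.2.1⟩) (fun z hz hR => ?_) ?_ ?_ e2
      · refine h4 W z hz.1 hz.2.2.1 hz.2.2.2 (Or.inl ⟨?_, hR⟩)
        refine ⟨fun hs => ?_, fun hs => ?_⟩
        · by_contra hc
          exact hz.2.1 ⟨hz.1.1, Or.inl ⟨_, (W.near1 z.1 hs).1, not_le.1 hc⟩⟩
        · by_contra hc
          exact hz.2.1 ⟨hz.1.1, Or.inr ⟨_, (W.near2 z.1 hs).1, not_le.1 hc⟩⟩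
      · refine (measure_mono fun z hz => ?_).trans (h3.trans (ENNReal.ofReal_le_ofReal
          (mul_le_mul_of_nonneg_right (le_abs_self _) (by positivity))))
        exact ⟨hz.2, hz.1.1.1⟩
      · have e3 : kap δ ^ 3 = δ ^ 117 := by
          unfold kap
          ring
        have h7 := f11_pow hδ (by linarith) e1 (by positivity) (n := 117) (by norm_num)
        rw [e3]
        linarith
    have hsub : G.X δ ×ˢ (univ : Set P) ⊆ {z : P × P | z.1 ∈ G.X δ ∧ ¬(z.2 ∈ Win δ ∧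
        GoodUpTo W (tau δ) (th δ) (l + 1 / 2) z)} ∪ ({z : P × P | z.1 ∈ G.X δ ∧ z.1 ∈ N ∧
        z.2 ∈ Win δ ∧ GoodUpTo W (tau δ) (th δ) (l + 1 / 2) z} ∪ {z : P × P | z.1 ∈ G.X δ ∧
        z.1 ∉ N ∧ z.2 ∈ Win δ ∧ GoodUpTo W (tau δ) (th δ) (l + 1 / 2) z}) := by
      rintro z ⟨hz, -⟩
      by_cases hg : z.2 ∈ Win δ ∧ GoodUpTo W (tau δ) (th δ) (l + 1 / 2) z
      · by_cases hn : z.1 ∈ N
        · exact Or.inr (Or.inl ⟨hz, hn, hg.1, hg.2⟩)
        · exact Or.inr (Or.inr ⟨hz, hn, hg.1, hg.2⟩)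
      · exact Or.inl ⟨hz, hg⟩
    have k4 : ∫⁻ z in G.X δ ×ˢ (univ : Set P), ENNReal.ofReal ‖qW S W δ l z‖ ≤
        ENNReal.ofReal ((|C| + 2) * (δ * hh δ)) := by
      refine (lintegral_mono_set hsub).trans ((lintegral_union_le _ _ _).trans ?_)
      refine (add_le_add (h1 W) ((lintegral_union_le _ _ _).trans
        (add_le_add (h2 W N hNv) k3))).trans ?_
      refine (add_le_add (ENNReal.ofReal_le_ofReal (mul_le_mul_of_nonneg_right (le_abs_self C)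
        (by positivity : (0 : ℝ) ≤ δ * hh δ))) le_rfl).trans ?_
      rw [← ENNReal.ofReal_add (by positivity) (by positivity),
        ← ENNReal.ofReal_add (by positivity) (by positivity)]
      exact ENNReal.ofReal_le_ofReal (le_of_eq (by ring))
    have k5 : ‖∫ z in G.X δ ×ˢ (univ : Set P), qW S W δ l z‖ ≤ (|C| + 2) * (δ * hh δ) := by
      refine (norm_integral_le_lintegral_norm _).trans ?_
      exact ENNReal.toReal_le_of_le_ofReal (by positivity) k4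
    have k6 := (h5 W).2
    have k7 : ‖((cst δ * (2 * Real.pi * hh δ) ^ 2 : ℝ) : ℂ) * LamF S.lam (hh δ) l‖ ≤
        (|C| + 3) * (δ * hh δ) := by
      have := norm_le_norm_add_norm_sub' (((cst δ * (2 * Real.pi * hh δ) ^ 2 : ℝ) : ℂ) *
        LamF S.lam (hh δ) l) (∫ z in G.X δ ×ˢ (univ : Set P), qW S W δ l z)
      linarith
    have hcst : 1 / 2 ≤ cst δ := by
      have h8 : δ ^ 1000 ≤ 1 / 4 := by
        calc δ ^ 1000 ≤ δ ^ 1 := pow_le_pow_of_le_one hδ.le (by linarith) (by norm_num)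
          _ ≤ 1 / 4 := by rw [pow_one]; exact hδ1
      linarith [h6.1]
    have hpi := Real.pi_gt_three
    have k8 : hh δ ^ 2 ≤ cst δ * (2 * Real.pi * hh δ) ^ 2 := by
      have h9 : 1 ≤ cst δ * (2 * Real.pi) ^ 2 := by nlinarith
      calc hh δ ^ 2 = 1 * hh δ ^ 2 := (one_mul _).symm
        _ ≤ cst δ * (2 * Real.pi) ^ 2 * hh δ ^ 2 := mul_le_mul_of_nonneg_right h9 (by positivity)
        _ = _ := by ring
    rw [norm_mul, Complex.norm_real, Real.norm_eq_abs,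
      abs_of_nonneg (le_trans (by positivity) k8)] at k7
    rw [norm_mul, Complex.norm_real, Real.norm_eq_abs, abs_of_pos hhp]
    have k9 : hh δ ^ 2 * ‖LamF S.lam (hh δ) l‖ ≤ (|C| + 3) * (δ * hh δ) :=
      (mul_le_mul_of_nonneg_right k8 (norm_nonneg _)).trans k7
    have k10 : hh δ * (hh δ * ‖LamF S.lam (hh δ) l‖) ≤ hh δ * ((|C| + 3) * δ) := by
      calc hh δ * (hh δ * ‖LamF S.lam (hh δ) l‖) = hh δ ^ 2 * ‖LamF S.lam (hh δ) l‖ := by ring
        _ ≤ (|C| + 3) * (δ * hh δ) := k9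
        _ = _ := by ring
    exact le_of_mul_le_mul_left k10 hhp
  rw [tendsto_zero_iff_norm_tendsto_zero]
  refine squeeze_zero' (Eventually.of_forall fun δ => norm_nonneg _) key ?_
  have h : Tendsto (fun δ : ℝ => (|C| + 3) * δ) (𝓝 0) (𝓝 ((|C| + 3) * 0)) :=
    tendsto_id.const_mul _
  rw [mul_zero] at h
  exact h.mono_left nhdsWithin_le_nhds

private theorem f11_rf (A : Finset ℝ) {m n : ℕ} (h : m ≤ n) : Rf A m ⊆ Rf A n := by
  induction n, h using Nat.le_induction with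
  | base => exact Finset.Subset.refl _
  | succ n hn ih => exact ih.trans Finset.subset_union_left

private theorem f11_gam (G : Geo D) {T T' : ℝ} (h : T ≤ T') : G.Gam T ⊆ G.Gam T' := by
  have hn : G.NT T ≤ G.NT T' := by
    unfold Geo.NT
    have := G.pos
    gcongr
  intro γ hγ
  rw [Geo.Gam, Finset.mem_filter, Finset.mem_image] at hγ ⊢
  obtain ⟨⟨p, hp, hp'⟩, h2⟩ := hγ
  rw [Finset.mem_product] at hp
  exact ⟨⟨p, Finset.mem_product.2 ⟨f11_rf _ hn hp.1, f11_rf _ hn hp.2⟩, hp'⟩, h2⟩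

/-- `K2` (see `OutF`). Proof. `exists_spec`, `exists_geo`. Let `m₀ = 16 ρ₀`. Given `X` let `F` be
the set of all `√(sq c)` with `((1, 1), c) ∈ G.Gam (X + 1)` and `c ≠ 0`: finite, and
`√(sq c) ≥ |c_i| ≥ 16 ρ₀` for a coordinate `c_i ≠ 0` by the filter in `Geo.Gam`. If `0 < l ≤ X` and
`((1, 1), c) ∈ G.Gam (l + 1)` has `sq c = l²`, then `c ≠ 0` and `((1, 1), c) ∈ G.Gam (X + 1)`
(`Rf` is monotone in `n`, `NT` is monotone), so `l ∈ F`. Otherwise `trace_small`. -/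
theorem K2_pf (hD : RectDomain D) {lam : ℕ → ℝ} (hS : HasSpectrum D lam) : ∃ m₀ > 0, ∀ X : ℝ,
    ∃ F : Set ℝ, F.Finite ∧ (∀ l ∈ F, m₀ ≤ l) ∧ ∀ l, 0 < l → l ≤ X → l ∉ F →
      Tendsto (fun δ => (hh δ : ℂ) * LamF lam (hh δ) l) (𝓝[>] 0) (𝓝 0) := by
  obtain ⟨S, rfl⟩ := exists_spec hD.isOpen hS
  obtain ⟨G, -⟩ := exists_geo hD
  refine ⟨16 * G.rho0, mul_pos (by norm_num) G.pos, fun X => ?_⟩
  refine ⟨(fun γ : P × P => Real.sqrt (sq γ.2)) ''
    {γ | γ ∈ G.Gam (X + 1) ∧ γ.1 = (1, 1) ∧ γ.2 ≠ 0}, ?_, ?_, ?_⟩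
  · exact ((G.Gam (X + 1)).finite_toSet.subset fun γ hγ => hγ.1).image _
  · rintro l ⟨γ, ⟨hγ, h1, h2⟩, rfl⟩
    rw [Geo.Gam, Finset.mem_filter] at hγ
    obtain ⟨-, h3, h4⟩ := hγ
    have h5 : γ.1.1 = 1 := by rw [h1]
    have h6 : γ.1.2 = 1 := by rw [h1]
    have h7 : γ.2.1 ≠ 0 ∨ γ.2.2 ≠ 0 := by
      by_contra hc
      rw [not_or, not_not, not_not] at hc
      exact h2 (Prod.ext hc.1 hc.2)
    have s1 := sq_nonneg γ.2.1
    have s2 := sq_nonneg γ.2.2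
    rcases h7 with h7 | h7
    · refine (h3 h5 h7).trans (Real.abs_le_sqrt ?_)
      unfold sq
      linarith
    · refine (h4 h6 h7).trans (Real.abs_le_sqrt ?_)
      unfold sq
      linarith
  · intro l hl hlX hlF
    refine trace_small S G hl fun c hc hcl => hlF ?_
    refine ⟨((1, 1), c), ⟨f11_gam G (by linarith) hc, rfl, fun h0 => ?_⟩, ?_⟩
    · have h0' : c = 0 := h0
      rw [h0'] at hcl
      have : l ^ 2 = 0 := by
        rw [← hcl]
        simp [sq]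
      exact hl.ne' (pow_eq_zero_iff (two_ne_zero)|>.1 this)
    · show Real.sqrt (sq c) = l
      rw [hcl, Real.sqrt_sq hl.le]

end

end Pool.Agent.MP4eed4eR
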