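import Pool.Agent.Lib.MP_4eed4e_an_R.A14

/-!
MP_4eed4e_an, project R, block A (geometry and billiard). Statements exported to the other blocks.
-/

namespace Pool.Agent.MP4eed4eR

open MeasureTheory Set Filter Topology Metric

noncomputable section

variable {D : Set P}

/-- A6: stability near a fixed unit direction, off a set of small area. -/
theorem stab (G : Geo D) {l : ℝ} (hl : 0 < l) {c : P} (hc : sq c = l ^ 2) :
    ∀ᶠ δ in 𝓝[>] (0 : ℝ), ∀ W : Walls G (th δ / 4), ∃ E : Set P, MeasurableSet E ∧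
      volume E ≤ ENNReal.ofReal (δ ^ 20) ∧ ∀ x ∈ D, x ∉ E →
      (W.w1 x).2 = 0 ∧ (W.w2 x).2 = 0 ∧ ∃ γ ∈ G.Gam (l + 1), ∀ ξ : P,
      |ξ.1 + c.1 / l| ≤ thp δ → |ξ.2 + c.2 / l| ≤ thp δ → ∀ t, |t - l| ≤ kap δ →
      GoodUpTo W (tau δ) (th δ) (l + 1 / 2) (x, ξ) ∧
      flow W (tau δ) t (x, ξ) = (app γ (x + t • ξ), lin γ ξ) ∧
      (W.w1 (app γ (x + t • ξ))).2 = 0 ∧ (W.w2 (app γ (x + t • ξ))).2 = 0 :=
  BlA.stab G hl hc

end

end Pool.Agent.MP4eed4eR
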