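import Pool.Agent.Lib.MP_4eed4e_an_R.F07
import Pool.Agent.Lib.MP_4eed4e_an_R.OutA2
import Pool.Agent.Lib.MP_4eed4e_an_R.OutA4
import Pool.Agent.Lib.MP_4eed4e_an_R.OutA5

/-!
MP_4eed4e_an, project R, module F12: the exceptional set and measurability.
-/

namespace Pool.Agent.MP4eed4eR

open MeasureTheory Set Filter Topology Metric

noncomputable section

variable {D : Set P}

private theorem continuous_sq' : Continuous sq := by
  unfold sq; fun_prop

private theorem meas_far (G : Geo D) (θ : ℝ) : MeasurableSet {x : P | G.Far θ x} := by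
  have h : {x : P | G.Far θ x} = ⋂ v ∈ G.V, {x : P | θ ≤ dist x v} := by
    ext x; simp [Geo.Far]
  rw [h]
  refine Finset.measurableSet_biInter _ (fun v _ => ?_)
  exact (isClosed_le continuous_const (continuous_id.dist continuous_const)).measurableSet

private theorem meas_flow {G : Geo D} {ρ : ℝ} (W : Walls G ρ) (τ t : ℝ) :
    Measurable (flow W τ t) := by
  unfold flow
  exact (measurable_stp W _).comp ((measurable_stp W τ).iterate _)

private theorem meas_N (G : Geo D) (ρ : ℝ) :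
    MeasurableSet {x : P | x ∈ D ∧ ((∃ a ∈ G.A, |a - x.1| < ρ) ∨ ∃ b ∈ G.B, |b - x.2| < ρ)} := by
  refine IsOpen.measurableSet ?_
  refine G.isOpen.inter (IsOpen.union ?_ ?_)
  · have h : {x : P | ∃ a ∈ G.A, |a - x.1| < ρ} = ⋃ a ∈ G.A, {x : P | |a - x.1| < ρ} := by
      ext x; simp
    change IsOpen {x : P | ∃ a ∈ G.A, |a - x.1| < ρ}
    rw [h]
    exact isOpen_biUnion (fun a _ => isOpen_lt (by fun_prop) continuous_const)
  · have h : {x : P | ∃ a ∈ G.B, |a - x.2| < ρ} = ⋃ a ∈ G.B, {x : P | |a - x.2| < ρ} := by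
      ext x; simp
    change IsOpen {x : P | ∃ a ∈ G.B, |a - x.2| < ρ}
    rw [h]
    exact isOpen_biUnion (fun a _ => isOpen_lt (by fun_prop) continuous_const)

/-- The good set and the sets `Xc` are measurable. Proof: `measurable_stp`, iterates of a measurable
map are measurable; `G.Far θ` is a finite intersection of closed sets; only finitely many `k` with
`k τ ≤ T` matter (or a countable intersection over all `k`, with the constant condition
`k τ ≤ T`); the flow is a composition of measurable maps; `{x | f x = g x}` is measurable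
(`measurableSet_eq_fun`); `G.X δ` is measurable (`G.isOpen`). -/
theorem meas_good (G : Geo D) {ρ : ℝ} (W : Walls G ρ) (δ θ T l : ℝ) :
    MeasurableSet {z : P × P | GoodUpTo W (tau δ) θ T z} ∧ MeasurableSet (G.X δ) ∧
      MeasurableSet (Win δ) ∧ MeasurableSet Sq2 ∧
      ∀ (E : Set P) (c : P), MeasurableSet E → MeasurableSet (Xc W δ l E c) := by
  have hX : MeasurableSet (G.X δ) := G.isOpen.measurableSet.inter (meas_far G (th δ))
  refine ⟨?_, hX, ?_, ?_, ?_⟩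
  · have h : {z : P × P | GoodUpTo W (tau δ) θ T z} =
        ⋂ k : ℕ, {z : P × P | (k : ℝ) * tau δ ≤ T → G.Far θ ((stp W (tau δ))^[k] z).1} := by
      ext z; simp [GoodUpTo]
    rw [h]
    refine MeasurableSet.iInter fun k => ?_
    by_cases hk : (k : ℝ) * tau δ ≤ T
    · have h2 : {z : P × P | (k : ℝ) * tau δ ≤ T → G.Far θ ((stp W (tau δ))^[k] z).1} =
          (fun z : P × P => ((stp W (tau δ))^[k] z).1) ⁻¹' {x : P | G.Far θ x} := by
        ext z; simp [hk]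
      rw [h2]
      exact (measurable_fst.comp ((measurable_stp W (tau δ)).iterate k)) (meas_far G θ)
    · have h2 : {z : P × P | (k : ℝ) * tau δ ≤ T → G.Far θ ((stp W (tau δ))^[k] z).1} =
          univ := by
        ext z; simp [hk]
      rw [h2]
      exact MeasurableSet.univ
  · unfold Win
    exact (isClosed_le ((continuous_sq'.sub continuous_const).abs)
      continuous_const).measurableSet
  · have h1 : IsClosed {ξ : P | |ξ.1| ≤ 2} := isClosed_le (by fun_prop) continuous_const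
    have h2 : IsClosed {ξ : P | |ξ.2| ≤ 2} := isClosed_le (by fun_prop) continuous_const
    exact (h1.inter h2).measurableSet
  · intro E c hE
    have hf : Measurable fun x : P => flow W (tau δ) l (x, -(1 / l) • c) :=
      (meas_flow W _ _).comp (measurable_id.prodMk measurable_const)
    have hg : Measurable fun x : P => ((x, -(1 / l) • c) : P × P) :=
      measurable_id.prodMk measurable_const
    exact hX.inter (hE.compl.inter (measurableSet_eq_fun hf hg))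

/-- The exceptional set. Proof. `E` is the union of
(i) the sets given by `stab` with `c = γ₀.2` for the finitely many `γ₀ ∈ G.Cl l` (volume
`≤ δ ^ 20` each; `sq γ₀.2 = l²`), intersected with nothing;
(ii) the set `E'` of `res_x` for `Γ = G.Gam (l + 1)`, `B = D` (intersected with `D`);
(iii) the points of `D` within `κ` of a line of `G.A` or `G.B` (`near_wall_area`).
The volume is at most `#Cl δ ^ 20 + C κ + C κ ≤ δ ^ 19` for small `δ` (`κ = δ ^ 39`). Off (iii)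
`W.Int κ x` holds by `W.near1`, `W.near2`; off (ii) the second clause; off (i) `stab` gives for
every `γ₀ ∈ G.Cl l` a map `γ ∈ G.Gam (l + 1)` as in the third clause (`Sqc δ l c` is the square of
`stab`). -/
theorem exc (G : Geo D) {l : ℝ} (hl : 0 < l) : ∀ᶠ δ in 𝓝[>] (0 : ℝ),
    ∀ W : Walls G (th δ / 4), ∃ E : Set P, MeasurableSet E ∧
      volume E ≤ ENNReal.ofReal (δ ^ 19) ∧ ∀ x ∈ G.X δ, x ∉ E →
      W.Int (kap δ) x ∧
      (∀ ξ ∈ Win δ, ∀ t : ℝ, |t - l| ≤ kap δ → ∀ γ ∈ G.Gam (l + 1), γ.1 ≠ (1, 1) →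
        kap δ ^ 2 < sq (x - app γ (x + t • ξ)) + sq (ξ - lin γ ξ)) ∧
      ∀ γ₀ ∈ G.Cl l, ∃ γ ∈ G.Gam (l + 1), ∀ ξ ∈ Sqc δ l γ₀.2, ∀ t : ℝ, |t - l| ≤ kap δ →
        GoodUpTo W (tau δ) (th δ) (l + 1 / 2) (x, ξ) ∧
          flow W (tau δ) t (x, ξ) = (app γ (x + t • ξ), lin γ ξ) := by
  obtain ⟨C1, hC1⟩ := near_wall_area G
  obtain ⟨C2, hC2⟩ := res_x (lin1_gam G (l + 1)).1 hl G.isBounded
  have hst : ∀ᶠ δ in 𝓝[>] (0 : ℝ), ∀ γ₀ ∈ G.Cl l, ∀ W : Walls G (th δ / 4), ∃ E : Set P,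
      MeasurableSet E ∧ volume E ≤ ENNReal.ofReal (δ ^ 20) ∧ ∀ x ∈ D, x ∉ E →
      (W.w1 x).2 = 0 ∧ (W.w2 x).2 = 0 ∧ ∃ γ ∈ G.Gam (l + 1), ∀ ξ : P,
      |ξ.1 + γ₀.2.1 / l| ≤ thp δ → |ξ.2 + γ₀.2.2 / l| ≤ thp δ → ∀ t, |t - l| ≤ kap δ →
      GoodUpTo W (tau δ) (th δ) (l + 1 / 2) (x, ξ) ∧
      flow W (tau δ) t (x, ξ) = (app γ (x + t • ξ), lin γ ξ) ∧
      (W.w1 (app γ (x + t • ξ))).2 = 0 ∧ (W.w2 (app γ (x + t • ξ))).2 = 0 := by
    rw [Filter.eventually_all_finset]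
    intro γ₀ h0
    have h1 : sq γ₀.2 = l ^ 2 := by
      rw [Geo.Cl, Finset.mem_filter] at h0
      exact h0.2.2
    exact stab G hl h1
  have hsm : ∀ᶠ δ in 𝓝[>] (0 : ℝ), (((G.Cl l).card : ℝ) + |C1| + |C2|) * δ < 1 := by
    have h1 : Tendsto (fun δ : ℝ => (((G.Cl l).card : ℝ) + |C1| + |C2|) * δ) (𝓝[>] 0)
        (𝓝 0) := by
      have h2 : Continuous fun δ : ℝ => (((G.Cl l).card : ℝ) + |C1| + |C2|) * δ := by
        fun_prop
      have h3 := h2.tendsto 0
      rw [mul_zero] at h3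
      exact h3.mono_left nhdsWithin_le_nhds
    exact h1.eventually (gt_mem_nhds one_pos)
  filter_upwards [hC2, hst, hsm, Ioo_mem_nhdsGT (one_pos : (0 : ℝ) < 1)]
    with δ h2 hst hsm h01 W
  obtain ⟨E', hE'm, hE'v, hE'⟩ := h2
  choose! E0 hE0m hE0v hE0 using fun γ₀ (h : γ₀ ∈ G.Cl l) => hst γ₀ h W
  have hk0 : 0 < kap δ := pow_pos h01.1 _
  have hk1 : kap δ ≤ 1 := pow_le_one₀ h01.1.le h01.2.le
  have hk20 : kap δ ≤ δ ^ 20 := pow_le_pow_of_le_one h01.1.le h01.2.le (by norm_num)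
  have h20 : (0 : ℝ) ≤ δ ^ 20 := pow_nonneg h01.1.le _
  refine ⟨(⋃ γ₀ ∈ G.Cl l, E0 γ₀) ∪ ((E' ∩ D) ∪ {x : P | x ∈ D ∧
    ((∃ a ∈ G.A, |a - x.1| < kap δ) ∨ ∃ b ∈ G.B, |b - x.2| < kap δ)}), ?_, ?_, ?_⟩
  · exact (Finset.measurableSet_biUnion _ hE0m).union
      ((hE'm.inter G.isOpen.measurableSet).union (meas_N G (kap δ)))
  · have e1 : volume (⋃ γ₀ ∈ G.Cl l, E0 γ₀) ≤
        ENNReal.ofReal (((G.Cl l).card : ℝ) * δ ^ 20) := by
      refine (measure_biUnion_finset_le _ _).trans ?_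
      refine (Finset.sum_le_card_nsmul _ _ (ENNReal.ofReal (δ ^ 20)) hE0v).trans ?_
      rw [nsmul_eq_mul, ← ENNReal.ofReal_natCast, ← ENNReal.ofReal_mul (Nat.cast_nonneg _)]
    have e2 : volume (E' ∩ D) ≤ ENNReal.ofReal (|C2| * δ ^ 20) := by
      refine hE'v.trans (ENNReal.ofReal_le_ofReal ?_)
      exact mul_le_mul (le_abs_self _) hk20 hk0.le (abs_nonneg _)
    have e3 : volume {x : P | x ∈ D ∧
        ((∃ a ∈ G.A, |a - x.1| < kap δ) ∨ ∃ b ∈ G.B, |b - x.2| < kap δ)} ≤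
        ENNReal.ofReal (|C1| * δ ^ 20) := by
      refine (hC1 (kap δ) hk0 hk1).trans (ENNReal.ofReal_le_ofReal ?_)
      exact mul_le_mul (le_abs_self _) hk20 hk0.le (abs_nonneg _)
    refine (measure_union_le _ _).trans ((add_le_add e1 ((measure_union_le _ _).trans
      (add_le_add e2 e3))).trans ?_)
    rw [← ENNReal.ofReal_add (by positivity) (by positivity),
      ← ENNReal.ofReal_add (by positivity) (by positivity)]
    refine ENNReal.ofReal_le_ofReal ?_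
    have h3 : (((G.Cl l).card : ℝ) + |C1| + |C2|) * δ * δ ^ 19 ≤ 1 * δ ^ 19 :=
      mul_le_mul_of_nonneg_right hsm.le (pow_nonneg h01.1.le _)
    have h4 : ((G.Cl l).card : ℝ) * δ ^ 20 + (|C2| * δ ^ 20 + |C1| * δ ^ 20) =
        (((G.Cl l).card : ℝ) + |C1| + |C2|) * δ * δ ^ 19 := by ring
    rw [h4]
    linarith
  · intro x hx hxE
    rw [mem_union, mem_union, not_or, not_or] at hxE
    obtain ⟨hx1, hx2, hx3⟩ := hxE
    have hxD : x ∈ D := hx.1
    have hx2' : x ∉ E' := fun h => hx2 ⟨h, hxD⟩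
    refine ⟨⟨?_, ?_⟩, ?_, ?_⟩
    · intro h
      by_contra hc
      exact hx3 ⟨hxD, Or.inl ⟨_, (W.near1 x h).1, not_le.1 hc⟩⟩
    · intro h
      by_contra hc
      exact hx3 ⟨hxD, Or.inr ⟨_, (W.near2 x h).1, not_le.1 hc⟩⟩
    · exact fun ξ hξ t ht γ hγ hne => hE' x hx2' ξ hξ t ht γ hγ hne
    · intro γ₀ h0
      have hx0 : x ∉ E0 γ₀ := fun h => hx1 (mem_biUnion (Finset.mem_coe.2 h0) h)
      obtain ⟨-, -, γ, hγ, hall⟩ := hE0 γ₀ h0 x hxD hx0
      refine ⟨γ, hγ, fun ξ hξ t ht => ?_⟩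
      have h3 := hall ξ hξ.1 hξ.2 t ht
      exact ⟨h3.1, h3.2.1⟩

end

end Pool.Agent.MP4eed4eR
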