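import Pool.Agent.Lib.MP_4eed4e_an_R.F04
import Pool.Agent.Lib.MP_4eed4e_an_R.F09
import Pool.Agent.Lib.MP_4eed4e_an_R.F10
import Pool.Agent.Lib.MP_4eed4e_an_R.F12

/-!
MP_4eed4e_an, project R, module F13: the momentum integral over a good point.
-/

namespace Pool.Agent.MP4eed4eR

open MeasureTheory Set Filter Topology Metric

noncomputable section

variable {D : Set P}

/-- The three properties of the points of `X` off the exceptional set (see `exc`). -/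
structure Nice {G : Geo D} {ρ : ℝ} (W : Walls G ρ) (δ l : ℝ) (x : P) : Prop where
  int : W.Int (kap δ) x
  lin : ∀ ξ ∈ Win δ, ∀ t : ℝ, |t - l| ≤ kap δ → ∀ γ ∈ G.Gam (l + 1), γ.1 ≠ (1, 1) →
    kap δ ^ 2 < sq (x - app γ (x + t • ξ)) + sq (ξ - Pool.Agent.MP4eed4eR.lin γ ξ)
  stab : ∀ γ₀ ∈ G.Cl l, ∃ γ ∈ G.Gam (l + 1), ∀ ξ ∈ Sqc δ l γ₀.2, ∀ t : ℝ, |t - l| ≤ kap δ →
    GoodUpTo W (tau δ) (th δ) (l + 1 / 2) (x, ξ) ∧
      flow W (tau δ) t (x, ξ) = (app γ (x + t • ξ), Pool.Agent.MP4eed4eR.lin γ ξ)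

private theorem f13_ev01 : ∀ᶠ δ in 𝓝[>] (0 : ℝ), δ ∈ Ioo (0 : ℝ) 1 :=
  Ioo_mem_nhdsGT one_pos

private theorem f13_small (K : ℝ) {d : ℝ} (hd : 0 < d) {n : ℕ} (hn : n ≠ 0) :
    ∀ᶠ δ in 𝓝[>] (0 : ℝ), K * δ ^ n < d := by
  have h1 : Tendsto (fun δ : ℝ => K * δ ^ n) (𝓝[>] 0) (𝓝 0) := by
    have h2 : Continuous fun δ : ℝ => K * δ ^ n := by fun_prop
    have h3 := h2.tendsto 0
    have h4 : K * (0 : ℝ) ^ n = 0 := by rw [zero_pow hn, mul_zero]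
    rw [h4] at h3
    exact h3.mono_left nhdsWithin_le_nhds
  exact h1.eventually (gt_mem_nhds hd)

private theorem f13_sc {δ : ℝ} (hδ : δ ∈ Ioo (0 : ℝ) 1) :
    0 < kap δ ∧ kap δ ≤ th δ ∧ th δ ≤ thp δ ∧ thp δ ≤ 1 ∧ kap δ = δ ^ 3 * thp δ := by
  refine ⟨pow_pos hδ.1 _, pow_le_pow_of_le_one hδ.1.le hδ.2.le (by norm_num),
    pow_le_pow_of_le_one hδ.1.le hδ.2.le (by norm_num), pow_le_one₀ hδ.1.le hδ.2.le, ?_⟩
  unfold kap thp
  ring

private theorem f13_one {γ : P × P} (h : γ.1 = (1, 1)) (y : P) :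
    app γ y = y + γ.2 ∧ lin γ y = y := by
  constructor
  · ext <;> simp [app, h]
  · ext <;> simp [lin, h]

private theorem f13_win {δ : ℝ} (hδ : δ ∈ Ioo (0 : ℝ) 1) {ξ : P} (hW : ξ ∈ Win δ) :
    |ξ.1| ≤ 2 ∧ |ξ.2| ≤ 2 := by
  obtain ⟨-, -, h1, h2, -⟩ := f13_sc hδ
  have h3 := (abs_le.1 (show |sq ξ - 1| ≤ th δ from hW)).2
  unfold sq at h3
  have h4 := sq_nonneg ξ.1
  have h5 := sq_nonneg ξ.2
  exact ⟨abs_le_of_sq_le_sq (by linarith) (by norm_num),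
    abs_le_of_sq_le_sq (by linarith) (by norm_num)⟩

private theorem f13_sqc {δ l : ℝ} (hl : 0 < l) (hδ : δ ∈ Ioo (0 : ℝ) 1) {c : P}
    (hc : sq c = l ^ 2) {ξ : P} (hξ : ξ ∈ Sqc δ l c) : |ξ.1| ≤ 2 ∧ |ξ.2| ≤ 2 := by
  obtain ⟨-, -, -, h2, -⟩ := f13_sc hδ
  unfold sq at hc
  have h4 := sq_nonneg c.1
  have h5 := sq_nonneg c.2
  have h6 : |c.1| ≤ l := abs_le_of_sq_le_sq (by linarith) hl.le
  have h7 : |c.2| ≤ l := abs_le_of_sq_le_sq (by linarith) hl.le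
  have h8 : |c.1 / l| ≤ 1 := by
    rw [abs_div, abs_of_pos hl]
    exact (div_le_one hl).2 h6
  have h9 : |c.2 / l| ≤ 1 := by
    rw [abs_div, abs_of_pos hl]
    exact (div_le_one hl).2 h7
  obtain ⟨h10, h11⟩ := hξ
  have e1 : ξ.1 = (ξ.1 + c.1 / l) - c.1 / l := by ring
  have e2 : ξ.2 = (ξ.2 + c.2 / l) - c.2 / l := by ring
  constructor
  · rw [e1]
    exact (abs_sub _ _).trans (by linarith)
  · rw [e2]
    exact (abs_sub _ _).trans (by linarith)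

private theorem f13_ctr {δ l : ℝ} (hl : 0 < l) (hδ : δ ∈ Ioo (0 : ℝ) 1) {c : P}
    (hc : sq c = l ^ 2) : -(1 / l) • c ∈ Sqc δ l c ∧ -(1 / l) • c ∈ Win δ ∧
      ∀ x : P, x + l • (-(1 / l) • c) + c = x := by
  obtain ⟨h0, h1, h2, h3, -⟩ := f13_sc hδ
  have hl0 := hl.ne'
  refine ⟨⟨?_, ?_⟩, ?_, fun x => ?_⟩
  · have e1 : (-(1 / l) • c).1 + c.1 / l = 0 := by
      simp only [Prod.smul_fst, smul_eq_mul]
      field_simp
      ring
    rw [e1, abs_zero]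
    linarith
  · have e1 : (-(1 / l) • c).2 + c.2 / l = 0 := by
      simp only [Prod.smul_snd, smul_eq_mul]
      field_simp
      ring
    rw [e1, abs_zero]
    linarith
  · have e1 : sq (-(1 / l) • c) - 1 = 0 := by
      have e2 : sq (-(1 / l) • c) = sq c / l ^ 2 := by
        unfold sq
        simp only [Prod.smul_fst, Prod.smul_snd, smul_eq_mul]
        field_simp
      rw [e2, hc, div_self (pow_ne_zero 2 hl0), sub_self]
    change |sq (-(1 / l) • c) - 1| ≤ th δ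
    rw [e1, abs_zero]
    linarith
  · rw [smul_smul]
    have e3 : l * -(1 / l) = -1 := by field_simp
    rw [e3, neg_one_smul, neg_add_cancel_right]

private theorem f13_ne {p q : P} (h : p ≠ q) : 0 < |p.1 - q.1| ∨ 0 < |p.2 - q.2| := by
  by_contra hcon
  rw [not_or, abs_pos, abs_pos, not_not, not_not, sub_eq_zero, sub_eq_zero] at hcon
  exact h (Prod.ext hcon.1 hcon.2)

private theorem f13_trans {l k θ : ℝ} (hl : 0 < l) {ξ c : P} {t : ℝ} (ht : |t - l| ≤ k)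
    (hk0 : 0 ≤ k) (hkt : k ≤ θ) (ht1 : θ ≤ 1) (hW : |sq ξ - 1| ≤ θ)
    (h1 : |t * ξ.1 + c.1| ≤ k) (h2 : |t * ξ.2 + c.2| ≤ k) (hξ : |ξ.1| ≤ 2 ∧ |ξ.2| ≤ 2) :
    |sq c - l ^ 2| ≤ ((l + 1) ^ 2 + (2 * l + 1) + 8 * (l + 1) + 2) * θ := by
  have hk1 : k ≤ 1 := hkt.trans ht1
  set a := t * ξ.1 + c.1 with ha
  set b := t * ξ.2 + c.2 with hb
  have h3 : sq c - l ^ 2 = t ^ 2 * (sq ξ - 1) + (t + l) * (t - l) -
      2 * (t * (ξ.1 * a)) - 2 * (t * (ξ.2 * b)) + a ^ 2 + b ^ 2 := by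
    rw [ha, hb]
    unfold sq
    ring
  have h4 : |t| ≤ l + 1 := by
    have h5 := abs_le.1 ht
    rw [abs_le]
    constructor <;> linarith [h5.1, h5.2]
  have hθ : 0 ≤ θ := hk0.trans hkt
  have b1 : |t ^ 2 * (sq ξ - 1)| ≤ (l + 1) ^ 2 * θ := by
    rw [abs_mul, abs_pow]
    exact mul_le_mul (pow_le_pow_left₀ (abs_nonneg _) h4 2) hW (abs_nonneg _) (by positivity)
  have b2 : |(t + l) * (t - l)| ≤ (2 * l + 1) * θ := by
    rw [abs_mul]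
    refine mul_le_mul ?_ (ht.trans hkt) (abs_nonneg _) (by linarith)
    refine (abs_add_le _ _).trans ?_
    rw [abs_of_pos hl]
    linarith
  have b3 : |t * (ξ.1 * a)| ≤ (l + 1) * (2 * θ) := by
    rw [abs_mul, abs_mul]
    exact mul_le_mul h4 (mul_le_mul hξ.1 (h1.trans hkt) (abs_nonneg _) (by norm_num))
      (by positivity) (by linarith)
  have b4 : |t * (ξ.2 * b)| ≤ (l + 1) * (2 * θ) := by
    rw [abs_mul, abs_mul]
    exact mul_le_mul h4 (mul_le_mul hξ.2 (h2.trans hkt) (abs_nonneg _) (by norm_num))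
      (by positivity) (by linarith)
  have b5 : a ^ 2 ≤ θ := by
    have h6 : |a| ^ 2 ≤ θ := by
      calc |a| ^ 2 = |a| * |a| := by ring
        _ ≤ k * 1 := mul_le_mul h1 (h1.trans hk1) (abs_nonneg _) hk0
        _ ≤ θ := by linarith
    rwa [sq_abs] at h6
  have b6 : b ^ 2 ≤ θ := by
    have h6 : |b| ^ 2 ≤ θ := by
      calc |b| ^ 2 = |b| * |b| := by ring
        _ ≤ k * 1 := mul_le_mul h2 (h2.trans hk1) (abs_nonneg _) hk0
        _ ≤ θ := by linarith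
    rwa [sq_abs] at h6
  rw [h3]
  have c1 := abs_le.1 b1
  have c2 := abs_le.1 b2
  have c3 := abs_le.1 b3
  have c4 := abs_le.1 b4
  have d1 := sq_nonneg a
  have d2 := sq_nonneg b
  rw [abs_le]
  constructor <;> linarith [c1.1, c1.2, c2.1, c2.2, c3.1, c3.2, c4.1, c4.2]

/-- The squares about the directions of the translations of length `l` are disjoint and contain all
resonant directions. Proof. Disjoint: the numbers `c / l` are different for the finitely many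
`c`, `θ' → 0`. Second claim: the signs of `γ` are `(1, 1)` (`Nice.lin`), so `|t ξ + c| ≤ κ`,
`c = γ.2`; with the window this gives `| |c| - l | ≤ 4 κ + l θ`, so `sq c = l²` for small `δ`
(finitely many `c`), `γ ∈ G.Cl l`, and `|l ξ_i + c_i| ≤ 3 κ`, `|ξ_i + c_i / l| ≤ 3 κ / l ≤ θ'`. -/
theorem sqc_facts (G : Geo D) {l : ℝ} (hl : 0 < l) : ∀ᶠ δ in 𝓝[>] (0 : ℝ),
    (∀ γ₀ ∈ G.Cl l, ∀ γ₁ ∈ G.Cl l, γ₀ ≠ γ₁ → Disjoint (Sqc δ l γ₀.2) (Sqc δ l γ₁.2)) ∧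
    ∀ W : Walls G (th δ / 4), ∀ x, Nice W δ l x → ∀ ξ ∈ Win δ, (x, ξ) ∈ Res (G.Gam (l + 1)) δ l →
      ∃ γ₀ ∈ G.Cl l, ξ ∈ Sqc δ l γ₀.2 := by
  have hA : ∀ᶠ δ in 𝓝[>] (0 : ℝ), ∀ γ₀ ∈ G.Cl l, ∀ γ₁ ∈ G.Cl l, γ₀ ≠ γ₁ →
      2 * l * thp δ < |γ₀.2.1 - γ₁.2.1| ∨ 2 * l * thp δ < |γ₀.2.2 - γ₁.2.2| := by
    rw [Filter.eventually_all_finset]
    intro γ₀ h0
    rw [Filter.eventually_all_finset]
    intro γ₁ h1
    by_cases hne : γ₀ = γ₁
    · exact Filter.Eventually.of_forall fun δ h => absurd hne h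
    · have h2 : γ₀.2 ≠ γ₁.2 := by
        intro h3
        refine hne (Prod.ext ?_ h3)
        rw [Geo.Cl, Finset.mem_filter] at h0 h1
        rw [h0.2.1, h1.2.1]
      rcases f13_ne h2 with h3 | h3
      · filter_upwards [f13_small (2 * l) h3 (n := 36) (by norm_num)] with δ h4 _
        exact Or.inl h4
      · filter_upwards [f13_small (2 * l) h3 (n := 36) (by norm_num)] with δ h4 _
        exact Or.inr h4
  have hB : ∀ᶠ δ in 𝓝[>] (0 : ℝ), ∀ γ ∈ G.Gam (l + 1), sq γ.2 ≠ l ^ 2 →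
      ((l + 1) ^ 2 + (2 * l + 1) + 8 * (l + 1) + 2) * th δ < |sq γ.2 - l ^ 2| := by
    rw [Filter.eventually_all_finset]
    intro γ _
    by_cases h2 : sq γ.2 = l ^ 2
    · exact Filter.Eventually.of_forall fun δ h => absurd h2 h
    · have h3 : 0 < |sq γ.2 - l ^ 2| := abs_pos.2 (sub_ne_zero.2 h2)
      filter_upwards [f13_small ((l + 1) ^ 2 + (2 * l + 1) + 8 * (l + 1) + 2) h3 (n := 38)
        (by norm_num)] with δ h4 _
      exact h4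
  filter_upwards [hA, hB, f13_ev01, f13_small 3 hl (n := 3) (by norm_num)] with δ hA hB hδ h3l
  obtain ⟨hk0, hkt, htp, hp1, hkp⟩ := f13_sc hδ
  refine ⟨fun γ₀ h0 γ₁ h1 hne => ?_, fun W x hx ξ hξ hres => ?_⟩
  · rw [Set.disjoint_left]
    rintro ξ ⟨a1, a2⟩ ⟨b1, b2⟩
    have key : ∀ u c c' : ℝ, |u + c / l| ≤ thp δ → |u + c' / l| ≤ thp δ →
        |c - c'| ≤ 2 * l * thp δ := by
      intro u c c' h2 h3
      have e1 : c - c' = l * ((u + c / l) - (u + c' / l)) := by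
        field_simp
        ring
      rw [e1, abs_mul, abs_of_pos hl]
      have h4 := abs_sub (u + c / l) (u + c' / l)
      have h5 := mul_le_mul_of_nonneg_left (h4.trans (add_le_add h2 h3)) hl.le
      linarith
    rcases hA γ₀ h0 γ₁ h1 hne with h2 | h2
    · exact absurd (key _ _ _ a1 b1) (not_le.2 h2)
    · exact absurd (key _ _ _ a2 b2) (not_le.2 h2)
  · obtain ⟨-, t, ht, γ, hγ, hle⟩ := hres
    simp only at hle
    have hγ1 : γ.1 = (1, 1) := by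
      by_contra hne
      exact absurd hle (not_le.2 (hx.lin ξ hξ t ht γ hγ hne))
    have hξ2 := f13_win hδ hξ
    have e1 : x - app γ (x + t • ξ) = -(t • ξ + γ.2) := by
      rw [(f13_one hγ1 _).1]
      abel
    rw [e1, (f13_one hγ1 _).2, sub_self] at hle
    have e2 : sq (-(t • ξ + γ.2)) + sq (0 : P) =
        (t * ξ.1 + γ.2.1) ^ 2 + (t * ξ.2 + γ.2.2) ^ 2 := by
      unfold sq
      simp only [Prod.fst_neg, Prod.snd_neg, Prod.fst_add, Prod.snd_add, Prod.smul_fst,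
        Prod.smul_snd, smul_eq_mul, Prod.fst_zero, Prod.snd_zero]
      ring
    rw [e2] at hle
    have q1 := sq_nonneg (t * ξ.1 + γ.2.1)
    have q2 := sq_nonneg (t * ξ.2 + γ.2.2)
    have h1 : |t * ξ.1 + γ.2.1| ≤ kap δ := abs_le_of_sq_le_sq (by linarith) hk0.le
    have h2 : |t * ξ.2 + γ.2.2| ≤ kap δ := abs_le_of_sq_le_sq (by linarith) hk0.le
    have h3 := f13_trans hl ht hk0.le hkt (by linarith) hξ h1 h2 hξ2
    have h4 : sq γ.2 = l ^ 2 := by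
      by_contra hne
      exact absurd h3 (not_le.2 (hB γ hγ hne))
    refine ⟨γ, ?_, ?_⟩
    · rw [Geo.Cl, Finset.mem_filter]
      exact ⟨hγ, hγ1, h4⟩
    · have key : ∀ u c : ℝ, |u| ≤ 2 → |t * u + c| ≤ kap δ → |u + c / l| ≤ thp δ := by
        intro u c hu hc
        have e3 : u + c / l = ((t * u + c) - (t - l) * u) / l := by
          field_simp
          ring
        rw [e3, abs_div, abs_of_pos hl, div_le_iff₀ hl]
        have h5 : |(t - l) * u| ≤ kap δ * 2 := by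
          rw [abs_mul]
          exact mul_le_mul ht hu (abs_nonneg _) hk0.le
        have h6 := abs_sub (t * u + c) ((t - l) * u)
        have h7 : 3 * kap δ ≤ thp δ * l := by
          rw [hkp]
          have h8 : 0 ≤ thp δ := by linarith
          nlinarith
        linarith
      exact ⟨key _ _ hξ2.1 h1, key _ _ hξ2.2 h2⟩

/-- At a nice point with a closed orbit in the direction `-c / l` the matrix element is `Ktil` near
this direction. Proof. Let `γ` be the map of `Nice.stab` for `γ₀`, `c = γ₀.2`. At `ξ = -c / l`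
(which is in `Sqc` and in `Win δ`, `sq ξ = 1`), `t = l`, `x ∈ Xc` says `app γ (x - c) = x` and
`lin γ ξ = ξ`; if `γ.1 ≠ (1, 1)` this contradicts `Nice.lin` (`0 < κ²`). So `γ.1 = (1, 1)`,
`γ.2 = c`, and `near_c` applies. -/
theorem near_closed (S : Spec D) (G : Geo D) {l : ℝ} (hl : 0 < l) : ∀ᶠ δ in 𝓝[>] (0 : ℝ),
    ∀ W : Walls G (th δ / 4), ∀ x, Nice W δ l x → ∀ γ₀ ∈ G.Cl l, ∀ E : Set P,
    x ∈ Xc W δ l E γ₀.2 → ∀ ξ ∈ Sqc δ l γ₀.2, ξ.1 ≠ 0 → ξ.2 ≠ 0 →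
      ‖qW S W δ l (x, ξ) - Ktil δ l γ₀.2 ξ‖ ≤ δ ^ 1000 := by
  have hc1 : ∀ᶠ δ in 𝓝[>] (0 : ℝ), ∀ γ₀ ∈ G.Cl l,
      ∀ W : Walls G (th δ / 4), ∀ x ∈ G.X δ, W.Int (kap δ) x → ∀ ξ ∈ Sq2,
      ξ.1 ≠ 0 → ξ.2 ≠ 0 → (∀ t : ℝ, |t - l| ≤ kap δ →
        GoodUpTo W (tau δ) (th δ) (l + 1 / 2) (x, ξ) ∧
          flow W (tau δ) t (x, ξ) = (x + t • ξ + γ₀.2, ξ)) →
      ‖qW S W δ l (x, ξ) - Ktil δ l γ₀.2 ξ‖ ≤ δ ^ 1000 := by
    rw [Filter.eventually_all_finset]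
    intro γ₀ _
    exact near_c S G hl γ₀.2
  filter_upwards [hc1, f13_ev01] with δ hnc hδ
  intro W x hx γ₀ hγ₀ E hxc ξ hξ hξ1 hξ2
  obtain ⟨hxX, -, hfl⟩ := hxc
  have hγ₀' := hγ₀
  rw [Geo.Cl, Finset.mem_filter] at hγ₀'
  obtain ⟨-, -, hc⟩ := hγ₀'
  obtain ⟨γ, hγ, hst⟩ := hx.stab γ₀ hγ₀
  obtain ⟨c1, c2, c3⟩ := f13_ctr hl hδ hc
  have hk := (f13_sc hδ).1
  have ht0 : |l - l| ≤ kap δ := by
    rw [sub_self, abs_zero]
    exact hk.le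
  have h1 := (hst _ c1 l ht0).2
  rw [hfl, Prod.mk.injEq] at h1
  have hγ1 : γ.1 = (1, 1) := by
    by_contra hne
    have h2 := hx.lin _ c2 l ht0 γ hγ hne
    rw [← h1.1, ← h1.2, sub_self, sub_self] at h2
    have h3 : sq (0 : P) = 0 := by simp [sq]
    rw [h3, add_zero] at h2
    have h4 := sq_nonneg (kap δ)
    linarith
  have hγ2 : γ.2 = γ₀.2 := by
    have h2 := h1.1
    rw [(f13_one hγ1 _).1] at h2
    have h3 := c3 x
    have h4 : x + l • (-(1 / l) • γ₀.2) + γ₀.2 = x + l • (-(1 / l) • γ₀.2) + γ.2 := by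
      rw [h3, ← h2]
    exact (add_left_cancel h4).symm
  refine hnc γ₀ hγ₀ W x hxX hx.int ξ (f13_sqc hl hδ hc hξ) hξ1 hξ2 fun t ht => ?_
  obtain ⟨g1, g2⟩ := hst ξ hξ t ht
  refine ⟨g1, ?_⟩
  rw [g2, (f13_one hγ1 _).1, (f13_one hγ1 _).2, hγ2]

/-- At a nice point without a closed orbit in the direction `-c / l` the matrix element is
negligible near this direction. Proof. Let `γ` be the map of `Nice.stab`. For `ξ ∈ Sqc ∩ Win` and
`|t - l| ≤ κ` the flow is `(app γ (x + t ξ), lin γ ξ)`; `nonres_flow` applies if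
`κ² < |x - app γ (x + t ξ)|² + |ξ - lin γ ξ|²`. If `γ.1 ≠ (1, 1)` this is `Nice.lin`. If
`γ.1 = (1, 1)`, then `γ.2 ≠ c` (otherwise the orbit in the direction `-c / l` is closed at the time
`l`, and `x ∈ Xc W δ l E c` since `x ∈ G.X δ`, `x ∉ E`), and
`|t ξ + γ.2| ≥ |γ.2 - c| - |t ξ + c| ≥ |γ.2 - c| - 2 κ - 2 l θ' > κ` for small `δ`. -/
theorem near_open (S : Spec D) (G : Geo D) {l : ℝ} (hl : 0 < l) : ∀ᶠ δ in 𝓝[>] (0 : ℝ),
    ∀ W : Walls G (th δ / 4), ∀ x ∈ G.X δ, Nice W δ l x → ∀ γ₀ ∈ G.Cl l, ∀ E : Set P, x ∉ E →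
    x ∉ Xc W δ l E γ₀.2 → ∀ ξ ∈ Sqc δ l γ₀.2, ξ ∈ Win δ → ‖qW S W δ l (x, ξ)‖ ≤ δ ^ 1000 := by
  have hA : ∀ᶠ δ in 𝓝[>] (0 : ℝ), ∀ γ₀ ∈ G.Cl l, ∀ γ ∈ G.Gam (l + 1), γ.2 ≠ γ₀.2 →
      (3 + l) * thp δ < |γ.2.1 - γ₀.2.1| ∨ (3 + l) * thp δ < |γ.2.2 - γ₀.2.2| := by
    rw [Filter.eventually_all_finset]
    intro γ₀ _
    rw [Filter.eventually_all_finset]
    intro γ _
    by_cases hne : γ.2 = γ₀.2
    · exact Filter.Eventually.of_forall fun δ h => absurd hne h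
    · rcases f13_ne hne with h3 | h3
      · filter_upwards [f13_small (3 + l) h3 (n := 36) (by norm_num)] with δ h4 _
        exact Or.inl h4
      · filter_upwards [f13_small (3 + l) h3 (n := 36) (by norm_num)] with δ h4 _
        exact Or.inr h4
  filter_upwards [hA, nonres_flow S G hl, f13_ev01] with δ hA hnr hδ
  intro W x hxX hx γ₀ hγ₀ E hxE hxc ξ hξ hξW
  have hγ₀' := hγ₀
  rw [Geo.Cl, Finset.mem_filter] at hγ₀'
  obtain ⟨-, -, hc⟩ := hγ₀'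
  obtain ⟨γ, hγ, hst⟩ := hx.stab γ₀ hγ₀
  obtain ⟨c1, c2, c3⟩ := f13_ctr hl hδ hc
  obtain ⟨hk0, hkt, htp, hp1, hkp⟩ := f13_sc hδ
  have ht0 : |l - l| ≤ kap δ := by
    rw [sub_self, abs_zero]
    exact hk0.le
  have hξ2 := f13_win hδ hξW
  refine hnr W x hxX ξ hξ2 hx.int (hst ξ hξ l ht0).1 fun t ht => ?_
  rw [(hst ξ hξ t ht).2]
  by_cases hγ1 : γ.1 = (1, 1)
  · have hne : γ.2 ≠ γ₀.2 := by
      intro h1
      refine hxc ⟨hxX, hxE, ?_⟩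
      rw [(hst _ c1 l ht0).2, (f13_one hγ1 _).1, (f13_one hγ1 _).2, h1, c3]
    have e1 : sq (x - (app γ (x + t • ξ), lin γ ξ).1) + sq (ξ - (app γ (x + t • ξ), lin γ ξ).2) =
        (t * ξ.1 + γ.2.1) ^ 2 + (t * ξ.2 + γ.2.2) ^ 2 := by
      simp only [(f13_one hγ1 _).1, (f13_one hγ1 _).2]
      unfold sq
      simp only [Prod.fst_add, Prod.snd_add, Prod.smul_fst, Prod.smul_snd, smul_eq_mul,
        Prod.fst_sub, Prod.snd_sub, sub_self, Prod.fst_zero, Prod.snd_zero]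
      ring
    rw [e1]
    have key : ∀ u c c' : ℝ, |u| ≤ 2 → |u + c / l| ≤ thp δ → (3 + l) * thp δ < |c' - c| →
        kap δ ^ 2 < (t * u + c') ^ 2 := by
      intro u c c' hu h1 h2
      have e2 : c' - c = (t * u + c') - (t - l) * u - l * (u + c / l) := by
        field_simp
        ring
      have h5 : |(t - l) * u| ≤ kap δ * 2 := by
        rw [abs_mul]
        exact mul_le_mul ht hu (abs_nonneg _) hk0.le
      have h6 : |l * (u + c / l)| ≤ l * thp δ := by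
        rw [abs_mul, abs_of_pos hl]
        exact mul_le_mul_of_nonneg_left h1 hl.le
      have h7 : |c' - c| ≤ |t * u + c'| + |(t - l) * u| + |l * (u + c / l)| := by
        rw [e2]
        exact (abs_sub _ _).trans (add_le_add (abs_sub _ _) le_rfl)
      have h8 : kap δ < |t * u + c'| := by linarith
      rw [← sq_abs (t * u + c')]
      exact pow_lt_pow_left₀ h8 hk0.le two_ne_zero
    have q1 := sq_nonneg (t * ξ.1 + γ.2.1)
    have q2 := sq_nonneg (t * ξ.2 + γ.2.2)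
    rcases hA γ₀ hγ₀ γ hγ hne with h2 | h2
    · have := key ξ.1 γ₀.2.1 γ.2.1 hξ2.1 hξ.1 h2
      linarith
    · have := key ξ.2 γ₀.2.2 γ.2.2 hξ2.2 hξ.2 h2
      linarith
  · exact hx.lin ξ hξW t ht γ hγ hγ1

private theorem f13_vol : volume Sq2 = 16 := by
  have h1 : Sq2 = Icc (-2 : ℝ) 2 ×ˢ Icc (-2 : ℝ) 2 := by
    ext ξ
    simp only [Sq2, Set.mem_ofPred_eq, mem_prod, mem_Icc, abs_le]
  rw [h1, Measure.volume_eq_prod, Measure.prod_prod, Real.volume_Icc,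
    ← ENNReal.ofReal_mul (by norm_num)]
  norm_num

private theorem f13_axes : ∀ᵐ ξ : P, ξ.1 ≠ 0 ∧ ξ.2 ≠ 0 := by
  have h1 : volume {ξ : P | ξ.1 = 0} = 0 := by
    have e1 : {ξ : P | ξ.1 = 0} = {(0 : ℝ)} ×ˢ univ := by
      ext ξ
      simp
    rw [e1, Measure.volume_eq_prod, Measure.prod_prod]
    simp
  have h2 : volume {ξ : P | ξ.2 = 0} = 0 := by
    have e1 : {ξ : P | ξ.2 = 0} = univ ×ˢ {(0 : ℝ)} := by
      ext ξ
      simp
    rw [e1, Measure.volume_eq_prod, Measure.prod_prod]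
    simp
  rw [Filter.eventually_and]
  constructor
  · rw [ae_iff]
    simpa using h1
  · rw [ae_iff]
    simpa using h2

private theorem f13_bd {f : P → ℂ} {B : Set P} (hB : B ⊆ Sq2) {ε : ℝ} (hε : 0 ≤ ε)
    (h : ∀ ξ ∈ B, ξ.1 ≠ 0 → ξ.2 ≠ 0 → ‖f ξ‖ ≤ ε) : ‖∫ ξ in B, f ξ‖ ≤ 16 * ε := by
  have h1 : volume B ≤ 16 := (measure_mono hB).trans f13_vol.le
  have h2 : volume B < ⊤ := h1.trans_lt (by norm_num)
  have h3 : ∀ᵐ ξ : P, ξ ∈ B → ‖f ξ‖ ≤ ε := by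
    filter_upwards [f13_axes] with ξ h4 h5
    exact h ξ h5 h4.1 h4.2
  have h6 := norm_setIntegral_le_of_norm_le_const_ae' h2 h3
  have h7 : volume.real B ≤ 16 := by
    rw [Measure.real]
    exact ENNReal.toReal_le_of_le_ofReal (by norm_num) (by simpa using h1)
  calc ‖∫ ξ in B, f ξ‖ ≤ ε * volume.real B := h6
    _ ≤ ε * 16 := mul_le_mul_of_nonneg_left h7 hε
    _ = 16 * ε := by ring

open Classical in
/-- The momentum integral. Proof. The set of the good momenta of the window is the disjoint union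
of the sets `Win δ ∩ Sqc δ l γ₀.2`, `γ₀ ∈ G.Cl l` (all of them good by `Nice.stab`; disjoint by
`sqc_facts`), and of the rest, where `‖qW‖ ≤ δ ^ 1000` by `nonres` (first alternative) and
`sqc_facts`. `volume (Win δ) ≤ 16`. If `x ∉ Xc W δ l E γ₀.2` the part of `γ₀` is `≤ 16 δ ^ 1000`
(`near_open`). If `x ∈ Xc W δ l E γ₀.2`, then `near_closed` (for almost all `ξ`: the coordinate axes
are null sets) and `∫ ξ in Win ∩ Sqc, Ktil = ∫ ξ in Sqc, Ktil - ∫ ξ in Sqc \ Win, Ktil = Zl +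
O (17 δ ^ 1000)` (`Ktil_int`, `Ktil_off`). Measurability: `qW_basic`, `meas_good`. -/
theorem fiber (S : Spec D) (G : Geo D) {l : ℝ} (hl : 0 < l) : ∀ᶠ δ in 𝓝[>] (0 : ℝ),
    ∀ W : Walls G (th δ / 4), ∀ x ∈ G.X δ, Nice W δ l x → ∀ E : Set P, MeasurableSet E → x ∉ E →
    ‖(∫ ξ in {ξ | ξ ∈ Win δ ∧ GoodUpTo W (tau δ) (th δ) (l + 1 / 2) (x, ξ)},
        qW S W δ l (x, ξ)) -
      (((G.Cl l).filter (fun γ₀ => x ∈ Xc W δ l E γ₀.2)).card : ℂ) * Zl δ l‖ ≤ δ ^ 900 := by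
  have hcl : ∀ γ₀ ∈ G.Cl l, sq γ₀.2 = l ^ 2 := by
    intro γ₀ h0
    rw [Geo.Cl, Finset.mem_filter] at h0
    exact h0.2.2
  have hKi : ∀ᶠ δ in 𝓝[>] (0 : ℝ), ∀ γ₀ ∈ G.Cl l,
      IntegrableOn (fun ξ => Ktil δ l γ₀.2 ξ) (Sqc δ l γ₀.2) ∧
        ‖(∫ ξ in Sqc δ l γ₀.2, Ktil δ l γ₀.2 ξ) - Zl δ l‖ ≤ δ ^ 1000 := by
    rw [Filter.eventually_all_finset]
    intro γ₀ h0
    exact Ktil_int hl (hcl γ₀ h0)
  have hKo : ∀ᶠ δ in 𝓝[>] (0 : ℝ), ∀ γ₀ ∈ G.Cl l, ∀ ξ, ξ ∉ Win δ →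
      ‖Ktil δ l γ₀.2 ξ‖ ≤ δ ^ 1000 := by
    rw [Filter.eventually_all_finset]
    intro γ₀ h0
    exact Ktil_off hl (hcl γ₀ h0)
  filter_upwards [hKi, hKo, near_closed S G hl, near_open S G hl, sqc_facts G hl, nonres S G hl,
    f13_ev01, f13_small (33 * ((G.Cl l).card : ℝ) + 16) one_pos (n := 100) (by norm_num)] with δ
    hKi hKo hnc hno hsq hnr hδ hsm
  intro W x hxX hx E hE hxE
  have hδ0 : 0 ≤ δ := hδ.1.le
  have hε : (0 : ℝ) ≤ δ ^ 1000 := pow_nonneg hδ0 _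
  obtain ⟨hk0, -⟩ := f13_sc hδ
  have ht0 : |l - l| ≤ kap δ := by
    rw [sub_self, abs_zero]
    exact hk0.le
  set F : P → ℂ := fun ξ => qW S W δ l (x, ξ) with hF
  have hFm : Measurable F := (qW_basic S W hδ.1 l).1.comp measurable_prodMk_left
  have hFb : ∀ ξ, ‖F ξ‖ ≤ 16 := fun ξ => (qW_basic S W hδ.1 l).2.1 _
  obtain ⟨mG, -, mW, -, -⟩ := meas_good G W δ (th δ) (l + 1 / 2) l
  set M : Set P := {ξ | ξ ∈ Win δ ∧ GoodUpTo W (tau δ) (th δ) (l + 1 / 2) (x, ξ)} with hM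
  have hMm : MeasurableSet M := mW.inter (measurable_prodMk_left mG)
  have hSm : ∀ γ₀ : P × P, MeasurableSet (Sqc δ l γ₀.2) := by
    intro γ₀
    have h1 : Measurable fun ξ : P => |ξ.1 + γ₀.2.1 / l| := by fun_prop
    have h2 : Measurable fun ξ : P => |ξ.2 + γ₀.2.2 / l| := by fun_prop
    exact (measurableSet_le h1 measurable_const).inter (measurableSet_le h2 measurable_const)
  have hAm : ∀ γ₀ : P × P, MeasurableSet (Win δ ∩ Sqc δ l γ₀.2) := fun γ₀ => mW.inter (hSm γ₀)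
  have hWS : Win δ ⊆ Sq2 := fun ξ h => f13_win hδ h
  have hAM : ∀ γ₀ ∈ G.Cl l, Win δ ∩ Sqc δ l γ₀.2 ⊆ M := by
    rintro γ₀ h0 ξ ⟨h1, h2⟩
    obtain ⟨γ, -, hst⟩ := hx.stab γ₀ h0
    exact ⟨h1, (hst ξ h2 l ht0).1⟩
  have hint : ∀ B : Set P, B ⊆ Sq2 → IntegrableOn F B := by
    intro B hB
    refine Measure.integrableOn_of_bounded (M := 16) ?_ hFm.aestronglyMeasurable ?_
    · exact ((measure_mono hB).trans_lt (f13_vol.trans_lt (by norm_num))).ne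
    · exact Filter.Eventually.of_forall hFb
  have hMS : M ⊆ Sq2 := fun ξ h => hWS h.1
  set U : Set P := ⋃ γ₀ ∈ G.Cl l, (Win δ ∩ Sqc δ l γ₀.2) with hU
  have hUm : MeasurableSet U := Finset.measurableSet_biUnion _ fun γ₀ _ => hAm γ₀
  have hUM : U ⊆ M := iUnion₂_subset hAM
  have hsplit := integral_inter_add_sdiff hUm (hint M hMS)
  rw [inter_eq_self_of_subset_right hUM] at hsplit
  have hsum : ∫ ξ in U, F ξ = ∑ γ₀ ∈ G.Cl l, ∫ ξ in Win δ ∩ Sqc δ l γ₀.2, F ξ := by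
    refine integral_biUnion_finset _ (fun γ₀ _ => hAm γ₀) ?_ fun γ₀ _ =>
      hint _ fun ξ h => hWS h.1
    intro γ₀ h0 γ₁ h1 hne
    exact (hsq.1 γ₀ h0 γ₁ h1 hne).mono inter_subset_right inter_subset_right
  have hcard : (((G.Cl l).filter (fun γ₀ => x ∈ Xc W δ l E γ₀.2)).card : ℂ) * Zl δ l =
      ∑ γ₀ ∈ G.Cl l, if x ∈ Xc W δ l E γ₀.2 then Zl δ l else 0 := by
    rw [← Finset.sum_filter, Finset.sum_const, nsmul_eq_mul]
  have hrest : ‖∫ ξ in M \ U, F ξ‖ ≤ 16 * δ ^ 1000 := by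
    refine f13_bd (fun ξ h => hMS h.1) hε fun ξ hξ _ _ => ?_
    refine hnr W (x, ξ) hxX hξ.1.1 hξ.1.2 (Or.inl ⟨hx.int, fun hres => hξ.2 ?_⟩)
    obtain ⟨γ₀, h0, h1⟩ := hsq.2 W x hx ξ hξ.1.1 hres
    exact mem_iUnion₂.2 ⟨γ₀, h0, hξ.1.1, h1⟩
  have hone : ∀ γ₀ ∈ G.Cl l, ‖(∫ ξ in Win δ ∩ Sqc δ l γ₀.2, F ξ) -
      (if x ∈ Xc W δ l E γ₀.2 then Zl δ l else 0)‖ ≤ 33 * δ ^ 1000 := by
    intro γ₀ h0
    have hSS : Sqc δ l γ₀.2 ⊆ Sq2 := fun ξ h => f13_sqc hl hδ (hcl γ₀ h0) h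
    split_ifs with hc
    · obtain ⟨k1, k2⟩ := hKi γ₀ h0
      have k3 := integral_inter_add_sdiff mW k1
      rw [inter_comm] at k3
      have k4 : IntegrableOn (fun ξ => Ktil δ l γ₀.2 ξ) (Win δ ∩ Sqc δ l γ₀.2) :=
        k1.mono_set inter_subset_right
      have k5 : ‖∫ ξ in Sqc δ l γ₀.2 \ Win δ, Ktil δ l γ₀.2 ξ‖ ≤ 16 * δ ^ 1000 :=
        f13_bd (fun ξ h => hSS h.1) hε fun ξ hξ _ _ => hKo γ₀ h0 ξ hξ.2
      have k6 : ‖∫ ξ in Win δ ∩ Sqc δ l γ₀.2, (F ξ - Ktil δ l γ₀.2 ξ)‖ ≤ 16 * δ ^ 1000 :=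
        f13_bd (fun ξ h => hWS h.1) hε fun ξ hξ h1 h2 => hnc W x hx γ₀ h0 E hc ξ hξ.2 h1 h2
      rw [integral_sub (hint _ fun ξ h => hWS h.1) k4] at k6
      have e1 : (∫ ξ in Win δ ∩ Sqc δ l γ₀.2, F ξ) - Zl δ l =
          ((∫ ξ in Win δ ∩ Sqc δ l γ₀.2, F ξ) -
            ∫ ξ in Win δ ∩ Sqc δ l γ₀.2, Ktil δ l γ₀.2 ξ) +
          ((∫ ξ in Sqc δ l γ₀.2, Ktil δ l γ₀.2 ξ) - Zl δ l) -
          ∫ ξ in Sqc δ l γ₀.2 \ Win δ, Ktil δ l γ₀.2 ξ := by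
        rw [← k3]
        ring
      rw [e1]
      refine (norm_sub_le _ _).trans ?_
      have k7 := norm_add_le ((∫ ξ in Win δ ∩ Sqc δ l γ₀.2, F ξ) -
            ∫ ξ in Win δ ∩ Sqc δ l γ₀.2, Ktil δ l γ₀.2 ξ)
          ((∫ ξ in Sqc δ l γ₀.2, Ktil δ l γ₀.2 ξ) - Zl δ l)
      linarith
    · rw [sub_zero]
      have k6 : ‖∫ ξ in Win δ ∩ Sqc δ l γ₀.2, F ξ‖ ≤ 16 * δ ^ 1000 :=
        f13_bd (fun ξ h => hWS h.1) hε fun ξ hξ _ _ =>
          hno W x hxX hx γ₀ h0 E hxE hc ξ hξ.2 hξ.1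
      linarith
  rw [hcard, ← hsplit, hsum, add_sub_right_comm, ← Finset.sum_sub_distrib]
  refine (norm_add_le _ _).trans ?_
  have h1 : ‖∑ γ₀ ∈ G.Cl l, ((∫ ξ in Win δ ∩ Sqc δ l γ₀.2, F ξ) -
      (if x ∈ Xc W δ l E γ₀.2 then Zl δ l else 0))‖ ≤ (G.Cl l).card * (33 * δ ^ 1000) := by
    refine (norm_sum_le _ _).trans ?_
    refine (Finset.sum_le_sum hone).trans ?_
    rw [Finset.sum_const, nsmul_eq_mul]
  have h2 : δ ^ 1000 = δ ^ 100 * δ ^ 900 := by rw [← pow_add]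
  have h3 : (0 : ℝ) ≤ δ ^ 900 := pow_nonneg hδ0 _
  have h4 := mul_le_mul_of_nonneg_right hsm.le h3
  calc _ ≤ (G.Cl l).card * (33 * δ ^ 1000) + 16 * δ ^ 1000 := add_le_add h1 hrest
    _ = (33 * ((G.Cl l).card : ℝ) + 16) * δ ^ 100 * δ ^ 900 := by
        rw [h2]
        ring
    _ ≤ δ ^ 900 := by linarith

end

end Pool.Agent.MP4eed4eR
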