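import Pool.Agent.Lib.MP_4eed4e_an_R.F11
import Pool.Agent.Lib.MP_4eed4e_an_R.F13

/-!
MP_4eed4e_an, project R, module F14: the trace at the lengths of translations.
-/

namespace Pool.Agent.MP4eed4eR

open MeasureTheory Set Filter Topology Metric

noncomputable section

variable {D : Set P}

/-- The sets of the decomposition. -/
private def tmR {G : Geo D} {ρ : ℝ} (W : Walls G ρ) (δ l : ℝ) (E : Set P) : Set (P × P) :=
  {z : P × P | z.1 ∈ G.X δ ∧ z.1 ∉ E ∧ z.2 ∈ Win δ ∧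
    GoodUpTo W (tau δ) (th δ) (l + 1 / 2) z}

private theorem tm_lint {f : P × P → ℂ} {s : Set (P × P)} {B : ℝ} (hB : 0 ≤ B)
    (h : ∫⁻ z in s, ENNReal.ofReal ‖f z‖ ≤ ENNReal.ofReal B) : ‖∫ z in s, f z‖ ≤ B := by
  refine (norm_integral_le_lintegral_norm _).trans ?_
  exact ENNReal.toReal_le_of_le_ofReal hB h

/-- The integral over the good part off `E`. -/
private theorem tm_main (S : Spec D) (G : Geo D) {l δ : ℝ} (hδ : 0 < δ)
    (W : Walls G (th δ / 4)) {E : Set P} (hEm : MeasurableSet E)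
    (hint : IntegrableOn (qW S W δ l) (tmR W δ l E)) (hD : volume D ≠ ⊤)
    (hfib : ∀ x ∈ G.X δ, x ∉ E →
      ‖(∫ ξ in {ξ | ξ ∈ Win δ ∧ GoodUpTo W (tau δ) (th δ) (l + 1 / 2) (x, ξ)},
          qW S W δ l (x, ξ)) -
        Zl δ l * ((∑ γ₀ ∈ G.Cl l, (Xc W δ l E γ₀.2).indicator (fun _ => (1 : ℝ)) x : ℝ) : ℂ)‖ ≤
        δ ^ 900) :
    ‖(∫ z in tmR W δ l E, qW S W δ l z) -
        Zl δ l * ((∑ γ₀ ∈ G.Cl l, (volume (Xc W δ l E γ₀.2)).toReal : ℝ) : ℂ)‖ ≤
      δ ^ 900 * (volume D).toReal := by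
  obtain ⟨hgood, hX, hWin, -, hXc⟩ := meas_good G W δ (th δ) (l + 1 / 2) l
  have hXc' : ∀ c : P, MeasurableSet (Xc W δ l E c) := fun c =>
    (meas_good G W δ (th δ) (l + 1 / 2) l).2.2.2.2 E c hEm
  have hR : MeasurableSet (tmR W δ l E) := by
    have h1 : tmR W δ l E = (Prod.fst ⁻¹' (G.X δ)) ∩ ((Prod.fst ⁻¹' E)ᶜ ∩
        ((Prod.snd ⁻¹' (Win δ)) ∩
          {z : P × P | GoodUpTo W (tau δ) (th δ) (l + 1 / 2) z})) := by
      ext z
      simp [tmR]
    rw [h1]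
    exact (measurable_fst hX).inter ((measurable_fst hEm).compl.inter
      ((measurable_snd hWin).inter hgood))
  have hXD : ∀ c : P, Xc W δ l E c ⊆ D := fun c x hx => hx.1.1
  have hfin : ∀ c : P, volume (Xc W δ l E c) ≠ ⊤ := fun c =>
    ((measure_mono (hXD c)).trans_lt hD.lt_top).ne
  have hint2 : Integrable ((tmR W δ l E).indicator (qW S W δ l)) :=
    (integrable_indicator_iff hR).2 hint
  rw [← integral_indicator hR]
  have hint3 : Integrable ((tmR W δ l E).indicator (qW S W δ l))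
      ((volume : Measure P).prod (volume : Measure P)) := by
    rw [← Measure.volume_eq_prod]
    exact hint2
  have h2 : ∫ z, (tmR W δ l E).indicator (qW S W δ l) z =
      ∫ x, ∫ ξ, (tmR W δ l E).indicator (qW S W δ l) (x, ξ) := by
    rw [Measure.volume_eq_prod, integral_prod _ hint3]
  have h3 : Integrable (fun x => ∫ ξ, (tmR W δ l E).indicator (qW S W δ l) (x, ξ)) :=
    hint3.integral_prod_left
  have h4 : ∀ γ₀ ∈ G.Cl l, Integrable
      (fun x => (Xc W δ l E γ₀.2).indicator (fun _ => (1 : ℝ)) x) := by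
    intro γ₀ _
    exact (integrable_indicator_iff (hXc' _)).2 (integrableOn_const (hfin _))
  have h5 : Integrable (fun x =>
      ((∑ γ₀ ∈ G.Cl l, (Xc W δ l E γ₀.2).indicator (fun _ => (1 : ℝ)) x : ℝ) : ℂ)) :=
    (integrable_finsetSum _ h4).ofReal
  have h6 : ∫ x, ((∑ γ₀ ∈ G.Cl l, (Xc W δ l E γ₀.2).indicator (fun _ => (1 : ℝ)) x : ℝ) : ℂ) =
      ((∑ γ₀ ∈ G.Cl l, (volume (Xc W δ l E γ₀.2)).toReal : ℝ) : ℂ) := by
    rw [integral_complex_ofReal, integral_finsetSum _ h4]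
    congr 1
    refine Finset.sum_congr rfl fun γ₀ _ => ?_
    rw [integral_indicator (hXc' _), setIntegral_const, smul_eq_mul, mul_one]
    rfl
  rw [h2, ← h6, ← integral_const_mul, ← integral_sub h3 (h5.const_mul _)]
  have h7 : ∫ x, D.indicator (fun _ => δ ^ 900) x = δ ^ 900 * (volume D).toReal := by
    rw [integral_indicator G.isOpen.measurableSet, setIntegral_const, smul_eq_mul, mul_comm]
    rfl
  rw [← h7]
  refine norm_integral_le_of_norm_le ((integrable_indicator_iff G.isOpen.measurableSet).2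
    (integrableOn_const hD)) (Eventually.of_forall fun x => ?_)
  have hnn : (0 : ℝ) ≤ D.indicator (fun _ => δ ^ 900) x :=
    indicator_nonneg (fun _ _ => by positivity) x
  by_cases hx : x ∈ G.X δ ∧ x ∉ E
  · have h8 : ∫ ξ, (tmR W δ l E).indicator (qW S W δ l) (x, ξ) =
        ∫ ξ in {ξ | ξ ∈ Win δ ∧ GoodUpTo W (tau δ) (th δ) (l + 1 / 2) (x, ξ)},
          qW S W δ l (x, ξ) := by
      have hm : MeasurableSet
          {ξ | ξ ∈ Win δ ∧ GoodUpTo W (tau δ) (th δ) (l + 1 / 2) (x, ξ)} :=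
        hWin.inter (measurable_prodMk_left hgood)
      rw [← integral_indicator hm]
      refine integral_congr_ae (Eventually.of_forall fun ξ => ?_)
      by_cases hξ : ξ ∈ Win δ ∧ GoodUpTo W (tau δ) (th δ) (l + 1 / 2) (x, ξ)
      · simp only
        rw [indicator_of_mem (show (x, ξ) ∈ tmR W δ l E from ⟨hx.1, hx.2, hξ.1, hξ.2⟩),
          indicator_of_mem (show ξ ∈ _ from hξ)]
      · simp only
        rw [indicator_of_notMem (show (x, ξ) ∉ tmR W δ l E from fun h => hξ ⟨h.2.2.1, h.2.2.2⟩),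
          indicator_of_notMem (show ξ ∉ _ from hξ)]
    rw [h8, indicator_of_mem (show x ∈ D from hx.1.1)]
    exact hfib x hx.1 hx.2
  · have h8 : ∀ ξ, (tmR W δ l E).indicator (qW S W δ l) (x, ξ) = 0 := fun ξ =>
      indicator_of_notMem (fun h => hx ⟨h.1, h.2.1⟩) _
    have h9 : ∀ γ₀ ∈ G.Cl l, (Xc W δ l E γ₀.2).indicator (fun _ => (1 : ℝ)) x = 0 :=
      fun γ₀ _ => indicator_of_notMem (fun h => hx ⟨h.1, h.2.1⟩) _
    simp only [h8]
    rw [Finset.sum_eq_zero h9]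
    simpa using hnn

private theorem tm_small (c : ℝ) : ∀ᶠ δ in 𝓝[>] (0 : ℝ), δ ^ 900 * c ≤ δ * hh δ := by
  have h1 : Tendsto (fun δ : ℝ => |c| * δ) (𝓝[>] 0) (𝓝 (|c| * 0)) :=
    (tendsto_id.const_mul _).mono_left nhdsWithin_le_nhds
  rw [mul_zero] at h1
  have h2 := h1.eventually (eventually_le_nhds (by norm_num : (0 : ℝ) < 1))
  have hlt : ∀ᶠ δ in 𝓝[>] (0 : ℝ), δ ≤ 1 :=
    (eventually_le_nhds (by norm_num : (0 : ℝ) < 1)).filter_mono nhdsWithin_le_nhds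
  filter_upwards [h2, hlt, self_mem_nhdsWithin] with δ h3 h4 h5
  have h6 : (0 : ℝ) < δ := h5
  calc δ ^ 900 * c ≤ δ ^ 900 * |c| := by
        gcongr
        exact le_abs_self c
    _ = (|c| * δ) * (δ ^ 81 * δ ^ 818) := by ring
    _ ≤ 1 * (δ ^ 81 * 1) := by
        gcongr
        exact pow_le_one₀ h6.le h4
    _ = δ * hh δ := by
        unfold hh
        ring

/-- The main asymptotics of the trace. Proof. Take `E` from `exc`. `X ×ˢ univ` is the disjoint union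
of the set `R₁` of `rest_small`, the set `R₂` of `near_small` with `N = E` (`C₁ = 1`), and
`R₃ = {z | z.1 ∈ X \ E, z.2 ∈ Win, z good}`; all measurable (`meas_good`). By `trace_formula` and
`norm_integral_le_lintegral_norm` it is enough to compute `∫ z in R₃, qW`. Fubini
(`setIntegral_prod` or `integral_prod` for the indicator; `qW` is bounded by `16` and `R₃` has
finite volume): it is `∫ x in X \ E, (∫ ξ in .., qW (x, ξ))`, and by `fiber` (with `Nice` from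
`exc`) this is `Zl * ∫ x in X \ E, #{γ₀ ∈ Cl : x ∈ Xc γ₀.2} + O (δ ^ 900 volume D)`; the last
integral is `∑ γ₀ ∈ Cl, (volume (Xc ..)).toReal` because `Xc W δ l E c ⊆ X \ E`
(`integral_finset_sum`, `integral_indicator_one`). -/
theorem trace_main (S : Spec D) (G : Geo D) {l : ℝ} (hl : 0 < l) : ∃ C : ℝ,
    ∀ᶠ δ in 𝓝[>] (0 : ℝ), ∀ W : Walls G (th δ / 4), ∃ E : Set P, MeasurableSet E ∧
      volume E ≤ ENNReal.ofReal (δ ^ 19) ∧ (∀ x ∈ G.X δ, x ∉ E → Nice W δ l x) ∧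
      ‖((cst δ * (2 * Real.pi * hh δ) ^ 2 : ℝ) : ℂ) * LamF S.lam (hh δ) l -
        Zl δ l * ((∑ γ₀ ∈ G.Cl l, (volume (Xc W δ l E γ₀.2)).toReal : ℝ) : ℂ)‖ ≤
        C * (δ * hh δ) := by
  obtain ⟨C₀, hC₀⟩ := rest_small S G hl
  have hDfin : volume D ≠ ⊤ := G.isBounded.measure_lt_top.ne
  refine ⟨|C₀| + 3, ?_⟩
  filter_upwards [hC₀, near_small S G hl 1, trace_formula S G l, fiber S G hl, exc G hl,
    self_mem_nhdsWithin, tm_small (volume D).toReal] with δ h1 h2 h3 h4 h5 hδ h7 W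
  have hδ0 : (0 : ℝ) < δ := hδ
  have hhh : 0 < δ * hh δ := by
    unfold hh
    positivity
  obtain ⟨E, hEm, hEv, hE⟩ := h5 W
  have hN : ∀ x ∈ G.X δ, x ∉ E → Nice W δ l x := fun x hx hxE =>
    ⟨(hE x hx hxE).1, (hE x hx hxE).2.1, (hE x hx hxE).2.2⟩
  refine ⟨E, hEm, hEv, hN, ?_⟩
  obtain ⟨hgood, hX, hWin, -, -⟩ := meas_good G W δ (th δ) (l + 1 / 2) l
  obtain ⟨hint, htr⟩ := h3 W
  set R₁ : Set (P × P) := {z : P × P | z.1 ∈ G.X δ ∧ ¬(z.2 ∈ Win δ ∧
        GoodUpTo W (tau δ) (th δ) (l + 1 / 2) z)} with hR₁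
  set R₂ : Set (P × P) := {z : P × P | z.1 ∈ G.X δ ∧ z.1 ∈ E ∧ z.2 ∈ Win δ ∧
        GoodUpTo W (tau δ) (th δ) (l + 1 / 2) z} with hR₂
  have hmG : MeasurableSet {z : P × P | z.2 ∈ Win δ ∧
      GoodUpTo W (tau δ) (th δ) (l + 1 / 2) z} := (measurable_snd hWin).inter hgood
  have hmR2 : MeasurableSet R₂ :=
    (measurable_fst hX).inter ((measurable_fst hEm).inter hmG)
  have hmR3 : MeasurableSet (tmR W δ l E) :=
    (measurable_fst hX).inter ((measurable_fst hEm).compl.inter hmG)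
  have hun : G.X δ ×ˢ (univ : Set P) = R₁ ∪ (R₂ ∪ tmR W δ l E) := by
    ext z
    simp only [hR₁, hR₂, tmR, mem_prod, mem_univ, and_true, mem_union, mem_ofPred_eq]
    tauto
  have hd1 : Disjoint R₁ (R₂ ∪ tmR W δ l E) := by
    rw [Set.disjoint_left]
    rintro z hz (hz2 | hz2)
    · exact hz.2 hz2.2.2
    · exact hz.2 hz2.2.2
  have hd2 : Disjoint R₂ (tmR W δ l E) := by
    rw [Set.disjoint_left]
    exact fun z hz hz2 => hz2.2.1 hz.2.1
  have hi1 : IntegrableOn (qW S W δ l) R₁ := hint.mono_set (by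
    rw [hun]
    exact subset_union_left)
  have hi2 : IntegrableOn (qW S W δ l) R₂ := hint.mono_set (by
    rw [hun]
    exact fun z hz => Or.inr (Or.inl hz))
  have hi3 : IntegrableOn (qW S W δ l) (tmR W δ l E) := hint.mono_set (by
    rw [hun]
    exact fun z hz => Or.inr (Or.inr hz))
  rw [hun, setIntegral_union hd1 (hmR2.union hmR3) hi1 (hi2.union hi3),
    setIntegral_union hd2 hmR3 hi2 hi3] at htr
  have hb1 : ‖∫ z in R₁, qW S W δ l z‖ ≤ |C₀| * (δ * hh δ) := by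
    refine tm_lint (by positivity) ((h1 W).trans (ENNReal.ofReal_le_ofReal ?_))
    exact mul_le_mul_of_nonneg_right (le_abs_self _) hhh.le
  have hb2 : ‖∫ z in R₂, qW S W δ l z‖ ≤ δ * hh δ := by
    refine tm_lint hhh.le (h2 W E ?_)
    rw [one_mul]
    exact hEv
  have hb3 := tm_main S G hδ0 W hEm hi3 hDfin (fun x hx hxE => by
    have h8 := h4 W x hx (hN x hx hxE) E hEm hxE
    have h9 : ∀ (_ : DecidablePred fun γ₀ : P × P => x ∈ Xc W δ l E γ₀.2),
        ((((G.Cl l).filter (fun γ₀ : P × P => x ∈ Xc W δ l E γ₀.2)).card : ℕ) : ℂ) =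
        ((∑ γ₀ ∈ G.Cl l, (Xc W δ l E γ₀.2).indicator (fun _ => (1 : ℝ)) x : ℝ) : ℂ) := by
      intro _
      rw [Finset.card_filter]
      push_cast
      refine Finset.sum_congr rfl fun γ₀ _ => ?_
      by_cases hm : x ∈ Xc W δ l E γ₀.2
      · simp [hm]
      · simp [hm]
    rw [h9 _, mul_comm] at h8
    exact h8)
  set A := ((cst δ * (2 * Real.pi * hh δ) ^ 2 : ℝ) : ℂ) * LamF S.lam (hh δ) l
  set I1 := ∫ z in R₁, qW S W δ l z
  set I2 := ∫ z in R₂, qW S W δ l z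
  set I3 := ∫ z in tmR W δ l E, qW S W δ l z
  set Z := Zl δ l * ((∑ γ₀ ∈ G.Cl l, (volume (Xc W δ l E γ₀.2)).toReal : ℝ) : ℂ)
  have hfin : A - Z = (A - (I1 + (I2 + I3))) + (I1 + (I2 + (I3 - Z))) := by ring
  rw [hfin]
  calc ‖(A - (I1 + (I2 + I3))) + (I1 + (I2 + (I3 - Z)))‖
      ≤ ‖A - (I1 + (I2 + I3))‖ + (‖I1‖ + (‖I2‖ + ‖I3 - Z‖)) := by
        refine (norm_add_le _ _).trans (add_le_add le_rfl ?_)
        refine (norm_add_le _ _).trans (add_le_add le_rfl ?_)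
        exact norm_add_le _ _
    _ ≤ δ * hh δ + (|C₀| * (δ * hh δ) + (δ * hh δ + δ * hh δ)) := by
        gcongr
        exact hb3.trans h7
    _ = (|C₀| + 3) * (δ * hh δ) := by ring

/-- `K1` for an abstract set of closed orbits: if for all small `δ`, all `W` and all measurable sets
`E` with volume `≤ δ ^ 19` some `Xc W δ l E c` with `c` the translation part of an element of
`G.Cl l` has volume `≥ v > 0`, then the trace is not small. Proof: `trace_main`, `Zl_size` and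
`cst ≤ 1` (`cst_near`): `(2πh)² |LamF| ≥ c h v - C δ h ≥ c h v / 2`, so
`|h LamF| ≥ c v / (8 π²) > 0` for all small `δ` (`exists_walls` for the existence of `W`). -/
theorem K1_of (S : Spec D) (G : Geo D) {l v : ℝ} (hl : 0 < l) (hv : 0 < v)
    (h : ∀ᶠ δ in 𝓝[>] (0 : ℝ), ∀ W : Walls G (th δ / 4), ∀ E : Set P, MeasurableSet E →
      volume E ≤ ENNReal.ofReal (δ ^ 19) → (∀ x ∈ G.X δ, x ∉ E → Nice W δ l x) →
      ∃ γ₀ ∈ G.Cl l, v ≤ (volume (Xc W δ l E γ₀.2)).toReal) :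
    ¬Tendsto (fun δ => (hh δ : ℂ) * LamF S.lam (hh δ) l) (𝓝[>] 0) (𝓝 0) := by
  intro htend
  obtain ⟨C, hC⟩ := trace_main S G hl
  obtain ⟨c, C', hc, hZ⟩ := Zl_size hl
  have hth : ∀ᶠ δ in 𝓝[>] (0 : ℝ), th δ / 4 ≤ 8 * G.rho0 := by
    have h1 : Tendsto (fun δ : ℝ => th δ / 4) (𝓝[>] 0) (𝓝 (th 0 / 4)) := by
      have h2 : Continuous fun δ : ℝ => th δ / 4 := by
        unfold th
        fun_prop
      exact (h2.tendsto 0).mono_left nhdsWithin_le_nhds
    have h3 : th 0 / 4 = 0 := by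
      unfold th
      norm_num
    rw [h3] at h1
    exact h1.eventually (eventually_le_nhds (by linarith [G.pos]))
  have key : ∀ᶠ δ in 𝓝[>] (0 : ℝ), c * v ≤
      (2 * Real.pi) ^ 2 * ‖(hh δ : ℂ) * LamF S.lam (hh δ) l‖ + |C| * δ := by
    filter_upwards [hC, hZ, hth, h, cst_near, self_mem_nhdsWithin] with δ h1 h2 h3 h4 h5 hδ
    have hδ0 : (0 : ℝ) < δ := hδ
    have hh0 : 0 < hh δ := by
      unfold hh
      positivity
    have hth0 : 0 < th δ / 4 := by
      unfold th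
      positivity
    obtain ⟨W⟩ := exists_walls G hth0 h3
    obtain ⟨E, hEm, hEv, hN, hE⟩ := h1 W
    obtain ⟨γ₀, hγ, hv2⟩ := h4 W E hEm hEv hN
    have hcst0 : 0 ≤ cst δ := by
      unfold cst
      positivity
    have hsum : v ≤ ∑ γ₀ ∈ G.Cl l, (volume (Xc W δ l E γ₀.2)).toReal :=
      hv2.trans (Finset.single_le_sum
        (f := fun γ₀ : P × P => (volume (Xc W δ l E γ₀.2)).toReal)
        (fun _ _ => ENNReal.toReal_nonneg) hγ)
    set Sm := ∑ γ₀ ∈ G.Cl l, (volume (Xc W δ l E γ₀.2)).toReal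
    have h6 : ‖Zl δ l * (Sm : ℂ)‖ ≤
        ‖((cst δ * (2 * Real.pi * hh δ) ^ 2 : ℝ) : ℂ) * LamF S.lam (hh δ) l‖ +
          C * (δ * hh δ) := by
      have h7 := norm_sub_norm_le (Zl δ l * (Sm : ℂ))
        (((cst δ * (2 * Real.pi * hh δ) ^ 2 : ℝ) : ℂ) * LamF S.lam (hh δ) l)
      rw [norm_sub_rev] at h7
      linarith
    have h7 : c * hh δ * v ≤ ‖Zl δ l * (Sm : ℂ)‖ := by
      rw [norm_mul, Complex.norm_real, Real.norm_eq_abs, abs_of_nonneg (hv.le.trans hsum)]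
      exact mul_le_mul h2.1 hsum hv.le (norm_nonneg _)
    have h8 : ‖((cst δ * (2 * Real.pi * hh δ) ^ 2 : ℝ) : ℂ) * LamF S.lam (hh δ) l‖ ≤
        hh δ * ((2 * Real.pi) ^ 2 * ‖(hh δ : ℂ) * LamF S.lam (hh δ) l‖) := by
      rw [norm_mul, norm_mul, Complex.norm_real, Complex.norm_real, Real.norm_eq_abs,
        Real.norm_eq_abs, abs_of_nonneg (by positivity), abs_of_nonneg hh0.le]
      calc cst δ * (2 * Real.pi * hh δ) ^ 2 * ‖LamF S.lam (hh δ) l‖
          ≤ 1 * (2 * Real.pi * hh δ) ^ 2 * ‖LamF S.lam (hh δ) l‖ := by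
            gcongr
            exact h5.2
        _ = hh δ * ((2 * Real.pi) ^ 2 * (hh δ * ‖LamF S.lam (hh δ) l‖)) := by ring
    have h9 : C * (δ * hh δ) ≤ hh δ * (|C| * δ) := by
      calc C * (δ * hh δ) ≤ |C| * (δ * hh δ) := by
            gcongr
            exact le_abs_self C
        _ = hh δ * (|C| * δ) := by ring
    have h10 : hh δ * (c * v) ≤ hh δ *
        ((2 * Real.pi) ^ 2 * ‖(hh δ : ℂ) * LamF S.lam (hh δ) l‖ + |C| * δ) := by
      calc hh δ * (c * v) = c * hh δ * v := by ring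
        _ ≤ _ := h7
        _ ≤ _ := h6
        _ ≤ hh δ * ((2 * Real.pi) ^ 2 * ‖(hh δ : ℂ) * LamF S.lam (hh δ) l‖) +
            hh δ * (|C| * δ) := add_le_add h8 h9
        _ = _ := by ring
    exact le_of_mul_le_mul_left h10 hh0
  have hlim : Tendsto (fun δ : ℝ => (2 * Real.pi) ^ 2 *
      ‖(hh δ : ℂ) * LamF S.lam (hh δ) l‖ + |C| * δ) (𝓝[>] 0)
      (𝓝 ((2 * Real.pi) ^ 2 * ‖(0 : ℂ)‖ + |C| * 0)) := by
    refine (htend.norm.const_mul _).add ?_
    exact (tendsto_id.const_mul _).mono_left nhdsWithin_le_nhds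
  have hle := ge_of_tendsto hlim key
  rw [norm_zero, mul_zero, mul_zero, add_zero] at hle
  exact absurd hle (not_le.2 (mul_pos hc hv))

end

end Pool.Agent.MP4eed4eR
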