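import Pool.Agent.Lib.MP_4eed4e_an_R.A16

/-!
MP_4eed4e_an, project R, block A (geometry and billiard). Statements exported to the other blocks.
-/

namespace Pool.Agent.MP4eed4eR

open MeasureTheory Set Filter Topology Metric

noncomputable section

variable {D : Set P}

/-- The rectangles between two vertical sides are swept by closed horizontal orbits. -/
theorem rect_path1 (G : Geo D) {a w b₁ b₂ : ℝ} (hw : 0 < w) (hb : b₁ < b₂)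
    (hin : Ioo a (a + w) ×ˢ Ioo b₁ b₂ ⊆ D)
    (hl : ∀ y ∈ Ioo b₁ b₂, ((a, y) : P) ∈ frontier D)
    (hr : ∀ y ∈ Ioo b₁ b₂, ((a + w, y) : P) ∈ frontier D) :
    ∀ᶠ δ in 𝓝[>] (0 : ℝ), ∀ W : Walls G (th δ / 4), ∀ x : P,
      a + rho2 δ ≤ x.1 → x.1 ≤ a + w - rho2 δ → b₁ + rho2 δ ≤ x.2 → x.2 ≤ b₂ - rho2 δ →
      (∀ b ∈ G.B, rho2 δ ≤ |x.2 - b|) → ∀ ξ : P, |ξ.1 + 1| ≤ thp δ → |ξ.2| ≤ thp δ →
      ∀ t, |t - 2 * w| ≤ kap δ → flow W (tau δ) t (x, ξ) = (x + t • ξ + (2 * w, 0), ξ) :=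
  BlA.rect_path1 G hw hb hin hl hr

end

end Pool.Agent.MP4eed4eR
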