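import Pool.Agent.Lib.MP_4eed4e_an_R.A17

/-!
MP_4eed4e_an, project R, block A (geometry and billiard). Statements exported to the other blocks.
-/

namespace Pool.Agent.MP4eed4eR

open MeasureTheory Set Filter Topology Metric

noncomputable section

variable {D : Set P}

/-- The same for rectangles between two horizontal sides. -/
theorem rect_path2 (G : Geo D) {b w a₁ a₂ : ℝ} (hw : 0 < w) (ha : a₁ < a₂)
    (hin : Ioo a₁ a₂ ×ˢ Ioo b (b + w) ⊆ D)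
    (hl : ∀ y ∈ Ioo a₁ a₂, ((y, b) : P) ∈ frontier D)
    (hr : ∀ y ∈ Ioo a₁ a₂, ((y, b + w) : P) ∈ frontier D) :
    ∀ᶠ δ in 𝓝[>] (0 : ℝ), ∀ W : Walls G (th δ / 4), ∀ x : P,
      b + rho2 δ ≤ x.2 → x.2 ≤ b + w - rho2 δ → a₁ + rho2 δ ≤ x.1 → x.1 ≤ a₂ - rho2 δ →
      (∀ a ∈ G.A, rho2 δ ≤ |x.1 - a|) → ∀ ξ : P, |ξ.2 + 1| ≤ thp δ → |ξ.1| ≤ thp δ →
      ∀ t, |t - 2 * w| ≤ kap δ → flow W (tau δ) t (x, ξ) = (x + t • ξ + (0, 2 * w), ξ) :=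
  BlA.rect_path2 G hw ha hin hl hr

end

end Pool.Agent.MP4eed4eR
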