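import Pool.Agent.Lib.MP_4eed4e_an_R.F14
import Pool.Agent.Lib.MP_4eed4e_an_R.OutA6
import Pool.Agent.Lib.MP_4eed4e_an_R.OutA7

/-!
MP_4eed4e_an, project R, module F15: K1 for rectangles between two sides.
-/

namespace Pool.Agent.MP4eed4eR

open MeasureTheory Set Filter Topology Metric

noncomputable section

variable {D : Set P}

/-- the good heights -/
private def f15_good (B : Finset ℝ) (b₁ b₂ ρ : ℝ) : Set ℝ :=
  {y | b₁ + ρ ≤ y ∧ y ≤ b₂ - ρ ∧ ∀ b ∈ B, ρ ≤ |y - b|}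

private theorem f15_good_vol (B : Finset ℝ) {b₁ b₂ ρ : ℝ} (hρ : 0 < ρ) :
    ENNReal.ofReal (b₂ - b₁ - 2 * ρ - 2 * ρ * B.card) ≤ volume (f15_good B b₁ b₂ ρ) := by
  have h1 : Icc (b₁ + ρ) (b₂ - ρ) ⊆ f15_good B b₁ b₂ ρ ∪ ⋃ b ∈ B, Ioo (b - ρ) (b + ρ) := by
    intro y hy
    by_cases h : ∀ b ∈ B, ρ ≤ |y - b|
    · exact Or.inl ⟨hy.1, hy.2, h⟩
    · push Not at h
      obtain ⟨b, hb, hb'⟩ := h
      refine Or.inr (mem_biUnion (Finset.mem_coe.2 hb) ?_)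
      have := abs_lt.1 hb'
      exact ⟨by linarith, by linarith⟩
  have h2 : volume (⋃ b ∈ B, Ioo (b - ρ) (b + ρ)) ≤ ENNReal.ofReal (2 * ρ * B.card) := by
    refine (measure_biUnion_finset_le _ _).trans ?_
    refine (Finset.sum_le_card_nsmul _ _ (ENNReal.ofReal (2 * ρ)) fun b _ => ?_).trans ?_
    · rw [Real.volume_Ioo]
      refine ENNReal.ofReal_le_ofReal ?_
      linarith
    · rw [nsmul_eq_mul, ← ENNReal.ofReal_natCast, ← ENNReal.ofReal_mul (Nat.cast_nonneg _)]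
      refine ENNReal.ofReal_le_ofReal ?_
      linarith
  have h3 := (measure_mono h1).trans (measure_union_le (μ := volume) _ _)
  rw [Real.volume_Icc] at h3
  have h4 := h3.trans (add_le_add le_rfl h2)
  have h5 : ENNReal.ofReal (b₂ - ρ - (b₁ + ρ)) - ENNReal.ofReal (2 * ρ * B.card) ≤
      volume (f15_good B b₁ b₂ ρ) := tsub_le_iff_right.2 h4
  refine le_trans (le_of_eq ?_) h5
  rw [← ENNReal.ofReal_sub _ (by positivity)]
  congr 1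
  ring

/-- the lower bound of the volume -/
private def f15_f (B : Finset ℝ) (w b₁ b₂ δ : ℝ) : ℝ :=
  (w - 2 * rho2 δ) * (b₂ - b₁ - 2 * rho2 δ - 2 * rho2 δ * B.card)

private theorem f15_rs1 (B : Finset ℝ) {a w b₁ b₂ δ : ℝ} (hρ : 0 < rho2 δ)
    (h : 2 * rho2 δ ≤ w) :
    ENNReal.ofReal (f15_f B w b₁ b₂ δ) ≤ volume
      ((Icc (a + rho2 δ) (a + w - rho2 δ) ×ˢ f15_good B b₁ b₂ (rho2 δ) : Set P)) := by
  have h1 := f15_good_vol B (b₁ := b₁) (b₂ := b₂) hρ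
  rw [Measure.volume_eq_prod, Measure.prod_prod, Real.volume_Icc, f15_f,
    ENNReal.ofReal_mul (by linarith)]
  have h2 : a + w - rho2 δ - (a + rho2 δ) = w - 2 * rho2 δ := by ring
  rw [h2]
  gcongr

private theorem f15_rs2 (B : Finset ℝ) {a w b₁ b₂ δ : ℝ} (hρ : 0 < rho2 δ)
    (h : 2 * rho2 δ ≤ w) :
    ENNReal.ofReal (f15_f B w b₁ b₂ δ) ≤ volume
      ((f15_good B b₁ b₂ (rho2 δ) ×ˢ Icc (a + rho2 δ) (a + w - rho2 δ) : Set P)) := by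
  have h1 := f15_good_vol B (b₁ := b₁) (b₂ := b₂) hρ
  rw [Measure.volume_eq_prod, Measure.prod_prod, Real.volume_Icc, f15_f,
    ENNReal.ofReal_mul (by linarith), mul_comm (volume _)]
  have h2 : a + w - rho2 δ - (a + rho2 δ) = w - 2 * rho2 δ := by ring
  rw [h2]
  gcongr

private theorem f15_vol {S E : Set P} {v f g : ℝ} (hf : ENNReal.ofReal f ≤ volume S)
    (hE : volume E ≤ ENNReal.ofReal g) (hg : 0 ≤ g) (hv : v ≤ f - g) :
    ENNReal.ofReal v ≤ volume (S \ E) := by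
  refine (ENNReal.ofReal_le_ofReal hv).trans ?_
  rw [ENNReal.ofReal_sub _ hg]
  exact (tsub_le_tsub hf hE).trans le_measure_sdiff

private theorem f15_nonempty {S : Set P} {w b₁ b₂ : ℝ} (hw : 0 < w) (hb : b₁ < b₂)
    (h : ENNReal.ofReal (w * (b₂ - b₁) / 2) ≤ volume S) : S.Nonempty := by
  by_contra hS
  rw [not_nonempty_iff_eq_empty] at hS
  rw [hS, measure_empty] at h
  have h1 : 0 < w * (b₂ - b₁) / 2 := by
    have : 0 < b₂ - b₁ := by linarith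
    positivity
  exact absurd h (not_le.2 (ENNReal.ofReal_pos.2 h1))

/-- the small scales -/
private theorem f15_ev (G : Geo D) (B : Finset ℝ) {w b₁ b₂ : ℝ} (hw : 0 < w) (hb : b₁ < b₂) :
    ∀ᶠ δ in 𝓝[>] (0 : ℝ), 0 < δ ∧ δ < 1 ∧ 0 < th δ / 4 ∧ th δ / 4 ≤ 8 * G.rho0 ∧
      2 * rho2 δ ≤ w ∧ w * (b₂ - b₁) / 2 ≤ f15_f B w b₁ b₂ δ - δ ^ 19 := by
  have hb' : 0 < b₂ - b₁ := by linarith
  have c1 : Continuous fun δ : ℝ => th δ / 4 := by unfold th; fun_prop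
  have c2 : Continuous fun δ : ℝ => 2 * rho2 δ := by unfold rho2; fun_prop
  have c3 : Continuous fun δ : ℝ => f15_f B w b₁ b₂ δ - δ ^ 19 := by
    unfold f15_f rho2
    fun_prop
  have t1 : Tendsto (fun δ : ℝ => th δ / 4) (𝓝[>] 0) (𝓝 0) := by
    have h := (c1.tendsto 0).mono_left (nhdsWithin_le_nhds (s := Ioi 0))
    have h0 : th 0 / 4 = 0 := by norm_num [th]
    rwa [h0] at h
  have t2 : Tendsto (fun δ : ℝ => 2 * rho2 δ) (𝓝[>] 0) (𝓝 0) := by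
    have h := (c2.tendsto 0).mono_left (nhdsWithin_le_nhds (s := Ioi 0))
    have h0 : 2 * rho2 0 = 0 := by norm_num [rho2]
    rwa [h0] at h
  have t3 : Tendsto (fun δ : ℝ => f15_f B w b₁ b₂ δ - δ ^ 19) (𝓝[>] 0)
      (𝓝 (w * (b₂ - b₁))) := by
    have h := (c3.tendsto 0).mono_left (nhdsWithin_le_nhds (s := Ioi 0))
    have h0 : f15_f B w b₁ b₂ 0 - 0 ^ 19 = w * (b₂ - b₁) := by
      norm_num [f15_f, rho2]
    rwa [h0] at h
  have hr : 0 < 8 * G.rho0 := by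
    have := G.pos
    positivity
  have hv : w * (b₂ - b₁) / 2 < w * (b₂ - b₁) := by
    have : 0 < w * (b₂ - b₁) := mul_pos hw hb'
    linarith
  filter_upwards [Ioo_mem_nhdsGT (one_pos : (0 : ℝ) < 1), t1.eventually (gt_mem_nhds hr),
    t2.eventually (gt_mem_nhds hw), t3.eventually (lt_mem_nhds hv)] with δ h1 h2 h3 h4
  have h5 : 0 < th δ := pow_pos h1.1 _
  exact ⟨h1.1, h1.2, by positivity, h2.le, h3.le, h4.le⟩

private theorem f15_gam {γ : P × P} {x ξ : P} {l : ℝ} {c : P}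
    (h1 : app γ (x + l • ξ) = x + l • ξ + c) (h2 : lin γ ξ = ξ) (h3 : ξ.1 ≠ 0)
    (h4 : ξ.2 ≠ 0) : γ = ((1, 1), c) := by
  obtain ⟨h5, h6⟩ := Prod.ext_iff.1 h2
  have h7 : γ.1.1 = 1 := mul_right_cancel₀ h3 (by rw [one_mul]; exact h5)
  have h8 : γ.1.2 = 1 := mul_right_cancel₀ h4 (by rw [one_mul]; exact h6)
  obtain ⟨h9, h10⟩ := Prod.ext_iff.1 h1
  have h11 : γ.1.1 * (x + l • ξ).1 + γ.2.1 = (x + l • ξ).1 + c.1 := h9
  have h12 : γ.1.2 * (x + l • ξ).2 + γ.2.2 = (x + l • ξ).2 + c.2 := h10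
  rw [h7, one_mul] at h11
  rw [h8, one_mul] at h12
  exact Prod.ext (Prod.ext h7 h8) (Prod.ext (add_left_cancel h11) (add_left_cancel h12))

private theorem f15_X (G : Geo D) {δ : ℝ} (h0 : 0 < δ) (h1 : δ < 1) {x : P} (hx : x ∈ D)
    (h : (∀ b ∈ G.B, rho2 δ ≤ |x.2 - b|) ∨ ∀ a ∈ G.A, rho2 δ ≤ |x.1 - a|) : x ∈ G.X δ := by
  have h2 : th δ ≤ rho2 δ := pow_le_pow_of_le_one h0.le h1.le (by norm_num)
  refine ⟨hx, fun v hv => h2.trans ?_⟩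
  rcases h with h | h
  · refine (h v.2 (G.Vgrid v hv).2).trans ?_
    rw [← Real.dist_eq]
    exact le_max_right _ _
  · refine (h v.1 (G.Vgrid v hv).1).trans ?_
    rw [← Real.dist_eq]
    exact le_max_left _ _

private theorem f15_fin (G : Geo D) {ρ : ℝ} (W : Walls G ρ) (δ l : ℝ) (E : Set P) (c : P) :
    volume (Xc W δ l E c) ≠ ⊤ := by
  have h1 : Xc W δ l E c ⊆ D := fun x hx => hx.1.1
  exact ((measure_mono h1).trans_lt G.isBounded.measure_lt_top).ne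

/-- The translation by `(2 w, 0)` belongs to `G.Cl (2 w)` if `D` contains a rectangle between two
vertical sides with distance `w`. Proof: let `l = 2 w`, `c = (2 w, 0)`, `sq c = l²`. For small `δ`
the set `E` of `stab` has volume `≤ δ ^ 20`, and the set of the points `x` allowed in `rect_path1`
has a volume bounded below, so there is such an `x ∉ E`. For `ξ` in the square about `-c / l =
(-1, 0)` and `|t - l| ≤ κ`: `app γ (x + t ξ) = x + t ξ + (2 w, 0)` and `lin γ ξ = ξ` with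
`γ ∈ G.Gam (l + 1)`; using two values of `ξ` with different coordinates, all not zero, `γ.1 =
(1, 1)` and then `γ.2 = (2 w, 0)`. -/
theorem cl_mem1 (G : Geo D) {a w b₁ b₂ : ℝ} (hw : 0 < w) (hb : b₁ < b₂)
    (hin : Ioo a (a + w) ×ˢ Ioo b₁ b₂ ⊆ D)
    (hl : ∀ y ∈ Ioo b₁ b₂, ((a, y) : P) ∈ frontier D)
    (hr : ∀ y ∈ Ioo b₁ b₂, ((a + w, y) : P) ∈ frontier D) :
    ((((1, 1), (2 * w, 0)) : P × P)) ∈ G.Cl (2 * w) := by
  have hl0 : (0 : ℝ) < 2 * w := by linarith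
  have hc : sq ((2 * w, 0) : P) = (2 * w) ^ 2 := by
    show (2 * w) ^ 2 + (0 : ℝ) ^ 2 = (2 * w) ^ 2
    ring
  obtain ⟨δ, h1, h2, hδ0, hδ1, h4, h5, h6, h7⟩ := ((stab G hl0 hc).and
    ((rect_path1 G hw hb hin hl hr).and (f15_ev G G.B hw hb))).exists
  obtain ⟨W⟩ := exists_walls G (ρ := th δ / 4) h4 h5
  obtain ⟨E, -, hEv, hE⟩ := h1 W
  have hEv' : volume E ≤ ENNReal.ofReal (δ ^ 19) :=
    hEv.trans (ENNReal.ofReal_le_ofReal (pow_le_pow_of_le_one hδ0.le hδ1.le (by norm_num)))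
  have hρ : 0 < rho2 δ := pow_pos hδ0 _
  have h8 := f15_vol (f15_rs1 G.B (a := a) (b₁ := b₁) (b₂ := b₂) hρ h6) hEv'
    (pow_pos hδ0 _).le h7
  obtain ⟨x, ⟨⟨hx1, hx2⟩, hx3, hx4, hx5⟩, hxE⟩ := f15_nonempty hw hb h8
  have hxD : x ∈ D := hin ⟨⟨by linarith, by linarith⟩, ⟨by linarith, by linarith⟩⟩
  obtain ⟨-, -, γ, hγ, hall⟩ := hE x hxD hxE
  have ht0 : 0 < thp δ := pow_pos hδ0 _
  have ht1 : thp δ < 1 := pow_lt_one₀ hδ0.le hδ1 (by norm_num)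
  have hk0 : 0 ≤ kap δ := (pow_pos hδ0 _).le
  have hab : |2 * w - 2 * w| ≤ kap δ := by
    rw [sub_self, abs_zero]
    exact hk0
  have hx6 : |(-1 + thp δ) + 1| ≤ thp δ := by
    rw [show (-1 + thp δ) + 1 = thp δ by ring, abs_of_pos ht0]
  have hx7 : |thp δ| ≤ thp δ := (abs_of_pos ht0).le
  obtain ⟨-, h9, -⟩ := hall ((-1 + thp δ, thp δ) : P)
    (by
      show |(-1 + thp δ) + 2 * w / (2 * w)| ≤ thp δ
      rw [div_self hl0.ne']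
      exact hx6)
    (by
      show |thp δ + 0 / (2 * w)| ≤ thp δ
      rw [zero_div, add_zero]
      exact hx7) (2 * w) hab
  have h10 := h2 W x hx1 hx2 hx3 hx4 hx5 ((-1 + thp δ, thp δ) : P) hx6 hx7 (2 * w) hab
  rw [h9] at h10
  obtain ⟨h11, h12⟩ := Prod.ext_iff.1 h10
  have hγ' : γ = ((1, 1), (2 * w, 0)) :=
    f15_gam (ξ := (-1 + thp δ, thp δ)) h11 h12 (by show -1 + thp δ ≠ 0; linarith) ht0.ne'
  rw [Geo.Cl, Finset.mem_filter, ← hγ']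
  exact ⟨hγ, by rw [hγ'], by rw [hγ']; exact hc⟩

/-- The same for horizontal sides (`rect_path2`). -/
theorem cl_mem2 (G : Geo D) {b w a₁ a₂ : ℝ} (hw : 0 < w) (ha : a₁ < a₂)
    (hin : Ioo a₁ a₂ ×ˢ Ioo b (b + w) ⊆ D)
    (hl : ∀ y ∈ Ioo a₁ a₂, ((y, b) : P) ∈ frontier D)
    (hr : ∀ y ∈ Ioo a₁ a₂, ((y, b + w) : P) ∈ frontier D) :
    ((((1, 1), (0, 2 * w)) : P × P)) ∈ G.Cl (2 * w) := by
  have hl0 : (0 : ℝ) < 2 * w := by linarith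
  have hc : sq ((0, 2 * w) : P) = (2 * w) ^ 2 := by
    show (0 : ℝ) ^ 2 + (2 * w) ^ 2 = (2 * w) ^ 2
    ring
  obtain ⟨δ, h1, h2, hδ0, hδ1, h4, h5, h6, h7⟩ := ((stab G hl0 hc).and
    ((rect_path2 G hw ha hin hl hr).and (f15_ev G G.A hw ha))).exists
  obtain ⟨W⟩ := exists_walls G (ρ := th δ / 4) h4 h5
  obtain ⟨E, -, hEv, hE⟩ := h1 W
  have hEv' : volume E ≤ ENNReal.ofReal (δ ^ 19) :=
    hEv.trans (ENNReal.ofReal_le_ofReal (pow_le_pow_of_le_one hδ0.le hδ1.le (by norm_num)))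
  have hρ : 0 < rho2 δ := pow_pos hδ0 _
  have h8 := f15_vol (f15_rs2 G.A (a := b) (b₁ := a₁) (b₂ := a₂) hρ h6) hEv'
    (pow_pos hδ0 _).le h7
  obtain ⟨x, ⟨⟨hx3, hx4, hx5⟩, hx1, hx2⟩, hxE⟩ := f15_nonempty hw ha h8
  have hxD : x ∈ D := hin ⟨⟨by linarith, by linarith⟩, ⟨by linarith, by linarith⟩⟩
  obtain ⟨-, -, γ, hγ, hall⟩ := hE x hxD hxE
  have ht0 : 0 < thp δ := pow_pos hδ0 _
  have ht1 : thp δ < 1 := pow_lt_one₀ hδ0.le hδ1 (by norm_num)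
  have hk0 : 0 ≤ kap δ := (pow_pos hδ0 _).le
  have hab : |2 * w - 2 * w| ≤ kap δ := by
    rw [sub_self, abs_zero]
    exact hk0
  have hx6 : |(-1 + thp δ) + 1| ≤ thp δ := by
    rw [show (-1 + thp δ) + 1 = thp δ by ring, abs_of_pos ht0]
  have hx7 : |thp δ| ≤ thp δ := (abs_of_pos ht0).le
  obtain ⟨-, h9, -⟩ := hall ((thp δ, -1 + thp δ) : P)
    (by
      show |thp δ + 0 / (2 * w)| ≤ thp δ
      rw [zero_div, add_zero]
      exact hx7)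
    (by
      show |(-1 + thp δ) + 2 * w / (2 * w)| ≤ thp δ
      rw [div_self hl0.ne']
      exact hx6) (2 * w) hab
  have h10 := h2 W x hx1 hx2 hx3 hx4 hx5 ((thp δ, -1 + thp δ) : P) hx6 hx7 (2 * w) hab
  rw [h9] at h10
  obtain ⟨h11, h12⟩ := Prod.ext_iff.1 h10
  have hγ' : γ = ((1, 1), (0, 2 * w)) :=
    f15_gam (ξ := (thp δ, -1 + thp δ)) h11 h12 ht0.ne' (by show -1 + thp δ ≠ 0; linarith)
  rw [Geo.Cl, Finset.mem_filter, ← hγ']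
  exact ⟨hγ, by rw [hγ'], by rw [hγ']; exact hc⟩

/-- The volume of the closed orbits. Proof: by `rect_path1` with `ξ = (-1, 0)`, `t = 2 w`, the set
`Xc W δ (2 w) E (2 w, 0)` contains all `x ∉ E` with
`a + ρ₂ ≤ x.1 ≤ a + w - ρ₂`, `b₁ + ρ₂ ≤ x.2 ≤ b₂ - ρ₂` and `|x.2 - b| ≥ ρ₂` for `b ∈ G.B` that are
in `G.X δ` (they are: `x ∈ D` by `hin`, and a reflex vertex `v` with `dist x v < θ` would have
`v.2 ∈ G.B`, `|x.2 - v.2| < θ ≤ ρ₂`). The volume of this set tends to `w (b₂ - b₁)`. -/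
theorem xc_vol1 (G : Geo D) {a w b₁ b₂ : ℝ} (hw : 0 < w) (hb : b₁ < b₂)
    (hin : Ioo a (a + w) ×ˢ Ioo b₁ b₂ ⊆ D)
    (hl : ∀ y ∈ Ioo b₁ b₂, ((a, y) : P) ∈ frontier D)
    (hr : ∀ y ∈ Ioo b₁ b₂, ((a + w, y) : P) ∈ frontier D) : ∀ᶠ δ in 𝓝[>] (0 : ℝ),
    ∀ W : Walls G (th δ / 4), ∀ E : Set P, MeasurableSet E →
      volume E ≤ ENNReal.ofReal (δ ^ 19) →
      w * (b₂ - b₁) / 2 ≤ (volume (Xc W δ (2 * w) E (2 * w, 0))).toReal := by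
  filter_upwards [rect_path1 G hw hb hin hl hr, f15_ev G G.B hw hb] with δ h2 h3 W E _ hEv
  obtain ⟨hδ0, hδ1, h4, h5, h6, h7⟩ := h3
  have hρ : 0 < rho2 δ := pow_pos hδ0 _
  have h8 := f15_vol (f15_rs1 G.B (a := a) (b₁ := b₁) (b₂ := b₂) hρ h6) hEv
    (pow_pos hδ0 _).le h7
  rw [← ENNReal.ofReal_le_iff_le_toReal (f15_fin G W δ _ E _)]
  refine h8.trans (measure_mono ?_)
  rintro x ⟨⟨⟨hx1, hx2⟩, hx3, hx4, hx5⟩, hxE⟩
  have hxD : x ∈ D := hin ⟨⟨by linarith, by linarith⟩, ⟨by linarith, by linarith⟩⟩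
  have ht0 : 0 < thp δ := pow_pos hδ0 _
  have hk0 : 0 ≤ kap δ := (pow_pos hδ0 _).le
  refine ⟨f15_X G hδ0 hδ1 hxD (Or.inl hx5), hxE, ?_⟩
  have hw2 : (2 * w) ≠ 0 := by positivity
  have h9 : -(1 / (2 * w)) • ((2 * w, 0) : P) = ((-1, 0) : P) := by
    refine Prod.ext ?_ ?_
    · show -(1 / (2 * w)) * (2 * w) = -1
      field_simp
    · show -(1 / (2 * w)) * 0 = 0
      ring
  rw [h9, h2 W x hx1 hx2 hx3 hx4 hx5 (-1, 0) (by
      show |(-1 : ℝ) + 1| ≤ thp δ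
      rw [neg_add_cancel, abs_zero]
      exact ht0.le) (by
      show |(0 : ℝ)| ≤ thp δ
      rw [abs_zero]
      exact ht0.le) (2 * w) (by
      rw [sub_self, abs_zero]
      exact hk0)]
  refine Prod.ext (Prod.ext ?_ ?_) rfl
  · show x.1 + (2 * w) * (-1) + 2 * w = x.1
    ring
  · show x.2 + (2 * w) * 0 + 0 = x.2
    ring

/-- The same for horizontal sides. -/
theorem xc_vol2 (G : Geo D) {b w a₁ a₂ : ℝ} (hw : 0 < w) (ha : a₁ < a₂)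
    (hin : Ioo a₁ a₂ ×ˢ Ioo b (b + w) ⊆ D)
    (hl : ∀ y ∈ Ioo a₁ a₂, ((y, b) : P) ∈ frontier D)
    (hr : ∀ y ∈ Ioo a₁ a₂, ((y, b + w) : P) ∈ frontier D) : ∀ᶠ δ in 𝓝[>] (0 : ℝ),
    ∀ W : Walls G (th δ / 4), ∀ E : Set P, MeasurableSet E →
      volume E ≤ ENNReal.ofReal (δ ^ 19) →
      w * (a₂ - a₁) / 2 ≤ (volume (Xc W δ (2 * w) E (0, 2 * w))).toReal := by
  filter_upwards [rect_path2 G hw ha hin hl hr, f15_ev G G.A hw ha] with δ h2 h3 W E _ hEv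
  obtain ⟨hδ0, hδ1, h4, h5, h6, h7⟩ := h3
  have hρ : 0 < rho2 δ := pow_pos hδ0 _
  have h8 := f15_vol (f15_rs2 G.A (a := b) (b₁ := a₁) (b₂ := a₂) hρ h6) hEv
    (pow_pos hδ0 _).le h7
  rw [← ENNReal.ofReal_le_iff_le_toReal (f15_fin G W δ _ E _)]
  refine h8.trans (measure_mono ?_)
  rintro x ⟨⟨⟨hx3, hx4, hx5⟩, hx1, hx2⟩, hxE⟩
  have hxD : x ∈ D := hin ⟨⟨by linarith, by linarith⟩, ⟨by linarith, by linarith⟩⟩
  have ht0 : 0 < thp δ := pow_pos hδ0 _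
  have hk0 : 0 ≤ kap δ := (pow_pos hδ0 _).le
  refine ⟨f15_X G hδ0 hδ1 hxD (Or.inr hx5), hxE, ?_⟩
  have hw2 : (2 * w) ≠ 0 := by positivity
  have h9 : -(1 / (2 * w)) • ((0, 2 * w) : P) = ((0, -1) : P) := by
    refine Prod.ext ?_ ?_
    · show -(1 / (2 * w)) * 0 = 0
      ring
    · show -(1 / (2 * w)) * (2 * w) = -1
      field_simp
  rw [h9, h2 W x hx1 hx2 hx3 hx4 hx5 (0, -1) (by
      show |(-1 : ℝ) + 1| ≤ thp δ
      rw [neg_add_cancel, abs_zero]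
      exact ht0.le) (by
      show |(0 : ℝ)| ≤ thp δ
      rw [abs_zero]
      exact ht0.le) (2 * w) (by
      rw [sub_self, abs_zero]
      exact hk0)]
  refine Prod.ext (Prod.ext ?_ ?_) rfl
  · show x.1 + (2 * w) * 0 + 0 = x.1
    ring
  · show x.2 + (2 * w) * (-1) + 2 * w = x.2
    ring

/-- `K1` (see `OutF`): `exists_spec`, `exists_geo`, `K1_of`, `cl_mem1`, `xc_vol1`. -/
theorem K1_pf (hD : RectDomain D) {lam : ℕ → ℝ} (hS : HasSpectrum D lam) {a w b₁ b₂ : ℝ}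
    (hw : 0 < w) (hb : b₁ < b₂) (hin : Ioo a (a + w) ×ˢ Ioo b₁ b₂ ⊆ D)
    (hl : ∀ y ∈ Ioo b₁ b₂, ((a, y) : P) ∈ frontier D)
    (hr : ∀ y ∈ Ioo b₁ b₂, ((a + w, y) : P) ∈ frontier D) :
    ¬Tendsto (fun δ => (hh δ : ℂ) * LamF lam (hh δ) (2 * w)) (𝓝[>] 0) (𝓝 0) := by
  obtain ⟨S, rfl⟩ := exists_spec hD.isOpen hS
  obtain ⟨G, -⟩ := exists_geo hD
  have hb' : 0 < b₂ - b₁ := by linarith
  refine K1_of S G (l := 2 * w) (v := w * (b₂ - b₁) / 2) (by positivity) (by positivity) ?_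
  filter_upwards [xc_vol1 G hw hb hin hl hr] with δ h W E hE hEv _
  exact ⟨_, cl_mem1 G hw hb hin hl hr, h W E hE hEv⟩

theorem K1'_pf (hD : RectDomain D) {lam : ℕ → ℝ} (hS : HasSpectrum D lam) {b w a₁ a₂ : ℝ}
    (hw : 0 < w) (ha : a₁ < a₂) (hin : Ioo a₁ a₂ ×ˢ Ioo b (b + w) ⊆ D)
    (hl : ∀ y ∈ Ioo a₁ a₂, ((y, b) : P) ∈ frontier D)
    (hr : ∀ y ∈ Ioo a₁ a₂, ((y, b + w) : P) ∈ frontier D) :
    ¬Tendsto (fun δ => (hh δ : ℂ) * LamF lam (hh δ) (2 * w)) (𝓝[>] 0) (𝓝 0) := by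
  obtain ⟨S, rfl⟩ := exists_spec hD.isOpen hS
  obtain ⟨G, -⟩ := exists_geo hD
  have ha' : 0 < a₂ - a₁ := by linarith
  refine K1_of S G (l := 2 * w) (v := w * (a₂ - a₁) / 2) (by positivity) (by positivity) ?_
  filter_upwards [xc_vol2 G hw ha hin hl hr] with δ h W E hE hEv _
  exact ⟨_, cl_mem2 G hw ha hin hl hr, h W E hE hEv⟩

end

end Pool.Agent.MP4eed4eR
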