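import Pool.Agent.Lib.MP_4eed4e_an_R.F05
import Pool.Agent.Lib.MP_4eed4e_an_R.F10
import Pool.Agent.Lib.MP_4eed4e_an_R.OutA4

/-!
MP_4eed4e_an, project R, module F16: the area law.
-/

namespace Pool.Agent.MP4eed4eR

open MeasureTheory Set Filter Topology Metric

noncomputable section

variable {D : Set P}

private theorem f16_meas_X (G : Geo D) (δ : ℝ) : MeasurableSet (G.X δ) := by
  have h : G.X δ = D ∩ ⋂ v ∈ G.V, {x : P | th δ ≤ dist x v} := by
    ext x; simp [Geo.X, Geo.Far]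
  rw [h]
  refine G.isOpen.measurableSet.inter ?_
  refine Finset.measurableSet_biInter _ (fun v _ => ?_)
  exact (isClosed_le continuous_const (continuous_id.dist continuous_const)).measurableSet

private theorem f16_meas_Sq2 : MeasurableSet Sq2 := by
  have h1 : IsClosed {ξ : P | |ξ.1| ≤ 2} := isClosed_le (by fun_prop) continuous_const
  have h2 : IsClosed {ξ : P | |ξ.2| ≤ 2} := isClosed_le (by fun_prop) continuous_const
  exact (h1.inter h2).measurableSet

/-- The points near the walls. -/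
private def Nr (G : Geo D) (ρ : ℝ) : Set P :=
  {x : P | x ∈ D ∧ ((∃ a ∈ G.A, |a - x.1| < ρ) ∨ ∃ b ∈ G.B, |b - x.2| < ρ)}

private theorem f16_meas_N (G : Geo D) (ρ : ℝ) : MeasurableSet (Nr G ρ) := by
  refine IsOpen.measurableSet ?_
  refine G.isOpen.inter (IsOpen.union ?_ ?_)
  · have h : {x : P | ∃ a ∈ G.A, |a - x.1| < ρ} = ⋃ a ∈ G.A, {x : P | |a - x.1| < ρ} := by
      ext x; simp
    change IsOpen {x : P | ∃ a ∈ G.A, |a - x.1| < ρ}
    rw [h]
    exact isOpen_biUnion (fun a _ => isOpen_lt (by fun_prop) continuous_const)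
  · have h : {x : P | ∃ a ∈ G.B, |a - x.2| < ρ} = ⋃ a ∈ G.B, {x : P | |a - x.2| < ρ} := by
      ext x; simp
    change IsOpen {x : P | ∃ a ∈ G.B, |a - x.2| < ρ}
    rw [h]
    exact isOpen_biUnion (fun a _ => isOpen_lt (by fun_prop) continuous_const)

private theorem f16_volD (G : Geo D) : volume D ≠ ⊤ := G.isBounded.measure_lt_top.ne

private theorem f16_volSq : volume Sq2 ≠ ⊤ := by
  have hb : Bornology.IsBounded Sq2 := by
    refine (isBounded_iff_forall_norm_le).2 ⟨2, fun x hx => ?_⟩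
    rw [Prod.norm_def]
    exact max_le hx.1 hx.2
  exact hb.measure_lt_top.ne

private theorem f16_lint {s : Set (P × P)} {f : P × P → ℝ} (hf : IntegrableOn f s)
    (h0 : ∀ z, 0 ≤ f z) {C : ℝ} (hC : 0 ≤ C)
    (h : ∫⁻ z in s, ENNReal.ofReal (f z) ≤ ENNReal.ofReal C) : ∫ z in s, f z ≤ C := by
  rw [← ofReal_integral_eq_lintegral_ofReal hf (Eventually.of_forall h0)] at h
  exact (ENNReal.ofReal_le_ofReal_iff hC).1 h

/-- Splitting of an integral over `X ×ˢ univ`. -/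
private theorem f16_split {X N : Set P} (hX : MeasurableSet X) (hN : MeasurableSet N)
    {f : P × P → ℝ} (hf : IntegrableOn f (X ×ˢ univ)) :
    IntegrableOn f (X ×ˢ Sq2ᶜ) ∧ IntegrableOn f ((X ∩ N) ×ˢ Sq2) ∧
      IntegrableOn f ((X \ N) ×ˢ Sq2) ∧
      ∫ z in X ×ˢ (univ : Set P), f z = (∫ z in X ×ˢ Sq2ᶜ, f z) +
        (∫ z in (X ∩ N) ×ˢ Sq2, f z) + ∫ z in (X \ N) ×ˢ Sq2, f z := by
  have hS := f16_meas_Sq2
  have i1 : IntegrableOn f (X ×ˢ Sq2ᶜ) :=
    hf.mono_set (prod_mono Subset.rfl (subset_univ _))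
  have i2 : IntegrableOn f ((X ∩ N) ×ˢ Sq2) :=
    hf.mono_set (prod_mono inter_subset_left (subset_univ _))
  have i3 : IntegrableOn f ((X \ N) ×ˢ Sq2) :=
    hf.mono_set (prod_mono sdiff_subset (subset_univ _))
  refine ⟨i1, i2, i3, ?_⟩
  have e1 : X ×ˢ (univ : Set P) = (X ×ˢ Sq2ᶜ) ∪ (((X ∩ N) ×ˢ Sq2) ∪ ((X \ N) ×ˢ Sq2)) := by
    ext z
    simp only [mem_prod, mem_univ, and_true, mem_union, mem_compl_iff, mem_inter_iff, Set.mem_sdiff]
    tauto
  have m2 : MeasurableSet (((X ∩ N) ×ˢ Sq2) : Set (P × P)) := (hX.inter hN).prod hS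
  have m3 : MeasurableSet (((X \ N) ×ˢ Sq2) : Set (P × P)) := (hX.diff hN).prod hS
  have d1 : Disjoint ((X ∩ N) ×ˢ Sq2 : Set (P × P)) ((X \ N) ×ˢ Sq2) := by
    rw [Set.disjoint_left]
    rintro z hz hz'
    exact hz'.1.2 hz.1.2
  have d2 : Disjoint (X ×ˢ Sq2ᶜ : Set (P × P))
      (((X ∩ N) ×ˢ Sq2) ∪ ((X \ N) ×ˢ Sq2)) := by
    rw [Set.disjoint_left]
    rintro z hz (hz' | hz')
    · exact hz.2 hz'.2
    · exact hz.2 hz'.2
  rw [e1, setIntegral_union d2 (m2.union m3) i1 (i2.union i3), setIntegral_union d1 m3 i2 i3,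
    add_assoc]

private theorem f16_gq (S : Spec D) {h : ℝ} (hh0 : 0 < h) (f : HD D) :
    (inner ℂ f (S.W h 0 f) : ℂ) = (S.gq h f : ℂ) := by
  have h1 := gk_sum S hh0 0 f
  have h2 := (gq_summable S hh0 f).1.hasSum
  have h3 := (Complex.hasSum_ofReal).2 h2
  refine h1.unique ?_
  have h4 : (fun k => om S.lam h 0 k * ((‖S.co k f‖ ^ 2 : ℝ) : ℂ)) =
      fun k => ((gk S.lam h k * ‖S.co k f‖ ^ 2 : ℝ) : ℂ) := by
    funext k
    unfold om
    simp
  rw [h4]
  exact h3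

private theorem f16_LamF (lam : ℕ → ℝ) (h : ℝ) : LamF lam h 0 = (GSum lam h : ℂ) := by
  unfold LamF GSum
  rw [Complex.ofReal_tsum]
  refine tsum_congr fun k => ?_
  unfold om
  simp

/-- The integral over the points near the walls. -/
private theorem f16_near {X' : Set P} (hX : MeasurableSet X') {g : P × P → ℝ}
    (hg : Measurable g) {K v : ℝ} (hK : 0 ≤ K)
    (hin : ∀ x ∈ X', ∫⁻ ξ in Sq2, ENNReal.ofReal (g (x, ξ)) ≤ ENNReal.ofReal K)
    (hv : volume X' ≤ ENNReal.ofReal v) :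
    ∫⁻ z in X' ×ˢ Sq2, ENNReal.ofReal (g z) ≤ ENNReal.ofReal (K * v) := by
  have e : (volume : Measure (P × P)).restrict (X' ×ˢ Sq2) =
      ((volume : Measure P).restrict X').prod ((volume : Measure P).restrict Sq2) := by
    rw [Measure.prod_restrict]
    rfl
  rw [e, lintegral_prod _ (hg.ennreal_ofReal.aemeasurable)]
  calc ∫⁻ x in X', ∫⁻ ξ in Sq2, ENNReal.ofReal (g (x, ξ))
      ≤ ∫⁻ _ in X', ENNReal.ofReal K := by
        refine setLIntegral_mono' hX hin
    _ = ENNReal.ofReal K * volume X' := by rw [setLIntegral_const]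
    _ ≤ ENNReal.ofReal K * ENNReal.ofReal v := by gcongr
    _ = ENNReal.ofReal (K * v) := by rw [ENNReal.ofReal_mul hK]

/-- The integral over the points away from the walls. -/
private theorem f16_far {X' : Set P} (hfin : volume X' ≠ ⊤)
    {g : P × P → ℝ} (hg : IntegrableOn g (X' ×ˢ Sq2)) {J : P → ℝ} (hJ : Integrable J)
    {ε : ℝ} (hin : ∀ x ∈ X', ∀ ξ ∈ Sq2, |g (x, ξ) - J ξ| ≤ ε) :
    |(∫ z in X' ×ˢ Sq2, g z) - volume.real X' * ∫ ξ in Sq2, J ξ| ≤
      ε * (volume.real X' * volume.real Sq2) := by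
  have hS := f16_meas_Sq2
  have e1 : ∫ z in X' ×ˢ Sq2, J z.2 = volume.real X' * ∫ ξ in Sq2, J ξ := by
    have h1 := setIntegral_prod_mul (μ := (volume : Measure P)) (ν := (volume : Measure P))
      (fun _ : P => (1 : ℝ)) J X' Sq2
    simp only [one_mul] at h1
    rw [Measure.volume_eq_prod, h1, setIntegral_const, smul_eq_mul, mul_one]
  have hv : volume (X' ×ˢ Sq2) < ⊤ := by
    rw [Measure.volume_eq_prod, Measure.prod_prod]
    exact ENNReal.mul_lt_top hfin.lt_top f16_volSq.lt_top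
  have hJi : IntegrableOn (fun z : P × P => J z.2) (X' ×ˢ Sq2) := by
    have h1 : Integrable (fun z : P × P => (1 : ℝ) * J z.2)
        (((volume : Measure P).restrict X').prod ((volume : Measure P).restrict Sq2)) := by
      have : IsFiniteMeasure ((volume : Measure P).restrict X') :=
        ⟨by rw [Measure.restrict_apply_univ]; exact hfin.lt_top⟩
      exact (integrable_const (1 : ℝ)).mul_prod hJ.integrableOn
    rw [Measure.prod_restrict] at h1
    simp only [one_mul] at h1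
    exact h1
  rw [← e1, ← integral_sub hg hJi, ← Real.norm_eq_abs]
  refine (norm_setIntegral_le_of_norm_le_const (C := ε) hv ?_).trans (le_of_eq ?_)
  · rintro ⟨x, ξ⟩ ⟨hx, hξ⟩
    exact hin x hx ξ hξ
  · congr 1
    rw [Measure.volume_eq_prod, measureReal_prod_prod]

/-- The missing area. -/
private theorem f16_area (G : Geo D) {δ κ v : ℝ} (hδ : 0 < δ) (hv0 : 0 ≤ v)
    (hv : volume (Nr G κ) ≤ ENNReal.ofReal v) :
    volume.real D ≤ volume.real (G.X δ \ Nr G κ) + v + G.V.card * (2 * th δ) ^ 2 := by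
  have hth : 0 < th δ := by unfold th; positivity
  have hsub : D ⊆ (G.X δ \ Nr G κ) ∪ (Nr G κ ∪ ⋃ u ∈ G.V, ball u (th δ)) := by
    intro x hx
    by_cases h1 : x ∈ Nr G κ
    · exact Or.inr (Or.inl h1)
    · by_cases h2 : G.Far (th δ) x
      · exact Or.inl ⟨⟨hx, h2⟩, h1⟩
      · unfold Geo.Far at h2
        push Not at h2
        obtain ⟨u, hu, h3⟩ := h2
        exact Or.inr (Or.inr (mem_biUnion (Finset.mem_coe.2 hu) h3))
  have hball : ∀ u ∈ G.V, volume (ball u (th δ)) ≤ ENNReal.ofReal ((2 * th δ) ^ 2) := by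
    intro u _
    have e : ball u (th δ) = ball u.1 (th δ) ×ˢ ball u.2 (th δ) := (ball_prod_same _ _ _).symm
    rw [e, Measure.volume_eq_prod, Measure.prod_prod, Real.volume_ball, Real.volume_ball,
      ← ENNReal.ofReal_mul (by positivity)]
    exact ENNReal.ofReal_le_ofReal (le_of_eq (by ring))
  have h4 : volume (⋃ u ∈ G.V, ball u (th δ)) ≤
      ENNReal.ofReal (G.V.card * (2 * th δ) ^ 2) := by
    refine (measure_biUnion_finset_le _ _).trans
      ((Finset.sum_le_card_nsmul _ _ _ hball).trans (le_of_eq ?_))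
    rw [nsmul_eq_mul, ← ENNReal.ofReal_natCast, ← ENNReal.ofReal_mul (Nat.cast_nonneg _)]
  have hfin : volume (G.X δ \ Nr G κ) ≠ ⊤ :=
    ne_top_of_le_ne_top (f16_volD G) (measure_mono fun x hx => hx.1.1)
  have h5 : volume D ≤ volume (G.X δ \ Nr G κ) +
      (ENNReal.ofReal v + ENNReal.ofReal (G.V.card * (2 * th δ) ^ 2)) :=
    (measure_mono hsub).trans ((measure_union_le _ _).trans
      (add_le_add le_rfl ((measure_union_le _ _).trans (add_le_add hv h4))))
  have h6 := ENNReal.toReal_mono (by finiteness) h5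
  rw [ENNReal.toReal_add hfin (by finiteness), ENNReal.toReal_add (by finiteness) (by finiteness),
    ENNReal.toReal_ofReal hv0, ENNReal.toReal_ofReal (by positivity), ← add_assoc] at h6
  exact h6

private theorem f16_le {c : ℝ} (hc : 0 < c) : ∀ᶠ δ in 𝓝[>] (0 : ℝ), δ ≤ c := by
  have h1 : Iic c ∈ 𝓝 (0 : ℝ) := Iic_mem_nhds hc
  exact mem_nhdsWithin_of_mem_nhds h1

/-- The estimate of the trace. -/
private theorem f16_est (S : Spec D) (G : Geo D) : ∃ K : ℝ, 0 ≤ K ∧ ∀ᶠ δ in 𝓝[>] (0 : ℝ),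
    ∃ a : ℝ, |a - volume.real D| ≤ K * δ ∧
      |cst δ * (2 * Real.pi * hh δ) ^ 2 * GSum S.lam (hh δ) - a * Z0 (hh δ)| ≤ K * δ * sh δ := by
  obtain ⟨C1, hC1⟩ := high_le S G
  obtain ⟨C2, hC2⟩ := low_int S G
  obtain ⟨C3, hC3⟩ := near_wall_area G
  set A : ℝ := volume.real D with hA
  set Q : ℝ := volume.real Sq2 with hQ
  have hA0 : 0 ≤ A := measureReal_nonneg
  have hQ0 : 0 ≤ Q := measureReal_nonneg
  refine ⟨1 + |C1| + 4 * |C2| * |C3| + A * Q + A + 4 * |C3| + 4 * G.V.card, by positivity, ?_⟩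
  filter_upwards [hC1, hC2, trace_formula S G 0, gq_free S G, J0_high,
    f16_le (by norm_num : (0 : ℝ) < 1 / 4), f16_le G.pos, self_mem_nhdsWithin]
    with δ h1 h2 htr hfree hJh hδ4 hδρ hδ
  have hδ0 : (0 : ℝ) < δ := hδ
  have hδ1 : δ ≤ 1 := by linarith
  have hh0 : 0 < hh δ := by unfold hh; positivity
  have hsh : 0 < sh δ := by unfold sh; positivity
  have hκ : 0 < kap δ := by unfold kap; positivity
  have hth : 0 < th δ := by unfold th; positivity
  have hκδ : kap δ ≤ δ := by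
    unfold kap
    exact pow_le_of_le_one hδ0.le hδ1 (by norm_num)
  have hthδ : th δ ≤ δ := by
    unfold th
    exact pow_le_of_le_one hδ0.le hδ1 (by norm_num)
  have hth2 : th δ ^ 2 ≤ δ := by
    have h3 : th δ ^ 2 ≤ th δ := pow_le_of_le_one hth.le (hthδ.trans hδ1) (by norm_num)
    exact h3.trans hthδ
  have hshδ : sh δ ≤ δ := by
    unfold sh
    exact pow_le_of_le_one hδ0.le hδ1 (by norm_num)
  have hhsh : hh δ = sh δ * sh δ := by
    unfold hh sh
    rw [← pow_add]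
  obtain ⟨W⟩ := exists_walls G (ρ := th δ / 4) (by positivity) (by linarith [G.pos])
  obtain ⟨hint, htr⟩ := htr W
  have h1 := h1 W
  have h2 := h2 W
  have hfree := hfree W
  set g : P × P → ℝ := fun z => S.gq (hh δ) (W.v δ z 0) with hg
  have hq : ∀ z, qW S W δ 0 z = (g z : ℂ) := fun z => f16_gq S hh0 _
  have hqf : qW S W δ 0 = fun z => (g z : ℂ) := funext hq
  have hg0 : ∀ z, 0 ≤ g z := fun z => (gq_summable S hh0 _).2.1
  have hgm : Measurable g := by
    have h3 := (qW_basic S W hδ0 0).1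
    rw [hqf] at h3
    have h4 := Complex.measurable_re.comp h3
    exact h4
  rw [hqf] at hint htr
  have hgi : IntegrableOn g (G.X δ ×ˢ univ) := by
    have h3 := hint.re
    exact h3
  set N : Set P := Nr G (4 * kap δ) with hN
  have hNm : MeasurableSet N := f16_meas_N G _
  have hXm : MeasurableSet (G.X δ) := f16_meas_X G δ
  obtain ⟨i1, i2, i3, hsp⟩ := f16_split hXm hNm hgi
  set I1 : ℝ := ∫ z in G.X δ ×ˢ Sq2ᶜ, g z with hI1
  set I2 : ℝ := ∫ z in (G.X δ ∩ N) ×ˢ Sq2, g z with hI2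
  set I3 : ℝ := ∫ z in (G.X δ \ N) ×ˢ Sq2, g z with hI3
  set X' : Set P := G.X δ \ N with hX'
  have hX'D : X' ⊆ D := fun x hx => hx.1.1
  have hX'm : MeasurableSet X' := hXm.diff hNm
  have hX'fin : volume X' ≠ ⊤ := ne_top_of_le_ne_top (f16_volD G) (measure_mono hX'D)
  set a : ℝ := volume.real X' with ha
  have ha0 : 0 ≤ a := measureReal_nonneg
  have haA : a ≤ A := measureReal_mono hX'D (f16_volD G)
  have hNv : volume N ≤ ENNReal.ofReal (|C3| * (4 * kap δ)) := by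
    refine (hC3 (4 * kap δ) (by positivity) (by linarith)).trans
      (ENNReal.ofReal_le_ofReal ?_)
    exact mul_le_mul_of_nonneg_right (le_abs_self _) (by positivity)
  -- the trace
  have hT : |cst δ * (2 * Real.pi * hh δ) ^ 2 * GSum S.lam (hh δ) - (I1 + I2 + I3)| ≤
      δ * hh δ := by
    beta_reduce at htr
    rw [f16_LamF, integral_complex_ofReal, hsp, ← Complex.ofReal_mul, ← Complex.ofReal_sub,
      Complex.norm_real, Real.norm_eq_abs] at htr
    exact htr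
  -- I1
  have hb1 : I1 ≤ |C1| * sh δ ^ 3 := by
    refine f16_lint i1 hg0 (by positivity) (h1.trans (ENNReal.ofReal_le_ofReal ?_))
    exact mul_le_mul_of_nonneg_right (le_abs_self _) (by positivity)
  have hb10 : 0 ≤ I1 := setIntegral_nonneg (hXm.prod f16_meas_Sq2.compl) fun z _ => hg0 z
  -- I2
  have hb2 : I2 ≤ (|C2| * sh δ) * (|C3| * (4 * kap δ)) := by
    refine f16_lint i2 hg0 (by positivity) (f16_near (hXm.inter hNm) hgm (by positivity) ?_
      ((measure_mono inter_subset_right).trans hNv))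
    intro x hx
    have hxY : x ∈ G.Y δ := by
      refine ⟨subset_closure hx.1.1, fun u hu => ?_⟩
      have h5 := hx.1.2 u hu
      linarith
    refine (h2 x hxY).trans (ENNReal.ofReal_le_ofReal ?_)
    exact mul_le_mul_of_nonneg_right (le_abs_self _) hsh.le
  have hb20 : 0 ≤ I2 := setIntegral_nonneg ((hXm.inter hNm).prod f16_meas_Sq2) fun z _ => hg0 z
  -- I3
  obtain ⟨hJ01, -, hJi, hJint⟩ := J0_basic hh0
  have hb3 : |I3 - a * ∫ ξ in Sq2, J0 (hh δ) ξ| ≤ δ ^ 1400 * (a * Q) := by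
    refine f16_far hX'fin i3 hJi fun x hx ξ hξ => ?_
    refine hfree x hx.1 ⟨fun h5 => ?_, fun h5 => ?_⟩ ξ hξ
    · by_contra h6
      push Not at h6
      exact hx.2 ⟨hx.1.1, Or.inl ⟨_, (W.near1 x h5).1, h6⟩⟩
    · by_contra h6
      push Not at h6
      exact hx.2 ⟨hx.1.1, Or.inr ⟨_, (W.near2 x h5).1, h6⟩⟩
  have hJ0 : 0 ≤ ∫ ξ in Sq2ᶜ, J0 (hh δ) ξ :=
    setIntegral_nonneg f16_meas_Sq2.compl fun ξ _ => (hJ01 ξ).1
  have hJs : (∫ ξ in Sq2, J0 (hh δ) ξ) + ∫ ξ in Sq2ᶜ, J0 (hh δ) ξ = Z0 (hh δ) := by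
    rw [integral_add_compl f16_meas_Sq2 hJi, hJint]
  have hpow : ∀ n : ℕ, 41 ≤ n → δ ^ n ≤ δ * sh δ := by
    intro n hn
    have h5 : δ * sh δ = δ ^ 41 := by
      unfold sh
      rw [← pow_succ']
    rw [h5]
    exact pow_le_pow_of_le_one hδ0.le hδ1 hn
  have hsum : ∫ ξ in Sq2, J0 (hh δ) ξ = Z0 (hh δ) - ∫ ξ in Sq2ᶜ, J0 (hh δ) ξ := by linarith
  rw [hsum] at hb3
  have ht : δ * sh δ ≥ 0 := by positivity
  -- bounds by the common scale
  have e0 : δ * hh δ ≤ δ * sh δ := by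
    rw [hhsh]
    have h5 : sh δ * sh δ ≤ sh δ := mul_le_of_le_one_left hsh.le (hshδ.trans hδ1)
    exact mul_le_mul_of_nonneg_left h5 hδ0.le
  have e1 : |C1| * sh δ ^ 3 ≤ |C1| * (δ * sh δ) := by
    refine mul_le_mul_of_nonneg_left ?_ (abs_nonneg _)
    have h5 : sh δ ^ 3 = sh δ * sh δ * sh δ := by ring
    rw [h5]
    refine mul_le_mul_of_nonneg_right ?_ hsh.le
    exact (mul_le_of_le_one_left hsh.le (hshδ.trans hδ1)).trans hshδ
  have e2 : (|C2| * sh δ) * (|C3| * (4 * kap δ)) ≤ 4 * |C2| * |C3| * (δ * sh δ) := by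
    have h5 : (|C2| * sh δ) * (|C3| * (4 * kap δ)) = 4 * |C2| * |C3| * (kap δ * sh δ) := by ring
    rw [h5]
    refine mul_le_mul_of_nonneg_left ?_ (by positivity)
    exact mul_le_mul_of_nonneg_right hκδ hsh.le
  have e3 : δ ^ 1400 * (a * Q) ≤ A * Q * (δ * sh δ) := by
    have h5 : a * Q ≤ A * Q := mul_le_mul_of_nonneg_right haA hQ0
    calc δ ^ 1400 * (a * Q) ≤ (δ * sh δ) * (A * Q) :=
          mul_le_mul (hpow 1400 (by norm_num)) h5 (by positivity) ht
      _ = A * Q * (δ * sh δ) := by ring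
  have e4 : a * ∫ ξ in Sq2ᶜ, J0 (hh δ) ξ ≤ A * (δ * sh δ) :=
    mul_le_mul haA (hJh.trans (hpow 1500 (by norm_num))) hJ0 hA0
  have e40 : 0 ≤ a * ∫ ξ in Sq2ᶜ, J0 (hh δ) ξ := mul_nonneg ha0 hJ0
  refine ⟨a, ?_, ?_⟩
  · have h5 := f16_area G (δ := δ) (κ := 4 * kap δ) hδ0 (by positivity) hNv
    rw [← hA, ← hN, ← hX', ← ha] at h5
    have h6 : |C3| * (4 * kap δ) ≤ 4 * |C3| * δ := by
      have h7 := mul_le_mul_of_nonneg_left hκδ (abs_nonneg C3)
      linarith
    have h8 : (G.V.card : ℝ) * (2 * th δ) ^ 2 ≤ 4 * G.V.card * δ := by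
      have h9 := mul_le_mul_of_nonneg_left hth2 (Nat.cast_nonneg (α := ℝ) G.V.card)
      have h10 : (G.V.card : ℝ) * (2 * th δ) ^ 2 = 4 * (G.V.card * th δ ^ 2) := by ring
      rw [h10]
      linarith
    have h9 : 0 ≤ (1 + |C1| + 4 * |C2| * |C3| + A * Q + A) * δ := by positivity
    rw [abs_le]
    constructor
    · nlinarith
    · have h11 : 0 ≤ (1 + |C1| + 4 * |C2| * |C3| + A * Q + A + 4 * |C3| + 4 * G.V.card) * δ := by
        positivity
      linarith
  · have h9 : 0 ≤ (4 * |C3| + 4 * (G.V.card : ℝ)) * (δ * sh δ) := by positivity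
    have h5 := abs_le.1 hT
    have h6 := abs_le.1 hb3
    have h7 : a * (Z0 (hh δ) - ∫ ξ in Sq2ᶜ, J0 (hh δ) ξ) =
        a * Z0 (hh δ) - a * ∫ ξ in Sq2ᶜ, J0 (hh δ) ξ := by ring
    rw [h7] at h6
    have h8 : (1 + |C1| + 4 * |C2| * |C3| + A * Q + A + 4 * |C3| + 4 * G.V.card) * δ * sh δ =
        δ * sh δ + |C1| * (δ * sh δ) + 4 * |C2| * |C3| * (δ * sh δ) + A * Q * (δ * sh δ) +
          A * (δ * sh δ) + (4 * |C3| + 4 * (G.V.card : ℝ)) * (δ * sh δ) := by ring
    rw [h8, abs_le]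
    constructor
    · linarith [h5.1, h6.1]
    · linarith [h5.2, h6.2]

/-- The area law for the window. Proof. `trace_formula` with `l = 0` (`om lam h 0 k = gk lam h k`,
so `LamF = GSum`, `qW = gq`): `cst (2πh)² GSum = ∫ z in X ×ˢ univ, gq + O (δ h)`. The part with
`z.2 ∉ Sq2` is `O (sh³)` (`high_le`). The part over the points of `X` within `4 κ` of a line of
`G.A` or `G.B` and `z.2 ∈ Sq2` is at most `4 C κ · C sh` (`near_wall_area`, `low_int`). For the
remaining points `x` (set `X'`) `W.Int (4 κ) x` holds and `∫ ξ in Sq2, gq = ∫ ξ in Sq2, J0 +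
O (16 δ ^ 1400) = Z0 + O (δ ^ 1300)` (`gq_free`, `J0_basic`, `J0_high`). So
`cst (2πh)² GSum = volume X' * Z0 + O (δ sh)`. `volume (D \ X') ≤ 4 C κ + #V (2 θ)² → 0`. Divide by
`Z0 ≥ c sh` (`Z0_bounds`, `√(hh δ) = sh δ`) and by `cst → 1` (`cst_near`). -/
theorem area_law (S : Spec D) (G : Geo D) :
    Tendsto (fun δ => (2 * Real.pi * hh δ) ^ 2 * GSum S.lam (hh δ) / Z0 (hh δ)) (𝓝[>] 0)
      (𝓝 (volume D).toReal) := by
  obtain ⟨K, hK0, hK⟩ := f16_est S G
  obtain ⟨c, C, hc, hZ⟩ := Z0_bounds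
  have hδt : Tendsto (fun δ : ℝ => δ) (𝓝[>] 0) (𝓝 0) := nhdsWithin_le_nhds
  -- the constant tends to one
  have hcst : Tendsto cst (𝓝[>] 0) (𝓝 1) := by
    have h1 : Tendsto (fun δ : ℝ => 1 - δ) (𝓝[>] 0) (𝓝 1) := by
      have h2 := hδt.const_sub 1
      rwa [sub_zero] at h2
    refine tendsto_of_tendsto_of_tendsto_of_le_of_le' h1 tendsto_const_nhds ?_ ?_
    · filter_upwards [cst_near, f16_le one_pos, self_mem_nhdsWithin] with δ h2 h3 h4
      have h5 : δ ^ 1000 ≤ δ := pow_le_of_le_one (le_of_lt h4) h3 (by norm_num)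
      linarith [h2.1]
    · filter_upwards [cst_near] with δ h2
      exact h2.2
  have hF : Tendsto (fun δ => cst δ * (2 * Real.pi * hh δ) ^ 2 * GSum S.lam (hh δ) / Z0 (hh δ))
      (𝓝[>] 0) (𝓝 (volume.real D)) := by
    rw [tendsto_iff_norm_sub_tendsto_zero]
    have h1 : Tendsto (fun δ : ℝ => (K / c + K) * δ) (𝓝[>] 0) (𝓝 0) := by
      have h2 := hδt.const_mul (K / c + K)
      rwa [mul_zero] at h2
    refine squeeze_zero' (Eventually.of_forall fun δ => norm_nonneg _) ?_ h1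
    filter_upwards [hK, self_mem_nhdsWithin] with δ h2 hδ
    have hδ0 : (0 : ℝ) < δ := hδ
    obtain ⟨a, h3, h4⟩ := h2
    have hh0 : 0 < hh δ := by unfold hh; positivity
    have hsh : 0 < sh δ := by unfold sh; positivity
    have hZ1 := (hZ (hh δ) hh0).2.1
    rw [gau_facts.1 δ hδ0] at hZ1
    have hZ0 : 0 < Z0 (hh δ) := lt_of_lt_of_le (by positivity) hZ1
    have h5 : cst δ * (2 * Real.pi * hh δ) ^ 2 * GSum S.lam (hh δ) / Z0 (hh δ) -
        volume.real D = (cst δ * (2 * Real.pi * hh δ) ^ 2 * GSum S.lam (hh δ) -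
          a * Z0 (hh δ)) / Z0 (hh δ) + (a - volume.real D) := by
      field_simp
      ring
    rw [h5]
    refine (norm_add_le _ _).trans ?_
    rw [add_mul]
    refine add_le_add ?_ h3
    rw [norm_div, Real.norm_eq_abs, Real.norm_eq_abs, abs_of_pos hZ0]
    rw [div_le_iff₀ hZ0]
    refine h4.trans ?_
    calc K * δ * sh δ = K / c * δ * (c * sh δ) := by field_simp
      _ ≤ K / c * δ * Z0 (hh δ) := mul_le_mul_of_nonneg_left hZ1 (by positivity)
  have h6 := hF.div hcst one_ne_zero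
  rw [div_one] at h6
  refine h6.congr' ?_
  filter_upwards [cst_near, f16_le (by norm_num : (0 : ℝ) < 1 / 2), self_mem_nhdsWithin]
    with δ h2 h3 h4
  have h5 : δ ^ 1000 ≤ δ := pow_le_of_le_one (le_of_lt h4) (by linarith) (by norm_num)
  have h7 : cst δ ≠ 0 := by
    have h8 : 0 < cst δ := by linarith [h2.1]
    exact h8.ne'
  simp only [Pi.div_apply]
  rw [mul_assoc, mul_div_assoc, mul_div_cancel_left₀ _ h7]

/-- `AR` (see `OutF`): `exists_spec`, `exists_geo`, `area_law`. -/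
theorem AR_pf (hD : RectDomain D) {lam : ℕ → ℝ} (hS : HasSpectrum D lam) :
    Tendsto (fun δ => (2 * Real.pi * hh δ) ^ 2 * GSum lam (hh δ) / Z0 (hh δ)) (𝓝[>] 0)
      (𝓝 (volume D).toReal) := by
  obtain ⟨G, -⟩ := exists_geo hD
  obtain ⟨S, rfl⟩ := exists_spec G.isOpen hS
  exact area_law S G

end

end Pool.Agent.MP4eed4eR
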