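import Pool.Agent.Lib.MP_4eed4e_an_R.OutA1
import Pool.Agent.Lib.MP_4eed4e_an_R.OutA2
import Pool.Agent.Lib.MP_4eed4e_an_R.OutA3
import Pool.Agent.Lib.MP_4eed4e_an_R.OutA4
import Pool.Agent.Lib.MP_4eed4e_an_R.OutA5
import Pool.Agent.Lib.MP_4eed4e_an_R.OutA6
import Pool.Agent.Lib.MP_4eed4e_an_R.OutA7

/-!
MP_4eed4e_an, project R, block A (geometry and billiard): all exported theorems.
-/
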