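import Pool.Agent.Lib.MP_4eed4e_an_R.BDefs
import Pool.Agent.Lib.MP_4eed4e_an_R.B02
import Pool.Agent.Lib.MP_4eed4e_an_R.B03
import Pool.Agent.Lib.MP_4eed4e_an_R.B04
import Pool.Agent.Lib.MP_4eed4e_an_R.B05
import Pool.Agent.Lib.MP_4eed4e_an_R.B07
import Pool.Agent.Lib.MP_4eed4e_an_R.B08
import Pool.Agent.Lib.MP_4eed4e_an_R.B09
import Pool.Agent.Lib.MP_4eed4e_an_R.B10
import Pool.Agent.Lib.MP_4eed4e_an_R.B11
import Pool.Agent.Lib.MP_4eed4e_an_R.B12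
import Pool.Agent.Lib.MP_4eed4e_an_R.B13
import Pool.Agent.Lib.MP_4eed4e_an_R.B14

/-!
MP_4eed4e_an, project R, block B (abstract): all exported theorems.
-/
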