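import Pool.Agent.Lib.MP_4eed4e_an_R.C05
import Pool.Agent.Lib.MP_4eed4e_an_R.C06
import Pool.Agent.Lib.MP_4eed4e_an_R.C07
import Pool.Agent.Lib.MP_4eed4e_an_R.C08
import Pool.Agent.Lib.MP_4eed4e_an_R.C09
import Pool.Agent.Lib.MP_4eed4e_an_R.C10
import Pool.Agent.Lib.MP_4eed4e_an_R.C11
import Pool.Agent.Lib.MP_4eed4e_an_R.C19
import Pool.Agent.Lib.MP_4eed4e_an_R.C20
import Pool.Agent.Lib.MP_4eed4e_an_R.C25
import Pool.Agent.Lib.MP_4eed4e_an_R.C29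
import Pool.Agent.Lib.MP_4eed4e_an_R.C30

/-!
MP_4eed4e_an, project R, block C (packets): all exported theorems.
-/
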