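import Pool.Agent.Lib.MP_4eed4e_an_R.D01
import Pool.Agent.Lib.MP_4eed4e_an_R.D02
import Pool.Agent.Lib.MP_4eed4e_an_R.D03
import Pool.Agent.Lib.MP_4eed4e_an_R.D06
import Pool.Agent.Lib.MP_4eed4e_an_R.D07
import Pool.Agent.Lib.MP_4eed4e_an_R.D08
import Pool.Agent.Lib.MP_4eed4e_an_R.D15
import Pool.Agent.Lib.MP_4eed4e_an_R.D16

/-!
MP_4eed4e_an, project R, block D (local analysis): all exported theorems.
-/
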