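import Pool.Agent.Lib.MP_4eed4e_an_RE.EProf
import Pool.Agent.Lib.MP_4eed4e_an_RE.ERet
import Pool.Agent.Lib.MP_4eed4e_an_RE.ETube

/-!
MP_4eed4e_an, project R, block E (the return estimate): all exported theorems.
-/
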