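import Pool.Agent.Lib.MP_4eed4e_an_R.F15
import Pool.Agent.Lib.MP_4eed4e_an_R.F16

/-!
MP_4eed4e_an, project R, block F (trace asymptotics). Statements exported to block G.
-/

namespace Pool.Agent.MP4eed4eR

open MeasureTheory Set Filter Topology Metric
open scoped ComplexConjugate ContDiff

noncomputable section

variable {D : Set P}

/-- K2: the trace is small unless `l` belongs to a locally finite set. -/
theorem K2 (hD : RectDomain D) {lam : ℕ → ℝ} (hS : HasSpectrum D lam) : ∃ m₀ > 0, ∀ X : ℝ,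
    ∃ F : Set ℝ, F.Finite ∧ (∀ l ∈ F, m₀ ≤ l) ∧ ∀ l, 0 < l → l ≤ X → l ∉ F →
      Tendsto (fun δ => (hh δ : ℂ) * LamF lam (hh δ) l) (𝓝[>] 0) (𝓝 0) :=
  K2_pf hD hS

/-- K1: the trace is not small at the double width of a rectangle between two sides. -/
theorem K1 (hD : RectDomain D) {lam : ℕ → ℝ} (hS : HasSpectrum D lam) {a w b₁ b₂ : ℝ}
    (hw : 0 < w) (hb : b₁ < b₂) (hin : Ioo a (a + w) ×ˢ Ioo b₁ b₂ ⊆ D)
    (hl : ∀ y ∈ Ioo b₁ b₂, ((a, y) : P) ∈ frontier D)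
    (hr : ∀ y ∈ Ioo b₁ b₂, ((a + w, y) : P) ∈ frontier D) :
    ¬Tendsto (fun δ => (hh δ : ℂ) * LamF lam (hh δ) (2 * w)) (𝓝[>] 0) (𝓝 0) :=
  K1_pf hD hS hw hb hin hl hr

/-- K1 for the other direction. -/
theorem K1' (hD : RectDomain D) {lam : ℕ → ℝ} (hS : HasSpectrum D lam) {b w a₁ a₂ : ℝ}
    (hw : 0 < w) (ha : a₁ < a₂) (hin : Ioo a₁ a₂ ×ˢ Ioo b (b + w) ⊆ D)
    (hl : ∀ y ∈ Ioo a₁ a₂, ((y, b) : P) ∈ frontier D)
    (hr : ∀ y ∈ Ioo a₁ a₂, ((y, b + w) : P) ∈ frontier D) :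
    ¬Tendsto (fun δ => (hh δ : ℂ) * LamF lam (hh δ) (2 * w)) (𝓝[>] 0) (𝓝 0) :=
  K1'_pf hD hS hw ha hin hl hr

/-- AR: the area law of the window. -/
theorem AR (hD : RectDomain D) {lam : ℕ → ℝ} (hS : HasSpectrum D lam) :
    Tendsto (fun δ => (2 * Real.pi * hh δ) ^ 2 * GSum lam (hh δ) / Z0 (hh δ)) (𝓝[>] 0)
      (𝓝 (volume D).toReal) :=
  AR_pf hD hS

end

end Pool.Agent.MP4eed4eR
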